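import Mathlib

set_option autoImplicit false

open MeasureTheory

namespace Pool.Agent.MP_14ad9d_nt.Full

/-- the additive character of period one -/
noncomputable def ee (x : ℝ) : ℂ := Complex.exp (2 * Real.pi * x * Complex.I)

/-- Haar probability measure on the torus -/
noncomputable def muT (m : ℕ) : Measure (UnitAddTorus (Fin m)) :=
  Measure.pi fun _ => AddCircle.haarAddCircle

/-- the Fourier transform of a finitely supported function on the lattice -/
noncomputable def hat {m : ℕ} (f : (Fin m → ℤ) →₀ ℝ) (θ : UnitAddTorus (Fin m)) : ℂ :=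
  f.sum fun n a => (a : ℂ) * UnitAddTorus.mFourier n θ

/-- major arcs of level `R` at scale `N` -/
def arcs (m : ℕ) (N R : ℝ) : Set (UnitAddTorus (Fin m)) :=
  {θ | ∃ q : ℕ, 1 ≤ q ∧ (q : ℝ) ≤ R ∧ ‖q • θ‖ ≤ R / N}

/-- the mass of the Fourier transform on a set -/
noncomputable def mass {m : ℕ} (f : (Fin m → ℤ) →₀ ℝ) (S : Set (UnitAddTorus (Fin m))) : ℝ :=
  ∫ θ in S, ‖hat f θ‖ ^ 2 ∂(muT m)

/-- the Weyl sum of `l`-th powers over a box -/
noncomputable def wsum {A : Type} [CommRing A] {m : ℕ} (b : Module.Basis (Fin m) ℤ A) (l L : ℕ)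
    (θ : UnitAddTorus (Fin m)) : ℂ :=
  ∑ s ∈ Fintype.piFinset (fun _ : Fin m => Finset.Icc (1 : ℤ) L),
    UnitAddTorus.mFourier (b.equivFun ((b.equivFun.symm s) ^ l)) θ

/-- the tent function -/
noncomputable def tent (u : ℝ) : ℝ := max 0 (1 - |u|)

end Pool.Agent.MP_14ad9d_nt.Full
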