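import Pool.Agent.MP_14ad9d_nt.Full.Weyl1

set_option autoImplicit false

namespace Pool.Agent.MP_14ad9d_nt.Full

namespace WeylMAux

open Finset Polynomial Weyl1Aux

lemma shift {G : Type} [AddCommGroup G] (B B' : Finset G) (f : G → ℂ) (hf : ∀ s, ‖f s‖ = 1)
    (u : G) (h : ∀ s ∈ B', s + u ∈ B) :
    ‖∑ s ∈ B, f s - ∑ s ∈ B', f (s + u)‖ ≤ (B.card : ℝ) - B'.card := by
  classical
  have h1 : B'.map (addRightEmbedding u) ⊆ B := fun x hx => by
    obtain ⟨s, hs, rfl⟩ := mem_map.1 hx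
    exact h s hs
  have h2 : ∑ s ∈ B', f (s + u) = ∑ s ∈ B'.map (addRightEmbedding u), f s := by
    rw [sum_map]; rfl
  rw [h2, ← sum_sdiff h1, add_sub_cancel_right]
  refine (norm_sum_le _ _).trans ?_
  simp only [hf, sum_const, nsmul_eq_mul, mul_one]
  rw [card_sdiff_of_subset h1, Nat.cast_sub (card_le_card h1), card_map]

lemma avg {G : Type} [AddCommGroup G] (B B' : Finset G) (f : G → ℂ) (hf : ∀ s, ‖f s‖ = 1)
    (w : G) (n : ℕ) {η : ℝ} (h : ∀ k < n, ∀ s ∈ B', s + k • w ∈ B) (hB : B' ⊆ B)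
    (hne : B.Nonempty) (h1 : η * B.card ≤ ‖∑ s ∈ B, f s‖)
    (h2 : (B.card : ℝ) - B'.card ≤ η / 2 * B.card) :
    ∃ s, η / 2 * n ≤ ‖∑ k ∈ range n, f (s + k • w)‖ := by
  have a1 : (n : ℂ) * ∑ s ∈ B, f s = ∑ k ∈ range n, (∑ s ∈ B, f s - ∑ s ∈ B', f (s + k • w))
      + ∑ s ∈ B', ∑ k ∈ range n, f (s + k • w) := by
    rw [sum_sub_distrib, sum_comm (s := B'), sub_add_cancel, sum_const, card_range, nsmul_eq_mul]
  have a2 := a1 ▸ (norm_add_le _ _).trans (add_le_add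
    ((norm_sum_le _ _).trans (sum_le_sum fun k hk => shift B B' f hf _ (h k (mem_range.1 hk))))
    ((norm_sum_le B' fun s => ∑ k ∈ range n, f (s + k • w)).trans
      (sum_le_sum_of_subset_of_nonneg hB fun _ _ _ => norm_nonneg _)))
  rw [norm_mul, Complex.norm_natCast, sum_const, card_range, nsmul_eq_mul] at a2
  obtain ⟨s, -, hs⟩ := exists_le_of_sum_le hne (f := fun _ => η / 2 * n)
    (g := fun s => ‖∑ k ∈ range n, f (s + k • w)‖) (by
      rw [sum_const, nsmul_eq_mul]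
      have hn : (0 : ℝ) ≤ n := Nat.cast_nonneg n
      nlinarith [mul_le_mul_of_nonneg_left h1 hn, mul_le_mul_of_nonneg_left h2 hn])
  exact ⟨s, hs⟩

lemma polar {A : Type} [CommRing A] {l : ℕ} (hl : 1 ≤ l) (H : AddSubgroup A)
    (h : ∀ x, x ^ l ∈ H) : ∃ N : ℕ, 1 ≤ N ∧ ∀ x, N • x ∈ H := by
  have a : ∀ j d, d + j = l → ∃ p : ℤ[X], p.natDegree ≤ d ∧ 0 < p.coeff d ∧
      ∀ x : A, aeval x p ∈ H := by
    intro j
    induction j with
    | zero =>
      rintro d rfl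
      exact ⟨X ^ d, by simp, by simp, fun x => by simpa using h x⟩
    | succ j ih =>
      intro d hd
      obtain ⟨p, p1, p2, p3⟩ := ih (d + 1) (by omega)
      refine ⟨_, (diff p1 1).1, ?_, fun x => ?_⟩
      · rw [(diff p1 1).2]; positivity
      · rw [map_sub, taylor_apply, aeval_comp]
        exact H.sub_mem (p3 _) (p3 _)
  obtain ⟨p, p1, p2, p3⟩ := a (l - 1) 1 (by omega)
  refine ⟨(p.coeff 1).toNat, by omega, fun x => ?_⟩
  have := H.sub_mem (p3 x) (p3 0)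
  rw [eq_X_add_C_of_natDegree_le_one p1] at this
  rw [← natCast_zsmul, Int.toNat_of_nonneg p2.le]
  simpa using this

variable {A : Type} [CommRing A] {m : ℕ} (b : Module.Basis (Fin m) ℤ A) (l : ℕ)

/-- the additive form attached to a real vector -/
noncomputable def psi (t : Fin m → ℝ) : A →+ ℝ where
  toFun a := ∑ i, (b.equivFun a i : ℝ) * t i
  map_zero' := by simp
  map_add' x y := by simp [add_mul, sum_add_distrib]

lemma mF (t : Fin m → ℝ) (a : A) :
    UnitAddTorus.mFourier (b.equivFun a) (fun i => (t i : UnitAddCircle)) = ee (psi b t a) := by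
  have e : ee (psi b t a) = ∏ i, ee ((b.equivFun a i : ℝ) * t i) := by
    unfold ee
    rw [← Complex.exp_sum]
    congr 1
    simp [psi, mul_sum, sum_mul]
  rw [e]
  simp only [UnitAddTorus.mFourier, ContinuousMap.coe_mk, fourier_coe_apply]
  refine prod_congr rfl fun i _ => ?_
  unfold ee
  congr 1
  push_cast
  ring

/-- the box -/
noncomputable def box (m : ℕ) (x y : ℤ) : Finset (Fin m → ℤ) :=
  Fintype.piFinset fun _ : Fin m => Finset.Icc x y

/-- simultaneous approximation on a set of ring elements -/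
def Good (X : Set A) : Prop := ∃ C : ℕ, ∀ η : ℝ, 0 < η → η ≤ 1 / 2 → ∀ L : ℕ, 1 ≤ L →
  ∀ t : Fin m → ℝ,
    η * (L : ℝ) ^ m ≤ ‖∑ s ∈ box m 1 L, ee (psi b t ((b.equivFun.symm s) ^ l))‖ →
      ∃ q : ℕ, 1 ≤ q ∧ (q : ℝ) ≤ η⁻¹ ^ C ∧ ∀ x ∈ X, nr (q * psi b t x) ≤ η⁻¹ ^ C / (L : ℝ) ^ l

lemma two_le {η : ℝ} (h0 : 0 < η) (h1 : η ≤ 1 / 2) : 2 ≤ η⁻¹ := by
  rw [le_inv_comm₀ (by norm_num) h0]; linarith

lemma le_pw {E : ℝ} (h : 2 ≤ E) (n : ℕ) : (n : ℝ) ≤ E ^ n := by
  have : n ≤ 2 ^ n := Nat.lt_two_pow_self.le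
  calc (n : ℝ) ≤ (2 : ℝ) ^ n := by exact_mod_cast this
    _ ≤ E ^ n := by gcongr

lemma good_empty : Good b l ∅ :=
  ⟨0, fun _ _ _ _ _ _ _ => ⟨1, le_rfl, by simp, by simp⟩⟩

lemma good_union {X Y : Set A} (hX : Good b l X) (hY : Good b l Y) : Good b l (X ∪ Y) := by
  obtain ⟨C, hC⟩ := hX
  obtain ⟨D, hD⟩ := hY
  refine ⟨C + D, fun η h0 h1 L hL t h => ?_⟩
  obtain ⟨q, q1, q2, q3⟩ := hC η h0 h1 L hL t h
  obtain ⟨r, r1, r2, r3⟩ := hD η h0 h1 L hL t h
  refine ⟨q * r, Nat.mul_pos q1 r1, ?_, ?_⟩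
  · rw [pow_add, Nat.cast_mul]; gcongr
  · rintro x (hx | hx)
    · rw [Nat.cast_mul, mul_comm (q : ℝ), mul_assoc, add_comm, pow_add, mul_div_assoc]
      exact (nr_mul_le _ _).trans (mul_le_mul r2 (q3 x hx) (nr_nonneg _) (by positivity))
    · rw [Nat.cast_mul, mul_assoc, pow_add, mul_div_assoc]
      exact (nr_mul_le _ _).trans (mul_le_mul q2 (r3 x hx) (nr_nonneg _) (by positivity))

/-- the subgroup of well approximated elements -/
def GS : AddSubgroup A where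
  carrier := {x | Good b l {x}}
  zero_mem' := ⟨0, fun _ _ _ _ _ _ _ => ⟨1, le_rfl, by simp, by simp [nr]⟩⟩
  neg_mem' := by
    rintro x ⟨C, hC⟩
    refine ⟨C, fun η h0 h1 L hL t h => ?_⟩
    obtain ⟨q, q1, q2, q3⟩ := hC η h0 h1 L hL t h
    refine ⟨q, q1, q2, ?_⟩
    rintro _ rfl
    rw [map_neg, mul_neg, nr_neg]
    exact q3 x rfl
  add_mem' := by
    intro x y hx hy
    obtain ⟨C, hC⟩ := good_union b l hx hy
    refine ⟨C + 1, fun η h0 h1 L hL t h => ?_⟩
    obtain ⟨q, q1, q2, q3⟩ := hC η h0 h1 L hL t h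
    have E := two_le h0 h1
    refine ⟨q, q1, q2.trans (pow_le_pow_right₀ (by linarith) (by omega)), ?_⟩
    rintro _ rfl
    rw [map_add, mul_add, pow_succ, mul_div_right_comm]
    have := q3 x (Or.inl rfl)
    have := q3 y (Or.inr rfl)
    have := nr_add_le (q * psi b t x) (q * psi b t y)
    have : 0 ≤ η⁻¹ ^ C / (L : ℝ) ^ l := by positivity
    nlinarith

lemma card_box (x y : ℤ) : (box m x y).card = (y + 1 - x).toNat ^ m := by
  simp [box]

lemma good_pow (hl : 1 ≤ l) (v : A) : Good b l {v ^ l} := by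
  obtain ⟨C, hC⟩ := weyl1 l hl
  obtain ⟨D, D1, D2⟩ : ∃ D : ℕ, 1 ≤ D ∧ ∀ i, |b.equivFun v i| ≤ D := by
    refine ⟨∑ i, (b.equivFun v i).natAbs + 1, by omega, fun i => ?_⟩
    have := single_le_sum (f := fun i => (b.equivFun v i).natAbs) (fun _ _ => Nat.zero_le _)
      (mem_univ i)
    rw [Int.abs_eq_natAbs]
    exact_mod_cast this.trans (Nat.le_succ _)
  obtain ⟨M, hM⟩ : ∃ M : ℕ, M = 4 * (m + 1) * D := ⟨_, rfl⟩
  have M0 : (0 : ℝ) < M := by rw [hM]; positivity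
  refine ⟨2 * C + (2 * M + 1) * l, fun η h0 h1 L hL t h => ?_⟩
  have E := two_le h0 h1
  have E1 : 1 ≤ η⁻¹ := by linarith
  have hL' : (1 : ℝ) ≤ L := by exact_mod_cast hL
  have G : (2 * M * η⁻¹) ^ l ≤ η⁻¹ ^ ((2 * M + 1) * l) := by
    rw [pow_mul, pow_succ]
    gcongr
    exact_mod_cast le_pw E (2 * M)
  rcases lt_or_ge (η * L / M) 1 with hs | hs
  · refine ⟨1, le_rfl, by simpa using one_le_pow₀ E1, fun x _ => (nr_le_one _).trans ?_⟩
    rw [le_div_iff₀ (by positivity), one_mul]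
    refine le_trans ?_ (G.trans (pow_le_pow_right₀ E1 (by omega)))
    gcongr
    rw [div_lt_one M0] at hs
    rw [← div_eq_mul_inv, le_div_iff₀ h0]
    linarith
  set n := ⌊η * L / M⌋₊ with hn
  have n1 : 1 ≤ n := Nat.floor_pos.2 hs
  have n1' : (1 : ℝ) ≤ n := by exact_mod_cast n1
  have n2 : (n : ℝ) ≤ η * L / M := Nat.floor_le (by positivity)
  have n3 : η * L / M < n + 1 := Nat.lt_floor_add_one _
  have K1 : 4 * (m + 1) * ((n * D : ℕ) : ℝ) ≤ η * L := by
    rw [le_div_iff₀ M0, hM] at n2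
    push_cast at n2 ⊢
    linarith
  have K0 : (0 : ℝ) ≤ ((n * D : ℕ) : ℝ) := Nat.cast_nonneg _
  have m0 : (0 : ℝ) ≤ m := Nat.cast_nonneg _
  have K2 : 2 * ((n * D : ℕ) : ℝ) ≤ L := by nlinarith [mul_nonneg m0 K0]
  have K3 : 2 * (n * D) ≤ L := by exact_mod_cast K2
  have c1 : ((box m 1 L).card : ℝ) = (L : ℝ) ^ m := by simp [card_box]
  obtain ⟨s, hs⟩ := avg (box m 1 L) (box m (1 + (n * D : ℕ)) (L - (n * D : ℕ)))
    (fun s => ee (psi b t ((b.equivFun.symm s) ^ l))) (fun _ => norm_ee _) (b.equivFun v) n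
    (η := η) (by
      intro k hk s hs
      refine Fintype.mem_piFinset.2 fun i => ?_
      have a1 := mem_Icc.1 (Fintype.mem_piFinset.1 hs i)
      have a2 := abs_le.1 (D2 i)
      have a3 : (k : ℤ) ≤ n := by exact_mod_cast hk.le
      have a4 : (0 : ℤ) ≤ k := Int.natCast_nonneg _
      have a5 : (0 : ℤ) ≤ D := Int.natCast_nonneg _
      rw [mem_Icc, Pi.add_apply, Pi.smul_apply, nsmul_eq_mul]
      push_cast at a1
      constructor <;> nlinarith)
    (Fintype.piFinset_subset _ _ fun _ => Icc_subset_Icc (by omega) (by omega))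
    (Fintype.piFinset_nonempty.2 fun _ => nonempty_Icc.2 (by omega)) (c1 ▸ h) (by
      have e : ((L : ℤ) - (n * D : ℕ) + 1 - (1 + (n * D : ℕ))).toNat = L - 2 * (n * D) := by omega
      rw [c1, card_box, e, Nat.cast_pow, Nat.cast_sub K3, Nat.cast_mul, Nat.cast_ofNat]
      generalize ((n * D : ℕ) : ℝ) = K at *
      have a1 := one_add_mul_le_pow (a := -(2 * K / L)) (by
        have : 2 * K / L ≤ 1 := by rw [div_le_one (by positivity)]; exact K2
        linarith) m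
      have a2 : (L - 2 * K) ^ m = (1 + -(2 * K / L)) ^ m * (L : ℝ) ^ m := by
        rw [← mul_pow]; congr 1; field_simp; ring
      have a3 : m * (2 * K / L) ≤ η / 2 := by
        rw [← mul_div_assoc, div_le_iff₀ (by positivity)]; nlinarith
      have a4 : (0 : ℝ) < (L : ℝ) ^ m := by positivity
      rw [a2]
      nlinarith)
  set a := b.equivFun.symm s
  obtain ⟨q, q1, q2, q3⟩ := hC (η / 2) (by positivity) (by linarith) n n1
    (∑ j ∈ range (l + 1), monomial j (psi b t (v ^ j * a ^ (l - j) * (l.choose j : A))))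
    (natDegree_sum_le_of_forall_le _ _ fun j hj =>
      (natDegree_monomial_le _).trans (by simpa [Nat.lt_succ_iff] using hj)) (by
      refine hs.trans (le_of_eq ?_)
      congr 1
      refine sum_congr rfl fun k _ => ?_
      congr 1
      rw [map_add, map_nsmul, LinearEquiv.symm_apply_apply, add_comm, add_pow, map_sum,
        eval_finset_sum]
      refine sum_congr rfl fun j _ => ?_
      rw [eval_monomial, _root_.smul_pow, smul_mul_assoc, smul_mul_assoc, map_nsmul, nsmul_eq_mul,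
        Nat.cast_pow, mul_comm])
  have e2 : (η / 2)⁻¹ ^ C ≤ η⁻¹ ^ (2 * C) := by
    rw [pow_mul, inv_div, div_eq_mul_inv, sq]
    gcongr
  refine ⟨q, q1, q2.trans (e2.trans (pow_le_pow_right₀ E1 (by omega))), ?_⟩
  rintro _ rfl
  simp only [finset_sum_coeff, coeff_monomial, sum_ite_eq', mem_range, Nat.lt_succ_self, if_true,
    Nat.sub_self, pow_zero, Nat.choose_self, Nat.cast_one, mul_one] at q3
  refine le_trans q3 ?_
  rw [pow_add, mul_div_assoc, div_eq_mul_one_div]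
  refine mul_le_mul e2 ?_ (by positivity) (by positivity)
  refine le_trans ?_ (div_le_div_of_nonneg_right G (by positivity))
  rw [← div_pow, ← one_div_pow]
  refine pow_le_pow_left₀ (by positivity) ?_ l
  rw [div_lt_iff₀ M0] at n3
  rw [div_le_div_iff₀ (by positivity) (by positivity), mul_right_comm, ← div_eq_mul_inv,
    le_div_iff₀ h0]
  nlinarith

end WeylMAux

open WeylMAux in
/-- inverse theorem for Weyl sums of powers in a ring that is a lattice -/
theorem weylM {A : Type} [CommRing A] {m : ℕ} (b : Module.Basis (Fin m) ℤ A) (l : ℕ) (hl : 1 ≤ l) :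
    ∃ C : ℕ, ∀ η : ℝ, 0 < η → η ≤ 1 / 2 → ∀ L : ℕ, 1 ≤ L → ∀ θ : UnitAddTorus (Fin m),
      η * (L : ℝ) ^ m ≤ ‖wsum b l L θ‖ →
      ∃ q : ℕ, 1 ≤ q ∧ (q : ℝ) ≤ η⁻¹ ^ C ∧ ‖q • θ‖ ≤ η⁻¹ ^ C / (L : ℝ) ^ l := by
  classical
  obtain ⟨N, N1, N2⟩ := polar hl (GS b l) (good_pow b l hl)
  have a : ∀ s : Finset (Fin m), Good b l ((fun i => N • b i) '' s) := fun s => by
    induction s using Finset.induction_on with
    | empty => simpa using good_empty b l
    | insert i s _ ih =>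
      rw [Finset.coe_insert, Set.image_insert_eq, Set.insert_eq]
      exact good_union b l (N2 _) ih
  obtain ⟨C, hC⟩ := a Finset.univ
  refine ⟨C + N, fun η h0 h1 L hL θ h => ?_⟩
  obtain ⟨t, rfl⟩ : ∃ t : Fin m → ℝ, (fun i => (t i : UnitAddCircle)) = θ := by
    choose t ht using fun i => QuotientAddGroup.mk_surjective (θ i)
    exact ⟨t, funext ht⟩
  have E := two_le h0 h1
  simp only [wsum, mF] at h
  obtain ⟨q, q1, q2, q3⟩ := hC η h0 h1 L hL t h
  refine ⟨q * N, Nat.mul_pos q1 N1, ?_, ?_⟩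
  · rw [pow_add, Nat.cast_mul]
    exact mul_le_mul q2 (le_pw E N) (by positivity) (by positivity)
  · refine (pi_norm_le_iff_of_nonneg (by positivity)).2 fun i => ?_
    have e : psi b t (N • b i) = N * t i := by
      rw [map_nsmul, nsmul_eq_mul]
      simp [psi, Finsupp.single_apply]
    have := q3 _ ⟨i, by simp, rfl⟩
    rw [e, ← mul_assoc, ← Nat.cast_mul, ← nsmul_eq_mul, Weyl1Aux.nr, AddCircle.coe_nsmul] at this
    refine le_trans this ?_
    gcongr
    · linarith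
    · omega

end Pool.Agent.MP_14ad9d_nt.Full
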