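import Pool.Agent.MP_14ad9d_nt.Full.Add01
import Pool.Agent.MP_14ad9d_nt.Full.WeylM

set_option autoImplicit false

open MeasureTheory UnitAddTorus
open scoped ComplexConjugate

namespace Pool.Agent.MP_14ad9d_nt.Full.Add0Aux

theorem mul_bound {A : Type} [CommRing A] {m : ℕ} (b : Module.Basis (Fin m) ℤ A) :
    ∃ B : ℝ, 0 ≤ B ∧ ∀ x y : A,
      ‖b.equivFun (x * y)‖ ≤ B * (‖b.equivFun x‖ * ‖b.equivFun y‖) := by
  refine ⟨∑ i, ∑ j, ‖b.equivFun (b i * b j)‖, by positivity, fun x y => ?_⟩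
  have hx := b.sum_equivFun x
  have hy := b.sum_equivFun y
  have e : x * y = ∑ i, ∑ j, (b.equivFun x i * b.equivFun y j) • (b i * b j) := by
    conv_lhs => rw [← hx, ← hy, Finset.sum_mul_sum]
    refine Finset.sum_congr rfl fun i _ => Finset.sum_congr rfl fun j _ => ?_
    rw [smul_mul_smul_comm]
  rw [e, map_sum, Finset.sum_mul]
  refine (norm_sum_le _ _).trans (Finset.sum_le_sum fun i _ => ?_)
  rw [map_sum, Finset.sum_mul]
  refine (norm_sum_le _ _).trans (Finset.sum_le_sum fun j _ => ?_)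
  rw [map_smul]
  refine (norm_zsmul_le _ _).trans ?_
  rw [mul_comm, norm_mul]
  exact mul_le_mul_of_nonneg_left (mul_le_mul (norm_le_pi_norm _ i) (norm_le_pi_norm _ j)
    (norm_nonneg _) (norm_nonneg _)) (norm_nonneg _)

theorem pow_bound {A : Type} [CommRing A] {m : ℕ} (b : Module.Basis (Fin m) ℤ A) (l : ℕ) :
    ∃ Q : ℝ, 0 < Q ∧ ∀ (x : A) (L : ℝ), ‖b.equivFun x‖ ≤ L → ‖b.equivFun (x ^ l)‖ ≤ Q * L ^ l := by
  obtain ⟨B, hB, h⟩ := mul_bound b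
  induction l with
  | zero =>
    refine ⟨‖b.equivFun 1‖ + 1, by positivity, fun x L _ => ?_⟩
    simp
  | succ l ih =>
    obtain ⟨Q, hQ, h'⟩ := ih
    refine ⟨(B + 1) * Q, by positivity, fun x L hx => ?_⟩
    have hL : 0 ≤ L := (norm_nonneg _).trans hx
    rw [pow_succ]
    refine (h _ _).trans ?_
    have h1 : ‖b.equivFun (x ^ l)‖ * ‖b.equivFun x‖ ≤ Q * L ^ l * L :=
      mul_le_mul (h' x L hx) hx (norm_nonneg _) (by positivity)
    calc B * (‖b.equivFun (x ^ l)‖ * ‖b.equivFun x‖) ≤ (B + 1) * (Q * L ^ l * L) :=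
          mul_le_mul (by linarith) h1 (by positivity) (by positivity)
      _ = _ := by ring

theorem card_box (m L : ℕ) :
    (Fintype.piFinset (fun _ : Fin m => Finset.Icc (1 : ℤ) L)).card = L ^ m := by
  simp

theorem norm_wsum_le {A : Type} [CommRing A] {m : ℕ} (b : Module.Basis (Fin m) ℤ A) (l L : ℕ)
    (θ : UnitAddTorus (Fin m)) : ‖wsum b l L θ‖ ≤ (L : ℝ) ^ m := by
  unfold wsum
  refine (norm_sum_le _ _).trans (le_of_eq ?_)
  simp only [norm_mFourier_apply, Finset.sum_const, card_box, nsmul_eq_mul, mul_one, Nat.cast_pow]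

theorem continuous_wsum {A : Type} [CommRing A] {m : ℕ} (b : Module.Basis (Fin m) ℤ A) (l L : ℕ) :
    Continuous (wsum b l L) := by
  unfold wsum
  exact continuous_finsetSum _ fun s _ => (mFourier _).continuous

theorem re_wsum_ge {A : Type} [CommRing A] {m : ℕ} (b : Module.Basis (Fin m) ℤ A) (l L : ℕ)
    (Q : ℝ) (hQ : ∀ (x : A) (L : ℝ), ‖b.equivFun x‖ ≤ L → ‖b.equivFun (x ^ l)‖ ≤ Q * L ^ l)
    (θ : UnitAddTorus (Fin m)) (hθ : 8 * m * (Q * (L : ℝ) ^ l) * ‖θ‖ ≤ 1 / 2) :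
    (L : ℝ) ^ m / 2 ≤ (wsum b l L θ).re := by
  unfold wsum
  rw [Complex.re_sum]
  have : ∀ s ∈ Fintype.piFinset (fun _ : Fin m => Finset.Icc (1 : ℤ) L),
      (1 / 2 : ℝ) ≤ (mFourier (b.equivFun ((b.equivFun.symm s) ^ l)) θ).re := by
    intro s hs
    have h1 : ‖b.equivFun (b.equivFun.symm s)‖ ≤ (L : ℝ) := by
      rw [LinearEquiv.apply_symm_apply, pi_norm_le_iff_of_nonneg (by positivity)]
      intro i
      have := Finset.mem_Icc.mp (Fintype.mem_piFinset.mp hs i)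
      rw [Int.norm_eq_abs, abs_of_nonneg (by exact_mod_cast (by omega : (0 : ℤ) ≤ s i))]
      exact_mod_cast this.2
    have h2 := hQ _ _ h1
    have h3 := norm_mFourier_sub_one (b.equivFun ((b.equivFun.symm s) ^ l)) θ
    have h4 : 8 * m * ‖b.equivFun ((b.equivFun.symm s) ^ l)‖ * ‖θ‖ ≤
        8 * m * (Q * (L : ℝ) ^ l) * ‖θ‖ := by gcongr
    have h5 := Complex.abs_re_le_norm (mFourier (b.equivFun ((b.equivFun.symm s) ^ l)) θ - 1)
    rw [Complex.sub_re, Complex.one_re] at h5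
    have h6 := neg_abs_le ((mFourier (b.equivFun ((b.equivFun.symm s) ^ l)) θ).re - 1)
    linarith
  refine le_trans (le_of_eq ?_) (Finset.card_nsmul_le_sum _ _ _ this)
  rw [card_box, nsmul_eq_mul]
  push_cast; ring

theorem orth_wsum {A : Type} [CommRing A] {m : ℕ} (hm : 0 < m) (b : Module.Basis (Fin m) ℤ A)
    (l L W : ℕ) (hW : 0 < W) (f g : (Fin m → ℤ) →₀ ℝ)
    (h : ∀ s : A, s ≠ 0 → ∀ n, f n * g (n + b.equivFun (s ^ l)) = 0) :
    ∫ θ, hat f θ * wsum b l L ((W ^ l) • θ) * conj (hat g θ) ∂(muT m) = 0 := by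
  unfold wsum
  simp only [Finset.mul_sum, Finset.sum_mul, mFourier_nsmul]
  rw [integral_finsetSum]
  · refine Finset.sum_eq_zero fun s hs => orth f g _ fun n => ?_
    have h1 : ((W : ℤ) • b.equivFun.symm s) ≠ 0 := by
      intro h0
      have h2 := congrArg (fun x => b.equivFun x ⟨0, hm⟩) h0
      simp only [map_smul, LinearEquiv.apply_symm_apply, Pi.smul_apply, smul_eq_mul, map_zero,
        Pi.zero_apply, mul_eq_zero] at h2
      have := Finset.mem_Icc.mp (Fintype.mem_piFinset.mp hs ⟨0, hm⟩)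
      omega
    have h2 := h _ h1 n
    rw [smul_pow, map_smul] at h2
    push_cast
    exact h2
  · intro s _
    exact integrable_of_cont (((continuous_hat f).mul (mFourier _).continuous).mul
      (Complex.continuous_conj.comp (continuous_hat g)))

/-- the normalised Weyl sum adapted to the level `R` -/
theorem nu_exists {A : Type} [CommRing A] {m : ℕ} (hm : 0 < m) (b : Module.Basis (Fin m) ℤ A)
    (l : ℕ) (hl : 1 ≤ l) :
    ∃ C : ℕ, 1 ≤ C ∧ ∀ R : ℝ, 1 ≤ R → ∃ D : ℝ, 1 ≤ D ∧ ∃ N₁ : ℝ, ∀ N : ℝ, N₁ ≤ N →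
      ∃ ν : UnitAddTorus (Fin m) → ℂ, Continuous ν ∧ (∀ θ, ‖ν θ‖ ≤ 1) ∧
        (∀ θ ∈ arcs m N R, 1 / 2 ≤ (ν θ).re) ∧
        (∀ η : ℝ, 0 < η → η ≤ 1 / 2 → ∀ θ, η ≤ ‖ν θ‖ → θ ∈ arcs m N (D * η⁻¹ ^ C)) ∧
        ∀ f g : (Fin m → ℤ) →₀ ℝ,
          (∀ s : A, s ≠ 0 → ∀ n, f n * g (n + b.equivFun (s ^ l)) = 0) →
          ∫ θ, hat f θ * ν θ * conj (hat g θ) ∂(muT m) = 0 := by
  obtain ⟨C, hC⟩ := weylM b l hl
  obtain ⟨Q, hQ0, hQ⟩ := pow_bound b l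
  refine ⟨C + 1, by omega, fun R hR => ?_⟩
  obtain ⟨W, hW⟩ : ∃ W : ℕ, W = ⌊R⌋₊.factorial := ⟨_, rfl⟩
  have hW0 : 0 < W := hW ▸ Nat.factorial_pos _
  have hV : (1 : ℝ) ≤ (W : ℝ) ^ l := one_le_pow₀ (by exact_mod_cast hW0)
  have hm' : (0 : ℝ) < m := by exact_mod_cast hm
  obtain ⟨κ, hκ⟩ : ∃ κ : ℝ, κ = 16 * m * Q * (W : ℝ) ^ l * R := ⟨_, rfl⟩
  have hκ0 : 0 < κ := by rw [hκ]; positivity
  refine ⟨(W : ℝ) ^ l + 2 ^ l * κ, by nlinarith [mul_pos (pow_pos two_pos l : (0 : ℝ) < 2 ^ l) hκ0],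
    κ, fun N hN => ?_⟩
  have hN0 : 0 < N := hκ0.trans_le hN
  obtain ⟨n, hn1, hn2⟩ := exists_nat_pow_near (x := N / κ) (y := (2 : ℝ) ^ l)
    ((one_le_div hκ0).mpr hN) (one_lt_pow₀ one_lt_two (by omega))
  obtain ⟨L, hL⟩ : ∃ L : ℕ, L = 2 ^ n := ⟨_, rfl⟩
  have hL1 : 1 ≤ L := hL ▸ Nat.one_le_two_pow
  have hL0 : (0 : ℝ) < L := by exact_mod_cast hL1
  have hLl : (L : ℝ) ^ l = ((2 : ℝ) ^ l) ^ n := by
    rw [hL]; push_cast; rw [← pow_mul, ← pow_mul, mul_comm]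
  rw [pow_succ, ← hLl] at hn2
  rw [← hLl] at hn1
  have hLm : (0 : ℝ) < (L : ℝ) ^ m := by positivity
  have hnorm : ∀ z : ℂ, ‖z / (L : ℂ) ^ m‖ = ‖z‖ / (L : ℝ) ^ m := by
    intro z; rw [norm_div, norm_pow, Complex.norm_natCast]
  refine ⟨fun θ => wsum b l L ((W ^ l) • θ) / (L : ℂ) ^ m, ?_, ?_, ?_, ?_, ?_⟩
  · exact ((continuous_wsum b l L).comp (continuous_nsmul _)).div_const _
  · intro θ
    rw [hnorm, div_le_one hLm]
    exact norm_wsum_le b l L _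
  · rintro θ ⟨q, hq1, hq2, hq3⟩
    have hdvd : q ∣ W ^ l := by
      refine Dvd.dvd.trans ?_ (dvd_pow_self W (by omega))
      rw [hW]
      exact Nat.dvd_factorial hq1 (Nat.le_floor hq2)
    obtain ⟨t, ht⟩ := hdvd
    have ht' : (t : ℝ) ≤ (W : ℝ) ^ l := by
      have : t ≤ W ^ l := by rw [ht]; exact Nat.le_mul_of_pos_left _ hq1
      exact_mod_cast this
    have h1 : ‖(W ^ l) • θ‖ ≤ (W : ℝ) ^ l * (R / N) := by
      rw [ht, mul_comm q t, mul_smul]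
      exact (norm_nsmul_le).trans (mul_le_mul ht' hq3 (norm_nonneg _) (by positivity))
    have h2 : 8 * m * (Q * (L : ℝ) ^ l) * ‖(W ^ l) • θ‖ ≤ 1 / 2 := by
      calc 8 * m * (Q * (L : ℝ) ^ l) * ‖(W ^ l) • θ‖
          ≤ 8 * m * (Q * (N / κ)) * ((W : ℝ) ^ l * (R / N)) := by gcongr
        _ = 1 / 2 := by rw [hκ]; field_simp; norm_num
    have h3 := re_wsum_ge b l L Q hQ _ h2
    have h4 : (wsum b l L ((W ^ l) • θ) / (L : ℂ) ^ m).re =
        (wsum b l L ((W ^ l) • θ)).re / (L : ℝ) ^ m := by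
      rw [← Complex.div_ofReal_re]; push_cast; rfl
    rw [h4, le_div_iff₀ hLm]
    linarith
  · intro η hη0 hη θ hθ
    rw [hnorm, le_div_iff₀ hLm] at hθ
    obtain ⟨q, hq1, hq2, hq3⟩ := hC η hη0 hη L hL1 _ hθ
    have hη1 : 1 ≤ η⁻¹ := one_le_inv_iff₀.mpr ⟨hη0, by linarith⟩
    have hp : η⁻¹ ^ C ≤ η⁻¹ ^ (C + 1) := pow_le_pow_right₀ hη1 (by omega)
    have hp0 : 0 ≤ η⁻¹ ^ C := by positivity
    refine ⟨q * W ^ l, Nat.mul_pos hq1 (pow_pos hW0 l), ?_, ?_⟩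
    · push_cast
      rw [mul_comm]
      exact mul_le_mul (le_add_of_nonneg_right (by positivity)) (hq2.trans hp) (by positivity)
        (by positivity)
    · rw [mul_smul]
      refine hq3.trans ?_
      rw [div_le_div_iff₀ (by positivity) hN0]
      rw [div_lt_iff₀ hκ0] at hn2
      calc η⁻¹ ^ C * N ≤ η⁻¹ ^ (C + 1) * ((L : ℝ) ^ l * 2 ^ l * κ) :=
            mul_le_mul hp hn2.le hN0.le (by positivity)
        _ = (2 ^ l * κ) * η⁻¹ ^ (C + 1) * (L : ℝ) ^ l := by ring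
        _ ≤ _ := by gcongr; exact le_add_of_nonneg_left (by positivity)
  · intro f g h
    have h1 := orth_wsum hm b l L W hW0 f g h
    have e : ∀ θ, hat f θ * (wsum b l L ((W ^ l) • θ) / (L : ℂ) ^ m) * conj (hat g θ) =
        (hat f θ * wsum b l L ((W ^ l) • θ) * conj (hat g θ)) / (L : ℂ) ^ m := by
      intro θ; ring
    simp only [e]
    rw [integral_div, h1, zero_div]

end Pool.Agent.MP_14ad9d_nt.Full.Add0Aux
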