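import Pool.Agent.MP_14ad9d_nt.Full.Add01

set_option autoImplicit false

open MeasureTheory UnitAddTorus
open scoped ComplexConjugate

namespace Pool.Agent.MP_14ad9d_nt.Full.Add0Aux

/-- `φ` is integrable with integral `a` -/
def HI {m : ℕ} (φ : UnitAddTorus (Fin m) → ℝ) (a : ℝ) : Prop :=
  Integrable φ (muT m) ∧ ∫ θ, φ θ ∂(muT m) = a

theorem HI.add {m : ℕ} {φ ψ : UnitAddTorus (Fin m) → ℝ} {a b : ℝ} (h : HI φ a) (h' : HI ψ b) :
    HI (fun θ => φ θ + ψ θ) (a + b) :=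
  ⟨h.1.add h'.1, by rw [integral_add h.1 h'.1, h.2, h'.2]⟩

theorem HI.sub {m : ℕ} {φ ψ : UnitAddTorus (Fin m) → ℝ} {a b : ℝ} (h : HI φ a) (h' : HI ψ b) :
    HI (fun θ => φ θ - ψ θ) (a - b) :=
  ⟨h.1.sub h'.1, by rw [integral_sub h.1 h'.1, h.2, h'.2]⟩

theorem HI.mul {m : ℕ} {φ : UnitAddTorus (Fin m) → ℝ} {a : ℝ} (c : ℝ) (h : HI φ a) :
    HI (fun θ => c * φ θ) (c * a) :=
  ⟨h.1.const_mul c, by rw [integral_const_mul, h.2]⟩

theorem HI.sum {m : ℕ} (s : Finset ℕ) {φ : ℕ → UnitAddTorus (Fin m) → ℝ} {a : ℕ → ℝ}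
    (h : ∀ k, HI (φ k) (a k)) : HI (fun θ => ∑ k ∈ s, φ k θ) (∑ k ∈ s, a k) :=
  ⟨integrable_finsetSum _ fun k _ => (h k).1, by
    rw [integral_finsetSum _ fun k _ => (h k).1]
    exact Finset.sum_congr rfl fun k _ => (h k).2⟩

theorem HI.mass {m : ℕ} (f : (Fin m → ℤ) →₀ ℝ) {S : Set (UnitAddTorus (Fin m))}
    (hS : MeasurableSet S) : HI (S.indicator fun θ => ‖hat f θ‖ ^ 2) (mass f S) :=
  ⟨(integrable_of_cont ((continuous_hat f).norm.pow 2)).indicator hS, integral_indicator hS⟩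

theorem HI.one {m : ℕ} {S : Set (UnitAddTorus (Fin m))}
    (hS : MeasurableSet S) : HI (S.indicator fun _ => (1 : ℝ)) ((muT m).real S) :=
  ⟨(integrable_const (1 : ℝ)).indicator hS, by rw [integral_indicator hS]; simp⟩

open Classical in
/-- a pointwise bound by a sum over shells -/
theorem shell_bound {X : Type} (S : ℕ → Set X) (x : X) (t η ρ : ℝ) (hη : 0 ≤ η) (hρ0 : 0 < ρ)
    (hρ1 : ρ ≤ 1) (h0 : t ≤ η) (h : ∀ k, x ∉ S k → t ≤ η * ρ ^ k) (K : ℕ) :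
    t ≤ η * (ρ⁻¹ * ∑ k ∈ Finset.range (K + 1), ρ ^ k * (if x ∈ S k then 1 else 0) + ρ ^ K) := by
  have hnn : ∀ k ∈ Finset.range (K + 1), 0 ≤ ρ ^ k * (if x ∈ S k then (1 : ℝ) else 0) := by
    intro k _
    split_ifs <;> positivity
  have hsum := Finset.sum_nonneg hnn
  by_cases hK : x ∈ S K
  · have hex : ∃ k, x ∈ S k := ⟨K, hK⟩
    have h1 := Nat.find_spec hex
    have h2 : Nat.find hex ≤ K := Nat.find_min' hex hK
    have h3 := Finset.single_le_sum hnn (Finset.mem_range.mpr (Nat.lt_succ_of_le h2))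
    rw [if_pos h1, mul_one] at h3
    have h4 : t ≤ η * (ρ⁻¹ * ρ ^ Nat.find hex) := by
      rcases Nat.eq_zero_or_pos (Nat.find hex) with h5 | h5
      · rw [h5, pow_zero, mul_one]
        exact h0.trans (le_mul_of_one_le_right hη (one_le_inv_iff₀.mpr ⟨hρ0, hρ1⟩))
      · obtain ⟨j, hj⟩ : ∃ j, Nat.find hex = j + 1 := ⟨Nat.find hex - 1, by omega⟩
        have h6 := h j (Nat.find_min hex (by omega))
        rw [hj, pow_succ']
        rwa [inv_mul_cancel_left₀ hρ0.ne']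
    refine h4.trans (mul_le_mul_of_nonneg_left ?_ hη)
    have h7 : ρ⁻¹ * ρ ^ Nat.find hex ≤
        ρ⁻¹ * ∑ k ∈ Finset.range (K + 1), ρ ^ k * (if x ∈ S k then (1 : ℝ) else 0) :=
      mul_le_mul_of_nonneg_left h3 (by positivity)
    have h8 : 0 ≤ ρ ^ K := by positivity
    linarith
  · refine (h K hK).trans (mul_le_mul_of_nonneg_left ?_ hη)
    exact le_add_of_nonneg_left (by positivity)

theorem re_near (F G ν : ℂ) (e : ℝ) (hν : ‖ν‖ ≤ 1) (he : ‖F - G‖ ≤ e) (T : ℝ) (hT : 0 < T) :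
    ν.re * ‖F‖ ^ 2 - e / (2 * T) * ‖F‖ ^ 2 - e * T / 2 ≤ (F * ν * conj G).re := by
  have e0 : 0 ≤ e := (norm_nonneg _).trans he
  have h1 : F * ν * conj G = ν * ((‖F‖ ^ 2 : ℝ) : ℂ) - F * ν * conj (F - G) := by
    rw [map_sub, ← Complex.normSq_eq_norm_sq, Complex.normSq_eq_conj_mul_self]; ring
  have h2 : (F * ν * conj (F - G)).re ≤ e * ‖F‖ := by
    refine (Complex.re_le_norm _).trans ?_
    rw [norm_mul, norm_mul, Complex.norm_conj]
    calc ‖F‖ * ‖ν‖ * ‖F - G‖ ≤ ‖F‖ * 1 * e := by gcongr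
      _ = _ := by ring
  have h3 : ‖F‖ ≤ 1 / (2 * T) * ‖F‖ ^ 2 + T / 2 := by
    have : 1 / (2 * T) * ‖F‖ ^ 2 + T / 2 - ‖F‖ = (‖F‖ - T) ^ 2 / (2 * T) := by
      field_simp; ring
    have h4 : 0 ≤ (‖F‖ - T) ^ 2 / (2 * T) := by positivity
    linarith
  have h4 := mul_le_mul_of_nonneg_left h3 e0
  rw [h1, Complex.sub_re, Complex.re_mul_ofReal]
  have h5 : e * (1 / (2 * T) * ‖F‖ ^ 2 + T / 2) = e / (2 * T) * ‖F‖ ^ 2 + e * T / 2 := by ring
  linarith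

theorem re_far (F G ν : ℂ) (t : ℝ) (hν : ‖ν‖ ≤ t) :
    -(t / 2 * (‖F‖ ^ 2 + ‖G‖ ^ 2)) ≤ (F * ν * conj G).re := by
  have h1 := Complex.abs_re_le_norm (F * ν * conj G)
  rw [norm_mul, norm_mul, Complex.norm_conj] at h1
  have h2 := neg_abs_le (F * ν * conj G).re
  have h3 : ‖F‖ * ‖ν‖ * ‖G‖ ≤ ‖F‖ * t * ‖G‖ := by gcongr
  have ht : 0 ≤ t := (norm_nonneg _).trans hν
  nlinarith [mul_nonneg ht (sq_nonneg (‖F‖ - ‖G‖))]

/-- the basic inequality of the circle method -/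
theorem step {m : ℕ} (f g : (Fin m → ℤ) →₀ ℝ) (ν : UnitAddTorus (Fin m) → ℂ) (hc : Continuous ν)
    (h1 : ∀ θ, ‖ν θ‖ ≤ 1) (A B : Set (UnitAddTorus (Fin m))) (S : ℕ → Set (UnitAddTorus (Fin m)))
    (hA : MeasurableSet A) (hB : MeasurableSet B) (hS : ∀ k, MeasurableSet (S k))
    (hAB : A ⊆ B) (hBS : B ⊆ S 0) (η ρ e T : ℝ) (hη : 0 ≤ η) (hρ0 : 0 < ρ) (hρ1 : ρ ≤ 1)
    (he0 : 0 ≤ e) (hT : 0 < T) (hre : ∀ θ ∈ A, 1 / 2 ≤ (ν θ).re) (hoff : ∀ θ, θ ∉ B → ‖ν θ‖ ≤ η)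
    (hsh : ∀ k θ, θ ∉ S k → ‖ν θ‖ ≤ η * ρ ^ k) (he : ∀ θ ∈ S 0, ‖hat f θ - hat g θ‖ ≤ e)
    (h0 : ∫ θ, hat f θ * ν θ * conj (hat g θ) ∂(muT m) = 0) (K : ℕ) :
    3 / 2 * mass f A - mass f B - e / (2 * T) * mass f (S 0) - e * T / 2 * (muT m).real (S 0) -
      η / 2 * (ρ⁻¹ * ∑ k ∈ Finset.range (K + 1), ρ ^ k * (mass f (S k) + mass g (S k)) +
        ρ ^ K * (mass f Set.univ + mass g Set.univ)) ≤ 0 := by
  classical
  have H := ((((HI.mass f hA).mul (3 / 2)).sub (HI.mass f hB)).sub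
    ((HI.mass f (hS 0)).mul (e / (2 * T)))).sub ((HI.one (hS 0)).mul (e * T / 2)) |>.sub
    ((((HI.sum (Finset.range (K + 1)) fun k =>
      ((HI.mass f (hS k)).add (HI.mass g (hS k))).mul (ρ ^ k)).mul ρ⁻¹).add
      (((HI.mass f MeasurableSet.univ).add (HI.mass g MeasurableSet.univ)).mul (ρ ^ K))).mul (η / 2))
  have hint : Integrable (fun θ => hat f θ * ν θ * conj (hat g θ)) (muT m) :=
    integrable_of_cont (((continuous_hat f).mul hc).mul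
      (Complex.continuous_conj.comp (continuous_hat g)))
  have hz : ∫ θ, (hat f θ * ν θ * conj (hat g θ)).re ∂(muT m) = 0 := by
    have := integral_re hint
    simp only [RCLike.re_to_complex] at this
    rw [this, h0, Complex.zero_re]
  rw [← H.2, ← hz]
  refine integral_mono H.1 hint.re fun θ => ?_
  dsimp only
  have hsum : ∑ k ∈ Finset.range (K + 1), ρ ^ k *
      ((S k).indicator (fun θ => ‖hat f θ‖ ^ 2) θ + (S k).indicator (fun θ => ‖hat g θ‖ ^ 2) θ) =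
      (∑ k ∈ Finset.range (K + 1), ρ ^ k * (if θ ∈ S k then 1 else 0)) *
        (‖hat f θ‖ ^ 2 + ‖hat g θ‖ ^ 2) := by
    rw [Finset.sum_mul]
    refine Finset.sum_congr rfl fun k _ => ?_
    by_cases hk : θ ∈ S k <;> simp [hk]
  rw [hsum, Set.indicator_univ, Set.indicator_univ]
  have hnn : 0 ≤ ∑ k ∈ Finset.range (K + 1), ρ ^ k * (if θ ∈ S k then (1 : ℝ) else 0) :=
    Finset.sum_nonneg fun k _ => by split_ifs <;> positivity
  generalize hσ : ∑ k ∈ Finset.range (K + 1), ρ ^ k * (if θ ∈ S k then (1 : ℝ) else 0) = σ at hnn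
  have hu : 0 ≤ ‖hat f θ‖ ^ 2 := by positivity
  have hrest : 0 ≤ η / 2 * (ρ⁻¹ * (σ * (‖hat f θ‖ ^ 2 + ‖hat g θ‖ ^ 2)) +
      ρ ^ K * (‖hat f θ‖ ^ 2 + ‖hat g θ‖ ^ 2)) := by positivity
  by_cases hθB : θ ∈ B
  · have hθS := hBS hθB
    have h2 := re_near (hat f θ) (hat g θ) (ν θ) e (h1 θ) (he θ hθS) T hT
    rw [Set.indicator_of_mem hθB, Set.indicator_of_mem hθS, Set.indicator_of_mem hθS]
    by_cases hθA : θ ∈ A
    · rw [Set.indicator_of_mem hθA]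
      have := mul_le_mul_of_nonneg_right (hre θ hθA) hu
      linarith
    · rw [Set.indicator_of_notMem hθA]
      have h3 : -1 ≤ (ν θ).re := by
        have h4 := Complex.abs_re_le_norm (ν θ)
        have h5 := neg_abs_le (ν θ).re
        linarith [h1 θ]
      have := mul_le_mul_of_nonneg_right h3 hu
      linarith
  · rw [Set.indicator_of_notMem hθB, Set.indicator_of_notMem fun h => hθB (hAB h)]
    have h2 := shell_bound S θ ‖ν θ‖ η ρ hη hρ0 hρ1 (hoff θ hθB) (fun k hk => hsh k θ hk) K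
    rw [hσ] at h2
    have h3 := re_far (hat f θ) (hat g θ) (ν θ) _ h2
    have h4 : 0 ≤ e / (2 * T) * (S 0).indicator (fun θ => ‖hat f θ‖ ^ 2) θ :=
      mul_nonneg (by positivity) (Set.indicator_nonneg (fun _ _ => by positivity) _)
    have h5 : 0 ≤ e * T / 2 * (S 0).indicator (fun _ => (1 : ℝ)) θ :=
      mul_nonneg (by positivity) (Set.indicator_nonneg (fun _ _ => by positivity) _)
    have h6 : η / 2 * (ρ⁻¹ * (σ * (‖hat f θ‖ ^ 2 + ‖hat g θ‖ ^ 2)) +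
        ρ ^ K * (‖hat f θ‖ ^ 2 + ‖hat g θ‖ ^ 2)) =
        η * (ρ⁻¹ * σ + ρ ^ K) / 2 * (‖hat f θ‖ ^ 2 + ‖hat g θ‖ ^ 2) := by ring
    linarith

end Pool.Agent.MP_14ad9d_nt.Full.Add0Aux
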