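import Pool.Agent.MP_14ad9d_nt.Full.Sieve2

set_option autoImplicit false

open MeasureTheory

namespace Pool.Agent.MP_14ad9d_nt.Full

/-- Parseval -/
theorem mass_univ {m : ℕ} (f : (Fin m → ℤ) →₀ ℝ) :
    mass f Set.univ = f.sum fun _ a => a ^ 2 :=
  SieveAux.mass_univ' f

theorem mass_mono {m : ℕ} (f : (Fin m → ℤ) →₀ ℝ) {S T : Set (UnitAddTorus (Fin m))} (h : S ⊆ T) :
    mass f S ≤ mass f T :=
  SieveAux.mass_mono' f h

theorem measurableSet_arcs (m : ℕ) (N R : ℝ) : MeasurableSet (arcs m N R) :=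
  SieveAux.measurableSet_arcs' m N R

/-- a nonnegative function supported in a box has a large Fourier transform near zero -/
theorem mass_lower (m : ℕ) (C₀ : ℝ) (hC : 0 < C₀) : ∃ c : ℝ, 0 < c ∧ ∀ N R : ℝ, 1 ≤ N → 1 ≤ R →
    ∀ f : (Fin m → ℤ) →₀ ℝ, (∀ n, 0 ≤ f n) → (∀ n ∈ f.support, ‖n‖ ≤ C₀ * N) →
      c * (f.sum fun _ a => a) ^ 2 ≤ N ^ m * mass f (arcs m N R) :=
  SieveAux.mass_lower' m C₀ hC

/-- the larger sieve on major arcs -/
theorem sieve (m : ℕ) (N R D : ℝ) (hR : 1 ≤ R) (hD : 1 ≤ D) (hsep : 2 * R ^ 2 * D ^ 2 < N)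
    (PP : Finset ℕ) (hP : ∀ p ∈ PP, p.Prime ∧ R < p)
    (Ω : ∀ p : ℕ, Set (Fin m → ZMod p)) (hΩ : ∀ p ∈ PP, (Ω p).ncard < p ^ m)
    (f : (Fin m → ℤ) →₀ ℝ)
    (hf : ∀ n ∈ f.support, ∀ p ∈ PP, (fun i => (n i : ZMod p)) ∉ Ω p) :
    (∑ s ∈ PP.powerset with ((∏ p ∈ s, p : ℕ) : ℝ) ≤ D,
      ∏ p ∈ s, (((Ω p).ncard : ℝ) / ((p : ℝ) ^ m - (Ω p).ncard))) * mass f (arcs m N R) ≤
      f.sum fun _ a => a ^ 2 := by
  classical
  have key : ∀ s : Finset ℕ, ∃ F : Finset (UnitAddTorus (Fin m)), s ⊆ PP →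
      (∀ ψ ∈ F, addOrderOf ψ = ∏ p ∈ s, p) ∧
      ∀ θ, (∏ p ∈ s, (((Ω p).ncard : ℝ) / ((p : ℝ) ^ m - (Ω p).ncard))) * ‖hat f θ‖ ^ 2 ≤
        ∑ ψ ∈ F, ‖hat f (θ + ψ)‖ ^ 2 := by
    intro s
    by_cases hs : s ⊆ PP
    · obtain ⟨F, hF⟩ := SieveAux.many_primes Ω f s (fun p hp => (hP p (hs hp)).1)
        (fun p hp => hΩ p (hs hp)) (fun n hn p hp => hf n hn p (hs hp))
      exact ⟨F, fun _ => hF⟩
    · exact ⟨∅, fun h => absurd h hs⟩
  choose F hF using key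
  set S : Finset (Finset ℕ) := PP.powerset.filter fun s => ((∏ p ∈ s, p : ℕ) : ℝ) ≤ D with hS
  have hS1 : ∀ s ∈ S, s ⊆ PP := fun s hs => Finset.mem_powerset.mp (Finset.mem_filter.mp hs).1
  have hS2 : ∀ s ∈ S, ((∏ p ∈ s, p : ℕ) : ℝ) ≤ D := fun s hs => (Finset.mem_filter.mp hs).2
  have hA := measurableSet_arcs m N R
  have hcont : ∀ ψ : UnitAddTorus (Fin m), Continuous fun θ => ‖hat f (θ + ψ)‖ ^ 2 := fun ψ =>
    ((SieveAux.continuous_hat f).comp (continuous_add_const ψ)).norm.pow 2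
  have h1 : ∀ s ∈ S, (∏ p ∈ s, (((Ω p).ncard : ℝ) / ((p : ℝ) ^ m - (Ω p).ncard))) *
      mass f (arcs m N R) ≤ ∑ ψ ∈ F s, mass f {θ | θ - ψ ∈ arcs m N R} := by
    intro s hs
    unfold mass
    simp_rw [← SieveAux.integral_shift (fun θ => ‖hat f θ‖ ^ 2) hA]
    rw [← integral_const_mul, ← integral_finsetSum _ fun ψ _ =>
      (SieveAux.integrable_cont (hcont ψ)).integrableOn]
    refine integral_mono ((SieveAux.integrable_sq f).integrableOn.const_mul _)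
      (integrable_finsetSum _ fun ψ _ => (SieveAux.integrable_cont (hcont ψ)).integrableOn) ?_
    intro θ
    exact (hF s (hS1 s hs)).2 θ
  have hpos : ∀ s ∈ S, 0 < ∏ p ∈ s, p := fun s hs =>
    Finset.prod_pos fun p hp => (hP p (hS1 s hs hp)).1.pos
  have hcop : ∀ s ∈ S, ∀ q : ℕ, 1 ≤ q → (q : ℝ) ≤ R → q.Coprime (∏ p ∈ s, p) := by
    intro s hs q hq1 hq2
    refine Nat.Coprime.prod_right fun p hp => ?_
    have h2 := hP p (hS1 s hs hp)
    have h3 : q < p := by exact_mod_cast hq2.trans_lt h2.2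
    exact (Nat.coprime_of_lt_prime (by omega) h3 h2.1).symm
  have hdisj : Set.Pairwise ((S.sigma F : Finset _) : Set (Σ _ : Finset ℕ, UnitAddTorus (Fin m)))
      (Function.onFun Disjoint fun x => {θ | θ - x.2 ∈ arcs m N R}) := by
    rintro ⟨s, ψ⟩ hx ⟨s', ψ'⟩ hx' hne
    obtain ⟨hs, hψ⟩ := Finset.mem_sigma.mp (Finset.mem_coe.mp hx)
    obtain ⟨hs', hψ'⟩ := Finset.mem_sigma.mp (Finset.mem_coe.mp hx')
    simp only at hs hψ hs' hψ'
    rw [Function.onFun, Set.disjoint_left]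
    intro θ h h'
    have o1 := (hF s (hS1 s hs)).1 ψ hψ
    have o2 := (hF s' (hS1 s' hs')).1 ψ' hψ'
    have e : ψ = ψ' := SieveAux.sep hR hD hsep (hpos s hs) (hpos s' hs')
      (by rw [← o1]; exact addOrderOf_nsmul_eq_zero ψ)
      (by rw [← o2]; exact addOrderOf_nsmul_eq_zero ψ') (hS2 s hs) (hS2 s' hs')
      (hcop s hs) (hcop s' hs') h h'
    subst e
    have e2 : s = s' := by
      rw [← Nat.primeFactors_prod fun p hp => (hP p (hS1 s hs hp)).1, ← o1, o2,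
        Nat.primeFactors_prod fun p hp => (hP p (hS1 s' hs' hp)).1]
    subst e2
    exact hne rfl
  rw [Finset.sum_mul, ← mass_univ]
  refine (Finset.sum_le_sum h1).trans ?_
  rw [Finset.sum_sigma' S F fun _ ψ => mass f {θ | θ - ψ ∈ arcs m N R}]
  refine le_trans (le_of_eq ?_) (mass_mono f (Set.subset_univ
    (⋃ x ∈ S.sigma F, {θ | θ - x.2 ∈ arcs m N R})))
  unfold mass
  exact (integral_biUnion_finset _ (fun x _ => (measurable_sub_const x.2) hA) hdisj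
    (fun x _ => (SieveAux.integrable_sq f).integrableOn)).symm

end Pool.Agent.MP_14ad9d_nt.Full
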