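import Pool.Agent.MP_14ad9d_nt.Full.WeylM
import Pool.Agent.MP_14ad9d_nt.Full.Sieve
import Pool.Agent.MP_14ad9d_nt.Full.Add02
import Pool.Agent.MP_14ad9d_nt.Full.Add03

set_option autoImplicit false

namespace Pool.Agent.MP_14ad9d_nt.Full

namespace Add0Aux

theorem geom_bound (τ : ℝ) (h0 : 0 ≤ τ) (h1 : τ < 1) (K : ℕ) :
    ∑ k ∈ Finset.range K, τ ^ k ≤ (1 - τ)⁻¹ := by
  rw [← tsum_geometric_of_lt_one h0 h1]
  exact (summable_geometric_of_lt_one h0 h1).sum_le_tsum _ fun k _ => by positivity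

theorem tail_bound (σ N c₀ w : ℝ) (C K : ℕ) (hC : 1 ≤ C) (hσ : 0 < σ) (hσC : σ ^ C = 2)
    (hN : 0 < N) (h1 : 2 * w ≤ N ^ (c₀ / 2)) (h2 : N ^ c₀ < w * 2 ^ (K + 1)) :
    σ⁻¹ ^ K * N ^ (c₀ / (2 * C)) ≤ 1 := by
  have hC' : (C : ℝ) ≠ 0 := by exact_mod_cast (by omega : C ≠ 0)
  have hp : 0 < N ^ (c₀ / 2) := Real.rpow_pos_of_pos hN _
  have h3 : N ^ c₀ = N ^ (c₀ / 2) * N ^ (c₀ / 2) := by
    rw [← Real.rpow_add hN]; congr 1; ring
  have h4 : N ^ (c₀ / 2) ≤ 2 ^ K := by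
    have h5 : w * 2 ^ (K + 1) ≤ N ^ (c₀ / 2) * 2 ^ K := by
      rw [pow_succ]
      nlinarith [mul_le_mul_of_nonneg_right h1 (by positivity : (0 : ℝ) ≤ 2 ^ K)]
    have h6 : N ^ (c₀ / 2) * N ^ (c₀ / 2) < N ^ (c₀ / 2) * 2 ^ K := by linarith
    exact (lt_of_mul_lt_mul_left h6 hp.le).le
  rw [← pow_le_one_iff_of_nonneg (by positivity) (by omega : C ≠ 0), mul_pow, ← pow_mul, mul_comm K,
    pow_mul, inv_pow, hσC, ← Real.rpow_natCast (N ^ _), ← Real.rpow_mul hN.le]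
  have h7 : c₀ / (2 * C) * C = c₀ / 2 := by field_simp
  rw [h7, inv_pow, inv_mul_le_iff₀ (by positivity), mul_one]
  exact h4

end Add0Aux

open Add0Aux

/-- the circle method for two functions with controlled mass on major arcs -/
theorem add0 {A : Type} [CommRing A] {m : ℕ} (hm : 0 < m) (b : Module.Basis (Fin m) ℤ A) (l : ℕ)
    (hl : 1 ≤ l) (δ C₀ C₁ c₀ : ℝ) (hδ : 0 < δ) (hC₀ : 0 < C₀) (hC₁ : 0 < C₁) (hc₀ : 0 < c₀) :
    ∃ ε : ℝ, 0 < ε ∧ ∃ c₁ : ℝ, 0 < c₁ ∧ ∃ w₀ : ℝ, ∀ w : ℝ, w₀ ≤ w → ∃ ε' : ℝ, 0 < ε' ∧ ∃ N₀ : ℝ,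
      ∀ N : ℝ, N₀ ≤ N → ∀ f g : (Fin m → ℤ) →₀ ℝ, (∀ n, 0 ≤ f n) →
        (∀ n ∈ f.support, ‖n‖ ≤ C₀ * N) → (δ * N ^ m ≤ f.sum fun _ a => a) →
        (∀ K : ℕ, w * 2 ^ K ≤ N ^ c₀ →
          mass f (arcs m N (w * 2 ^ K)) ≤ C₁ * (1 + ε) ^ K * N ^ m ∧
          mass g (arcs m N (w * 2 ^ K)) ≤ C₁ * (1 + ε) ^ K * N ^ m) →
        (f.sum fun _ a => a ^ 2) ≤ N ^ m * N ^ c₁ → (g.sum fun _ a => a ^ 2) ≤ N ^ m * N ^ c₁ →
        (∀ θ ∈ arcs m N w, ‖hat f θ - hat g θ‖ ≤ ε' * N ^ m) →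
        ∃ s : A, s ≠ 0 ∧ ∃ n, f n ≠ 0 ∧ g (n + b.equivFun (s ^ l)) ≠ 0 := by
  obtain ⟨C, hC1, hν⟩ := nu_exists hm b l hl
  choose! D hD N₁ hν using hν
  obtain ⟨c, hc, hlow⟩ := mass_lower m C₀ hC₀
  have hC' : (0 : ℝ) < C := by exact_mod_cast hC1
  obtain ⟨σ, hσ1, hσC⟩ : ∃ σ : ℝ, 1 < σ ∧ σ ^ C = 2 :=
    ⟨2 ^ (C : ℝ)⁻¹, Real.one_lt_rpow one_lt_two (by positivity),
      Real.rpow_inv_natCast_pow zero_le_two (by omega)⟩
  have hσ0 : 0 < σ := by linarith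
  obtain ⟨τ, hτ⟩ : ∃ τ : ℝ, τ = σ⁻¹ * (1 + (σ - 1) / 2) := ⟨_, rfl⟩
  have hτ0 : 0 ≤ τ := by rw [hτ]; exact mul_nonneg (by positivity) (by linarith)
  have hτ1 : τ < 1 := by rw [hτ, inv_mul_lt_iff₀ hσ0]; linarith
  have hτ2 : 0 < (1 - τ)⁻¹ := inv_pos.mpr (by linarith)
  obtain ⟨γ, hγ⟩ : ∃ γ : ℝ, γ = c * δ ^ 2 := ⟨_, rfl⟩
  have hγ0 : 0 < γ := by rw [hγ]; positivity
  obtain ⟨E, hE⟩ : ∃ E : ℝ, E = σ * C₁ * (1 - τ)⁻¹ + 1 := ⟨_, rfl⟩
  have hE0 : 0 < E := by rw [hE]; positivity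
  obtain ⟨η, hη0, hη1, hη2⟩ : ∃ η : ℝ, 0 < η ∧ η ≤ 1 / 2 ∧ η * E ≤ γ / 8 :=
    ⟨min (1 / 2) (γ / 8 / E), by positivity, min_le_left _ _,
      (le_div_iff₀ hE0).mp (min_le_right _ _)⟩
  obtain ⟨R, hR0, hRs⟩ : ∃ R : ℕ → ℝ, R 0 = 1 ∧ ∀ j, R (j + 1) = R j + D (R j) * η⁻¹ ^ C :=
    ⟨fun j => Nat.rec 1 (fun _ x => x + D x * η⁻¹ ^ C) j, rfl, fun _ => rfl⟩
  have hR1 : ∀ j, 1 ≤ R j := by
    intro j
    induction j with
    | zero => exact hR0.ge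
    | succ j ih =>
      have := hD _ ih
      rw [hRs]
      exact ih.trans (le_add_of_nonneg_right (by positivity))
  have hRm : Monotone R := monotone_nat_of_le_succ fun j => by
    have := hD _ (hR1 j)
    rw [hRs]
    exact le_add_of_nonneg_right (by positivity)
  obtain ⟨J, hJ⟩ := exists_nat_ge (4 * C₁ / γ)
  refine ⟨(σ - 1) / 2, by linarith, c₀ / (2 * C), by positivity, R J, fun w hw => ?_⟩
  have hw1 : 1 ≤ w := (hR1 J).trans hw
  have hw0 : 0 < w := by linarith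
  obtain ⟨ε', hε'⟩ : ∃ ε' : ℝ, ε' = γ / 4 / (C₁ + w * (2 * w) ^ m) := ⟨_, rfl⟩
  have hε0 : 0 < ε' := by rw [hε']; positivity
  have hε1 : ε' * (C₁ + w * (2 * w) ^ m) = γ / 4 := by rw [hε']; field_simp
  have hev : ∀ᶠ N : ℝ in Filter.atTop, 1 ≤ N ∧ 2 * w ≤ N ^ (c₀ / 2) ∧
      ∀ j ∈ Finset.range J, N₁ (R j) ≤ N :=
    (Filter.eventually_ge_atTop 1).and
      (((tendsto_rpow_atTop (by positivity : 0 < c₀ / 2)).eventually_ge_atTop _).and
        ((Filter.eventually_all_finset _).mpr fun j _ => Filter.eventually_ge_atTop _))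
  obtain ⟨N₀, hN₀⟩ := Filter.eventually_atTop.mp hev
  refine ⟨ε', hε0, N₀, fun N hN f g hf0 hfs hfm hmass hf2 hg2 hclose => ?_⟩
  obtain ⟨hN1, hNw, hNj⟩ := hN₀ N hN
  have hN0 : 0 < N := by linarith
  by_contra hcon
  have hno : ∀ s : A, s ≠ 0 → ∀ n, f n * g (n + b.equivFun (s ^ l)) = 0 := by
    intro s hs n
    by_contra h
    exact hcon ⟨s, hs, n, left_ne_zero_of_mul h, right_ne_zero_of_mul h⟩
  obtain ⟨T, hT⟩ : ∃ T : ℝ, T = N ^ m := ⟨_, rfl⟩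
  have hT0 : 0 < T := by rw [hT]; positivity
  rw [← hT] at hfm hmass hf2 hg2 hclose
  have hwc : w ≤ N ^ c₀ :=
    (by linarith : w ≤ N ^ (c₀ / 2)).trans (Real.rpow_le_rpow_of_exponent_le hN1 (by linarith))
  obtain ⟨K, hK1, hK2⟩ := exists_nat_pow_near (x := N ^ c₀ / w) (y := (2 : ℝ))
    ((one_le_div hw0).mpr hwc) one_lt_two
  rw [le_div_iff₀' hw0] at hK1
  rw [div_lt_iff₀' hw0] at hK2
  have htail := tail_bound σ N c₀ w C K hC1 hσ0 hσC hN0 hNw hK2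
  have hM0 : γ * T ≤ mass f (arcs m N (R 0)) := by
    have h1 := hlow N (R 0) hN1 (hR1 0) f hf0 hfs
    rw [← hT] at h1
    have h2 : (δ * T) ^ 2 ≤ (f.sum fun _ a => a) ^ 2 := pow_le_pow_left₀ (by positivity) hfm 2
    have h3 : T * (γ * T) ≤ T * mass f (arcs m N (R 0)) := by
      calc T * (γ * T) = c * (δ * T) ^ 2 := by rw [hγ]; ring
        _ ≤ _ := (mul_le_mul_of_nonneg_left h2 hc.le).trans h1
    exact le_of_mul_le_mul_left h3 hT0
  have hS0 : mass f (arcs m N (w * 2 ^ 0)) ≤ C₁ * T := by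
    have := (hmass 0 (by simpa using hwc)).1
    simpa using this
  have hvol : (muT m).real (arcs m N (w * 2 ^ 0)) * T ≤ w * (2 * w) ^ m := by
    rw [pow_zero, mul_one]
    refine (mul_le_mul_of_nonneg_right (vol_arcs m N w hN0 hw0.le) hT0.le).trans (le_of_eq ?_)
    rw [hT, mul_assoc, ← mul_pow]
    congr 2
    field_simp
  have hshell : ∑ k ∈ Finset.range (K + 1), σ⁻¹ ^ k *
      (mass f (arcs m N (w * 2 ^ k)) + mass g (arcs m N (w * 2 ^ k))) ≤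
      2 * C₁ * T * (1 - τ)⁻¹ := by
    refine le_trans (Finset.sum_le_sum (g := fun k => 2 * C₁ * T * τ ^ k) fun k hk => ?_) ?_
    · have h1 : w * 2 ^ k ≤ N ^ c₀ := le_trans (mul_le_mul_of_nonneg_left
        (pow_le_pow_right₀ one_le_two (Nat.lt_succ_iff.mp (Finset.mem_range.mp hk))) hw0.le) hK1
      obtain ⟨h2, h3⟩ := hmass k h1
      refine (mul_le_mul_of_nonneg_left (add_le_add h2 h3) (by positivity)).trans (le_of_eq ?_)
      rw [hτ, mul_pow]; ring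
    · rw [← Finset.mul_sum]
      exact mul_le_mul_of_nonneg_left (geom_bound τ hτ0 hτ1 _) (by positivity)
  have huniv : σ⁻¹ ^ K * (mass f Set.univ + mass g Set.univ) ≤ 2 * T := by
    rw [mass_univ, mass_univ]
    refine (mul_le_mul_of_nonneg_left (add_le_add hf2 hg2) (by positivity)).trans ?_
    nlinarith [mul_le_mul_of_nonneg_left htail hT0.le]
  have hstep : ∀ j, j < J → γ * T ≤ mass f (arcs m N (R j)) →
      mass f (arcs m N (R j)) + γ / 4 * T ≤ mass f (arcs m N (R (j + 1))) := by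
    intro j hj hMj
    obtain ⟨ν, hνc, hν1, hνA, hνη, hν0⟩ := hν (R j) (hR1 j) N (hNj j (Finset.mem_range.mpr hj))
    have hDj : D (R j) * η⁻¹ ^ C ≤ R (j + 1) := by
      rw [hRs]; exact le_add_of_nonneg_left (by linarith [hR1 j])
    have hjw : R (j + 1) ≤ w := (hRm hj).trans hw
    have H := step f g ν hνc hν1 (arcs m N (R j)) (arcs m N (R (j + 1)))
      (fun k => arcs m N (w * 2 ^ k)) (measurableSet_arcs _ _ _) (measurableSet_arcs _ _ _)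
      (fun k => measurableSet_arcs _ _ _) (arcs_mono m hN0 (hRm (Nat.le_succ j)))
      (arcs_mono m hN0 (by simpa using hjw)) η σ⁻¹ (ε' * T) T hη0.le (by positivity)
      (inv_le_one_of_one_le₀ hσ1.le) (by positivity) hT0 hνA
      (fun θ hθ => by
        by_contra h
        exact hθ (arcs_mono m hN0 hDj (hνη η hη0 hη1 θ (not_le.mp h).le)))
      (fun k θ hθ => by
        by_contra h
        have h1 : η * σ⁻¹ ^ k ≤ 1 / 2 := le_trans (mul_le_of_le_one_right hη0.le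
          (pow_le_one₀ (by positivity) (inv_le_one_of_one_le₀ hσ1.le))) hη1
        refine hθ (arcs_mono m hN0 ?_ (hνη _ (by positivity) h1 θ (not_le.mp h).le))
        have h2 : (η * σ⁻¹ ^ k)⁻¹ ^ C = η⁻¹ ^ C * 2 ^ k := by
          rw [mul_inv, mul_pow, inv_pow σ, inv_inv, ← pow_mul, mul_comm k, pow_mul, hσC]
        rw [h2, ← mul_assoc]
        exact mul_le_mul_of_nonneg_right (hDj.trans hjw) (by positivity))
      (fun θ hθ => hclose θ (by simpa using hθ)) (hν0 f g hno) K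
    rw [inv_inv] at H
    have h1 : ε' * T / (2 * T) * mass f (arcs m N (w * 2 ^ 0)) ≤ ε' / 2 * (C₁ * T) := by
      have : ε' * T / (2 * T) = ε' / 2 := by field_simp
      rw [this]
      exact mul_le_mul_of_nonneg_left hS0 (by positivity)
    have h2 : ε' * T * T / 2 * (muT m).real (arcs m N (w * 2 ^ 0)) ≤
        ε' * T / 2 * (w * (2 * w) ^ m) := by
      calc _ = ε' * T / 2 * ((muT m).real (arcs m N (w * 2 ^ 0)) * T) := by ring
        _ ≤ _ := mul_le_mul_of_nonneg_left hvol (by positivity)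
    have h3 : ε' / 2 * (C₁ * T) + ε' * T / 2 * (w * (2 * w) ^ m) = γ / 8 * T := by
      calc _ = ε' * (C₁ + w * (2 * w) ^ m) * T / 2 := by ring
        _ = _ := by rw [hε1]; ring
    have h4 := mul_le_mul_of_nonneg_left
      (add_le_add (mul_le_mul_of_nonneg_left hshell hσ0.le) huniv) (by positivity : 0 ≤ η / 2)
    have h5 : η / 2 * (σ * (2 * C₁ * T * (1 - τ)⁻¹) + 2 * T) ≤ γ / 8 * T := by
      calc _ = η * E * T := by rw [hE]; ring
        _ ≤ _ := mul_le_mul_of_nonneg_right hη2 hT0.le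
    linarith
  have hind : ∀ j, j ≤ J → γ * T + j * (γ / 4 * T) ≤ mass f (arcs m N (R j)) := by
    intro j
    induction j with
    | zero => intro _; simpa using hM0
    | succ j ih =>
      intro hj
      have h1 := ih (by omega)
      have h2 := hstep j (by omega) (le_trans (le_add_of_nonneg_right (by positivity)) h1)
      push_cast
      linarith
  have h1 := hind J le_rfl
  have h2 : mass f (arcs m N (R J)) ≤ C₁ * T :=
    (mass_mono f (arcs_mono m hN0 (by simpa using hw))).trans hS0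
  rw [div_le_iff₀ hγ0] at hJ
  nlinarith [mul_le_mul_of_nonneg_right hJ hT0.le, mul_pos hγ0 hT0]

end Pool.Agent.MP_14ad9d_nt.Full
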