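import Pool.Agent.MP_14ad9d_nt.Full.ADefs

set_option autoImplicit false

open MeasureTheory UnitAddTorus
open scoped ComplexConjugate

namespace Pool.Agent.MP_14ad9d_nt.Full.Add0Aux

instance instProbMuT (m : ℕ) : IsProbabilityMeasure (muT m) := by
  unfold muT; infer_instance

theorem integral_fourier_haar (k : ℤ) :
    ∫ x : UnitAddCircle, fourier k x ∂AddCircle.haarAddCircle = if k = 0 then 1 else 0 := by
  have h := (orthonormal_iff_ite.mp (orthonormal_fourier (T := 1))) 0 k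
  simp only [ContinuousMap.inner_toLp, ← fourier_neg, ← fourier_add, neg_zero, add_zero] at h
  rw [h]
  by_cases hk : k = 0
  · simp [hk]
  · simp [hk, Ne.symm hk]

theorem integral_mFourier {m : ℕ} (k : Fin m → ℤ) :
    ∫ θ, mFourier k θ ∂(muT m) = if k = 0 then 1 else 0 := by
  unfold muT
  simp only [mFourier, ContinuousMap.coe_mk]
  rw [integral_fintype_prod_eq_prod (fun i (x : UnitAddCircle) => fourier (k i) x)]
  simp only [integral_fourier_haar]
  split_ifs with h
  · simp [h]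
  · obtain ⟨i, hi⟩ := Function.ne_iff.mp h
    exact Finset.prod_eq_zero (Finset.mem_univ i) (if_neg hi)

theorem continuous_hat {m : ℕ} (f : (Fin m → ℤ) →₀ ℝ) : Continuous (hat f) := by
  unfold hat Finsupp.sum
  exact continuous_finsetSum _ fun n _ => continuous_const.mul (mFourier n).continuous

theorem integrable_of_cont {m : ℕ} {E : Type} [NormedAddCommGroup E]
    {F : UnitAddTorus (Fin m) → E} (hF : Continuous F) : Integrable F (muT m) :=
  hF.integrable_of_hasCompactSupport (HasCompactSupport.of_compactSpace F)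

theorem norm_mFourier_apply {m : ℕ} (k : Fin m → ℤ) (θ : UnitAddTorus (Fin m)) :
    ‖mFourier k θ‖ = 1 := by
  simp only [mFourier, fourier_apply, ContinuousMap.coe_mk, norm_prod, Circle.norm_coe,
    Finset.prod_const_one]

/-- orthogonality -/
theorem orth {m : ℕ} (f g : (Fin m → ℤ) →₀ ℝ) (k : Fin m → ℤ)
    (h : ∀ n, f n * g (n + k) = 0) :
    ∫ θ, hat f θ * mFourier k θ * conj (hat g θ) ∂(muT m) = 0 := by
  have e : ∀ θ, hat f θ * mFourier k θ * conj (hat g θ) =
      ∑ n ∈ f.support, ∑ n' ∈ g.support,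
        ((f n : ℂ) * (g n' : ℂ)) * mFourier (n + k - n') θ := by
    intro θ
    unfold hat Finsupp.sum
    rw [map_sum, Finset.sum_mul, Finset.sum_mul]
    refine Finset.sum_congr rfl fun n _ => ?_
    rw [Finset.mul_sum]
    refine Finset.sum_congr rfl fun n' _ => ?_
    rw [sub_eq_add_neg, mFourier_add, mFourier_add, mFourier_neg, map_mul, Complex.conj_ofReal]
    ring
  simp only [e]
  rw [integral_finsetSum]
  · refine Finset.sum_eq_zero fun n _ => ?_
    rw [integral_finsetSum]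
    · refine Finset.sum_eq_zero fun n' _ => ?_
      rw [integral_const_mul, integral_mFourier]
      split_ifs with h'
      · have : n' = n + k := (sub_eq_zero.mp h').symm
        rw [this, mul_one, ← Complex.ofReal_mul, h n, Complex.ofReal_zero]
      · simp
    · intro n' _
      exact integrable_of_cont (continuous_const.mul (mFourier _).continuous)
  · intro n _
    exact integrable_of_cont
      (continuous_finsetSum _ fun n' _ => continuous_const.mul (mFourier _).continuous)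

theorem mFourier_nsmul {m : ℕ} (k : Fin m → ℤ) (q : ℕ) (θ : UnitAddTorus (Fin m)) :
    mFourier k (q • θ) = mFourier ((q : ℤ) • k) θ := by
  simp only [mFourier, ContinuousMap.coe_mk, fourier_apply, Pi.smul_apply, smul_eq_mul]
  refine Finset.prod_congr rfl fun i _ => ?_
  rw [mul_comm, mul_smul, natCast_zsmul]

theorem norm_toCircle_sub_one (x : UnitAddCircle) :
    ‖(AddCircle.toCircle x : ℂ) - 1‖ ≤ 8 * ‖x‖ := by
  induction x using QuotientAddGroup.induction_on with
  | H y =>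
    have h1 : ((y : ℝ) : UnitAddCircle) = ((y - round y : ℝ) : UnitAddCircle) := by
      rw [AddCircle.coe_sub]
      have : (((round y : ℤ) : ℝ) : UnitAddCircle) = 0 := by
        rw [AddCircle.coe_eq_zero_iff]
        exact ⟨round y, by simp⟩
      rw [this, sub_zero]
    have h2 : ‖((y : ℝ) : UnitAddCircle)‖ = |y - round y| := by
      rw [UnitAddCircle.norm_eq]
    rw [h2, h1, ← fourier_one, fourier_coe_apply]
    have h3 : (2 * (Real.pi : ℂ) * Complex.I * ((1 : ℤ) : ℂ) * ((y - round y : ℝ) : ℂ) / ((1 : ℝ) : ℂ))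
        = Complex.I * ((2 * Real.pi * (y - round y) : ℝ) : ℂ) := by
      push_cast; ring
    rw [h3]
    refine Real.norm_exp_I_mul_ofReal_sub_one_le.trans ?_
    rw [Real.norm_eq_abs, abs_mul, abs_of_pos (by positivity : 0 < 2 * Real.pi)]
    have := Real.pi_le_four
    have h4 := abs_nonneg (y - round y)
    nlinarith

theorem norm_prod_sub_one {ι : Type} (s : Finset ι) (z : ι → ℂ) (hz : ∀ i, ‖z i‖ = 1) :
    ‖∏ i ∈ s, z i - 1‖ ≤ ∑ i ∈ s, ‖z i - 1‖ := by
  classical
  induction s using Finset.induction_on with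
  | empty => simp
  | insert a s ha ih =>
    rw [Finset.prod_insert ha, Finset.sum_insert ha]
    have : z a * ∏ i ∈ s, z i - 1 = z a * (∏ i ∈ s, z i - 1) + (z a - 1) := by ring
    rw [this]
    refine (norm_add_le _ _).trans ?_
    rw [norm_mul, hz a, one_mul]
    linarith

theorem norm_mFourier_sub_one {m : ℕ} (k : Fin m → ℤ) (θ : UnitAddTorus (Fin m)) :
    ‖mFourier k θ - 1‖ ≤ 8 * m * ‖k‖ * ‖θ‖ := by
  simp only [mFourier, ContinuousMap.coe_mk, fourier_apply]
  refine (norm_prod_sub_one _ _ fun i => Circle.norm_coe _).trans ?_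
  have : ∀ i ∈ (Finset.univ : Finset (Fin m)),
      ‖(AddCircle.toCircle (k i • θ i) : ℂ) - 1‖ ≤ 8 * ‖k‖ * ‖θ‖ := by
    intro i _
    refine (norm_toCircle_sub_one _).trans ?_
    have h1 : ‖k i • θ i‖ ≤ ‖k i‖ * ‖θ i‖ := norm_zsmul_le _ _
    have h2 : ‖k i‖ ≤ ‖k‖ := norm_le_pi_norm k i
    have h3 : ‖θ i‖ ≤ ‖θ‖ := norm_le_pi_norm θ i
    have h4 : ‖k i‖ * ‖θ i‖ ≤ ‖k‖ * ‖θ‖ :=
      mul_le_mul h2 h3 (norm_nonneg _) (norm_nonneg _)
    linarith
  refine (Finset.sum_le_card_nsmul _ _ _ this).trans (le_of_eq ?_)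
  simp only [Finset.card_univ, Fintype.card_fin, nsmul_eq_mul]
  ring

theorem vol_circ (q : ℕ) (hq : 1 ≤ q) (r : ℝ) :
    AddCircle.haarAddCircle {x : UnitAddCircle | ‖q • x‖ ≤ r} ≤ ENNReal.ofReal (2 * r) := by
  have hmp := Measure.measurePreserving_zsmul (G := UnitAddCircle) AddCircle.haarAddCircle
    (n := (q : ℤ)) (by exact_mod_cast (by omega : q ≠ 0))
  have hs : {x : UnitAddCircle | ‖q • x‖ ≤ r} =
      (fun g : UnitAddCircle => (q : ℤ) • g) ⁻¹' Metric.closedBall 0 r := by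
    ext x; simp
  rw [hs, hmp.measure_preimage Metric.isClosed_closedBall.measurableSet.nullMeasurableSet]
  have h1 := AddCircle.volume_closedBall (T := 1) (x := (0 : UnitAddCircle)) r
  rw [AddCircle.volume_eq_smul_haarAddCircle] at h1
  simp only [ENNReal.ofReal_one, one_smul] at h1
  rw [h1]
  exact ENNReal.ofReal_le_ofReal (min_le_right _ _)

theorem vol_tor (m q : ℕ) (hq : 1 ≤ q) (r : ℝ) (hr : 0 ≤ r) :
    muT m {θ : UnitAddTorus (Fin m) | ‖q • θ‖ ≤ r} ≤ ENNReal.ofReal ((2 * r) ^ m) := by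
  have hs : {θ : UnitAddTorus (Fin m) | ‖q • θ‖ ≤ r} =
      Set.univ.pi fun _ : Fin m => {x : UnitAddCircle | ‖q • x‖ ≤ r} := by
    ext θ
    simp only [Set.mem_ofPred_eq, Set.mem_pi, Set.mem_univ, true_imp_iff]
    rw [pi_norm_le_iff_of_nonneg hr]
    rfl
  rw [hs]
  unfold muT
  rw [Measure.pi_pi, ENNReal.ofReal_pow (by positivity)]
  calc ∏ _i : Fin m, AddCircle.haarAddCircle {x : UnitAddCircle | ‖q • x‖ ≤ r}
      ≤ ∏ _i : Fin m, ENNReal.ofReal (2 * r) :=
        Finset.prod_le_prod' fun i _ => vol_circ q hq r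
    _ = _ := by simp

theorem vol_arcs (m : ℕ) (N w : ℝ) (hN : 0 < N) (hw : 0 ≤ w) :
    (muT m).real (arcs m N w) ≤ w * (2 * (w / N)) ^ m := by
  have hs : arcs m N w ⊆ ⋃ q ∈ Finset.Icc 1 ⌊w⌋₊, {θ : UnitAddTorus (Fin m) | ‖q • θ‖ ≤ w / N} := by
    rintro θ ⟨q, h1, h2, h3⟩
    simp only [Set.mem_iUnion]
    exact ⟨q, Finset.mem_Icc.mpr ⟨h1, Nat.le_floor h2⟩, h3⟩
  refine (measureReal_mono hs (measure_ne_top _ _)).trans ((measureReal_biUnion_finset_le _ _).trans ?_)
  have : ∀ q ∈ Finset.Icc 1 ⌊w⌋₊,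
      (muT m).real {θ : UnitAddTorus (Fin m) | ‖q • θ‖ ≤ w / N} ≤ (2 * (w / N)) ^ m := by
    intro q hq
    exact ENNReal.toReal_le_of_le_ofReal (by positivity)
      (vol_tor m q (Finset.mem_Icc.mp hq).1 _ (by positivity))
  refine (Finset.sum_le_card_nsmul _ _ _ this).trans ?_
  simp only [Nat.card_Icc, add_tsub_cancel_right, nsmul_eq_mul]
  exact mul_le_mul_of_nonneg_right (Nat.floor_le hw) (by positivity)

theorem arcs_mono (m : ℕ) {N R R' : ℝ} (hN : 0 < N) (h : R ≤ R') : arcs m N R ⊆ arcs m N R' := by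
  rintro θ ⟨q, h1, h2, h3⟩
  exact ⟨q, h1, h2.trans h, h3.trans (div_le_div_of_nonneg_right h hN.le)⟩

end Pool.Agent.MP_14ad9d_nt.Full.Add0Aux
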