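import Pool.Agent.MP_14ad9d_nt.Full.AddF1
import Pool.Agent.MP_14ad9d_nt.Full.Sieve

set_option autoImplicit false

open Filter Topology MeasureTheory

namespace Pool.Agent.MP_14ad9d_nt.Full.AddFAux

lemma mass_nonneg {m : ℕ} (f : (Fin m → ℤ) →₀ ℝ) (S : Set (UnitAddTorus (Fin m))) :
    0 ≤ mass f S := integral_nonneg fun _ => by positivity

lemma uu_eq (m : ℕ) {p : ℕ} (hp : p.Prime) (k : ℕ) (hk : (k : ℝ) = (p : ℝ) ^ m - ((p : ℝ) - 1) ^ m) :
    (k : ℝ) / ((p : ℝ) ^ m - k) = uu m p - 1 := by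
  have h2 : (2 : ℝ) ≤ p := by exact_mod_cast hp.two_le
  have h1 : (0 : ℝ) < ((p : ℝ) - 1) ^ m := pow_pos (by linarith) _
  rw [hk, uu, div_pow, sub_sub_cancel, div_sub_one h1.ne']

theorem bounds (l : ℕ) (hl : l.Prime) (m : ℕ) (hm : (l : ℝ) - 1 = m) (B : ℕ) (hB : B ≠ 0)
    (C' C₀ : ℝ) (hC' : 0 < C') (hC₀ : 0 < C₀) :
    ∃ C₁ : ℝ, 0 < C₁ ∧ ∀ ε : ℝ, 0 < ε → ∃ w₁ : ℕ, ∀ w : ℕ, w₁ ≤ w → ∀ᶠ N : ℝ in atTop,
      ∀ Ω : (∀ p : ℕ, Set (Fin m → ZMod p)),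
        (∀ p : ℕ, p.Prime → p ≡ 1 [MOD l] → w < p →
          ((Ω p).ncard : ℝ) = (p : ℝ) ^ m - ((p : ℝ) - 1) ^ m) →
        ∀ F : (Fin m → ℤ) →₀ ℝ, (∀ n, 0 ≤ F n) →
          (∀ n, F n ≤ rho m l B w * (C' * Real.log N)) → (∀ n ∈ F.support, ‖n‖ ≤ C₀ * N) →
          (∀ n ∈ F.support, ∀ p : ℕ, p.Prime → p ≡ 1 [MOD l] → w < p → (p : ℝ) ≤ N →
            (fun i => (n i : ZMod p)) ∉ Ω p) →
          (F.sum fun _ a => a) ≤ C₁ * N ^ m ∧
          (F.sum fun _ a => a ^ 2) ≤ C₁ * Real.log N * N ^ m ∧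
          ∀ K : ℕ, (w : ℝ) * 2 ^ K ≤ N ^ (1 / 8 : ℝ) →
            mass F (arcs m N (w * 2 ^ K)) ≤ C₁ * (1 + ε) ^ K * N ^ m := by
  obtain ⟨c, hc, hH⟩ := H_lower l hl m hm B hB
  obtain ⟨cL, hcL, hL⟩ := mass_lower m C₀ hC₀
  set C₂ : ℝ := C' / (c * cL) with hC₂
  have hC20 : 0 < C₂ := by positivity
  refine ⟨C₂ * (1 + C' + C' / c), by positivity, fun ε hε => ?_⟩
  obtain ⟨w₁, hw₁⟩ := hH ε hε
  refine ⟨max w₁ 1, fun w hw => ?_⟩
  have hw1 : 1 ≤ w := le_trans (le_max_right _ _) hw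
  have hw1' : (1 : ℝ) ≤ w := by exact_mod_cast hw1
  filter_upwards [hw₁ w (le_trans (le_max_left _ _) hw), eventually_gt_atTop 1,
    (tendsto_rpow_atTop (show (0 : ℝ) < 1 / 8 by norm_num)).eventually_ge_atTop (w : ℝ),
    (tendsto_rpow_atTop (show (0 : ℝ) < 1 / 4 by norm_num)).eventually_gt_atTop (2 : ℝ)]
    with N hHN hN hwN h2N Ω hΩ F hF0 hFs hbox hav
  have hN0 : 0 < N := by linarith
  have hlN : 0 < Real.log N := Real.log_pos hN
  have hρ := rho_pos m l B w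
  have hρ1 := rho_le_one m l B w
  set S1 : ℝ := F.sum fun _ a => a with hS1
  have hS10 : 0 ≤ S1 := Finset.sum_nonneg fun n _ => hF0 n
  have hsq : (F.sum fun _ a => a ^ 2) ≤ rho m l B w * (C' * Real.log N) * S1 := by
    rw [hS1, Finsupp.sum, Finsupp.sum, Finset.mul_sum]
    apply Finset.sum_le_sum
    intro n _
    have := hF0 n
    have := hFs n
    nlinarith
  have hmass : ∀ K : ℕ, (w : ℝ) * 2 ^ K ≤ N ^ (1 / 8 : ℝ) →
      mass F (arcs m N (w * 2 ^ K)) ≤ C' / c * (1 + ε) ^ K * S1 := by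
    intro K hK
    obtain ⟨PP, hPP, hle⟩ := hHN K
    have h2K : (1 : ℝ) ≤ 2 ^ K := one_le_pow₀ (by norm_num)
    have hR : (1 : ℝ) ≤ w * 2 ^ K := by nlinarith
    have hwR : (w : ℝ) ≤ w * 2 ^ K := by nlinarith
    have hwp : ∀ p ∈ PP, w < p := fun p hp => by
      have := (hPP p hp).2.2.1
      exact_mod_cast hwR.trans_lt this
    have hsep : 2 * ((w : ℝ) * 2 ^ K) ^ 2 * (N ^ (1 / 4 : ℝ)) ^ 2 < N := by
      have e1 : (N ^ (1 / 8 : ℝ)) ^ 2 = N ^ (1 / 4 : ℝ) := by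
        rw [← Real.rpow_natCast, ← Real.rpow_mul hN0.le]; norm_num
      have e2 : (N ^ (1 / 4 : ℝ)) ^ 4 = N := by
        rw [← Real.rpow_natCast, ← Real.rpow_mul hN0.le]; norm_num
      have e3 : ((w : ℝ) * 2 ^ K) ^ 2 ≤ N ^ (1 / 4 : ℝ) := by
        rw [← e1]; exact pow_le_pow_left₀ (by linarith) hK 2
      set t := N ^ (1 / 4 : ℝ)
      have ht : 0 < t := by linarith
      calc 2 * ((w : ℝ) * 2 ^ K) ^ 2 * t ^ 2 ≤ 2 * t * t ^ 2 := by gcongr
        _ < t * t * t ^ 2 := by gcongr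
        _ = t ^ 4 := by ring
        _ = N := e2
    have hsv := sieve m N (w * 2 ^ K) (N ^ (1 / 4 : ℝ)) hR (by linarith) hsep PP
      (fun p hp => ⟨(hPP p hp).1, (hPP p hp).2.2.1⟩) Ω
      (fun p hp => by
        have h1 := hΩ p (hPP p hp).1 (hPP p hp).2.1 (hwp p hp)
        have h2 : (2 : ℝ) ≤ p := by exact_mod_cast (hPP p hp).1.two_le
        have h3 : (0 : ℝ) < ((p : ℝ) - 1) ^ m := pow_pos (by linarith) _
        have : ((Ω p).ncard : ℝ) < ((p ^ m : ℕ) : ℝ) := by push_cast; linarith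
        exact_mod_cast this) F
      (fun n hn p hp => hav n hn p (hPP p hp).1 (hPP p hp).2.1 (hwp p hp) (hPP p hp).2.2.2)
    have hcong : (∑ s ∈ PP.powerset with ((∏ p ∈ s, p : ℕ) : ℝ) ≤ N ^ (1 / 4 : ℝ),
        ∏ p ∈ s, (((Ω p).ncard : ℝ) / ((p : ℝ) ^ m - (Ω p).ncard))) =
        ∑ s ∈ PP.powerset with ((∏ p ∈ s, p : ℕ) : ℝ) ≤ N ^ (1 / 4 : ℝ),
          ∏ p ∈ s, (uu m p - 1) := by
      apply Finset.sum_congr rfl
      intro s hs
      apply Finset.prod_congr rfl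
      intro p hp
      have hp' : p ∈ PP := Finset.mem_powerset.1 (Finset.mem_filter.1 hs).1 hp
      exact uu_eq m (hPP p hp').1 _ (hΩ p (hPP p hp').1 (hPP p hp').2.1 (hwp p hp'))
    rw [hcong] at hsv
    set H := ∑ s ∈ PP.powerset with ((∏ p ∈ s, p : ℕ) : ℝ) ≤ N ^ (1 / 4 : ℝ),
          ∏ p ∈ s, (uu m p - 1)
    set μ := mass F (arcs m N (w * 2 ^ K))
    have hμ : 0 ≤ μ := mass_nonneg _ _
    have hE : 0 < (1 + ε) ^ K := by positivity
    have k1 : c * rho m l B w * Real.log N * μ ≤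
        (1 + ε) ^ K * (rho m l B w * (C' * Real.log N) * S1) := by
      calc _ ≤ (1 + ε) ^ K * H * μ := mul_le_mul_of_nonneg_right hle hμ
        _ = (1 + ε) ^ K * (H * μ) := by ring
        _ ≤ _ := mul_le_mul_of_nonneg_left (hsv.trans hsq) hE.le
    have k2 : (c * rho m l B w * Real.log N) * μ ≤
        (c * rho m l B w * Real.log N) * (C' / c * (1 + ε) ^ K * S1) := by
      refine k1.trans (le_of_eq ?_)
      field_simp
    exact le_of_mul_le_mul_left k2 (by positivity)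
  have hNm : 0 < N ^ m := by positivity
  have hS : S1 ≤ C₂ * N ^ m := by
    have h1 := hmass 0 (by simpa using hwN)
    simp only [pow_zero, mul_one] at h1
    have h2 := hL N w hN.le hw1' F hF0 hbox
    rw [← hS1] at h2
    have h3 : cL * S1 ^ 2 ≤ N ^ m * (C' / c * S1) :=
      h2.trans (mul_le_mul_of_nonneg_left h1 hNm.le)
    rcases hS10.eq_or_lt with h0 | h0
    · rw [← h0]; positivity
    · have h4 : (cL * S1) * S1 ≤ (cL * S1) * (C₂ * N ^ m) := by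
        calc _ = cL * S1 ^ 2 := by ring
          _ ≤ _ := h3
          _ = _ := by rw [hC₂]; field_simp
      exact le_of_mul_le_mul_left h4 (by positivity)
  have hq : 0 < C' / c := by positivity
  refine ⟨hS.trans ?_, hsq.trans ?_, fun K hK => (hmass K hK).trans ?_⟩
  · apply mul_le_mul_of_nonneg_right _ hNm.le
    nlinarith
  · calc rho m l B w * (C' * Real.log N) * S1 ≤ 1 * (C' * Real.log N) * (C₂ * N ^ m) := by gcongr
      _ = (C₂ * C') * Real.log N * N ^ m := by ring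
      _ ≤ _ := by
        gcongr
        linarith
  · calc C' / c * (1 + ε) ^ K * S1 ≤ C' / c * (1 + ε) ^ K * (C₂ * N ^ m) := by gcongr
      _ = (C₂ * (C' / c)) * (1 + ε) ^ K * N ^ m := by ring
      _ ≤ _ := by
        gcongr
        linarith

end Pool.Agent.MP_14ad9d_nt.Full.AddFAux
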