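import Pool.Agent.MP_14ad9d_nt.Full.AddF5
import Pool.Agent.MP_14ad9d_nt.Full.AddF2
import Pool.Agent.MP_14ad9d_nt.Full.Add0

set_option autoImplicit false

open Filter Topology

namespace Pool.Agent.MP_14ad9d_nt.Full.AddFAux

variable {A : Type} [CommRing A] {m : ℕ} (b : Module.Basis (Fin m) ℤ A)

lemma box_pull (α W W' : A) (M₀ : ℕ) (hWW : W * W' = M₀) (κ : ℝ) (hκ : 0 < κ) (hκM : κ ≤ M₀)
    (Cr : ℝ) (hCr : 0 < Cr) (h : ∀ y, ‖b.equivFun (W' * y)‖ ≤ Cr * ‖b.equivFun y‖) (C X : ℝ)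
    (hX : ‖b.equivFun α‖ ≤ X) (n : Fin m → ℤ) (hn : ‖b.equivFun (iota b α W n)‖ ≤ C * X) :
    ‖n‖ ≤ Cr * (|C| + 1) * (X / κ) := by
  have hX0 : 0 ≤ X := (norm_nonneg _).trans hX
  rw [pi_norm_le_iff_of_nonneg (by positivity)]
  intro i
  have h1 : W' * (iota b α W n - α) = (M₀ : A) * b.equivFun.symm n := by
    rw [iota, ← hWW]; ring
  have h2 := (norm_le_pi_norm _ i).trans (h (iota b α W n - α))
  rw [h1, equivFun_natCast_mul, LinearEquiv.apply_symm_apply, norm_mul, Int.norm_natCast,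
    map_sub] at h2
  have h3 := norm_sub_le (b.equivFun (iota b α W n)) (b.equivFun α)
  have h4 : C * X ≤ |C| * X := mul_le_mul_of_nonneg_right (le_abs_self C) hX0
  rw [← mul_div_assoc, le_div_iff₀ hκ]
  calc ‖n i‖ * κ ≤ ‖n i‖ * M₀ := by gcongr
    _ = M₀ * ‖n i‖ := mul_comm _ _
    _ ≤ Cr * ‖b.equivFun (iota b α W n) - b.equivFun α‖ := h2
    _ ≤ Cr * ((|C| + 1) * X) := by
        apply mul_le_mul_of_nonneg_left _ hCr.le
        linarith
    _ = _ := by ring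

lemma pigeon [IsDomain A] (W : A) (hW : W ≠ 0) (Adm : Finset A) (φ : A →₀ ℝ) (h0 : ∀ a, 0 ≤ φ a)
    (hc : ∀ a, φ a ≠ 0 → ∃ α ∈ Adm, W ∣ a - α) (ρ : ℝ) (hρ : 0 < ρ) (T y : ℝ) (hy : 0 < y)
    (hT : (Adm.card : ℝ) ≤ T) (hs : T * y ≤ ρ * φ.sum fun _ x => x) (hne : 0 < T) :
    ∃ α ∈ Adm, y ≤ (pull _ (iota_inj b α W hW) ρ φ).sum fun _ x => x := by
  classical
  by_contra hcon
  push Not at hcon
  have h1 : ρ * (φ.sum fun _ x => x) ≤
      ∑ α ∈ Adm, (pull _ (iota_inj b α W hW) ρ φ).sum fun _ x => x := by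
    simp only [pull_sum _ _ ρ φ (fun _ x => x) (fun _ => rfl)]
    simp only [Finsupp.sum, Finset.mul_sum]
    rw [Finset.sum_comm]
    apply Finset.sum_le_sum
    intro a ha
    obtain ⟨α, hα, hd⟩ := hc a (Finsupp.mem_support_iff.1 ha)
    have hpos : ∀ α' ∈ Adm, 0 ≤ if a ∈ Set.range (iota b α' W) then ρ * φ a else 0 := by
      intro α' _
      split_ifs
      · exact mul_nonneg hρ.le (h0 a)
      · exact le_rfl
    have := Finset.single_le_sum hpos hα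
    rwa [if_pos ((mem_range_iota b α W a).2 hd)] at this
  rcases Adm.eq_empty_or_nonempty with he | he
  · rw [he, Finset.sum_empty] at h1
    have := mul_pos hne hy
    linarith
  · have h2 := Finset.sum_lt_sum_of_nonempty he hcon
    rw [Finset.sum_const, nsmul_eq_mul] at h2
    have := mul_le_mul_of_nonneg_right hT hy.le
    linarith

theorem addG [IsDomain A] [CharZero A] (hm0 : 0 < m) (l : ℕ) (hl : l.Prime)
    (hm : (l : ℝ) - 1 = m) (φ : ∀ p : ℕ, A →ₙ+* (Fin m → ZMod p))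
    (hφ : ∀ p : ℕ, p.Prime → p ≡ 1 [MOD l] → Function.Surjective (φ p))
    (r r' : A) (Nr : ℕ) (hNr : Nr ≠ 0) (hr : r * r' = Nr) (B : ℕ) (hB : B ≠ 0)
    (f g : ℝ → (A →₀ ℝ)) (C δ : ℝ) (hδ : 0 < δ)
    (hf0 : ∀ X a, 0 ≤ f X a) (hg0 : ∀ X a, 0 ≤ g X a)
    (hsup : ∀ᶠ X : ℝ in atTop, ∀ a, f X a ≤ C * Real.log X ∧ g X a ≤ C * Real.log X)
    (hbox : ∀ᶠ X : ℝ in atTop, ∀ a, (f X a ≠ 0 ∨ g X a ≠ 0) → ‖b.equivFun a‖ ≤ C * X)
    (hprime : ∀ᶠ X : ℝ in atTop, ∀ a, (f X a ≠ 0 ∨ g X a ≠ 0) → ∀ p : ℕ, p.Prime →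
      p ≡ 1 [MOD l] → ¬ p ∣ B → (p : ℝ) < X → ∀ i, φ p a i ≠ 0)
    (hmass : ∃ᶠ X : ℝ in atTop, δ * X ^ m ≤ (f X).sum fun _ x => x)
    (hequi : Equi b f g) (X₀ : ℝ) :
    ∃ X : ℝ, X₀ ≤ X ∧ ∃ a a' t : A, f X a ≠ 0 ∧ g X a' ≠ 0 ∧ t ≠ 0 ∧ (l : A) ∣ t ∧
      a' - a = r * t ^ l := by
  classical
  obtain ⟨Cr, hCr, hCr'⟩ := norm_mul_le b r'
  have hNr' : (1 : ℝ) ≤ Nr := by exact_mod_cast Nat.one_le_iff_ne_zero.2 hNr
  obtain ⟨C₁, hC₁, hbd⟩ := bounds l hl m hm B hB (2 * (|C| + 1)) (Cr * (|C| + 1))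
    (by positivity) (by positivity)
  obtain ⟨ε, hε, c₁, hc₁, w₀, hadd⟩ := add0 hm0 b l hl.one_le (δ / Nr ^ m) (Cr * (|C| + 1)) C₁
    (1 / 8) (by positivity) (by positivity) hC₁ (by norm_num)
  obtain ⟨w₁, hbd⟩ := hbd ε hε
  obtain ⟨w, hw0, hw1, hwB, hwl, hwN⟩ :
      ∃ w : ℕ, ⌈w₀⌉₊ ≤ w ∧ w₁ ≤ w ∧ B ≤ w ∧ l ≤ w ∧ Nr ≤ w :=
    ⟨⌈w₀⌉₊ + w₁ + B + l + Nr, by omega, by omega, by omega, by omega, by omega⟩
  obtain ⟨ε', hε', N₀, hadd⟩ := hadd w (Nat.ceil_le.1 hw0)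
  replace hbd := hbd w hw1
  set P : ℕ := w.factorial with hP
  have hP2 : 2 ≤ P := (hl.two_le.trans hwl).trans (Nat.self_le_factorial w)
  set κ : ℝ := (P : ℝ) ^ l with hκdef
  have hκ1 : 1 < κ := one_lt_pow₀ (by exact_mod_cast hP2) hl.ne_zero
  have hκ : 0 < κ := by linarith
  set M₀ : ℕ := Nr * P ^ l with hM₀def
  have hM₀ : M₀ ≠ 0 := mul_ne_zero hNr (pow_ne_zero _ (by omega))
  have hM₀' : (M₀ : ℝ) = Nr * κ := by rw [hM₀def, hκdef]; push_cast; rfl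
  set W : A := r * (P : A) ^ l with hWdef
  have hWW : W * r' = M₀ := by rw [hWdef, hM₀def]; push_cast; rw [← hr]; ring
  have hW : W ≠ 0 := by
    intro h
    rw [h, zero_mul] at hWW
    exact hM₀ (by exact_mod_cast hWW.symm)
  have hbig : ∀ p : ℕ, p.Prime → w < p → ¬ p ∣ M₀ ∧ ¬ p ∣ B := by
    intro p hp hwp
    refine ⟨fun h => ?_, fun h => ?_⟩
    · rcases (Nat.Prime.dvd_mul hp).1 h with h | h
      · have := Nat.le_of_dvd (Nat.pos_of_ne_zero hNr) h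
        omega
      · have := (Nat.Prime.dvd_factorial hp).1 (hp.dvd_of_dvd_pow h)
        omega
    · have := Nat.le_of_dvd (Nat.pos_of_ne_zero hB) h
      omega
  set ρ := rho m l B w with hρdef
  have hρ : 0 < ρ := rho_pos m l B w
  have hten : Tendsto (fun X : ℝ => X / κ) atTop atTop := tendsto_id.atTop_div_const hκ
  have hSS : ∀ p ∈ SS l B w, p.Prime ∧ p ≡ 1 [MOD l] ∧ ¬ p ∣ B ∧ p ≤ w := fun p hp => by
    rw [SS, Finset.mem_filter, Finset.mem_range] at hp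
    exact ⟨hp.2.1, hp.2.2.1, hp.2.2.2, by omega⟩
  obtain ⟨Adm, hAc, hAdm⟩ := admissible b (SS l B w) (fun p hp => (hSS p hp).1) φ
    (fun p hp => hφ p (hSS p hp).1 (hSS p hp).2.1) M₀ hM₀ (fun p hp =>
      Dvd.dvd.mul_left (dvd_pow ((Nat.Prime.dvd_factorial (hSS p hp).1).2 (hSS p hp).2.2.2)
        hl.ne_zero) _)
  have key : ∀ α : A, ∀ᶠ X : ℝ in atTop,
      (δ / Nr ^ m * (X / κ) ^ m ≤ (pull _ (iota_inj b α W hW) ρ (f X)).sum fun _ x => x) →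
      ∃ a a' t : A, f X a ≠ 0 ∧ g X a' ≠ 0 ∧ t ≠ 0 ∧ (l : A) ∣ t ∧ a' - a = r * t ^ l := by
    intro α
    have hΩ : ∀ p : ℕ, ∃ Ω : Set (Fin m → ZMod p), p.Prime → p ≡ 1 [MOD l] → w < p →
        (Ω.ncard : ℝ) = (p : ℝ) ^ m - ((p : ℝ) - 1) ^ m ∧
        ∀ n : Fin m → ℤ, (∀ i, φ p (α + W * b.equivFun.symm n) i ≠ 0) →
          (fun i => (n i : ZMod p)) ∉ Ω := by
      intro p
      by_cases h : p.Prime ∧ p ≡ 1 [MOD l] ∧ w < p
      · obtain ⟨Ω, h'⟩ := omega b h.1 (φ p) (hφ p h.1 h.2.1) α W r' M₀ hWW (hbig p h.1 h.2.2).1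
        exact ⟨Ω, fun _ _ _ => h'⟩
      · exact ⟨∅, fun h1 h2 h3 => absurd ⟨h1, h2, h3⟩ h⟩
    choose Ω hΩ using hΩ
    have hall : ∀ᶠ X : ℝ in atTop, ∀ ψ : A →₀ ℝ, (ψ = f X ∨ ψ = g X) →
        (∀ n ∈ (pull _ (iota_inj b α W hW) ρ ψ).support, ‖n‖ ≤ Cr * (|C| + 1) * (X / κ)) ∧
        ((pull _ (iota_inj b α W hW) ρ ψ).sum fun _ a => a) ≤ C₁ * (X / κ) ^ m ∧
        ((pull _ (iota_inj b α W hW) ρ ψ).sum fun _ a => a ^ 2) ≤
          C₁ * Real.log (X / κ) * (X / κ) ^ m ∧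
        ∀ K : ℕ, (w : ℝ) * 2 ^ K ≤ (X / κ) ^ (1 / 8 : ℝ) →
          mass (pull _ (iota_inj b α W hW) ρ ψ) (arcs m (X / κ) (w * 2 ^ K)) ≤
            C₁ * (1 + ε) ^ K * (X / κ) ^ m := by
      filter_upwards [hsup, hbox, hprime, hten.eventually hbd, eventually_ge_atTop ‖b.equivFun α‖,
        hten.eventually_ge_atTop κ, eventually_gt_atTop 1] with X hsup hbox hprime hbd hα hκX hX1
      intro ψ hψ
      have hne : ∀ n ∈ (pull _ (iota_inj b α W hW) ρ ψ).support,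
          f X (iota b α W n) ≠ 0 ∨ g X (iota b α W n) ≠ 0 := by
        intro n hn
        rw [Finsupp.mem_support_iff, pull_apply] at hn
        have := right_ne_zero_of_mul hn
        rcases hψ with rfl | rfl
        exacts [Or.inl this, Or.inr this]
      have hψ0 : ∀ a, 0 ≤ ψ a := by
        rcases hψ with rfl | rfl
        exacts [hf0 X, hg0 X]
      have hψs : ∀ a, ψ a ≤ C * Real.log X := by
        rcases hψ with rfl | rfl
        exacts [fun a => (hsup a).1, fun a => (hsup a).2]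
      have hb1 : ∀ n ∈ (pull _ (iota_inj b α W hW) ρ ψ).support,
          ‖n‖ ≤ Cr * (|C| + 1) * (X / κ) := fun n hn =>
        box_pull b α W r' M₀ hWW κ hκ (by rw [hM₀']; nlinarith) Cr hCr hCr' C X hα n
          (hbox _ (hne n hn))
      refine ⟨hb1, hbd Ω (fun p h1 h2 h3 => (hΩ p h1 h2 h3).1) _ (fun n => ?_) (fun n => ?_) hb1
        (fun n hn p h1 h2 h3 h4 => ?_)⟩
      · rw [pull_apply]
        exact mul_nonneg hρ.le (hψ0 _)
      · rw [pull_apply]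
        refine mul_le_mul_of_nonneg_left ((hψs _).trans ?_) hρ.le
        have h1 : 0 < Real.log X := Real.log_pos hX1
        have h2 : Real.log κ ≤ Real.log (X / κ) := Real.log_le_log hκ hκX
        have h3 : Real.log (X / κ) = Real.log X - Real.log κ :=
          Real.log_div (by linarith) hκ.ne'
        have h4 := le_abs_self C
        have h5 := abs_nonneg C
        nlinarith
      · refine (hΩ p h1 h2 h3).2 n (hprime _ (hne n hn) p h1 h2 (hbig p h1 h3).2 ?_)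
        exact h4.trans_lt (div_lt_self (by linarith) hκ1)
    have harc := arcs_small (fun X => pull _ (iota_inj b α W hW) ρ (f X))
      (fun X => pull _ (iota_inj b α W hW) ρ (g X)) κ hκ w (Cr * (|C| + 1)) C₁ (by positivity) hC₁
      (fun X n => by rw [pull_apply]; exact mul_nonneg hρ.le (hf0 _ _))
      (fun X n => by rw [pull_apply]; exact mul_nonneg hρ.le (hg0 _ _))
      (hall.mono fun X h => ⟨(h _ (Or.inl rfl)).1, (h _ (Or.inr rfl)).1, (h _ (Or.inl rfl)).2.1,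
        (h _ (Or.inr rfl)).2.1⟩)
      (fun θ' hθ β ε hε => pointwise b hequi α W r' hW M₀ hM₀ hWW ρ κ hκ _ w.factorial_ne_zero θ'
        hθ β ε hε) ε' hε'
    have hlog : ∀ᶠ N : ℝ in atTop, C₁ * Real.log N ≤ N ^ c₁ := by
      have := (isLittleO_log_rpow_atTop hc₁).bound (show 0 < 1 / C₁ by positivity)
      filter_upwards [this, eventually_ge_atTop 0] with N h hN
      rw [Real.norm_eq_abs, Real.norm_eq_abs, abs_of_nonneg (Real.rpow_nonneg hN _)] at h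
      have h2 := mul_le_mul_of_nonneg_left ((le_abs_self _).trans h) hC₁.le
      rwa [← mul_assoc, mul_one_div_cancel hC₁.ne', one_mul] at h2
    filter_upwards [hall, harc, hten.eventually hlog, hten.eventually_ge_atTop N₀,
      hten.eventually_ge_atTop 0] with X hall harc hlog hN₀ hN0 hms
    have hF := hall _ (Or.inl rfl)
    have hG := hall _ (Or.inr rfl)
    have hsq : C₁ * Real.log (X / κ) * (X / κ) ^ m ≤ (X / κ) ^ m * (X / κ) ^ c₁ := by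
      rw [mul_comm]
      exact mul_le_mul_of_nonneg_left hlog (by positivity)
    obtain ⟨s, hs, n, h1, h2⟩ := hadd (X / κ) hN₀ _ _
      (fun n => by rw [pull_apply]; exact mul_nonneg hρ.le (hf0 _ _)) hF.1 hms
      (fun K hK => ⟨hF.2.2.2 K hK, hG.2.2.2 K hK⟩) (hF.2.2.1.trans hsq) (hG.2.2.1.trans hsq) harc
    rw [pull_apply] at h1 h2
    refine ⟨_, _, (P : A) * s, right_ne_zero_of_mul h1, right_ne_zero_of_mul h2,
      mul_ne_zero (by exact_mod_cast (by omega : P ≠ 0)) hs,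
      Dvd.dvd.mul_right (Nat.cast_dvd_cast ((Nat.Prime.dvd_factorial hl).2 hwl)) _, ?_⟩
    rw [iota, iota, map_add, LinearEquiv.symm_apply_apply, hWdef]
    ring
  obtain ⟨X, hX1, hX2, hX3, hX4, hX5, hX6⟩ := (hmass.and_eventually
    (((eventually_all_finset Adm).2 fun α _ => key α).and (hprime.and
      ((eventually_gt_atTop (w : ℝ)).and ((eventually_ge_atTop X₀).and
        (eventually_gt_atTop 0)))))).exists
  obtain ⟨α, hα, h⟩ := pigeon b W hW Adm (f X) (hf0 X) (fun a ha => by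
      obtain ⟨α, hα, hd⟩ := hAdm a (fun p hp => hX3 a (Or.inl ha) p (hSS p hp).1 (hSS p hp).2.1
        (hSS p hp).2.2.1 (lt_of_le_of_lt (by exact_mod_cast (hSS p hp).2.2.2) hX4))
      exact ⟨α, hα, (Dvd.intro _ hWW).trans hd⟩) ρ hρ ((M₀ : ℝ) ^ m * ρ)
    (δ / Nr ^ m * (X / κ) ^ m) (by positivity) hAc (by
      refine le_trans (le_of_eq ?_) (mul_le_mul_of_nonneg_left hX1 hρ.le)
      rw [hM₀', mul_pow, div_pow]
      field_simp) (by rw [hM₀']; positivity)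
  exact ⟨X, hX5, hX2 α hα h⟩

end Pool.Agent.MP_14ad9d_nt.Full.AddFAux
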