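import Pool.Agent.MP_14ad9d_nt.Full.ADefs

set_option autoImplicit false

namespace Pool.Agent.MP_14ad9d_nt.Full

namespace MertAux
open Finset Real

theorem moment (PP : Finset ℕ) (h L : ℕ → ℝ) (h0 : ∀ p ∈ PP, 0 ≤ h p) (hL : ∀ p ∈ PP, 0 ≤ L p) :
    ∑ s ∈ PP.powerset, (∏ p ∈ s, h p) * ∑ p ∈ s, L p ≤
      (∏ p ∈ PP, (1 + h p)) * ∑ p ∈ PP, h p * L p := by
  induction PP using Finset.induction_on with
  | empty => simp
  | insert a T ha ih =>
    have ih' := ih (fun p hp => h0 p (mem_insert_of_mem hp)) fun p hp => hL p (mem_insert_of_mem hp)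
    have a0 := h0 a (mem_insert_self _ _)
    have a1 := hL a (mem_insert_self _ _)
    have e : ∑ s ∈ T.powerset, (∏ p ∈ insert a s, h p) * ∑ p ∈ insert a s, L p =
        h a * L a * ∏ p ∈ T, (1 + h p) +
          h a * ∑ s ∈ T.powerset, (∏ p ∈ s, h p) * ∑ p ∈ s, L p := by
      rw [prod_one_add, mul_sum, mul_sum, ← sum_add_distrib]
      refine sum_congr rfl fun s hs => ?_
      have : a ∉ s := fun e => ha (mem_powerset.1 hs e)
      rw [prod_insert this, sum_insert this]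
      ring
    have p0 : 0 ≤ ∏ p ∈ T, (1 + h p) :=
      prod_nonneg fun p hp => by linarith [h0 p (mem_insert_of_mem hp)]
    rw [sum_powerset_insert ha, e, prod_insert ha, sum_insert ha]
    nlinarith [mul_le_mul_of_nonneg_left ih' a0, mul_nonneg (mul_nonneg (mul_nonneg a0 a0) a1) p0]

theorem blocks (y : ℝ) (hy : 0 < y) (K : ℕ) : ∀ s : Finset ℕ,
    (∀ p ∈ s, p.Prime ∧ y < p ∧ (p : ℝ) ≤ y * 2 ^ K) →
    ∑ p ∈ s, Real.log p / p ≤ 2 * Real.log 4 * K := by
  induction K with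
  | zero =>
    intro s hs
    rw [sum_eq_zero fun p hp => absurd (hs p hp).2.2 (by simpa using (hs p hp).2.1)]
    simp
  | succ K ih =>
    intro s hs
    have hw : 0 < y * 2 ^ K := by positivity
    rw [← sum_filter_add_sum_filter_not s fun p : ℕ => (p : ℝ) ≤ y * 2 ^ K]
    have a1 := ih (s.filter fun p : ℕ => (p : ℝ) ≤ y * 2 ^ K) fun p hp =>
      ⟨(hs p (mem_filter.1 hp).1).1, (hs p (mem_filter.1 hp).1).2.1, (mem_filter.1 hp).2⟩
    have a2 : ∑ p ∈ s.filter (fun p : ℕ => ¬(p : ℝ) ≤ y * 2 ^ K), Real.log p / p ≤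
        Chebyshev.theta (y * 2 ^ (K + 1)) / (y * 2 ^ K) := by
      rw [Chebyshev.theta, sum_div]
      calc _ ≤ ∑ p ∈ s.filter (fun p : ℕ => ¬(p : ℝ) ≤ y * 2 ^ K),
            Real.log p / (y * 2 ^ K) :=
            sum_le_sum fun p hp => div_le_div_of_nonneg_left (log_natCast_nonneg p) hw
              (not_le.1 (mem_filter.1 hp).2).le
        _ ≤ _ := by
            refine sum_le_sum_of_subset_of_nonneg (fun p hp => ?_) fun p _ _ =>
              div_nonneg (log_natCast_nonneg p) hw.le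
            obtain ⟨b1, -, b3⟩ := hs p (mem_filter.1 hp).1
            exact mem_filter.2 ⟨mem_Ioc.2 ⟨b1.pos, Nat.le_floor b3⟩, b1⟩
    have a3 : Chebyshev.theta (y * 2 ^ (K + 1)) / (y * 2 ^ K) ≤ 2 * Real.log 4 := by
      rw [div_le_iff₀ hw]
      refine (Chebyshev.theta_le_log4_mul_x (by positivity)).trans (le_of_eq (by ring))
    push_cast
    linarith

theorem cheb8 (z : ℝ) (hz : 2 ≤ z) (s : Finset ℕ) (hs : ∀ p ∈ s, p.Prime ∧ (p : ℝ) ≤ z) :
    ∑ p ∈ s, Real.log p / p ≤ 8 * Real.log z := by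
  have l2 : 0 < Real.log 2 := log_pos one_lt_two
  have l3 : Real.log 2 ≤ Real.log z := log_le_log two_pos hz
  have l4 : Real.log 4 = 2 * Real.log 2 := by
    rw [show (4 : ℝ) = 2 ^ 2 by norm_num, Real.log_pow]; norm_num
  have a1 := Nat.le_ceil (Real.log z / Real.log 2)
  have a2 := Nat.ceil_lt_add_one (div_nonneg (l2.le.trans l3) l2.le)
  set K := ⌈Real.log z / Real.log 2⌉₊
  rw [div_le_iff₀ l2] at a1
  rw [div_add_one l2.ne', lt_div_iff₀ l2] at a2
  have a3 : z ≤ 2 ^ K := by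
    rw [← log_le_log_iff (by linarith) (by positivity), log_pow]; exact a1
  have := blocks 1 one_pos K s fun p hp =>
    ⟨(hs p hp).1, by exact_mod_cast (hs p hp).1.one_lt, by linarith [(hs p hp).2]⟩
  rw [l4] at this
  linarith

theorem tail (z : ℝ) (hz : 2 ≤ z) (K : ℕ) : ∀ s : Finset ℕ,
    (∀ p ∈ s, p.Prime ∧ (p : ℝ) ≤ z ^ K) →
    ∑ p ∈ s, Real.log p / p * Real.exp (-(Real.log p / Real.log z)) ≤
      8 * Real.log z * (4 - 2 * (K + 2) / 2 ^ K) := by
  have l0 : 0 < Real.log z := log_pos (by linarith)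
  induction K with
  | zero =>
    intro s hs
    rw [sum_eq_zero fun p hp => absurd (hs p hp).2 (by simpa using (hs p hp).1.one_lt)]
    norm_num
  | succ K ih =>
    intro s hs
    rw [← sum_filter_add_sum_filter_not s fun p : ℕ => (p : ℝ) ≤ z ^ K]
    have a1 := ih (s.filter fun p : ℕ => (p : ℝ) ≤ z ^ K) fun p hp =>
      ⟨(hs p (mem_filter.1 hp).1).1, (mem_filter.1 hp).2⟩
    have a0 : 2 ≤ z ^ (K + 1) := hz.trans (le_self_pow₀ (by linarith) (Nat.succ_ne_zero K))
    have a2 := cheb8 _ a0 (s.filter fun p : ℕ => ¬(p : ℝ) ≤ z ^ K) fun p hp =>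
      hs p (mem_filter.1 hp).1
    have a3 : ∑ p ∈ s.filter (fun p : ℕ => ¬(p : ℝ) ≤ z ^ K),
        Real.log p / p * Real.exp (-(Real.log p / Real.log z)) ≤
        (∑ p ∈ s.filter (fun p : ℕ => ¬(p : ℝ) ≤ z ^ K), Real.log p / p) *
          (1 / 2 ^ K) := by
      rw [sum_mul]
      refine sum_le_sum fun p hp => mul_le_mul_of_nonneg_left ?_
        (div_nonneg (log_natCast_nonneg p) p.cast_nonneg)
      have b1 := log_le_log (by positivity) (not_le.1 (mem_filter.1 hp).2).le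
      rw [log_pow, ← le_div_iff₀ l0] at b1
      rw [exp_neg, ← one_div]
      refine one_div_le_one_div_of_le (by positivity) (le_trans ?_ (exp_le_exp.2 b1))
      rw [← exp_one_pow]
      exact pow_le_pow_left₀ zero_le_two (by linarith [add_one_le_exp (1 : ℝ)]) K
    have a4 := mul_le_mul_of_nonneg_right a2 (by positivity : (0 : ℝ) ≤ 1 / 2 ^ K)
    rw [log_pow] at a4
    refine (add_le_add a1 (a3.trans a4)).trans (le_of_eq ?_)
    push_cast
    field_simp
    ring

theorem core (r : ℕ → ℝ) (r0 : ∀ n, 0 ≤ r n) (rz : r 0 = 0) (r1 : r 1 = 0) (a C σ : ℝ)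
    (h1 : 1 < σ) (h2 : σ < 2) (hs : Summable fun n : ℕ => r n / (n : ℝ) ^ σ)
    (hl : ∀ x ∈ Set.Ioc (1 : ℝ) 2, a / (x - 1) - C ≤ ∑' n : ℕ, r n / (n : ℝ) ^ x) :
    ∃ N : ℕ, -(a * Real.log (σ - 1)) - |C + 1| ≤
      ∑ n ∈ range N, r n / Real.log n * Real.exp (-(Real.log n * σ)) := by
  obtain ⟨N, hN⟩ := ((tendsto_sum_nat_add fun n : ℕ => r n / (n : ℝ) ^ σ).eventually
    (eventually_le_nhds one_pos)).exists
  refine ⟨N, ?_⟩
  have hd : ∀ x ∈ Set.Icc σ 2, HasDerivAt (fun x => ∑ n ∈ range N,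
      r n / Real.log n * Real.exp (-(Real.log n * x)) + a * Real.log (x - 1))
      (a / (x - 1) - ∑ n ∈ range N, r n / (n : ℝ) ^ x) x := by
    intro x hx
    have d1 : ∀ n ∈ range N, HasDerivAt
        (fun x => r n / Real.log n * Real.exp (-(Real.log n * x))) (-(r n / (n : ℝ) ^ x)) x := by
      intro n _
      refine (((hasDerivAt_id' x).const_mul (Real.log n)).fun_neg.exp.const_mul
        (r n / Real.log n)).congr_deriv ?_
      rcases Nat.lt_or_ge n 2 with h | h
      · interval_cases n <;> simp [rz, r1]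
      · have b0 : (1 : ℝ) < n := by exact_mod_cast h
        have b1 := (log_pos b0).ne'
        rw [rpow_def_of_pos (by linarith), exp_neg]
        field_simp
    have d2 := (((hasDerivAt_id' x).sub_const 1).log (by linarith [hx.1])).const_mul a
    refine ((HasDerivAt.fun_sum d1).add d2).congr_deriv ?_
    rw [sum_neg_distrib]
    ring
  obtain ⟨c, hc, e⟩ := exists_hasDerivAt_eq_slope _ _ h2
    (fun x hx => (hd x hx).continuousAt.continuousWithinAt) fun x hx => hd x ⟨hx.1.le, hx.2.le⟩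
  have hle : ∀ n : ℕ, r n / (n : ℝ) ^ c ≤ r n / (n : ℝ) ^ σ := by
    intro n
    rcases n.eq_zero_or_pos with rfl | hn
    · simp [rz]
    · exact div_le_div_of_nonneg_left (r0 n) (by positivity)
        (rpow_le_rpow_of_exponent_le (by exact_mod_cast hn) hc.1.le)
  have hsc : Summable fun n : ℕ => r n / (n : ℝ) ^ c :=
    hs.of_nonneg_of_le (fun n => div_nonneg (r0 n) (by positivity)) hle
  have b1 := hsc.sum_add_tsum_nat_add N
  have b2 := ((summable_nat_add_iff N).2 hsc).tsum_le_tsum (fun k => hle (k + N))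
    ((summable_nat_add_iff N).2 hs)
  have b3 := hl c ⟨h1.trans hc.1, hc.2.le⟩
  have b4 : 0 ≤ ∑ n ∈ range N, r n / Real.log n * Real.exp (-(Real.log n * 2)) :=
    sum_nonneg fun n _ => mul_nonneg (div_nonneg (r0 n) (log_natCast_nonneg n)) (exp_pos _).le
  rw [eq_div_iff (by linarith), show (2 : ℝ) - 1 = 1 by norm_num, log_one] at e
  have b5 : a / (c - 1) - ∑ n ∈ range N, r n / (n : ℝ) ^ c ≤ |C + 1| := by
    linarith [le_abs_self (C + 1)]
  nlinarith [mul_le_mul_of_nonneg_right b5 (by linarith : 0 ≤ 2 - σ), abs_nonneg (C + 1)]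

end MertAux

/-- Markov inequality for a multiplicative weight on squarefree numbers -/
theorem markov (PP : Finset ℕ) (h : ℕ → ℝ) (h0 : ∀ p ∈ PP, 0 ≤ h p) (hp : ∀ p ∈ PP, 1 ≤ p) (D : ℝ)
    (hD : 1 < D) (hs : ∑ p ∈ PP, h p * Real.log p ≤ Real.log D / 2) :
    (∏ p ∈ PP, (1 + h p)) / 2 ≤ ∑ s ∈ PP.powerset with ((∏ p ∈ s, p : ℕ) : ℝ) ≤ D, ∏ p ∈ s, h p := by
  have a1 := MertAux.moment PP h (fun p => Real.log p) h0 fun p _ => Real.log_natCast_nonneg p
  have l0 := Real.log_pos hD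
  have p0 : 0 ≤ ∏ p ∈ PP, (1 + h p) := Finset.prod_nonneg fun p hp => by linarith [h0 p hp]
  have w0 : ∀ s ∈ PP.powerset, 0 ≤ ∏ p ∈ s, h p := fun s hs =>
    Finset.prod_nonneg fun p hp => h0 p (Finset.mem_powerset.1 hs hp)
  have a2 := Finset.sum_filter_add_sum_filter_not PP.powerset
    (fun s => ((∏ p ∈ s, p : ℕ) : ℝ) ≤ D) fun s => ∏ p ∈ s, h p
  rw [← Finset.prod_one_add] at a2
  have a3 : (∑ s ∈ PP.powerset with ¬((∏ p ∈ s, p : ℕ) : ℝ) ≤ D, ∏ p ∈ s, h p) * Real.log D ≤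
      ∑ s ∈ PP.powerset, (∏ p ∈ s, h p) * ∑ p ∈ s, Real.log p := by
    rw [Finset.sum_mul]
    refine le_trans (Finset.sum_le_sum fun s hs => ?_)
      (Finset.sum_le_sum_of_subset_of_nonneg (Finset.filter_subset
        (fun s => ¬((∏ p ∈ s, p : ℕ) : ℝ) ≤ D) _) fun s hs _ => mul_nonneg (w0 s hs)
          (Finset.sum_nonneg fun p _ => Real.log_natCast_nonneg p))
    obtain ⟨b1, b2⟩ := Finset.mem_filter.1 hs
    refine mul_le_mul_of_nonneg_left ?_ (w0 s b1)
    rw [← Real.log_prod fun p h => by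
      have := hp p (Finset.mem_powerset.1 b1 h)
      positivity, ← Nat.cast_prod]
    exact Real.log_le_log (by linarith) (not_le.1 b2).le
  have a4 := (a3.trans a1).trans (mul_le_mul_of_nonneg_left hs p0)
  rw [← mul_div_assoc, mul_div_right_comm] at a4
  linarith [le_of_mul_le_mul_right a4 l0]

/-- Chebyshev type bound -/
theorem cheb_log : ∃ C : ℝ, ∀ z : ℝ, 2 ≤ z → ∀ s : Finset ℕ, (∀ p ∈ s, p.Prime ∧ (p : ℝ) ≤ z) →
    ∑ p ∈ s, Real.log p / p ≤ C * Real.log z := ⟨8, MertAux.cheb8⟩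

/-- Chebyshev type bound on a union of dyadic blocks -/
theorem cheb_dyadic : ∃ C : ℝ, ∀ y : ℝ, 2 ≤ y → ∀ (K : ℕ) (s : Finset ℕ),
    (∀ p ∈ s, p.Prime ∧ y < p ∧ (p : ℝ) ≤ y * 2 ^ K) →
    ∑ p ∈ s, (1 : ℝ) / p ≤ C * K / Real.log y := by
  refine ⟨2 * Real.log 4, fun y hy K s hs => ?_⟩
  rw [le_div_iff₀ (Real.log_pos (by linarith)), Finset.sum_mul]
  refine le_trans (Finset.sum_le_sum fun p hp => ?_) (MertAux.blocks y (by linarith) K s hs)
  rw [one_div_mul_eq_div]
  exact div_le_div_of_nonneg_right (Real.log_le_log (by linarith) (hs p hp).2.1.le) p.cast_nonneg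

open ArithmeticFunction.vonMangoldt Finset in
/-- lower half of the Mertens estimate for primes congruent to one -/
theorem mertens_ap (l : ℕ) (hl : l.Prime) : ∃ C : ℝ, ∀ z : ℝ, 2 ≤ z →
    Real.log (Real.log z) - C ≤ ((l : ℝ) - 1) *
      ∑ p ∈ (Finset.range (⌊z⌋₊ + 1)).filter (fun p => p.Prime ∧ p ≡ 1 [MOD l]), (1 : ℝ) / p := by
  have : NeZero l := ⟨hl.ne_zero⟩
  obtain ⟨C, hC⟩ := LSeries_residueClass_lower_bound (q := l) (a := 1) isUnit_one
  have hφ : ((Nat.totient l : ℕ) : ℝ) = l - 1 := by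
    rw [Nat.totient_prime hl, Nat.cast_pred hl.pos]
  have l0 : (0 : ℝ) < l - 1 := by
    have : (1 : ℝ) < l := by exact_mod_cast hl.one_lt
    linarith
  have hnp := summable_residueClass_non_primes_div (1 : ZMod l)
  set r := residueClass (1 : ZMod l) with hr
  have r0 : ∀ n, 0 ≤ r n := residueClass_nonneg 1
  have g0 : ∀ n : ℕ, 0 ≤ (if n.Prime then 0 else r n) / n := fun n =>
    div_nonneg (by split_ifs; exacts [le_rfl, r0 n]) n.cast_nonneg
  set B := ∑' n : ℕ, (if n.Prime then 0 else r n) / n with hB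
  have B0 : 0 ≤ B := tsum_nonneg g0
  refine ⟨(l - 1) * (|C + 1| + 2 * B + 32), fun z hz => ?_⟩
  set S := ∑ p ∈ (Finset.range (⌊z⌋₊ + 1)).filter (fun p => p.Prime ∧ p ≡ 1 [MOD l]),
    (1 : ℝ) / p with hS
  have S0 : 0 ≤ S := sum_nonneg fun p _ => by positivity
  have z0 : 0 < Real.log z := Real.log_pos (by linarith)
  rcases le_or_gt (Real.log z) 1 with hz1 | hz1
  · have := Real.log_nonpos z0.le hz1
    have : 0 ≤ ((l : ℝ) - 1) * (|C + 1| + 2 * B + 32) := by positivity
    have := mul_nonneg l0.le S0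
    linarith
  have i0 : 0 < (Real.log z)⁻¹ := inv_pos.2 z0
  have i1 : (Real.log z)⁻¹ < 1 := inv_lt_one_of_one_lt₀ hz1
  obtain ⟨N, hN⟩ := MertAux.core r r0 (residueClass_apply_zero 1)
    (le_antisymm ((residueClass_le (1 : ZMod l) 1).trans (by simp)) (r0 1)) _ C
    (1 + (Real.log z)⁻¹) (by linarith) (by linarith)
    (LSeries.summable_real_of_abscissaOfAbsConv_lt
      ((abscissaOfAbsConv_residueClass_le_one 1).trans_lt
        (by exact_mod_cast (by linarith : (1 : ℝ) < 1 + (Real.log z)⁻¹))))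
    fun x hx => hC hx
  rw [add_sub_cancel_left, Real.log_inv, hφ] at hN
  have key : ∀ n ∈ range N, r n / Real.log n * Real.exp (-(Real.log n * (1 + (Real.log z)⁻¹))) ≤
      2 * ((if n.Prime then 0 else r n) / n) +
      (if (n : ℝ) ≤ z ∧ n.Prime ∧ n ≡ 1 [MOD l] then (1 : ℝ) / n else 0) +
      (if n.Prime then Real.log n / n * Real.exp (-(Real.log n / Real.log z)) else 0) *
        (Real.log z)⁻¹ := by
    intro n _
    rcases Nat.lt_or_ge n 2 with h | h
    · have := g0 n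
      interval_cases n <;> simp [Nat.not_prime_zero, Nat.not_prime_one, r0]
    have b0 : (2 : ℝ) ≤ n := by exact_mod_cast h
    have b1 : 0 < Real.log n := Real.log_pos (by linarith)
    set E := Real.exp (-(Real.log n / Real.log z)) with hE
    have E0 : 0 < E := Real.exp_pos _
    have E1 : E ≤ 1 := Real.exp_le_one_iff.2 (neg_nonpos.2 (div_nonneg b1.le z0.le))
    have e : Real.exp (-(Real.log n * (1 + (Real.log z)⁻¹))) = 1 / n * E := by
      rw [mul_add, mul_one, neg_add, Real.exp_add, Real.exp_neg, Real.exp_log (by linarith),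
        one_div, hE, div_eq_mul_inv]
    have n0 : (0 : ℝ) < 1 / n := by positivity
    rw [e]
    by_cases hp : n.Prime
    · have t0 : 0 ≤ Real.log n / n * E * (Real.log z)⁻¹ := by positivity
      simp only [hp, if_true, zero_div, mul_zero, zero_add, true_and]
      by_cases hm : n ≡ 1 [MOD l]
      · have c1 : r n / Real.log n ≤ 1 := by
          rw [div_le_one b1, ← ArithmeticFunction.vonMangoldt_apply_prime hp]
          exact residueClass_le 1 n
        have c2 : r n / Real.log n * (1 / n * E) ≤ 1 / n * E :=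
          mul_le_of_le_one_left (by positivity) c1
        split_ifs with hz'
        · linarith [mul_le_of_le_one_right n0.le E1]
        · have c3 : Real.log z ≤ Real.log n :=
            Real.log_le_log (by linarith) (not_le.1 fun e => hz' ⟨e, hm⟩).le
          have c4 : 1 ≤ Real.log n * (Real.log z)⁻¹ := by
            rw [← div_eq_mul_inv, one_le_div z0]; exact c3
          have c5 := mul_le_mul_of_nonneg_left c4 (mul_pos n0 E0).le
          refine c2.trans (le_trans (by linarith) (c5.trans (le_of_eq (by ring))))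
      · have c1 : r n = 0 := Set.indicator_of_notMem (fun e => hm
          ((ZMod.natCast_eq_natCast_iff n 1 l).1 (by rw [Nat.cast_one]; exact e))) _
        simp only [c1, hm, and_false, if_false, zero_div, zero_mul, zero_add]
        exact t0
    · simp only [hp, if_false, false_and, and_false, add_zero, zero_mul]
      have c1 : r n / Real.log n ≤ 2 * r n := by
        rw [div_le_iff₀ b1]
        have := Real.log_le_log two_pos b0
        have := Real.log_two_gt_d9
        nlinarith [r0 n, mul_nonneg (r0 n) (by linarith : 0 ≤ 2 * Real.log n - 1)]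
      calc _ ≤ 2 * r n * (1 / n * 1) := by
            have := r0 n
            gcongr
        _ = _ := by ring
  have s1 := sum_le_sum key
  rw [sum_add_distrib, sum_add_distrib, ← mul_sum, ← sum_mul, ← sum_filter, ← sum_filter] at s1
  have s2 : ∑ n ∈ range N, (if n.Prime then 0 else r n) / n ≤ B :=
    hnp.sum_le_tsum _ fun n _ => g0 n
  have s3 : ∑ n ∈ (range N).filter (fun n : ℕ => (n : ℝ) ≤ z ∧ n.Prime ∧ n ≡ 1 [MOD l]),
      (1 : ℝ) / n ≤ S :=
    sum_le_sum_of_subset_of_nonneg (fun n hn => mem_filter.2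
      ⟨mem_range.2 (Nat.lt_succ_of_le (Nat.le_floor (mem_filter.1 hn).2.1)),
        (mem_filter.1 hn).2.2⟩) fun n _ _ => by positivity
  have s4 := MertAux.tail z hz N ((range N).filter Nat.Prime) fun p hp => by
    refine ⟨(mem_filter.1 hp).2, le_trans ?_ (pow_le_pow_left₀ zero_le_two hz N)⟩
    exact_mod_cast ((mem_range.1 (mem_filter.1 hp).1).trans Nat.lt_two_pow_self).le
  have s5 : 8 * Real.log z * (4 - 2 * (N + 2) / 2 ^ N) * (Real.log z)⁻¹ ≤ 32 := by
    have : (0 : ℝ) ≤ 2 * (N + 2) / 2 ^ N := by positivity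
    rw [mul_right_comm, mul_inv_cancel_right₀ z0.ne']
    linarith
  have s6 := (mul_le_mul_of_nonneg_right s4 i0.le).trans s5
  have s7 : ((l : ℝ) - 1)⁻¹ * Real.log (Real.log z) ≤ S + (|C + 1| + 2 * B + 32) := by linarith
  rw [inv_mul_le_iff₀ l0] at s7
  linarith

end Pool.Agent.MP_14ad9d_nt.Full
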