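import Pool.Agent.MP_14ad9d_nt.Full.ADefs

set_option autoImplicit false

open NumberField

namespace Pool.Agent.MP_14ad9d_nt.Full

open Polynomial in
/-- a prime congruent to one splits completely in the cyclotomic field -/
theorem splitP (l : ℕ) [Fact l.Prime] (F : Type) [Field F] [NumberField F]
    [IsCyclotomicExtension {l} ℚ F] (p : ℕ) (hp : p.Prime) (h1 : p ≡ 1 [MOD l]) :
    ∃ φ : 𝓞 F →+* (Fin (l - 1) → ZMod p), Function.Surjective φ := by
  have hl : l.Prime := Fact.out
  have : Fact p.Prime := ⟨hp⟩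
  have : NeZero l := ⟨hl.ne_zero⟩
  have hd : l ∣ Fintype.card (ZMod p)ˣ := by
    rw [ZMod.card_units]
    exact (Nat.modEq_iff_dvd' hp.one_le).1 h1.symm
  obtain ⟨x, hx⟩ := exists_prime_orderOf_dvd_card l hd
  have hx' : IsPrimitiveRoot (x : ZMod p) l :=
    IsPrimitiveRoot.coe_units_iff.2 (hx ▸ IsPrimitiveRoot.orderOf x)
  have hζ := IsCyclotomicExtension.zeta_spec l ℚ F
  let y : Fin (l - 1) → ZMod p := fun i => (x : ZMod p) ^ (i.1 + 1)
  have hlt : ∀ i : Fin (l - 1), i.1 + 1 < l := fun i => by have := i.2; omega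
  have hy : Function.Injective y := fun i j h =>
    Fin.ext (Nat.succ_injective (hx'.pow_inj (hlt i) (hlt j) h))
  have hev : ∀ (P : ℤ[X]) (i : Fin (l - 1)),
      aeval y P i = eval (y i) (P.map (Int.castRingHom (ZMod p))) := by
    intro P i
    rw [eval_map, ← algebraMap_int_eq, ← aeval_def]
    exact (aeval_algHom_apply (Pi.evalAlgHom ℤ (fun _ => ZMod p) i) y P).symm
  have hmin : minpoly ℤ hζ.integralPowerBasis.gen = cyclotomic l ℤ := by
    rw [IsPrimitiveRoot.integralPowerBasis_gen, ← RingOfIntegers.minpoly_coe,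
      cyclotomic_eq_minpoly hζ hl.pos]
    rfl
  have h0 : aeval y (minpoly ℤ hζ.integralPowerBasis.gen) = 0 := by
    funext i
    rw [hev, hmin, map_cyclotomic]
    exact (hx'.pow_of_coprime _
      (Nat.coprime_of_lt_prime (Nat.succ_ne_zero _) (hlt i) hl).symm).isRoot_cyclotomic hl.pos
  refine ⟨(hζ.integralPowerBasis.lift y h0).toRingHom, fun v => ?_⟩
  obtain ⟨P, hP⟩ := map_surjective (Int.castRingHom (ZMod p)) (ZMod.ringHom_surjective _)
    (Lagrange.interpolate Finset.univ y v)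
  refine ⟨aeval hζ.integralPowerBasis.gen P, ?_⟩
  change hζ.integralPowerBasis.lift y h0 _ = v
  rw [PowerBasis.lift_aeval]
  funext i
  rw [hev, hP, Lagrange.eval_interpolate_at_node _ hy.injOn (Finset.mem_univ i)]

end Pool.Agent.MP_14ad9d_nt.Full
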