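import Pool.Agent.MP_14ad9d_nt.Full.Add0
import Pool.Agent.MP_14ad9d_nt.Full.Mert
import Pool.Agent.MP_14ad9d_nt.Full.SplitP
import Pool.Agent.MP_14ad9d_nt.Full.AddF6

set_option autoImplicit false

open NumberField Filter Topology

namespace Pool.Agent.MP_14ad9d_nt.Full

open Classical in
/-- two equidistributed families of weights on almost primes of the cyclotomic ring contain a
pair of points differing by `r` times an `l`-th power -/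
theorem addF (l : ℕ) [Fact l.Prime] (hl : 2 < l) (F : Type) [Field F] [NumberField F]
    [IsCyclotomicExtension {l} ℚ F] (b : Module.Basis (Fin (l - 1)) ℤ (𝓞 F))
    (r : 𝓞 F) (hr : r ≠ 0) (B : ℕ) (hB : B ≠ 0) (f g : ℝ → (𝓞 F →₀ ℝ)) (C δ : ℝ) (hδ : 0 < δ)
    (hf0 : ∀ X a, 0 ≤ f X a) (hg0 : ∀ X a, 0 ≤ g X a)
    (hsup : ∀ᶠ X : ℝ in atTop, ∀ a, f X a ≤ C * Real.log X ∧ g X a ≤ C * Real.log X)
    (hbox : ∀ᶠ X : ℝ in atTop, ∀ a, (f X a ≠ 0 ∨ g X a ≠ 0) → ‖b.equivFun a‖ ≤ C * X)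
    (hprime : ∀ᶠ X : ℝ in atTop, ∀ a, (f X a ≠ 0 ∨ g X a ≠ 0) → ∀ q : Ideal (𝓞 F), q.IsPrime →
      q ≠ ⊥ → a ∈ q → (B : 𝓞 F) ∈ q ∨ X ≤ Ideal.absNorm q)
    (hmass : ∃ᶠ X : ℝ in atTop, δ * X ^ (l - 1) ≤ (f X).sum fun _ x => x)
    (hequi : ∀ M : ℕ, M ≠ 0 → ∀ β : 𝓞 F, ∀ h : (Fin (l - 1) → ℝ) → ℂ, Continuous h →
      Tendsto (fun X : ℝ =>
        (((f X).sum fun a x => if (M : 𝓞 F) ∣ a - β then
            (x : ℂ) * h (fun i => (b.equivFun a i : ℝ) / X) else 0) -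
          ((g X).sum fun a x => if (M : 𝓞 F) ∣ a - β then
            (x : ℂ) * h (fun i => (b.equivFun a i : ℝ) / X) else 0)) / (X : ℂ) ^ (l - 1))
        atTop (𝓝 0)) (X₀ : ℝ) :
    ∃ X : ℝ, X₀ ≤ X ∧ ∃ a a' t : 𝓞 F, f X a ≠ 0 ∧ g X a' ≠ 0 ∧ t ≠ 0 ∧ (l : 𝓞 F) ∣ t ∧
      a' - a = r * t ^ l := by
  have hp : l.Prime := Fact.out
  have hφ : ∀ p : ℕ, ∃ φ : 𝓞 F →ₙ+* (Fin (l - 1) → ZMod p), p.Prime → p ≡ 1 [MOD l] →
      ∃ ψ : 𝓞 F →+* (Fin (l - 1) → ZMod p), Function.Surjective ψ ∧ ∀ a, φ a = ψ a := by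
    intro p
    by_cases h : p.Prime ∧ p ≡ 1 [MOD l]
    · obtain ⟨ψ, hψ⟩ := splitP l F p h.1 h.2
      exact ⟨ψ, fun _ _ => ⟨ψ, hψ, fun _ => rfl⟩⟩
    · exact ⟨0, fun h1 h2 => absurd ⟨h1, h2⟩ h⟩
  choose φ hφ using hφ
  obtain ⟨r', hr'⟩ := Ideal.mem_span_singleton.1 (Ideal.absNorm_mem (Ideal.span {r}))
  refine AddFAux.addG b (by omega) l hp (by rw [Nat.cast_sub hp.one_le, Nat.cast_one]) φ
    (fun p h1 h2 => ?_) r r' (Ideal.absNorm (Ideal.span {r})) ?_ hr'.symm B hB f g C δ hδ hf0 hg0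
    hsup hbox ?_ hmass hequi X₀
  · obtain ⟨ψ, h3, h4⟩ := hφ p h1 h2
    intro y
    obtain ⟨a, ha⟩ := h3 y
    exact ⟨a, (h4 a).trans ha⟩
  · rw [Ne, Ideal.absNorm_eq_zero_iff, Ideal.span_singleton_eq_bot]
    exact hr
  · filter_upwards [hprime] with X hX a ha p h1 h2 h3 h4 i h5
    obtain ⟨ψ, h6, h7⟩ := hφ p h1 h2
    have : Fact p.Prime := ⟨h1⟩
    set χ : 𝓞 F →+* ZMod p := (Pi.evalRingHom _ i).comp ψ with hχ
    have hs : Function.Surjective χ := ZMod.ringHom_surjective χ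
    have hn : Ideal.absNorm (RingHom.ker χ) = p := by
      rw [Ideal.absNorm_apply, Submodule.cardQuot_apply,
        Nat.card_congr (RingHom.quotientKerEquivOfSurjective hs).toEquiv, Nat.card_zmod]
    have hb : RingHom.ker χ ≠ ⊥ := by
      intro h
      rw [h, Ideal.absNorm_bot] at hn
      exact h1.ne_zero hn.symm
    rw [h7] at h5
    rcases hX a ha (RingHom.ker χ) (RingHom.ker_isPrime χ) hb h5 with h | h
    · rw [RingHom.mem_ker, map_natCast, ZMod.natCast_eq_zero_iff] at h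
      exact h3 h
    · rw [hn] at h
      linarith

end Pool.Agent.MP_14ad9d_nt.Full
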