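import Pool.Agent.MP_14ad9d_nt.Full.Mert

set_option autoImplicit false

open Filter Topology

namespace Pool.Agent.MP_14ad9d_nt.Full.AddFAux

/-- the local factor -/
noncomputable def uu (m p : ℕ) : ℝ := ((p : ℝ) / ((p : ℝ) - 1)) ^ m

/-- the small primes that are sieved out by the choice of a residue class -/
def SS (l B w : ℕ) : Finset ℕ :=
  (Finset.range (w + 1)).filter (fun p => p.Prime ∧ p ≡ 1 [MOD l] ∧ ¬ p ∣ B)

/-- the density of admissible classes -/
noncomputable def rho (m l B w : ℕ) : ℝ := (∏ p ∈ SS l B w, uu m p)⁻¹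

lemma one_le_uu (m : ℕ) {p : ℕ} (hp : p.Prime) : 1 ≤ uu m p := by
  have h2 : (2 : ℝ) ≤ p := by exact_mod_cast hp.two_le
  unfold uu
  apply one_le_pow₀
  rw [le_div_iff₀ (by linarith)]
  linarith

lemma exp_le_uu (m : ℕ) {p : ℕ} (hp : p.Prime) : Real.exp (m * (1 / (p : ℝ))) ≤ uu m p := by
  have h2 : (2 : ℝ) ≤ p := by exact_mod_cast hp.two_le
  unfold uu
  rw [Real.exp_nat_mul]
  apply pow_le_pow_left₀ (Real.exp_pos _).le
  have h1 : (0 : ℝ) ≤ 1 / p := by positivity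
  have h3 : 1 / (p : ℝ) < 1 := by rw [div_lt_one (by linarith)]; linarith
  have := Real.exp_bound_div_one_sub_of_interval h1 h3
  refine this.trans (le_of_eq ?_)
  have : (p : ℝ) - 1 ≠ 0 := by linarith
  field_simp

lemma uu_sub_le (m : ℕ) {p : ℕ} (hp : p.Prime) : uu m p - 1 ≤ (m * 2 ^ m : ℝ) * (1 / p) := by
  have h2 : (2 : ℝ) ≤ p := by exact_mod_cast hp.two_le
  have h1 : (0 : ℝ) < (p : ℝ) - 1 := by linarith
  set x : ℝ := (p : ℝ) / ((p : ℝ) - 1) with hx
  have hx1 : 1 ≤ x := by rw [hx, le_div_iff₀ h1]; linarith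
  have hx2 : x ≤ 2 := by rw [hx, div_le_iff₀ h1]; linarith
  have hx3 : x - 1 ≤ 2 * (1 / p) := by
    rw [hx, div_sub_one h1.ne', mul_one_div, div_le_div_iff₀ h1 (by linarith)]
    nlinarith
  unfold uu
  rw [← hx]
  have key : ∀ k : ℕ, x ^ k - 1 ≤ (k * 2 ^ k : ℝ) * (1 / p) := by
    intro k
    induction k with
    | zero => simp
    | succ k ih =>
      have hk : x ^ k ≤ 2 ^ k := pow_le_pow_left₀ (by linarith) hx2 k
      have hp0 : (0 : ℝ) < 1 / p := by positivity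
      have hk0 : (0 : ℝ) < 2 ^ k := by positivity
      have e1 : x ^ (k + 1) - 1 = x ^ k * (x - 1) + (x ^ k - 1) := by ring
      have e2 : x ^ k * (x - 1) ≤ 2 ^ k * (2 * (1 / p)) :=
        mul_le_mul hk hx3 (by linarith) hk0.le
      have e3 : (0 : ℝ) ≤ k * 2 ^ k * (1 / p) := by positivity
      push_cast
      rw [e1, pow_succ]
      nlinarith
  exact key m

lemma uu_le_exp (m : ℕ) {p : ℕ} (hp : p.Prime) :
    uu m p ≤ Real.exp ((m * 2 ^ m : ℝ) * (1 / p)) := by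
  have := uu_sub_le m hp
  have h2 := Real.add_one_le_exp ((m * 2 ^ m : ℝ) * (1 / p))
  linarith

lemma prod_union_le {s t : Finset ℕ} (u : ℕ → ℝ) (hs : ∀ p ∈ s, 1 ≤ u p) (ht : ∀ p ∈ t, 1 ≤ u p) :
    ∏ p ∈ s ∪ t, u p ≤ (∏ p ∈ s, u p) * ∏ p ∈ t, u p := by
  rw [← Finset.prod_union_inter]
  apply le_mul_of_one_le_right
  · apply Finset.prod_nonneg
    intro p hp
    rcases Finset.mem_union.1 hp with h | h
    · linarith [hs p h]
    · linarith [ht p h]
  · exact Finset.one_le_prod fun p hp => hs p (Finset.mem_inter.1 hp).1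

lemma one_le_prod_SS (m l B w : ℕ) : 1 ≤ ∏ p ∈ SS l B w, uu m p :=
  Finset.one_le_prod fun _ hp => one_le_uu m (Finset.mem_filter.1 hp).2.1

lemma rho_pos (m l B w : ℕ) : 0 < rho m l B w := by
  have := one_le_prod_SS m l B w
  unfold rho
  positivity

lemma rho_le_one (m l B w : ℕ) : rho m l B w ≤ 1 :=
  inv_le_one_of_one_le₀ (one_le_prod_SS m l B w)

theorem H_lower (l : ℕ) (hl : l.Prime) (m : ℕ) (hm : (l : ℝ) - 1 = m) (B : ℕ) (hB : B ≠ 0) :
    ∃ c : ℝ, 0 < c ∧ ∀ ε : ℝ, 0 < ε → ∃ w₁ : ℕ, ∀ w : ℕ, w₁ ≤ w → ∀ᶠ N : ℝ in atTop, ∀ K : ℕ,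
      ∃ PP : Finset ℕ, (∀ p ∈ PP, p.Prime ∧ p ≡ 1 [MOD l] ∧ (w : ℝ) * 2 ^ K < p ∧ (p : ℝ) ≤ N) ∧
        c * rho m l B w * Real.log N ≤ (1 + ε) ^ K *
          ∑ s ∈ PP.powerset with ((∏ p ∈ s, p : ℕ) : ℝ) ≤ N ^ (1 / 4 : ℝ),
            ∏ p ∈ s, (uu m p - 1) := by
  obtain ⟨C1, hC1⟩ := cheb_log
  obtain ⟨C2, hC2⟩ := cheb_dyadic
  obtain ⟨C3, hC3⟩ := mertens_ap l hl
  set a : ℝ := m * 2 ^ m with ha
  have ha0 : 0 ≤ a := by positivity
  set c₂ : ℝ := 1 / (8 * (a * |C1| + 1)) with hc₂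
  have hc20 : 0 < c₂ := by positivity
  have hc21 : c₂ ≤ 1 := by
    rw [hc₂, div_le_one (by positivity)]
    have : 0 ≤ a * |C1| := by positivity
    linarith
  set uB : ℝ := ∏ p ∈ B.primeFactors, uu m p with huB
  have huB1 : 1 ≤ uB := Finset.one_le_prod fun p hp => one_le_uu m (Nat.prime_of_mem_primeFactors hp)
  refine ⟨c₂ * Real.exp (-C3) / (2 * uB), by positivity, fun ε hε => ?_⟩
  have hlog : 0 < Real.log (1 + ε) := Real.log_pos (by linarith)
  have hev : ∀ᶠ w : ℕ in atTop, a * |C2| / Real.log (1 + ε) ≤ Real.log w ∧ 2 ≤ w :=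
    ((Real.tendsto_log_atTop.comp tendsto_natCast_atTop_atTop).eventually_ge_atTop _).and
      (eventually_ge_atTop 2)
  obtain ⟨w₁, hw₁⟩ := eventually_atTop.1 hev
  refine ⟨w₁, fun w hw => ?_⟩
  obtain ⟨hwa, hw2⟩ := hw₁ w hw
  have hw2' : (2 : ℝ) ≤ w := by exact_mod_cast hw2
  have hlw : 0 < Real.log w := Real.log_pos (by linarith)
  filter_upwards [(tendsto_rpow_atTop hc20).eventually_ge_atTop 2, eventually_gt_atTop 1]
    with N hz hN K
  set z : ℝ := N ^ c₂ with hzdef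
  have hzN : z ≤ N := by
    calc z ≤ N ^ (1 : ℝ) := Real.rpow_le_rpow_of_exponent_le hN.le hc21
      _ = N := Real.rpow_one N
  have hlz : Real.log z = c₂ * Real.log N := Real.log_rpow (by linarith) _
  have hlN : 0 < Real.log N := Real.log_pos hN
  set T := (Finset.range (⌊z⌋₊ + 1)).filter (fun p => p.Prime ∧ p ≡ 1 [MOD l]) with hT
  have hTm : ∀ p ∈ T, p.Prime ∧ p ≡ 1 [MOD l] ∧ (p : ℝ) ≤ z := by
    intro p hp
    rw [hT, Finset.mem_filter, Finset.mem_range] at hp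
    refine ⟨hp.2.1, hp.2.2, ?_⟩
    have : p ≤ ⌊z⌋₊ := by omega
    exact (Nat.le_floor_iff (by linarith)).1 this
  set PP := T.filter (fun p : ℕ => (w : ℝ) * 2 ^ K < p) with hPP
  set Mid := T.filter (fun p : ℕ => (w : ℝ) < p ∧ (p : ℝ) ≤ w * 2 ^ K) with hMid
  have hPPm : ∀ p ∈ PP, p.Prime ∧ p ≡ 1 [MOD l] ∧ (w : ℝ) * 2 ^ K < p ∧ (p : ℝ) ≤ z := by
    intro p hp
    rw [hPP, Finset.mem_filter] at hp
    obtain ⟨h1, h2, h3⟩ := hTm p hp.1
    exact ⟨h1, h2, hp.2, h3⟩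
  refine ⟨PP, fun p hp => ⟨(hPPm p hp).1, (hPPm p hp).2.1, (hPPm p hp).2.2.1,
    (hPPm p hp).2.2.2.trans hzN⟩, ?_⟩
  have hD : 1 < N ^ (1 / 4 : ℝ) := Real.one_lt_rpow hN (by norm_num)
  have hmk := markov PP (fun p => uu m p - 1) (fun p hp => by linarith [one_le_uu m (hPPm p hp).1])
    (fun p hp => (hPPm p hp).1.one_le) _ hD (by
      have h1 := hC1 z hz PP (fun p hp => ⟨(hPPm p hp).1, (hPPm p hp).2.2.2⟩)
      have h2 : ∑ p ∈ PP, (uu m p - 1) * Real.log p ≤ ∑ p ∈ PP, a * (Real.log p / p) := by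
        apply Finset.sum_le_sum
        intro p hp
        have h3 := uu_sub_le m (hPPm p hp).1
        have h4 : 0 ≤ Real.log p := Real.log_natCast_nonneg p
        calc (uu m p - 1) * Real.log p ≤ (a * (1 / p)) * Real.log p :=
              mul_le_mul_of_nonneg_right h3 h4
          _ = a * (Real.log p / p) := by ring
      rw [← Finset.mul_sum] at h2
      rw [Real.log_rpow (by linarith)]
      have h5 : C1 * Real.log z ≤ |C1| * Real.log z :=
        mul_le_mul_of_nonneg_right (le_abs_self _) (by rw [hlz]; positivity)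
      have h6 : a * (|C1| * Real.log z) ≤ 1 / 4 * Real.log N / 2 := by
        rw [hlz]
        have h7 : a * |C1| * c₂ ≤ 1 / 8 := by
          rw [hc₂, mul_one_div, div_le_div_iff₀ (by positivity) (by norm_num)]
          linarith
        nlinarith
      calc _ ≤ a * ∑ p ∈ PP, Real.log p / p := h2
        _ ≤ a * (|C1| * Real.log z) := mul_le_mul_of_nonneg_left (h1.trans h5) ha0
        _ ≤ _ := h6)
  simp only [add_sub_cancel] at hmk
  -- lower bound for the full product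
  have hT1 : c₂ * Real.log N * Real.exp (-C3) ≤ ∏ p ∈ T, uu m p := by
    have h1 := hC3 z hz
    rw [hm] at h1
    have h2 : Real.exp (m * ∑ p ∈ T, (1 : ℝ) / p) ≤ ∏ p ∈ T, uu m p := by
      rw [Finset.mul_sum, Real.exp_sum]
      exact Finset.prod_le_prod (fun p _ => (Real.exp_pos _).le)
        (fun p hp => exp_le_uu m (hTm p hp).1)
    have h3 := Real.exp_le_exp.2 h1
    rw [sub_eq_add_neg, Real.exp_add, Real.exp_log (by rw [hlz]; positivity), hlz] at h3
    exact h3.trans h2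
  have hMid1 : ∏ p ∈ Mid, uu m p ≤ (1 + ε) ^ K := by
    have hMm : ∀ p ∈ Mid, p.Prime ∧ (w : ℝ) < p ∧ (p : ℝ) ≤ w * 2 ^ K := by
      intro p hp
      rw [hMid, Finset.mem_filter] at hp
      exact ⟨(hTm p hp.1).1, hp.2⟩
    have h1 := hC2 w hw2' K Mid hMm
    have h2 : ∏ p ∈ Mid, uu m p ≤ Real.exp (a * ∑ p ∈ Mid, (1 : ℝ) / p) := by
      rw [Finset.mul_sum, Real.exp_sum]
      exact Finset.prod_le_prod (fun p hp => by linarith [one_le_uu m (hMm p hp).1])
        (fun p hp => uu_le_exp m (hMm p hp).1)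
    refine h2.trans ?_
    rw [← Real.exp_log (show 0 < 1 + ε by linarith), ← Real.exp_nat_mul]
    apply Real.exp_le_exp.2
    have h3 : C2 * K / Real.log w ≤ |C2| * K / Real.log w := by
      gcongr
      exact le_abs_self _
    rw [div_le_iff₀ hlog] at hwa
    have h4 : a * (|C2| * K / Real.log w) ≤ K * Real.log (1 + ε) := by
      rw [← mul_div_assoc, div_le_iff₀ hlw]
      have : (0 : ℝ) ≤ K := Nat.cast_nonneg K
      nlinarith
    exact (mul_le_mul_of_nonneg_left (h1.trans h3) ha0).trans h4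
  have hsub : T ⊆ ((SS l B w ∪ B.primeFactors) ∪ Mid) ∪ PP := by
    intro p hp
    obtain ⟨h1, h2, h3⟩ := hTm p hp
    simp only [Finset.mem_union, hMid, hPP, Finset.mem_filter, SS, Finset.mem_range,
      Nat.mem_primeFactors]
    by_cases hA : (w : ℝ) * 2 ^ K < p
    · exact Or.inr ⟨hp, hA⟩
    by_cases hBB : (w : ℝ) < p
    · exact Or.inl (Or.inr ⟨hp, hBB, not_lt.1 hA⟩)
    have hpw : p ≤ w := by exact_mod_cast not_lt.1 hBB
    by_cases hd : p ∣ B
    · exact Or.inl (Or.inl (Or.inr ⟨h1, hd, hB⟩))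
    · exact Or.inl (Or.inl (Or.inl ⟨by omega, h1, h2, hd⟩))
  have pS : ∀ p ∈ SS l B w, p.Prime := fun p hp => (Finset.mem_filter.1 hp).2.1
  have pB : ∀ p ∈ B.primeFactors, p.Prime := fun p hp => Nat.prime_of_mem_primeFactors hp
  have pM : ∀ p ∈ Mid, p.Prime := fun p hp => (hTm p (Finset.mem_filter.1 hp).1).1
  have pP : ∀ p ∈ PP, p.Prime := fun p hp => (hPPm p hp).1
  have pSB : ∀ p ∈ SS l B w ∪ B.primeFactors, p.Prime := fun p hp => by
    rcases Finset.mem_union.1 hp with h | h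
    exacts [pS p h, pB p h]
  have pSBM : ∀ p ∈ (SS l B w ∪ B.primeFactors) ∪ Mid, p.Prime := fun p hp => by
    rcases Finset.mem_union.1 hp with h | h
    exacts [pSB p h, pM p h]
  have pall : ∀ p ∈ ((SS l B w ∪ B.primeFactors) ∪ Mid) ∪ PP, p.Prime := fun p hp => by
    rcases Finset.mem_union.1 hp with h | h
    exacts [pSBM p h, pP p h]
  have hT2 : ∏ p ∈ T, uu m p ≤
      (((∏ p ∈ SS l B w, uu m p) * uB) * (1 + ε) ^ K) * ∏ p ∈ PP, uu m p := by
    have q1 := Finset.prod_le_prod_of_subset_of_one_le (f := uu m) hsub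
      (fun p hp => by linarith [one_le_uu m (hTm p hp).1]) (fun p hp _ => one_le_uu m (pall p hp))
    have q2 := prod_union_le (uu m) (fun p hp => one_le_uu m (pSBM p hp))
      (fun p hp => one_le_uu m (pP p hp))
    have q3 := prod_union_le (uu m) (fun p hp => one_le_uu m (pSB p hp))
      (fun p hp => one_le_uu m (pM p hp))
    have q4 := prod_union_le (uu m) (fun p hp => one_le_uu m (pS p hp))
      (fun p hp => one_le_uu m (pB p hp))
    have r1 : 1 ≤ ∏ p ∈ PP, uu m p := Finset.one_le_prod fun p hp => one_le_uu m (pP p hp)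
    have r2 : 1 ≤ ∏ p ∈ Mid, uu m p := Finset.one_le_prod fun p hp => one_le_uu m (pM p hp)
    have r3 := one_le_prod_SS m l B w
    refine q1.trans (q2.trans (mul_le_mul_of_nonneg_right (q3.trans ?_) (by linarith)))
    exact mul_le_mul q4 hMid1 (by linarith) (by positivity)
  have r3 := one_le_prod_SS m l B w
  have hfin : c₂ * Real.exp (-C3) / (2 * uB) * rho m l B w * Real.log N ≤
      (1 + ε) ^ K * ((∏ p ∈ PP, uu m p) / 2) := by
    unfold rho
    have e : c₂ * Real.exp (-C3) / (2 * uB) * (∏ p ∈ SS l B w, uu m p)⁻¹ * Real.log N =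
        (c₂ * Real.log N * Real.exp (-C3)) / (2 * uB * ∏ p ∈ SS l B w, uu m p) := by
      field_simp
    rw [e, div_le_iff₀ (by positivity)]
    refine (hT1.trans hT2).trans (le_of_eq ?_)
    ring
  exact hfin.trans (mul_le_mul_of_nonneg_left hmk (by positivity))

end Pool.Agent.MP_14ad9d_nt.Full.AddFAux
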