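import Pool.Agent.MP_14ad9d_nt.Full.AddF1

set_option autoImplicit false

open Filter Topology

namespace Pool.Agent.MP_14ad9d_nt.Full.AddFAux

variable {A : Type} [CommRing A] {m : ℕ} (b : Module.Basis (Fin m) ℤ A)

/-- reduction of the coordinates modulo `M` -/
noncomputable def kap (M : ℕ) : A →+ (Fin m → ZMod M) where
  toFun a := fun i => (b.equivFun a i : ZMod M)
  map_zero' := by ext i; simp
  map_add' x y := by ext i; simp

lemma kap_symm (M : ℕ) (n : Fin m → ℤ) :
    kap b M (b.equivFun.symm n) = fun i => (n i : ZMod M) := by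
  ext i
  change ((b.equivFun (b.equivFun.symm n) i : ℤ) : ZMod M) = _
  rw [LinearEquiv.apply_symm_apply]

lemma kap_surj (M : ℕ) : Function.Surjective (kap b M) := by
  intro v
  choose n hn using fun i => ZMod.intCast_surjective (v i)
  exact ⟨b.equivFun.symm n, by rw [kap_symm]; exact funext hn⟩

lemma equivFun_natCast_mul (M : ℕ) (y : A) (i : Fin m) :
    b.equivFun ((M : A) * y) i = M * b.equivFun y i := by
  rw [← nsmul_eq_mul, map_nsmul, Pi.smul_apply, nsmul_eq_mul]

lemma kap_eq_zero (M : ℕ) (x : A) : kap b M x = 0 ↔ (M : A) ∣ x := by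
  constructor
  · intro h
    have h1 : ∀ i, ∃ k : ℤ, b.equivFun x i = M * k := fun i =>
      (ZMod.intCast_zmod_eq_zero_iff_dvd _ _).1 (congrFun h i)
    choose k hk using h1
    refine ⟨b.equivFun.symm k, b.equivFun.injective ?_⟩
    ext i
    rw [equivFun_natCast_mul, LinearEquiv.apply_symm_apply, hk]
  · rintro ⟨y, rfl⟩
    ext i
    change ((b.equivFun ((M : A) * y) i : ℤ) : ZMod M) = 0
    rw [equivFun_natCast_mul]
    simp

lemma kap_eq_iff (M : ℕ) (x y : A) : kap b M x = kap b M y ↔ (M : A) ∣ x - y := by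
  rw [← kap_eq_zero b, map_sub, sub_eq_zero]

lemma exists_lift {G : Type} [AddCommGroup G] (M : ℕ) (Φ : A →+ G)
    (h : ∀ y, Φ ((M : A) * y) = 0) :
    ∃ ψ : (Fin m → ZMod M) →+ G, ∀ a, ψ (kap b M a) = Φ a := by
  have hk : (kap b M).ker ≤ Φ.ker := by
    intro x hx
    obtain ⟨y, rfl⟩ := (kap_eq_zero b M x).1 hx
    exact h y
  exact ⟨(kap b M).liftOfSurjective (kap_surj b M) ⟨Φ, hk⟩, fun a =>
    AddMonoidHom.liftOfRightInverse_comp_apply _ _ _ _ _⟩

lemma phi_natCast_mul {p : ℕ} (φ : A →ₙ+* (Fin m → ZMod p)) (M : ℕ) (y : A) (i : Fin m) :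
    φ ((M : A) * y) i = (M : ZMod p) * φ y i := by
  rw [← nsmul_eq_mul, map_nsmul, Pi.smul_apply, nsmul_eq_mul]

lemma card_units_pi (m p : ℕ) [NeZero p] :
    (Fintype.piFinset (fun _ : Fin m => (Finset.univ : Finset (ZMod p)).erase 0)).card =
      (p - 1) ^ m := by
  rw [Fintype.card_piFinset]
  simp [Finset.card_erase_of_mem, ZMod.card]

theorem omega {p : ℕ} (hp : p.Prime) (φ : A →ₙ+* (Fin m → ZMod p)) (hφ : Function.Surjective φ)
    (α W W' : A) (M₀ : ℕ) (hW : W * W' = M₀) (hM : ¬ p ∣ M₀) :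
    ∃ Ω : Set (Fin m → ZMod p), (Ω.ncard : ℝ) = (p : ℝ) ^ m - ((p : ℝ) - 1) ^ m ∧
      ∀ n : Fin m → ℤ, (∀ i, φ (α + W * b.equivFun.symm n) i ≠ 0) →
        (fun i => (n i : ZMod p)) ∉ Ω := by
  classical
  have : Fact p.Prime := ⟨hp⟩
  obtain ⟨ψ, hψ⟩ := exists_lift b p (φ : A →+ (Fin m → ZMod p)) (fun y => by
    ext i
    change φ ((p : A) * y) i = 0
    rw [phi_natCast_mul]; simp)
  have hψs : Function.Surjective ψ := fun y => by
    obtain ⟨a, rfl⟩ := hφ y
    exact ⟨_, hψ a⟩
  have hψi : Function.Injective ψ := Finite.injective_iff_surjective.2 hψs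
  have hW0 : ∀ i, φ W i ≠ 0 := by
    intro i h0
    obtain ⟨y, hy⟩ := hφ 1
    have h1 : φ (W * (W' * y)) i = 0 := by rw [map_mul, Pi.mul_apply, h0, zero_mul]
    rw [← mul_assoc, hW, phi_natCast_mul, hy, Pi.one_apply, mul_one,
      ZMod.natCast_eq_zero_iff] at h1
    exact hM h1
  set e : (Fin m → ZMod p) → (Fin m → ZMod p) := fun v => φ α + φ W * ψ v with he
  have hei : Function.Injective e := by
    intro v v' h
    apply hψi
    ext i
    have := congrFun h i
    simp only [he, Pi.add_apply, Pi.mul_apply, add_right_inj] at this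
    exact mul_left_cancel₀ (hW0 i) this
  have hes : Function.Surjective e := Finite.injective_iff_surjective.1 hei
  set T := Fintype.piFinset (fun _ : Fin m => (Finset.univ : Finset (ZMod p)).erase 0) with hT
  refine ⟨e ⁻¹' ((Tᶜ : Finset _) : Set _), ?_, fun n hn h => ?_⟩
  · rw [Set.ncard_preimage_of_injective_subset_range hei (by rw [hes.range_eq]; simp),
      Set.ncard_coe_finset, Finset.card_compl, hT, card_units_pi]
    have h1 : Fintype.card (Fin m → ZMod p) = p ^ m := by simp [ZMod.card]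
    rw [h1, Nat.cast_sub (Nat.pow_le_pow_left (Nat.sub_le _ _) _)]
    push_cast [Nat.cast_sub hp.one_le]
    rfl
  · simp only [Set.mem_preimage, Finset.coe_compl, Set.mem_compl_iff, Finset.mem_coe] at h
    apply h
    rw [hT, Fintype.mem_piFinset]
    intro i
    rw [Finset.mem_erase]
    refine ⟨?_, Finset.mem_univ _⟩
    have := hn i
    rw [map_add, map_mul] at this
    rw [he]
    simp only
    rw [← kap_symm b, hψ]
    exact this

lemma card_filter_surj {G H : Type} [AddCommGroup G] [AddCommGroup H] [Fintype G] [Fintype H]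
    [DecidableEq H] (ψ : G →+ H) (hψ : Function.Surjective ψ) (T : Finset H) :
    (Finset.univ.filter (fun x => ψ x ∈ T)).card * Fintype.card H = T.card * Fintype.card G := by
  classical
  have hf : ∀ y : H, (Finset.univ.filter (fun x => ψ x = y)).card =
      (Finset.univ.filter (fun x => ψ x = 0)).card := by
    intro y
    obtain ⟨x₀, rfl⟩ := hψ y
    apply Finset.card_bij (fun x _ => x - x₀)
    · intro x hx
      simp only [Finset.mem_filter, Finset.mem_univ, true_and] at hx ⊢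
      rw [map_sub, hx, sub_self]
    · intro x _ x' _ h
      exact sub_left_injective h
    · intro x hx
      simp only [Finset.mem_filter, Finset.mem_univ, true_and] at hx
      exact ⟨x + x₀, by simp [hx], by simp⟩
  have h1 : ∀ T : Finset H, (Finset.univ.filter (fun x => ψ x ∈ T)).card =
      T.card * (Finset.univ.filter (fun x => ψ x = 0)).card := by
    intro T
    rw [← Finset.sum_card_fiberwise_eq_card_filter, Finset.sum_congr rfl (fun y _ => hf y)]
    simp
  have h2 := h1 Finset.univ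
  simp only [Finset.mem_univ, Finset.filter_true, Finset.card_univ] at h2
  rw [h1, h2]
  ring

include b in
theorem admissible (S : Finset ℕ) (hS : ∀ p ∈ S, p.Prime)
    (φ : ∀ p : ℕ, A →ₙ+* (Fin m → ZMod p)) (hφ : ∀ p ∈ S, Function.Surjective (φ p))
    (M : ℕ) (hM : M ≠ 0) (hd : ∀ p ∈ S, p ∣ M) :
    ∃ Adm : Finset A, (Adm.card : ℝ) ≤ (M : ℝ) ^ m * (∏ p ∈ S, uu m p)⁻¹ ∧
      ∀ a, (∀ p ∈ S, ∀ i, φ p a i ≠ 0) → ∃ α ∈ Adm, (M : A) ∣ a - α := by
  classical
  have : NeZero M := ⟨hM⟩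
  have : ∀ p : S, Fact (p : ℕ).Prime := fun p => ⟨hS p p.2⟩
  let Φ : A →+ (∀ p : S, Fin m → ZMod p) :=
    AddMonoidHom.pi fun p => (φ p : A →+ (Fin m → ZMod p))
  have hΦ : ∀ a p, Φ a p = φ p a := fun a p => rfl
  have hΦs : Function.Surjective Φ := by
    have h1 : ∀ (p : S) (y : Fin m → ZMod p), Pi.single p y ∈ Φ.range := by
      intro p y
      set Q : ℕ := ∏ q ∈ S.erase p, q with hQ
      have hQp : (Q : ZMod p) ≠ 0 := by
        rw [Ne, ZMod.natCast_eq_zero_iff, hQ]
        intro h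
        obtain ⟨q, hq, hpq⟩ := ((Nat.Prime.prime (hS p p.2)).dvd_finsetProd_iff _).1 h
        rw [Finset.mem_erase] at hq
        exact hq.1 ((Nat.prime_dvd_prime_iff_eq (hS p p.2) (hS q hq.2)).1 hpq).symm
      obtain ⟨a, ha⟩ := hφ p p.2 (fun i => (Q : ZMod p)⁻¹ * y i)
      refine ⟨(Q : A) * a, ?_⟩
      ext q i
      rw [hΦ, phi_natCast_mul]
      by_cases hq : q = p
      · subst hq
        rw [ha, Pi.single_eq_same, ← mul_assoc, mul_inv_cancel₀ hQp, one_mul]
      · rw [Pi.single_eq_of_ne hq]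
        have : (Q : ZMod q) = 0 := by
          rw [ZMod.natCast_eq_zero_iff, hQ]
          exact Finset.dvd_prod_of_mem _
            (Finset.mem_erase.2 ⟨fun h => hq (Subtype.ext h), q.2⟩)
        rw [this, zero_mul, Pi.zero_apply]
    intro y
    rw [← Finset.univ_sum_single y]
    exact (Φ.range.sum_mem fun p _ => h1 p (y p) :)
  obtain ⟨ψ, hψ⟩ := exists_lift b M Φ (fun y => by
    ext p i
    rw [hΦ, phi_natCast_mul, (ZMod.natCast_eq_zero_iff _ _).2 (hd p p.2), zero_mul]
    rfl)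
  have hψs : Function.Surjective ψ := fun y => by
    obtain ⟨a, rfl⟩ := hΦs y
    exact ⟨_, hψ a⟩
  set T : Finset (∀ p : S, Fin m → ZMod p) := Fintype.piFinset fun p =>
    Fintype.piFinset (fun _ : Fin m => (Finset.univ : Finset (ZMod p)).erase 0) with hT
  have hc := card_filter_surj ψ hψs T
  set U := Finset.univ.filter (fun x => ψ x ∈ T) with hU
  refine ⟨U.image (Function.surjInv (kap_surj b M)), ?_, fun a ha => ?_⟩
  · have h1 : ((U.image (Function.surjInv (kap_surj b M))).card : ℝ) ≤ U.card := by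
      exact_mod_cast Finset.card_image_le
    refine h1.trans (le_of_eq ?_)
    have h2 : T.card = ∏ p ∈ S, (p - 1) ^ m := by
      rw [hT, Fintype.card_piFinset, ← Finset.prod_coe_sort S]
      exact Finset.prod_congr rfl fun p _ => card_units_pi m p
    have h3 : Fintype.card (∀ p : S, Fin m → ZMod p) = ∏ p ∈ S, p ^ m := by
      rw [Fintype.card_pi, ← Finset.prod_coe_sort S]
      exact Finset.prod_congr rfl fun p _ => by simp [ZMod.card]
    have h4 : Fintype.card (Fin m → ZMod M) = M ^ m := by simp [ZMod.card]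
    rw [h2, h3, h4] at hc
    have h5 : (U.card : ℝ) * ∏ p ∈ S, (p : ℝ) ^ m = (∏ p ∈ S, ((p : ℝ) - 1) ^ m) * (M : ℝ) ^ m := by
      have := congrArg (Nat.cast : ℕ → ℝ) hc
      push_cast at this
      rw [this]
      congr 1
      exact Finset.prod_congr rfl fun p hp => by rw [Nat.cast_sub (hS p hp).one_le, Nat.cast_one]
    have h6 : 0 < ∏ p ∈ S, (p : ℝ) ^ m :=
      Finset.prod_pos fun p hp => pow_pos (by exact_mod_cast (hS p hp).pos) _
    simp only [uu, div_pow, Finset.prod_div_distrib, inv_div]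
    rw [← mul_div_assoc, eq_div_iff h6.ne', h5, mul_comm]
  · refine ⟨_, Finset.mem_image_of_mem _ (?_ : kap b M a ∈ U), ?_⟩
    · rw [hU, Finset.mem_filter, hψ, hT]
      refine ⟨Finset.mem_univ _, Fintype.mem_piFinset.2 fun p => Fintype.mem_piFinset.2 fun i => ?_⟩
      exact Finset.mem_erase.2 ⟨ha p p.2 i, Finset.mem_univ _⟩
    · rw [← kap_eq_iff b, Function.surjInv_eq (kap_surj b M)]

lemma coord_mul (r y : A) (i : Fin m) :
    b.equivFun (r * y) i = ∑ j, b.equivFun y j * b.equivFun (r * b j) i := by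
  conv_lhs => rw [← b.sum_equivFun y]
  rw [Finset.mul_sum, map_sum, Finset.sum_apply]
  apply Finset.sum_congr rfl
  intro j _
  rw [mul_smul_comm, map_smul, Pi.smul_apply, smul_eq_mul]

lemma norm_mul_le (r : A) : ∃ C : ℝ, 0 < C ∧ ∀ y, ‖b.equivFun (r * y)‖ ≤ C * ‖b.equivFun y‖ := by
  refine ⟨1 + ∑ j, ‖b.equivFun (r * b j)‖, by positivity, fun y => ?_⟩
  rw [pi_norm_le_iff_of_nonneg (by positivity)]
  intro i
  rw [coord_mul]
  calc _ ≤ ∑ j, ‖b.equivFun y j * b.equivFun (r * b j) i‖ := norm_sum_le _ _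
    _ ≤ ∑ j, ‖b.equivFun y‖ * ‖b.equivFun (r * b j)‖ := by
      apply Finset.sum_le_sum
      intro j _
      rw [norm_mul]
      exact mul_le_mul (norm_le_pi_norm _ j) (norm_le_pi_norm _ i) (norm_nonneg _) (norm_nonneg _)
    _ ≤ _ := by
      rw [← Finset.mul_sum, add_mul, mul_comm (∑ j, _)]
      linarith [norm_nonneg (b.equivFun y)]

end Pool.Agent.MP_14ad9d_nt.Full.AddFAux
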