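import Pool.Agent.MP_14ad9d_nt.Full.AddF3

set_option autoImplicit false

open Filter Topology

namespace Pool.Agent.MP_14ad9d_nt.Full.AddFAux

lemma ee_add (x y : ℝ) : ee (x + y) = ee x * ee y := by
  unfold ee
  rw [← Complex.exp_add]
  congr 1
  push_cast
  ring

lemma norm_ee (x : ℝ) : ‖ee x‖ = 1 := by
  have := Complex.norm_exp_ofReal_mul_I (2 * Real.pi * x)
  unfold ee
  push_cast at this
  exact this

lemma continuous_ee : Continuous ee := by
  unfold ee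
  fun_prop

lemma norm_ee_sub (x y : ℝ) : ‖ee x - ee y‖ ≤ 2 * Real.pi * |x - y| := by
  have h1 : ee x - ee y = ee y * (ee (x - y) - 1) := by
    rw [mul_sub, ← ee_add, mul_one]
    congr 2
    ring
  rw [h1, norm_mul, norm_ee, one_mul]
  have h2 := @Real.norm_exp_I_mul_ofReal_sub_one_le (2 * Real.pi * (x - y))
  have h3 : ee (x - y) = Complex.exp (Complex.I * ((2 * Real.pi * (x - y) : ℝ) : ℂ)) := by
    unfold ee
    congr 1
    push_cast
    ring
  rw [h3]
  refine h2.trans (le_of_eq ?_)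
  rw [Real.norm_eq_abs, abs_mul, abs_of_pos (by positivity : 0 < 2 * Real.pi)]

variable {m : ℕ}

/-- the point of the torus defined by a real vector -/
noncomputable def tor (x : Fin m → ℝ) : UnitAddTorus (Fin m) := fun i => (x i : UnitAddCircle)

lemma mFourier_add_right (n : Fin m → ℤ) (θ θ' : UnitAddTorus (Fin m)) :
    UnitAddTorus.mFourier n (θ + θ') = UnitAddTorus.mFourier n θ * UnitAddTorus.mFourier n θ' := by
  simp only [UnitAddTorus.mFourier, ContinuousMap.coe_mk, Pi.add_apply, fourier_apply, smul_add,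
    AddCircle.toCircle_add, Circle.coe_mul, Finset.prod_mul_distrib]

lemma mFourier_tor (n : Fin m → ℤ) (x : Fin m → ℝ) :
    UnitAddTorus.mFourier n (tor x) = ee (∑ i, n i * x i) := by
  simp only [UnitAddTorus.mFourier, ContinuousMap.coe_mk, tor, fourier_coe_apply, ee]
  rw [← Complex.exp_sum]
  congr 1
  push_cast
  rw [Finset.mul_sum, Finset.sum_mul]
  apply Finset.sum_congr rfl
  intro i _
  ring

lemma mFourier_torsion (Q : ℕ) (k : Fin m → ℤ) (θ : UnitAddTorus (Fin m)) (h : Q • θ = 0) :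
    UnitAddTorus.mFourier (Q • k) θ = 1 := by
  simp only [UnitAddTorus.mFourier, ContinuousMap.coe_mk, fourier_apply]
  apply Finset.prod_eq_one
  intro i _
  have h1 : Q • θ i = 0 := congrFun h i
  have h2 : (Q • k) i • θ i = 0 := by
    rw [Pi.smul_apply, nsmul_eq_mul, mul_comm, mul_smul, natCast_zsmul, h1, smul_zero]
  rw [h2, AddCircle.toCircle_zero, Circle.coe_one]

lemma norm_mFourier (n : Fin m → ℤ) (θ : UnitAddTorus (Fin m)) :
    ‖UnitAddTorus.mFourier n θ‖ = 1 := by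
  simp only [UnitAddTorus.mFourier, fourier_apply, ContinuousMap.coe_mk, norm_prod,
    Circle.norm_coe, Finset.prod_const_one]

lemma arcs_decomp (w : ℕ) (N : ℝ) (hN : 0 < N) (θ : UnitAddTorus (Fin m)) (h : θ ∈ arcs m N w) :
    ∃ θ' : UnitAddTorus (Fin m), w.factorial • θ' = 0 ∧ ∃ β : Fin m → ℝ, ‖β‖ ≤ w ∧
      θ = θ' + tor (fun i => β i / N) := by
  obtain ⟨q, hq1, hqw, hq⟩ := h
  have hq0 : (1 : ℝ) ≤ q := by exact_mod_cast hq1
  have h1 : ∀ i, ∃ γ : ℝ, (γ : UnitAddCircle) = q • θ i ∧ |γ| ≤ w / N := by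
    intro i
    obtain ⟨x, hx⟩ := QuotientAddGroup.mk_surjective (q • θ i)
    refine ⟨x - round x, ?_, ?_⟩
    · have : (((round x : ℤ) : ℝ) : UnitAddCircle) = 0 :=
        (AddCircle.coe_eq_zero_iff _).2 ⟨round x, by simp⟩
      rw [AddCircle.coe_sub, this, sub_zero, hx]
    · rw [← UnitAddCircle.norm_eq, hx]
      exact (norm_le_pi_norm (q • θ) i).trans hq
  choose γ hγ hγ' using h1
  refine ⟨θ - tor (fun i => γ i / q), ?_, fun i => N * γ i / q, ?_, ?_⟩
  · obtain ⟨k, hk⟩ : q ∣ w.factorial := Nat.dvd_factorial hq1 (by exact_mod_cast hqw)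
    have : q • (θ - tor (fun i => γ i / q)) = 0 := by
      ext i
      rw [Pi.smul_apply, Pi.sub_apply, smul_sub, ← hγ i, tor, ← AddCircle.coe_nsmul,
        nsmul_eq_mul, mul_div_cancel₀ _ (by linarith), sub_self, Pi.zero_apply]
    rw [hk, mul_comm, mul_smul, this, smul_zero]
  · rw [pi_norm_le_iff_of_nonneg (Nat.cast_nonneg w)]
    intro i
    have h2 := hγ' i
    rw [le_div_iff₀ hN] at h2
    rw [Real.norm_eq_abs, abs_div, abs_mul, abs_of_pos hN, abs_of_pos (by linarith : (0 : ℝ) < q),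
      div_le_iff₀ (by linarith)]
    have : (0 : ℝ) ≤ w := Nat.cast_nonneg w
    nlinarith
  · have : (fun i => N * γ i / q / N) = fun i => γ i / q := by
      ext i
      field_simp
    rw [this, sub_add_cancel]

lemma hat_lip (F : (Fin m → ℤ) →₀ ℝ) (hF : ∀ n, 0 ≤ F n) (C₀ N : ℝ) (hN : 0 < N)
    (hbox : ∀ n ∈ F.support, ‖n‖ ≤ C₀ * N) (θ' : UnitAddTorus (Fin m)) (β β₀ : Fin m → ℝ) :
    ‖hat F (θ' + tor (fun i => β i / N)) - hat F (θ' + tor (fun i => β₀ i / N))‖ ≤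
      2 * Real.pi * m * C₀ * ‖β - β₀‖ * F.sum fun _ a => a := by
  unfold hat
  rw [Finsupp.sum, Finsupp.sum, Finsupp.sum, ← Finset.sum_sub_distrib, Finset.mul_sum]
  refine (norm_sum_le _ _).trans (Finset.sum_le_sum fun n hn => ?_)
  rw [← mul_sub, mFourier_add_right, mFourier_add_right, ← mul_sub, norm_mul, norm_mul,
    norm_mFourier, one_mul, Complex.norm_real, Real.norm_eq_abs, abs_of_nonneg (hF n), mul_comm,
    mFourier_tor, mFourier_tor]
  refine mul_le_mul_of_nonneg_right ((norm_ee_sub _ _).trans ?_) (hF n)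
  rw [mul_assoc (2 * Real.pi), mul_assoc (2 * Real.pi)]
  refine mul_le_mul_of_nonneg_left ?_ (by positivity)
  rw [← Finset.sum_sub_distrib]
  refine (Finset.abs_sum_le_sum_abs _ _).trans ?_
  have h1 : ∀ i ∈ (Finset.univ : Finset (Fin m)),
      |(n i : ℝ) * (β i / N) - n i * (β₀ i / N)| ≤ C₀ * ‖β - β₀‖ := by
    intro i _
    have h2 : |(n i : ℝ)| ≤ C₀ * N := by
      have := (norm_le_pi_norm n i).trans (hbox n hn)
      rwa [Int.norm_eq_abs] at this
    have h3 : |β i - β₀ i| ≤ ‖β - β₀‖ := norm_le_pi_norm (β - β₀) i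
    have e : (n i : ℝ) * (β i / N) - n i * (β₀ i / N) = n i * (β i - β₀ i) / N := by ring
    rw [e, abs_div, abs_mul, abs_of_pos hN, div_le_iff₀ hN]
    calc _ ≤ (C₀ * N) * ‖β - β₀‖ :=
          mul_le_mul h2 h3 (abs_nonneg _) ((abs_nonneg _).trans h2)
      _ = _ := by ring
  refine (Finset.sum_le_card_nsmul _ _ _ h1).trans (le_of_eq ?_)
  simp [mul_assoc]

/-- pointwise smallness and a Lipschitz bound give smallness on all major arcs -/
theorem arcs_small (F G : ℝ → ((Fin m → ℤ) →₀ ℝ)) (κ : ℝ) (hκ : 0 < κ) (w : ℕ) (C₀ C₁ : ℝ)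
    (hC₀ : 0 < C₀) (hC₁ : 0 < C₁) (hF : ∀ X n, 0 ≤ F X n) (hG : ∀ X n, 0 ≤ G X n)
    (hb : ∀ᶠ X : ℝ in atTop, (∀ n ∈ (F X).support, ‖n‖ ≤ C₀ * (X / κ)) ∧
      (∀ n ∈ (G X).support, ‖n‖ ≤ C₀ * (X / κ)) ∧
      ((F X).sum fun _ a => a) ≤ C₁ * (X / κ) ^ m ∧ ((G X).sum fun _ a => a) ≤ C₁ * (X / κ) ^ m)
    (hpt : ∀ θ' : UnitAddTorus (Fin m), w.factorial • θ' = 0 → ∀ β : Fin m → ℝ, ∀ ε : ℝ, 0 < ε →
      ∀ᶠ X : ℝ in atTop, ‖hat (F X) (θ' + tor (fun i => β i / (X / κ))) -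
        hat (G X) (θ' + tor (fun i => β i / (X / κ)))‖ ≤ ε * (X / κ) ^ m)
    (ε : ℝ) (hε : 0 < ε) :
    ∀ᶠ X : ℝ in atTop, ∀ θ ∈ arcs m (X / κ) w, ‖hat (F X) θ - hat (G X) θ‖ ≤ ε * (X / κ) ^ m := by
  set L : ℝ := 2 * Real.pi * m * C₀ * C₁ with hL
  have hL0 : 0 ≤ L := by positivity
  set η : ℝ := ε / (3 * (L + 1)) with hη
  have hη0 : 0 < η := by positivity
  obtain ⟨t, -, htf, ht⟩ :=
    finite_cover_balls_of_compact (isCompact_closedBall (0 : Fin m → ℝ) w) hη0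
  have hfin : {θ' : UnitAddTorus (Fin m) | w.factorial • θ' = 0}.Finite := by
    refine (Set.Finite.pi' (fun _ : Fin m =>
      AddCircle.finite_torsion (1 : ℝ) w.factorial_pos)).subset ?_
    intro θ' h i
    exact congrFun h i
  have hall := (eventually_all_finite hfin).2 fun θ' h =>
    (eventually_all_finite htf).2 fun β _ => hpt θ' h β (ε / 3) (by positivity)
  filter_upwards [hb, hall, eventually_gt_atTop 0] with X hb hall hX θ hθ
  set N := X / κ with hN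
  have hN0 : 0 < N := by positivity
  obtain ⟨θ', h1, β, h2, rfl⟩ := arcs_decomp w N hN0 θ hθ
  have h3 := ht (show β ∈ Metric.closedBall 0 (w : ℝ) by simpa using h2)
  simp only [Set.mem_iUnion] at h3
  obtain ⟨β₀, h4, h5⟩ := h3
  rw [Metric.mem_ball, dist_eq_norm] at h5
  have k0 := hall θ' h1 β₀ h4
  have k1 := hat_lip (F X) (hF X) C₀ N hN0 hb.1 θ' β β₀
  have k2 := hat_lip (G X) (hG X) C₀ N hN0 hb.2.1 θ' β β₀
  have hNm : 0 < N ^ m := by positivity
  have k3 : ∀ S : ℝ, S ≤ C₁ * N ^ m →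
      2 * Real.pi * m * C₀ * ‖β - β₀‖ * S ≤ ε / 3 * N ^ m := by
    intro S hS
    have e1 : L * η ≤ ε / 3 := by
      rw [hη, ← mul_div_assoc, div_le_div_iff₀ (by positivity) (by norm_num)]
      nlinarith
    calc _ ≤ 2 * Real.pi * m * C₀ * ‖β - β₀‖ * (C₁ * N ^ m) := by gcongr
      _ ≤ 2 * Real.pi * m * C₀ * η * (C₁ * N ^ m) := by gcongr
      _ = (L * η) * N ^ m := by rw [hL]; ring
      _ ≤ _ := by gcongr
  have k4 := k1.trans (k3 _ hb.2.2.1)
  have k5 := k2.trans (k3 _ hb.2.2.2)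
  set a := hat (F X) (θ' + tor (fun i => β i / N))
  set a₀ := hat (F X) (θ' + tor (fun i => β₀ i / N))
  set c := hat (G X) (θ' + tor (fun i => β i / N))
  set c₀ := hat (G X) (θ' + tor (fun i => β₀ i / N))
  have e : a - c = (a - a₀) + (a₀ - c₀) - (c - c₀) := by ring
  rw [e]
  have := norm_sub_le ((a - a₀) + (a₀ - c₀)) (c - c₀)
  have := norm_add_le (a - a₀) (a₀ - c₀)
  linarith

end Pool.Agent.MP_14ad9d_nt.Full.AddFAux
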