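import Pool.Agent.MP_14ad9d_nt.Full.AddF4

set_option autoImplicit false

open Filter Topology

namespace Pool.Agent.MP_14ad9d_nt.Full.AddFAux

variable {A : Type} [CommRing A] {m : ℕ} (b : Module.Basis (Fin m) ℤ A)

/-- the parametrization of a residue class -/
noncomputable def iota (α W : A) (n : Fin m → ℤ) : A := α + W * b.equivFun.symm n

lemma iota_inj [IsDomain A] (α W : A) (hW : W ≠ 0) : Function.Injective (iota b α W) := by
  intro n n' h
  unfold iota at h
  exact b.equivFun.symm.injective (mul_left_cancel₀ hW (add_left_cancel h))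

lemma mem_range_iota (α W a : A) : a ∈ Set.range (iota b α W) ↔ W ∣ a - α := by
  constructor
  · rintro ⟨n, rfl⟩
    exact ⟨b.equivFun.symm n, by simp [iota]⟩
  · rintro ⟨y, hy⟩
    exact ⟨b.equivFun y, by rw [iota, LinearEquiv.symm_apply_apply, ← hy]; ring⟩

/-- the scaled restriction of a weight to a residue class -/
noncomputable def pull (ι : (Fin m → ℤ) → A) (hι : Function.Injective ι) (ρ : ℝ) (φ : A →₀ ℝ) :
    (Fin m → ℤ) →₀ ℝ := ρ • Finsupp.comapDomain ι φ hι.injOn

omit [CommRing A] in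
lemma pull_apply (ι : (Fin m → ℤ) → A) (hι : Function.Injective ι) (ρ : ℝ) (φ : A →₀ ℝ)
    (n : Fin m → ℤ) : pull ι hι ρ φ n = ρ * φ (ι n) := by
  simp [pull]

open Classical in
lemma pull_sum {β : Type} [AddCommMonoid β] (ι : (Fin m → ℤ) → A) (hι : Function.Injective ι)
    (ρ : ℝ) (φ : A →₀ ℝ) (k : (Fin m → ℤ) → ℝ → β) (hk : ∀ n, k n 0 = 0) :
    (pull ι hι ρ φ).sum k =
      φ.sum fun a x => if a ∈ Set.range ι then k (Function.invFun ι a) (ρ * x) else 0 := by
  have hsub : (pull ι hι ρ φ).support ⊆ φ.support.preimage ι hι.injOn := by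
    intro n hn
    rw [Finsupp.mem_support_iff, pull_apply] at hn
    rw [Finset.mem_preimage, Finsupp.mem_support_iff]
    exact right_ne_zero_of_mul hn
  rw [Finsupp.sum_of_support_subset _ hsub _ (fun n _ => hk n), Finsupp.sum,
    ← Finset.sum_preimage ι φ.support hι.injOn _ (fun x _ hx => if_neg hx)]
  apply Finset.sum_congr rfl
  intro n _
  rw [if_pos ⟨n, rfl⟩, Function.leftInverse_invFun hι, pull_apply]

open Classical in
lemma sum_periodic (M : ℕ) [NeZero M] (χ : A → ℂ) (hχ : ∀ a a', (M : A) ∣ a - a' → χ a = χ a')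
    (φ : A →₀ ℝ) (k : A → ℝ → ℂ) :
    (φ.sum fun a x => χ a * k a x) =
      ∑ v : Fin m → ZMod M, χ (Function.surjInv (kap_surj b M) v) *
        φ.sum fun a x => if (M : A) ∣ a - Function.surjInv (kap_surj b M) v then k a x else 0 := by
  simp only [Finsupp.sum, Finset.mul_sum]
  rw [Finset.sum_comm]
  apply Finset.sum_congr rfl
  intro a _
  rw [Finset.sum_eq_single (kap b M a)]
  · have h : (M : A) ∣ a - Function.surjInv (kap_surj b M) (kap b M a) := by
      rw [← kap_eq_iff b, Function.surjInv_eq (kap_surj b M)]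
    rw [if_pos h, hχ _ _ h]
  · intro v _ hv
    rw [if_neg, mul_zero]
    rw [← kap_eq_iff b, Function.surjInv_eq (kap_surj b M)]
    exact fun h => hv h.symm
  · intro h
    exact absurd (Finset.mem_univ _) h

open Classical in
/-- the equidistribution hypothesis -/
def Equi (f g : ℝ → (A →₀ ℝ)) : Prop :=
  ∀ M : ℕ, M ≠ 0 → ∀ β : A, ∀ h : (Fin m → ℝ) → ℂ, Continuous h →
    Tendsto (fun X : ℝ =>
      (((f X).sum fun a x => if (M : A) ∣ a - β then
          (x : ℂ) * h (fun i => (b.equivFun a i : ℝ) / X) else 0) -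
        ((g X).sum fun a x => if (M : A) ∣ a - β then
          (x : ℂ) * h (fun i => (b.equivFun a i : ℝ) / X) else 0)) / (X : ℂ) ^ m)
      atTop (𝓝 0)

lemma equi2 {f g : ℝ → (A →₀ ℝ)} (he : Equi b f g) (M : ℕ) (hM : M ≠ 0) (χ : A → ℂ)
    (hχ : ∀ a a', (M : A) ∣ a - a' → χ a = χ a') (h : (Fin m → ℝ) → ℂ) (hh : Continuous h) :
    Tendsto (fun X : ℝ =>
      (((f X).sum fun a x => χ a * ((x : ℂ) * h (fun i => (b.equivFun a i : ℝ) / X))) -
        ((g X).sum fun a x => χ a * ((x : ℂ) * h (fun i => (b.equivFun a i : ℝ) / X)))) /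
          (X : ℂ) ^ m) atTop (𝓝 0) := by
  have : NeZero M := ⟨hM⟩
  have h1 := tendsto_finsetSum (Finset.univ : Finset (Fin m → ZMod M)) fun v _ =>
    (he M hM (Function.surjInv (kap_surj b M) v) h hh).const_mul
      (χ (Function.surjInv (kap_surj b M) v))
  simp only [mul_zero, Finset.sum_const_zero] at h1
  refine h1.congr fun X => ?_
  rw [sum_periodic b M χ hχ, sum_periodic b M χ hχ, ← Finset.sum_sub_distrib, Finset.sum_div]
  apply Finset.sum_congr rfl
  intro v _
  ring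

theorem pointwise [IsDomain A] {f g : ℝ → (A →₀ ℝ)} (he : Equi b f g) (α W W' : A) (hW : W ≠ 0)
    (M₀ : ℕ) (hM₀ : M₀ ≠ 0) (hWW : W * W' = M₀) (ρ κ : ℝ) (hκ : 0 < κ) (Q : ℕ) (hQ : Q ≠ 0)
    (θ' : UnitAddTorus (Fin m)) (hθ : Q • θ' = 0) (β : Fin m → ℝ) (ε : ℝ) (hε : 0 < ε) :
    ∀ᶠ X : ℝ in atTop,
      ‖hat (pull _ (iota_inj b α W hW) ρ (f X)) (θ' + tor (fun i => β i / (X / κ))) -
        hat (pull _ (iota_inj b α W hW) ρ (g X)) (θ' + tor (fun i => β i / (X / κ)))‖ ≤
          ε * (X / κ) ^ m := by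
  classical
  have hι := iota_inj b α W hW
  set ι := iota b α W with hιdef
  set χ : A → ℂ := fun a =>
    if a ∈ Set.range ι then UnitAddTorus.mFourier (Function.invFun ι a) θ' else 0 with hχdef
  have hχ1 : ∀ n, χ (ι n) = UnitAddTorus.mFourier n θ' := fun n => by
    rw [hχdef]
    simp only
    rw [if_pos ⟨n, rfl⟩, Function.leftInverse_invFun hι]
  have hχ2 : ∀ a a', ((M₀ * Q : ℕ) : A) ∣ a - a' → a' ∈ Set.range ι →
      a ∈ Set.range ι ∧ χ a = χ a' := by
    rintro a _ ⟨y, hy⟩ ⟨n, rfl⟩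
    have h1 : a = ι (n + Q • b.equivFun (W' * y)) := by
      rw [hιdef, iota, map_add, map_nsmul, LinearEquiv.symm_apply_apply, nsmul_eq_mul]
      rw [hιdef, iota, Nat.cast_mul, ← hWW] at hy
      linear_combination hy
    refine ⟨⟨_, h1.symm⟩, ?_⟩
    rw [h1, hχ1, hχ1, UnitAddTorus.mFourier_add, mFourier_torsion Q _ _ hθ, mul_one]
  have hχ : ∀ a a', ((M₀ * Q : ℕ) : A) ∣ a - a' → χ a = χ a' := by
    intro a a' h
    by_cases h1 : a' ∈ Set.range ι
    · exact (hχ2 a a' h h1).2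
    · by_cases h2 : a ∈ Set.range ι
      · exact absurd (hχ2 a' a (dvd_sub_comm.1 h) h2).1 h1
      · rw [hχdef]
        simp only
        rw [if_neg h1, if_neg h2]
  set lin : (Fin m → ℝ) → ℝ := fun x =>
    ∑ i, β i * (κ / M₀) * ∑ j, x j * (b.equivFun (W' * b j) i : ℝ) with hlin
  have hlc : Continuous lin := by
    rw [hlin]
    fun_prop
  have hM₀' : (M₀ : ℝ) ≠ 0 := by exact_mod_cast hM₀
  have hlin1 : ∀ (X : ℝ) (a : A), lin (fun i => (b.equivFun a i : ℝ) / X) =
      ∑ i, β i * (κ / M₀) * (b.equivFun (W' * a) i : ℝ) / X := by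
    intro X a
    rw [hlin]
    apply Finset.sum_congr rfl
    intro i _
    rw [coord_mul b W' a i]
    push_cast
    rw [mul_div_assoc, Finset.sum_div]
    congr 1
    apply Finset.sum_congr rfl
    intro j _
    ring
  have hlin2 : ∀ (X : ℝ) (n : Fin m → ℤ), ∑ i, (n i : ℝ) * (β i / (X / κ)) =
      lin (fun i => (b.equivFun (ι n) i : ℝ) / X) + -lin (fun i => (b.equivFun α i : ℝ) / X) := by
    intro X n
    rw [hlin1, hlin1, ← sub_eq_add_neg, ← Finset.sum_sub_distrib]
    apply Finset.sum_congr rfl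
    intro i _
    have h1 : W' * ι n = W' * α + (M₀ : A) * b.equivFun.symm n := by
      rw [hιdef, iota, ← hWW]; ring
    rw [h1, map_add, Pi.add_apply, equivFun_natCast_mul, LinearEquiv.apply_symm_apply]
    push_cast
    rw [div_div_eq_mul_div]
    field_simp
    ring
  have hhat : ∀ (X : ℝ) (φ : A →₀ ℝ), hat (pull ι hι ρ φ) (θ' + tor (fun i => β i / (X / κ))) =
      (ρ * ee (-lin (fun i => (b.equivFun α i : ℝ) / X))) *
        φ.sum fun a x => χ a * ((x : ℂ) * ee (lin (fun i => (b.equivFun a i : ℝ) / X))) := by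
    intro X φ
    unfold hat
    rw [pull_sum ι hι ρ φ _ (fun n => by simp), Finsupp.sum, Finsupp.sum, Finset.mul_sum]
    apply Finset.sum_congr rfl
    intro a _
    by_cases ha : a ∈ Set.range ι
    · obtain ⟨n, rfl⟩ := ha
      rw [if_pos ⟨n, rfl⟩, Function.leftInverse_invFun hι, hχ1, mFourier_add_right, mFourier_tor,
        hlin2, ee_add]
      push_cast
      ring
    · rw [if_neg ha, hχdef]
      simp only
      rw [if_neg ha]
      simp
  have h1 := equi2 b he (M₀ * Q) (mul_ne_zero hM₀ hQ) χ hχ (fun x => ee (lin x))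
    (continuous_ee.comp hlc)
  rw [tendsto_zero_iff_norm_tendsto_zero] at h1
  have hκm : 0 < κ ^ m := by positivity
  have h2 := h1.eventually_le_const (show 0 < ε / ((|ρ| + 1) * κ ^ m) by positivity)
  filter_upwards [h2, eventually_gt_atTop 0] with X hX hX0
  rw [hhat, hhat, ← mul_sub, norm_mul, norm_mul, norm_ee, mul_one, Complex.norm_real,
    Real.norm_eq_abs]
  have hXm : 0 < X ^ m := by positivity
  rw [norm_div, norm_pow, Complex.norm_real, Real.norm_eq_abs, abs_of_pos hX0,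
    div_le_iff₀ hXm] at hX
  refine (mul_le_mul_of_nonneg_left hX (abs_nonneg ρ)).trans ?_
  rw [div_pow]
  have e : |ρ| * (ε / ((|ρ| + 1) * κ ^ m) * X ^ m) = (|ρ| / (|ρ| + 1)) * (ε * (X ^ m / κ ^ m)) := by
    field_simp
  rw [e]
  apply mul_le_of_le_one_left (by positivity)
  rw [div_le_one (by positivity)]
  linarith

end Pool.Agent.MP_14ad9d_nt.Full.AddFAux
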