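import Pool.Agent.MP_14ad9d_nt.Full.HDefs

set_option autoImplicit false

open NumberField

namespace Pool.Agent.MP_14ad9d_nt.Full.AddKAux

variable {F K : Type} [Field F] [NumberField F] [Field K] [NumberField K] [Algebra F K]

omit [NumberField K] in
theorem mk_eq (m a b : 𝓞 K) :
    Ideal.Quotient.mk (Ideal.span {m}) a = Ideal.Quotient.mk (Ideal.span {m}) b ↔ m ∣ a - b := by
  rw [Ideal.Quotient.eq, Ideal.mem_span_singleton]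

theorem norm_prod [IsGalois F K] (x : 𝓞 K) :
    algebraMap (𝓞 F) (𝓞 K) (RingOfIntegers.norm F x) =
      ∏ σ : K ≃ₐ[F] K, RingOfIntegers.mapRingHom (σ : K →+* K) x := by
  ext
  rw [RingOfIntegers.coe_algebraMap_norm, Algebra.norm_eq_prod_automorphisms]
  simp

theorem norm_coprime [IsGalois F K] {x : 𝓞 K} {m : ℕ} (h : IsCoprime x (m : 𝓞 K)) :
    IsCoprime (algebraMap (𝓞 F) (𝓞 K) (RingOfIntegers.norm F x)) (m : 𝓞 K) := by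
  rw [norm_prod]
  refine IsCoprime.prod_left fun σ _ => ?_
  simpa using h.map (RingOfIntegers.mapRingHom (σ : K →+* K))

theorem norm_congr [IsGalois F K] {x y : 𝓞 K} {m : ℕ} (h : (m : 𝓞 K) ∣ x - y) :
    (m : 𝓞 K) ∣ algebraMap (𝓞 F) (𝓞 K) (RingOfIntegers.norm F x) -
      algebraMap (𝓞 F) (𝓞 K) (RingOfIntegers.norm F y) := by
  rw [norm_prod, norm_prod, ← mk_eq, map_prod, map_prod]
  refine Finset.prod_congr rfl fun σ _ => (mk_eq _ _ _).2 ?_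
  simpa using map_dvd (RingOfIntegers.mapRingHom (σ : K →+* K)) h

theorem finite_quot {m : ℕ} (hm : m ≠ 0) : Finite (𝓞 K ⧸ Ideal.span {(m : 𝓞 K)}) :=
  Ideal.finiteQuotientOfFreeOfNeBot _ (by simpa using hm)

theorem pow_card {m : ℕ} (hm : m ≠ 0) : ∃ E : ℕ, E ≠ 0 ∧ ∀ x : 𝓞 K, IsCoprime x (m : 𝓞 K) →
    Ideal.Quotient.mk (Ideal.span {(m : 𝓞 K)}) x ^ E = 1 := by
  have := finite_quot (K := K) hm
  refine ⟨Nat.card (𝓞 K ⧸ Ideal.span {(m : 𝓞 K)})ˣ, Nat.card_pos.ne', fun x hx => ?_⟩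
  have hu : IsUnit (Ideal.Quotient.mk (Ideal.span {(m : 𝓞 K)}) x) := by
    obtain ⟨a, b, e⟩ := hx
    refine IsUnit.of_mul_eq_one (Ideal.Quotient.mk _ a) ?_
    rw [← map_mul, ← map_one (Ideal.Quotient.mk _), mk_eq]
    exact ⟨-b, by rw [← e]; ring⟩
  obtain ⟨u, hu⟩ := hu
  rw [← hu, ← Units.val_pow_eq_pow_val, pow_card_eq_one', Units.val_one]

theorem lift_coprime {x : 𝓞 K} {M m : ℕ} (hm : m ≠ 0) (h : IsCoprime x (M : 𝓞 K)) :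
    ∃ x' : 𝓞 K, (M : 𝓞 K) ∣ x' - x ∧ IsCoprime x' (m : 𝓞 K) := by
  have := finite_quot (K := K) hm
  obtain ⟨i, j, hij, e⟩ : ∃ i j : ℕ, i < j ∧ (m : 𝓞 K) ∣ x ^ i - x ^ j := by
    obtain ⟨i, j, ne, e⟩ := Finite.exists_ne_map_eq_of_infinite
      fun i : ℕ => Ideal.Quotient.mk (Ideal.span {(m : 𝓞 K)}) (x ^ i)
    rcases lt_or_gt_of_ne ne with l | l
    · exact ⟨i, j, l, (mk_eq _ _ _).1 e⟩
    · exact ⟨j, i, l, (mk_eq _ _ _).1 e.symm⟩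
  obtain ⟨d, rfl⟩ := Nat.exists_eq_add_of_lt hij
  refine ⟨x + M * (1 - x ^ (d + 1)), ⟨1 - x ^ (d + 1), by ring⟩, ?_⟩
  rw [← Ideal.isCoprime_span_singleton_iff, Ideal.isCoprime_iff_sup_eq]
  by_contra c
  obtain ⟨P, hP, le⟩ := Ideal.exists_le_maximal _ c
  rw [sup_le_iff, Ideal.span_singleton_le_iff_mem, Ideal.span_singleton_le_iff_mem] at le
  have h1 : x ^ i * (1 - x ^ (d + 1)) ∈ P := by
    rw [show x ^ i * (1 - x ^ (d + 1)) = x ^ i - x ^ (i + d + 1) by ring]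
    exact P.mem_of_dvd e le.2
  have hx : x ∈ P := by
    rcases hP.isPrime.mem_or_mem h1 with a | a
    · exact hP.isPrime.mem_of_pow_mem _ a
    · have := P.sub_mem le.1 (P.mul_mem_left M a)
      rwa [add_sub_cancel_right] at this
  have hM : (M : 𝓞 K) ∈ P := by
    have := P.add_mem (P.sub_mem le.1 hx) (P.mul_mem_left (M * x ^ d) hx)
    rwa [show x + M * (1 - x ^ (d + 1)) - x + M * x ^ d * x = M by ring] at this
  obtain ⟨a, b, e⟩ := h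
  exact hP.ne_top ((Ideal.eq_top_iff_one _).2
    (e ▸ P.add_mem (P.mul_mem_left a hx) (P.mul_mem_left b hM)))

theorem exists_theta0 [IsGalois F K] {M : ℕ} (hM : M ≠ 0) {θ ξ : 𝓞 K}
    (hθ : IsCoprime θ (M : 𝓞 K)) (h : IsCoprime ξ (M : 𝓞 K)) :
    ∃ θ₀ : 𝓞 K, θ₀ ≠ 0 ∧ IsCoprime θ₀ (M : 𝓞 K) ∧
      (M : 𝓞 K) ∣ θ₀ * algebraMap (𝓞 F) (𝓞 K) (RingOfIntegers.norm F ξ) - θ := by
  obtain ⟨a, b, e⟩ := norm_coprime (F := F) h
  have ca : IsCoprime (θ * a) (M : 𝓞 K) := hθ.mul_left ⟨_, b, by rwa [mul_comm] at e⟩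
  have da : (M : 𝓞 K) ∣ θ * a * algebraMap (𝓞 F) (𝓞 K) (RingOfIntegers.norm F ξ) - θ :=
    ⟨-(θ * b), by linear_combination θ * e⟩
  by_cases c : θ * a = 0
  · refine ⟨θ * a + M * 1, by simpa [c] using hM, ca.add_mul_left_left 1, ?_⟩
    have := da.add (dvd_mul_right (M : 𝓞 K) (algebraMap (𝓞 F) (𝓞 K) (RingOfIntegers.norm F ξ)))
    convert this using 1
    ring
  · exact ⟨_, c, ca, da⟩

theorem alg [IsGalois F K] {l : ℕ} (hl : l.Prime) (hl2 : 2 < l) {M : ℕ} (hM : M ≠ 0)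
    {ξ₁ ξ₂ : 𝓞 K} (h₁ : IsCoprime ξ₁ (M : 𝓞 K)) (h₂ : IsCoprime ξ₂ (M : 𝓞 K)) (θ : 𝓞 K) :
    ∃ θ' s : 𝓞 K, IsCoprime s (M : 𝓞 K) ∧
      (M : 𝓞 K) ∣ θ' * (ξ₁ ^ Module.finrank F K *
          algebraMap (𝓞 F) (𝓞 K) (RingOfIntegers.norm F ξ₂)) -
        θ * s ^ l * (ξ₂ ^ Module.finrank F K *
          algebraMap (𝓞 F) (𝓞 K) (RingOfIntegers.norm F ξ₁)) ∧
      ∀ m : ℕ, m ≠ 0 → ∃ η₁ η₂ : 𝓞 K, IsCoprime η₁ (m : 𝓞 K) ∧
        IsCoprime η₂ (m : 𝓞 K) ∧ RingOfIntegers.norm F η₁ = RingOfIntegers.norm F η₂ ∧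
        (M : 𝓞 K) ∣ θ' * η₂ - θ * η₁ ∧ ∃ n : ℕ, Odd n ∧ (m : 𝓞 K) ∣ η₁ ^ n - η₂ ^ n := by
  obtain ⟨E, hE, pE⟩ := pow_card (K := K) hM
  obtain ⟨j, w, hw, rfl⟩ := Nat.exists_eq_pow_mul_and_not_dvd hE l hl.ne_one
  set n := Module.finrank F K
  let α : 𝓞 K → 𝓞 K → 𝓞 K := fun x y =>
    y ^ n * algebraMap (𝓞 F) (𝓞 K) (RingOfIntegers.norm F x)
  have cα : ∀ {m : ℕ} {x y : 𝓞 K}, IsCoprime x (m : 𝓞 K) → IsCoprime y (m : 𝓞 K) →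
      IsCoprime (α x y) (m : 𝓞 K) := fun hx hy => hy.pow_left.mul_left (norm_coprime hx)
  let q := Ideal.Quotient.mk (Ideal.span {(M : 𝓞 K)})
  obtain ⟨E', hE'⟩ := Nat.exists_eq_add_one_of_ne_zero hE
  let η := α ξ₁ ξ₂ * α ξ₂ ξ₁ ^ E'
  have cη : IsCoprime η (M : 𝓞 K) := (cα h₁ h₂).mul_left (cα h₂ h₁).pow_left
  have e1 : q η * q (α ξ₂ ξ₁) = q (α ξ₁ ξ₂) := by
    simp only [η, map_mul, map_pow]
    rw [mul_assoc, ← pow_succ, ← hE', pE _ (cα h₂ h₁), mul_one]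
  let k : ℕ → ℕ := fun a => (w * 2 ^ a) ^ Nat.totient (l ^ (j + 1))
  have tp : Nat.totient (l ^ (j + 1)) ≠ 0 := (Nat.totient_pos.2 (pow_pos hl.pos _)).ne'
  have cw : w.Coprime l := ((Nat.Prime.coprime_iff_not_dvd hl).2 hw).symm
  have k1 : ∀ a, k a ≡ 1 [MOD l ^ (j + 1)] := fun a =>
    Nat.ModEq.pow_totient (Nat.Coprime.pow_right _ (cw.mul_left
      (Nat.Coprime.pow_left _ ((Nat.coprime_primes Nat.prime_two hl).2 hl2.ne))))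
  have k2 : ∀ a, w * 2 ^ a ∣ k a := fun a => dvd_pow_self _ tp
  have k3 : ∀ a, k a ≡ k 0 [MOD l ^ j * w] := fun a =>
    (Nat.modEq_and_modEq_iff_modEq_mul (cw.symm.pow_left j)).1
      ⟨((k1 a).trans (k1 0).symm).of_dvd (pow_dvd_pow l j.le_succ),
        ((Nat.modEq_zero_iff_dvd.2 ((dvd_mul_right _ _).trans (k2 a))).trans
          (Nat.modEq_zero_iff_dvd.2 ((dvd_mul_right _ _).trans (k2 0))).symm)⟩
  have k0 : 1 ≤ k 0 := Nat.pos_of_ne_zero (pow_ne_zero _ (by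
    rw [pow_zero, mul_one]
    exact right_ne_zero_of_mul hE))
  obtain ⟨s, hs⟩ := (Nat.modEq_iff_dvd' k0).1
    ((k1 0).of_dvd (dvd_pow_self l j.succ_ne_zero)).symm
  have hs' : k 0 = s * l + 1 := by rw [mul_comm, ← hs]; omega
  refine ⟨θ * η ^ k 0, η ^ s, cη.pow_left, (mk_eq _ _ _).1 ?_, fun m hm => ?_⟩
  · change q (θ * η ^ k 0 * α ξ₂ ξ₁) = q (θ * (η ^ s) ^ l * α ξ₁ ξ₂)
    rw [map_mul q _ (α ξ₂ ξ₁), map_mul q _ (α ξ₁ ξ₂), ← e1, hs', pow_succ, pow_mul, ← mul_assoc θ,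
      map_mul q _ η, mul_assoc (q _) (q η)]
  · obtain ⟨x₁, d₁, c₁⟩ := lift_coprime hm h₁
    obtain ⟨x₂, d₂, c₂⟩ := lift_coprime hm h₂
    obtain ⟨e, he, pe⟩ := pow_card (K := K) hm
    obtain ⟨a, o, ho, rfl⟩ := Nat.exists_eq_two_pow_mul_odd he
    have qα : ∀ {x y x' y' : 𝓞 K}, (M : 𝓞 K) ∣ x' - x → (M : 𝓞 K) ∣ y' - y →
        q (α x' y') = q (α x y) := fun hx hy => by
      simp only [α, map_mul, map_pow]
      rw [(mk_eq _ _ _).2 hy, (mk_eq _ _ _).2 (norm_congr hx)]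
    refine ⟨α x₁ x₂ ^ k a, α x₂ x₁ ^ k a, (cα c₁ c₂).pow_left, (cα c₂ c₁).pow_left, ?_,
      (mk_eq _ _ _).1 ?_, o, ho, (mk_eq _ _ _).1 ?_⟩
    · simp only [α, map_mul, map_pow, RingOfIntegers.norm_algebraMap]
      rw [mul_comm]
    · change q _ = q _
      rw [map_mul, map_mul, map_mul, map_pow, map_pow, map_pow, qα d₁ d₂, qα d₂ d₁, ← e1,
        pow_eq_pow_mod (k 0) (pE _ cη), ← k3 a, ← pow_eq_pow_mod (k a) (pE _ cη), mul_pow,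
        mul_assoc]
    · obtain ⟨c, hc⟩ : 2 ^ a * o ∣ k a * o :=
        Nat.mul_dvd_mul_right ((dvd_mul_left _ _).trans (k2 a)) o
      rw [← pow_mul, ← pow_mul, hc, map_pow, map_pow, pow_mul _ _ c, pow_mul _ _ c,
        pe _ (cα c₁ c₂), pe _ (cα c₂ c₁)]

theorem units_sub (F : Type) [Field F] [NumberField F] [Algebra F K] {M : ℕ} (hM : M ≠ 0) :
    ∃ U : Subgroup (𝓞 F)ˣ, U.FiniteIndex ∧ ∀ (l : ℕ) (B : Ideal (𝓞 K)) (θ : 𝓞 K) (v : Pr K),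
      ∀ u ∈ U, ∀ a ∈ NSet F l M B θ v, (u : 𝓞 F) * a ∈ NSet F l M B θ v := by
  obtain ⟨E, hE, pE⟩ := pow_card (K := K) hM
  have : Group.FG (𝓞 F)ˣ := Group.fg_iff_monoid_fg.2 inferInstance
  refine ⟨(powMonoidHom (Module.finrank F K * E)).range,
    Subgroup.finiteIndex_range_powMonoidHom_of_fg _ (mul_ne_zero Module.finrank_pos.ne' hE), ?_⟩
  rintro l B θ v _ ⟨w, rfl⟩ _ ⟨π, h1, h2, rfl⟩
  have hu : IsUnit (algebraMap (𝓞 F) (𝓞 K) w) := w.isUnit.map _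
  refine ⟨algebraMap (𝓞 F) (𝓞 K) w ^ E * π, ?_, ?_, ?_⟩
  · rw [Ideal.span_singleton_mul_left_unit (hu.pow E), h1]
  · have h3 : (M : 𝓞 K) ∣ algebraMap (𝓞 F) (𝓞 K) w ^ E - 1 := by
      rw [← mk_eq, map_pow, pE _ (by simpa using (isCoprime_mul_unit_left_left hu 1 (M : 𝓞 K)).2 isCoprime_one_left), map_one]
    have := (h3.mul_right π).add h2
    convert this using 1
    ring
  · rw [map_mul, map_pow, RingOfIntegers.norm_algebraMap, powMonoidHom_apply,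
      Units.val_pow_eq_pow_val, pow_mul]

end Pool.Agent.MP_14ad9d_nt.Full.AddKAux
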