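import Pool.Agent.MP_14ad9d_nt.Full.Euler1

set_option autoImplicit false
set_option linter.unusedSectionVars false

open NumberField Filter Topology

namespace Pool.Agent.MP_14ad9d_nt.Full

open Pool.Agent.MP_d64882_nt EulerAux

variable {E : Type} [Field E] [NumberField E]

/-- the Euler product -/
theorem euler (X : Ideal (𝓞 E) →* ℂ) (hX : ∀ I, ‖X I‖ ≤ 1) (h0 : X ⊥ = 0) (s : ℂ)
    (hs : 1 < s.re) :
    Summable (fun I : Ideal (𝓞 E) => ‖X I * (Ideal.absNorm I : ℂ) ^ (-s)‖) ∧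
    Summable (fun v : Pr E =>
      ‖Complex.log (1 - X v.asIdeal * (Ideal.absNorm v.asIdeal : ℂ) ^ (-s))‖) ∧
    Complex.exp (∑' v : Pr E, -Complex.log (1 - X v.asIdeal * (Ideal.absNorm v.asIdeal : ℂ) ^ (-s))) =
      ∑' I : Ideal (𝓞 E), X I * (Ideal.absNorm I : ℂ) ^ (-s) := by
  have h1 : Summable fun I => ‖tw X s I‖ :=
    Summable.of_nonneg_of_le (fun _ => norm_nonneg _) (norm_tw_le X hX h0 s)
      (hasSum_w E s.re hs).summable
  refine ⟨h1, euler_gen (tw X s) h1 ?_ fun v hv => ?_⟩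
  · change X ⊥ * _ = 0
    rw [h0, zero_mul]
  · have h2 := (norm_tw_le X hX h0 s v.asIdeal).trans (w_le_half E v.prime hs)
    rw [hv, norm_one] at h2
    norm_num at h2

theorem finite_norm_le (x : ℝ) : {v : Pr E | (Ideal.absNorm v.asIdeal : ℝ) ≤ x}.Finite := by
  refine ((Ideal.finite_setOfPred_absNorm_le (S := 𝓞 E) ⌈x⌉₊).preimage inj.injOn).subset ?_
  intro v hv
  have h1 : (Ideal.absNorm v.asIdeal : ℝ) ≤ ⌈x⌉₊ := le_trans hv (Nat.le_ceil x)
  exact_mod_cast h1

lemma EulerAux.two_le' (v : Pr E) : (2 : ℝ) ≤ Ideal.absNorm v.asIdeal := by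
  exact_mod_cast two_le v

lemma EulerAux.exp_lam (v : Pr E) : Real.exp (lam v) = Ideal.absNorm v.asIdeal :=
  Real.exp_log (by linarith [two_le' v])

theorem finite_lam_le (x : ℝ) : {v : Pr E | lam v ≤ x}.Finite := by
  refine (finite_norm_le (Real.exp x)).subset fun v hv => ?_
  change (Ideal.absNorm v.asIdeal : ℝ) ≤ _
  rw [← exp_lam]
  exact Real.exp_le_exp.2 hv

lemma EulerAux.lam_pos' (v : Pr E) : 0 < lam v := Real.log_pos (by linarith [two_le' v])

theorem wt_nonneg (v : Pr E) : 0 ≤ wt v := by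
  unfold wt
  split_ifs
  · exact div_nonneg (lam_pos' v).le (Nat.cast_nonneg _)
  · exact le_rfl

theorem lam_pos (v : Pr E) : 0 < lam v := lam_pos' v

/-- Chebyshev bound for primes of degree one -/
theorem cheb_wt : ∃ C : ℝ, ∀ (x : ℝ) (s : Finset (Pr E)),
    (∀ v ∈ s, x ≤ lam v ∧ lam v ≤ x + 1) → ∑ v ∈ s, wt v ≤ C := by
  classical
  refine ⟨Module.finrank ℤ (𝓞 E) * (Real.log 4 * Real.exp 1), fun x s hs => ?_⟩
  have h1 : ∑ v ∈ s, wt v = ∑ v ∈ s.filter Deg1, lam v / Ideal.absNorm v.asIdeal := by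
    rw [Finset.sum_filter]
    refine Finset.sum_congr rfl fun v _ => ?_
    unfold wt
    congr
  have h2 : ∑ v ∈ s.filter Deg1, lam v / Ideal.absNorm v.asIdeal ≤
      ∑ v ∈ s.filter Deg1, Real.log (below v) * Real.exp (-x) := by
    refine Finset.sum_le_sum fun v hv => ?_
    obtain ⟨h3, h4⟩ := Finset.mem_filter.1 hv
    rw [below_eq h4, ← exp_lam, Real.log_exp, div_eq_mul_inv, ← Real.exp_neg]
    exact mul_le_mul_of_nonneg_left (Real.exp_le_exp.2 (neg_le_neg (hs v h3).1)) (lam_pos v).le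
  have h3 := sum_below_le (s.filter Deg1) (fun n => Real.log n * Real.exp (-x))
    (fun n => mul_nonneg (Real.log_natCast_nonneg n) (Real.exp_pos _).le)
    ((Finset.Ioc 0 ⌊Real.exp (x + 1)⌋₊).filter Nat.Prime) (fun v hv => by
      obtain ⟨h3, h4⟩ := Finset.mem_filter.1 hv
      refine Finset.mem_filter.2 ⟨Finset.mem_Ioc.2 ⟨(below_prime v).pos, ?_⟩, below_prime v⟩
      rw [Nat.le_floor_iff (Real.exp_pos _).le, below_eq h4, ← exp_lam]
      exact Real.exp_le_exp.2 (hs v h3).2)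
  have h4 := Chebyshev.theta_le_log4_mul_x (Real.exp_pos (x + 1)).le
  unfold Chebyshev.theta at h4
  have h5 : (∑ p ∈ (Finset.Ioc 0 ⌊Real.exp (x + 1)⌋₊).filter Nat.Prime, Real.log p) *
      Real.exp (-x) ≤ Real.log 4 * Real.exp 1 := by
    refine (mul_le_mul_of_nonneg_right h4 (Real.exp_pos _).le).trans (le_of_eq ?_)
    rw [mul_assoc, ← Real.exp_add]
    congr 2
    ring
  rw [h1]
  refine h2.trans ?_
  rw [Finset.sum_mul] at h5
  exact h3.trans (mul_le_mul_of_nonneg_left h5 (Nat.cast_nonneg _))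

/-- primes of higher degree are negligible -/
theorem summable_higher :
    Summable fun v : {v : Pr E // ¬Deg1 v} => lam v.1 / (Ideal.absNorm v.1.asIdeal : ℝ) := by
  classical
  have hsum : Summable fun n : ℕ => 4 * (n : ℝ) ^ (-(3 / 2) : ℝ) :=
    (Real.summable_nat_rpow.2 (by norm_num)).mul_left 4
  refine summable_of_sum_le (c := Module.finrank ℤ (𝓞 E) * ∑' n : ℕ, 4 * (n : ℝ) ^ (-(3 / 2) : ℝ))
    (fun v => div_nonneg (lam_pos v.1).le (Nat.cast_nonneg _)) fun T => ?_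
  have h1 : ∑ v ∈ T, lam v.1 / (Ideal.absNorm v.1.asIdeal : ℝ) ≤
      ∑ v ∈ T, 4 * (below v.1 : ℝ) ^ (-(3 / 2) : ℝ) := by
    refine Finset.sum_le_sum fun v _ => ?_
    have hN : (0 : ℝ) < Ideal.absNorm v.1.asIdeal := by linarith [two_le' v.1]
    have hq : (0 : ℝ) < below v.1 := by exact_mod_cast (below_prime v.1).pos
    have h2 : lam v.1 ≤ (Ideal.absNorm v.1.asIdeal : ℝ) ^ (1 / 4 : ℝ) / (1 / 4) :=
      Real.log_le_rpow_div hN.le (by norm_num)
    have h3 : (below v.1 : ℝ) ^ 2 ≤ Ideal.absNorm v.1.asIdeal := by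
      exact_mod_cast below_sq_le v.2
    have h4 : (Ideal.absNorm v.1.asIdeal : ℝ) ^ (-(3 / 4) : ℝ) ≤
        ((below v.1 : ℝ) ^ 2) ^ (-(3 / 4) : ℝ) :=
      Real.rpow_le_rpow_of_nonpos (by positivity) h3 (by norm_num)
    have h5 : ((below v.1 : ℝ) ^ 2) ^ (-(3 / 4) : ℝ) = (below v.1 : ℝ) ^ (-(3 / 2) : ℝ) := by
      rw [← Real.rpow_natCast, ← Real.rpow_mul hq.le]
      norm_num
    have h6 : (Ideal.absNorm v.1.asIdeal : ℝ) ^ (1 / 4 : ℝ) / Ideal.absNorm v.1.asIdeal =
        (Ideal.absNorm v.1.asIdeal : ℝ) ^ (-(3 / 4) : ℝ) := by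
      rw [← Real.rpow_sub_one hN.ne']
      norm_num
    calc lam v.1 / (Ideal.absNorm v.1.asIdeal : ℝ)
        ≤ ((Ideal.absNorm v.1.asIdeal : ℝ) ^ (1 / 4 : ℝ) / (1 / 4)) / Ideal.absNorm v.1.asIdeal :=
          div_le_div_of_nonneg_right h2 hN.le
      _ = 4 * ((Ideal.absNorm v.1.asIdeal : ℝ) ^ (1 / 4 : ℝ) / Ideal.absNorm v.1.asIdeal) := by
          ring
      _ ≤ _ := by rw [h6, ← h5]; linarith
  refine h1.trans ?_
  have h2 := sum_below_le (T.image Subtype.val) (fun n => 4 * (n : ℝ) ^ (-(3 / 2) : ℝ))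
    (fun n => by positivity) ((T.image Subtype.val).image below)
    (fun v hv => Finset.mem_image_of_mem _ hv)
  rw [Finset.sum_image (fun a _ b _ h => Subtype.ext h)] at h2
  refine h2.trans (mul_le_mul_of_nonneg_left ?_ (Nat.cast_nonneg _))
  exact hsum.sum_le_tsum _ fun n _ => by positivity

namespace EulerAux

lemma tent_nonneg (u : ℝ) : 0 ≤ tent u := le_max_left _ _

lemma summable_tent (u : ℝ) : Summable fun v : Pr E => wt v * tent (lam v - u) := by
  refine summable_of_hasFiniteSupport ((finite_lam_le (u + 1)).subset fun v hv => ?_)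
  by_contra hc
  refine hv ?_
  have h1 : u + 1 < lam v := not_le.1 hc
  have h2 : tent (lam v - u) = 0 := by
    unfold tent
    rw [abs_of_pos (by linarith)]
    exact max_eq_left (by linarith)
  simp only [h2, mul_zero]

open Classical in
lemma hasSum_deg1 (s : ℝ) (hs : 1 < s) :
    HasSum (fun v : Pr E => if Deg1 v then w E s v.asIdeal else 0) (D E s) := by
  have h := hasSum_D E s hs
  rw [← inj.hasSum_iff] at h
  · convert h using 2 with v
    simp only [Function.comp_apply, Deg1]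
    congr
  · intro I hI
    rw [if_neg]
    intro hp
    have h1 : Prime I := UniqueFactorizationMonoid.irreducible_iff_prime.mp
      (Ideal.irreducible_of_irreducible_absNorm hp)
    exact hI ⟨⟨I, Ideal.isPrime_of_prime h1, h1.ne_zero⟩, rfl⟩

open Classical in
lemma term_le (s : ℝ) (hs : 1 < s) (v : Pr E) (j : ℕ) (hj : ⌊lam v + 1 / 2⌋₊ = j + 2) :
    (if Deg1 v then w E s v.asIdeal else 0) ≤
      2 * (Real.exp (-(s - 1)) ^ (j + 1) / (j + 1)) * (wt v * tent (lam v - (j + 2 : ℕ))) := by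
  have hl := lam_pos v
  have h1 : ((j + 2 : ℕ) : ℝ) ≤ lam v + 1 / 2 := by
    rw [← hj]; exact Nat.floor_le (by linarith)
  have h2 : lam v + 1 / 2 < ((j + 2 : ℕ) : ℝ) + 1 := by
    rw [← hj]; exact Nat.lt_floor_add_one _
  have h3 : 1 / 2 ≤ tent (lam v - (j + 2 : ℕ)) := by
    refine le_max_of_le_right ?_
    have : |lam v - (j + 2 : ℕ)| ≤ 1 / 2 := abs_le.2 ⟨by linarith, by linarith⟩
    linarith
  unfold wt
  split_ifs
  · push_cast at h1 h2
    have hN : (0 : ℝ) < Ideal.absNorm v.asIdeal := by linarith [two_le' v]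
    have hj1 : (0 : ℝ) < j + 1 := by positivity
    have h4 : w E s v.asIdeal = Real.exp (-(s - 1) * lam v) / Ideal.absNorm v.asIdeal := by
      unfold w
      rw [Real.rpow_def_of_pos hN, eq_div_iff hN.ne']
      conv_lhs => rw [← exp_lam, Real.log_exp, ← Real.exp_add]
      congr 1
      ring
    have h5 : Real.exp (-(s - 1) * lam v) ≤ Real.exp (-(s - 1)) ^ (j + 1) := by
      rw [← Real.exp_nat_mul, Real.exp_le_exp]
      push_cast
      nlinarith
    have h6 : 1 ≤ lam v / (j + 1) := by rw [le_div_iff₀ hj1]; linarith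
    have h7 : 0 < Real.exp (-(s - 1)) ^ (j + 1) := by positivity
    rw [h4]
    calc Real.exp (-(s - 1) * lam v) / Ideal.absNorm v.asIdeal
        ≤ Real.exp (-(s - 1)) ^ (j + 1) / Ideal.absNorm v.asIdeal * 1 * (2 * (1 / 2)) := by
          rw [mul_one, show (2 : ℝ) * (1 / 2) = 1 by norm_num, mul_one]
          exact div_le_div_of_nonneg_right h5 hN.le
      _ ≤ Real.exp (-(s - 1)) ^ (j + 1) / Ideal.absNorm v.asIdeal * (lam v / (j + 1)) *
            (2 * tent (lam v - (j + 2 : ℕ))) := by gcongr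
      _ = _ := by ring
  · simp

lemma D_upper (k : ℕ) (hk : ∀ u : ℝ, (k : ℝ) ≤ u →
      ∑' v : Pr E, wt v * tent (lam v - u) ≤ 1 / 4) (s : ℝ) (hs : 1 < s) :
    D E s ≤ (finite_lam_le (E := E) (k + 2)).toFinset.card +
      1 / 2 * -Real.log (1 - Real.exp (-(s - 1))) := by
  classical
  set r := Real.exp (-(s - 1)) with hr
  have hr0 : 0 < r := Real.exp_pos _
  have hr1 : r < 1 := Real.exp_lt_one_iff.2 (by linarith)
  have hlog := Real.hasSum_pow_div_log_of_abs_lt_one (x := r) (by rwa [abs_of_pos hr0])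
  refine hasSum_le_of_sum_le (hasSum_deg1 s hs) fun T => ?_
  rw [← Finset.sum_filter_add_sum_filter_not T (fun v => lam v ≤ k + 2)]
  refine add_le_add ?_ ?_
  · calc ∑ v ∈ T with lam v ≤ k + 2, (if Deg1 v then w E s v.asIdeal else 0)
        ≤ ∑ v ∈ T with lam v ≤ k + 2, (1 : ℝ) := by
          refine Finset.sum_le_sum fun v _ => ?_
          split_ifs
          · linarith [w_le_half E v.prime hs]
          · norm_num
      _ ≤ _ := by
          rw [Finset.sum_const, nsmul_eq_mul, mul_one, Nat.cast_le]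
          refine Finset.card_le_card fun v hv => ?_
          exact (finite_lam_le _).mem_toFinset.2 (Finset.mem_filter.1 hv).2
  · set U := T.filter (fun v => ¬lam v ≤ k + 2) with hU
    let g : Pr E → ℕ := fun v => ⌊lam v + 1 / 2⌋₊ - 2
    have hg : ∀ v ∈ U, ⌊lam v + 1 / 2⌋₊ = g v + 2 ∧ k ≤ g v := by
      intro v hv
      have h1 : (k : ℝ) + 2 < lam v := not_le.1 (Finset.mem_filter.1 hv).2
      have h2 : k + 2 ≤ ⌊lam v + 1 / 2⌋₊ := Nat.le_floor (by push_cast; linarith)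
      simp only [g]
      omega
    rw [← Finset.sum_fiberwise_of_maps_to (fun v hv => Finset.mem_image_of_mem g hv)]
    calc ∑ j ∈ U.image g, ∑ v ∈ U with g v = j, (if Deg1 v then w E s v.asIdeal else 0)
        ≤ ∑ j ∈ U.image g, 1 / 2 * (r ^ (j + 1) / (j + 1)) := by
          refine Finset.sum_le_sum fun j hj => ?_
          obtain ⟨v₀, hv₀, hj₀⟩ := Finset.mem_image.1 hj
          have hkj : k ≤ j := hj₀ ▸ (hg v₀ hv₀).2
          have h1 := hk ((j + 2 : ℕ) : ℝ) (by exact_mod_cast hkj.trans (Nat.le_add_right j 2))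
          have h2 := (summable_tent (E := E) ((j + 2 : ℕ) : ℝ)).sum_le_tsum (U.filter (g · = j))
            fun v _ => mul_nonneg (wt_nonneg v) (tent_nonneg _)
          have h3 : 0 ≤ r ^ (j + 1) / (j + 1) := by positivity
          calc ∑ v ∈ U with g v = j, (if Deg1 v then w E s v.asIdeal else 0)
              ≤ ∑ v ∈ U with g v = j,
                  2 * (r ^ (j + 1) / (j + 1)) * (wt v * tent (lam v - (j + 2 : ℕ))) := by
                refine Finset.sum_le_sum fun v hv => ?_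
                obtain ⟨h4, h5⟩ := Finset.mem_filter.1 hv
                exact term_le s hs v j (h5 ▸ (hg v h4).1)
            _ ≤ _ := by
                rw [← Finset.mul_sum]
                nlinarith
      _ ≤ _ := by
          rw [← Finset.mul_sum]
          refine mul_le_mul_of_nonneg_left ?_ (by norm_num)
          exact sum_le_hasSum _ (fun j _ => by positivity) hlog

end EulerAux

/-- primes of degree one have positive density at arbitrarily large scales -/
theorem scale : ∃ c : ℝ, 0 < c ∧ ∃ᶠ u : ℝ in atTop, c ≤ ∑' v : Pr E, wt v * tent (lam v - u) := by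
  refine ⟨1 / 4, by norm_num, ?_⟩
  by_contra hc
  rw [not_frequently] at hc
  obtain ⟨u₀, hu₀⟩ := eventually_atTop.1 hc
  have hk : ∀ u : ℝ, ((⌈u₀⌉₊ : ℕ) : ℝ) ≤ u → ∑' v : Pr E, wt v * tent (lam v - u) ≤ 1 / 4 :=
    fun u hu => (not_le.1 (hu₀ u ((Nat.le_ceil u₀).trans hu))).le
  obtain ⟨B, hB⟩ := (D_asymp E).bound
  obtain ⟨C, hC⟩ : ∃ C : ℝ, C = (finite_lam_le (E := E) (⌈u₀⌉₊ + 2)).toFinset.card := ⟨_, rfl⟩
  have h1 : Tendsto (fun s : ℝ => Real.log (s - 1)) (𝓝[>] 1) atBot := by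
    refine Real.tendsto_log_nhdsGT_zero.comp ?_
    refine tendsto_nhdsWithin_iff.2 ⟨?_, ?_⟩
    · have : Tendsto (fun s : ℝ => s - 1) (𝓝 1) (𝓝 (1 - 1)) :=
        tendsto_id.sub tendsto_const_nhds
      rw [sub_self] at this
      exact this.mono_left nhdsWithin_le_nhds
    · filter_upwards [self_mem_nhdsWithin] with s hs
      exact Set.mem_Ioi.2 (sub_pos.2 (Set.mem_Ioi.1 hs))
  have h2 := h1.eventually (eventually_lt_atBot (-2 * B - 2 * C - Real.log 2))
  have h3 : ∀ᶠ s in 𝓝[>] (1 : ℝ), s ∈ Set.Ioo 1 2 := Ioo_mem_nhdsGT (by norm_num)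
  obtain ⟨s, ⟨h4, h5⟩, h6, h7⟩ := ((hB.and h2).and h3).exists
  have h8 := D_upper ⌈u₀⌉₊ hk s h6
  rw [← hC] at h8
  have h9 : (s - 1) / 2 ≤ 1 - Real.exp (-(s - 1)) := by
    have h10 := Real.add_one_le_exp (s - 1)
    have h11 : Real.exp (-(s - 1)) ≤ 1 / s := by
      rw [Real.exp_neg, one_div]
      exact inv_anti₀ (by linarith) (by linarith)
    have h12 : 1 / s ≤ 1 - (s - 1) / 2 := by
      rw [div_le_iff₀ (by linarith)]
      nlinarith
    linarith
  have h10 : Real.log (s - 1) - Real.log 2 ≤ Real.log (1 - Real.exp (-(s - 1))) := by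
    rw [← Real.log_div (by linarith) (by norm_num)]
    exact Real.log_le_log (by linarith) h9
  simp only [Real.norm_eq_abs, abs_one, mul_one] at h4
  have h11 := (abs_le.1 h4).1
  linarith

end Pool.Agent.MP_14ad9d_nt.Full
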