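import Pool.Agent.MP_14ad9d_nt.Full.AddK2
import Pool.Agent.MP_14ad9d_nt.Full.Euler

set_option autoImplicit false

open NumberField Filter Topology

namespace Pool.Agent.MP_14ad9d_nt.Full.AddKAux

/-- the data used to build the weights -/
structure Dat (F K : Type) [Field F] [NumberField F] [Field K] [NumberField K] where
  L : Set ((F →+* ℂ) → ℂ)
  ω : ((F →+* ℂ) → ℂ) → ℝ
  R : ℝ
  A : ℝ → Finset (𝓞 F)
  V : ℝ → Finset (Pr K)
  R1 : 1 ≤ R
  hR : ∀ y ∈ L, |lnN y| ≤ R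
  ω01 : ∀ y, 0 ≤ ω y ∧ ω y ≤ 1
  ω0 : ∀ y ∈ RZ F, y ∉ L → ω y = 0
  hA : ∀ X, 0 < X → ∀ a, a ∈ A X ↔ X⁻¹ • emb (a : F) ∈ L
  hV : ∀ X v, v ∈ V X ↔ lam v ≤ R + Module.finrank ℚ F * Real.log X

variable {F K : Type} [Field F] [NumberField F] [Field K] [NumberField K] [Algebra F K]
  (D : Dat F K) (l M : ℕ) (B : Ideal (𝓞 K)) (θ : 𝓞 K)

open Classical in
/-- the weight function -/
noncomputable def Dat.f (X : ℝ) : 𝓞 F →₀ ℝ :=
  Finsupp.onFinset (D.A X) (fun a => if a ∈ D.A X then D.ω (X⁻¹ • emb (a : F)) *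
    ∑ v ∈ D.V X, (if Deg1 v ∧ a ∈ NSet F l M B θ v then lam v else 0) else 0)
    fun _ h => by
      by_contra c
      exact h (if_neg c)

variable {D l M B θ} {X : ℝ} {a : 𝓞 F} {v : Pr K}

open Classical in
theorem Dat.f_apply : D.f l M B θ X a = if a ∈ D.A X then D.ω (X⁻¹ • emb (a : F)) *
    ∑ v ∈ D.V X, (if Deg1 v ∧ a ∈ NSet F l M B θ v then lam v else 0) else 0 := rfl

open Classical in
theorem Dat.f_sum {N : Type} [AddCommMonoid N] (g : 𝓞 F → ℝ → N) (hg : ∀ a, g a 0 = 0) :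
    (D.f l M B θ X).sum g = ∑ a ∈ D.A X, g a (D.ω (X⁻¹ • emb (a : F)) *
      ∑ v ∈ D.V X, (if Deg1 v ∧ a ∈ NSet F l M B θ v then lam v else 0)) := by
  rw [Dat.f, Finsupp.onFinset_sum _ hg]
  exact Finset.sum_congr rfl fun a ha => by rw [if_pos ha]

theorem Dat.f_nonneg : 0 ≤ D.f l M B θ X a := by
  rw [Dat.f_apply]
  split_ifs
  · refine mul_nonneg (D.ω01 _).1 (Finset.sum_nonneg fun v _ => ?_)
    split_ifs
    exacts [(lam_pos v).le, le_rfl]
  · exact le_rfl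

theorem Dat.f_ne (h : D.f l M B θ X a ≠ 0) :
    a ∈ D.A X ∧ ∃ v, Deg1 v ∧ a ∈ NSet F l M B θ v := by
  rw [Dat.f_apply] at h
  split_ifs at h with c
  · obtain ⟨v, -, hv⟩ := Finset.exists_ne_zero_of_sum_ne_zero (right_ne_zero_of_mul h)
    exact ⟨c, v, by by_contra e; exact hv (if_neg e)⟩
  · exact absurd rfl h

theorem log_nonneg (l : ℕ) (B : Ideal (𝓞 K)) : 0 ≤ (l : ℝ) * Real.log (Ideal.absNorm B) :=
  mul_nonneg l.cast_nonneg (Real.log_natCast_nonneg _)

theorem Dat.mem_V (hB : B ≠ ⊥) (hX : 0 < X) (ha : a ∈ D.A X) (hv : a ∈ NSet F l M B θ v) :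
    v ∈ D.V X := by
  have h1 := (abs_le.1 (D.hR _ ((D.hA X hX a).1 ha))).2
  rw [nset_lnN hB hv hX] at h1
  rw [D.hV]
  linarith [log_nonneg l B]

theorem Dat.large (D : Dat F K) (hd : 2 ≤ Module.finrank ℚ F) (l M : ℕ) (hB : B ≠ ⊥) :
    ∀ᶠ X : ℝ in atTop, ∀ θ a v, a ∈ D.A X → a ∈ NSet F l M B θ v →
      X ≤ Ideal.absNorm v.asIdeal := by
  filter_upwards [eventually_ge_atTop (1 : ℝ),
    Real.tendsto_log_atTop.eventually_ge_atTop (D.R + l * Real.log (Ideal.absNorm B))]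
    with X h1 h2 θ a v ha hv
  have hX : 0 < X := by linarith
  have h3 := (abs_le.1 (D.hR _ ((D.hA X hX a).1 ha))).1
  rw [nset_lnN hB hv hX] at h3
  have h4 : (2 : ℝ) ≤ Module.finrank ℚ F := by exact_mod_cast hd
  refine (Real.log_le_log_iff hX (norm_pos v.ne_bot)).1 ?_
  have h5 := Real.log_nonneg h1
  change _ ≤ lam v
  nlinarith

theorem Dat.f_le (D : Dat F K) (l M : ℕ) (hB : B ≠ ⊥) : ∀ᶠ X : ℝ in atTop, ∀ θ a,
    D.f l M B θ X a ≤ Module.finrank ℚ K * (Module.finrank ℚ F + 1) * Real.log X := by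
  classical
  filter_upwards [Real.tendsto_log_atTop.eventually_ge_atTop D.R] with X h2 θ a
  have h0 : 0 ≤ Real.log X := by linarith [D.R1]
  rw [Dat.f_apply]
  split_ifs
  swap
  · positivity
  rw [← Finset.sum_filter]
  set s := (D.V X).filter fun v => Deg1 v ∧ a ∈ NSet F l M B θ v
  have h3 : s.card ≤ Module.finrank ℚ K := by
    rcases s.eq_empty_or_nonempty with e | ⟨w, hw⟩
    · simp [e]
    · refine card_le (Finset.mem_filter.1 hw).2.1 s fun v hv => ?_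
      have e := (nset_norm (Finset.mem_filter.1 hv).2.2).symm.trans
        (nset_norm (Finset.mem_filter.1 hw).2.2)
      exact Nat.eq_of_mul_eq_mul_right (pow_pos (Nat.cast_pos.1 (norm_pos hB)) l) e
  have h4 := Finset.sum_le_card_nsmul s lam ((Module.finrank ℚ F + 1) * Real.log X)
    fun v hv => by linarith [(D.hV X v).1 (Finset.mem_filter.1 hv).1]
  have h5 : 0 ≤ ∑ v ∈ s, lam v := Finset.sum_nonneg fun v _ => (lam_pos v).le
  rw [nsmul_eq_mul] at h4
  calc _ ≤ ∑ v ∈ s, lam v := mul_le_of_le_one_left h5 (D.ω01 _).2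
    _ ≤ _ := h4
    _ ≤ _ := by
      rw [mul_assoc]
      gcongr

open Classical in
theorem Dat.mass (hB : B ≠ ⊥)
    (hω : ∀ X : ℝ, 0 < X → ∀ v, ∀ a ∈ NSet F l M B θ v, |lnN (X⁻¹ • emb (a : F))| ≤ 1 →
      ∃ a' ∈ NSet F l M B θ v, a' ∈ D.A X ∧ D.ω (X⁻¹ • emb (a' : F)) = 1) {c : ℝ}
    (h : ∃ᶠ u : ℝ in atTop, c ≤ ∑' v : Pr K,
      if ∃ π : 𝓞 K, Ideal.span {π} = v.asIdeal * B ^ l ∧ (M : 𝓞 K) ∣ π - θ then
        wt v * tent (lam v - u) else 0) :
    ∃ᶠ X : ℝ in atTop, c / (Real.exp 1 * Ideal.absNorm B ^ l) * X ^ Module.finrank ℚ F ≤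
      (D.f l M B θ X).sum fun _ x => x := by
  have hd : (0 : ℝ) < Module.finrank ℚ F := Nat.cast_pos.2 Module.finrank_pos
  have hN := norm_pos hB
  have ht : Tendsto (fun u : ℝ => Real.exp ((u + l * Real.log (Ideal.absNorm B)) /
      Module.finrank ℚ F)) atTop atTop :=
    Real.tendsto_exp_atTop.comp ((tendsto_atTop_add_const_right _ _ tendsto_id).atTop_div_const hd)
  refine ht.frequently (h.mono fun u hu => ?_)
  set X := Real.exp ((u + l * Real.log (Ideal.absNorm B)) / Module.finrank ℚ F) with hX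
  have X0 : 0 < X := Real.exp_pos _
  have lX : Module.finrank ℚ F * Real.log X = u + l * Real.log (Ideal.absNorm B) := by
    rw [hX, Real.log_exp, mul_div_cancel₀ _ hd.ne']
  have pX : X ^ Module.finrank ℚ F = Real.exp u * Ideal.absNorm B ^ l := by
    rw [← Real.exp_log (pow_pos X0 _), Real.log_pow, lX, Real.exp_add, ← Real.log_pow,
      Real.exp_log (pow_pos hN l)]
  have t0 : ∀ x : ℝ, 1 ≤ |x| → tent x = 0 := fun x hx => max_eq_left (by linarith)
  rw [tsum_eq_sum (s := D.V X) fun v hv => by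
    rw [D.hV, not_le, lX] at hv
    rw [t0 _ (le_abs.2 (Or.inl (by linarith [D.R1, log_nonneg l B]))), mul_zero,
      ite_self]] at hu
  rw [Dat.f_sum _ fun _ => rfl, pX, show c / (Real.exp 1 * Ideal.absNorm B ^ l) *
    (Real.exp u * Ideal.absNorm B ^ l) = c * Real.exp (u - 1) by
      rw [Real.exp_sub]; field_simp]
  simp only [Finset.mul_sum]
  rw [Finset.sum_comm]
  refine (mul_le_mul_of_nonneg_right hu (Real.exp_pos _).le).trans ?_
  rw [Finset.sum_mul]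
  refine Finset.sum_le_sum fun v _ => ?_
  have nn : ∀ a ∈ D.A X, 0 ≤ D.ω (X⁻¹ • emb (a : F)) *
      if Deg1 v ∧ a ∈ NSet F l M B θ v then lam v else 0 := fun a _ =>
    mul_nonneg (D.ω01 _).1 (by split_ifs; exacts [(lam_pos v).le, le_rfl])
  by_cases c1 : (∃ π : 𝓞 K, Ideal.span {π} = v.asIdeal * B ^ l ∧ (M : 𝓞 K) ∣ π - θ) ∧ Deg1 v ∧
      |lam v - u| < 1
  · obtain ⟨⟨π, h1, h2⟩, h3, h4⟩ := c1
    have m : RingOfIntegers.norm F π ∈ NSet F l M B θ v := ⟨π, h1, h2, rfl⟩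
    obtain ⟨a, a1, a2, a3⟩ := hω X X0 v _ m (by
      rw [nset_lnN hB m X0, lX, add_sub_add_right_eq_sub]
      exact h4.le)
    refine le_trans ?_ (Finset.single_le_sum nn a2)
    rw [if_pos ⟨π, h1, h2⟩, if_pos ⟨h3, a1⟩, a3, one_mul, wt, if_pos h3]
    have h5 : Real.exp (u - 1) ≤ Ideal.absNorm v.asIdeal := by
      rw [← Real.exp_log (norm_pos v.ne_bot)]
      exact Real.exp_le_exp.2 (by change _ ≤ lam v; linarith [(abs_lt.1 h4).1])
    have h6 : tent (lam v - u) ≤ 1 := max_le zero_le_one (by linarith [abs_nonneg (lam v - u)])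
    have h7 : 0 ≤ tent (lam v - u) := le_max_left _ _
    have h8 := lam_pos v
    have h9 := norm_pos v.ne_bot
    calc _ ≤ lam v / Ideal.absNorm v.asIdeal * 1 * Ideal.absNorm v.asIdeal := by gcongr
      _ = _ := by field_simp
  · refine le_trans (le_of_eq ?_) (Finset.sum_nonneg nn)
    split_ifs with c2
    · by_cases c3 : Deg1 v
      · rw [t0 _ (not_lt.1 fun e => c1 ⟨c2, c3, e⟩), mul_zero, zero_mul]
      · rw [wt, if_neg c3, zero_mul, zero_mul]
    · exact zero_mul _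

open Classical in
theorem Dat.equi (hB : B ≠ ⊥) (hX : 0 < X) (P : 𝓞 F → Prop) (g : ((F →+* ℂ) → ℂ) → ℂ) :
    ∃ T : Pr K → ℂ, (∀ v, T v = ∑ᶠ a ∈ NSet F l M B θ v, if P a then
      (D.ω (X⁻¹ • emb (a : F)) * g (X⁻¹ • emb (a : F)) * Real.exp (lnN (X⁻¹ • emb (a : F))) /
        (Ideal.absNorm B : ℂ) ^ l : ℂ) else 0) ∧ (∀ v ∉ D.V X, T v = 0) ∧
      ((D.f l M B θ X).sum fun a x => if P a then (x : ℂ) * g (X⁻¹ • emb (a : F)) else 0) /
        (X : ℂ) ^ Module.finrank ℚ F = ∑ v ∈ D.V X, wt v * T v := by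
  refine ⟨fun v => ∑ a ∈ (D.A X).filter (· ∈ NSet F l M B θ v), if P a then
      (D.ω (X⁻¹ • emb (a : F)) * g (X⁻¹ • emb (a : F)) * Real.exp (lnN (X⁻¹ • emb (a : F))) /
        (Ideal.absNorm B : ℂ) ^ l : ℂ) else 0, fun v => ?_, fun v hv => ?_, ?_⟩
  · refine (finsum_mem_eq_sum_of_inter_support_eq _ ?_).symm
    ext a
    simp only [Set.mem_inter_iff, Finset.coe_filter, Set.mem_ofPred_eq, and_congr_left_iff,
      iff_and_self]
    intro h1 h2
    by_contra c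
    rw [D.hA X hX] at c
    simp [D.ω0 _ (nset_RZ hB h2 hX) c] at h1
  · exact Finset.sum_eq_zero fun a ha =>
      absurd (D.mem_V hB hX (Finset.mem_filter.1 ha).1 (Finset.mem_filter.1 ha).2) hv
  · rw [Dat.f_sum _ fun _ => by simp]
    simp only [Finset.sum_filter, Finset.mul_sum]
    rw [Finset.sum_comm, Finset.sum_div]
    refine Finset.sum_congr rfl fun a _ => ?_
    by_cases c : P a
    · simp only [if_pos c, Complex.ofReal_sum, Finset.sum_mul, Finset.sum_div]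
      refine Finset.sum_congr rfl fun v _ => ?_
      by_cases c1 : a ∈ NSet F l M B θ v
      · by_cases c2 : Deg1 v
        · have hN := norm_pos hB
          have hv := norm_pos v.ne_bot
          have e : Real.exp (lnN (X⁻¹ • emb (a : F))) =
              Ideal.absNorm v.asIdeal * Ideal.absNorm B ^ l / X ^ Module.finrank ℚ F := by
            rw [nset_lnN hB c1 hX, Real.exp_sub, Real.exp_add, ← Real.log_pow, ← Real.log_pow,
              Real.exp_log (pow_pos hN l), Real.exp_log (pow_pos hX _), lam, Real.exp_log hv]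
          have hN' : (Ideal.absNorm B : ℂ) ≠ 0 := by exact_mod_cast hN.ne'
          have hv' : (Ideal.absNorm v.asIdeal : ℂ) ≠ 0 := by exact_mod_cast hv.ne'
          have hX' : (X : ℂ) ≠ 0 := by exact_mod_cast hX.ne'
          rw [if_pos ⟨c2, c1⟩, if_pos c1, wt, if_pos c2, e]
          push_cast
          field_simp
        · simp [wt, c2]
      · simp [c1]
    · simp [c]

end Pool.Agent.MP_14ad9d_nt.Full.AddKAux
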