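import Pool.Agent.MP_14ad9d_nt.Full.WA

set_option autoImplicit false
set_option linter.unusedSectionVars false

open NumberField IsDedekindDomain

namespace Pool.Agent.MP_14ad9d_nt.Full.DLAux

variable {E : Type} [Field E] [NumberField E]

open Classical in
/-- the exponent of a prime in an ideal -/
noncomputable def cnt (v : Pr E) (I : Ideal (𝓞 E)) : ℕ :=
  (Associates.mk v.asIdeal).count (Associates.mk I).factors

theorem cnt_mul (v : Pr E) {I J : Ideal (𝓞 E)} (hI : I ≠ ⊥) (hJ : J ≠ ⊥) :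
    cnt v (I * J) = cnt v I + cnt v J := by
  unfold cnt
  rw [← Associates.mk_mul_mk, Associates.count_mul (Associates.mk_ne_zero.2 hI)
    (Associates.mk_ne_zero.2 hJ) v.associates_irreducible]

theorem cnt_ne_zero (v : Pr E) {I : Ideal (𝓞 E)} (hI : I ≠ ⊥) :
    cnt v I ≠ 0 ↔ I ≤ v.asIdeal := by
  unfold cnt
  rw [Associates.count_ne_zero_iff_dvd hI v.irreducible, Ideal.dvd_iff_le]

theorem cnt_top (v : Pr E) : cnt v (⊤ : Ideal (𝓞 E)) = 0 := by
  by_contra h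
  exact v.isPrime.ne_top (top_le_iff.1 ((cnt_ne_zero v top_ne_bot).1 h))

theorem cnt_pow (v : Pr E) {I : Ideal (𝓞 E)} (hI : I ≠ ⊥) (n : ℕ) :
    cnt v (I ^ n) = n * cnt v I := by
  induction n with
  | zero => rw [pow_zero, Ideal.one_eq_top, cnt_top, zero_mul]
  | succ n ih => rw [pow_succ, cnt_mul v (pow_ne_zero n hI) hI, ih]; ring

open Classical in
theorem cnt_prime (w v : Pr E) : cnt w v.asIdeal = if w = v then 1 else 0 := by
  unfold cnt
  split_ifs with e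
  · rw [e, Associates.count_self v.associates_irreducible]
  · exact Associates.count_eq_zero_of_ne w.associates_irreducible v.associates_irreducible
      fun e' => e (HeightOneSpectrum.ext (associated_iff_eq.1
        (Associates.mk_eq_mk_iff_associated.1 e')))

theorem cnt_finite {I : Ideal (𝓞 E)} (hI : I ≠ ⊥) : {v : Pr E | cnt v I ≠ 0}.Finite :=
  (Ideal.finite_factors hI).subset fun v hv => Ideal.dvd_iff_le.2 ((cnt_ne_zero v hI).1 hv)

theorem ord_eq_cnt (v : Pr E) {a : 𝓞 E} (ha : a ≠ 0) :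
    ord v (a : E) = cnt v (Ideal.span {a}) := by
  rw [ord, show v.valuation E (a : E) = _ from v.valuation_of_algebraMap a,
    v.intValuation_if_neg ha, WithZero.log_exp, neg_neg]
  rfl

theorem span_ne {a : 𝓞 E} (ha : a ≠ 0) : Ideal.span {a} ≠ ⊥ := by simpa using ha

/-- an ideal all of whose exponents are divisible by `l` is an `l`-th power -/
theorem exists_pow {I : Ideal (𝓞 E)} (hI : I ≠ ⊥) (l : ℕ) (h : ∀ v : Pr E, l ∣ cnt v I) :
    ∃ C : Ideal (𝓞 E), I = C ^ l := by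
  classical
  obtain ⟨b, hb⟩ := Associates.is_pow_of_dvd_count (a := Associates.mk I)
    (Associates.mk_ne_zero.2 hI) (k := l) (fun p hp => by
      obtain ⟨P, rfl⟩ := Associates.mk_surjective p
      have hP : Prime P := (Associates.irreducible_mk.1 hp).prime
      exact h ⟨P, Ideal.isPrime_of_prime hP, hP.ne_zero⟩)
  obtain ⟨C, rfl⟩ := Associates.mk_surjective b
  exact ⟨C, associated_iff_eq.1 (Associates.mk_eq_mk_iff_associated.1
    (hb.trans (Associates.mk_pow C l).symm))⟩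

theorem coprime_iff {I J : Ideal (𝓞 E)} (hJ : J ≠ ⊥) :
    IsCoprime I J ↔ ∀ v : Pr E, J ≤ v.asIdeal → ¬I ≤ v.asIdeal := by
  rw [Ideal.isCoprime_iff_sup_eq]
  refine ⟨fun h v h1 h2 => v.isPrime.ne_top (top_le_iff.1 (h ▸ sup_le h2 h1)), fun h => ?_⟩
  by_contra h'
  obtain ⟨q, hq, hle⟩ := Ideal.exists_le_maximal _ h'
  have l2 : J ≤ q := le_sup_right.trans hle
  exact h ⟨q, hq.isPrime, fun e => hJ (le_bot_iff.1 (e ▸ l2))⟩ l2 (le_sup_left.trans hle)

theorem coprime_prime {J : Ideal (𝓞 E)} (hJ : J ≠ ⊥) (v : Pr E) :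
    IsCoprime v.asIdeal J ↔ ¬J ≤ v.asIdeal := by
  rw [coprime_iff hJ]
  refine ⟨fun h h1 => h v h1 le_rfl, fun h w h1 h2 => h ?_⟩
  rwa [v.isMaximal.eq_of_le w.isPrime.ne_top h2]

section deg

variable {V : Type} [AddCommGroup V] (ψ : Pr E → V)

/-- the additive extension to ideals -/
noncomputable def deg (I : Ideal (𝓞 E)) : V := ∑ᶠ v, cnt v I • ψ v

theorem supp_fin {I : Ideal (𝓞 E)} (hI : I ≠ ⊥) :
    (Function.support fun v => cnt v I • ψ v).Finite :=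
  (cnt_finite hI).subset fun v hv h => hv (by simp [h])

theorem deg_mul {I J : Ideal (𝓞 E)} (hI : I ≠ ⊥) (hJ : J ≠ ⊥) :
    deg ψ (I * J) = deg ψ I + deg ψ J := by
  unfold deg
  rw [← finsum_add_distrib (supp_fin ψ hI) (supp_fin ψ hJ)]
  exact finsum_congr fun v => by rw [cnt_mul v hI hJ, add_smul]

theorem deg_top : deg ψ (⊤ : Ideal (𝓞 E)) = 0 := by
  simp [deg, cnt_top]

theorem deg_pow {I : Ideal (𝓞 E)} (hI : I ≠ ⊥) (n : ℕ) : deg ψ (I ^ n) = n • deg ψ I := by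
  induction n with
  | zero => rw [pow_zero, Ideal.one_eq_top, deg_top, zero_smul]
  | succ n ih => rw [pow_succ, deg_mul ψ (pow_ne_zero n hI) hI, ih, succ_nsmul]

theorem deg_prime (v : Pr E) : deg ψ v.asIdeal = ψ v := by
  unfold deg
  rw [finsum_eq_single _ v fun w hw => by rw [cnt_prime, if_neg hw, zero_smul], cnt_prime,
    if_pos rfl, one_smul]

theorem deg_span {a : 𝓞 E} (ha : a ≠ 0) :
    deg ψ (Ideal.span {a}) = ∑ᶠ v, ord v (a : E) • ψ v :=
  finsum_congr fun v => by rw [ord_eq_cnt v ha, natCast_zsmul]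

theorem map_deg {V' : Type} [AddCommGroup V'] (g : V →+ V') {I : Ideal (𝓞 E)} (hI : I ≠ ⊥) :
    g (deg ψ I) = deg (fun v => g (ψ v)) I := by
  unfold deg
  rw [g.map_finsum (supp_fin ψ hI)]
  exact finsum_congr fun v => map_nsmul _ _ _

theorem deg_mem (W : AddSubgroup V) {I : Ideal (𝓞 E)} (hI : I ≠ ⊥)
    (h : ∀ v : Pr E, I ≤ v.asIdeal → ψ v ∈ W) : deg ψ I ∈ W := by
  unfold deg
  rw [finsum_eq_sum _ (supp_fin ψ hI)]
  refine sum_mem fun v _ => ?_
  by_cases h0 : cnt v I = 0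
  · rw [h0, zero_smul]; exact zero_mem _
  · exact nsmul_mem (h v ((cnt_ne_zero v hI).1 h0)) _

end deg

theorem exists_one {I J : Ideal (𝓞 E)} (hI : I ≠ ⊥) (h : IsCoprime I J) :
    ∃ c ∈ I, c ≠ 0 ∧ c - 1 ∈ J := by
  obtain ⟨b, hb, m, hm, e⟩ := Ideal.isCoprime_iff_exists.1 h
  rcases eq_or_ne b 0 with rfl | b0
  · obtain ⟨z, hz, z0⟩ := Submodule.exists_mem_ne_zero_of_ne_bot hI
    rw [zero_add] at e
    exact ⟨z, hz, z0, by simpa [e] using J.mul_mem_left (z - 1) hm⟩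
  · exact ⟨b, hb, b0, by rw [← e]; simpa using hm⟩

theorem exists_inv {d : 𝓞 E} (hd : d ≠ 0) {J : Ideal (𝓞 E)} (h : IsCoprime (Ideal.span {d}) J) :
    ∃ e : 𝓞 E, e ≠ 0 ∧ d * e - 1 ∈ J := by
  obtain ⟨c, hc, c0, h1⟩ := exists_one (span_ne hd) h
  obtain ⟨e, rfl⟩ := Ideal.mem_span_singleton.1 hc
  exact ⟨e, right_ne_zero_of_mul c0, h1⟩

theorem coprime_of_one {c : 𝓞 E} {J : Ideal (𝓞 E)} (h : c - 1 ∈ J) :
    IsCoprime (Ideal.span {c}) J :=
  Ideal.isCoprime_iff_exists.2 ⟨c, Ideal.mem_span_singleton_self c, _, neg_mem h, by ring⟩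

theorem mul_one_mem {c d : 𝓞 E} {J : Ideal (𝓞 E)} (hc : c - 1 ∈ J) (hd : d - 1 ∈ J) :
    c * d - 1 ∈ J := by
  have := add_mem (J.mul_mem_right d hc) hd
  rwa [show (c - 1) * d + (d - 1) = c * d - 1 by ring] at this

theorem pow_one_mem {c : 𝓞 E} {J : Ideal (𝓞 E)} (hc : c - 1 ∈ J) (n : ℕ) : c ^ n - 1 ∈ J := by
  induction n with
  | zero => simp
  | succ n ih => rw [pow_succ]; exact mul_one_mem ih hc

/-- the ray class group is finite -/
theorem ray_finite (J : Ideal (𝓞 E)) (hJ : J ≠ ⊥) :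
    ∃ S : Finset (Ideal (𝓞 E)), (∀ B ∈ S, B ≠ ⊥ ∧ IsCoprime B J) ∧
      ∀ I : Ideal (𝓞 E), I ≠ ⊥ → IsCoprime I J → ∃ B ∈ S, ∃ c d : 𝓞 E, c ≠ 0 ∧ d ≠ 0 ∧
        c - 1 ∈ J ∧ d - 1 ∈ J ∧ I * Ideal.span {c} = B * Ideal.span {d} := by
  classical
  let α := {I : Ideal (𝓞 E) // I ≠ ⊥ ∧ IsCoprime I J}
  have : Nonempty α := ⟨⟨⊤, top_ne_bot, Ideal.isCoprime_iff_sup_eq.2 (top_sup_eq _)⟩⟩
  let κ : α → ClassGroup (𝓞 E) := fun I =>
    ClassGroup.mk0 ⟨I.1, mem_nonZeroDivisors_iff_ne_zero.2 I.2.1⟩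
  let B : ClassGroup (𝓞 E) → α := Function.invFun κ
  have h1 : ∀ I : α, ∃ c d : 𝓞 E, c ≠ 0 ∧ d ≠ 0 ∧ c - 1 ∈ J ∧
      I.1 * Ideal.span {c} = (B (κ I)).1 * Ideal.span {d} := by
    intro I
    have e : κ I = κ (B (κ I)) := (Function.invFun_eq ⟨I, rfl⟩).symm
    obtain ⟨x, y, hx, hy, h⟩ := ClassGroup.mk0_eq_mk0_iff.1 e
    change Ideal.span {x} * I.1 = Ideal.span {y} * (B (κ I)).1 at h
    obtain ⟨c, hc, c0, c1⟩ := exists_one (B (κ I)).2.1 (B (κ I)).2.2
    have h2 : y * c ∈ Ideal.span {x} * I.1 :=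
      h ▸ Ideal.mul_mem_mul (Ideal.mem_span_singleton_self y) hc
    obtain ⟨d, -, hd⟩ := Ideal.mem_span_singleton_mul.1 h2
    refine ⟨c, d, c0, ?_, c1, ?_⟩
    · rintro rfl
      exact mul_ne_zero hy c0 (by rw [← hd, mul_zero])
    · apply mul_left_cancel₀ (span_ne hx)
      rw [← mul_assoc, h, mul_left_comm, Ideal.span_singleton_mul_span_singleton, hd,
        ← Ideal.span_singleton_mul_span_singleton]
      ring
  choose c d c0 d0 c1 hcd using h1
  have := J.finiteQuotientOfFreeOfNeBot hJ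
  let f : α → ClassGroup (𝓞 E) × (𝓞 E ⧸ J) := fun I => (κ I, Ideal.Quotient.mk J (d I))
  refine ⟨((Set.finite_range (Function.invFun f)).image Subtype.val).toFinset, ?_, ?_⟩
  · intro B' hB'
    obtain ⟨I, -, rfl⟩ := (Set.Finite.mem_toFinset _).1 hB'
    exact I.2
  · intro I hI hIJ
    let I' : α := ⟨I, hI, hIJ⟩
    obtain ⟨K, hK, e⟩ : ∃ K : α, K ∈ Set.range (Function.invFun f) ∧ f K = f I' :=
      ⟨_, ⟨f I', rfl⟩, Function.invFun_eq ⟨I', rfl⟩⟩
    have e1 : κ K = κ I' := congrArg Prod.fst e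
    have e2 : d K - d I' ∈ J := Ideal.Quotient.eq.1 (congrArg Prod.snd e)
    have h3 : IsCoprime (Ideal.span {d I'}) J := by
      have : IsCoprime (I'.1 * Ideal.span {c I'}) J := hIJ.mul_left (coprime_of_one (c1 I'))
      rw [hcd] at this
      exact this.of_mul_left_right
    obtain ⟨g, g0, g1⟩ := exists_inv (d0 I') h3
    have g2 : d K * g - 1 ∈ J := by
      have := add_mem (J.mul_mem_right g e2) g1
      rwa [show (d K - d I') * g + (d I' * g - 1) = d K * g - 1 by ring] at this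
    refine ⟨K.1, (Set.Finite.mem_toFinset _).2 ⟨K, hK, rfl⟩, c I' * (d K * g), c K * (d I' * g),
      mul_ne_zero (c0 _) (mul_ne_zero (d0 _) g0), mul_ne_zero (c0 _) (mul_ne_zero (d0 _) g0),
      mul_one_mem (c1 _) g2, mul_one_mem (c1 _) g1, ?_⟩
    have h4 := hcd I'
    have h5 := hcd K
    rw [e1] at h5
    simp only [← Ideal.span_singleton_mul_span_singleton]
    change I'.1 * _ = _
    rw [← mul_assoc, h4, ← mul_assoc, ← mul_assoc K.1, h5]
    ring

end Pool.Agent.MP_14ad9d_nt.Full.DLAux
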