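import Pool.Agent.MP_14ad9d_nt.Full.ED
import Pool.Agent.MP_14ad9d_nt.Full.DL1

set_option autoImplicit false
set_option linter.unusedSectionVars false

open NumberField IsDedekindDomain Filter Topology

namespace Pool.Agent.MP_14ad9d_nt.Full.DLAux

variable {E : Type} [Field E] [NumberField E]

section char

variable {V : Type} [AddCommGroup V] [Finite V] (ψ : Pr E → V) (J : Ideal (𝓞 E))
  (χ : AddChar V ℂ)

open Classical in
/-- the ideal character -/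
noncomputable def XX : Ideal (𝓞 E) →* ℂ where
  toFun I := if I ≠ ⊥ ∧ IsCoprime I J then χ (deg ψ I) else 0
  map_one' := by
    rw [if_pos ⟨one_ne_zero, isCoprime_one_left⟩, Ideal.one_eq_top, deg_top, AddChar.map_zero_eq_one]
  map_mul' I K := by
    by_cases h : (I ≠ ⊥ ∧ IsCoprime I J) ∧ (K ≠ ⊥ ∧ IsCoprime K J)
    · rw [if_pos h.1, if_pos h.2, if_pos ⟨mul_ne_zero h.1.1 h.2.1, h.1.2.mul_left h.2.2⟩,
        deg_mul ψ h.1.1 h.2.1, AddChar.map_add_eq_mul]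
    · rw [if_neg fun h' => h ⟨⟨left_ne_zero_of_mul h'.1, h'.2.of_mul_left_left⟩,
        ⟨right_ne_zero_of_mul h'.1, h'.2.of_mul_left_right⟩⟩]
      rcases not_and_or.1 h with h | h
      · rw [if_neg h, zero_mul]
      · rw [if_neg h, mul_zero]

theorem XX_pos {I : Ideal (𝓞 E)} (h : I ≠ ⊥) (h' : IsCoprime I J) :
    XX ψ J χ I = χ (deg ψ I) := if_pos ⟨h, h'⟩

theorem XX_neg {I : Ideal (𝓞 E)} (h : ¬(I ≠ ⊥ ∧ IsCoprime I J)) : XX ψ J χ I = 0 := if_neg h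

theorem XX_sq (I : Ideal (𝓞 E)) : XX ψ J (χ + χ) I = XX ψ J χ I ^ 2 := by
  by_cases h : I ≠ ⊥ ∧ IsCoprime I J
  · rw [XX_pos ψ J _ h.1 h.2, XX_pos ψ J _ h.1 h.2, AddChar.add_apply, sq]
  · rw [XX_neg ψ J _ h, XX_neg ψ J _ h, sq, zero_mul]

theorem XX_congr (hψ : ∀ a : 𝓞 E, a ≠ 0 → a - 1 ∈ J → deg ψ (Ideal.span {a}) = 0) {a b : 𝓞 E}
    (ha : a ≠ 0) (hb : b ≠ 0) (h : a - b ∈ J) :
    XX ψ J χ (Ideal.span {a}) = XX ψ J χ (Ideal.span {b}) := by
  have key : ∀ a b : 𝓞 E, a ≠ 0 → b ≠ 0 → a - b ∈ J → IsCoprime (Ideal.span {a}) J →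
      IsCoprime (Ideal.span {b}) J ∧ deg ψ (Ideal.span {a}) = deg ψ (Ideal.span {b}) := by
    intro a b ha hb h h1
    obtain ⟨e, e0, e1⟩ := exists_inv ha h1
    have e2 : b * e - 1 ∈ J := by
      have := sub_mem e1 (J.mul_mem_right e h)
      rwa [show a * e - 1 - (a - b) * e = b * e - 1 by ring] at this
    have h2 := coprime_of_one e2
    have h3 := hψ _ (mul_ne_zero ha e0) e1
    have h4 := hψ _ (mul_ne_zero hb e0) e2
    rw [← Ideal.span_singleton_mul_span_singleton] at h2 h3 h4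
    rw [deg_mul ψ (span_ne ha) (span_ne e0)] at h3
    rw [deg_mul ψ (span_ne hb) (span_ne e0)] at h4
    exact ⟨h2.of_mul_left_left, add_right_cancel (h3.trans h4.symm)⟩
  by_cases h1 : IsCoprime (Ideal.span {a}) J
  · obtain ⟨h2, h3⟩ := key a b ha hb h h1
    rw [XX_pos ψ J χ (span_ne ha) h1, XX_pos ψ J χ (span_ne hb) h2, h3]
  · rw [XX_neg ψ J χ fun h' => h1 h'.2, XX_neg ψ J χ fun h' =>
      h1 (key b a hb ha (by simpa using neg_mem h) h'.2).1]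

open Classical in
/-- the Hecke character -/
noncomputable def hk (m : ℕ) (hm : m ≠ 0)
    (hψ : ∀ a : 𝓞 E, a ≠ 0 → a - 1 ∈ Ideal.span {(m : 𝓞 E)} → deg ψ (Ideal.span {a}) = 0) :
    Hecke E where
  X := XX ψ (Ideal.span {(m : 𝓞 E)}) χ
  m := m
  hm := hm
  X_bot := XX_neg ψ _ χ fun h => h.1 rfl
  norm_le I := by
    by_cases h : I ≠ ⊥ ∧ IsCoprime I (Ideal.span {(m : 𝓞 E)})
    · rw [XX_pos ψ _ _ h.1 h.2, AddChar.norm_apply]
    · rw [XX_neg ψ _ _ h, norm_zero]; exact zero_le_one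
  unit I h h' := by
    rw [XX_pos ψ _ _ h h', ← norm_ne_zero_iff, AddChar.norm_apply]
    exact one_ne_zero
  c a := XX ψ (Ideal.span {(m : 𝓞 E)}) χ (Ideal.span {if a = 0 then (m : 𝓞 E) else a})
  c_congr a b h := by
    have m0 : (m : 𝓞 E) ≠ 0 := Nat.cast_ne_zero.2 hm
    refine XX_congr ψ _ χ hψ ?_ ?_ (Ideal.mem_span_singleton.2 ?_)
    · split_ifs with e
      exacts [m0, e]
    · split_ifs with e
      exacts [m0, e]
    · split_ifs with e1 e2 e2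
      · simp
      · rw [e1] at h
        exact dvd_sub dvd_rfl (by simpa using h)
      · rw [e2] at h
        exact dvd_sub (by simpa using h) dvd_rfl
      · exact h
  Ψ _ := 1
  Ψ_lip := (LipschitzWith.const 1).locallyLipschitz.locallyLipschitzOn
  Ψ_smul _ _ _ _ := rfl
  eq a ha := by rw [if_neg ha, mul_one]

end char

theorem tent_cont : Continuous fun u : ℝ => (tent u : ℂ) := by
  unfold tent
  fun_prop

theorem tent_supp : HasCompactSupport fun u : ℝ => (tent u : ℂ) := by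
  refine HasCompactSupport.intro (isCompact_Icc (a := (-1 : ℝ)) (b := 1)) fun u hu => ?_
  rw [EDAux.tent_eq_zero, Complex.ofReal_zero]
  by_contra h
  exact hu (Set.mem_Icc.2 (abs_le.1 (not_le.1 h).le))

theorem ev_tent {T : Set (Pr E)} (hT : T.Finite) :
    ∀ᶠ u : ℝ in atTop, ∀ v ∈ T, tent (lam v - u) = 0 := by
  rw [hT.eventually_all]
  intro v _
  filter_upwards [eventually_ge_atTop (lam v + 1)] with u hu
  refine EDAux.tent_eq_zero ?_
  rw [abs_sub_comm]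
  exact le_trans (by linarith) (le_abs_self _)

theorem summable_of {R : Type} [AddCommMonoid R] [TopologicalSpace R] (u : ℝ) (f : Pr E → R)
    (h : ∀ v, tent (lam v - u) = 0 → f v = 0) : Summable f := by
  refine summable_of_hasFiniteSupport ((finite_lam_le (E := E) (u + 1)).subset fun v hv => ?_)
  by_contra h1
  refine hv (h v (EDAux.tent_eq_zero ?_))
  have : u + 1 < lam v := not_le.1 h1
  exact le_trans (by linarith) (le_abs_self _)

/-- a nontrivial character of odd order has small sums over primes -/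
theorem small {V : Type} [AddCommGroup V] [Finite V] (l : ℕ) (hl : Odd l) (hV : ∀ y : V, l • y = 0)
    (𝔐 : Ideal (𝓞 E)) (h𝔐 : 𝔐 ≠ ⊥) (ψ : Pr E → V)
    (hψ : ∀ a : 𝓞 E, a ≠ 0 → a - 1 ∈ 𝔐 → deg ψ (Ideal.span {a}) = 0) (χ : AddChar V ℂ)
    (v₀ : Pr E) (h₀ : ¬𝔐 ≤ v₀.asIdeal) (h₁ : χ (ψ v₀) ≠ 1) :
    Tendsto (fun u : ℝ => ∑' v : Pr E, (wt v : ℂ) * χ (ψ v) * (tent (lam v - u) : ℝ)) atTop
      (𝓝 0) := by
  have hm : Ideal.absNorm 𝔐 ≠ 0 := by simpa [Ideal.absNorm_eq_zero_iff] using h𝔐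
  have hle : Ideal.span {(Ideal.absNorm 𝔐 : 𝓞 E)} ≤ 𝔐 :=
    (Ideal.span_singleton_le_iff_mem _).2 (Ideal.absNorm_mem 𝔐)
  have m0 : Ideal.span {(Ideal.absNorm 𝔐 : 𝓞 E)} ≠ ⊥ := span_ne (Nat.cast_ne_zero.2 hm)
  have hψ' : ∀ a : 𝓞 E, a ≠ 0 → a - 1 ∈ Ideal.span {(Ideal.absNorm 𝔐 : 𝓞 E)} →
      deg ψ (Ideal.span {a}) = 0 := fun a ha h => hψ a ha (hle h)
  obtain ⟨B, γ, γ', B0, B1, -, g0, g0', g1, g1', hB⟩ := exists_coprime_rep v₀.asIdeal v₀.ne_bot 𝔐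
    ((coprime_prime h𝔐 v₀).2 h₀) _ m0
  have hdeg : deg ψ B = ψ v₀ := by
    have := congrArg (deg ψ) hB
    rwa [deg_mul ψ B0 (span_ne g0), deg_mul ψ v₀.ne_bot (span_ne g0'), hψ γ g0 g1, hψ γ' g0' g1',
      add_zero, add_zero, deg_prime] at this
  have nt : ∀ χ' : AddChar V ℂ, χ' (ψ v₀) ≠ 1 → (hk ψ χ' _ hm hψ').Nontriv := fun χ' h =>
    Or.inr ⟨fun _ _ => rfl, B, B0, B1, by
      change XX ψ _ χ' B ≠ 1
      rwa [XX_pos ψ _ χ' B0 B1, hdeg]⟩
  have h₂ : (χ + χ) (ψ v₀) ≠ 1 := by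
    intro h
    obtain ⟨k, rfl⟩ := hl
    rw [AddChar.add_apply, ← sq] at h
    have h3 : χ (ψ v₀) ^ (2 * k + 1) = 1 := by
      rw [← AddChar.map_nsmul_eq_pow, hV, AddChar.map_zero_eq_one]
    rw [pow_succ, pow_mul, h, one_pow, one_mul] at h3
    exact h₁ h3
  have key := ed (hk ψ χ _ hm hψ') (hk ψ (χ + χ) _ hm hψ') (nt _ h₁) (nt _ h₂)
    (XX_sq ψ _ χ) _ tent_cont tent_supp
  refine key.congr' ?_
  filter_upwards [ev_tent (Ideal.finite_factors m0)] with u hu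
  refine tsum_congr fun v => ?_
  by_cases h : Ideal.span {(Ideal.absNorm 𝔐 : 𝓞 E)} ≤ v.asIdeal
  · rw [hu v (Ideal.dvd_iff_le.2 h), Complex.ofReal_zero, mul_zero, mul_zero]
  · change _ * XX ψ _ χ _ * _ = _
    rw [XX_pos ψ _ χ v.ne_bot ((coprime_prime m0 v).2 h), deg_prime]

open Classical in
theorem dls' {V : Type} [AddCommGroup V] [Finite V] (l : ℕ) (hl : Odd l) (hV : ∀ y : V, l • y = 0)
    (𝔐 : Ideal (𝓞 E)) (h𝔐 : 𝔐 ≠ ⊥) (ψ : Pr E → V)
    (hψ : ∀ a : 𝓞 E, a ≠ 0 → a - 1 ∈ 𝔐 → deg ψ (Ideal.span {a}) = 0) (x : V)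
    (hx : ∀ χ : AddChar V ℂ, (∀ v : Pr E, ¬𝔐 ≤ v.asIdeal → χ (ψ v) = 1) → χ x = 1) :
    ∃ c : ℝ, 0 < c ∧ ∃ᶠ u : ℝ in atTop,
      c ≤ ∑' v : Pr E, if ψ v = x then wt v * tent (lam v - u) else 0 := by
  have := Fintype.ofFinite V
  obtain ⟨c, hc, hfr⟩ := scale (E := E)
  have hcard : (0 : ℝ) < Fintype.card V := Nat.cast_pos.2 Fintype.card_pos
  refine ⟨c / 2 / Fintype.card V, by positivity, ?_⟩
  let P : AddChar V ℂ → Prop := fun χ => ∀ v : Pr E, ¬𝔐 ≤ v.asIdeal → χ (ψ v) = 1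
  let T : AddChar V ℂ → ℝ → ℂ := fun χ u =>
    χ (-x) * ∑' v : Pr E, (wt v : ℂ) * χ (ψ v) * (tent (lam v - u) : ℝ)
  have h1 : Tendsto (fun u => ∑ χ with ¬P χ, T χ u) atTop (𝓝 0) := by
    rw [← Finset.sum_const_zero (s := Finset.univ.filter fun χ => ¬P χ)]
    refine tendsto_finsetSum _ fun χ hχ => ?_
    have h2 := (Finset.mem_filter.1 hχ).2
    simp only [P, not_forall] at h2
    obtain ⟨v₀, h3, h4⟩ := h2
    simpa using (small l hl hV 𝔐 h𝔐 ψ hψ χ v₀ h3 h4).const_mul (χ (-x))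
  have h2 : ∀ᶠ u : ℝ in atTop, ‖∑ χ with ¬P χ, T χ u‖ < c / 2 := by
    have := h1.norm
    rw [norm_zero] at this
    exact this.eventually (gt_mem_nhds (by positivity))
  refine ((hfr.and_eventually h2).and_eventually (ev_tent (Ideal.finite_factors h𝔐))).mono ?_
  rintro u ⟨⟨h3, h4⟩, h5⟩
  set S := ∑' v : Pr E, wt v * tent (lam v - u) with hS
  set F := ∑' v : Pr E, if ψ v = x then wt v * tent (lam v - u) else 0 with hF
  have h6 : ∑ χ, T χ u = (Fintype.card V * F : ℝ) := by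
    simp only [T, ← tsum_mul_left]
    rw [← Summable.tsum_finsetSum fun χ _ => summable_of u _ fun v h => by simp [h], hF,
      ← tsum_mul_left, Complex.ofReal_tsum]
    refine tsum_congr fun v => ?_
    have : ∀ χ : AddChar V ℂ, χ (-x) * ((wt v : ℂ) * χ (ψ v) * (tent (lam v - u) : ℝ)) =
        χ (ψ v - x) * ((wt v : ℂ) * (tent (lam v - u) : ℝ)) := fun χ => by
      rw [sub_eq_add_neg (ψ v), AddChar.map_add_eq_mul]; ring
    simp only [this, ← Finset.sum_mul, AddChar.sum_apply_eq_ite, sub_eq_zero]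
    split_ifs <;> simp
  have h7 : ∀ χ, P χ → T χ u = (S : ℝ) := by
    intro χ hχ
    have e : χ (-x) = 1 := by rw [AddChar.map_neg_eq_inv, hx χ hχ, inv_one]
    simp only [T]
    rw [e, one_mul, hS, Complex.ofReal_tsum]
    refine tsum_congr fun v => ?_
    by_cases h : 𝔐 ≤ v.asIdeal
    · simp [h5 v (Ideal.dvd_iff_le.2 h)]
    · simp [hχ v h]
  have h8 : (1 : ℝ) ≤ (Finset.univ.filter P).card :=
    Nat.one_le_cast.2 (Finset.card_pos.2 ⟨0, Finset.mem_filter.2 ⟨Finset.mem_univ _,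
      fun _ _ => rfl⟩⟩)
  rw [← Finset.sum_filter_add_sum_filter_not _ P,
    Finset.sum_congr rfl fun χ hχ => h7 χ (Finset.mem_filter.1 hχ).2, Finset.sum_const] at h6
  have h9 := congrArg Complex.re h6
  rw [Complex.add_re, Complex.ofReal_re, ← Complex.ofReal_nsmul, Complex.ofReal_re,
    nsmul_eq_mul] at h9
  have h10 := (abs_le.1 ((Complex.abs_re_le_norm _).trans h4.le)).1
  rw [div_le_iff₀ hcard]
  nlinarith

end Pool.Agent.MP_14ad9d_nt.Full.DLAux
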