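import Pool.Agent.MP_14ad9d_nt.Full.HDefs

set_option autoImplicit false

open NumberField IsDedekindDomain

namespace Pool.Agent.MP_14ad9d_nt.Full

variable {E : Type} [Field E] [NumberField E]

theorem val_eq_exp (v : Pr E) {x : E} (hx : x ≠ 0) :
    v.valuation E x = WithZero.exp (-ord v x) := by
  rw [ord, neg_neg, WithZero.exp_log ((Valuation.ne_zero_iff _).2 hx)]

theorem ord_mul (v : Pr E) {x y : E} (hx : x ≠ 0) (hy : y ≠ 0) :
    ord v (x * y) = ord v x + ord v y := by
  rw [ord, ord, ord, map_mul, WithZero.log_mul ((Valuation.ne_zero_iff _).2 hx)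
    ((Valuation.ne_zero_iff _).2 hy), neg_add]

theorem ord_inv (v : Pr E) (x : E) : ord v x⁻¹ = -ord v x := by
  rw [ord, ord, map_inv₀, WithZero.log_inv]

theorem ord_zpow (v : Pr E) (x : E) (n : ℤ) : ord v (x ^ n) = n * ord v x := by
  rw [ord, ord, map_zpow₀, WithZero.log_zpow, smul_eq_mul, mul_neg]

theorem ord_pow (v : Pr E) (x : E) (n : ℕ) : ord v (x ^ n) = n * ord v x := by
  rw [← zpow_natCast, ord_zpow]

theorem ord_one (v : Pr E) : ord v (1 : E) = 0 := by
  rw [ord, map_one, WithZero.log_one, neg_zero]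

theorem ord_neg (v : Pr E) (x : E) : ord v (-x) = ord v x := by
  rw [ord, ord, Valuation.map_neg]

theorem ord_finite (x : E) : {v : Pr E | ord v x ≠ 0}.Finite := by
  have key : ∀ a : 𝓞 E, a ≠ 0 → {v : Pr E | ord v (a : E) ≠ 0}.Finite := fun a ha =>
    (Ideal.finite_factors (I := Ideal.span {a}) (by simpa using ha)).subset fun v hv => by
      by_contra h
      refine hv ?_
      rw [ord, v.valuation_eq_one_iff_notMem.2 fun e => h (Ideal.dvd_span_singleton.2 e),
        WithZero.log_one, neg_zero]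
  obtain ⟨a, b, hb, rfl⟩ := IsFractionRing.div_surjective (A := 𝓞 E) x
  have hb' := nonZeroDivisors.ne_zero hb
  rcases eq_or_ne a 0 with rfl | ha
  · simp [ord]
  refine ((key a ha).union (key b hb')).subset fun v hv => ?_
  by_contra h
  simp only [Set.mem_union, Set.mem_ofPred_eq, not_or, not_not] at h
  refine hv ?_
  rw [div_eq_mul_inv, ord_mul v (by simpa using ha) (by simpa using hb'), ord_inv, h.1, h.2]
  rfl

theorem ord_nonneg (v : Pr E) (a : 𝓞 E) : 0 ≤ ord v (a : E) := by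
  rcases eq_or_ne (a : E) 0 with h | h
  · simp [ord, h]
  · have : v.valuation E (a : E) ≤ 1 := v.valuation_le_one a
    rw [val_eq_exp v h, ← WithZero.exp_zero, WithZero.exp_le_exp] at this
    omega

theorem ord_eq_zero_iff (v : Pr E) {a : 𝓞 E} (ha : a ≠ 0) : ord v (a : E) = 0 ↔ a ∉ v.asIdeal := by
  rw [← v.valuation_eq_one_iff_notMem (K := E), val_eq_exp v (by simpa using ha),
    WithZero.exp_eq_one, neg_eq_zero]

theorem exists_ord_eq_one (v : Pr E) : ∃ a : 𝓞 E, a ≠ 0 ∧ ord v (a : E) = 1 := by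
  obtain ⟨a, ha⟩ := v.valuation_exists_uniformizer' E
  refine ⟨a, ?_, ?_⟩
  · rintro rfl
    exact WithZero.exp_ne_zero (ha.symm.trans (by simp))
  · rw [ord, show v.valuation E (a : E) = _ from ha, WithZero.log_exp, neg_neg]

open Classical in
/-- valuations of a generator of a prime times an `l`-th power -/
theorem ord_of_span {π : 𝓞 E} {v : Pr E} {B : Ideal (𝓞 E)} (hB : B ≠ ⊥) {l : ℕ}
    (h : Ideal.span {π} = v.asIdeal * B ^ l) (w : Pr E) :
    (l : ℤ) ∣ ord w (π : E) - if w = v then 1 else 0 := by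
  have h0 : π ≠ 0 := by
    rintro rfl
    exact mul_ne_zero v.ne_bot (pow_ne_zero l hB) (h.symm.trans (by simp))
  have hB' : Associates.mk B ≠ 0 := Associates.mk_ne_zero.2 hB
  rw [ord, show w.valuation E (π : E) = _ from w.valuation_of_algebraMap π,
    w.intValuation_if_neg h0, WithZero.log_exp, neg_neg, h, ← Associates.mk_mul_mk,
    Associates.mk_pow, Associates.count_mul (Associates.mk_ne_zero.2 v.ne_bot)
      (pow_ne_zero l hB') w.associates_irreducible,
    Associates.count_pow hB' w.associates_irreducible]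
  split_ifs with e
  · rw [e, Associates.count_self v.associates_irreducible]
    simp
  · rw [Associates.count_eq_zero_of_ne w.associates_irreducible v.associates_irreducible
      fun e' => e (HeightOneSpectrum.ext (associated_iff_eq.1
        (Associates.mk_eq_mk_iff_associated.1 e')))]
    simp

/-- an element with no poles is integral -/
theorem exists_int {x : E} (h : ∀ v : Pr E, 0 ≤ ord v x) : ∃ a : 𝓞 E, (a : E) = x := by
  refine HeightOneSpectrum.mem_integers_of_valuation_le_one (R := 𝓞 E) E x fun v => ?_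
  rcases eq_or_ne x 0 with rfl | hx
  · simp
  · rw [val_eq_exp v hx, ← WithZero.exp_zero, WithZero.exp_le_exp]
    linarith [h v]

/-- an element with no zeros and poles is a unit -/
theorem exists_unit {x : E} (hx : x ≠ 0) (h : ∀ v : Pr E, ord v x = 0) :
    ∃ u : (𝓞 E)ˣ, ((u : 𝓞 E) : E) = x := by
  obtain ⟨a, ha⟩ := exists_int fun v => (h v).ge
  obtain ⟨b, hb⟩ := exists_int (x := x⁻¹) fun v => by rw [ord_inv, h v, neg_zero]
  have e : a * b = 1 := by
    apply RingOfIntegers.coe_injective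
    rw [map_mul, map_one]
    change (a : E) * (b : E) = 1
    rw [ha, hb, mul_inv_cancel₀ hx]
  exact ⟨Units.mkOfMulEqOne a b e, ha⟩

/-- weak approximation, with integrality away from the given primes -/
theorem wa (T : Finset (Pr E)) (a : Pr E → E) (n : ℤ) :
    ∃ x : E, x ≠ 0 ∧ (∀ v ∈ T, v.valuation E (x - a v) ≤ WithZero.exp n) ∧
      ∀ v, v ∉ T → v.valuation E x ≤ 1 := by
  classical
  obtain ⟨⟨d, hd⟩, hda⟩ :=
    IsLocalization.exist_integer_multiples (nonZeroDivisors (𝓞 E)) T a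
  have d0 : (d : E) ≠ 0 := by simpa using nonZeroDivisors.ne_zero hd
  choose! t ht using hda
  set S := T ∪ (ord_finite (d : E)).toFinset
  let e : Pr E → ℕ := fun v => (ord v (d : E)).toNat + n.natAbs
  obtain ⟨y, y0, hy⟩ : ∃ y : 𝓞 E, y ≠ 0 ∧
      ∀ v ∈ S, y - (if v ∈ T then t v else 0) ∈ v.asIdeal ^ e v := by
    obtain ⟨y, hy⟩ := exists_forall_sub_mem_ideal (s := S) (fun v => v.asIdeal) e
      (fun v _ => v.prime) (fun v _ w _ h e => h (HeightOneSpectrum.ext e))
      fun v => if v.1 ∈ T then t v else 0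
    rcases eq_or_ne y 0 with rfl | y0
    · obtain ⟨z, hz, z0⟩ := Submodule.exists_mem_ne_zero_of_ne_bot
        (p := ∏ v ∈ S, v.asIdeal ^ e v)
        (Finset.prod_ne_zero_iff.2 fun v _ => pow_ne_zero _ v.ne_bot)
      refine ⟨z, z0, fun v hv => ?_⟩
      have := add_mem (Ideal.le_of_dvd (Finset.dvd_prod_of_mem _ hv) hz) (hy v hv)
      rwa [← add_sub_assoc, add_zero] at this
    · exact ⟨y, y0, hy⟩
  have key : ∀ (v : Pr E) (z : 𝓞 E), z ∈ v.asIdeal ^ e v →
      v.valuation E ((z : E) / d) ≤ WithZero.exp (-(n.natAbs : ℤ)) := by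
    intro v z hz
    have h1 : v.valuation E (z : E) ≤ WithZero.exp (-(e v : ℤ)) :=
      (v.valuation_of_algebraMap z).le.trans ((v.intValuation_le_pow_iff_mem z _).2 hz)
    rw [map_div₀, val_eq_exp v d0, div_le_iff₀ WithZero.exp_pos, ← WithZero.exp_add]
    refine h1.trans (WithZero.exp_le_exp.2 ?_)
    simp only [e]
    omega
  refine ⟨(y : E) / d, div_ne_zero (by simpa using y0) d0, fun v hv => ?_, fun v hv => ?_⟩
  · have h1 := key v _ (hy v (Finset.mem_union_left _ hv))
    have h2 : ((t v : 𝓞 E) : E) = d * a v := (ht v hv).trans (Algebra.smul_def _ _)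
    rw [if_pos hv, show ((y - t v : 𝓞 E) : E) = (y : E) - (t v : E) from map_sub _ _ _, h2,
      sub_div, mul_div_cancel_left₀ _ d0] at h1
    exact h1.trans (WithZero.exp_le_exp.2 (by omega))
  · by_cases h : ord v (d : E) = 0
    · rw [map_div₀, val_eq_exp v d0, h, neg_zero, WithZero.exp_zero, div_one]
      exact v.valuation_le_one y
    · have h1 := key v _ (hy v (Finset.mem_union_right _ ((Set.Finite.mem_toFinset _).2 h)))
      rw [if_neg hv, sub_zero] at h1
      exact h1.trans (WithZero.exp_zero (M := ℤ) ▸ WithZero.exp_le_exp.2 (by omega))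

/-- every ideal class has a member prime to a given ideal, congruent to one modulo a second one -/
theorem exists_coprime_rep (B : Ideal (𝓞 E)) (hB : B ≠ ⊥) (M : Ideal (𝓞 E))
    (hBM : IsCoprime B M) (N : Ideal (𝓞 E)) (hN : N ≠ ⊥) :
    ∃ (B' : Ideal (𝓞 E)) (γ γ' : 𝓞 E), B' ≠ ⊥ ∧ IsCoprime B' N ∧ IsCoprime B' M ∧ γ ≠ 0 ∧
      γ' ≠ 0 ∧ γ - 1 ∈ M ∧ γ' - 1 ∈ M ∧ B' * Ideal.span {γ} = B * Ideal.span {γ'} := by
  classical
  rcases eq_or_ne M ⊥ with rfl | hM
  · have : B = ⊤ := by simpa using Ideal.isCoprime_iff_sup_eq.1 hBM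
    subst this
    exact ⟨⊤, 1, 1, hB, Ideal.isCoprime_iff_sup_eq.2 (top_sup_eq _), hBM, one_ne_zero, one_ne_zero,
      by simp, by simp, rfl⟩
  obtain ⟨γ, hγ, g1, g0⟩ : ∃ γ ∈ B, γ - 1 ∈ M ∧ γ ≠ 0 := by
    obtain ⟨b, hb, m, hm, e⟩ := Ideal.isCoprime_iff_exists.1 hBM
    rcases eq_or_ne b 0 with rfl | b0
    · obtain ⟨z, hz, z0⟩ := Submodule.exists_mem_ne_zero_of_ne_bot hB
      rw [zero_add] at e
      exact ⟨z, hz, by simpa [e] using M.mul_mem_left (z - 1) hm, z0⟩
    · exact ⟨b, hb, by rw [← e]; simpa using hm, b0⟩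
  obtain ⟨c, hc⟩ := Ideal.dvd_span_singleton.2 hγ
  have c0 : c ≠ ⊥ := by
    rintro rfl
    exact g0 (by simpa using hc)
  have gc : γ ∈ B * c := hc ▸ Ideal.mem_span_singleton_self γ
  obtain ⟨q0, hq0⟩ := Ideal.exists_maximal (𝓞 E)
  have q1 : q0 ≠ ⊥ := Ring.ne_bot_of_isMaximal_of_not_isField hq0 (RingOfIntegers.not_isField E)
  have hN' : N * q0 ≠ ⊥ := mul_ne_zero hN q1
  obtain ⟨s, hs⟩ := exists_sup_span_eq (I := c * M * (N * q0)) (J := c * M) Ideal.mul_le_left
    (mul_ne_zero (mul_ne_zero c0 hM) hN')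
  have s1 : s ∈ c * M := hs ▸ Ideal.mem_sup_right (Ideal.mem_span_singleton_self s)
  obtain ⟨u, hu⟩ := exists_forall_sub_mem_ideal (s := (Ideal.finite_factors hN').toFinset)
    (fun v => v.asIdeal) (fun _ => 1) (fun v _ => v.prime)
    (fun v _ w _ h e => h (HeightOneSpectrum.ext e)) fun v => if B ≤ v.1.asIdeal then 1 else 0
  have g2 : γ + u * s ∈ c :=
    add_mem (Ideal.mul_le_right gc) (c.mul_mem_left u (Ideal.mul_le_left s1))
  have g3 : γ + u * s - 1 ∈ M := by
    rw [add_sub_right_comm]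
    exact add_mem g1 (M.mul_mem_left u (Ideal.mul_le_right s1))
  obtain ⟨B', hB'⟩ := Ideal.dvd_span_singleton.2 g2
  have g4 : γ + u * s ∈ c * B' := hB' ▸ Ideal.mem_span_singleton_self _
  have can : ∀ I J : Ideal (𝓞 E), c * I ≤ c * J → I ≤ J := fun I J h =>
    Ideal.dvd_iff_le.1 ((mul_dvd_mul_iff_left c0).1 (Ideal.dvd_iff_le.2 h))
  have cop : IsCoprime B' (N * q0) := by
    by_contra h
    obtain ⟨q, hq, hle⟩ := Ideal.exists_le_maximal _ (mt Ideal.isCoprime_iff_sup_eq.2 h)
    have l1 : B' ≤ q := le_sup_left.trans hle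
    have l2 : N * q0 ≤ q := le_sup_right.trans hle
    have g5 : γ + u * s ∈ c * q := Ideal.mul_mono_right l1 g4
    have hu' := hu ⟨q, hq.isPrime, fun e => hN' (le_bot_iff.1 (e ▸ l2))⟩
      ((Set.Finite.mem_toFinset _).2 (Ideal.dvd_iff_le.2 l2))
    have m : ∀ w ∈ q, w * s ∈ c * q := fun w hw =>
      mul_comm s w ▸ Ideal.mul_mem_mul (Ideal.mul_le_left s1) hw
    simp only [pow_one] at hu'
    split_ifs at hu' with hBq
    · have g6 : γ ∈ c * q := Ideal.mul_mono_right hBq (mul_comm B c ▸ gc)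
      have g7 : s ∈ c * q := by
        convert sub_mem (sub_mem g5 g6) (m _ hu') using 1
        ring
      have g8 : M ≤ q := can _ _ (hs ▸ sup_le (by
        rw [mul_assoc]; exact Ideal.mul_mono_right (Ideal.mul_le_right.trans l2))
          ((Ideal.span_singleton_le_iff_mem _).2 g7))
      exact hq.ne_top ((Ideal.eq_top_iff_one q).2
        (by simpa using sub_mem (Ideal.mul_le_right g5) (g8 g3)))
    · refine hBq (can _ _ ?_)
      rw [mul_comm, ← hc, Ideal.span_singleton_le_iff_mem]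
      simpa using sub_mem g5 (m _ hu')
  have b0 : B' ≠ ⊥ := by
    rintro rfl
    exact hq0.ne_top (top_le_iff.1
      ((Ideal.isCoprime_iff_sup_eq.1 cop).ge.trans (sup_le bot_le Ideal.mul_le_right)))
  refine ⟨B', γ, γ + u * s, b0, cop.of_mul_right_left, Ideal.isCoprime_iff_exists.2
    ⟨_, Ideal.mul_le_right g4, _, neg_mem g3, by ring⟩, g0, fun e => ?_, g1, g3, ?_⟩
  · exact mul_ne_zero c0 b0 (hB'.symm.trans (by simp [e]))
  · rw [hc, hB']
    ring

end Pool.Agent.MP_14ad9d_nt.Full
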