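import Pool.Agent.MP_14ad9d_nt.Full.ED
import Pool.Agent.MP_14ad9d_nt.Full.WA
import Pool.Agent.MP_14ad9d_nt.Full.DL2

set_option autoImplicit false

open NumberField Filter Topology

namespace Pool.Agent.MP_14ad9d_nt.Full

variable (l : ℕ) [Fact l.Prime] {E : Type} [Field E] [NumberField E]

open Classical in
/-- Dirichlet theorem for ray class characters of exponent `l`, at arbitrarily large scales -/
theorem dls (hl : 2 < l) (𝔐 : Ideal (𝓞 E)) (h𝔐 : 𝔐 ≠ ⊥) {V : Type} [AddCommGroup V]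
    [Module (ZMod l) V] [Finite V] (ψ : Pr E → V)
    (hψ : ∀ a : 𝓞 E, a ≠ 0 → a - 1 ∈ 𝔐 → ∑ᶠ v, ord v (a : E) • ψ v = 0) (x : V)
    (hx : x ∈ Submodule.span (ZMod l) (ψ '' {v | ¬𝔐 ≤ v.asIdeal})) :
    ∃ c : ℝ, 0 < c ∧ ∃ᶠ u : ℝ in atTop,
      c ≤ ∑' v : Pr E, if ψ v = x then wt v * tent (lam v - u) else 0 := by
  refine DLAux.dls' l ((Fact.out : l.Prime).odd_of_ne_two hl.ne') (fun y => ?_) 𝔐 h𝔐 ψ
    (fun a ha h => (DLAux.deg_span ψ ha).trans (hψ a ha h)) x fun χ hχ => ?_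
  · rw [← Nat.cast_smul_eq_nsmul (ZMod l), ZMod.natCast_self, zero_smul]
  · induction hx using Submodule.span_induction with
    | mem y hy =>
      obtain ⟨v, hv, rfl⟩ := hy
      exact hχ v hv
    | zero => exact χ.map_zero_eq_one
    | add y z _ _ hy hz => rw [χ.map_add_eq_mul, hy, hz, one_mul]
    | smul r y _ hy =>
      rw [← ZMod.natCast_zmod_val r, Nat.cast_smul_eq_nsmul, χ.map_nsmul_eq_pow, hy, one_pow]

/-- a set of primes with positive density at large scales has infinitely many of degree one -/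
theorem infinite_of_scale (A : Pr E → Prop) [DecidablePred A] (c : ℝ) (hc : 0 < c)
    (h : ∃ᶠ u : ℝ in atTop, c ≤ ∑' v : Pr E, if A v then wt v * tent (lam v - u) else 0) :
    {v : Pr E | Deg1 v ∧ A v}.Infinite := by
  intro hf
  obtain ⟨u, h1, h2⟩ := (h.and_eventually (DLAux.ev_tent hf)).exists
  have h3 : ∀ v : Pr E, (if A v then wt v * tent (lam v - u) else 0) = 0 := by
    intro v
    split_ifs with e
    · by_cases e' : Deg1 v
      · rw [h2 v ⟨e', e⟩, mul_zero]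
      · rw [wt, if_neg e', zero_mul]
    · rfl
  simp only [h3, tsum_zero] at h1
  exact absurd h1 hc.not_ge

theorem dl (hl : 2 < l) (𝔐 : Ideal (𝓞 E)) (h𝔐 : 𝔐 ≠ ⊥) {V : Type} [AddCommGroup V]
    [Module (ZMod l) V] [Finite V] (ψ : Pr E → V)
    (hψ : ∀ a : 𝓞 E, a ≠ 0 → a - 1 ∈ 𝔐 → ∑ᶠ v, ord v (a : E) • ψ v = 0) (x : V)
    (hx : x ∈ Submodule.span (ZMod l) (ψ '' {v | ¬𝔐 ≤ v.asIdeal})) :
    {v : Pr E | Deg1 v ∧ ψ v = x}.Infinite := by
  classical
  obtain ⟨c, hc, h⟩ := dls l hl 𝔐 h𝔐 ψ hψ x hx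
  exact infinite_of_scale (fun v => ψ v = x) c hc h

namespace DLAux

theorem pigeon {β : Type} (S : Finset β) (A : Pr E → Prop) [DecidablePred A] (P : β → Pr E → Prop)
    [∀ b, DecidablePred (P b)] {T : Set (Pr E)} (hT : T.Finite)
    (h : ∀ v ∉ T, A v → ∃ b ∈ S, P b v) (c : ℝ) (hc : 0 < c)
    (hA : ∃ᶠ u : ℝ in atTop, c ≤ ∑' v : Pr E, if A v then wt v * tent (lam v - u) else 0) :
    ∃ b ∈ S, ∃ c : ℝ, 0 < c ∧ ∃ᶠ u : ℝ in atTop,
      c ≤ ∑' v : Pr E, if P b v then wt v * tent (lam v - u) else 0 := by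
  have key : ∃ᶠ u : ℝ in atTop, ∃ b ∈ S,
      c / (S.card + 1) ≤ ∑' v : Pr E, if P b v then wt v * tent (lam v - u) else 0 := by
    refine (hA.and_eventually (ev_tent hT)).mono ?_
    rintro u ⟨h1, h2⟩
    by_contra h3
    push Not at h3
    have h0 : ∀ v : Pr E, 0 ≤ wt v * tent (lam v - u) := fun v =>
      mul_nonneg (wt_nonneg v) (EDAux.tent_nonneg _)
    have h4 : c ≤ ∑ b ∈ S, ∑' v : Pr E, if P b v then wt v * tent (lam v - u) else 0 := by
      rw [← Summable.tsum_finsetSum fun b _ => summable_of u _ fun v h => by simp [h]]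
      refine h1.trans (Summable.tsum_le_tsum (fun v => ?_)
        (summable_of u _ fun v h => by simp [h]) (summable_of u _ fun v h => by simp [h]))
      have h5 : ∀ b ∈ S, 0 ≤ if P b v then wt v * tent (lam v - u) else 0 := fun b _ => by
        split_ifs
        exacts [h0 v, le_rfl]
      split_ifs with e
      · by_cases hv : v ∈ T
        · rw [h2 v hv, mul_zero]
          simp
        · obtain ⟨b, hb, hP⟩ := h v hv e
          refine le_trans ?_ (Finset.single_le_sum h5 hb)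
          rw [if_pos hP]
      · exact Finset.sum_nonneg h5
    have h5 := Finset.sum_le_card_nsmul S _ _ fun b hb => (h3 b hb).le
    rw [nsmul_eq_mul] at h5
    have h6 : (S.card : ℝ) * (c / (S.card + 1)) < c := by
      rw [mul_div_assoc', div_lt_iff₀ (by positivity)]
      nlinarith
    linarith
  obtain ⟨b, hb, h1⟩ := (Finset.frequently_exists S).1 key
  exact ⟨b, hb, _, by positivity, h1⟩

/-- exponent vectors of elements congruent to one -/
def NN (J : Ideal (𝓞 E)) : Submodule (ZMod l) (Pr E →₀ ZMod l) where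
  carrier := {f | ∃ a : 𝓞 E, a ≠ 0 ∧ a - 1 ∈ J ∧
    ∀ v : Pr E, ¬J ≤ v.asIdeal → f v = cnt v (Ideal.span {a})}
  zero_mem' := ⟨1, one_ne_zero, by simp, fun v _ => by simp [cnt_top]⟩
  add_mem' := by
    rintro f g ⟨a, a0, a1, ha⟩ ⟨b, b0, b1, hb⟩
    refine ⟨a * b, mul_ne_zero a0 b0, mul_one_mem a1 b1, fun v hv => ?_⟩
    rw [← Ideal.span_singleton_mul_span_singleton, cnt_mul v (span_ne a0) (span_ne b0),
      Finsupp.add_apply, ha v hv, hb v hv, Nat.cast_add]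
  smul_mem' := by
    rintro r f ⟨a, a0, a1, ha⟩
    refine ⟨a ^ r.val, pow_ne_zero _ a0, pow_one_mem a1 _, fun v hv => ?_⟩
    rw [← Ideal.span_singleton_pow, cnt_pow v (span_ne a0), Finsupp.smul_apply, ha v hv,
      Nat.cast_mul, ZMod.natCast_zmod_val, smul_eq_mul]

/-- the class of a prime -/
noncomputable def ps (J : Ideal (𝓞 E)) (v : Pr E) : (Pr E →₀ ZMod l) ⧸ NN l J :=
  (NN l J).mkQ (Finsupp.single v 1)

theorem deg_single {I : Ideal (𝓞 E)} (hI : I ≠ ⊥) (w : Pr E) :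
    deg (fun v => Finsupp.single v (1 : ZMod l)) I w = cnt w I := by
  have h := map_deg (fun v => Finsupp.single v (1 : ZMod l)) (Finsupp.applyAddHom w) hI
  rw [Finsupp.applyAddHom_apply] at h
  rw [h, deg, finsum_eq_single _ w fun v hv => by simp [Finsupp.single_eq_of_ne' hv]]
  simp

theorem deg_ps (J : Ideal (𝓞 E)) {I : Ideal (𝓞 E)} (hI : I ≠ ⊥) :
    deg (ps l J) I = (NN l J).mkQ (deg (fun v => Finsupp.single v (1 : ZMod l)) I) :=
  (map_deg _ (NN l J).mkQ.toAddMonoidHom hI).symm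

theorem deg_ps_one (J : Ideal (𝓞 E)) {a : 𝓞 E} (ha : a ≠ 0) (h : a - 1 ∈ J) :
    deg (ps l J) (Ideal.span {a}) = 0 := by
  rw [deg_ps l J (span_ne ha), Submodule.mkQ_apply, Submodule.Quotient.mk_eq_zero]
  exact ⟨a, ha, h, fun v _ => deg_single l (span_ne ha) v⟩

theorem finite_quot (J : Ideal (𝓞 E)) (hJ : J ≠ ⊥) : Finite ((Pr E →₀ ZMod l) ⧸ NN l J) := by
  obtain ⟨S, hS0, hS⟩ := ray_finite J hJ
  have h1 : ∀ f : Pr E →₀ ZMod l, ∃ I : Ideal (𝓞 E), I ≠ ⊥ ∧ IsCoprime I J ∧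
      (NN l J).mkQ f = deg (ps l J) I := by
    intro f
    induction f using Finsupp.induction_linear with
    | zero => exact ⟨1, one_ne_zero, isCoprime_one_left, by
        rw [map_zero, Ideal.one_eq_top, deg_top]⟩
    | add f g hf hg =>
      obtain ⟨I, I0, I1, hI⟩ := hf
      obtain ⟨K, K0, K1, hK⟩ := hg
      exact ⟨I * K, mul_ne_zero I0 K0, I1.mul_left K1, by rw [map_add, deg_mul _ I0 K0, hI, hK]⟩
    | single v r =>
      by_cases h : J ≤ v.asIdeal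
      · refine ⟨1, one_ne_zero, isCoprime_one_left, ?_⟩
        rw [Ideal.one_eq_top, deg_top, Submodule.mkQ_apply, Submodule.Quotient.mk_eq_zero]
        refine ⟨1, one_ne_zero, by simp, fun w hw => ?_⟩
        rw [Finsupp.single_eq_of_ne fun e => hw (by rwa [e])]
        simp [cnt_top]
      · refine ⟨v.asIdeal ^ r.val, pow_ne_zero _ v.ne_bot,
          ((coprime_prime hJ v).2 h).pow_left, ?_⟩
        rw [deg_pow _ v.ne_bot, deg_prime, ps, ← map_nsmul, Finsupp.smul_single, nsmul_eq_mul,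
          ZMod.natCast_zmod_val, mul_one]
  refine Finite.of_surjective (fun B : S => deg (ps l J) B.1) fun y => ?_
  obtain ⟨f, rfl⟩ := (NN l J).mkQ_surjective y
  obtain ⟨I, I0, I1, hI⟩ := h1 f
  obtain ⟨B, hB, c, d, c0, d0, c1, d1, h⟩ := hS I I0 I1
  refine ⟨⟨B, hB⟩, ?_⟩
  have h2 := congrArg (deg (ps l J)) h
  rw [deg_mul _ I0 (span_ne c0), deg_mul _ (hS0 B hB).1 (span_ne d0), deg_ps_one l J c0 c1,
    deg_ps_one l J d0 d1, add_zero, add_zero] at h2
  exact h2.symm.trans hI.symm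

theorem of_ps (J : Ideal (𝓞 E)) (hJ : J ≠ ⊥) {θ : 𝓞 E} (h0 : θ ≠ 0)
    (hθ : IsCoprime (Ideal.span {θ}) J) {v : Pr E} (hv : ¬J ≤ v.asIdeal)
    (h : ps l J v = deg (ps l J) (Ideal.span {θ})) :
    ∃ (a : 𝓞 E) (C : Ideal (𝓞 E)), a - 1 ∈ J ∧ C ≠ ⊥ ∧ IsCoprime C J ∧
      Ideal.span {θ * a} = v.asIdeal * C ^ l := by
  classical
  have hl : l.Prime := Fact.out
  rw [deg_ps l J (span_ne h0), ps, Submodule.mkQ_apply, Submodule.mkQ_apply,
    Submodule.Quotient.eq] at h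
  obtain ⟨a, a0, a1, ha⟩ := h
  have t0 := span_ne (mul_ne_zero h0 a0)
  have t1 : IsCoprime (Ideal.span {θ * a}) J := by
    rw [← Ideal.span_singleton_mul_span_singleton]
    exact hθ.mul_left (coprime_of_one a1)
  have h1 : ∀ w : Pr E, ¬J ≤ w.asIdeal →
      (cnt w (Ideal.span {θ * a}) : ZMod l) = cnt w v.asIdeal := by
    intro w hw
    have h2 := ha w hw
    rw [Finsupp.sub_apply, deg_single l (span_ne h0), Finsupp.single_apply] at h2
    rw [← Ideal.span_singleton_mul_span_singleton, cnt_mul w (span_ne h0) (span_ne a0),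
      Nat.cast_add, ← h2, cnt_prime, add_sub_cancel]
    by_cases e : w = v
    · simp [e]
    · simp [e, Ne.symm e]
  obtain ⟨D, hD⟩ : v.asIdeal ∣ Ideal.span {θ * a} := by
    rw [Ideal.dvd_iff_le, ← cnt_ne_zero v t0]
    intro e
    have h2 := h1 v hv
    rw [e, cnt_prime, if_pos rfl] at h2
    simp at h2
  have D0 : D ≠ ⊥ := right_ne_zero_of_mul (hD ▸ t0)
  have D1 : IsCoprime D J := (hD ▸ t1).of_mul_left_right
  obtain ⟨C, rfl⟩ := exists_pow D0 l fun w => by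
    by_cases hw : J ≤ w.asIdeal
    · have := mt (cnt_ne_zero w D0).1 ((coprime_iff hJ).1 D1 w hw)
      rw [not_not.1 this]
      exact dvd_zero l
    · have h2 := h1 w hw
      rw [hD, cnt_mul w v.ne_bot D0, Nat.cast_add, add_eq_left] at h2
      exact (ZMod.natCast_eq_zero_iff _ _).1 h2
  exact ⟨a, C, a1, ne_zero_pow hl.ne_zero D0, (IsCoprime.pow_left_iff hl.pos).1 D1, hD⟩

end DLAux

open Classical in
/-- primes in a ray class up to `l`-th powers -/
theorem primeClass (hl : 2 < l) (M : ℕ) (hM : M ≠ 0) (θ : 𝓞 E) (hθ0 : θ ≠ 0)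
    (hθ : IsCoprime θ (M : 𝓞 E)) :
    ∃ (B : Ideal (𝓞 E)) (ρ : 𝓞 E), B ≠ ⊥ ∧ IsCoprime B (Ideal.span {(M : 𝓞 E)}) ∧
      IsCoprime ρ (M : 𝓞 E) ∧ ∃ c : ℝ, 0 < c ∧ ∃ᶠ u : ℝ in atTop, c ≤ ∑' v : Pr E,
        if ∃ π : 𝓞 E, Ideal.span {π} = v.asIdeal * B ^ l ∧ (M : 𝓞 E) ∣ π - θ * ρ ^ l then
          wt v * tent (lam v - u) else 0 := by
  obtain ⟨J, hJ⟩ : ∃ J, J = Ideal.span {(M : 𝓞 E)} := ⟨_, rfl⟩
  have J0 : J ≠ ⊥ := hJ ▸ DLAux.span_ne (Nat.cast_ne_zero.2 hM)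
  have h1 : IsCoprime (Ideal.span {θ}) J := hJ ▸ (Ideal.isCoprime_span_singleton_iff _ _).2 hθ
  have := DLAux.finite_quot l J J0
  obtain ⟨c, hc, hfr⟩ := dls l hl J J0 (DLAux.ps l J)
    (fun a ha h => (DLAux.deg_span _ ha).symm.trans (DLAux.deg_ps_one l J ha h))
    (DLAux.deg (DLAux.ps l J) (Ideal.span {θ}))
    (DLAux.deg_mem _ (Submodule.span (ZMod l) _).toAddSubgroup (DLAux.span_ne hθ0) fun v hv =>
      Submodule.subset_span ⟨v, fun h => (DLAux.coprime_iff J0).1 h1 v h hv, rfl⟩)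
  obtain ⟨S, hS0, hS⟩ := DLAux.ray_finite J J0
  obtain ⟨B, hB, h⟩ := DLAux.pigeon S _
    (fun B v => ∃ π : 𝓞 E, Ideal.span {π} = v.asIdeal * B ^ l ∧ (M : 𝓞 E) ∣ π - θ * 1 ^ l)
    (Ideal.finite_factors J0) (fun v hv e => by
      obtain ⟨a, C, a1, C0, C1, h⟩ :=
        DLAux.of_ps l J J0 hθ0 h1 (fun h => hv (Ideal.dvd_iff_le.2 h)) e
      obtain ⟨B, hB, c, d, c0, d0, c1, d1, h'⟩ := hS C C0 C1
      have h2 : Ideal.span {θ * a * c ^ l} = Ideal.span {d ^ l} * (v.asIdeal * B ^ l) := by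
        rw [← Ideal.span_singleton_mul_span_singleton, h, ← Ideal.span_singleton_pow,
          ← Ideal.span_singleton_pow, mul_assoc, ← mul_pow, h', mul_pow]
        ring
      obtain ⟨π, -, hπ⟩ := Ideal.mem_span_singleton_mul.1
        (h2 ▸ Ideal.mem_span_singleton_self (θ * a * c ^ l))
      refine ⟨B, hB, π, ?_, ?_⟩
      · apply mul_left_cancel₀ (DLAux.span_ne (pow_ne_zero l d0))
        rw [← h2, Ideal.span_singleton_mul_span_singleton, hπ]
      · rw [← Ideal.mem_span_singleton, ← hJ]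
        have h3 := sub_mem (J.mul_mem_left θ (DLAux.mul_one_mem a1 (DLAux.pow_one_mem c1 l)))
          (J.mul_mem_right π (DLAux.pow_one_mem d1 l))
        convert h3 using 1
        linear_combination hπ) c hc hfr
  exact ⟨B, 1, (hS0 B hB).1, hJ ▸ (hS0 B hB).2, isCoprime_one_left, h⟩

end Pool.Agent.MP_14ad9d_nt.Full
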