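import Pool.Agent.MP_14ad9d_nt.Full.EDK
import Pool.Agent.MP_14ad9d_nt.Full.DL
import Pool.Agent.MP_14ad9d_nt.Full.AddF
import Pool.Agent.MP_14ad9d_nt.Full.AddK1
import Pool.Agent.MP_14ad9d_nt.Full.AddK3

set_option autoImplicit false

open NumberField

namespace Pool.Agent.MP_14ad9d_nt.Full

namespace AddKAux

open Filter Topology

open Classical in
theorem main (l : ℕ) [Fact l.Prime] (hl : 2 < l) (F : Type) [Field F] [NumberField F]
    [IsCyclotomicExtension {l} ℚ F] {K : Type} [Field K] [NumberField K] [Algebra F K]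
    {M : ℕ} (hM : M ≠ 0) (r : 𝓞 F) (hr : r ≠ 0) {B : Ideal (𝓞 K)} (hB : B ≠ ⊥)
    (hBM : IsCoprime B (Ideal.span {(M : 𝓞 K)})) (θ θ' : 𝓞 K)
    (hη : ∀ m : ℕ, m ≠ 0 → ∃ η₁ η₂ : 𝓞 K, IsCoprime η₁ (m : 𝓞 K) ∧
      IsCoprime η₂ (m : 𝓞 K) ∧ RingOfIntegers.norm F η₁ = RingOfIntegers.norm F η₂ ∧
      (M : 𝓞 K) ∣ θ' * η₂ - θ * η₁ ∧ ∃ n : ℕ, Odd n ∧ (m : 𝓞 K) ∣ η₁ ^ n - η₂ ^ n)
    {c : ℝ} (hc : 0 < c) (hfr : ∃ᶠ u : ℝ in atTop, c ≤ ∑' v : Pr K,
      if ∃ π : 𝓞 K, Ideal.span {π} = v.asIdeal * B ^ l ∧ (M : 𝓞 K) ∣ π - θ then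
        wt v * tent (lam v - u) else 0) (X₀ : ℝ) :
    ∃ (va vb : Pr K) (a a' t : 𝓞 F), Deg1 va ∧ Deg1 vb ∧ X₀ ≤ Ideal.absNorm va.asIdeal ∧
      X₀ ≤ Ideal.absNorm vb.asIdeal ∧ a ∈ NSet F l M B θ va ∧ a' ∈ NSet F l M B θ' vb ∧ t ≠ 0 ∧
      (l : 𝓞 F) ∣ t ∧ a' - a = r * t ^ l := by
  have hp : l.Prime := Fact.out
  have : NeZero l := ⟨hp.ne_zero⟩
  have hd : Module.finrank ℚ F = l - 1 := by
    rw [IsCyclotomicExtension.finrank F (Polynomial.cyclotomic.irreducible_rat hp.pos),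
      Nat.totient_prime hp]
  obtain ⟨b, co, cco, hco⟩ := exists_co hd
  obtain ⟨U, hU, hUN⟩ := units_sub (K := K) F hM
  obtain ⟨C, cC, CR, hC⟩ := cocompact U 1
  obtain ⟨L, ω, cL, LR, CL, cω, ω01, ω1, ω0⟩ := exists_omega cC CR
  obtain ⟨R, hR⟩ := cL.exists_bound_of_continuousOn (continuousOn_lnN.mono LR)
  obtain ⟨C₁, hC₁⟩ := cL.exists_bound_of_continuousOn cco.continuousOn
  have hA : ∀ X : ℝ, ∃ A : Finset (𝓞 F), 0 < X → ∀ a, a ∈ A ↔ X⁻¹ • emb (a : F) ∈ L := fun X =>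
    ⟨(finite_emb_mem (cL.image (continuous_const_smul X))).toFinset, fun hX a => by
      rw [Set.Finite.mem_toFinset, Set.mem_ofPred_eq, Set.image_smul,
        Set.mem_smul_set_iff_inv_smul_mem₀ hX.ne']⟩
  choose A hA using hA
  let D : Dat F K :=
    { L := L, ω := ω, R := max 1 R, A := A
      V := fun X => (finite_lam_le (max 1 R + Module.finrank ℚ F * Real.log X)).toFinset
      R1 := le_max_left _ _
      hR := fun y hy => (hR y hy).trans (le_max_right _ _)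
      ω01 := ω01, ω0 := ω0, hA := hA
      hV := fun X v => Set.Finite.mem_toFinset _ }
  have big := D.large (by omega) l M hB
  have hN := norm_pos hB
  have key : ∀ {X : ℝ} {a : 𝓞 F}, D.f l M B θ X a ≠ 0 ∨ D.f l M B θ' X a ≠ 0 →
      a ∈ D.A X ∧ ∃ θ v, Deg1 v ∧ a ∈ NSet F l M B θ v := fun h =>
    h.elim (fun h => ⟨(Dat.f_ne h).1, _, (Dat.f_ne h).2⟩)
      fun h => ⟨(Dat.f_ne h).1, _, (Dat.f_ne h).2⟩
  obtain ⟨X₁, hX₁⟩ := eventually_atTop.1 big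
  obtain ⟨X, hX, a, a', t, h1, h2, h3, h4, h5⟩ := addF l hl F b r hr (Ideal.absNorm B)
    (Nat.cast_pos.1 hN).ne' (D.f l M B θ) (D.f l M B θ')
    (max (Module.finrank ℚ K * (Module.finrank ℚ F + 1)) C₁)
    (c / (Real.exp 1 * Ideal.absNorm B ^ l)) (by positivity) (fun _ _ => Dat.f_nonneg)
    (fun _ _ => Dat.f_nonneg)
    (by
      filter_upwards [D.f_le l M hB, eventually_ge_atTop (1 : ℝ)] with X h hX a
      have := mul_le_mul_of_nonneg_right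
        (le_max_left (Module.finrank ℚ K * (Module.finrank ℚ F + 1) : ℝ) C₁) (Real.log_nonneg hX)
      exact ⟨(h θ a).trans this, (h θ' a).trans this⟩)
    (by
      filter_upwards [eventually_gt_atTop (0 : ℝ)] with X hX a h
      have h1 := (hC₁ _ ((hA X hX a).1 (key h).1)).trans
        (le_max_right (Module.finrank ℚ K * (Module.finrank ℚ F + 1) : ℝ) C₁)
      rw [hco] at h1
      refine (pi_norm_le_iff_of_nonneg (mul_nonneg ((norm_nonneg _).trans h1) hX.le)).2 fun i => ?_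
      have h2 := (norm_le_pi_norm _ i).trans h1
      rwa [norm_div, Real.norm_of_nonneg hX.le, div_le_iff₀ hX, Int.norm_cast_real] at h2)
    (by
      filter_upwards [big] with X h a ha q hq _ hm
      obtain ⟨h1, θ, v, h2, h3⟩ := key ha
      exact (prime_cases h3 h2 hq hm).imp_right fun e =>
        (h θ a v h1 h3).trans (Nat.cast_le.2 e))
    (by
      rw [← hd]
      refine Dat.mass hB (fun X hX v a ha h => ?_) hfr
      obtain ⟨u, hu, e⟩ := hC _ (nset_RZ hB ha hX) h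
      have e' : emb ((u : 𝓞 F) : F) * X⁻¹ • emb (a : F) =
          X⁻¹ • emb (((u : 𝓞 F) * a : 𝓞 F) : F) := by
        ext φ
        simp [emb]
        ring
      rw [e'] at e
      exact ⟨_, hUN l B θ v u hu a ha, (hA X hX _).2 (CL e), ω1 _ e⟩)
    (fun m hm β h ch => by
      have := edk F l M hM B hB hBM θ θ' hη m hm β
        (fun y => ω y * h (co y) * Real.exp (lnN y) / (Ideal.absNorm B : ℂ) ^ l)
        ((((Complex.continuous_ofReal.comp cω).mul (ch.comp cco)).continuousOn.mul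
          (Complex.continuous_ofReal.comp_continuousOn continuousOn_lnN.rexp)).div_const _)
        L cL LR fun y hy e => by simp [ω0 y hy e]
      refine this.congr' ?_
      filter_upwards [eventually_gt_atTop (0 : ℝ)] with X hX
      obtain ⟨T, t1, t2, t3⟩ := Dat.equi (D := D) (l := l) (M := M) (θ := θ) hB hX
        (fun a => (m : 𝓞 F) ∣ a - β) fun y => h (co y)
      obtain ⟨T', s1, s2, s3⟩ := Dat.equi (D := D) (l := l) (M := M) (θ := θ') hB hX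
        (fun a => (m : 𝓞 F) ∣ a - β) fun y => h (co y)
      simp only [hco, hd] at t3 s3
      rw [sub_div]
      refine Eq.trans ?_ (congrArg₂ (· - ·) t3 s3).symm
      rw [← Finset.sum_sub_distrib, ← tsum_eq_sum (L := SummationFilter.unconditional _)
        fun v hv => by rw [t2 v hv, s2 v hv, sub_self]]
      exact tsum_congr fun v => by rw [t1, s1, ← mul_sub])
    (max X₀ X₁)
  obtain ⟨m1, va, d1, n1⟩ := Dat.f_ne h1
  obtain ⟨m2, vb, d2, n2⟩ := Dat.f_ne h2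
  rw [max_le_iff] at hX
  exact ⟨va, vb, a, a', t, d1, d2, hX.1.trans (hX₁ X hX.2 _ _ _ m1 n1),
    hX.1.trans (hX₁ X hX.2 _ _ _ m2 n2), n1, n2, h3, h4, h5⟩

end AddKAux

/-- the additive theorem: two primes in prescribed classes whose norms differ by `r` times an
`l`-th power -/
theorem addK (l : ℕ) [Fact l.Prime] (hl : 2 < l) (F : Type) [Field F] [NumberField F]
    [IsCyclotomicExtension {l} ℚ F] {K : Type} [Field K] [NumberField K] [Algebra F K]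
    [IsGalois F K] (M : ℕ) (hM : M ≠ 0) (r : 𝓞 F) (hr : r ≠ 0) (θ ξ₁ ξ₂ : 𝓞 K)
    (hθ : IsCoprime θ (M : 𝓞 K)) (h₁ : IsCoprime ξ₁ (M : 𝓞 K)) (h₂ : IsCoprime ξ₂ (M : 𝓞 K))
    (T : Finset (Pr K)) :
    ∃ (va vb : Pr K) (B : Ideal (𝓞 K)) (πa πb ρa ρb : 𝓞 K) (t : 𝓞 F),
      va ∉ T ∧ vb ∉ T ∧ Deg1 va ∧ Deg1 vb ∧ B ≠ ⊥ ∧ IsCoprime B (Ideal.span {(M : 𝓞 K)}) ∧
      ¬B ≤ va.asIdeal ∧ ¬B ≤ vb.asIdeal ∧
      IsCoprime ρa (M : 𝓞 K) ∧ IsCoprime ρb (M : 𝓞 K) ∧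
      Ideal.span {πa} = va.asIdeal * B ^ l ∧ Ideal.span {πb} = vb.asIdeal * B ^ l ∧
      (M : 𝓞 K) ∣ πa * algebraMap (𝓞 F) (𝓞 K) (RingOfIntegers.norm F ξ₁) -
        θ * ξ₁ ^ Module.finrank F K * ρa ^ l ∧
      (M : 𝓞 K) ∣ πb * algebraMap (𝓞 F) (𝓞 K) (RingOfIntegers.norm F ξ₂) -
        θ * ξ₂ ^ Module.finrank F K * ρb ^ l ∧
      t ≠ 0 ∧ (l : 𝓞 F) ∣ t ∧
      RingOfIntegers.norm F πb - RingOfIntegers.norm F πa = r * t ^ l := by
  obtain ⟨θ₀, h0, c0, d0⟩ := AddKAux.exists_theta0 (F := F) hM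
    (hθ.mul_left (h₁.pow_left (m := Module.finrank F K))) h₁
  obtain ⟨B, ρ, hB, hBM, cρ, c, hc, hfr⟩ := primeClass l hl M hM θ₀ h0 c0
  obtain ⟨θ', s, cs, ds, hη⟩ := AddKAux.alg (F := F) Fact.out hl hM h₁ h₂ (θ₀ * ρ ^ l)
  obtain ⟨va, vb, _, _, t, d1, d2, l1, l2, ⟨πa, a1, a2, rfl⟩, ⟨πb, b1, b2, rfl⟩, h3, h4, h5⟩ :=
    AddKAux.main l hl F hM r hr hB hBM _ θ' hη hc hfr
      ((Ideal.absNorm B + ∑ v ∈ T, Ideal.absNorm v.asIdeal + 1 : ℕ) : ℝ)
  have key : ∀ v : Pr K, ((Ideal.absNorm B + ∑ v ∈ T, Ideal.absNorm v.asIdeal + 1 : ℕ) : ℝ) ≤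
      Ideal.absNorm v.asIdeal → v ∉ T ∧ ¬B ≤ v.asIdeal := fun v h => by
    rw [Nat.cast_le] at h
    refine ⟨fun hv => ?_, fun hv => ?_⟩
    · have := Finset.single_le_sum (f := fun v : Pr K => Ideal.absNorm v.asIdeal)
        (fun _ _ => Nat.zero_le _) hv
      omega
    · have := Nat.le_of_dvd (Nat.cast_pos.1 (AddKAux.norm_pos hB))
        (Ideal.absNorm_dvd_absNorm_of_le hv)
      omega
  refine ⟨va, vb, B, πa, πb, ρ, ρ * s, t, (key _ l1).1, (key _ l2).1, d1, d2, hB, hBM,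
    (key _ l1).2, (key _ l2).2, cρ, cρ.mul_left cs, a1, b1, ?_, ?_, h3, h4, h5⟩
  · have := (a2.mul_right (algebraMap (𝓞 F) (𝓞 K) (RingOfIntegers.norm F ξ₁))).add
      (d0.mul_right (ρ ^ l))
    convert this using 1
    ring
  · refine (h₁.pow_left (m := Module.finrank F K)).symm.dvd_of_dvd_mul_left ?_
    have := ((b2.mul_right (ξ₁ ^ Module.finrank F K *
      algebraMap (𝓞 F) (𝓞 K) (RingOfIntegers.norm F ξ₂))).add ds).add
      (d0.mul_right (ρ ^ l * s ^ l * ξ₂ ^ Module.finrank F K))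
    convert this using 1
    ring

end Pool.Agent.MP_14ad9d_nt.Full
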