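import Pool.Agent.MP_14ad9d_nt.Full.Torus

set_option autoImplicit false

open NumberField

namespace Pool.Agent.MP_14ad9d_nt.Full.AddKAux

variable {F K : Type} [Field F] [NumberField F] [Field K] [NumberField K] [Algebra F K]
  {l M : ℕ} {B : Ideal (𝓞 K)} {θ : 𝓞 K} {v : Pr K} {a : 𝓞 F}

theorem nset_norm (ha : a ∈ NSet F l M B θ v) :
    Ideal.absNorm (Ideal.span {a}) = Ideal.absNorm v.asIdeal * Ideal.absNorm B ^ l := by
  obtain ⟨π, h1, -, rfl⟩ := ha
  rw [← map_pow, ← map_mul, ← h1, Ideal.absNorm_span_singleton, Ideal.absNorm_span_singleton]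
  congr 1
  have : ((Algebra.norm ℤ (RingOfIntegers.norm F π) : ℤ) : ℚ) = Algebra.norm ℤ π := by
    rw [Algebra.coe_norm_int, Algebra.coe_norm_int, RingOfIntegers.coe_norm, Algebra.norm_norm]
  exact_mod_cast this

theorem norm_pos {I : Ideal (𝓞 K)} (h : I ≠ ⊥) : (0 : ℝ) < Ideal.absNorm I :=
  Nat.cast_pos.2 (Nat.pos_of_ne_zero fun e => h (Ideal.absNorm_eq_zero_iff.1 e))

theorem nset_ne (hB : B ≠ ⊥) (ha : a ∈ NSet F l M B θ v) : a ≠ 0 := fun e => by
  have := nset_norm ha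
  rw [e, Ideal.span_singleton_eq_bot.2 rfl, Ideal.absNorm_bot] at this
  have h1 := norm_pos hB
  have h2 := norm_pos v.ne_bot
  have : (Ideal.absNorm v.asIdeal : ℝ) * Ideal.absNorm B ^ l = 0 := by exact_mod_cast this.symm
  exact absurd this (by positivity)

omit [NumberField F] in
theorem smul_RZ {z : (F →+* ℂ) → ℂ} (hz : z ∈ RZ F) {t : ℝ} (ht : 0 < t) : t • z ∈ RZ F :=
  ⟨fun φ => by simpa using ⟨ht.ne', hz.1 φ⟩, fun φ => by simp [hz.2 φ]⟩

theorem lnN_smul {z : (F →+* ℂ) → ℂ} (hz : z ∈ RZ F) {t : ℝ} (ht : 0 < t) :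
    lnN (t • z) = Module.finrank ℚ F * Real.log t + lnN z := by
  rw [lnN, lnN, ← Embeddings.card F ℂ, ← nsmul_eq_mul, ← Finset.card_univ, ← Finset.sum_const,
    ← Finset.sum_add_distrib]
  refine Finset.sum_congr rfl fun φ _ => ?_
  rw [Pi.smul_apply, norm_smul, Real.norm_of_nonneg ht.le,
    Real.log_mul ht.ne' (norm_ne_zero_iff.2 (hz.1 φ))]

theorem nset_RZ (hB : B ≠ ⊥) (ha : a ∈ NSet F l M B θ v) {X : ℝ} (hX : 0 < X) :
    X⁻¹ • emb (a : F) ∈ RZ F :=
  smul_RZ (emb_mem_RZ (by simpa using nset_ne hB ha)) (inv_pos.2 hX)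

theorem nset_lnN (hB : B ≠ ⊥) (ha : a ∈ NSet F l M B θ v) {X : ℝ} (hX : 0 < X) :
    lnN (X⁻¹ • emb (a : F)) =
      lam v + l * Real.log (Ideal.absNorm B) - Module.finrank ℚ F * Real.log X := by
  have h0 : (a : F) ≠ 0 := by simpa using nset_ne hB ha
  have h1 := nset_norm ha
  rw [Ideal.absNorm_span_singleton] at h1
  have h2 : |((Algebra.norm ℚ (a : F) : ℚ) : ℝ)| =
      Ideal.absNorm v.asIdeal * (Ideal.absNorm B : ℝ) ^ l := by
    rw [← Algebra.coe_norm_int, Rat.cast_intCast, ← Int.cast_abs, ← Int.natCast_natAbs, h1]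
    push_cast
    rfl
  rw [lnN_smul (emb_mem_RZ h0) (inv_pos.2 hX), lnN_emb h0, h2,
    Real.log_mul (norm_pos v.ne_bot).ne' (pow_pos (norm_pos hB) l).ne', Real.log_pow,
    Real.log_inv, lam]
  ring

theorem continuousOn_lnN : ContinuousOn (lnN (E := F)) (RZ F) :=
  continuousOn_finsetSum _ fun φ _ =>
    ((continuous_apply φ).norm.continuousOn).log fun _ hz => norm_ne_zero_iff.2 (hz.1 φ)

theorem exists_co {d : ℕ} (hd : Module.finrank ℚ F = d) :
    ∃ (b : Module.Basis (Fin d) ℤ (𝓞 F)) (co : ((F →+* ℂ) → ℂ) → Fin d → ℝ), Continuous co ∧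
      ∀ (t : ℝ) (a : 𝓞 F), co (t⁻¹ • emb (a : F)) = fun i => (b.equivFun a i : ℝ) / t := by
  let e : Module.Free.ChooseBasisIndex ℤ (𝓞 F) ≃ Fin d := Fintype.equivFinOfCardEq (by
    rw [← Module.finrank_eq_card_chooseBasisIndex, RingOfIntegers.rank, hd])
  refine ⟨(RingOfIntegers.basis F).reindex e,
    fun y i => ((canonicalEmbedding.latticeBasis F).coord (e.symm i) y).re,
    continuous_pi fun i => Complex.continuous_re.comp
      (LinearMap.continuous_of_finiteDimensional _), fun t a => funext fun i => ?_⟩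
  have h1 : (t⁻¹ : ℝ) • emb (a : F) = ((t⁻¹ : ℝ) : ℂ) • canonicalEmbedding F (a : F) := by
    ext φ
    simp [emb]
  beta_reduce
  rw [h1, map_smul, Module.Basis.coord_apply, canonicalEmbedding.integralBasis_repr_apply,
    RingOfIntegers.coe_eq_algebraMap, integralBasis_repr_apply, smul_eq_mul,
    Complex.re_ofReal_mul, div_eq_inv_mul]
  simp

theorem exists_omega {C : Set ((F →+* ℂ) → ℂ)} (hC : IsCompact C) (hCR : C ⊆ RZ F) :
    ∃ (L : Set ((F →+* ℂ) → ℂ)) (ω : ((F →+* ℂ) → ℂ) → ℝ), IsCompact L ∧ L ⊆ RZ F ∧ C ⊆ L ∧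
      Continuous ω ∧ (∀ y, 0 ≤ ω y ∧ ω y ≤ 1) ∧ (∀ y ∈ C, ω y = 1) ∧
      ∀ y ∈ RZ F, y ∉ L → ω y = 0 := by
  have ho : IsOpen (NZ F) := by
    rw [NZ, Set.ofPred_forall]
    exact isOpen_iInter_of_finite fun φ => isOpen_ne_fun (continuous_apply φ) continuous_const
  obtain ⟨L, cL, h1, h2⟩ := exists_compact_between hC ho fun z hz => (hCR hz).1
  obtain ⟨ω, o1, o0, -, o⟩ := exists_continuous_one_zero_of_isCompact hC
    (isOpen_interior (s := L)).isClosed_compl (Set.disjoint_compl_right_iff_subset.2 h1)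
  let D : Set ((F →+* ℂ) → ℂ) :=
    {z | ∀ φ, z (ComplexEmbedding.conjugate φ) = (starRingEnd ℂ) (z φ)}
  have cD : IsClosed D := by
    simp only [D, Set.ofPred_forall]
    exact isClosed_iInter fun φ => isClosed_eq (continuous_apply _)
      (Complex.continuous_conj.comp (continuous_apply φ))
  exact ⟨L ∩ D, ω, cL.inter_right cD, fun z hz => ⟨h2 hz.1, hz.2⟩,
    fun z hz => ⟨interior_subset (h1 hz), (hCR hz).2⟩, ω.continuous, o, o1,
    fun y hy h => o0 fun c => h ⟨interior_subset c, hy.2⟩⟩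

theorem card_le {p : ℕ} (hp : p.Prime) (s : Finset (Pr K))
    (h : ∀ v ∈ s, Ideal.absNorm v.asIdeal = p) : s.card ≤ Module.finrank ℚ K := by
  have h1 : ∏ v ∈ s, v.asIdeal ∣ Ideal.span {(p : 𝓞 K)} := by
    refine Finset.prod_dvd_of_coprime (fun v _ w _ ne => ?_) fun v hv => ?_
    · exact (Ideal.isCoprime_iff_sup_eq.2 (v.isMaximal.coprime_of_ne w.isMaximal
        fun e => ne (IsDedekindDomain.HeightOneSpectrum.ext e)))
    · rw [Ideal.dvd_span_singleton, ← h v hv]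
      exact Ideal.absNorm_mem _
  have h2 := map_dvd Ideal.absNorm h1
  rw [map_prod, Finset.prod_congr rfl h, Finset.prod_const, Ideal.absNorm_span_natCast,
    RingOfIntegers.rank] at h2
  exact (Nat.pow_dvd_pow_iff_le_right hp.one_lt).1 h2

theorem prime_cases (ha : a ∈ NSet F l M B θ v) (hv : Deg1 v) {q : Ideal (𝓞 F)} (hq : q.IsPrime)
    (h : a ∈ q) :
    ((Ideal.absNorm B : ℕ) : 𝓞 F) ∈ q ∨ Ideal.absNorm v.asIdeal ≤ Ideal.absNorm q := by
  have h1 := (Ideal.span_singleton_le_iff_mem q).2 h (Ideal.absNorm_mem _)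
  rw [nset_norm ha, Nat.cast_mul, Nat.cast_pow] at h1
  rcases hq.mem_or_mem h1 with c | c
  · have h2 := Ideal.absNorm_dvd_absNorm_of_le ((Ideal.span_singleton_le_iff_mem q).2 c)
    rw [Ideal.absNorm_span_natCast] at h2
    obtain ⟨i, -, e⟩ := (Nat.dvd_prime_pow hv).1 h2
    have hi : i ≠ 0 := fun z => hq.ne_top (Ideal.absNorm_eq_one_iff.1 (by rw [e, z, pow_zero]))
    exact Or.inr (e ▸ Nat.le_self_pow hi _)
  · exact Or.inl (hq.mem_of_pow_mem _ c)

end Pool.Agent.MP_14ad9d_nt.Full.AddKAux
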