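import Mathlib

set_option autoImplicit false

open Polynomial

namespace Pool.Agent.MP_14ad9d_nt.Full

variable (l : ℕ) {k k' : Type} [Field k] [Field k']

/-- the right hand side of the equation of the curve -/
noncomputable def FF (s : kˣ) : k[X] := X ^ l + C ((s : k) ^ 2)

/-- the affine coordinate ring of the curve -/
abbrev CR (s : kˣ) : Type := QuadraticAlgebra k[X] (FF l s) 0

/-- a map of coordinate rings induced by a map of polynomial rings -/
noncomputable def rmap {s : kˣ} {s' : k'ˣ} (f : k[X] →+* k'[X]) (hf : f (FF l s) = FF l s') :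
    CR l s →+* CR l s' where
  toFun z := ⟨f z.re, f z.im⟩
  map_one' := by ext1 <;> simp [QuadraticAlgebra.re_one, QuadraticAlgebra.im_one]
  map_mul' x y := by ext1 <;> simp [hf]
  map_zero' := by ext1 <;> simp
  map_add' x y := by ext1 <;> simp

theorem rmap_re {s : kˣ} {s' : k'ˣ} (f : k[X] →+* k'[X]) (hf : f (FF l s) = FF l s')
    (z : CR l s) : (rmap l f hf z).re = f z.re := rfl

theorem rmap_im {s : kˣ} {s' : k'ˣ} (f : k[X] →+* k'[X]) (hf : f (FF l s) = FF l s')
    (z : CR l s) : (rmap l f hf z).im = f z.im := rfl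

theorem rmap_inj {s : kˣ} {s' : k'ˣ} (f : k[X] →+* k'[X]) (hf : f (FF l s) = FF l s')
    (hi : Function.Injective f) : Function.Injective (rmap l f hf) := fun _ _ h =>
  QuadraticAlgebra.ext (hi (congrArg QuadraticAlgebra.re h)) (hi (congrArg QuadraticAlgebra.im h))

/-- change of the constant field -/
noncomputable def cf {s : kˣ} {s' : k'ˣ} (f : k →+* k') (h : f s = s') : CR l s →+* CR l s' :=
  rmap l (mapRingHom f) (by simp [FF, h])

theorem cf_inj {s : kˣ} {s' : k'ˣ} (f : k →+* k') (h : f s = s') :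
    Function.Injective (cf l f h) :=
  rmap_inj l _ _ (map_injective f f.injective)

/-- the automorphism that multiplies the first coordinate by a root of unity -/
noncomputable def sg (s : kˣ) {ζ : k} (h : IsPrimitiveRoot ζ l) : CR l s →+* CR l s :=
  rmap l (compRingHom (C ζ * X)) (by
    change (FF l s).comp (C ζ * X) = FF l s
    rw [FF, add_comp, C_comp, X_pow_comp, mul_pow, ← C_pow, h.pow_eq_one, C_1, one_mul])

theorem sg_inj [Fact l.Prime] (s : kˣ) {ζ : k} (h : IsPrimitiveRoot ζ l) :
    Function.Injective (sg l s h) := by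
  refine rmap_inj l _ _ ((injective_iff_map_eq_zero _).2 fun p hp => ?_)
  have h0 : ζ ≠ 0 := h.ne_zero (Fact.out : l.Prime).ne_zero
  have h1 : (p.comp (C ζ * X)).comp (C ζ⁻¹ * X) = p := by
    rw [comp_assoc, mul_comp, C_comp, X_comp, ← mul_assoc, ← C_mul, mul_inv_cancel₀ h0, C_1,
      one_mul, comp_X]
  have h2 : p.comp (C ζ * X) = 0 := hp
  rw [← h1, h2, zero_comp]

/-- the value of a function at the point with coordinates `a`, `b` -/
noncomputable def evp {s : kˣ} (a b : k) (z : CR l s) : k := z.re.eval a + b * z.im.eval a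

/-- the ideal generated by `u` and `y - v` -/
noncomputable def mum (s : kˣ) (u v : k[X]) : Ideal (CR l s) := Ideal.span {⟨u, 0⟩, ⟨-v, 1⟩}

/-- the ideal of a point -/
noncomputable def pt (s : kˣ) (a b : k) : Ideal (CR l s) := mum l s (X - C a) (C b)

/-- a pair of Mumford coordinates -/
def IsMum (s : kˣ) (u v : k[X]) : Prop := u.Monic ∧ v.degree < u.degree ∧ u ∣ v ^ 2 - FF l s

end Pool.Agent.MP_14ad9d_nt.Full
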