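import Pool.Agent.MP_14ad9d_nt.Full.Dual1

set_option autoImplicit false

namespace Pool.Agent.MP_14ad9d_nt.Full.DualAux

open Pool.Agent.MP_14ad9d_nt.Full

section

variable {k G H P : Type} [Field k] [Group G] [AddCommGroup H] [Module k H] [MulAction G P]
  (M : Mach k G H P)

theorem tame_swap (p : P) (x y : H) : M.tame p x y = -M.tame p y x := by
  have h := M.tame_self p (x + y)
  simp only [map_add, LinearMap.add_apply, M.tame_self] at h
  linear_combination h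

theorem tame_eq (p : P) (x y : H) :
    M.tame p x y = M.ord p y * M.chi p x - M.ord p x * M.chi p y := by
  have h := M.tame_unr p (x - M.ord p x • M.unif p) (y - M.ord p y • M.unif p)
    (by simp [M.ord_unif]) (by simp [M.ord_unif])
  simp only [map_sub, map_smul, LinearMap.sub_apply, LinearMap.smul_apply, smul_eq_mul,
    M.tame_self] at h
  rw [tame_swap M p (M.unif p) y] at h
  unfold Mach.chi
  linear_combination h

theorem tame_fin (x y : H) : Function.HasFiniteSupport fun p => M.tame p x y := by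
  refine ((M.ord_fin x).union (M.ord_fin y)).subset fun p hp => ?_
  by_contra hc
  simp only [Set.mem_union, Set.mem_ofPred_eq, not_or, not_not] at hc
  exact hp (M.tame_unr p x y hc.1 hc.2)

/-- the sum of the tame symbols as a bilinear form -/
noncomputable def PhiL : H →ₗ[k] H →ₗ[k] k :=
  LinearMap.mk₂ k M.Phi
    (fun x x' y => by
      unfold Mach.Phi
      rw [← finsum_add_distrib (tame_fin M x y) (tame_fin M x' y)]
      simp only [map_add, LinearMap.add_apply])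
    (fun c x y => by
      unfold Mach.Phi
      rw [smul_eq_mul, mul_finsum]
      simp only [map_smul, LinearMap.smul_apply, smul_eq_mul])
    (fun x y y' => by
      unfold Mach.Phi
      rw [← finsum_add_distrib (tame_fin M x y) (tame_fin M x y')]
      simp only [map_add])
    (fun c x y => by
      unfold Mach.Phi
      rw [smul_eq_mul, mul_finsum]
      simp only [map_smul, smul_eq_mul])

theorem PhiL_apply (x y : H) : PhiL M x y = M.Phi x y := rfl

theorem PhiL_swap (x y : H) : PhiL M x y = -PhiL M y x := by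
  rw [PhiL_apply, PhiL_apply]
  unfold Mach.Phi
  rw [← finsum_neg_distrib]
  exact finsum_congr fun p => tame_swap M p x y

theorem PhiL_act (g : G) (x y : H) : PhiL M (M.ρ g x) (M.ρ g y) = PhiL M x y := by
  rw [PhiL_apply, PhiL_apply]
  unfold Mach.Phi
  rw [← finsum_comp_equiv (MulAction.toPerm g)]
  exact finsum_congr fun p => M.tame_act g p x y

theorem PhiL_prim (x : H) {y : H} (hy : y ∈ M.Prim) : PhiL M x y = 0 := M.recip x y hy

theorem mem_Unr {S : Set P} {x : H} : x ∈ M.Unr S ↔ ∀ p, p ∉ S → M.ord p x = 0 := by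
  simp [Mach.Unr, Submodule.mem_iInf]

theorem ord_act' (g : G) (p : P) (x : H) : M.ord p (M.ρ g x) = M.ord (g⁻¹ • p) x := by
  rw [← M.ord_act g (g⁻¹ • p) x, smul_inv_smul]

theorem chi_act (g : G) (p : P) {x : H} (hx : M.ord p x = 0) :
    M.chi (g • p) (M.ρ g x) = M.chi p x := by
  have e : M.unif (g • p) = M.ρ g (M.ρ g⁻¹ (M.unif (g • p))) := by
    rw [← Module.End.mul_apply, ← map_mul, mul_inv_cancel, map_one, Module.End.one_apply]
  have h1 : M.ord p (M.ρ g⁻¹ (M.unif (g • p))) = 1 := by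
    rw [ord_act', inv_inv, M.ord_unif]
  rw [Mach.chi, e, M.tame_act, tame_eq, h1, hx, one_mul, zero_mul, sub_zero]

/-- the residue symbol as a linear form -/
def chiL (p : P) : H →ₗ[k] k := (M.tame p).flip (M.unif p)

theorem chiL_apply (p : P) (x : H) : chiL M p x = M.chi p x := rfl

variable [Fintype G] (D : M.Dual)

theorem ord_ι' (p : P) (x : H) : M.ord p (D.ι x) = M.ord (D.ιP p) x := by
  rw [← D.ord_ι (D.ιP p) x, D.ιP_ιP]

theorem chi_ι (p : P) {x : H} (hx : M.ord p x = 0) :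
    M.chi (D.ιP p) (D.ι x) = -M.chi p x := by
  have h1 : M.ord p (D.ι (M.unif (D.ιP p))) = 1 := by
    rw [ord_ι', M.ord_unif]
  rw [Mach.chi, ← D.ι_ι (M.unif (D.ιP p)), D.tame_ι, tame_eq, h1, hx, one_mul, zero_mul, sub_zero]

theorem PhiL_ι (x y : H) : PhiL M (D.ι x) (D.ι y) = -PhiL M x y := by
  rw [PhiL_apply, PhiL_apply]
  unfold Mach.Phi
  rw [← finsum_neg_distrib, ← finsum_comp_equiv (Function.Involutive.toPerm D.ιP D.ιP_ιP)]
  exact finsum_congr fun p => D.tame_ι p x y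

/-- classes of order zero on `S` -/
def O0 : Submodule k H := ⨅ p ∈ D.S, LinearMap.ker (M.ord p)

theorem mem_O0 {x : H} : x ∈ O0 M D ↔ ∀ p ∈ D.S, M.ord p x = 0 := by
  simp [O0, Submodule.mem_iInf]

/-- classes with trivial residue symbol on `S` -/
def C0 : Submodule k H := ⨅ p ∈ D.S, LinearMap.ker (chiL M p)

theorem mem_C0 {x : H} : x ∈ C0 M D ↔ ∀ p ∈ D.S, M.chi p x = 0 := by
  simp [C0, Submodule.mem_iInf, chiL_apply]

/-- primary classes trivial on `S` -/
def NN : Submodule k H := M.Prim ⊓ O0 M D ⊓ C0 M D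

/-- classes all of whose conjugates satisfy the local condition -/
def L1 : Submodule k H := ⨅ g, D.L0.comap (M.ρ g)

theorem mem_L1 {x : H} : x ∈ L1 M D ↔ ∀ g, M.ρ g x ∈ D.L0 := by
  simp [L1, Submodule.mem_iInf]

theorem stab_O0 : Stab M.ρ (O0 M D) := by
  intro g x hx
  rw [mem_O0] at hx ⊢
  intro p hp
  rw [ord_act']
  exact hx _ (D.S_act _ p hp)

theorem ι_O0 : ∀ x ∈ O0 M D, D.ι x ∈ O0 M D := by
  intro x hx
  rw [mem_O0] at hx ⊢
  intro p hp
  rw [ord_ι']
  exact hx _ (D.S_ι p hp)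

theorem ι_Prim : ∀ x ∈ M.Prim, D.ι x ∈ M.Prim := by
  intro x hx
  rw [D.Prim_iff] at hx ⊢
  intro g
  rw [← D.ι_ρ]
  exact D.P0_ι _ (hx g)

theorem stab_L1 : Stab M.ρ (L1 M D) := by
  intro g x hx
  rw [mem_L1] at hx ⊢
  intro h
  rw [← Module.End.mul_apply, ← map_mul]
  exact hx _

theorem ι_L1 : ∀ x ∈ L1 M D, D.ι x ∈ L1 M D := by
  intro x hx
  rw [mem_L1] at hx ⊢
  intro g
  rw [← D.ι_ρ]
  exact D.L0_ι _ (hx g)

theorem Prim_le_L1 : M.Prim ≤ L1 M D := fun x hx =>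
  (mem_L1 M D).2 fun g => D.P0_le ((D.Prim_iff x).1 hx g)

theorem stab_NN : Stab M.ρ (NN M D) := by
  intro g x hx
  refine ⟨⟨M.Prim_stab g x hx.1.1, stab_O0 M D g x hx.1.2⟩, (mem_C0 M D).2 fun p hp => ?_⟩
  have h1 := D.S_act g⁻¹ p hp
  have h2 := chi_act M g (g⁻¹ • p) ((mem_O0 M D).1 hx.1.2 _ h1)
  rw [smul_inv_smul] at h2
  rw [h2]
  exact (mem_C0 M D).1 hx.2 _ h1

theorem ι_NN : ∀ x ∈ NN M D, D.ι x ∈ NN M D := by
  intro x hx
  refine ⟨⟨ι_Prim M D x hx.1.1, ι_O0 M D x hx.1.2⟩, (mem_C0 M D).2 fun p hp => ?_⟩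
  have h1 := D.S_ι p hp
  have h2 := chi_ι M D (D.ιP p) ((mem_O0 M D).1 hx.1.2 _ h1)
  rw [D.ιP_ιP] at h2
  rw [h2, (mem_C0 M D).1 hx.2 _ h1, neg_zero]

theorem stab_U : Stab M.ρ (M.Unr D.S) := by
  intro g x hx
  rw [mem_Unr] at hx ⊢
  intro p hp
  rw [ord_act']
  refine hx _ fun h => hp ?_
  have := D.S_act g _ h
  rwa [smul_inv_smul] at this

theorem ι_U : ∀ x ∈ M.Unr D.S, D.ι x ∈ M.Unr D.S := by
  intro x hx
  rw [mem_Unr] at hx ⊢
  intro p hp
  rw [ord_ι']
  refine hx _ fun h => hp ?_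
  have := D.S_ι _ h
  rwa [D.ιP_ιP] at this

omit [Fintype G] in
theorem stab_U0 : Stab M.ρ (M.Unr ∅) := by
  intro g x hx
  rw [mem_Unr] at hx ⊢
  intro p _
  rw [ord_act']
  exact hx _ (Set.notMem_empty _)

theorem ι_U0 : ∀ x ∈ M.Unr ∅, D.ι x ∈ M.Unr ∅ := by
  intro x hx
  rw [mem_Unr] at hx ⊢
  intro p _
  rw [ord_ι']
  exact hx _ (Set.notMem_empty _)

/-- the pairing outside `S` -/
noncomputable def BB : H →ₗ[k] H →ₗ[k] k := ∑ p ∈ D.S, M.tame p - PhiL M

theorem BB_apply (x y : H) : BB M D x y = ∑ p ∈ D.S, M.tame p x y - PhiL M x y := by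
  simp [BB, LinearMap.sum_apply]

theorem BB_swap (x y : H) : BB M D x y = -BB M D y x := by
  rw [BB_apply, BB_apply, PhiL_swap M x y, Finset.sum_congr rfl fun p _ => tame_swap M p x y,
    Finset.sum_neg_distrib]
  ring

theorem BB_act (g : G) (x y : H) : BB M D (M.ρ g x) (M.ρ g y) = BB M D x y := by
  rw [BB_apply, BB_apply, PhiL_act]
  congr 1
  symm
  refine Finset.sum_nbij' (fun p => g • p) (fun p => g⁻¹ • p) (fun p hp => D.S_act g p hp)
    (fun p hp => D.S_act g⁻¹ p hp) (fun p _ => inv_smul_smul g p) (fun p _ => smul_inv_smul g p)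
    fun p _ => (M.tame_act g p x y).symm

theorem BB_ι (x y : H) : BB M D (D.ι x) (D.ι y) = -BB M D x y := by
  rw [BB_apply, BB_apply, PhiL_ι]
  have : ∑ p ∈ D.S, -M.tame p x y = ∑ p ∈ D.S, M.tame p (D.ι x) (D.ι y) :=
    Finset.sum_nbij' D.ιP D.ιP (fun p hp => D.S_ι p hp) (fun p hp => D.S_ι p hp)
      (fun p _ => D.ιP_ιP p) (fun p _ => D.ιP_ιP p) fun p _ => (D.tame_ι p x y).symm
  rw [← this, Finset.sum_neg_distrib]
  ring

theorem BB_prim (x : H) {y : H} (hy : y ∈ M.Prim) :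
    BB M D x y = ∑ p ∈ D.S, (M.ord p y * M.chi p x - M.ord p x * M.chi p y) := by
  rw [BB_apply, PhiL_prim M x hy, sub_zero]
  exact Finset.sum_congr rfl fun p _ => tame_eq M p x y

theorem BB_N (x : H) {y : H} (hy : y ∈ NN M D) : BB M D x y = 0 := by
  rw [BB_prim M D x hy.1.1]
  refine Finset.sum_eq_zero fun p hp => ?_
  rw [(mem_O0 M D).1 hy.1.2 p hp, (mem_C0 M D).1 hy.2 p hp]
  ring

theorem BB_N' {x : H} (hx : x ∈ NN M D) (y : H) : BB M D x y = 0 := by
  rw [BB_swap, BB_N M D y hx, neg_zero]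

theorem BB_U {x y : H} (hx : x ∈ M.Unr D.S) (hy : y ∈ M.Unr D.S) : BB M D x y = 0 := by
  rw [BB_apply, PhiL_apply, Mach.Phi, finsum_eq_sum_of_support_subset (s := D.S), sub_self]
  intro p hp
  by_contra hc
  exact hp (M.tame_unr p x y ((mem_Unr M).1 hx p hc) ((mem_Unr M).1 hy p hc))

theorem BB_O0 {x y : H} (hx : x ∈ O0 M D) (hy : y ∈ O0 M D) : BB M D x y = -PhiL M x y := by
  rw [BB_apply, Finset.sum_eq_zero, zero_sub]
  exact fun p hp => M.tame_unr p x y ((mem_O0 M D).1 hx p hp) ((mem_O0 M D).1 hy p hp)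

theorem wa0 (o c : P → k) :
    ∃ x ∈ M.Prim, ∀ p ∈ D.S, M.ord p x = o p ∧ M.chi p x = c p := by
  obtain ⟨x, h1, h2⟩ := D.wa D.S o c 0
  exact ⟨x, (D.Prim_iff x).2 fun g => by simpa using h1 g, h2⟩

theorem ord_zero_of_test {x : H} (h : ∀ y ∈ M.Prim ⊓ O0 M D, BB M D x y = 0) : x ∈ O0 M D := by
  classical
  rw [mem_O0]
  intro p hp
  obtain ⟨y, hy, hy'⟩ := wa0 M D 0 (Pi.single p 1)
  have h1 := h y ⟨hy, (mem_O0 M D).2 fun q hq => (hy' q hq).1⟩
  rw [BB_prim M D x hy, Finset.sum_eq_single p] at h1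
  · rw [(hy' p hp).1, (hy' p hp).2] at h1
    simpa using h1
  · intro q hq hqp
    rw [(hy' q hq).1, (hy' q hq).2]
    simp [hqp]
  · exact fun hc => absurd hp hc

theorem chi_zero_of_test {x : H} (h : ∀ y ∈ M.Prim, BB M D x y = 0) : x ∈ C0 M D := by
  classical
  rw [mem_C0]
  intro p hp
  obtain ⟨y, hy, hy'⟩ := wa0 M D (Pi.single p 1) 0
  have h1 := h y hy
  rw [BB_prim M D x hy, Finset.sum_eq_single p] at h1
  · rw [(hy' p hp).1, (hy' p hp).2] at h1
    simpa using h1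
  · intro q hq hqp
    rw [(hy' q hq).1, (hy' q hq).2]
    simp [hqp]
  · exact fun hc => absurd hp hc

theorem U0_of {x : H} (hx : x ∈ M.Unr D.S) (h : x ∈ O0 M D) : x ∈ M.Unr ∅ := by
  rw [mem_Unr]
  intro p _
  by_cases hp : p ∈ D.S
  · exact (mem_O0 M D).1 h p hp
  · exact (mem_Unr M).1 hx p hp

theorem U0_le_U : M.Unr ∅ ≤ M.Unr D.S := fun _ hx =>
  (mem_Unr M).2 fun p _ => (mem_Unr M).1 hx p (Set.notMem_empty _)

theorem U0_le_O0 : M.Unr ∅ ≤ O0 M D := fun _ hx =>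
  (mem_O0 M D).2 fun p _ => (mem_Unr M).1 hx p (Set.notMem_empty _)

theorem U_N {x : H} (hx : x ∈ M.Unr D.S) (h : x ∈ NN M D) : x = 0 :=
  D.detect x (fun p => (mem_Unr M).1 (U0_of M D hx h.1.2) p (Set.notMem_empty _))
    ((mem_C0 M D).1 h.2)

theorem U_rad {x : H} (hx : x ∈ M.Unr D.S) (h : ∀ y, BB M D x y = 0) : x = 0 :=
  D.detect x
    (fun p => (mem_Unr M).1 (U0_of M D hx (ord_zero_of_test M D fun y _ => h y)) p
      (Set.notMem_empty _))
    ((mem_C0 M D).1 (chi_zero_of_test M D fun y _ => h y))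

theorem P0_dim : FiniteDimensional k (H ⧸ D.P0) ∧ Module.finrank k (H ⧸ D.P0) ≤ 2 * D.d := by
  obtain ⟨s, h1, h2⟩ := D.dim0
  exact quot_dim D.P0 _ s h1 h2

theorem NN_dim : FiniteDimensional k (H ⧸ NN M D) ∧
    Module.finrank k (H ⧸ NN M D) ≤ 2 * (D.S.card + Fintype.card G * D.d) := by
  obtain ⟨h1, h2⟩ := P0_dim M D
  let Ψ : H →ₗ[k] (G → H ⧸ D.P0) × (D.S → k) × (D.S → k) :=
    (LinearMap.pi fun g => D.P0.mkQ ∘ₗ M.ρ g).prod
      ((LinearMap.pi fun p => M.ord p.1).prod (LinearMap.pi fun p => chiL M p.1))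
  have hk : LinearMap.ker Ψ = NN M D := by
    ext x
    simp only [Ψ, NN, LinearMap.ker_prod, LinearMap.mem_ker,
      funext_iff, LinearMap.pi_apply, LinearMap.comp_apply, Submodule.mkQ_apply, Pi.zero_apply,
      Submodule.Quotient.mk_eq_zero, Submodule.mem_inf, mem_O0, mem_C0, D.Prim_iff, chiL_apply,
      Subtype.forall, and_assoc]
  have e := Ψ.quotKerEquivRange
  rw [hk] at e
  have h3 : FiniteDimensional k (H ⧸ NN M D) := e.symm.finiteDimensional
  refine ⟨h3, ?_⟩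
  rw [e.finrank_eq]
  refine (Submodule.finrank_le _).trans ?_
  rw [Module.finrank_prod, Module.finrank_prod, Module.finrank_pi_fintype, Module.finrank_pi]
  simp only [Finset.sum_const, Finset.card_univ, smul_eq_mul, Fintype.card_coe]
  nlinarith [Nat.mul_le_mul_left (Fintype.card G) h2]

theorem finq_NN : FinQ ⊤ (NN M D) := by
  have := (NN_dim M D).1
  exact finq_top _

/-- global duality -/
theorem U_perp {y : H} (hy : ∀ x ∈ M.Unr D.S, BB M D x y = 0) : y ∈ M.Unr D.S ⊔ NN M D := by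
  have h1 := (NN_dim M D).1
  have h2 := fin_of_finq D.U_fin
  exact lagr (BB M D) (NN M D) (M.Unr D.S) _ (fun x y hy => BB_N M D x hy)
    (fun x hx y => BB_N' M D hx y) (fun x hx y hy => BB_U M D hx hy)
    (fun x hx h => U_rad M D hx h) (NN_dim M D).2 D.U_dim y hy

theorem rad_BB {y : H} (hy : ∀ x, BB M D x y = 0) : y ∈ NN M D := by
  obtain ⟨u, hu, n, hn, rfl⟩ := Submodule.mem_sup.1 (U_perp M D fun x _ => hy x)
  have : u = 0 := U_rad M D hu fun x => by
    have h := hy x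
    rw [map_add, BB_N M D x hn, add_zero] at h
    rw [BB_swap, h, neg_zero]
  rw [this, zero_add]
  exact hn

end

end Pool.Agent.MP_14ad9d_nt.Full.DualAux
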