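import Pool.Agent.MP_14ad9d_nt.Full.OrthB
import Pool.Agent.MP_14ad9d_nt.Full.Dual2

set_option autoImplicit false

namespace Pool.Agent.MP_14ad9d_nt.Full

namespace DualAux

section

variable {k G H P : Type} [Field k] [Group G] [AddCommGroup H] [Module k H] [MulAction G P]
  (M : Mach k G H P) [Fintype G] (D : M.Dual)

theorem orth_ord (hG : (Fintype.card G : k) ≠ 0) :
    OrthQ M.ρ (pl D.ι M.Prim (M.Prim ⊓ O0 M D)) (M.Prim ⊓ O0 M D) := by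
  refine orth_perm M.ρ hG D.S D.S_act M.ord inf_le_left M.Prim_stab
    (fun g p _ x _ => M.ord_act g p x) (fun z => ?_) (fun x hx => ?_) D.ι D.ιP 1 (one_mul 1)
    D.ιP_ιP D.S_ι D.ι_ι D.ι_ρ (ι_Prim M D) fun p _ x _ => by rw [D.ord_ι, one_mul]
  · obtain ⟨x, h1, h2⟩ := wa0 M D z 0
    exact ⟨x, h1, fun p hp => (h2 p hp).1⟩
  · rw [Submodule.mem_inf, mem_O0]
    exact ⟨fun h => h.2, fun h => ⟨hx, h⟩⟩

theorem orth_chi (hG : (Fintype.card G : k) ≠ 0) :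
    OrthQ M.ρ (pl D.ι (M.Prim ⊓ O0 M D) (NN M D)) (NN M D) := by
  refine orth_perm M.ρ hG D.S D.S_act (chiL M) inf_le_left
    (stab_inf M.ρ M.Prim_stab (stab_O0 M D))
    (fun g p hp x hx => chi_act M g p ((mem_O0 M D).1 hx.2 p hp)) (fun z => ?_) (fun x hx => ?_)
    D.ι D.ιP (-1) (by ring) D.ιP_ιP D.S_ι D.ι_ι D.ι_ρ
    (fun x hx => ⟨ι_Prim M D x hx.1, ι_O0 M D x hx.2⟩) fun p hp x hx => ?_
  · obtain ⟨x, h1, h2⟩ := wa0 M D 0 z
    exact ⟨x, ⟨h1, (mem_O0 M D).2 fun p hp => (h2 p hp).1⟩, fun p hp => (h2 p hp).2⟩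
  · exact ⟨fun h => (mem_C0 M D).1 h.2, fun h => ⟨hx, (mem_C0 M D).2 h⟩⟩
  · rw [chiL_apply, chiL_apply, chi_ι M D p ((mem_O0 M D).1 hx.2 p hp), neg_one_mul]

theorem prim_of_wa {x : H} {z : G → H} (hx : ∀ g, M.ρ g x - z g ∈ D.P0)
    (hz : ∀ g, D.ι (z g) - z g ∈ D.P0) : D.ι x - x ∈ M.Prim := by
  rw [D.Prim_iff]
  intro g
  have e : M.ρ g (D.ι x - x) =
      D.ι (M.ρ g x - z g) + (D.ι (z g) - z g) - (M.ρ g x - z g) := by
    rw [map_sub, map_sub, D.ι_ρ]; abel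
  rw [e]
  exact D.P0.sub_mem (D.P0.add_mem (D.P0_ι _ (hx g)) (hz g)) (hx g)

theorem prim_le_P0 {x : H} (hx : x ∈ M.Prim) : x ∈ D.P0 := by
  simpa using (D.Prim_iff x).1 hx 1

theorem orth_top : OrthQ M.ρ (pl D.ι ⊤ M.Prim) M.Prim := by
  have := (P0_dim M D).1
  refine orth_ind M.ρ D.P0.mkQ ((pl D.ι ⊤ D.P0).map D.P0.mkQ)
    (stab_pl M.ρ D.ι_ρ (fun _ _ _ => trivial) M.Prim_stab) (fun x hx => ?_) (fun z hz => ?_)
    fun x _ => ?_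
  · exact ⟨x, mem_pl.2 ⟨trivial, prim_le_P0 M D (mem_pl.1 hx).2⟩, rfl⟩
  · choose w hw1 hw2 using hz
    obtain ⟨x, h1, -⟩ := D.wa D.S 0 0 w
    refine ⟨x, mem_pl.2 ⟨trivial, prim_of_wa M D h1 fun g => (mem_pl.1 (hw1 g)).2⟩, fun g => ?_⟩
    rw [← hw2 g]
    exact (Submodule.Quotient.eq _).2 (h1 g)
  · rw [D.Prim_iff]
    exact forall_congr' fun g => (Submodule.Quotient.mk_eq_zero _).symm

theorem orth_L1 : OrthQ M.ρ (pl D.ι (L1 M D ⊓ O0 M D) (M.Prim ⊓ O0 M D)) (M.Prim ⊓ O0 M D) := by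
  have := (P0_dim M D).1
  refine orth_ind M.ρ D.P0.mkQ ((pl D.ι D.L0 D.P0).map D.P0.mkQ)
    (stab_pl M.ρ D.ι_ρ (stab_inf M.ρ (stab_L1 M D) (stab_O0 M D))
      (stab_inf M.ρ M.Prim_stab (stab_O0 M D))) (fun x hx => ?_) (fun z hz => ?_)
    fun x hx => ?_
  · refine ⟨x, mem_pl.2 ⟨?_, prim_le_P0 M D (mem_pl.1 hx).2.1⟩, rfl⟩
    simpa using (mem_L1 M D).1 hx.1.1 1
  · choose w hw1 hw2 using hz
    obtain ⟨x, h1, h2⟩ := D.wa D.S 0 0 w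
    have h3 : x ∈ O0 M D := (mem_O0 M D).2 fun p hp => (h2 p hp).1
    refine ⟨x, mem_pl.2 ⟨⟨(mem_L1 M D).2 fun g => ?_, h3⟩,
      prim_of_wa M D h1 fun g => (mem_pl.1 (hw1 g)).2,
      (O0 M D).sub_mem (ι_O0 M D x h3) h3⟩, fun g => ?_⟩
    · have e : M.ρ g x = (M.ρ g x - w g) + w g := by abel
      rw [e]
      exact D.L0.add_mem (D.P0_le (h1 g)) (hw1 g).1
    · rw [← hw2 g]
      exact (Submodule.Quotient.eq _).2 (h1 g)
  · rw [Submodule.mem_inf, D.Prim_iff]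
    exact ⟨fun h g => (Submodule.Quotient.mk_eq_zero _).2 (h.1 g),
      fun h => ⟨fun g => (Submodule.Quotient.mk_eq_zero _).1 (h g), hx.1.2⟩⟩

theorem orth_Vp (hG : (Fintype.card G : k) ≠ 0) (h2 : (2 : k) ≠ 0) :
    OrthQ M.ρ (pl D.ι ⊤ (NN M D)) (NN M D) := by
  have hP0 := stab_inf M.ρ M.Prim_stab (stab_O0 M D)
  have hι0 : ∀ x ∈ M.Prim ⊓ O0 M D, D.ι x ∈ M.Prim ⊓ O0 M D :=
    fun x hx => ⟨ι_Prim M D x hx.1, ι_O0 M D x hx.2⟩
  have hN : NN M D ≤ M.Prim ⊓ O0 M D := inf_le_left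
  refine orth_pl_chain M.ρ hG h2 D.ι_ι D.ι_ρ le_top (hN.trans inf_le_left) (fun _ _ _ => trivial)
    M.Prim_stab (stab_NN M D) (fun _ _ => trivial) (ι_Prim M D) (ι_NN M D) (finq_NN M D)
    (orth_top M D) ?_
  exact orth_pl_chain M.ρ hG h2 D.ι_ι D.ι_ρ inf_le_left hN M.Prim_stab hP0 (stab_NN M D)
    (ι_Prim M D) hι0 (ι_NN M D) (finq_mono (finq_NN M D) le_top le_rfl) (orth_ord M D hG)
    (orth_chi M D hG)

theorem orth_Lp (hG : (Fintype.card G : k) ≠ 0) (h2 : (2 : k) ≠ 0) :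
    OrthQ M.ρ (pl D.ι (L1 M D ⊓ O0 M D) (NN M D)) (NN M D) :=
  orth_pl_chain M.ρ hG h2 D.ι_ι D.ι_ρ (inf_le_inf_right _ (Prim_le_L1 M D)) inf_le_left
    (stab_inf M.ρ (stab_L1 M D) (stab_O0 M D)) (stab_inf M.ρ M.Prim_stab (stab_O0 M D))
    (stab_NN M D) (fun x hx => ⟨ι_L1 M D x hx.1, ι_O0 M D x hx.2⟩)
    (fun x hx => ⟨ι_Prim M D x hx.1, ι_O0 M D x hx.2⟩) (ι_NN M D)
    (finq_mono (finq_NN M D) le_top le_rfl) (orth_L1 M D) (orth_chi M D hG)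

/-- the plus eigenspace -/
def Hp : Submodule k H := LinearMap.ker (D.ι - LinearMap.id)

/-- the minus eigenspace -/
def Hm : Submodule k H := LinearMap.ker (D.ι + LinearMap.id)

theorem mem_Hp {x : H} : x ∈ Hp M D ↔ D.ι x = x := by
  simp [Hp, sub_eq_zero]

theorem mem_Hm {x : H} : x ∈ Hm M D ↔ D.ι x = -x := by
  simp [Hm, add_eq_zero_iff_eq_neg]

theorem stab_Hp : Stab M.ρ (Hp M D) := by
  intro g x hx
  rw [mem_Hp] at hx ⊢
  rw [D.ι_ρ, hx]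

theorem stab_Hm : Stab M.ρ (Hm M D) := by
  intro g x hx
  rw [mem_Hm] at hx ⊢
  rw [D.ι_ρ, hx, map_neg]

theorem orth_Up : OrthQ M.ρ ((M.Unr D.S ⊓ Hp M D) ⊔ NN M D) (NN M D) := by
  refine orth_sup M.ρ (stab_inf M.ρ (stab_U M D) (stab_Hp M D)) (stab_NN M D) ?_
  have : (M.Unr D.S ⊓ Hp M D) ⊓ NN M D = ⊥ :=
    le_bot_iff.1 fun x hx => U_N M D hx.1.1 hx.2
  rw [this]
  exact D.U_orth

omit [Fintype G] in
theorem eq_zero_of_neg (h2 : (2 : k) ≠ 0) {a : k} (h : a = -a) : a = 0 := by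
  have : 2 * a = 0 := by linear_combination h
  exact (mul_eq_zero.1 this).resolve_left h2

theorem Phi_pp (h2 : (2 : k) ≠ 0) {x y : H} (hx : x ∈ Hm M D) (hy : y ∈ Hm M D) :
    PhiL M x y = 0 := by
  have h := PhiL_ι M D x y
  rw [(mem_Hm M D).1 hx, (mem_Hm M D).1 hy] at h
  simp only [map_neg, LinearMap.neg_apply, neg_neg] at h
  exact eq_zero_of_neg h2 h

theorem BB_pp (h2 : (2 : k) ≠ 0) {x y : H} (hx : D.ι x - x ∈ NN M D) (hy : D.ι y - y ∈ NN M D) :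
    BB M D x y = 0 := by
  have h := BB_ι M D x y
  have e1 : D.ι x = x + (D.ι x - x) := by abel
  have e2 : D.ι y = y + (D.ι y - y) := by abel
  rw [e1, map_add, LinearMap.add_apply, BB_N' M D hx, add_zero, e2, map_add, BB_N M D x hy,
    add_zero] at h
  exact eq_zero_of_neg h2 h

theorem BB_mm (h2 : (2 : k) ≠ 0) {x y : H} (hx : D.ι x + x ∈ NN M D) (hy : D.ι y + y ∈ NN M D) :
    BB M D x y = 0 := by
  have h := BB_ι M D x y
  have e1 : D.ι x = -x + (D.ι x + x) := by abel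
  have e2 : D.ι y = -y + (D.ι y + y) := by abel
  rw [e1, map_add, LinearMap.add_apply, BB_N' M D hx, add_zero, e2, map_add, BB_N M D _ hy,
    add_zero] at h
  simp only [map_neg, LinearMap.neg_apply, neg_neg] at h
  exact eq_zero_of_neg h2 h

/-- the minus part modulo the radical -/
def Vm : Submodule k H := (NN M D).comap (D.ι + LinearMap.id)

theorem mem_Vm {x : H} : x ∈ Vm M D ↔ D.ι x + x ∈ NN M D := Iff.rfl

theorem plus_mem (c : k) (x : H) : c • (x + D.ι x) ∈ Hp M D :=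
  (mem_Hp M D).2 (iota_plus D.ι_ι c x)

theorem minus_mem (c : k) (x : H) : c • (x - D.ι x) ∈ Hm M D :=
  (mem_Hm M D).2 (iota_minus D.ι_ι c x)

theorem Hp_N {x : H} (hx : x ∈ Hp M D) : D.ι x - x ∈ NN M D := by
  rw [(mem_Hp M D).1 hx, sub_self]; exact (NN M D).zero_mem

theorem Hm_N {x : H} (hx : x ∈ Hm M D) : D.ι x + x ∈ NN M D := by
  rw [(mem_Hm M D).1 hx, neg_add_cancel]; exact (NN M D).zero_mem

/-- the annihilator of the plus part of the local condition -/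
noncomputable def Ann : Submodule k H := ⨅ x ∈ L1 M D ⊓ Hp M D, LinearMap.ker (PhiL M x)

theorem mem_Ann {y : H} : y ∈ Ann M D ↔ ∀ x ∈ L1 M D ⊓ Hp M D, PhiL M x y = 0 := by
  simp only [Ann, Submodule.mem_iInf, LinearMap.mem_ker]

/-- the wild condition -/
noncomputable def LL : Submodule k H := (L1 M D ⊓ Hp M D) ⊔ (Hm M D ⊓ Ann M D)

theorem L1_iso' {x y : H} (hx : x ∈ L1 M D) (hy : y ∈ L1 M D) : PhiL M x y = 0 :=
  D.L1_iso x y ((mem_L1 M D).1 hx) ((mem_L1 M D).1 hy)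

theorem L1_le_LL (h2 : (2 : k) ≠ 0) : L1 M D ≤ LL M D := by
  intro x hx
  rw [half_split h2 D.ι x]
  refine Submodule.add_mem_sup
    ⟨(L1 M D).smul_mem _ ((L1 M D).add_mem hx (ι_L1 M D x hx)), plus_mem M D _ x⟩
    ⟨minus_mem M D _ x, (mem_Ann M D).2 fun y hy => L1_iso' M D hy.1 ?_⟩
  exact (L1 M D).smul_mem _ ((L1 M D).sub_mem hx (ι_L1 M D x hx))

theorem stab_Ann : Stab M.ρ (Ann M D) := by
  intro g y hy
  rw [mem_Ann] at hy ⊢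
  intro x hx
  have e : x = M.ρ g (M.ρ g⁻¹ x) := by
    rw [← Module.End.mul_apply, ← map_mul, mul_inv_cancel, map_one, Module.End.one_apply]
  rw [e, PhiL_act]
  exact hy _ (stab_inf M.ρ (stab_L1 M D) (stab_Hp M D) _ x hx)

theorem stab_LL : Stab M.ρ (LL M D) :=
  stab_sup M.ρ (stab_inf M.ρ (stab_L1 M D) (stab_Hp M D))
    (stab_inf M.ρ (stab_Hm M D) (stab_Ann M D))

theorem LL_iso (h2 : (2 : k) ≠ 0) : ∀ x ∈ LL M D, ∀ y ∈ LL M D, M.Phi x y = 0 := by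
  intro x hx y hy
  obtain ⟨a, ha, b, hb, rfl⟩ := Submodule.mem_sup.1 hx
  obtain ⟨a', ha', b', hb', rfl⟩ := Submodule.mem_sup.1 hy
  rw [← PhiL_apply]
  simp only [map_add, LinearMap.add_apply]
  rw [L1_iso' M D ha.1 ha'.1, (mem_Ann M D).1 hb'.2 a ha, PhiL_swap M b a',
    (mem_Ann M D).1 hb.2 a' ha', Phi_pp M D h2 hb.1 hb'.1]
  ring

/-- the annihilator in the minus part -/
noncomputable def Xm : Submodule k H :=
  Vm M D ⊓ ⨅ x ∈ ((M.Unr D.S ⊓ Hp M D) ⊔ NN M D) ⊔ pl D.ι (L1 M D ⊓ O0 M D) (NN M D),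
    LinearMap.ker (BB M D x)

theorem mem_Xm {y : H} : y ∈ Xm M D ↔ y ∈ Vm M D ∧
    ∀ x ∈ ((M.Unr D.S ⊓ Hp M D) ⊔ NN M D) ⊔ pl D.ι (L1 M D ⊓ O0 M D) (NN M D),
      BB M D x y = 0 := by
  simp only [Xm, Submodule.mem_inf, Submodule.mem_iInf, LinearMap.mem_ker]

theorem orth_X (hG : (Fintype.card G : k) ≠ 0) (h2 : (2 : k) ≠ 0) :
    OrthQ M.ρ ((((M.Unr D.S ⊓ Hp M D) ⊔ NN M D) ⊓ pl D.ι (L1 M D ⊓ O0 M D) (NN M D)) ⊔ Xm M D)
      (NN M D) := by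
  have hN := stab_NN M D
  have hNL : NN M D ≤ L1 M D ⊓ O0 M D :=
    inf_le_left.trans (inf_le_inf_right _ (Prim_le_L1 M D))
  have hNp : NN M D ≤ pl D.ι ⊤ (NN M D) := le_pl le_top (ι_NN M D)
  have hNm : NN M D ≤ Vm M D := fun x hx =>
    (mem_Vm M D).2 ((NN M D).add_mem (ι_NN M D x hx) hx)
  refine orthX M.ρ hG (Vp := pl D.ι ⊤ (NN M D)) (Vm := Vm M D) (BB M D) (BB_act M D) hN
    (stab_pl M.ρ D.ι_ρ (fun _ _ _ => trivial) hN) (fun g x hx => ?_)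
    (stab_sup M.ρ (stab_inf M.ρ (stab_U M D) (stab_Hp M D)) hN)
    (stab_pl M.ρ D.ι_ρ (stab_inf M.ρ (stab_L1 M D) (stab_O0 M D)) hN) le_sup_right
    (le_pl hNL (ι_NN M D)) (sup_le (fun x hx => mem_pl.2 ⟨trivial, Hp_N M D hx.2⟩) hNp)
    (fun x hx => mem_pl.2 ⟨trivial, (mem_pl.1 hx).2⟩) hNm (fun x hx => ?_)
    (finq_mono (finq_NN M D) le_top le_rfl) (finq_mono (finq_NN M D) le_top le_rfl)
    (fun x hx => ⟨fun h => ?_, fun h y _ => BB_N' M D h y⟩)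
    (fun y hy => ⟨fun h => ?_, fun h x _ => BB_N M D x h⟩) (fun y => mem_Xm M D)
    (orth_Vp M D hG h2) (orth_Up M D) (orth_Lp M D hG h2)
  · rw [mem_Vm, D.ι_ρ, ← map_add]
    exact hN g _ hx
  · have h1 := (NN M D).smul_mem (2 : k)⁻¹
      ((NN M D).sub_mem ((mem_Vm M D).1 hx.2) (mem_pl.1 hx.1).2)
    have e : D.ι x + x - (D.ι x - x) = (2 : k) • x := by rw [two_smul]; abel
    rwa [e, smul_smul, inv_mul_cancel₀ h2, one_smul] at h1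
  · refine rad_BB M D fun y => ?_
    rw [BB_swap, half_split h2 D.ι y, map_add,
      BB_pp M D h2 (mem_pl.1 hx).2 (Hp_N M D (plus_mem M D _ y)),
      h _ ((mem_Vm M D).2 (Hm_N M D (minus_mem M D _ y))), add_zero, neg_zero]
  · refine rad_BB M D fun x => ?_
    rw [half_split h2 D.ι x, map_add, LinearMap.add_apply,
      h _ (mem_pl.2 ⟨trivial, Hp_N M D (plus_mem M D _ x)⟩),
      BB_mm M D h2 (Hm_N M D (minus_mem M D _ x)) ((mem_Vm M D).1 hy), add_zero]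

theorem half_N (h2 : (2 : k) ≠ 0) {x : H} (hx : D.ι x - x ∈ NN M D) :
    (2 : k)⁻¹ • (x - D.ι x) ∈ NN M D := by
  have _ := h2
  refine (NN M D).smul_mem _ ?_
  rw [← neg_sub]
  exact (NN M D).neg_mem hx

theorem X_le (h2 : (2 : k) ≠ 0) :
    (((M.Unr D.S ⊓ Hp M D) ⊔ NN M D) ⊓ pl D.ι (L1 M D ⊓ O0 M D) (NN M D)) ⊔ Xm M D ≤
      (LL M D ⊓ M.Unr ∅) ⊔ NN M D := by
  have hNL : NN M D ≤ L1 M D ⊓ O0 M D :=
    inf_le_left.trans (inf_le_inf_right _ (Prim_le_L1 M D))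
  refine sup_le (fun x hx => ?_) fun y hy => ?_
  · obtain ⟨u, hu, n, hn, rfl⟩ := Submodule.mem_sup.1 hx.1
    have h1 : u ∈ L1 M D ⊓ O0 M D := by
      have := (L1 M D ⊓ O0 M D).sub_mem hx.2.1 (hNL hn)
      rwa [add_sub_cancel_right] at this
    exact Submodule.add_mem_sup ⟨L1_le_LL M D h2 h1.1, U0_of M D hu.1 h1.2⟩ hn
  · obtain ⟨hy1, hy2⟩ := (mem_Xm M D).1 hy
    have hyU : ∀ x ∈ M.Unr D.S, BB M D x y = 0 := by
      intro x hx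
      rw [half_split h2 D.ι x, map_add, LinearMap.add_apply,
        BB_mm M D h2 (Hm_N M D (minus_mem M D _ x)) ((mem_Vm M D).1 hy1), add_zero]
      exact hy2 _ (Submodule.mem_sup_left (Submodule.mem_sup_left
        ⟨(M.Unr D.S).smul_mem _ ((M.Unr D.S).add_mem hx (ι_U M D x hx)), plus_mem M D _ x⟩))
    obtain ⟨u, hu, n, hn, rfl⟩ := Submodule.mem_sup.1 (U_perp M D hyU)
    have hu1 : D.ι u + u ∈ NN M D := by
      have h1 := (NN M D).sub_mem ((mem_Vm M D).1 hy1) ((NN M D).add_mem (ι_NN M D n hn) hn)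
      have e : D.ι (u + n) + (u + n) - (D.ι n + n) = D.ι u + u := by rw [map_add]; abel
      rwa [e] at h1
    have hu2 : u ∈ Hm M D := by
      rw [mem_Hm, ← add_eq_zero_iff_eq_neg]
      exact U_N M D ((M.Unr D.S).add_mem (ι_U M D u hu) hu) hu1
    have hu3 : ∀ x ∈ L1 M D ⊓ O0 M D, BB M D x u = 0 := by
      intro x hx
      have h1 := hy2 ((2 : k)⁻¹ • (x + D.ι x)) (Submodule.mem_sup_right (mem_pl.2
        ⟨(L1 M D ⊓ O0 M D).smul_mem _ ((L1 M D ⊓ O0 M D).add_mem hx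
          ⟨ι_L1 M D x hx.1, ι_O0 M D x hx.2⟩), Hp_N M D (plus_mem M D _ x)⟩))
      rw [map_add, BB_N M D _ hn, add_zero] at h1
      rw [half_split h2 D.ι x, map_add, LinearMap.add_apply, h1,
        BB_mm M D h2 (Hm_N M D (minus_mem M D _ x)) hu1, add_zero]
    have hu4 : u ∈ O0 M D := ord_zero_of_test M D fun x hx => by
      rw [BB_swap, hu3 x ⟨Prim_le_L1 M D hx.1, hx.2⟩, neg_zero]
    refine Submodule.add_mem_sup ⟨Submodule.mem_sup_right ⟨hu2, (mem_Ann M D).2 fun x hx => ?_⟩,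
      U0_of M D hu hu4⟩ hn
    obtain ⟨x', hx1, hx2⟩ := wa0 M D (fun p => M.ord p x) 0
    have h1 : x - x' ∈ O0 M D := (mem_O0 M D).2 fun p hp => by
      rw [map_sub, (hx2 p hp).1, sub_self]
    have h3 := hu3 (x - x') ⟨(L1 M D).sub_mem hx.1 (Prim_le_L1 M D hx1), h1⟩
    rw [BB_O0 M D h1 hu4, map_sub, LinearMap.sub_apply, PhiL_swap M x' u, PhiL_prim M u hx1,
      neg_zero, sub_zero, neg_eq_zero] at h3
    exact h3

theorem le_X (h2 : (2 : k) ≠ 0) : (LL M D ⊓ M.Unr ∅) ⊔ NN M D ≤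
    (((M.Unr D.S ⊓ Hp M D) ⊔ NN M D) ⊓ pl D.ι (L1 M D ⊓ O0 M D) (NN M D)) ⊔ Xm M D := by
  have hNL : NN M D ≤ L1 M D ⊓ O0 M D :=
    inf_le_left.trans (inf_le_inf_right _ (Prim_le_L1 M D))
  refine sup_le (fun x hx => ?_)
    (le_sup_of_le_left (le_inf le_sup_right (le_pl hNL (ι_NN M D))))
  obtain ⟨a, ha, b, hb, rfl⟩ := Submodule.mem_sup.1 hx.1
  have ha0 : a ∈ M.Unr ∅ := by
    have h1 := (M.Unr ∅).smul_mem (2 : k)⁻¹ ((M.Unr ∅).add_mem hx.2 (ι_U0 M D _ hx.2))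
    have e : a + b + D.ι (a + b) = (2 : k) • a := by
      rw [map_add, (mem_Hp M D).1 ha.2, (mem_Hm M D).1 hb.1, two_smul]; abel
    rwa [e, smul_smul, inv_mul_cancel₀ h2, one_smul] at h1
  have hb0 : b ∈ M.Unr ∅ := by
    have := (M.Unr ∅).sub_mem hx.2 ha0
    rwa [add_sub_cancel_left] at this
  refine Submodule.add_mem_sup ⟨Submodule.mem_sup_left ⟨U0_le_U M D ha0, ha.2⟩,
    mem_pl.2 ⟨⟨ha.1, U0_le_O0 M D ha0⟩, Hp_N M D ha.2⟩⟩
    ((mem_Xm M D).2 ⟨(mem_Vm M D).2 (Hm_N M D hb.1), fun x hx => ?_⟩)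
  obtain ⟨x1, h1, x2, h3, rfl⟩ := Submodule.mem_sup.1 hx
  obtain ⟨u, hu, n, hn, rfl⟩ := Submodule.mem_sup.1 h1
  obtain ⟨h4, h5⟩ := mem_pl.1 h3
  simp only [map_add, LinearMap.add_apply]
  rw [BB_U M D hu.1 (U0_le_U M D hb0), BB_N' M D hn, half_split h2 D.ι x2, map_add,
    LinearMap.add_apply, BB_N' M D (half_N M D h2 h5)]
  have h6 : (2 : k)⁻¹ • (x2 + D.ι x2) ∈ L1 M D ⊓ O0 M D :=
    (L1 M D ⊓ O0 M D).smul_mem _ ((L1 M D ⊓ O0 M D).add_mem h4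
      ⟨ι_L1 M D x2 h4.1, ι_O0 M D x2 h4.2⟩)
  rw [BB_O0 M D h6.2 (U0_le_O0 M D hb0), (mem_Ann M D).1 hb.2 _ ⟨h6.1, plus_mem M D _ x2⟩]
  ring

theorem orth_X0 (hG : (Fintype.card G : k) ≠ 0) (h2 : (2 : k) ≠ 0) :
    OrthQ M.ρ (LL M D ⊓ M.Unr ∅) ⊥ := by
  have h1 := orth_X M D hG h2
  rw [le_antisymm (X_le M D h2) (le_X M D h2)] at h1
  have h3 := orth_of_sup M.ρ h1
  have : (LL M D ⊓ M.Unr ∅) ⊓ NN M D = ⊥ :=
    le_bot_iff.1 fun x hx => U_N M D (U0_le_U M D hx.1.2) hx.2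
  rwa [this] at h3

end

end DualAux

/-- global duality by a dimension count, and the initial Selmer group -/
theorem dual {k G H P : Type} [Field k] [Group G] [Fintype G] [AddCommGroup H] [Module k H]
    [MulAction G P] (hG : (Fintype.card G : k) ≠ 0) (h2 : (2 : k) ≠ 0) (M : Mach k G H P)
    (D : M.Dual) : ∃ L : Submodule k H, (∀ x, (∀ g, M.ρ g x ∈ D.L0) → x ∈ L) ∧ M.AxL L := by
  have hf : FinQ (DualAux.LL M D ⊓ M.Unr ∅) ⊥ :=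
    DualAux.finq_mono D.U_fin (inf_le_right.trans (DualAux.U0_le_U M D)) le_rfl
  exact ⟨DualAux.LL M D, fun x hx => DualAux.L1_le_LL M D h2 ((DualAux.mem_L1 M D).2 hx),
    (DualAux.Prim_le_L1 M D).trans (DualAux.L1_le_LL M D h2), DualAux.stab_LL M D,
    DualAux.LL_iso M D h2, hf,
    orth_new M.ρ hG (DualAux.stab_inf M.ρ (DualAux.stab_LL M D) (DualAux.stab_U0 M)) hf
      (DualAux.orth_X0 M D hG h2)⟩

end Pool.Agent.MP_14ad9d_nt.Full
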