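import Pool.Agent.MP_14ad9d_nt.Full.OrthA

set_option autoImplicit false

namespace Pool.Agent.MP_14ad9d_nt.Full.DualAux

open Pool.Agent.MP_14ad9d_nt.Full

section

variable {k G H : Type} [Field k] [Group G] [AddCommGroup H] [Module k H]
  (ρ : Representation k G H)

theorem stab_sup {A B : Submodule k H} (hA : Stab ρ A) (hB : Stab ρ B) : Stab ρ (A ⊔ B) := by
  intro g x hx
  obtain ⟨a, ha, b, hb, rfl⟩ := Submodule.mem_sup.1 hx
  rw [map_add]
  exact Submodule.add_mem_sup (hA g a ha) (hB g b hb)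

theorem stab_inf {A B : Submodule k H} (hA : Stab ρ A) (hB : Stab ρ B) : Stab ρ (A ⊓ B) :=
  fun g x hx => ⟨hA g x hx.1, hB g x hx.2⟩

theorem finq_mono {A B A' B' : Submodule k H} (h : FinQ A B) (hA : A' ≤ A) (hB : B ≤ B') :
    FinQ A' B' := by
  obtain ⟨s, hs⟩ := h
  exact ⟨s, hA.trans (hs.trans (sup_le_sup_right hB _))⟩

/-- passing from `A + N` modulo `N` to `A` modulo the intersection -/
theorem orth_of_sup {A N : Submodule k H} (h : OrthQ ρ (A ⊔ N) N) : OrthQ ρ A (A ⊓ N) := by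
  obtain ⟨b, h1, h2, h3⟩ := h
  have hA : ∀ x ∈ A, x ∈ A ⊔ N := fun x hx => Submodule.mem_sup_left hx
  refine ⟨b, fun x hx y hy => h1 x (hA x hx) y (hA y hy),
    fun g x hx y hy => h2 g x (hA x hx) y (hA y hy), fun x hx => ⟨fun h0 => ⟨hx, ?_⟩, ?_⟩⟩
  · refine (h3 x (hA x hx)).1 fun y hy => ?_
    obtain ⟨a, ha, n, hn, rfl⟩ := Submodule.mem_sup.1 hy
    have hn' : n ∈ A ⊔ N := Submodule.mem_sup_right hn
    rw [map_add, h0 a ha, zero_add, h1 x (hA x hx) n hn']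
    exact (h3 n hn').2 hn x (hA x hx)
  · intro h0 y hy
    exact (h3 x (hA x hx)).2 h0.2 y (hA y hy)

theorem exists_proj (A N : Submodule k H) :
    ∃ π : H →ₗ[k] H, (∀ x, π x ∈ A) ∧ ∀ x ∈ A ⊔ N, x - π x ∈ N := by
  let f : (A × N) →ₗ[k] H := A.subtype.coprod N.subtype
  have hr : LinearMap.range f = A ⊔ N := by
    simp [f, LinearMap.range_coprod]
  obtain ⟨s, hs⟩ := f.rangeRestrict.exists_rightInverse_of_surjective f.range_rangeRestrict
  obtain ⟨t, ht⟩ := LinearMap.exists_extend s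
  refine ⟨A.subtype ∘ₗ LinearMap.fst k A N ∘ₗ t, fun x => (t x).1.2, fun x hx => ?_⟩
  have hx' : x ∈ LinearMap.range f := hr ▸ hx
  have e1 : t x = s ⟨x, hx'⟩ := by
    rw [← ht]; rfl
  have e2 : f (s ⟨x, hx'⟩) = x := by
    have := LinearMap.congr_fun hs ⟨x, hx'⟩
    exact congrArg Subtype.val this
  have e3 : ((t x).1 : H) + ((t x).2 : H) = x := by
    rw [e1]; exact e2
  have e4 : x - (A.subtype ∘ₗ LinearMap.fst k A N ∘ₗ t) x = ((t x).2 : H) := by
    show x - ((t x).1 : H) = _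
    rw [sub_eq_iff_eq_add']; exact e3.symm
  rw [e4]; exact (t x).2.2

/-- passing from `A` modulo the intersection to `A + N` modulo `N` -/
theorem orth_sup {A N : Submodule k H} (hA : Stab ρ A) (hN : Stab ρ N)
    (h : OrthQ ρ A (A ⊓ N)) : OrthQ ρ (A ⊔ N) N := by
  obtain ⟨b, h1, h2, h3⟩ := h
  obtain ⟨π, hπ1, hπ2⟩ := exists_proj A N
  have hs := stab_sup ρ hA hN
  have hl : ∀ x ∈ A ⊓ N, ∀ y ∈ A, b x y = 0 := fun x hx => (h3 x hx.1).2 hx
  have hg : ∀ g, ∀ x ∈ A ⊔ N, π (ρ g x) - ρ g (π x) ∈ A ⊓ N := by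
    intro g x hx
    refine ⟨A.sub_mem (hπ1 _) (hA g _ (hπ1 _)), ?_⟩
    have e : π (ρ g x) - ρ g (π x) = ρ g (x - π x) - (ρ g x - π (ρ g x)) := by
      rw [map_sub]; abel
    rw [e]
    exact N.sub_mem (hN g _ (hπ2 x hx)) (hπ2 _ (hs g x hx))
  refine ⟨b.compl₁₂ π π, fun x _ y _ => h1 _ (hπ1 x) _ (hπ1 y), fun g x hx y hy => ?_,
    fun x hx => ⟨fun h0 => ?_, fun h0 y _ => ?_⟩⟩
  · simp only [LinearMap.compl₁₂_apply]
    have e1 : π (ρ g x) = ρ g (π x) + (π (ρ g x) - ρ g (π x)) := by abel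
    have e2 : π (ρ g y) = ρ g (π y) + (π (ρ g y) - ρ g (π y)) := by abel
    rw [e1, map_add, LinearMap.add_apply, hl _ (hg g x hx) _ (hπ1 _), add_zero, e2, map_add,
      h1 _ (hA g _ (hπ1 x)) _ (hg g y hy).1, hl _ (hg g y hy) _ (hA g _ (hπ1 x)), add_zero]
    exact h2 g _ (hπ1 x) _ (hπ1 y)
  · have h4 : π x ∈ A ⊓ N := by
      refine (h3 _ (hπ1 x)).1 fun y hy => ?_
      have hy' : y ∈ A ⊔ N := Submodule.mem_sup_left hy
      have h5 := h0 y hy'
      simp only [LinearMap.compl₁₂_apply] at h5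
      have h6 : y - π y ∈ A ⊓ N := ⟨A.sub_mem hy (hπ1 y), hπ2 y hy'⟩
      have e : y = π y + (y - π y) := by abel
      rw [e, map_add, h5, zero_add, h1 _ (hπ1 x) _ h6.1]
      exact hl _ h6 _ (hπ1 x)
    have e : x = (x - π x) + π x := by abel
    rw [e]
    exact N.add_mem (hπ2 x hx) h4.2
  · simp only [LinearMap.compl₁₂_apply]
    have h4 : π x ∈ A ⊓ N := by
      refine ⟨hπ1 x, ?_⟩
      have e : π x = x - (x - π x) := by abel
      rw [e]
      exact N.sub_mem h0 (hπ2 x hx)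
    exact hl _ h4 _ (hπ1 y)

/-- the plus part of `A` modulo `B` -/
def pl (ι : H →ₗ[k] H) (A B : Submodule k H) : Submodule k H :=
  A ⊓ B.comap (ι - LinearMap.id)

theorem mem_pl {ι : H →ₗ[k] H} {A B : Submodule k H} {x : H} :
    x ∈ pl ι A B ↔ x ∈ A ∧ ι x - x ∈ B := Iff.rfl

theorem stab_pl {ι : H →ₗ[k] H} (hιρ : ∀ g x, ι (ρ g x) = ρ g (ι x)) {A B : Submodule k H}
    (hA : Stab ρ A) (hB : Stab ρ B) : Stab ρ (pl ι A B) := by
  intro g x hx
  refine mem_pl.2 ⟨hA g x hx.1, ?_⟩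
  rw [hιρ, ← map_sub]
  exact hB g _ (mem_pl.1 hx).2

theorem le_pl {ι : H →ₗ[k] H} {A B : Submodule k H} (hBA : B ≤ A) (hB : ∀ x ∈ B, ι x ∈ B) :
    B ≤ pl ι A B := fun x hx => mem_pl.2 ⟨hBA hx, B.sub_mem (hB x hx) hx⟩

theorem half_split (h2 : (2 : k) ≠ 0) (ι : H →ₗ[k] H) (x : H) :
    x = (2 : k)⁻¹ • (x + ι x) + (2 : k)⁻¹ • (x - ι x) := by
  rw [← smul_add]
  have : x + ι x + (x - ι x) = (2 : k) • x := by rw [two_smul]; abel
  rw [this, smul_smul, inv_mul_cancel₀ h2, one_smul]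

theorem iota_plus {ι : H →ₗ[k] H} (hιι : ∀ x, ι (ι x) = x) (c : k) (x : H) :
    ι (c • (x + ι x)) = c • (x + ι x) := by
  rw [map_smul, map_add, hιι, add_comm]

theorem iota_minus {ι : H →ₗ[k] H} (hιι : ∀ x, ι (ι x) = x) (c : k) (x : H) :
    ι (c • (x - ι x)) = -(c • (x - ι x)) := by
  rw [map_smul, map_sub, hιι, ← smul_neg, neg_sub]

/-- orthogonality of plus parts along a chain -/
theorem orth_pl_chain [Fintype G] (hG : (Fintype.card G : k) ≠ 0) (h2 : (2 : k) ≠ 0)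
    {ι : H →ₗ[k] H} (hιι : ∀ x, ι (ι x) = x) (hιρ : ∀ g x, ι (ρ g x) = ρ g (ι x))
    {A B C : Submodule k H} (hBA : B ≤ A) (hCB : C ≤ B) (hA : Stab ρ A) (hB : Stab ρ B)
    (hC : Stab ρ C) (hιA : ∀ x ∈ A, ι x ∈ A) (hιB : ∀ x ∈ B, ι x ∈ B) (hιC : ∀ x ∈ C, ι x ∈ C)
    (hf : FinQ A C) (o1 : OrthQ ρ (pl ι A B) B) (o2 : OrthQ ρ (pl ι B C) C) :
    OrthQ ρ (pl ι A C) C := by
  have e1 : pl ι A B = pl ι A C ⊔ B := by
    apply le_antisymm
    · intro x hx
      obtain ⟨hx1, hx2⟩ := mem_pl.1 hx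
      rw [half_split h2 ι x]
      refine Submodule.add_mem_sup (mem_pl.2 ⟨A.smul_mem _ (A.add_mem hx1 (hιA x hx1)), ?_⟩) ?_
      · rw [iota_plus hιι, sub_self]; exact C.zero_mem
      · refine B.smul_mem _ ?_
        rw [← neg_sub]; exact B.neg_mem hx2
    · exact sup_le (fun x hx => mem_pl.2 ⟨hx.1, hCB (mem_pl.1 hx).2⟩) (le_pl hBA hιB)
  have e2 : pl ι A C ⊓ B = pl ι B C := by
    apply le_antisymm
    · exact fun x hx => mem_pl.2 ⟨hx.2, (mem_pl.1 hx.1).2⟩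
    · exact fun x hx => ⟨mem_pl.2 ⟨hBA hx.1, (mem_pl.1 hx).2⟩, hx.1⟩
  rw [e1] at o1
  have o3 := orth_of_sup ρ o1
  rw [e2] at o3
  have e3 : pl ι B C ≤ pl ι A C := fun x hx => mem_pl.2 ⟨hBA hx.1, (mem_pl.1 hx).2⟩
  exact orth_ext ρ hG e3 (le_pl hCB hιC)
    (stab_pl ρ hιρ hA hC) (stab_pl ρ hιρ hB hC) hC (finq_mono hf inf_le_left le_rfl) o3 o2

/-- an isotropic subspace of at least half the dimension is its own annihilator -/
theorem lagr (B : H →ₗ[k] H →ₗ[k] k) (N U : Submodule k H) (m : ℕ)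
    [FiniteDimensional k (H ⧸ N)] [FiniteDimensional k U]
    (hN : ∀ x, ∀ y ∈ N, B x y = 0) (hN' : ∀ x ∈ N, ∀ y, B x y = 0)
    (hU : ∀ x ∈ U, ∀ y ∈ U, B x y = 0) (hUr : ∀ x ∈ U, (∀ y, B x y = 0) → x = 0)
    (hd : Module.finrank k (H ⧸ N) ≤ 2 * m) (hm : m ≤ Module.finrank k U) :
    ∀ y, (∀ x ∈ U, B x y = 0) → y ∈ U ⊔ N := by
  let θ0 : H →ₗ[k] U →ₗ[k] k := (B ∘ₗ U.subtype).flip
  have hθ0 : N ≤ LinearMap.ker θ0 := by
    intro y hy
    ext u
    exact hN u y hy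
  let θ : (H ⧸ N) →ₗ[k] U →ₗ[k] k := N.liftQ θ0 hθ0
  have hinj : Function.Injective θ.flip := by
    rw [injective_iff_map_eq_zero]
    intro u hu
    refine Subtype.ext (hUr u u.2 fun y => ?_)
    exact LinearMap.congr_fun hu (N.mkQ y)
  have hsurj : Function.Surjective θ := LinearMap.flip_injective_iff₁.1 hinj
  have h1 := LinearMap.finrank_range_add_finrank_ker θ
  rw [LinearMap.range_eq_top.2 hsurj, finrank_top] at h1
  have h2 : Module.finrank k (U →ₗ[k] k) = Module.finrank k U := Subspace.dual_finrank_eq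
  let j : U →ₗ[k] (H ⧸ N) := N.mkQ ∘ₗ U.subtype
  have hj : Function.Injective j := by
    rw [injective_iff_map_eq_zero]
    intro u hu
    have : (u : H) ∈ N := (Submodule.Quotient.mk_eq_zero N).1 hu
    exact Subtype.ext (hUr u u.2 (hN' u this))
  have h3 : Module.finrank k (LinearMap.range j) = Module.finrank k U :=
    LinearMap.finrank_range_of_inj hj
  have h4 : LinearMap.range j ≤ LinearMap.ker θ := by
    rintro _ ⟨u, rfl⟩
    ext v
    exact hU v v.2 u u.2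
  have h5 : LinearMap.range j = LinearMap.ker θ :=
    Submodule.eq_of_le_of_finrank_le h4 (by omega)
  intro y hy
  have h6 : N.mkQ y ∈ LinearMap.ker θ := by
    ext v
    exact hy v v.2
  rw [← h5] at h6
  obtain ⟨u, hu⟩ := h6
  have h7 : (u : H) - y ∈ N := (Submodule.Quotient.eq N).1 hu
  have e : y = (u : H) + -((u : H) - y) := by abel
  rw [e]
  exact Submodule.add_mem_sup u.2 (N.neg_mem h7)

theorem finq_top (N : Submodule k H) [FiniteDimensional k (H ⧸ N)] : FinQ ⊤ N := by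
  classical
  obtain ⟨s, hs⟩ := Module.Finite.fg_top (R := k) (M := H ⧸ N)
  have hsur : Function.Surjective N.mkQ := N.mkQ_surjective
  refine ⟨s.image (Function.surjInv hsur), fun x _ => ?_⟩
  have h1 : N.mkQ x ∈ (Submodule.span k
      ((s.image (Function.surjInv hsur) : Finset H) : Set H)).map N.mkQ := by
    rw [Submodule.map_span]
    have : N.mkQ '' ((s.image (Function.surjInv hsur) : Finset H) : Set H) = s := by
      rw [Finset.coe_image, Set.image_image]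
      simp [Function.surjInv_eq hsur]
    rw [this, hs]; trivial
  obtain ⟨y, hy, hxy⟩ := h1
  have h2 : y - x ∈ N := (Submodule.Quotient.eq N).1 hxy
  have e : x = -(y - x) + y := by abel
  rw [e]
  exact Submodule.add_mem_sup (N.neg_mem h2) hy

theorem fin_of_finq {U : Submodule k H} (h : FinQ U ⊥) : FiniteDimensional k U := by
  obtain ⟨s, hs⟩ := h
  rw [bot_sup_eq] at hs
  exact Submodule.finiteDimensional_of_le hs

theorem quot_dim (P0 : Submodule k H) (n : ℕ) (s : Finset H) (hs : s.card ≤ n)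
    (h : P0 ⊔ Submodule.span k (s : Set H) = ⊤) :
    FiniteDimensional k (H ⧸ P0) ∧ Module.finrank k (H ⧸ P0) ≤ n := by
  classical
  have h1 : Submodule.span k ((s.image P0.mkQ : Finset (H ⧸ P0)) : Set (H ⧸ P0)) = ⊤ := by
    rw [Finset.coe_image, ← Submodule.map_span, Submodule.map_mkQ_eq_top, h]
  have h2 : FiniteDimensional k (H ⧸ P0) := ⟨⟨_, h1⟩⟩
  refine ⟨h2, ?_⟩
  rw [← finrank_top, ← h1]
  exact (finrank_span_finset_le_card _).trans (Finset.card_image_le.trans hs)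

end

end Pool.Agent.MP_14ad9d_nt.Full.DualAux
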