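import Pool.Agent.MP_14ad9d_nt.Full.ED2

set_option autoImplicit false

open NumberField Filter Topology

namespace Pool.Agent.MP_14ad9d_nt.Full.EDAux

variable {E : Type} [Field E] [NumberField E]

theorem summable_lam {σ : ℝ} (hσ : 1 < σ) :
    Summable fun v : Pr E => lam v * Real.exp (-σ * lam v) := by
  set ε : ℝ := (σ - 1) / 2 with hε
  have hε0 : 0 < ε := by rw [hε]; linarith
  have h1 : Summable fun v : Pr E => MP_d64882_nt.w E (σ - ε) v.asIdeal :=
    (MP_d64882_nt.hasSum_w E (σ - ε) (by rw [hε]; linarith)).summable.comp_injective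
      (fun v w h => IsDedekindDomain.HeightOneSpectrum.ext h)
  refine Summable.of_nonneg_of_le (fun v => mul_nonneg (lam_pos v).le (Real.exp_pos _).le)
    (fun v => ?_) (h1.mul_left ε⁻¹)
  unfold MP_d64882_nt.w
  rw [← exp_lam v, ← Real.exp_mul]
  have h2 : ε * lam v ≤ Real.exp (ε * lam v) := by linarith [Real.add_one_le_exp (ε * lam v)]
  have h3 : lam v ≤ ε⁻¹ * Real.exp (ε * lam v) := by
    rw [le_inv_mul_iff₀ hε0]; exact h2
  calc lam v * Real.exp (-σ * lam v) ≤ ε⁻¹ * Real.exp (ε * lam v) * Real.exp (-σ * lam v) :=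
        mul_le_mul_of_nonneg_right h3 (Real.exp_pos _).le
    _ = ε⁻¹ * Real.exp (lam v * -(σ - ε)) := by
        rw [mul_assoc, ← Real.exp_add]
        congr 2
        ring

/-- the local factor -/
noncomputable def aa (X : Ideal (𝓞 E) → ℂ) (v : Pr E) (s : ℂ) : ℂ :=
  X v.asIdeal * Complex.exp (-s * lam v)

theorem norm_aa {X : Ideal (𝓞 E) → ℂ} (hX : ∀ I, ‖X I‖ ≤ 1) (v : Pr E) {s : ℂ} {σ : ℝ}
    (hs : σ ≤ s.re) : ‖aa X v s‖ ≤ Real.exp (-σ * lam v) := by
  unfold aa
  rw [norm_mul, Complex.norm_exp]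
  refine (mul_le_of_le_one_left (Real.exp_pos _).le (hX _)).trans (Real.exp_le_exp.mpr ?_)
  have : (-s * lam v).re = -s.re * lam v := by simp
  rw [this]
  nlinarith [lam_pos v]

theorem exp_neg_lam (v : Pr E) : Real.exp (-1 * lam v) = (Ideal.absNorm v.asIdeal : ℝ)⁻¹ := by
  rw [neg_one_mul, Real.exp_neg, exp_lam]

theorem norm_aa_half {X : Ideal (𝓞 E) → ℂ} (hX : ∀ I, ‖X I‖ ≤ 1) (v : Pr E) {s : ℂ}
    (hs : 1 ≤ s.re) : ‖aa X v s‖ ≤ 1 / 2 := by
  refine (norm_aa hX v hs).trans ?_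
  rw [exp_neg_lam, one_div]
  exact inv_anti₀ two_pos (by exact_mod_cast two_le_N v)

theorem half_le {a : ℂ} (ha : ‖a‖ ≤ 1 / 2) : 1 / 2 ≤ ‖1 - a‖ := by
  have := norm_sub_norm_le (1 : ℂ) a
  rw [norm_one] at this
  linarith

theorem one_sub_ne {a : ℂ} (ha : ‖a‖ ≤ 1 / 2) : 1 - a ≠ 0 := by
  intro h
  have := half_le ha
  rw [h, norm_zero] at this
  linarith

theorem norm_div_le {a b : ℂ} (ha : ‖a‖ ≤ 1 / 2) : ‖b / (1 - a)‖ ≤ 2 * ‖b‖ := by
  have := half_le ha
  rw [norm_div, div_le_iff₀ (by linarith)]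
  nlinarith [norm_nonneg b]

theorem hasDerivAt_term {X : Ideal (𝓞 E) → ℂ} (hX : ∀ I, ‖X I‖ ≤ 1) (v : Pr E) {s : ℂ}
    (hs : 1 ≤ s.re) : HasDerivAt (fun s => -Complex.log (1 - aa X v s))
      (-(lam v * aa X v s / (1 - aa X v s))) s := by
  have h1 : HasDerivAt (aa X v) (-(lam v * aa X v s)) s := by
    have := (((hasDerivAt_id s).neg.mul_const (lam v : ℂ)).cexp).const_mul (X v.asIdeal)
    refine HasDerivAt.congr_deriv (f := aa X v) this ?_
    simp only [aa, Pi.neg_apply, id]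
    ring
  have h2 : 1 - aa X v s ∈ Complex.slitPlane := by
    left
    have h3 := Complex.re_le_norm (aa X v s)
    have h4 := norm_aa_half hX v hs
    simp only [Complex.sub_re, Complex.one_re]
    linarith
  have h3 := ((h1.const_sub 1).clog h2).neg
  rw [neg_neg] at h3
  exact h3

theorem hasSum_logderiv (X : Ideal (𝓞 E) →* ℂ) (hX : ∀ I, ‖X I‖ ≤ 1) (hX0 : X ⊥ = 0) (L : ℂ → ℂ)
    (hL' : ∀ s : ℂ, 1 < s.re → L s = ∑' I : Ideal (𝓞 E), X I * (Ideal.absNorm I : ℂ) ^ (-s))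
    (s : ℂ) (hs : 1 < s.re) :
    HasSum (fun v : Pr E => lam v * aa X v s / (1 - aa X v s)) (-(deriv L s / L s)) := by
  set σ : ℝ := (1 + s.re) / 2 with hσ
  have hσ1 : 1 < σ := by rw [hσ]; linarith
  have hσ2 : σ < s.re := by rw [hσ]; linarith
  have hb : ∀ (v : Pr E) (y : ℂ), y ∈ {y : ℂ | σ < y.re} →
      ‖-(lam v * aa X v y / (1 - aa X v y))‖ ≤ 2 * (lam v * Real.exp (-σ * lam v)) := by
    intro v y hy
    have hy' : σ < y.re := hy
    rw [norm_neg]
    refine (norm_div_le (norm_aa_half hX v (by linarith))).trans ?_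
    rw [norm_mul, Complex.norm_real, Real.norm_eq_abs, abs_of_pos (lam_pos v)]
    have := norm_aa hX v hy'.le
    have := lam_pos v
    gcongr
  have hu := (summable_lam (E := E) hσ1).mul_left 2
  have he : ∀ y : ℂ, 1 < y.re → (Summable fun v : Pr E => -Complex.log (1 - aa X v y)) ∧
      Complex.exp (∑' v : Pr E, -Complex.log (1 - aa X v y)) = L y := by
    intro y hy
    obtain ⟨-, a2, a3⟩ := euler X hX hX0 y hy
    simp_rw [cpow_lam] at a2 a3
    exact ⟨a2.of_norm.neg, a3.trans (hL' y hy).symm⟩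
  have h1 := hasDerivAt_tsum_of_isPreconnected hu
    (isOpen_lt continuous_const Complex.continuous_re) (convex_halfSpace_re_gt σ).isPreconnected
    (fun v y hy => hasDerivAt_term hX v (le_of_lt (lt_trans hσ1 hy))) hb hσ2 (he s hs).1 hσ2
  have h2 := h1.cexp
  have h3 : L =ᶠ[𝓝 s] fun y => Complex.exp (∑' v : Pr E, -Complex.log (1 - aa X v y)) := by
    filter_upwards [(isOpen_lt continuous_const Complex.continuous_re).mem_nhds hs] with y hy
    exact (he y hy).2.symm
  have h4 := (h2.congr_of_eventuallyEq h3).deriv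
  rw [(he s hs).2] at h4
  have h5 : L s ≠ 0 := by
    rw [← (he s hs).2]
    exact Complex.exp_ne_zero _
  have h6 : Summable fun v : Pr E => -(lam v * aa X v s / (1 - aa X v s)) :=
    Summable.of_norm_bounded hu fun v => hb v s hσ2
  rw [h4, mul_div_cancel_left₀ _ h5]
  simpa using h6.hasSum.neg

open Classical in
/-- the remainder term -/
noncomputable def rr (X : Ideal (𝓞 E) → ℂ) (v : Pr E) (s : ℂ) : ℂ :=
  lam v * aa X v s / (1 - aa X v s) - if Deg1 v then lam v * aa X v s else 0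

theorem rr_cont {X : Ideal (𝓞 E) → ℂ} (hX : ∀ I, ‖X I‖ ≤ 1) (v : Pr E) :
    ContinuousOn (rr X v) {s | 1 ≤ s.re} := by
  have h1 : Continuous (aa X v) := by
    unfold aa
    fun_prop
  refine ContinuousOn.sub (ContinuousOn.div (by fun_prop) (by fun_prop)
    fun s hs => one_sub_ne (norm_aa_half hX v hs)) ?_
  split_ifs
  · fun_prop
  · fun_prop

theorem rr_bound {X : Ideal (𝓞 E) → ℂ} (hX : ∀ I, ‖X I‖ ≤ 1) :
    ∃ u : Pr E → ℝ, Summable u ∧ ∀ v s, s ∈ {s : ℂ | 1 ≤ s.re} → ‖rr X v s‖ ≤ u v := by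
  have h1 : Summable (Set.indicator {v : Pr E | ¬Deg1 v}
      fun v => lam v / (Ideal.absNorm v.asIdeal : ℝ)) :=
    summable_subtype_iff_indicator.mp summable_higher
  refine ⟨_, ((summable_lam (E := E) one_lt_two).add h1).mul_left 2, fun v s hs => ?_⟩
  have hs' : 1 ≤ s.re := hs
  have h2 := norm_aa_half hX v hs'
  have h3 := norm_aa hX v hs'
  have h4 := lam_pos v
  unfold rr
  by_cases h : Deg1 v
  · rw [if_pos h, Set.indicator_of_notMem (by simpa using h), add_zero]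
    have e : lam v * aa X v s / (1 - aa X v s) - lam v * aa X v s =
        lam v * aa X v s ^ 2 / (1 - aa X v s) := by
      have := one_sub_ne h2
      field_simp
      ring
    rw [e]
    refine (norm_div_le h2).trans ?_
    rw [norm_mul, Complex.norm_real, Real.norm_eq_abs, abs_of_pos h4, norm_pow,
      show -2 * lam v = ((2 : ℕ) : ℝ) * (-1 * lam v) by push_cast; ring, Real.exp_nat_mul]
    gcongr
  · rw [if_neg h, Set.indicator_of_mem (by simpa using h), sub_zero]
    refine (norm_div_le h2).trans ?_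
    rw [norm_mul, Complex.norm_real, Real.norm_eq_abs, abs_of_pos h4, div_eq_mul_inv,
      ← exp_neg_lam]
    have h5 : 0 ≤ lam v * Real.exp (-2 * lam v) := by positivity
    have h6 := mul_le_mul_of_nonneg_left h3 h4.le
    linarith

theorem wt_term (X : Ideal (𝓞 E) → ℂ) (v : Pr E) (s : ℂ) :
    (wt v : ℂ) * X v.asIdeal * Complex.exp (-s * lam v) =
      lam v * aa X v (1 + s) / (1 - aa X v (1 + s)) - rr X v (1 + s) := by
  unfold rr wt
  rw [sub_sub_cancel]
  split_ifs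
  · rw [div_eq_mul_inv, ← exp_neg_lam, aa, show -(1 + s) * (lam v : ℂ) =
      ((-1 * lam v : ℝ) : ℂ) + -s * lam v by push_cast; ring, Complex.exp_add, Complex.ofReal_mul,
      Complex.ofReal_exp]
    ring
  · simp

end Pool.Agent.MP_14ad9d_nt.Full.EDAux
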