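import Pool.Agent.MP_14ad9d_nt.Full.ADefs

set_option autoImplicit false

open Filter Topology MeasureTheory
open scoped FourierTransform

namespace Pool.Agent.MP_14ad9d_nt.Full

namespace WIAux

theorem summable_w : Summable fun k : ℤ => 1 / (1 + (k : ℝ) ^ 2) := by
  refine Summable.of_norm_bounded_eventually (Real.summable_one_div_int_pow.2 one_lt_two) ?_
  filter_upwards [(Set.finite_singleton (0 : ℤ)).compl_mem_cofinite] with k hk
  have : (k : ℝ) ≠ 0 := by exact_mod_cast hk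
  rw [Real.norm_of_nonneg (by positivity)]
  exact one_div_le_one_div_of_le (by positivity) (by linarith)

theorem bound {ι : Type} {a : ι → ℂ} {lam : ι → ℝ} (h0 : ∀ i, 0 ≤ lam i) {C : ℝ}
    (hC : ∀ (j : ℕ) (s : Finset ι), (∀ i ∈ s, (j : ℝ) ≤ lam i ∧ lam i ≤ j + 1) →
      ∑ i ∈ s, ‖a i‖ ≤ C) :
    ∃ C' : ℝ, 0 ≤ C' ∧ ∀ (ψ : ℝ → ℂ) (M u : ℝ), (∀ v, (1 + v ^ 2) * ‖ψ v‖ ≤ M) →
      Summable (fun i => ‖a i * ψ (lam i - u)‖) ∧ ‖∑' i, a i * ψ (lam i - u)‖ ≤ C' * M := by
  classical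
  have hC0 : 0 ≤ C := by simpa using hC 0 ∅ (by simp)
  have hw0 : 0 ≤ ∑' k : ℤ, 1 / (1 + (k : ℝ) ^ 2) := tsum_nonneg fun k => by positivity
  refine ⟨3 * C * ∑' k : ℤ, 1 / (1 + (k : ℝ) ^ 2), by positivity, fun ψ M u hM => ?_⟩
  have hM0 : 0 ≤ M := le_trans (by positivity) (hM 0)
  have key : ∀ s : Finset ι, ∑ i ∈ s, ‖a i * ψ (lam i - u)‖ ≤
      (3 * C * ∑' k : ℤ, 1 / (1 + (k : ℝ) ^ 2)) * M := by
    intro s
    rw [← Finset.sum_fiberwise_of_maps_to (g := fun i => ⌊lam i⌋₊)
      (t := s.image fun i => ⌊lam i⌋₊) fun i hi => Finset.mem_image_of_mem _ hi]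
    have h1 : ∀ j ∈ s.image fun i => ⌊lam i⌋₊,
        ∑ i ∈ s with ⌊lam i⌋₊ = j, ‖a i * ψ (lam i - u)‖ ≤
          3 * C * M * (1 / (1 + (((j : ℤ) - ⌊u⌋ : ℤ) : ℝ) ^ 2)) := by
      intro j _
      have h2 : ∀ i ∈ s.filter fun i => ⌊lam i⌋₊ = j, (j : ℝ) ≤ lam i ∧ lam i ≤ j + 1 :=
        fun i hi => by
          rw [← (Finset.mem_filter.1 hi).2]
          exact ⟨Nat.floor_le (h0 i), (Nat.lt_floor_add_one _).le⟩
      refine (Finset.sum_le_sum (g := fun i => ‖a i‖ *
        (3 * M * (1 / (1 + (((j : ℤ) - ⌊u⌋ : ℤ) : ℝ) ^ 2)))) fun i hi => ?_).trans ?_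
      · rw [norm_mul]
        refine mul_le_mul_of_nonneg_left ?_ (norm_nonneg _)
        rw [mul_one_div, le_div_iff₀ (by positivity)]
        push_cast
        obtain ⟨h3, h4⟩ := h2 i hi
        have h5 := Int.floor_le u
        have h6 := Int.lt_floor_add_one u
        have h7 : ((j : ℝ) - ⌊u⌋ - (lam i - u)) ^ 2 ≤ 1 := by nlinarith
        have h8 : 1 + ((j : ℝ) - ⌊u⌋) ^ 2 ≤ 3 * (1 + (lam i - u) ^ 2) := by
          nlinarith [sq_nonneg ((j : ℝ) - ⌊u⌋ - 2 * (lam i - u))]
        nlinarith [hM (lam i - u), mul_le_mul_of_nonneg_left h8 (norm_nonneg (ψ (lam i - u)))]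
      · rw [← Finset.sum_mul]
        exact (mul_le_mul_of_nonneg_right (hC j _ h2) (by positivity)).trans_eq (by ring)
    refine (Finset.sum_le_sum h1).trans ?_
    rw [← Finset.mul_sum, mul_right_comm]
    refine mul_le_mul_of_nonneg_right (mul_le_mul_of_nonneg_left ?_ (by positivity)) hM0
    rw [← Finset.sum_image (g := fun j : ℕ => (j : ℤ) - ⌊u⌋)
      (f := fun k : ℤ => 1 / (1 + (k : ℝ) ^ 2)) fun x _ y _ h => by simpa using h]
    exact summable_w.sum_le_tsum _ fun k _ => by positivity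
  have hs := summable_of_sum_le (fun i => norm_nonneg _) key
  exact ⟨hs, (norm_tsum_le_tsum_norm hs).trans (hs.tsum_le_of_sum_le key)⟩

theorem band {ι : Type} [Countable ι] {a : ι → ℂ} {lam : ι → ℝ} (h0 : ∀ i, 0 ≤ lam i)
    {D : ℂ → ℂ} (hD : ContinuousOn D {s | 0 ≤ s.re})
    (hs : ∀ s : ℂ, 0 < s.re → HasSum (fun i => a i * Complex.exp (-s * lam i)) (D s))
    {g : ℝ → ℂ} (hg : Continuous g) (hc : HasCompactSupport g) {c : ℝ} (hc0 : 0 < c) {ψ : ℝ → ℂ}
    (hψ : ∀ v, ψ v = ∫ t : ℝ, g t * Complex.exp (-(c * t * v) * Complex.I))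
    (hb : ∀ u, Summable fun i => ‖a i * ψ (lam i - u)‖) :
    Tendsto (fun u : ℝ => ∑' i, a i * ψ (lam i - u)) atTop (𝓝 0) := by
  have hDc : Continuous fun p : Set.Ici (0 : ℝ) × ℝ => D (p.1 + c * p.2 * Complex.I) :=
    hD.comp_continuous (by fun_prop) fun p => by simp
  have h1 : ∀ (u σ : ℝ), 0 < σ → ∑' i, Complex.exp (-σ * lam i) * (a i * ψ (lam i - u)) =
      ∫ t : ℝ, g t * Complex.exp (c * t * u * Complex.I) * D (σ + c * t * Complex.I) := by
    intro u σ hσ
    let F : ι → ℝ → ℂ := fun i t => g t * Complex.exp (c * t * u * Complex.I) *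
      (a i * Complex.exp (-(σ + c * t * Complex.I) * lam i))
    have hF : ∀ i t, ‖F i t‖ = ‖g t‖ * ‖a i * Complex.exp (-σ * lam i)‖ := fun i t => by
      simp [F, Complex.norm_exp]
    have := hasSum_integral_of_summable_integral_norm (μ := volume) (F := F)
      (fun i => (by fun_prop : Continuous (F i)).integrable_of_hasCompactSupport
        (hc.mul_right.mul_right))
      (by
        simp only [hF, integral_mul_const]
        exact (hs σ (by simpa using hσ)).summable.norm.mul_left _)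
    rw [← integral_congr_ae (f := fun t => ∑' i, F i t) (ae_of_all _ fun t =>
      ((hs _ (by simpa using hσ)).mul_left _).tsum_eq), ← this.tsum_eq]
    refine tsum_congr fun i => ?_
    rw [hψ, ← integral_const_mul, ← integral_const_mul]
    refine integral_congr_ae (ae_of_all _ fun t => ?_)
    simp only [F]
    rw [show -(σ + c * t * Complex.I) * (lam i : ℂ) = -σ * lam i + (-(c * t *
      ((lam i - u : ℝ) : ℂ)) * Complex.I - c * t * u * Complex.I) by push_cast; ring,
      Complex.exp_add, Complex.exp_sub]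
    field_simp
  have h2 : ∀ u : ℝ, ∑' i, a i * ψ (lam i - u) =
      ∫ t : ℝ, g t * Complex.exp (c * t * u * Complex.I) * D (c * t * Complex.I) := by
    intro u
    let σ : ℕ → Set.Ici (0 : ℝ) := fun n => ⟨1 / ((n : ℝ) + 1), by simp; positivity⟩
    have hσ : Tendsto (fun n => (σ n : ℝ)) atTop (𝓝 0) := tendsto_one_div_add_atTop_nhds_zero_nat
    have hσ' : Tendsto σ atTop (𝓝 ⟨0, Set.self_mem_Ici⟩) := tendsto_subtype_rng.2 hσ
    have a1 : Tendsto (fun n => ∑' i, Complex.exp (-(σ n : ℝ) * lam i) * (a i * ψ (lam i - u)))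
        atTop (𝓝 (∑' i, a i * ψ (lam i - u))) := by
      refine tendsto_tsum_of_dominated_convergence (hb u) (fun i => ?_)
        (Eventually.of_forall fun n i => ?_)
      · have : Continuous fun x : ℝ => Complex.exp (-x * lam i) * (a i * ψ (lam i - u)) := by
          fun_prop
        simpa [Function.comp_def] using (this.tendsto 0).comp hσ
      · rw [norm_mul]
        refine mul_le_of_le_one_left (norm_nonneg _) ?_
        rw [Complex.norm_exp, Real.exp_le_one_iff]
        simpa using mul_nonneg (σ n).2 (h0 i)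
    have a2 : Continuous fun x : Set.Ici (0 : ℝ) => ∫ t : ℝ,
        g t * Complex.exp (c * t * u * Complex.I) * D (x + c * t * Complex.I) := by
      have := (isClosed_Ici (a := (0 : ℝ))).locallyCompactSpace
      have := continuous_parametric_integral_of_continuous (μ := volume)
        (f := fun (x : Set.Ici (0 : ℝ)) (t : ℝ) =>
          g t * Complex.exp (c * t * u * Complex.I) * D (x + c * t * Complex.I))
        (Continuous.mul (by fun_prop) hDc) hc
      refine this.congr fun x => setIntegral_eq_integral_of_forall_compl_eq_zero fun t ht => ?_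
      simp [image_eq_zero_of_notMem_tsupport ht]
    have a3 := (a2.tendsto _).comp hσ'
    refine tendsto_nhds_unique a1 ?_
    simp only [h1 u _ (show 0 < (σ _ : ℝ) from Nat.one_div_pos_of_nat)]
    simpa [Function.comp_def] using a3
  have h3 : Tendsto (fun u : ℝ => -(c * u / (2 * Real.pi))) atTop (cocompact ℝ) := by
    refine Tendsto.mono_right (tendsto_neg_atTop_atBot.comp ?_) atBot_le_cocompact
    exact (tendsto_id.const_mul_atTop hc0).atTop_div_const (by positivity)
  refine ((Real.zero_at_infty_fourier fun t : ℝ => g t * D (c * t * Complex.I)).comp h3).congr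
    fun u => ?_
  rw [h2, Function.comp_apply, Real.fourier_real_eq_integral_exp_smul]
  refine integral_congr_ae (ae_of_all _ fun t => ?_)
  have : -2 * Real.pi * t * -(c * u / (2 * Real.pi)) = c * t * u := by field_simp
  simp only [this, smul_eq_mul]
  push_cast
  ring

theorem flip {f g : ℝ → ℂ} (hf : Integrable f) (hg : Integrable g) :
    ∫ x, 𝓕 f x * g x = ∫ x, f x * 𝓕 g x := by
  simpa using! VectorFourier.integral_bilin_fourierIntegral_eq_flip (ContinuousLinearMap.mul ℂ ℂ)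
    (L := innerₗ ℝ) Real.continuous_fourierChar continuous_inner hf hg

theorem approx {φ : ℝ → ℂ} {L : NNReal} (hφ : LipschitzWith L φ) (hc : HasCompactSupport φ)
    {ε : ℝ} (hε : 0 < ε) : ∃ (g ψ : ℝ → ℂ) (c : ℝ), Continuous g ∧ HasCompactSupport g ∧ 0 < c ∧
      (∀ v, ψ v = ∫ t : ℝ, g t * Complex.exp (-(c * t * v) * Complex.I)) ∧
      ∀ v, (1 + v ^ 2) * ‖φ v - ψ v‖ ≤ ε := by
  let b₀ : ContDiffBump (0 : ℝ) := ⟨1, 2, one_pos, one_lt_two⟩
  have hb1 : HasCompactSupport fun x => (b₀ x : ℂ) :=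
    b₀.hasCompactSupport.comp_left (g := Complex.ofReal) rfl
  let b : SchwartzMap ℝ ℂ := hb1.toSchwartzMap (Complex.ofRealCLM.contDiff.comp b₀.contDiff)
  let K : SchwartzMap ℝ ℂ := 𝓕 b
  have hK : ∫ x, K x = 1 := by
    have h1 : 𝓕⁻ (𝓕 (b : ℝ → ℂ)) 0 = b 0 :=
      congrFun (b.continuous.fourierInv_fourier_eq b.integrable K.integrable) 0
    rw [Real.fourierInv_eq] at h1
    simp only [inner_zero_right, AddChar.map_zero_eq_one, one_smul] at h1
    refine h1.trans ?_
    change ((b₀ 0 : ℝ) : ℂ) = 1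
    rw [b₀.one_of_mem_closedBall (Metric.mem_closedBall_self b₀.rIn_pos.le)]
    rfl
  have hI : Integrable fun x : ℝ => ‖x‖ ^ 1 * ‖K x‖ + ‖x‖ ^ 3 * ‖K x‖ :=
    (K.integrable_pow_mul volume 1).add (K.integrable_pow_mul volume 3)
  obtain ⟨R, hR⟩ := hc.isCompact.isBounded.subset_closedBall 0
  have hR' : ∀ v, φ v ≠ 0 → v ^ 2 ≤ R ^ 2 := fun v hv =>
    sq_le_sq' (abs_le.1 (by simpa using hR (subset_tsupport _ hv))).1
      (abs_le.1 (by simpa using hR (subset_tsupport _ hv))).2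
  set A := 2 * (1 + R ^ 2) * L with hA
  set J := ∫ x : ℝ, (‖x‖ ^ 1 * ‖K x‖ + ‖x‖ ^ 3 * ‖K x‖) with hJ
  have hA0 : 0 ≤ A := by positivity
  set T := max 1 (A * J / ε) with hT
  have T1 : 1 ≤ T := le_max_left _ _
  have T0 : 0 < T := by linarith
  have T2 : A / T * J ≤ ε := by
    rw [div_mul_eq_mul_div, div_le_iff₀ T0, mul_comm ε, ← div_le_iff₀ hε]
    exact le_max_right _ _
  have hi : Integrable φ := hφ.continuous.integrable_of_hasCompactSupport hc
  have hi' : ∀ v, Integrable fun x => φ (v - x / T) := fun v =>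
    (hi.comp_sub_left v).comp_div T0.ne'
  have hF : Continuous (𝓕 φ) := VectorFourier.fourierIntegral_continuous
    Real.continuous_fourierChar (L := innerₗ ℝ) continuous_inner hi
  refine ⟨fun t => b t * (T * 𝓕 φ (-(T * t))), fun v => ∫ x, K x * φ (v - x / T),
    2 * Real.pi * T, b.continuous.mul (by fun_prop), hb1.mul_right, by positivity, fun v => ?_,
    fun v => ?_⟩
  · refine (flip b.integrable (hi' v)).trans (integral_congr_ae (ae_of_all _ fun t => ?_))
    simp only [mul_assoc]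
    congr 1
    let G : ℝ → ℂ := fun y => Complex.exp ((-2 * Real.pi * (T * (v - y)) * t : ℝ) * Complex.I) * φ y
    have e1 : ∫ x, G (v - x / T) = T * ∫ y, G y := by
      rw [Measure.integral_comp_div (fun x => G (v - x)), integral_sub_left_eq_self,
        abs_of_pos T0, Complex.real_smul]
    rw [Real.fourier_real_eq_integral_exp_smul, Real.fourier_real_eq_integral_exp_smul,
      ← integral_mul_const]
    refine Eq.trans (integral_congr_ae (ae_of_all _ fun x => ?_)) (e1.trans ?_)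
    · simp only [G, sub_sub_cancel, mul_div_cancel₀ _ T0.ne', smul_eq_mul]
    · congr 1
      refine integral_congr_ae (ae_of_all _ fun y => ?_)
      simp only [G, smul_eq_mul]
      rw [mul_right_comm _ (φ y), ← Complex.exp_add]
      congr 2
      push_cast
      ring
  · have hi2 : Integrable fun x => K x * φ (v - x / T) :=
      (hi' v).bdd_mul K.continuous.aestronglyMeasurable
        (ae_of_all _ fun x => K.norm_le_seminorm ℝ x)
    have e : φ v - ∫ x, K x * φ (v - x / T) = ∫ x, K x * (φ v - φ (v - x / T)) := by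
      simp only [mul_sub]
      rw [integral_sub (K.integrable.mul_const _) hi2, integral_mul_const, hK, one_mul]
    rw [e, ← Real.norm_of_nonneg (show 0 ≤ 1 + v ^ 2 by positivity), ← norm_smul, ← integral_smul]
    refine le_trans (norm_integral_le_of_norm_le (hI.const_mul (A / T)) (ae_of_all _ fun x => ?_))
      (by rwa [integral_const_mul])
    rw [norm_smul, norm_mul, Real.norm_of_nonneg (by positivity)]
    have h1 : ‖φ v - φ (v - x / T)‖ ≤ L * (‖x‖ / T) := by
      have := hφ.dist_le_mul v (v - x / T)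
      rwa [dist_eq_norm, dist_eq_norm, sub_sub_cancel, norm_div, Real.norm_of_nonneg T0.le] at this
    have h2 : (1 + v ^ 2) * ‖φ v - φ (v - x / T)‖ ≤ A / T * (‖x‖ ^ 1 + ‖x‖ ^ 3) := by
      by_cases h : φ v = 0 ∧ φ (v - x / T) = 0
      · rw [h.1, h.2, sub_self, norm_zero, mul_zero]
        positivity
      have h3 : (x / T) ^ 2 ≤ ‖x‖ ^ 2 := by
        rw [div_pow, Real.norm_eq_abs, sq_abs]
        exact div_le_self (sq_nonneg _) (one_le_pow₀ T1)
      have h4 : 1 + v ^ 2 ≤ 2 * (1 + R ^ 2) * (1 + ‖x‖ ^ 2) := by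
        have h5 := mul_nonneg (sq_nonneg R) (sq_nonneg ‖x‖)
        rcases not_and_or.1 h with h | h
        · nlinarith [hR' _ h, sq_nonneg ‖x‖, sq_nonneg R]
        · nlinarith [hR' _ h, sq_nonneg (v - 2 * (x / T))]
      refine (mul_le_mul h4 h1 (norm_nonneg _) (by positivity)).trans_eq ?_
      rw [hA]
      ring
    calc _ = ‖K x‖ * ((1 + v ^ 2) * ‖φ v - φ (v - x / T)‖) := by ring
      _ ≤ ‖K x‖ * (A / T * (‖x‖ ^ 1 + ‖x‖ ^ 3)) := mul_le_mul_of_nonneg_left h2 (norm_nonneg _)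
      _ = _ := by ring

theorem wi_c {ι : Type} [Countable ι] (a : ι → ℂ) (lam : ι → ℝ) (h0 : ∀ i, 0 ≤ lam i) (C : ℝ)
    (hC : ∀ (j : ℕ) (s : Finset ι), (∀ i ∈ s, (j : ℝ) ≤ lam i ∧ lam i ≤ j + 1) →
      ∑ i ∈ s, ‖a i‖ ≤ C)
    (D : ℂ → ℂ) (hD : ContinuousOn D {s | 0 ≤ s.re})
    (hs : ∀ s : ℂ, 0 < s.re → HasSum (fun i => a i * Complex.exp (-s * lam i)) (D s))
    (κ : ℝ → ℂ) (hκ : Continuous κ) (hc : HasCompactSupport κ) :
    Tendsto (fun u : ℝ => ∑' i, a i * κ (lam i - u)) atTop (𝓝 0) := by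
  obtain ⟨C', hC', hb⟩ := bound h0 hC
  obtain ⟨M, hM⟩ := (hc.norm.mul_left (f := fun v : ℝ => 1 + v ^ 2)).exists_bound_of_continuous
    (by fun_prop)
  have hM' : ∀ v, (1 + v ^ 2) * ‖κ v‖ ≤ M := fun v => (le_abs_self _).trans (hM v)
  refine Metric.tendsto_nhds.2 fun ε hε => ?_
  set δ := ε / (4 * (C' + 1)) with hδ
  have δ0 : 0 < δ := by positivity
  obtain ⟨φ, p1, p2, p3⟩ := hκ.exists_contDiff_approx 1 (ε := fun v => δ / (1 + v ^ 2))
    (continuous_const.div (by fun_prop) fun v => by positivity) fun v => by positivity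
  have p4 : HasCompactSupport φ := hc.mono p3
  obtain ⟨L, hL⟩ := p1.lipschitzWith_of_hasCompactSupport p4 (by simp)
  obtain ⟨g, ψ, c, g1, g2, g3, g4, g5⟩ := approx hL p4 δ0
  have h1 : ∀ v, (1 + v ^ 2) * ‖κ v - ψ v‖ ≤ 2 * δ := fun v => by
    have := p2 v
    rw [dist_comm, dist_eq_norm, lt_div_iff₀ (by positivity)] at this
    nlinarith [g5 v, norm_sub_le_norm_sub_add_norm_sub (κ v) (φ v) (ψ v), sq_nonneg v]
  have h2 : ∀ v, (1 + v ^ 2) * ‖ψ v‖ ≤ M + 2 * δ := fun v => by
    nlinarith [h1 v, hM' v, norm_le_norm_add_norm_sub (κ v) (ψ v), sq_nonneg v]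
  filter_upwards [Metric.tendsto_nhds.1 (band h0 hD hs g1 g2 g3 g4 fun u => (hb ψ _ u h2).1) _
    (half_pos hε)] with u hu
  have h3 := (hb (fun v => κ v - ψ v) _ u h1).2
  simp only [mul_sub] at h3
  rw [(hb κ _ u hM').1.of_norm.tsum_sub (hb ψ _ u h2).1.of_norm] at h3
  rw [dist_zero_right] at hu ⊢
  have h4 : C' * (2 * δ) ≤ ε / 2 := by
    rw [hδ, mul_div_assoc', mul_div_assoc', div_le_div_iff₀ (by positivity) (by positivity)]
    nlinarith
  linarith [norm_le_norm_add_norm_sub' (∑' i, a i * κ (lam i - u)) (∑' i, a i * ψ (lam i - u))]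

end WIAux

/-- a Tauberian theorem of Wiener and Ikehara type for complex coefficients -/
theorem wi {ι : Type} (a : ι → ℂ) (lam : ι → ℝ) (h0 : ∀ i, 0 ≤ lam i) (C : ℝ)
    (hC : ∀ (j : ℕ) (s : Finset ι), (∀ i ∈ s, (j : ℝ) ≤ lam i ∧ lam i ≤ j + 1) →
      ∑ i ∈ s, ‖a i‖ ≤ C)
    (D : ℂ → ℂ) (hD : ContinuousOn D {s | 0 ≤ s.re})
    (hs : ∀ s : ℂ, 0 < s.re → HasSum (fun i => a i * Complex.exp (-s * lam i)) (D s))
    (κ : ℝ → ℂ) (hκ : Continuous κ) (hc : HasCompactSupport κ) :
    Tendsto (fun u : ℝ => ∑' i, a i * κ (lam i - u)) atTop (𝓝 0) := by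
  have hsup : ∀ f : ι → ℂ, Function.support (fun i => a i * f i) ⊆ Function.support a :=
    fun f i hi => left_ne_zero_of_mul hi
  have : Countable (Function.support a) := ((hs 1 (by simp)).summable.countable_support.mono
    fun i hi => mul_ne_zero hi (Complex.exp_ne_zero _)).to_subtype
  have := WIAux.wi_c (ι := Function.support a) (fun i => a i) (fun i => lam i) (fun i => h0 i) C
    (fun j s h => by
      have := hC j (s.map (Function.Embedding.subtype _)) fun i hi => by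
        obtain ⟨i, hi', rfl⟩ := Finset.mem_map.1 hi
        exact h i hi'
      rwa [Finset.sum_map] at this) D hD
    (fun s h => (hasSum_subtype_iff_of_support_subset (hsup _)).2 (hs s h)) κ hκ hc
  exact this.congr fun u => tsum_subtype_eq_of_support_subset (hsup _)

end Pool.Agent.MP_14ad9d_nt.Full
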