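import Pool.Agent.MP_14ad9d_nt.Full.Piece
import Pool.Agent.MP_14ad9d_nt.Full.Euler
import Pool.Agent.MP_14ad9d_nt.Full.WI
import Pool.Agent.MP_14ad9d_nt.Full.ED3

set_option autoImplicit false

open NumberField Filter Topology

namespace Pool.Agent.MP_14ad9d_nt.Full

variable {E : Type} [Field E] [NumberField E]

/-- analytic continuation -/
theorem lfun (h : Hecke E) (hn : h.Nontriv) : ∃ L : ℂ → ℂ,
    DifferentiableOn ℂ L {s | 1 - 1 / (Module.finrank ℚ E : ℝ) < s.re} ∧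
      ∀ s : ℂ, 1 < s.re → L s = ∑' I : Ideal (𝓞 E), h.X I * (Ideal.absNorm I : ℂ) ^ (-s) :=
  EDAux.lfun' h hn

/-- the prime number theorem for a Hecke character whose square is nontrivial -/
theorem ed (h h2 : Hecke E) (hn : h.Nontriv) (hn2 : h2.Nontriv) (hsq : ∀ I, h2.X I = h.X I ^ 2)
    (κ : ℝ → ℂ) (hκ : Continuous κ) (hc : HasCompactSupport κ) :
    Tendsto (fun u : ℝ => ∑' v : Pr E, (wt v : ℂ) * h.X v.asIdeal * κ (lam v - u)) atTop (𝓝 0) := by
  obtain ⟨L, hL, hL'⟩ := lfun h hn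
  obtain ⟨M, hM, hM'⟩ := lfun h2 hn2
  set V : Set ℂ := {s | 1 - 1 / (Module.finrank ℚ E : ℝ) < s.re} with hV
  have hVo : IsOpen V := isOpen_lt continuous_const Complex.continuous_re
  have hmem : ∀ s : ℂ, 1 ≤ s.re → s ∈ V := by
    intro s hs
    have h1 : (0 : ℝ) < Module.finrank ℚ E := by exact_mod_cast Module.finrank_pos
    have h2 : (0 : ℝ) < 1 / (Module.finrank ℚ E : ℝ) := by positivity
    show 1 - 1 / (Module.finrank ℚ E : ℝ) < s.re
    linarith
  have hLd : ∀ s : ℂ, 1 ≤ s.re → DifferentiableAt ℂ L s := fun s hs =>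
    hL.differentiableAt (hVo.mem_nhds (hmem s hs))
  have hMc : ∀ s : ℂ, 1 ≤ s.re → ContinuousAt M s := fun s hs =>
    (hM.differentiableAt (hVo.mem_nhds (hmem s hs))).continuousAt
  have hne := EDAux.ne_zero h.X h2.X h.norm_le h.X_bot h2.norm_le h2.X_bot hsq L M hLd hMc hL' hM'
  obtain ⟨u, hu, hu'⟩ := EDAux.rr_bound (X := h.X) h.norm_le
  have hR : ContinuousOn (fun s => ∑' v, EDAux.rr h.X v s) {s | 1 ≤ s.re} :=
    continuousOn_tsum (fun v => EDAux.rr_cont h.norm_le v) hu hu'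
  have hQ : ContinuousOn (fun s => -(deriv L s / L s) - ∑' v, EDAux.rr h.X v s)
      {s | 1 ≤ s.re} := by
    refine ContinuousOn.sub (ContinuousOn.neg (ContinuousOn.div ?_ ?_ hne)) hR
    · exact (hL.deriv hVo).continuousOn.mono hmem
    · exact hL.continuousOn.mono hmem
  obtain ⟨C, hC⟩ := cheb_wt (E := E)
  refine wi (fun v : Pr E => (wt v : ℂ) * h.X v.asIdeal) lam (fun v => (lam_pos v).le) C
    (fun j s hs => ?_)
    (fun s => -(deriv L (1 + s) / L (1 + s)) - ∑' v, EDAux.rr h.X v (1 + s)) ?_ (fun s hs => ?_)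
    κ hκ hc
  · refine le_trans (Finset.sum_le_sum fun v _ => ?_) (hC j s hs)
    rw [norm_mul, Complex.norm_real, Real.norm_eq_abs, abs_of_nonneg (wt_nonneg v)]
    exact mul_le_of_le_one_right (wt_nonneg v) (h.norm_le _)
  · refine hQ.comp (f := fun s : ℂ => 1 + s) (by fun_prop) fun s hs => ?_
    have : 0 ≤ s.re := hs
    show 1 ≤ (1 + s).re
    simpa using this
  · have h1 : 1 < (1 + s).re := by simpa using hs
    simp_rw [EDAux.wt_term h.X]
    exact (EDAux.hasSum_logderiv h.X h.norm_le h.X_bot L hL' _ h1).sub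
      (Summable.of_norm_bounded hu fun v => hu' v _ h1.le).hasSum

end Pool.Agent.MP_14ad9d_nt.Full
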