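import Pool.Agent.MP_14ad9d_nt.Full.Piece
import Pool.Agent.MP_14ad9d_nt.Full.Euler

set_option autoImplicit false

open NumberField Filter Topology
open scoped NNReal

namespace Pool.Agent.MP_14ad9d_nt.Full.EDAux

theorem tent_nonneg (u : ℝ) : 0 ≤ tent u := le_max_left _ _

theorem tent_le_one (u : ℝ) : tent u ≤ 1 := max_le zero_le_one (by linarith [abs_nonneg u])

theorem tent_eq_zero {u : ℝ} (h : 1 ≤ |u|) : tent u = 0 := max_eq_left (by linarith)

theorem tent_lip (u v : ℝ) : |tent u - tent v| ≤ |u - v| := by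
  unfold tent
  rw [max_comm 0, max_comm 0]
  refine (abs_max_sub_max_le_abs _ _ _).trans ?_
  rw [show 1 - |u| - (1 - |v|) = -(|u| - |v|) by ring, abs_neg]
  exact abs_abs_sub_abs_le_abs_sub u v

theorem hasSum_tent {u : ℝ} (hu : 0 ≤ u) : HasSum (fun k : ℕ => tent (u - k)) 1 := by
  set j := ⌊u⌋₊ with hj
  have h1 : (j : ℝ) ≤ u := Nat.floor_le hu
  have h2 : u < j + 1 := Nat.lt_floor_add_one u
  have h3 : HasSum (fun k : ℕ => tent (u - k)) (∑ k ∈ ({j, j + 1} : Finset ℕ), tent (u - k)) := by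
    refine hasSum_sum_of_ne_finset_zero fun k hk => tent_eq_zero ?_
    simp only [Finset.mem_insert, Finset.mem_singleton, not_or] at hk
    rcases lt_or_gt_of_ne hk.1 with h | h
    · have : (k : ℝ) + 1 ≤ j := by exact_mod_cast h
      rw [abs_of_nonneg (by linarith)]
      linarith
    · have : j + 2 ≤ k := by omega
      have : (j : ℝ) + 2 ≤ k := by exact_mod_cast this
      rw [abs_of_nonpos (by linarith)]
      linarith
  rw [Finset.sum_pair (by omega)] at h3
  convert h3 using 1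
  unfold tent
  push_cast
  rw [abs_of_nonneg (by linarith : 0 ≤ u - j), abs_of_nonpos (by linarith : u - (j + 1) ≤ 0),
    max_eq_right (by linarith), max_eq_right (by linarith)]
  ring

/-- clamping to the interval from minus one to one -/
noncomputable def clamp (u : ℝ) : ℝ := max (-1) (min 1 u)

theorem abs_clamp_le (u : ℝ) : |clamp u| ≤ 1 :=
  abs_le.mpr ⟨le_max_left _ _, max_le (by norm_num) (min_le_left _ _)⟩

theorem clamp_lip (u v : ℝ) : |clamp u - clamp v| ≤ |u - v| := by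
  unfold clamp
  rw [max_comm (-1), max_comm (-1)]
  refine (abs_max_sub_max_le_abs _ _ _).trans ?_
  refine (abs_min_sub_min_le_max _ _ _ _).trans ?_
  simp

/-- the test function -/
noncomputable def Phi (s : ℂ) (u : ℝ) : ℂ := Complex.exp (-s * clamp u) * tent u

theorem Phi_eq (s : ℂ) (u : ℝ) : Phi s u = Complex.exp (-s * u) * tent u := by
  unfold Phi
  by_cases h : 1 ≤ |u|
  · simp [tent_eq_zero h]
  · have h1 := abs_lt.mp (not_le.mp h)
    unfold clamp
    rw [min_eq_right h1.2.le, max_eq_right h1.1.le]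

theorem exp_lip {B : ℝ} {a b : ℂ} (ha : ‖a‖ ≤ B) (hb : ‖b‖ ≤ B) :
    ‖Complex.exp a - Complex.exp b‖ ≤ Real.exp B * ‖a - b‖ := by
  refine (convex_closedBall (0 : ℂ) B).norm_image_sub_le_of_norm_deriv_le (𝕜 := ℂ)
    (f := Complex.exp) (fun x _ => Complex.differentiableAt_exp) (fun x hx => ?_)
    (mem_closedBall_zero_iff.mpr hb) (mem_closedBall_zero_iff.mpr ha)
  rw [Complex.deriv_exp]
  exact (Complex.norm_exp_le_exp_norm x).trans
    (Real.exp_le_exp.mpr (mem_closedBall_zero_iff.mp hx))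

theorem Phi_lip {B : ℝ} {s : ℂ} (hs : ‖s‖ ≤ B) :
    LipschitzWith (Real.toNNReal ((1 + B) * Real.exp B)) (Phi s) := by
  have hB : 0 ≤ B := (norm_nonneg s).trans hs
  refine LipschitzWith.of_dist_le_mul fun u v => ?_
  rw [Real.coe_toNNReal _ (by positivity), dist_eq_norm, Real.dist_eq]
  have hc : ∀ w : ℝ, ‖-s * (clamp w : ℂ)‖ ≤ B := by
    intro w
    rw [norm_mul, norm_neg, Complex.norm_real, Real.norm_eq_abs]
    calc ‖s‖ * |clamp w| ≤ B * 1 := mul_le_mul hs (abs_clamp_le w) (abs_nonneg _) hB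
      _ = B := mul_one B
  have h1 : ‖Complex.exp (-s * clamp u) - Complex.exp (-s * clamp v)‖ ≤
      Real.exp B * (B * |u - v|) := by
    refine (exp_lip (hc u) (hc v)).trans (mul_le_mul_of_nonneg_left ?_ (Real.exp_pos B).le)
    rw [← mul_sub, norm_mul, norm_neg, ← Complex.ofReal_sub, Complex.norm_real, Real.norm_eq_abs]
    exact mul_le_mul hs (clamp_lip u v) (abs_nonneg _) hB
  have h2 : ‖Complex.exp (-s * clamp v)‖ ≤ Real.exp B :=
    (Complex.norm_exp_le_exp_norm _).trans (Real.exp_le_exp.mpr (hc v))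
  have h3 : Phi s u - Phi s v = (Complex.exp (-s * clamp u) - Complex.exp (-s * clamp v)) * tent u +
      Complex.exp (-s * clamp v) * ((tent u - tent v : ℝ) : ℂ) := by
    unfold Phi
    push_cast
    ring
  rw [h3]
  refine (norm_add_le _ _).trans ?_
  rw [norm_mul, norm_mul, Complex.norm_real, Complex.norm_real, Real.norm_eq_abs, Real.norm_eq_abs,
    abs_of_nonneg (tent_nonneg u)]
  have h4 := mul_le_mul h1 (tent_le_one u) (tent_nonneg u) (by positivity)
  have h5 := mul_le_mul h2 (tent_lip u v) (abs_nonneg _) (Real.exp_pos B).le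
  calc _ ≤ Real.exp B * (B * |u - v|) * 1 + Real.exp B * |u - v| := add_le_add h4 h5
    _ = (1 + B) * Real.exp B * |u - v| := by ring

variable {E : Type} [Field E] [NumberField E]

theorem cpow_eq {N : ℕ} (hN : N ≠ 0) (s : ℂ) :
    (N : ℂ) ^ (-s) = Complex.exp (-s * Real.log N) := by
  rw [Complex.cpow_def_of_ne_zero (by exact_mod_cast hN), Complex.natCast_log, mul_comm]

/-- the ideals that can occur in the `k`-th piece -/
noncomputable def TT (E : Type) [Field E] [NumberField E] (k : ℕ) : Finset (Ideal (𝓞 E)) :=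
  (Ideal.finite_setOfPred_absNorm_le (S := 𝓞 E) ⌊Real.exp (k + 1)⌋₊).toFinset

theorem tent_of_notMem {k : ℕ} {I : Ideal (𝓞 E)} (h : I ∉ TT E k) :
    tent (Real.log (Ideal.absNorm I) - k) = 0 := by
  apply tent_eq_zero
  simp only [TT, Set.Finite.mem_toFinset, Set.mem_ofPred_eq, not_le] at h
  have h1 : Real.exp (k + 1) < Ideal.absNorm I := (Nat.floor_lt (Real.exp_pos _).le).mp h
  have h2 : (k : ℝ) + 1 ≤ Real.log (Ideal.absNorm I) :=
    (Real.le_log_iff_exp_le ((Real.exp_pos _).trans h1)).mpr h1.le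
  exact le_trans (by linarith) (le_abs_self _)

/-- the `k`-th piece of the Dirichlet series -/
noncomputable def PP (X : Ideal (𝓞 E) → ℂ) (k : ℕ) (s : ℂ) : ℂ :=
  ∑ I ∈ TT E k, X I * Complex.exp (-s * Real.log (Ideal.absNorm I)) *
    tent (Real.log (Ideal.absNorm I) - k)

theorem PP_diff (X : Ideal (𝓞 E) → ℂ) (k : ℕ) : Differentiable ℂ (PP X k) := by
  unfold PP
  fun_prop

theorem PP_eq (X : Ideal (𝓞 E) → ℂ) (k : ℕ) (s : ℂ) :
    PP X k s = Complex.exp (-s * k) *
      ∑ᶠ I : Ideal (𝓞 E), X I * Phi s (Real.log (Ideal.absNorm I) - (k : ℝ)) := by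
  rw [finsum_eq_sum_of_support_subset (s := TT E k), PP, Finset.mul_sum]
  · refine Finset.sum_congr rfl fun I _ => ?_
    rw [Phi_eq, show -s * (Real.log (Ideal.absNorm I) : ℂ) =
      -s * k + -s * ((Real.log (Ideal.absNorm I) - (k : ℝ) : ℝ) : ℂ) by push_cast; ring,
      Complex.exp_add]
    ring
  · intro I hI
    by_contra h
    apply hI
    simp only [Phi, tent_of_notMem h, Complex.ofReal_zero, mul_zero]

theorem hasSum_split {ι : Type} (c : ι → ℂ) (hc : Summable fun i => ‖c i‖) (t : ι → ℕ → ℝ)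
    (h0 : ∀ i k, 0 ≤ t i k) (ht : ∀ i, HasSum (t i) 1) (P : ℕ → ℂ)
    (hP : ∀ k, HasSum (fun i => c i * t i k) (P k)) : HasSum P (∑' i, c i) := by
  have h2 : Summable fun x : ι × ℕ => c x.1 * t x.1 x.2 := by
    refine Summable.of_norm ?_
    have e : (fun x : ι × ℕ => ‖c x.1 * t x.1 x.2‖) = fun x : ι × ℕ => ‖c x.1‖ * t x.1 x.2 := by
      funext x
      rw [norm_mul, Complex.norm_real, Real.norm_eq_abs, abs_of_nonneg (h0 _ _)]
    rw [e]
    have e2 : (fun i => ∑' k, ‖c i‖ * t i k) = fun i => ‖c i‖ := by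
      funext i
      rw [((ht i).mul_left ‖c i‖).tsum_eq, mul_one]
    refine (summable_prod_of_nonneg (f := fun x : ι × ℕ => ‖c x.1‖ * t x.1 x.2)
      fun x => mul_nonneg (norm_nonneg (c x.1)) (h0 x.1 x.2)).mpr
      ⟨fun i => ((ht i).mul_left ‖c i‖).summable, ?_⟩
    show Summable fun i => ∑' k, ‖c i‖ * t i k
    rw [e2]
    exact hc
  have h3 : HasSum c (∑' x : ι × ℕ, c x.1 * t x.1 x.2) := by
    refine h2.hasSum.prod_fiberwise fun i => ?_
    simpa using (Complex.hasSum_ofReal.mpr (ht i)).mul_left (c i)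
  rw [h3.tsum_eq]
  have h4 : HasSum (fun x : ℕ × ι => c x.2 * t x.2 x.1) (∑' x : ι × ℕ, c x.1 * t x.1 x.2) :=
    (Equiv.prodComm ℕ ι).hasSum_iff.mpr h2.hasSum
  exact h4.prod_fiberwise hP

theorem hasSum_PP (X : Ideal (𝓞 E) →* ℂ) (hX : ∀ I, ‖X I‖ ≤ 1) (h0 : X ⊥ = 0) (s : ℂ)
    (hs : 1 < s.re) :
    HasSum (fun k => PP X k s) (∑' I : Ideal (𝓞 E), X I * (Ideal.absNorm I : ℂ) ^ (-s)) := by
  refine hasSum_split _ (euler X hX h0 s hs).1
    (fun I k => tent (Real.log (Ideal.absNorm I) - k)) (fun _ _ => tent_nonneg _)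
    (fun I => hasSum_tent (Real.log_natCast_nonneg _)) _ fun k => ?_
  have h5 : PP X k s = ∑ I ∈ TT E k, X I * (Ideal.absNorm I : ℂ) ^ (-s) *
      (tent (Real.log (Ideal.absNorm I) - k) : ℂ) := by
    refine Finset.sum_congr rfl fun I _ => ?_
    by_cases hI : I = ⊥
    · simp [hI, h0]
    · rw [cpow_eq (Ideal.absNorm_eq_zero_iff.not.mpr hI)]
  rw [h5]
  refine hasSum_sum_of_ne_finset_zero fun I hI => ?_
  rw [tent_of_notMem hI, Complex.ofReal_zero, mul_zero]

theorem lfun' (h : Hecke E) (hn : h.Nontriv) : ∃ L : ℂ → ℂ,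
    DifferentiableOn ℂ L {s | 1 - 1 / (Module.finrank ℚ E : ℝ) < s.re} ∧
      ∀ s : ℂ, 1 < s.re → L s = ∑' I : Ideal (𝓞 E), h.X I * (Ideal.absNorm I : ℂ) ^ (-s) := by
  obtain ⟨C, hC⟩ := piece h hn
  refine ⟨fun s => ∑' k, PP h.X k s, fun s₀ hs₀ => ?_,
    fun s hs => (hasSum_PP h.X h.norm_le h.X_bot s hs).tsum_eq⟩
  set σ : ℝ := 1 - 1 / (Module.finrank ℚ E : ℝ) with hσ
  have hs₀' : σ < s₀.re := hs₀
  set δ : ℝ := (s₀.re - σ) / 2 with hδ
  have hδ0 : 0 < δ := by rw [hδ]; linarith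
  set B : ℝ := ‖s₀‖ + 1 with hB
  have hB0 : 0 ≤ B := by positivity
  set U : Set ℂ := {s | σ + δ < s.re} ∩ {s | ‖s‖ < B} with hU
  have hUo : IsOpen U := (isOpen_lt continuous_const Complex.continuous_re).inter
    (isOpen_lt continuous_norm continuous_const)
  have hmem : s₀ ∈ U := ⟨by simp only [Set.mem_ofPred_eq]; rw [hδ]; linarith,
    by simp only [Set.mem_ofPred_eq]; rw [hB]; linarith⟩
  have hsum : Summable fun k : ℕ => |C| * ((1 + B) * Real.exp B) * Real.exp (-δ) ^ k :=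
    (summable_geometric_of_lt_one (Real.exp_pos _).le
      (Real.exp_lt_one_iff.mpr (by linarith))).mul_left _
  have hd := Complex.differentiableOn_tsum_of_summable_norm (F := fun k s => PP h.X k s) hsum
    (fun k => (PP_diff h.X k).differentiableOn) hUo (fun k s hs => by
      have h1 := hC (Phi s) _ (Phi_lip (le_of_lt hs.2))
        (fun u hu => by simp [Phi, tent_eq_zero hu.le]) k (Nat.cast_nonneg k)
      rw [Real.coe_toNNReal _ (by positivity)] at h1
      have h2 : σ + δ < s.re := hs.1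
      rw [PP_eq, norm_mul, Complex.norm_exp]
      have h3 : (-s * k).re = -(s.re * k) := by simp
      rw [h3]
      calc Real.exp (-(s.re * k)) * _ ≤ Real.exp (-(s.re * k)) *
            (|C| * ((1 + B) * Real.exp B) * Real.exp (k * σ)) := by
            refine mul_le_mul_of_nonneg_left (h1.trans ?_) (Real.exp_pos _).le
            gcongr
            exact le_abs_self C
        _ = |C| * ((1 + B) * Real.exp B) * Real.exp (-(s.re * k) + k * σ) := by
            rw [Real.exp_add (-(s.re * k))]; ring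
        _ ≤ |C| * ((1 + B) * Real.exp B) * Real.exp (-δ) ^ k := by
            rw [← Real.exp_nat_mul]
            gcongr
            have : (0 : ℝ) ≤ k := Nat.cast_nonneg k
            nlinarith)
  exact (hd.differentiableAt (hUo.mem_nhds hmem)).differentiableWithinAt

end Pool.Agent.MP_14ad9d_nt.Full.EDAux
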