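import Pool.Agent.MP_14ad9d_nt.Full.ED1

set_option autoImplicit false

open NumberField Filter Topology

namespace Pool.Agent.MP_14ad9d_nt.Full.EDAux

open Complex in
theorem log_comb {a : ℝ} (ha₀ : 0 ≤ a) (ha₁ : a < 1) {z : ℂ} (hz : ‖z‖ ≤ 1) :
    0 ≤ 3 * (-log (1 - a)).re + 4 * (-log (1 - a * z)).re + (-log (1 - a * z ^ 2)).re := by
  have hac₀ : ‖(a : ℂ)‖ < 1 := by
    simp only [Complex.norm_of_nonneg ha₀, ha₁]
  have hac₁ : ‖a * z‖ < 1 := by
    rw [norm_mul]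
    exact (mul_le_of_le_one_right (norm_nonneg _) hz).trans_lt hac₀
  have hac₂ : ‖a * z ^ 2‖ < 1 := by
    rw [norm_mul, norm_pow]
    exact (mul_le_of_le_one_right (norm_nonneg _) (pow_le_one₀ (norm_nonneg _) hz)).trans_lt hac₀
  rw [← ((hasSum_re <| hasSum_taylorSeries_neg_log hac₀).mul_left 3).add
    ((hasSum_re <| hasSum_taylorSeries_neg_log hac₁).mul_left 4) |>.add
    (hasSum_re <| hasSum_taylorSeries_neg_log hac₂) |>.tsum_eq]
  refine tsum_nonneg fun n ↦ ?_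
  simp only [← ofReal_pow, div_natCast_re, ofReal_re, mul_pow, mul_re, ofReal_im, zero_mul,
    sub_zero]
  simp only [← mul_div_assoc, ← add_div]
  refine div_nonneg ?_ n.cast_nonneg
  rw [← pow_mul, pow_mul', sq, mul_re]
  have h1 : ‖z ^ n‖ ^ 2 ≤ 1 := by
    rw [norm_pow]
    exact pow_le_one₀ (by positivity) (pow_le_one₀ (norm_nonneg _) hz)
  rw [Complex.sq_norm, normSq_apply] at h1
  have h2 : 0 ≤ a ^ n := by positivity
  have h3 : 0 ≤ 3 + 4 * (z ^ n).re + ((z ^ n).re * (z ^ n).re - (z ^ n).im * (z ^ n).im) := by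
    nlinarith [sq_nonneg ((z ^ n).re + 1)]
  nlinarith [mul_nonneg h2 h3]

variable {E : Type} [Field E] [NumberField E]

open Classical in
/-- the trivial character -/
noncomputable def triv (E : Type) [Field E] [NumberField E] : Ideal (𝓞 E) →* ℂ where
  toFun I := if I = ⊥ then 0 else 1
  map_one' := by
    rw [if_neg]
    rw [Ideal.one_eq_top]
    exact top_ne_bot
  map_mul' I J := by
    by_cases hI : I = ⊥
    · simp [hI]
    · by_cases hJ : J = ⊥
      · simp [hJ]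
      · simp [hI, hJ]

theorem triv_bot : triv E ⊥ = 0 := if_pos rfl

theorem triv_ne {I : Ideal (𝓞 E)} (h : I ≠ ⊥) : triv E I = 1 := if_neg h

theorem triv_le (I : Ideal (𝓞 E)) : ‖triv E I‖ ≤ 1 := by
  by_cases h : I = ⊥
  · simp [h, triv_bot]
  · simp [triv_ne h]

theorem two_le_N (v : Pr E) : 2 ≤ Ideal.absNorm v.asIdeal :=
  MP_d64882_nt.two_le_absNorm E v.prime

theorem N_ne (v : Pr E) : Ideal.absNorm v.asIdeal ≠ 0 := by
  have := two_le_N v
  omega

theorem cpow_lam (v : Pr E) (s : ℂ) :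
    (Ideal.absNorm v.asIdeal : ℂ) ^ (-s) = Complex.exp (-s * lam v) := cpow_eq (N_ne v) s

theorem exp_lam (v : Pr E) : Real.exp (lam v) = Ideal.absNorm v.asIdeal :=
  Real.exp_log (by exact_mod_cast Nat.pos_of_ne_zero (N_ne v))

theorem norm_triv_le {σ : ℝ} (hσ : 1 < σ) :
    ‖∑' I : Ideal (𝓞 E), triv E I * (Ideal.absNorm I : ℂ) ^ (-(σ : ℂ))‖ ≤ MP_d64882_nt.Z E σ := by
  refine tsum_of_norm_bounded (MP_d64882_nt.hasSum_w E σ hσ) fun I => ?_
  rw [norm_mul, Complex.norm_natCast_cpow_of_re_ne_zero _ (by simp; linarith)]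
  simp only [Complex.neg_re, Complex.ofReal_re]
  exact mul_le_of_le_one_left (by positivity) (triv_le I)

theorem product_ge (X Y : Ideal (𝓞 E) →* ℂ) (hX : ∀ I, ‖X I‖ ≤ 1) (hX0 : X ⊥ = 0)
    (hY : ∀ I, ‖Y I‖ ≤ 1) (hY0 : Y ⊥ = 0) (hsq : ∀ I, Y I = X I ^ 2) {σ : ℝ} (hσ : 1 < σ)
    (t : ℝ) :
    1 ≤ MP_d64882_nt.Z E σ ^ 3 *
      ‖∑' I : Ideal (𝓞 E), X I * (Ideal.absNorm I : ℂ) ^ (-(σ + t * Complex.I))‖ ^ 4 *
      ‖∑' I : Ideal (𝓞 E), Y I * (Ideal.absNorm I : ℂ) ^ (-(σ + 2 * t * Complex.I))‖ := by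
  obtain ⟨-, a2, a3⟩ := euler (triv E) triv_le triv_bot (σ : ℂ) (by simpa using hσ)
  obtain ⟨-, b2, b3⟩ := euler X hX hX0 (σ + t * Complex.I) (by simpa using hσ)
  obtain ⟨-, c2, c3⟩ := euler Y hY hY0 (σ + 2 * t * Complex.I) (by simpa using hσ)
  have h1 := norm_triv_le (E := E) hσ
  rw [← a3] at h1
  rw [← b3, ← c3]
  have a4 := Complex.hasSum_re a2.of_norm.neg.hasSum
  have b4 := Complex.hasSum_re b2.of_norm.neg.hasSum
  have c4 := Complex.hasSum_re c2.of_norm.neg.hasSum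
  have h2 := ((a4.mul_left 3).add (b4.mul_left 4)).add c4
  have h3 := h2.nonneg fun v => by
    have ha : Real.exp (-σ * lam v) < 1 :=
      Real.exp_lt_one_iff.mpr (by nlinarith [lam_pos v])
    have hz : ‖X v.asIdeal * Complex.exp (-(t * Complex.I) * lam v)‖ ≤ 1 := by
      rw [norm_mul, Complex.norm_exp]
      simpa using hX v.asIdeal
    have := log_comb (Real.exp_pos (-σ * lam v)).le ha hz
    have e1 : triv E v.asIdeal * (Ideal.absNorm v.asIdeal : ℂ) ^ (-(σ : ℂ)) =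
        (Real.exp (-σ * lam v) : ℝ) := by
      rw [cpow_lam, triv_ne v.ne_bot]
      simp
    have e2 : X v.asIdeal * (Ideal.absNorm v.asIdeal : ℂ) ^ (-(σ + t * Complex.I)) =
        (Real.exp (-σ * lam v) : ℝ) *
          (X v.asIdeal * Complex.exp (-(t * Complex.I) * lam v)) := by
      rw [cpow_lam, Complex.ofReal_exp, mul_left_comm, ← Complex.exp_add]
      congr 2
      push_cast
      ring
    have e3 : Y v.asIdeal * (Ideal.absNorm v.asIdeal : ℂ) ^ (-(σ + 2 * t * Complex.I)) =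
        (Real.exp (-σ * lam v) : ℝ) *
          (X v.asIdeal * Complex.exp (-(t * Complex.I) * lam v)) ^ 2 := by
      rw [cpow_lam, hsq, Complex.ofReal_exp, mul_pow, mul_left_comm, ← Complex.exp_nat_mul,
        ← Complex.exp_add]
      congr 2
      push_cast
      ring
    rw [e1, e2, e3]
    exact this
  rw [Complex.norm_exp] at h1
  rw [Complex.norm_exp, Complex.norm_exp]
  refine le_trans ?_ (mul_le_mul_of_nonneg_right (mul_le_mul_of_nonneg_right
    (pow_le_pow_left₀ (Real.exp_pos _).le h1 3) (by positivity)) (by positivity))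
  rw [← Real.exp_nat_mul, ← Real.exp_nat_mul, ← Real.exp_add, ← Real.exp_add]
  exact Real.one_le_exp (by exact_mod_cast h3)

/-- nonvanishing on the closed half plane -/
theorem ne_zero (X Y : Ideal (𝓞 E) →* ℂ) (hX : ∀ I, ‖X I‖ ≤ 1) (hX0 : X ⊥ = 0)
    (hY : ∀ I, ‖Y I‖ ≤ 1) (hY0 : Y ⊥ = 0) (hsq : ∀ I, Y I = X I ^ 2) (L M : ℂ → ℂ)
    (hL : ∀ s : ℂ, 1 ≤ s.re → DifferentiableAt ℂ L s) (hM : ∀ s : ℂ, 1 ≤ s.re → ContinuousAt M s)
    (hL' : ∀ s : ℂ, 1 < s.re → L s = ∑' I : Ideal (𝓞 E), X I * (Ideal.absNorm I : ℂ) ^ (-s))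
    (hM' : ∀ s : ℂ, 1 < s.re → M s = ∑' I : Ideal (𝓞 E), Y I * (Ideal.absNorm I : ℂ) ^ (-s))
    (s : ℂ) (hs : 1 ≤ s.re) : L s ≠ 0 := by
  rcases hs.lt_or_eq with h | h
  · rw [hL' s h, ← (euler X hX hX0 s h).2.2]
    exact Complex.exp_ne_zero _
  intro h0
  set t := s.im with ht
  have hs' : s = 1 + t * Complex.I := by
    apply Complex.ext <;> simp [← h, ht]
  have h1 : Tendsto (fun x : ℝ => x * MP_d64882_nt.Z E (1 + x)) (𝓝[>] 0)
      (𝓝 (dedekindZeta_residue E)) := by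
    have a1 : Tendsto (fun x : ℝ => 1 + x) (𝓝[>] 0) (𝓝[>] 1) := by
      refine tendsto_nhdsWithin_iff.mpr ⟨?_, ?_⟩
      · have : Tendsto (fun x : ℝ => 1 + x) (𝓝 0) (𝓝 (1 + 0)) :=
          (continuous_const.add continuous_id).tendsto 0
        rw [add_zero] at this
        exact this.mono_left nhdsWithin_le_nhds
      · filter_upwards [self_mem_nhdsWithin] with x hx
        simpa using hx
    simpa [Function.comp_def] using (MP_d64882_nt.Z_tendsto E).comp a1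
  have h2 : Tendsto (fun x : ℝ => ‖L (s + x)‖ / x) (𝓝[>] 0) (𝓝 ‖deriv L s‖) := by
    have a1 := hasDerivAt_iff_tendsto_slope_zero.mp (hL s hs).hasDerivAt
    have a2 : Tendsto (fun x : ℝ => (x : ℂ)) (𝓝[>] 0) (𝓝[≠] 0) := by
      refine tendsto_nhdsWithin_iff.mpr ⟨?_, ?_⟩
      · have : Tendsto (fun x : ℝ => (x : ℂ)) (𝓝 0) (𝓝 ((0 : ℝ) : ℂ)) :=
          Complex.continuous_ofReal.tendsto 0
        exact this.mono_left nhdsWithin_le_nhds
      · filter_upwards [self_mem_nhdsWithin] with x hx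
        simpa using (ne_of_gt hx)
    refine (a1.comp a2).norm.congr' ?_
    filter_upwards [self_mem_nhdsWithin] with x hx
    have hx' : 0 < x := hx
    simp [h0, abs_of_pos hx', div_eq_inv_mul]
  have h3 : Tendsto (fun x : ℝ => ‖M (1 + 2 * t * Complex.I + x)‖) (𝓝[>] 0)
      (𝓝 ‖M (1 + 2 * t * Complex.I)‖) := by
    have a1 : Tendsto (fun x : ℝ => 1 + 2 * t * Complex.I + x) (𝓝 0)
        (𝓝 (1 + 2 * t * Complex.I + ((0 : ℝ) : ℂ))) :=
      (continuous_const.add Complex.continuous_ofReal).tendsto 0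
    rw [Complex.ofReal_zero, add_zero] at a1
    exact (((hM _ (by simp)).tendsto.comp a1).mono_left nhdsWithin_le_nhds).norm
  have h4 : Tendsto (fun x : ℝ => x) (𝓝[>] 0) (𝓝 0) := tendsto_id.mono_left nhdsWithin_le_nhds
  have h5 := (((h1.pow 3).mul (h2.pow 4)).mul h3).mul h4
  rw [mul_zero] at h5
  have h6 := (h5.eventually (gt_mem_nhds zero_lt_one)).and self_mem_nhdsWithin
  obtain ⟨x, hx1, hx2⟩ := h6.exists
  have hx : 0 < x := hx2
  have h7 := product_ge X Y hX hX0 hY hY0 hsq (σ := 1 + x) (by linarith) t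
  rw [← hL' _ (by simpa using hx), ← hM' _ (by simpa using hx)] at h7
  have e1 : ((1 + x : ℝ) : ℂ) + t * Complex.I = s + x := by
    rw [hs']; push_cast; ring
  have e2 : ((1 + x : ℝ) : ℂ) + 2 * t * Complex.I = 1 + 2 * t * Complex.I + x := by
    push_cast; ring
  rw [e1, e2] at h7
  have e3 : (x * MP_d64882_nt.Z E (1 + x)) ^ 3 * (‖L (s + x)‖ / x) ^ 4 *
      ‖M (1 + 2 * t * Complex.I + x)‖ * x = MP_d64882_nt.Z E (1 + x) ^ 3 * ‖L (s + x)‖ ^ 4 *
      ‖M (1 + 2 * t * Complex.I + x)‖ := by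
    field_simp
  rw [e3] at hx1
  linarith

end Pool.Agent.MP_14ad9d_nt.Full.EDAux
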