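import Pool.Agent.MP_14ad9d_nt.Full.EDK3

set_option autoImplicit false

open NumberField Filter Topology

namespace Pool.Agent.MP_14ad9d_nt.Full

namespace EDKAux

open TorusAux

variable (F : Type) [Field F] [NumberField F] {K : Type} [Field K] [NumberField K] [Algebra F K]

/-- reduction of units -/
noncomputable def rho (K : Type) [Field K] (m : ℕ) :
    (𝓞 K)ˣ →* (𝓞 K ⧸ Ideal.span {(m : 𝓞 K)})ˣ :=
  Units.map (Ideal.Quotient.mk (Ideal.span {(m : 𝓞 K)})).toMonoidHom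

theorem term {m : ℕ} (hm : m ≠ 0) {B : Ideal (𝓞 K)} (hB : B ≠ ⊥)
    (hBm : IsCoprime B (Ideal.span {(m : 𝓞 K)})) {R : ℝ} {κ : ℝ → ℂ} (hκ : Continuous κ)
    (h0 : ∀ u, R < |u| → κ u = 0) (χ : (𝓞 K ⧸ Ideal.span {(m : 𝓞 K)})ˣ →* ℂ) (ψ : Chr F)
    (hu : (∀ u, κ u = 0) ∨ ∀ u, χ (rho K m u) * ψ.val (ue (nu F K u)) = 1)
    (z : (𝓞 K ⧸ Ideal.span {(m : 𝓞 K)})ˣ) {n : ℕ} (hn : Odd n) (hz : z ^ n = 1) :
    ∃ T : ℝ → Pr K → ℂ, Good R T ∧ ∀ s v,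
      (∀ (π : 𝓞 K) (x : (𝓞 K ⧸ Ideal.span {(m : 𝓞 K)})ˣ), Ideal.span {π} = v.asIdeal * B →
        Ideal.Quotient.mk _ π = x.val → T s v =
          (1 - χ z) * (κ (lam v - s) * (χ x * ψ.val (emb (Algebra.norm F (π : K)))))) ∧
      ((¬∃ π : 𝓞 K, Ideal.span {π} = v.asIdeal * B) → T s v = 0) := by
  rcases hu with hu | hu
  · exact ⟨fun _ _ => 0, Good.zero R, fun s v => ⟨fun π x _ _ => by simp [hu], fun _ => rfl⟩⟩
  by_cases h1 : χ z = 1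
  · exact ⟨fun _ _ => 0, Good.zero R, fun s v => ⟨fun π x _ _ => by simp [h1], fun _ => rfl⟩⟩
  have h2 : χ z ^ 2 ≠ 1 := by
    intro h
    obtain ⟨k, rfl⟩ := hn
    have := congr_arg χ hz
    rw [map_pow, map_one, pow_succ, pow_mul, h, one_pow, one_mul] at this
    exact h1 this
  let χ' : MulChar (𝓞 K ⧸ Ideal.span {(m : 𝓞 K)}) ℂ := MulChar.ofUnitHom χ.toHomUnits
  have hχ : ∀ x : (𝓞 K ⧸ Ideal.span {(m : 𝓞 K)})ˣ, χ' x = χ x := fun x =>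
    MulChar.ofUnitHom_coe _ x
  obtain ⟨N, a, h, h', p1, p2⟩ := heckeOf F m hm χ' ψ (fun u => by
    rw [← hu u, ← hχ]
    rfl) B hB hBm
  obtain ⟨ζ, hζ⟩ := Ideal.Quotient.mk_surjective z.val
  have hζc : IsCoprime ζ (m : 𝓞 K) := by
    rw [← Ideal.isCoprime_span_singleton_iff, HeckeOfAux.coprime_iff, hζ]
    exact z.isUnit
  refine ⟨fun s v => (1 - χ z) * ∑ i, a i * ((h i).X v.asIdeal * κ (lam v - s)),
    (Good.sum fun i => (Good.hecke (h i) (h' i) ?_ ?_ (p1 i).2.2.2.2 κ hκ h0).smul _).smul _,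
    fun s v => ⟨fun π x hπ hx => ?_, fun hπ => ?_⟩⟩
  · refine Or.inl ⟨ζ, χ z, by rw [(p1 i).1]; exact hζc, h1, fun b => ?_⟩
    rw [(p1 i).2.2.1, (p1 i).2.2.1, map_mul, map_mul, hζ, hχ]
  · refine Or.inl ⟨ζ, χ z ^ 2, by rw [(p1 i).2.1]; exact hζc, h2, fun b => ?_⟩
    rw [(p1 i).2.2.2.1, (p1 i).2.2.2.1, map_mul, map_mul, hζ, hχ, mul_pow]
  · simp only [← mul_assoc (a _), ← Finset.sum_mul]
    rw [(p2 _ v.ne_bot).1 π hπ, hx, hχ]
    ring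
  · simp only [← mul_assoc (a _), ← Finset.sum_mul]
    rw [(p2 _ v.ne_bot).2 hπ, zero_mul, mul_zero]

theorem coprime_of_lt {I : Ideal (𝓞 K)} (hI : I ≠ ⊥) {v : Pr K}
    (h : Real.log (Ideal.absNorm I) < lam v) : IsCoprime v.asIdeal I := by
  rw [Ideal.isCoprime_iff_sup_eq]
  by_contra hc
  have h1 : I ≤ v.asIdeal := le_sup_right.trans (v.isMaximal.eq_of_le hc le_sup_left).ge
  have h2 := Nat.le_of_dvd (Nat.cast_pos.1 (PieceAux.absNorm_pos hI))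
    (Ideal.absNorm_dvd_absNorm_of_le h1)
  exact absurd (Real.log_le_log (PieceAux.absNorm_pos v.ne_bot) (Nat.cast_le.2 h2)) (not_le.2 h)

/-- the abstract form of the equidistribution theorem -/
theorem main {m : ℕ} (hm : m ≠ 0) {B : Ideal (𝓞 K)} (hB : B ≠ ⊥)
    (hBm : IsCoprime B (Ideal.span {(m : 𝓞 K)})) (H : 𝓞 K → ((F →+* ℂ) → ℂ) → ℂ) (R : ℝ)
    (hc : ∀ x, ContinuousOn (H x) (RZ F)) (hx : ∀ x x', (m : 𝓞 K) ∣ x - x' → H x = H x')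
    (hU : ∀ x (u : (𝓞 K)ˣ), ∀ y ∈ RZ F, H (u * x) (ue (nu F K u) * y) = H x y)
    (hR : ∀ x, ∀ y ∈ RZ F, R < |lnN y| → H x y = 0) (ζ : 𝓞 K) {n : ℕ} (hn : Odd n)
    (hζ : (m : 𝓞 K) ∣ ζ ^ n - 1) (D : ℝ → Pr K → ℂ)
    (h1 : ∀ X v π, Ideal.span {π} = v.asIdeal * B → D X v =
      H π (X⁻¹ • emb (Algebra.norm F (π : K))) - H (π * ζ) (X⁻¹ • emb (Algebra.norm F (π : K))))
    (h2 : ∀ X v, (¬∃ π : 𝓞 K, Ideal.span {π} = v.asIdeal * B) → D X v = 0) :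
    Tendsto (fun X => ∑' v : Pr K, (wt v : ℂ) * D X v) atTop (𝓝 0) := by
  have hm' : Ideal.span {(m : 𝓞 K)} ≠ ⊥ := HeckeOfAux.span_ne (Nat.cast_ne_zero.2 hm)
  have : Finite (𝓞 K ⧸ Ideal.span {(m : 𝓞 K)}) := Ideal.finiteQuotientOfFreeOfNeBot _ hm'
  have := finiteIndex_nu F (rho K m)
  choose rep hrep using Ideal.Quotient.mk_surjective (I := Ideal.span {(m : 𝓞 K)})
  have hx' : ∀ x x', Ideal.Quotient.mk (Ideal.span {(m : 𝓞 K)}) x = Ideal.Quotient.mk _ x' →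
      H x = H x' := fun x x' h => hx x x' (Ideal.mem_span_singleton.1 (Ideal.Quotient.eq.1 h))
  have hz1 : Ideal.Quotient.mk (Ideal.span {(m : 𝓞 K)}) ζ ^ n = 1 := by
    rw [← map_pow, ← map_one (Ideal.Quotient.mk _), Ideal.Quotient.eq, Ideal.mem_span_singleton]
    exact hζ
  obtain ⟨z, hz⟩ := IsUnit.of_pow_eq_one hz1 hn.pos.ne'
  have hz2 : z ^ n = 1 := Units.ext (by rw [Units.val_pow_eq_pow_val, hz, hz1, Units.val_one])
  let u : ℝ → ℝ := fun X => Module.finrank ℚ F * Real.log X - Real.log (Ideal.absNorm B)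
  have hu : Tendsto u atTop atTop := tendsto_atTop_add_const_right _ _
    (Real.tendsto_log_atTop.const_mul_atTop (Nat.cast_pos.2 Module.finrank_pos))
  have hy : ∀ X : ℝ, 0 < X → ∀ (v : Pr K) (π : 𝓞 K), Ideal.span {π} = v.asIdeal * B →
      emb (Algebra.norm F (π : K)) ∈ RZ F ∧ X⁻¹ • emb (Algebra.norm F (π : K)) ∈ RZ F ∧
        lnN (X⁻¹ • emb (Algebra.norm F (π : K))) = lam v - u X := by
    intro X hX v π hπ
    have h0 : π ≠ 0 := by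
      rintro rfl
      exact mul_ne_zero v.ne_bot hB (by rw [← hπ]; simp)
    have h3 := Full.emb_mem_RZ (HeckeOfAux.norm_ne F h0)
    refine ⟨h3, PieceAux.smul_mem_RZ (inv_pos.2 hX) h3, ?_⟩
    rw [PieceAux.lnN_smul (inv_pos.2 hX) h3.1, lnN_norm F h0, hπ, map_mul, Nat.cast_mul,
      Real.log_mul (PieceAux.absNorm_pos v.ne_bot).ne' (PieceAux.absNorm_pos hB).ne', Real.log_inv]
    simp only [u, lam]
    ring
  refine final D u hu (R + 1) ?_ fun ε hε => ?_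
  · filter_upwards [eventually_gt_atTop 0] with X hX v hv
    by_cases hπ : ∃ π : 𝓞 K, Ideal.span {π} = v.asIdeal * B
    · obtain ⟨π, hπ⟩ := hπ
      obtain ⟨-, a, b⟩ := hy X hX v π hπ
      rw [h1 X v π hπ, hR _ _ a (by rw [b]; linarith), hR _ _ a (by rw [b]; linarith), sub_zero]
    · exact h2 X v hπ
  obtain ⟨ι, _, κ, χ, ψ, p1, p2, p3⟩ := approx (rho K m) (nu F K) (fun x => H (rep x.val)) R
    (fun x => hc _) (fun x w y hy => by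
      rw [← hU (rep x.val) w y hy, hx' (rep _) (w * rep x.val)]
      rw [hrep, map_mul, hrep]
      rfl) (fun x => hR _) (ε / 2) (by positivity)
  choose T hT hT' using fun j => term F hm hB hBm (p1 j).1 (p1 j).2 (χ j) (ψ j) (p2 j) z hn hz2
  refine ⟨fun s v => ∑ j, T j s v, Good.sum hT, ?_⟩
  filter_upwards [eventually_gt_atTop 0, hu.eventually_gt_atTop
    (Real.log (Ideal.absNorm (Ideal.span {(m : 𝓞 K)})) + (R + 1))] with X hX hX' v hv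
  by_cases hπ : ∃ π : 𝓞 K, Ideal.span {π} = v.asIdeal * B
  · obtain ⟨π, hπ⟩ := hπ
    obtain ⟨a, b, c⟩ := hy X hX v π hπ
    have hv' : IsCoprime v.asIdeal (Ideal.span {(m : 𝓞 K)}) :=
      coprime_of_lt hm' (by linarith [(abs_le.1 hv).1])
    obtain ⟨x, hx⟩ := (HeckeOfAux.coprime_iff π _).1 (hπ ▸ hv'.mul_left hBm)
    have q1 := p3 x _ b
    have q2 := p3 (x * z) _ b
    rw [hx' _ π (by rw [hrep, hx])] at q1
    rw [hx' _ (π * ζ) (by rw [hrep, map_mul, Units.val_mul, hx, hz])] at q2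
    have q3 := (norm_sub_le _ _).trans (add_le_add q1 q2)
    rw [add_halves] at q3
    refine le_of_eq_of_le (congr_arg norm ?_) q3
    rw [h1 X v π hπ, sub_sub_sub_comm, ← Finset.sum_sub_distrib]
    congr 1
    refine Finset.sum_congr rfl fun j _ => ?_
    rw [(hT' j _ v).1 π x hπ hx.symm, c, map_mul, val_smul _ a.1 (inv_pos.2 hX)]
    ring
  · rw [h2 X v hπ, Finset.sum_eq_zero fun j _ => (hT' j _ v).2 hπ, sub_zero, norm_zero]
    exact hε.le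

end EDKAux

open Classical EDKAux TorusAux in
/-- norms of primes in two classes that differ by an element of norm one are equidistributed
with respect to each other -/
theorem edk (F : Type) [Field F] [NumberField F] {K : Type} [Field K] [NumberField K]
    [Algebra F K] (l M : ℕ) (hM : M ≠ 0) (B : Ideal (𝓞 K)) (hB : B ≠ ⊥)
    (hBM : IsCoprime B (Ideal.span {(M : 𝓞 K)})) (θ θ' : 𝓞 K)
    (hη : ∀ m : ℕ, m ≠ 0 → ∃ η₁ η₂ : 𝓞 K, IsCoprime η₁ (m : 𝓞 K) ∧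
      IsCoprime η₂ (m : 𝓞 K) ∧ RingOfIntegers.norm F η₁ = RingOfIntegers.norm F η₂ ∧
      (M : 𝓞 K) ∣ θ' * η₂ - θ * η₁ ∧ ∃ n : ℕ, Odd n ∧ (m : 𝓞 K) ∣ η₁ ^ n - η₂ ^ n)
    (m : ℕ) (hm : m ≠ 0) (β : 𝓞 F) (h : ((F →+* ℂ) → ℂ) → ℂ) (hc : ContinuousOn h (RZ F))
    (C : Set ((F →+* ℂ) → ℂ)) (hC : IsCompact C) (hCR : C ⊆ RZ F)
    (hsupp : ∀ y ∈ RZ F, y ∉ C → h y = 0) :
    Tendsto (fun X : ℝ => ∑' v : Pr K, (wt v : ℂ) *
      ((∑ᶠ a ∈ NSet F l M B θ v, if (m : 𝓞 F) ∣ a - β then h (X⁻¹ • emb (a : F)) else 0) -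
        ∑ᶠ a ∈ NSet F l M B θ' v, if (m : 𝓞 F) ∣ a - β then h (X⁻¹ • emb (a : F)) else 0))
      atTop (𝓝 0) := by
  have hm' : M * m ≠ 0 := mul_ne_zero hM hm
  obtain ⟨η₁, η₂, a1, -, a2, a3, n, hn, a4⟩ := hη (M * m) hm'
  obtain ⟨ζ, z1, z2, z3⟩ := exists_zeta F hm' (dvd_mul_right M m) a1 a2 a3 a4
  obtain ⟨B', γ, γ', b1, b2, -, b3, b4, b5, b6, b7⟩ := exists_coprime_rep B hB _ hBM
    (Ideal.span {((M * m : ℕ) : 𝓞 K)}) (HeckeOfAux.span_ne (Nat.cast_ne_zero.2 hm'))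
  have d1 : (M : 𝓞 K) ∣ ((M * m : ℕ) : 𝓞 K) := Nat.cast_dvd_cast (dvd_mul_right M m)
  have d2 : (m : 𝓞 K) ∣ ((M * m : ℕ) : 𝓞 K) := Nat.cast_dvd_cast (dvd_mul_left m M)
  have d3 : (m : 𝓞 F) ∣ ((M * m : ℕ) : 𝓞 F) := Nat.cast_dvd_cast (dvd_mul_left m M)
  obtain ⟨ν, e, hν, hl⟩ := link F (l := l) hm b3 b4 (Ideal.mem_span_singleton.1 b5)
    (Ideal.mem_span_singleton.1 b6) b7
    (b2.of_isCoprime_of_dvd_right (Ideal.dvd_iff_le.2 (Ideal.span_singleton_le_span_singleton.2 d2)))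
  obtain ⟨R, hR⟩ := HH_supp hC hCR hsupp
  have hν' := Full.emb_mem_RZ hν
  refine main F hm' (pow_ne_zero l b1) b2.pow_left
    (fun x y => HH (PP F M m θ e β x) h (emb ν * y)) (R + |lnN (emb ν)|) (fun x => ?_)
    (fun x x' hx => ?_) (fun x u y hy => ?_) (fun x y hy h1 => ?_) ζ hn z3 _
    (fun X v π' hπ' => ?_) (fun X v hπ => ?_)
  · exact (HH_cont _ hc hC hsupp).comp (continuous_const.mul continuous_id).continuousOn
      fun y hy => mul_mem_RZ hν' hy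
  · rw [HH_congr h (PP_congr F hm θ e β (d1.trans hx) (d2.trans hx))]
  · rw [mul_left_comm]
    exact HH_shift h _ (PP_shift F θ e β x u) _
  · refine hR _ _ (mul_mem_RZ hν' hy) ?_
    rw [lnN_mul hν'.1 hy.1]
    have := abs_sub (lnN (emb ν) + lnN y) (lnN (emb ν))
    rw [add_sub_cancel_left] at this
    linarith
  · obtain ⟨π, c1, c2, c3, c4⟩ := (hl _).1 π' hπ'
    have h0 : π ≠ 0 := by
      rintro rfl
      exact mul_ne_zero v.ne_bot (pow_ne_zero l hB) (by rw [← c1]; simp)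
    rw [nset_sum F θ h0 β c1 c2 c3 c4, nset_sum F θ' h0 β c1 c2 c3 c4,
      HH_congr h (PP_zeta F e β π' (d3.trans z1) z2 hn.pos.ne' (d1.trans z3))]
  · have hS : ∀ θ : 𝓞 K, NSet F l M B θ v = ∅ := fun θ =>
      Set.eq_empty_of_forall_notMem fun a ⟨π, c1, _⟩ => hπ ((hl _).2 π c1)
    rw [hS, hS, sub_self]

end Pool.Agent.MP_14ad9d_nt.Full
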