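import Pool.Agent.MP_14ad9d_nt.Full.HeckeOf
import Pool.Agent.MP_14ad9d_nt.Full.ED
import Pool.Agent.MP_14ad9d_nt.Full.WA

set_option autoImplicit false

open NumberField Filter Topology

namespace Pool.Agent.MP_14ad9d_nt.Full.EDKAux

section Prime

variable {K : Type} [Field K] [NumberField K]

theorem cheb (R : ℝ) : ∃ C : ℝ, 0 < C ∧ ∀ (s : ℝ) (S : Finset (Pr K)),
    (∀ v ∈ S, |lam v - s| ≤ R) → ∑ v ∈ S, wt v ≤ C := by
  classical
  obtain ⟨C, hC⟩ := cheb_wt (E := K)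
  have h0 : 0 ≤ C := by simpa using hC 0 ∅ (by simp)
  have key : ∀ (n : ℕ) (x : ℝ) (S : Finset (Pr K)),
      (∀ v ∈ S, x ≤ lam v ∧ lam v ≤ x + n + 1) → ∑ v ∈ S, wt v ≤ (n + 1) * C := by
    intro n
    induction n with
    | zero =>
      intro x S hS
      simpa using hC x S (by simpa using hS)
    | succ n ih =>
      intro x S hS
      rw [← Finset.sum_filter_add_sum_filter_not S (fun v => lam v ≤ x + n + 1)]
      have h1 := ih x (S.filter fun v => lam v ≤ x + n + 1) fun v hv =>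
        ⟨(hS v (Finset.mem_filter.1 hv).1).1, (Finset.mem_filter.1 hv).2⟩
      have h2 := hC (x + n + 1) (S.filter fun v => ¬lam v ≤ x + n + 1) fun v hv => by
        have h3 := (hS v (Finset.mem_filter.1 hv).1).2
        push_cast at h3
        exact ⟨(not_le.1 (Finset.mem_filter.1 hv).2).le, by linarith⟩
      push_cast
      linarith
  refine ⟨(⌈2 * R⌉₊ + 1) * C + 1, by positivity, fun s S hS => ?_⟩
  refine (key ⌈2 * R⌉₊ (s - R) S fun v hv => ?_).trans (by linarith)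
  have h1 := abs_le.1 (hS v hv)
  have h2 := Nat.le_ceil (2 * R)
  constructor <;> linarith [h1.1, h1.2]

/-- the primes in a window -/
noncomputable def win (K : Type) [Field K] [NumberField K] (R s : ℝ) : Finset (Pr K) :=
  ((finite_lam_le (E := K) (s + R)).subset (t := {v : Pr K | |lam v - s| ≤ R})
    fun v hv => by
      have h1 := (abs_le.1 (show |lam v - s| ≤ R from hv)).2
      change lam v ≤ s + R
      linarith).toFinset

theorem mem_win {R s : ℝ} {v : Pr K} : v ∈ win K R s ↔ |lam v - s| ≤ R := by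
  simp [win]

theorem tsum_win {R s : ℝ} {T : Pr K → ℂ} (h : ∀ v, R < |lam v - s| → T v = 0) :
    ∑' v, (wt v : ℂ) * T v = ∑ v ∈ win K R s, (wt v : ℂ) * T v :=
  tsum_eq_sum fun v hv => by rw [h v (not_le.1 (mt mem_win.2 hv)), mul_zero]

/-- families supported in a window whose prime sums tend to zero -/
def Good (R : ℝ) (T : ℝ → Pr K → ℂ) : Prop :=
  Tendsto (fun s => ∑ v ∈ win K R s, (wt v : ℂ) * T s v) atTop (𝓝 0) ∧
    ∀ s v, R < |lam v - s| → T s v = 0

theorem Good.zero (R : ℝ) : Good (K := K) R fun _ _ => 0 := ⟨by simp, fun _ _ _ => rfl⟩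

theorem Good.smul {R : ℝ} {T : ℝ → Pr K → ℂ} (h : Good R T) (c : ℂ) :
    Good R fun s v => c * T s v := by
  refine ⟨?_, fun s v hv => by simp only [h.2 s v hv, mul_zero]⟩
  have := h.1.const_mul c
  rw [mul_zero] at this
  refine this.congr fun s => ?_
  rw [Finset.mul_sum]
  exact Finset.sum_congr rfl fun v _ => by ring

theorem Good.sum {R : ℝ} {ι : Type} [Fintype ι] {T : ι → ℝ → Pr K → ℂ} (h : ∀ i, Good R (T i)) :
    Good R fun s v => ∑ i, T i s v := by
  refine ⟨?_, fun s v hv => Finset.sum_eq_zero fun i _ => (h i).2 s v hv⟩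
  have := tendsto_finsetSum Finset.univ fun i _ => (h i).1
  rw [Finset.sum_const_zero] at this
  refine this.congr fun s => ?_
  rw [Finset.sum_comm]
  exact Finset.sum_congr rfl fun v _ => by rw [Finset.mul_sum]

theorem Good.hecke {R : ℝ} (h h2 : Hecke K) (hn : h.Nontriv) (hn2 : h2.Nontriv)
    (hsq : ∀ I, h2.X I = h.X I ^ 2) (κ : ℝ → ℂ) (hκ : Continuous κ)
    (h0 : ∀ u, R < |u| → κ u = 0) : Good R fun s v => h.X v.asIdeal * κ (lam v - s) := by
  have hz : ∀ s (v : Pr K), R < |lam v - s| → h.X v.asIdeal * κ (lam v - s) = 0 :=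
    fun s v hv => by rw [h0 _ hv, mul_zero]
  refine ⟨?_, hz⟩
  have hc : HasCompactSupport κ := HasCompactSupport.intro (isCompact_Icc (a := -R) (b := R))
    fun x hx => h0 x (not_le.1 fun h => hx (abs_le.1 h))
  refine (ed h h2 hn hn2 hsq κ hκ hc).congr fun s => ?_
  rw [← tsum_win (hz s)]
  exact tsum_congr fun v => mul_assoc _ _ _

theorem final (D : ℝ → Pr K → ℂ) (u : ℝ → ℝ) (hu : Tendsto u atTop atTop) (R : ℝ)
    (h0 : ∀ᶠ X in atTop, ∀ v, R < |lam v - u X| → D X v = 0)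
    (hD : ∀ ε : ℝ, 0 < ε → ∃ T : ℝ → Pr K → ℂ, Good R T ∧
      ∀ᶠ X in atTop, ∀ v, |lam v - u X| ≤ R → ‖D X v - T (u X) v‖ ≤ ε) :
    Tendsto (fun X => ∑' v : Pr K, (wt v : ℂ) * D X v) atTop (𝓝 0) := by
  obtain ⟨C, hC0, hC⟩ := cheb (K := K) R
  rw [NormedAddGroup.tendsto_nhds_zero]
  intro ε hε
  obtain ⟨T, hT, hTD⟩ := hD (ε / 2 / C) (by positivity)
  have h1 := NormedAddGroup.tendsto_nhds_zero.1 (hT.1.comp hu) (ε / 2) (by positivity)
  filter_upwards [h0, hTD, h1] with X a b c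
  rw [tsum_win a]
  have e : ∑ v ∈ win K R (u X), (wt v : ℂ) * D X v = ∑ v ∈ win K R (u X), (wt v : ℂ) * T (u X) v +
      ∑ v ∈ win K R (u X), (wt v : ℂ) * (D X v - T (u X) v) := by
    rw [← Finset.sum_add_distrib]
    exact Finset.sum_congr rfl fun v _ => by ring
  have h2 : ‖∑ v ∈ win K R (u X), (wt v : ℂ) * (D X v - T (u X) v)‖ ≤ ε / 2 := by
    refine (norm_sum_le _ _).trans ?_
    calc ∑ v ∈ win K R (u X), ‖(wt v : ℂ) * (D X v - T (u X) v)‖
        ≤ ∑ v ∈ win K R (u X), wt v * (ε / 2 / C) := Finset.sum_le_sum fun v hv => by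
          rw [norm_mul, Complex.norm_real, Real.norm_of_nonneg (wt_nonneg v)]
          exact mul_le_mul_of_nonneg_left (b v (mem_win.1 hv)) (wt_nonneg v)
      _ ≤ C * (ε / 2 / C) := by
          rw [← Finset.sum_mul]
          exact mul_le_mul_of_nonneg_right (hC _ _ fun v hv => mem_win.1 hv) (by positivity)
      _ = ε / 2 := by field_simp
  rw [e]
  refine (norm_add_le _ _).trans_lt ?_
  have c' : ‖∑ v ∈ win K R (u X), (wt v : ℂ) * T (u X) v‖ < ε / 2 := c
  linarith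

end Prime

section Sum

open TorusAux

variable {F : Type} [Field F] [NumberField F]

open Classical in
/-- a sum over a set of units -/
noncomputable def HH (P : (𝓞 F)ˣ → Prop) (h : ((F →+* ℂ) → ℂ) → ℂ) (y : (F →+* ℂ) → ℂ) : ℂ :=
  ∑ᶠ w : (𝓞 F)ˣ, if P w then h (ue w * y) else 0

theorem HH_cont (P : (𝓞 F)ˣ → Prop) {h : ((F →+* ℂ) → ℂ) → ℂ} (hc : ContinuousOn h (RZ F))
    {C : Set ((F →+* ℂ) → ℂ)} (hC : IsCompact C) (hsupp : ∀ y ∈ RZ F, y ∉ C → h y = 0) :
    ContinuousOn (HH P h) (RZ F) := by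
  classical
  rw [continuousOn_iff_continuous_domRestrict]
  refine continuous_finsum (f := fun (w : (𝓞 F)ˣ) (y : RZ F) =>
    if P w then h (ue w * y) else 0) (fun w => ?_) fun y => ?_
  · split_ifs
    · exact hc.comp_continuous (continuous_const.mul continuous_subtype_val)
        fun y => mul_mem_RZ (ue_mem w) y.2
    · exact continuous_const
  · obtain ⟨N, hN, hy, hNZ⟩ := exists_compact_subset PieceAux.isOpen_NZ y.2.1
    refine ⟨Subtype.val ⁻¹' N, continuous_subtype_val.continuousAt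
      (mem_interior_iff_mem_nhds.1 hy), (PieceAux.finite_units hC hN hNZ).subset ?_⟩
    rintro w ⟨z, h1, h2⟩
    refine ⟨z, h2, by_contra fun h3 => h1 ?_⟩
    have h4 := hsupp _ (mul_mem_RZ (ue_mem w) z.2) h3
    simp [h4]

theorem HH_supp {h : ((F →+* ℂ) → ℂ) → ℂ} {C : Set ((F →+* ℂ) → ℂ)} (hC : IsCompact C)
    (hCR : C ⊆ RZ F) (hsupp : ∀ y ∈ RZ F, y ∉ C → h y = 0) :
    ∃ R : ℝ, ∀ P, ∀ y ∈ RZ F, R < |lnN y| → HH P h y = 0 := by
  obtain ⟨R, hR⟩ := hC.exists_bound_of_continuousOn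
    (continuousOn_lnN.mono fun y hy => (hCR hy).1)
  refine ⟨R, fun P y hy h1 => finsum_eq_zero_of_forall_eq_zero fun w => ?_⟩
  rw [hsupp _ (mul_mem_RZ (ue_mem w) hy), ite_self]
  intro h2
  have := hR _ h2
  rw [lnN_mul (ue_mem w).1 hy.1, lnN_ue, zero_add, Real.norm_eq_abs] at this
  linarith

omit [NumberField F] in
theorem HH_shift {P P' : (𝓞 F)ˣ → Prop} (h : ((F →+* ℂ) → ℂ) → ℂ) (w₀ : (𝓞 F)ˣ)
    (hP : ∀ w, P' w ↔ P (w * w₀)) (y : (F →+* ℂ) → ℂ) : HH P' h (ue w₀ * y) = HH P h y := by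
  unfold HH
  refine Eq.trans (finsum_congr fun w => ?_) (finsum_comp_equiv (Equiv.mulRight w₀))
  simp only [Equiv.coe_mulRight, ue_mul, mul_assoc]
  by_cases h1 : P' w
  · rw [if_pos h1, if_pos ((hP w).1 h1)]
  · rw [if_neg h1, if_neg fun h2 => h1 ((hP w).2 h2)]

omit [NumberField F] in
theorem HH_congr {P P' : (𝓞 F)ˣ → Prop} (h : ((F →+* ℂ) → ℂ) → ℂ) (hP : ∀ w, P' w ↔ P w) :
    HH P' h = HH P h := by
  rw [show P' = P from funext fun w => propext (hP w)]

end Sum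

end Pool.Agent.MP_14ad9d_nt.Full.EDKAux
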