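import Pool.Agent.MP_14ad9d_nt.Full.EDK1

set_option autoImplicit false

open NumberField Filter Topology

namespace Pool.Agent.MP_14ad9d_nt.Full.EDKAux

open TorusAux

variable {F : Type} [Field F] [NumberField F]

/-- expansion in characters of a finite group and of the archimedean torus -/
theorem expand {G : Type} [CommGroup G] [Finite G] (U : Subgroup (𝓞 F)ˣ) [U.FiniteIndex]
    (H : G → ((F →+* ℂ) → ℂ) → ℂ) (R : ℝ) (hc : ∀ x, ContinuousOn (H x) (RZ F))
    (hU : ∀ x, ∀ u ∈ U, ∀ y ∈ RZ F, H x (ue u * y) = H x y)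
    (hR : ∀ x, ∀ y ∈ RZ F, R < |lnN y| → H x y = 0) (ε : ℝ) (hε : 0 < ε) :
    ∃ (ι : Type) (_ : Fintype ι) (κ : ι → ℝ → ℂ) (χ : ι → G →* ℂ) (ψ : ι → Chr F),
      (∀ j, Continuous (κ j) ∧ ∀ u, R + 1 < |u| → κ j u = 0) ∧
      (∀ j, ∀ u ∈ U, (ψ j).val (ue u) = 1) ∧
      ∀ x, ∀ y ∈ RZ F, ‖H x y - ∑ j, κ j (lnN y) * (χ j x * (ψ j).val y)‖ ≤ ε := by
  classical
  let := Fintype.ofFinite G
  choose n κ ψ h1 h2 h3 using fun x => torus U (H x) R (hc x) (hU x) (hR x) ε hε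
  obtain ⟨N, ω, hN, hω⟩ := HeckeOfAux.chars G
  refine ⟨(Σ x : G, Fin (n x)) × Fin N, inferInstance,
    fun j u => ω j.2 j.1.1⁻¹ / N * κ j.1.1 j.1.2 u, fun j => ω j.2, fun j => ψ j.1.1 j.1.2,
    fun j => ⟨continuous_const.mul (h1 _ _).1, fun u hu => ?_⟩, fun j => h2 _ _,
    fun x y hy => ?_⟩
  · simp only [(h1 _ _).2 u hu, mul_zero]
  · have hN' : (N : ℂ) ≠ 0 := Nat.cast_ne_zero.2 hN
    convert h3 x y hy using 3
    rw [Fintype.sum_prod_type, Fintype.sum_sigma, Finset.sum_eq_single x]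
    · refine Finset.sum_congr rfl fun j _ => ?_
      have e : ∀ i : Fin N, ω i x⁻¹ / N * κ x j (lnN y) * (ω i x * (ψ x j).val y) =
          κ x j (lnN y) * (ψ x j).val y / N := fun i => by
        have : ω i x⁻¹ * ω i x = 1 := by rw [← map_mul, inv_mul_cancel, map_one]
        linear_combination (κ x j (lnN y) * (ψ x j).val y / N) * this
      simp only [e, Finset.sum_const, Finset.card_univ, Fintype.card_fin, nsmul_eq_mul]
      field_simp
    · intro x' _ hx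
      refine Finset.sum_eq_zero fun j _ => ?_
      have e : ∀ i : Fin N, ω i x'⁻¹ / N * κ x' j (lnN y) * (ω i x * (ψ x' j).val y) =
          κ x' j (lnN y) * (ψ x' j).val y / N * ω i (x'⁻¹ * x) := fun i => by
        rw [map_mul]
        ring
      simp only [e]
      rw [← Finset.mul_sum, hω, if_neg, mul_zero]
      rw [inv_mul_eq_one]
      exact hx
    · simp

/-- the expansion of an invariant function -/
theorem approx {G A : Type} [CommGroup G] [Finite G] [CommGroup A] (ρ : A →* G)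
    (ν : A →* (𝓞 F)ˣ) [(ρ.ker.map ν).FiniteIndex]
    (H : G → ((F →+* ℂ) → ℂ) → ℂ) (R : ℝ) (hc : ∀ x, ContinuousOn (H x) (RZ F))
    (hU : ∀ x u, ∀ y ∈ RZ F, H (ρ u * x) (ue (ν u) * y) = H x y)
    (hR : ∀ x, ∀ y ∈ RZ F, R < |lnN y| → H x y = 0) (ε : ℝ) (hε : 0 < ε) :
    ∃ (ι : Type) (_ : Fintype ι) (κ : ι → ℝ → ℂ) (χ : ι → G →* ℂ) (ψ : ι → Chr F),
      (∀ j, Continuous (κ j) ∧ ∀ u, R + 1 < |u| → κ j u = 0) ∧
      (∀ j, (∀ u, κ j u = 0) ∨ ∀ u, χ j (ρ u) * (ψ j).val (ue (ν u)) = 1) ∧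
      ∀ x, ∀ y ∈ RZ F, ‖H x y - ∑ j, κ j (lnN y) * (χ j x * (ψ j).val y)‖ ≤ ε := by
  classical
  obtain ⟨ι, _, κ, χ, ψ, h1, h2, h3⟩ := expand (ρ.ker.map ν) H R hc (by
    rintro x _ ⟨u, hu, rfl⟩ y hy
    have := hU x u y hy
    rwa [MonoidHom.mem_ker.1 hu, one_mul] at this) hR ε hε
  let Q := A ⧸ ρ.ker
  let : Fintype Q := Fintype.ofFinite _
  let f : ι → A →* ℂ := fun j => (χ j).comp ρ * (uhom (ψ j)).comp ν
  have hf : ∀ j u, f j u = χ j (ρ u) * (ψ j).val (ue (ν u)) := fun j u => rfl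
  have hker : ∀ j, ∀ u ∈ ρ.ker, f j u = 1 := fun j u hu => by
    rw [hf, MonoidHom.mem_ker.1 hu, map_one, h2 j _ ⟨u, hu, rfl⟩, one_mul]
  let g : ι → Q →* ℂ := fun j => QuotientGroup.lift ρ.ker (f j) (hker j)
  have hg : ∀ j (q : Q), f j q.out = g j q := fun j q => by
    conv_rhs => rw [← q.out_eq]
    rfl
  have hQ : (Fintype.card Q : ℂ) ≠ 0 := Nat.cast_ne_zero.2 Fintype.card_ne_zero
  refine ⟨ι, inferInstance, fun j u => (∑ q, g j q) / Fintype.card Q * κ j u, χ, ψ,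
    fun j => ⟨continuous_const.mul (h1 j).1, fun u hu => ?_⟩, fun j => ?_, fun x y hy => ?_⟩
  · simp only [(h1 j).2 u hu, mul_zero]
  · by_cases h : g j = 1
    · refine Or.inr fun u => ?_
      rw [← hf]
      exact DFunLike.congr_fun h (u : Q)
    · refine Or.inl fun u => ?_
      simp only [sum_hom_units_eq_zero _ h, zero_div, zero_mul]
  · have e : H x y - ∑ j, (∑ q, g j q) / Fintype.card Q * κ j (lnN y) * (χ j x * (ψ j).val y) =
        (∑ q : Q, (H (ρ q.out * x) (ue (ν q.out) * y) - ∑ j, κ j (lnN (ue (ν q.out) * y)) *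
          (χ j (ρ q.out * x) * (ψ j).val (ue (ν q.out) * y)))) / Fintype.card Q := by
      have e1 : ∀ (q : Q) j, κ j (lnN (ue (ν q.out) * y)) *
          (χ j (ρ q.out * x) * (ψ j).val (ue (ν q.out) * y)) =
          g j q * (κ j (lnN y) * (χ j x * (ψ j).val y)) := fun q j => by
        rw [lnN_mul (ue_mem _).1 hy.1, lnN_ue, zero_add, map_mul, val_mul _ (ue_mem _).1 hy.1,
          ← hg, hf]
        ring
      simp only [e1, hU _ _ y hy, Finset.sum_sub_distrib, Finset.sum_const, Finset.card_univ,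
        nsmul_eq_mul]
      rw [Finset.sum_comm, sub_div, mul_div_cancel_left₀ _ hQ, Finset.sum_div]
      congr 1
      refine Finset.sum_congr rfl fun j _ => ?_
      rw [← Finset.sum_mul]
      ring
    have hQ' : (0 : ℝ) < Fintype.card Q := Nat.cast_pos.2 Fintype.card_pos
    rw [e, norm_div, Complex.norm_natCast, div_le_iff₀ hQ']
    refine (norm_sum_le _ _).trans ?_
    refine (Finset.sum_le_sum fun q _ => h3 _ _ (mul_mem_RZ (ue_mem _) hy)).trans ?_
    simp [mul_comm]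

end Pool.Agent.MP_14ad9d_nt.Full.EDKAux
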