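import Pool.Agent.MP_14ad9d_nt.Full.EDK2

set_option autoImplicit false

open NumberField Filter Topology

namespace Pool.Agent.MP_14ad9d_nt.Full.EDKAux

open TorusAux

variable (F : Type) [Field F] [NumberField F] {K : Type} [Field K] [NumberField K] [Algebra F K]

theorem norm_congr {m : ℕ} (hm : m ≠ 0) {x y : 𝓞 K} (h : (m : 𝓞 K) ∣ x - y) :
    (m : 𝓞 F) ∣ RingOfIntegers.norm F x - RingOfIntegers.norm F y := by
  obtain ⟨φ⟩ : Nonempty (F →+* ℂ) := inferInstance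
  let := φ.toAlgebra
  let s : (K →ₐ[F] ℂ) → 𝓞 K →+* integralClosure ℤ ℂ := fun σ =>
    (σ.toRingHom.comp (algebraMap (𝓞 K) K)).codRestrict (integralClosure ℤ ℂ) fun a =>
      (RingOfIntegers.isIntegral_coe a).map σ.toRingHom.toIntAlgHom
  have h1 : (m : integralClosure ℤ ℂ) ∣ ∏ σ, s σ x - ∏ σ, s σ y := by
    rw [← Ideal.mem_span_singleton, ← Ideal.Quotient.eq, map_prod, map_prod]
    refine Finset.prod_congr rfl fun σ _ => ?_
    rw [Ideal.Quotient.eq, Ideal.mem_span_singleton, ← map_sub, ← map_natCast (s σ)]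
    exact map_dvd _ h
  obtain ⟨w, hw⟩ := h1
  have h2 : ∀ a : 𝓞 K, ((∏ σ, s σ a : integralClosure ℤ ℂ) : ℂ) = φ (Algebra.norm F (a : K)) := by
    intro a
    rw [SubmonoidClass.coe_finsetProd]
    exact (Algebra.norm_eq_prod_embeddings F ℂ (a : K)).symm
  have h3 := congr_arg (fun z : integralClosure ℤ ℂ => (z : ℂ)) hw
  simp only [AddSubgroupClass.coe_sub, h2, MulMemClass.coe_mul, SubringClass.coe_natCast] at h3
  have hm' : (m : ℂ) ≠ 0 := Nat.cast_ne_zero.2 hm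
  have hmF : (m : F) ≠ 0 := Nat.cast_ne_zero.2 hm
  have h4 : IsIntegral ℤ ((Algebra.norm F (x : K) - Algebra.norm F (y : K)) / m) := by
    rw [← isIntegral_algHom_iff φ.toIntAlgHom φ.injective]
    change IsIntegral ℤ (φ _)
    rw [map_div₀, map_sub, h3, map_natCast, mul_div_cancel_left₀ _ hm']
    exact w.2
  refine ⟨⟨_, h4⟩, RingOfIntegers.ext ?_⟩
  change Algebra.norm F (x : K) - Algebra.norm F (y : K) =
    (m : F) * ((Algebra.norm F (x : K) - Algebra.norm F (y : K)) / m)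
  field_simp

theorem exists_zeta {M m : ℕ} (hm : m ≠ 0) (hMm : M ∣ m) {θ θ' η₁ η₂ : 𝓞 K}
    (h1 : IsCoprime η₁ (m : 𝓞 K)) (hN : RingOfIntegers.norm F η₁ = RingOfIntegers.norm F η₂)
    (hθ : (M : 𝓞 K) ∣ θ' * η₂ - θ * η₁) {n : ℕ} (hn : (m : 𝓞 K) ∣ η₁ ^ n - η₂ ^ n) :
    ∃ ζ : 𝓞 K, (m : 𝓞 F) ∣ RingOfIntegers.norm F ζ - 1 ∧ (M : 𝓞 K) ∣ θ' * ζ - θ ∧
      (m : 𝓞 K) ∣ ζ ^ n - 1 := by
  obtain ⟨t, c, ht⟩ := h1
  have h2 : (m : 𝓞 K) ∣ η₁ * t - 1 := ⟨-c, by linear_combination ht⟩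
  refine ⟨η₂ * t, ?_, ?_, ?_⟩
  · have := norm_congr F hm h2
    rwa [map_one, map_mul, hN, ← map_mul] at this
  · have := (hθ.mul_right t).add (((Nat.cast_dvd_cast hMm).trans h2).mul_left θ)
    convert this using 1
    ring
  · have h3 := h2.trans (sub_dvd_pow_sub_pow (η₁ * t) 1 n)
    have := h3.sub (hn.mul_right (t ^ n))
    convert this using 1
    ring

theorem link {l M m : ℕ} (hm : m ≠ 0) {B B' : Ideal (𝓞 K)} {γ γ' : 𝓞 K} (hγ : γ ≠ 0)
    (hγ' : γ' ≠ 0) (h1 : (M : 𝓞 K) ∣ γ - 1) (h2 : (M : 𝓞 K) ∣ γ' - 1)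
    (hB : B' * Ideal.span {γ} = B * Ideal.span {γ'})
    (hc : IsCoprime B' (Ideal.span {(m : 𝓞 K)})) :
    ∃ (ν : F) (e : 𝓞 F), ν ≠ 0 ∧ ∀ I : Ideal (𝓞 K),
      (∀ π', Ideal.span {π'} = I * B' ^ l → ∃ π, Ideal.span {π} = I * B ^ l ∧
        (M : 𝓞 K) ∣ π - π' ∧ Algebra.norm F (π : K) = ν * Algebra.norm F (π' : K) ∧
        (m : 𝓞 F) ∣ RingOfIntegers.norm F π - e * RingOfIntegers.norm F π') ∧
      ∀ π, Ideal.span {π} = I * B ^ l → ∃ π', Ideal.span {π'} = I * B' ^ l := by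
  have hBl : B' ^ l * Ideal.span {γ ^ l} = B ^ l * Ideal.span {γ' ^ l} := by
    rw [← Ideal.span_singleton_pow, ← Ideal.span_singleton_pow, ← mul_pow, hB, mul_pow]
  have aux : ∀ (I A A' : Ideal (𝓞 K)) (g g' π' : 𝓞 K), g' ≠ 0 →
      A' * Ideal.span {g} = A * Ideal.span {g'} → Ideal.span {π'} = I * A' →
      ∃ π, Ideal.span {π} = I * A ∧ π' * g = g' * π := by
    intro I A A' g g' π' hg h3 h4
    have h5 : Ideal.span {π' * g} = Ideal.span {g'} * (I * A) := by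
      rw [← Ideal.span_singleton_mul_span_singleton, h4, mul_assoc, h3]
      ring
    obtain ⟨π, hπ⟩ : g' ∣ π' * g := by
      rw [← Ideal.span_singleton_le_span_singleton, h5]
      exact Ideal.mul_le_left
    refine ⟨π, ?_, hπ⟩
    rw [hπ, ← Ideal.span_singleton_mul_span_singleton] at h5
    exact mul_left_cancel₀ (HeckeOfAux.span_ne hg) h5
  obtain ⟨b, hb, hb1⟩ : ∃ b ∈ B' ^ l, (m : 𝓞 K) ∣ b - 1 := by
    obtain ⟨b, hb, c, hc', h⟩ := Ideal.isCoprime_iff_exists.1 (hc.pow_left (m := l))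
    refine ⟨b, hb, ?_⟩
    rw [← h, sub_add_cancel_left, dvd_neg]
    exact Ideal.mem_span_singleton.1 hc'
  obtain ⟨c, hc'⟩ : γ' ^ l ∣ b * γ ^ l := by
    rw [← Ideal.mem_span_singleton]
    refine Ideal.mul_le_right (I := B ^ l) ?_
    rw [← hBl]
    exact Ideal.mul_mem_mul hb (Ideal.mem_span_singleton_self _)
  have n1 := HeckeOfAux.norm_ne F (pow_ne_zero l hγ)
  have n2 := HeckeOfAux.norm_ne F (pow_ne_zero l hγ')
  refine ⟨Algebra.norm F ((γ ^ l : 𝓞 K) : K) / Algebra.norm F ((γ' ^ l : 𝓞 K) : K),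
    RingOfIntegers.norm F c, div_ne_zero n1 n2, fun I => ⟨fun π' hπ' => ?_, fun π hπ => ?_⟩⟩
  · obtain ⟨π, h3, h4⟩ := aux I _ _ _ _ π' (pow_ne_zero l hγ') hBl hπ'
    refine ⟨π, h3, ?_, ?_, ?_⟩
    · have a1 := (h1.trans (sub_dvd_pow_sub_pow γ 1 l)).mul_left π'
      have a2 := (h2.trans (sub_dvd_pow_sub_pow γ' 1 l)).mul_left π
      convert a1.sub a2 using 1
      linear_combination -h4
    · have a1 := congr_arg (fun z : 𝓞 K => Algebra.norm F (z : K)) h4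
      simp only [map_mul] at a1
      field_simp
      linear_combination -a1
    · have a1 : b * π = c * π' := by
        apply mul_left_cancel₀ (pow_ne_zero l hγ')
        linear_combination -b * h4 + π' * hc'
      have a2 := congr_arg (RingOfIntegers.norm F) a1
      rw [map_mul, map_mul] at a2
      have a3 := (norm_congr F hm hb1).mul_right (-RingOfIntegers.norm F π)
      convert a3 using 1
      rw [map_one]
      linear_combination a2
  · obtain ⟨π', h3, -⟩ := aux I _ _ _ _ π (pow_ne_zero l hγ) hBl.symm hπ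
    exact ⟨π', h3⟩

/-- the norm map on units -/
noncomputable def nu (K : Type) [Field K] [NumberField K] [Algebra F K] : (𝓞 K)ˣ →* (𝓞 F)ˣ :=
  Units.map (RingOfIntegers.norm F)

omit [NumberField F] in
theorem coe_nu (u : (𝓞 K)ˣ) : (nu F K u : 𝓞 F) = RingOfIntegers.norm F (u : 𝓞 K) := rfl

/-- the congruence conditions on a unit -/
def PP (M m : ℕ) (θ : 𝓞 K) (e β : 𝓞 F) (x : 𝓞 K) (w : (𝓞 F)ˣ) : Prop :=
  (∃ u : (𝓞 K)ˣ, nu F K u = w ∧ (M : 𝓞 K) ∣ u * x - θ) ∧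
    (m : 𝓞 F) ∣ w * (e * RingOfIntegers.norm F x) - β

open Classical in
theorem nset_sum {l M m : ℕ} {B : Ideal (𝓞 K)} (θ : 𝓞 K) {v : Pr K} {π π' : 𝓞 K} (hπ : π ≠ 0)
    {ν : F} {e : 𝓞 F} (β : 𝓞 F) (h1 : Ideal.span {π} = v.asIdeal * B ^ l)
    (h2 : (M : 𝓞 K) ∣ π - π') (h3 : Algebra.norm F (π : K) = ν * Algebra.norm F (π' : K))
    (h4 : (m : 𝓞 F) ∣ RingOfIntegers.norm F π - e * RingOfIntegers.norm F π')
    (h : ((F →+* ℂ) → ℂ) → ℂ) (t : ℝ) :
    (∑ᶠ a ∈ NSet F l M B θ v, if (m : 𝓞 F) ∣ a - β then h (t • emb (a : F)) else 0) =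
      HH (PP F M m θ e β π') h (emb ν * (t • emb (Algebra.norm F (π' : K)))) := by
  have hN : RingOfIntegers.norm F π ≠ 0 := fun h0 => HeckeOfAux.norm_ne F hπ (by
    rw [← RingOfIntegers.coe_norm, h0]; rfl)
  have hS : NSet F l M B θ v = (fun w : (𝓞 F)ˣ => (w : 𝓞 F) * RingOfIntegers.norm F π) ''
      {w | ∃ u : (𝓞 K)ˣ, nu F K u = w ∧ (M : 𝓞 K) ∣ u * π' - θ} := by
    ext a
    constructor
    · rintro ⟨π₁, a1, a2, rfl⟩
      obtain ⟨u, rfl⟩ := Ideal.span_singleton_eq_span_singleton.1 (h1.trans a1.symm)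
      refine ⟨_, ⟨u, rfl, ?_⟩, ?_⟩
      · convert a2.sub (h2.mul_right (u : 𝓞 K)) using 1
        ring
      · simp only [coe_nu, map_mul, mul_comm]
    · rintro ⟨_, ⟨u, rfl, a2⟩, rfl⟩
      refine ⟨u * π, by rw [Ideal.span_singleton_mul_left_unit u.isUnit, h1], ?_, ?_⟩
      · convert a2.add (h2.mul_right (u : 𝓞 K)) using 1
        ring
      · simp only [coe_nu, map_mul]
  rw [hS, finsum_mem_image fun w _ w' _ hw => Units.ext (mul_right_cancel₀ hN hw)]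
  refine finsum_congr fun w => ?_
  rw [finsum_eq_if]
  have e1 : (m : 𝓞 F) ∣ w * RingOfIntegers.norm F π - β ↔
      (m : 𝓞 F) ∣ w * (e * RingOfIntegers.norm F π') - β := by
    refine dvd_iff_dvd_of_dvd_sub ?_
    convert h4.mul_left (w : 𝓞 F) using 1
    ring
  have e2 : t • emb (((w : 𝓞 F) * RingOfIntegers.norm F π : 𝓞 F) : F) =
      ue w * (emb ν * (t • emb (Algebra.norm F (π' : K)))) := by
    rw [mul_smul_comm, mul_smul_comm, ← PieceAux.emb_mul, ← h3, ue, ← PieceAux.emb_mul]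
    rfl
  simp only [e1, e2, PP, Set.mem_ofPred_eq]
  split_ifs with a b c c d
  · rfl
  · exact absurd ⟨a, b⟩ c
  · exact absurd c.2 b
  · rfl
  · exact absurd d.1 a
  · rfl

theorem PP_congr {M m : ℕ} (hm : m ≠ 0) (θ : 𝓞 K) (e β : 𝓞 F) {x x' : 𝓞 K}
    (h1 : (M : 𝓞 K) ∣ x - x') (h2 : (m : 𝓞 K) ∣ x - x') (w : (𝓞 F)ˣ) :
    PP F M m θ e β x w ↔ PP F M m θ e β x' w := by
  refine and_congr (exists_congr fun u => and_congr_right fun _ => ?_) ?_
  · refine dvd_iff_dvd_of_dvd_sub ?_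
    convert h1.mul_left (u : 𝓞 K) using 1
    ring
  · refine dvd_iff_dvd_of_dvd_sub ?_
    convert (norm_congr F hm h2).mul_left (w * e) using 1
    ring

omit [NumberField F] in
theorem PP_shift {M m : ℕ} (θ : 𝓞 K) (e β : 𝓞 F) (x : 𝓞 K) (u : (𝓞 K)ˣ) (w : (𝓞 F)ˣ) :
    PP F M m θ e β (u * x) w ↔ PP F M m θ e β x (w * nu F K u) := by
  refine and_congr ⟨?_, ?_⟩ ?_
  · rintro ⟨u', rfl, h⟩
    exact ⟨u' * u, map_mul _ _ _, by rwa [Units.val_mul, mul_assoc]⟩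
  · rintro ⟨u', h1, h⟩
    refine ⟨u' * u⁻¹, by rw [map_mul, h1, map_inv, mul_inv_cancel_right], ?_⟩
    rwa [Units.val_mul, mul_assoc, Units.inv_mul_cancel_left]
  · rw [map_mul, Units.val_mul, coe_nu]
    congr! 2
    ring

omit [NumberField F] in
theorem PP_zeta {M m : ℕ} {θ θ' ζ : 𝓞 K} (e β : 𝓞 F) (x : 𝓞 K)
    (h1 : (m : 𝓞 F) ∣ RingOfIntegers.norm F ζ - 1) (h2 : (M : 𝓞 K) ∣ θ' * ζ - θ) {n : ℕ}
    (hn : n ≠ 0) (h3 : (M : 𝓞 K) ∣ ζ ^ n - 1) (w : (𝓞 F)ˣ) :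
    PP F M m θ' e β x w ↔ PP F M m θ e β (x * ζ) w := by
  refine and_congr (exists_congr fun u => and_congr_right fun _ => ⟨fun h => ?_, fun h => ?_⟩) ?_
  · convert (h.mul_right ζ).add h2 using 1
    ring
  · obtain ⟨k, rfl⟩ := Nat.exists_eq_succ_of_ne_zero hn
    convert ((h.sub h2).mul_right (ζ ^ k)).sub (h3.mul_right (u * x - θ')) using 1
    rw [pow_succ]
    ring
  · refine dvd_iff_dvd_of_dvd_sub ?_
    convert h1.mul_left (-(w * e * RingOfIntegers.norm F x)) using 1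
    rw [map_mul]
    ring

theorem finiteIndex_nu {G : Type} [CommGroup G] [Finite G] (ρ : (𝓞 K)ˣ →* G) :
    (ρ.ker.map (nu F K)).FiniteIndex := by
  have : Group.FG (𝓞 F)ˣ := Group.fg_iff_monoid_fg.2 inferInstance
  have h := Subgroup.finiteIndex_range_powMonoidHom_of_fg (𝓞 F)ˣ
    (mul_ne_zero (Module.finrank_pos (R := F) (M := K)).ne' (Nat.card_pos (α := G)).ne')
  refine Subgroup.finiteIndex_of_le (H := (powMonoidHom (Module.finrank F K * Nat.card G)).range) ?_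
  rintro _ ⟨w, rfl⟩
  refine ⟨Units.map (algebraMap (𝓞 F) (𝓞 K)).toMonoidHom w ^ Nat.card G, ?_, ?_⟩
  · change ρ _ = 1
    rw [map_pow, pow_card_eq_one']
  · rw [map_pow, powMonoidHom_apply, pow_mul]
    congr 1
    exact Units.ext (RingOfIntegers.norm_algebraMap F (L := K) (w : 𝓞 F))

theorem lnN_norm {π : 𝓞 K} (hπ : π ≠ 0) :
    lnN (emb (Algebra.norm F (π : K))) = Real.log (Ideal.absNorm (Ideal.span {π})) := by
  rw [← PieceAux.lnN_emb_int hπ, Full.lnN_emb (HeckeOfAux.norm_ne F hπ),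
    Full.lnN_emb (RingOfIntegers.coe_ne_zero_iff.2 hπ), Algebra.norm_norm]

end Pool.Agent.MP_14ad9d_nt.Full.EDKAux
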