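import Pool.Agent.MP_14ad9d_nt.Full.HDefs
import Pool.Agent.MP_d64882_nt.Zeta

set_option autoImplicit false
set_option linter.unusedSectionVars false

open NumberField Filter Topology IsDedekindDomain

namespace Pool.Agent.MP_14ad9d_nt.Full.EulerAux

open Pool.Agent.MP_d64882_nt

variable {E : Type} [Field E] [NumberField E]

lemma two_le (v : Pr E) : 2 ≤ Ideal.absNorm v.asIdeal := two_le_absNorm E v.prime

lemma inj : Function.Injective (fun v : Pr E => v.asIdeal) :=
  fun _ _ h => HeightOneSpectrum.ext h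

open Classical in
/-- the part of a function on ideals supported on a finite set of primes -/
noncomputable def cut (f : Ideal (𝓞 E) →* ℂ) (T : Finset (Pr E)) (I : Ideal (𝓞 E)) : ℂ :=
  if I ≠ ⊥ ∧ ∀ v : Pr E, v.asIdeal ∣ I → v ∈ T then f I else 0

lemma norm_cut_le (f : Ideal (𝓞 E) →* ℂ) (T : Finset (Pr E)) (I : Ideal (𝓞 E)) :
    ‖cut f T I‖ ≤ ‖f I‖ := by
  unfold cut
  split_ifs
  · exact le_rfl
  · simp

lemma summable_cut (f : Ideal (𝓞 E) →* ℂ) (hf : Summable fun I => ‖f I‖) (T : Finset (Pr E)) :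
    Summable (cut f T) :=
  Summable.of_norm_bounded hf (norm_cut_le f T)

lemma tsum_cut_empty (f : Ideal (𝓞 E) →* ℂ) : ∑' I, cut f ∅ I = 1 := by
  rw [tsum_eq_single ⊤]
  · unfold cut
    rw [if_pos]
    · rw [← Ideal.one_eq_top, map_one]
    · refine ⟨top_ne_bot, fun v hv => ?_⟩
      exact absurd (Ideal.dvd_iff_le.1 hv) (fun h => v.isPrime.ne_top (top_le_iff.1 h))
  · intro I hI
    unfold cut
    rw [if_neg]
    rintro ⟨h0, h1⟩
    obtain ⟨P, hP, hIP⟩ := Ideal.exists_le_maximal I hI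
    have hP0 : P ≠ ⊥ := fun h => h0 (le_bot_iff.1 (h ▸ hIP))
    have := h1 ⟨P, hP.isPrime, hP0⟩ (Ideal.dvd_iff_le.2 hIP)
    simp at this

lemma tsum_cut_insert [DecidableEq (Pr E)] (f : Ideal (𝓞 E) →* ℂ) (hf : Summable fun I => ‖f I‖)
    (T : Finset (Pr E)) (v : Pr E) (hv : v ∉ T) :
    (1 - f v.asIdeal) * ∑' I, cut f (insert v T) I = ∑' I, cut f T I := by
  classical
  set g := cut f (insert v T) with hg
  have hgs : Summable g := summable_cut f hf _
  have h1 : ∀ I, g I = cut f T I + (if v.asIdeal ∣ I then g I else 0) := by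
    intro I
    by_cases hd : v.asIdeal ∣ I
    · rw [if_pos hd]
      have : cut f T I = 0 := by
        unfold cut
        rw [if_neg]
        rintro ⟨_, h⟩
        exact hv (h v hd)
      rw [this, zero_add]
    · rw [if_neg hd, add_zero, hg]
      unfold cut
      congr 1
      refine propext ⟨?_, ?_⟩
      · rintro ⟨h0, h⟩
        refine ⟨h0, fun u hu => ?_⟩
        rcases Finset.mem_insert.1 (h u hu) with rfl | h2
        · exact absurd hu hd
        · exact h2
      · rintro ⟨h0, h⟩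
        exact ⟨h0, fun u hu => Finset.mem_insert_of_mem (h u hu)⟩
  have hs2 : Summable fun I => if v.asIdeal ∣ I then g I else 0 := by
    refine Summable.of_norm_bounded hf fun I => ?_
    split_ifs
    · exact norm_cut_le f _ I
    · simp
  have hinj : Function.Injective fun J : Ideal (𝓞 E) => v.asIdeal * J :=
    mul_right_injective₀ v.ne_bot
  have h2 : ∑' I, (if v.asIdeal ∣ I then g I else 0) = f v.asIdeal * ∑' I, g I := by
    rw [← hinj.tsum_eq (f := fun I => if v.asIdeal ∣ I then g I else 0)]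
    · rw [← tsum_mul_left]
      refine tsum_congr fun J => ?_
      rw [if_pos (dvd_mul_right _ _), hg]
      unfold cut
      by_cases hJ : J ≠ ⊥ ∧ ∀ u : Pr E, u.asIdeal ∣ J → u ∈ insert v T
      · rw [if_pos hJ, if_pos, map_mul]
        refine ⟨mul_ne_zero v.ne_bot hJ.1, fun u hu => ?_⟩
        rcases u.prime.dvd_or_dvd hu with h3 | h3
        · have h4 : u = v := by
            refine HeightOneSpectrum.ext ?_
            exact (v.isMaximal.eq_of_le u.isPrime.ne_top (Ideal.dvd_iff_le.1 h3)).symm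
          rw [h4]; exact Finset.mem_insert_self _ _
        · exact hJ.2 u h3
      · rw [if_neg hJ, if_neg, mul_zero]
        rintro ⟨h3, h4⟩
        refine hJ ⟨fun h => h3 (by rw [h, Ideal.mul_bot]), fun u hu => h4 u (hu.mul_left _)⟩
    · intro I hI
      by_cases hd : v.asIdeal ∣ I
      · obtain ⟨J, rfl⟩ := hd
        exact ⟨J, rfl⟩
      · simp [hd] at hI
  have h3 : ∑' I, g I = ∑' I, cut f T I + f v.asIdeal * ∑' I, g I := by
    rw [← h2, ← (summable_cut f hf T).tsum_add hs2]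
    exact tsum_congr h1
  linear_combination h3

lemma prod_mul_tsum_cut (f : Ideal (𝓞 E) →* ℂ) (hf : Summable fun I => ‖f I‖)
    (T : Finset (Pr E)) : (∏ v ∈ T, (1 - f v.asIdeal)) * ∑' I, cut f T I = 1 := by
  classical
  induction T using Finset.induction_on with
  | empty => simp [tsum_cut_empty]
  | insert v T hv ih =>
    rw [Finset.prod_insert hv, mul_comm (1 - f v.asIdeal), mul_assoc,
      tsum_cut_insert f hf T v hv, ih]

lemma tendsto_tsum_cut (f : Ideal (𝓞 E) →* ℂ) (hf : Summable fun I => ‖f I‖) (h0 : f ⊥ = 0) :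
    Tendsto (fun T : Finset (Pr E) => ∑' I, cut f T I) atTop (𝓝 (∑' I, f I)) := by
  refine tendsto_tsum_of_dominated_convergence hf (fun I => ?_)
    (Eventually.of_forall fun T I => norm_cut_le f T I)
  by_cases hI : I = ⊥
  · subst hI
    have : ∀ T : Finset (Pr E), cut f T ⊥ = f ⊥ := fun T => by simp [cut, h0]
    simp only [this]
    exact tendsto_const_nhds
  · refine tendsto_const_nhds.congr' ?_
    have hfin := Ideal.finite_factors (R := 𝓞 E) hI
    filter_upwards [eventually_ge_atTop hfin.toFinset] with T hT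
    unfold cut
    rw [if_pos]
    exact ⟨hI, fun v hv => hT (hfin.mem_toFinset.2 hv)⟩

lemma euler_gen (f : Ideal (𝓞 E) →* ℂ) (hf : Summable fun I => ‖f I‖) (h0 : f ⊥ = 0)
    (h1 : ∀ v : Pr E, f v.asIdeal ≠ 1) :
    Summable (fun v : Pr E => ‖Complex.log (1 - f v.asIdeal)‖) ∧
    Complex.exp (∑' v : Pr E, -Complex.log (1 - f v.asIdeal)) = ∑' I, f I := by
  have hs : Summable fun v : Pr E => f v.asIdeal := hf.of_norm.comp_injective inj
  have hl := hs.clog_one_sub
  refine ⟨hl.norm, ?_⟩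
  have h2 : Tendsto (fun T : Finset (Pr E) => Complex.exp (∑ v ∈ T, -Complex.log (1 - f v.asIdeal)))
      atTop (𝓝 (Complex.exp (∑' v : Pr E, -Complex.log (1 - f v.asIdeal)))) :=
    (Complex.continuous_exp.tendsto _).comp hl.neg.hasSum
  refine tendsto_nhds_unique (h2.congr fun T => ?_) (tendsto_tsum_cut f hf h0)
  have h3 := prod_mul_tsum_cut f hf T
  have h4 : Complex.exp (∑ v ∈ T, Complex.log (1 - f v.asIdeal)) = ∏ v ∈ T, (1 - f v.asIdeal) := by
    rw [Complex.exp_sum]
    exact Finset.prod_congr rfl fun v _ => Complex.exp_log (sub_ne_zero.2 (h1 v).symm)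
  rw [Finset.sum_neg_distrib, Complex.exp_neg, h4]
  exact (eq_inv_of_mul_eq_one_right h3).symm

/-- the twisted weight as a monoid hom -/
noncomputable def tw (X : Ideal (𝓞 E) →* ℂ) (s : ℂ) : Ideal (𝓞 E) →* ℂ where
  toFun I := X I * (Ideal.absNorm I : ℂ) ^ (-s)
  map_one' := by rw [map_one, map_one, Nat.cast_one, Complex.one_cpow, mul_one]
  map_mul' I J := by
    rw [map_mul, map_mul, Nat.cast_mul, Complex.natCast_mul_natCast_cpow]
    ring

lemma norm_tw_le (X : Ideal (𝓞 E) →* ℂ) (hX : ∀ I, ‖X I‖ ≤ 1) (h0 : X ⊥ = 0) (s : ℂ)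
    (I : Ideal (𝓞 E)) : ‖tw X s I‖ ≤ w E s.re I := by
  change ‖X I * (Ideal.absNorm I : ℂ) ^ (-s)‖ ≤ _
  by_cases hI : I = ⊥
  · rw [hI, h0, zero_mul, norm_zero]; exact w_nonneg E _ _
  · have h1 : 0 < Ideal.absNorm I := Nat.pos_of_ne_zero (by rwa [Ne, Ideal.absNorm_eq_zero_iff])
    rw [norm_mul, Complex.norm_natCast_cpow_of_pos h1, Complex.neg_re]
    exact mul_le_of_le_one_left (w_nonneg E s.re I) (hX I)

/-- the rational prime below a prime -/
noncomputable def below (v : Pr E) : ℕ := Ideal.absNorm (v.asIdeal.under ℤ)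

lemma below_prime (v : Pr E) : (below v).Prime := by
  have := v.isPrime
  have : NeZero v.asIdeal := ⟨v.ne_bot⟩
  exact Nat.absNorm_under_prime v.asIdeal

lemma below_pow (v : Pr E) : below v ^ v.asIdeal.inertiaDeg ℤ = Ideal.absNorm v.asIdeal := by
  have := v.isPrime
  exact Ideal.absNorm_pow_inertiaDeg (v.asIdeal.under ℤ) v.asIdeal

lemma below_eq {v : Pr E} (h : Deg1 v) : below v = Ideal.absNorm v.asIdeal :=
  ((Nat.Prime.pow_eq_iff h).1 (below_pow v)).1

lemma below_sq_le {v : Pr E} (h : ¬Deg1 v) : below v ^ 2 ≤ Ideal.absNorm v.asIdeal := by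
  have := v.isPrime
  have h5 := below_pow v
  have h6 := Ideal.inertiaDeg_pos v.asIdeal ℤ
  have h7 : v.asIdeal.inertiaDeg ℤ ≠ 1 := fun h1 => h (by
    unfold Deg1
    rw [← h5, h1, pow_one]; exact below_prime v)
  rw [← h5]
  exact Nat.pow_le_pow_right (below_prime v).pos (by omega)

lemma card_fiber_le (T : Finset (Pr E)) (n : ℕ) :
    (T.filter fun v => below v = n).card ≤ Module.finrank ℤ (𝓞 E) := by
  classical
  rcases (T.filter fun v => below v = n).eq_empty_or_nonempty with h | ⟨v₀, h₀⟩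
  · simp [h]
  have := v₀.isPrime
  rw [← Finset.card_image_of_injective _ inj]
  refine card_primesOver_le E (v₀.asIdeal.under ℤ) _ fun P hP => ?_
  obtain ⟨v, hv, rfl⟩ := Finset.mem_image.1 hP
  refine ⟨v.isPrime, ⟨?_⟩⟩
  rw [← Int.ideal_span_absNorm_eq_self (v₀.asIdeal.under ℤ),
    ← Int.ideal_span_absNorm_eq_self (v.asIdeal.under ℤ)]
  have h3 : below v₀ = below v :=
    (Finset.mem_filter.1 h₀).2.trans (Finset.mem_filter.1 hv).2.symm
  exact congrArg (fun n : ℕ => Ideal.span {(n : ℤ)}) h3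

lemma sum_below_le (T : Finset (Pr E)) (g : ℕ → ℝ) (hg : ∀ n, 0 ≤ g n) (S : Finset ℕ)
    (hS : ∀ v ∈ T, below v ∈ S) :
    ∑ v ∈ T, g (below v) ≤ Module.finrank ℤ (𝓞 E) * ∑ n ∈ S, g n := by
  classical
  rw [← Finset.sum_fiberwise_of_maps_to hS, Finset.mul_sum]
  refine Finset.sum_le_sum fun n _ => ?_
  rw [Finset.sum_congr rfl (fun v hv => by rw [(Finset.mem_filter.1 hv).2]),
    Finset.sum_const, nsmul_eq_mul]
  exact mul_le_mul_of_nonneg_right (by exact_mod_cast card_fiber_le T n) (hg n)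

end Pool.Agent.MP_14ad9d_nt.Full.EulerAux
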