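import Mathlib

set_option autoImplicit false

namespace Pool.Agent.MP_14ad9d_nt.Full

namespace HerbAux

theorem pow_ne {L : Type} [Field L] (σ : L ≃+* L) (n : ℕ)
    (h2 : ∀ i, 0 < i → i < n → σ ^ i ≠ 1) {i k : ℕ} (hik : i < k) (hk : k < n) :
    σ ^ i ≠ σ ^ k := by
  intro h
  apply h2 (k - i) (by omega) (by omega)
  have e : σ ^ k = σ ^ i * σ ^ (k - i) := by rw [← pow_add]; congr 1; omega
  rw [e] at h
  exact (left_eq_mul.mp h)

end HerbAux

/-- Hilbert 90 for one automorphism of finite order -/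
theorem h90 {L : Type} [Field L] (σ : L ≃+* L) (n : ℕ) (hn : 0 < n) (h1 : σ ^ n = 1)
    (h2 : ∀ i, 0 < i → i < n → σ ^ i ≠ 1) (a : L) (ha : ∏ i ∈ Finset.range n, (σ ^ i) a = 1) :
    ∃ b : L, b ≠ 0 ∧ σ b = a * b := by
  have ha0 : a ≠ 0 := by
    rintro rfl
    rw [Finset.prod_eq_zero (Finset.mem_range.mpr hn) (by simp)] at ha
    exact zero_ne_one ha
  obtain ⟨c, hc⟩ : ∃ c : ℕ → L, c = fun i => ∏ k ∈ Finset.range i, (σ ^ k) a⁻¹ := ⟨_, rfl⟩
  have hc0 : c 0 = 1 := by simp [hc]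
  have hcn : c n = 1 := by
    simp only [hc, map_inv₀, Finset.prod_inv_distrib, ha, inv_one]
  have hcs : ∀ i, σ (c i) = a * c (i + 1) := by
    intro i
    simp only [hc, map_prod]
    rw [Finset.prod_range_succ', pow_zero]
    have e : ∀ k, σ ((σ ^ k) a⁻¹) = (σ ^ (k + 1)) a⁻¹ := by
      intro k; rw [pow_succ']; rfl
    simp only [e]
    have : (1 : L ≃+* L) a⁻¹ = a⁻¹ := rfl
    rw [this]
    field_simp
  obtain ⟨f, hf⟩ : ∃ f : Fin n → (L →* L), f = fun i : Fin n => ((σ ^ (i : ℕ) : L ≃+* L) : L →* L) :=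
    ⟨_, rfl⟩
  have hfi : Function.Injective f := by
    intro i k h
    have h' : σ ^ (i : ℕ) = σ ^ (k : ℕ) := by
      ext x
      have := DFunLike.congr_fun h x
      simpa [hf] using this
    rcases lt_trichotomy (i : ℕ) k with hlt | heq | hlt
    · exact absurd h' (HerbAux.pow_ne σ n h2 hlt k.2)
    · exact Fin.ext heq
    · exact absurd h'.symm (HerbAux.pow_ne σ n h2 hlt i.2)
  have hli := (linearIndependent_monoidHom L L).comp f hfi
  have hex : ∃ t : L, ∑ i ∈ Finset.range n, c i * (σ ^ i) t ≠ 0 := by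
    by_contra hcon
    push Not at hcon
    have := Fintype.linearIndependent_iff.mp hli (fun i => c i) (by
      funext t
      have := hcon t
      rw [Finset.sum_range] at this
      simpa [hf, Finset.sum_apply] using this) ⟨0, hn⟩
    simp [hc0] at this
  obtain ⟨t, ht⟩ := hex
  refine ⟨_, ht, ?_⟩
  rw [map_sum, Finset.mul_sum]
  have e : ∀ i, σ (c i * (σ ^ i) t) = a * (c (i + 1) * (σ ^ (i + 1)) t) := by
    intro i
    rw [map_mul, hcs, pow_succ', mul_assoc]; rfl
  simp only [e]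
  have h3 := Finset.sum_range_succ' (fun i => a * (c i * (σ ^ i) t)) n
  rw [Finset.sum_range_succ, hcn, hc0, h1, pow_zero] at h3
  exact (add_right_cancel h3).symm

/-- the binomial congruence behind ramification in the cyclotomic ring -/
theorem sub_one_pow (l : ℕ) [Fact l.Prime] : ∃ q : Polynomial ℤ,
    (Polynomial.X - 1 : Polynomial ℤ) ^ (l - 1) =
      ∑ i ∈ Finset.range l, Polynomial.X ^ i + (l : Polynomial ℤ) * q := by
  have hp : l.Prime := Fact.out
  have key : ((Polynomial.X - 1 : Polynomial ℤ) ^ (l - 1) -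
      ∑ i ∈ Finset.range l, Polynomial.X ^ i).map (Int.castRingHom (ZMod l)) = 0 := by
    simp only [Polynomial.map_sub, Polynomial.map_pow, Polynomial.map_X, Polynomial.map_one,
      Polynomial.map_sum]
    have hne : (Polynomial.X - 1 : Polynomial (ZMod l)) ≠ 0 := by
      simpa using Polynomial.X_sub_C_ne_zero (1 : ZMod l)
    apply mul_left_cancel₀ hne
    rw [mul_sub, mul_geom_sum, ← pow_succ', Nat.sub_add_cancel hp.one_le, sub_pow_char]
    simp
  have hd : Polynomial.C (l : ℤ) ∣ ((Polynomial.X - 1 : Polynomial ℤ) ^ (l - 1) -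
      ∑ i ∈ Finset.range l, Polynomial.X ^ i) := by
    rw [Polynomial.C_dvd_iff_dvd_coeff]
    intro i
    have := congrArg (fun p => p.coeff i) key
    simp only [Polynomial.coeff_map, Polynomial.coeff_zero, eq_intCast] at this
    exact (ZMod.intCast_zmod_eq_zero_iff_dvd _ l).mp this
  obtain ⟨q, hq⟩ := hd
  refine ⟨q, ?_⟩
  have e : (l : Polynomial ℤ) = Polynomial.C (l : ℤ) := by simp
  rw [e, ← hq]; ring


namespace HerbAux

open AddSubgroup

/-- a torsion element of a group without `l`-torsion is divisible by `l` -/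
theorem tors_div (l : ℕ) (hp : l.Prime) {M : Type} [AddCommGroup M]
    (htor : ∀ a : M, l • a = 0 → a = 0) (x : M) (hx : IsOfFinAddOrder x) :
    ∃ y : M, l • y = x := by
  have hc : l.Coprime (addOrderOf x) := by
    rw [Nat.Prime.coprime_iff_not_dvd hp]
    rintro ⟨k, hk⟩
    have hpos := hx.addOrderOf_pos
    have hk0 : k ≠ 0 := by rintro rfl; simp [hk] at hpos
    have h1 : l • (k • x) = 0 := by
      rw [← mul_nsmul', ← hk]; exact addOrderOf_nsmul_eq_zero x
    have h2 := addOrderOf_dvd_of_nsmul_eq_zero (htor _ h1)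
    rw [hk] at h2
    have h3 := Nat.le_of_dvd (Nat.pos_of_ne_zero hk0) h2
    have := hp.two_le
    nlinarith [Nat.pos_of_ne_zero hk0]
  obtain ⟨m, hm⟩ := exists_nsmul_eq_self_of_coprime hc
  exact ⟨m • x, by rw [smul_comm]; exact hm⟩

theorem index_nsmul (l : ℕ) (hp : l.Prime) (M : Type) [AddCommGroup M] [Module.Finite ℤ M]
    (htor : ∀ a : M, l • a = 0 → a = 0) :
    (nsmulAddMonoidHom (α := M) l).range.index = l ^ Module.finrank ℤ M := by
  obtain ⟨T, hT⟩ : ∃ T : Submodule ℤ M, T = Submodule.torsion ℤ M := ⟨_, rfl⟩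
  haveI : Module.IsTorsionFree ℤ (M ⧸ T) := by rw [hT]; infer_instance
  have h1 := AddSubgroup.index_range_nsmul (M ⧸ T) l
  rw [finrank_quotient_eq_of_le_torsion hT.le] at h1
  rw [← h1]
  have hs : Function.Surjective T.mkQ.toAddMonoidHom := T.mkQ_surjective
  have hk : T.mkQ.toAddMonoidHom.ker ≤ (nsmulAddMonoidHom (α := M) l).range := by
    intro x hx
    have hx' : x ∈ T := by simpa using hx
    have hfin : IsOfFinAddOrder x := by
      rw [hT] at hx'
      have : x ∈ (Submodule.torsion ℤ M).toAddSubgroup := hx'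
      rw [Submodule.torsion_int] at this
      exact this
    exact tors_div l hp htor x hfin
  rw [← AddSubgroup.index_map_eq _ hs hk]
  congr 1
  ext z
  obtain ⟨x, rfl⟩ := hs z
  constructor
  · rintro ⟨y, ⟨w, rfl⟩, hy⟩
    exact ⟨T.mkQ w, by rw [← hy]; simp⟩
  · rintro ⟨w, hw⟩
    obtain ⟨v, rfl⟩ := hs w
    exact ⟨l • v, ⟨v, rfl⟩, by rw [← hw]; simp⟩

theorem relIndex_nsmul (l : ℕ) (hp : l.Prime) {A : Type} [AddCommGroup A] (S : AddSubgroup A)
    [Module.Finite ℤ S] (htor : ∀ a ∈ S, l • a = 0 → a = 0) :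
    (S.map (nsmulAddMonoidHom (α := A) l)).relIndex S = l ^ Module.finrank ℤ S := by
  have := index_nsmul l hp S (fun a ha => Subtype.ext (htor a a.2 (by
    simpa using congrArg Subtype.val ha)))
  simpa only [relIndex, addSubgroupOf_map_nsmulAddMonoidHom_eq_range] using this

/-- comparison of two indices along a correspondence -/
theorem corr {Z G G' : Type} [AddCommGroup Z] [AddCommGroup G] [AddCommGroup G']
    (p : Z →+ G) (q : Z →+ G') (H X : AddSubgroup G) (K Y : AddSubgroup G')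
    (hX : X ≤ p.range) (hY : q.range ≤ Y) (h : ∀ z, q z ∈ K → p z ∈ H)
    (hK : K.relIndex Y ≠ 0) : H.relIndex X ≤ K.relIndex Y := by
  have h1 : K.relIndex q.range ≠ 0 := fun h0 => hK (relIndex_eq_zero_of_le_right hY h0)
  have h2 : K.relIndex q.range ≤ K.relIndex Y := relIndex_le_of_le_right hY hK
  rw [← index_comap] at h1 h2
  have h3 : (H.comap p).index ∣ (K.comap q).index := index_dvd_of_le (fun z hz => h z hz)
  have h4 : (H.comap p).index ≠ 0 := fun h0 => h1 (by simpa [h0] using h3)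
  have h5 := Nat.le_of_dvd (Nat.pos_of_ne_zero h1) h3
  rw [index_comap] at h4 h5
  exact (relIndex_le_of_le_right hX h4).trans (h5.trans h2)

/-- the Herbrand quotient of a finite module is one -/
theorem fin_herb {I : Type} [AddCommGroup I] (P : AddSubgroup I) (hP : P.index ≠ 0)
    (D N : I →+ I) (hD : P ≤ P.comap D) (hN : P ≤ P.comap N) (hDN : ∀ x, D (N x) = 0)
    (hND : ∀ x, N (D x) = 0) :
    (N.range ⊔ P).relIndex (P.comap D) = (D.range ⊔ P).relIndex (P.comap N) ∧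
      (D.range ⊔ P).relIndex (P.comap N) ≠ 0 := by
  have key : ∀ D N : I →+ I, P ≤ P.comap D → (∀ x, D (N x) = 0) →
      P.relIndex (N.range ⊔ P) * (N.range ⊔ P).relIndex (P.comap D) *
        P.relIndex (D.range ⊔ P) = P.index := by
    intro D N hD hDN
    have h1 : N.range ⊔ P ≤ P.comap D := by
      refine sup_le ?_ hD
      rintro _ ⟨x, rfl⟩
      simp [hDN]
    rw [relIndex_mul_relIndex _ _ _ le_sup_right h1, relIndex_sup_right, ← index_comap,
      relIndex_mul_index hD]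
  have h1 := key D N hD hDN
  have h2 := key N D hN hND
  generalize P.relIndex (N.range ⊔ P) = a at h1 h2
  generalize P.relIndex (D.range ⊔ P) = b at h1 h2
  generalize (N.range ⊔ P).relIndex (P.comap D) = u at h1 h2
  generalize (D.range ⊔ P).relIndex (P.comap N) = v at h1 h2
  have ha : a ≠ 0 := by rintro rfl; simp at h1; exact hP h1.symm
  have hb : b ≠ 0 := by rintro rfl; simp at h1; exact hP h1.symm
  refine ⟨?_, by rintro rfl; simp at h2; exact hP h2.symm⟩
  apply Nat.eq_of_mul_eq_mul_left (Nat.pos_of_ne_zero (mul_ne_zero ha hb))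
  calc a * b * u = a * u * b := by ring
    _ = b * v * a := h1.trans h2.symm
    _ = a * b * v := by ring

theorem core13 {A I : Type} [AddCommGroup A] [AddCommGroup I] (D N : A →+ A) (D' N' : I →+ I)
    (j : A →+ I) (hjD : ∀ a, j (D a) = D' (j a)) (hjN : ∀ a, j (N a) = N' (j a))
    (hDN : ∀ x, D (N x) = 0) (hND : ∀ x, N (D x) = 0)
    (hDN' : ∀ x, D' (N' x) = 0) (hND' : ∀ x, N' (D' x) = 0) (hP : j.range.index ≠ 0)
    (h90 : ∀ a, N a = 0 → ∃ b, a = D b)
    (hcon : ∀ x, D' x = 0 → ∃ a y, D a = 0 ∧ x = j a + N' y)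
    (h0 : (j.ker.map N).relIndex (j.ker ⊓ D.ker) ≠ 0) :
    (j.ker.map D).relIndex (j.ker ⊓ N.ker) ≤ (j.ker.map N).relIndex (j.ker ⊓ D.ker) := by
  obtain ⟨h3, h3'⟩ := fin_herb j.range hP D' N'
    (by rintro _ ⟨a, rfl⟩; exact ⟨D a, hjD a⟩) (by rintro _ ⟨a, rfl⟩; exact ⟨N a, hjN a⟩) hDN' hND'
  have h1 : (N'.range ⊔ j.range).relIndex (j.range.comap D') ≤
      (j.ker.map N).relIndex (j.ker ⊓ D.ker) := by
    obtain ⟨Z, hZ⟩ : ∃ Z : AddSubgroup (I × A),
        Z = (D'.comp (AddMonoidHom.fst I A) - j.comp (AddMonoidHom.snd I A)).ker := ⟨_, rfl⟩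
    have mZ : ∀ z : I × A, z ∈ Z ↔ D' z.1 = j z.2 := by
      intro z; rw [hZ, AddMonoidHom.mem_ker]; simp [sub_eq_zero]
    refine corr ((AddMonoidHom.fst I A).comp Z.subtype)
      (N.comp ((AddMonoidHom.snd I A).comp Z.subtype)) _ _ _ _ ?_ ?_ ?_ h0
    · rintro x ⟨y, hy⟩
      exact ⟨⟨(x, y), (mZ _).2 hy.symm⟩, rfl⟩
    · rintro _ ⟨⟨⟨x, y⟩, hz⟩, rfl⟩
      have hz' : D' x = j y := (mZ _).1 hz
      refine ⟨?_, ?_⟩
      · show j (N y) = 0
        rw [hjN, ← hz', hND']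
      · exact hDN y
    · rintro ⟨⟨x, y⟩, hz⟩ ⟨e, he, hey⟩
      have hz' : D' x = j y := (mZ _).1 hz
      have hey' : N e = N y := hey
      have he' : j e = 0 := he
      obtain ⟨z, hz2⟩ := h90 (y - e) (by rw [map_sub, hey', sub_self])
      obtain ⟨a, w, -, hw⟩ := hcon (x - j z) (by
        rw [map_sub, hz', ← hjD, ← hz2, map_sub, he']; simp)
      show x ∈ N'.range ⊔ j.range
      have e1 : x = N' w + j (a + z) := by rw [map_add, eq_add_of_sub_eq hw]; abel
      rw [e1]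
      exact add_mem (mem_sup_left ⟨w, rfl⟩) (mem_sup_right ⟨a + z, rfl⟩)
  have h2 : (j.ker.map D).relIndex (j.ker ⊓ N.ker) ≤
      (D'.range ⊔ j.range).relIndex (j.range.comap N') := by
    obtain ⟨Z, hZ⟩ : ∃ Z : AddSubgroup (I × A),
        Z = (N'.comp (AddMonoidHom.fst I A) - j.comp (AddMonoidHom.snd I A)).ker := ⟨_, rfl⟩
    have mZ : ∀ z : I × A, z ∈ Z ↔ N' z.1 = j z.2 := by
      intro z; rw [hZ, AddMonoidHom.mem_ker]; simp [sub_eq_zero]
    refine corr (D.comp ((AddMonoidHom.snd I A).comp Z.subtype))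
      ((AddMonoidHom.fst I A).comp Z.subtype) _ _ _ _ ?_ ?_ ?_ h3'
    · rintro e ⟨he, hN⟩
      have he' : j e = 0 := he
      obtain ⟨b, hb⟩ := h90 e hN
      obtain ⟨a, x, ha, hx⟩ := hcon (j b) (by rw [← hjD, ← hb, he'])
      refine ⟨⟨(x, b - a), (mZ _).2 ?_⟩, ?_⟩
      · show N' x = j (b - a)
        rw [map_sub, hx]; abel
      · show D (b - a) = e
        rw [map_sub, ha, sub_zero, hb]
    · rintro _ ⟨⟨⟨x, b⟩, hz⟩, rfl⟩
      exact ⟨b, ((mZ _).1 hz).symm⟩
    · rintro ⟨⟨x, b⟩, hz⟩ hx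
      have hz' : N' x = j b := (mZ _).1 hz
      have hx' : x ∈ D'.range ⊔ j.range := hx
      obtain ⟨_, ⟨w, rfl⟩, _, ⟨c, rfl⟩, hwc⟩ := mem_sup.1 hx'
      refine ⟨b - N c, ?_, ?_⟩
      · show j (b - N c) = 0
        rw [map_sub, ← hz', ← hwc, map_add, hND', hjN]; simp
      · show D (b - N c) = D b
        rw [map_sub, hDN, sub_zero]
  exact h2.trans (h3 ▸ h1)

end HerbAux


namespace HerbAux

open AddSubgroup

/-- the two middle indices agree -/
theorem mid {A : Type} [AddCommGroup A] (D N : A →+ A) (E : AddSubgroup A) :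
    ((E ⊓ D.ker).map N).relIndex (E.map N) = ((E ⊓ N.ker).map D).relIndex (E.map D) := by
  have key : ∀ D N : A →+ A, ((E ⊓ D.ker).map N).relIndex (E.map N) =
      ((E ⊓ D.ker) ⊔ (E ⊓ N.ker)).relIndex E := by
    intro D N
    rw [← relIndex_comap, comap_map_eq, ← inf_relIndex_right,
      sup_inf_assoc_of_le _ (inf_le_left : E ⊓ D.ker ≤ E), inf_comm N.ker E]
  rw [key D N, key N D, sup_comm]

/-- index of the image under an iterate -/
theorem iter_dvd {A : Type} [AddCommGroup A] (D : A →+ A) (B : AddSubgroup A)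
    (hB : B.map D ≤ B) (k : ℕ) :
    ((AddSubgroup.map D)^[k] B).relIndex B ∣ (B.map D).relIndex B ^ k := by
  have hle : ∀ k : ℕ, (AddSubgroup.map D)^[k] B ≤ B := by
    intro k
    induction k with
    | zero => exact le_rfl
    | succ k ih => rw [Function.iterate_succ_apply']; exact (map_mono ih).trans hB
  induction k with
  | zero => simp
  | succ k ih =>
    rw [Function.iterate_succ_apply', ← relIndex_mul_relIndex _ _ _ (map_mono (hle k)) hB, pow_succ]
    refine Nat.mul_dvd_mul ?_ dvd_rfl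
    rw [← relIndex_comap, comap_map_eq]
    exact (relIndex_dvd_of_le_left B le_sup_left).trans ih

theorem mem_iter {A : Type} [AddCommGroup A] (D : A →+ A) (B : AddSubgroup A) (k : ℕ) (x : A)
    (hx : x ∈ (AddSubgroup.map D)^[k] B) : ∃ b ∈ B, x = D^[k] b := by
  induction k generalizing x with
  | zero => exact ⟨x, hx, rfl⟩
  | succ k ih =>
    rw [Function.iterate_succ_apply'] at hx
    obtain ⟨y, hy, rfl⟩ := hx
    obtain ⟨b, hb, rfl⟩ := ih y hy
    exact ⟨b, hb, by rw [Function.iterate_succ_apply']⟩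

theorem fin_sub {A : Type} [AddCommGroup A] (E S : AddSubgroup A) (h : S ≤ E)
    [Module.Finite ℤ E] : Module.Finite ℤ S :=
  Module.Finite.of_injective (AddSubgroup.inclusion h).toIntLinearMap
    (AddSubgroup.inclusion_injective h)

theorem rank_le {A : Type} [AddCommGroup A] (N : A →+ A) (E S : AddSubgroup A)
    [Module.Finite ℤ E] [Module.Finite ℤ S] (h : ∀ a ∈ E, N a ∈ S) :
    Module.finrank ℤ E ≤ Module.finrank ℤ ↥(E ⊓ N.ker) + Module.finrank ℤ S := by
  haveI := fin_sub E (E ⊓ N.ker) inf_le_left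
  obtain ⟨f, hf⟩ : ∃ f : E →ₗ[ℤ] S, ∀ a : E, (f a : A) = N a :=
    ⟨((N.comp E.subtype).codRestrict S (fun a => h a a.2)).toIntLinearMap, fun a => rfl⟩
  have h1 := (LinearMap.ker f).finrank_quotient_add_finrank
  have h2 : Module.finrank ℤ (E ⧸ LinearMap.ker f) ≤ Module.finrank ℤ S := by
    rw [f.quotKerEquivRange.finrank_eq]
    exact Submodule.finrank_le _
  have hm : ∀ x : LinearMap.ker f, ((x : E) : A) ∈ E ⊓ N.ker := by
    intro x
    refine ⟨(x : E).2, ?_⟩
    show N _ = 0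
    rw [← hf, LinearMap.mem_ker.1 x.2]; rfl
  have h3 : Module.finrank ℤ (LinearMap.ker f) ≤ Module.finrank ℤ ↥(E ⊓ N.ker) := by
    refine LinearMap.finrank_le_finrank_of_injective
      (f := ((E.subtype.comp (LinearMap.ker f).subtype.toAddMonoidHom).codRestrict
        (E ⊓ N.ker) hm).toIntLinearMap) ?_
    intro x y hxy
    have := congrArg Subtype.val hxy
    exact Subtype.ext (Subtype.ext this)
  omega

theorem exists_norm (l : ℕ) {A : Type} [AddCommGroup A] (σ : A →+ A) :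
    ∃ N : A →+ A, ∀ a, N a = ∑ i ∈ Finset.range l, σ^[i] a :=
  ⟨{ toFun := fun a => ∑ i ∈ Finset.range l, σ^[i] a
     map_zero' := by simp [iterate_map_zero]
     map_add' := by intro a b; simp [iterate_map_add, Finset.sum_add_distrib] }, fun _ => rfl⟩

theorem norm_facts (l : ℕ) {A : Type} [AddCommGroup A] (σ : A →+ A) (hσ : ∀ a, σ^[l] a = a)
    (N : A →+ A) (hN : ∀ a, N a = ∑ i ∈ Finset.range l, σ^[i] a) (a : A) :
    N (σ a) = N a ∧ σ (N a) = N a := by
  have h1 : ∑ i ∈ Finset.range l, σ^[i + 1] a = ∑ i ∈ Finset.range l, σ^[i] a := by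
    have h := Finset.sum_range_succ' (fun i => σ^[i] a) l
    rw [Finset.sum_range_succ, hσ] at h
    exact (add_right_cancel h).symm
  constructor
  · rw [hN, hN, ← h1]; rfl
  · rw [hN, map_sum]
    conv_rhs => rw [← h1]
    simp only [Function.iterate_succ_apply']

theorem iter_sub {A : Type} [AddCommGroup A] (σ : A →+ A) (B : AddSubgroup A)
    (hB : ∀ b ∈ B, σ b ∈ B) (i : ℕ) (b : A) (hb : b ∈ B) :
    σ^[i] b ∈ B ∧ σ^[i] b - b ∈ B.map (σ - AddMonoidHom.id A) := by
  induction i with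
  | zero => exact ⟨hb, by simp⟩
  | succ i ih =>
    rw [Function.iterate_succ_apply']
    refine ⟨hB _ ih.1, ?_⟩
    have e : σ (σ^[i] b) - b = (σ - AddMonoidHom.id A) (σ^[i] b) + (σ^[i] b - b) := by simp
    rw [e]
    exact add_mem (mem_map_of_mem _ ih.1) ih.2

theorem pow_mem (l : ℕ) [Fact l.Prime] {A : Type} [AddCommGroup A] (σ : A →+ A)
    (B : AddSubgroup A) (hB : ∀ b ∈ B, σ b ∈ B) (b : A) (hb : b ∈ B)
    (h0 : ∑ i ∈ Finset.range l, σ^[i] b = 0) :
    (σ - AddMonoidHom.id A)^[l - 1] b ∈ B.map (nsmulAddMonoidHom (α := A) l) := by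
  obtain ⟨q, hq⟩ := sub_one_pow l
  obtain ⟨s, hs⟩ : ∃ s : Module.End ℤ A, ∀ a, s a = σ a := ⟨σ.toIntLinearMap, fun _ => rfl⟩
  have hsf : (s : A → A) = σ := funext hs
  have hsd : ((s - 1 : Module.End ℤ A) : A → A) = (σ - AddMonoidHom.id A : A →+ A) := by
    funext a; simp [hs]
  have h1 := congrArg (fun p => Polynomial.aeval s p b) hq
  simp only [map_pow, map_sub, Polynomial.aeval_X, map_one, map_add, map_sum, map_mul,
    map_natCast, LinearMap.add_apply, LinearMap.sum_apply, Module.End.pow_apply, hsf, hsd, h0,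
    zero_add, Module.End.mul_apply, Module.End.natCast_apply] at h1
  refine ⟨Polynomial.aeval s q b, ?_, h1.symm⟩
  exact Polynomial.aeval_apply_smul_mem_of_le_comap (q := B.toIntSubmodule) hb q s
    (fun x hx => by
      show s x ∈ B
      rw [hs]; exact hB x hx)

end HerbAux

open AddSubgroup HerbAux in
/-- the Herbrand quotient argument of the first inequality -/
theorem herb (l : ℕ) [Fact l.Prime] {A I : Type} [AddCommGroup A] [AddCommGroup I] (σ : A →+ A)
    (τ : I →+ I) (hσ : ∀ a, σ^[l] a = a) (hτ : ∀ x, τ^[l] x = x) (j : A →+ I)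
    (hj : ∀ a, j (σ a) = τ (j a)) [Finite (I ⧸ j.range)]
    (h90 : ∀ a, ∑ i ∈ Finset.range l, σ^[i] a = 0 → ∃ b, a = σ b - b)
    [Module.Finite ℤ j.ker] (htor : ∀ a ∈ j.ker, l • a = 0 → a = 0)
    (hrank : Module.finrank ℤ j.ker + 1 =
      l * (Module.finrank ℤ ↥(j.ker ⊓ (σ - AddMonoidHom.id A).ker) + 1)) :
    ∃ x : I, τ x = x ∧ ¬∃ (a : A) (y : I), σ a = a ∧ x = j a + ∑ i ∈ Finset.range l, τ^[i] y := by
  have hp : l.Prime := Fact.out
  by_contra hcon
  push Not at hcon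
  obtain ⟨N, hN⟩ := exists_norm l σ
  obtain ⟨N', hN'⟩ := exists_norm l τ
  obtain ⟨D, hD⟩ : ∃ D : A →+ A, D = σ - AddMonoidHom.id A := ⟨_, rfl⟩
  obtain ⟨D', hD'⟩ : ∃ D' : I →+ I, D' = τ - AddMonoidHom.id I := ⟨_, rfl⟩
  have eD : ∀ a, D a = σ a - a := by intro a; simp [hD]
  have eD' : ∀ a, D' a = τ a - a := by intro a; simp [hD']
  have hji : ∀ (i : ℕ) a, j (σ^[i] a) = τ^[i] (j a) := by
    intro i a
    induction i with
    | zero => rfl
    | succ i ih => rw [Function.iterate_succ_apply', Function.iterate_succ_apply', hj, ih]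
  have hjD : ∀ a, j (D a) = D' (j a) := by intro a; rw [eD, eD', map_sub, hj]
  have hjN : ∀ a, j (N a) = N' (j a) := by intro a; rw [hN, hN', map_sum]; simp only [hji]
  have hDN : ∀ a, D (N a) = 0 := by intro a; rw [eD, (norm_facts l σ hσ N hN a).2, sub_self]
  have hND : ∀ a, N (D a) = 0 := by
    intro a; rw [eD, map_sub, (norm_facts l σ hσ N hN a).1, sub_self]
  have hDN' : ∀ a, D' (N' a) = 0 := by
    intro a; rw [eD', (norm_facts l τ hτ N' hN' a).2, sub_self]
  have hND' : ∀ a, N' (D' a) = 0 := by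
    intro a; rw [eD', map_sub, (norm_facts l τ hτ N' hN' a).1, sub_self]
  rw [← hD] at hrank
  have hP : j.range.index ≠ 0 := index_ne_zero_of_finite
  have core := core13 D N D' N' j hjD hjN hDN hND hDN' hND' hP
    (fun a ha => by
      obtain ⟨b, hb⟩ := h90 a (by rw [← hN, ha])
      exact ⟨b, by rw [eD, hb]⟩)
    (fun x hx => by
      obtain ⟨a, y, ha, hxy⟩ := hcon x (by rw [eD'] at hx; exact sub_eq_zero.1 hx)
      exact ⟨a, y, by rw [eD, ha, sub_self], by rw [hN', hxy]⟩)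
  have hmid := mid D N j.ker
  haveI := fin_sub j.ker (j.ker ⊓ D.ker) inf_le_left
  haveI := fin_sub j.ker (j.ker ⊓ N.ker) inf_le_left
  have hNE : ∀ a ∈ j.ker, N a ∈ j.ker ⊓ D.ker := by
    intro a ha
    refine ⟨?_, hDN a⟩
    show j (N a) = 0
    rw [hjN, (AddMonoidHom.mem_ker.1 ha), map_zero]
  have hDE : ∀ a ∈ j.ker, D a ∈ j.ker ⊓ N.ker := by
    intro a ha
    refine ⟨?_, hND a⟩
    show j (D a) = 0
    rw [hjD, (AddMonoidHom.mem_ker.1 ha), map_zero]
  have hrk := rank_le N j.ker (j.ker ⊓ D.ker) hNE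
  have hA := relIndex_nsmul l hp (j.ker ⊓ D.ker) (fun a ha => htor a ha.1)
  have hB := relIndex_nsmul l hp (j.ker ⊓ N.ker) (fun a ha => htor a ha.1)
  have eA : (j.ker ⊓ D.ker).map (nsmulAddMonoidHom (α := A) l) = (j.ker ⊓ D.ker).map N := by
    have : ∀ a ∈ j.ker ⊓ D.ker, N a = l • a := by
      intro a ha
      have h1 : σ a = a := by
        have h2 : D a = 0 := ha.2
        rw [eD] at h2; exact sub_eq_zero.1 h2
      rw [hN]
      simp [Function.iterate_fixed h1]
    ext x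
    constructor
    · rintro ⟨a, ha, rfl⟩; exact ⟨a, ha, this a ha⟩
    · rintro ⟨a, ha, rfl⟩; exact ⟨a, ha, (this a ha).symm⟩
  rw [eA] at hA
  have hσB : ∀ b ∈ j.ker ⊓ N.ker, σ b ∈ j.ker ⊓ N.ker := by
    intro b hb
    have e : σ b = D b + b := by rw [eD]; simp
    rw [e]; exact add_mem (hDE b hb.1) hb
  have hA2 := relIndex_mul_relIndex ((j.ker ⊓ D.ker).map N) (j.ker.map N) (j.ker ⊓ D.ker)
    (map_mono inf_le_left) (by rintro _ ⟨a, ha, rfl⟩; exact hNE a ha)
  have hB2 := relIndex_mul_relIndex ((j.ker ⊓ N.ker).map D) (j.ker.map D) (j.ker ⊓ N.ker)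
    (map_mono inf_le_left) (by rintro _ ⟨a, ha, rfl⟩; exact hDE a ha)
  have hl1 : (j.ker ⊓ N.ker).map (nsmulAddMonoidHom (α := A) l) ≤ (j.ker ⊓ N.ker).map D := by
    rintro _ ⟨b, hb, rfl⟩
    have h1 : ∑ i ∈ Finset.range l, (σ^[i] b - b) ∈ (j.ker ⊓ N.ker).map D := by
      refine sum_mem (fun i _ => ?_)
      rw [hD]; exact (iter_sub σ _ hσB i b hb).2
    have h2 : N b = 0 := hb.2
    rw [Finset.sum_sub_distrib, ← hN, h2] at h1
    simpa using neg_mem h1
  have hl2 : (AddSubgroup.map D)^[l - 1] (j.ker ⊓ N.ker) ≤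
      (j.ker ⊓ N.ker).map (nsmulAddMonoidHom (α := A) l) := by
    intro x hx
    obtain ⟨b, hb, rfl⟩ := mem_iter D _ _ x hx
    rw [hD]
    exact pow_mem l σ _ hσB b hb (by rw [← hN]; exact hb.2)
  have hd1 := relIndex_dvd_of_le_left (j.ker ⊓ N.ker) hl1
  have hd2 := (relIndex_dvd_of_le_left (j.ker ⊓ N.ker) hl2).trans
    (iter_dvd D (j.ker ⊓ N.ker) (by rintro _ ⟨a, ha, rfl⟩; exact hDE a ha.1) (l - 1))
  rw [hB] at hd1 hd2
  rw [hA, hmid] at hA2
  generalize ((j.ker ⊓ N.ker).map D).relIndex (j.ker ⊓ N.ker) = t at hB2 hd1 hd2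
  generalize ((j.ker ⊓ N.ker).map D).relIndex (j.ker.map D) = m at hA2 hB2
  generalize (j.ker.map D).relIndex (j.ker ⊓ N.ker) = h1 at hB2 core
  generalize (j.ker.map N).relIndex (j.ker ⊓ D.ker) = h0 at hA2 core
  generalize Module.finrank ℤ ↥(j.ker ⊓ D.ker) = r0 at hA2 hrank hrk
  generalize Module.finrank ℤ ↥(j.ker ⊓ N.ker) = rB at hd1 hd2 hrk
  generalize Module.finrank ℤ j.ker = r at hrank hrk
  have hl0 : l ≠ 0 := hp.ne_zero
  have h00 : h0 ≠ 0 := by
    rintro rfl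
    exact pow_ne_zero r0 hl0 (by rw [← hA2, mul_zero])
  have ht0 : t ≠ 0 := by
    rintro rfl
    exact pow_ne_zero rB hl0 (Nat.eq_zero_of_zero_dvd hd1)
  have ht : t ≤ l ^ r0 := by rw [← hA2, ← hB2]; exact Nat.mul_le_mul_left _ (core h00)
  have h5 : l ^ rB ≤ l ^ (r0 * (l - 1)) := by
    rw [pow_mul]
    exact (Nat.le_of_dvd (Nat.pos_of_ne_zero (pow_ne_zero _ ht0)) hd2).trans
      (Nat.pow_le_pow_left ht _)
  have h6 := (Nat.pow_le_pow_iff_right hp.one_lt).1 h5
  obtain ⟨k, rfl⟩ : ∃ k, l = k + 2 := ⟨l - 2, by have := hp.two_le; omega⟩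
  have e : k + 2 - 1 = k + 1 := rfl
  rw [e] at h6
  nlinarith

end Pool.Agent.MP_14ad9d_nt.Full
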