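import Pool.Agent.MP_14ad9d_nt.Full.WA
import Pool.Agent.MP_14ad9d_nt.Full.Herb

set_option autoImplicit false

open NumberField IsDedekindDomain nonZeroDivisors

namespace Pool.Agent.MP_14ad9d_nt.Full.FIAux

section Alg

/-- finiteness of a quotient from a finite invariant -/
theorem fin_of_fun {I β : Type} [AddCommGroup I] [Finite β] (P : AddSubgroup I) (F : I → β)
    (h : ∀ x y, F x = F y → x - y ∈ P) : Finite (I ⧸ P) := by
  refine Finite.of_injective (fun q : I ⧸ P => F q.out) fun q q' e => ?_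
  rw [← q.out_eq', ← q'.out_eq', QuotientAddGroup.eq_iff_sub_mem]
  exact h _ _ e

theorem fin_prod {A D β : Type} [AddCommGroup A] [AddCommGroup D] [Finite β] (S : AddSubgroup A)
    (f : A →+ D) (F : D → β) (h : ∀ d d', F d = F d' → ∃ y ∈ S, f y = d - d') :
    Finite (((A ⧸ S) × D) ⧸ ((QuotientAddGroup.mk' S).prod f).range) := by
  choose o ho using QuotientAddGroup.mk_surjective (s := S)
  refine fin_of_fun _ (fun x : (A ⧸ S) × D => F (x.2 - f (o x.1))) fun x x' e => ?_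
  obtain ⟨y, hy, hf⟩ := h _ _ e
  refine ⟨o x.1 - o x'.1 + y, Prod.ext ?_ ?_⟩
  · simp [ho, (QuotientAddGroup.eq_zero_iff y).2 hy]
  · simp only [AddMonoidHom.prod_apply, map_add, map_sub, hf, Prod.snd_sub, Prod.snd_add]
    abel

/-- images of invariant elements plus norms -/
def good (l : ℕ) {A D : Type} [AddCommGroup A] [AddCommGroup D] (S : AddSubgroup A) (σ : A →+ A)
    (τ : D →+ D) (f : A →+ D) : AddSubgroup D where
  carrier := {x | ∃ a ∈ S, ∃ y : D, σ a = a ∧ x = f a + ∑ i ∈ Finset.range l, τ^[i] y}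
  add_mem' := by
    rintro _ _ ⟨a, hS, y, ha, rfl⟩ ⟨a', hS', y', ha', rfl⟩
    refine ⟨a + a', add_mem hS hS', y + y', by rw [map_add, ha, ha'], ?_⟩
    simp only [map_add, iterate_map_add, Finset.sum_add_distrib]
    abel
  zero_mem' := ⟨0, zero_mem _, 0, map_zero _, by simp [iterate_map_zero]⟩
  neg_mem' := by
    rintro _ ⟨a, hS, y, ha, rfl⟩
    refine ⟨-a, neg_mem hS, -y, by rw [map_neg, ha], ?_⟩
    simp only [map_neg, iterate_map_neg, Finset.sum_neg_distrib]
    abel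

section
variable {l : ℕ} {A D : Type} [AddCommGroup A] [AddCommGroup D] {S : AddSubgroup A} {σ : A →+ A}
  {τ : D →+ D} {f : A →+ D}

theorem good_j {a : A} (hS : a ∈ S) (h : σ a = a) : f a ∈ good l S σ τ f :=
  ⟨a, hS, 0, h, by simp [iterate_map_zero]⟩

theorem good_norm (y : D) : ∑ i ∈ Finset.range l, τ^[i] y ∈ good l S σ τ f :=
  ⟨0, zero_mem _, y, map_zero _, by simp⟩

theorem good_smul {y : D} (h : τ y = y) : l • y ∈ good l S σ τ f := by
  convert good_norm (l := l) (S := S) (σ := σ) (τ := τ) (f := f) y using 1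
  simp [Function.iterate_fixed h]

/-- the Herbrand quotient argument with a modulus -/
theorem herb' [Fact l.Prime] {β : Type} [Finite β] (hS : ∀ a ∈ S, σ a ∈ S)
    (hσ : ∀ a, σ^[l] a = a) (hτ : ∀ x, τ^[l] x = x) (hf : ∀ a, f (σ a) = τ (f a)) (F : D → β)
    (hF : ∀ d d', F d = F d' → ∃ y ∈ S, f y = d - d')
    (h90 : ∀ a, ∑ i ∈ Finset.range l, σ^[i] a = 0 → ∃ b, a = σ b - b)
    (hfin : Module.Finite ℤ ↥(S ⊓ f.ker)) (htor : ∀ a ∈ S, l • a = 0 → a = 0)
    (hrank : Module.finrank ℤ ↥(S ⊓ f.ker) + 1 =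
      l * (Module.finrank ℤ ↥(S ⊓ f.ker ⊓ (σ - AddMonoidHom.id A).ker) + 1))
    (havg : ∀ y, σ y - y ∈ S → ∃ a, σ a = a ∧ a - y ∈ S) :
    ∃ d : D, τ d = d ∧ d ∉ good l S σ τ f := by
  let j : A →+ (A ⧸ S) × D := (QuotientAddGroup.mk' S).prod f
  let q : A ⧸ S →+ A ⧸ S := QuotientAddGroup.map S S σ hS
  have hk : j.ker = S ⊓ f.ker := by
    ext a
    simp [j, Prod.ext_iff]
  have it : ∀ (i : ℕ) (a : A) (d : D), (q.prodMap τ)^[i] ((a : A ⧸ S), d) =
      (((σ^[i] a : A) : A ⧸ S), τ^[i] d) := by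
    intro i a d
    induction i with
    | zero => rfl
    | succ i ih => simp only [Function.iterate_succ_apply', ih]; rfl
  have := fin_prod S f F hF
  rw [← hk] at hfin hrank
  obtain ⟨⟨c, d⟩, hx, hbad⟩ := herb l σ (q.prodMap τ) hσ (by
    rintro ⟨c, d⟩
    obtain ⟨y, rfl⟩ := QuotientAddGroup.mk_surjective c
    rw [it, hσ, hτ]) j (fun a => Prod.ext rfl (hf a)) h90
    (fun a ha => htor a (hk.le ha).1) hrank
  obtain ⟨y, rfl⟩ := QuotientAddGroup.mk_surjective c
  obtain ⟨a, ha, hay⟩ := havg y (QuotientAddGroup.eq_iff_sub_mem.1 (congrArg Prod.fst hx))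
  have hd : τ d = d := congrArg Prod.snd hx
  refine ⟨d - f a, by rw [map_sub, hd, ← hf, ha], ?_⟩
  rintro ⟨a', hS', e, ha', he⟩
  refine hbad ⟨a + a', (((0 : A) : A ⧸ S), e), by rw [map_add, ha, ha'], ?_⟩
  simp only [it]
  refine Prod.ext ?_ ?_
  · simp [j, Prod.fst_sum, iterate_map_zero, (QuotientAddGroup.eq_zero_iff a').2 hS',
      QuotientAddGroup.eq_iff_sub_mem.2 hay]
  · simp only [j, Prod.snd_add, Prod.snd_sum, AddMonoidHom.prod_apply, map_add]
    rw [add_assoc, ← he, add_sub_cancel]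

end

theorem map_eq_finsum {ι R : Type} [Ring R] (f : (ι →₀ ℤ) →+ R) (d : ι →₀ ℤ) :
    f d = ∑ᶠ v, (d v : R) * f (Finsupp.single v 1) := by
  rw [finsum_eq_sum_of_support_subset (s := d.support) _ fun v hv => by
    simpa using fun h : d v = 0 => hv (by simp [h])]
  conv_lhs => rw [← d.sum_single, Finsupp.sum, map_sum]
  refine Finset.sum_congr rfl fun v _ => ?_
  rw [← zsmul_eq_mul, ← map_zsmul, Finsupp.smul_single, smul_eq_mul, mul_one]

theorem exists_dual (l : ℕ) [Fact l.Prime] {V : Type} [AddCommGroup V] [Module (ZMod l) V]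
    {x : V} (hx : x ≠ 0) : ∃ φ : V →+ ZMod l, φ x ≠ 0 := by
  obtain ⟨φ, hφ⟩ := not_forall.1 (mt (Module.forall_dual_apply_eq_zero_iff (ZMod l) x).1 hx)
  exact ⟨φ.toAddMonoidHom, hφ⟩

/-- a proper subgroup that contains all multiples of `l` is killed by a character -/
theorem exists_char (l : ℕ) [Fact l.Prime] {M : Type} [AddCommGroup M] (H : AddSubgroup M)
    (hl : ∀ x, l • x ∈ H) (x : M) (hx : x ∉ H) :
    ∃ f : M →+ ZMod l, f x ≠ 0 ∧ ∀ y ∈ H, f y = 0 := by
  have h0 : (QuotientAddGroup.mk x : M ⧸ H) ≠ 0 := mt (QuotientAddGroup.eq_zero_iff x).1 hx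
  obtain ⟨φ, hφ⟩ := @exists_dual l _ (M ⧸ H) _ (QuotientAddGroup.zmodModule hl) _ h0
  refine ⟨φ.comp (QuotientAddGroup.mk' H), hφ, fun y hy => ?_⟩
  change φ (QuotientAddGroup.mk y) = 0
  rw [(QuotientAddGroup.eq_zero_iff y).2 hy, map_zero]

/-- the rank of a subgroup of finite index -/
theorem rank_of {U A : Type} [AddCommGroup U] [AddCommGroup A] [Module.Finite ℤ U]
    (S : AddSubgroup A) (f : U →+ A) (hf : Function.Injective f) (hS : S ≤ f.range)
    [Finite (U ⧸ S.comap f)] :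
    Module.Finite ℤ S ∧ Module.finrank ℤ S = Module.finrank ℤ U := by
  let N : Submodule ℤ U := AddSubgroup.toIntSubmodule (S.comap f)
  let g : N →ₗ[ℤ] S :=
    ((f.comp (S.comap f).subtype).codRestrict S fun a => a.2).toIntLinearMap
  have hg : Function.Bijective g := by
    refine ⟨fun a b e => Subtype.ext (hf (congrArg Subtype.val e)), fun s => ?_⟩
    obtain ⟨u, hu⟩ := hS s.2
    exact ⟨⟨u, show f u ∈ S from hu ▸ s.2⟩, Subtype.ext hu⟩
  let e := LinearEquiv.ofBijective g hg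
  refine ⟨Module.Finite.equiv e, ?_⟩
  rw [← e.finrank_eq, ← N.finrank_quotient_add_finrank]
  have : Finite (U ⧸ N) := ‹Finite (U ⧸ S.comap f)›
  have h0 : Module.finrank ℤ (U ⧸ N) = 0 := by
    rw [Module.finrank_eq_zero_iff_isTorsion, ← isAddTorsion_iff_isTorsion_int]
    exact isAddTorsion_of_finite
  rw [h0, zero_add]

end Alg

section Val

variable {E : Type} [Field E] {Γ : Type} [LinearOrderedCommGroupWithZero Γ] (v : Valuation E Γ)

theorem val_one_of {x : E} (h : v (x - 1) < 1) : v x = 1 := by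
  simpa using v.map_one_add_of_lt h

theorem val_mul_lt {x y : E} (hx : v (x - 1) < 1) (hy : v (y - 1) < 1) : v (x * y - 1) < 1 := by
  rw [show x * y - 1 = x * (y - 1) + (x - 1) by ring]
  refine v.map_add_lt ?_ hx
  rwa [map_mul, val_one_of v hx, one_mul]

theorem val_div_lt {x y : E} (hy : v y = 1) (h : v (x - y) < 1) : v (x / y - 1) < 1 := by
  have y0 : y ≠ 0 := by rintro rfl; simp at hy
  rwa [div_sub_one y0, map_div₀, hy, div_one]

theorem val_inv_lt {x : E} (hx : v (x - 1) < 1) : v (x⁻¹ - 1) < 1 := by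
  rw [← one_div]
  exact val_div_lt v (val_one_of v hx) (by rwa [v.map_sub_swap])

theorem val_sum_lt (n : ℕ) (x : ℕ → E) (hx : ∀ i, v (x i - 1) < 1) :
    v (∑ i ∈ Finset.range n, x i - n) < 1 := by
  have : ∑ i ∈ Finset.range n, x i - n = ∑ i ∈ Finset.range n, (x i - 1) := by
    simp [Finset.sum_sub_distrib]
  rw [this]
  exact v.map_sum_lt one_ne_zero fun i _ => hx i

end Val

variable {E : Type} [Field E] [NumberField E]

theorem val_eq_one_iff (v : Pr E) {x : E} (hx : x ≠ 0) : v.valuation E x = 1 ↔ ord v x = 0 := by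
  rw [val_eq_exp v hx, WithZero.exp_eq_one, neg_eq_zero]

theorem val_lt_one_iff (v : Pr E) {x : E} (hx : x ≠ 0) : v.valuation E x < 1 ↔ 0 < ord v x := by
  rw [val_eq_exp v hx, ← WithZero.exp_zero, WithZero.exp_lt_exp, neg_lt_zero]

theorem ord_div (v : Pr E) {x y : E} (hx : x ≠ 0) (hy : y ≠ 0) :
    ord v (x / y) = ord v x - ord v y := by
  rw [div_eq_mul_inv, ord_mul v hx (inv_ne_zero hy), ord_inv, sub_eq_add_neg]

theorem count_span (v : Pr E) {x : E} (hx : x ≠ 0) :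
    FractionalIdeal.count E v (FractionalIdeal.spanSingleton (𝓞 E)⁰ x) = ord v x := by
  have key : ∀ a : 𝓞 E, a ≠ 0 →
      FractionalIdeal.count E v (FractionalIdeal.spanSingleton (𝓞 E)⁰ (a : E)) = ord v (a : E) := by
    intro a ha
    rw [ord, show v.valuation E (a : E) = _ from v.valuation_of_algebraMap a,
      v.intValuation_if_neg ha, WithZero.log_exp, neg_neg,
      ← FractionalIdeal.count_coe E v (by simpa using ha), FractionalIdeal.coeIdeal_span_singleton]
  obtain ⟨a, b, hb, rfl⟩ := IsFractionRing.div_surjective (A := 𝓞 E) x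
  have hb' := nonZeroDivisors.ne_zero hb
  have ha : a ≠ 0 := by rintro rfl; simp at hx
  have a0 : (a : E) ≠ 0 := by simpa using ha
  have b0 : (b : E) ≠ 0 := by simpa using hb'
  change FractionalIdeal.count E v (FractionalIdeal.spanSingleton (𝓞 E)⁰ ((a : E) / b)) =
    ord v ((a : E) / b)
  rw [ord_div v a0 b0, div_eq_mul_inv, ← FractionalIdeal.spanSingleton_mul_spanSingleton,
    FractionalIdeal.count_mul E v (FractionalIdeal.spanSingleton_ne_zero_iff.2 a0)
      (FractionalIdeal.spanSingleton_ne_zero_iff.2 (inv_ne_zero b0)),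
    ← FractionalIdeal.spanSingleton_inv, FractionalIdeal.count_inv, key a ha, key b hb',
    sub_eq_add_neg]

/-- finiteness of the class group, for divisors -/
theorem cls_fin : ∃ cl : (Pr E →₀ ℤ) → ClassGroup (𝓞 E), ∀ d d', cl d = cl d' →
    ∃ y : E, y ≠ 0 ∧ ∀ w, d w - d' w = ord w y := by
  let P : (Pr E →₀ ℤ) → FractionalIdeal (𝓞 E)⁰ E := fun d =>
    d.prod (HeightOneSpectrum.asIdeal · ^ ·)
  have hP : ∀ d, P d ≠ 0 := fun d => Finset.prod_ne_zero_iff.2 fun v _ =>
    zpow_ne_zero _ (FractionalIdeal.coeIdeal_ne_zero.mpr v.ne_bot)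
  refine ⟨fun d => ClassGroup.mk E (Units.mk0 (P d) (hP d)), fun d d' h => ?_⟩
  have h1 : ClassGroup.mk E (Units.mk0 (P d) (hP d) * (Units.mk0 (P d') (hP d'))⁻¹) = 1 := by
    rw [map_mul, map_inv, show ClassGroup.mk E (Units.mk0 (P d) (hP d)) = _ from h, mul_inv_cancel]
  obtain ⟨y, hy⟩ := (FractionalIdeal.isPrincipal_iff _).1 (ClassGroup.mk_eq_one_iff.1 h1)
  have hy' : P d * (P d')⁻¹ = FractionalIdeal.spanSingleton (𝓞 E)⁰ y := by
    rw [← hy]; simp
  have y0 : y ≠ 0 := FractionalIdeal.spanSingleton_ne_zero_iff.1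
    (hy' ▸ mul_ne_zero (hP d) (inv_ne_zero (hP d')))
  refine ⟨y, y0, fun w => ?_⟩
  rw [← count_span w y0, ← hy', FractionalIdeal.count_mul E w (hP d) (inv_ne_zero (hP d')),
    FractionalIdeal.count_inv, FractionalIdeal.count_finsuppProd,
    FractionalIdeal.count_finsuppProd, sub_eq_add_neg]

/-- finiteness of the residue rings -/
theorem res_fin (T : Set (Pr E)) (hT : T.Finite) : ∃ (β : Type) (_ : Finite β) (F : E → β),
    ∀ y y', (∀ w ∈ T, w.valuation E y = 1) → (∀ w ∈ T, w.valuation E y' = 1) → F y = F y' →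
      ∀ w ∈ T, w.valuation E (y / y' - 1) < 1 := by
  have h : ∀ (w : Pr E) (y : E), ∃ a : 𝓞 E, w.valuation E y = 1 → w.valuation E (a - y) < 1 := by
    intro w y
    by_cases h : w.valuation E y = 1
    · obtain ⟨a, ha⟩ := w.exists_valuation_sub_lt_of_integer h.le 1
      exact ⟨a, fun _ => ha⟩
    · exact ⟨0, fun h' => absurd h' h⟩
  choose a ha using h
  have : Finite T := hT
  have : ∀ w : T, Finite (𝓞 E ⧸ w.1.asIdeal) := fun w =>
    Ideal.finiteQuotientOfFreeOfNeBot _ w.1.ne_bot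
  refine ⟨∀ w : T, 𝓞 E ⧸ w.1.asIdeal, inferInstance,
    fun y w => Ideal.Quotient.mk _ (a w y), fun y y' hy hy' e w hw => ?_⟩
  have h1 : a w y - a w y' ∈ w.asIdeal := Ideal.Quotient.eq.1 (congrFun e ⟨w, hw⟩)
  have h2 : w.valuation E ((a w y : E) - a w y') < 1 := by
    rw [← show ((a w y - a w y' : 𝓞 E) : E) = (a w y : E) - a w y' from map_sub _ _ _]
    exact (w.valuation_lt_one_iff_mem (K := E) _).2 h1
  refine val_div_lt _ (hy' w hw) ?_
  rw [show y - y' = ((a w y : E) - a w y') + ((a w y' : E) - y') - ((a w y : E) - y) by ring]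
  exact Valuation.map_sub_lt _ (Valuation.map_add_lt _ h2 (ha w y' (hy' w hw))) (ha w y (hy w hw))

/-- finiteness of the ray class group -/
theorem ray_fin (T : Set (Pr E)) (hT : T.Finite) : ∃ (β : Type) (_ : Finite β)
    (F : ({w // w ∉ T} →₀ ℤ) → β), ∀ d d', F d = F d' → ∃ y : E, y ≠ 0 ∧
      (∀ w ∈ T, w.valuation E (y - 1) < 1) ∧ ∀ w, d w - d' w = ord w.1 y := by
  classical
  obtain ⟨cl, hcl⟩ := cls_fin (E := E)
  obtain ⟨β, hβ, r, hr⟩ := res_fin T hT
  let c : ({w // w ∉ T} →₀ ℤ) → ClassGroup (𝓞 E) := fun d => cl d.extendDomain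
  have h : ∀ d, ∃ y : E, y ≠ 0 ∧ (∀ w ∈ T, w.valuation E y = 1) ∧
      ∀ w, d w - Function.invFun c (c d) w = ord w.1 y := by
    intro d
    obtain ⟨y, y0, hy⟩ := hcl _ _ (Function.invFun_eq (f := c) ⟨d, rfl⟩).symm
    refine ⟨y, y0, fun w hw => ?_, fun w => ?_⟩
    · rw [val_eq_one_iff w y0, ← hy]
      simp [Finsupp.extendDomain, hw]
    · rw [← hy]
      simp [Finsupp.extendDomain, w.2]
  choose y y0 y1 hy using h
  refine ⟨ClassGroup (𝓞 E) × β, inferInstance, fun d => (c d, r (y d)), fun d d' e => ?_⟩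
  refine ⟨y d / y d', div_ne_zero (y0 d) (y0 d'),
    hr _ _ (y1 d) (y1 d') (congrArg Prod.snd e), fun w => ?_⟩
  rw [ord_div _ (y0 d) (y0 d'), ← hy, ← hy, show c d = c d' from congrArg Prod.fst e]
  ring

/-- units congruent to one have full rank -/
theorem rank_units {A : Type} [AddCommGroup A] (T : Set (Pr E)) (hT : T.Finite)
    (S : AddSubgroup A) (f : Additive (𝓞 E)ˣ →+ A) (hf : Function.Injective f)
    (hS : S ≤ f.range) (h : ∀ u : (𝓞 E)ˣ,
      (∀ w ∈ T, w.valuation E (((u : 𝓞 E) : E) - 1) < 1) → f (Additive.ofMul u) ∈ S) :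
    Module.Finite ℤ S ∧ Module.finrank ℤ S = Units.rank E := by
  obtain ⟨β, hβ, r, hr⟩ := res_fin T hT
  have h1 : ∀ (u : (𝓞 E)ˣ) (w : Pr E), w.valuation E ((u : 𝓞 E) : E) = 1 := fun u w =>
    w.valuation_eq_one_iff_notMem.2 fun hu =>
      w.isPrime.ne_top (Ideal.eq_top_of_isUnit_mem _ hu u.isUnit)
  have := fin_of_fun (S.comap f) (fun u => r (((Additive.toMul u : (𝓞 E)ˣ) : 𝓞 E) : E))
    fun x y e => h (x.toMul / y.toMul) fun w hw => by
      convert hr _ _ (fun w _ => h1 _ w) (fun w _ => h1 _ w) e w hw using 3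
      rw [div_eq_mul_inv, div_eq_mul_inv, Units.val_mul]
      simp
  rw [← Units.finrank_eq]
  exact rank_of S f hf hS

theorem rank_complex [IsTotallyComplex E] : 2 * (Units.rank E + 1) = Module.finrank ℚ E := by
  have h := InfinitePlace.card_eq_nrRealPlaces_add_nrComplexPlaces E
  have h1 : 0 < Fintype.card (InfinitePlace E) := Fintype.card_pos
  rw [IsTotallyComplex.finrank, Units.rank, Nat.sub_add_cancel h1, h,
    IsTotallyComplex.nrRealPlaces_eq_zero, zero_add]

end Pool.Agent.MP_14ad9d_nt.Full.FIAux
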