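import Pool.Agent.MP_14ad9d_nt.Full.Sym2
import Pool.Agent.MP_14ad9d_nt.Full.FI1

set_option autoImplicit false
set_option linter.unusedSectionVars false

open NumberField IsDedekindDomain Pointwise

namespace Pool.Agent.MP_14ad9d_nt.Full.FIAux

variable {K L : Type} [Field K] [NumberField K] [Field L] [NumberField L] [Algebra K L]

variable (K) in
/-- the prime below -/
noncomputable def un (w : Pr L) : Pr K := w.under (𝓞 K)

theorem over_un (w : Pr L) : w.asIdeal.LiesOver (un K w).asIdeal := ⟨rfl⟩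

theorem un_eq {v : Pr K} {w : Pr L} (h : w.asIdeal.LiesOver v.asIdeal) : un K w = v :=
  HeightOneSpectrum.ext h.over.symm

theorem un_surj (v : Pr K) : ∃ w : Pr L, un K w = v :=
  (exists_over (E' := L) v).imp fun _ h => un_eq h

theorem ord_un (w : Pr L) (x : K) : ∃ e : ℤ, 0 < e ∧ ord w (algebraMap K L x) = e * ord (un K w) x :=
  ⟨_, by exact_mod_cast w.asIdeal.ramificationIdx_pos (𝓞 K), ord_over (over_un w) x⟩

theorem val_un (w : Pr L) {x : K} (h : (un K w).valuation K (x - 1) < 1) :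
    w.valuation L (algebraMap K L x - 1) < 1 := by
  rw [← map_one (algebraMap K L), ← map_sub]
  rcases eq_or_ne (x - 1) 0 with h0 | h0
  · simp [h0]
  obtain ⟨e, he, h1⟩ := ord_un w (x - 1)
  rw [val_lt_one_iff _ ((map_ne_zero _).2 h0), h1]
  exact mul_pos he ((val_lt_one_iff _ h0).1 h)

/-- the action on primes -/
noncomputable def ac (g : L ≃ₐ[K] L) (w : Pr L) : Pr L := act (g : L ≃+* L) w

omit [NumberField K] [NumberField L] in
theorem ac_one (w : Pr L) : ac (1 : L ≃ₐ[K] L) w = w := by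
  ext a
  exact Iff.rfl

omit [NumberField K] [NumberField L] in
theorem ac_mul (g h : L ≃ₐ[K] L) (w : Pr L) : ac (g * h) w = ac g (ac h w) := by
  ext a
  exact Iff.rfl

omit [NumberField K] [NumberField L] in
theorem ac_inv (g : L ≃ₐ[K] L) (w : Pr L) : ac g (ac g⁻¹ w) = w := by
  rw [← ac_mul, mul_inv_cancel, ac_one]

omit [NumberField K] [NumberField L] in
theorem ac_inj (g : L ≃ₐ[K] L) : Function.Injective (ac g) := fun w w' h => by
  rw [← ac_inv g⁻¹ w, ← ac_inv g⁻¹ w', inv_inv, h]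

theorem un_ac (g : L ≃ₐ[K] L) (w : Pr L) : un K (ac g w) = un K w := by
  ext a
  change (RingOfIntegers.mapRingEquiv (g : L ≃+* L)).symm (algebraMap (𝓞 K) (𝓞 L) a) ∈ w.asIdeal ↔
    algebraMap (𝓞 K) (𝓞 L) a ∈ w.asIdeal
  have : (RingOfIntegers.mapRingEquiv (g : L ≃+* L)).symm (algebraMap (𝓞 K) (𝓞 L) a) =
      algebraMap (𝓞 K) (𝓞 L) a := by
    ext
    exact g.symm.commutes (a : K)
  rw [this]

theorem ac_trans [IsGalois K L] {w w' : Pr L} (h : un K w = un K w') :
    ∃ g : L ≃ₐ[K] L, ac g w = w' := by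
  have h1 := over_un (K := K) w
  have h2 : w'.asIdeal.LiesOver (un K w).asIdeal := h ▸ over_un w'
  have := w.isPrime
  have := w'.isPrime
  obtain ⟨g, hg⟩ := Ideal.exists_smul_eq_of_isGaloisGroup (un K w).asIdeal w.asIdeal w'.asIdeal
    (L ≃ₐ[K] L)
  refine ⟨g, ?_⟩
  ext a
  rw [← hg, Ideal.mem_pointwise_smul_iff_inv_smul_mem]
  exact Iff.rfl

omit [NumberField K] in
theorem val_ac (g : L ≃ₐ[K] L) (w : Pr L) (x : L) :
    (ac g w).valuation L (g x) = w.valuation L x := val_act (g : L ≃+* L) w x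

omit [NumberField K] in
theorem ord_ac (g : L ≃ₐ[K] L) (w : Pr L) (x : L) : ord (ac g w) (g x) = ord w x :=
  ord_act (g : L ≃+* L) w x

variable (L) in
/-- the primes above the modulus -/
def TT (m : Finset (Pr K)) : Set (Pr L) := {w | un K w ∈ m}

theorem fin_un [IsGalois K L] {s : Set (Pr K)} (hs : s.Finite) : (un K ⁻¹' s : Set (Pr L)).Finite := by
  refine hs.preimage' fun v _ => ?_
  obtain ⟨w, rfl⟩ := un_surj (L := L) v
  exact (Set.finite_range fun g : L ≃ₐ[K] L => ac g w).subset fun w' hw' => ac_trans hw'.symm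

theorem fin_TT [IsGalois K L] (m : Finset (Pr K)) : (TT L m).Finite := fin_un m.finite_toSet

variable (L) in
/-- the primes not above the modulus -/
abbrev W (m : Finset (Pr K)) : Type := {w : Pr L // w ∉ TT L m}

/-- the underlying field element -/
def uv (x : Additive Lˣ) : L := (Additive.toMul x : Lˣ)

/-- a nonzero element in the additive group -/
def mk (x : L) (h : x ≠ 0) : Additive Lˣ := Additive.ofMul (Units.mk0 x h)

section
omit [NumberField L]

theorem uv_mk (x : L) (h : x ≠ 0) : uv (mk x h) = x := rfl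

theorem uv_ne (x : Additive Lˣ) : uv x ≠ 0 := Units.ne_zero _

theorem uv_inj {x y : Additive Lˣ} (h : uv x = uv y) : x = y :=
  Additive.toMul.injective (Units.ext h)

theorem uv_zero : uv (0 : Additive Lˣ) = 1 := rfl

theorem uv_add (x y : Additive Lˣ) : uv (x + y) = uv x * uv y := rfl

theorem uv_neg (x : Additive Lˣ) : uv (-x) = (uv x)⁻¹ := by simp [uv]

theorem uv_sub (x y : Additive Lˣ) : uv (x - y) = uv x / uv y := by simp [uv]

theorem uv_nsmul (n : ℕ) (x : Additive Lˣ) : uv (n • x) = uv x ^ n := by simp [uv]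

theorem uv_sum (n : ℕ) (x : ℕ → Additive Lˣ) :
    uv (∑ i ∈ Finset.range n, x i) = ∏ i ∈ Finset.range n, uv (x i) := by simp [uv]

end

variable (L) in
/-- the elements congruent to one at the primes above the modulus -/
def L1 (m : Finset (Pr K)) : AddSubgroup (Additive Lˣ) where
  carrier := {x | ∀ w ∈ TT L m, w.valuation L (uv x - 1) < 1}
  add_mem' hx hy w hw := val_mul_lt _ (hx w hw) (hy w hw)
  zero_mem' w _ := by simp [uv_zero]
  neg_mem' hx w hw := by rw [uv_neg]; exact val_inv_lt _ (hx w hw)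

theorem mem_L1 {m : Finset (Pr K)} {x : Additive Lˣ} :
    x ∈ L1 L m ↔ ∀ w ∈ TT L m, w.valuation L (uv x - 1) < 1 := Iff.rfl

/-- the action on the multiplicative group -/
def sA (g : L ≃ₐ[K] L) : Additive Lˣ →+ Additive Lˣ :=
  MonoidHom.toAdditive (Units.map (g : L →* L))

omit [NumberField K] [NumberField L] in
theorem uv_sA (g : L ≃ₐ[K] L) (x : Additive Lˣ) : uv (sA g x) = g (uv x) := rfl

omit [NumberField K] [NumberField L] in
theorem sA_iter (g : L ≃ₐ[K] L) (i : ℕ) (x : Additive Lˣ) : (sA g)^[i] x = sA (g ^ i) x := by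
  induction i with
  | zero => rfl
  | succ i ih => rw [Function.iterate_succ_apply', ih, pow_succ']; rfl

variable (m : Finset (Pr K))

theorem ac_mem (g : L ≃ₐ[K] L) (w : Pr L) : ac g w ∈ TT L m ↔ w ∈ TT L m := by
  simp only [TT, Set.mem_ofPred_eq, un_ac]

theorem sA_mem (g : L ≃ₐ[K] L) {x : Additive Lˣ} (hx : x ∈ L1 L m) : sA g x ∈ L1 L m := by
  intro w hw
  rw [uv_sA, ← map_one g, ← map_sub, ← ac_inv g w, val_ac]
  exact hx _ ((ac_mem m _ _).2 hw)

/-- the action on primes not above the modulus -/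
noncomputable def aW (g : L ≃ₐ[K] L) (w : W L m) : W L m :=
  ⟨ac g w.1, fun h => w.2 ((ac_mem m g _).1 h)⟩

theorem aW_inj (g : L ≃ₐ[K] L) : Function.Injective (aW m g) := fun _ _ h =>
  Subtype.ext (ac_inj g (congrArg Subtype.val h))

theorem aW_inv (g : L ≃ₐ[K] L) (w : W L m) : aW m g (aW m g⁻¹ w) = w := Subtype.ext (ac_inv g _)

/-- the action on divisors -/
noncomputable def tD (g : L ≃ₐ[K] L) : (W L m →₀ ℤ) →+ (W L m →₀ ℤ) :=
  Finsupp.mapDomain.addMonoidHom (aW m g)

theorem tD_apply (g : L ≃ₐ[K] L) (x : W L m →₀ ℤ) (w : W L m) : tD m g x (aW m g w) = x w :=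
  Finsupp.mapDomain_apply (aW_inj m g) x w

theorem tD_single (g : L ≃ₐ[K] L) (w : W L m) :
    tD m g (Finsupp.single w 1) = Finsupp.single (aW m g w) 1 := Finsupp.mapDomain_single

theorem tD_one (x : W L m →₀ ℤ) : tD m (1 : L ≃ₐ[K] L) x = x := by
  ext w
  rw [← tD_apply m 1 x w, show aW m 1 w = w from Subtype.ext (ac_one _)]

theorem tD_iter (g : L ≃ₐ[K] L) (i : ℕ) (x : W L m →₀ ℤ) : (tD m g)^[i] x = tD m (g ^ i) x := by
  induction i with
  | zero => exact (tD_one m x).symm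
  | succ i ih =>
    have : aW m (g * g ^ i) = aW m g ∘ aW m (g ^ i) := funext fun w => Subtype.ext (ac_mul _ _ _)
    rw [Function.iterate_succ_apply', ih, pow_succ']
    exact (Finsupp.mapDomain_comp.symm.trans (congrArg (Finsupp.mapDomain · x) this.symm))

variable (L) in
/-- the divisor of an element -/
noncomputable def dv : Additive Lˣ →+ (W L m →₀ ℤ) where
  toFun x := Finsupp.ofSupportFinite (fun w => ord w.1 (uv x))
    ((ord_finite (uv x)).preimage Subtype.val_injective.injOn)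
  map_zero' := by ext w; exact ord_one w.1
  map_add' x y := by ext w; exact ord_mul w.1 (uv_ne x) (uv_ne y)

theorem dv_apply (x : Additive Lˣ) (w : W L m) : dv L m x w = ord w.1 (uv x) := rfl

theorem dv_sA (g : L ≃ₐ[K] L) (x : Additive Lˣ) : dv L m (sA g x) = tD m g (dv L m x) := by
  ext w
  rw [← aW_inv m g w, tD_apply, dv_apply, dv_apply]
  exact ord_ac g _ _

theorem mem_ker_dv {x : Additive Lˣ} :
    x ∈ L1 L m ⊓ (dv L m).ker ↔ x ∈ L1 L m ∧ ∀ w : Pr L, ord w (uv x) = 0 := by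
  rw [AddSubgroup.mem_inf, AddMonoidHom.mem_ker]
  refine and_congr_right fun hx => ⟨fun h w => ?_, fun h => Finsupp.ext fun w => h w.1⟩
  by_cases hw : w ∈ TT L m
  · exact (val_eq_one_iff w (uv_ne x)).1 (val_one_of _ (hx w hw))
  · rw [← dv_apply m x ⟨w, hw⟩, h]
    rfl

theorem fin_coker [IsGalois K L] : ∃ (β : Type) (_ : Finite β) (F : (W L m →₀ ℤ) → β),
    ∀ d d', F d = F d' → ∃ y ∈ L1 L m, dv L m y = d - d' := by
  obtain ⟨β, hβ, F, hF⟩ := ray_fin (TT L m) (fin_TT m)
  refine ⟨β, hβ, F, fun d d' e => ?_⟩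
  obtain ⟨y, y0, y1, hy⟩ := hF _ _ e
  exact ⟨mk y y0, y1, Finsupp.ext fun w => (hy w).symm⟩

variable (L) in
/-- extension of divisors -/
noncomputable def ex [IsGalois K L] : (Pr K →₀ ℤ) →+ (W L m →₀ ℤ) where
  toFun d := Finsupp.ofSupportFinite (fun w => d (un K w.1))
    ((fin_un d.hasFiniteSupport).preimage Subtype.val_injective.injOn)
  map_zero' := by ext w; rfl
  map_add' x y := by ext w; rfl

theorem ex_apply [IsGalois K L] (d : Pr K →₀ ℤ) (w : W L m) : ex L m d w = d (un K w.1) := rfl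

theorem tD_ex [IsGalois K L] (g : L ≃ₐ[K] L) (d : Pr K →₀ ℤ) : tD m g (ex L m d) = ex L m d := by
  ext w
  rw [← aW_inv m g w, tD_apply, ex_apply, ex_apply]
  exact congrArg d (un_ac g _).symm

end Pool.Agent.MP_14ad9d_nt.Full.FIAux
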