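import Pool.Agent.MP_14ad9d_nt.Full.Sym2
import Pool.Agent.MP_14ad9d_nt.Full.Herb
import Pool.Agent.MP_14ad9d_nt.Full.FI2

set_option autoImplicit false

open NumberField IsDedekindDomain

namespace Pool.Agent.MP_14ad9d_nt.Full

namespace FIAux

variable {l : ℕ} [Fact l.Prime] {K L : Type} [Field K] [NumberField K] [Field L] [NumberField L]
  [Algebra K L] [IsGalois K L] {σ : L ≃ₐ[K] L} {m : Finset (Pr K)}

omit [Fact l.Prime] in
theorem order_eq (hd : Module.finrank K L = l) (hσ : ∀ τ : L ≃ₐ[K] L, τ ∈ Subgroup.zpowers σ) :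
    orderOf σ = l := by
  rw [orderOf_eq_card_of_forall_mem_zpowers hσ, IsGalois.card_aut_eq_finrank, hd]

omit [IsGalois K L] in
theorem exists_pow (hσ : ∀ τ : L ≃ₐ[K] L, τ ∈ Subgroup.zpowers σ) (g : L ≃ₐ[K] L) :
    ∃ n : ℕ, σ ^ n = g := mem_powers_iff_mem_zpowers.2 (hσ g)

theorem of_fixed (hσ : ∀ τ : L ≃ₐ[K] L, τ ∈ Subgroup.zpowers σ) {x : Additive Lˣ}
    (hx : sA σ x = x) : ∃ a : K, algebraMap K L a = uv x := by
  refine (IsGalois.mem_range_algebraMap_iff_fixed (uv x)).2 fun g => ?_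
  obtain ⟨n, rfl⟩ := exists_pow hσ g
  rw [← uv_sA, ← sA_iter, Function.iterate_fixed hx]

omit [NumberField K] [NumberField L] [IsGalois K L] in
theorem hilbert (ho : orderOf σ = l) (a : Additive Lˣ)
    (ha : ∑ i ∈ Finset.range l, (sA σ)^[i] a = 0) : ∃ b, a = sA σ b - b := by
  have hp : l.Prime := Fact.out
  have e : ∀ i : ℕ, (σ : L ≃+* L) ^ i = ((σ ^ i : L ≃ₐ[K] L) : L ≃+* L) := by
    intro i
    induction i with
    | zero => rfl
    | succ i ih => rw [pow_succ, ih, pow_succ]; rfl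
  obtain ⟨b, b0, hb⟩ := h90 (σ : L ≃+* L) l hp.pos (by rw [e, ← ho, pow_orderOf_eq_one]; rfl)
    (fun i h0 hi h => pow_ne_one_of_lt_orderOf h0.ne' (ho ▸ hi)
      (AlgEquiv.ext fun x => DFunLike.congr_fun ((e i).symm.trans h) x)) (uv a) (by
        have := congrArg uv ha
        rw [uv_sum, uv_zero] at this
        rw [← this]
        exact Finset.prod_congr rfl fun i _ => by rw [e, sA_iter]; rfl)
  refine ⟨mk b b0, uv_inj ?_⟩
  rw [uv_sub, uv_sA, uv_mk, eq_div_iff b0]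
  exact hb.symm

omit [Fact l.Prime] [IsGalois K L] [NumberField K] in
theorem val_l (htm : ∀ v ∈ m, Tm l v) {w : Pr L} (hw : w ∈ TT L m) :
    w.valuation L (l : L) = 1 := by
  have h : Tm l w := by
    intro h
    refine htm _ hw ?_
    change algebraMap (𝓞 K) (𝓞 L) l ∈ w.asIdeal
    rwa [map_natCast]
  have := (w.valuation_eq_one_iff_notMem (K := L)).2 h
  rwa [map_natCast] at this

omit [Fact l.Prime] [IsGalois K L] in
theorem sum_ne (hm : m.Nonempty) (htm : ∀ v ∈ m, Tm l v) (x : ℕ → Additive Lˣ)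
    (hx : ∀ i, x i ∈ L1 L m) : ∑ i ∈ Finset.range l, uv (x i) ≠ 0 := by
  obtain ⟨v, hv⟩ := hm
  obtain ⟨w, rfl⟩ := un_surj (L := L) v
  intro h
  have := val_sum_lt (w.valuation L) l (fun i => uv (x i)) fun i => hx i w hv
  rw [h, zero_sub, Valuation.map_neg, val_l (w := w) htm hv] at this
  exact lt_irrefl _ this

omit [Fact l.Prime] [IsGalois K L] in
theorem no_torsion (hm : m.Nonempty) (htm : ∀ v ∈ m, Tm l v) {a : Additive Lˣ} (ha : a ∈ L1 L m)
    (h : l • a = 0) : a = 0 := by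
  have h1 := sum_ne hm htm (fun i => i • a) fun i => nsmul_mem ha i
  have h2 := congrArg uv h
  simp only [uv_nsmul, uv_zero] at h1 h2
  have h3 := mul_geom_sum (uv a) l
  rw [h2, sub_self, mul_eq_zero, sub_eq_zero] at h3
  exact uv_inj (h3.resolve_right h1)

omit [IsGalois K L] in
/-- averaging an invariant class -/
theorem average (ho : orderOf σ = l) (hm : m.Nonempty) (htm : ∀ v ∈ m, Tm l v) {y : Additive Lˣ}
    (hy : sA σ y - y ∈ L1 L m) : ∃ a, sA σ a = a ∧ a - y ∈ L1 L m := by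
  have hp : l.Prime := Fact.out
  have l0 : (l : L) ≠ 0 := Nat.cast_ne_zero.2 hp.ne_zero
  have h1 : ∀ i : ℕ, sA (σ ^ i) y - y ∈ L1 L m := by
    intro i
    induction i with
    | zero => exact (show sA (σ ^ 0) y = y from rfl).symm ▸ (sub_self y).symm ▸ zero_mem _
    | succ i ih =>
      have := add_mem (sA_mem m σ ih) hy
      rwa [map_sub, sub_add_sub_cancel, ← sA_iter, ← Function.iterate_succ_apply' (sA σ),
        sA_iter] at this
  have h2 := sum_ne hm htm _ h1
  have h3 : ∑ i ∈ Finset.range l, uv (sA (σ ^ i) y - y) =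
      (∑ i ∈ Finset.range l, (σ ^ i) (uv y)) / uv y := by
    simp only [uv_sub, uv_sA, Finset.sum_div]
  have h4 : ∑ i ∈ Finset.range l, (σ ^ i) (uv y) ≠ 0 := fun h => h2 (by rw [h3, h, zero_div])
  refine ⟨mk _ (div_ne_zero h4 l0), uv_inj ?_, fun w hw => ?_⟩
  · rw [uv_sA, uv_mk, map_div₀, map_natCast, map_sum]
    congr 1
    have h := Finset.sum_range_succ' (fun i => (σ ^ i) (uv y)) l
    rw [Finset.sum_range_succ, show σ ^ l = σ ^ 0 by rw [← ho, pow_orderOf_eq_one, pow_zero]] at h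
    rw [add_right_cancel h]
    exact Finset.sum_congr rfl fun i _ => by rw [pow_succ']; rfl
  · rw [uv_sub, uv_mk, div_right_comm, ← h3]
    exact val_div_lt _ (val_l htm hw) (val_sum_lt _ l _ fun i => h1 i w hw)

theorem rank_up (m : Finset (Pr K)) : Module.Finite ℤ ↥(L1 L m ⊓ (dv L m).ker) ∧
    Module.finrank ℤ ↥(L1 L m ⊓ (dv L m).ker) = Units.rank L := by
  let f : Additive (𝓞 L)ˣ →+ Additive Lˣ :=
    MonoidHom.toAdditive (Units.map (algebraMap (𝓞 L) L : 𝓞 L →* L))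
  have hf : ∀ u, uv (f u) = (((Additive.toMul u : (𝓞 L)ˣ) : 𝓞 L) : L) := fun _ => rfl
  refine rank_units (TT L m) (fin_TT m) _ f (fun u u' h => ?_) (fun x hx => ?_) fun u hu => ?_
  · exact Additive.toMul.injective (Units.ext (RingOfIntegers.coe_injective (congrArg uv h)))
  · obtain ⟨u, hu⟩ := exists_unit (uv_ne x) ((mem_ker_dv m).1 hx).2
    exact ⟨Additive.ofMul u, uv_inj hu⟩
  · refine (mem_ker_dv m).2 ⟨hu, fun w => ?_⟩
    exact (ord_eq_zero_iff w u.ne_zero).2 fun h =>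
      w.isPrime.ne_top (Ideal.eq_top_of_isUnit_mem _ h u.isUnit)

theorem rank_down (hσ : ∀ τ : L ≃ₐ[K] L, τ ∈ Subgroup.zpowers σ) (m : Finset (Pr K)) :
    Module.finrank ℤ ↥(L1 L m ⊓ (dv L m).ker ⊓ (sA σ - AddMonoidHom.id (Additive Lˣ)).ker) =
      Units.rank K := by
  let f : Additive (𝓞 K)ˣ →+ Additive Lˣ :=
    MonoidHom.toAdditive (Units.map ((algebraMap K L).comp (algebraMap (𝓞 K) K) : 𝓞 K →* L))
  have hf : ∀ u, uv (f u) = algebraMap K L (((Additive.toMul u : (𝓞 K)ˣ) : 𝓞 K) : K) :=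
    fun _ => rfl
  refine (rank_units (m : Set (Pr K)) m.finite_toSet _ f (fun u u' h => ?_) (fun x hx => ?_)
    fun u hu => AddSubgroup.mem_inf.2 ⟨?_, ?_⟩).2
  · exact Additive.toMul.injective (Units.ext (RingOfIntegers.coe_injective
      ((algebraMap K L).injective (congrArg uv h))))
  · obtain ⟨a, ha⟩ := of_fixed hσ (x := x) (sub_eq_zero.1 hx.2)
    have a0 : a ≠ 0 := by rintro rfl; exact uv_ne x (by rw [← ha, map_zero])
    obtain ⟨u, hu⟩ := exists_unit a0 fun v => by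
      obtain ⟨w, rfl⟩ := un_surj (L := L) v
      obtain ⟨e, he, h1⟩ := ord_un w a
      rw [ha, ((mem_ker_dv m).1 hx.1).2 w] at h1
      exact (mul_eq_zero.1 h1.symm).resolve_left he.ne'
    exact ⟨Additive.ofMul u, uv_inj (by rw [hf, ← ha, ← hu]; rfl)⟩
  · refine (mem_ker_dv m).2 ⟨fun w hw => val_un w (hu _ hw), fun w => ?_⟩
    obtain ⟨e, -, h1⟩ := ord_un w ((u : 𝓞 K) : K)
    refine h1.trans ?_
    rw [(ord_eq_zero_iff _ u.ne_zero).2 fun h =>
      (un K w).isPrime.ne_top (Ideal.eq_top_of_isUnit_mem _ h u.isUnit), mul_zero]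
  · exact sub_eq_zero.2 (uv_inj (σ.commutes _))

/-- an invariant divisor comes from the base field -/
theorem descend (hσ : ∀ τ : L ≃ₐ[K] L, τ ∈ Subgroup.zpowers σ) {x : W L m →₀ ℤ}
    (hx : tD m σ x = x) : ∃ d, ex L m d = x := by
  classical
  choose s hs using un_surj (K := K) (L := L)
  have hW : ∀ v, v ∉ m → s v ∉ TT L m := fun v hv h => hv (hs v ▸ h)
  let d : Pr K → ℤ := fun v => if h : v ∈ m then 0 else x ⟨s v, hW v h⟩
  have hd : (Function.support d).Finite := by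
    refine (x.hasFiniteSupport.image fun w => un K w.1).subset fun v hv => ?_
    by_cases h : v ∈ m
    · simp [d, h] at hv
    · exact ⟨⟨s v, hW v h⟩, by simpa [d, h] using hv, hs v⟩
  refine ⟨Finsupp.ofSupportFinite d hd, Finsupp.ext fun w => ?_⟩
  have hw : un K w.1 ∉ m := w.2
  obtain ⟨g, hg⟩ := ac_trans (hs (un K w.1))
  obtain ⟨n, rfl⟩ := exists_pow hσ g
  have h2 := tD_apply m (σ ^ n) x ⟨s _, hW _ hw⟩
  rw [← tD_iter, Function.iterate_fixed hx,
    show aW m (σ ^ n) ⟨s _, hW _ hw⟩ = w from Subtype.ext hg] at h2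
  rw [h2, ex_apply]
  exact dif_neg hw

/-- the extension of a split prime is a norm -/
theorem split_norm (ho : orderOf σ = l) (hσ : ∀ τ : L ≃ₐ[K] L, τ ∈ Subgroup.zpowers σ)
    (w : W L m) (hw : ac σ w.1 ≠ w.1) : ex L m (Finsupp.single (un K w.1) 1) =
      ∑ i ∈ Finset.range l, (tD m σ)^[i] (Finsupp.single w 1) := by
  classical
  have hp : l.Prime := Fact.out
  have free : ∀ i, 0 < i → i < l → ac (σ ^ i) w.1 ≠ w.1 := by
    intro i h0 hi h
    obtain ⟨k, hk⟩ := exists_pow_eq_self_of_coprime (x := σ) (n := i)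
      (ho ▸ (Nat.coprime_of_lt_prime h0.ne' hi hp).symm)
    have h1 : ∀ k : ℕ, ac ((σ ^ i) ^ k) w.1 = w.1 := fun k => by
      induction k with
      | zero => exact ac_one _
      | succ k ih => rw [pow_succ, ac_mul, h, ih]
    exact hw (hk ▸ h1 k)
  have inj : ∀ i k, i < k → k < l → ac (σ ^ i) w.1 ≠ ac (σ ^ k) w.1 := by
    intro i k hik hk h
    refine free (k - i) (by omega) (by omega) (ac_inj (σ ^ i) ?_)
    rw [← ac_mul, ← pow_add, Nat.add_sub_cancel' hik.le, h]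
  simp only [tD_iter, tD_single]
  ext w'
  rw [Finsupp.finsetSum_apply, ex_apply]
  by_cases h : un K w.1 = un K w'.1
  · obtain ⟨g, hg⟩ := ac_trans h
    obtain ⟨n, rfl⟩ := exists_pow hσ g
    rw [← pow_mod_orderOf, ho] at hg
    have hn := Nat.mod_lt n hp.pos
    rw [Finset.sum_eq_single_of_mem (n % l) (Finset.mem_range.2 hn) fun k hk hne =>
      Finsupp.single_eq_of_ne fun e' => ?_, h, show aW m (σ ^ (n % l)) w = w' from Subtype.ext hg,
      Finsupp.single_eq_same, Finsupp.single_eq_same]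
    have e2 : ac (σ ^ (n % l)) w.1 = ac (σ ^ k) w.1 := hg.trans (congrArg Subtype.val e')
    rcases lt_or_gt_of_ne hne with h' | h'
    · exact inj _ _ h' hn e2.symm
    · exact inj _ _ h' (Finset.mem_range.1 hk) e2
  · rw [Finsupp.single_eq_of_ne (Ne.symm h)]
    refine (Finset.sum_eq_zero fun i _ => Finsupp.single_eq_of_ne fun e' => h ?_).symm
    rw [e']
    exact (un_ac _ _).symm

end FIAux

open FIAux in
/-- the first inequality for a cyclic extension of prime degree, with tame modulus -/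
theorem fi {l : ℕ} [Fact l.Prime] {K L : Type} [Field K] [NumberField K] [IsTotallyComplex K]
    [Field L] [NumberField L] [Algebra K L] [IsGalois K L] (hd : Module.finrank K L = l)
    (σ : L ≃ₐ[K] L) (hσ : ∀ τ : L ≃ₐ[K] L, τ ∈ Subgroup.zpowers σ) (m : Finset (Pr K))
    (hm : m.Nonempty) (htm : ∀ v ∈ m, Tm l v)
    (hur : ∀ v : Pr K, v ∉ m → ∀ w : Pr L, w.asIdeal.LiesOver v.asIdeal →
      w.asIdeal.ramificationIdx (𝓞 K) = 1) :
    ∃ χ : Pr K → ZMod l, (∃ v, v ∉ m ∧ χ v ≠ 0) ∧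
      (∀ v : Pr K, v ∉ m → ∀ w : Pr L, w.asIdeal.LiesOver v.asIdeal →
        act (σ : L ≃+* L) w ≠ w → χ v = 0) ∧
      ∀ α : K, α ≠ 0 → (∀ v ∈ m, v.valuation K (α - 1) < 1) →
        ∑ᶠ v : Pr K, (ord v α : ZMod l) * χ v = 0 := by
  classical
  have ho := order_eq hd hσ
  have hl : σ ^ l = 1 := ho ▸ pow_orderOf_eq_one σ
  have := isTotallyComplex_of_algebra K L
  obtain ⟨β, hβ, F, hF⟩ := fin_coker (L := L) m
  obtain ⟨d, hx, hbad⟩ := herb' (l := l) (fun a => sA_mem m σ)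
    (fun a => by rw [sA_iter, hl]; rfl) (fun x => by rw [tD_iter, hl, tD_one]) (dv_sA m σ) F hF
    (hilbert ho) (rank_up m).1 (fun a => no_torsion hm htm) (by
      have h1 := rank_complex (E := K)
      have h2 := rank_complex (E := L)
      rw [← Module.finrank_mul_finrank ℚ K L, hd, ← h1] at h2
      rw [(rank_up m).2, rank_down hσ]
      nlinarith) fun y => average ho hm htm
  obtain ⟨d₀, rfl⟩ := descend hσ hx
  obtain ⟨f, hf, hf0⟩ := exists_char l ((good l (L1 L m) (sA σ) (tD m σ) (dv L m)).comap (ex L m))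
    (fun x => by rw [AddSubgroup.mem_comap, map_nsmul]; exact good_smul (tD_ex m σ x)) d₀ hbad
  refine ⟨fun v => f (Finsupp.single v 1), ?_, fun v hv w hw hσw => hf0 _ ?_, fun α α0 hα => ?_⟩
  · by_contra h
    refine hf ?_
    rw [map_eq_finsum]
    refine finsum_eq_zero_of_forall_eq_zero fun v => mul_eq_zero_of_right _ ?_
    by_cases hv : v ∈ m
    · refine hf0 _ ?_
      have : ex L m (Finsupp.single v 1) = 0 := Finsupp.ext fun w =>
        Finsupp.single_eq_of_ne fun e => w.2 (show un K w.1 ∈ m from e ▸ hv)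
      rw [AddSubgroup.mem_comap, this]
      exact zero_mem _
    · exact not_not.1 fun h' => h ⟨v, hv, h'⟩
  · obtain rfl := un_eq hw
    rw [AddSubgroup.mem_comap, split_norm ho hσ ⟨w, hv⟩ hσw]
    exact good_norm _
  · let dα : Pr K →₀ ℤ := Finsupp.ofSupportFinite (fun v => ord v α) (ord_finite α)
    refine (map_eq_finsum f dα).symm.trans (hf0 _ ?_)
    have α1 : algebraMap K L α ≠ 0 := (map_ne_zero _).2 α0
    have : ex L m dα = dv L m (mk _ α1) := by
      ext w
      rw [dv_apply, uv_mk, ord_over (over_un w.1), hur _ w.2 _ (over_un w.1), Nat.cast_one, one_mul]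
      rfl
    rw [AddSubgroup.mem_comap, this]
    exact good_j (fun w hw => val_un w (hα _ hw)) (uv_inj (σ.commutes α))

end Pool.Agent.MP_14ad9d_nt.Full
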