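import Pool.Agent.MP_14ad9d_nt.Full.Sym1

set_option autoImplicit false

open NumberField IsDedekindDomain

namespace Pool.Agent.MP_14ad9d_nt.Full.GaussAux

/-- the `l`-th power of the Gauss sum -/
noncomputable def mu (l : ℕ) {p : ℕ} [Fact p.Prime] {R : Type} [CommRing R]
    (χ : MulChar (ZMod p) R) : R :=
  χ (-1) * p * ∏ i ∈ Finset.Ico 1 (l - 1), jacobiSum χ (χ ^ i)

theorem exists_gauss {l p : ℕ} [Fact l.Prime] [Fact p.Prime] {R F : Type} [CommRing R] [Field F]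
    [IsAlgClosed F] (χ : MulChar (ZMod p) R) (hχ : χ ^ l = 1) (f : R →+* F) (hp : (p : F) ≠ 0)
    (h1 : χ.ringHomComp f ≠ 1) : ∃ g : F, g ≠ 0 ∧ g ^ l = f (mu l χ) ∧
      ∀ (c n : ℕ) [ExpChar F c], l ∣ c ^ n - 1 → ((c ^ n : ℕ) : ZMod p) ≠ 0 →
        f (χ (c ^ n : ℕ)) * g ^ c ^ n = g := by
  have hl : l.Prime := Fact.out
  have : NeZero (p : F) := ⟨hp⟩
  obtain ⟨ω, hω⟩ := HasEnoughRootsOfUnity.exists_primitiveRoot F p
  have hψ := AddChar.zmodChar_primitive_of_primitive_root p hω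
  set ψ := AddChar.zmodChar p ((IsPrimitiveRoot.iff_def ω p).mp hω).left
  have h2 : χ.ringHomComp f ^ l = 1 := by
    rw [MulChar.ringHomComp_pow, hχ, MulChar.ringHomComp_one]
  have h3 : orderOf (χ.ringHomComp f) = l := orderOf_eq_prime h2 h1
  refine ⟨gaussSum (χ.ringHomComp f) ψ,
    gaussSum_ne_zero_of_nontrivial (by rwa [ZMod.card]) h1 hψ, ?_, fun c n _ hc hn => ?_⟩
  · have := gaussSum_pow_eq_prod_jacobiSum (χ := χ.ringHomComp f) (h3 ▸ hl.two_le) hψ
    rw [h3, ZMod.card] at this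
    rw [this, mu, map_mul, map_mul, map_prod, map_natCast]
    simp only [MulChar.ringHomComp_pow, jacobiSum_ringHomComp]
    rfl
  · have h4 := gaussSum_mulShift (χ.ringHomComp f) ψ (Units.mk0 _ hn)
    have hc0 : c ^ n ≠ 0 := fun h => hn (by rw [h, Nat.cast_zero])
    have h5 : χ.ringHomComp f ^ c ^ n = χ.ringHomComp f := by
      obtain ⟨m, hm⟩ := hc
      rw [show c ^ n = l * m + 1 by omega, pow_succ, pow_mul, h2, one_pow, one_mul]
    refine Eq.trans ?_ h4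
    congr 1
    rw [gaussSum, gaussSum, sum_pow_char_pow]
    refine Finset.sum_congr rfl fun a _ => ?_
    rw [mul_pow, ← MulChar.pow_apply' _ hc0, h5, Units.val_mk0, ← AddChar.pow_mulShift,
      AddChar.pow_apply]

variable {l : ℕ} [Fact l.Prime] {K : Type} [Field K] [NumberField K] {ζ : K}

theorem nat_mem_iff {r : Pr K} (h1 : Deg1 r) (n : ℕ) :
    (n : 𝓞 K) ∈ r.asIdeal ↔ Ideal.absNorm r.asIdeal ∣ n := by
  refine ⟨fun h => ?_, fun ⟨m, hm⟩ => ?_⟩
  · by_contra hn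
    have hc := (Nat.Prime.coprime_iff_not_dvd h1).2 hn
    obtain ⟨a, b, hab⟩ := Nat.isCoprime_iff_coprime.2 hc
    refine r.isPrime.ne_top ((Ideal.eq_top_iff_one _).2 ?_)
    have : (1 : 𝓞 K) = a * (Ideal.absNorm r.asIdeal : ℕ) + b * n := by
      exact_mod_cast congrArg (Int.cast : ℤ → 𝓞 K) hab.symm
    rw [this]
    exact add_mem (Ideal.mul_mem_left _ _ (Ideal.absNorm_mem _)) (Ideal.mul_mem_left _ _ h)
  · rw [hm, Nat.cast_mul]
    exact Ideal.mul_mem_right _ _ (Ideal.absNorm_mem _)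

theorem exists_char (hζ : IsPrimitiveRoot ζ l) {r : Pr K} (hr : Tm l r) (h1 : Deg1 r) {p : ℕ}
    (hp : Ideal.absNorm r.asIdeal = p) {z : 𝓞 K} (hz : z ^ l = 1) :
    ∃ χ : MulChar (ZMod p) (𝓞 K), ∀ n : ℕ, (n : ZMod p) ≠ 0 → χ n = z ^ (chi l ζ r n).val := by
  classical
  have hpp : p.Prime := hp ▸ h1
  have : Fact p.Prime := ⟨hpp⟩
  have hu : ∀ n : ℕ, (n : ZMod p) ≠ 0 → (n : K) ≠ 0 ∧ ord r (n : K) = 0 := by
    intro n hn
    have h0 : n ≠ 0 := fun h => hn (by rw [h, Nat.cast_zero])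
    refine ⟨Nat.cast_ne_zero.2 h0, ?_⟩
    have := (ord_eq_zero_iff r (a := (n : 𝓞 K)) (Nat.cast_ne_zero.2 h0)).2 (by
      rw [nat_mem_iff h1, hp, ← ZMod.natCast_eq_zero_iff]; exact hn)
    simpa using this
  have hcg : ∀ n m : ℕ, (n : ZMod p) ≠ 0 → (n : ZMod p) = m → chi l ζ r (m : K) = chi l ζ r n := by
    intro n m hn h
    refine chi_congr hζ hr (hu n hn).1 (hu n hn).2 ?_
    obtain ⟨c, hc⟩ := (ZMod.natCast_eq_natCast_iff' _ _ _).1 h |> Nat.modEq_iff_dvd.1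
    have h2 : ((n : 𝓞 K) - m) ∈ r.asIdeal := by
      have : (n : 𝓞 K) - m = -c * (Ideal.absNorm r.asIdeal : ℕ) := by
        have := congrArg (Int.cast : ℤ → 𝓞 K) hc
        push_cast at this
        rw [hp]
        linear_combination -this
      rw [this]
      exact Ideal.mul_mem_left _ _ (Ideal.absNorm_mem _)
    simpa using (r.valuation_lt_one_iff_mem (K := K) _).2 h2
  have hv : ∀ a : ZMod p, a ≠ 0 → ((a.val : ℕ) : ZMod p) ≠ 0 := fun a ha => by simpa using ha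
  refine ⟨{ toFun := fun a => if a = 0 then 0 else z ^ (chi l ζ r (a.val : K)).val
            map_one' := ?_, map_mul' := ?_, map_nonunit' := ?_ }, fun n hn => ?_⟩
  · have h2 := chi_zpow hζ hr (x := 1) one_ne_zero (ord_one r) 0
    rw [if_neg one_ne_zero, ZMod.val_one, Nat.cast_one]
    simp only [zpow_zero, Int.cast_zero, zero_mul] at h2
    rw [h2, ZMod.val_zero, pow_zero]
  · intro a b
    by_cases ha : a = 0
    · simp [ha]
    by_cases hb : b = 0
    · simp [hb]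
    rw [if_neg (mul_ne_zero ha hb), if_neg ha, if_neg hb, ← pow_add, pow_eq_pow_mod _ hz,
      pow_eq_pow_mod (_ + _) hz, ← ZMod.val_add,
      ← chi_mul hζ hr (hu _ (hv a ha)).1 (hu _ (hv b hb)).1 (hu _ (hv a ha)).2 (hu _ (hv b hb)).2,
      ← Nat.cast_mul, hcg _ (a.val * b.val) (hv _ (mul_ne_zero ha hb)) (by simp),
      Nat.mod_eq_of_lt (ZMod.val_lt _)]
  · intro a ha
    exact if_pos (by simpa using ha)
  · change (if (n : ZMod p) = 0 then 0 else _) = _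
    rw [if_neg hn, hcg n _ hn (by simp)]

end Pool.Agent.MP_14ad9d_nt.Full.GaussAux
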