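import Pool.Agent.MP_14ad9d_nt.Full.Sym1
import Pool.Agent.MP_14ad9d_nt.Full.Gauss1

set_option autoImplicit false

open NumberField IsDedekindDomain

namespace Pool.Agent.MP_14ad9d_nt.Full

/-- the Kummer generator of the cyclotomic field of degree `l` and conductor `p` -/
theorem gauss {l : ℕ} [Fact l.Prime] (hl : 2 < l) {K : Type} [Field K] [NumberField K] {ζ : K}
    (hζ : IsPrimitiveRoot ζ l) {r : Pr K} (hr : Tm l r) (h1 : Deg1 r) :
    ∃ μ : K, μ ≠ 0 ∧ ∀ (E : Type) [Field E] [NumberField E] [Algebra K E] (q : Pr E), Tm l q →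
      ((Ideal.absNorm r.asIdeal : ℕ) : 𝓞 E) ∉ q.asIdeal →
        ord q (algebraMap K E μ) = 0 ∧ chi l (algebraMap K E ζ) q (algebraMap K E μ) =
          -chi l ζ r ((Ideal.absNorm q.asIdeal : ℕ) : K) := by
  classical
  have hlp : l.Prime := Fact.out
  set p := Ideal.absNorm r.asIdeal with hp
  have : Fact p.Prime := ⟨h1⟩
  set z : 𝓞 K := hζ.toInteger with hzdef
  have hz : z ^ l = 1 := hζ.toInteger_isPrimitiveRoot.pow_eq_one
  have hzζ : (z : K) = ζ := rfl
  obtain ⟨χ, hχ⟩ := GaussAux.exists_char hζ hr h1 hp.symm hz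
  have hχl : χ ^ l = 1 := by
    refine MulChar.ext fun a => ?_
    have h2 := hχ (a : ZMod p).val (by simp)
    rw [ZMod.natCast_zmod_val] at h2
    rw [MulChar.pow_apply_coe, MulChar.one_apply_coe, h2, ← pow_mul, mul_comm, pow_mul, hz, one_pow]
  have hne : ∀ {F : Type} [Field F] (f : 𝓞 K →+* F), f z ≠ 1 → χ.ringHomComp f ≠ 1 := by
    intro F _ f hf h
    obtain ⟨n, hn, hn'⟩ := chi_surj_int hζ hr h1 1
    rw [GaussAux.nat_mem_iff h1, ← hp, ← ZMod.natCast_eq_zero_iff] at hn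
    have h2 := hχ n hn
    rw [hn', ZMod.val_one, pow_one] at h2
    have h3 : χ.ringHomComp f n = 1 := by rw [h, MulChar.one_apply (IsUnit.mk0 _ hn)]
    exact hf (h2 ▸ h3)
  have hμ : ((GaussAux.mu l χ : 𝓞 K) : K) ≠ 0 := by
    set f : 𝓞 K →+* AlgebraicClosure K :=
      (algebraMap K (AlgebraicClosure K)).comp (algebraMap (𝓞 K) K)
    obtain ⟨g, g0, g1, -⟩ := GaussAux.exists_gauss χ hχl f (Nat.cast_ne_zero.2 h1.ne_zero)
      (hne f fun h => hζ.ne_one hlp.one_lt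
        ((algebraMap K (AlgebraicClosure K)).injective (h.trans (map_one _).symm)))
    intro h
    refine pow_ne_zero l g0 (g1.trans ?_)
    exact (congrArg (algebraMap K (AlgebraicClosure K)) h).trans (map_zero _)
  refine ⟨_, hμ, fun E _ _ _ q hq hpq => ?_⟩
  have hζE : IsPrimitiveRoot (algebraMap K E ζ) l := hζ.map_of_injective (algebraMap K E).injective
  have := q.isMaximal
  let _ : Field (𝓞 E ⧸ q.asIdeal) := Ideal.Quotient.field q.asIdeal
  have : Finite (𝓞 E ⧸ q.asIdeal) := Ideal.finiteQuotientOfFreeOfNeBot _ q.ne_bot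
  let _ : Fintype (𝓞 E ⧸ q.asIdeal) := Fintype.ofFinite _
  obtain ⟨c, hc, n, hcp, hcard⟩ := FiniteField.card' (𝓞 E ⧸ q.asIdeal)
  have hN : Ideal.absNorm q.asIdeal = c ^ (n : ℕ) := by
    rw [← hcard, Ideal.absNorm_apply, Submodule.cardQuot_apply, Nat.card_eq_fintype_card]
  set F := AlgebraicClosure (𝓞 E ⧸ q.asIdeal)
  set φ : 𝓞 E →+* F := (algebraMap _ F).comp (Ideal.Quotient.mk q.asIdeal) with hφ
  have hker : ∀ a : 𝓞 E, φ a = 0 ↔ a ∈ q.asIdeal := fun a => by
    rw [hφ, RingHom.comp_apply, map_eq_zero, Ideal.Quotient.eq_zero_iff_mem]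
  set f : 𝓞 K →+* F := φ.comp (algebraMap (𝓞 K) (𝓞 E)) with hf
  have hcF : CharP F c := charP_of_injective_algebraMap (algebraMap (𝓞 E ⧸ q.asIdeal) F).injective c
  have : ExpChar F c := ExpChar.prime hcp
  have hpF : (p : F) ≠ 0 := fun h => hpq ((hker _).1 (by rw [map_natCast]; exact h))
  have hfz : f z ≠ 1 := by
    intro h
    have a1 : (1 - algebraMap (𝓞 K) (𝓞 E) z) ∈ q.asIdeal :=
      (hker _).1 (by rw [map_sub, map_one]; exact sub_eq_zero.2 h.symm)
    have a2 : q.valuation E (1 - algebraMap K E ζ) < 1 := by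
      have := (q.valuation_lt_one_iff_mem (K := E) _).2 a1
      simp only [map_sub, map_one] at this
      exact this
    have a3 : q.valuation E (l : E) = 1 := by
      simpa using (q.valuation_eq_one_iff_notMem (K := E) (r := (l : 𝓞 E))).2 hq
    rw [val_ell hζE q] at a3
    exact absurd a3 (pow_lt_one₀ zero_le a2 (by omega)).ne
  obtain ⟨g, g0, g1, g2⟩ := GaussAux.exists_gauss χ hχl f hpF (hne f hfz)
  have hdvd := norm_mod hζE hq
  have hNp : ((c ^ (n : ℕ) : ℕ) : ZMod p) ≠ 0 := by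
    intro h
    have a1 := (Nat.prime_dvd_prime_iff_eq h1 hcp).1
      (Nat.Prime.dvd_of_dvd_pow h1 ((ZMod.natCast_eq_zero_iff _ _).1 h))
    exact hpF (by rw [show p = c from a1]; exact CharP.cast_eq_zero F c)
  have g3 := g2 c n (hN ▸ hdvd) hNp
  rw [hχ _ hNp, ← hN] at g3
  set μ' : 𝓞 E := algebraMap (𝓞 K) (𝓞 E) (GaussAux.mu l χ) with hμ'
  have hμq : μ' ∉ q.asIdeal := fun h => pow_ne_zero l g0 (g1.trans ((hker _).2 h))
  have hμ0 : μ' ≠ 0 := fun h => hμq (h ▸ zero_mem _)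
  have e0 : algebraMap K E ((GaussAux.mu l χ : 𝓞 K) : K) = (μ' : E) := rfl
  have ho : ord q (μ' : E) = 0 := (ord_eq_zero_iff q hμ0).2 hμq
  rw [e0]
  refine ⟨ho, (chi_spec hζE hq (by simpa using hμ0) ho _).2 ?_⟩
  set D := chi l ζ r ((Ideal.absNorm q.asIdeal : ℕ) : K)
  obtain ⟨m, hm⟩ := hdvd
  have hN1 : Ideal.absNorm q.asIdeal = l * m + 1 := by
    have : 0 < Ideal.absNorm q.asIdeal := hN ▸ pow_pos hcp.pos _
    omega
  rw [hm, Nat.mul_div_cancel_left _ hlp.pos]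
  have g4 : f z ^ D.val * f (GaussAux.mu l χ) ^ m = 1 := by
    rw [hN1, pow_succ, pow_mul, g1, map_pow, ← mul_assoc] at g3
    exact mul_right_cancel₀ g0 (g3.trans (one_mul g).symm)
  have g5 : f z ^ (-D).val * f z ^ D.val = 1 := by
    have a1 : f z ^ l = 1 := by rw [← map_pow, hz, map_one]
    rw [← pow_add, pow_eq_pow_mod _ a1, ← ZMod.val_add, neg_add_cancel, ZMod.val_zero, pow_zero]
  have g6 : μ' ^ m - algebraMap (𝓞 K) (𝓞 E) z ^ (-D).val ∈ q.asIdeal := by
    rw [← hker, map_sub, map_pow, map_pow]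
    change f (GaussAux.mu l χ) ^ m - f z ^ (-D).val = 0
    linear_combination f z ^ (-D).val * g4 - f (GaussAux.mu l χ) ^ m * g5
  have := (q.valuation_lt_one_iff_mem (K := E) _).2 g6
  simp only [map_sub, map_pow] at this
  exact this

end Pool.Agent.MP_14ad9d_nt.Full
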