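import Pool.Agent.MP_14ad9d_nt.Full.ADefs

set_option autoImplicit false

open NumberField IsDedekindDomain

namespace Pool.Agent.MP_14ad9d_nt.Full

/-- the finite primes of a number field -/
abbrev Pr (E : Type) [Field E] : Type := HeightOneSpectrum (𝓞 E)

section

variable {E : Type} [Field E] [NumberField E]

/-- the additive valuation -/
noncomputable def ord (v : Pr E) (x : E) : ℤ := -WithZero.log (v.valuation E x)

/-- the logarithm of the norm of a prime -/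
noncomputable def lam (v : Pr E) : ℝ := Real.log (Ideal.absNorm v.asIdeal)

/-- a prime of degree one -/
def Deg1 (v : Pr E) : Prop := (Ideal.absNorm v.asIdeal).Prime

open Classical in
/-- the Mertens weight of a prime of degree one -/
noncomputable def wt (v : Pr E) : ℝ := if Deg1 v then lam v / Ideal.absNorm v.asIdeal else 0

/-- the vector of all complex embeddings -/
def emb (x : E) : (E →+* ℂ) → ℂ := fun φ => φ x

end

/-- vectors with no zero coordinate -/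
def NZ (E : Type) [Field E] : Set ((E →+* ℂ) → ℂ) := {z | ∀ φ, z φ ≠ 0}

/-- real vectors with no zero coordinate -/
def RZ (E : Type) [Field E] : Set ((E →+* ℂ) → ℂ) :=
  {z | (∀ φ, z φ ≠ 0) ∧ ∀ φ, z (ComplexEmbedding.conjugate φ) = (starRingEnd ℂ) (z φ)}

/-- the logarithm of the absolute norm of a vector -/
noncomputable def lnN {E : Type} [Field E] [NumberField E] (z : (E →+* ℂ) → ℂ) : ℝ :=
  ∑ φ, Real.log ‖z φ‖

/-- a Hecke character -/
structure Hecke (E : Type) [Field E] [NumberField E] where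
  X : Ideal (𝓞 E) →* ℂ
  m : ℕ
  hm : m ≠ 0
  X_bot : X ⊥ = 0
  norm_le : ∀ I, ‖X I‖ ≤ 1
  unit : ∀ I, I ≠ ⊥ → IsCoprime I (Ideal.span {(m : 𝓞 E)}) → X I ≠ 0
  c : 𝓞 E → ℂ
  c_congr : ∀ a b, (m : 𝓞 E) ∣ a - b → c a = c b
  Ψ : ((E →+* ℂ) → ℂ) → ℂ
  Ψ_lip : LocallyLipschitzOn (NZ E) Ψ
  Ψ_smul : ∀ t : ℝ, 0 < t → ∀ z ∈ NZ E, Ψ (t • z) = Ψ z
  eq : ∀ a : 𝓞 E, a ≠ 0 → X (Ideal.span {a}) = c a * Ψ (emb (a : E))

/-- the main term of the sums of the character vanishes -/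
def Hecke.Nontriv {E : Type} [Field E] [NumberField E] (h : Hecke E) : Prop :=
  (∃ (η : 𝓞 E) (κ : ℂ), IsCoprime η (h.m : 𝓞 E) ∧ κ ≠ 1 ∧ ∀ a, h.c (η * a) = κ * h.c a) ∨
    ((∀ z ∈ NZ E, h.Ψ z = 1) ∧
      ∃ I, I ≠ ⊥ ∧ IsCoprime I (Ideal.span {(h.m : 𝓞 E)}) ∧ h.X I ≠ 1)

/-- parameters of an archimedean character invariant under positive scaling -/
structure Chr (F : Type) [Field F] [NumberField F] where
  n : (F →+* ℂ) → ℤ
  t : (F →+* ℂ) → ℝ
  ht : ∑ φ, t φ = 0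

/-- the value of an archimedean character -/
noncomputable def Chr.val {F : Type} [Field F] [NumberField F] (ψ : Chr F)
    (y : (F →+* ℂ) → ℂ) : ℂ :=
  ∏ φ, ((y φ / (‖y φ‖ : ℂ)) ^ ψ.n φ * Complex.exp (Complex.I * (ψ.t φ * Real.log ‖y φ‖ : ℝ)))

/-- relative norms of generators of `v B ^ l` that are congruent to `θ` -/
def NSet (F : Type) [Field F] [NumberField F] {K : Type} [Field K] [NumberField K] [Algebra F K]
    (l M : ℕ) (B : Ideal (𝓞 K)) (θ : 𝓞 K) (v : Pr K) : Set (𝓞 F) :=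
  {a | ∃ π : 𝓞 K, Ideal.span {π} = v.asIdeal * B ^ l ∧ (M : 𝓞 K) ∣ π - θ ∧
    a = RingOfIntegers.norm F π}

end Pool.Agent.MP_14ad9d_nt.Full
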