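import Pool.Agent.MP_14ad9d_nt.Full.HeckeOf1

set_option autoImplicit false

open NumberField
open scoped nonZeroDivisors

namespace Pool.Agent.MP_14ad9d_nt.Full

namespace HeckeOfAux

variable {K : Type} [Field K] [NumberField K]

theorem mem0 {I : Ideal (𝓞 K)} (hI : I ≠ ⊥) : I ∈ (Ideal (𝓞 K))⁰ :=
  mem_nonZeroDivisors_of_ne_zero hI

open Classical in
/-- extension by zero of a character of nonzero ideals -/
noncomputable def ext0 (M : Ideal (𝓞 K)) (g : (Ideal (𝓞 K))⁰ →* ℂ) : Ideal (𝓞 K) →* ℂ where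
  toFun I := if h : I ≠ ⊥ ∧ IsCoprime I M then g ⟨I, mem0 h.1⟩ else 0
  map_one' := by
    have h : (1 : Ideal (𝓞 K)) ≠ ⊥ ∧ IsCoprime (1 : Ideal (𝓞 K)) M :=
      ⟨one_ne_zero, isCoprime_one_left⟩
    rw [dif_pos h]
    exact map_one g
  map_mul' I J := by
    by_cases hI : I ≠ ⊥ ∧ IsCoprime I M
    · by_cases hJ : J ≠ ⊥ ∧ IsCoprime J M
      · have h : I * J ≠ ⊥ ∧ IsCoprime (I * J) M := ⟨mul_ne_zero hI.1 hJ.1, hI.2.mul_left hJ.2⟩
        rw [dif_pos h, dif_pos hI, dif_pos hJ, ← map_mul]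
        rfl
      · rw [dif_neg hJ, dif_neg, mul_zero]
        exact fun h => hJ ⟨right_ne_zero_of_mul h.1, h.2.of_mul_left_right⟩
    · rw [dif_neg hI, dif_neg, zero_mul]
      exact fun h => hI ⟨left_ne_zero_of_mul h.1, h.2.of_mul_left_left⟩

theorem ext0_pos {M : Ideal (𝓞 K)} (g : (Ideal (𝓞 K))⁰ →* ℂ) {I : Ideal (𝓞 K)} (h1 : I ≠ ⊥)
    (h2 : IsCoprime I M) : ext0 M g I = g ⟨I, mem0 h1⟩ := dif_pos ⟨h1, h2⟩

theorem ext0_neg {M : Ideal (𝓞 K)} (g : (Ideal (𝓞 K))⁰ →* ℂ) {I : Ideal (𝓞 K)}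
    (h : ¬(I ≠ ⊥ ∧ IsCoprime I M)) : ext0 M g I = 0 := dif_neg h

theorem span_ne {a : 𝓞 K} (ha : a ≠ 0) : Ideal.span {a} ≠ ⊥ := by
  rwa [Ne, Ideal.span_singleton_eq_bot]

variable (F : Type) [Field F] [NumberField F] [Algebra F K]

/-- the Hecke character attached to a character of nonzero ideals -/
noncomputable def mkH (m : ℕ) (hm : m ≠ 0) (χ : MulChar (𝓞 K ⧸ Ideal.span {(m : 𝓞 K)}) ℂ)
    (ψ : Chr F) (g : (Ideal (𝓞 K))⁰ →* ℂ) (hg : ∀ I, ‖g I‖ = 1)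
    (hgc : ∀ (a : 𝓞 K) (ha : a ≠ 0), IsUnit (Ideal.Quotient.mk (Ideal.span {(m : 𝓞 K)}) a) →
      g ⟨Ideal.span {a}, mem0 (span_ne ha)⟩ =
        χ (Ideal.Quotient.mk _ a) * ψ.val (emb (Algebra.norm F (a : K)))) : Hecke K where
  X := ext0 (Ideal.span {(m : 𝓞 K)}) g
  m := m
  hm := hm
  X_bot := ext0_neg g (by simp)
  norm_le I := by
    by_cases h : I ≠ ⊥ ∧ IsCoprime I (Ideal.span {(m : 𝓞 K)})
    · rw [ext0_pos g h.1 h.2, hg]
    · rw [ext0_neg g h, norm_zero]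
      exact zero_le_one
  unit I h1 h2 := by
    rw [ext0_pos g h1 h2, ← norm_ne_zero_iff, hg]
    exact one_ne_zero
  c a := χ (Ideal.Quotient.mk _ a)
  c_congr a b h := by
    rw [Ideal.Quotient.eq.2 (Ideal.mem_span_singleton.2 h)]
  Ψ z := ψ.val (nrm F z)
  Ψ_lip := lip_comp F ψ
  Ψ_smul t ht z hz := by
    rw [nrm_smul, ψ.val_smul (nrm_mem F hz) (pow_pos ht _)]
  eq a ha := by
    rw [nrm_emb]
    by_cases h : IsUnit (Ideal.Quotient.mk (Ideal.span {(m : 𝓞 K)}) a)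
    · rw [ext0_pos g (span_ne ha) ((coprime_iff _ _).2 h), hgc a ha h]
    · rw [ext0_neg g (fun h' => h ((coprime_iff _ _).1 h'.2)), χ.map_nonunit h, zero_mul]

theorem emb_mul {E : Type} [Field E] [NumberField E] (x y : E) : emb (x * y) = emb x * emb y := by
  funext φ
  exact map_mul φ x y

theorem emb_one {E : Type} [Field E] [NumberField E] : emb (1 : E) = 1 := by
  funext φ
  exact map_one φ

theorem emb_NZ {E : Type} [Field E] [NumberField E] {x : E} (hx : x ≠ 0) : emb x ∈ NZ E :=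
  (emb_mem_RZ hx).1

theorem val_one (ψ : Chr F) : ψ.val 1 = 1 := by
  simp [Chr.val]

theorem norm_ne {a : 𝓞 K} (ha : a ≠ 0) : Algebra.norm F (a : K) ≠ 0 :=
  Algebra.norm_ne_zero_iff.2 (by exact_mod_cast ha)

theorem val_norm_mul (ψ : Chr F) {a b : 𝓞 K} (ha : a ≠ 0) (hb : b ≠ 0) :
    ψ.val (emb (Algebra.norm F ((a * b : 𝓞 K) : K))) =
      ψ.val (emb (Algebra.norm F (a : K))) * ψ.val (emb (Algebra.norm F (b : K))) := by
  rw [← ψ.val_mul (emb_NZ (norm_ne F ha)) (emb_NZ (norm_ne F hb)), ← emb_mul, ← map_mul]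
  rfl

theorem exists_g (m : ℕ) (hm : m ≠ 0) (χ : MulChar (𝓞 K ⧸ Ideal.span {(m : 𝓞 K)}) ℂ) (ψ : Chr F)
    (hu : ∀ u : (𝓞 K)ˣ, χ (Ideal.Quotient.mk _ (u : 𝓞 K)) *
      ψ.val (emb (Algebra.norm F ((u : 𝓞 K) : K))) = 1) :
    ∃ g : (Ideal (𝓞 K))⁰ →* ℂ, (∀ I, ‖g I‖ = 1) ∧
      ∀ (a : 𝓞 K) (ha : a ≠ 0), IsUnit (Ideal.Quotient.mk (Ideal.span {(m : 𝓞 K)}) a) →
        g ⟨Ideal.span {a}, mem0 (span_ne ha)⟩ =
          χ (Ideal.Quotient.mk _ a) * ψ.val (emb (Algebra.norm F (a : K))) := by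
  have hm' : Ideal.span {(m : 𝓞 K)} ≠ ⊥ := span_ne (Nat.cast_ne_zero.2 hm)
  have : Finite (𝓞 K ⧸ Ideal.span {(m : 𝓞 K)}) := Ideal.finiteQuotientOfFreeOfNeBot _ hm'
  let S : Submonoid (𝓞 K) :=
    { carrier := {a | a ≠ 0 ∧ IsUnit (Ideal.Quotient.mk (Ideal.span {(m : 𝓞 K)}) a)}
      one_mem' := ⟨one_ne_zero, by rw [map_one]; exact isUnit_one⟩
      mul_mem' := fun ha hb => ⟨mul_ne_zero ha.1 hb.1, by rw [map_mul]; exact ha.2.mul hb.2⟩ }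
  let sp : S →* (Ideal (𝓞 K))⁰ :=
    { toFun := fun a => ⟨Ideal.span {(a : 𝓞 K)}, mem0 (span_ne a.2.1)⟩
      map_one' := Subtype.ext (by simp)
      map_mul' := fun a b => Subtype.ext (by simp [Ideal.span_singleton_mul_span_singleton]) }
  let f : S →* Circle :=
    { toFun := fun a => ⟨χ (Ideal.Quotient.mk _ (a : 𝓞 K)) *
          ψ.val (emb (Algebra.norm F ((a : 𝓞 K) : K))), by
        rw [Submonoid.unitSphere, Submonoid.mem_mk, Subsemigroup.mem_mk, mem_sphere_zero_iff_norm,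
          norm_mul, norm_mulChar χ a.2.2, ψ.norm_val (emb_NZ (norm_ne F a.2.1)), one_mul]⟩
      map_one' := Circle.ext (by simp [emb_one, val_one])
      map_mul' := fun a b => Circle.ext (by
        change χ (Ideal.Quotient.mk _ ((a : 𝓞 K) * b)) *
          ψ.val (emb (Algebra.norm F (((a : 𝓞 K) * b : 𝓞 K) : K))) = (_ * _) * (_ * _)
        rw [val_norm_mul F ψ a.2.1 b.2.1, map_mul, map_mul]
        ring) }
  obtain ⟨g, hg⟩ := ext_hom ((FractionalIdeal.mk0 K).comp sp) f (by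
    intro a b hab
    have h1 : Ideal.span {(a : 𝓞 K)} = Ideal.span {(b : 𝓞 K)} :=
      FractionalIdeal.coeIdeal_injective (K := K) (congr_arg Units.val hab)
    obtain ⟨u, hu'⟩ := Ideal.span_singleton_eq_span_singleton.1 h1
    apply Circle.ext
    change χ (Ideal.Quotient.mk _ (a : 𝓞 K)) * ψ.val (emb (Algebra.norm F ((a : 𝓞 K) : K))) =
      χ (Ideal.Quotient.mk _ (b : 𝓞 K)) * ψ.val (emb (Algebra.norm F ((b : 𝓞 K) : K)))
    rw [← hu', val_norm_mul F ψ a.2.1 u.ne_zero, map_mul, map_mul]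
    linear_combination (-(χ (Ideal.Quotient.mk _ (a : 𝓞 K)) *
      ψ.val (emb (Algebra.norm F ((a : 𝓞 K) : K))))) * hu u)
  refine ⟨Circle.coeHom.comp (g.comp (FractionalIdeal.mk0 K)), fun I => Circle.norm_coe _,
    fun a ha h => ?_⟩
  exact congr_arg (fun z : Circle => (z : ℂ)) (hg ⟨a, ha, h⟩)

end HeckeOfAux

open HeckeOfAux in
/-- a character of principal ideals is a combination of Hecke characters -/
theorem heckeOf (F : Type) [Field F] [NumberField F] {K : Type} [Field K] [NumberField K]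
    [Algebra F K] (m : ℕ) (hm : m ≠ 0) (χ : MulChar (𝓞 K ⧸ Ideal.span {(m : 𝓞 K)}) ℂ) (ψ : Chr F)
    (hu : ∀ u : (𝓞 K)ˣ, χ (Ideal.Quotient.mk _ (u : 𝓞 K)) *
      ψ.val (emb (Algebra.norm F ((u : 𝓞 K) : K))) = 1)
    (B : Ideal (𝓞 K)) (hB : B ≠ ⊥) (hBm : IsCoprime B (Ideal.span {(m : 𝓞 K)})) :
    ∃ (n : ℕ) (a : Fin n → ℂ) (h h2 : Fin n → Hecke K),
      (∀ j, (h j).m = m ∧ (h2 j).m = m ∧ (∀ x, (h j).c x = χ (Ideal.Quotient.mk _ x)) ∧
        (∀ x, (h2 j).c x = χ (Ideal.Quotient.mk _ x) ^ 2) ∧ ∀ I, (h2 j).X I = (h j).X I ^ 2) ∧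
      ∀ I : Ideal (𝓞 K), I ≠ ⊥ →
        (∀ π : 𝓞 K, Ideal.span {π} = I * B → ∑ j, a j * (h j).X I =
          χ (Ideal.Quotient.mk _ π) * ψ.val (emb (Algebra.norm F (π : K)))) ∧
        ((¬∃ π : 𝓞 K, Ideal.span {π} = I * B) → ∑ j, a j * (h j).X I = 0) := by
  classical
  obtain ⟨g, hg1, hg2⟩ := exists_g F m hm χ ψ hu
  obtain ⟨n, ω, hn, hω⟩ := chars (ClassGroup (𝓞 K))
  let G : Fin n → (Ideal (𝓞 K))⁰ →* ℂ := fun j => g * (ω j).comp ClassGroup.mk0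
  have hG : ∀ j I, G j I = g I * ω j (ClassGroup.mk0 I) := fun j I => rfl
  have hG1 : ∀ j I, ‖G j I‖ = 1 := fun j I => by rw [hG, norm_mul, hg1, norm_hom, one_mul]
  have hG2 : ∀ j (a : 𝓞 K) (ha : a ≠ 0),
      IsUnit (Ideal.Quotient.mk (Ideal.span {(m : 𝓞 K)}) a) →
      G j ⟨Ideal.span {a}, mem0 (span_ne ha)⟩ =
        χ (Ideal.Quotient.mk _ a) * ψ.val (emb (Algebra.norm F (a : K))) := fun j a ha h => by
    rw [hG, hg2 a ha h, (ClassGroup.mk0_eq_one_iff _).2 ⟨a, rfl⟩, map_one, mul_one]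
  have key : ∀ (I : Ideal (𝓞 K)) (hI : I ≠ ⊥), IsCoprime I (Ideal.span {(m : 𝓞 K)}) →
      ∑ j, G j ⟨B, mem0 hB⟩ / n * ext0 (Ideal.span {(m : 𝓞 K)}) (G j) I =
        if (I * B).IsPrincipal then g ⟨I * B, mem0 (mul_ne_zero hI hB)⟩ else 0 := by
    intro I hI hc
    have e : (⟨I * B, mem0 (mul_ne_zero hI hB)⟩ : (Ideal (𝓞 K))⁰) =
        ⟨I, mem0 hI⟩ * ⟨B, mem0 hB⟩ := rfl
    have h1 : ∀ j, G j ⟨B, mem0 hB⟩ / n * ext0 (Ideal.span {(m : 𝓞 K)}) (G j) I =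
        g ⟨I * B, mem0 (mul_ne_zero hI hB)⟩ / n *
          ω j (ClassGroup.mk0 ⟨I * B, mem0 (mul_ne_zero hI hB)⟩) := by
      intro j
      rw [ext0_pos _ hI hc, hG, hG, e, map_mul, map_mul, map_mul]
      ring
    have hn' : (n : ℂ) ≠ 0 := Nat.cast_ne_zero.2 hn
    rw [Finset.sum_congr rfl fun j _ => h1 j, ← Finset.mul_sum, hω]
    simp only [ClassGroup.mk0_eq_one_iff]
    split_ifs
    · field_simp
    · exact mul_zero _
  refine ⟨n, fun j => G j ⟨B, mem0 hB⟩ / n, fun j => mkH F m hm χ ψ (G j) (hG1 j) (hG2 j),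
    fun j => mkH F m hm (χ ^ 2) (dbl ψ) (G j ^ 2) (fun I => ?_) (fun a ha h => ?_),
    fun j => ⟨rfl, rfl, fun x => rfl, fun x => ?_, fun I => ?_⟩, fun I hI => ⟨?_, ?_⟩⟩
  · rw [MonoidHom.pow_apply, norm_pow, hG1, one_pow]
  · rw [MonoidHom.pow_apply, hG2 j a ha h, dbl_val, χ.pow_apply' two_ne_zero, mul_pow]
  · exact χ.pow_apply' two_ne_zero _
  · change ext0 _ (G j ^ 2) I = ext0 _ (G j) I ^ 2
    by_cases h : I ≠ ⊥ ∧ IsCoprime I (Ideal.span {(m : 𝓞 K)})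
    · rw [ext0_pos _ h.1 h.2, ext0_pos _ h.1 h.2, MonoidHom.pow_apply]
    · rw [ext0_neg _ h, ext0_neg _ h, zero_pow two_ne_zero]
  · intro π hπ
    have hπ0 : π ≠ 0 := by
      rintro rfl
      exact mul_ne_zero hI hB (by rw [← hπ]; simp)
    change ∑ j, G j ⟨B, mem0 hB⟩ / n * ext0 (Ideal.span {(m : 𝓞 K)}) (G j) I = _
    by_cases hc : IsCoprime I (Ideal.span {(m : 𝓞 K)})
    · rw [key I hI hc, if_pos ⟨π, hπ.symm⟩,
        ← hg2 π hπ0 ((coprime_iff _ _).1 (hπ ▸ hc.mul_left hBm))]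
      congr 2
      exact hπ.symm
    · rw [χ.map_nonunit, zero_mul]
      · exact Finset.sum_eq_zero fun j _ => by rw [ext0_neg _ (fun h => hc h.2), mul_zero]
      · intro h
        have h2 := (coprime_iff _ _).2 h
        rw [hπ] at h2
        exact hc h2.of_mul_left_left
  · intro hπ
    change ∑ j, G j ⟨B, mem0 hB⟩ / n * ext0 (Ideal.span {(m : 𝓞 K)}) (G j) I = _
    by_cases hc : IsCoprime I (Ideal.span {(m : 𝓞 K)})
    · rw [key I hI hc, if_neg]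
      rintro ⟨π, h⟩
      exact hπ ⟨π, h.symm⟩
    · exact Finset.sum_eq_zero fun j _ => by rw [ext0_neg _ (fun h => hc h.2), mul_zero]

end Pool.Agent.MP_14ad9d_nt.Full
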