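import Pool.Agent.MP_14ad9d_nt.Full.Torus

set_option autoImplicit false

open NumberField

namespace Pool.Agent.MP_14ad9d_nt.Full.HeckeOfAux

/-- extension of a character from the image of a monoid -/
theorem ext_hom {S G : Type} [CommMonoid S] [CommGroup G] (φ : S →* G) (f : S →* Circle)
    (h : ∀ a b, φ a = φ b → f a = f b) : ∃ g : G →* Circle, ∀ a, g (φ a) = f a := by
  let H : Subgroup (G × Circle) :=
    { carrier := {p | ∃ a b, p = (φ a / φ b, f a / f b)}
      one_mem' := ⟨1, 1, by simp [Prod.ext_iff]⟩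
      mul_mem' := by
        rintro _ _ ⟨a, b, rfl⟩ ⟨c, d, rfl⟩
        exact ⟨a * c, b * d, by simp [mul_div_mul_comm]⟩
      inv_mem' := by
        rintro _ ⟨a, b, rfl⟩
        exact ⟨b, a, by simp⟩ }
  let i : H →* G := (MonoidHom.fst G Circle).comp H.subtype
  let j : H →* Circle := (MonoidHom.snd G Circle).comp H.subtype
  have hi : Function.Injective i := by
    rw [injective_iff_map_eq_one]
    rintro ⟨_, a, b, rfl⟩ hab
    have h1 : φ a / φ b = 1 := hab
    have h2 := h a b (div_eq_one.1 h1)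
    apply Subtype.ext
    simp [h1, h2]
  let : DivisibleBy (Additive Circle) ℤ := divisibleByOfSMulRightSurj _ _ fun {n} hn z => by
    obtain ⟨t, ht⟩ := Circle.exp_surjective (Additive.toMul z)
    refine ⟨Additive.ofMul (Circle.exp (t / n)), ?_⟩
    have hn' : (n : ℝ) ≠ 0 := by exact_mod_cast hn
    apply Additive.toMul.injective
    simp only [toMul_zsmul, toMul_ofMul]
    rw [← ht, ← Circle.exp_intCast_mul]
    congr 1
    field_simp
  obtain ⟨g, hg⟩ := (Module.Baer.of_divisible (Additive Circle)).extension_property_addMonoidHom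
    (MonoidHom.toAdditive i) hi (MonoidHom.toAdditive j)
  refine ⟨MonoidHom.toAdditive.symm g, fun a => ?_⟩
  have := DFunLike.congr_fun hg (Additive.ofMul (⟨(φ a, f a), a, 1, by simp⟩ : H))
  exact congr_arg Additive.toMul this

variable (F : Type) [Field F] [NumberField F] {K : Type} [Field K] [NumberField K] [Algebra F K]

/-- the norm map on vectors -/
noncomputable def nrm (z : (K →+* ℂ) → ℂ) : (F →+* ℂ) → ℂ := fun φ =>
  letI := φ.toAlgebra
  ∏ σ : K →ₐ[F] ℂ, z σ.toRingHom

theorem nrm_emb (x : K) : nrm F (emb x) = emb (Algebra.norm F x) := by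
  funext φ
  let := φ.toAlgebra
  exact (Algebra.norm_eq_prod_embeddings F ℂ x).symm

theorem nrm_mem {z : (K →+* ℂ) → ℂ} (hz : z ∈ NZ K) : nrm F z ∈ NZ F := fun _ =>
  Finset.prod_ne_zero_iff.2 fun _ _ => hz _

theorem nrm_smul (t : ℝ) (z : (K →+* ℂ) → ℂ) :
    nrm F (t • z) = t ^ Module.finrank F K • nrm F z := by
  funext φ
  let := φ.toAlgebra
  simp only [nrm, Pi.smul_apply, Complex.real_smul, Finset.prod_mul_distrib, Finset.prod_const,
    Finset.card_univ, AlgHom.card, Complex.ofReal_pow]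

theorem nrm_contDiff : ContDiff ℝ 1 (nrm F : ((K →+* ℂ) → ℂ) → (F →+* ℂ) → ℂ) := by
  refine contDiff_pi.2 fun φ => ?_
  unfold nrm
  exact contDiff_prod fun σ _ => contDiff_apply ℝ ℂ _

theorem lip_comp (ψ : Chr F) :
    LocallyLipschitzOn (NZ K) (fun z : (K →+* ℂ) → ℂ => ψ.val (nrm F z)) := by
  intro z hz
  obtain ⟨K1, t, ht, h1⟩ := ψ.lip (nrm_mem F hz)
  obtain ⟨K2, s, hs, h2⟩ := (nrm_contDiff F (K := K)).locallyLipschitz z
  have hc : ContinuousWithinAt (nrm F) (NZ K) z :=
    (nrm_contDiff F (K := K)).continuous.continuousWithinAt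
  have hpre : nrm F ⁻¹' t ∈ nhdsWithin z (NZ K) :=
    hc.tendsto_nhdsWithin (fun w hw => nrm_mem F hw) ht
  refine ⟨K1 * K2, s ∩ nrm F ⁻¹' t, Filter.inter_mem (mem_nhdsWithin_of_mem_nhds hs) hpre, ?_⟩
  exact h1.comp (h2.mono Set.inter_subset_left) fun w hw => hw.2

variable {F}

/-- the square of an archimedean character -/
def dbl (ψ : Chr F) : Chr F where
  n φ := 2 * ψ.n φ
  t φ := 2 * ψ.t φ
  ht := by rw [← Finset.mul_sum, ψ.ht, mul_zero]

theorem dbl_val (ψ : Chr F) (y : (F →+* ℂ) → ℂ) : (dbl ψ).val y = ψ.val y ^ 2 := by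
  unfold Chr.val dbl
  rw [← Finset.prod_pow]
  refine Finset.prod_congr rfl fun φ _ => ?_
  dsimp only
  rw [mul_pow, ← Complex.exp_nat_mul, mul_comm 2 (ψ.n φ), zpow_mul]
  refine congr_arg₂ (· * ·) (zpow_ofNat _ 2) ?_
  push_cast
  congr 1
  ring

theorem norm_mulChar {R : Type} [CommRing R] [Finite R] (χ : MulChar R ℂ) {x : R} (hx : IsUnit x) :
    ‖χ x‖ = 1 := by
  obtain ⟨u, rfl⟩ := hx
  have h1 : χ u ^ orderOf u = 1 := by
    rw [← map_pow, ← Units.val_pow_eq_pow_val, pow_orderOf_eq_one, Units.val_one, map_one]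
  exact Complex.norm_eq_one_of_pow_eq_one h1 (orderOf_pos u).ne'

theorem coprime_iff {R : Type} [CommRing R] (a m : R) :
    IsCoprime (Ideal.span {a}) (Ideal.span {m}) ↔
      IsUnit (Ideal.Quotient.mk (Ideal.span {m}) a) := by
  rw [Ideal.isCoprime_span_singleton_iff]
  constructor
  · rintro ⟨u, v, h⟩
    refine IsUnit.of_mul_eq_one (Ideal.Quotient.mk _ u) ?_
    rw [← map_mul, ← map_one (Ideal.Quotient.mk _), Ideal.Quotient.eq, Ideal.mem_span_singleton]
    exact ⟨-v, by linear_combination h⟩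
  · intro h
    obtain ⟨w, hw⟩ := h.exists_right_inv
    obtain ⟨u, rfl⟩ := Ideal.Quotient.mk_surjective w
    rw [← map_mul, ← map_one (Ideal.Quotient.mk _), Ideal.Quotient.eq,
      Ideal.mem_span_singleton] at hw
    obtain ⟨c, hc⟩ := hw
    exact ⟨u, -c, by linear_combination hc⟩

open Classical in
/-- orthogonality of characters -/
theorem chars (G : Type) [CommGroup G] [Finite G] : ∃ (n : ℕ) (ω : Fin n → G →* ℂ), n ≠ 0 ∧
    ∀ g, ∑ j, ω j g = if g = 1 then (n : ℂ) else 0 := by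
  let := Fintype.ofFinite G
  let e := Fintype.equivFin (AddChar (Additive G) ℂ)
  refine ⟨Fintype.card (AddChar (Additive G) ℂ), fun j => (e.symm j).toMonoidHom.comp
    (MulEquiv.multiplicativeAdditive G).symm.toMonoidHom, Fintype.card_ne_zero, fun g => ?_⟩
  have h := AddChar.sum_apply_eq_ite (α := Additive G) (Additive.ofMul g)
  rw [← AddChar.card_eq (α := Additive G), ← e.symm.sum_comp] at h
  simpa using h

theorem norm_hom {G : Type} [Group G] [Finite G] (ω : G →* ℂ) (g : G) : ‖ω g‖ = 1 := by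
  have h1 : ω g ^ orderOf g = 1 := by rw [← map_pow, pow_orderOf_eq_one, map_one]
  exact Complex.norm_eq_one_of_pow_eq_one h1 (orderOf_pos g).ne'

end Pool.Agent.MP_14ad9d_nt.Full.HeckeOfAux
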