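import Pool.Agent.MP_14ad9d_nt.Full.R0

set_option autoImplicit false

open NumberField IsDedekindDomain

namespace Pool.Agent.MP_14ad9d_nt.Full

variable {l : ℕ} [Fact l.Prime] {K : Type} [Field K] [NumberField K] [IsGalois ℚ K] {ζ : K}

namespace R1Aux

open R0Aux

omit [IsGalois ℚ K] in
theorem exists_tame (hl : 2 < l) (S : Finset (Pr K)) : ∃ v : Pr K, Tm l v ∧ v ∉ S := by
  obtain ⟨v, -, hv⟩ := (dl l hl (E := K) ⊤ (by simp) (V := ZMod l) (fun _ => 0) (by simp) 0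
    (zero_mem _)).exists_notMem_finite (S.finite_toSet.union (finite_wild (l := l)))
  simp only [Set.mem_union, Set.mem_ofPred_eq, not_or, not_not, Finset.mem_coe] at hv
  exact ⟨v, hv.2, hv.1⟩

omit [IsGalois ℚ K] [Fact l.Prime] in
theorem exists_ram (x : K) : ∃ R : Finset (Pr K), ∀ v, v ∈ R ↔ Tm l v ∧ ¬(l : ℤ) ∣ ord v x :=
  ⟨((ord_finite x).subset (t := {v | Tm l v ∧ ¬(l : ℤ) ∣ ord v x}) fun _ hv e =>
    hv.2 (e ▸ dvd_zero _)).toFinset, fun _ => Set.Finite.mem_toFinset _⟩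

omit [IsGalois ℚ K] in
/-- an `l`-th power multiple with prescribed zeros and poles -/
theorem exists_zp {x : K} (hx : x ≠ 0) (A B : Finset (Pr K)) (h : ∀ v ∈ B, v ∉ A) :
    ∃ z : K, z ≠ 0 ∧ (∀ v ∈ A, 0 < ord v (x * z ^ l)) ∧ ∀ v ∈ B, ord v (x * z ^ l) < 0 := by
  classical
  have hp : (1 : ℤ) ≤ l := by exact_mod_cast (Fact.out : l.Prime).one_le
  obtain ⟨z, hz, h1⟩ := exists_ord (A ∪ B) fun v =>
    if v ∈ A then |ord v x| + 1 else -(|ord v x| + 1)
  refine ⟨z, hz, fun v hv => ?_, fun v hv => ?_⟩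
  · rw [ord_mul v hx (pow_ne_zero _ hz), ord_pow, h1 v (Finset.mem_union_left _ hv), if_pos hv]
    nlinarith [neg_abs_le (ord v x), abs_nonneg (ord v x)]
  · rw [ord_mul v hx (pow_ne_zero _ hz), ord_pow, h1 v (Finset.mem_union_right _ hv),
      if_neg (h v hv)]
    nlinarith [le_abs_self (ord v x), abs_nonneg (ord v x)]

theorem step1 (hl : 2 < l) (hd : ¬l ∣ Module.finrank ℚ K) (hζ : IsPrimitiveRoot ζ l) {α β : K}
    (hα0 : α ≠ 0) (hβ0 : β ≠ 0) (hα : Near l ζ (l + 1) α) (hβ : Near l ζ (l + 1) β)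
    (h : ∀ v : Pr K, Tm l v → ¬(l : ℤ) ∣ ord v β → (l : ℤ) ∣ ord v α) : Phi l ζ α β = 0 := by
  classical
  obtain ⟨A, hA⟩ := exists_ram (l := l) α
  obtain ⟨B, hB⟩ := exists_ram (l := l) β
  obtain ⟨p, tp, hp⟩ := exists_tame hl A
  obtain ⟨q, tq, hq⟩ := exists_tame hl (insert p B)
  have h0 := mul_ne_zero hα0 hβ0
  obtain ⟨z, hz, h1, h2⟩ := exists_zp (l := l) h0 (insert p B) (insert q A) fun v hv e => by
    rcases Finset.mem_insert.1 hv with rfl | hv
    · exact hq e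
    · rcases Finset.mem_insert.1 e with rfl | e
      · exact hp hv
      · exact ((hA v).1 hv).2 (h v ((hB v).1 e).1 ((hB v).1 e).2)
  have ht := mul_ne_zero h0 (pow_ne_zero l hz)
  have n1 : ∀ v ∈ insert p B, v.valuation K (1 + α * β * z ^ l - 1) < 1 := fun v hv => by
    rw [add_sub_cancel_left, val_lt_one_iff v ht]
    exact h1 v hv
  have hν := (ord_near_one (n1 p (Finset.mem_insert_self _ _))).1
  have e1 := r0 hl hd hζ hβ0 hβ (insert p B) (Finset.insert_nonempty _ _)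
    (fun v hv => (Finset.mem_insert.1 hv).elim (fun e => e ▸ tp) fun e => ((hB v).1 e).1)
    (fun v t hv => by
      by_contra e
      exact hv (Finset.mem_insert_of_mem ((hB v).2 ⟨t, e⟩))) hν n1
  have e2 := r0 hl hd hζ hα0 hα (insert q A) (Finset.insert_nonempty _ _)
    (fun v hv => (Finset.mem_insert.1 hv).elim (fun e => e ▸ tq) fun e => ((hA v).1 e).1)
    (fun v t hv => by
      by_contra e
      exact hv (Finset.mem_insert_of_mem ((hA v).2 ⟨t, e⟩))) (div_ne_zero hν ht) fun v hv => by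
      rw [add_div, div_self ht, add_sub_cancel_right, one_div, val_lt_one_iff v (inv_ne_zero ht),
        ord_inv]
      exact neg_pos.2 (h2 v hv)
  have e3 := Phi_steinberg hl hζ (neg_ne_zero.2 ht) fun e => hν (by rw [← e]; ring)
  rw [sub_neg_eq_add, Phi_neg_left hl hζ ht hν, Phi_mul_left hl hζ h0 (pow_ne_zero l hz) hν,
    Phi_mul_left hl hζ hα0 hβ0 hν, Phi_ell_left hl hζ hz hν, Phi_swap hl hζ hν hα0,
    Phi_swap hl hζ hν hβ0, e1] at e3
  rw [Phi_div_left hl hζ hν ht hα0, Phi_mul_left hl hζ h0 (pow_ne_zero l hz) hα0,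
    Phi_mul_left hl hζ hα0 hβ0 hα0, Phi_ell_left hl hζ hz hα0, Phi_self hl hζ,
    Phi_swap hl hζ hα0 hβ0] at e2
  linear_combination e2 + e3

theorem step2 (hl : 2 < l) (hd : ¬l ∣ Module.finrank ℚ K) (hζ : IsPrimitiveRoot ζ l) {α β : K}
    (hα0 : α ≠ 0) (hβ0 : β ≠ 0) (hβ : Near l ζ (l + 1) β)
    (h : ∀ v : Pr K, Tm l v → ¬(l : ℤ) ∣ ord v β → (l : ℤ) ∣ ord v α) : Phi l ζ α β = 0 := by
  classical
  obtain ⟨B, hB⟩ := exists_ram (l := l) β
  obtain ⟨p, tp, -⟩ := exists_tame (K := K) hl ∅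
  have hz : 1 - ζ ≠ 0 := sub_ne_zero.2 (hζ.ne_one (by omega)).symm
  have tm : ∀ v ∈ insert p B, Tm l v := fun v hv =>
    (Finset.mem_insert.1 hv).elim (fun e => e ▸ tp) fun e => ((hB v).1 e).1
  obtain ⟨x, hx, h1⟩ := wa' (insert p B ∪ (finite_wild (l := l)).toFinset)
    (fun v => if Tm l v then 1 else α⁻¹) fun v =>
      if Tm l v then -1 else ord v α - ord v ((1 - ζ) ^ (l + 1))
  have n1 : ∀ v ∈ insert p B, v.valuation K (x - 1) < 1 := fun v hv => by
    have := h1 v (Finset.mem_union_left _ hv)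
    rw [if_pos (tm v hv), if_pos (tm v hv)] at this
    exact this.trans_lt (by rw [← WithZero.exp_zero, WithZero.exp_lt_exp]; omega)
  have e1 := r0 hl hd hζ hβ0 hβ (insert p B) (Finset.insert_nonempty _ _) tm
    (fun v t hv => by
      by_contra e
      exact hv (Finset.mem_insert_of_mem ((hB v).2 ⟨t, e⟩))) hx n1
  have e2 := step1 hl hd hζ (mul_ne_zero hα0 hx) hβ0 ⟨1, one_ne_zero, fun v t => by
    have := h1 v (Finset.mem_union_right _ ((Set.Finite.mem_toFinset _).2 t))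
    rw [if_neg t, if_neg t] at this
    rw [one_pow, div_one, show α * x - 1 = α * (x - α⁻¹) by rw [mul_sub, mul_inv_cancel₀ hα0],
      map_mul, ← map_pow, val_eq_exp v hα0, val_eq_exp v (pow_ne_zero _ hz)]
    refine (mul_le_mul_right this _).trans_eq ?_
    rw [← WithZero.exp_add]
    congr 1
    ring⟩ hβ fun v t e => by
      rw [ord_mul v hα0 hx, (ord_near_one (n1 v (Finset.mem_insert_of_mem ((hB v).2 ⟨t, e⟩)))).2,
        add_zero]
      exact h v t e
  rwa [Phi_mul_left hl hζ hα0 hx hβ0, e1, add_zero] at e2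

theorem step3 (hl : 2 < l) (hd : ¬l ∣ Module.finrank ℚ K) (hζ : IsPrimitiveRoot ζ l) {β : K}
    (hβ0 : β ≠ 0) (hβ : Near l ζ (l + 1) β) (S : Finset (Pr K)) : ∀ α : K, α ≠ 0 →
      (∀ v : Pr K, v ∉ S → Tm l v → ¬(l : ℤ) ∣ ord v β → (l : ℤ) ∣ ord v α) →
        Phi l ζ α β = 0 := by
  classical
  have : NeZero l := ⟨(Fact.out : l.Prime).ne_zero⟩
  obtain ⟨B, hB⟩ := exists_ram (l := l) β
  induction S using Finset.induction_on with
  | empty => exact fun α hα h => step2 hl hd hζ hα hβ0 hβ fun v => h v (by simp)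
  | insert p S _ ih =>
    intro α hα h
    by_cases hp : (l : ℤ) ∣ ord p β
    · refine ih α hα fun v hv t e => h v (fun e' => ?_) t e
      rcases Finset.mem_insert.1 e' with rfl | e'
      · exact e hp
      · exact hv e'
    obtain ⟨z, hz, h1, h2⟩ := exists_zp (l := l) hβ0 (B.erase p) {p} (by simp)
    have ht := mul_ne_zero hβ0 (pow_ne_zero l hz)
    have h3 := h2 p (Finset.mem_singleton_self p)
    obtain ⟨hν, h4⟩ := ord_of_sub (v := p) (x := 1 - β * z ^ l) (y := -(β * z ^ l)) (by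
      rw [sub_neg_eq_add, sub_add_cancel, map_one, Valuation.map_neg, val_eq_exp p ht,
        ← WithZero.exp_zero, WithZero.exp_lt_exp]
      omega)
    have e1 := Phi_steinberg hl hζ ht fun e => hν (by rw [e, sub_self])
    rw [Phi_mul_left hl hζ hβ0 (pow_ne_zero l hz) hν, Phi_ell_left hl hζ hz hν, add_zero,
      Phi_swap hl hζ hν hβ0, neg_eq_zero] at e1
    obtain ⟨k, hk⟩ : ∃ k : ℕ, (k : ZMod l) = -(ord p α : ZMod l) / (ord p β : ZMod l) :=
      ⟨_, ZMod.natCast_zmod_val _⟩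
    have e2 := ih _ (mul_ne_zero hα (pow_ne_zero k hν)) fun v hv t e => by
      rw [ord_mul v hα (pow_ne_zero k hν), ord_pow]
      rcases eq_or_ne v p with rfl | hne
      · rw [h4, ord_neg, ord_mul v hβ0 (pow_ne_zero l hz), ord_pow,
          ← ZMod.intCast_zmod_eq_zero_iff_dvd]
        push_cast
        rw [hk, ZMod.natCast_self, zero_mul, add_zero,
          div_mul_cancel₀ _ (mt (ZMod.intCast_zmod_eq_zero_iff_dvd _ _).1 hp), add_neg_cancel]
      · rw [(ord_near_one (v := v) (x := 1 - β * z ^ l) (by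
          rw [sub_sub_cancel_left, Valuation.map_neg, val_lt_one_iff v ht]
          exact h1 v (Finset.mem_erase.2 ⟨hne, (hB v).2 ⟨t, e⟩⟩))).2, mul_zero, add_zero]
        exact h v (fun e' => (Finset.mem_insert.1 e').elim hne hv) t e
    rwa [Phi_mul_left hl hζ hα (pow_ne_zero k hν) hβ0, Phi_pow_left hl hζ hν hβ0, e1, mul_zero,
      add_zero] at e2

end R1Aux

/-- the reciprocity law for a primary element -/
theorem r1 (hl : 2 < l) (hd : ¬l ∣ Module.finrank ℚ K) (hζ : IsPrimitiveRoot ζ l) {α β : K}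
    (hα0 : α ≠ 0) (hβ0 : β ≠ 0) (hβ : Near l ζ (l + 1) β) : Phi l ζ α β = 0 := by
  obtain ⟨B, hB⟩ := R1Aux.exists_ram (l := l) β
  exact R1Aux.step3 hl hd hζ hβ0 hβ B α hα0 fun v hv t e => absurd ((hB v).2 ⟨t, e⟩) hv

open R0Aux in
theorem R1Aux.semi (hl : 2 < l) (hd : ¬l ∣ Module.finrank ℚ K) (hζ : IsPrimitiveRoot ζ l)
    {α β : K} (hα0 : α ≠ 0) (hβ0 : β ≠ 0)
    (hα : ∀ v : Pr K, ¬Tm l v → v.valuation K (α - 1) ≤ v.valuation K (1 - ζ) ^ ((l + 1) / 2))
    (hβ : ∀ v : Pr K, ¬Tm l v → v.valuation K (β - 1) ≤ v.valuation K (1 - ζ) ^ ((l + 1) / 2)) :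
    Phi l ζ α β = 0 := by
  rcases eq_or_ne α 1 with rfl | h1
  · simpa using Phi_ell_left hl hζ one_ne_zero hβ0
  have ha : 1 - α ≠ 0 := sub_ne_zero.2 h1.symm
  have e0 := Phi_steinberg hl hζ hα0 h1
  rcases eq_or_ne (α + (1 - α) * β) 0 with h | hν
  · have e : β = -α / (1 - α) := by
      rw [eq_div_iff ha]
      linear_combination h
    rw [e, Phi_div_right hl hζ hα0 (neg_ne_zero.2 hα0) ha, e0,
      Phi_swap hl hζ (neg_ne_zero.2 hα0) hα0, Phi_neg_left hl hζ hα0 hα0, Phi_self hl hζ]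
    simp
  have hn : Near l ζ (l + 1) (α + (1 - α) * β) := ⟨1, one_ne_zero, fun v t => by
    obtain ⟨k, hk⟩ : Odd l := (Fact.out : l.Prime).odd_of_ne_two (by omega)
    rw [one_pow, div_one, show α + (1 - α) * β - 1 = -((α - 1) * (β - 1)) by ring,
      Valuation.map_neg, map_mul]
    refine (mul_le_mul' (hα v t) (hβ v t)).trans_eq ?_
    rw [← pow_add]
    congr 1
    omega⟩
  have h2 := mul_ne_zero ha hβ0
  have e1 := Phi_steinberg hl hζ (div_ne_zero h2 hν) fun e => hα0 (by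
    rw [div_eq_one_iff_eq hν] at e
    linear_combination -e)
  rw [show 1 - (1 - α) * β / (α + (1 - α) * β) = α / (α + (1 - α) * β) by
      rw [eq_div_iff hν, sub_mul, div_mul_cancel₀ _ hν]; ring,
    Phi_div_right hl hζ (div_ne_zero h2 hν) hα0 hν, r1 hl hd hζ (div_ne_zero h2 hν) hν hn,
    Phi_div_left hl hζ h2 hν hα0, Phi_swap hl hζ hα0 hν, r1 hl hd hζ hα0 hν hn,
    Phi_mul_left hl hζ ha hβ0 hα0, Phi_swap hl hζ hα0 ha, e0, Phi_swap hl hζ hα0 hβ0] at e1
  linear_combination -e1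

open R0Aux in
/-- the reciprocity law for two semi-primary elements -/
theorem r2 (hl : 2 < l) (hd : ¬l ∣ Module.finrank ℚ K) (hζ : IsPrimitiveRoot ζ l) {α β : K}
    (hα0 : α ≠ 0) (hβ0 : β ≠ 0) (hα : Near l ζ ((l + 1) / 2) α) (hβ : Near l ζ ((l + 1) / 2) β) :
    Phi l ζ α β = 0 := by
  obtain ⟨γ, hγ0, hγ⟩ := hα
  obtain ⟨δ, hδ0, hδ⟩ := hβ
  have h1 := pow_ne_zero l hγ0
  have h2 := pow_ne_zero l hδ0
  have := R1Aux.semi hl hd hζ (div_ne_zero hα0 h1) (div_ne_zero hβ0 h2) hγ hδ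
  rwa [Phi_div_right hl hζ (div_ne_zero hα0 h1) hβ0 h2, Phi_ell_right hl hζ (div_ne_zero hα0 h1) hδ0,
    sub_zero, Phi_div_left hl hζ hα0 h1 hβ0, Phi_ell_left hl hζ hγ0 hβ0, sub_zero] at this

end Pool.Agent.MP_14ad9d_nt.Full
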