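import Pool.Agent.MP_14ad9d_nt.Full.Sym2
import Pool.Agent.MP_14ad9d_nt.Full.R1

set_option autoImplicit false
set_option linter.unusedSectionVars false

open NumberField IsDedekindDomain

namespace Pool.Agent.MP_14ad9d_nt.Full

variable {l : ℕ} [Fact l.Prime] {F K : Type} [Field F] [NumberField F] [Field K] [NumberField K]
  [Algebra F K]

namespace InstAux

theorem cls_zero : cls l (0 : K) = 0 := by
  simp [cls]

theorem ord_zero (v : Pr K) : ord v (0 : K) = 0 := by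
  simp [ord]

theorem cls_one : cls l (1 : K) = 0 :=
  (cls_eq_zero_iff one_ne_zero).2 ⟨1, (one_pow l).symm⟩

theorem cls_pow {x : K} (hx : x ≠ 0) (n : ℕ) : cls l (x ^ n) = n • cls l x := by
  rw [← zpow_natCast, cls_zpow hx, natCast_zsmul]

theorem cls_ell {x : K} (hx : x ≠ 0) : cls l (x ^ l) = 0 :=
  (cls_eq_zero_iff (pow_ne_zero _ hx)).2 ⟨x, rfl⟩

theorem cls_prod {ι : Type} (s : Finset ι) (f : ι → K) (hf : ∀ i ∈ s, f i ≠ 0) :
    cls l (∏ i ∈ s, f i) = ∑ i ∈ s, cls l (f i) := by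
  classical
  induction s using Finset.induction_on with
  | empty => simpa using cls_one
  | insert a s ha ih =>
    rw [Finset.prod_insert ha, Finset.sum_insert ha,
      cls_mul (hf a (Finset.mem_insert_self _ _))
        (Finset.prod_ne_zero_iff.2 fun i hi => hf i (Finset.mem_insert_of_mem hi)),
      ih fun i hi => hf i (Finset.mem_insert_of_mem hi)]

theorem eq_of_cls {x y : K} (hx : x ≠ 0) (hy : y ≠ 0) (h : cls l x = cls l y) :
    ∃ d : K, d ≠ 0 ∧ x = y * d ^ l := by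
  have e : cls l (x * y ^ (-1 : ℤ)) = 0 := by
    rw [cls_mul hx (zpow_ne_zero _ hy), cls_zpow hy, h]
    simp
  obtain ⟨d, hd⟩ := (cls_eq_zero_iff (mul_ne_zero hx (zpow_ne_zero _ hy))).1 e
  refine ⟨d, ?_, ?_⟩
  · rintro rfl
    rw [zero_pow (Fact.out : l.Prime).ne_zero] at hd
    exact mul_ne_zero hx (zpow_ne_zero _ hy) hd
  · rw [← hd, zpow_neg_one]
    field_simp

/-- multiplicative maps to a module over the prime field factor through the classes -/
theorem exists_lift {H : Type} [AddCommGroup H] [Module (ZMod l) H] (f : K → H)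
    (hf : ∀ x y, x ≠ 0 → y ≠ 0 → f (x * y) = f x + f y) :
    ∃ L : Hm l K →ₗ[ZMod l] H, ∀ x, x ≠ 0 → L (cls l x) = f x := by
  let φ : Additive Kˣ →+ H := AddMonoidHom.mk' (fun u => f ((Additive.toMul u : Kˣ) : K))
    fun a b => hf _ _ (Units.ne_zero _) (Units.ne_zero _)
  refine ⟨ModN.liftEquiv'.symm ⟨φ, fun g => ZModModule.char_nsmul_eq_zero l _⟩, fun x hx => ?_⟩
  rw [cls, dif_pos hx]
  rfl

theorem lin_ext {H : Type} [AddCommGroup H] [Module (ZMod l) H] {L L' : Hm l K →ₗ[ZMod l] H}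
    (h : ∀ x, x ≠ 0 → L (cls l x) = L' (cls l x)) : L = L' := by
  refine LinearMap.ext fun y => ?_
  obtain ⟨x, hx, rfl⟩ := cls_surj y
  exact h x hx

/-- multiplicative sets that contain the powers give subspaces -/
theorem exists_sub (Q : K → Prop) (hmul : ∀ x y, x ≠ 0 → y ≠ 0 → Q x → Q y → Q (x * y))
    (hpow : ∀ d, d ≠ 0 → Q (d ^ l)) :
    ∃ A : Submodule (ZMod l) (Hm l K), ∀ x, x ≠ 0 → (cls l x ∈ A ↔ Q x) := by
  let B : AddSubmonoid (Hm l K) :=
    { carrier := {h | ∃ x, x ≠ 0 ∧ Q x ∧ cls l x = h}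
      add_mem' := by
        rintro _ _ ⟨x, hx, qx, rfl⟩ ⟨y, hy, qy, rfl⟩
        exact ⟨x * y, mul_ne_zero hx hy, hmul x y hx hy qx qy, cls_mul hx hy⟩
      zero_mem' := ⟨1 ^ l, pow_ne_zero _ one_ne_zero, hpow 1 one_ne_zero, cls_ell one_ne_zero⟩ }
  refine ⟨{ B with smul_mem' := fun c h hh => ?_ }, fun x hx => ⟨?_, fun q => ⟨x, hx, q, rfl⟩⟩⟩
  · have : NeZero l := ⟨(Fact.out : l.Prime).ne_zero⟩
    rw [← ZMod.natCast_zmod_val c, Nat.cast_smul_eq_nsmul]
    exact B.nsmul_mem hh _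
  · rintro ⟨y, hy, qy, e⟩
    obtain ⟨d, hd, rfl⟩ := eq_of_cls hx hy e.symm
    exact hmul _ _ hy (pow_ne_zero _ hd) qy (hpow d hd)

theorem exists_rho : ∃ ρ : Representation (ZMod l) (K ≃ₐ[F] K) (Hm l K),
    ∀ g (x : K), ρ g (cls l x) = cls l (g x) := by
  have key : ∀ g : K ≃ₐ[F] K, ∃ L : Hm l K →ₗ[ZMod l] Hm l K,
      ∀ x, x ≠ 0 → L (cls l x) = cls l (g x) := fun g =>
    exists_lift _ fun x y hx hy => by
      rw [map_mul, cls_mul (by simpa using hx) (by simpa using hy)]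
  choose L hL using key
  refine ⟨⟨⟨L, lin_ext fun x hx => hL 1 x hx⟩, fun g h => lin_ext fun x hx => ?_⟩, fun g x => ?_⟩
  · rw [Module.End.mul_apply, hL h x hx, hL g _ (by simpa using hx), hL _ x hx]
    rfl
  · rcases eq_or_ne x 0 with rfl | hx
    · rw [map_zero g, cls_zero, map_zero]
    · exact hL g x hx

theorem exists_ord (v : Pr K) : ∃ L : Hm l K →ₗ[ZMod l] ZMod l,
    ∀ x : K, L (cls l x) = (ord v x : ZMod l) := by
  obtain ⟨L, hL⟩ := exists_lift (l := l) (fun x : K => (ord v x : ZMod l)) fun x y hx hy => by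
    rw [ord_mul v hx hy, Int.cast_add]
  refine ⟨L, fun x => ?_⟩
  rcases eq_or_ne x 0 with rfl | hx
  · rw [cls_zero, map_zero, ord_zero, Int.cast_zero]
  · exact hL x hx

theorem exists_tame (hl : 2 < l) {ζ : K} (hζ : IsPrimitiveRoot ζ l) {v : Pr K} (hv : Tm l v) :
    ∃ L : Hm l K →ₗ[ZMod l] Hm l K →ₗ[ZMod l] ZMod l,
      ∀ x y : K, x ≠ 0 → y ≠ 0 → L (cls l x) (cls l y) = tame l ζ v x y := by
  have key : ∀ x : K, ∃ L : Hm l K →ₗ[ZMod l] ZMod l,
      x ≠ 0 → ∀ y, y ≠ 0 → L (cls l y) = tame l ζ v x y := fun x => by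
    rcases eq_or_ne x 0 with rfl | hx
    · exact ⟨0, fun h => absurd rfl h⟩
    · obtain ⟨L, hL⟩ := exists_lift (l := l) (fun y : K => tame l ζ v x y) fun y y' hy hy' =>
        tame_mul_right hl hζ hv hx hy hy'
      exact ⟨L, fun _ => hL⟩
  choose T hT using key
  obtain ⟨L, hL⟩ := exists_lift (l := l) T fun x x' hx hx' => lin_ext fun y hy => by
    rw [LinearMap.add_apply, hT _ (mul_ne_zero hx hx') y hy, hT _ hx y hy, hT _ hx' y hy,
      tame_mul_left hl hζ hv hx hx' hy]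
  exact ⟨L, fun x y hx hy => by rw [hL x hx, hT x hx y hy]⟩

theorem near_mul {ζ : K} (hζ : IsPrimitiveRoot ζ l) (k : ℕ) {x y : K} (hx : Near l ζ k x)
    (hy : Near l ζ k y) : Near l ζ k (x * y) := by
  obtain ⟨γ, hγ, h₁⟩ := hx
  obtain ⟨δ, hδ, h₂⟩ := hy
  refine ⟨γ * δ, mul_ne_zero hγ hδ, fun v hv => ?_⟩
  have e : x * y / (γ * δ) ^ l - 1 =
      (x / γ ^ l - 1) * (y / δ ^ l - 1) + ((x / γ ^ l - 1) + (y / δ ^ l - 1)) := by
    rw [mul_pow, ← div_mul_div_comm]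
    ring
  rw [e]
  refine Valuation.map_add_le _ ?_ (Valuation.map_add_le _ (h₁ v hv) (h₂ v hv))
  rw [map_mul]
  exact (mul_le_of_le_one_right'
    ((h₂ v hv).trans (pow_le_one' (val_one_sub_lt hζ hv).le _))).trans (h₁ v hv)

theorem near_pow (ζ : K) (k : ℕ) {d : K} (hd : d ≠ 0) : Near l ζ k (d ^ l) :=
  ⟨d, hd, fun v _ => by simp [div_self (pow_ne_zero l hd)]⟩

theorem near_act {ζ : K} (σ : K ≃+* K) (hσ : σ ζ = ζ) (k : ℕ) {x : K} (hx : Near l ζ k x) :
    Near l ζ k (σ x) := by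
  obtain ⟨γ, hγ, h⟩ := hx
  refine ⟨σ γ, by simpa using hγ, fun w hw => ?_⟩
  obtain ⟨v, rfl⟩ : ∃ v, act σ v = w := (HeightOneSpectrum.equivOfRingEquiv _).surjective w
  have e := h v fun h' => hw ((tm_act σ l v).2 h')
  rw [← val_act σ v, ← val_act σ v (1 - ζ)] at e
  simpa [hσ] using e

theorem near_dvd {ζ : K} (hζ : IsPrimitiveRoot ζ l) (k : ℕ) {x : K} (hx0 : x ≠ 0)
    (hx : Near l ζ (k + 1) x) {v : Pr K} (hv : ¬Tm l v) : (l : ℤ) ∣ ord v x := by
  obtain ⟨γ, hγ, h⟩ := hx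
  have h1 : v.valuation K (x / γ ^ l - 1) < 1 :=
    (h v hv).trans_lt (pow_lt_one' (val_one_sub_lt hζ hv) k.succ_ne_zero)
  have h2 : v.valuation K (x / γ ^ l) = 1 := by
    have := (v.valuation K).map_one_add_of_lt h1
    rwa [add_sub_cancel] at this
  have h3 : ord v (x / γ ^ l) = 0 := by rw [ord, h2, WithZero.log_one, neg_zero]
  rw [div_eq_mul_inv, ord_mul v hx0 (inv_ne_zero (pow_ne_zero _ hγ)), ord_inv, ord_pow] at h3
  exact ⟨ord v γ, by linarith⟩

end InstAux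

open InstAux

theorem Setup.hz (S : Setup l F K) : IsPrimitiveRoot S.z l :=
  S.hζ.map_of_injective (algebraMap F K).injective

theorem Setup.map_z (S : Setup l F K) (g : K ≃ₐ[F] K) : g S.z = S.z :=
  g.commutes _

theorem Setup.card_ne (S : Setup l F K) : (Fintype.card (K ≃ₐ[F] K) : ZMod l) ≠ 0 := by
  rw [Ne, ZMod.natCast_eq_zero_iff]
  exact Nat.not_dvd_of_pos_of_lt Fintype.card_pos S.card_lt

theorem Setup.not_dvd (S : Setup l F K) : ¬l ∣ Module.finrank ℚ K := by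
  have hp : l.Prime := Fact.out
  have h2 := hp.two_le
  rw [S.deg, hp.dvd_mul, not_or]
  exact ⟨Nat.not_dvd_of_pos_of_lt Fintype.card_pos S.card_lt,
    Nat.not_dvd_of_pos_of_lt (by omega) (by omega)⟩

/-- the abstract data exist -/
theorem exists_mach (hl : 2 < l) [IsGalois ℚ K] (S : Setup l F K) :
    ∃ M : Mach (ZMod l) (K ≃ₐ[F] K) (Hm l K) (TP l K), Spec S M := by
  obtain ⟨ρ, hρ⟩ := exists_rho (l := l) (F := F) (K := K)
  choose O hO using fun p : TP l K => exists_ord (l := l) p.1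
  choose T hT using fun p : TP l K => exists_tame hl S.hz p.2
  choose π hπ0 hπ using fun p : TP l K => exists_ord_eq_one p.1
  obtain ⟨P, hP⟩ := exists_sub (l := l) (Near l S.z (l + 1))
    (fun x y _ _ => near_mul S.hz _) fun d hd => near_pow _ _ hd
  obtain ⟨U, hU⟩ := exists_sub (l := l) (fun x : K => ∀ v : Pr K, ¬Tm l v → (l : ℤ) ∣ ord v x)
    (fun x y hx hy h₁ h₂ v hv => by
      rw [ord_mul v hx hy]
      exact dvd_add (h₁ v hv) (h₂ v hv))
    fun d _ v _ => by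
      rw [ord_pow]
      exact dvd_mul_right _ _
  refine ⟨⟨ρ, O, T, fun p => cls l (π p : K), P, U, fun p => ?_, fun g p x => ?_,
    fun g p x y => ?_, fun x => ?_, fun p x => ?_, fun p x y h₁ h₂ => ?_, fun g x hx => ?_,
    fun g x hx => ?_, fun x hx => ?_, fun x y hy => ?_⟩, hρ, hO, hT, hP, hU⟩
  · rw [hO, hπ, Int.cast_one]
  · obtain ⟨x, -, rfl⟩ := cls_surj x
    rw [hρ, hO, hO, smul_val]
    exact congrArg _ (ord_act (g : K ≃+* K) p.1 x)
  · obtain ⟨x, hx, rfl⟩ := cls_surj x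
    obtain ⟨y, hy, rfl⟩ := cls_surj y
    rw [hρ, hρ, hT _ _ _ (by simpa using hx) (by simpa using hy), hT _ _ _ hx hy, smul_val]
    have e := tame_act (l := l) (ζ := S.z) (g : K ≃+* K) p.1 x y
    rwa [show (g : K ≃+* K) S.z = S.z from S.map_z g] at e
  · obtain ⟨x, -, rfl⟩ := cls_surj x
    refine ((ord_finite x).preimage Subtype.val_injective.injOn).subset fun p hp h => hp ?_
    rw [hO, h, Int.cast_zero]
  · obtain ⟨x, hx, rfl⟩ := cls_surj x
    rw [hT _ _ _ hx hx, tame_self hl S.hz p.2]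
  · obtain ⟨x, hx, rfl⟩ := cls_surj x
    obtain ⟨y, hy, rfl⟩ := cls_surj y
    rw [hO, ZMod.intCast_zmod_eq_zero_iff_dvd] at h₁ h₂
    rw [hT _ _ _ hx hy, tame_unr hl S.hz p.2 hx hy h₁ h₂]
  · obtain ⟨x, hx0, rfl⟩ := cls_surj x
    rw [hρ, hP _ (by simpa using hx0)]
    exact near_act (g : K ≃+* K) (S.map_z g) _ ((hP x hx0).1 hx)
  · obtain ⟨x, hx0, rfl⟩ := cls_surj x
    rw [hρ, hU _ (by simpa using hx0)]
    intro w hw
    obtain ⟨v, rfl⟩ : ∃ v, act (g : K ≃+* K) v = w :=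
      (HeightOneSpectrum.equivOfRingEquiv _).surjective w
    rw [show ord (act (g : K ≃+* K) v) (g x) = ord v x from ord_act (g : K ≃+* K) v x]
    exact (hU x hx0).1 hx v fun h' => hw ((tm_act _ l v).2 h')
  · obtain ⟨x, hx0, rfl⟩ := cls_surj x
    exact (hU x hx0).2 fun v hv => near_dvd S.hz l hx0 ((hP x hx0).1 hx) hv
  · obtain ⟨x, hx0, rfl⟩ := cls_surj x
    obtain ⟨y, hy0, rfl⟩ := cls_surj y
    rw [finsum_congr fun p => hT p x y hx0 hy0]
    exact r1 hl S.not_dvd S.hz hx0 hy0 ((hP y hy0).1 hy)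

/-- the residue symbol of the abstract data -/
theorem Spec.chi_eq (hl : 2 < l) {S : Setup l F K}
    {M : Mach (ZMod l) (K ≃ₐ[F] K) (Hm l K) (TP l K)} (h : Spec S M) (p : TP l K) {x : K}
    (hx : x ≠ 0) (h0 : ord p.1 x = 0) : M.chi p (cls l x) = chi l S.z p.1 x := by
  obtain ⟨y, hy, e⟩ := cls_surj (M.unif p)
  have h1 := M.ord_unif p
  rw [← e, h.2.1] at h1
  rw [Mach.chi, ← e, h.2.2.1 p x y hx hy, tame_unit hl S.hz p.2 hx h0, h1, one_mul]

theorem Spec.nrm_eq {S : Setup l F K} {M : Mach (ZMod l) (K ≃ₐ[F] K) (Hm l K) (TP l K)}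
    (h : Spec S M) {x : K} (hx : x ≠ 0) :
    nrm M.ρ (cls l x) = cls l (∏ g : K ≃ₐ[F] K, g x) := by
  rw [nrm, LinearMap.sum_apply, cls_prod _ _ fun g _ => by simpa using hx]
  exact Finset.sum_congr rfl fun g _ => h.1 g x

/-- invariant classes come from the base field -/
theorem Spec.fixed [IsGalois F K] {S : Setup l F K}
    {M : Mach (ZMod l) (K ≃ₐ[F] K) (Hm l K) (TP l K)} (h : Spec S M) (x : Hm l K)
    (hx : ∀ g, M.ρ g x = x) :
    ∃ r : 𝓞 F, r ≠ 0 ∧ cls l (algebraMap F K (r : F)) = x := by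
  have hp : l.Prime := Fact.out
  have : NeZero l := ⟨hp.ne_zero⟩
  obtain ⟨x, hx0, rfl⟩ := cls_surj x
  have e₁ : nrm M.ρ (cls l x) = (Fintype.card (K ≃ₐ[F] K) : ZMod l) • cls l x := by
    rw [nrm, LinearMap.sum_apply, Finset.sum_congr rfl fun g _ => hx g, Finset.sum_const,
      Nat.cast_smul_eq_nsmul, Finset.card_univ]
  rw [h.nrm_eq hx0, ← Algebra.norm_eq_prod_automorphisms] at e₁
  have hN : Algebra.norm F x ≠ 0 := by simpa using hx0
  set m := ((Fintype.card (K ≃ₐ[F] K) : ZMod l)⁻¹).val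
  have e₂ : cls l (algebraMap F K (Algebra.norm F x ^ m)) = cls l x := by
    rw [map_pow, cls_pow (by simpa using hx0), e₁, ← Nat.cast_smul_eq_nsmul (ZMod l), smul_smul,
      ZMod.natCast_zmod_val, inv_mul_cancel₀ S.card_ne, one_smul]
  obtain ⟨a, b, hb, e⟩ := IsFractionRing.div_surjective (A := 𝓞 F) (Algebra.norm F x ^ m)
  have hb0 : b ≠ 0 := nonZeroDivisors.ne_zero hb
  have hb1 : (b : F) ≠ 0 := by simpa using hb0
  have ha0 : a ≠ 0 := by
    rintro rfl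
    exact pow_ne_zero m hN (by simpa using e.symm)
  refine ⟨a * b ^ (l - 1), mul_ne_zero ha0 (pow_ne_zero _ hb0), ?_⟩
  have e₃ : ((a * b ^ (l - 1) : 𝓞 F) : F) = Algebra.norm F x ^ m * (b : F) ^ l := by
    rw [← e, ← Nat.sub_add_cancel hp.one_le, Nat.add_sub_cancel]
    change algebraMap (𝓞 F) F _ = (a : F) / (b : F) * _
    rw [map_mul, map_pow]
    change (a : F) * (b : F) ^ _ = _
    field_simp
    ring
  rw [e₃, map_mul, cls_mul (by simpa using fun h' => absurd h' hx0)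
    (by simpa using fun h' => absurd h' hb0), e₂, map_pow, cls_ell (by simpa using hb0),
    add_zero]

/-- all but finitely many primes of degree one are good -/
theorem Spec.good (hl : 2 < l) {S : Setup l F K}
    {M : Mach (ZMod l) (K ≃ₐ[F] K) (Hm l K) (TP l K)} (h : Spec S M) :
    ∃ T : Finset (Pr K), ∀ p : TP l K, p.1 ∉ T → Deg1 p.1 → M.Good p := by
  obtain ⟨T, hT⟩ := free_of_deg1 (E := F) (E' := K)
  refine ⟨T, fun p hp h1 => ⟨fun g hg => hT p.1 hp h1 g (congrArg Subtype.val hg), fun μ => ?_⟩⟩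
  obtain ⟨n, hn, e⟩ := chi_surj_int S.hz p.2 h1 μ
  have hn0 : (n : 𝓞 K) ≠ 0 := fun h' => hn (h' ▸ p.1.asIdeal.zero_mem)
  have h0 : ord p.1 (n : K) = 0 := by simpa using (ord_eq_zero_iff p.1 hn0).2 hn
  refine ⟨cls l (n : K), fun g => by rw [h.1, map_natCast], by rw [h.2.1, h0, Int.cast_zero], ?_⟩
  rw [h.chi_eq hl p (by simpa using hn0) h0, e]

end Pool.Agent.MP_14ad9d_nt.Full
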