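import Pool.Agent.MP_14ad9d_nt.Full.Inst

set_option autoImplicit false

open NumberField IsDedekindDomain

namespace Pool.Agent.MP_14ad9d_nt.Full.InstDAux

section General

variable {l : ℕ} [Fact l.Prime] {E : Type} [Field E] [NumberField E]

omit [NumberField E] in
/-- the map on classes induced by a field automorphism -/
theorem exists_iota (σ : E ≃+* E) :
    ∃ ι : Hm l E →ₗ[ZMod l] Hm l E, ∀ x : E, ι (cls l x) = cls l (σ x) := by
  let φ : Additive Eˣ →+ Hm l E :=
    (ModN.mkQ l).comp (MonoidHom.toAdditive (Units.map (σ : E →* E)))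
  have hφ : ∀ g, l • φ g = 0 := fun g => by
    rw [← Nat.cast_smul_eq_nsmul (ZMod l), ZMod.natCast_self, zero_smul]
  refine ⟨ModN.liftEquiv'.symm ⟨φ, hφ⟩, fun x => ?_⟩
  by_cases hx : x = 0
  · simp [cls, hx]
  · have hx' : σ x ≠ 0 := by simpa using hx
    simp only [cls, ne_eq, hx, hx', not_false_eq_true, dite_true]
    have : (ModN.liftEquiv'.symm ⟨φ, hφ⟩ : Hm l E →ₗ[ZMod l] Hm l E)
        (ModN.mkQ l (Additive.ofMul (Units.mk0 x hx))) =
        φ (Additive.ofMul (Units.mk0 x hx)) := rfl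
    rw [this]
    simp only [φ, AddMonoidHom.comp_apply]
    congr 1
    ext
    simp

omit [NumberField E] in
theorem act_act {E' E'' : Type} [Field E'] [Field E''] (σ : E ≃+* E') (τ : E' ≃+* E'')
    (v : Pr E) : act τ (act σ v) = act (σ.trans τ) v := by
  ext a
  exact Iff.rfl

omit [NumberField E] in
theorem act_refl (v : Pr E) : act (RingEquiv.refl E) v = v := by
  ext a
  exact Iff.rfl

omit [Fact l.Prime] in
theorem nearAt_act {ζ : E} (σ : E ≃+* E) (hσ : σ ζ = ζ) (k : ℕ) (v : Pr E) {x : E}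
    (h : NearAt l ζ k v x) : NearAt l ζ k (act σ v) (σ x) := by
  obtain ⟨γ, hγ, h⟩ := h
  refine ⟨σ γ, by simpa using hγ, ?_⟩
  have e1 : σ x / σ γ ^ l - 1 = σ (x / γ ^ l - 1) := by simp
  have e2 : 1 - ζ = σ (1 - ζ) := by simp [hσ]
  rw [e1, val_act, e2, val_act]
  exact h

omit [Fact l.Prime] in
theorem nearAt_fix {ζ : E} (σ : E ≃+* E) (k : ℕ) (v : Pr E) (hv : act σ v = v) {x : E}
    (h : NearAt l ζ k v x) : NearAt l ζ k v (σ x) := by
  obtain ⟨γ, hγ, h⟩ := h
  refine ⟨σ γ, by simpa using hγ, ?_⟩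
  have e1 : σ x / σ γ ^ l - 1 = σ (x / γ ^ l - 1) := by simp
  have e2 := val_act σ v (x / γ ^ l - 1)
  rw [hv] at e2
  rw [e1, e2]
  exact h

omit [Fact l.Prime] in
theorem nearAt_mul {ζ : E} {k : ℕ} {v : Pr E} (h1 : v.valuation E (1 - ζ) ≤ 1) {x y : E}
    (hx : NearAt l ζ k v x) (hy : NearAt l ζ k v y) : NearAt l ζ k v (x * y) := by
  obtain ⟨γ, hγ, hx⟩ := hx
  obtain ⟨δ, hδ, hy⟩ := hy
  refine ⟨γ * δ, mul_ne_zero hγ hδ, ?_⟩
  have hk : v.valuation E (1 - ζ) ^ k ≤ 1 := pow_le_one₀ zero_le h1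
  have e : x * y / (γ * δ) ^ l - 1 =
      (x / γ ^ l - 1) + (y / δ ^ l - 1) + (x / γ ^ l - 1) * (y / δ ^ l - 1) := by
    field_simp
    ring
  rw [e]
  refine Valuation.map_add_le _ (Valuation.map_add_le _ hx hy) ?_
  rw [map_mul]
  calc _ ≤ 1 * v.valuation E (1 - ζ) ^ k := mul_le_mul' (hx.trans hk) hy
    _ = _ := one_mul _

theorem cls_one : cls l (1 : E) = 0 := (cls_eq_zero_iff one_ne_zero).2 ⟨1, by simp⟩

theorem cls_div {x y : E} (hx : x ≠ 0) (hy : y ≠ 0) : cls l (x / y) = cls l x - cls l y := by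
  have := cls_mul (l := l) (div_ne_zero hx hy) hy
  rw [div_mul_cancel₀ _ hy] at this
  rw [this]; abel

theorem cls_pow {x : E} (hx : x ≠ 0) (n : ℕ) : cls l (x ^ n) = n • cls l x := by
  have := cls_zpow (l := l) hx (n : ℤ)
  simpa using this

/-- the subspace of classes close to a power at one prime -/
theorem exists_sub {ζ : E} (k : ℕ) {v : Pr E} (h1 : v.valuation E (1 - ζ) ≤ 1) :
    ∃ N : Submodule (ZMod l) (Hm l E), ∀ x : E, x ≠ 0 → (cls l x ∈ N ↔ NearAt l ζ k v x) := by
  let A : AddSubmonoid (Hm l E) :=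
    { carrier := {h | ∃ x : E, x ≠ 0 ∧ cls l x = h ∧ NearAt l ζ k v x}
      add_mem' := by
        rintro _ _ ⟨x, hx, rfl, hx'⟩ ⟨y, hy, rfl, hy'⟩
        exact ⟨x * y, mul_ne_zero hx hy, cls_mul hx hy, nearAt_mul h1 hx' hy'⟩
      zero_mem' := ⟨1, one_ne_zero, cls_one, 1, one_ne_zero, by simp⟩ }
  let N : Submodule (ZMod l) (Hm l E) :=
    { A with
      smul_mem' := by
        intro c h hh
        have : c • h = c.val • h := by
          conv_lhs => rw [← ZMod.natCast_zmod_val c]
          exact Nat.cast_smul_eq_nsmul _ _ _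
        change c • h ∈ A
        rw [this]
        exact A.nsmul_mem hh _ }
  refine ⟨N, fun x hx => ⟨?_, fun h => ⟨x, hx, rfl, h⟩⟩⟩
  rintro ⟨y, hy, e, γ, hγ, h⟩
  have h0 : cls l (x / y) = 0 := by rw [cls_div hx hy, e, sub_self]
  obtain ⟨d, hd⟩ := (cls_eq_zero_iff (div_ne_zero hx hy)).1 h0
  have hd0 : d ≠ 0 := by
    rintro rfl
    rw [zero_pow (Fact.out : l.Prime).ne_zero] at hd
    exact div_ne_zero hx hy hd
  refine ⟨γ * d, mul_ne_zero hγ hd0, ?_⟩
  have : x / (γ * d) ^ l = y / γ ^ l := by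
    rw [mul_pow, ← hd]
    field_simp
  rw [this]
  exact h

/-- multiplicative weak approximation -/
theorem wa_mul (T : Finset (Pr E)) (a : Pr E → E) (ha : ∀ v ∈ T, a v ≠ 0) (m : ℤ) :
    ∃ x : E, x ≠ 0 ∧ ∀ v ∈ T, v.valuation E (x / a v - 1) ≤ WithZero.exp (-m) := by
  obtain ⟨x, hx, h, -⟩ := wa T a (-m - ∑ v ∈ T, |ord v (a v)|)
  refine ⟨x, hx, fun v hv => ?_⟩
  have e : x / a v - 1 = (x - a v) * (a v)⁻¹ := by
    field_simp [ha v hv]
  rw [e, map_mul, val_eq_exp v (inv_ne_zero (ha v hv)), ord_inv, neg_neg]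
  calc _ ≤ WithZero.exp (-m - ∑ v ∈ T, |ord v (a v)|) * WithZero.exp (ord v (a v)) :=
        mul_le_mul' (h v hv) le_rfl
    _ ≤ _ := by
        rw [← WithZero.exp_add, WithZero.exp_le_exp]
        have h1 : |ord v (a v)| ≤ ∑ v ∈ T, |ord v (a v)| :=
          Finset.single_le_sum (f := fun v => |ord v (a v)|) (fun _ _ => abs_nonneg _) hv
        have h2 := le_abs_self (ord v (a v))
        omega

theorem val_nat_le (v : Pr E) (n : ℕ) : v.valuation E (n : E) ≤ 1 := by
  have := v.valuation_le_one (K := E) (n : 𝓞 E)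
  simpa using this

/-- at a prime of degree one an integral element is congruent to a natural number -/
theorem congr_nat' {v : Pr E} (h : Deg1 v) {x : E} (hx : v.valuation E x ≤ 1) :
    ∃ n : ℕ, v.valuation E (x - n) < 1 := by
  obtain ⟨y, hy0, hy, hy'⟩ := wa {v} (fun _ => x) (-1)
  have hyv : v.valuation E (y - x) < 1 := by
    refine (hy v (Finset.mem_singleton_self v)).trans_lt ?_
    rw [← WithZero.exp_zero, WithZero.exp_lt_exp]
    omega
  have hall : ∀ w : Pr E, w.valuation E y ≤ 1 := by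
    intro w
    by_cases hw : w = v
    · subst hw
      have : y = (y - x) + x := by ring
      rw [this]
      exact Valuation.map_add_le _ hyv.le hx
    · exact hy' w (by simpa using hw)
  obtain ⟨a, ha⟩ := exists_int (x := y) (fun w => by
    have := hall w
    rw [val_eq_exp w hy0, ← WithZero.exp_zero, WithZero.exp_le_exp] at this
    omega)
  obtain ⟨n, hn⟩ := Sym2Aux.congr_nat h a
  refine ⟨n, ?_⟩
  have h2 : v.valuation E (y - n) < 1 := by
    have := (v.valuation_lt_one_iff_mem (K := E) (a - n)).2 hn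
    rw [← ha]
    simpa using this
  have : x - n = (y - n) - (y - x) := by ring
  rw [this]
  exact Valuation.map_sub_lt _ h2 hyv

theorem pow_approx (v : Pr E) {μ : E} (hμ : v.valuation E μ ≤ 1) (n : ℕ) :
    v.valuation E ((1 + μ) ^ n - 1 - n * μ) ≤ v.valuation E μ ^ 2 := by
  induction n with
  | zero => simp
  | succ n ih =>
    have e : (1 + μ) ^ (n + 1) - 1 - ((n + 1 : ℕ) : E) * μ =
        (1 + μ) * ((1 + μ) ^ n - 1 - n * μ) + n * μ ^ 2 := by
      push_cast
      ring
    rw [e]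
    refine Valuation.map_add_le _ ?_ ?_
    · rw [map_mul]
      have : v.valuation E (1 + μ) ≤ 1 := Valuation.map_add_le _ (by simp) hμ
      calc _ ≤ 1 * v.valuation E μ ^ 2 := mul_le_mul' this ih
        _ = _ := one_mul _
    · rw [map_mul, map_pow]
      calc _ ≤ 1 * v.valuation E μ ^ 2 := mul_le_mul' (val_nat_le v n) le_rfl
        _ = _ := one_mul _

theorem lt_one_iff (a : WithZero (Multiplicative ℤ)) : a < 1 ↔ a ≤ WithZero.exp (-1) := by
  by_cases ha : a = 0
  · subst ha
    simp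
  · rw [← WithZero.exp_log ha, ← WithZero.exp_zero, WithZero.exp_lt_exp, WithZero.exp_le_exp]
    omega

/-- the filtration of the local units -/
theorem span_top {v : Pr E} (hv : ¬Tm l v) (hres : Ideal.absNorm v.asIdeal = l) {μ : E}
    (hμ0 : μ ≠ 0) (hμ : ord v μ = 1) (W : Submodule (ZMod l) (Hm l E))
    (h0 : ∀ y : E, y ≠ 0 → v.valuation E (y - 1) ≤ v.valuation E μ ^ (l + 1) → cls l y ∈ W)
    (h1 : cls l μ ∈ W) (h2 : ∀ i : ℕ, 1 ≤ i → i ≤ l → cls l (1 + μ ^ i) ∈ W) : W = ⊤ := by
  have hl : l.Prime := Fact.out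
  have hd : Deg1 v := by rw [Deg1, hres]; exact hl
  have hval : v.valuation E μ = WithZero.exp (-1) := by rw [val_eq_exp v hμ0, hμ]
  have hlt : v.valuation E μ < 1 := by rw [lt_one_iff, hval]
  have step : ∀ j : ℕ, j ≤ l → ∀ y : E, y ≠ 0 →
      v.valuation E (y - 1) ≤ v.valuation E μ ^ (l + 1 - j) → cls l y ∈ W := by
    intro j
    induction j with
    | zero => intro _ y hy h; exact h0 y hy (by simpa using h)
    | succ j ih =>
      intro hj y hy h
      obtain ⟨i, hi⟩ : ∃ i, i = l + 1 - (j + 1) := ⟨_, rfl⟩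
      have hi1 : 1 ≤ i := by omega
      have hi2 : i ≤ l := by omega
      have hi3 : l + 1 - j = i + 1 := by omega
      rw [← hi] at h
      rw [hi3] at ih
      have hν0 : μ ^ i ≠ 0 := pow_ne_zero _ hμ0
      have hνv : v.valuation E (μ ^ i) ≠ 0 := by simpa using hν0
      have hνlt : v.valuation E (μ ^ i) < 1 := by
        rw [map_pow]
        exact pow_lt_one₀ zero_le hlt (by omega)
      have hint : v.valuation E ((y - 1) / μ ^ i) ≤ 1 := by
        rw [map_div₀, div_le_one₀ (zero_lt_iff.2 hνv), map_pow]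
        exact h
      obtain ⟨n, hn⟩ := congr_nat' hd hint
      have hu : v.valuation E (1 + μ ^ i) = 1 := Valuation.map_one_add_of_lt _ hνlt
      have hu0 : 1 + μ ^ i ≠ 0 := by
        intro e
        rw [e] at hu
        simp at hu
      have hA : v.valuation E (y - 1 - n * μ ^ i) ≤ v.valuation E μ ^ (i + 1) := by
        have e : y - 1 - n * μ ^ i = ((y - 1) / μ ^ i - n) * μ ^ i := by field_simp
        rw [e, map_mul, map_pow, pow_succ']
        refine mul_le_mul' ?_ le_rfl
        rw [hval, ← lt_one_iff]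
        exact hn
      have hB : v.valuation E ((1 + μ ^ i) ^ n - 1 - n * μ ^ i) ≤ v.valuation E μ ^ (i + 1) := by
        refine (pow_approx v hνlt.le n).trans ?_
        rw [map_pow, ← pow_mul]
        exact pow_le_pow_right_of_le_one' hlt.le (by omega)
      have hC : v.valuation E (y / (1 + μ ^ i) ^ n - 1) ≤ v.valuation E μ ^ (i + 1) := by
        have e : y / (1 + μ ^ i) ^ n - 1 =
            ((y - 1 - n * μ ^ i) - ((1 + μ ^ i) ^ n - 1 - n * μ ^ i)) / (1 + μ ^ i) ^ n := by
          field_simp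
          ring
        rw [e, map_div₀, map_pow, hu, one_pow, div_one]
        exact Valuation.map_sub_le _ hA hB
      have hW := ih (by omega) _ (div_ne_zero hy (pow_ne_zero _ hu0)) hC
      rw [cls_div hy (pow_ne_zero _ hu0), cls_pow hu0] at hW
      have := W.add_mem hW (nsmul_mem (h2 i hi1 hi2) n)
      simpa using this
  have unit : ∀ y : E, y ≠ 0 → v.valuation E y = 1 → cls l y ∈ W := by
    intro y hy h
    obtain ⟨a, ha⟩ := congr_nat' hd h.le
    have hav : v.valuation E (a : E) = 1 := by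
      have e : (a : E) = y - (y - a) := by ring
      rw [e, ← h]
      exact Valuation.map_sub_eq_of_lt_left _ (by rw [h]; exact ha)
    have ha0 : (a : E) ≠ 0 := by
      intro e
      rw [e] at hav
      simp at hav
    have hf : v.valuation E ((a : E) ^ l - a) < 1 := by
      have hdv : (l : ℤ) ∣ (a : ℤ) ^ l - a := by
        rw [← ZMod.intCast_zmod_eq_zero_iff_dvd]
        push_cast
        rw [ZMod.pow_card, sub_self]
      obtain ⟨c, hc⟩ := hdv
      have e : (a : E) ^ l - a = (l : E) * (c : E) := by exact_mod_cast congrArg (Int.cast (R := E)) hc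
      rw [e, map_mul]
      have hl1 : v.valuation E (l : E) < 1 := by
        have := (v.valuation_lt_one_iff_mem (K := E) (l : 𝓞 E)).2 (not_not.1 hv)
        simpa using this
      have hc1 : v.valuation E (c : E) ≤ 1 := by
        have := v.valuation_le_one (K := E) (c : 𝓞 E)
        simpa using this
      calc _ ≤ v.valuation E (l : E) * 1 := mul_le_mul' le_rfl hc1
        _ < 1 := by rwa [mul_one]
    have hC : v.valuation E (y / (a : E) ^ l - 1) ≤ v.valuation E μ ^ (l + 1 - l) := by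
      have e : y / (a : E) ^ l - 1 = ((y - a) - ((a : E) ^ l - a)) / (a : E) ^ l := by
        field_simp
        ring
      rw [e, map_div₀, map_pow, hav, one_pow, div_one, Nat.add_sub_cancel_left, pow_one, hval,
        ← lt_one_iff]
      exact Valuation.map_sub_lt _ ha hf
    have hW := step l le_rfl _ (div_ne_zero hy (pow_ne_zero _ ha0)) hC
    rw [cls_div hy (pow_ne_zero _ ha0),
      (cls_eq_zero_iff (pow_ne_zero _ ha0)).2 ⟨_, rfl⟩, sub_zero] at hW
    exact hW
  rw [eq_top_iff]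
  intro h _
  obtain ⟨x, hx, rfl⟩ := cls_surj h
  have hz : μ ^ ord v x ≠ 0 := zpow_ne_zero _ hμ0
  have hW := unit _ (div_ne_zero hx hz) (Sym2Aux.val_of_ord v (div_ne_zero hx hz) (by
    rw [div_eq_mul_inv, ord_mul v hx (inv_ne_zero hz), ord_inv, ord_zpow, hμ]
    ring))
  rw [cls_div hx hz, cls_zpow hμ0] at hW
  have := W.add_mem hW (zsmul_mem h1 (ord v x))
  simpa using this

end General

end Pool.Agent.MP_14ad9d_nt.Full.InstDAux
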