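import Pool.Agent.MP_14ad9d_nt.Full.FI2

set_option autoImplicit false

open NumberField IsDedekindDomain

namespace Pool.Agent.MP_14ad9d_nt.Full.InstUAux

open FIAux

section Alg

variable {l : ℕ} [Fact l.Prime] {A H : Type} [AddCommGroup A] [Module.Finite ℤ A]
  [AddCommGroup H] [Module (ZMod l) H]

/-- a torsion element that is not divisible by `l` -/
theorem exists_tors {z : A} (hz0 : z ≠ 0) (hz : l • z = 0) :
    ∃ t ∈ Submodule.torsion ℤ A, ∀ y, t ≠ l • y := by
  have hp : l.Prime := Fact.out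
  have hl : (l : ℤ) ∈ nonZeroDivisors ℤ := mem_nonZeroDivisors_of_ne_zero (by exact_mod_cast hp.ne_zero)
  have : Finite (Submodule.torsion ℤ A) :=
    Module.finite_of_fg_torsion _ (Submodule.torsion_isTorsion)
  by_contra h
  push Not at h
  have hs : Function.Surjective fun x : Submodule.torsion ℤ A => l • x := by
    rintro ⟨t, ht⟩
    obtain ⟨y, rfl⟩ := h t ht
    obtain ⟨⟨n, hn⟩, e⟩ := ht
    refine ⟨⟨y, ⟨n * l, mul_mem hn hl⟩, ?_⟩, rfl⟩
    rw [Submonoid.mk_smul] at e ⊢
    rwa [mul_smul, natCast_zsmul]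
  have hi := Finite.injective_iff_surjective.2 hs
  refine hz0 (congrArg Subtype.val (hi (a₁ := ⟨z, ⟨l, hl⟩, ?_⟩) (a₂ := 0) ?_))
  · rwa [Submonoid.mk_smul, natCast_zsmul]
  · exact Subtype.ext (by simpa using hz)

theorem dim_ge (φ : A →+ H) (hker : ∀ x, φ x = 0 → ∃ y, x = l • y) {z : A} (hz0 : z ≠ 0)
    (hz : l • z = 0) (U : Submodule (ZMod l) H) [Module.Finite (ZMod l) U] (hU : ∀ x, φ x ∈ U) :
    Module.finrank ℤ A + 1 ≤ Module.finrank (ZMod l) U := by
  have hp : l.Prime := Fact.out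
  have : NeZero l := ⟨hp.ne_zero⟩
  obtain ⟨t, ht, hy⟩ := exists_tors hz0 hz
  let b := Module.finBasis ℤ (A ⧸ Submodule.torsion ℤ A)
  choose e he using fun i => (Submodule.torsion ℤ A).mkQ_surjective (b i)
  have li : LinearIndependent (ZMod l) fun o : Option (Fin _) =>
      (⟨φ (o.elim t e), hU _⟩ : U) := by
    refine Fintype.linearIndependent_iff.2 fun g hg => ?_
    have h1 : φ ((g none).val • t + ∑ i, (g (some i)).val • e i) = 0 := by
      have := congrArg Subtype.val hg
      rw [Fintype.sum_option] at this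
      simpa [map_sum, ← Nat.cast_smul_eq_nsmul (ZMod l)] using this
    obtain ⟨y, h2⟩ := hker _ h1
    have h3 : ∀ i, g (some i) = 0 := fun i => by
      have h4 := congrArg (fun x => b.repr ((Submodule.torsion ℤ A).mkQ x) i) h2
      simp only [map_add, map_nsmul, map_sum, he, Submodule.mkQ_apply,
        (Submodule.Quotient.mk_eq_zero _).2 ht, smul_zero, zero_add, Module.Basis.repr_self,
        Finsupp.finsetSum_apply, Finsupp.smul_apply, Finsupp.single_apply, smul_ite,
        Finset.sum_ite_eq', Finset.mem_univ, if_true, nsmul_eq_mul, mul_one] at h4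
      have h5 := congrArg (Int.cast : ℤ → ZMod l) h4
      simpa using h5
    rintro (_ | i)
    · rw [Fintype.sum_option] at hg
      simp only [h3, zero_smul, Finset.sum_const_zero, add_zero] at hg
      refine (smul_eq_zero.1 hg).resolve_right fun h => ?_
      obtain ⟨y, h6⟩ := hker t (congrArg Subtype.val h)
      exact hy y h6
    · exact h3 i
  have := li.fintype_card_le_finrank
  rwa [Fintype.card_option, Fintype.card_fin, finrank_quotient_eq_of_le_torsion le_rfl] at this

theorem finQ_of (φ : A →+ H) (U : Submodule (ZMod l) H) (hU : ∀ x ∈ U, ∃ a, φ a = x) :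
    FinQ U ⊥ := by
  classical
  obtain ⟨s, hs⟩ := Module.Finite.fg_top (R := ℤ) (M := A)
  refine ⟨s.image φ, fun x hx => ?_⟩
  obtain ⟨a, rfl⟩ := hU x hx
  rw [bot_sup_eq]
  have ha : a ∈ Submodule.span ℤ (s : Set A) := hs ▸ Submodule.mem_top
  clear hx
  induction ha using Submodule.span_induction with
  | mem a ha => exact Submodule.subset_span (by simpa using ⟨a, ha, rfl⟩)
  | zero => simp
  | add a b _ _ ha hb => rw [map_add]; exact add_mem ha hb
  | smul n a _ ha => rw [map_zsmul]; exact zsmul_mem ha n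

end Alg

variable {E : Type} [Field E] [NumberField E]

/-- elements that are units outside a set of primes -/
def SU (T : Set (Pr E)) : AddSubgroup (Additive Eˣ) where
  carrier := {x | ∀ v, v ∉ T → ord v (uv x) = 0}
  add_mem' {x y} hx hy v hv := by
    rw [uv_add, ord_mul v (uv_ne x) (uv_ne y), hx v hv, hy v hv, add_zero]
  zero_mem' v _ := ord_one v
  neg_mem' {x} hx v hv := by rw [uv_neg, ord_inv, hx v hv, neg_zero]

theorem mem_SU {T : Set (Pr E)} {x : Additive Eˣ} : x ∈ SU T ↔ ∀ v, v ∉ T → ord v (uv x) = 0 :=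
  Iff.rfl

/-- a multiple of every prime is principal -/
theorem exists_pow (v : Pr E) :
    ∃ y : E, y ≠ 0 ∧ ord v y ≠ 0 ∧ ∀ w, w ≠ v → ord w y = 0 := by
  obtain ⟨cl, hcl⟩ := cls_fin (E := E)
  obtain ⟨a, b, hab, e⟩ := Finite.exists_ne_map_eq_of_infinite fun n : ℤ => cl (Finsupp.single v n)
  obtain ⟨y, y0, hy⟩ := hcl _ _ e
  refine ⟨y, y0, ?_, fun w hw => ?_⟩
  · rw [← hy]
    simpa using sub_ne_zero.2 hab
  · rw [← hy]
    simp [Finsupp.single_eq_of_ne hw]

/-- the theorem on units outside a finite set of primes -/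
theorem su_rank (T : Finset (Pr E)) : Module.Finite ℤ (SU (T : Set (Pr E))) ∧
    T.card + Units.rank E ≤ Module.finrank ℤ (SU (T : Set (Pr E))) := by
  classical
  let f : SU (T : Set (Pr E)) →+ (T → ℤ) :=
    { toFun := fun x v => ord v.1 (uv x.1)
      map_zero' := funext fun v => ord_one v.1
      map_add' := fun x y => funext fun v => ord_mul v.1 (uv_ne x.1) (uv_ne y.1) }
  let j₀ : Additive (𝓞 E)ˣ →+ Additive Eˣ :=
    MonoidHom.toAdditive (Units.map (algebraMap (𝓞 E) E : 𝓞 E →* E))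
  have hj : ∀ (u : Additive (𝓞 E)ˣ) (v : Pr E), ord v (uv (j₀ u)) = 0 := fun u v =>
    (ord_eq_zero_iff v (a := (u.toMul : (𝓞 E)ˣ)) (Units.ne_zero _)).2 fun h =>
      v.isPrime.ne_top (Ideal.eq_top_of_isUnit_mem _ h (Units.isUnit _))
  let j : Additive (𝓞 E)ˣ →+ SU (T : Set (Pr E)) := j₀.codRestrict _ fun u v _ => hj u v
  obtain ⟨k1, k2⟩ := rank_units (E := E) ∅ Set.finite_empty f.ker j
    (fun a b e => Additive.toMul.injective (Units.ext (RingOfIntegers.coe_injective
      (congrArg (fun x : SU (T : Set (Pr E)) => uv x.1) e))))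
    (fun x hx => by
      obtain ⟨u, hu⟩ := exists_unit (uv_ne x.1) fun v => by
        by_cases h : v ∈ T
        · exact congrFun hx ⟨v, h⟩
        · exact x.2 v h
      exact ⟨Additive.ofMul u, Subtype.ext (uv_inj hu)⟩)
    fun u _ => funext fun v => hj _ v.1
  have k3 : Module.Finite ℤ (LinearMap.ker f.toIntLinearMap) := k1
  have k4 : Module.finrank ℤ (LinearMap.ker f.toIntLinearMap) = Units.rank E := k2
  have fin : Module.Finite ℤ (SU (T : Set (Pr E))) :=
    ⟨Submodule.fg_of_fg_map_of_fg_inf_ker f.toIntLinearMap (IsNoetherian.noetherian _) (by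
      rw [top_inf_eq]
      exact Module.Finite.iff_fg.1 k3)⟩
  refine ⟨fin, ?_⟩
  rw [← (LinearMap.ker f.toIntLinearMap).finrank_quotient_add_finrank, k4,
    f.toIntLinearMap.quotKerEquivRange.finrank_eq, add_le_add_iff_right]
  choose y y0 y1 y2 using fun v : Pr E => exists_pow v
  let x : T → SU (T : Set (Pr E)) := fun v => ⟨mk (y v) (y0 v), fun w hw =>
    y2 v w fun e => hw (e ▸ v.2)⟩
  have li : LinearIndependent ℤ fun v : T =>
      (⟨f (x v), x v, rfl⟩ : LinearMap.range f.toIntLinearMap) := by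
    refine Fintype.linearIndependent_iff.2 fun g hg w => ?_
    have h1 := congrFun (congrArg Subtype.val hg) w
    rw [Submodule.coe_sum, Finset.sum_apply] at h1
    change ∑ v : T, g v * ord w.1 (y v) = 0 at h1
    rw [Finset.sum_eq_single w (fun v _ hv =>
      mul_eq_zero_of_right _ (y2 v w fun e => hv (Subtype.ext e.symm))) (by simp)] at h1
    exact (mul_eq_zero.1 h1).resolve_right (y1 w)
  simpa using li.fintype_card_le_finrank

/-- correcting an element by an `l`-th power -/
theorem exists_corr (l : ℕ) : ∃ T : Finset (Pr E), ∀ x : E, x ≠ 0 → ∃ y : E, y ≠ 0 ∧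
    ∀ v, v ∉ T → (l : ℤ) ∣ ord v x → ord v (x / y ^ l) = 0 := by
  classical
  obtain ⟨cl, hcl⟩ := cls_fin (E := E)
  refine ⟨Finset.univ.biUnion fun c => (Function.invFun cl c).support, fun x hx => ?_⟩
  let d : Pr E →₀ ℤ := Finsupp.ofSupportFinite (fun v => ord v x / l)
    ((ord_finite x).subset fun v hv e => hv (by simp only [e, Int.zero_ediv]))
  obtain ⟨y, y0, hy⟩ := hcl d _ (Function.invFun_eq ⟨d, rfl⟩).symm
  refine ⟨y, y0, fun v hv h => ?_⟩
  have h1 : Function.invFun cl (cl d) v = 0 := by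
    by_contra e
    exact hv (Finset.mem_biUnion.2 ⟨_, Finset.mem_univ _, Finsupp.mem_support_iff.2 e⟩)
  rw [ord_div v hx (pow_ne_zero _ y0), ord_pow, ← hy, h1, sub_zero]
  exact sub_eq_zero.2 (Int.mul_ediv_cancel' h).symm

end Pool.Agent.MP_14ad9d_nt.Full.InstUAux
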