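import Pool.Agent.MP_14ad9d_nt.Full.ODefs

set_option autoImplicit false

namespace Pool.Agent.MP_14ad9d_nt.Full.OrthBAux

variable {k G H : Type} [Field k] [Group G] [AddCommGroup H] [Module k H]

/-- the sum of squares of a family of functionals -/
noncomputable def sumForm {R M ι : Type} [CommRing R] [AddCommGroup M] [Module R M]
    (s : Finset ι) (φ : ι → M →ₗ[R] R) : M →ₗ[R] M →ₗ[R] R :=
  ∑ i ∈ s, (LinearMap.mul R R).compl₁₂ (φ i) (φ i)

lemma sumForm_apply {R M ι : Type} [CommRing R] [AddCommGroup M] [Module R M]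
    (s : Finset ι) (φ : ι → M →ₗ[R] R) (x y : M) :
    sumForm s φ x y = ∑ i ∈ s, φ i x * φ i y := by
  simp [sumForm, LinearMap.sum_apply]

lemma rep_inv (ρ : Representation k G H) (g : G) (x : H) : ρ g (ρ g⁻¹ x) = x := by
  rw [← Module.End.mul_apply, ← map_mul, mul_inv_cancel, map_one, Module.End.one_apply]

lemma rep_mul (ρ : Representation k G H) (g h : G) (x : H) : ρ g (ρ h x) = ρ (g * h) x := by
  rw [← Module.End.mul_apply, ← map_mul]

lemma stab_sup {ρ : Representation k G H} {A B : Submodule k H} (hA : Stab ρ A)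
    (hB : Stab ρ B) : Stab ρ (A ⊔ B) := by
  intro g x hx
  obtain ⟨a, ha, b, hb, rfl⟩ := Submodule.mem_sup.1 hx
  rw [map_add]
  exact Submodule.add_mem_sup (hA g a ha) (hB g b hb)

lemma finQ_mono {A A₀ B B₀ : Submodule k H} (hA : A ≤ A₀) (hB : B₀ ≤ B) (h : FinQ A₀ B₀) :
    FinQ A B := by
  obtain ⟨s, hs⟩ := h
  exact ⟨s, hA.trans (hs.trans (sup_le_sup_right hB _))⟩

variable {H' : Type} [AddCommGroup H'] [Module k H']

lemma prod_apply (ρ : Representation k G H) (σ : Representation k G H') (g : G) (x : H × H') :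
    ρ.prod σ g x = (ρ g x.1, σ g x.2) := rfl

lemma stab_prod {ρ : Representation k G H} {σ : Representation k G H'} {A : Submodule k H}
    {A' : Submodule k H'} (hA : Stab ρ A) (hA' : Stab σ A') : Stab (ρ.prod σ) (A.prod A') :=
  fun g _ hx => ⟨hA g _ hx.1, hA' g _ hx.2⟩

lemma finQ_prod {A B : Submodule k H} {A' B' : Submodule k H'} (h : FinQ A B)
    (h' : FinQ A' B') : FinQ (A.prod A') (B.prod B') := by
  classical
  obtain ⟨s, hs⟩ := h
  obtain ⟨s', hs'⟩ := h'
  refine ⟨s.image (LinearMap.inl k H H') ∪ s'.image (LinearMap.inr k H H'), ?_⟩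
  rintro ⟨x, x'⟩ ⟨hx, hx'⟩
  obtain ⟨b, hb, u, hu, rfl⟩ := Submodule.mem_sup.1 (hs hx)
  obtain ⟨b', hb', u', hu', rfl⟩ := Submodule.mem_sup.1 (hs' hx')
  have e : ((b + u, b' + u') : H × H') =
      (b, b') + (LinearMap.inl k H H' u + LinearMap.inr k H H' u') := by simp
  rw [e]
  refine Submodule.add_mem_sup ⟨hb, hb'⟩ (Submodule.add_mem _ ?_ ?_)
  · have := Submodule.mem_map_of_mem (f := LinearMap.inl k H H') hu
    rw [Submodule.map_span] at this
    refine Submodule.span_mono ?_ this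
    rw [Finset.coe_union, Finset.coe_image]
    exact Set.subset_union_left
  · have := Submodule.mem_map_of_mem (f := LinearMap.inr k H H') hu'
    rw [Submodule.map_span] at this
    refine Submodule.span_mono ?_ this
    rw [Finset.coe_union, Finset.coe_image, Finset.coe_image]
    exact Set.subset_union_right

lemma orth_prod {ρ : Representation k G H} {σ : Representation k G H'} {A B : Submodule k H}
    {A' B' : Submodule k H'} (h : OrthQ ρ A B) (h' : OrthQ σ A' B') :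
    OrthQ (ρ.prod σ) (A.prod A') (B.prod B') := by
  obtain ⟨b, s1, i1, r1⟩ := h
  obtain ⟨b', s2, i2, r2⟩ := h'
  refine ⟨b.compl₁₂ (LinearMap.fst k H H') (LinearMap.fst k H H') +
    b'.compl₁₂ (LinearMap.snd k H H') (LinearMap.snd k H H'), ?_, ?_, ?_⟩
  · intro x hx y hy
    simp only [LinearMap.add_apply, LinearMap.compl₁₂_apply, LinearMap.fst_apply,
      LinearMap.snd_apply]
    rw [s1 _ hx.1 _ hy.1, s2 _ hx.2 _ hy.2]
  · intro g x hx y hy
    simp only [LinearMap.add_apply, LinearMap.compl₁₂_apply, LinearMap.fst_apply,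
      LinearMap.snd_apply, prod_apply]
    rw [i1 g _ hx.1 _ hy.1, i2 g _ hx.2 _ hy.2]
  · intro x hx
    simp only [LinearMap.add_apply, LinearMap.compl₁₂_apply, LinearMap.fst_apply,
      LinearMap.snd_apply]
    constructor
    · intro h
      refine ⟨(r1 _ hx.1).1 fun y hy => ?_, (r2 _ hx.2).1 fun y hy => ?_⟩
      · simpa using h (y, 0) ⟨hy, A'.zero_mem⟩
      · simpa using h (0, y) ⟨A.zero_mem, hy⟩
    · intro h y hy
      rw [(r1 _ hx.1).2 h.1 _ hy.1, (r2 _ hx.2).2 h.2 _ hy.2, add_zero]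

/-- transport of an orthogonal structure along a map that is an equivariant isomorphism of
subquotients -/
lemma orth_pull {ρ : Representation k G H} {σ : Representation k G H'} {A B : Submodule k H}
    {A' B' : Submodule k H'} (T : H →ₗ[k] H') (hA : Stab ρ A) (hA' : Stab σ A')
    (hBA' : B' ≤ A') (hT : ∀ x ∈ A, T x ∈ A')
    (hsurj : ∀ y ∈ A', ∃ x ∈ A, y - T x ∈ B')
    (heq : ∀ g, ∀ x ∈ A, T (ρ g x) - σ g (T x) ∈ B')
    (hker : ∀ x ∈ A, T x ∈ B' ↔ x ∈ B) (h : OrthQ σ A' B') : OrthQ ρ A B := by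
  obtain ⟨b, s1, i1, r1⟩ := h
  have hl : ∀ n ∈ B', ∀ y ∈ A', b n y = 0 := fun n hn => (r1 n (hBA' hn)).2 hn
  have hr : ∀ n ∈ B', ∀ y ∈ A', b y n = 0 := fun n hn y hy => by
    rw [s1 y hy n (hBA' hn)]; exact hl n hn y hy
  refine ⟨b.compl₁₂ T T, ?_, ?_, ?_⟩
  · intro x hx y hy
    simp only [LinearMap.compl₁₂_apply]
    exact s1 _ (hT x hx) _ (hT y hy)
  · intro g x hx y hy
    simp only [LinearMap.compl₁₂_apply]
    have e1 : T (ρ g x) = (T (ρ g x) - σ g (T x)) + σ g (T x) := by abel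
    have e2 : T (ρ g y) = (T (ρ g y) - σ g (T y)) + σ g (T y) := by abel
    rw [e1, map_add, LinearMap.add_apply, hl _ (heq g x hx) _ (hT _ (hA g y hy)), zero_add, e2,
      map_add, hr _ (heq g y hy) _ (hA' g _ (hT x hx)), zero_add]
    exact i1 g _ (hT x hx) _ (hT y hy)
  · intro x hx
    simp only [LinearMap.compl₁₂_apply]
    rw [← hker x hx, ← r1 _ (hT x hx)]
    constructor
    · intro h y hy
      obtain ⟨z, hz, hyz⟩ := hsurj y hy
      have e : y = (y - T z) + T z := by abel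
      rw [e, map_add, hr _ hyz _ (hT x hx), zero_add]
      exact h z hz
    · intro h y hy
      exact h _ (hT y hy)

/-- an equivariant projection onto a stable subspace -/
lemma exists_proj [Fintype G] (ρ : Representation k G H) (hG : (Fintype.card G : k) ≠ 0)
    {I : Submodule k H} (hI : Stab ρ I) :
    ∃ P : H →ₗ[k] H, (∀ x, P x ∈ I) ∧ (∀ x ∈ I, P x = x) ∧ ∀ g x, P (ρ g x) = ρ g (P x) := by
  obtain ⟨J, hJ⟩ := I.exists_isCompl
  set p := I.projection J hJ with hp
  refine ⟨(Fintype.card G : k)⁻¹ • ∑ g, (ρ g) ∘ₗ p ∘ₗ (ρ g⁻¹), ?_, ?_, ?_⟩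
  · intro x
    simp only [LinearMap.smul_apply, LinearMap.sum_apply, LinearMap.comp_apply]
    exact I.smul_mem _ (I.sum_mem fun g _ => hI g _ (Submodule.projection_apply_mem hJ _))
  · intro x hx
    simp only [LinearMap.smul_apply, LinearMap.sum_apply, LinearMap.comp_apply]
    have : ∀ g : G, ρ g (p (ρ g⁻¹ x)) = x := fun g => by
      rw [hp, Submodule.projection_apply_of_mem_left hJ (hI _ x hx), rep_inv]
    simp only [this, Finset.sum_const, Finset.card_univ]
    rw [← Nat.cast_smul_eq_nsmul k, smul_smul, inv_mul_cancel₀ hG, one_smul]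
  · intro h x
    simp only [LinearMap.smul_apply, LinearMap.sum_apply, LinearMap.comp_apply, map_smul,
      map_sum]
    congr 1
    refine (Fintype.sum_equiv (Equiv.mulLeft h) _ _ fun g => ?_).symm
    simp only [Equiv.coe_mulLeft, rep_mul]
    rw [mul_inv_rev, inv_mul_cancel_right]

/-- separation of two subspaces meeting inside `N` -/
lemma exists_sep {N Vp Vm : Submodule k H} (hNp : N ≤ Vp) (hNm : N ≤ Vm) (hpm : Vp ⊓ Vm ≤ N) :
    ∃ q : H →ₗ[k] H, (∀ x ∈ Vp, q x = x) ∧ ∀ y ∈ Vm, q y ∈ N := by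
  obtain ⟨Y, hY, hYs⟩ := IsModularLattice.exists_disjoint_and_sup_eq hNm
  have hYm : Y ≤ Vm := hYs ▸ le_sup_right
  have hd : Disjoint Y Vp := by
    rw [Submodule.disjoint_def]
    intro y hy hyp
    exact (Submodule.disjoint_def.1 hY) y (hpm ⟨hyp, hYm hy⟩) hy
  obtain ⟨K, hYK, hK⟩ := hd.exists_isCompl
  refine ⟨Vp.projection K hK.symm, fun x hx => Submodule.projection_apply_of_mem_left _ hx,
    fun y hy => ?_⟩
  rw [← hYs] at hy
  obtain ⟨n, hn, z, hz, rfl⟩ := Submodule.mem_sup.1 hy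
  rw [map_add, Submodule.projection_apply_of_mem_left _ (hNp hn),
    Submodule.projection_apply_of_mem_right _ (hYK hz), add_zero]
  exact hn

/-- every functional on `Vp` killing `N` is represented by an element of `Vm` -/
lemma exists_rep {N Vp Vm : Submodule k H} (B : H →ₗ[k] H →ₗ[k] k) (hfm : FinQ Vm N)
    (h1 : ∀ x ∈ Vp, (∀ y ∈ Vm, B x y = 0) → x ∈ N) (h2 : ∀ y ∈ N, ∀ x ∈ Vp, B x y = 0)
    (f : H →ₗ[k] k) (hf : ∀ x ∈ N, f x = 0) : ∃ y ∈ Vm, ∀ x ∈ Vp, B x y = f x := by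
  classical
  let Φ : H →ₗ[k] Module.Dual k Vp := (B.domRestrict Vp).flip
  have hΦ : ∀ y (x : Vp), Φ y x = B x y := fun y x => rfl
  obtain ⟨s, hs⟩ := hfm
  have hle : Vm.map Φ ≤ Submodule.span k (s.image Φ : Set (Module.Dual k Vp)) := by
    rintro _ ⟨y, hy, rfl⟩
    obtain ⟨n, hn, u, hu, rfl⟩ := Submodule.mem_sup.1 (hs hy)
    have : Φ n = 0 := by ext x; exact h2 n hn x x.2
    rw [map_add, this, zero_add, Finset.coe_image, ← Submodule.map_span]
    exact Submodule.mem_map_of_mem hu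
  have : FiniteDimensional k (Vm.map Φ) := Submodule.finiteDimensional_of_le hle
  have hmem : f.domRestrict Vp ∈ Vm.map Φ := by
    rw [← Subspace.dualCoannihilator_dualAnnihilator_eq (W := Vm.map Φ),
      Submodule.mem_dualAnnihilator]
    intro x hx
    rw [Submodule.mem_dualCoannihilator] at hx
    exact hf x (h1 x x.2 fun y hy => hx (Φ y) ⟨y, hy, rfl⟩)
  obtain ⟨y, hy, e⟩ := hmem
  exact ⟨y, hy, fun x hx => by
    have := congrArg (fun F : Module.Dual k Vp => F ⟨x, hx⟩) e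
    exact this⟩

/-- the hyperbolic form on a quotient of `Vp` and its dual -/
lemma orth_hyp (ρ : Representation k G H) {N Vp Vm I Xm : Submodule k H}
    (B : H →ₗ[k] H →ₗ[k] k) (hB : ∀ g x y, B (ρ g x) (ρ g y) = B x y) (hNI : N ≤ I)
    (hIV : I ≤ Vp) (hNm : N ≤ Vm) (hfm : FinQ Vm N)
    (h1 : ∀ x ∈ Vp, (∀ y ∈ Vm, B x y = 0) ↔ x ∈ N)
    (h2 : ∀ y ∈ Vm, (∀ x ∈ Vp, B x y = 0) ↔ y ∈ N)
    (hX : ∀ y, y ∈ Xm ↔ y ∈ Vm ∧ ∀ x ∈ I, B x y = 0) :
    OrthQ (ρ.prod ρ) (Vp.prod Xm) (I.prod N) := by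
  refine ⟨B.compl₁₂ (LinearMap.fst k H H) (LinearMap.snd k H H) +
    B.flip.compl₁₂ (LinearMap.snd k H H) (LinearMap.fst k H H), ?_, ?_, ?_⟩
  · intro x _ y _
    simp only [LinearMap.add_apply, LinearMap.compl₁₂_apply, LinearMap.fst_apply,
      LinearMap.snd_apply, LinearMap.flip_apply]
    ring
  · intro g x _ y _
    simp only [LinearMap.add_apply, LinearMap.compl₁₂_apply, LinearMap.fst_apply,
      LinearMap.snd_apply, LinearMap.flip_apply, prod_apply, hB]
  · intro x hx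
    simp only [LinearMap.add_apply, LinearMap.compl₁₂_apply, LinearMap.fst_apply,
      LinearMap.snd_apply, LinearMap.flip_apply]
    constructor
    · intro h
      refine ⟨?_, (h2 _ ((hX _).1 hx.2).1).1 fun c hc => ?_⟩
      · by_contra hc
        obtain ⟨f, hf, hfI⟩ := Submodule.exists_le_ker_of_notMem hc
        obtain ⟨y, hy, e⟩ := exists_rep B hfm (fun x hx => (h1 x hx).1)
          (fun y hy => (h2 y (hNm hy)).2 hy) f fun x hx => hfI (hNI hx)
        have hyX : y ∈ Xm := (hX y).2 ⟨hy, fun c hc => by rw [e c (hIV hc)]; exact hfI hc⟩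
        have := h (0, y) ⟨Vp.zero_mem, hyX⟩
        simp only [map_zero, LinearMap.zero_apply, add_zero] at this
        exact hf (by rw [← e _ hx.1]; exact this)
      · simpa using h (c, 0) ⟨hc, Xm.zero_mem⟩
    · intro h y hy
      rw [((hX _).1 hy.2).2 _ h.1, (h2 _ (hNm h.2)).2 h.2 _ hy.1, add_zero]

end Pool.Agent.MP_14ad9d_nt.Full.OrthBAux
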