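import Pool.Agent.MP_14ad9d_nt.Full.OrthA
import Pool.Agent.MP_14ad9d_nt.Full.OrthB1

set_option autoImplicit false

namespace Pool.Agent.MP_14ad9d_nt.Full.OrthBAux

section Lattice

variable {M : Type} [AddCommGroup M]

/-- the sublattice of vectors whose pairing with everything is divisible by `c` -/
def latt (b : M →ₗ[ℤ] M →ₗ[ℤ] ℤ) (c : ℤ) : Submodule ℤ M where
  carrier := {x | ∀ y, c ∣ b x y}
  add_mem' := fun {x x'} hx hx' y => by
    rw [map_add, LinearMap.add_apply]; exact dvd_add (hx y) (hx' y)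
  zero_mem' := fun y => by simp
  smul_mem' := fun r x hx y => by
    rw [map_smul, LinearMap.smul_apply]; exact Dvd.dvd.mul_left (hx y) r

lemma mem_latt {b : M →ₗ[ℤ] M →ₗ[ℤ] ℤ} {c : ℤ} {x : M} : x ∈ latt b c ↔ ∀ y, c ∣ b x y :=
  Iff.rfl

lemma exists_div {E : Type} [AddCommGroup E] (χ : E →ₗ[ℤ] ℤ) {c : ℤ} (hc : c ≠ 0)
    (h : ∀ e, c ∣ χ e) : ∃ ψ : E →ₗ[ℤ] ℤ, ∀ e, χ e = c * ψ e := by
  choose s hs using h
  refine ⟨(AddMonoidHom.mk' s fun e e' => ?_).toIntLinearMap, hs⟩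
  apply mul_left_cancel₀ hc
  rw [← hs, map_add, hs, hs, mul_add]

/-- the key duality step -/
lemma latt_key [Module.Finite ℤ M] [Module.Free ℤ M] (b : M →ₗ[ℤ] M →ₗ[ℤ] ℤ)
    (hs : ∀ x y, b x y = b y x) {c l : ℤ} (hc : c ≠ 0) (hl : l ≠ 0) {x : M}
    (hx : ∀ y ∈ latt b c, c * l ∣ b x y) : ∃ z : M, x - l • z ∈ latt b (c * l) := by
  let T : (M × Module.Dual ℤ M) →ₗ[ℤ] Module.Dual ℤ M :=
    b ∘ₗ LinearMap.fst ℤ M _ - c • LinearMap.snd ℤ M _
  have hT : ∀ e, T e = b e.1 - c • e.2 := fun e => rfl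
  obtain ⟨σ, hσ⟩ := T.rangeRestrict.exists_rightInverse_of_surjective
    (LinearMap.range_rangeRestrict T)
  let r : (M × Module.Dual ℤ M) →ₗ[ℤ] (M × Module.Dual ℤ M) :=
    LinearMap.id - σ ∘ₗ T.rangeRestrict
  have hr : ∀ e, r e = e - σ (T.rangeRestrict e) := fun e => rfl
  have hrK : ∀ e, T (r e) = 0 := fun e => by
    have h1 : T.rangeRestrict (σ (T.rangeRestrict e)) = T.rangeRestrict e :=
      LinearMap.congr_fun hσ _
    have h2 : T (σ (T.rangeRestrict e)) = T e := congrArg Subtype.val h1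
    rw [hr, map_sub, h2, sub_self]
  have hKr : ∀ e, T e = 0 → r e = e := fun e he => by
    have : T.rangeRestrict e = 0 := Subtype.ext he
    rw [hr, this, map_zero, sub_zero]
  have hK : ∀ e, T e = 0 → e.1 ∈ latt b c := fun e he y => by
    rw [hT, sub_eq_zero] at he
    rw [he]
    exact Dvd.intro _ rfl
  obtain ⟨ψ, hψ⟩ := exists_div (b x ∘ₗ LinearMap.fst ℤ M _ ∘ₗ r) (mul_ne_zero hc hl)
    fun e => hx _ (hK _ (hrK e))
  obtain ⟨z, hz⟩ := (Module.evalEquiv ℤ M).surjective (ψ ∘ₗ LinearMap.inr ℤ M _)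
  have hz' : ∀ f : Module.Dual ℤ M, ψ (0, f) = f z := fun f => by
    have := LinearMap.congr_fun hz f
    simpa using this.symm
  refine ⟨z, fun y => ⟨ψ (y, 0), ?_⟩⟩
  have he : T (c • y, b y) = 0 := by rw [hT]; simp
  have h1 := hψ (c • y, b y)
  simp only [LinearMap.comp_apply, hKr _ he, LinearMap.fst_apply, map_smul, smul_eq_mul] at h1
  have h2 : ((c • y, b y) : M × Module.Dual ℤ M) = c • (y, 0) + (0, b y) := by simp
  rw [h2, map_add, map_smul, hz', smul_eq_mul] at h1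
  have h3 : b x y = l * (c * ψ (y, 0) + b y z) := by
    apply mul_left_cancel₀ hc
    rw [h1]; ring
  rw [map_sub, map_smul, LinearMap.sub_apply, LinearMap.smul_apply, smul_eq_mul, h3, hs z y]
  ring

/-- deep sublattices lie in `l M` -/
lemma latt_deep [Module.Finite ℤ M] [Module.Free ℤ M] (b : M →ₗ[ℤ] M →ₗ[ℤ] ℤ)
    (hb : ∀ x, b x x = 0 → x = 0) {l : ℕ} (hl : l.Prime) :
    ∃ J : ℕ, ∀ x ∈ latt b ((l : ℤ) ^ J), ∃ z : M, x = (l : ℤ) • z := by
  classical
  let e := Module.Free.chooseBasis ℤ M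
  let Γ : Matrix _ _ ℤ := Matrix.of fun i j => b (e j) (e i)
  have hΓ : ∀ (x : M) i, (Γ.mulVec (e.repr x)) i = b x (e i) := fun x i => by
    conv_rhs => rw [← e.sum_repr x]
    simp only [Γ, Matrix.mulVec, dotProduct, Matrix.of_apply, map_sum, map_smul,
      LinearMap.sum_apply, LinearMap.smul_apply, smul_eq_mul]
    exact Finset.sum_congr rfl fun j _ => mul_comm _ _
  have hdet : Γ.det ≠ 0 := by
    intro h0
    obtain ⟨v, hv, hv0⟩ := Matrix.exists_mulVec_eq_zero_iff.2 h0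
    let x : M := e.equivFun.symm v
    have hxv : (e.repr x : _ → ℤ) = v := by
      have : e.equivFun x = v := e.equivFun.apply_symm_apply v
      rw [← this]; rfl
    have hx0 : ∀ i, b x (e i) = 0 := fun i => by rw [← hΓ, hxv, hv0]; rfl
    have : b x = 0 := e.ext hx0
    have hx : x = 0 := hb x (by rw [this]; rfl)
    apply hv
    rw [← hxv, hx]; simp
  refine ⟨Γ.det.natAbs, fun x hx => ?_⟩
  have hlp : Prime (l : ℤ) := Nat.prime_iff_prime_int.1 hl
  have hdiv : ∀ i, (l : ℤ) ∣ e.repr x i := fun i => by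
    by_contra hn
    have h1 : (l : ℤ) ^ Γ.det.natAbs ∣ Γ.det * e.repr x i := by
      have h2 : (Γ.adjugate.mulVec (Γ.mulVec (e.repr x))) i = Γ.det * e.repr x i := by
        rw [Matrix.mulVec_mulVec, Matrix.adjugate_mul, Matrix.smul_mulVec, Matrix.one_mulVec]
        rfl
      rw [← h2]
      simp only [Matrix.mulVec, dotProduct] at hΓ ⊢
      refine Finset.dvd_sum fun j _ => Dvd.dvd.mul_left ?_ _
      rw [hΓ]
      exact hx _
    have h3 : (l : ℤ) ^ Γ.det.natAbs ∣ Γ.det :=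
      (hlp.pow_dvd_of_dvd_mul_right _ hn h1)
    have h4 := Int.natAbs_le_of_dvd_ne_zero h3 hdet
    rw [Int.natAbs_pow, Int.natAbs_natCast] at h4
    exact absurd (Nat.lt_pow_self hl.one_lt) (not_lt.2 h4)
  choose w hw using hdiv
  refine ⟨∑ i, w i • e i, ?_⟩
  conv_lhs => rw [← e.sum_repr x]
  rw [Finset.smul_sum]
  exact Finset.sum_congr rfl fun i _ => by rw [hw, mul_smul]

end Lattice

section Red

variable {l : ℕ} [Fact l.Prime] {H : Type} [AddCommGroup H] [Module (ZMod l) H]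

lemma mem_span_image {M : Type} [AddCommGroup M] (φ : M →+ H) (S : Submodule ℤ M) {h : H} :
    h ∈ Submodule.span (ZMod l) (φ '' S) ↔ ∃ x ∈ S, φ x = h := by
  constructor
  · intro hh
    induction hh using Submodule.span_induction with
    | mem x hx => exact hx
    | zero => exact ⟨0, S.zero_mem, map_zero φ⟩
    | add x y _ _ hx hy =>
      obtain ⟨x, hx, rfl⟩ := hx
      obtain ⟨y, hy, rfl⟩ := hy
      exact ⟨x + y, S.add_mem hx hy, map_add φ x y⟩
    | smul r x _ hx =>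
      obtain ⟨x, hx, rfl⟩ := hx
      refine ⟨r.val • x, S.smul_of_tower_mem _ hx, ?_⟩
      rw [map_nsmul, ← Nat.cast_smul_eq_nsmul (ZMod l), ZMod.natCast_zmod_val]
  · rintro ⟨x, hx, rfl⟩
    exact Submodule.subset_span ⟨x, hx, rfl⟩

/-- extension of a form given on a lattice -/
lemma ext_form {M : Type} [AddCommGroup M] (φ : M →+ H) (S : Submodule ℤ M)
    (c : M → M → ZMod l) (hsym : ∀ x ∈ S, ∀ y ∈ S, c x y = c y x)
    (hadd : ∀ x ∈ S, ∀ x' ∈ S, ∀ y ∈ S, c (x + x') y = c x y + c x' y)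
    (h0 : ∀ x ∈ S, ∀ y ∈ S, φ x = 0 → c x y = 0) :
    ∃ b : H →ₗ[ZMod l] H →ₗ[ZMod l] ZMod l, ∀ x ∈ S, ∀ y ∈ S, b (φ x) (φ y) = c x y := by
  set A := Submodule.span (ZMod l) (φ '' S) with hA
  have hex : ∀ a : A, ∃ x ∈ S, φ x = a := fun a => (mem_span_image φ S).1 a.2
  choose s hsS hs using hex
  have hcongr : ∀ x ∈ S, ∀ x' ∈ S, ∀ y ∈ S, φ x = φ x' → c x y = c x' y := by
    intro x hx x' hx' y hy e
    have h1 := hadd (x - x') (S.sub_mem hx hx') x' hx' y hy
    rw [sub_add_cancel, h0 _ (S.sub_mem hx hx') y hy (by rw [map_sub, e, sub_self]),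
      zero_add] at h1
    exact h1
  have hadd' : ∀ a a' a'' : A, c (s (a + a')) (s a'') = c (s a) (s a'') + c (s a') (s a'') := by
    intro a a' a''
    rw [← hadd _ (hsS a) _ (hsS a') _ (hsS a'')]
    refine hcongr _ (hsS _) _ (S.add_mem (hsS a) (hsS a')) _ (hsS _) ?_
    rw [map_add, hs, hs, hs]; rfl
  have hsmul : ∀ (r : ZMod l) (a a'' : A), c (s (r • a)) (s a'') = r • c (s a) (s a'') := by
    intro r a a''
    exact (AddMonoidHom.mk' (fun a : A => c (s a) (s a'')) fun a a' => hadd' a a' a'')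
      |>.toZModLinearMap l |>.map_smul r a
  let c' : A →ₗ[ZMod l] A →ₗ[ZMod l] ZMod l :=
    LinearMap.mk₂ (ZMod l) (fun a a' => c (s a) (s a')) hadd' hsmul
      (fun a a' a'' => by
        rw [hsym _ (hsS a) _ (hsS _), hadd', hsym _ (hsS a') _ (hsS a),
          hsym _ (hsS a'') _ (hsS a)])
      (fun r a a' => by
        rw [hsym _ (hsS a) _ (hsS _), hsmul, hsym _ (hsS a') _ (hsS a)])
  obtain ⟨K, hK⟩ := A.exists_isCompl
  let p := A.projectionOnto K hK
  refine ⟨c'.compl₁₂ p p, fun x hx y hy => ?_⟩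
  have hxA : φ x ∈ A := (mem_span_image φ S).2 ⟨x, hx, rfl⟩
  have hyA : φ y ∈ A := (mem_span_image φ S).2 ⟨y, hy, rfl⟩
  have ex : φ (s (p (φ x))) = φ x := by
    rw [hs, Submodule.projectionOnto_apply_of_mem_left hK hxA]
  have ey : φ (s (p (φ y))) = φ y := by
    rw [hs, Submodule.projectionOnto_apply_of_mem_left hK hyA]
  show c (s (p (φ x))) (s (p (φ y))) = c x y
  rw [hcongr _ (hsS _) x hx _ (hsS _) ex, hsym x hx _ (hsS _), hcongr _ (hsS _) y hy x hx ey,
    hsym y hy x hx]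

lemma phi_smul_l {M : Type} [AddCommGroup M] (φ : M →+ H) (z : M) : φ ((l : ℤ) • z) = 0 := by
  rw [map_zsmul, ← Int.cast_smul_eq_zsmul (ZMod l)]
  simp

variable {G : Type} [Group G]

/-- one step of the filtration -/
lemma orth_step (ρ : Representation (ZMod l) G H) {M : Type} [AddCommGroup M]
    [Module.Finite ℤ M] [Module.Free ℤ M] (τ : Representation ℤ G M) (φ : M →+ H)
    (hφ : ∀ g x, φ (τ g x) = ρ g (φ x)) (hker : ∀ x, φ x = 0 → ∃ y, x = l • y)
    (b : M →ₗ[ℤ] M →ₗ[ℤ] ℤ) (hs : ∀ x y, b x y = b y x)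
    (hi : ∀ g x y, b (τ g x) (τ g y) = b x y) {c : ℤ} (hc : c ≠ 0)
    (hst : ∀ g, ∀ x ∈ latt b c, τ g x ∈ latt b c) :
    OrthQ ρ (Submodule.span (ZMod l) (φ '' latt b c))
      (Submodule.span (ZMod l) (φ '' latt b (c * l))) := by
  have hl : (l : ℤ) ≠ 0 := by exact_mod_cast (Fact.out : l.Prime).ne_zero
  have hz : ∀ x ∈ latt b c, ∀ y, ((b x y / c : ℤ) : ZMod l) = 0 ↔ c * l ∣ b x y := by
    intro x hx y
    obtain ⟨t, ht⟩ := hx y
    rw [ht, Int.mul_ediv_cancel_left _ hc, ZMod.intCast_zmod_eq_zero_iff_dvd,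
      mul_dvd_mul_iff_left hc]
  have hrad : ∀ x ∈ latt b (c * l), ∀ z : M, ∀ y ∈ latt b c, c * l ∣ b (x + l • z) y := by
    intro x hx z y hy
    rw [map_add, LinearMap.add_apply, map_nsmul, LinearMap.smul_apply, hs z y]
    refine dvd_add (hx y) ?_
    rw [nsmul_eq_mul, mul_comm]
    exact mul_dvd_mul_left _ (hy z)
  obtain ⟨β, hβ⟩ := ext_form φ (latt b c) (fun x y => ((b x y / c : ℤ) : ZMod l))
    (fun x _ y _ => by rw [hs])
    (fun x hx x' _ y _ => by
      rw [map_add, LinearMap.add_apply, Int.add_ediv_of_dvd_left (hx y), Int.cast_add])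
    (fun x hx y hy h0 => by
      obtain ⟨z, rfl⟩ := hker x h0
      rw [hz _ hx]
      simpa using hrad 0 (latt b (c * l)).zero_mem z y hy)
  refine ⟨β, ?_, ?_, ?_⟩
  · intro u hu v hv
    obtain ⟨x, hx, rfl⟩ := (mem_span_image φ _).1 hu
    obtain ⟨y, hy, rfl⟩ := (mem_span_image φ _).1 hv
    rw [hβ x hx y hy, hβ y hy x hx, hs]
  · intro g u hu v hv
    obtain ⟨x, hx, rfl⟩ := (mem_span_image φ _).1 hu
    obtain ⟨y, hy, rfl⟩ := (mem_span_image φ _).1 hv
    rw [← hφ, ← hφ, hβ _ (hst g x hx) _ (hst g y hy), hβ x hx y hy, hi]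
  · intro u hu
    obtain ⟨x, hx, rfl⟩ := (mem_span_image φ _).1 hu
    constructor
    · intro h
      obtain ⟨z, hz'⟩ := latt_key b hs hc hl (x := x) fun y hy => by
        rw [← hz x hx, ← hβ x hx y hy]
        exact h _ ((mem_span_image φ _).2 ⟨y, hy, rfl⟩)
      refine (mem_span_image φ _).2 ⟨_, hz', ?_⟩
      rw [map_sub, phi_smul_l, sub_zero]
    · intro h v hv
      obtain ⟨y, hy, rfl⟩ := (mem_span_image φ _).1 hv
      obtain ⟨x', hx', e⟩ := (mem_span_image φ _).1 h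
      obtain ⟨z, hz'⟩ := hker (x - x') (by rw [map_sub, e, sub_self])
      rw [hβ x hx y hy, hz x hx]
      have : x = x' + l • z := by rw [← hz']; abel
      rw [this]
      exact hrad x' hx' z y hy

/-- the reduction of a free lattice is orthogonal -/
lemma orth_lat_free [Fintype G] (ρ : Representation (ZMod l) G H)
    (hG : (Fintype.card G : ZMod l) ≠ 0) {M : Type} [AddCommGroup M]
    [Module.Finite ℤ M] [Module.Free ℤ M] (τ : Representation ℤ G M) (φ : M →+ H)
    (hφ : ∀ g x, φ (τ g x) = ρ g (φ x)) (hker : ∀ x, φ x = 0 → ∃ y, x = l • y) :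
    OrthQ ρ (Submodule.span (ZMod l) (Set.range φ)) ⊥ := by
  classical
  have hl : (l : ℤ) ≠ 0 := by exact_mod_cast (Fact.out : l.Prime).ne_zero
  let e := Module.Free.chooseBasis ℤ M
  let b : M →ₗ[ℤ] M →ₗ[ℤ] ℤ :=
    sumForm Finset.univ fun p : G × Module.Free.ChooseBasisIndex ℤ M => e.coord p.2 ∘ₗ τ p.1
  have hb : ∀ x y, b x y = ∑ g, ∑ i, e.coord i (τ g x) * e.coord i (τ g y) := fun x y => by
    simp only [b, sumForm_apply, Fintype.sum_prod_type, LinearMap.comp_apply]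
  have hs : ∀ x y, b x y = b y x := fun x y => by
    simp only [hb, mul_comm]
  have hmul : ∀ g h x, τ g (τ h x) = τ (g * h) x := fun g h x => by
    rw [← Module.End.mul_apply, ← map_mul]
  have hi : ∀ g x y, b (τ g x) (τ g y) = b x y := fun g x y => by
    simp only [hb, hmul]
    exact Fintype.sum_equiv (Equiv.mulRight g) _ _ fun h => rfl
  have hpos : ∀ x, b x x = 0 → x = 0 := fun x hx => by
    rw [hb, Finset.sum_eq_zero_iff_of_nonneg
      fun g _ => Finset.sum_nonneg fun i _ => mul_self_nonneg _] at hx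
    have h1 := hx 1 (Finset.mem_univ _)
    rw [Finset.sum_eq_zero_iff_of_nonneg fun i _ => mul_self_nonneg _] at h1
    refine e.ext_elem fun i => ?_
    have h2 := mul_self_eq_zero.1 (h1 i (Finset.mem_univ _))
    simpa using h2
  have hst : ∀ c g, ∀ x ∈ latt b c, τ g x ∈ latt b c := fun c g x hx y => by
    have : y = τ g (τ g⁻¹ y) := by rw [hmul, mul_inv_cancel, map_one, Module.End.one_apply]
    rw [this, hi]
    exact hx _
  let A : ℕ → Submodule (ZMod l) H := fun j =>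
    Submodule.span (ZMod l) (φ '' latt b ((l : ℤ) ^ j))
  have hAst : ∀ j, Stab ρ (A j) := fun j g u hu => by
    obtain ⟨x, hx, rfl⟩ := (mem_span_image φ _).1 hu
    exact (mem_span_image φ _).2 ⟨_, hst _ g x hx, hφ g x⟩
  have hAle : ∀ j, A (j + 1) ≤ A j := fun j =>
    Submodule.span_mono (Set.image_mono fun x hx y =>
      (pow_dvd_pow _ (Nat.le_succ j)).trans (hx y))
  have hAfin : ∀ j, FinQ (A j) ⊥ := fun j => by
    refine ⟨Finset.univ.image fun i => φ (e i), fun u hu => ?_⟩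
    obtain ⟨x, -, rfl⟩ := (mem_span_image φ _).1 hu
    rw [bot_sup_eq, ← e.sum_repr x, map_sum]
    refine Submodule.sum_mem _ fun i _ => ?_
    rw [map_zsmul]
    exact Submodule.smul_of_tower_mem _ _ (Submodule.subset_span (by simp))
  obtain ⟨J, hJ⟩ := latt_deep b hpos (Fact.out : l.Prime)
  have hAJ : A J = ⊥ := by
    rw [eq_bot_iff]
    intro u hu
    obtain ⟨x, hx, rfl⟩ := (mem_span_image φ _).1 hu
    obtain ⟨z, rfl⟩ := hJ x hx
    exact phi_smul_l φ z
  have key : ∀ d j, j + d = J → OrthQ ρ (A j) ⊥ := by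
    intro d
    induction d with
    | zero =>
      intro j hj
      rw [add_zero] at hj
      rw [hj, hAJ]
      exact ⟨0, by simp, by simp, by simp⟩
    | succ d ih =>
      intro j hj
      refine orth_ext ρ hG (hAle j) bot_le (hAst j) (hAst _) (fun g x hx => ?_) (hAfin j) ?_
        (ih (j + 1) (by omega))
      · rw [Submodule.mem_bot] at hx ⊢
        rw [hx, map_zero]
      · have := orth_step ρ τ φ hφ hker b hs hi (pow_ne_zero j hl) (hst _)
        rw [← pow_succ] at this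
        exact this
  have h0 : A 0 = Submodule.span (ZMod l) (Set.range φ) := by
    have : ((latt b ((l : ℤ) ^ 0) : Submodule ℤ M) : Set M) = Set.univ := by
      ext x; simp [mem_latt]
    simp only [A, this, Set.image_univ]
  rw [← h0]
  exact key J 0 (zero_add J)

end Red

end Pool.Agent.MP_14ad9d_nt.Full.OrthBAux
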