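import Pool.Agent.MP_14ad9d_nt.Full.OrthA
import Pool.Agent.MP_14ad9d_nt.Full.OrthB2

set_option autoImplicit false

namespace Pool.Agent.MP_14ad9d_nt.Full

open OrthBAux

section

variable {k G H : Type} [Field k] [Group G] [Fintype G] [AddCommGroup H] [Module k H]
  (ρ : Representation k G H)

/-- intersection of two subspaces together with the annihilator of their sum -/
theorem orthX (hG : (Fintype.card G : k) ≠ 0) {N Vp Vm Up Lp Xm : Submodule k H}
    (B : H →ₗ[k] H →ₗ[k] k) (hB : ∀ g x y, B (ρ g x) (ρ g y) = B x y)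
    (hN : Stab ρ N) (hVp : Stab ρ Vp) (hVm : Stab ρ Vm) (hUp : Stab ρ Up) (hLp : Stab ρ Lp)
    (hNU : N ≤ Up) (hNL : N ≤ Lp) (hUV : Up ≤ Vp) (hLV : Lp ≤ Vp) (hNm : N ≤ Vm)
    (hpm : Vp ⊓ Vm ≤ N) (hfp : FinQ Vp N) (hfm : FinQ Vm N)
    (h1 : ∀ x ∈ Vp, (∀ y ∈ Vm, B x y = 0) ↔ x ∈ N)
    (h2 : ∀ y ∈ Vm, (∀ x ∈ Vp, B x y = 0) ↔ y ∈ N)
    (hX : ∀ y, y ∈ Xm ↔ y ∈ Vm ∧ ∀ x ∈ Up ⊔ Lp, B x y = 0)
    (oV : OrthQ ρ Vp N) (oU : OrthQ ρ Up N) (oL : OrthQ ρ Lp N) :
    OrthQ ρ ((Up ⊓ Lp) ⊔ Xm) N := by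
  have hI : Stab ρ (Up ⊔ Lp) := stab_sup hUp hLp
  have hIV : Up ⊔ Lp ≤ Vp := sup_le hUV hLV
  have hNI : N ≤ Up ⊔ Lp := hNU.trans le_sup_left
  have hXm : Stab ρ Xm := fun g y hy => by
    refine (hX _).2 ⟨hVm g y ((hX y).1 hy).1, fun x hx => ?_⟩
    rw [← rep_inv ρ g x, hB]
    exact ((hX y).1 hy).2 _ (hI _ x hx)
  have hXV : Xm ≤ Vm := fun y hy => ((hX y).1 hy).1
  have hNX : N ≤ Xm := fun y hy =>
    (hX y).2 ⟨hNm hy, fun x hx => (h2 y (hNm hy)).2 hy x (hIV hx)⟩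
  obtain ⟨P, hP1, hP2, hP3⟩ := exists_proj ρ hG hI
  obtain ⟨q, hq1, hq2⟩ := exists_sep (hNU.trans hUV) hNm hpm
  let σ := (ρ.prod ρ).prod (ρ.prod ρ)
  let A : Submodule k ((H × H) × (H × H)) := (Up.prod Lp).prod (Vp.prod Xm)
  let C : Submodule k ((H × H) × (H × H)) := (N.prod N).prod ((Up ⊔ Lp).prod N)
  let T : ((H × H) × (H × H)) →ₗ[k] H :=
    LinearMap.fst k H H ∘ₗ LinearMap.fst k _ _ - LinearMap.snd k H H ∘ₗ LinearMap.fst k _ _ +
      (LinearMap.id - P) ∘ₗ LinearMap.fst k H H ∘ₗ LinearMap.snd k _ _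
  have hT : ∀ w, T w = w.1.1 - w.1.2 + (w.2.1 - P w.2.1) := fun w => rfl
  have hTeq : ∀ g w, T (σ g w) = ρ g (T w) := fun g w => by
    simp only [hT, σ, prod_apply, hP3, map_add, map_sub]
  have hA : Stab σ A := stab_prod (stab_prod hUp hLp) (stab_prod hVp hXm)
  have hC : Stab σ C := stab_prod (stab_prod hN hN) (stab_prod hI hN)
  have hB' : Stab σ (A ⊓ N.comap T) := fun g w hw =>
    ⟨hA g w hw.1, by
      have : T w ∈ N := hw.2
      show T (σ g w) ∈ N
      rw [hTeq]; exact hN g _ this⟩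
  have hCB : C ≤ A ⊓ N.comap T := fun w hw =>
    ⟨⟨⟨hNU hw.1.1, hNL hw.1.2⟩, ⟨hIV hw.2.1, hNX hw.2.2⟩⟩, by
      show T w ∈ N
      rw [hT, hP2 _ hw.2.1, sub_self, add_zero]
      exact N.sub_mem hw.1.1 hw.1.2⟩
  have hfin : FinQ A C :=
    finQ_prod (finQ_prod (finQ_mono hUV le_rfl hfp) (finQ_mono hLV le_rfl hfp))
      (finQ_prod (finQ_mono le_rfl hNI hfp) (finQ_mono hXV le_rfl hfm))
  have oAC : OrthQ σ A C :=
    orth_prod (orth_prod oU oL) (orth_hyp ρ B hB hNI hIV hNm hfm h1 h2 hX)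
  have oAB : OrthQ σ A (A ⊓ N.comap T) := by
    refine orth_pull T hA hVp (hNU.trans hUV) (fun w hw => ?_) (fun v hv => ?_)
      (fun g w _ => ?_) (fun w hw => ⟨fun h => ⟨hw, h⟩, fun h => h.2⟩) oV
    · rw [hT]
      exact Vp.add_mem (Vp.sub_mem (hUV hw.1.1) (hLV hw.1.2))
        (Vp.sub_mem hw.2.1 (hIV (hP1 _)))
    · obtain ⟨u, hu, w, hw, e⟩ := Submodule.mem_sup.1 (hP1 v)
      refine ⟨((u, -w), (v, 0)), ⟨⟨hu, Lp.neg_mem hw⟩, ⟨hv, Xm.zero_mem⟩⟩, ?_⟩
      rw [hT]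
      simp only [sub_neg_eq_add, e, add_sub_cancel, sub_self]
      exact N.zero_mem
    · rw [hTeq, sub_self]; exact N.zero_mem
  have oBC : OrthQ σ (A ⊓ N.comap T) C :=
    orth_sub σ hG inf_le_left hCB hA hB' hC hfin oAC oAB
  let R : H →ₗ[k] ((H × H) × (H × H)) := (q.prod q).prod ((0 : H →ₗ[k] H).prod (LinearMap.id - q))
  have hR : ∀ x, R x = ((q x, q x), (0, x - q x)) := fun x => rfl
  have hUL : Stab ρ (Up ⊓ Lp) := fun g x hx => ⟨hUp g x hx.1, hLp g x hx.2⟩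
  refine orth_pull R (stab_sup hUL hXm) hB' hCB (fun x hx => ?_) (fun w hw => ?_)
    (fun g x hx => ?_) (fun x _ => ?_) oBC
  · obtain ⟨a, ha, y, hy, rfl⟩ := Submodule.mem_sup.1 hx
    have hn := hq2 y (hXV hy)
    have e : q (a + y) = a + q y := by rw [map_add, hq1 a (hUV ha.1)]
    refine ⟨⟨⟨?_, ?_⟩, ⟨Vp.zero_mem, ?_⟩⟩, ?_⟩
    · show q (a + y) ∈ Up
      rw [e]; exact Up.add_mem ha.1 (hNU hn)
    · show q (a + y) ∈ Lp
      rw [e]; exact Lp.add_mem ha.2 (hNL hn)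
    · show a + y - q (a + y) ∈ Xm
      rw [e, add_sub_add_left_eq_sub]; exact Xm.sub_mem hy (hNX hn)
    · show T (R (a + y)) ∈ N
      rw [hT, hR]
      simp
  · obtain ⟨⟨u, w'⟩, ⟨c, y⟩⟩ := w
    obtain ⟨⟨⟨hu, hw'⟩, ⟨hc, hy⟩⟩, hTw⟩ := hw
    have hTw' : u - w' + (c - P c) ∈ N := hTw
    have hu' : u ∈ Up := hu
    have hw'' : w' ∈ Lp := hw'
    have hy' : y ∈ Xm := hy
    have hcI : c ∈ Up ⊔ Lp := by
      have e : c = (u - w' + (c - P c)) - u + w' + P c := by abel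
      rw [e]
      exact Submodule.add_mem _ (Submodule.add_mem _
        (Submodule.sub_mem _ (hNI hTw') (Submodule.mem_sup_left hu'))
        (Submodule.mem_sup_right hw'')) (hP1 c)
    rw [hP2 c hcI, sub_self, add_zero] at hTw'
    have huL : u ∈ Lp := by
      have e : u = (u - w') + w' := by abel
      rw [e]; exact Lp.add_mem (hNL hTw') hw''
    have hn := hq2 y (hXV hy')
    have e : q (u + y) = u + q y := by rw [map_add, hq1 u (hUV hu')]
    refine ⟨u + y, Submodule.add_mem_sup ⟨hu', huL⟩ hy', ⟨⟨?_, ?_⟩, ⟨?_, ?_⟩⟩⟩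
    · show u - q (u + y) ∈ N
      rw [e, sub_add_cancel_left]; exact N.neg_mem hn
    · show w' - q (u + y) ∈ N
      have e' : w' - (u + q y) = -(u - w') - q y := by abel
      rw [e, e']; exact N.sub_mem (N.neg_mem hTw') hn
    · show c - 0 ∈ Up ⊔ Lp
      rw [sub_zero]; exact hcI
    · show y - (u + y - q (u + y)) ∈ N
      have e' : y - (u + y - (u + q y)) = q y := by abel
      rw [e, e']; exact hn
  · obtain ⟨a, ha, y, hy, rfl⟩ := Submodule.mem_sup.1 hx
    have hn : q (ρ g (a + y)) - ρ g (q (a + y)) ∈ N := by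
      have e : q (ρ g (a + y)) - ρ g (q (a + y)) = q (ρ g y) - ρ g (q y) := by
        simp only [map_add, hq1 a (hUV ha.1), hq1 _ (hVp g a (hUV ha.1))]
        abel
      rw [e]
      exact N.sub_mem (hq2 _ (hVm g y (hXV hy))) (hN g _ (hq2 y (hXV hy)))
    refine ⟨⟨hn, hn⟩, ⟨?_, ?_⟩⟩
    · show (0 : H) - ρ g 0 ∈ Up ⊔ Lp
      simp
    · show ρ g (a + y) - q (ρ g (a + y)) - ρ g (a + y - q (a + y)) ∈ N
      have e : ρ g (a + y) - q (ρ g (a + y)) - ρ g (a + y - q (a + y)) =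
          -(q (ρ g (a + y)) - ρ g (q (a + y))) := by rw [map_sub]; abel
      rw [e]; exact N.neg_mem hn
  · constructor
    · intro h
      have e1 : q x ∈ N := h.1.1
      have e2 : x - q x ∈ N := h.2.2
      have e : x = (x - q x) + q x := by abel
      rw [e]; exact N.add_mem e2 e1
    · intro h
      have e : q x = x := hq1 x (hUV (hNU h))
      refine ⟨⟨?_, ?_⟩, ⟨Submodule.zero_mem _, ?_⟩⟩
      · show q x ∈ N
        rw [e]; exact h
      · show q x ∈ N
        rw [e]; exact h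
      · show x - q x ∈ N
        rw [e, sub_self]; exact N.zero_mem

/-- induced representations from the trivial subgroup are orthogonal -/
theorem orth_ind {Q : Type} [AddCommGroup Q] [Module k Q] (π : H →ₗ[k] Q) (Q₁ : Submodule k Q)
    [FiniteDimensional k Q₁] {A B : Submodule k H} (hA : Stab ρ A) (hin : ∀ x ∈ A, π x ∈ Q₁)
    (hsurj : ∀ z : G → Q, (∀ g, z g ∈ Q₁) → ∃ x ∈ A, ∀ g, π (ρ g x) = z g)
    (hB : ∀ x ∈ A, x ∈ B ↔ ∀ g, π (ρ g x) = 0) : OrthQ ρ A B := by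
  classical
  let e := Module.finBasis k Q₁
  have hext : ∀ i, ∃ f : Q →ₗ[k] k, f.comp Q₁.subtype = e.coord i := fun i =>
    LinearMap.exists_extend _
  choose f hf using hext
  have hf' : ∀ i (z : Q₁), f i z = e.coord i z := fun i z => LinearMap.congr_fun (hf i) z
  let b : H →ₗ[k] H →ₗ[k] k :=
    sumForm Finset.univ fun p : G × Fin (Module.finrank k Q₁) => f p.2 ∘ₗ π ∘ₗ ρ p.1
  have hb : ∀ x y, b x y = ∑ g, ∑ i, f i (π (ρ g x)) * f i (π (ρ g y)) := fun x y => by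
    simp only [b, sumForm_apply, Fintype.sum_prod_type, LinearMap.comp_apply]
  refine ⟨b, fun x _ y _ => by simp only [hb, mul_comm], fun g x _ y _ => ?_, fun x hx => ?_⟩
  · simp only [hb, rep_mul]
    exact Fintype.sum_equiv (Equiv.mulRight g) _ _ fun h => rfl
  · rw [hB x hx]
    constructor
    · intro h g₀
      have hmem : π (ρ g₀ x) ∈ Q₁ := hin _ (hA g₀ x hx)
      have h0 : (⟨_, hmem⟩ : Q₁) = 0 := by
        refine e.ext_elem fun j => ?_
        obtain ⟨y, hy, hyz⟩ := hsurj (fun g => if g = g₀ then (e j : Q) else 0) fun g => by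
          split_ifs
          · exact (e j).2
          · exact Q₁.zero_mem
        have h1 := h y hy
        rw [hb, Finset.sum_eq_single g₀ (fun g _ hg => by simp [hyz, hg]) (by simp),
          Finset.sum_eq_single j (fun i _ hi => by simp [hyz, hf', hi.symm])
            (by simp)] at h1
        simp only [hyz, if_true, hf', Module.Basis.coord_apply, Module.Basis.repr_self,
          Finsupp.single_eq_same, mul_one] at h1
        have h2 := hf' j ⟨_, hmem⟩
        simp only [Module.Basis.coord_apply] at h2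
        rw [← h2, map_zero, Finsupp.zero_apply]
        exact h1
      exact congrArg Subtype.val h0
    · intro h y _
      simp [hb, h]

/-- the plus part of a signed permutation representation is orthogonal -/
theorem orth_perm (hG : (Fintype.card G : k) ≠ 0) {P : Type} [MulAction G P] (S : Finset P)
    (hS : ∀ g : G, ∀ p ∈ S, g • p ∈ S) (c : P → H →ₗ[k] k) {A B : Submodule k H} (hBA : B ≤ A)
    (hA : Stab ρ A) (hc : ∀ g, ∀ p ∈ S, ∀ x ∈ A, c (g • p) (ρ g x) = c p x)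
    (hsurj : ∀ z : P → k, ∃ x ∈ A, ∀ p ∈ S, c p x = z p)
    (hB : ∀ x ∈ A, x ∈ B ↔ ∀ p ∈ S, c p x = 0)
    (ι : H →ₗ[k] H) (ιP : P → P) (ε : k) (hε : ε * ε = 1) (hιP : ∀ p, ιP (ιP p) = p)
    (hιS : ∀ p ∈ S, ιP p ∈ S) (hιι : ∀ x, ι (ι x) = x) (hιρ : ∀ g x, ι (ρ g x) = ρ g (ι x))
    (hιA : ∀ x ∈ A, ι x ∈ A) (hιc : ∀ p ∈ S, ∀ x ∈ A, c (ιP p) (ι x) = ε * c p x) :
    OrthQ ρ (A ⊓ B.comap (ι - LinearMap.id)) B := by
  classical
  have hcι : ∀ p ∈ S, ∀ x ∈ A, c p (ι x) = ε * c (ιP p) x := fun p hp x hx => by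
    have := hιc (ιP p) (hιS p hp) x hx
    rwa [hιP] at this
  have hBst : Stab ρ B := fun g x hx => by
    refine (hB _ (hA g x (hBA hx))).2 fun p hp => ?_
    have h1 := hc g (g⁻¹ • p) (hS _ p hp) x (hBA hx)
    rw [smul_inv_smul] at h1
    rw [h1]
    exact (hB x (hBA hx)).1 hx _ (hS _ p hp)
  have hδ : ∀ p : P, ∃ x ∈ A, ∀ q ∈ S, c q x = if q = p then 1 else 0 := fun p =>
    hsurj fun q => if q = p then 1 else 0
  choose u huA hu using hδ
  have hfin : FinQ A B := by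
    refine ⟨S.image u, fun x hx => ?_⟩
    have hs : ∑ p ∈ S, c p x • u p ∈ A := A.sum_mem fun p _ => A.smul_mem _ (huA p)
    have e : x = (x - ∑ p ∈ S, c p x • u p) + ∑ p ∈ S, c p x • u p := by abel
    rw [e]
    refine Submodule.add_mem_sup ((hB _ (A.sub_mem hx hs)).2 fun q hq => ?_)
      (Submodule.sum_mem _ fun p hp => Submodule.smul_mem _ _ (Submodule.subset_span ?_))
    · simp only [map_sub, map_sum, map_smul, hu _ q hq, smul_eq_mul, mul_ite, mul_one, mul_zero,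
        Finset.sum_ite_eq, hq, if_true, sub_self]
    · exact Finset.mem_coe.2 (Finset.mem_image_of_mem u hp)
  have hform : IsForm ρ A B (sumForm S c) := by
    refine ⟨fun x _ y _ => by simp only [sumForm_apply, mul_comm], fun g x hx y hy => ?_,
      fun x hx => ?_⟩
    · simp only [sumForm_apply]
      symm
      refine Finset.sum_nbij' (fun p => g • p) (fun p => g⁻¹ • p) (fun p hp => hS g p hp)
        (fun p hp => hS _ p hp) (fun p _ => inv_smul_smul g p) (fun p _ => smul_inv_smul g p)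
        fun p hp => ?_
      rw [hc g p hp x hx, hc g p hp y hy]
    · rw [hB x hx]
      constructor
      · intro h p hp
        have h1 := h (u p) (huA p)
        rw [sumForm_apply, Finset.sum_eq_single p
          (fun q hq hqp => by rw [hu p q hq, if_neg hqp, mul_zero]) (fun h => absurd hp h),
          hu p p hp, if_pos rfl, mul_one] at h1
        exact h1
      · intro h y _
        rw [sumForm_apply]
        exact Finset.sum_eq_zero fun p hp => by rw [h p hp, zero_mul]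
  refine orth_ker ρ hG hBA hA hBst hfin hform (ι - LinearMap.id) (fun g x _ => ?_)
    (fun x hx => A.sub_mem (hιA x hx) hx) (fun x hx => B.sub_mem ?_ hx) fun x hx y hy => ?_
  · simp only [LinearMap.sub_apply, LinearMap.id_apply, hιρ, map_sub, sub_self]
    exact B.zero_mem
  · refine (hB _ (hιA x (hBA hx))).2 fun p hp => ?_
    rw [hcι p hp x (hBA hx), (hB x (hBA hx)).1 hx _ (hιS p hp), mul_zero]
  · simp only [LinearMap.sub_apply, LinearMap.id_apply, map_sub]
    congr 1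
    simp only [sumForm_apply]
    refine Finset.sum_nbij' ιP ιP (fun p hp => hιS p hp) (fun p hp => hιS p hp)
      (fun p _ => hιP p) (fun p _ => hιP p) fun p hp => ?_
    rw [hcι p hp x hx, hιc p hp y hy]
    ring

end

/-- the reduction of a lattice is orthogonal -/
theorem orth_lat (l : ℕ) [Fact l.Prime] {G H M : Type} [Group G] [Fintype G] [AddCommGroup H]
    [Module (ZMod l) H] (ρ : Representation (ZMod l) G H) (hG : (Fintype.card G : ZMod l) ≠ 0)
    [AddCommGroup M] [Module.Finite ℤ M] (τ : Representation ℤ G M)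
    (htor : ∀ x : M, l • x = 0 → x = 0) (φ : M →+ H) (hφ : ∀ g x, φ (τ g x) = ρ g (φ x))
    (hker : ∀ x, φ x = 0 → ∃ y, x = l • y) :
    OrthQ ρ (Submodule.span (ZMod l) (Set.range φ)) ⊥ := by
  have hst : ∀ g, Submodule.torsion ℤ M ≤ (Submodule.torsion ℤ M).comap (τ g) := by
    rintro g x ⟨a, ha⟩
    refine ⟨a, ?_⟩
    rw [Submonoid.smul_def] at ha ⊢
    rw [← map_smul, ha, map_zero]
  have hpow : ∀ (n : ℕ) (x : M), l ^ n • x = 0 → x = 0 := by
    intro n
    induction n with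
    | zero => intro x hx; simpa using hx
    | succ n ih => intro x hx; rw [pow_succ, mul_smul] at hx; exact htor x (ih _ hx)
  have hkill : ∀ x ∈ Submodule.torsion ℤ M, φ x = 0 := by
    rintro x ⟨⟨a, ha0⟩, ha⟩
    have ha0' : a.natAbs ≠ 0 := Int.natAbs_ne_zero.2 (nonZeroDivisors.ne_zero ha0)
    have ha' : a.natAbs • x = 0 := by
      have : a • x = 0 := ha
      rcases Int.natAbs_eq a with h | h
      · rw [h, natCast_zsmul] at this; exact this
      · rw [h, neg_smul, neg_eq_zero, natCast_zsmul] at this; exact this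
    obtain ⟨n, m, hm, e⟩ := Nat.exists_eq_pow_mul_and_not_dvd ha0' l (Fact.out : l.Prime).ne_one
    rw [e, mul_smul] at ha'
    have h1 : (m : ZMod l) • φ x = 0 := by
      rw [Nat.cast_smul_eq_nsmul, ← map_nsmul, hpow n _ ha', map_zero]
    have h2 : (m : ZMod l) ≠ 0 := by rwa [Ne, ZMod.natCast_eq_zero_iff]
    exact (smul_eq_zero.1 h1).resolve_left h2
  let φ' : (M ⧸ Submodule.torsion ℤ M) →+ H :=
    ((Submodule.torsion ℤ M).liftQ φ.toIntLinearMap hkill).toAddMonoidHom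
  have hφ' : ∀ x, φ' (Submodule.Quotient.mk x) = φ x := fun x => rfl
  have hr : Set.range φ' = Set.range φ := by
    ext h
    constructor
    · rintro ⟨x, rfl⟩
      obtain ⟨x, rfl⟩ := Submodule.Quotient.mk_surjective _ x
      exact ⟨x, rfl⟩
    · rintro ⟨x, rfl⟩
      exact ⟨Submodule.Quotient.mk x, rfl⟩
  rw [← hr]
  refine orth_lat_free ρ hG (τ.quotient _ hst) φ' (fun g x => ?_) fun x hx => ?_
  · obtain ⟨x, rfl⟩ := Submodule.Quotient.mk_surjective _ x
    exact hφ g x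
  · obtain ⟨x, rfl⟩ := Submodule.Quotient.mk_surjective _ x
    obtain ⟨y, rfl⟩ := hker x hx
    exact ⟨Submodule.Quotient.mk y, rfl⟩

end Pool.Agent.MP_14ad9d_nt.Full
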