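import Pool.Agent.MP_14ad9d_nt.Full.Inst
import Pool.Agent.MP_14ad9d_nt.Full.OrthB
import Pool.Agent.MP_14ad9d_nt.Full.InstU
import Pool.Agent.MP_14ad9d_nt.Full.InstD1

set_option autoImplicit false

open NumberField IsDedekindDomain

namespace Pool.Agent.MP_14ad9d_nt.Full

namespace InstDAux

variable {l : ℕ} [Fact l.Prime] {F K : Type} [Field F] [NumberField F] [Field K] [NumberField K]
  [Algebra F K]

omit [NumberField F] [NumberField K] in
theorem act_inv_act (g : K ≃ₐ[F] K) (v : Pr K) :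
    act (g : K ≃+* K) (act ((g⁻¹ : K ≃ₐ[F] K) : K ≃+* K) v) = v := by
  rw [act_act]
  have : (((g⁻¹ : K ≃ₐ[F] K) : K ≃+* K)).trans (g : K ≃+* K) = RingEquiv.refl K := by
    ext x
    exact g.apply_symm_apply x
  rw [this, act_refl]

omit [NumberField F] [NumberField K] in
theorem act_mul (g h : K ≃ₐ[F] K) (v : Pr K) :
    act ((g * h : K ≃ₐ[F] K) : K ≃+* K) v = act (g : K ≃+* K) (act (h : K ≃+* K) v) := by
  ext a
  exact Iff.rfl

theorem near_all (S : Setup l F K) (k : ℕ) {a : K} (ha : a ≠ 0) :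
    Near l S.z k a ↔ ∀ g : K ≃ₐ[F] K, NearAt l S.z k S.v₀ (g a) := by
  rw [near_iff S.hz k ha]
  constructor
  · intro h g
    have hw : ¬Tm l (act ((g⁻¹ : K ≃ₐ[F] K) : K ≃+* K) S.v₀) := by
      rw [tm_act]; exact S.wild
    have := nearAt_act (g : K ≃+* K) (S.map_z g) k _ (h _ hw)
    rwa [act_inv_act] at this
  · intro h v hv
    obtain ⟨g, rfl⟩ := S.trans v hv
    have := nearAt_act (g : K ≃+* K) (S.map_z g) k _ (h g⁻¹)
    have e : (g : K ≃+* K) (g⁻¹ a) = a := g.apply_symm_apply a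
    rwa [e] at this

omit [Fact l.Prime] in
theorem lam_ne (S : Setup l F K) : 1 - S.z ≠ 0 := by
  intro e
  have := S.ord_lam
  change ord S.v₀ (1 - S.z) = 1 at this
  rw [e] at this
  simp [ord] at this

omit [Fact l.Prime] in
theorem val_lam (S : Setup l F K) : S.v₀.valuation K (1 - S.z) = WithZero.exp (-1) := by
  rw [val_eq_exp _ (lam_ne S)]
  exact congrArg (fun n : ℤ => WithZero.exp (-n)) S.ord_lam

/-- weak approximation for the abstract data -/
theorem wa_mach (hl : 2 < l) {S : Setup l F K}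
    {M : Mach (ZMod l) (K ≃ₐ[F] K) (Hm l K) (TP l K)} (h : Spec S M)
    (P0 : Submodule (ZMod l) (Hm l K))
    (hP0 : ∀ x : K, x ≠ 0 → (cls l x ∈ P0 ↔ NearAt l S.z (l + 1) S.v₀ x))
    (T : Finset (TP l K)) (o c : TP l K → ZMod l) (z : (K ≃ₐ[F] K) → Hm l K) :
    ∃ x, (∀ g, M.ρ g x - z g ∈ P0) ∧ ∀ p ∈ T, M.ord p x = o p ∧ M.chi p x = c p := by
  classical
  choose a ha0 ha using fun g => cls_surj (z g)
  have ht : ∀ p : TP l K, ∃ t : K, t ≠ 0 ∧ M.ord p (cls l t) = o p ∧ M.chi p (cls l t) = c p := by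
    intro p
    obtain ⟨u, hu, hc⟩ := chi_surj S.hz p.2 (c p)
    have hu0 : u ≠ 0 := by
      rintro rfl
      exact hu (Ideal.zero_mem _)
    have hu0' : (u : K) ≠ 0 := by exact_mod_cast hu0
    have hou : ord p.1 (u : K) = 0 := (ord_eq_zero_iff p.1 hu0).2 hu
    obtain ⟨t, ht0, ht⟩ := cls_surj (cls l (u : K) + o p • M.unif p)
    refine ⟨t, ht0, ?_, ?_⟩
    · rw [ht, map_add, map_smul, M.ord_unif, h.2.1, hou]
      simp
    · have e := h.chi_eq hl p hu0' hou
      rw [hc] at e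
      unfold Mach.chi at e ⊢
      rw [ht, map_add, map_smul, LinearMap.add_apply, LinearMap.smul_apply, M.tame_self, e]
      simp
  choose t ht0 hto htc using ht
  let w : (K ≃ₐ[F] K) → Pr K := fun g => act ((g⁻¹ : K ≃ₐ[F] K) : K ≃+* K) S.v₀
  have hw : ∀ g, ¬Tm l (w g) := fun g => by
    simp only [w]
    rw [tm_act]; exact S.wild
  have hwi : Function.Injective w := by
    intro g g' e
    have e2 := congrArg (act (g : K ≃+* K)) e
    simp only [w] at e2
    rw [act_inv_act, ← act_mul] at e2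
    have := S.free _ e2.symm
    exact mul_inv_eq_one.1 this
  let b : Pr K → K := fun v => if hv : Tm l v then t ⟨v, hv⟩ else
    (Function.invFun w v)⁻¹ (a (Function.invFun w v))
  have hb1 : ∀ p : TP l K, b p.1 = t p := fun p => by simp only [b, p.2, dite_true]
  have hb2 : ∀ g, b (w g) = g⁻¹ (a g) := fun g => by
    simp only [b, hw g, dite_false, Function.leftInverse_invFun hwi g]
  have hb0 : ∀ v, b v ≠ 0 := fun v => by
    simp only [b]
    split_ifs with hv
    · exact ht0 _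
    · simpa using ha0 _
  obtain ⟨x, hx0, hx⟩ := wa_mul (T.image Subtype.val ∪ Finset.univ.image w) b (fun v _ => hb0 v)
    (l + 1 : ℕ)
  refine ⟨cls l x, fun g => ?_, fun p hp => ?_⟩
  · have hgx : g x ≠ 0 := by simpa using hx0
    rw [h.1, ← ha, ← cls_div hgx (ha0 g), hP0 _ (div_ne_zero hgx (ha0 g))]
    refine ⟨1, one_ne_zero, ?_⟩
    have h1 := hx (w g) (Finset.mem_union_right _ (Finset.mem_image_of_mem _ (Finset.mem_univ g)))
    rw [hb2, ← val_act (g : K ≃+* K)] at h1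
    simp only [w] at h1
    rw [act_inv_act] at h1
    have e : (g : K ≃+* K) (x / g⁻¹ (a g) - 1) = g x / a g / 1 ^ l - 1 := by
      have e' : (g : K ≃+* K) (g⁻¹ (a g)) = a g := g.apply_symm_apply _
      rw [map_sub, map_div₀, e', map_one, one_pow, div_one]
      rfl
    rw [e] at h1
    rw [val_lam, ← WithZero.exp_nsmul]
    simpa using h1
  · have h1 := hx p.1 (Finset.mem_union_left _ (Finset.mem_image_of_mem _ hp))
    rw [hb1] at h1
    have h2 : p.1.valuation K (x / t p - 1) < 1 := by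
      refine h1.trans_lt ?_
      rw [← WithZero.exp_zero, WithZero.exp_lt_exp]
      omega
    have hq0 : x / t p ≠ 0 := div_ne_zero hx0 (ht0 p)
    have hq : ord p.1 (x / t p) = 0 := by
      have e : x / t p = 1 + (x / t p - 1) := by ring
      have h3 : p.1.valuation K (x / t p) = 1 := by
        rw [e]; exact Valuation.map_one_add_of_lt _ h2
      simp [ord, h3]
    have hc1 : chi l S.z p.1 (1 : K) = 0 := by
      have := chi_zpow S.hz p.2 one_ne_zero (ord_one p.1) 0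
      simpa using this
    have hc : chi l S.z p.1 (x / t p) = 0 := by
      rw [← hc1]
      exact chi_congr S.hz p.2 one_ne_zero (ord_one p.1) (by rwa [Valuation.map_sub_swap])
    have e : cls l x = cls l (x / t p) + cls l (t p) := by
      rw [cls_div hx0 (ht0 p), sub_add_cancel]
    constructor
    · rw [e, map_add, hto, h.2.1, hq]
      simp
    · have e1 := h.chi_eq hl p hq0 hq
      have e2 := htc p
      rw [hc] at e1
      unfold Mach.chi at e1 e2 ⊢
      rw [e, map_add, LinearMap.add_apply, e1, e2, zero_add]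

/-- a finite set of primes detecting the unramified classes -/
theorem exists_detect (hl : 2 < l) {S : Setup l F K}
    {M : Mach (ZMod l) (K ≃ₐ[F] K) (Hm l K) (TP l K)} (h : Spec S M) :
    ∃ T : Finset (TP l K), ∀ x, (∀ p, M.ord p x = 0) → (∀ p ∈ T, M.chi p x = 0) → x = 0 := by
  classical
  obtain ⟨s, hs⟩ := unr_fin h ∅
  rw [bot_sup_eq] at hs
  have hfin : (Submodule.span (ZMod l) (s : Set (Hm l K)) : Set (Hm l K)).Finite := by
    have : Finite (Submodule.span (ZMod l) (s : Set (Hm l K))) :=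
      Module.finite_of_finite (ZMod l)
    exact Set.toFinite _
  have hp : ∀ x : Hm l K, x ≠ 0 → ∃ p, M.chi p x ≠ 0 := by
    intro x hx
    obtain ⟨a, ha, rfl⟩ := cls_surj x
    have hd : ∀ d : K, a ≠ d ^ l := fun d e => hx ((cls_eq_zero_iff ha).2 ⟨d, e⟩)
    obtain ⟨v, -, hv, h0, h1⟩ := (wc1 hl S.hz hd).nonempty
    exact ⟨⟨v, hv⟩, by rwa [h.chi_eq hl ⟨v, hv⟩ ha h0]⟩
  have : Nonempty (TP l K) := by
    obtain ⟨v, hv, -⟩ := R1Aux.exists_tame (K := K) hl ∅
    exact ⟨⟨v, hv⟩⟩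
  choose! f hf using hp
  refine ⟨hfin.toFinset.image f, fun x hx hc => ?_⟩
  by_contra hx0
  refine hf x hx0 (hc _ (Finset.mem_image_of_mem _ ?_))
  rw [Set.Finite.mem_toFinset]
  refine hs ?_
  simp only [Mach.Unr, Submodule.mem_iInf, LinearMap.mem_ker]
  exact fun p _ => hx p

end InstDAux

open InstDAux in
/-- the data for the duality argument exist -/
theorem exists_dual {l : ℕ} [Fact l.Prime] (hl : 2 < l) {F K : Type} [Field F] [NumberField F]
    [Field K] [NumberField K] [Algebra F K] [IsGalois ℚ K] {S : Setup l F K}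
    {M : Mach (ZMod l) (K ≃ₐ[F] K) (Hm l K) (TP l K)} (h : Spec S M) :
    ∃ D : M.Dual, ∀ x : K, x ≠ 0 → (cls l x ∈ D.L0 ↔ NearAt l S.z ((l + 1) / 2) S.v₀ x) := by
  classical
  have hlam : S.v₀.valuation K (1 - S.z) ≤ 1 := (val_one_sub_lt S.hz S.wild).le
  obtain ⟨ι, hι⟩ := exists_iota (l := l) S.ι
  obtain ⟨P0, hP0⟩ := exists_sub (l := l) (l + 1) hlam
  obtain ⟨L0, hL0⟩ := exists_sub (l := l) ((l + 1) / 2) hlam
  let ιP : TP l K → TP l K := fun p => ⟨act S.ι p.1, (tm_act _ l p.1).2 p.2⟩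
  have hιP : ∀ p, ιP (ιP p) = p := fun p => by
    apply Subtype.ext
    simp only [ιP]
    rw [act_act]
    have : S.ι.trans S.ι = RingEquiv.refl K := by
      ext x
      exact S.ι_ι x
    rw [this, act_refl]
  have hcomm : ∀ (g : K ≃ₐ[F] K) p, ιP (g • p) = g • ιP p := fun g p => by
    apply Subtype.ext
    simp only [ιP, smul_val]
    rw [act_act, act_act]
    congr 1
    ext x
    exact S.ι_comm g x
  have hι0 : ∀ x : K, x ≠ 0 → S.ι x ≠ 0 := fun x hx => by simpa using hx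
  obtain ⟨T₀, hT₀⟩ := exists_gen h
  obtain ⟨T₁, hT₁⟩ := exists_detect hl h
  let T₂ : Finset (TP l K) := (T₀ ∪ T₁) ∪ (T₀ ∪ T₁).image ιP
  have hT₂ : ∀ p ∈ T₂, ιP p ∈ T₂ := by
    intro p hp
    rcases Finset.mem_union.1 hp with hp | hp
    · exact Finset.mem_union_right _ (Finset.mem_image_of_mem _ hp)
    · obtain ⟨q, hq, rfl⟩ := Finset.mem_image.1 hp
      rw [hιP]
      exact Finset.mem_union_left _ hq
  let T : Finset (TP l K) := Finset.univ.biUnion fun g : K ≃ₐ[F] K => T₂.image (g • ·)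
  have hT : ∀ p, p ∈ T ↔ ∃ g : K ≃ₐ[F] K, ∃ q ∈ T₂, g • q = p := fun p => by
    simp [T]
  have hT2 : ∀ p ∈ T₂, p ∈ T := fun p hp => (hT p).2 ⟨1, p, hp, one_smul _ _⟩
  have hTg : ∀ g : K ≃ₐ[F] K, ∀ p ∈ T, g • p ∈ T := by
    intro g p hp
    obtain ⟨g', q, hq, rfl⟩ := (hT p).1 hp
    exact (hT _).2 ⟨g * g', q, hq, mul_smul _ _ _⟩
  have hTι : ∀ p ∈ T, ιP p ∈ T := by
    intro p hp
    obtain ⟨g', q, hq, rfl⟩ := (hT p).1 hp
    exact (hT _).2 ⟨g', ιP q, hT₂ q hq, (hcomm _ _).symm⟩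
  have hodd : l % 2 = 1 := by
    rcases (Fact.out : l.Prime).eq_two_or_odd with e | e
    · omega
    · exact e
  refine ⟨{
    ι := ι
    ιP := ιP
    ι_ι := ?_
    ιP_ιP := hιP
    ι_ρ := ?_
    ord_ι := ?_
    tame_ι := ?_
    P0 := P0
    L0 := L0
    P0_le := ?_
    P0_ι := ?_
    L0_ι := ?_
    Prim_iff := ?_
    wa := wa_mach hl h P0 hP0
    L1_iso := ?_
    d := (l + 1) / 2
    dim0 := ?_
    S := T
    S_act := hTg
    S_ι := hTι
    U_fin := unr_fin h T
    U_dim := unr_dim hl h T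
    U_orth := unr_orth hl h T hTg ?_ (hT₀ T fun p hp =>
      hT2 p (Finset.mem_union_left _ (Finset.mem_union_left _ hp))) ι hι
    detect := fun x hx hc => hT₁ x hx fun p hp =>
      hc p (hT2 p (Finset.mem_union_left _ (Finset.mem_union_right _ hp))) }, hL0⟩
  · intro x
    obtain ⟨a, -, rfl⟩ := cls_surj x
    rw [hι, hι, S.ι_ι]
  · intro g x
    obtain ⟨a, -, rfl⟩ := cls_surj x
    rw [h.1, hι, hι, h.1, S.ι_comm]
  · intro p x
    obtain ⟨a, -, rfl⟩ := cls_surj x
    rw [hι, h.2.1, h.2.1]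
    exact congrArg _ (ord_act S.ι p.1 a)
  · intro p x y
    obtain ⟨a, ha, rfl⟩ := cls_surj x
    obtain ⟨b, hb, rfl⟩ := cls_surj y
    rw [hι, hι, h.2.2.1 _ _ _ (hι0 a ha) (hι0 b hb), h.2.2.1 _ _ _ ha hb]
    have e1 := tame_act (l := l) (ζ := S.z) S.ι p.1 a b
    have e2 : S.ι S.z = S.z⁻¹ := S.ι_ζ
    rw [e2, tame_inv_root S.hz (ιP p).2 (hι0 a ha) (hι0 b hb)] at e1
    rw [← e1, neg_neg]
  · intro x hx
    obtain ⟨a, ha, rfl⟩ := cls_surj x
    obtain ⟨γ, hγ, h1⟩ := (hP0 a ha).1 hx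
    exact (hL0 a ha).2 ⟨γ, hγ, h1.trans (pow_le_pow_right_of_le_one' hlam (by omega))⟩
  · intro x hx
    obtain ⟨a, ha, rfl⟩ := cls_surj x
    rw [hι, hP0 _ (hι0 a ha)]
    exact nearAt_fix S.ι _ _ S.ι_v₀ ((hP0 a ha).1 hx)
  · intro x hx
    obtain ⟨a, ha, rfl⟩ := cls_surj x
    rw [hι, hL0 _ (hι0 a ha)]
    exact nearAt_fix S.ι _ _ S.ι_v₀ ((hL0 a ha).1 hx)
  · intro x
    obtain ⟨a, ha, rfl⟩ := cls_surj x
    rw [h.2.2.2.1 a ha, near_all S _ ha]
    refine forall_congr' fun g => ?_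
    rw [h.1, hP0 _ (by simpa using ha)]
  · intro x y hx hy
    obtain ⟨a, ha, rfl⟩ := cls_surj x
    obtain ⟨b, hb, rfl⟩ := cls_surj y
    have key : ∀ c : K, c ≠ 0 → (∀ g, M.ρ g (cls l c) ∈ L0) → Near l S.z ((l + 1) / 2) c := by
      intro c hc H
      rw [near_all S _ hc]
      intro g
      have := H g
      rwa [h.1, hL0 _ (by simpa using hc)] at this
    have := r2 hl S.not_dvd S.hz ha hb (key a ha hx) (key b hb hy)
    rw [← this]
    exact finsum_congr fun p => h.2.2.1 p a b ha hb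
  · refine ⟨insert (cls l (1 - S.z)) ((Finset.Icc 1 l).image fun i => cls l (1 + (1 - S.z) ^ i)),
      ?_, ?_⟩
    · refine (Finset.card_insert_le _ _).trans ?_
      have := Finset.card_image_le (s := Finset.Icc 1 l)
        (f := fun i => cls l (1 + (1 - S.z) ^ i))
      rw [Nat.card_Icc] at this
      omega
    · refine span_top S.wild S.res (lam_ne S) S.ord_lam _ ?_ ?_ ?_
      · intro y hy H
        exact Submodule.mem_sup_left ((hP0 y hy).2 ⟨1, one_ne_zero, by simpa using H⟩)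
      · exact Submodule.mem_sup_right (Submodule.subset_span (by simp))
      · intro i h1 h2
        refine Submodule.mem_sup_right (Submodule.subset_span ?_)
        rw [Finset.mem_coe]
        exact Finset.mem_insert_of_mem
          (Finset.mem_image_of_mem _ (Finset.mem_Icc.2 ⟨h1, h2⟩))
  · intro p q hp hq
    have : q = ιP p := Subtype.ext hq
    rw [this]
    exact hTι p hp

end Pool.Agent.MP_14ad9d_nt.Full
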