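import Pool.Agent.MP_14ad9d_nt.Full.ODefs

/- Basic calculus of tame symbols, and pairs of auxiliary primes. -/

set_option autoImplicit false

namespace Pool.Agent.MP_14ad9d_nt.Full.MachineAux

open Classical

variable {k G H P : Type} [Field k] [Group G] [AddCommGroup H] [Module k H] [MulAction G P]
  (M : Mach k G H P)

theorem tame_anti (p : P) (x y : H) : M.tame p x y = -M.tame p y x := by
  have h := M.tame_self p (x + y)
  simp only [map_add, LinearMap.add_apply, M.tame_self] at h
  linear_combination h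

theorem tame_eq {p : P} {w : H} (hw : M.ord p w = 1) (x y : H) :
    M.tame p x y = M.ord p y * M.tame p x w - M.ord p x * M.tame p y w := by
  have h := M.tame_unr p (x - M.ord p x • w) (y - M.ord p y • w) (by simp [hw]) (by simp [hw])
  simp only [map_sub, map_smul, LinearMap.sub_apply, LinearMap.smul_apply, smul_eq_mul,
    M.tame_self, tame_anti M p w y] at h
  linear_combination h

theorem tame_chi (p : P) (x y : H) :
    M.tame p x y = M.ord p y * M.chi p x - M.ord p x * M.chi p y :=
  tame_eq M (M.ord_unif p) x y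

theorem act_act (g h : G) (x : H) : M.ρ g (M.ρ h x) = M.ρ (g * h) x := by
  rw [map_mul]; rfl

theorem act_one (x : H) : M.ρ 1 x = x := by rw [map_one]; rfl

theorem ord_act' (g : G) (p : P) (x : H) : M.ord p (M.ρ g x) = M.ord (g⁻¹ • p) x := by
  rw [← M.ord_act g (g⁻¹ • p), smul_inv_smul]

theorem chi_act (g : G) {p : P} {x : H} (h : M.ord p x = 0) :
    M.chi (g • p) (M.ρ g x) = M.chi p x := by
  have := tame_chi M (g • p) (M.ρ g x) (M.ρ g (M.unif p))
  rw [M.tame_act, M.ord_act, M.ord_act, M.ord_unif, h, one_mul, zero_mul, sub_zero] at this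
  exact this.symm

theorem chi_act' (g : G) {p : P} {x : H} (h : M.ord (g⁻¹ • p) x = 0) :
    M.chi p (M.ρ g x) = M.chi (g⁻¹ • p) x := by
  rw [← chi_act M g h, smul_inv_smul]

theorem chi_add (p : P) (x y : H) : M.chi p (x + y) = M.chi p x + M.chi p y := by
  simp only [Mach.chi, map_add, LinearMap.add_apply]

theorem chi_sub (p : P) (x y : H) : M.chi p (x - y) = M.chi p x - M.chi p y := by
  simp only [Mach.chi, map_sub, LinearMap.sub_apply]

theorem chi_comb [Fintype G] (p : P) (t : G → k) (x : H) :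
    M.chi p (∑ g, t g • M.ρ g x) = ∑ g, t g * M.chi p (M.ρ g x) := by
  simp only [Mach.chi, map_sum, map_smul, LinearMap.sum_apply, LinearMap.smul_apply, smul_eq_mul]

/-- the valuation is the indicator of one prime -/
def Ind (p : P) (π : H) : Prop := ∀ q, M.ord q π = if q = p then 1 else 0

variable {M}

theorem Ind.act {p : P} {π : H} (h : Ind M p π) (g : G) : Ind M (g • p) (M.ρ g π) := by
  intro q
  rw [ord_act', h]
  simp only [inv_smul_eq_iff]

theorem Ind.self {p : P} {π : H} (h : Ind M p π) : M.ord p π = 1 := by rw [h, if_pos rfl]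

theorem Ind.ne {p q : P} {π : H} (h : Ind M p π) (hq : q ≠ p) : M.ord q π = 0 := by
  rw [h, if_neg hq]

variable (M)

theorem fin_D (x y : H) : Function.HasFiniteSupport fun q => M.ord q x * M.chi q y :=
  (M.ord_fin x).subset fun _ hq => left_ne_zero_of_mul hq

theorem Phi_eq (x y : H) :
    M.Phi x y = ∑ᶠ q, M.ord q y * M.chi q x - ∑ᶠ q, M.ord q x * M.chi q y := by
  simp only [Mach.Phi, tame_chi]
  exact finsum_sub_distrib (fin_D M y x) (fin_D M x y)

theorem fin_tame (x y : H) : Function.HasFiniteSupport fun q => M.tame q x y :=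
  ((M.ord_fin x).union (M.ord_fin y)).subset fun q hq => by
    by_contra h
    simp only [Set.mem_union, Set.mem_ofPred_eq, not_or, not_not] at h
    exact hq (M.tame_unr q x y h.1 h.2)

theorem Phi_add_left (x x' y : H) : M.Phi (x + x') y = M.Phi x y + M.Phi x' y := by
  simp only [Mach.Phi, map_add, LinearMap.add_apply]
  exact finsum_add_distrib (fin_tame M x y) (fin_tame M x' y)

theorem Phi_add_right (x y y' : H) : M.Phi x (y + y') = M.Phi x y + M.Phi x y' := by
  simp only [Mach.Phi, map_add]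
  exact finsum_add_distrib (fin_tame M x y) (fin_tame M x y')

theorem Phi_act (g : G) (x y : H) : M.Phi (M.ρ g x) (M.ρ g y) = M.Phi x y := by
  unfold Mach.Phi
  rw [← finsum_comp_equiv (MulAction.toPerm g)]
  simp only [MulAction.toPerm_apply, M.tame_act]

theorem Phi_inv [Fintype G] (hG : (Fintype.card G : k) ≠ 0) {x α : H} (hx : nrm M.ρ x = 0)
    (hα : ∀ g, M.ρ g α = α) : M.Phi x α = 0 := by
  have h := map_sum (AddMonoidHom.mk' (fun z => M.Phi z α) fun a b => Phi_add_left M a b α)
    (fun g => M.ρ g x) Finset.univ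
  have h0 := map_zero (AddMonoidHom.mk' (fun z => M.Phi z α) fun a b => Phi_add_left M a b α)
  have h1 : ∀ g, M.Phi (M.ρ g x) α = M.Phi x α := fun g => by
    rw [← Phi_act M g x α, hα]
  rw [nrm, LinearMap.sum_apply] at hx
  rw [hx, h0] at h
  simp only [AddMonoidHom.mk'_apply, h1, Finset.sum_const, Finset.card_univ, nsmul_eq_mul] at h
  exact (mul_eq_zero.1 h.symm).resolve_left hG

variable {M}

theorem D_ind {p : P} {π : H} (h : Ind M p π) (y : H) :
    ∑ᶠ q, M.ord q π * M.chi q y = M.chi p y := by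
  rw [finsum_eq_single _ p fun q hq => by rw [h.ne hq, zero_mul], h.self, one_mul]

theorem recip_ind {a p : P} {x π : H} (hx : Ind M a x) (hπ : Ind M p π) (hP : π ∈ M.Prim) :
    M.chi p x = M.chi a π := by
  have h : M.Phi x π = 0 := M.recip x π hP
  rw [Phi_eq, D_ind hx, D_ind hπ] at h
  exact sub_eq_zero.1 h

theorem good_act {p : P} (h : M.Good p) (g : G) : M.Good (g • p) := by
  refine ⟨fun a ha => ?_, fun μ => ?_⟩
  · have := h.1 (g⁻¹ * a * g) (by rw [mul_smul, mul_smul, ha, inv_smul_smul])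
    rw [mul_assoc, inv_mul_eq_one] at this
    exact right_eq_mul.1 this
  · obtain ⟨u, h1, h2, h3⟩ := h.2 μ
    exact ⟨u, h1, by rw [← h1 g, M.ord_act, h2], by rw [← h1 g, chi_act M g h2, h3]⟩

theorem smul_inj {p : P} (h : ∀ g : G, g • p = p → g = 1) {g g' : G} :
    g • p = g' • p ↔ g = g' :=
  ⟨fun e => (inv_mul_eq_one.1 (h (g'⁻¹ * g) (by rw [mul_smul, e, inv_smul_smul]))).symm,
    fun e => e ▸ rfl⟩

variable [Fintype G]

theorem nrm_apply (x : H) : nrm M.ρ x = ∑ g, M.ρ g x := by rw [nrm, LinearMap.sum_apply]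

theorem act_nrm (g : G) (x : H) : M.ρ g (nrm M.ρ x) = nrm M.ρ x := by
  simp only [nrm_apply, map_sum, act_act]
  exact Equiv.sum_comp (Equiv.mulLeft g) fun h => M.ρ h x

theorem nrm_act (g : G) (x : H) : nrm M.ρ (M.ρ g x) = nrm M.ρ x := by
  simp only [nrm_apply, act_act]
  exact Equiv.sum_comp (Equiv.mulRight g) fun h => M.ρ h x

theorem sum_ord {x : H} (hx : nrm M.ρ x = 0) (p : P) : ∑ g : G, M.ord (g • p) x = 0 := by
  have := congrArg (M.ord p) hx
  rw [nrm_apply, map_sum, map_zero] at this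
  rw [← this, ← Equiv.sum_comp (Equiv.inv G)]
  simp only [ord_act', Equiv.inv_apply]

theorem ord_comb {p : P} {π : H} (h : Ind M p π) (hp : ∀ g : G, g • p = p → g = 1) (t : G → k)
    (g : G) : M.ord (g • p) (∑ a, t a • M.ρ a π) = t g := by
  simp only [map_sum, map_smul, h.act _ _, smul_inj hp, smul_eq_mul, mul_ite, mul_one, mul_zero,
    Finset.sum_ite_eq, Finset.mem_univ, if_true]

theorem ord_comb_ne {p q : P} {π : H} (h : Ind M p π) (hq : ∀ g : G, g • p ≠ q) (t : G → k) :
    M.ord q (∑ a, t a • M.ρ a π) = 0 := by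
  simp only [map_sum, map_smul, (h.act _).ne (hq _).symm, smul_zero, Finset.sum_const_zero]

theorem ord_nrm {p : P} {π : H} (h : Ind M p π) (hp : ∀ g : G, g • p = p → g = 1) (g : G) :
    M.ord (g • p) (nrm M.ρ π) = 1 := by
  simpa only [one_smul, ← nrm_apply] using ord_comb h hp (fun _ => 1) g

theorem ord_nrm_ne {p q : P} {π : H} (h : Ind M p π) (hq : ∀ g : G, g • p ≠ q) :
    M.ord q (nrm M.ρ π) = 0 := by
  simpa only [one_smul, ← nrm_apply] using ord_comb_ne h hq (fun _ => 1)

theorem exists_mu [Fintype k] (hcard : Fintype.card G < Fintype.card k) (σ : G → k) :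
    ∃ μ : k, ∀ y : G → k,
      (∀ h, ∑ g, y g * (σ (h⁻¹ * g) - if h⁻¹ * g = 1 then μ else 0) = 0) → y = 0 := by
  let T : Module.End k (G → k) := Matrix.toLin' (Matrix.of fun h g => σ (h⁻¹ * g))
  obtain ⟨μ, hμ⟩ := T.charpoly.exists_eval_ne_zero_of_natDegree_lt_card T.charpoly_monic.ne_zero
    (by rw [LinearMap.charpoly_natDegree, Module.finrank_fintype_fun_eq_card, Cardinal.mk_fintype]
        exact_mod_cast hcard)
  refine ⟨μ, fun y hy => by_contra fun h0 => hμ ?_⟩
  refine (Module.End.hasEigenvalue_iff_isRoot_charpoly T μ).1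
    (Module.End.hasEigenvalue_of_hasEigenvector (x := y) ⟨?_, h0⟩)
  rw [Module.End.mem_eigenspace_iff]
  funext h
  have := hy h
  simp only [mul_sub, Finset.sum_sub_distrib, inv_mul_eq_one, mul_ite, mul_zero,
    Finset.sum_ite_eq, Finset.mem_univ, if_true] at this
  simp only [T, Matrix.toLin'_apply, Matrix.mulVec, dotProduct, Matrix.of_apply, Pi.smul_apply,
    smul_eq_mul, mul_comm (σ _)]
  linear_combination this

variable (M) in
/-- an auxiliary prime, trivial on `T` -/
structure Ok (T : Finset P) (p : P) (π : H) : Prop where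
  notMem : p ∉ T
  good : M.Good p
  prim : π ∈ M.Prim
  ind : Ind M p π
  chi : ∀ q ∈ T, M.chi q π = 0

variable (M) in
/-- the self-symbols of a prime element -/
def sig (d : P × H) (g : G) : k := M.tame d.1 (M.ρ g d.2) (nrm M.ρ d.2)

theorem exists_pair [Fintype k] (hR : M.AxR) {T : Finset P} (hT : ∀ g : G, ∀ p ∈ T, g • p ∈ T)
    (κ : (G → k) → G → k) :
    ∃ p π p' π', Ok M T p π ∧ Ok M T p' π' ∧ (∀ g : G, g • p ≠ p') ∧
      sig M (p, π) = sig M (p', π') ∧ ∀ g : G, M.chi (g⁻¹ • p) π' = κ (sig M (p, π)) g := by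
  by_contra hno
  have key : ∀ n : ℕ, ∃ F : Finset (P × H), F.card = n ∧ (∀ d ∈ F, Ok M T d.1 d.2) ∧
      (∀ d ∈ F, ∀ d' ∈ F, ∀ g : G, g • d.1 = d'.1 → d = d') ∧ Set.InjOn (sig M) F := by
    intro n
    induction n with
    | zero => exact ⟨∅, rfl, by simp, by simp, by simp⟩
    | succ n ih =>
      obtain ⟨F, h1, h2, h3, h4⟩ := ih
      obtain ⟨p, hp, hg, π, hπ, ho, hb⟩ := hR
        (T ∪ (F ×ˢ (Finset.univ : Finset G)).image fun e => e.2 • e.1.1)
        fun q => ∑ d ∈ F, ∑ g : G, if q = g⁻¹ • d.1 then κ (sig M d) g else 0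
      have hmem : ∀ d ∈ F, ∀ g : G, g • d.1 ∈
          T ∪ (F ×ˢ (Finset.univ : Finset G)).image fun e => e.2 • e.1.1 := fun d hd g =>
        Finset.mem_union_right _ (Finset.mem_image.2 ⟨(d, g), by simp [hd], rfl⟩)
      have hne : ∀ d ∈ F, ∀ g : G, g • d.1 ≠ p := fun d hd g e => hp (e ▸ hmem d hd g)
      have hok : Ok M T p π := by
        refine ⟨fun h => hp (Finset.mem_union_left _ h), hg, hπ, ho, fun q hq => ?_⟩
        rw [hb q (Finset.mem_union_left _ hq)]
        refine Finset.sum_eq_zero fun d hd => Finset.sum_eq_zero fun g _ => if_neg fun e => ?_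
        exact (h2 d hd).notMem (by simpa [e] using hT g q hq)
      have hF : (p, π) ∉ F := fun h => hne _ h 1 (one_smul _ _)
      refine ⟨insert (p, π) F, by rw [Finset.card_insert_of_notMem hF, h1], ?_, ?_, ?_⟩
      · intro d hd
        rcases Finset.mem_insert.1 hd with rfl | hd
        exacts [hok, h2 d hd]
      · intro d hd d' hd' g e
        rcases Finset.mem_insert.1 hd with rfl | hd <;>
          rcases Finset.mem_insert.1 hd' with rfl | hd'
        · rfl
        · exact absurd (inv_smul_eq_iff.2 e.symm) (hne d' hd' g⁻¹)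
        · exact absurd e (hne d hd g)
        · exact h3 d hd d' hd' g e
      · rw [Finset.coe_insert, Set.injOn_insert (by exact_mod_cast hF)]
        refine ⟨h4, ?_⟩
        rintro ⟨d, hd, e⟩
        refine hno ⟨d.1, d.2, p, π, h2 d hd, hok, hne d hd, e, fun g => ?_⟩
        rw [hb _ (hmem d hd _), Finset.sum_eq_single_of_mem d hd, Finset.sum_eq_single g,
          if_pos rfl]
        · intro g' _ hg'
          exact if_neg fun e' => hg' (inv_injective ((smul_inj (h2 d hd).good.1).1 e')).symm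
        · simp
        · intro d' hd' hne'
          refine Finset.sum_eq_zero fun g' _ => if_neg fun e' => hne' ?_
          exact h3 d' hd' d hd (g * g'⁻¹) (by rw [mul_smul, ← e', smul_inv_smul])
  obtain ⟨F, h1, -, -, h4⟩ := key (Fintype.card (G → k) + 1)
  have := Finset.card_le_card_of_injOn (t := Finset.univ) (sig M) (fun _ _ => by simp) h4
  rw [h1, Finset.card_univ] at this
  omega

end Pool.Agent.MP_14ad9d_nt.Full.MachineAux
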