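import Pool.Agent.MP_14ad9d_nt.Full.Sym2
import Pool.Agent.MP_d64882_nt.Zeta

set_option autoImplicit false

open NumberField IsDedekindDomain Filter Topology

namespace Pool.Agent.MP_14ad9d_nt.Full.WCAux

open Pool.Agent.MP_d64882_nt

variable {E : Type} [Field E] [NumberField E] {L : Type} [Field L] [NumberField L] [Algebra E L]

theorem D_le_of_split {l : ℕ} (T : Finset (Pr E))
    (h : ∀ v : Pr E, v ∉ T → Deg1 v → (v.asIdeal.primesOver (𝓞 L)).ncard = l ∧
      ∀ J ∈ v.asIdeal.primesOver (𝓞 L), Ideal.absNorm J = Ideal.absNorm v.asIdeal)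
    (hl : 0 < l) {s : ℝ} (hs : 1 < s) : D E s ≤ T.card + D L s / l := by
  classical
  have hl' : (0 : ℝ) < l := by exact_mod_cast hl
  refine hasSum_le_of_sum_le (hasSum_D E s hs) fun A => ?_
  set P : Ideal (𝓞 E) → Prop := fun I => (Ideal.absNorm I).Prime ∧ I ∉ T.image (·.asIdeal)
  have hfin : ∀ I : Ideal (𝓞 E), (I.primesOver (𝓞 L)).Finite := fun I =>
    Algebra.QuasiFinite.finite_primesOver I
  have hP : ∀ I, P I → (I.primesOver (𝓞 L)).ncard = l ∧
      ∀ J ∈ I.primesOver (𝓞 L), Ideal.absNorm J = Ideal.absNorm I := by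
    intro I hI
    have h1 : I.IsPrime :=
      Ideal.isPrime_of_irreducible_absNorm ((Nat.irreducible_iff_nat_prime _).2 hI.1)
    have h2 : I ≠ ⊥ := fun h0 => hI.1.ne_zero (Ideal.absNorm_eq_zero_iff.2 h0)
    exact h ⟨I, h1, h2⟩ (fun h3 => hI.2 (Finset.mem_image.2 ⟨_, h3, rfl⟩)) hI.1
  rw [← Finset.sum_filter_add_sum_filter_not A P, add_comm]
  refine add_le_add ?_ ?_
  · calc ∑ I ∈ A.filter (fun I => ¬ P I), (if (Ideal.absNorm I).Prime then w E s I else 0)
        ≤ ∑ I ∈ A.filter (fun I => ¬ P I),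
            (if I ∈ T.image (·.asIdeal) then (1 : ℝ) else 0) := by
          refine Finset.sum_le_sum fun I hI => ?_
          have h1 := (Finset.mem_filter.1 hI).2
          by_cases h2 : (Ideal.absNorm I).Prime
          · have h3 : I ∈ T.image (·.asIdeal) := by
              by_contra h3
              exact h1 ⟨h2, h3⟩
            rw [if_pos h2, if_pos h3]
            exact Real.rpow_le_one_of_one_le_of_nonpos (by exact_mod_cast h2.one_lt.le)
              (by linarith)
          · rw [if_neg h2]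
            split_ifs <;> norm_num
      _ ≤ T.card := by
          rw [Finset.sum_ite_mem, Finset.sum_const, nsmul_eq_mul, mul_one]
          exact_mod_cast (Finset.card_le_card Finset.inter_subset_right).trans
            Finset.card_image_le
  · rw [le_div_iff₀ hl', Finset.sum_mul]
    refine le_trans (le_of_eq ?_) (sum_le_hasSum
      ((A.filter P).biUnion fun I => (hfin I).toFinset)
      (fun J _ => by split_ifs; exacts [w_nonneg L s J, le_rfl]) (hasSum_D L s hs))
    rw [Finset.sum_biUnion]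
    · refine Finset.sum_congr rfl fun I hI => ?_
      have h1 := (Finset.mem_filter.1 hI).2
      obtain ⟨h2, h3⟩ := hP I h1
      rw [if_pos h1.1, Finset.sum_congr rfl (g := fun _ => w E s I), Finset.sum_const,
        ← Set.ncard_eq_toFinset_card _ (hfin I), h2, nsmul_eq_mul, mul_comm]
      intro J hJ
      have h4 := h3 J ((hfin I).mem_toFinset.1 hJ)
      rw [h4, if_pos h1.1, w, w, h4]
    · intro I _ I' _ hne
      refine Finset.disjoint_left.2 fun J h1 h2 => hne ?_
      exact ((hfin I).mem_toFinset.1 h1).2.over.trans ((hfin I').mem_toFinset.1 h2).2.over.symm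

theorem not_all_split {l : ℕ} (T : Finset (Pr E))
    (h : ∀ v : Pr E, v ∉ T → Deg1 v → (v.asIdeal.primesOver (𝓞 L)).ncard = l ∧
      ∀ J ∈ v.asIdeal.primesOver (𝓞 L), Ideal.absNorm J = Ideal.absNorm v.asIdeal)
    (hl : 1 < l) : False := by
  obtain ⟨C1, h1⟩ := (D_asymp E).bound
  obtain ⟨C2, h2⟩ := (D_asymp L).bound
  have h3 : Tendsto (fun s : ℝ => Real.log (s - 1)) (𝓝[>] 1) atBot := by
    refine Real.tendsto_log_nhdsGT_zero.comp ?_
    refine tendsto_nhdsWithin_iff.2 ⟨?_, ?_⟩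
    · have : Tendsto (fun s : ℝ => s - 1) (𝓝 1) (𝓝 (1 - 1)) :=
        (continuous_id.sub continuous_const).tendsto 1
      rw [sub_self] at this
      exact this.mono_left nhdsWithin_le_nhds
    · filter_upwards [self_mem_nhdsWithin] with s hs
      exact sub_pos.2 (show (1 : ℝ) < s from hs)
  have h4 := h3.eventually (eventually_lt_atBot (-(2 * (T.card + |C1| + |C2|) + 1)))
  obtain ⟨s, ⟨⟨a1, a2⟩, a3⟩, a4⟩ := (((h1.and h2).and h4).and self_mem_nhdsWithin).exists
  have a5 := D_le_of_split T h (by omega) a4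
  simp only [Real.norm_eq_abs, abs_one, mul_one] at a1 a2
  have b1 := (abs_le.1 a1).1
  have b2 := (abs_le.1 a2).2
  have b3 := le_abs_self C1
  have b4 := le_abs_self C2
  have b5 := abs_nonneg C1
  have b6 := abs_nonneg C2
  have b7 : (0 : ℝ) ≤ T.card := Nat.cast_nonneg _
  have hl' : (2 : ℝ) ≤ l := by exact_mod_cast hl
  have b8 : D L s / l ≤ (|C2| - Real.log (s - 1)) / 2 :=
    div_le_div₀ (by linarith) (by linarith) two_pos hl'
  linarith

omit [NumberField E] [NumberField L] in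
theorem act_over (σ : L ≃ₐ[E] L) {v : Pr E} {w : Pr L} (h : w.asIdeal.LiesOver v.asIdeal) :
    (act (σ : L ≃+* L) w).asIdeal.LiesOver v.asIdeal := by
  refine ⟨?_⟩
  rw [h.over]
  ext a
  rw [Ideal.mem_under, Ideal.mem_under, mem_act]
  have : (RingOfIntegers.mapRingEquiv (σ : L ≃+* L)).symm (algebraMap (𝓞 E) (𝓞 L) a) =
      algebraMap (𝓞 E) (𝓞 L) a := by
    rw [RingEquiv.symm_apply_eq]
    ext
    exact (σ.commutes (a : E)).symm
  rw [this]

theorem split_of_ne {l : ℕ} (hl : l.Prime) [IsGalois E L] (hd : Module.finrank E L = l)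
    {v : Pr E} {w w' : Pr L} (h : w.asIdeal.LiesOver v.asIdeal)
    (h' : w'.asIdeal.LiesOver v.asIdeal) (hne : w' ≠ w) :
    (v.asIdeal.primesOver (𝓞 L)).ncard = l ∧
      ∀ J ∈ v.asIdeal.primesOver (𝓞 L), J.inertiaDeg (𝓞 E) = 1 := by
  have := v.isPrime
  have h1 := Ideal.ncard_primesOver_mul_ramificationIdxIn_mul_inertiaDegIn v.asIdeal (𝓞 L)
    (L ≃ₐ[E] L)
  rw [IsGaloisGroup.card_eq_finrank (L ≃ₐ[E] L) E L, hd] at h1
  have h2 : 1 < (v.asIdeal.primesOver (𝓞 L)).ncard :=
    (Set.one_lt_ncard (Algebra.QuasiFinite.finite_primesOver _)).2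
      ⟨_, ⟨w'.isPrime, h'⟩, _, ⟨w.isPrime, h⟩, fun e => hne (HeightOneSpectrum.ext e)⟩
  have h3 := (hl.eq_one_or_self_of_dvd _ (Dvd.intro _ h1)).resolve_left h2.ne'
  refine ⟨h3, fun J hJ => ?_⟩
  obtain ⟨_, _⟩ := hJ
  rw [h3, mul_right_eq_self₀, or_iff_left hl.ne_zero] at h1
  rw [← Ideal.inertiaDegIn_eq_inertiaDeg v.asIdeal J (L ≃ₐ[E] L)]
  exact Nat.eq_one_of_mul_eq_one_left h1

theorem val_over_lt {v : Pr E} {w : Pr L} (h : w.asIdeal.LiesOver v.asIdeal) {x : E}
    (hx : v.valuation E x < 1) : w.valuation L (algebraMap E L x) < 1 := by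
  rw [← HeightOneSpectrum.valuation_liesOver L v w]
  have := w.isPrime
  exact pow_lt_one₀ zero_le hx
    (Ideal.IsDedekindDomain.ramificationIdx'_ne_zero_of_liesOver w.asIdeal v.ne_bot)

end Pool.Agent.MP_14ad9d_nt.Full.WCAux
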