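import Pool.Agent.MP_14ad9d_nt.Full.Sym2
import Pool.Agent.MP_d64882_nt.Zeta
import Pool.Agent.MP_14ad9d_nt.Full.WC1

set_option autoImplicit false

open NumberField IsDedekindDomain Polynomial

namespace Pool.Agent.MP_14ad9d_nt.Full

variable {l : ℕ} [Fact l.Prime] {E : Type} [Field E] [NumberField E] {ζ : E}

/-- a Kummer extension with its generator and automorphism -/
theorem exists_kummer (hζ : IsPrimitiveRoot ζ l) {x : E} (hx : ∀ d : E, x ≠ d ^ l) :
    ∃ (L : Type) (_ : Field L) (_ : NumberField L) (_ : Algebra E L) (_ : IsGalois E L) (θ : L)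
      (σ : L ≃ₐ[E] L), Module.finrank E L = l ∧ θ ^ l = algebraMap E L x ∧
        σ θ = algebraMap E L ζ * θ ∧ (∀ τ : L ≃ₐ[E] L, τ ∈ Subgroup.zpowers σ) ∧
        ∀ y : E, y ≠ 0 → ∀ z : L, z ^ l = algebraMap E L y → ∃ (i : ℕ) (d : E), y = x ^ i * d ^ l := by
  have hp : l.Prime := Fact.out
  have H : Irreducible (X ^ l - C x) :=
    X_pow_sub_C_irreducible_of_prime hp fun b hb => hx b hb.symm
  have hζ' : (primitiveRoots l E).Nonempty := ⟨ζ, (mem_primitiveRoots hp.pos).2 hζ⟩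
  have := Fact.mk H
  have := isSplittingField_AdjoinRoot_X_pow_sub_C hζ' H
  have := IsSplittingField.finiteDimensional (AdjoinRoot (X ^ l - C x)) (X ^ l - C x)
  have hG := isGalois_of_isSplittingField_X_pow_sub_C hζ' H (AdjoinRoot (X ^ l - C x))
  have hα : AdjoinRoot.root (X ^ l - C x) ^ l = algebraMap E _ x := by
    have := AdjoinRoot.eval₂_root (X ^ l - C x)
    simpa [sub_eq_zero] using this
  set L := AdjoinRoot (X ^ l - C x)
  set θ : L := AdjoinRoot.root (X ^ l - C x)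
  set σ : L ≃ₐ[E] L := (autEquivZmod H L hζ).symm (Multiplicative.ofAdd ((1 : ℕ) : ZMod l))
    with hσdef
  have hσ : σ θ = algebraMap E L ζ * θ := by
    rw [hσdef, autEquivZmod_symm_apply_natCast H L hα hζ 1, pow_one, Algebra.smul_def]
  have hgen : ∀ τ : L ≃ₐ[E] L, τ ∈ Subgroup.zpowers σ := by
    intro τ
    obtain ⟨m, rfl⟩ := (autEquivZmod H L hζ).symm.surjective τ
    refine ⟨(Multiplicative.toAdd m).val, ?_⟩
    simp only [hσdef, ← map_zpow]
    congr 1
    rw [← ofAdd_zsmul]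
    simp
  refine ⟨L, inferInstance, NumberField.of_module_finite E L, inferInstance, hG, θ, σ,
    finrank_of_isSplittingField_X_pow_sub_C hζ' H L, hα, hσ, hgen, fun y hy z hz => ?_⟩
  have hx0 : x ≠ 0 := fun h => hx 0 (by rw [h, zero_pow hp.ne_zero])
  have hz0 : z ≠ 0 := fun h => hy ((map_eq_zero _).1 (by rw [← hz, h, zero_pow hp.ne_zero]))
  have hθ0 : θ ≠ 0 := fun h => hx0 ((map_eq_zero _).1 (by rw [← hα, h, zero_pow hp.ne_zero]))
  have hζL : IsPrimitiveRoot (algebraMap E L ζ) l := hζ.map_of_injective (algebraMap E L).injective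
  have h1 : (σ z / z) ^ l = 1 := by
    rw [div_pow, ← map_pow, hz, AlgEquiv.commutes, div_self ((_root_.map_ne_zero _).2 hy)]
  obtain ⟨i, -, hi⟩ := hζL.eq_pow_of_pow_eq_one h1
  have h2 : σ (z / θ ^ i) = z / θ ^ i := by
    have := hζL.ne_zero hp.ne_zero
    rw [map_div₀, map_pow, hσ, mul_pow, hi]
    have h3 : σ z ≠ 0 := (_root_.map_ne_zero σ).2 hz0
    rw [div_mul_eq_mul_div, div_div_eq_mul_div, mul_div_mul_left _ _ h3]
  obtain ⟨d, hd⟩ := (IsGalois.mem_range_algebraMap_iff_fixed (F := E) (z / θ ^ i)).2 fun τ => by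
    have : Subgroup.zpowers σ ≤ MulAction.stabilizer _ (z / θ ^ i) := Subgroup.zpowers_le.2 h2
    exact this (hgen τ)
  refine ⟨i, d, (algebraMap E L).injective ?_⟩
  rw [map_mul, map_pow, map_pow, hd, ← hα, ← hz, div_pow, ← pow_mul, ← pow_mul, mul_comm l i,
    mul_div_cancel₀ _ (pow_ne_zero _ hθ0)]

/-- if `x` has an `l`-th root upstairs and is a local power, there is a prime of degree one -/
theorem split_of_chi (hl : 2 < l) (hζ : IsPrimitiveRoot ζ l) {L : Type} [Field L] [NumberField L]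
    [Algebra E L] [IsGalois E L] (hd : Module.finrank E L = l) {θ : L} {x : E} (hx : x ≠ 0)
    (hθ : θ ^ l = algebraMap E L x) {σ : L ≃ₐ[E] L} (hσ : σ θ = algebraMap E L ζ * θ)
    {v : Pr E} (hv : Tm l v) (h0 : (l : ℤ) ∣ ord v x) {ϖ : E} (hϖ : ord v ϖ = 1)
    (h1 : tame l ζ v x ϖ = 0) {w : Pr L} (h : w.asIdeal.LiesOver v.asIdeal) :
    act (σ : L ≃+* L) w ≠ w ∧ w.asIdeal.inertiaDeg (𝓞 E) = 1 := by
  have hp : l.Prime := Fact.out
  have key : act (σ : L ≃+* L) w ≠ w := by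
    intro hw
    obtain ⟨k, hk⟩ := h0
    have hϖ0 : ϖ ≠ 0 := fun e => by simp [e, ord] at hϖ
    have hx0 : x / ϖ ^ (l * k) ≠ 0 := div_ne_zero hx (zpow_ne_zero _ hϖ0)
    have ho : ord v (x / ϖ ^ (l * k)) = 0 := by
      rw [div_eq_mul_inv, ord_mul v hx (inv_ne_zero (zpow_ne_zero _ hϖ0)), ord_inv, ord_zpow, hϖ,
        hk]
      ring
    rw [tame, hϖ, hk, zpow_one] at h1
    obtain ⟨b, hb⟩ := (chi_eq_zero_iff hζ hv hx0 ho).1 h1
    have hζL : IsPrimitiveRoot (algebraMap E L ζ) l :=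
      hζ.map_of_injective (algebraMap E L).injective
    set θ0 : L := θ / algebraMap E L (ϖ ^ k) with hθ0
    have e1 : θ0 ^ l = algebraMap E L (x / ϖ ^ (l * k)) := by
      rw [hθ0, div_pow, hθ, ← map_pow, ← map_div₀, ← zpow_natCast, ← zpow_mul, mul_comm k]
    have e2 : ∏ i ∈ Finset.range l, (θ0 - algebraMap E L (ζ ^ i * b)) =
        algebraMap E L (x / ϖ ^ (l * k) - (b : E) ^ l) := by
      have := congrArg (eval θ0) (X_pow_sub_C_eq_prod hζL hp.pos
        (α := algebraMap E L b) rfl)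
      simp only [eval_sub, eval_pow, eval_X, eval_C, eval_prod] at this
      rw [map_sub, ← e1, map_pow, this]
      simp only [map_mul, map_pow]
    have e3 := WCAux.val_over_lt h hb
    rw [← e2, map_prod] at e3
    obtain ⟨i, -, hi⟩ : ∃ i ∈ Finset.range l,
        w.valuation L (θ0 - algebraMap E L (ζ ^ i * b)) < 1 := by
      by_contra hc
      push Not at hc
      exact absurd (Finset.one_le_prod' hc) (not_le.2 e3)
    have e4 := val_act (σ : L ≃+* L) w (θ0 - algebraMap E L (ζ ^ i * b))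
    have e5 : (σ : L ≃+* L) (θ0 - algebraMap E L (ζ ^ i * b)) =
        algebraMap E L ζ * θ0 - algebraMap E L (ζ ^ i * b) := by
      change σ _ = _
      rw [map_sub, AlgEquiv.commutes, hθ0, map_div₀, AlgEquiv.commutes, hσ, mul_div_assoc]
    rw [hw, e5] at e4
    have e6 := Valuation.map_sub_lt _ hi (e4 ▸ hi)
    have e7 : θ0 - algebraMap E L (ζ ^ i * b) -
        (algebraMap E L ζ * θ0 - algebraMap E L (ζ ^ i * b)) = (1 - algebraMap E L ζ) * θ0 := by
      ring
    have e8 : w.valuation L (1 - algebraMap E L ζ) = 1 := by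
      have a1 := val_ell hζL w
      have a2 : w.valuation L (l : L) = 1 := by
        have := (w.valuation_eq_one_iff_notMem (K := L) (r := (l : 𝓞 L))).2 ((tm_over h).2 hv)
        simpa using this
      rw [a2] at a1
      exact (pow_eq_one_iff_left (by omega)).1 a1.symm
    have e9 : w.valuation L θ0 = 1 := by
      have a1 : w.valuation L (θ0 ^ l) = 1 := by
        rw [e1, val_eq_exp w ((_root_.map_ne_zero _).2 hx0), ord_over h, ho]
        simp
      rw [map_pow] at a1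
      exact (pow_eq_one_iff_left hp.ne_zero).1 a1
    rw [e7, map_mul, e8, e9, one_mul] at e6
    exact lt_irrefl _ e6
  exact ⟨key, (WCAux.split_of_ne hp hd h (WCAux.act_over σ h) key).2 _ ⟨w.isPrime, h⟩⟩

/-- weak Chebotarev theorem for one element -/
theorem wc1 (hl : 2 < l) (hζ : IsPrimitiveRoot ζ l) {x : E} (hx : ∀ d : E, x ≠ d ^ l) :
    {v : Pr E | Deg1 v ∧ Tm l v ∧ ord v x = 0 ∧ chi l ζ v x ≠ 0}.Infinite := by
  intro hfin
  have hp : l.Prime := Fact.out
  have hx0 : x ≠ 0 := fun h => hx 0 (by rw [h, zero_pow hp.ne_zero])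
  obtain ⟨L, _, _, _, _, θ, σ, hd, hθ, hσ, -⟩ := exists_kummer hζ hx
  refine WCAux.not_all_split (L := L) (l := l)
    ((hfin.union (finite_wild (l := l))).union (ord_finite x)).toFinset (fun v hv h1 => ?_) hp.one_lt
  simp only [Set.Finite.mem_toFinset, Set.mem_union, Set.mem_ofPred_eq, not_or, not_not,
    not_and] at hv
  obtain ⟨⟨a1, a2⟩, a3⟩ := hv
  obtain ⟨w, hw⟩ := exists_over (E' := L) v
  obtain ⟨ϖ, -, hϖ⟩ := exists_ord_eq_one v
  have h2 := split_of_chi hl hζ hd hx0 hθ hσ a2 (by rw [a3]; exact dvd_zero _) hϖ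
    (by rw [tame_unit hl hζ a2 hx0 a3, a1 h1 a2 a3, mul_zero]) hw
  obtain ⟨h3, h4⟩ := WCAux.split_of_ne hp hd hw (WCAux.act_over σ hw) h2.1
  refine ⟨h3, fun J hJ => ?_⟩
  have h5 : J ≠ ⊥ := by
    have := hJ.2
    exact Ideal.ne_bot_of_liesOver_of_ne_bot v.ne_bot J
  have h6 := absNorm_over (w := (⟨J, hJ.1, h5⟩ : Pr L)) hJ.2
  rwa [h4 J hJ, pow_one] at h6

/-- weak Chebotarev theorem for two elements -/
theorem wc2 (hl : 2 < l) (hζ : IsPrimitiveRoot ζ l) {x y : E} (hx0 : x ≠ 0) (hy : y ≠ 0)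
    (hx : ∀ (i : ℕ) (d : E), x ≠ y ^ i * d ^ l) :
    {v : Pr E | Deg1 v ∧ Tm l v ∧ ord v x = 0 ∧ ord v y = 0 ∧ chi l ζ v x ≠ 0 ∧
      chi l ζ v y = 0}.Infinite := by
  have hp : l.Prime := Fact.out
  intro hfin
  by_cases hyp : ∀ d : E, y ≠ d ^ l
  · obtain ⟨L, _, _, _, _, θ, σ, hd, hθ, hσ, -, hk⟩ := exists_kummer hζ hyp
    have hζL : IsPrimitiveRoot (algebraMap E L ζ) l :=
      hζ.map_of_injective (algebraMap E L).injective
    have h1 : ∀ z : L, algebraMap E L x ≠ z ^ l := fun z hz => by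
      obtain ⟨i, d, h⟩ := hk x hx0 z hz.symm
      exact hx i d h
    have hθ0 : θ ≠ 0 := fun h => hy ((map_eq_zero _).1 (by rw [← hθ, h, zero_pow hp.ne_zero]))
    refine wc1 hl hζL h1 (((hfin.biUnion (t := fun v : Pr E =>
      {w : Pr L | w.asIdeal.LiesOver v.asIdeal}) fun v _ => ?_).union (ord_finite θ)).subset ?_)
    · refine ((Algebra.QuasiFinite.finite_primesOver (S := 𝓞 L) v.asIdeal).preimage
        (f := fun w : Pr L => w.asIdeal) fun _ _ _ _ e => HeightOneSpectrum.ext e).subset ?_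
      exact fun w hw => ⟨w.isPrime, hw⟩
    · rintro w ⟨a1, a2, a3, a4⟩
      by_cases a5 : ord w θ = 0
      swap
      · exact Or.inr a5
      refine Or.inl ?_
      obtain ⟨v, hv⟩ := exists_under (E := E) w
      have := w.isPrime
      have he : ((w.asIdeal.ramificationIdx (𝓞 E) : ℕ) : ℤ) ≠ 0 := by
        exact_mod_cast (w.asIdeal.ramificationIdx_pos (𝓞 E)).ne'
      have b1 := absNorm_over hv
      have b2 : w.asIdeal.inertiaDeg (𝓞 E) = 1 := by
        have : (Ideal.absNorm v.asIdeal ^ w.asIdeal.inertiaDeg (𝓞 E)).Prime := b1 ▸ a1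
        exact this.eq_one_of_pow
      rw [b2, pow_one] at b1
      have b3 := (tm_over hv).1 a2
      have b4 : ord v x = 0 := by
        rw [ord_over hv] at a3
        exact (mul_eq_zero.1 a3).resolve_left he
      have b5 : ord v y = 0 := by
        have := ord_over hv y
        rw [← hθ, ord_pow, a5, mul_zero] at this
        exact (mul_eq_zero.1 this.symm).resolve_left he
      have b6 := chi_over hζ b3 hv hx0 b4
      have b7 := chi_over hζ b3 hv hy b5
      rw [b2, Nat.cast_one, one_mul] at b6 b7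
      rw [← hθ, ← zpow_natCast, chi_zpow hζL a2 hθ0 a5] at b7
      refine Set.mem_biUnion (x := v) ⟨by rw [Deg1, ← b1]; exact a1, b3, b4, b5, b6 ▸ a4, ?_⟩ hv
      rw [← b7]
      simp
  · push Not at hyp
    obtain ⟨d, rfl⟩ := hyp
    have hd : d ≠ 0 := fun h => hy (by rw [h, zero_pow hp.ne_zero])
    refine wc1 hl hζ (x := x) (fun e h => hx 0 e (by rw [h, pow_zero, one_mul]))
      ((hfin.union (ord_finite d)).subset ?_)
    rintro v ⟨a1, a2, a3, a4⟩
    by_cases a5 : ord v d = 0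
    · refine Or.inl ⟨a1, a2, a3, by rw [ord_pow, a5, mul_zero], a4, ?_⟩
      rw [← zpow_natCast, chi_zpow hζ a2 hd a5]
      simp
    · exact Or.inr a5

end Pool.Agent.MP_14ad9d_nt.Full
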