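import Pool.Agent.MP_14ad9d_nt.Full.Inst
import Pool.Agent.MP_14ad9d_nt.Full.Machine1
import Pool.Agent.MP_14ad9d_nt.Full.DL
import Pool.Agent.MP_14ad9d_nt.Full.WC

set_option autoImplicit false
set_option linter.unusedSectionVars false

open NumberField IsDedekindDomain

namespace Pool.Agent.MP_14ad9d_nt.Full.InstKAux

variable {l : ℕ} [Fact l.Prime] {E : Type} [Field E] [NumberField E] {ζ : E}

theorem val_sq (hl : 2 < l) (hζ : IsPrimitiveRoot ζ l) {v : Pr E} (hv : ¬Tm l v) :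
    v.valuation E ((l : E) ^ 2) ≤ v.valuation E (1 - ζ) ^ (l + 1) := by
  rw [map_pow, val_ell hζ, ← pow_mul]
  exact pow_le_pow_of_le_one zero_le (val_one_sub_lt hζ hv).le (by omega)

theorem val_dvd (v : Pr E) {a b : 𝓞 E} (h : a ∣ b) :
    v.valuation E (b : E) ≤ v.valuation E (a : E) := by
  obtain ⟨c, rfl⟩ := h
  have h1 : v.valuation E (c : E) ≤ 1 := v.valuation_le_one c
  have e : ((a * c : 𝓞 E) : E) = (a : E) * (c : E) := by simp
  rw [e, map_mul]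
  exact mul_le_of_le_one_right' h1

theorem val_lt (v : Pr E) {a : 𝓞 E} (h : a ∈ v.asIdeal) : v.valuation E (a : E) < 1 :=
  (v.valuation_lt_one_iff_mem (K := E) a).2 h

theorem val_one (v : Pr E) {a : 𝓞 E} (h : a ∉ v.asIdeal) : v.valuation E (a : E) = 1 :=
  (v.valuation_eq_one_iff_notMem (K := E) (r := a)).2 h

theorem coe_ne {a : 𝓞 E} (h : a ≠ 0) : (a : E) ≠ 0 := by simpa using h

theorem ne_of_notMem {v : Pr E} {a : 𝓞 E} (h : a ∉ v.asIdeal) : a ≠ 0 := by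
  rintro rfl
  exact h (zero_mem _)

theorem notMem_of_coprime {v : Pr E} {a b : 𝓞 E} (h : IsCoprime a b) (hb : b ∈ v.asIdeal) :
    a ∉ v.asIdeal := by
  intro ha
  obtain ⟨x, y, e⟩ := h
  exact v.isPrime.ne_top ((Ideal.eq_top_iff_one _).2
    (e ▸ add_mem (v.asIdeal.mul_mem_left x ha) (v.asIdeal.mul_mem_left y hb)))

theorem notMem_of_sub {v : Pr E} {a b : 𝓞 E} (h : a - b ∈ v.asIdeal) (hb : b ∉ v.asIdeal) :
    a ∉ v.asIdeal := fun ha => hb (by simpa using sub_mem ha h)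

theorem one_notMem (v : Pr E) : (1 : 𝓞 E) ∉ v.asIdeal := fun h =>
  v.isPrime.ne_top ((Ideal.eq_top_iff_one _).2 h)

/-- an integer with prescribed residues that is close to one at the wild primes -/
theorem exists_theta (T : Finset (Pr E)) (hT : ∀ v ∈ T, Tm l v) (a : Pr E → 𝓞 E)
    (ha : ∀ v ∈ T, a v ∉ v.asIdeal) (N : 𝓞 E) (hN : N ≠ 0) (hlN : (l : 𝓞 E) ∣ N)
    (hTN : ∀ v ∈ T, N ∈ v.asIdeal) :
    ∃ θ : 𝓞 E, θ ≠ 0 ∧ IsCoprime θ N ∧ (∀ v ∈ T, θ - a v ∈ v.asIdeal) ∧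
      ∀ v : Pr E, ¬Tm l v → v.valuation E ((θ : E) - 1) ≤ v.valuation E ((l : E) ^ 2) := by
  classical
  have hl0 : (l : 𝓞 E) ^ 2 ≠ 0 := pow_ne_zero _ (Nat.cast_ne_zero.2 (Fact.out : l.Prime).ne_zero)
  have N0 := DLAux.span_ne hN
  set D := (Ideal.finite_factors N0).toFinset with hD
  have mD : ∀ v : Pr E, v ∈ D ↔ N ∈ v.asIdeal := fun v => by
    rw [hD, Set.Finite.mem_toFinset, Set.mem_ofPred_eq, Ideal.dvd_span_singleton]
  obtain ⟨θ, hθ⟩ := IsDedekindDomain.exists_forall_sub_mem_ideal (s := D)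
    (fun v : Pr E => v.asIdeal) (fun v => DLAux.cnt v (Ideal.span {(l : 𝓞 E) ^ 2}) + 1)
    (fun v _ => v.prime) (fun v _ w _ h e => h (HeightOneSpectrum.ext e))
    fun v => if v.1 ∈ T then a v.1 else 1
  have h1 : ∀ v : Pr E, N ∈ v.asIdeal → θ - (if v ∈ T then a v else 1) ∈ v.asIdeal := fun v hv =>
    Ideal.pow_le_self (Nat.succ_ne_zero _) (hθ v ((mD v).2 hv))
  have h2 : ∀ v : Pr E, N ∈ v.asIdeal → θ ∉ v.asIdeal := fun v hv =>
    notMem_of_sub (h1 v hv) (by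
      split_ifs with e
      exacts [ha v e, one_notMem v])
  obtain ⟨v₀, hv₀⟩ : ∃ v : Pr E, N ∈ v.asIdeal := by
    have hp : l.Prime := Fact.out
    have h3 : Ideal.span {(l : 𝓞 E)} ≠ ⊤ := by
      rw [Ne, Ideal.span_singleton_eq_top]
      intro hu
      have := hu.map (Algebra.norm ℤ)
      rw [← map_natCast (algebraMap ℤ (𝓞 E)), Algebra.norm_algebraMap, isUnit_pow_iff
        Module.finrank_pos.ne', Int.isUnit_iff_natAbs_eq, Int.natAbs_natCast] at this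
      exact hp.ne_one this
    obtain ⟨P, hP, hle⟩ := Ideal.exists_le_maximal _ h3
    have h4 : (l : 𝓞 E) ∈ P := hle (Ideal.mem_span_singleton_self _)
    refine ⟨⟨P, hP.isPrime, fun e => ?_⟩, P.mem_of_dvd hlN h4⟩
    rw [e, Ideal.mem_bot] at h4
    exact Nat.cast_ne_zero.2 hp.ne_zero h4
  refine ⟨θ, ne_of_notMem (h2 v₀ hv₀), ?_, fun v hv => ?_, fun v hv => ?_⟩
  · rw [← Ideal.isCoprime_span_singleton_iff, DLAux.coprime_iff N0]
    intro v hv e
    exact h2 v ((Ideal.span_singleton_le_iff_mem _).1 hv) ((Ideal.span_singleton_le_iff_mem _).1 e)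
  · simpa [hv] using h1 v (hTN v hv)
  · have h3 := hθ v ((mD v).2 (v.asIdeal.mem_of_dvd hlN (not_not.1 hv)))
    rw [if_neg fun e => hv (hT v e), ← v.intValuation_le_pow_iff_mem,
      ← v.valuation_of_algebraMap (K := E)] at h3
    have e1 : (θ : E) - 1 = ((θ - 1 : 𝓞 E) : E) := by simp
    have e2 : (l : E) ^ 2 = (((l : 𝓞 E) ^ 2 : 𝓞 E) : E) := by simp
    rw [e1, e2, val_eq_exp v (coe_ne hl0), DLAux.ord_eq_cnt v hl0]
    refine le_trans h3 (WithZero.exp_le_exp.2 ?_)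
    push_cast
    omega

open Classical in
/-- primary prime elements with prescribed symbols -/
theorem prim_elt (hl : 2 < l) (hζ : IsPrimitiveRoot ζ l) (T : Finset (Pr E))
    (hT : ∀ v ∈ T, Tm l v) (b : Pr E → ZMod l) :
    {v : Pr E | Deg1 v ∧ ∃ π : E, π ≠ 0 ∧ Near l ζ (l + 1) π ∧
      (∀ w, (ord w π : ZMod l) = if w = v then 1 else 0) ∧
      ∀ w ∈ T, ord w π = 0 ∧ chi l ζ w π = b w}.Infinite := by
  have hp : l.Prime := Fact.out
  have ha : ∀ v : Pr E, ∃ a : 𝓞 E, v ∈ T → a ∉ v.asIdeal ∧ chi l ζ v (a : E) = b v := fun v => by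
    by_cases hv : v ∈ T
    · obtain ⟨a, h⟩ := chi_surj hζ (hT v hv) (b v)
      exact ⟨a, fun _ => h⟩
    · exact ⟨0, fun e => absurd e hv⟩
  choose a ha using ha
  set N : ℕ := l ^ 2 * ∏ v ∈ T, Ideal.absNorm v.asIdeal with hN
  have N0 : N ≠ 0 := mul_ne_zero (pow_ne_zero _ hp.ne_zero)
    (Finset.prod_ne_zero_iff.2 fun v _ => Ideal.absNorm_eq_zero_iff.not.2 v.ne_bot)
  have d2 : (l : 𝓞 E) ^ 2 ∣ (N : 𝓞 E) := by
    rw [hN, Nat.cast_mul, Nat.cast_pow]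
    exact dvd_mul_right _ _
  have d1 : (l : 𝓞 E) ∣ (N : 𝓞 E) := (dvd_pow_self _ two_ne_zero).trans d2
  have dT : ∀ v ∈ T, (N : 𝓞 E) ∈ v.asIdeal := fun v hv =>
    v.asIdeal.mem_of_dvd (Nat.cast_dvd_cast
      ((Finset.dvd_prod_of_mem _ hv).mul_left _)) (Ideal.absNorm_mem v.asIdeal)
  obtain ⟨θ, θ0, θ1, θ2, θ3⟩ := exists_theta T hT a (fun v hv => (ha v hv).1) (N : 𝓞 E)
    (Nat.cast_ne_zero.2 N0) d1 dT
  obtain ⟨B, ρ, B0, -, ρ1, c, hc, hfr⟩ := primeClass l hl N N0 θ θ0 θ1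
  refine (infinite_of_scale _ c hc hfr).mono ?_
  rintro v ⟨hv, π, hπ, hd⟩
  have π0 : π ≠ 0 := by
    rintro rfl
    rw [Ideal.span_singleton_eq_bot.2 rfl] at hπ
    exact mul_ne_zero v.ne_bot (pow_ne_zero l B0) hπ.symm
  have ρ0 : ρ ≠ 0 := by
    rintro rfl
    have := isCoprime_zero_left.1 ρ1
    have h3 := (isUnit_of_dvd_unit d1 this).map (Algebra.norm ℤ)
    rw [← map_natCast (algebraMap ℤ (𝓞 E)), Algebra.norm_algebraMap, isUnit_pow_iff
      Module.finrank_pos.ne', Int.isUnit_iff_natAbs_eq, Int.natAbs_natCast] at h3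
    exact hp.ne_one h3
  have ec : ((π - θ * ρ ^ l : 𝓞 E) : E) = (π : E) - θ * (ρ : E) ^ l := by simp
  refine ⟨hv, π, coe_ne π0, ⟨ρ, coe_ne ρ0, fun w hw => ?_⟩, fun w => ?_, fun w hw => ?_⟩
  · have r1 : w.valuation E (ρ : E) = 1 :=
      val_one w (notMem_of_coprime ρ1 (w.asIdeal.mem_of_dvd d1 (not_not.1 hw)))
    have e : (π : E) / (ρ : E) ^ l - 1 = ((π : E) - θ * (ρ : E) ^ l) / (ρ : E) ^ l + (θ - 1) := by
      have := coe_ne ρ0
      field_simp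
      ring
    rw [e]
    refine le_trans (Valuation.map_add_le _ ?_ (θ3 w hw)) (val_sq hl hζ hw)
    rw [map_div₀, map_pow, r1, one_pow, div_one, ← ec]
    simpa using val_dvd w (d2.trans hd)
  · have := ord_of_span B0 hπ w
    rw [← ZMod.intCast_zmod_eq_zero_iff_dvd] at this
    push_cast at this
    exact sub_eq_zero.1 this
  · have r1 := notMem_of_coprime ρ1 (dT w hw)
    have t1 := notMem_of_sub (θ2 w hw) (ha w hw).1
    have t2 : θ * ρ ^ l ∉ w.asIdeal := fun e =>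
      (w.isPrime.mem_or_mem e).elim t1 fun e => r1 (w.isPrime.mem_of_pow_mem _ e)
    have t3 : π - θ * ρ ^ l ∈ w.asIdeal := w.asIdeal.mem_of_dvd hd (dT w hw)
    have o1 := (ord_eq_zero_iff w π0).2 (notMem_of_sub t3 t2)
    have o2 := (ord_eq_zero_iff w θ0).2 t1
    have o3 := (ord_eq_zero_iff w ρ0).2 r1
    refine ⟨o1, ?_⟩
    have c1 := chi_congr hζ (hT w hw) (coe_ne π0) o1 (ec ▸ val_lt w t3)
    have c2 := chi_congr hζ (hT w hw) (coe_ne θ0) o2 (y := (a w : E))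
      (by simpa using val_lt w (θ2 w hw))
    rw [← c1, chi_mul hζ (hT w hw) (coe_ne θ0) (pow_ne_zero _ (coe_ne ρ0)) o2
      (by rw [ord_pow, o3, mul_zero]), ← zpow_natCast, chi_zpow hζ (hT w hw) (coe_ne ρ0) o3, ← c2,
      (ha w hw).2]
    simp

end Pool.Agent.MP_14ad9d_nt.Full.InstKAux
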