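import Pool.Agent.MP_14ad9d_nt.Full.Inst
import Pool.Agent.MP_14ad9d_nt.Full.InstK1

set_option autoImplicit false
set_option linter.unusedSectionVars false

open NumberField IsDedekindDomain

namespace Pool.Agent.MP_14ad9d_nt.Full

variable {l : ℕ} [Fact l.Prime] {F K : Type} [Field F] [NumberField F] [Field K] [NumberField K]
  [Algebra F K] {S : Setup l F K} {M : Mach (ZMod l) (K ≃ₐ[F] K) (Hm l K) (TP l K)}

namespace InstKAux

open MachineAux

noncomputable scoped instance actPr : MulAction (K ≃ₐ[F] K) (Pr K) where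
  smul g v := act (g : K ≃+* K) v
  one_smul v := by
    ext a
    exact Iff.rfl
  mul_smul g h v := by
    ext a
    exact Iff.rfl

theorem smul_def (g : K ≃ₐ[F] K) (v : Pr K) : g • v = act (g : K ≃+* K) v := rfl

theorem tm_smul (g : K ≃ₐ[F] K) (v : Pr K) : Tm l (g • v) ↔ Tm l v := tm_act _ l v

theorem fs_fin {V : Type} [AddCommGroup V] (ψ : Pr K → V) (a : K) :
    Function.HasFiniteSupport fun v => ord v a • ψ v :=
  (ord_finite a).subset fun v hv e => hv (by simp [e])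

theorem map_fs {V W : Type} [AddCommGroup V] [AddCommGroup W] (φ : V →+ W) (ψ : Pr K → V) (a : K) :
    φ (∑ᶠ v, ord v a • ψ v) = ∑ᶠ v, ord v a • φ (ψ v) := by
  rw [φ.map_finsum (fs_fin ψ a)]
  simp only [map_zsmul]

/-- the class of the norm of a prime -/
noncomputable def ps2 (l : ℕ) [Fact l.Prime] (F : Type) [Field F] [NumberField F] [Algebra F K]
    (v : Pr K) : (Pr K →₀ ZMod l) ⧸ DLAux.NN l (⊤ : Ideal (𝓞 K)) :=
  ∑ g : K ≃ₐ[F] K, DLAux.ps l ⊤ (g • v)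

theorem ps2_smul (g : K ≃ₐ[F] K) (v : Pr K) : ps2 l F (g • v) = ps2 l F v := by
  simp only [ps2, ← mul_smul]
  exact Equiv.sum_comp (Equiv.mulRight g) fun h => DLAux.ps l ⊤ (h • v)

theorem ps2_principal {a : 𝓞 K} (ha : a ≠ 0) : ∑ᶠ v, ord v (a : K) • ps2 l F v = 0 := by
  simp only [ps2, Finset.smul_sum]
  rw [finsum_sum_comm _ _ fun g _ => fs_fin _ _]
  refine Finset.sum_eq_zero fun g _ => ?_
  have h0 : RingOfIntegers.mapRingEquiv (g : K ≃+* K) a ≠ 0 := by simpa using ha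
  have h1 := (DLAux.deg_span (DLAux.ps l ⊤) h0).symm.trans
    (DLAux.deg_ps_one l ⊤ h0 Submodule.mem_top)
  refine Eq.trans (finsum_eq_of_bijective _ (MulAction.bijective g) fun v => ?_) h1
  rw [← ord_act (g : K ≃+* K) v]
  rfl

open Classical in
theorem of_ps2 {v : Pr K} (h : ps2 l F v = 0) : ∃ a : K, a ≠ 0 ∧ ∀ w : Pr K,
    (ord w a : ZMod l) = ∑ g : K ≃ₐ[F] K, if g • v = w then 1 else 0 := by
  simp only [ps2, DLAux.ps] at h
  rw [← map_sum, Submodule.mkQ_apply, Submodule.Quotient.mk_eq_zero] at h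
  obtain ⟨a, a0, -, ha⟩ := h
  refine ⟨a, coe_ne a0, fun w => ?_⟩
  rw [DLAux.ord_eq_cnt w a0, Int.cast_natCast, ← ha w fun e => w.isPrime.ne_top (top_le_iff.1 e),
    Finsupp.finsetSum_apply]
  simp only [Finsupp.single_apply]

open Classical in
/-- an invariant class whose divisor is one orbit -/
theorem varpi (h : Spec S M) {p : TP l K} (hp : ∀ g : K ≃ₐ[F] K, g • p = p → g = 1)
    (h0 : ps2 l F p.1 = 0) : ∃ ϖ ∈ M.UL, (∀ g, M.ρ g ϖ = ϖ) ∧
      ∀ q, M.ord q ϖ = if q ∈ MulAction.orbit (K ≃ₐ[F] K) p then 1 else 0 := by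
  obtain ⟨a, a0, ha⟩ := of_ps2 h0
  have h1 : cls l a ∈ M.UL := (h.2.2.2.2 a a0).2 fun w hw => by
    rw [← ZMod.intCast_zmod_eq_zero_iff_dvd, ha]
    refine Finset.sum_eq_zero fun g _ => if_neg fun e => hw ?_
    rw [← e]
    exact (tm_smul g p.1).2 p.2
  have h2 : ∀ q, M.ord q (cls l a) = if q ∈ MulAction.orbit (K ≃ₐ[F] K) p then 1 else 0 := by
    intro q
    rw [h.2.1, ha]
    have e : ∀ g : K ≃ₐ[F] K, g • p.1 = q.1 ↔ g • p = q := fun g =>
      ⟨fun e => Subtype.ext e, fun e => congrArg Subtype.val e⟩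
    simp only [e]
    split_ifs with hq
    · obtain ⟨g, rfl⟩ := hq
      simp [smul_inj hp]
    · exact Finset.sum_eq_zero fun g _ => if_neg fun e => hq ⟨g, e⟩
  refine ⟨(Fintype.card (K ≃ₐ[F] K) : ZMod l)⁻¹ • nrm M.ρ (cls l a), M.UL.smul_mem _ ?_,
    fun g => by rw [map_smul, act_nrm], fun q => ?_⟩
  · rw [nrm_apply]
    exact sum_mem fun g _ => M.UL_stab g _ h1
  · have e : ∀ g : K ≃ₐ[F] K, g⁻¹ • q ∈ MulAction.orbit (K ≃ₐ[F] K) p ↔
        q ∈ MulAction.orbit (K ≃ₐ[F] K) p := fun g =>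
      ⟨fun e => by simpa using MulAction.mem_orbit_of_mem_orbit g e,
        MulAction.mem_orbit_of_mem_orbit _⟩
    rw [map_smul, nrm_apply, map_sum]
    simp only [ord_act', h2, e]
    rw [Finset.sum_const, Finset.card_univ, nsmul_eq_mul, smul_eq_mul,
      inv_mul_cancel_left₀ S.card_ne]

open Classical in
/-- the residue symbol on a subspace -/
noncomputable def ps1 (M : Mach (ZMod l) (K ≃ₐ[F] K) (Hm l K) (TP l K))
    (X : Submodule (ZMod l) (Hm l K)) (v : Pr K) : X →ₗ[ZMod l] ZMod l :=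
  if h : Tm l v then ((M.tame ⟨v, h⟩).flip (M.unif ⟨v, h⟩)).comp X.subtype else 0

theorem ps1_apply (X : Submodule (ZMod l) (Hm l K)) (p : TP l K) (x : X) :
    ps1 M X p.1 x = M.chi p x := by
  rw [ps1, dif_pos p.2]
  rfl

theorem ps1_wild (X : Submodule (ZMod l) (Hm l K)) {v : Pr K} (h : ¬Tm l v) : ps1 M X v = 0 :=
  dif_neg h

theorem ps1_principal (hl : 2 < l) (h : Spec S M) (X : Submodule (ZMod l) (Hm l K)) {a : 𝓞 K}
    (ha : a ≠ 0) (h1 : (l : 𝓞 K) ^ 2 ∣ a - 1)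
    (h2 : ∀ p : TP l K, ∀ x ∈ X, M.ord p x ≠ 0 → a - 1 ∈ p.1.asIdeal) :
    ∑ᶠ v, ord v (a : K) • ps1 M X v = 0 := by
  classical
  ext x
  have e0 := map_fs (LinearMap.applyₗ (R := ZMod l) (M₂ := ZMod l) x).toAddMonoidHom (ps1 M X) a
  refine e0.trans ?_
  have ec : ((a - 1 : 𝓞 K) : K) = (a : K) - 1 := by simp
  have hP : cls l (a : K) ∈ M.Prim := (h.2.2.2.1 a (coe_ne ha)).2 ⟨1, one_ne_zero, fun w hw => by
    rw [one_pow, div_one, ← ec]
    refine le_trans ?_ (val_sq hl S.hz hw)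
    simpa using val_dvd w h1⟩
  have e1 := M.recip x _ hP
  have e2 : ∀ p : TP l K, M.tame p x (cls l (a : K)) = ord p.1 (a : K) • ps1 M X p.1 x := by
    intro p
    rw [tame_chi, ps1_apply, h.2.1, zsmul_eq_mul, sub_eq_self]
    by_cases e : M.ord p x = 0
    · rw [e, zero_mul]
    · have h3 := val_lt p.1 (h2 p x x.2 e)
      rw [ec] at h3
      have h4 := (R0Aux.ord_near_one h3).2
      have h5 := chi_congr S.hz p.2 (coe_ne ha) h4 h3
      have h6 := chi_zpow S.hz p.2 (x := 1) one_ne_zero (ord_one _) 0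
      rw [h.chi_eq hl p (coe_ne ha) h4, ← h5]
      simp only [zpow_zero, Int.cast_zero, zero_mul] at h6
      rw [h6, mul_zero]
  simp only [e2] at e1
  rw [finsum_subtype_eq_finsum_cond (f := fun v : Pr K => ord v (a : K) • ps1 M X v x)] at e1
  rw [LinearMap.zero_apply, ← e1]
  refine finsum_congr fun v => ?_
  by_cases hv : Tm l v
  · rw [finsum_eq_if, if_pos hv]
    rfl
  · rw [finsum_eq_if, if_neg hv, ps1_wild X hv]
    simp

theorem ps1_sum {X : Submodule (ZMod l) (Hm l K)} (hX : X ≤ LinearMap.ker (nrm M.ρ))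
    (hs : Stab M.ρ X) {p : TP l K} (hp : ∀ x ∈ X, M.ord p x = 0) :
    ∑ g : K ≃ₐ[F] K, ps1 M X (g • p.1) = 0 := by
  ext x
  have e : ∀ g : K ≃ₐ[F] K, ps1 M X (g • p.1) x = M.tame p (M.ρ g⁻¹ x) (M.unif p) := fun g => by
    have := chi_act M g (hp _ (hs g⁻¹ x x.2))
    rw [act_act, mul_inv_cancel, act_one] at this
    exact (ps1_apply X (g • p) x).trans this
  have h0 : nrm M.ρ x = 0 := hX x.2
  rw [LinearMap.sum_apply, LinearMap.zero_apply]
  simp only [e]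
  have e' : ∑ g : K ≃ₐ[F] K, M.ρ g⁻¹ x = nrm M.ρ x :=
    (Equiv.sum_comp (Equiv.inv _) fun g => M.ρ g x).trans (nrm_apply _).symm
  rw [← LinearMap.sum_apply, ← map_sum, e', h0, map_zero, LinearMap.zero_apply]

end InstKAux

open InstKAux MachineAux

theorem axK (hl : 2 < l) (h : Spec S M) : M.AxK := by
  classical
  intro X hs hf hX f T
  have hp : l.Prime := Fact.out
  have : FiniteDimensional (ZMod l) X := by
    obtain ⟨s, hs⟩ := hf
    rw [bot_sup_eq] at hs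
    exact Submodule.finiteDimensional_of_le hs
  have : Finite X := Module.finite_of_finite (ZMod l)
  have : Finite (X →ₗ[ZMod l] ZMod l) := Module.finite_of_finite (ZMod l)
  have := DLAux.finite_quot l (⊤ : Ideal (𝓞 K)) (by simp)
  have hR : {p : TP l K | ∃ x ∈ X, M.ord p x ≠ 0}.Finite :=
    (Set.finite_iUnion fun x : X => M.ord_fin x).subset fun p ⟨x, hx, e⟩ =>
      Set.mem_iUnion.2 ⟨⟨x, hx⟩, e⟩
  obtain ⟨R, mR⟩ : ∃ R : Finset (TP l K), ∀ p : TP l K, p ∉ R ↔ ∀ x ∈ X, M.ord p x = 0 :=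
    ⟨hR.toFinset, fun p => by simp⟩
  set 𝔐 : Ideal (𝓞 K) := Ideal.span {(l : 𝓞 K) ^ 2} * ∏ p ∈ R, p.1.asIdeal with h𝔐
  have 𝔐0 : 𝔐 ≠ ⊥ := mul_ne_zero
    (DLAux.span_ne (pow_ne_zero _ (Nat.cast_ne_zero.2 hp.ne_zero)))
    (Finset.prod_ne_zero_iff.2 fun p _ => p.1.ne_bot)
  have 𝔐1 : ∀ p : TP l K, p ∉ R → ¬𝔐 ≤ p.1.asIdeal := fun p hpR e => by
    rcases (Ideal.IsPrime.mul_le p.1.isPrime).1 e with e | e
    · exact p.2 (p.1.isPrime.mem_of_pow_mem _ ((Ideal.span_singleton_le_iff_mem _).1 e))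
    · obtain ⟨q, hq, e⟩ := (Ideal.IsPrime.prod_le p.1.isPrime).1 e
      have : q = p := Subtype.ext (HeightOneSpectrum.ext
        (q.1.isMaximal.eq_of_le p.1.isPrime.ne_top e))
      exact hpR (this ▸ hq)
  set ψ : Pr K → (X →ₗ[ZMod l] ZMod l) × ((Pr K →₀ ZMod l) ⧸ DLAux.NN l (⊤ : Ideal (𝓞 K))) :=
    fun v => (ps1 M X v, ps2 l F v) with hψ
  have hψ0 : ∀ a : 𝓞 K, a ≠ 0 → a - 1 ∈ 𝔐 → ∑ᶠ v, ord v (a : K) • ψ v = 0 := by
    intro a ha h1
    refine Prod.ext ((map_fs (AddMonoidHom.fst _ _) ψ a).trans ?_)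
      ((map_fs (AddMonoidHom.snd _ _) ψ a).trans (ps2_principal ha))
    have h3 : 𝔐 ≤ Ideal.span {(l : 𝓞 K) ^ 2} := Ideal.le_of_dvd (dvd_mul_right _ _)
    have h4 : 𝔐 ≤ ∏ p ∈ R, p.1.asIdeal := Ideal.le_of_dvd (dvd_mul_left _ _)
    refine ps1_principal hl h X ha (Ideal.mem_span_singleton.1 (h3 h1)) fun p x hx e => ?_
    have h2 : p ∈ R := by
      by_contra h2
      exact e ((mR p).1 h2 x hx)
    exact Ideal.le_of_dvd (Finset.dvd_prod_of_mem (fun p : TP l K => p.1.asIdeal) h2) (h4 h1)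
  set W := Submodule.span (ZMod l) (ψ '' {v | ¬𝔐 ≤ v.asIdeal}) with hW
  have h1 : ∀ p : TP l K, p ∉ R → (ps1 M X p.1, 0) ∈ W := by
    intro p hpR
    have h2 : ∀ g : K ≃ₐ[F] K, ψ (g • p.1) ∈ W := fun g =>
      Submodule.subset_span ⟨_, 𝔐1 (g • p) ((mR _).2 fun x hx => by
        have := ord_act' M g⁻¹ p x
        rw [inv_inv] at this
        rw [← this]
        exact (mR p).1 hpR _ (hs _ x hx)), rfl⟩
    have h3 : ψ p.1 ∈ W := Submodule.subset_span ⟨_, 𝔐1 p hpR, rfl⟩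
    have h4 := W.sub_mem h3 (W.smul_mem (Fintype.card (K ≃ₐ[F] K) : ZMod l)⁻¹
      (W.sum_mem fun g (_ : g ∈ Finset.univ) => h2 g))
    convert h4 using 1
    refine Prod.ext ?_ ?_
    · simp only [hψ, Prod.fst_sub, Prod.smul_fst, Prod.fst_sum]
      rw [ps1_sum hX hs ((mR p).1 hpR), smul_zero, sub_zero]
    · simp only [hψ, Prod.snd_sub, Prod.smul_snd, Prod.snd_sum, ps2_smul]
      rw [Finset.sum_const, Finset.card_univ, ← Nat.cast_smul_eq_nsmul (ZMod l), smul_smul,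
        inv_mul_cancel₀ S.card_ne, one_smul, sub_self]
  have h2 : Submodule.span (ZMod l) ((fun p : TP l K => ps1 M X p.1) '' {p | p ∉ R}) = ⊤ := by
    refine Submodule.span_eq_top_of_ne_zero fun x hx => ?_
    obtain ⟨y, y0, hy⟩ := cls_surj (l := l) x.1
    have h3 : ∀ d : K, y ≠ d ^ l := fun d e =>
      hx (Subtype.ext (hy.symm.trans ((cls_eq_zero_iff y0).2 ⟨d, e⟩)))
    obtain ⟨v, ⟨-, v1, v2, v3⟩, v4⟩ := (wc1 hl S.hz h3).exists_notMem_finite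
      (R.finite_toSet.image Subtype.val)
    have v5 : (⟨v, v1⟩ : TP l K) ∉ R := fun e => v4 (Set.mem_image_of_mem _ (Finset.mem_coe.2 e))
    refine ⟨ps1 M X v, ⟨⟨v, v1⟩, v5, rfl⟩, ?_⟩
    rw [ps1_apply X ⟨v, v1⟩, ← hy, h.chi_eq hl ⟨v, v1⟩ y0 v2]
    exact v3
  have h3 : ∀ φ : X →ₗ[ZMod l] ZMod l, (φ, 0) ∈ W := by
    intro φ
    have h4 : Submodule.span (ZMod l) ((fun p : TP l K => ps1 M X p.1) '' {p | p ∉ R}) ≤
        W.comap (LinearMap.inl _ _ _) := Submodule.span_le.2 (by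
      rintro _ ⟨p, hpR, rfl⟩
      exact h1 p hpR)
    exact h4 (h2 ▸ Submodule.mem_top)
  obtain ⟨T', hT'⟩ := h.good hl
  obtain ⟨v, ⟨v1, v2⟩, v3⟩ := (dl l hl 𝔐 𝔐0 ψ hψ0 _ (h3 (f.comp X.subtype))).exists_notMem_finite
    ((((T ∪ R).finite_toSet.image Subtype.val).union T'.finite_toSet).union (finite_wild (l := l)))
  simp only [Set.mem_union, Set.mem_ofPred_eq, not_or, not_not, Finset.mem_coe] at v3
  obtain ⟨⟨v4, v5⟩, v6⟩ := v3
  have v7 : (⟨v, v6⟩ : TP l K) ∉ T ∪ R := fun e => v4 ⟨_, e, rfl⟩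
  rw [Finset.mem_union, not_or] at v7
  have v8 := hT' ⟨v, v6⟩ v5 v1
  refine ⟨⟨v, v6⟩, v7.1, v8, fun x hx => ⟨(mR _).1 v7.2 x hx, ?_⟩,
    varpi h v8.1 (congrArg Prod.snd v2)⟩
  rw [← ps1_apply X ⟨v, v6⟩ ⟨x, hx⟩]
  exact LinearMap.congr_fun (congrArg Prod.fst v2) ⟨x, hx⟩

theorem axR (hl : 2 < l) (h : Spec S M) : M.AxR := by
  classical
  intro T b
  obtain ⟨T', hT'⟩ := h.good hl
  obtain ⟨v, ⟨v1, π, π0, π1, π2, π3⟩, v3⟩ := (prim_elt hl S.hz (T.image Subtype.val)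
    (fun v hv => by
      obtain ⟨p, -, rfl⟩ := Finset.mem_image.1 hv
      exact p.2) fun v => if e : Tm l v then b ⟨v, e⟩ else 0).exists_notMem_finite
    (((T.finite_toSet.image Subtype.val).union T'.finite_toSet).union (finite_wild (l := l)))
  simp only [Set.mem_union, Set.mem_ofPred_eq, not_or, not_not, Finset.mem_coe] at v3
  obtain ⟨⟨v4, v5⟩, v6⟩ := v3
  refine ⟨⟨v, v6⟩, fun e => v4 ⟨_, e, rfl⟩, hT' ⟨v, v6⟩ v5 v1, cls l π, (h.2.2.2.1 π π0).2 π1,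
    fun q => ?_, fun q hq => ?_⟩
  · rw [h.2.1, π2]
    by_cases e : q = ⟨v, v6⟩
    · rw [if_pos e, if_pos (congrArg Subtype.val e)]
    · rw [if_neg e, if_neg fun e' => e (Subtype.ext e')]
  · obtain ⟨a1, a2⟩ := π3 q.1 (Finset.mem_image_of_mem _ hq)
    rw [h.chi_eq hl q π0 a1, a2, dif_pos q.2]

end Pool.Agent.MP_14ad9d_nt.Full
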