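import Pool.Agent.MP_14ad9d_nt.Full.JDefs

set_option autoImplicit false
set_option linter.unusedSectionVars false

open Polynomial

namespace Pool.Agent.MP_14ad9d_nt.Full

variable {l : ℕ} [Fact l.Prime] [Fact (2 < l)] {k : Type} [Field k] [CharZero k] {s : kˣ}

theorem cl_mul {I J : Ideal (CR l s)} (hI : I ≠ ⊥) (hJ : J ≠ ⊥) :
    cl l (I * J) = cl l I * cl l J := by
  rw [cl, cl, cl, dif_pos hI, dif_pos hJ, dif_pos (show I * J ≠ ⊥ from mul_ne_zero hI hJ),
    ← map_mul]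
  rfl

theorem cl_span (m : CR l s) : cl l (Ideal.span {m}) = 1 := by
  rw [cl]
  split_ifs with h
  · exact (ClassGroup.mk0_eq_one_iff _).2 ⟨m, rfl⟩
  · rfl

theorem cl_top : cl l (⊤ : Ideal (CR l s)) = 1 := by
  rw [← Ideal.span_singleton_one, cl_span]

theorem cl_prod {ι : Type} (T : Finset ι) (I : ι → Ideal (CR l s)) (h : ∀ i ∈ T, I i ≠ ⊥) :
    cl l (∏ i ∈ T, I i) = ∏ i ∈ T, cl l (I i) := by
  classical
  induction T using Finset.induction_on with
  | empty => simpa using cl_top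
  | insert a T ha ih =>
    have h' : ∀ i ∈ T, I i ≠ ⊥ := fun i hi => h i (Finset.mem_insert_of_mem hi)
    rw [Finset.prod_insert ha, Finset.prod_insert ha,
      cl_mul (h a (Finset.mem_insert_self _ _)) (Finset.prod_ne_zero_iff.2 h'), ih h']

theorem cl_mprod (T : Multiset (Ideal (CR l s))) (h : ∀ I ∈ T, I ≠ ⊥) :
    cl l T.prod = (T.map (cl l)).prod := by
  induction T using Multiset.induction_on with
  | empty => simpa using cl_top
  | cons a T ih =>
    have h' : ∀ I ∈ T, I ≠ ⊥ := fun i hi => h i (Multiset.mem_cons_of_mem hi)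
    rw [Multiset.prod_cons, Multiset.map_cons, Multiset.prod_cons,
      cl_mul (h a (Multiset.mem_cons_self _ _)) (Multiset.prod_ne_zero fun h0 => h' _ h0 rfl),
      ih h']

theorem cl_eq_one_iff {I : Ideal (CR l s)} (hI : I ≠ ⊥) :
    cl l I = 1 ↔ ∃ m, I = Ideal.span {m} := by
  rw [cl, dif_pos hI, ClassGroup.mk0_eq_one_iff]
  exact ⟨fun h => h.principal, fun h => ⟨h⟩⟩

theorem cl_eq_iff {I J : Ideal (CR l s)} (hI : I ≠ ⊥) (hJ : J ≠ ⊥) : cl l I = cl l J ↔
    ∃ a b : CR l s, a ≠ 0 ∧ b ≠ 0 ∧ Ideal.span {a} * I = Ideal.span {b} * J := by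
  rw [cl, cl, dif_pos hI, dif_pos hJ, ClassGroup.mk0_eq_mk0_iff]
  simp only [exists_prop]

theorem J1Aux.cl_surj (x : Jac l s) : ∃ I : Ideal (CR l s), I ≠ ⊥ ∧ cl l I = x := by
  obtain ⟨⟨I, hI⟩, rfl⟩ := ClassGroup.mk0_surjective x
  have h : I ≠ ⊥ := mem_nonZeroDivisors_iff_ne_zero.1 hI
  exact ⟨I, h, by rw [cl, dif_pos h]⟩

/-- every class has a representative prime to a given ideal -/
theorem exists_cl_coprime (x : Jac l s) {N : Ideal (CR l s)} (hN : N ≠ ⊥) :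
    ∃ I : Ideal (CR l s), I ≠ ⊥ ∧ cl l I = x ∧ I ⊔ N = ⊤ := by
  by_cases hT : N = ⊤
  · obtain ⟨I, hI, e⟩ := J1Aux.cl_surj x
    exact ⟨I, hI, e, by simp [hT]⟩
  obtain ⟨J, hJ, e⟩ := J1Aux.cl_surj x⁻¹
  obtain ⟨a, ha⟩ := IsDedekindDomain.exists_sup_span_eq (Ideal.mul_le_left (I := J) (J := N))
    (mul_ne_zero hJ hN)
  obtain ⟨I, hI⟩ : J ∣ Ideal.span {a} := Ideal.dvd_iff_le.2 (ha ▸ le_sup_right)
  have h1 : N ⊔ I = ⊤ := by
    refine mul_left_cancel₀ hJ ?_
    rw [Ideal.mul_sup, ← hI, ha, Ideal.mul_top]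
  have h0 : I ≠ ⊥ := by
    rintro rfl
    exact hT (by simpa using h1)
  refine ⟨I, h0, ?_, by rw [sup_comm, h1]⟩
  have h2 := cl_span a
  rw [hI, cl_mul hJ h0, e] at h2
  exact (inv_mul_eq_one.1 h2).symm

theorem unit_const {z : CR l s} (hz : IsUnit z) : ∃ c : k, c ≠ 0 ∧ z = ⟨C c, 0⟩ := by
  have h := QuadraticAlgebra.isUnit_iff_norm_isUnit.1 hz
  have h0 : z.im = 0 := JBaseAux.im_eq_zero
    (by rw [natDegree_eq_zero_of_isUnit h]; exact (Fact.out : l.Prime).pos)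
  rw [JBaseAux.norm_eq, h0] at h
  have h1 : IsUnit z.re := (isUnit_pow_iff two_ne_zero).1 (by simpa using h)
  obtain ⟨c, hc, e⟩ := Polynomial.isUnit_iff.1 h1
  exact ⟨c, hc.ne_zero, QuadraticAlgebra.ext e.symm h0⟩

theorem norm_eq (z : CR l s) : QuadraticAlgebra.norm z = z.re ^ 2 - FF l s * z.im ^ 2 :=
  JBaseAux.norm_eq z

/-- the degree of the norm -/
theorem natDegree_norm {z : CR l s} (h : z.im ≠ 0) : (QuadraticAlgebra.norm z).natDegree =
    max (2 * z.re.natDegree) (2 * z.im.natDegree + l) :=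
  JBaseAux.natDegree_norm h

theorem mum_ne_bot (u v : k[X]) : mum l s u v ≠ ⊥ := fun h => by
  have h1 := JBaseAux.gen_mem₂ (l := l) (s := s) u v
  rw [h, Ideal.mem_bot] at h1
  exact one_ne_zero (congrArg QuadraticAlgebra.im h1)

theorem mum_one (v : k[X]) : mum l s 1 v = ⊤ :=
  (Ideal.eq_top_iff_one _).2 (JBaseAux.gen_mem₁ 1 v)

theorem mem_mum {u v : k[X]} (h : u ∣ v ^ 2 - FF l s) (z : CR l s) :
    z ∈ mum l s u v ↔ u ∣ z.re + v * z.im :=
  JBaseAux.mem_mum h z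

theorem mum_congr {u v v' : k[X]} (h : u ∣ v - v') : mum l s u v = mum l s u v' :=
  JBaseAux.mum_congr h

theorem mum_assoc {u u' : k[X]} (h : Associated u u') (v : k[X]) :
    mum l s u v = mum l s u' v :=
  JBaseAux.mum_assoc h v

theorem map_star_mum (u v : k[X]) :
    (mum l s u v).map (starRingEnd (CR l s)) = mum l s u (-v) := by
  have e₁ : starRingEnd (CR l s) ⟨u, 0⟩ = ⟨u, 0⟩ := by simp [starRingEnd_apply]
  have e₂ : starRingEnd (CR l s) ⟨-v, 1⟩ = -⟨- -v, 1⟩ := by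
    simp [starRingEnd_apply, QuadraticAlgebra.neg_mk]
  rw [mum, mum, Ideal.map_span, Set.image_pair, e₁, e₂, Ideal.span_insert,
    Ideal.span_singleton_neg, ← Ideal.span_insert]

theorem mum_mul_neg {u v : k[X]} (h : u ∣ v ^ 2 - FF l s) :
    mum l s u v * mum l s u (-v) = Ideal.span {⟨u, 0⟩} :=
  JBaseAux.mum_mul_neg h

theorem J1Aux.mk_mul (a b : k[X]) : (⟨a, 0⟩ : CR l s) * ⟨b, 0⟩ = ⟨a * b, 0⟩ :=
  QuadraticAlgebra.ext (by simp) (by simp)

theorem J1Aux.mul_le (u u' v : k[X]) : mum l s u v * mum l s u' v ≤ mum l s (u * u') v := by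
  rw [mum, mum, Ideal.span_pair_mul_span_pair, Ideal.span_le]
  rintro z (h | h | h | h) <;> rw [h]
  · rw [J1Aux.mk_mul]
    exact JBaseAux.gen_mem₁ _ _
  · exact Ideal.mul_mem_left _ _ (JBaseAux.gen_mem₂ _ _)
  · exact Ideal.mul_mem_right _ _ (JBaseAux.gen_mem₂ _ _)
  · exact Ideal.mul_mem_left _ _ (JBaseAux.gen_mem₂ _ _)

theorem mum_mul {u u' v : k[X]} (h : u * u' ∣ v ^ 2 - FF l s) :
    mum l s u v * mum l s u' v = mum l s (u * u') v := by
  have e : mum l s u v * mum l s u' v * (mum l s u (-v) * mum l s u' (-v)) =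
      mum l s (u * u') v * mum l s (u * u') (-v) := by
    rw [mul_mul_mul_comm, mum_mul_neg ((dvd_mul_right _ _).trans h),
      mum_mul_neg ((dvd_mul_left _ _).trans h), mum_mul_neg h,
      Ideal.span_singleton_mul_span_singleton, J1Aux.mk_mul]
  refine mul_right_cancel₀ (mul_ne_zero (mum_ne_bot u (-v)) (mum_ne_bot u' (-v)))
    (le_antisymm (Ideal.mul_mono_left (J1Aux.mul_le u u' v)) ?_)
  rw [e]
  exact Ideal.mul_mono_right (J1Aux.mul_le u u' (-v))

theorem mum_full (v : k[X]) : mum l s (v ^ 2 - FF l s) v = Ideal.span {⟨-v, 1⟩} := by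
  refine le_antisymm (JBaseAux.mum_le ?_ (Ideal.mem_span_singleton_self _))
    ((Ideal.span_singleton_le_iff_mem _).2 (JBaseAux.gen_mem₂ _ _))
  refine Ideal.mem_span_singleton.2 ⟨⟨-v, -1⟩, QuadraticAlgebra.ext ?_ ?_⟩
  · simp only [QuadraticAlgebra.re_mul]
    ring
  · simp

theorem mum_split (R : Multiset k) {v : k[X]} (h : (R.map fun a => X - C a).prod ∣ v ^ 2 - FF l s) :
    mum l s (R.map fun a => X - C a).prod v = (R.map fun a => pt l s a (v.eval a)).prod := by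
  induction R using Multiset.induction_on with
  | empty => simpa using mum_one v
  | cons a R ih =>
    rw [Multiset.map_cons, Multiset.prod_cons] at h ⊢
    rw [Multiset.map_cons, Multiset.prod_cons, ← mum_mul h, ih ((dvd_mul_left _ _).trans h),
      mum_congr X_sub_C_dvd_sub_C_eval, pt]

theorem exists_form {I : Ideal (CR l s)} (hI : I ≠ ⊥) :
    ∃ d u v : k[X], d ≠ 0 ∧ IsMum l s u v ∧ I = Ideal.span {⟨d, 0⟩} * mum l s u v :=
  JBaseAux.exists_form hI

theorem J1Aux.cl_neg {u v : k[X]} (h : u ∣ v ^ 2 - FF l s) :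
    cl l (mum l s u v) * cl l (mum l s u (-v)) = 1 := by
  rw [← cl_mul (mum_ne_bot _ _) (mum_ne_bot _ _), mum_mul_neg h, cl_span]

theorem J1Aux.red (n : ℕ) : ∀ u v : k[X], IsMum l s u v → u.natDegree = n →
    ∃ u' v' : k[X], IsMum l s u' v' ∧ u'.natDegree ≤ l / 2 ∧
      cl l (mum l s u' v') = cl l (mum l s u v) := by
  induction n using Nat.strong_induction_on with
  | _ n ih =>
    intro u v hm hn
    by_cases hd : u.natDegree ≤ l / 2
    · exact ⟨u, v, hm, hd, rfl⟩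
    obtain ⟨w, hw⟩ := hm.2.2
    have hN : QuadraticAlgebra.norm (⟨-v, 1⟩ : CR l s) = u * w := by
      rw [norm_eq, ← hw]
      ring
    have hw0 : w ≠ 0 := right_ne_zero_of_mul (hN ▸ JBaseAux.norm_ne_zero fun h =>
      one_ne_zero (congrArg QuadraticAlgebra.im h))
    have h1 := natDegree_norm (z := (⟨-v, 1⟩ : CR l s)) one_ne_zero
    rw [hN, natDegree_mul hm.1.ne_zero hw0, natDegree_neg, natDegree_one] at h1
    have h2 : v.natDegree < u.natDegree := by
      rcases eq_or_ne v 0 with rfl | hv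
      · rw [natDegree_zero]
        omega
      · exact natDegree_lt_natDegree hv hm.2.1
    have h3 := JBaseAux.l_odd (l := l)
    have hwd : w ∣ (-v) ^ 2 - FF l s := by
      rw [neg_sq, hw]
      exact dvd_mul_left _ _
    obtain ⟨u₁, v₁, hm₁, hd₁, e₁⟩ := JBaseAux.normalise hw0 hwd
    obtain ⟨u', v', hm', hd', e'⟩ := ih u₁.natDegree (by omega) u₁ v₁ hm₁ rfl
    refine ⟨u', v', hm', hd', ?_⟩
    have h4 : cl l (mum l s u v) * cl l (mum l s w v) = 1 := by
      rw [← cl_mul (mum_ne_bot _ _) (mum_ne_bot _ _), mum_mul (hw ▸ dvd_rfl), ← hw, mum_full,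
        cl_span]
    have h5 := J1Aux.cl_neg (l := l) (s := s) (u := w) (v := v) (hw ▸ dvd_mul_left _ _)
    rw [e', e₁, eq_inv_of_mul_eq_one_left h4, eq_inv_of_mul_eq_one_right h5]

/-- every class has a reduced representative -/
theorem exists_red (x : Jac l s) :
    ∃ u v : k[X], IsMum l s u v ∧ u.natDegree ≤ l / 2 ∧ cl l (mum l s u v) = x := by
  obtain ⟨I, hI, rfl⟩ := J1Aux.cl_surj x
  obtain ⟨d, u, v, -, hm, rfl⟩ := exists_form hI
  rw [cl_mul (left_ne_zero_of_mul hI) (mum_ne_bot _ _), cl_span, one_mul]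
  exact J1Aux.red _ u v hm rfl

theorem J1Aux.dvd_of {u v A w : k[X]} {J : Ideal (CR l s)}
    (h : mum l s u v * Ideal.span {⟨w, 0⟩} = Ideal.span {⟨A, 0⟩} * J) : A ∣ w := by
  have h1 := Ideal.mul_mem_mul (JBaseAux.gen_mem₂ (l := l) (s := s) u v)
    (Ideal.mem_span_singleton_self (⟨w, 0⟩ : CR l s))
  rw [h] at h1
  have h2 : Ideal.span {(⟨A, 0⟩ : CR l s)} * J ≤ Ideal.span {⟨A, 0⟩} := Ideal.mul_le_left
  obtain ⟨c, hc⟩ := Ideal.mem_span_singleton.1 (h2 h1)
  exact ⟨c.im, by simpa using congrArg QuadraticAlgebra.im hc⟩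

/-- reduced representatives are unique -/
theorem red_unique {u v u' v' : k[X]} (h : IsMum l s u v) (h' : IsMum l s u' v')
    (hd : u.natDegree ≤ l / 2) (hd' : u'.natDegree ≤ l / 2)
    (e : cl l (mum l s u v) = cl l (mum l s u' v')) : u = u' ∧ v = v' := by
  have h1 : cl l (mum l s u v * mum l s u' (-v')) = 1 := by
    rw [cl_mul (mum_ne_bot _ _) (mum_ne_bot _ _), e, J1Aux.cl_neg h'.2.2]
  obtain ⟨m, hm⟩ := (cl_eq_one_iff (mul_ne_zero (mum_ne_bot _ _) (mum_ne_bot _ _))).1 h1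
  have hm' : mum l s u (-v) * mum l s u' v' = Ideal.span {star m} := by
    have h2 := congrArg (Ideal.map (starRingEnd (CR l s))) hm
    rwa [Ideal.map_mul, map_star_mum, map_star_mum, neg_neg, Ideal.map_span,
      Set.image_singleton] at h2
  have h3 : Ideal.span {algebraMap k[X] (CR l s) (u * u')} =
      Ideal.span {algebraMap k[X] (CR l s) (QuadraticAlgebra.norm m)} := by
    rw [QuadraticAlgebra.algebraMap_norm_eq_mul_star, ← Ideal.span_singleton_mul_span_singleton,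
      ← hm, ← hm', mul_mul_mul_comm, mum_mul_neg h.2.2, mul_comm (mum l s u' (-v')),
      mum_mul_neg h'.2.2, Ideal.span_singleton_mul_span_singleton, J1Aux.mk_mul]
    rfl
  have h4 := Ideal.span_singleton_eq_span_singleton.1 h3
  have h5 : u * u' ∣ QuadraticAlgebra.norm m := QuadraticAlgebra.algebraMap_dvd_iff_dvd.1 h4.dvd
  have h6 : QuadraticAlgebra.norm m ∣ u * u' :=
    QuadraticAlgebra.algebraMap_dvd_iff_dvd.1 h4.symm.dvd
  have hu := h.1.ne_zero
  have hu' := h'.1.ne_zero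
  have h7 : m.im = 0 := by
    refine JBaseAux.im_eq_zero ((natDegree_le_of_dvd h6 (mul_ne_zero hu hu')).trans_lt ?_)
    have := JBaseAux.l_odd (l := l)
    rw [natDegree_mul hu hu']
    omega
  obtain ⟨A, rfl⟩ : ∃ A, m = ⟨A, 0⟩ := ⟨m.re, QuadraticAlgebra.ext rfl h7⟩
  have h8 : mum l s u v * Ideal.span {⟨u', 0⟩} = Ideal.span {⟨A, 0⟩} * mum l s u' v' := by
    rw [← hm, ← mum_mul_neg h'.2.2]
    ring
  have h9 : mum l s u' (-v') * Ideal.span {⟨u, 0⟩} = Ideal.span {⟨A, 0⟩} * mum l s u (-v) := by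
    rw [← hm, ← mum_mul_neg h.2.2]
    ring
  obtain ⟨a', ha'⟩ := J1Aux.dvd_of h8
  obtain ⟨a, ha⟩ := J1Aux.dvd_of h9
  have hA : A ≠ 0 := left_ne_zero_of_mul (ha ▸ hu)
  have h10 : IsUnit (a * a') := by
    refine isUnit_of_dvd_one ((mul_dvd_mul_iff_left (pow_ne_zero 2 hA)).1 ?_)
    rw [norm_eq, ha, ha'] at h5
    convert h5 using 1 <;> ring
  have hAu : Associated A u := ha ▸ associated_mul_unit_right _ _ (isUnit_of_mul_isUnit_left h10)
  have hAu' : Associated A u' :=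
    ha' ▸ associated_mul_unit_right _ _ (isUnit_of_mul_isUnit_right h10)
  obtain rfl : u = u' := eq_of_monic_of_associated h.1 h'.1 (hAu.symm.trans hAu')
  refine ⟨rfl, ?_⟩
  have h11 : Ideal.span {(⟨A, 0⟩ : CR l s)} = Ideal.span {⟨u, 0⟩} :=
    Ideal.span_singleton_eq_span_singleton.2 (hAu.map (algebraMap k[X] (CR l s)))
  rw [h11, mul_comm] at h8
  have h12 : mum l s u v = mum l s u v' := mul_left_cancel₀
    (Ideal.span_singleton_eq_bot.not.2 fun h0 => hu (congrArg QuadraticAlgebra.re h0)) h8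
  have h13 := (mem_mum h'.2.2 _).1 (h12 ▸ JBaseAux.gen_mem₂ u v)
  refine (sub_eq_zero.1 (eq_zero_of_dvd_of_degree_lt (p := u) ?_ ?_)).symm
  · simpa [neg_add_eq_sub] using h13
  · exact (degree_sub_le _ _).trans_lt (max_lt h'.2.1 h.2.1)

end Pool.Agent.MP_14ad9d_nt.Full
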