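import Pool.Agent.MP_14ad9d_nt.Full.J1

set_option autoImplicit false
set_option linter.unusedSectionVars false

open Polynomial

namespace Pool.Agent.MP_14ad9d_nt.Full

variable {l : ℕ} [Fact l.Prime] [Fact (2 < l)] {k k' k'' : Type} [Field k] [CharZero k]
  [Field k'] [CharZero k'] [Field k''] [CharZero k''] {s : kˣ} {s' : k'ˣ} {s'' : k''ˣ}

theorem evp_add (a b : k) (z w : CR l s) : evp l a b (z + w) = evp l a b z + evp l a b w := by
  simp only [evp, QuadraticAlgebra.re_add, QuadraticAlgebra.im_add, eval_add]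
  ring

theorem evp_mul {a b : k} (h : b ^ 2 = a ^ l + (s : k) ^ 2) (z w : CR l s) :
    evp l a b (z * w) = evp l a b z * evp l a b w := by
  simp only [evp, QuadraticAlgebra.re_mul, QuadraticAlgebra.im_mul, eval_add, eval_mul, FF,
    eval_pow, eval_X, eval_C, eval_zero]
  linear_combination (-(z.im.eval a * w.im.eval a)) * h

theorem exists_evHom {a b : k} (h : b ^ 2 = a ^ l + (s : k) ^ 2) :
    ∃ φ : CR l s →+* k, ∀ z, φ z = evp l a b z := by
  exact ⟨{ toFun := evp l a b
           map_one' := by simp [evp, QuadraticAlgebra.re_one, QuadraticAlgebra.im_one]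
           map_mul' := evp_mul h
           map_zero' := by simp [evp]
           map_add' := evp_add a b }, fun _ => rfl⟩

theorem evp_sg {ζ : k} (hζ : IsPrimitiveRoot ζ l) (a b : k) (z : CR l s) :
    evp l a b (sg l s hζ z) = evp l (ζ * a) b z := by
  simp [evp, sg, rmap_re, rmap_im, eval_comp]

theorem evp_cf (f : k →+* k') (h : f s = s') (a b : k) (z : CR l s) :
    evp l (f a) (f b) (cf l f h z) = f (evp l a b z) := by
  simp [evp, cf, rmap_re, rmap_im, eval_map, eval₂_at_apply]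

theorem pt_dvd {a b : k} (h : b ^ 2 = a ^ l + (s : k) ^ 2) : X - C a ∣ C b ^ 2 - FF l s := by
  rw [dvd_iff_isRoot]
  simp [FF, h]

namespace J1bAux

theorem pt_ne_bot (a b : k) : pt l s a b ≠ ⊥ := mum_ne_bot _ _

theorem pt_mul_neg {a b : k} (h : b ^ 2 = a ^ l + (s : k) ^ 2) :
    pt l s a b * pt l s a (-b) = Ideal.span {⟨X - C a, 0⟩} := by
  rw [pt, pt, C_neg, mum_mul_neg (pt_dvd h)]

theorem span_mul (p q : k[X]) :
    Ideal.span {(⟨p, 0⟩ : CR l s)} * Ideal.span {⟨q, 0⟩} = Ideal.span {⟨p * q, 0⟩} := by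
  rw [Ideal.span_singleton_mul_span_singleton]
  congr 2
  ext1 <;> simp

theorem isUnit_C {c : k} (hc : c ≠ 0) : IsUnit (⟨C c, 0⟩ : CR l s) :=
  IsUnit.of_mul_eq_one ⟨C c⁻¹, 0⟩ (by
    ext1
    · simp [QuadraticAlgebra.re_one, ← C_mul, hc]
    · simp [QuadraticAlgebra.im_one])

theorem map_FF (f : k →+* k') (h : f s = s') : (FF l s).map f = FF l s' := by
  simp [FF, h]

theorem isMum_one : IsMum l s 1 0 := ⟨monic_one, by simp, one_dvd _⟩

theorem cl_pow {I : Ideal (CR l s)} (hI : I ≠ ⊥) (n : ℕ) : cl l (I ^ n) = cl l I ^ n := by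
  induction n with
  | zero => rw [pow_zero, pow_zero, Ideal.one_eq_top, cl_top]
  | succ n ih => rw [pow_succ, pow_succ, cl_mul (pow_ne_zero n hI) hI, ih]

theorem pt_pow {b : k} (hb : b ^ 2 = (s : k) ^ 2) {n : ℕ} (hn : n ≤ l) :
    pt l s 0 b ^ n = mum l s (X ^ n) (C b) := by
  induction n with
  | zero => rw [pow_zero, pow_zero, mum_one, Ideal.one_eq_top]
  | succ n ih =>
    rw [pow_succ, ih (by omega), pt, C_0, sub_zero, mum_mul, pow_succ]
    rw [← pow_succ, FF, ← C_pow, hb, sub_add_cancel_right, dvd_neg]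
    exact pow_dvd_pow X hn

end J1bAux

theorem mem_pt {a b : k} (h : b ^ 2 = a ^ l + (s : k) ^ 2) (z : CR l s) :
    z ∈ pt l s a b ↔ evp l a b z = 0 := by
  rw [pt, mem_mum (pt_dvd h), dvd_iff_isRoot]
  simp [evp]

theorem pt_isMaximal {a b : k} (h : b ^ 2 = a ^ l + (s : k) ^ 2) : (pt l s a b).IsMaximal := by
  obtain ⟨φ, hφ⟩ := exists_evHom h
  have e : pt l s a b = RingHom.ker φ := by
    ext z
    rw [mem_pt h, RingHom.mem_ker, hφ]
  rw [e]
  exact RingHom.ker_isMaximal_of_surjective φ fun c => ⟨⟨C c, 0⟩, by simp [hφ, evp]⟩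

theorem pt_inj {a b a' b' : k} (h : b ^ 2 = a ^ l + (s : k) ^ 2)
    (e : pt l s a b = pt l s a' b') : a = a' ∧ b = b' := by
  have h1 : (⟨X - C a', 0⟩ : CR l s) ∈ pt l s a' b' := Ideal.subset_span (by simp)
  have h2 : (⟨-C b', 1⟩ : CR l s) ∈ pt l s a' b' := Ideal.subset_span (by simp)
  rw [← e, mem_pt h] at h1 h2
  simp only [evp, eval_sub, eval_X, eval_C, eval_zero, mul_zero, add_zero, eval_neg, eval_one,
    mul_one] at h1 h2
  exact ⟨sub_eq_zero.1 h1, by linear_combination h2⟩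

theorem cl_pt_neg {a b : k} (h : b ^ 2 = a ^ l + (s : k) ^ 2) :
    cl l (pt l s a (-b)) = (cl l (pt l s a b))⁻¹ := by
  refine eq_inv_of_mul_eq_one_right ?_
  rw [← cl_mul (J1bAux.pt_ne_bot a b) (J1bAux.pt_ne_bot a (-b)), J1bAux.pt_mul_neg h, cl_span]

/-- an ideal is prime to the first coordinate if and only if it avoids the two points above zero -/
theorem sup_X_iff (I : Ideal (CR l s)) : I ⊔ Ideal.span {⟨X, 0⟩} = ⊤ ↔
    (∃ z ∈ I, evp l 0 (s : k) z ≠ 0) ∧ ∃ z ∈ I, evp l 0 (-(s : k)) z ≠ 0 := by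
  have h1 : (s : k) ^ 2 = 0 ^ l + (s : k) ^ 2 := by
    rw [zero_pow (Fact.out : l.Prime).ne_zero, zero_add]
  have h2 : (-(s : k)) ^ 2 = 0 ^ l + (s : k) ^ 2 := by rw [neg_sq, ← h1]
  have key : ∀ b : k, b ^ 2 = 0 ^ l + (s : k) ^ 2 →
      (IsCoprime I (pt l s 0 b) ↔ ∃ z ∈ I, evp l 0 b z ≠ 0) := fun b hb => by
    rw [Ideal.isCoprime_iff_sup_eq]
    constructor
    · intro e
      by_contra hc
      push Not at hc
      have : I ≤ pt l s 0 b := fun z hz => (mem_pt hb z).2 (hc z hz)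
      rw [sup_eq_right.2 this] at e
      exact (pt_isMaximal hb).ne_top e
    · rintro ⟨z, hz, hz0⟩
      refine (pt_isMaximal hb).out.2 _ (lt_of_le_of_ne le_sup_right fun e => hz0 ?_)
      rw [← mem_pt hb, e]
      exact Ideal.mem_sup_left hz
  have e := J1bAux.pt_mul_neg h1
  rw [C_0, sub_zero] at e
  rw [← e, ← Ideal.isCoprime_iff_sup_eq, IsCoprime.mul_right_iff, key _ h1, key _ h2]

/-- over an algebraically closed field every ideal is a product of points -/
theorem ideal_eq_prod_pt [IsAlgClosed k] {I : Ideal (CR l s)} (hI : I ≠ ⊥) :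
    ∃ R : Multiset (k × k), (∀ p ∈ R, p.2 ^ 2 = p.1 ^ l + (s : k) ^ 2) ∧
      I = (R.map fun p => pt l s p.1 p.2).prod := by
  obtain ⟨d, u, v, hd, hm, rfl⟩ := exists_form hI
  have key : ∀ T : Multiset k, ∃ R : Multiset (k × k), (∀ p ∈ R, p.2 ^ 2 = p.1 ^ l + (s : k) ^ 2) ∧
      Ideal.span {(⟨(T.map fun a => X - C a).prod, 0⟩ : CR l s)}
        = (R.map fun p => pt l s p.1 p.2).prod := by
    intro T
    induction T using Multiset.induction_on with
    | empty =>
      refine ⟨0, by simp, ?_⟩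
      simp only [Multiset.map_zero, Multiset.prod_zero, Ideal.one_eq_top]
      exact Ideal.span_singleton_one
    | cons a T ih =>
      obtain ⟨R, h1, h2⟩ := ih
      obtain ⟨b, hb⟩ := IsAlgClosed.exists_pow_nat_eq (a ^ l + (s : k) ^ 2) two_pos
      refine ⟨(a, b) ::ₘ (a, -b) ::ₘ R, ?_, ?_⟩
      · intro p hp
        rcases Multiset.mem_cons.1 hp with rfl | hp
        · exact hb
        rcases Multiset.mem_cons.1 hp with rfl | hp
        · rw [neg_sq]; exact hb
        · exact h1 p hp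
      · simp only [Multiset.map_cons, Multiset.prod_cons]
        rw [← mul_assoc, J1bAux.pt_mul_neg hb, ← h2, J1bAux.span_mul]
  obtain ⟨R, h1, h2⟩ := key d.roots
  have hu : u = (u.roots.map fun a => X - C a).prod :=
    (IsAlgClosed.splits u).eq_prod_roots_of_monic hm.1
  have h3 := hm.2.2
  refine ⟨R + u.roots.map fun a => (a, v.eval a), ?_, ?_⟩
  · intro p hp
    rcases Multiset.mem_add.1 hp with hp | hp
    · exact h1 p hp
    · obtain ⟨a, ha, rfl⟩ := Multiset.mem_map.1 hp
      have := (isRoot_of_mem_roots ha).dvd h3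
      simp only [IsRoot.def, eval_sub, eval_pow, FF, eval_add, eval_X, eval_C] at this
      exact sub_eq_zero.1 this
  · rw [Multiset.map_add, Multiset.prod_add, ← h2, Multiset.map_map]
    congr 1
    · conv_lhs => rw [(IsAlgClosed.splits d).eq_prod_roots, ← J1bAux.span_mul]
      rw [Ideal.span_singleton_eq_top.2 (J1bAux.isUnit_C (leadingCoeff_ne_zero.2 hd)),
        Ideal.top_mul]
    · rw [hu] at h3
      conv_lhs => rw [hu]
      exact mum_split _ h3

/-- the norm of a product of points -/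
theorem prod_pt_mul_star (R : Multiset (k × k)) (h : ∀ p ∈ R, p.2 ^ 2 = p.1 ^ l + (s : k) ^ 2) :
    (R.map fun p => pt l s p.1 p.2).prod *
      ((R.map fun p => pt l s p.1 p.2).prod).map (starRingEnd (CR l s)) =
      Ideal.span {⟨(R.map fun p => X - C p.1).prod, 0⟩} := by
  induction R using Multiset.induction_on with
  | empty =>
    simp only [Multiset.map_zero, Multiset.prod_zero, Ideal.one_eq_top, Ideal.map_top,
      Ideal.top_mul]
    exact Ideal.span_singleton_one.symm
  | cons p R ih =>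
    simp only [Multiset.map_cons, Multiset.prod_cons]
    rw [Ideal.map_mul, mul_mul_mul_comm, ih fun q hq => h q (Multiset.mem_cons_of_mem hq), pt,
      map_star_mum, mum_mul_neg (pt_dvd (h p (Multiset.mem_cons_self _ _))), J1bAux.span_mul]

theorem map_cf_mum (f : k →+* k') (h : f s = s') (u v : k[X]) :
    (mum l s u v).map (cf l f h) = mum l s' (u.map f) (v.map f) := by
  rw [mum, mum, Ideal.map_span, Set.image_pair]
  congr 2
  · ext1 <;> simp [cf, rmap_re, rmap_im]
  · congr 1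
    ext1 <;> simp [cf, rmap_re, rmap_im]

theorem map_cf_pt (f : k →+* k') (h : f s = s') (a b : k) :
    (pt l s a b).map (cf l f h) = pt l s' (f a) (f b) := by
  simp [pt, map_cf_mum]

theorem IsMum.map (f : k →+* k') (h : f s = s') {u v : k[X]} (hm : IsMum l s u v) :
    IsMum l s' (u.map f) (v.map f) := by
  refine ⟨hm.1.map f, by rw [degree_map, degree_map]; exact hm.2.1, ?_⟩
  rw [← J1bAux.map_FF f h, ← Polynomial.map_pow, ← Polynomial.map_sub]
  exact Polynomial.map_dvd f hm.2.2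

theorem IsMum.of_map (f : k →+* k') (h : f s = s') {u v : k[X]}
    (hm : IsMum l s' (u.map f) (v.map f)) : IsMum l s u v := by
  obtain ⟨h1, h2, h3⟩ := hm
  rw [degree_map, degree_map] at h2
  rw [← J1bAux.map_FF f h, ← Polynomial.map_pow, ← Polynomial.map_sub, map_dvd_map' f] at h3
  exact ⟨monic_map_iff.1 h1, h2, h3⟩

theorem map_sg_mum {ζ : k} (hζ : IsPrimitiveRoot ζ l) (u v : k[X]) :
    (mum l s u v).map (sg l s hζ) = mum l s (u.comp (C ζ * X)) (v.comp (C ζ * X)) := by
  rw [mum, mum, Ideal.map_span, Set.image_pair]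
  congr 2
  · ext1 <;> simp [sg, rmap_re, rmap_im]
  · congr 1
    ext1 <;> simp [sg, rmap_re, rmap_im]

theorem map_sg_pt {ζ : k} (hζ : IsPrimitiveRoot ζ l) (a b : k) :
    (pt l s a b).map (sg l s hζ) = pt l s (ζ⁻¹ * a) b := by
  have h0 : ζ ≠ 0 := hζ.ne_zero (Fact.out : l.Prime).ne_zero
  rw [pt, map_sg_mum, C_comp, pt]
  refine mum_assoc (Associated.symm ?_) _
  have e : (X - C a).comp (C ζ * X) = (X - C (ζ⁻¹ * a)) * C ζ := by
    rw [sub_comp, X_comp, C_comp, sub_mul, ← C_mul, mul_comm X, mul_right_comm,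
      inv_mul_cancel₀ h0, one_mul]
  rw [e]
  exact associated_mul_unit_right _ _ (Polynomial.isUnit_C.2 h0.isUnit)

theorem sg_pow {ζ : k} (hζ : IsPrimitiveRoot ζ l) : sg l s hζ ^ l = 1 := by
  have key : ∀ (n : ℕ) (z : CR l s), (sg l s hζ ^ n) z
      = ⟨z.re.comp (C (ζ ^ n) * X), z.im.comp (C (ζ ^ n) * X)⟩ := by
    intro n
    induction n with
    | zero => intro z; simp
    | succ n ih =>
      intro z
      have e : (C (ζ ^ n) * X : k[X]).comp (C ζ * X) = C (ζ ^ (n + 1)) * X := by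
        rw [mul_comp, C_comp, X_comp, pow_succ, C_mul, mul_assoc]
      rw [pow_succ', RingHom.coe_mul, Function.comp_apply, ih]
      ext1
      · change (z.re.comp _).comp _ = _
        rw [comp_assoc, e]
      · change (z.im.comp _).comp _ = _
        rw [comp_assoc, e]
  refine RingHom.ext fun z => ?_
  rw [key, hζ.pow_eq_one]
  simp

theorem cf_sg (f : k →+* k') (h : f s = s') {ζ : k} (hζ : IsPrimitiveRoot ζ l) {ζ' : k'}
    (hζ' : IsPrimitiveRoot ζ' l) (e : f ζ = ζ') (z : CR l s) :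
    cf l f h (sg l s hζ z) = sg l s' hζ' (cf l f h z) := by
  ext1 <;> simp [cf, sg, rmap_re, rmap_im, map_comp, e]

theorem cf_cf (f : k →+* k') (h : f s = s') (f' : k' →+* k'') (h' : f' s' = s'') (f'' : k →+* k'')
    (h'' : f'' s = s'') (e : ∀ x, f' (f x) = f'' x) (z : CR l s) :
    cf l f' h' (cf l f h z) = cf l f'' h'' z := by
  have e' : f'.comp f = f'' := RingHom.ext e
  ext1 <;> simp [cf, rmap_re, rmap_im, Polynomial.map_map, e']

theorem jcf_cl (f : k →+* k') (h : f s = s') (I : Ideal (CR l s)) :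
    jcf l f h (cl l I) = cl l (I.map (cf l f h)) := jmap_cl l _ _ I

theorem jsg_cl {ζ : k} (hζ : IsPrimitiveRoot ζ l) (I : Ideal (CR l s)) :
    jsg l s hζ (cl l I) = cl l (I.map (sg l s hζ)) := jmap_cl l _ _ I

theorem jcf_mum (f : k →+* k') (h : f s = s') (u v : k[X]) :
    jcf l f h (cl l (mum l s u v)) = cl l (mum l s' (u.map f) (v.map f)) := by
  rw [jcf_cl, map_cf_mum]

theorem jcf_inj (f : k →+* k') (h : f s = s') : Function.Injective (jcf l f h) := by
  refine (injective_iff_map_eq_one _).2 fun x hx => ?_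
  obtain ⟨u, v, hm, hd, rfl⟩ := exists_red x
  rw [jcf_mum, ← cl_top, ← mum_one 0] at hx
  have h1 := (red_unique (hm.map f h) J1bAux.isMum_one (by rwa [natDegree_map]) (by simp) hx).1
  rw [← Polynomial.map_one f] at h1
  rw [map_injective f f.injective h1, mum_one, cl_top]

theorem jcf_jcf (f : k →+* k') (h : f s = s') (f' : k' →+* k'') (h' : f' s' = s'') (f'' : k →+* k'')
    (h'' : f'' s = s'') (e : ∀ x, f' (f x) = f'' x) (x : Jac l s) :
    jcf l f' h' (jcf l f h x) = jcf l f'' h'' x := by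
  obtain ⟨u, v, -, -, rfl⟩ := exists_red x
  have e' : f'.comp f = f'' := RingHom.ext e
  rw [jcf_mum, jcf_mum, jcf_mum, Polynomial.map_map, Polynomial.map_map, e']

theorem jcf_id (f : k →+* k) (h : f s = s) (e : ∀ x, f x = x) (x : Jac l s) :
    jcf l f h x = x := by
  obtain ⟨u, v, -, -, rfl⟩ := exists_red x
  have e' : f = RingHom.id k := RingHom.ext e
  rw [jcf_mum, e', Polynomial.map_id, Polynomial.map_id]

theorem jcf_jsg (f : k →+* k') (h : f s = s') {ζ : k} (hζ : IsPrimitiveRoot ζ l) {ζ' : k'}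
    (hζ' : IsPrimitiveRoot ζ' l) (e : f ζ = ζ') (x : Jac l s) :
    jcf l f h (jsg l s hζ x) = jsg l s' hζ' (jcf l f h x) := by
  obtain ⟨u, v, -, -, rfl⟩ := exists_red x
  rw [jsg_cl, jcf_cl, jcf_cl, jsg_cl, Ideal.map_map, Ideal.map_map]
  congr 2
  exact RingHom.ext (cf_sg f h hζ hζ' e)

theorem jcf_T (f : k →+* k') (h : f s = s') : jcf l f h (jT l s) = jT l s' := by
  rw [jT, jcf_cl, map_cf_pt, map_zero, h, jT]

theorem jsg_T {ζ : k} (hζ : IsPrimitiveRoot ζ l) : jsg l s hζ (jT l s) = jT l s := by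
  rw [jT, jsg_cl, map_sg_pt, mul_zero]

theorem orderOf_jT : orderOf (jT l s) = l := by
  refine orderOf_eq_prime ?_ fun e => ?_
  · have h1 : X ^ l = (C (s : k) ^ 2 - FF l s) * (-1) := by
      rw [FF, C_pow]; ring
    rw [jT, ← J1bAux.cl_pow (J1bAux.pt_ne_bot _ _), J1bAux.pt_pow rfl le_rfl, h1,
      ← mum_assoc (associated_mul_unit_right _ _ isUnit_one.neg), mum_full, cl_span]
  · have h2 : 2 < l := Fact.out
    have hm : IsMum l s (X - C 0) (C (s : k)) := ⟨monic_X_sub_C 0, by
      rw [degree_X_sub_C]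
      exact degree_C_lt, pt_dvd (by rw [zero_pow (by omega), zero_add])⟩
    rw [jT, pt, ← cl_top, ← mum_one 0] at e
    have h1 := (red_unique hm J1bAux.isMum_one (by rw [natDegree_X_sub_C]; omega) (by simp) e).1
    have := congrArg natDegree h1
    rw [natDegree_X_sub_C, natDegree_one] at this
    exact one_ne_zero this

/-- the kernel of the isogeny -/
theorem ker_phi {ζ : k} (hζ : IsPrimitiveRoot ζ l) {x : Jac l s} (hx : jsg l s hζ x = x) :
    ∃ i : ℕ, x = jT l s ^ i := by
  obtain ⟨u, v, hm, hd, rfl⟩ := exists_red x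
  have h2 : 2 < l := Fact.out
  have h0 : ζ ≠ 0 := hζ.ne_zero (by omega)
  have hz : (ζ ^ u.natDegree)⁻¹ ≠ 0 := inv_ne_zero (pow_ne_zero _ h0)
  have dg : ∀ p : k[X], (p.comp (C ζ * X)).degree = p.degree := fun p => by
    unfold Polynomial.degree
    congr 1
    ext n
    simp [comp_C_mul_X_coeff, h0]
  have dg' : (C (ζ ^ u.natDegree)⁻¹ * u.comp (C ζ * X)).degree = u.degree := by
    rw [degree_C_mul hz, dg]
  have nd := natDegree_eq_of_degree_eq dg'
  have hm' : IsMum l s (C (ζ ^ u.natDegree)⁻¹ * u.comp (C ζ * X)) (v.comp (C ζ * X)) := by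
    refine ⟨?_, by rw [dg', dg]; exact hm.2.1, ?_⟩
    · rw [Monic.def, leadingCoeff, nd, coeff_C_mul, comp_C_mul_X_coeff, hm.1.coeff_natDegree,
        one_mul, inv_mul_cancel₀ (pow_ne_zero _ h0)]
    · rw [C_mul_dvd hz]
      have e : (FF l s).comp (C ζ * X) = FF l s := by
        rw [FF, add_comp, C_comp, X_pow_comp, mul_pow, ← C_pow, hζ.pow_eq_one, C_1, one_mul]
      have := map_dvd (compRingHom (C ζ * X)) hm.2.2
      simpa only [coe_compRingHom_apply, sub_comp, pow_comp, e] using this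
  rw [jsg_cl, map_sg_mum, mum_assoc (associated_unit_mul_right _ _
    (Polynomial.isUnit_C.2 hz.isUnit))] at hx
  obtain ⟨e1, e2⟩ := red_unique hm' hm (by rwa [nd]) hd hx
  have hu : u = X ^ u.natDegree := by
    ext i
    rw [coeff_X_pow]
    split_ifs with hi
    · rw [hi, hm.1.coeff_natDegree]
    · rcases lt_or_gt_of_ne hi with hi' | hi'
      · by_contra hc
        have := congrArg (coeff · i) e1
        simp only [coeff_C_mul, comp_C_mul_X_coeff] at this
        refine hi (hζ.pow_inj (by omega) (by omega) ?_)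
        field_simp at this
        exact this
      · exact coeff_eq_zero_of_natDegree_lt hi'
  have hv : v = C (v.coeff 0) := by
    ext i
    rw [coeff_C]
    split_ifs with hi
    · rw [hi]
    · by_cases hi' : i < l
      · by_contra hc
        have := congrArg (coeff · i) e2
        simp only [comp_C_mul_X_coeff] at this
        refine hi (hζ.pow_inj hi' (by omega) ?_)
        rw [pow_zero]
        exact mul_left_cancel₀ hc (by rw [this, mul_one])
      · refine coeff_eq_zero_of_degree_lt (hm.2.1.trans_le (degree_le_natDegree.trans ?_))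
        exact_mod_cast (by omega : u.natDegree ≤ i)
  have h3 := hm.2.2
  generalize u.natDegree = d at hu hd
  generalize v.coeff 0 = b at hv
  subst hu hv
  rcases Nat.eq_zero_or_pos d with rfl | hd0
  · exact ⟨0, by rw [pow_zero, pow_zero, mum_one, cl_top]⟩
  have hb : b ^ 2 = (s : k) ^ 2 := by
    have := X_dvd_iff.1 ((dvd_pow_self X hd0.ne').trans h3)
    rw [coeff_zero_eq_eval_zero] at this
    simpa [FF, sub_eq_zero, show l ≠ 0 by omega] using this
  rw [← J1bAux.pt_pow hb (by omega), J1bAux.cl_pow (J1bAux.pt_ne_bot _ _)]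
  rcases sq_eq_sq_iff_eq_or_eq_neg.1 hb with rfl | rfl
  · exact ⟨d, rfl⟩
  · refine ⟨(l - 1) * d, ?_⟩
    rw [cl_pt_neg (by rw [zero_pow (by omega), zero_add]), pow_mul]
    congr 1
    refine inv_eq_of_mul_eq_one_right ?_
    change jT l s * _ = 1
    rw [← pow_succ', Nat.sub_add_cancel (by omega)]
    have := pow_orderOf_eq_one (jT l s)
    rwa [orderOf_jT] at this

/-- reduced representatives of invariant classes are invariant -/
theorem fixed_red (f : k →+* k) (h : f s = s) {u v : k[X]} (hm : IsMum l s u v)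
    (hd : u.natDegree ≤ l / 2) (e : jcf l f h (cl l (mum l s u v)) = cl l (mum l s u v)) :
    u.map f = u ∧ v.map f = v := by
  rw [jcf_mum] at e
  exact red_unique (hm.map f h) hm (by rwa [natDegree_map]) hd e

/-- Galois descent -/
theorem descend [Algebra k k'] [IsGalois k k'] (h : algebraMap k k' s = s') (x : Jac l s')
    (hx : ∀ (τ : k' ≃ₐ[k] k') (hτ : (τ : k' →+* k') s' = s'), jcf l (τ : k' →+* k') hτ x = x) :
    ∃ x₀ : Jac l s, jcf l (algebraMap k k') h x₀ = x := by
  obtain ⟨u, v, hm, hd, rfl⟩ := exists_red x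
  have key : ∀ p : k'[X], (∀ τ : k' ≃ₐ[k] k', p.map (τ : k' →+* k') = p) →
      ∃ q : k[X], q.map (algebraMap k k') = p := fun p hp => by
    refine (mem_lifts p).1 ((lifts_iff_coeff_lifts p).2 fun n => ?_)
    refine (InfiniteGalois.mem_range_algebraMap_iff_fixed _).2 fun τ => ?_
    have := congrArg (coeff · n) (hp τ)
    simpa using this
  have h1 : ∀ τ : k' ≃ₐ[k] k', u.map (τ : k' →+* k') = u ∧ v.map (τ : k' →+* k') = v := fun τ => by
    have hτ : (τ : k' →+* k') s' = s' := by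
      rw [← h]
      exact τ.commutes _
    exact fixed_red _ hτ hm hd (hx τ hτ)
  obtain ⟨u₀, rfl⟩ := key u fun τ => (h1 τ).1
  obtain ⟨v₀, rfl⟩ := key v fun τ => (h1 τ).2
  exact ⟨cl l (mum l s u₀ v₀), jcf_mum _ h _ _⟩

end Pool.Agent.MP_14ad9d_nt.Full
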