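import Pool.Agent.MP_14ad9d_nt.Full.J1b

set_option autoImplicit false
set_option linter.unusedSectionVars false

open Polynomial

namespace Pool.Agent.MP_14ad9d_nt.Full

variable {l : ℕ} [Fact l.Prime] [Fact (2 < l)] {k k' : Type} [Field k] [CharZero k]
  [Field k'] [CharZero k'] {s : kˣ} {s' : k'ˣ} {ζ : k}

namespace J2Aux

/-- the norm of an ideal -/
noncomputable def NI (hζ : IsPrimitiveRoot ζ l) (I : Ideal (CR l s)) : Ideal (CR l s) :=
  ∏ j ∈ Finset.range l, I.map (sg l s hζ ^ j)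

/-- the norm of an element -/
noncomputable def NE (hζ : IsPrimitiveRoot ζ l) (z : CR l s) : CR l s :=
  ∏ j ∈ Finset.range l, (sg l s hζ ^ j) z

theorem l_pos : 0 < l := (Fact.out : l.Prime).pos

theorem NI_mul (hζ : IsPrimitiveRoot ζ l) (I J : Ideal (CR l s)) :
    NI hζ (I * J) = NI hζ I * NI hζ J := by
  simp only [NI, Ideal.map_mul, Finset.prod_mul_distrib]

theorem NI_span (hζ : IsPrimitiveRoot ζ l) (z : CR l s) :
    NI hζ (Ideal.span {z}) = Ideal.span {NE hζ z} := by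
  simp only [NI, NE, Ideal.map_span, Set.image_singleton, Ideal.prod_span_singleton]

theorem NI_top (hζ : IsPrimitiveRoot ζ l) : NI hζ (⊤ : Ideal (CR l s)) = Ideal.span {1} := by
  simp only [NI, Ideal.map_top, Ideal.span_singleton_one]
  rw [← Ideal.one_eq_top, Finset.prod_const_one]

theorem sg_pow_inj (hζ : IsPrimitiveRoot ζ l) (j : ℕ) : Function.Injective (sg l s hζ ^ j) := by
  rw [RingHom.coe_pow]
  exact (sg_inj l s hζ).iterate j

theorem on_pos : (s : k) ^ 2 = 0 ^ l + (s : k) ^ 2 := by rw [zero_pow l_pos.ne', zero_add]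

theorem on_neg : (-(s : k)) ^ 2 = 0 ^ l + (s : k) ^ 2 := by
  rw [zero_pow l_pos.ne', zero_add, neg_sq]

theorem evp_sg_pow (hζ : IsPrimitiveRoot ζ l) (b : k) (j : ℕ) (z : CR l s) :
    evp l 0 b ((sg l s hζ ^ j) z) = evp l 0 b z := by
  induction j with
  | zero => rfl
  | succ j ih => rw [pow_succ', RingHom.mul_def, RingHom.comp_apply, evp_sg, mul_zero, ih]

theorem evp_NE (hζ : IsPrimitiveRoot ζ l) {b : k} (hb : b ^ 2 = 0 ^ l + (s : k) ^ 2)
    (z : CR l s) : evp l 0 b (NE hζ z) = evp l 0 b z ^ l := by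
  obtain ⟨φ, hφ⟩ := exists_evHom hb
  rw [← hφ, NE, map_prod]
  simp only [hφ, evp_sg_pow, Finset.prod_const, Finset.card_range]

theorem avoid (hζ : IsPrimitiveRoot ζ l) {b : k} (hb : b ^ 2 = 0 ^ l + (s : k) ^ 2)
    {I : Ideal (CR l s)} {m : CR l s} (h : NI hζ I = Ideal.span {m}) :
    evp l 0 b m ≠ 0 ↔ ∃ z ∈ I, evp l 0 b z ≠ 0 := by
  constructor
  · refine fun hm => ⟨m, ?_, hm⟩
    have h1 : NI hζ I ≤ I.map (sg l s hζ ^ 0) :=
      Ideal.prod_le_inf.trans (Finset.inf_le (Finset.mem_range.2 l_pos))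
    rw [h, pow_zero, RingHom.one_def, Ideal.map_id] at h1
    exact h1 (Ideal.mem_span_singleton_self m)
  · rintro ⟨z, hz, h0⟩ hm
    have h1 : NE hζ z ∈ NI hζ I :=
      Ideal.prod_mem_prod fun j _ => Ideal.mem_map_of_mem _ hz
    rw [h, Ideal.mem_span_singleton'] at h1
    obtain ⟨c, hc⟩ := h1
    have h2 := evp_NE hζ hb z
    rw [← hc, evp_mul hb, hm, mul_zero] at h2
    exact pow_ne_zero l h0 h2.symm

theorem ne_bot (hζ : IsPrimitiveRoot ζ l) {I : Ideal (CR l s)} {m : CR l s}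
    (h : NI hζ I = Ideal.span {m}) (hm : evp l 0 (s : k) m ≠ 0) : I ≠ ⊥ := by
  rintro rfl
  obtain ⟨z, hz, h0⟩ := (avoid hζ on_pos h).1 hm
  rw [Ideal.mem_bot.1 hz] at h0
  exact h0 (by simp [evp])

theorem NI_map (hζ : IsPrimitiveRoot ζ l) {ζ' : k'} (hζ' : IsPrimitiveRoot ζ' l)
    (φ : CR l s →+* CR l s') (hφ : ∀ z, φ (sg l s hζ z) = sg l s' hζ' (φ z)) (I : Ideal (CR l s)) :
    NI hζ' (I.map φ) = (NI hζ I).map φ := by
  have e : ∀ j : ℕ, (sg l s' hζ' ^ j).comp φ = φ.comp (sg l s hζ ^ j) := fun j => by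
    induction j with
    | zero => rfl
    | succ j ih =>
      refine RingHom.ext fun z => ?_
      have := RingHom.congr_fun ih z
      simp only [pow_succ', RingHom.mul_def, RingHom.comp_apply, hφ] at this ⊢
      rw [this]
  have := map_prod (Ideal.mapHom φ) (fun j => I.map (sg l s hζ ^ j)) (Finset.range l)
  simp only [Ideal.mapHom_apply] at this
  rw [NI, NI, this]
  simp only [Ideal.map_map, e]

theorem map_pt_pow (hζ : IsPrimitiveRoot ζ l) (a b : k) (j : ℕ) :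
    (pt l s a b).map (sg l s hζ ^ j) = pt l s (ζ⁻¹ ^ j * a) b := by
  induction j with
  | zero => rw [pow_zero, pow_zero, one_mul, RingHom.one_def, Ideal.map_id]
  | succ j ih =>
    rw [pow_succ', RingHom.mul_def, ← Ideal.map_map, ih, map_sg_pt, pow_succ', mul_assoc]

end J2Aux

open J2Aux

theorem norm_pt (hζ : IsPrimitiveRoot ζ l) {a b : k} (h : b ^ 2 = a ^ l + (s : k) ^ 2) :
    ∏ j ∈ Finset.range l, (pt l s a b).map (sg l s hζ ^ j) = Ideal.span {⟨-C b, 1⟩} := by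
  have e : (((Finset.range l).val.map fun j => ζ⁻¹ ^ j * a).map fun a => X - C a).prod =
      -(C b ^ 2 - FF l s) := by
    rw [Multiset.map_map, ← C_pow, h, FF, C_add]
    refine (X_pow_sub_C_eq_prod hζ.inv l_pos rfl).symm.trans ?_
    ring
  have h1 := mum_split (l := l) (s := s) ((Finset.range l).val.map fun j => ζ⁻¹ ^ j * a)
    (v := C b) (by rw [e]; exact neg_dvd.2 dvd_rfl)
  rw [e, mum_assoc (Associated.refl _).neg_left, mum_full, Multiset.map_map] at h1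
  simp only [map_pt_pow]
  rw [h1]
  simp only [Function.comp_def, eval_C]
  rfl

theorem jsg_iter (hζ : IsPrimitiveRoot ζ l) (j : ℕ) (I : Ideal (CR l s)) :
    (jsg l s hζ)^[j] (cl l I) = cl l (I.map (sg l s hζ ^ j)) := by
  induction j with
  | zero => rw [pow_zero, RingHom.one_def, Ideal.map_id]; rfl
  | succ j ih =>
    rw [Function.iterate_succ_apply', ih, jsg_cl, Ideal.map_map, pow_succ', RingHom.mul_def]

namespace J2Aux

theorem prod_jsg_cl (hζ : IsPrimitiveRoot ζ l) {I : Ideal (CR l s)} (hI : I ≠ ⊥) :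
    ∏ j ∈ Finset.range l, (jsg l s hζ)^[j] (cl l I) = cl l (NI hζ I) := by
  rw [NI, cl_prod _ _ fun j _ => (Ideal.map_eq_bot_iff_of_injective (sg_pow_inj hζ j)).not.2 hI]
  simp only [jsg_iter]

theorem prod_jsg_closed [IsAlgClosed k] (hζ : IsPrimitiveRoot ζ l) (x : Jac l s) :
    ∏ j ∈ Finset.range l, (jsg l s hζ)^[j] x = 1 := by
  obtain ⟨I, hI, rfl, -⟩ := exists_cl_coprime x (N := ⊤) top_ne_bot
  obtain ⟨R, hR, rfl⟩ := ideal_eq_prod_pt hI
  have : ∃ m, NI hζ (R.map fun p => pt l s p.1 p.2).prod = Ideal.span {m} := by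
    clear hI
    induction R using Multiset.induction_on with
    | empty => exact ⟨1, by simpa using NI_top hζ⟩
    | cons p R ih =>
      obtain ⟨m, hm⟩ := ih fun q hq => hR q (Multiset.mem_cons_of_mem hq)
      refine ⟨⟨-C p.2, 1⟩ * m, ?_⟩
      rw [Multiset.map_cons, Multiset.prod_cons, NI_mul, hm, NI,
        norm_pt hζ (hR p (Multiset.mem_cons_self _ _)), Ideal.span_singleton_mul_span_singleton]
  obtain ⟨m, hm⟩ := this
  rw [prod_jsg_cl hζ hI, hm, cl_span]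

end J2Aux

/-- the cyclotomic relation -/
theorem prod_jsg (hζ : IsPrimitiveRoot ζ l) (x : Jac l s) :
    ∏ j ∈ Finset.range l, (jsg l s hζ)^[j] x = 1 := by
  set f := algebraMap k (AlgebraicClosure k)
  have hf : f s = (Units.map (f : k →* AlgebraicClosure k) s : (AlgebraicClosure k)ˣ) := rfl
  have hζ' := hζ.map_of_injective f.injective
  have e : ∀ j : ℕ, jcf l f hf ((jsg l s hζ)^[j] x) = (jsg l _ hζ')^[j] (jcf l f hf x) := fun j => by
    induction j with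
    | zero => rfl
    | succ j ih =>
      rw [Function.iterate_succ_apply', Function.iterate_succ_apply', jcf_jsg f hf hζ hζ' rfl, ih]
  apply jcf_inj f hf
  rw [map_prod, map_one]
  simp only [e]
  exact prod_jsg_closed hζ' _

theorem exists_del (hζ : IsPrimitiveRoot ζ l) (x : Jac l s) : ∃ d, Del l s hζ x d := by
  obtain ⟨I, hI, rfl, h1⟩ := exists_cl_coprime x (N := Ideal.span {⟨X, 0⟩}) (by
    rw [Ne, Ideal.span_singleton_eq_bot]
    exact fun e => X_ne_zero (congrArg QuadraticAlgebra.re e))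
  have h2 := prod_jsg hζ (cl l I)
  have h3 : NI hζ I ≠ ⊥ := Finset.prod_ne_zero_iff.2 fun j _ =>
    (Ideal.map_eq_bot_iff_of_injective (sg_pow_inj hζ j)).not.2 hI
  rw [prod_jsg_cl hζ hI, cl_eq_one_iff h3] at h2
  obtain ⟨m, hm⟩ := h2
  rw [sup_X_iff] at h1
  have h4 := (avoid hζ on_neg hm).2 h1.2
  exact ⟨evp l 0 (s : k) m / evp l 0 (-(s : k)) m, I, m, 1, rfl, one_ne_zero, hm,
    (avoid hζ on_pos hm).2 h1.1, h4, by rw [div_mul_cancel₀ _ h4, one_pow, mul_one]⟩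

theorem Del.ne_zero {hζ : IsPrimitiveRoot ζ l} {x : Jac l s} {d : k} (h : Del l s hζ x d) :
    d ≠ 0 := by
  obtain ⟨I, m, e, -, he, -, h1, -, h2⟩ := h
  rintro rfl
  exact mul_ne_zero h1 (pow_ne_zero l he) (by rw [← h2, zero_mul])

theorem Del.unique {hζ : IsPrimitiveRoot ζ l} {x : Jac l s} {d d' : k} (h : Del l s hζ x d)
    (h' : Del l s hζ x d') : ∃ e : k, e ≠ 0 ∧ d' = d * e ^ l := by
  obtain ⟨I, m, e, hI, he, hm, a1, a2, a3⟩ := h
  obtain ⟨I', m', e', hI', he', hm', b1, b2, b3⟩ := h'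
  have n1 := ne_bot hζ hm a1
  have n2 := ne_bot hζ hm' b1
  have h1 := (sup_X_iff I').2 ⟨(avoid hζ on_pos hm').1 b1, (avoid hζ on_neg hm').1 b2⟩
  obtain ⟨g, hg, w, hw, hgw⟩ := Submodule.mem_sup.1 ((Ideal.eq_top_iff_one _).1 h1)
  obtain ⟨c, rfl⟩ := Ideal.mem_span_singleton'.1 hw
  have g1 : ∀ b : k, b ^ 2 = 0 ^ l + (s : k) ^ 2 → evp l 0 b g = 1 := fun b hb => by
    have := congrArg (evp l 0 b) hgw
    rw [evp_add, evp_mul hb] at this
    simpa [evp, QuadraticAlgebra.re_one, QuadraticAlgebra.im_one] using this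
  obtain ⟨A, hA⟩ := Ideal.dvd_iff_le.2 ((Ideal.span_singleton_le_iff_mem _).2 hg)
  have n3 : A ≠ ⊥ := by
    rintro rfl
    rw [Ideal.mul_bot, Ideal.span_singleton_eq_bot] at hA
    have := g1 _ on_pos
    rw [hA] at this
    simp [evp] at this
  have h2 : cl l (I * A) = 1 := by
    rw [cl_mul n1 n3, hI, ← hI', ← cl_mul n2 n3, ← hA, cl_span]
  obtain ⟨f, hf⟩ := (cl_eq_one_iff (mul_ne_zero n1 n3)).1 h2
  have h3 : Ideal.span {g} * I = Ideal.span {f} * I' := by rw [hA, ← hf]; ring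
  have h4 := congrArg (NI hζ) h3
  rw [NI_mul, NI_mul, NI_span, NI_span, NI, NI, hm, hm', Ideal.span_singleton_mul_span_singleton,
    Ideal.span_singleton_mul_span_singleton, Ideal.span_singleton_eq_span_singleton] at h4
  obtain ⟨u, hu⟩ := h4
  obtain ⟨c', hc', hu'⟩ := unit_const u.isUnit
  have key : ∀ b : k, b ^ 2 = 0 ^ l + (s : k) ^ 2 →
      evp l 0 b m * c' = evp l 0 b f ^ l * evp l 0 b m' := fun b hb => by
    have := congrArg (evp l 0 b) hu
    rw [evp_mul hb, evp_mul hb, evp_mul hb, evp_NE hζ hb, evp_NE hζ hb, g1 b hb, one_pow, one_mul,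
      hu'] at this
    simpa [evp] using this
  have k1 := key _ on_pos
  have k2 := key _ on_neg
  have f1 : evp l 0 (s : k) f ≠ 0 := fun h0 => by
    rw [h0, zero_pow l_pos.ne', zero_mul] at k1
    exact mul_ne_zero a1 hc' k1
  have f2 : evp l 0 (-(s : k)) f ≠ 0 := fun h0 => by
    rw [h0, zero_pow l_pos.ne', zero_mul] at k2
    exact mul_ne_zero a2 hc' k2
  refine ⟨e' * evp l 0 (-(s : k)) f / (e * evp l 0 (s : k) f), by positivity, ?_⟩
  have p1 := pow_ne_zero l he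
  have p2 := pow_ne_zero l f1
  rw [div_pow, mul_pow, mul_pow, ← mul_div_assoc, eq_div_iff (mul_ne_zero p1 p2)]
  apply mul_right_cancel₀ b2
  linear_combination (e ^ l * evp l 0 (s : k) f ^ l) * b3 - e ^ l * e' ^ l * k1 -
    e' ^ l * c' * a3 + d * e' ^ l * k2

theorem Del.scale {hζ : IsPrimitiveRoot ζ l} {x : Jac l s} {d : k} (h : Del l s hζ x d) {e : k}
    (he : e ≠ 0) : Del l s hζ x (d * e ^ l) := by
  obtain ⟨I, m, e', hI, he', hm, a1, a2, a3⟩ := h
  refine ⟨I, m, e' * e, hI, mul_ne_zero he' he, hm, a1, a2, ?_⟩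
  rw [mul_pow]
  linear_combination e ^ l * a3

theorem del_one (hζ : IsPrimitiveRoot ζ l) : Del l s hζ 1 1 := by
  have e : ∀ b : k, evp l 0 b (1 : CR l s) = 1 := fun b => by
    simp [evp, QuadraticAlgebra.re_one, QuadraticAlgebra.im_one]
  exact ⟨⊤, 1, 1, cl_top, one_ne_zero, NI_top hζ, by simp [e], by simp [e], by simp [e]⟩

theorem Del.mul {hζ : IsPrimitiveRoot ζ l} {x y : Jac l s} {d d' : k} (h : Del l s hζ x d)
    (h' : Del l s hζ y d') : Del l s hζ (x * y) (d * d') := by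
  obtain ⟨I, m, e, hI, he, hm, a1, a2, a3⟩ := h
  obtain ⟨I', m', e', hI', he', hm', b1, b2, b3⟩ := h'
  refine ⟨I * I', m * m', e * e', ?_, mul_ne_zero he he', (NI_mul hζ I I').trans ?_, ?_, ?_, ?_⟩
  · rw [cl_mul (ne_bot hζ hm a1) (ne_bot hζ hm' b1), hI, hI']
  · rw [NI, NI, hm, hm', Ideal.span_singleton_mul_span_singleton]
  · rw [evp_mul on_pos]; exact mul_ne_zero a1 b1
  · rw [evp_mul on_neg]; exact mul_ne_zero a2 b2
  · rw [evp_mul on_pos, evp_mul on_neg, mul_pow, mul_mul_mul_comm, a3, b3]; ring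

theorem Del.inv {hζ : IsPrimitiveRoot ζ l} {x : Jac l s} {d : k} (h : Del l s hζ x d) :
    Del l s hζ x⁻¹ d⁻¹ := by
  obtain ⟨d', h'⟩ := exists_del hζ x⁻¹
  have h1 := h.mul h'
  rw [mul_inv_cancel] at h1
  obtain ⟨e, he, h2⟩ := h1.unique (del_one hζ)
  rw [inv_eq_of_mul_eq_one_right (a := d) (b := d' * e ^ l) (by rw [h2, mul_assoc])]
  exact h'.scale he

theorem Del.pow {hζ : IsPrimitiveRoot ζ l} {x : Jac l s} {d : k} (h : Del l s hζ x d) (n : ℕ) :
    Del l s hζ (x ^ n) (d ^ n) := by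
  induction n with
  | zero => simpa using del_one hζ
  | succ n ih => rw [pow_succ, pow_succ]; exact ih.mul h

theorem Del.prod {hζ : IsPrimitiveRoot ζ l} {ι : Type} (T : Finset ι) {x : ι → Jac l s}
    {d : ι → k} (h : ∀ i ∈ T, Del l s hζ (x i) (d i)) :
    Del l s hζ (∏ i ∈ T, x i) (∏ i ∈ T, d i) := by
  induction T using Finset.cons_induction with
  | empty => simpa using del_one hζ
  | cons i T hi ih =>
    rw [Finset.prod_cons, Finset.prod_cons]
    exact (h i (Finset.mem_cons_self _ _)).mul (ih fun j hj => h j (Finset.mem_cons_of_mem hj))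

theorem Del.sg {hζ : IsPrimitiveRoot ζ l} {x : Jac l s} {d : k} (h : Del l s hζ x d) :
    Del l s hζ (jsg l s hζ x) d := by
  obtain ⟨I, m, e, rfl, he, hm, a1, a2, a3⟩ := h
  refine ⟨I.map (Full.sg l s hζ), Full.sg l s hζ m, e, (jsg_cl hζ I).symm, he,
    (NI_map hζ hζ _ (fun _ => rfl) I).trans ?_, ?_, ?_, ?_⟩
  · rw [NI, hm, Ideal.map_span, Set.image_singleton]
  all_goals simpa only [evp_sg, mul_zero]

theorem Del.cf {hζ : IsPrimitiveRoot ζ l} {x : Jac l s} {d : k} (h : Del l s hζ x d)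
    (f : k →+* k') (hf : f s = s') {ζ' : k'} (hζ' : IsPrimitiveRoot ζ' l) (e : f ζ = ζ') :
    Del l s' hζ' (jcf l f hf x) (f d) := by
  obtain ⟨I, m, c, rfl, hc, hm, a1, a2, a3⟩ := h
  have e1 := evp_cf f hf 0 (s : k) m
  have e2 := evp_cf f hf 0 (-(s : k)) m
  rw [map_zero, hf] at e1
  rw [map_zero, map_neg, hf] at e2
  refine ⟨I.map (Full.cf l f hf), Full.cf l f hf m, f c, (jcf_cl f hf I).symm,
    (map_ne_zero f).2 hc, (NI_map hζ hζ' _ (cf_sg f hf hζ hζ' e) I).trans ?_, ?_, ?_, ?_⟩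
  · rw [NI, hm, Ideal.map_span, Set.image_singleton]
  · rw [e1]; exact (map_ne_zero f).2 a1
  · rw [e2]; exact (map_ne_zero f).2 a2
  · rw [e1, e2, ← map_mul, a3, map_mul, map_pow]

theorem del_pt (hζ : IsPrimitiveRoot ζ l) {a b : k} (h : b ^ 2 = a ^ l + (s : k) ^ 2)
    (ha : a ≠ 0) : Del l s hζ (cl l (pt l s a b)) ((b - s) / (b + s)) := by
  have h1 : (b - s) * (b + s) ≠ 0 := by
    rw [show (b - s) * (b + s) = a ^ l by linear_combination h]
    exact pow_ne_zero l ha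
  have h2 := left_ne_zero_of_mul h1
  have h3 := right_ne_zero_of_mul h1
  have e : ∀ c : k, evp l 0 c (⟨-C b, 1⟩ : CR l s) = -(b - c) := fun c => by simp [evp]; ring
  refine ⟨pt l s a b, ⟨-C b, 1⟩, 1, rfl, one_ne_zero, norm_pt hζ h, ?_, ?_, ?_⟩
  · rw [e]; exact neg_ne_zero.2 h2
  · rw [e, sub_neg_eq_add]; exact neg_ne_zero.2 h3
  · rw [e, e, sub_neg_eq_add, mul_neg, div_mul_cancel₀ _ h3, one_pow, mul_one]

namespace J2Aux

theorem NE_line (hζ : IsPrimitiveRoot ζ l) :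
    NE hζ (⟨-(X - C (s : k)), 1⟩ : CR l s) =
      ⟨-C (-(s : k)), 1⟩ * (⟨C (s : k), 1⟩ ^ (l - 1) - ⟨-C (s : k), 1⟩) := by
  have h1 : ∀ j : ℕ, (sg l s hζ ^ j) (⟨-(X - C (s : k)), 1⟩ : CR l s) =
      ⟨C (s : k), 1⟩ - algebraMap k[X] (CR l s) (C ζ) ^ j * ⟨X, 0⟩ := fun j => by
    rw [← map_pow, QuadraticAlgebra.algebraMap_eq]
    induction j with
    | zero => ext1 <;> simp
    | succ j ih =>
      rw [pow_succ', RingHom.mul_def, RingHom.comp_apply, ih]
      ext1 <;> simp [sg, rmap_re, rmap_im, pow_succ, mul_assoc]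
  have h2 : IsPrimitiveRoot (algebraMap k[X] (CR l s) (C ζ)) l :=
    (hζ.map_of_injective C_injective).map_of_injective QuadraticAlgebra.algebraMap_injective
  have h3 := congrArg (eval (⟨C (s : k), 1⟩ : CR l s))
    (X_pow_sub_C_eq_prod h2 l_pos (α := ⟨X, 0⟩) rfl)
  simp only [eval_sub, eval_pow, eval_X, eval_C, eval_prod] at h3
  have h4 : (⟨X, 0⟩ : CR l s) ^ l = ⟨C (s : k), 1⟩ * ⟨-C (s : k), 1⟩ := by
    rw [← QuadraticAlgebra.algebraMap_eq, ← map_pow, QuadraticAlgebra.algebraMap_eq]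
    ext1
    · rw [QuadraticAlgebra.re_mul]; simp [FF]; ring
    · rw [QuadraticAlgebra.im_mul]; simp
  rw [NE]
  simp only [h1]
  rw [← h3, h4, C_neg, neg_neg, mul_sub, ← pow_succ', Nat.sub_add_cancel l_pos]

end J2Aux

theorem del_T (hζ : IsPrimitiveRoot ζ l) : Del l s hζ (jT l s) ((2 * (s : k)) ^ 2)⁻¹ := by
  have hl : 2 < l := Fact.out
  have hs : 2 * (s : k) ≠ 0 := mul_ne_zero two_ne_zero s.ne_zero
  have e1 : (X - C (0 : k)) * -(X ^ (l - 1) - X + C (2 * (s : k))) =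
      (X - C (s : k)) ^ 2 - FF l s := by
    have : (X : k[X]) ^ l = X * X ^ (l - 1) := by rw [← pow_succ', Nat.sub_add_cancel l_pos]
    rw [FF, this, C_mul, C_pow, C_0, map_ofNat]; ring
  have h1 := mum_mul (l := l) (s := s) e1.dvd
  rw [e1, mum_full, mum_congr (v' := C (-(s : k))) (by simp), ← pt] at h1
  have h2 := congrArg (cl l) h1
  rw [cl_mul (I := pt l s 0 (-(s : k))) (mum_ne_bot _ _) (mum_ne_bot _ _), cl_span,
    cl_pt_neg on_pos, inv_mul_eq_one] at h2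
  have h3 := congrArg (NI hζ) h1
  rw [NI_mul, NI_span, NE_line, NI, norm_pt hζ on_neg,
    ← Ideal.span_singleton_mul_span_singleton] at h3
  have h4 := mul_left_cancel₀ (by
    rw [Ne, Ideal.zero_eq_bot, Ideal.span_singleton_eq_bot]
    exact fun e => one_ne_zero (congrArg QuadraticAlgebra.im e)) h3
  have e : ∀ b : k, b ^ 2 = 0 ^ l + (s : k) ^ 2 →
      evp l 0 b (⟨C (s : k), 1⟩ ^ (l - 1) - ⟨-C (s : k), 1⟩ : CR l s) =
        (s + b) ^ (l - 1) - (b - s) := fun b hb => by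
    obtain ⟨φ, hφ⟩ := exists_evHom hb
    rw [← hφ, map_sub, map_pow, hφ, hφ]
    simp [evp]; ring
  have e2 := e _ on_pos
  have e3 := e _ on_neg
  rw [sub_self, sub_zero, ← two_mul] at e2
  rw [add_neg_cancel, zero_pow (by omega), show (0 : k) - (-s - s) = 2 * s by ring] at e3
  refine ⟨_, _, (2 * (s : k))⁻¹, h2.symm, inv_ne_zero hs, h4, e2 ▸ pow_ne_zero _ hs, e3 ▸ hs, ?_⟩
  rw [e2, e3, inv_pow, show (2 * (s : k)) ^ l = (2 * s) ^ (l - 1) * (2 * s) by
    rw [← pow_succ, Nat.sub_add_cancel l_pos]]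
  have := pow_ne_zero (l - 1) hs
  field_simp

end Pool.Agent.MP_14ad9d_nt.Full
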