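import Pool.Agent.MP_14ad9d_nt.Full.J2

set_option autoImplicit false

open Polynomial

namespace Pool.Agent.MP_14ad9d_nt.Full

namespace J3Aux

section Height

variable {k σ : Type} [Field k] [DecidableEq σ]

/-- kill the variables in `T` -/
noncomputable def kill (k : Type) [Field k] (T : Finset σ) :
    MvPolynomial σ k →ₐ[k] MvPolynomial σ k :=
  MvPolynomial.aeval fun i => if i ∈ T then 0 else MvPolynomial.X i

theorem kill_comp {T T' : Finset σ} (h : T ⊆ T') : (kill k T').comp (kill k T) = kill k T' := by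
  refine MvPolynomial.algHom_ext fun i => ?_
  by_cases hi : i ∈ T
  · simp [kill, hi, h hi]
  · simp [kill, hi]

theorem card_le_height (T : Finset σ) :
    (T.card : ℕ∞) ≤ (RingHom.ker (kill k T)).height := by
  induction T using Finset.induction_on with
  | empty => simp
  | insert a T ha ih =>
    have := RingHom.ker_isPrime (kill k T)
    have := RingHom.ker_isPrime (kill k (insert a T))
    have hlt : RingHom.ker (kill k T) < RingHom.ker (kill k (insert a T)) := by
      refine lt_of_le_of_ne (fun p hp => ?_) fun he => ?_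
      · rw [RingHom.mem_ker] at hp ⊢
        rw [← kill_comp (Finset.subset_insert a T), AlgHom.comp_apply, hp, map_zero]
      · have h1 : MvPolynomial.X a ∈ RingHom.ker (kill k (insert a T)) := by
          simp [RingHom.mem_ker, kill]
        rw [← he] at h1
        simp [RingHom.mem_ker, kill, ha] at h1
    rw [Finset.card_insert_of_notMem ha, Nat.cast_add, Nat.cast_one]
    exact (add_le_add_left ih 1).trans (Ideal.height_add_one_le_of_lt_of_isPrime hlt)

end Height

theorem prod_shift {M : Type*} [CommMonoid M] (f : ℕ → M) {n : ℕ} (hn : n ≠ 0) (h : f n = f 0) :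
    ∏ j ∈ Finset.range n, f (j + 1) = ∏ j ∈ Finset.range n, f j := by
  obtain ⟨m, rfl⟩ := Nat.exists_eq_succ_of_ne_zero hn
  rw [Finset.prod_range_succ, Finset.prod_range_succ' f, h]

theorem iter_eq {G : Type*} [CommGroup G] (φ : G →* G) (x : G) (n : ℕ) :
    ∃ w, φ^[n] x = x * (φ w / w) := by
  induction n with
  | zero => exact ⟨1, by simp⟩
  | succ n ih =>
    obtain ⟨w, hw⟩ := ih
    refine ⟨w * φ^[n] x, ?_⟩
    rw [Function.iterate_succ_apply', map_mul, mul_div_mul_comm, ← mul_assoc, ← hw,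
      mul_div_cancel]

section Pol

variable {k σ : Type} [Field k]

/-- polynomial functions -/
noncomputable def PF (k σ : Type) [Field k] : Subring ((σ → k) → k) :=
  (RingHom.pi fun c : σ → k => MvPolynomial.eval c).range

theorem PF_const (r : k) : (fun _ => r) ∈ PF k σ :=
  ⟨MvPolynomial.C r, funext fun c => MvPolynomial.eval_C (f := c) r⟩

theorem PF_var (v : σ) : (fun c => c v) ∈ PF k σ :=
  ⟨MvPolynomial.X v, funext fun c => MvPolynomial.eval_X (f := c) v⟩

/-- families of polynomials with polynomial coefficients -/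
def PP (Φ : (σ → k) → k[X]) : Prop := ∀ n, (fun c => (Φ c).coeff n) ∈ PF k σ

theorem PP.const (p : k[X]) : PP fun _ : σ → k => p := fun _ => PF_const _

theorem PP.add {Φ Ψ : (σ → k) → k[X]} (h : PP Φ) (h' : PP Ψ) : PP fun c => Φ c + Ψ c := by
  intro n
  simp only [coeff_add]
  exact (PF k σ).add_mem (h n) (h' n)

theorem PP.sub {Φ Ψ : (σ → k) → k[X]} (h : PP Φ) (h' : PP Ψ) : PP fun c => Φ c - Ψ c := by
  intro n
  simp only [coeff_sub]
  exact (PF k σ).sub_mem (h n) (h' n)

theorem PP.mul {Φ Ψ : (σ → k) → k[X]} (h : PP Φ) (h' : PP Ψ) : PP fun c => Φ c * Ψ c := by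
  intro n
  have : (fun c => (Φ c * Ψ c).coeff n) = ∑ x ∈ Finset.HasAntidiagonal.antidiagonal n,
      (fun c => (Φ c).coeff x.1) * fun c => (Ψ c).coeff x.2 := by
    funext c
    rw [coeff_mul, Finset.sum_apply]
    rfl
  rw [this]
  exact (PF k σ).sum_mem fun x _ => (PF k σ).mul_mem (h _) (h' _)

theorem PP.comp {Φ : (σ → k) → k[X]} (h : PP Φ) (r : k) :
    PP fun c => (Φ c).comp (C r * X) := by
  intro n
  simp only [comp_C_mul_X_coeff]
  exact (PF k σ).mul_mem (h n) (PF_const _)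

/-- the generic polynomial -/
noncomputable def gen {τ : Type} {D : ℕ} (t : τ) (c : τ × Fin (D + 1) → k) : k[X] :=
  ∑ i : Fin (D + 1), C (c (t, i)) * X ^ (i : ℕ)

theorem gen_coeff {τ : Type} {D : ℕ} (t : τ) (c : τ × Fin (D + 1) → k) (n : ℕ) :
    (gen t c).coeff n = if h : n < D + 1 then c (t, ⟨n, h⟩) else 0 := by
  simp only [gen, finsetSum_coeff, coeff_C_mul_X_pow]
  split_ifs with h
  · rw [Finset.sum_eq_single ⟨n, h⟩ (fun i _ hi => if_neg fun e => hi (Fin.ext e.symm))
      (by simp), if_pos rfl]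
  · exact Finset.sum_eq_zero fun i _ => if_neg fun e : n = i => h (e ▸ i.2)

theorem gen_PP {τ : Type} {D : ℕ} (t : τ) : PP (gen (k := k) (D := D) t) := by
  intro n
  simp only [gen_coeff]
  split_ifs with h
  · exact PF_var _
  · exact PF_const _

theorem gen_deg {τ : Type} {D : ℕ} (t : τ) (c : τ × Fin (D + 1) → k) :
    (gen t c).natDegree ≤ D :=
  natDegree_le_iff_coeff_eq_zero.2 fun n hn => by rw [gen_coeff, dif_neg (by omega)]

theorem gen_eq_zero {τ : Type} {D : ℕ} {t : τ} {c : τ × Fin (D + 1) → k} (h : gen t c = 0)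
    (i : Fin (D + 1)) : c (t, i) = 0 := by
  have := gen_coeff t c i
  rw [h, coeff_zero, dif_pos i.2] at this
  exact this.symm

theorem gen_zero {τ : Type} {D : ℕ} (t : τ) : gen (k := k) (D := D) t 0 = 0 := by
  simp [gen]

theorem inv_eq_zero {l : ℕ} {ζ : k} (hζ : IsPrimitiveRoot ζ l) {p : k[X]} {E : ℕ}
    (h1 : p.comp (C ζ * X) = p) (h2 : p.natDegree ≤ l * E) (hl : 0 < l)
    (h3 : ∀ i < E + 1, p.coeff (l * i) = 0) : p = 0 := by
  ext n
  rw [coeff_zero]
  by_cases hn : l ∣ n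
  · obtain ⟨i, rfl⟩ := hn
    by_cases hi : i < E + 1
    · exact h3 i hi
    · exact coeff_eq_zero_of_natDegree_lt (h2.trans_lt (Nat.mul_lt_mul_of_pos_left (by omega) hl))
  · have h4 := comp_C_mul_X_coeff (p := p) (r := ζ) (n := n)
    rw [h1] at h4
    have h5 : ζ ^ n ≠ 1 := fun e => hn ((hζ.pow_eq_one_iff_dvd n).1 e)
    by_contra h6
    exact h5 (mul_left_cancel₀ h6 (h4.symm.trans (mul_one _).symm))

end Pol

variable {l : ℕ} [Fact l.Prime] [Fact (2 < l)] {k : Type} [Field k] [CharZero k] {s : kˣ} {ζ : k}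

/-- families of functions with polynomial coefficients -/
def PC {σ : Type} (Φ : (σ → k) → CR l s) : Prop := PP (fun c => (Φ c).re) ∧ PP fun c => (Φ c).im

omit [Fact l.Prime] [Fact (2 < l)] [CharZero k] in
theorem PC.const {σ : Type} (z : CR l s) : PC fun _ : σ → k => z := ⟨PP.const _, PP.const _⟩

omit [Fact l.Prime] [Fact (2 < l)] [CharZero k] in
theorem PC.sub {σ : Type} {Φ Ψ : (σ → k) → CR l s} (h : PC Φ) (h' : PC Ψ) :
    PC fun c => Φ c - Ψ c := ⟨h.1.sub h'.1, h.2.sub h'.2⟩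

omit [Fact l.Prime] [Fact (2 < l)] [CharZero k] in
theorem PC.mul {σ : Type} {Φ Ψ : (σ → k) → CR l s} (h : PC Φ) (h' : PC Ψ) :
    PC fun c => Φ c * Ψ c := by
  constructor
  · simp only [QuadraticAlgebra.re_mul]
    exact (h.1.mul h'.1).add (((PP.const _).mul h.2).mul h'.2)
  · simp only [QuadraticAlgebra.im_mul]
    exact ((h.1.mul h'.2).add (h.2.mul h'.1)).add (((PP.const _).mul h.2).mul h'.2)

omit [Fact l.Prime] [Fact (2 < l)] [CharZero k] in
theorem PC.sg (hζ : IsPrimitiveRoot ζ l) {σ : Type} {Φ : (σ → k) → CR l s} (h : PC Φ) (j : ℕ) :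
    PC fun c => (sg l s hζ ^ j) (Φ c) := by
  induction j with
  | zero => exact h
  | succ j ih =>
    simp only [pow_succ', RingHom.mul_def, RingHom.comp_apply]
    exact ⟨ih.1.comp ζ, ih.2.comp ζ⟩

/-- the norm of a function -/
noncomputable def nf (hζ : IsPrimitiveRoot ζ l) (n : ℕ) (z : CR l s) : CR l s :=
  ∏ j ∈ Finset.range n, (sg l s hζ ^ j) z

omit [Fact l.Prime] [Fact (2 < l)] [CharZero k] in
theorem PC.nf (hζ : IsPrimitiveRoot ζ l) {σ : Type} {Φ : (σ → k) → CR l s} (h : PC Φ) (n : ℕ) :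
    PC fun c => nf hζ n (Φ c) := by
  induction n with
  | zero => exact PC.const 1
  | succ n ih =>
    simp only [J3Aux.nf, Finset.prod_range_succ]
    exact ih.mul (h.sg hζ n)

/-- degree bound -/
def Dg (d : ℕ) (z : CR l s) : Prop := z.re.natDegree ≤ d ∧ z.im.natDegree ≤ d

omit [Fact (2 < l)] [CharZero k] in
theorem Dg.mul {d e : ℕ} {z w : CR l s} (h : Dg d z) (h' : Dg e w) : Dg (d + e + l) (z * w) := by
  have hF := (FF_natDegree l s).le
  constructor
  · rw [QuadraticAlgebra.re_mul]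
    refine natDegree_add_le_of_degree_le ((natDegree_mul_le_of_le h.1 h'.1).trans (by omega))
      ((natDegree_mul_le_of_le (natDegree_mul_le_of_le hF h.2) h'.2).trans (by omega))
  · rw [QuadraticAlgebra.im_mul, zero_mul, zero_mul, add_zero]
    exact natDegree_add_le_of_degree_le ((natDegree_mul_le_of_le h.1 h'.2).trans (by omega))
      ((natDegree_mul_le_of_le h.2 h'.1).trans (by omega))

omit [Fact l.Prime] [Fact (2 < l)] [CharZero k] in
theorem Dg.sg (hζ : IsPrimitiveRoot ζ l) {d : ℕ} {z : CR l s} (h : Dg d z) (j : ℕ) :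
    Dg d ((sg l s hζ ^ j) z) := by
  have key : ∀ p : k[X], (p.comp (C ζ * X)).natDegree ≤ p.natDegree := fun p =>
    natDegree_le_iff_coeff_eq_zero.2 fun n hn => by
      rw [comp_C_mul_X_coeff, coeff_eq_zero_of_natDegree_lt hn, zero_mul]
  induction j with
  | zero => exact h
  | succ j ih =>
    rw [pow_succ', RingHom.mul_def, RingHom.comp_apply]
    exact ⟨(key _).trans ih.1, (key _).trans ih.2⟩

omit [Fact (2 < l)] [CharZero k] in
theorem Dg.nf (hζ : IsPrimitiveRoot ζ l) {d : ℕ} {z : CR l s} (h : Dg d z) (n : ℕ) :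
    Dg (n * (d + l)) (nf hζ n z) := by
  induction n with
  | zero => constructor <;> simp [J3Aux.nf, QuadraticAlgebra.re_one, QuadraticAlgebra.im_one]
  | succ n ih =>
    rw [J3Aux.nf, Finset.prod_range_succ, Nat.succ_mul, ← add_assoc]
    exact ih.mul (h.sg hζ n)

theorem sg_nf (hζ : IsPrimitiveRoot ζ l) (z : CR l s) : sg l s hζ (nf hζ l z) = nf hζ l z := by
  rw [nf, map_prod, ← prod_shift (fun j => (sg l s hζ ^ j) z) (Fact.out : l.Prime).ne_zero
    (by simp only [sg_pow, pow_zero])]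
  refine Finset.prod_congr rfl fun j _ => ?_
  rw [pow_succ', RingHom.mul_def, RingHom.comp_apply]

omit [Fact (2 < l)] [CharZero k] in
theorem sg_pow_inj (hζ : IsPrimitiveRoot ζ l) (j : ℕ) :
    Function.Injective (sg l s hζ ^ j : CR l s →+* CR l s) := by
  rw [RingHom.coe_pow]
  exact (sg_inj l s hζ).iterate j

omit [CharZero k] in
theorem nf_eq_zero (hζ : IsPrimitiveRoot ζ l) {z : CR l s} : nf hζ l z = 0 ↔ z = 0 := by
  rw [nf, Finset.prod_eq_zero_iff]
  constructor
  · rintro ⟨j, _, hj⟩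
    exact (map_eq_zero_iff _ (sg_pow_inj hζ j)).1 hj
  · rintro rfl
    exact ⟨0, Finset.mem_range.2 (Fact.out : l.Prime).pos, map_zero _⟩

/-- the norm of an ideal -/
noncomputable def nm (hζ : IsPrimitiveRoot ζ l) (I : Ideal (CR l s)) : Ideal (CR l s) :=
  ∏ j ∈ Finset.range l, I.map (sg l s hζ ^ j)

omit [Fact l.Prime] [Fact (2 < l)] [CharZero k] in
theorem nm_mul (hζ : IsPrimitiveRoot ζ l) (I J : Ideal (CR l s)) :
    nm hζ (I * J) = nm hζ I * nm hζ J := by
  simp only [nm, Ideal.map_mul, Finset.prod_mul_distrib]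

omit [Fact l.Prime] [Fact (2 < l)] [CharZero k] in
theorem nm_span (hζ : IsPrimitiveRoot ζ l) (z : CR l s) :
    nm hζ (Ideal.span {z}) = Ideal.span {nf hζ l z} := by
  simp only [nm, nf, Ideal.map_span, Set.image_singleton, Ideal.prod_span_singleton]

theorem nm_map (hζ : IsPrimitiveRoot ζ l) (I : Ideal (CR l s)) (n : ℕ) :
    nm hζ (I.map (sg l s hζ ^ n)) = nm hζ I := by
  induction n with
  | zero => rw [pow_zero, RingHom.one_def, Ideal.map_id]
  | succ n ih =>
    rw [← ih, nm, nm, ← prod_shift (fun j => (I.map (sg l s hζ ^ n)).map (sg l s hζ ^ j))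
      (Fact.out : l.Prime).ne_zero (by simp only [sg_pow, pow_zero])]
    refine Finset.prod_congr rfl fun j _ => ?_
    rw [Ideal.map_map, Ideal.map_map, ← RingHom.mul_def, ← RingHom.mul_def, ← pow_add, ← pow_add]
    congr 2
    omega

omit [CharZero k] in
theorem nm_ne_zero (hζ : IsPrimitiveRoot ζ l) {I : Ideal (CR l s)} (hI : I ≠ ⊥) :
    nm hζ I ≠ 0 :=
  Finset.prod_ne_zero_iff.2 fun j _ =>
    (Ideal.map_eq_bot_iff_of_injective (sg_pow_inj hζ j)).not.2 hI

end J3Aux

open J3Aux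

variable {l : ℕ} [Fact l.Prime] [Fact (2 < l)] {k : Type} [Field k] [CharZero k] {s : kˣ} {ζ : k}

/-- fewer equations than unknowns have a second solution -/
theorem exists_ne_zero [IsAlgClosed k] {σ ι : Type} [Fintype σ] [Fintype ι]
    (h : Fintype.card ι < Fintype.card σ) (p : ι → MvPolynomial σ k)
    (h0 : ∀ i, MvPolynomial.eval 0 (p i) = 0) :
    ∃ c : σ → k, c ≠ 0 ∧ ∀ i, MvPolynomial.eval c (p i) = 0 := by
  classical
  by_contra hcon
  push Not at hcon
  set I : Ideal (MvPolynomial σ k) := Ideal.span (Finset.univ.image p : Finset _) with hI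
  have hz : MvPolynomial.zeroLocus k I = {0} := by
    rw [hI, MvPolynomial.zeroLocus_span]
    ext c
    simp only [Finset.coe_image, Finset.coe_univ, Set.image_univ, Set.forall_mem_range,
      Set.mem_ofPred_eq, Set.mem_singleton_iff, MvPolynomial.aeval_eq_eval]
    constructor
    · intro hc
      by_contra hne
      obtain ⟨i, hi⟩ := hcon c hne
      exact hi (hc i)
    · rintro rfl
      exact h0
  have hr := MvPolynomial.vanishingIdeal_zeroLocus_eq_radical (K := k) I
  rw [hz] at hr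
  have hm : MvPolynomial.vanishingIdeal k {(0 : σ → k)} ∈ I.minimalPrimes := by
    refine ⟨⟨inferInstance, hr ▸ Ideal.le_radical⟩, fun q hq _ => ?_⟩
    rw [hr]
    exact hq.1.radical_le_iff.2 hq.2
  have h1 := Ideal.height_le_card_of_mem_minimalPrimes_span_finset hm
  have h2 : RingHom.ker (kill k (Finset.univ : Finset σ)) ≤
      MvPolynomial.vanishingIdeal k {(0 : σ → k)} := by
    intro q hq
    rw [MvPolynomial.mem_vanishingIdeal_singleton_iff]
    have e : (MvPolynomial.aeval (0 : σ → k)).comp (kill k (Finset.univ : Finset σ)) =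
        MvPolynomial.aeval (0 : σ → k) := MvPolynomial.algHom_ext fun i => by simp [kill]
    rw [← e, AlgHom.comp_apply, RingHom.mem_ker.1 hq, map_zero]
  have h3 := ((card_le_height (k := k) (Finset.univ : Finset σ)).trans
    (Ideal.height_mono h2)).trans h1
  have h4 : (Finset.univ : Finset σ).card ≤ (Finset.univ.image p).card := by exact_mod_cast h3
  have h5 := Finset.card_image_le (s := Finset.univ) (f := p)
  simp only [Finset.card_univ] at h4 h5
  omega

/-- ideals with the same norm -/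
theorem cl_of_norm_eq (hζ : IsPrimitiveRoot ζ l) {I J : Ideal (CR l s)} (hI : I ≠ ⊥)
    (h : ∏ j ∈ Finset.range l, I.map (sg l s hζ ^ j) =
      ∏ j ∈ Finset.range l, J.map (sg l s hζ ^ j)) :
    ∃ z : Jac l s, cl l I = cl l J * (jsg l s hζ z / z) := by
  change nm hζ I = nm hζ J at h
  induction I using UniqueFactorizationMonoid.induction_on_prime generalizing J with
  | h₁ => exact absurd rfl hI
  | h₂ I hu =>
    have h1 : I = ⊤ := Ideal.isUnit_iff.1 hu
    have h2 : nm hζ J = ⊤ := by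
      rw [← h, h1, nm]
      simp [Ideal.map_top]
    have h3 : J.map (sg l s hζ ^ 0) ∣ nm hζ J :=
      Finset.dvd_prod_of_mem (fun j => J.map (sg l s hζ ^ j))
        (Finset.mem_range.2 (Fact.out : l.Prime).pos)
    rw [h2, pow_zero, RingHom.one_def, Ideal.map_id, Ideal.dvd_iff_le, top_le_iff] at h3
    exact ⟨1, by simp [h1, h3]⟩
  | h₃ I P hI0 hP ih =>
    have h1 : P ∣ nm hζ J := by
      rw [← h]
      refine (dvd_mul_right P I).trans ?_
      have := Finset.dvd_prod_of_mem (fun j => (P * I).map (sg l s hζ ^ j))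
        (Finset.mem_range.2 (Fact.out : l.Prime).pos)
      rwa [pow_zero, RingHom.one_def, Ideal.map_id] at this
    obtain ⟨j, hj, K, hK⟩ := hP.exists_mem_finset_dvd h1
    have h2 : J = P.map (sg l s hζ ^ (l - j)) * K.map (sg l s hζ ^ (l - j)) := by
      rw [← Ideal.map_mul, ← hK, Ideal.map_map, ← RingHom.mul_def, ← pow_add,
        Nat.sub_add_cancel (Finset.mem_range.1 hj).le, sg_pow, RingHom.one_def, Ideal.map_id]
    have hP0 : P ≠ ⊥ := hP.ne_zero
    have h3 : nm hζ I = nm hζ (K.map (sg l s hζ ^ (l - j))) := by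
      rw [h2, nm_mul, nm_mul, nm_map hζ P] at h
      exact mul_left_cancel₀ (nm_ne_zero hζ hP0) h
    have hK0 : K.map (sg l s hζ ^ (l - j)) ≠ ⊥ := by
      intro e
      refine nm_ne_zero hζ hI0 ?_
      rw [h3, e, nm]
      exact Finset.prod_eq_zero (Finset.mem_range.2 (Fact.out : l.Prime).pos) Ideal.map_bot
    obtain ⟨z, hz⟩ := ih hI0 h3
    obtain ⟨w, hw⟩ := iter_eq (jsg l s hζ) (cl l P) (l - j)
    refine ⟨z / w, ?_⟩
    rw [h2, cl_mul hP0 hI0, cl_mul ((Ideal.map_eq_bot_iff_of_injective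
      (sg_pow_inj hζ _)).not.2 hP0) hK0, ← jsg_iter, hw, hz, _root_.map_div]
    simp only [div_eq_mul_inv, mul_inv_rev, inv_inv]
    generalize jsg l s hζ w = a
    generalize jsg l s hζ z = b
    generalize cl l (K.map (sg l s hζ ^ (l - j))) = c
    generalize cl l P = d
    calc d * (c * (b * z⁻¹)) = d * (c * (b * z⁻¹)) * ((a * a⁻¹) * (w * w⁻¹)) := by simp
      _ = _ := by ac_rfl

theorem J3Aux.tsen [IsAlgClosed k] (hζ : IsPrimitiveRoot ζ l) (b : k) :
    ∃ f g : CR l s, g ≠ 0 ∧ nf hζ l f = ⟨-C b, 1⟩ * nf hζ l g := by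
  have hl := (Fact.out : l.Prime).pos
  let f : (Fin 4 × Fin (l + 1 + 1) → k) → CR l s := fun c => ⟨gen 0 c, gen 1 c⟩
  let g : (Fin 4 × Fin (l + 1 + 1) → k) → CR l s := fun c => ⟨gen 2 c, gen 3 c⟩
  let H : (Fin 4 × Fin (l + 1 + 1) → k) → CR l s := fun c =>
    nf hζ l (f c) - ⟨-C b, 1⟩ * nf hζ l (g c)
  have hf : PC f := ⟨gen_PP 0, gen_PP 1⟩
  have hg : PC g := ⟨gen_PP 2, gen_PP 3⟩
  have hH : PC H := (hf.nf hζ l).sub ((PC.const _).mul (hg.nf hζ l))
  choose P1 hP1 using hH.1
  choose P2 hP2 using hH.2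
  have e1 : ∀ n c, MvPolynomial.eval c (P1 n) = (H c).re.coeff n := fun n c => congrFun (hP1 n) c
  have e2 : ∀ n c, MvPolynomial.eval c (P2 n) = (H c).im.coeff n := fun n c => congrFun (hP2 n) c
  have hH0 : H 0 = 0 := by
    have a1 : f 0 = 0 := QuadraticAlgebra.ext (gen_zero 0) (gen_zero 1)
    have a2 : g 0 = 0 := QuadraticAlgebra.ext (gen_zero 2) (gen_zero 3)
    simp only [H, a1, a2, (nf_eq_zero hζ).2 rfl, mul_zero, sub_zero]
  obtain ⟨c, hc0, hc⟩ := exists_ne_zero (σ := Fin 4 × Fin (l + 1 + 1))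
    (ι := Fin (2 * l + 2 + 1) ⊕ Fin (2 * l + 2 + 1)) (by simp; omega)
    (Sum.elim (fun i => P1 (l * i)) fun i => P2 (l * i)) (by
      rintro (i | i)
      · rw [Sum.elim_inl, e1, hH0]; rfl
      · rw [Sum.elim_inr, e2, hH0]; rfl)
  have hinv : sg l s hζ (H c) = H c := by
    have : sg l s hζ ⟨-C b, 1⟩ = ⟨-C b, 1⟩ := by
      refine QuadraticAlgebra.ext ?_ ?_
      · change (-C b).comp (C ζ * X) = -C b
        simp
      · change (1 : k[X]).comp (C ζ * X) = 1
        simp
    simp only [H, map_sub, map_mul, sg_nf, this]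
  have d1 := Dg.nf hζ (z := f c) ⟨gen_deg 0 c, gen_deg 1 c⟩ l
  have d2 := Dg.mul (d := 0) (z := ⟨-C b, 1⟩) ⟨by simp, by simp⟩
    (Dg.nf hζ (z := g c) ⟨gen_deg 2 c, gen_deg 3 c⟩ l)
  have b1 : l * (l + 1 + l) ≤ l * (2 * l + 2) := Nat.mul_le_mul_left _ (by omega)
  have b2 : 0 + l * (l + 1 + l) + l ≤ l * (2 * l + 2) := le_of_eq (by ring)
  have hHc : H c = 0 := by
    refine QuadraticAlgebra.ext ?_ ?_
    · refine inv_eq_zero hζ (E := 2 * l + 2) (congrArg QuadraticAlgebra.re hinv)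
        ((natDegree_sub_le_of_le (d1.1.trans b1) (d2.1.trans b2)).trans (max_self _).le) hl
        fun i hi => ?_
      rw [← e1]
      exact hc (Sum.inl ⟨i, hi⟩)
    · refine inv_eq_zero hζ (E := 2 * l + 2) (congrArg QuadraticAlgebra.im hinv)
        ((natDegree_sub_le_of_le (d1.2.trans b1) (d2.2.trans b2)).trans (max_self _).le) hl
        fun i hi => ?_
      rw [← e2]
      exact hc (Sum.inr ⟨i, hi⟩)
  have hfg := sub_eq_zero.1 hHc
  refine ⟨f c, g c, fun hg0 => hc0 ?_, hfg⟩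
  rw [hg0, (nf_eq_zero hζ).2 rfl, mul_zero, nf_eq_zero] at hfg
  funext ⟨t, i⟩
  fin_cases t
  · exact gen_eq_zero (congrArg QuadraticAlgebra.re hfg) i
  · exact gen_eq_zero (congrArg QuadraticAlgebra.im hfg) i
  · exact gen_eq_zero (congrArg QuadraticAlgebra.re hg0) i
  · exact gen_eq_zero (congrArg QuadraticAlgebra.im hg0) i

/-- the isogeny is onto over an algebraically closed field -/
theorem phi_surj [IsAlgClosed k] (hζ : IsPrimitiveRoot ζ l) (x : Jac l s) :
    ∃ z : Jac l s, x = jsg l s hζ z / z := by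
  obtain ⟨I, hI, rfl, -⟩ := exists_cl_coprime x (N := ⊤) top_ne_bot
  obtain ⟨R, hR, rfl⟩ := ideal_eq_prod_pt hI
  rw [cl_mprod _ (by
    intro J hJ
    obtain ⟨p, _, rfl⟩ := Multiset.mem_map.1 hJ
    exact mum_ne_bot _ _)]
  clear hI
  induction R using Multiset.induction_on with
  | empty => exact ⟨1, by simp⟩
  | cons p R ih =>
    obtain ⟨z, hz⟩ := ih fun q hq => hR q (Multiset.mem_cons_of_mem hq)
    obtain ⟨f, g, hg, hfg⟩ := tsen (s := s) hζ p.2
    have hp0 : pt l s p.1 p.2 ≠ ⊥ := mum_ne_bot _ _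
    have hg0 : Ideal.span {g} ≠ ⊥ := Ideal.span_singleton_eq_bot.not.2 hg
    have h1 : nm hζ (pt l s p.1 p.2 * Ideal.span {g}) = nm hζ (Ideal.span {f}) := by
      rw [nm_mul, nm_span, nm_span, hfg, ← Ideal.span_singleton_mul_span_singleton]
      congr 1
      exact norm_pt hζ (hR p (Multiset.mem_cons_self _ _))
    obtain ⟨w, hw⟩ := cl_of_norm_eq hζ (mul_ne_zero hp0 hg0) h1
    rw [cl_mul hp0 hg0, cl_span, cl_span, mul_one, one_mul] at hw
    refine ⟨w * z, ?_⟩
    rw [Multiset.map_cons, Multiset.map_cons, Multiset.prod_cons, hz, hw, map_mul,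
      mul_div_mul_comm]

end Pool.Agent.MP_14ad9d_nt.Full
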