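import Pool.Agent.MP_14ad9d_nt.Full.J3

set_option autoImplicit false
set_option linter.unusedSectionVars false

open Polynomial

namespace Pool.Agent.MP_14ad9d_nt.Full

namespace J3cAux

variable {l : ℕ} [Fact l.Prime] [Fact (2 < l)] {k k' : Type} [Field k] [CharZero k]
  [Field k'] [CharZero k'] {s : kˣ} {s' : k'ˣ} {ζ : k}

/-- the quotient of the values at the two points above zero -/
noncomputable def rr (z : CR l s) : k := evp l 0 (s : k) z / evp l 0 (-(s : k)) z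

/-- prime to the first coordinate -/
def Cop (I : Ideal (CR l s)) : Prop := I ⊔ Ideal.span {⟨X, 0⟩} = ⊤

theorem onp : (s : k) ^ 2 = (0 : k) ^ l + (s : k) ^ 2 := by
  rw [zero_pow (Fact.out : l.Prime).ne_zero, zero_add]

theorem onm : (-(s : k)) ^ 2 = (0 : k) ^ l + (s : k) ^ 2 := by
  rw [zero_pow (Fact.out : l.Prime).ne_zero, zero_add, neg_sq]

theorem rr_mul (z w : CR l s) : rr (z * w) = rr z * rr w := by
  rw [rr, rr, rr, evp_mul onp, evp_mul onm, mul_div_mul_comm]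

theorem rr_C {c : k} (hc : c ≠ 0) : rr (⟨C c, 0⟩ : CR l s) = 1 := by
  simp [rr, evp, hc]

theorem rr_one : rr (1 : CR l s) = 1 := by
  simp [rr, evp, QuadraticAlgebra.re_one, QuadraticAlgebra.im_one]

theorem rr_sg (hζ : IsPrimitiveRoot ζ l) (z : CR l s) : rr (sg l s hζ z) = rr z := by
  rw [rr, rr, evp_sg, evp_sg, mul_zero]

theorem rr_sg_pow (hζ : IsPrimitiveRoot ζ l) (j : ℕ) (z : CR l s) :
    rr ((sg l s hζ ^ j) z) = rr z := by
  induction j with
  | zero => rfl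
  | succ j ih =>
    rw [pow_succ']
    exact (rr_sg hζ _).trans ih

theorem rr_cf (f : k →+* k') (h : f s = s') (z : CR l s) : rr (cf l f h z) = f (rr z) := by
  have h1 := evp_cf f h 0 (s : k) z
  have h2 := evp_cf f h 0 (-(s : k)) z
  rw [map_zero, h] at h1
  rw [map_zero, map_neg, h] at h2
  rw [rr, rr, h1, h2, map_div₀]

theorem rr_prod {ι : Type} (T : Finset ι) (z : ι → CR l s) :
    rr (∏ i ∈ T, z i) = ∏ i ∈ T, rr (z i) := by
  classical
  induction T using Finset.induction_on with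
  | empty => simpa using rr_one
  | insert a T ha ih => rw [Finset.prod_insert ha, Finset.prod_insert ha, rr_mul, ih]

theorem rr_span {a b : CR l s} (h : Ideal.span {a} = Ideal.span {b}) : rr a = rr b := by
  obtain ⟨u, hu⟩ := Ideal.span_singleton_eq_span_singleton.1 h
  obtain ⟨c, hc, e⟩ := unit_const u.isUnit
  rw [← hu, rr_mul, e, rr_C hc, mul_one]

theorem cop_span {h : CR l s} : Cop (Ideal.span {h}) ↔ rr h ≠ 0 := by
  rw [Cop, sup_X_iff, rr, div_ne_zero_iff]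
  refine and_congr ⟨?_, fun h0 => ⟨h, Ideal.mem_span_singleton_self h, h0⟩⟩
    ⟨?_, fun h0 => ⟨h, Ideal.mem_span_singleton_self h, h0⟩⟩
  · rintro ⟨z, hz, h0⟩
    obtain ⟨a, rfl⟩ := Ideal.mem_span_singleton'.1 hz
    rw [evp_mul onp] at h0
    exact right_ne_zero_of_mul h0
  · rintro ⟨z, hz, h0⟩
    obtain ⟨a, rfl⟩ := Ideal.mem_span_singleton'.1 hz
    rw [evp_mul onm] at h0
    exact right_ne_zero_of_mul h0

theorem Cop.mono {I J : Ideal (CR l s)} (h : Cop I) (hIJ : I ≤ J) : Cop J :=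
  top_le_iff.1 (h.ge.trans (sup_le_sup_right hIJ _))

theorem Cop.mul {I J : Ideal (CR l s)} (h : Cop I) (h' : Cop J) : Cop (I * J) :=
  Ideal.isCoprime_iff_sup_eq.1
    ((Ideal.isCoprime_iff_sup_eq.2 h).mul_left (Ideal.isCoprime_iff_sup_eq.2 h'))

theorem Cop.ne_bot {I : Ideal (CR l s)} (h : Cop I) : I ≠ ⊥ := by
  rintro rfl
  obtain ⟨z, hz, h0⟩ := ((sup_X_iff _).1 h).1
  rw [Ideal.mem_bot.1 hz] at h0
  simp [evp] at h0

theorem Cop.exists_mem {I : Ideal (CR l s)} (h : Cop I) : ∃ z ∈ I, rr z ≠ 0 := by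
  obtain ⟨z, hz, w, hw, e⟩ := Submodule.mem_sup.1 (h.ge (Submodule.mem_top (x := 1)))
  obtain ⟨a, rfl⟩ := Ideal.mem_span_singleton'.1 hw
  have h1 := congrArg (evp l 0 (s : k)) e
  have h2 := congrArg (evp l 0 (-(s : k))) e
  rw [evp_add, evp_mul onp] at h1
  rw [evp_add, evp_mul onm] at h2
  have h3 : ∀ b : k, evp l 0 b (⟨X, 0⟩ : CR l s) = 0 := fun b => by simp [evp]
  have h4 : ∀ b : k, evp l 0 b (1 : CR l s) = 1 := fun b => by
    simp [evp, QuadraticAlgebra.re_one, QuadraticAlgebra.im_one]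
  rw [h3, h4, mul_zero, add_zero] at h1 h2
  exact ⟨z, hz, by rw [rr, h1, h2]; simp⟩

theorem cop_of_mem {I : Ideal (CR l s)} {z : CR l s} (hz : z ∈ I) (h : rr z ≠ 0) : Cop I :=
  (cop_span.2 h).mono ((Ideal.span_singleton_le_iff_mem _).2 hz)

theorem Cop.sg (hζ : IsPrimitiveRoot ζ l) {I : Ideal (CR l s)} (h : Cop I) :
    Cop (I.map (sg l s hζ)) := by
  obtain ⟨z, hz, h0⟩ := h.exists_mem
  exact cop_of_mem (Ideal.mem_map_of_mem _ hz) (by rwa [rr_sg])

theorem Cop.cf (f : k →+* k') (hf : f s = s') {I : Ideal (CR l s)} (h : Cop I) :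
    Cop (I.map (cf l f hf)) := by
  obtain ⟨z, hz, h0⟩ := h.exists_mem
  exact cop_of_mem (Ideal.mem_map_of_mem _ hz) (by rw [rr_cf]; exact (map_ne_zero f).2 h0)

theorem span_ne_bot {h : CR l s} (h0 : rr h ≠ 0) : (Ideal.span {h} : Ideal (CR l s)) ≠ ⊥ :=
  (cop_span.2 h0).ne_bot

/-- equivalent ideals prime to the first coordinate -/
theorem moving {J J' : Ideal (CR l s)} (hJ : Cop J) (hJ' : Cop J') (e : cl l J = cl l J') :
    ∃ h h' : CR l s, rr h ≠ 0 ∧ rr h' ≠ 0 ∧ Ideal.span {h'} * J = Ideal.span {h} * J' := by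
  obtain ⟨h, hh, h0⟩ := hJ.exists_mem
  obtain ⟨B, hB⟩ := Ideal.dvd_iff_le.2 ((Ideal.span_singleton_le_iff_mem J).2 hh)
  have hBc : Cop B := (cop_span.2 h0).mono (Ideal.le_of_dvd ⟨J, by rw [hB, mul_comm]⟩)
  have h1 : cl l (B * J') = 1 := by
    rw [cl_mul hBc.ne_bot hJ'.ne_bot, ← e, ← cl_mul hBc.ne_bot hJ.ne_bot, mul_comm, ← hB, cl_span]
  obtain ⟨h', hh'⟩ := (cl_eq_one_iff (hBc.mul hJ').ne_bot).1 h1
  refine ⟨h, h', h0, cop_span.1 (hh' ▸ hBc.mul hJ'), ?_⟩
  rw [← hh', hB]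
  ring

/-- the value of the function with divisor the isogeny relation -/
def Rho (hζ : IsPrimitiveRoot ζ l) (I : Ideal (CR l s)) (z : Jac l s) (ρ : k) : Prop :=
  ∃ (J : Ideal (CR l s)) (f1 f2 : CR l s), Cop J ∧ cl l J = z ∧ rr f1 ≠ 0 ∧ rr f2 ≠ 0 ∧
    Ideal.span {f1} * J.map (sg l s hζ) = Ideal.span {f2} * (I * J) ∧ ρ = rr f1 / rr f2

theorem rho_exists (hζ : IsPrimitiveRoot ζ l) {I : Ideal (CR l s)} (hI : Cop I) {z : Jac l s}
    (e : cl l I = jsg l s hζ z / z) : ∃ ρ, Rho hζ I z ρ := by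
  have hX : (Ideal.span {⟨X, 0⟩} : Ideal (CR l s)) ≠ ⊥ := by
    rw [Ne, Ideal.span_singleton_eq_bot]
    exact fun h => X_ne_zero (congrArg QuadraticAlgebra.re h)
  obtain ⟨J, -, hJ, hc⟩ := exists_cl_coprime z hX
  have hc' : Cop J := hc
  obtain ⟨f2, f1, h2, h1, e'⟩ := moving (hc'.sg hζ) (hI.mul hc') (by
    rw [cl_mul hI.ne_bot hc'.ne_bot, ← jsg_cl, hJ, e, div_mul_cancel])
  exact ⟨_, J, f1, f2, hc', hJ, h1, h2, e', rfl⟩

theorem rho_unique {hζ : IsPrimitiveRoot ζ l} {I : Ideal (CR l s)} (hI : I ≠ ⊥) {z : Jac l s}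
    {ρ ρ' : k} (h : Rho hζ I z ρ) (h' : Rho hζ I z ρ') : ρ = ρ' := by
  obtain ⟨J, f1, f2, hJ, hz, h1, h2, e, rfl⟩ := h
  obtain ⟨J', g1, g2, hJ', hz', h1', h2', e', rfl⟩ := h'
  obtain ⟨a, b, ha, hb, eab⟩ := moving hJ hJ' (hz.trans hz'.symm)
  have es := congrArg (Ideal.map (sg l s hζ)) eab
  rw [Ideal.map_mul, Ideal.map_mul, Ideal.map_span, Ideal.map_span, Set.image_singleton,
    Set.image_singleton] at es
  have key : Ideal.span {f1 * sg l s hζ a * b * g2} * (I * J') =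
      Ideal.span {f2 * sg l s hζ b * g1 * a} * (I * J') := by
    simp only [← Ideal.span_singleton_mul_span_singleton]
    calc Ideal.span {f1} * Ideal.span {sg l s hζ a} * Ideal.span {b} * Ideal.span {g2} * (I * J')
        = Ideal.span {f1} * Ideal.span {sg l s hζ a} * Ideal.span {b} *
            (Ideal.span {g2} * (I * J')) := by ring
      _ = Ideal.span {f1} * Ideal.span {b} * Ideal.span {g1} *
            (Ideal.span {sg l s hζ a} * J'.map (sg l s hζ)) := by rw [← e']; ring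
      _ = Ideal.span {b} * Ideal.span {g1} * Ideal.span {sg l s hζ b} *
            (Ideal.span {f1} * J.map (sg l s hζ)) := by rw [← es]; ring
      _ = Ideal.span {g1} * Ideal.span {sg l s hζ b} * Ideal.span {f2} * I *
            (Ideal.span {b} * J) := by rw [e]; ring
      _ = _ := by rw [eab]; ring
  have h3 := rr_span (mul_right_cancel₀ (mul_ne_zero hI hJ'.ne_bot) key)
  simp only [rr_mul, rr_sg] at h3
  rw [div_eq_div_iff h2 h2']
  apply mul_right_cancel₀ (mul_ne_zero ha hb)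
  linear_combination h3

theorem map_prod' {R S ι : Type} [CommRing R] [CommRing S] (f : R →+* S) (T : Finset ι)
    (I : ι → Ideal R) : (∏ i ∈ T, I i).map f = ∏ i ∈ T, (I i).map f :=
  map_prod (Ideal.mapHom f) I T

theorem rho_pow {hζ : IsPrimitiveRoot ζ l} {I : Ideal (CR l s)} {z : Jac l s} {ρ : k}
    (h : Rho hζ I z ρ) {m : CR l s}
    (hm : ∏ j ∈ Finset.range l, I.map (sg l s hζ ^ j) = Ideal.span {m}) : ρ ^ l = rr m := by
  obtain ⟨J, f1, f2, hJ, -, -, h2, e, rfl⟩ := h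
  have hinj : ∀ j : ℕ, Function.Injective (sg l s hζ ^ j : CR l s →+* CR l s) := fun j => by
    rw [RingHom.coe_pow]
    exact (sg_inj l s hζ).iterate j
  have hne : ∏ j ∈ Finset.range l, J.map (sg l s hζ ^ j) ≠ 0 :=
    Finset.prod_ne_zero_iff.2 fun j _ =>
      (Ideal.map_eq_bot_iff_of_injective (hinj j)).not.2 hJ.ne_bot
  have hshift : ∏ j ∈ Finset.range l, (J.map (sg l s hζ)).map (sg l s hζ ^ j) =
      ∏ j ∈ Finset.range l, J.map (sg l s hζ ^ j) := by
    have h3 := Finset.prod_range_succ (fun j => J.map (sg l s hζ ^ j)) l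
    rw [Finset.prod_range_succ', sg_pow, pow_zero] at h3
    have h4 : J.map (1 : CR l s →+* CR l s) ≠ 0 := by
      rw [RingHom.one_def, Ideal.map_id]
      exact hJ.ne_bot
    rw [← mul_right_cancel₀ h4 h3]
    refine Finset.prod_congr rfl fun j _ => ?_
    rw [Ideal.map_map, pow_succ]
    rfl
  have hsp : ∀ f : CR l s, ∏ j ∈ Finset.range l, (Ideal.span {f}).map (sg l s hζ ^ j) =
      Ideal.span {∏ j ∈ Finset.range l, (sg l s hζ ^ j) f} := fun f => by
    rw [← Ideal.prod_span_singleton]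
    exact Finset.prod_congr rfl fun j _ => by rw [Ideal.map_span, Set.image_singleton]
  have hr : ∀ f : CR l s, rr (∏ j ∈ Finset.range l, (sg l s hζ ^ j) f) = rr f ^ l := fun f => by
    rw [rr_prod, Finset.prod_congr rfl fun j _ => rr_sg_pow hζ j f, Finset.prod_const,
      Finset.card_range]
  have e1 := congrArg (fun A : Ideal (CR l s) => ∏ j ∈ Finset.range l, A.map (sg l s hζ ^ j)) e
  simp only [Ideal.map_mul, Finset.prod_mul_distrib] at e1
  rw [hshift, hsp, hsp, hm, ← mul_assoc, Ideal.span_singleton_mul_span_singleton] at e1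
  have e2 := rr_span (mul_right_cancel₀ hne e1)
  rw [rr_mul, hr, hr] at e2
  rw [div_pow, e2, mul_div_cancel_left₀ _ (pow_ne_zero l h2)]

theorem rho_cf {hζ : IsPrimitiveRoot ζ l} {I : Ideal (CR l s)} {z : Jac l s} {ρ : k}
    (h : Rho hζ I z ρ) (f : k →+* k') (hf : f s = s') {ζ' : k'} (hζ' : IsPrimitiveRoot ζ' l)
    (eζ : f ζ = ζ') : Rho hζ' (I.map (cf l f hf)) (jcf l f hf z) (f ρ) := by
  obtain ⟨J, f1, f2, hJ, hz, h1, h2, e, rfl⟩ := h
  refine ⟨J.map (cf l f hf), cf l f hf f1, cf l f hf f2, hJ.cf f hf, by rw [← jcf_cl, hz], ?_, ?_,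
    ?_, by rw [rr_cf, rr_cf, map_div₀]⟩
  · rw [rr_cf]
    exact (map_ne_zero f).2 h1
  · rw [rr_cf]
    exact (map_ne_zero f).2 h2
  · have e1 := congrArg (Ideal.map (cf l f hf)) e
    rw [Ideal.map_mul, Ideal.map_mul, Ideal.map_mul, Ideal.map_span, Ideal.map_span,
      Set.image_singleton, Set.image_singleton, Ideal.map_map] at e1
    have e2 : (cf l f hf).comp (sg l s hζ) = (sg l s' hζ').comp (cf l f hf) :=
      RingHom.ext fun w => cf_sg f hf hζ hζ' eζ w
    rw [← e1, e2, Ideal.map_map]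

/-- a representative of the point of order `l` and its function -/
theorem exists_JT (hζ : IsPrimitiveRoot ζ l) : ∃ (J : Ideal (CR l s)) (g1 g2 : CR l s),
    Cop J ∧ cl l J = jT l s ∧ rr g1 = 1 ∧ rr g2 = ζ⁻¹ ∧
      Ideal.span {g1} * J.map (sg l s hζ) = Ideal.span {g2} * J := by
  have hl : l.Prime := Fact.out
  have h2l : 2 < l := Fact.out
  have hs0 : (s : k) ≠ 0 := s.ne_zero
  have hζ0 : ζ ≠ 0 := hζ.ne_zero hl.ne_zero
  obtain ⟨n, hn⟩ : ∃ n, l = n + 2 := ⟨l - 2, by omega⟩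
  set v : k[X] := X - C (s : k) with hv
  set u : k[X] := X ^ (n + 1) - X + 2 * C (s : k) with hu
  have hF : FF l s = X ^ (n + 2) + C (s : k) ^ 2 := by rw [FF, C_pow, ← hn]
  have hvu : v ^ 2 - FF l s = -(X * u) := by
    rw [hF, hv, hu]
    ring
  have hru : rr (⟨u, 0⟩ : CR l s) = 1 := by
    simp [rr, evp, hu, hs0]
  have hcop : Cop (mum l s u v) :=
    cop_of_mem (z := ⟨u, 0⟩) (Ideal.subset_span (by simp)) (by rw [hru]; exact one_ne_zero)
  have hP : pt l s 0 (-(s : k)) = mum l s X v := by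
    rw [pt, C_0, sub_zero]
    exact mum_congr ⟨-1, by rw [hv, C_neg]; ring⟩
  have hh : Ideal.span {(⟨-v, 1⟩ : CR l s)} = pt l s 0 (-(s : k)) * mum l s u v := by
    rw [hP, mum_mul ⟨-1, by rw [hvu]; ring⟩, ← mum_full, hvu]
    exact mum_assoc (Associated.neg_left (Associated.refl _)) v
  have hPne : pt l s 0 (-(s : k)) ≠ ⊥ := mum_ne_bot _ _
  have hcl : cl l (mum l s u v) = jT l s := by
    have h1 := cl_span (l := l) (s := s) ⟨-v, 1⟩
    rw [hh, cl_mul hPne hcop.ne_bot, cl_pt_neg onp] at h1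
    exact (inv_mul_eq_one.1 h1).symm
  have hsh := congrArg (Ideal.map (sg l s hζ)) hh
  rw [Ideal.map_mul, map_sg_pt, mul_zero, Ideal.map_span, Set.image_singleton] at hsh
  have hsv : sg l s hζ (⟨-v, 1⟩ : CR l s) = ⟨-(C ζ * X - C (s : k)), 1⟩ := by
    ext1
    · change (-v).comp (C ζ * X) = _
      simp [hv]
    · change (1 : k[X]).comp (C ζ * X) = _
      simp
  rw [hsv] at hsh
  refine ⟨mum l s u v, ⟨u, 0⟩,
    ⟨X ^ (n + 1) + C (s : k) + C ζ * C (s : k) - C ζ * X, 1 - C ζ⟩, hcop, hcl, hru, ?_, ?_⟩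
  · simp only [rr, evp, eval_sub, eval_add, eval_pow, eval_X, eval_C, eval_mul, eval_one,
      zero_pow (Nat.succ_ne_zero n)]
    rw [div_eq_iff, eq_comm, inv_mul_eq_iff_eq_mul₀ hζ0]
    · ring
    · have : (0 : k) + s + ζ * s - ζ * 0 + -s * (1 - ζ) = 2 * s * ζ := by ring
      rw [this]
      exact mul_ne_zero (mul_ne_zero two_ne_zero hs0) hζ0
  · have hX : (Ideal.span {⟨X, 0⟩} : Ideal (CR l s)) ≠ 0 := by
      rw [Ne, Ideal.zero_eq_bot, Ideal.span_singleton_eq_bot]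
      exact fun h => X_ne_zero (congrArg QuadraticAlgebra.re h)
    have e1 : (⟨X, 0⟩ : CR l s) * ⟨u, 0⟩ = ⟨v, 1⟩ * ⟨-v, 1⟩ := by
      ext1
      · simp only [QuadraticAlgebra.re_mul]
        linear_combination hvu
      · simp only [QuadraticAlgebra.im_mul]
        ring
    have e2 : (⟨X, 0⟩ : CR l s) *
        ⟨X ^ (n + 1) + C (s : k) + C ζ * C (s : k) - C ζ * X, 1 - C ζ⟩ =
        ⟨v, 1⟩ * ⟨-(C ζ * X - C (s : k)), 1⟩ := by
      ext1
      · simp only [QuadraticAlgebra.re_mul]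
        rw [hF, hv]
        ring
      · simp only [QuadraticAlgebra.im_mul]
        rw [hv]
        ring
    apply mul_left_cancel₀ hX
    rw [← mul_assoc, ← mul_assoc, Ideal.span_singleton_mul_span_singleton,
      Ideal.span_singleton_mul_span_singleton, e1, e2, ← Ideal.span_singleton_mul_span_singleton,
      ← Ideal.span_singleton_mul_span_singleton, hh, hsh]
    ring

theorem rho_T {hζ : IsPrimitiveRoot ζ l} {I : Ideal (CR l s)} {z : Jac l s} {ρ : k}
    (h : Rho hζ I z ρ) : Rho hζ I (z * jT l s) (ρ * ζ) := by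
  obtain ⟨J, f1, f2, hJ, hz, h1, h2, e, rfl⟩ := h
  obtain ⟨JT, g1, g2, hc, hcl, r1, r2, eT⟩ := exists_JT (s := s) hζ
  have hζ0 : ζ ≠ 0 := hζ.ne_zero (Fact.out : l.Prime).ne_zero
  refine ⟨J * JT, f1 * g1, f2 * g2, hJ.mul hc, by rw [cl_mul hJ.ne_bot hc.ne_bot, hz, hcl], ?_, ?_,
    ?_, ?_⟩
  · rwa [rr_mul, r1, mul_one]
  · rw [rr_mul, r2]
    exact mul_ne_zero h2 (inv_ne_zero hζ0)
  · rw [Ideal.map_mul, ← Ideal.span_singleton_mul_span_singleton,
      ← Ideal.span_singleton_mul_span_singleton, mul_mul_mul_comm, e, eT]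
    ring
  · rw [rr_mul, rr_mul, r1, r2]
    field_simp

theorem rho_T_pow {hζ : IsPrimitiveRoot ζ l} {I : Ideal (CR l s)} {z : Jac l s} {ρ : k}
    (h : Rho hζ I z ρ) (i : ℕ) : Rho hζ I (z * jT l s ^ i) (ρ * ζ ^ i) := by
  induction i with
  | zero => simpa using h
  | succ i ih =>
    rw [pow_succ, pow_succ, ← mul_assoc, ← mul_assoc]
    exact rho_T ih

theorem cf_sg_pow (f : k →+* k') (hf : f s = s') (hζ : IsPrimitiveRoot ζ l) {ζ' : k'}
    (hζ' : IsPrimitiveRoot ζ' l) (eζ : f ζ = ζ') (j : ℕ) (w : CR l s) :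
    cf l f hf ((sg l s hζ ^ j) w) = (sg l s' hζ' ^ j) (cf l f hf w) := by
  induction j with
  | zero => rfl
  | succ j ih =>
    rw [pow_succ', pow_succ']
    change cf l f hf (sg l s hζ ((sg l s hζ ^ j) w)) =
      sg l s' hζ' ((sg l s' hζ' ^ j) (cf l f hf w))
    rw [cf_sg f hf hζ hζ' eζ, ih]

end J3cAux

open J3cAux in
/-- the kernel of the descent map is the image of the isogeny -/
theorem kummer {l : ℕ} [Fact l.Prime] [Fact (2 < l)] {k : Type} [Field k] [CharZero k] {s : kˣ}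
    {ζ : k} (hζ : IsPrimitiveRoot ζ l) {x : Jac l s} (h : Del l s hζ x 1) :
    ∃ z : Jac l s, x = jsg l s hζ z / z := by
  have hl : l.Prime := Fact.out
  have : NeZero l := ⟨hl.ne_zero⟩
  obtain ⟨I, m, e, hI, he, hm, hp, hn, hd⟩ := h
  obtain ⟨s', hf⟩ : ∃ s' : (AlgebraicClosure k)ˣ, algebraMap k (AlgebraicClosure k) s = s' :=
    ⟨Units.map (algebraMap k (AlgebraicClosure k) : k →* AlgebraicClosure k) s, rfl⟩
  set f := algebraMap k (AlgebraicClosure k) with hfdef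
  have hζ' : IsPrimitiveRoot (f ζ) l := hζ.map_of_injective f.injective
  have hrm : rr m * e ^ l = 1 := by
    rw [rr, div_mul_eq_mul_div, ← hd, one_mul, div_self hn]
  have hrm0 : rr m ≠ 0 := left_ne_zero_of_mul_eq_one hrm
  have hIc : Cop I := by
    refine (cop_span.2 hrm0).mono ?_
    rw [← hm]
    refine (Ideal.prod_le_inf.trans (Finset.inf_le (Finset.mem_range.2 hl.pos))).trans ?_
    rw [pow_zero, RingHom.one_def, Ideal.map_id]
  have hm' : ∏ j ∈ Finset.range l, (I.map (cf l f hf)).map (sg l s' hζ' ^ j) =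
      Ideal.span {cf l f hf m} := by
    have h1 := congrArg (Ideal.map (cf l f hf)) hm
    rw [map_prod', Ideal.map_span, Set.image_singleton] at h1
    rw [← h1]
    refine Finset.prod_congr rfl fun j _ => ?_
    rw [Ideal.map_map, Ideal.map_map]
    congr 1
    exact RingHom.ext fun w => (cf_sg_pow f hf hζ hζ' rfl j w).symm
  obtain ⟨z, hz⟩ := phi_surj hζ' (jcf l f hf x)
  obtain ⟨ρ, hρ⟩ := rho_exists hζ' (hIc.cf f hf) (z := z) (by rw [← jcf_cl, hI, hz])
  have hρl := rho_pow hρ hm'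
  rw [rr_cf] at hρl
  obtain ⟨i, -, hi⟩ := hζ'.eq_pow_of_pow_eq_one (ξ := ρ * f e) (by
    rw [mul_pow, hρl, ← map_pow, ← map_mul, hrm, map_one])
  have hfe : f e ≠ 0 := (map_ne_zero f).2 he
  have hρk : ρ = f (ζ ^ i / e) := by
    rw [map_div₀, map_pow, hi, mul_div_cancel_right₀ _ hfe]
  have hρ0 : ρ ≠ 0 := by
    rw [hρk]
    exact (map_ne_zero f).2 (div_ne_zero (pow_ne_zero _ (hζ.ne_zero hl.ne_zero)) he)
  obtain ⟨z0, hz0⟩ := descend hf z (fun τ hτ => by
    have hτf : ∀ a, (τ : AlgebraicClosure k →+* AlgebraicClosure k) (f a) = f a :=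
      fun a => τ.commutes a
    have h1 := rho_cf hρ (τ : AlgebraicClosure k →+* AlgebraicClosure k) hτ hζ' (hτf ζ)
    have h2 : (I.map (cf l f hf)).map (cf l (τ : AlgebraicClosure k →+* AlgebraicClosure k) hτ) =
        I.map (cf l f hf) := by
      rw [Ideal.map_map]
      congr 1
      exact RingHom.ext fun w => cf_cf f hf _ hτ f hf hτf w
    have h3 : (τ : AlgebraicClosure k →+* AlgebraicClosure k) ρ = ρ := by rw [hρk, hτf]
    rw [h2, h3] at h1
    have h4 := jcf_jcf f hf _ hτ f hf hτf x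
    rw [hz, _root_.map_div, jcf_jsg _ hτ hζ' hζ' (hτf ζ)] at h4
    set z' := jcf l (τ : AlgebraicClosure k →+* AlgebraicClosure k) hτ z
    obtain ⟨j, hj⟩ := ker_phi hζ' (x := z' / z) (by
      rw [_root_.map_div, div_eq_div_iff_div_eq_div, h4])
    have h5 : z' = z * jT l s' ^ j := by rw [← hj, mul_div_cancel]
    have h6 := rho_T_pow hρ j
    rw [← h5] at h6
    have h7 := rho_unique (hIc.cf f hf).ne_bot h1 h6
    have h8 : f ζ ^ j = 1 := (mul_eq_left₀ hρ0).1 h7.symm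
    have h9 : jT l s' ^ j = 1 :=
      orderOf_dvd_iff_pow_eq_one.1 (by rw [orderOf_jT]; exact (hζ'.pow_eq_one_iff_dvd j).1 h8)
    rw [h5, h9, mul_one])
  refine ⟨z0, jcf_inj f hf ?_⟩
  rw [hz, _root_.map_div, jcf_jsg f hf hζ hζ' rfl, hz0]

end Pool.Agent.MP_14ad9d_nt.Full
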