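import Pool.Agent.MP_14ad9d_nt.Full.J3c
import Pool.Agent.MP_14ad9d_nt.Full.Herb

set_option autoImplicit false

open Polynomial

namespace Pool.Agent.MP_14ad9d_nt.Full

namespace J4Aux

theorem mul_pow_mem (l : ℕ) [Fact l.Prime] {A : Type} [CommGroup A] (σ : A →* A)
    (B : Subgroup A) (hB : ∀ b ∈ B, σ b ∈ B) (b : A) (hb : b ∈ B)
    (h0 : ∏ i ∈ Finset.range l, σ^[i] b = 1) :
    ∃ c ∈ B, (fun z => σ z / z)^[l - 1] b = c ^ l := by
  have h1 := HerbAux.pow_mem l (A := Additive A) (MonoidHom.toAdditive σ)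
    (Subgroup.toAddSubgroup B) (fun b hb => hB _ hb) (Additive.ofMul b) hb h0
  obtain ⟨c, hc, e⟩ := h1
  exact ⟨Additive.toMul c, hc, (congrArg Additive.toMul e).symm⟩

theorem iter_surj {A : Type} (φ : A → A) (B : Set A) (h : ∀ x ∈ B, ∃ z ∈ B, x = φ z) (n : ℕ) :
    ∀ x ∈ B, ∃ z ∈ B, x = φ^[n] z := by
  induction n with
  | zero => exact fun x hx => ⟨x, hx, rfl⟩
  | succ n ih =>
    intro x hx
    obtain ⟨z, hz, e⟩ := ih x hx
    obtain ⟨w, hw, e'⟩ := h z hz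
    exact ⟨w, hw, by rw [Function.iterate_succ_apply, ← e', ← e]⟩

theorem killed (l : ℕ) [Fact l.Prime] {A : Type} [CommGroup A] (σ : A →* A)
    (h0 : ∀ b, ∏ i ∈ Finset.range l, σ^[i] b = 1) (j : ℕ) :
    ∀ y : A, y ^ l ^ j = 1 → ∃ N : ℕ, (fun z => σ z / z)^[N] y = 1 := by
  induction j with
  | zero => exact fun y hy => ⟨0, by simpa using hy⟩
  | succ j ih =>
    intro y hy
    obtain ⟨c, hc, e⟩ := mul_pow_mem l σ (powMonoidHom (l ^ (j + 1)) : A →* A).ker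
      (fun b hb => by
        have h1 : b ^ l ^ (j + 1) = 1 := hb
        change σ b ^ l ^ (j + 1) = 1
        rw [← map_pow, h1, map_one]) y hy (h0 y)
    have hc' : c ^ l ^ (j + 1) = 1 := hc
    obtain ⟨N, hN⟩ := ih (c ^ l) (by rw [← pow_mul, ← pow_succ', hc'])
    exact ⟨N + (l - 1), by rw [Function.iterate_add_apply, e, hN]⟩

end J4Aux

variable {l : ℕ} [Fact l.Prime] [Fact (2 < l)] {K : Type} [Field K] [CharZero K] {s : Kˣ} {ζ : K}

/-- the new part of the Jacobian is divisible by `l` -/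
theorem divis {F : Type} [Field F] [Algebra F K] [FiniteDimensional F K]
    (hζ : IsPrimitiveRoot ζ l) (hs : ∀ g : K ≃ₐ[F] K, (g : K →+* K) s = s)
    (hz : ∀ g : K ≃ₐ[F] K, g ζ = ζ) (hG : ¬l ∣ Fintype.card (K ≃ₐ[F] K))
    (sel : ∀ (x : Jac l s) (d : K), Del l s hζ x d → (∃ e : K, ∏ g : K ≃ₐ[F] K, g d = e ^ l) →
      ∃ e : K, d = e ^ l)
    (x : Jac l s) (hx : ∏ g : K ≃ₐ[F] K, jcf l (g : K →+* K) (hs g) x = 1) :
    ∃ y : Jac l s, ∏ g : K ≃ₐ[F] K, jcf l (g : K →+* K) (hs g) y = 1 ∧ y ^ l = x := by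
  have hl : l.Prime := Fact.out
  obtain ⟨Nm, hNm⟩ : ∃ Nm : Jac l s →* Jac l s,
      ∀ y, Nm y = ∏ g : K ≃ₐ[F] K, jcf l (g : K →+* K) (hs g) y :=
    ⟨∏ g : K ≃ₐ[F] K, jcf l (g : K →+* K) (hs g), fun y => MonoidHom.finsetProd_apply _ _ _⟩
  have hcomm : ∀ y, Nm (jsg l s hζ y) = jsg l s hζ (Nm y) := fun y => by
    rw [hNm, hNm, map_prod]
    exact Finset.prod_congr rfl fun g _ => jcf_jsg _ _ hζ hζ (hz g) y
  have hT : Nm (jT l s) = jT l s ^ Fintype.card (K ≃ₐ[F] K) := by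
    rw [hNm, Finset.prod_congr rfl fun (g : K ≃ₐ[F] K) _ => jcf_T (g : K →+* K) (hs g),
      Finset.prod_const,
      Finset.card_univ]
  have hB : ∀ b ∈ Nm.ker, jsg l s hζ b ∈ Nm.ker := fun b hb => by
    rw [MonoidHom.mem_ker] at hb ⊢
    rw [hcomm, hb, map_one]
  have hsurj : ∀ y ∈ (Nm.ker : Set (Jac l s)), ∃ z ∈ (Nm.ker : Set (Jac l s)),
      y = (fun z => jsg l s hζ z / z) z := fun y hy => by
    have hy' : Nm y = 1 := hy
    obtain ⟨d, hd⟩ := exists_del hζ y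
    have h1 : Del l s hζ (∏ g : K ≃ₐ[F] K, jcf l (g : K →+* K) (hs g) y)
        (∏ g : K ≃ₐ[F] K, g d) :=
      Del.prod Finset.univ fun g _ => hd.cf (g : K →+* K) (hs g) hζ (hz g)
    rw [← hNm, hy'] at h1
    obtain ⟨e, -, he⟩ := (del_one hζ).unique h1
    obtain ⟨e', he'⟩ := sel y d hd ⟨e, by rw [he, one_mul]⟩
    have he0 : e' ≠ 0 := fun h0 => hd.ne_zero (by rw [he', h0, zero_pow hl.ne_zero])
    have h2 := hd.scale (inv_ne_zero he0)
    rw [he', ← mul_pow, mul_inv_cancel₀ he0, one_pow] at h2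
    obtain ⟨z, hz'⟩ := kummer hζ h2
    have h3 : jsg l s hζ (Nm z) = Nm z := by
      rw [hz', _root_.map_div, hcomm] at hy'
      exact div_eq_one.1 hy'
    obtain ⟨i, hi⟩ := ker_phi hζ h3
    have hco : Nat.Coprime (Fintype.card (K ≃ₐ[F] K)) (orderOf (jT l s)) := by
      rw [orderOf_jT]
      exact ((Nat.Prime.coprime_iff_not_dvd hl).2 hG).symm
    obtain ⟨c, hc⟩ := exists_pow_eq_self_of_coprime hco
    refine ⟨z / jT l s ^ (c * i), ?_, ?_⟩
    · change Nm (z / jT l s ^ (c * i)) = 1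
      rw [_root_.map_div, map_pow, hT, pow_mul, hc, hi, div_self']
    · change y = jsg l s hζ (z / jT l s ^ (c * i)) / (z / jT l s ^ (c * i))
      rw [_root_.map_div, map_pow, jsg_T, div_div_div_cancel_right, hz']
  obtain ⟨z, hz1, hz2⟩ := J4Aux.iter_surj _ _ hsurj (l - 1) x (by
    change Nm x = 1
    rw [hNm, hx])
  obtain ⟨c, hc, e⟩ := J4Aux.mul_pow_mem l (jsg l s hζ) Nm.ker hB z hz1 (prod_jsg hζ z)
  refine ⟨c, ?_, by rw [hz2, e]⟩
  rw [← hNm]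
  exact hc

/-- a point of infinite order -/
theorem nontors (hζ : IsPrimitiveRoot ζ l) {x : Jac l s} {d : K} (h : Del l s hζ x d)
    (ind : ∀ (m j : ℤ) (e : K), d ^ m * (2 * (s : K)) ^ j = e ^ l → (l : ℤ) ∣ m ∧ (l : ℤ) ∣ j) :
    ¬IsOfFinOrder x := by
  intro hfin
  have hl : l.Prime := Fact.out
  have h2l : 2 < l := Fact.out
  have hs0 : (2 * (s : K)) ≠ 0 := mul_ne_zero two_ne_zero s.ne_zero
  have key : ∀ (m j : ℕ), Del l s hζ (jT l s ^ j) (d ^ m) → l ∣ m ∧ l ∣ j := fun m j hd => by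
    obtain ⟨e, -, he⟩ := ((del_T hζ).pow j).unique hd
    have h1 := ind m (2 * j) e (by
      rw [zpow_natCast, he, zpow_mul, zpow_natCast, zpow_ofNat, mul_right_comm, ← mul_pow,
        inv_mul_cancel₀ (pow_ne_zero 2 hs0), one_pow, one_mul])
    refine ⟨Int.natCast_dvd_natCast.1 h1.1, ?_⟩
    have h2 : l ∣ 2 * j := Int.natCast_dvd_natCast.1 (by exact_mod_cast h1.2)
    exact ((Nat.Prime.dvd_mul hl).1 h2).resolve_left fun h3 =>
      absurd (Nat.le_of_dvd two_pos h3) (by omega)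
  have hker : ∀ (N : ℕ) (Q : Jac l s), (fun z => jsg l s hζ z / z)^[N] Q = 1 →
      ∃ j : ℕ, Q = jT l s ^ j := by
    intro N
    induction N with
    | zero => exact fun Q hQ => ⟨0, by simpa using hQ⟩
    | succ N ih =>
      intro Q hQ
      rw [Function.iterate_succ_apply] at hQ
      obtain ⟨j, hj⟩ := ih _ hQ
      obtain ⟨e, he⟩ := exists_del hζ Q
      have h1 := he.sg.mul he.inv
      rw [mul_inv_cancel₀ he.ne_zero, ← div_eq_mul_inv, hj, ← pow_zero d] at h1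
      have h2 := (key 0 j h1).2
      have h3 : jT l s ^ j = 1 := orderOf_dvd_iff_pow_eq_one.1 (by rw [orderOf_jT]; exact h2)
      rw [h3] at hj
      exact ker_phi hζ (div_eq_one.1 hj)
  obtain ⟨j, m, hm, e⟩ := Nat.exists_eq_pow_mul_and_not_dvd hfin.orderOf_pos.ne' l hl.ne_one
  obtain ⟨N, hN⟩ := J4Aux.killed l (jsg l s hζ) (prod_jsg hζ) j (x ^ m) (by
    rw [← pow_mul, mul_comm, ← e, pow_orderOf_eq_one])
  obtain ⟨i, hi⟩ := hker N _ hN
  have h1 := h.pow m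
  rw [hi] at h1
  exact hm (key m i h1).1

/-- divisibility passes to a subgroup of finite index -/
theorem divis_inf {A : Type} [CommGroup A] (n : ℕ) (M H : Subgroup A) [H.FiniteIndex]
    (h : ∀ x ∈ M, ∃ y ∈ M, y ^ n = x) : ∀ x ∈ M ⊓ H, ∃ y ∈ M ⊓ H, y ^ n = x := by
  intro x hx
  obtain ⟨y, hy, e⟩ := h x hx.1
  refine ⟨y, ⟨hy, ?_⟩, e⟩
  have hsurj : Function.Surjective (fun a : M.map (QuotientGroup.mk' H) => a ^ n) := by
    rintro ⟨_, a, ha, rfl⟩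
    obtain ⟨b, hb, e'⟩ := h a ha
    exact ⟨⟨QuotientGroup.mk' H b, b, hb, rfl⟩, Subtype.ext (by
      change QuotientGroup.mk' H b ^ n = QuotientGroup.mk' H a
      rw [← map_pow, e'])⟩
  have hinj := Finite.injective_iff_surjective.2 hsurj
  have h1 : (⟨QuotientGroup.mk' H y, y, hy, rfl⟩ : M.map (QuotientGroup.mk' H)) = 1 :=
    hinj (Subtype.ext (by
      change QuotientGroup.mk' H y ^ n = ((1 ^ n : M.map (QuotientGroup.mk' H)) : A ⧸ H)
      rw [← map_pow, e, one_pow]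
      exact (QuotientGroup.eq_one_iff x).2 hx.2))
  exact (QuotientGroup.eq_one_iff y).1 (congrArg Subtype.val h1)

end Pool.Agent.MP_14ad9d_nt.Full
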