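import Pool.Agent.MP_14ad9d_nt.Full.J2

set_option autoImplicit false

open Polynomial

namespace Pool.Agent.MP_14ad9d_nt.Full.J5Aux

/-- the splitting field of a polynomial of small degree has degree prime to `l` -/
theorem not_dvd_finrank {l : ℕ} (hl : l.Prime) {K : Type} [Field K] [CharZero K] (h : K[X])
    (hd : h.natDegree < l) : ¬l ∣ Module.finrank K h.SplittingField := by
  have : Fact ((h.map (algebraMap K h.SplittingField)).Splits) := ⟨SplittingField.splits h⟩
  have : IsGalois K h.SplittingField := {}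
  have h1 : Nat.card h.Gal ∣ Nat.card (Equiv.Perm (h.rootSet h.SplittingField)) :=
    Subgroup.card_dvd_of_injective _ (Gal.galActionHom_injective h h.SplittingField)
  have h2 : Nat.card h.Gal = Module.finrank K h.SplittingField :=
    IsGalois.card_aut_eq_finrank K h.SplittingField
  rw [h2, Nat.card_perm] at h1
  intro hd'
  have h3 := (Nat.Prime.dvd_factorial hl).1 (hd'.trans h1)
  have h4 := ncard_rootSet_le h h.SplittingField
  rw [← Nat.card_coe_set_eq] at h4
  omega

/-- if a composition splits then the outer polynomial splits, with roots in the image -/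
theorem split_of_comp {E : Type} [Field E] {q : E[X]} (hq : q.natDegree ≠ 0) (n : ℕ) :
    ∀ u : E[X], u.Monic → u.natDegree = n → (u.comp q).Splits →
      ∃ R : Multiset E, (∀ a ∈ R, ∃ t, a = q.eval t) ∧ u = (R.map fun a => X - C a).prod := by
  induction n with
  | zero =>
    intro u hu hn _
    exact ⟨0, by simp, by simpa using hu.natDegree_eq_zero.1 hn⟩
  | succ n ih =>
    intro u hu hn hs
    have h0 : (u.comp q).natDegree ≠ 0 := by
      rw [natDegree_comp, hn]
      exact mul_ne_zero n.succ_ne_zero hq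
    have h1 : u.comp q ≠ 0 := fun e => h0 (by rw [e, natDegree_zero])
    obtain ⟨t, ht⟩ := hs.exists_eval_eq_zero (degree_ne_of_natDegree_ne h0)
    rw [eval_comp] at ht
    obtain ⟨u', hu'⟩ := dvd_iff_isRoot.2 ht
    have m' : u'.Monic := (monic_X_sub_C _).of_mul_monic_left (hu' ▸ hu)
    have d' : u'.natDegree = n := by
      have := (monic_X_sub_C (q.eval t)).natDegree_mul m'
      rw [← hu', hn, natDegree_X_sub_C] at this
      omega
    have s' : (u'.comp q).Splits := by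
      refine hs.of_dvd h1 ?_
      conv_rhs => rw [hu', mul_comp]
      exact dvd_mul_left _ _
    obtain ⟨R, hR, e⟩ := ih u' m' d' s'
    refine ⟨q.eval t ::ₘ R, fun a ha => ?_, ?_⟩
    · rcases Multiset.mem_cons.1 ha with rfl | ha
      · exact ⟨t, rfl⟩
      · exact hR a ha
    · rw [Multiset.map_cons, Multiset.prod_cons, ← e]
      exact hu'

variable {l : ℕ} [Fact l.Prime] [Fact (2 < l)]

/-- a property of nonzero elements that is closed under the operations used by the descent map -/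
structure Clo (l : ℕ) {E : Type} [Field E] (s s0 : E) (P : E → Prop) : Prop where
  mul : ∀ a b, a ≠ 0 → b ≠ 0 → P a → P b → P (a * b)
  pow : ∀ e, e ≠ 0 → P (e ^ l)
  two : P ((2 * s) ^ 2)
  two' : P ((2 * s) ^ 2)⁻¹
  pt : ∀ a b t, a ≠ 0 → b ^ 2 = a ^ l + s ^ 2 → a = s0 ^ 2 * (t ^ 2 - 1) → P ((b - s) / (b + s))

theorem del_point {E : Type} [Field E] [CharZero E] {s : Eˣ} {ζ : E} (hζ : IsPrimitiveRoot ζ l)
    {s0 : E} {P : E → Prop} (hP : Clo l (s : E) s0 P) {a b t : E}
    (hb : b ^ 2 = a ^ l + (s : E) ^ 2) (ht : a = s0 ^ 2 * (t ^ 2 - 1)) :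
    ∃ d, Del l s hζ (cl l (pt l s a b)) d ∧ P d := by
  rcases eq_or_ne a 0 with rfl | ha
  · rw [zero_pow (Fact.out : l.Prime).ne_zero, zero_add] at hb
    rcases sq_eq_sq_iff_eq_or_eq_neg.1 hb with rfl | rfl
    · exact ⟨_, del_T hζ, hP.two'⟩
    · refine ⟨_, ?_, hP.two⟩
      rw [cl_pt_neg (by rw [zero_pow (Fact.out : l.Prime).ne_zero, zero_add])]
      have := (del_T (s := s) hζ).inv
      rwa [inv_inv] at this
  · exact ⟨_, del_pt hζ hb ha, hP.pt a b t ha hb ht⟩

theorem del_points {E : Type} [Field E] [CharZero E] {s : Eˣ} {ζ : E} (hζ : IsPrimitiveRoot ζ l)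
    {s0 : E} {P : E → Prop} (hP : Clo l (s : E) s0 P) (f : E → E) (R : Multiset E)
    (hR : ∀ a ∈ R, f a ^ 2 = a ^ l + (s : E) ^ 2 ∧ ∃ t, a = s0 ^ 2 * (t ^ 2 - 1)) :
    ∃ d, Del l s hζ (R.map fun a => cl l (pt l s a (f a))).prod d ∧ P d := by
  induction R using Multiset.induction_on with
  | empty =>
    refine ⟨1, del_one hζ, ?_⟩
    simpa using hP.pow 1 one_ne_zero
  | cons a R ih =>
    obtain ⟨d, h1, h2⟩ := ih fun b hb => hR b (Multiset.mem_cons_of_mem hb)
    obtain ⟨h3, t, h4⟩ := hR a (Multiset.mem_cons_self a R)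
    obtain ⟨d', h5, h6⟩ := del_point hζ hP h3 h4
    rw [Multiset.map_cons, Multiset.prod_cons]
    exact ⟨d' * d, h5.mul h1, hP.mul _ _ h5.ne_zero h1.ne_zero h6 h2⟩

omit [Fact l.Prime] [Fact (2 < l)] in
theorem root_eq {E : Type} [Field E] {s : Eˣ} {a : E} {v : E[X]} (h4 : X - C a ∣ v ^ 2 - FF l s) :
    v.eval a ^ 2 = a ^ l + (s : E) ^ 2 := by
  have h5 := dvd_iff_isRoot.1 h4
  rw [IsRoot.def, FF, eval_sub, eval_pow, eval_add, eval_pow, eval_X, eval_C] at h5
  exact sub_eq_zero.1 h5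

theorem cl_split {E : Type} [Field E] [CharZero E] {s : Eˣ} (R : Multiset E) {v : E[X]}
    (hdv : (R.map fun a => X - C a).prod ∣ v ^ 2 - FF l s) :
    cl l (mum l s (R.map fun a => X - C a).prod v) =
      (R.map fun a => cl l (pt l s a (v.eval a))).prod := by
  have h : ∀ I ∈ R.map fun a => pt l s a (v.eval a), I ≠ ⊥ := fun I hI => by
    obtain ⟨a, -, rfl⟩ := Multiset.mem_map.1 hI
    exact mum_ne_bot (X - C a) (C (v.eval a))
  rw [mum_split R hdv, cl_mprod _ h, Multiset.map_map]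
  rfl

theorem del_split {E : Type} [Field E] [CharZero E] {s : Eˣ} {ζ : E} {hζ : IsPrimitiveRoot ζ l}
    {s0 : E} (h0 : s0 ≠ 0) {P : E → Prop} (hP : Clo l (s : E) s0 P) {u v : E[X]}
    (hm : IsMum l s u v) (hsp : (u.comp (C (s0 ^ 2) * (X ^ 2 - C 1))).Splits) {d : E}
    (h1 : Del l s hζ (cl l (mum l s u v)) d) : P d := by
  obtain ⟨R, hR, e⟩ := split_of_comp (q := C (s0 ^ 2) * (X ^ 2 - C 1))
    (by rw [natDegree_C_mul (pow_ne_zero 2 h0), natDegree_X_pow_sub_C]; norm_num) _ u hm.1 rfl hsp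
  have hdv := hm.2.2
  rw [e] at hdv h1
  rw [cl_split R hdv] at h1
  have hR' : ∀ a ∈ R, v.eval a ^ 2 = a ^ l + (s : E) ^ 2 ∧ ∃ t, a = s0 ^ 2 * (t ^ 2 - 1) := by
    intro a ha
    have h4 : X - C a ∣ (R.map fun a => X - C a).prod :=
      Multiset.dvd_prod (Multiset.mem_map_of_mem (fun a => X - C a) ha)
    refine ⟨root_eq (h4.trans hdv), ?_⟩
    obtain ⟨t, ht⟩ := hR a ha
    refine ⟨t, ?_⟩
    rw [ht, eval_mul, eval_C, eval_sub, eval_pow, eval_X, eval_C]
  obtain ⟨d', h2, h3⟩ := del_points hζ hP (fun a => v.eval a) R hR'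
  obtain ⟨c, hc, e'⟩ := h2.unique h1
  rw [e']
  exact hP.mul _ _ h2.ne_zero (pow_ne_zero _ hc) h3 (hP.pow c hc)

theorem del_ext {K E : Type} [Field K] [CharZero K] [Field E] [CharZero E] (f : K →+* E) {s : Kˣ}
    {ζ : K} {hζ : IsPrimitiveRoot ζ l} {s0 : K} (h0 : s0 ≠ 0) {u v : K[X]} (hm : IsMum l s u v)
    (hsp : ((u.comp (C (s0 ^ 2) * (X ^ 2 - C 1))).map f).Splits) {d : K}
    (h : Del l s hζ (cl l (mum l s u v)) d) {P : E → Prop} (hP : Clo l (f s) (f s0) P) :
    P (f d) := by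
  have hs : f s = (Units.map (f : K →* E) s : Eˣ) := rfl
  have hζ' : IsPrimitiveRoot (f ζ) l := hζ.map_of_injective f.injective
  have h1 := h.cf f hs hζ' rfl
  rw [jcf_mum] at h1
  refine del_split ((map_ne_zero f).2 h0) hP (hm.map f hs) ?_ h1
  simpa [map_comp] using hsp

/-- the reduction to points over an extension of degree prime to `l` -/
theorem reduce {K : Type} [Field K] [NumberField K] {s : Kˣ} {ζ : K} {hζ : IsPrimitiveRoot ζ l}
    {x : Jac l s} {d : K} (h : Del l s hζ x d) {s0 : K} (h0 : s0 ≠ 0) :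
    ∃ (E : Type) (_ : Field E) (_ : NumberField E) (_ : Algebra K E), IsGalois K E ∧
      ¬l ∣ Module.finrank K E ∧ ∀ P : E → Prop,
        Clo l (algebraMap K E s) (algebraMap K E s0) P → P (algebraMap K E d) := by
  have hl : l.Prime := Fact.out
  have hl2 : 2 < l := Fact.out
  obtain ⟨u, v, hm, hd, rfl⟩ := exists_red x
  have hdeg : (u.comp (C (s0 ^ 2) * (X ^ 2 - C 1))).natDegree < l := by
    rw [natDegree_comp, natDegree_C_mul (pow_ne_zero 2 h0), natDegree_X_pow_sub_C]
    obtain ⟨k, hk⟩ := hl.odd_of_ne_two (by omega)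
    omega
  have hsp := SplittingField.splits (u.comp (C (s0 ^ 2) * (X ^ 2 - C 1)))
  have hnd := not_dvd_finrank hl _ hdeg
  have hN : NumberField (u.comp (C (s0 ^ 2) * (X ^ 2 - C 1))).SplittingField :=
    NumberField.of_module_finite K _
  exact ⟨_, inferInstance, hN, inferInstance, {}, hnd, fun P hP => del_ext _ h0 hm hsp h hP⟩

end Pool.Agent.MP_14ad9d_nt.Full.J5Aux
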