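import Pool.Agent.MP_14ad9d_nt.Full.J5a
import Pool.Agent.MP_14ad9d_nt.Full.J2
import Pool.Agent.MP_14ad9d_nt.Full.J51

set_option autoImplicit false

open NumberField IsDedekindDomain

namespace Pool.Agent.MP_14ad9d_nt.Full

namespace J5Aux

theorem ne_of_pt {l : ℕ} {E : Type} [Field E] {a b s : E} (ha : a ≠ 0)
    (hb : b ^ 2 = a ^ l + s ^ 2) : b - s ≠ 0 ∧ b + s ≠ 0 ∧ (b - s) * (b + s) = a ^ l := by
  have e : (b - s) * (b + s) = a ^ l := by linear_combination hb
  have h := mul_ne_zero_iff.1 (e ▸ pow_ne_zero l ha)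
  exact ⟨h.1, h.2, e⟩

theorem clo_ord {l : ℕ} {E : Type} [Field E] [NumberField E] (w : Pr E) {s : E}
    (s0 : E) (hc : (l : ℤ) ∣ ord w (2 * s)) : Clo l s s0 fun z => (l : ℤ) ∣ ord w z where
  mul a b ha hb h1 h2 := by
    rw [ord_mul w ha hb]
    exact dvd_add h1 h2
  pow e _ := by
    rw [ord_pow]
    exact dvd_mul_right _ _
  two := by
    rw [ord_pow]
    exact hc.mul_left _
  two' := by
    rw [ord_inv, ord_pow]
    exact (hc.mul_left _).neg_right
  pt a b t ha hb _ := by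
    obtain ⟨h1, h2, e⟩ := ne_of_pt ha hb
    have h3 : ord w (b - s) + ord w (b + s) = l * ord w a := by
      rw [← ord_mul w h1 h2, e, ord_pow]
    have h4 : (2 * s) = (b + s) - (b - s) := by ring
    rw [div_eq_mul_inv, ord_mul w h1 (inv_ne_zero h2), ord_inv]
    rcases lt_trichotomy (w.valuation E (b - s)) (w.valuation E (b + s)) with h | h | h
    · have h5 : ord w (2 * s) = ord w (b + s) := by
        rw [ord, ord, h4, Valuation.map_sub_eq_of_lt_left _ h]
      have h6 : ord w (b - s) + -ord w (b + s) = l * ord w a - 2 * ord w (2 * s) := by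
        rw [h5, ← h3]; ring
      rw [h6]
      exact dvd_sub (dvd_mul_right _ _) (hc.mul_left _)
    · rw [ord, ord, h, add_neg_cancel]
      exact dvd_zero _
    · have h5 : ord w (2 * s) = ord w (b - s) := by
        rw [ord, ord, h4, Valuation.map_sub_eq_of_lt_right _ h]
      have h6 : ord w (b - s) + -ord w (b + s) = 2 * ord w (2 * s) - l * ord w a := by
        rw [h5, ← h3]; ring
      rw [h6]
      exact dvd_sub (hc.mul_left _) (dvd_mul_right _ _)

theorem two_ne {l : ℕ} [Fact l.Prime] (hl : 2 < l) : (2 : ZMod l) ≠ 0 := by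
  intro h
  have : ((2 : ℕ) : ZMod l) = 0 := by simpa using h
  rw [ZMod.natCast_eq_zero_iff] at this
  have := Nat.le_of_dvd two_pos this
  omega

theorem clo_tame {l : ℕ} [Fact l.Prime] (hl : 2 < l) {E : Type} [Field E] [NumberField E] {ζ : E}
    (hζ : IsPrimitiveRoot ζ l) {w : Pr E} (hw : Tm l w) {s : E} (hs : s ≠ 0) (s0 : E) :
    Clo l s s0 fun z => tame l ζ w z (2 * s) = 0 := by
  have h2s : 2 * s ≠ 0 := mul_ne_zero two_ne_zero hs
  refine ⟨fun a b ha hb h1 h2 => ?_, fun e he => ?_, ?_, ?_, fun a b t ha hb _ => ?_⟩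
  · rw [tame_mul_left hl hζ hw ha hb h2s, h1, h2, add_zero]
  · rw [← zpow_natCast, tame_zpow_left hl hζ hw he h2s]
    simp
  · rw [← zpow_natCast, tame_zpow_left hl hζ hw h2s h2s, tame_self hl hζ hw, mul_zero]
  · rw [← zpow_natCast, ← zpow_neg, tame_zpow_left hl hζ hw h2s h2s, tame_self hl hζ hw, mul_zero]
  · obtain ⟨h1, h2, e⟩ := ne_of_pt ha hb
    have hz : (b - s) / (b + s) ≠ 0 := div_ne_zero h1 h2
    have e1 : 1 - (b - s) / (b + s) = 2 * s / (b + s) := by
      field_simp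
      ring
    have e2 : (b + s) ^ (2 : ℤ) = a ^ (l : ℤ) * ((b - s) / (b + s)) ^ (-1 : ℤ) := by
      rw [zpow_natCast, ← e, zpow_neg_one]
      field_simp
    have e3 : 2 * s = (1 - (b - s) / (b + s)) * (b + s) := by
      rw [e1]
      field_simp
    have hz1 : (b - s) / (b + s) ≠ 1 := by
      intro h
      rw [h, sub_self, zero_mul] at e3
      exact h2s e3
    generalize (b - s) / (b + s) = z at hz e2 e3 hz1
    have k1 := tame_steinberg hl hζ hw hz hz1
    have k2 := tame_zpow_right hl hζ hw hz h2 2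
    rw [e2, tame_mul_right hl hζ hw hz (zpow_ne_zero _ ha) (zpow_ne_zero _ hz),
      tame_zpow_right hl hζ hw hz ha, tame_zpow_right hl hζ hw hz hz, tame_self hl hζ hw] at k2
    have k3 : tame l ζ w z (b + s) = 0 := by
      refine (mul_eq_zero.1 ?_).resolve_left (two_ne hl)
      simpa using k2.symm
    rw [e3, tame_mul_right hl hζ hw hz (sub_ne_zero.2 hz1.symm) h2, k1, k3, add_zero]

section Near

variable {E Γ : Type} [Field E] [LinearOrderedCommGroupWithZero Γ] (V : Valuation E Γ)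

theorem lt_one_of_sq {c x : Γ} (hc : c < 1) (h : x ^ 2 < c) : x < 1 := by
  by_contra h1
  exact absurd (h.trans hc) (not_lt.2 (one_le_pow₀ (not_lt.1 h1)))

theorem sq_lt_of_lt {c x : Γ} (hc : c < 1) (h : x < c) : x ^ 2 < c := by
  rw [sq]
  exact (mul_le_of_le_one_left' (h.trans hc).le).trans_lt h

theorem near_mul {c : Γ} (hc : c < 1) {x y : E} (hx : V (x - 1) ^ 2 < c) (hy : V (y - 1) ^ 2 < c) :
    V (x * y - 1) ^ 2 < c := by
  have e : x * y - 1 = (x - 1) * y + (y - 1) := by ring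
  have h1 : V y ≤ 1 := by
    have : y = 1 + (y - 1) := by ring
    rw [this]
    exact V.map_add_le (map_one V).le (lt_one_of_sq hc hy).le
  have h2 : V ((x - 1) * y) ≤ V (x - 1) := by
    rw [map_mul]
    exact mul_le_of_le_one_right' h1
  rw [e]
  rcases le_total (V (x - 1)) (V (y - 1)) with h | h
  · exact (pow_le_pow_left₀ zero_le (V.map_add_le (h2.trans h) le_rfl) 2).trans_lt hy
  · exact (pow_le_pow_left₀ zero_le (V.map_add_le h2 h) 2).trans_lt hx

theorem val_one {x : E} (hx : V (x - 1) < 1) : V x = 1 := by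
  have : x = 1 + (x - 1) := by ring
  rw [this]
  exact V.map_one_add_of_lt hx

theorem val_inv {x : E} (hx : V (x - 1) < 1) : V (x⁻¹ - 1) = V (x - 1) := by
  have h1 := val_one V hx
  have h0 : x ≠ 0 := by
    rintro rfl
    simp at h1
  have e : x⁻¹ - 1 = -(x - 1) * x⁻¹ := by
    field_simp
    ring
  rw [e, map_mul, map_inv₀, h1, inv_one, mul_one, Valuation.map_neg]

/-- close to an `l`-th power -/
def Nr (l : ℕ) (z : E) : Prop := ∃ γ : E, γ ≠ 0 ∧ V (z / γ ^ l - 1) ^ 2 < V l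

theorem Nr.mul {l : ℕ} (hw : V l < 1) {x y : E} (hx : Nr V l x) (hy : Nr V l y) :
    Nr V l (x * y) := by
  obtain ⟨γ, h1, h2⟩ := hx
  obtain ⟨δ, h3, h4⟩ := hy
  refine ⟨γ * δ, mul_ne_zero h1 h3, ?_⟩
  rw [mul_pow, ← div_mul_div_comm]
  exact near_mul V hw h2 h4

theorem Nr.inv {l : ℕ} (hw : V l < 1) {x : E} (hx : Nr V l x) : Nr V l x⁻¹ := by
  obtain ⟨γ, h1, h2⟩ := hx
  refine ⟨γ⁻¹, inv_ne_zero h1, ?_⟩
  rw [inv_pow, inv_div_inv, ← inv_div, val_inv V (lt_one_of_sq hw h2)]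
  exact h2

theorem val_nat (n : ℕ) : V (n : E) ≤ 1 := by
  induction n with
  | zero => simp
  | succ n ih =>
    rw [Nat.cast_succ]
    exact V.map_add_le ih (map_one V).le

theorem nr_two [CharZero E] {l : ℕ} (hp : l.Prime) (hl : 2 < l) (hw : V l < 1) : Nr V l 2 := by
  have h0 : 0 < V l := zero_lt_iff.2 ((Valuation.ne_zero_iff _).2 (Nat.cast_ne_zero.2 hp.ne_zero))
  have h1 : 2 ^ (l - 1) ≡ 1 [MOD l] := by
    have := Nat.ModEq.pow_totient (x := 2) (n := l)
      ((Nat.coprime_primes Nat.prime_two hp).2 (by omega))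
    rwa [Nat.totient_prime hp] at this
  obtain ⟨m, hm⟩ := (Nat.modEq_iff_dvd' (Nat.one_le_two_pow)).1 h1.symm
  have h2 : (2 : E) ^ (l - 1) - 1 = l * m := by
    have := congrArg (Nat.cast : ℕ → E) hm
    rwa [Nat.cast_sub Nat.one_le_two_pow, Nat.cast_pow, Nat.cast_mul, Nat.cast_ofNat,
      Nat.cast_one] at this
  have h3 : V ((2 : E) ^ (l - 1) - 1) ≤ V l := by
    rw [h2, map_mul]
    exact mul_le_of_le_one_right' (val_nat V m)
  refine ⟨2, two_ne_zero, ?_⟩
  have e : (2 : E) / 2 ^ l = (2 ^ (l - 1))⁻¹ := by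
    obtain ⟨k, rfl⟩ : ∃ k, l = k + 1 := ⟨l - 1, by omega⟩
    rw [Nat.add_sub_cancel, pow_succ]
    field_simp
  rw [e, val_inv V (h3.trans_lt hw)]
  refine (pow_le_pow_left₀ zero_le h3 2).trans_lt ?_
  rw [sq]
  exact mul_lt_of_lt_one_left h0 hw

theorem clo_near [CharZero E] {l : ℕ} [Fact l.Prime] (hl : 2 < l) (hw : V l < 1) {s γ : E}
    (hs : s ≠ 0) (hγ : γ ≠ 0) (h : V (s / γ ^ l - 1) < V l) : Clo l s γ (Nr V l) := by
  have hp : l.Prime := Fact.out
  have h0 : 0 < V l := zero_lt_iff.2 ((Valuation.ne_zero_iff _).2 (Nat.cast_ne_zero.2 hp.ne_zero))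
  have n1 : Nr V l (2 * s) := (nr_two V hp hl hw).mul V hw ⟨γ, hγ, sq_lt_of_lt hw h⟩
  have n2 : Nr V l ((2 * s) ^ 2) := by
    rw [sq]
    exact n1.mul V hw n1
  refine ⟨fun a b _ _ h1 h2 => h1.mul V hw h2, fun e he => ⟨e, he, ?_⟩, n2, n2.inv V hw,
    fun a b t ha hb ht => ?_⟩
  · rw [div_self (pow_ne_zero _ he), sub_self, map_zero, zero_pow two_ne_zero]
    exact h0
  · have e1 : t ^ 2 = 1 + a / γ ^ 2 := by
      rw [ht]
      field_simp
      ring
    have e2 : (b / s) ^ 2 = (a / γ ^ 2) ^ l * (1 + ((s / γ ^ l)⁻¹ ^ 2 - 1)) + 1 := by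
      rw [div_pow, div_pow, hb, ← pow_mul, mul_comm 2 l, pow_mul]
      field_simp
      ring
    have e3 : V ((s / γ ^ l)⁻¹ ^ 2 - 1) < V l := by
      have k1 := val_inv V (h.trans hw)
      have k2 : V (s / γ ^ l)⁻¹ = 1 := by rw [map_inv₀, val_one V (h.trans hw), inv_one]
      generalize (s / γ ^ l)⁻¹ = y at k1 k2
      have e : y ^ 2 - 1 = (y - 1) * (y + 1) := by ring
      rw [e, map_mul, k1]
      exact (mul_le_of_le_one_right' (V.map_add_le k2.le (map_one V).le)).trans_lt h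
    obtain ⟨δ, d0, hd⟩ := wild_pt hl V hw (div_ne_zero ha (pow_ne_zero 2 hγ)) e1 e2 e3
    refine ⟨δ, d0, ?_⟩
    have e4 : (b / s - 1) / (b / s + 1) = (b - s) / (b + s) := by
      rw [div_sub_one hs, div_add_one hs, div_div_div_cancel_right₀ hs]
    rwa [e4] at hd

end Near

theorem ef_not {l : ℕ} {K E : Type} [Field K] [NumberField K] [Field E] [NumberField E]
    [Algebra K E] [IsGalois K E] (hn : ¬l ∣ Module.finrank K E) {v : Pr K} {w : Pr E}
    (h : w.asIdeal.LiesOver v.asIdeal) :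
    ¬l ∣ w.asIdeal.ramificationIdx (𝓞 K) * w.asIdeal.inertiaDeg (𝓞 K) :=
  fun hd => hn (hd.trans (ef_dvd h))

end J5Aux

open J5Aux

variable {l : ℕ} [Fact l.Prime] [Fact (2 < l)] {K : Type} [Field K] [NumberField K] {s : Kˣ}
  {ζ : K} {hζ : IsPrimitiveRoot ζ l} {x : Jac l s} {d : K}

theorem Del.ord_dvd (h : Del l s hζ x d) {v : Pr K} (hv : Tm l v)
    (hc : (l : ℤ) ∣ ord v (2 * (s : K))) : (l : ℤ) ∣ ord v d := by
  obtain ⟨E, _, _, _, _, hn, hP⟩ := reduce h (s0 := 1) one_ne_zero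
  obtain ⟨w, hw⟩ := exists_over (E' := E) v
  have he : ¬l ∣ w.asIdeal.ramificationIdx (𝓞 K) := fun hd => ef_not hn hw (hd.mul_right _)
  have h1 := hP _ (clo_ord w _ (by
    have := ord_over hw (2 * (s : K))
    rw [map_mul, map_ofNat] at this
    rw [this]
    exact hc.mul_left _))
  rw [ord_over hw] at h1
  exact ((Nat.prime_iff_prime_int.1 Fact.out).dvd_or_dvd h1).resolve_left
    fun hd => he (Int.natCast_dvd_natCast.1 hd)

theorem Del.tame_eq (h : Del l s hζ x d) {v : Pr K} (hv : Tm l v) :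
    tame l ζ v d (2 * (s : K)) = 0 := by
  have hl : 2 < l := Fact.out
  obtain ⟨E, _, _, _, _, hn, hP⟩ := reduce h (s0 := 1) one_ne_zero
  obtain ⟨w, hw⟩ := exists_over (E' := E) v
  have h1 := hP _ (clo_tame hl (hζ.map_of_injective (algebraMap K E).injective)
    ((tm_over hw).2 hv) ((map_ne_zero _).2 s.ne_zero) _)
  have h2 := tame_over hl hζ hv hw h.ne_zero (mul_ne_zero two_ne_zero s.ne_zero)
  rw [map_mul, map_ofNat, h1] at h2
  refine (mul_eq_zero.1 h2.symm).resolve_left fun h3 => ef_not hn hw ?_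
  rw [← ZMod.natCast_eq_zero_iff, Nat.cast_mul]
  exact h3

theorem Del.nearAt (h : Del l s hζ x d) {v : Pr K} (h1 : ord v (1 - ζ) = 1)
    (hs : NearAt l ζ (l + 1) v (s : K)) : NearAt l ζ ((l + 1) / 2) v d := by
  have hl : 2 < l := Fact.out
  have hp : l.Prime := Fact.out
  obtain ⟨γ, hγ, hs⟩ := hs
  obtain ⟨E, _, _, _, _, hn, hP⟩ := reduce h hγ
  obtain ⟨w, hw⟩ := exists_over (E' := E) v
  have he : ¬l ∣ w.asIdeal.ramificationIdx (𝓞 K) := fun hd => ef_not hn hw (hd.mul_right _)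
  have he0 : w.asIdeal.ramificationIdx (𝓞 K) ≠ 0 := fun e => he (e ▸ dvd_zero l)
  have z1 : 1 - ζ ≠ 0 := sub_ne_zero.2 (hζ.ne_one hp.one_lt).symm
  have a0 : 0 < v.valuation K (1 - ζ) := zero_lt_iff.2 ((Valuation.ne_zero_iff _).2 z1)
  have a1 : v.valuation K (1 - ζ) < 1 := (Sym1Aux.val_lt_one_iff v z1).2 (by omega)
  have a2 : v.valuation K (l : K) < 1 := by
    rw [val_ell hζ]
    exact pow_lt_one₀ zero_le a1 (by omega)
  have a3 : v.valuation K (s / γ ^ l - 1) < v.valuation K (l : K) := by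
    rw [val_ell hζ]
    exact hs.trans_lt (pow_lt_pow_right_of_lt_one₀ a0 a1 (by omega))
  have b2 : w.valuation E (l : E) < 1 := by
    rw [← map_natCast (algebraMap K E), Sym2Aux.val_over hw]
    exact pow_lt_one₀ zero_le a2 he0
  have b3 : w.valuation E (algebraMap K E s / algebraMap K E γ ^ l - 1) < w.valuation E (l : E) := by
    rw [← map_natCast (algebraMap K E), ← map_pow, ← map_div₀, ← map_one (algebraMap K E),
      ← map_sub, Sym2Aux.val_over hw, Sym2Aux.val_over hw]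
    exact pow_lt_pow_left₀ a3 zero_le he0
  obtain ⟨δ, d0, hd⟩ := hP _ (clo_near (w.valuation E) hl b2 ((map_ne_zero _).2 s.ne_zero)
    ((map_ne_zero _).2 hγ) b3)
  exact wild_down hl hζ h1 hw he h.ne_zero d0 hd

end Pool.Agent.MP_14ad9d_nt.Full
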