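import Pool.Agent.MP_14ad9d_nt.Full.Sym11

set_option autoImplicit false

namespace Pool.Agent.MP_14ad9d_nt.Full.J5aAux

open Sym1Aux

variable {l : ℕ} {E Γ : Type} [Field E] [LinearOrderedCommGroupWithZero Γ] (w : Valuation E Γ)

theorem val_nat (n : ℕ) : w (n : E) ≤ 1 := by
  induction n with
  | zero => simp
  | succ n ih =>
    rw [Nat.cast_succ]
    exact w.map_add_le ih (by simp)

theorem val_two (ho : Odd l) (hw : w l < 1) : w (2 : E) = 1 := by
  obtain ⟨m, rfl⟩ := ho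
  refine le_antisymm (by simpa using val_nat w 2) (not_lt.1 fun h => ?_)
  have h1 : w (2 * (m : E)) < 1 := by
    rw [map_mul]
    exact (mul_le_of_le_one_right' (val_nat w m)).trans_lt h
  have h2 := w.map_sub_lt hw h1
  push_cast at h2
  rw [add_sub_cancel_left, map_one] at h2
  exact lt_irrefl _ h2

/-- the binomial estimate -/
theorem binom (hl : l.Prime) {u v : E} {M : Γ} (hu : w u ≤ M) (hv : w v ≤ M) :
    w ((u + v) ^ l - u ^ l - v ^ l) ≤ w l * w u * w v * M ^ (l - 2) := by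
  rw [add_pow_prime_eq hl, sub_sub, add_sub_cancel_left, map_mul, map_mul, map_mul]
  refine mul_le_mul_right (w.map_sum_le fun k hk => ?_) _
  obtain ⟨h1, h2⟩ := Finset.mem_Ioo.1 hk
  rw [map_mul, map_mul, map_pow, map_pow]
  refine (mul_le_of_le_one_right' (val_nat w _)).trans ?_
  rw [show l - 2 = (k - 1) + (l - k - 1) by omega, pow_add]
  exact mul_le_mul' (pow_le_pow_left' hu _) (pow_le_pow_left' hv _)

/-- closeness to an `l`-th power -/
def Cl (l : ℕ) (z : E) : Prop := ∃ γ : E, γ ≠ 0 ∧ w (z / γ ^ l - 1) ^ 2 < w l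

theorem lt_one_of_sq {a b : Γ} (h : a ^ 2 < b) (hb : b < 1) : a < 1 := by
  by_contra hc
  exact absurd (h.trans hb) (not_lt.2 (one_le_pow_of_one_le' (not_lt.1 hc) _))

theorem sq_lt {a b : Γ} (h : a ≤ b) (h0 : 0 < b) (hb : b < 1) : a ^ 2 < b := by
  refine (pow_le_pow_left' h 2).trans_lt ?_
  rw [sq]
  exact mul_lt_of_lt_one_right h0 hb

theorem Cl.inv {z : E} (hw : w l < 1) (h : Cl w l z) : Cl w l z⁻¹ := by
  obtain ⟨γ, h0, h⟩ := h
  have h1 : w (z / γ ^ l) = 1 :=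
    val_eq_one_of w (map_one w) (val_symm w (lt_one_of_sq h hw))
  have hz : z ≠ 0 := by
    rintro rfl
    simp at h1
  refine ⟨γ⁻¹, inv_ne_zero h0, ?_⟩
  have e : z⁻¹ / γ⁻¹ ^ l - 1 = -(z / γ ^ l - 1) / (z / γ ^ l) := by
    rw [inv_pow]
    field_simp
    ring
  rwa [e, map_div₀, h1, div_one, Valuation.map_neg]

theorem both_eq {a b M : Γ} (h0 : 0 < M) (ha : a ≤ M) (hb : b ≤ M) (h : a * b = M * M) :
    a = M := by
  refine le_antisymm ha (not_lt.1 fun hc => ?_)
  have : a * b < M * M := (mul_le_mul_right hb a).trans_lt (mul_lt_mul_of_pos_right hc h0)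
  exact absurd h this.ne

/-- the criterion for the main choice of the root -/
theorem crit {t y : E} (h1 : t - 1 ≠ 0) (h2 : t + 1 ≠ 0) (h3 : y + 1 ≠ 0) (h4 : w 2 = 1) {B : Γ}
    (a1 : w (y - t ^ l) ≤ B) (a2 : w (y - 1) * w ((t + 1) ^ l - t ^ l - 1) ≤ B)
    (a3 : w (y + 1) * w ((t - 1) ^ l - t ^ l + 1) ≤ B)
    (a4 : B ^ 2 < w l * (w (y + 1) * w (t - 1) ^ l) ^ 2) : Cl w l ((y - 1) / (y + 1)) := by
  refine ⟨(t - 1) / (t + 1), div_ne_zero h1 h2, ?_⟩
  have e : (y - 1) / (y + 1) / ((t - 1) / (t + 1)) ^ l - 1 =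
      (2 * (y - t ^ l) + (y - 1) * ((t + 1) ^ l - t ^ l - 1) -
        (y + 1) * ((t - 1) ^ l - t ^ l + 1)) / ((y + 1) * (t - 1) ^ l) := by
    rw [div_pow]
    field_simp
    ring
  have hD : 0 < w (y + 1) * w (t - 1) ^ l :=
    mul_pos (w.pos_iff.2 h3) (pow_pos (w.pos_iff.2 h1) _)
  rw [e, map_div₀, map_mul, map_pow, div_pow, div_lt_iff₀ (pow_pos hD _)]
  refine (pow_le_pow_left' ?_ 2).trans_lt a4
  refine w.map_sub_le (w.map_add_le ?_ ?_) ?_
  · rwa [map_mul, h4, one_mul]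
  · rwa [map_mul]
  · rwa [map_mul]

theorem le_of_two {a b c : E} (h4 : w 2 = 1) (h : w a ≤ w b) (e : b - a = 2 * c) : w c ≤ w b := by
  have := w.map_sub_le le_rfl h
  rwa [e, map_mul, h4, one_mul] at this

/-- the standing assumptions -/
structure Hyp (l : ℕ) (x y t ε : E) : Prop where
  hl : l.Prime
  h2 : 2 < l
  hw : w l < 1
  hx : x ≠ 0
  ht : t ^ 2 = 1 + x
  hy : y ^ 2 = x ^ l * (1 + ε) + 1
  hε : w ε < w l

variable {w} {x y t ε : E}

namespace Hyp

theorem odd (H : Hyp w l x y t ε) : Odd l := H.hl.odd_of_ne_two H.h2.ne'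

theorem two (H : Hyp w l x y t ε) : w 2 = 1 := val_two w H.odd H.hw

theorem pos (H : Hyp w l x y t ε) : 0 < w l := zero_le.trans_lt H.hε

theorem xpos (H : Hyp w l x y t ε) : 0 < w x := w.pos_iff.2 H.hx

theorem eps (H : Hyp w l x y t ε) : w (1 + ε) = 1 := w.map_one_add_of_lt (H.hε.trans H.hw)

theorem negt (H : Hyp w l x y t ε) : Hyp w l x y (-t) ε :=
  { H with ht := by rw [neg_sq, H.ht] }

theorem negy (H : Hyp w l x y t ε) : Hyp w l x (-y) t ε :=
  { H with hy := by rw [neg_sq, H.hy] }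

theorem hT (H : Hyp w l x y t ε) : w (t - 1) * w (t + 1) = w x := by
  rw [← map_mul]
  congr 1
  linear_combination H.ht

theorem hY (H : Hyp w l x y t ε) : w (y - 1) * w (y + 1) = w x ^ l := by
  rw [← map_mul, ← mul_one (w x ^ l), ← H.eps, ← map_pow, ← map_mul]
  congr 1
  linear_combination H.hy

theorem t1 (H : Hyp w l x y t ε) : t - 1 ≠ 0 := fun h => H.xpos.ne (by simp [← H.hT, h])

theorem t2 (H : Hyp w l x y t ε) : t + 1 ≠ 0 := fun h => H.xpos.ne (by simp [← H.hT, h])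

theorem y1 (H : Hyp w l x y t ε) : y - 1 ≠ 0 := fun h =>
  (pow_pos H.xpos l).ne (by simp [← H.hY, h])

theorem y2 (H : Hyp w l x y t ε) : y + 1 ≠ 0 := fun h =>
  (pow_pos H.xpos l).ne (by simp [← H.hY, h])

theorem hAB (H : Hyp w l x y t ε) :
    w (y - t ^ l) * w (y + t ^ l) = w (x ^ l * ε - ((1 + x) ^ l - 1 ^ l - x ^ l)) := by
  rw [← map_mul, ← H.ht, ← pow_mul, mul_comm 2 l, pow_mul, one_pow]
  congr 1
  linear_combination H.hy

theorem ylep (H : Hyp w l x y t ε) {M : Γ} (h1 : 1 ≤ M) (h : w x ^ l ≤ M ^ 2) : w y ≤ M := by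
  refine (pow_le_pow_iff_left₀ zero_le zero_le two_ne_zero).1 ?_
  rw [← map_pow, H.hy]
  refine w.map_add_le ?_ ?_
  · rwa [map_mul, H.eps, mul_one, map_pow]
  · rw [map_one]
    exact one_le_pow_of_one_le' h1 _

theorem ha (H : Hyp w l x y t ε) {M : Γ} (h1 : 1 ≤ M) (h : w t ≤ M) :
    w ((t + 1) ^ l - t ^ l - 1) ≤ w l * M ^ l := by
  have := binom w H.hl (u := t) (v := 1) h (by rwa [map_one])
  rw [one_pow, map_one, mul_one, mul_assoc] at this
  refine this.trans (mul_le_mul_right ?_ _)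
  refine (mul_le_mul_left h _).trans ?_
  rw [← pow_succ']
  exact pow_le_pow_right' h1 (by have := H.h2; omega)

theorem hb (H : Hyp w l x y t ε) {M : Γ} (h1 : 1 ≤ M) (h : w t ≤ M) :
    w ((t - 1) ^ l - t ^ l + 1) ≤ w l * M ^ l := by
  have := H.negt.ha h1 (by rwa [Valuation.map_neg])
  rw [← Valuation.map_neg, H.odd.neg_pow, show -t + 1 = -(t - 1) by ring, H.odd.neg_pow] at this
  convert this using 2
  ring

theorem caseA (H : Hyp w l x y t ε) (h1 : 1 ≤ w t) (h2 : w x = w t * w t)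
    (h3 : w (y - t ^ l) ≤ w (y + t ^ l)) : Cl w l ((y - 1) / (y + 1)) := by
  have T0 : 0 < w t := zero_lt_one.trans_le h1
  have Tl : 1 ≤ w t ^ l := one_le_pow_of_one_le' h1 _
  have Tl0 : 0 < w t ^ l := pow_pos T0 _
  have X1 : 1 ≤ w x := h2 ▸ one_le_mul h1 h1
  have Xl : w x ^ l = w t ^ l * w t ^ l := by rw [h2, mul_pow]
  have b1 : w (t - 1) = w t :=
    both_eq T0 (w.map_sub_le le_rfl (by rwa [map_one])) (w.map_add_le le_rfl (by rwa [map_one]))
      (H.hT.trans h2)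
  have b2 : w y ≤ w t ^ l := H.ylep Tl (by rw [Xl, sq])
  have b3 : w (y - 1) ≤ w t ^ l := w.map_sub_le b2 (by rwa [map_one])
  have b4 : w (y + 1) = w t ^ l :=
    both_eq Tl0 (w.map_add_le b2 (by rwa [map_one])) b3 (by rw [mul_comm, H.hY, Xl])
  have b5 : w t ^ l ≤ w (y + t ^ l) := by
    rw [← map_pow]
    exact le_of_two w H.two h3 (by ring)
  have b6 : w (y - t ^ l) * w t ^ l ≤ w l * w t ^ l * w t ^ l := by
    refine (mul_le_mul_right b5 _).trans ?_
    rw [H.hAB, mul_assoc, ← Xl]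
    refine w.map_sub_le ?_ ?_
    · rw [map_mul, map_pow, mul_comm]
      exact mul_le_mul_left H.hε.le _
    · refine (binom w H.hl (by rwa [map_one]) le_rfl).trans ?_
      rw [map_one, mul_one, mul_assoc, ← pow_succ']
      exact mul_le_mul_right (pow_le_pow_right' X1 (by have := H.h2; omega)) _
  refine crit w H.t1 H.t2 H.y2 H.two (B := w l * (w t ^ l * w t ^ l)) ?_ ?_ ?_ ?_
  · refine (le_of_mul_le_mul_right b6 Tl0).trans (mul_le_mul_right ?_ _)
    exact le_mul_of_one_le_left' Tl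
  · rw [mul_left_comm]
    exact mul_le_mul' b3 (H.ha h1 le_rfl)
  · rw [mul_left_comm]
    exact mul_le_mul' b4.le (H.hb h1 le_rfl)
  · rw [b4, b1, mul_pow]
    exact mul_lt_mul_of_pos_right (sq_lt le_rfl H.pos H.hw) (pow_pos (mul_pos Tl0 Tl0) _)

theorem caseB (H : Hyp w l x y t ε) (h1 : w t < 1)
    (h3 : w (y - t ^ l) ≤ w (y + t ^ l)) : Cl w l ((y - 1) / (y + 1)) := by
  have b0 : w (t + 1) = 1 := by rw [add_comm, w.map_one_add_of_lt h1]
  have b1 : w (t - 1) = 1 := by rw [w.map_sub_swap, w.map_one_sub_of_lt h1]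
  have h2 : w x = 1 := by rw [← H.hT, b0, b1, mul_one]
  have b2 : w y ≤ 1 := H.ylep le_rfl (by simp [h2])
  have b3 : w (y - 1) ≤ 1 := w.map_sub_le b2 (by simp)
  have b4 : w (y + 1) = 1 :=
    both_eq zero_lt_one (w.map_add_le b2 (by simp)) b3 (by rw [mul_comm, H.hY, h2]; simp)
  have tt : w (t ^ 2) < 1 := by
    rw [map_pow]
    exact pow_lt_one' h1 two_ne_zero
  have b6 : w (y - t ^ l) ^ 2 < w l := by
    rw [sq]
    refine (mul_le_mul_right h3 _).trans_lt ?_
    rw [H.hAB]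
    refine w.map_sub_lt ?_ ?_
    · rw [map_mul, map_pow, h2, one_pow, one_mul]
      exact H.hε
    · have := binom w H.hl (u := t ^ 2) (v := -1) tt.le (by simp)
      rw [one_pow, Valuation.map_neg, map_one, mul_one, mul_one, H.odd.neg_one_pow,
        ← Valuation.map_neg, H.ht, add_neg_cancel_comm] at this
      refine lt_of_le_of_lt (le_of_eq_of_le ?_ this) ?_
      · congr 1
        ring
      · exact mul_lt_of_lt_one_right H.pos (H.ht ▸ tt)
  refine crit w H.t1 H.t2 H.y2 H.two (B := max (w (y - t ^ l)) (w l)) (le_max_left _ _) ?_ ?_ ?_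
  · refine le_max_of_le_right ((mul_le_of_le_one_left' b3).trans ?_)
    simpa using H.ha le_rfl h1.le
  · refine le_max_of_le_right ((mul_le_of_le_one_left' b4.le).trans ?_)
    simpa using H.hb le_rfl h1.le
  · rw [b4, b1, one_pow, mul_one, one_pow, mul_one]
    rcases max_choice (w (y - t ^ l)) (w l) with e | e <;> rw [e]
    · exact b6
    · exact sq_lt le_rfl H.pos H.hw

theorem small (H : Hyp w l x y t ε) (h1 : w x < 1) (h3 : w (y - 1) ≤ w (y + 1)) :
    w (y + 1) = 1 ∧ w (y - 1) = w x ^ l := by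
  have b2 : w y ≤ 1 := H.ylep le_rfl (by rw [one_pow]; exact pow_le_one' h1.le _)
  have b4 : w (y + 1) = 1 := by
    refine le_antisymm (w.map_add_le b2 (by simp)) ?_
    rw [← map_one w]
    exact le_of_two w H.two h3 (by ring)
  exact ⟨b4, by rw [← H.hY, b4, mul_one]⟩

theorem caseC (H : Hyp w l x y t ε) (h1 : w x < 1) (h3 : w (y - 1) ≤ w (y + 1))
    (h4 : (w x ^ l) ^ 2 < w l) : Cl w l ((y - 1) / (y + 1)) := by
  obtain ⟨b4, b5⟩ := H.small h1 h3
  have two0 : (2 : E) ≠ 0 := w.pos_iff.1 (H.two ▸ zero_lt_one)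
  have xl : x ^ l ≠ 0 := pow_ne_zero _ H.hx
  have y2 := H.y2
  refine ⟨x / 2 ^ 2, div_ne_zero H.hx (pow_ne_zero _ two0), ?_⟩
  have e : (y - 1) / (y + 1) / (x / 2 ^ 2) ^ l - 1 =
      (ε * (2 ^ l) ^ 2 + (2 ^ l - 2) * (2 ^ l + 2) - (y - 1) * (y - 1 + 2 ^ 2)) / (y + 1) ^ 2 := by
    rw [div_pow, ← pow_mul, mul_comm 2 l, pow_mul]
    field_simp
    linear_combination (2 ^ l) ^ 2 * H.hy
  have c1 : w (2 ^ l - 2) ≤ w l := by
    have := binom w H.hl (u := 1) (v := 1) (M := 1) (by simp) (by simp)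
    rw [one_add_one_eq_two, one_pow, sub_sub, one_add_one_eq_two] at this
    simpa using this
  have c2 : w (2 ^ l + 2) ≤ 1 := w.map_add_le (by rw [map_pow, H.two, one_pow]) H.two.le
  have c3 : w (y - 1 + 2 ^ 2) ≤ 1 :=
    w.map_add_le (h3.trans b4.le) (by rw [map_pow, H.two, one_pow])
  rw [e, map_div₀, map_pow, b4, one_pow, div_one]
  refine (pow_le_pow_left' (b := max (w x ^ l) (w l)) ?_ 2).trans_lt ?_
  · refine w.map_sub_le (le_max_of_le_right (w.map_add_le ?_ ?_)) (le_max_of_le_left ?_)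
    · rw [map_mul, map_pow, map_pow, H.two, one_pow, one_pow, mul_one]
      exact H.hε.le
    · rw [map_mul]
      exact (mul_le_of_le_one_right' c2).trans c1
    · rw [map_mul, b5]
      exact mul_le_of_le_one_right' c3
  · rcases max_choice (w x ^ l) (w l) with e | e <;> rw [e]
    · exact h4
    · exact sq_lt le_rfl H.pos H.hw

theorem tone (H : Hyp w l x y t ε) (h1 : w x < 1) : w t = 1 := by
  have : w t ^ 2 = 1 := by rw [← map_pow, H.ht, w.map_one_add_of_lt h1]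
  exact (pow_eq_one_iff_left two_ne_zero).1 this

theorem caseD (H : Hyp w l x y t ε) (h1 : w x < 1) (h3 : w (y - 1) ≤ w (y + 1))
    (h2 : w (t - 1) ≤ w (t + 1)) (h4 : w l ≤ (w x ^ l) ^ 2) : Cl w l ((y - 1) / (y + 1)) := by
  obtain ⟨b4, b5⟩ := H.small h1 h3
  have T1 := H.tone h1
  have b0 : w (t + 1) = 1 := by
    refine le_antisymm (w.map_add_le T1.le (by simp)) ?_
    rw [← map_one w]
    exact le_of_two w H.two h2 (by ring)
  have b1 : w (t - 1) = w x := by rw [← H.hT, b0, mul_one]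
  have xl : w x ^ l ≤ w x := pow_le_of_le_one zero_le h1.le H.hl.ne_zero
  have c1 : w (y + t ^ l) = 1 := by
    have e : y + t ^ l = 2 + ((y - 1) + (t ^ l - 1 ^ l)) := by
      rw [one_pow]
      ring
    rw [e, w.map_add_eq_of_lt_left, H.two]
    rw [H.two]
    refine w.map_add_lt (b5 ▸ xl.trans_lt h1) ?_
    exact (val_pow_sub_pow_le w T1.le (by simp) l).trans_lt (b1 ▸ h1)
  refine crit w H.t1 H.t2 H.y2 H.two (B := w l * w x) ?_ ?_ ?_ ?_
  · rw [← mul_one (w (y - t ^ l)), ← c1, H.hAB]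
    refine w.map_sub_le ?_ ?_
    · rw [map_mul, map_pow, mul_comm]
      exact mul_le_mul' H.hε.le xl
    · simpa using binom w H.hl (u := 1) (v := x) (M := 1) (by simp) h1.le
  · rw [mul_comm, b5]
    exact mul_le_mul' (by simpa using H.ha le_rfl T1.le) xl
  · have := binom w H.hl (u := t - 1) (v := 1) (M := 1) (b1 ▸ h1.le) (by simp)
    rw [sub_add_cancel, one_pow, one_pow, map_one, mul_one, mul_one, b1,
      ← Valuation.map_neg] at this
    rw [b4, one_mul]
    convert this using 2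
    ring
  · rw [b4, b1, one_mul, mul_pow, sq, mul_assoc]
    refine mul_lt_mul_of_pos_left (lt_of_lt_of_le ?_ h4) H.pos
    exact mul_lt_of_lt_one_right H.pos (pow_lt_one' h1 two_ne_zero)

theorem flip (H : Hyp w l x y t ε) (h : Cl w l ((-y - 1) / (-y + 1))) :
    Cl w l ((y - 1) / (y + 1)) := by
  have := h.inv w H.hw
  rwa [inv_div, show -y + 1 = -(y - 1) by ring, show -y - 1 = -(y + 1) by ring,
    neg_div_neg_eq] at this

theorem big (H : Hyp w l x y t ε) (h1 : 1 ≤ w x) (h3 : w (y - t ^ l) ≤ w (y + t ^ l)) :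
    Cl w l ((y - 1) / (y + 1)) := by
  rcases lt_or_ge (w t) 1 with h | h
  · exact H.caseB h h3
  refine H.caseA h ?_ h3
  rw [← sq]
  rcases h1.eq_or_lt with h2 | h2
  · refine le_antisymm (h2 ▸ one_le_pow_of_one_le' h _) ?_
    rw [← map_pow, H.ht]
    exact w.map_add_le (by rwa [map_one]) le_rfl
  · rw [← map_pow, H.ht, w.map_add_eq_of_lt_right (by rwa [map_one])]

theorem sml (H : Hyp w l x y t ε) (h1 : w x < 1) (h3 : w (y - 1) ≤ w (y + 1)) :
    Cl w l ((y - 1) / (y + 1)) := by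
  rcases lt_or_ge ((w x ^ l) ^ 2) (w l) with h4 | h4
  · exact H.caseC h1 h3 h4
  rcases le_total (w (t - 1)) (w (t + 1)) with h2 | h2
  · exact H.caseD h1 h3 h2 h4
  · refine H.negt.caseD h1 h3 ?_ h4
    rwa [show -t + 1 = -(t - 1) by ring, show -t - 1 = -(t + 1) by ring, Valuation.map_neg,
      Valuation.map_neg]

theorem main (H : Hyp w l x y t ε) : Cl w l ((y - 1) / (y + 1)) := by
  rcases lt_or_ge (w x) 1 with h1 | h1
  · rcases le_total (w (y - 1)) (w (y + 1)) with h3 | h3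
    · exact H.sml h1 h3
    · refine H.flip (H.negy.sml h1 ?_)
      rwa [show -y + 1 = -(y - 1) by ring, show -y - 1 = -(y + 1) by ring, Valuation.map_neg,
        Valuation.map_neg]
  · rcases le_total (w (y - t ^ l)) (w (y + t ^ l)) with h3 | h3
    · exact H.big h1 h3
    · refine H.negt.big h1 ?_
      rwa [H.odd.neg_pow, sub_neg_eq_add, ← sub_eq_add_neg]

end Hyp

end Pool.Agent.MP_14ad9d_nt.Full.J5aAux
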