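import Pool.Agent.MP_14ad9d_nt.Full.Sym2
import Pool.Agent.MP_14ad9d_nt.Full.J5a1

set_option autoImplicit false

open NumberField IsDedekindDomain

namespace Pool.Agent.MP_14ad9d_nt.Full

open Sym1Aux

/-- the image of a point under the descent map is close to an `l`-th power -/
theorem wild_pt {l : ℕ} [Fact l.Prime] (hl : 2 < l) {E Γ : Type} [Field E]
    [LinearOrderedCommGroupWithZero Γ] (w : Valuation E Γ) (hw : w l < 1) {x y t ε : E}
    (hx : x ≠ 0) (ht : t ^ 2 = 1 + x) (hy : y ^ 2 = x ^ l * (1 + ε) + 1) (hε : w ε < w l) :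
    ∃ γ : E, γ ≠ 0 ∧ w ((y - 1) / (y + 1) / γ ^ l - 1) ^ 2 < w l :=
  J5aAux.Hyp.main ⟨Fact.out, hl, hw, hx, ht, hy, hε⟩

/-- every unit at a prime above `l` is an `l`-th power in the residue field -/
theorem J5aAux.res_root {l : ℕ} [Fact l.Prime] {K : Type} [Field K] [NumberField K] {v : Pr K}
    (hv : v.valuation K (l : K) < 1) {d : K} (hd : v.valuation K d = 1) :
    ∃ u : K, v.valuation K u = 1 ∧ v.valuation K (d - u ^ l) < 1 := by
  have := v.isMaximal
  let := Ideal.Quotient.field v.asIdeal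
  have := finite_res v
  have hl : (l : 𝓞 K) ∈ v.asIdeal := (val_int_lt v _).1 (by simpa using hv)
  have : CharP (𝓞 K ⧸ v.asIdeal) l := (CharP.charP_iff_prime_eq_zero Fact.out).2 (by
    rw [← map_natCast (Ideal.Quotient.mk v.asIdeal)]
    exact Ideal.Quotient.eq_zero_iff_mem.2 hl)
  obtain ⟨a, ha⟩ := exists_approx v hd.le
  obtain ⟨b, hb⟩ := surjective_frobenius (𝓞 K ⧸ v.asIdeal) l (Ideal.Quotient.mk _ a)
  obtain ⟨u, rfl⟩ := Ideal.Quotient.mk_surjective b
  rw [frobenius_def, ← map_pow, eq_comm, Ideal.Quotient.eq, ← val_int_lt] at hb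
  have h1 : v.valuation K (d - (u : K) ^ l) < 1 := val_trans _ ha (by simpa using hb)
  refine ⟨u, ?_, h1⟩
  have h2 := val_eq_one_of _ hd h1
  rw [map_pow] at h2
  exact (pow_eq_one_iff_left (Fact.out : l.Prime).ne_zero).1 h2

/-- the key comparison of valuations -/
theorem J5aAux.key {l : ℕ} (hl : l.Prime) {E Γ : Type} [Field E]
    [LinearOrderedCommGroupWithZero Γ] (w : Valuation E Γ) {d γ : E} (hγ : γ ≠ 0)
    (h1 : w (d - 1) < 1) (h2 : w (d / γ ^ l - 1) < w (d - 1)) (h3 : w l < w (d - 1)) :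
    w (γ - 1) ^ l = w (d - 1) := by
  have a1 : w d = 1 := val_eq_one_of w (map_one w) (val_symm w h1)
  have a2 : w (d / γ ^ l) = 1 := val_eq_one_of w (map_one w) (val_symm w (h2.trans h1))
  have a3 : w (γ ^ l) = 1 := by rwa [map_div₀, a1, one_div, inv_eq_one] at a2
  have a4 : w γ = 1 := by
    rw [map_pow] at a3
    exact (pow_eq_one_iff_left hl.ne_zero).1 a3
  have a5 : w (d - γ ^ l) < w (d - 1) := by
    have e : d - γ ^ l = (d / γ ^ l - 1) * γ ^ l := by field_simp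
    rwa [e, map_mul, a3, mul_one]
  have a6 : w (γ - 1) ≤ 1 := w.map_sub_le a4.le (by simp)
  have a7 := J5aAux.binom w hl (u := γ - 1) (v := 1) a6 (by simp)
  rw [sub_add_cancel, one_pow, one_pow, map_one, mul_one, mul_one] at a7
  have a8 := (a7.trans (mul_le_of_le_one_right' a6)).trans_lt h3
  rw [← map_pow]
  apply w.map_eq_of_sub_lt
  have e : (γ - 1) ^ l - (d - 1) = -((d - γ ^ l) + (γ ^ l - (γ - 1) ^ l - 1)) := by ring
  rw [e, Valuation.map_neg]
  exact w.map_add_lt a5 a8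

/-- descent of closeness along an extension whose ramification index is prime to `l` -/
theorem wild_down {l : ℕ} [Fact l.Prime] (hl : 2 < l) {K E : Type} [Field K] [NumberField K]
    [Field E] [NumberField E] [Algebra K E] {ζ : K} (hζ : IsPrimitiveRoot ζ l) {v : Pr K}
    (h1 : ord v (1 - ζ) = 1) {w : Pr E} (hw : w.asIdeal.LiesOver v.asIdeal)
    (he : ¬l ∣ w.asIdeal.ramificationIdx (𝓞 K)) {d : K} (hd : d ≠ 0) {γ : E} (hγ : γ ≠ 0)
    (h : w.valuation E (algebraMap K E d / γ ^ l - 1) ^ 2 < w.valuation E (l : E)) :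
    NearAt l ζ ((l + 1) / 2) v d := by
  have hp : l.Prime := Fact.out
  have hodd : Odd l := hp.odd_of_ne_two hl.ne'
  have inj := (algebraMap K E).injective
  set e := w.asIdeal.ramificationIdx (𝓞 K) with hedef
  have e0 : e ≠ 0 := fun h0 => he (h0 ▸ dvd_zero l)
  have π0 : 1 - ζ ≠ 0 := sub_ne_zero.2 (hζ.ne_one hp.one_lt).symm
  have vπ : v.valuation K (1 - ζ) = WithZero.exp (-1) := by rw [val_eq_exp v π0, h1]
  have vπ1 : v.valuation K (1 - ζ) < 1 := (val_lt_one_iff v π0).2 (by omega)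
  have vl : v.valuation K (l : K) < 1 := by
    rw [val_ell hζ]
    exact pow_lt_one' vπ1 (by omega)
  have wl : w.valuation E (l : E) = v.valuation K (l : K) ^ e := by
    rw [← Sym2Aux.val_over hw, map_natCast (algebraMap K E)]
  have wl1 : w.valuation E (l : E) < 1 := wl ▸ pow_lt_one' vl e0
  have d0 : algebraMap K E d ≠ 0 := by simpa using hd
  have a1 : ord w (algebraMap K E d / γ ^ l) = 0 :=
    (val_eq_one_iff w (div_ne_zero d0 (pow_ne_zero _ hγ))).1
      (val_eq_one_of _ (map_one _) (val_symm _ (J5aAux.lt_one_of_sq h wl1)))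
  rw [div_eq_mul_inv, ord_mul w d0 (inv_ne_zero (pow_ne_zero _ hγ)), ord_inv, ord_pow,
    ord_over hw, ← hedef] at a1
  have hpz : Prime (l : ℤ) := Nat.prime_iff_prime_int.1 hp
  have he' : ¬(l : ℤ) ∣ (e : ℤ) := fun h => he (Int.natCast_dvd_natCast.1 h)
  obtain ⟨k, hk⟩ : (l : ℤ) ∣ ord v d :=
    (hpz.dvd_or_dvd (⟨ord w γ, by linear_combination a1⟩ : (l : ℤ) ∣ e * ord v d)).resolve_left he'
  have πk : (1 - ζ) ^ k ≠ 0 := zpow_ne_zero _ π0
  have a2 : v.valuation K (d / ((1 - ζ) ^ k) ^ l) = 1 := by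
    rw [val_eq_one_iff v (div_ne_zero hd (pow_ne_zero _ πk)), div_eq_mul_inv,
      ord_mul v hd (inv_ne_zero (pow_ne_zero _ πk)), ord_inv, ord_pow, ord_zpow, h1, hk]
    ring
  obtain ⟨u, hu, hu'⟩ := J5aAux.res_root vl a2
  have u0 : u ≠ 0 := by
    rintro rfl
    simp at hu
  have δ0 : (1 - ζ) ^ k * u ≠ 0 := mul_ne_zero πk u0
  have a3 : v.valuation K (d / ((1 - ζ) ^ k * u) ^ l - 1) < 1 := by
    have e1 : d / ((1 - ζ) ^ k * u) ^ l - 1 = (d / ((1 - ζ) ^ k) ^ l - u ^ l) / u ^ l := by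
      rw [mul_pow]
      field_simp
    rwa [e1, map_div₀, map_pow, hu, one_pow, div_one]
  refine ⟨_, δ0, not_lt.1 fun hc => ?_⟩
  generalize (1 - ζ) ^ k * u = δ at δ0 a3 hc
  have δ0' : algebraMap K E δ ≠ 0 := by simpa using δ0
  have c0 : d / δ ^ l - 1 ≠ 0 := (Valuation.pos_iff _).1 (zero_le.trans_lt hc)
  have i0 := (val_lt_one_iff v c0).1 a3
  rw [vπ, val_eq_exp v c0, ← WithZero.exp_nsmul, WithZero.exp_lt_exp] at hc
  have wd : w.valuation E (algebraMap K E (d / δ ^ l) - 1) =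
      WithZero.exp (e • -ord v (d / δ ^ l - 1)) := by
    rw [← map_one (algebraMap K E), ← map_sub, Sym2Aux.val_over hw, val_eq_exp v c0,
      WithZero.exp_nsmul]
  rw [val_ell hζ, vπ, ← WithZero.exp_nsmul, ← WithZero.exp_nsmul] at wl
  generalize ord v (d / δ ^ l - 1) = i at i0 hc wd
  obtain ⟨m, hm⟩ := hodd
  have m1 : (l + 1) / 2 = m + 1 := by omega
  have m2 : l - 1 = 2 * m := by omega
  have epos : (0 : ℤ) < e := by omega
  simp only [m1, m2, nsmul_eq_mul] at hc wd wl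
  push_cast at hc wl
  have im : i ≤ m := by omega
  have key := J5aAux.key hp (w.valuation E) (d := algebraMap K E (d / δ ^ l))
    (γ := γ / algebraMap K E δ) (div_ne_zero hγ δ0') ?_ ?_ ?_
  · have g0 : γ / algebraMap K E δ - 1 ≠ 0 := by
      intro h0
      rw [h0, map_zero, zero_pow hp.ne_zero, wd] at key
      exact WithZero.exp_ne_zero key.symm
    rw [wd, val_eq_exp w g0, ← WithZero.exp_nsmul, WithZero.exp_inj, nsmul_eq_mul] at key
    have : (l : ℤ) ∣ i := (hpz.dvd_or_dvd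
      (⟨ord w (γ / algebraMap K E δ - 1), by linear_combination key⟩ :
        (l : ℤ) ∣ e * i)).resolve_left he'
    have := Int.le_of_dvd i0 this
    omega
  · rw [wd, ← WithZero.exp_zero, WithZero.exp_lt_exp]
    nlinarith
  · have e1 : algebraMap K E (d / δ ^ l) / (γ / algebraMap K E δ) ^ l =
        algebraMap K E d / γ ^ l := by
      rw [map_div₀, map_pow, div_pow]
      field_simp
    rw [e1]
    refine lt_of_pow_lt_pow_left₀ 2 zero_le (h.trans_le ?_)
    rw [wd, wl, ← WithZero.exp_nsmul, WithZero.exp_le_exp, nsmul_eq_mul]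
    push_cast
    nlinarith
  · rw [wd, wl, WithZero.exp_lt_exp]
    nlinarith

end Pool.Agent.MP_14ad9d_nt.Full
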