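import Pool.Agent.MP_14ad9d_nt.Full.CDefs

set_option autoImplicit false
set_option linter.unusedSectionVars false

open Polynomial

namespace Pool.Agent.MP_14ad9d_nt.Full

theorem FF_monic (l : ℕ) [Fact l.Prime] {k : Type} [Field k] (s : kˣ) : (FF l s).Monic :=
  monic_X_pow_add_C _ (Fact.out : l.Prime).ne_zero

theorem FF_natDegree (l : ℕ) [Fact l.Prime] {k : Type} [Field k] (s : kˣ) :
    (FF l s).natDegree = l :=
  natDegree_X_pow_add_C

theorem FF_separable (l : ℕ) [Fact l.Prime] {k : Type} [Field k] [CharZero k] (s : kˣ) :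
    (FF l s).Separable := by
  have h := separable_X_pow_sub_C (n := l) (-(s : k) ^ 2)
    (Nat.cast_ne_zero.2 (Fact.out : l.Prime).ne_zero) (by simp)
  rwa [C_neg, sub_neg_eq_add] at h

namespace JBaseAux

variable {l : ℕ} [Fact l.Prime] [Fact (2 < l)] {k : Type} [Field k] {s : kˣ}

theorem l_odd : l % 2 = 1 :=
  (Fact.out : l.Prime).eq_two_or_odd.resolve_left (Fact.out : 2 < l).ne'

theorem norm_eq (z : CR l s) : QuadraticAlgebra.norm z = z.re ^ 2 - FF l s * z.im ^ 2 := by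
  rw [QuadraticAlgebra.norm_def]
  ring

theorem natDegree_norm {z : CR l s} (h : z.im ≠ 0) : (QuadraticAlgebra.norm z).natDegree =
    max (2 * z.re.natDegree) (2 * z.im.natDegree + l) := by
  have h1 : (z.re ^ 2).natDegree = 2 * z.re.natDegree := natDegree_pow _ _
  have h2 : (FF l s * z.im ^ 2).natDegree = 2 * z.im.natDegree + l := by
    rw [natDegree_mul (FF_monic l s).ne_zero (pow_ne_zero _ h), natDegree_pow, FF_natDegree,
      add_comm]
  have h3 := l_odd (l := l)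
  rw [norm_eq]
  rcases lt_or_gt_of_ne (show 2 * z.re.natDegree ≠ 2 * z.im.natDegree + l by omega) with h4 | h4
  · rw [natDegree_sub_eq_right_of_natDegree_lt (by omega), h2, max_eq_right h4.le]
  · rw [natDegree_sub_eq_left_of_natDegree_lt (by omega), h1, max_eq_left h4.le]

theorem im_eq_zero {z : CR l s} (h : (QuadraticAlgebra.norm z).natDegree < l) : z.im = 0 := by
  by_contra h0
  rw [natDegree_norm h0] at h
  omega

theorem norm_ne_zero {z : CR l s} (h : z ≠ 0) : QuadraticAlgebra.norm z ≠ 0 := fun e => by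
  have h0 : z.im = 0 := im_eq_zero (by rw [e, natDegree_zero]; exact (Fact.out : l.Prime).pos)
  rw [norm_eq, h0] at e
  exact h (QuadraticAlgebra.ext (by simpa using e) h0)

theorem noZeroDiv : NoZeroDivisors (CR l s) := ⟨fun {x y} h => by
  by_contra hc
  rw [not_or] at hc
  refine mul_ne_zero (norm_ne_zero hc.1) (norm_ne_zero hc.2) ?_
  rw [← map_mul, h, QuadraticAlgebra.norm_zero]⟩

theorem gen_mem₁ (u v : k[X]) : (⟨u, 0⟩ : CR l s) ∈ mum l s u v :=
  Ideal.subset_span (Set.mem_insert _ _)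

theorem gen_mem₂ (u v : k[X]) : (⟨-v, 1⟩ : CR l s) ∈ mum l s u v :=
  Ideal.subset_span (Set.mem_insert_of_mem _ rfl)

theorem mum_le {u v : k[X]} {I : Ideal (CR l s)} (h₁ : (⟨u, 0⟩ : CR l s) ∈ I)
    (h₂ : (⟨-v, 1⟩ : CR l s) ∈ I) : mum l s u v ≤ I :=
  Ideal.span_le.2 (Set.insert_subset h₁ (Set.singleton_subset_iff.2 h₂))

theorem mem_mum_of {u v : k[X]} {z : CR l s} (h : u ∣ z.re + v * z.im) : z ∈ mum l s u v := by
  obtain ⟨c, hc⟩ := h
  refine Ideal.mem_span_pair.2 ⟨⟨c, 0⟩, ⟨z.im, 0⟩, QuadraticAlgebra.ext ?_ ?_⟩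
  · simp only [QuadraticAlgebra.re_add, QuadraticAlgebra.re_mul]
    linear_combination -hc
  · simp

theorem mem_mum {u v : k[X]} (h : u ∣ v ^ 2 - FF l s) (z : CR l s) :
    z ∈ mum l s u v ↔ u ∣ z.re + v * z.im := by
  refine ⟨fun hz => ?_, mem_mum_of⟩
  obtain ⟨a, b, rfl⟩ := Ideal.mem_span_pair.1 hz
  obtain ⟨w, hw⟩ := h
  refine ⟨a.re + v * a.im - w * b.im, ?_⟩
  simp only [QuadraticAlgebra.re_add, QuadraticAlgebra.re_mul, QuadraticAlgebra.im_add,
    QuadraticAlgebra.im_mul]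
  linear_combination -b.im * hw

theorem mum_congr {u v v' : k[X]} (h : u ∣ v - v') : mum l s u v = mum l s u v' :=
  le_antisymm
    (mum_le (gen_mem₁ _ _) (mem_mum_of (by simpa [neg_add_eq_sub] using dvd_sub_comm.1 h)))
    (mum_le (gen_mem₁ _ _) (mem_mum_of (by simpa [neg_add_eq_sub] using h)))

theorem mum_assoc {u u' : k[X]} (h : Associated u u') (v : k[X]) :
    mum l s u v = mum l s u' v :=
  le_antisymm (mum_le (mem_mum_of (by simpa using h.symm.dvd)) (gen_mem₂ _ _))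
    (mum_le (mem_mum_of (by simpa using h.dvd)) (gen_mem₂ _ _))

theorem normalise {u v : k[X]} (hu : u ≠ 0) (h : u ∣ v ^ 2 - FF l s) :
    ∃ u' v' : k[X], IsMum l s u' v' ∧ u'.natDegree = u.natDegree ∧
      mum l s u' v' = mum l s u v := by
  classical
  have hm : (normalize u).Monic := monic_normalize hu
  have ha : Associated (normalize u) u := normalize_associated u
  have hd : normalize u ∣ v %ₘ normalize u - v :=
    ⟨-(v /ₘ normalize u), by linear_combination modByMonic_add_div v (normalize u)⟩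
  refine ⟨normalize u, v %ₘ normalize u, ⟨hm, degree_modByMonic_lt v hm, ?_⟩,
    natDegree_eq_of_degree_eq (degree_eq_degree_of_associated ha),
    (mum_congr hd).trans (mum_assoc ha v)⟩
  have e : (v %ₘ normalize u) ^ 2 - FF l s =
      (v %ₘ normalize u - v) * (v %ₘ normalize u + v) + (v ^ 2 - FF l s) := by ring
  rw [e]
  exact dvd_add (hd.mul_right _) (ha.dvd.trans h)

theorem mum_mul_neg [CharZero k] {u v : k[X]} (h : u ∣ v ^ 2 - FF l s) :
    mum l s u v * mum l s u (-v) = Ideal.span {⟨u, 0⟩} := by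
  obtain ⟨w, hw⟩ := h
  refine le_antisymm ?_ ?_
  · rw [mum, mum, Ideal.span_pair_mul_span_pair, Ideal.span_le]
    rintro z (rfl | rfl | rfl | rfl)
    · exact Ideal.mem_span_singleton.2 (dvd_mul_right _ _)
    · exact Ideal.mem_span_singleton.2 (dvd_mul_right _ _)
    · exact Ideal.mem_span_singleton.2 (dvd_mul_left _ _)
    · refine Ideal.mem_span_singleton.2 ⟨⟨-w, 0⟩, QuadraticAlgebra.ext ?_ ?_⟩
      · simp only [QuadraticAlgebra.re_mul]
        linear_combination -hw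
      · simp
  · obtain ⟨a, b, hab⟩ := FF_separable l s
    have hF : FF l s = v ^ 2 - u * w := by linear_combination -hw
    have hD : derivative (FF l s) =
        2 * v * derivative v - (derivative u * w + u * derivative w) := by
      rw [hF, derivative_sub, derivative_mul, pow_two, derivative_mul]
      ring
    have ht : (2 : k[X]) * C (2⁻¹ : k) = 1 := by
      rw [← map_ofNat C 2, ← C_mul, mul_inv_cancel₀ two_ne_zero, C_1]
    rw [hD] at hab
    have m₁ := Ideal.mul_mem_mul (gen_mem₁ (l := l) (s := s) u v) (gen_mem₁ u (-v))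
    have m₂ := Ideal.mul_mem_mul (gen_mem₁ (l := l) (s := s) u v) (gen_mem₂ u (-v))
    have m₃ := Ideal.mul_mem_mul (gen_mem₂ (l := l) (s := s) u v) (gen_mem₁ u (-v))
    have m₄ := Ideal.mul_mem_mul (gen_mem₂ (l := l) (s := s) u v) (gen_mem₂ u (-v))
    rw [Ideal.span_singleton_le_iff_mem]
    convert add_mem (add_mem
      (Ideal.mul_mem_left _ ⟨-(a * w) - b * derivative w, 0⟩ m₁)
      (Ideal.mul_mem_left _ ⟨a * v * C (2⁻¹ : k) + b * derivative v, 0⟩ (sub_mem m₂ m₃)))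
      (Ideal.mul_mem_left _ ⟨b * derivative u, 0⟩ m₄) using 1
    refine QuadraticAlgebra.ext ?_ ?_
    · simp only [QuadraticAlgebra.re_add, QuadraticAlgebra.re_mul, QuadraticAlgebra.re_sub,
        QuadraticAlgebra.im_mul, QuadraticAlgebra.im_sub]
      linear_combination -u * hab - u * a * v ^ 2 * ht + (u * a - b * derivative u) * hF
    · simp

theorem exists_form {I : Ideal (CR l s)} (hI : I ≠ ⊥) :
    ∃ d u v : k[X], d ≠ 0 ∧ IsMum l s u v ∧ I = Ideal.span {⟨d, 0⟩} * mum l s u v := by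
  let A : Ideal k[X] := (I.restrictScalars k[X]).map (QuadraticAlgebra.imₗ (FF l s) 0)
  let N : Ideal k[X] := I.comap (algebraMap k[X] (CR l s))
  obtain ⟨d, hd⟩ : ∃ d, A = Ideal.span {d} := (IsPrincipalIdealRing.principal A).principal
  obtain ⟨n, hn⟩ : ∃ n, N = Ideal.span {n} := (IsPrincipalIdealRing.principal N).principal
  have hA : ∀ z ∈ I, d ∣ z.im := fun z hz =>
    Ideal.mem_span_singleton.1 (hd ▸ (⟨z, hz, rfl⟩ : z.im ∈ A))
  have hN : ∀ p : k[X], (⟨p, 0⟩ : CR l s) ∈ I ↔ n ∣ p := fun p => by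
    rw [← Ideal.mem_span_singleton, ← hn]
    rfl
  obtain ⟨z₀, hz₀, e₀⟩ : d ∈ A := hd ▸ Ideal.mem_span_singleton_self d
  change z₀.im = d at e₀
  have hz₀ : z₀ ∈ I := hz₀
  have hn0 : n ≠ 0 := by
    obtain ⟨z, hz, h0⟩ := Submodule.exists_mem_ne_zero_of_ne_bot hI
    rintro rfl
    refine norm_ne_zero h0 (zero_dvd_iff.1 ((hN _).1 ?_))
    rw [← QuadraticAlgebra.algebraMap_eq, QuadraticAlgebra.algebraMap_norm_eq_mul_star]
    exact I.mul_mem_right _ hz
  obtain ⟨v, hv⟩ : d ∣ -z₀.re :=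
    dvd_neg.2 (by simpa using hA _ (I.mul_mem_left ⟨0, 1⟩ hz₀))
  obtain ⟨u, hu⟩ : d ∣ n := by simpa using hA _ (I.mul_mem_left ⟨0, 1⟩ ((hN n).2 dvd_rfl))
  have hd0 : d ≠ 0 := left_ne_zero_of_mul (hu ▸ hn0)
  have hu0 : u ≠ 0 := right_ne_zero_of_mul (hu ▸ hn0)
  have ez : z₀ = ⟨d, 0⟩ * ⟨-v, 1⟩ := QuadraticAlgebra.ext
    (by simp only [QuadraticAlgebra.re_mul]; linear_combination -hv) (by simp [e₀])
  have hdvd : u ∣ v ^ 2 - FF l s := by
    have h := I.mul_mem_right ⟨-v, -1⟩ hz₀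
    have e : z₀ * ⟨-v, -1⟩ = ⟨d * (v ^ 2 - FF l s), 0⟩ := by
      rw [ez]
      refine QuadraticAlgebra.ext ?_ ?_
      · simp only [QuadraticAlgebra.re_mul, QuadraticAlgebra.im_mul]
        ring
      · simp only [QuadraticAlgebra.re_mul, QuadraticAlgebra.im_mul]
        ring
    rw [e, hN, hu] at h
    exact (mul_dvd_mul_iff_left hd0).1 h
  obtain ⟨u', v', hm, -, e⟩ := normalise hu0 hdvd
  refine ⟨d, u', v', hd0, hm, ?_⟩
  rw [e]
  refine le_antisymm (fun z hz => ?_) ?_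
  · obtain ⟨c, hc⟩ := hA z hz
    have h := I.sub_mem hz (I.mul_mem_left ⟨c, 0⟩ hz₀)
    have e₁ : z - ⟨c, 0⟩ * z₀ = ⟨z.re + d * (v * c), 0⟩ := by
      rw [ez]
      refine QuadraticAlgebra.ext ?_ ?_
      · simp only [QuadraticAlgebra.re_mul, QuadraticAlgebra.im_mul, QuadraticAlgebra.re_sub]
        ring
      · simp only [QuadraticAlgebra.re_mul, QuadraticAlgebra.im_mul, QuadraticAlgebra.im_sub]
        linear_combination hc
    rw [e₁, hN, hu] at h
    obtain ⟨t, ht⟩ := h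
    refine Ideal.mem_span_singleton_mul.2 ⟨⟨u * t - v * c, c⟩, mem_mum_of ⟨t, by ring⟩, ?_⟩
    refine QuadraticAlgebra.ext ?_ ?_
    · simp only [QuadraticAlgebra.re_mul]
      linear_combination -ht
    · simp [hc]
  · refine Ideal.span_singleton_mul_le_iff.2 fun z hz => ?_
    obtain ⟨a, b, hz⟩ := Ideal.mem_span_pair.1 hz
    have e₂ : (⟨d, 0⟩ : CR l s) * ⟨u, 0⟩ = ⟨n, 0⟩ := QuadraticAlgebra.ext (by simp [hu]) (by simp)
    rw [← hz, mul_add, mul_left_comm, e₂, mul_left_comm, ← ez]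
    exact I.add_mem (I.mul_mem_left _ ((hN n).2 dvd_rfl)) (I.mul_mem_left _ hz₀)

end JBaseAux

instance domCR (l : ℕ) [Fact l.Prime] [Fact (2 < l)] {k : Type} [Field k] (s : kˣ) :
    IsDomain (CR l s) :=
  haveI := JBaseAux.noZeroDiv (l := l) (s := s)
  NoZeroDivisors.to_isDomain _

instance dedCR (l : ℕ) [Fact l.Prime] [Fact (2 < l)] {k : Type} [Field k] [CharZero k] (s : kˣ) :
    IsDedekindDomain (CR l s) := by
  refine (isDedekindDomain_iff_mul_inv_cancel (K := FractionRing (CR l s))).2 fun I hI => ?_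
  rw [FractionalIdeal.mul_inv_cancel_iff_isUnit]
  have key : ∀ x : FractionRing (CR l s), x ≠ 0 →
      IsUnit (FractionalIdeal.spanSingleton (nonZeroDivisors (CR l s)) x) := fun x hx =>
    IsUnit.of_mul_eq_one _ (FractionalIdeal.spanSingleton_mul_inv _ hx)
  have key' : ∀ p : k[X], p ≠ 0 → IsUnit ((Ideal.span {(⟨p, 0⟩ : CR l s)} : Ideal (CR l s)) :
      FractionalIdeal (nonZeroDivisors (CR l s)) (FractionRing (CR l s))) := fun p hp => by
    rw [FractionalIdeal.coeIdeal_span_singleton]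
    refine key _ ((map_ne_zero_iff _ (IsFractionRing.injective _ _)).2 fun h => hp ?_)
    exact congrArg QuadraticAlgebra.re h
  obtain ⟨a, J, ha, rfl⟩ := FractionalIdeal.exists_eq_spanSingleton_mul I
  have hJ : J ≠ ⊥ := by
    rintro rfl
    exact hI (by simp)
  obtain ⟨d, u, v, hd, hm, rfl⟩ := JBaseAux.exists_form hJ
  rw [FractionalIdeal.coeIdeal_mul]
  refine (key _ (inv_ne_zero ((map_ne_zero_iff _ (IsFractionRing.injective _ _)).2 ha))).mul
    ((key' d hd).mul ?_)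
  have h := key' u hm.1.ne_zero
  rw [← JBaseAux.mum_mul_neg hm.2.2, FractionalIdeal.coeIdeal_mul] at h
  exact isUnit_of_mul_isUnit_left h

end Pool.Agent.MP_14ad9d_nt.Full
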