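import Pool.Agent.MP_14ad9d_nt.Full.JBase

set_option autoImplicit false

open Polynomial

namespace Pool.Agent.MP_14ad9d_nt.Full

variable (l : ℕ) [Fact l.Prime] [Fact (2 < l)] {k k' : Type} [Field k] [CharZero k] [Field k']
  [CharZero k']

/-- the group of rational points of the Jacobian -/
abbrev Jac (s : kˣ) : Type := ClassGroup (CR l s)

open Classical in
/-- the class of an ideal -/
noncomputable def cl {s : kˣ} (I : Ideal (CR l s)) : Jac l s :=
  if h : I ≠ ⊥ then ClassGroup.mk0 ⟨I, mem_nonZeroDivisors_iff_ne_zero.2 h⟩ else 1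

/-- the map of class groups induced by an injective map of coordinate rings -/
noncomputable def jmap {s : kˣ} {s' : k'ˣ} (φ : CR l s →+* CR l s') (hφ : Function.Injective φ) :
    Jac l s →* Jac l s' :=
  letI := φ.toAlgebra
  haveI : Module.IsTorsionFree (CR l s) (CR l s') :=
    (Module.isTorsionFree_iff_algebraMap_injective).2 hφ
  ClassGroup.extendedHom (CR l s) (CR l s')

theorem jmap_cl {s : kˣ} {s' : k'ˣ} (φ : CR l s →+* CR l s') (hφ : Function.Injective φ)
    (I : Ideal (CR l s)) : jmap l φ hφ (cl l I) = cl l (I.map φ) := by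
  by_cases h : I = ⊥
  · simp [cl, h]
  · have h' : I.map φ ≠ ⊥ := (Ideal.map_eq_bot_iff_of_injective hφ).not.2 h
    letI := φ.toAlgebra
    haveI : Module.IsTorsionFree (CR l s) (CR l s') :=
      (Module.isTorsionFree_iff_algebraMap_injective).2 hφ
    rw [cl, cl, dif_pos h, dif_pos h']
    exact ClassGroup.extendedHom_mk0 _ _ _

/-- change of the constant field -/
noncomputable def jcf {s : kˣ} {s' : k'ˣ} (f : k →+* k') (h : f s = s') : Jac l s →* Jac l s' :=
  jmap l (cf l f h) (cf_inj l f h)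

/-- the complex multiplication -/
noncomputable def jsg (s : kˣ) {ζ : k} (h : IsPrimitiveRoot ζ l) : Jac l s →* Jac l s :=
  jmap l (sg l s h) (sg_inj l s h)

/-- the class of the point of order `l` -/
noncomputable def jT (s : kˣ) : Jac l s := cl l (pt l s 0 (s : k))

/-- the descent map, as a relation: `d` represents the image of `x` -/
def Del (s : kˣ) {ζ : k} (h : IsPrimitiveRoot ζ l) (x : Jac l s) (d : k) : Prop :=
  ∃ (I : Ideal (CR l s)) (m : CR l s) (e : k), cl l I = x ∧ e ≠ 0 ∧
    ∏ j ∈ Finset.range l, I.map (sg l s h ^ j) = Ideal.span {m} ∧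
    evp l 0 (s : k) m ≠ 0 ∧ evp l 0 (-(s : k)) m ≠ 0 ∧
    d * evp l 0 (-(s : k)) m = evp l 0 (s : k) m * e ^ l

end Pool.Agent.MP_14ad9d_nt.Full
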