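import Pool.Agent.MP_14ad9d_nt.Full.OrthA

set_option autoImplicit false

namespace Pool.Agent.MP_14ad9d_nt.Full

namespace KillAux

theorem indep {k V : Type} [Field k] [Fintype k] [AddCommGroup V] [Module k V] (t : k → V)
    (h : ∀ c : k → k, ∑ μ, c μ • t μ = 0 → ∑ μ, (c μ * μ) • t μ = 0) (ht : ∀ μ, t μ ≠ 0) :
    LinearIndependent k t := by
  classical
  rw [Fintype.linearIndependent_iff]
  intro c hc μ0
  have key : ∀ T : Finset k, ∑ μ, (c μ * ∏ ν ∈ T, (μ - ν)) • t μ = 0 := by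
    intro T
    induction T using Finset.induction_on with
    | empty => simpa using hc
    | insert ν T hν ih =>
      have h1 := h _ ih
      have h2 : ∑ μ, (c μ * ∏ ν' ∈ insert ν T, (μ - ν')) • t μ =
          ∑ μ, (c μ * (∏ ν' ∈ T, (μ - ν')) * μ) • t μ -
            ν • ∑ μ, (c μ * ∏ ν' ∈ T, (μ - ν')) • t μ := by
        rw [Finset.smul_sum, ← Finset.sum_sub_distrib]
        refine Finset.sum_congr rfl fun μ _ => ?_
        rw [Finset.prod_insert hν, smul_smul, ← sub_smul]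
        congr 1
        ring
      rw [h2, h1, ih, smul_zero, sub_zero]
  have h3 := key (Finset.univ.erase μ0)
  rw [Finset.sum_eq_single μ0 (fun μ _ hμ => by
    rw [Finset.prod_eq_zero (i := μ) (Finset.mem_erase.2 ⟨hμ, Finset.mem_univ _⟩) (sub_self μ),
      mul_zero, zero_smul]) (fun h => absurd (Finset.mem_univ _) h)] at h3
  rcases smul_eq_zero.1 h3 with h4 | h4
  · refine (mul_eq_zero.1 h4).resolve_right (Finset.prod_ne_zero_iff.2 fun ν hν => ?_)
    exact sub_ne_zero.2 (Finset.mem_erase.1 hν).1.symm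
  · exact absurd h4 (ht μ0)

variable {k G H P : Type} [Field k] [Group G] [AddCommGroup H] [Module k H] [MulAction G P]
  (M : Mach k G H P)

theorem tame_anti (p : P) (x y : H) : M.tame p x y = -M.tame p y x := by
  have h := M.tame_self p (x + y)
  simp only [map_add, LinearMap.add_apply, M.tame_self] at h
  linear_combination h

theorem tame_formula {p : P} {w : H} (hw : M.ord p w = 1) (x y : H) :
    M.tame p x y = M.ord p y * M.tame p x w - M.ord p x * M.tame p y w := by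
  have h := M.tame_unr p (x - M.ord p x • w) (y - M.ord p y • w) (by simp [hw]) (by simp [hw])
  simp only [map_sub, map_smul, LinearMap.sub_apply, LinearMap.smul_apply, smul_eq_mul,
    M.tame_self] at h
  rw [tame_anti M p w y] at h
  linear_combination h

theorem tame_chi {p : P} {w x : H} (hw : M.ord p w = 1) (hx : M.ord p x = 0) :
    M.tame p x w = M.chi p x := by
  have h := M.tame_unr p x (w - M.unif p) hx (by simp [hw, M.ord_unif])
  rw [map_sub] at h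
  unfold Mach.chi
  linear_combination h

theorem ord_inv (g : G) (p : P) (x : H) : M.ord (g⁻¹ • p) x = M.ord p (M.ρ g x) := by
  rw [← M.ord_act g, smul_inv_smul]

theorem tame_inv (g : G) (p : P) (x : H) {w : H} (hw : M.ρ g w = w) :
    M.tame (g⁻¹ • p) x w = M.tame p (M.ρ g x) w := by
  rw [← M.tame_act g, smul_inv_smul, hw]

variable [Fintype G]

/-- classes in `L` of norm zero, unramified outside `T`, with a line condition on `S` -/
def Sel (L : Submodule k H) (S T : Finset P) (γ : P → H) : Submodule k H where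
  carrier := {x | x ∈ L ∧ nrm M.ρ x = 0 ∧ (∀ q, q ∉ T → M.ord q x = 0) ∧
    ∀ q ∈ S, M.tame q x (γ q) = 0}
  add_mem' := fun {a b} ha hb => ⟨L.add_mem ha.1 hb.1, by rw [map_add, ha.2.1, hb.2.1, add_zero],
    fun q hq => by rw [map_add, ha.2.2.1 q hq, hb.2.2.1 q hq, add_zero],
    fun q hq => by rw [map_add, LinearMap.add_apply, ha.2.2.2 q hq, hb.2.2.2 q hq, add_zero]⟩
  zero_mem' := ⟨L.zero_mem, map_zero _, fun q _ => map_zero _, fun q _ => by simp⟩
  smul_mem' := fun c {a} ha => ⟨L.smul_mem c ha.1, by rw [map_smul, ha.2.1, smul_zero],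
    fun q hq => by rw [map_smul, ha.2.2.1 q hq, smul_zero],
    fun q hq => by rw [map_smul, LinearMap.smul_apply, ha.2.2.2 q hq, smul_zero]⟩

theorem mem_Sel {L : Submodule k H} {S T : Finset P} {γ : P → H} {x : H} :
    x ∈ Sel M L S T γ ↔ x ∈ L ∧ nrm M.ρ x = 0 ∧ (∀ q, q ∉ T → M.ord q x = 0) ∧
      ∀ q ∈ S, M.tame q x (γ q) = 0 := Iff.rfl

omit [Fintype G] in
/-- a Selmer structure -/
structure Str (S : Finset P) (γ : P → H) (ϖ : H) : Prop where
  stab : ∀ g : G, ∀ p ∈ S, g • p ∈ S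
  good : ∀ p ∈ S, M.Good p
  gam : ∀ p ∈ S, M.ord p (γ p) = 1 ∧ ∀ g : G, M.ρ g (γ p) = γ p ∧ γ (g • p) = γ p
  ul : ϖ ∈ M.UL
  inv : ∀ g, M.ρ g ϖ = ϖ
  o1 : ∀ q ∈ S, M.ord q ϖ = 1
  o0 : ∀ q, q ∉ S → M.ord q ϖ = 0

theorem nrm_act (g : G) (x : H) : nrm M.ρ (M.ρ g x) = nrm M.ρ x := by
  have e : ∀ x, nrm M.ρ x = ∑ g, M.ρ g x := fun x => by simp [nrm, LinearMap.sum_apply]
  rw [e, e]
  simp only [OrthAAux.act_mul]
  exact Fintype.sum_equiv (Equiv.mulRight g) _ (fun h => M.ρ h x) fun h => rfl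

theorem Sel_stab {L : Submodule k H} (hL : Stab M.ρ L) {S : Finset P} {γ : P → H} {ϖ : H}
    (h : Str M S γ ϖ) : Stab M.ρ (Sel M L S S γ) := by
  intro g x hx
  refine ⟨hL g x hx.1, by rw [nrm_act, hx.2.1], fun q hq => ?_, fun q hq => ?_⟩
  · rw [← ord_inv]
    refine hx.2.2.1 _ fun h1 => hq ?_
    simpa using h.stab g _ h1
  · rw [← tame_inv M g q x ((h.gam q hq).2 g).1, ← ((h.gam q hq).2 g⁻¹).2]
    exact hx.2.2.2 _ (h.stab _ _ hq)

theorem step [Fintype k] (hcard : Fintype.card G < Fintype.card k)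
    (hG : (Fintype.card G : k) ≠ 0) (h2 : (2 : k) ≠ 0) {L : Submodule k H}
    (hL : M.AxL L) (hK : M.AxK) {S : Finset P} {γ : P → H} {ϖ : H} (h : Str M S γ ϖ)
    (hf : FinQ (Sel M L S S γ) ⊥) (ho : OrthQ M.ρ (Sel M L S S γ) ⊥) (hne : Sel M L S S γ ≠ ⊥) :
    ∃ (S' : Finset P) (γ' : P → H) (ϖ' : H), Str M S' γ' ϖ' ∧
      Sel M L S' S' γ' < Sel M L S S γ ∧ OrthQ M.ρ (Sel M L S' S' γ') ⊥ := by
  classical
  have hX := Sel_stab M hL.2.1 h
  obtain ⟨f, ⟨x0, hx0, hf0⟩, f2, f3⟩ := kill_choice M.ρ hG h2 hX hf ho hne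
  obtain ⟨p, hpS, hp, hpf, w, hwU, hwi, hwo⟩ := hK _ hX hf (fun x hx => hx.2.1) f S
  set O : Finset P := Finset.univ.image fun g : G => g⁻¹ • p with hO
  have mO : ∀ q, q ∈ O ↔ ∃ g : G, g⁻¹ • p = q := fun q => by simp [hO]
  have mO' : ∀ q, q ∈ O ↔ q ∈ MulAction.orbit G p := fun q => by
    rw [mO, MulAction.mem_orbit_iff]
    exact ⟨fun ⟨g, hg⟩ => ⟨g⁻¹, hg⟩, fun ⟨g, hg⟩ => ⟨g⁻¹, by rw [inv_inv, hg]⟩⟩
  have w1 : ∀ q ∈ O, M.ord q w = 1 := fun q hq => by rw [hwo, if_pos ((mO' q).1 hq)]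
  have w0 : ∀ q, q ∉ O → M.ord q w = 0 := fun q hq => by
    rw [hwo, if_neg fun h1 => hq ((mO' q).2 h1)]
  have pO : ∀ g : G, g⁻¹ • p ∈ O := fun g => (mO _).2 ⟨g, rfl⟩
  have wp : M.ord p w = 1 := by simpa using w1 _ (pO 1)
  have dis : ∀ q ∈ O, q ∉ S := fun q hq hqS => by
    obtain ⟨g, rfl⟩ := (mO q).1 hq
    exact hpS (by simpa using h.stab g _ hqS)
  have Oact : ∀ g : G, ∀ q ∈ O, g • q ∈ O := fun g q hq => by
    obtain ⟨g', rfl⟩ := (mO q).1 hq
    exact (mO _).2 ⟨g' * g⁻¹, by rw [mul_inv_rev, inv_inv, mul_smul]⟩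
  have inj : ∀ a ∈ (Finset.univ : Finset G), ∀ b ∈ (Finset.univ : Finset G),
      a⁻¹ • p = b⁻¹ • p → a = b := fun a _ b _ hab => by
    have h1 : (b * a⁻¹) • p = p := by rw [mul_smul, hab, smul_inv_smul]
    exact (mul_inv_eq_one.1 (hp.1 _ h1)).symm
  have uX : ∀ y ∈ Sel M L S S γ, ∀ g : G, M.tame (g⁻¹ • p) y w = f (M.ρ g y) := fun y hy g => by
    have h1 := hpf _ (hX g y hy)
    rw [tame_inv M g p y (hwi g), tame_chi M wp h1.1, h1.2]
  have XR : ∀ x ∈ Sel M L S (S ∪ O) γ, (∀ g : G, M.ord (g⁻¹ • p) x = 0) → x ∈ Sel M L S S γ :=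
    fun x hx ht => ⟨hx.1, hx.2.1, fun q hq => by
      by_cases hqO : q ∈ O
      · obtain ⟨g, rfl⟩ := (mO q).1 hqO
        exact ht g
      · exact hx.2.2.1 q fun h1 => (Finset.mem_union.1 h1).elim hq hqO, hx.2.2.2⟩
  have perp : ∀ x ∈ Sel M L S (S ∪ O) γ, ∀ y ∈ Sel M L S S γ,
      ∑ g : G, M.ord (g⁻¹ • p) x * f (M.ρ g y) = 0 := by
    intro x hx y hy
    have h1 : ∑ᶠ q, M.tame q x y = 0 := hL.2.2.1 x hx.1 y hy.1
    rw [finsum_eq_sum_of_support_subset (s := O) _ ?_, hO, Finset.sum_image inj] at h1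
    · rw [← neg_eq_zero, ← Finset.sum_neg_distrib, ← h1]
      refine Finset.sum_congr rfl fun g _ => ?_
      rw [tame_formula M (w1 _ (pO g)) x y, hy.2.2.1 _ (dis _ (pO g)), uX y hy g]
      ring
    · intro q hq
      by_contra hqO
      refine hq ?_
      by_cases hqS : q ∈ S
      · show M.tame q x y = 0
        rw [tame_formula M (h.gam q hqS).1 x y, hx.2.2.2 q hqS, hy.2.2.2 q hqS]
        ring
      · exact M.tame_unr q x y
          (hx.2.2.1 q fun h1 => (Finset.mem_union.1 h1).elim hqS hqO) (hy.2.2.1 q hqS)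
  have good : ∃ μ : k, ∀ x ∈ Sel M L S (S ∪ O) γ,
      (∀ g : G, M.tame (g⁻¹ • p) x w = μ * M.ord (g⁻¹ • p) x) →
        ∀ g : G, M.ord (g⁻¹ • p) x = 0 := by
    by_contra hn
    push Not at hn
    choose x hxR hxu g0 hg0 using hn
    have li : LinearIndependent k fun (μ : k) (g : G) => M.ord (g⁻¹ • p) (x μ) := by
      refine indep _ (fun c hc => ?_) fun μ h0 => hg0 μ (congrFun h0 (g0 μ))
      have hzR : ∑ μ, c μ • x μ ∈ Sel M L S (S ∪ O) γ :=
        Submodule.sum_mem _ fun μ _ => Submodule.smul_mem _ _ (hxR μ)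
      have hz : ∑ μ, c μ • x μ ∈ Sel M L S S γ := XR _ hzR fun g => by
        have := congrFun hc g
        simpa [map_sum, Finset.sum_apply] using this
      have e : ∀ g : G, f (M.ρ g (∑ μ, c μ • x μ)) = ∑ μ, c μ * μ * M.ord (g⁻¹ • p) (x μ) := by
        intro g
        rw [← uX _ hz g, map_sum, LinearMap.sum_apply]
        refine Finset.sum_congr rfl fun μ _ => ?_
        rw [map_smul, LinearMap.smul_apply, hxu μ g, smul_eq_mul, mul_assoc]
      have h3 := f2 _ hz fun y hy => by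
        simp only [e, Finset.sum_mul]
        rw [Finset.sum_comm]
        refine Finset.sum_eq_zero fun μ _ => ?_
        simp only [mul_assoc]
        rw [← Finset.mul_sum, ← Finset.mul_sum, perp _ (hxR μ) y hy, mul_zero, mul_zero]
      funext g
      have h4 := h3 g
      rw [e] at h4
      simpa [Finset.sum_apply] using h4
    have h5 := li.fintype_card_le_finrank
    rw [Module.finrank_fintype_fun_eq_card] at h5
    omega
  obtain ⟨μ, hμ⟩ := good
  obtain ⟨u, hui, hu0, huμ⟩ := hp.2 μ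
  have u0 : ∀ g : G, M.ord (g⁻¹ • p) u = 0 := fun g => by rw [ord_inv, hui, hu0]
  have uμ : ∀ g : G, M.tame (g⁻¹ • p) u w = μ := fun g => by
    rw [tame_inv M g p u (hwi g), hui, tame_chi M wp hu0, huμ]
  have cond : ∀ (x : H) (g : G), M.tame (g⁻¹ • p) x (w + u) =
      M.tame (g⁻¹ • p) x w - μ * M.ord (g⁻¹ • p) x := fun x g => by
    rw [map_add, tame_formula M (w1 _ (pO g)) x u, u0, uμ]
    ring
  let γ' : P → H := fun q => if q ∈ O then w + u else γ q
  have γO : ∀ q ∈ O, γ' q = w + u := fun q hq => if_pos hq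
  have γS : ∀ q ∈ S, γ' q = γ q := fun q hq => if_neg fun h1 => dis q h1 hq
  have eq : Sel M L (S ∪ O) (S ∪ O) γ' =
      Sel M L S S γ ⊓ ⨅ g, LinearMap.ker (f ∘ₗ M.ρ g) := by
    ext x
    rw [Submodule.mem_inf, Submodule.mem_iInf]
    constructor
    · intro hx
      have hxR : x ∈ Sel M L S (S ∪ O) γ := ⟨hx.1, hx.2.1, hx.2.2.1, fun q hq => by
        rw [← γS q hq]; exact hx.2.2.2 q (Finset.mem_union_left _ hq)⟩
      have hc : ∀ g : G, M.tame (g⁻¹ • p) x w = μ * M.ord (g⁻¹ • p) x := fun g => by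
        have h1 := hx.2.2.2 _ (Finset.mem_union_right _ (pO g))
        rw [γO _ (pO g), cond] at h1
        exact sub_eq_zero.1 h1
      have ht := hμ x hxR hc
      have hxX := XR x hxR ht
      refine ⟨hxX, fun g => ?_⟩
      show f (M.ρ g x) = 0
      rw [← uX x hxX g, hc, ht, mul_zero]
    · rintro ⟨hx, hk⟩
      refine ⟨hx.1, hx.2.1, fun q hq => hx.2.2.1 q fun h1 => hq (Finset.mem_union_left _ h1),
        fun q hq => ?_⟩
      rcases Finset.mem_union.1 hq with hq | hq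
      · rw [γS q hq]; exact hx.2.2.2 q hq
      · obtain ⟨g, rfl⟩ := (mO q).1 hq
        have h1 : f (M.ρ g x) = 0 := hk g
        rw [γO _ hq, cond, uX x hx g, h1, hx.2.2.1 _ (dis _ hq), mul_zero, sub_zero]
  refine ⟨S ∪ O, γ', ϖ + w, ⟨fun g q hq => ?_, fun q hq => ?_, fun q hq => ?_,
    M.UL.add_mem h.ul hwU, fun g => by rw [map_add, h.inv, hwi], fun q hq => ?_,
    fun q hq => ?_⟩, ?_, eq ▸ f3⟩
  · exact (Finset.mem_union.1 hq).elim (fun h1 => Finset.mem_union_left _ (h.stab g q h1))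
      fun h1 => Finset.mem_union_right _ (Oact g q h1)
  · rcases Finset.mem_union.1 hq with hq | hq
    · exact h.good q hq
    · obtain ⟨g, rfl⟩ := (mO q).1 hq
      refine ⟨fun a ha => ?_, fun ν => ?_⟩
      · have h1 : (g * a * g⁻¹) • p = p := by rw [mul_smul, mul_smul, ha, smul_inv_smul]
        have h3 := hp.1 _ h1
        rw [mul_inv_eq_one] at h3
        exact mul_eq_left.1 h3
      · obtain ⟨v, hvi, hv0, hvν⟩ := hp.2 ν
        have v0 : M.ord (g⁻¹ • p) v = 0 := by rw [ord_inv, hvi, hv0]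
        refine ⟨v, hvi, v0, ?_⟩
        rw [← tame_chi M (w1 _ hq) v0, tame_inv M g p v (hwi g), hvi, tame_chi M wp hv0, hvν]
  · rcases Finset.mem_union.1 hq with hq | hq
    · rw [γS q hq]
      exact ⟨(h.gam q hq).1, fun g => ⟨((h.gam q hq).2 g).1, by
        rw [γS _ (h.stab g q hq), ((h.gam q hq).2 g).2]⟩⟩
    · rw [γO q hq]
      refine ⟨?_, fun g => ⟨by rw [map_add, hwi, hui], γO _ (Oact g q hq)⟩⟩
      obtain ⟨g, rfl⟩ := (mO q).1 hq
      rw [map_add, w1 _ hq, u0, add_zero]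
  · rcases Finset.mem_union.1 hq with hq | hq
    · rw [map_add, h.o1 q hq, w0 q fun h1 => dis q h1 hq, add_zero]
    · rw [map_add, h.o0 q (dis q hq), w1 q hq, zero_add]
  · rw [map_add, h.o0 q fun h1 => hq (Finset.mem_union_left _ h1),
      w0 q fun h1 => hq (Finset.mem_union_right _ h1), add_zero]
  · rw [eq]
    refine lt_of_le_of_ne inf_le_left fun e => hf0 ?_
    have h1 : x0 ∈ Sel M L S S γ ⊓ ⨅ g, LinearMap.ker (f ∘ₗ M.ρ g) := e.symm ▸ hx0
    have h3 := (Submodule.mem_iInf _).1 h1.2 1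
    simpa using h3

theorem iter [Fintype k] (hcard : Fintype.card G < Fintype.card k)
    (hG : (Fintype.card G : k) ≠ 0) (h2 : (2 : k) ≠ 0) {L : Submodule k H}
    (hL : M.AxL L) (hK : M.AxK) (n : ℕ) : ∀ (S : Finset P) (γ : P → H) (ϖ : H), Str M S γ ϖ →
      FinQ (Sel M L S S γ) ⊥ → OrthQ M.ρ (Sel M L S S γ) ⊥ →
      Module.finrank k (Sel M L S S γ) = n →
      ∃ (S' : Finset P) (γ' : P → H) (ϖ' : H), Str M S' γ' ϖ' ∧ Sel M L S' S' γ' = ⊥ := by
  induction n using Nat.strong_induction_on with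
  | _ n ih =>
  intro S γ ϖ h hf ho hn
  by_cases hne : Sel M L S S γ = ⊥
  · exact ⟨S, γ, ϖ, h, hne⟩
  obtain ⟨S', γ', ϖ', h', hlt, ho'⟩ := step M hcard hG h2 hL hK h hf ho hne
  have : FiniteDimensional k (Sel M L S S γ) := by
    have := OrthAAux.fin hf LinearMap.id fun c hc => hc
    rwa [Submodule.map_id] at this
  exact ih _ (hn ▸ Submodule.finrank_lt_finrank_of_lt hlt) S' γ' ϖ' h'
    (hf.imp fun t ht => hlt.le.trans ht) ho' rfl

end KillAux

open Classical in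
/-- a Selmer structure with trivial new part -/
theorem kill {k G H P : Type} [Field k] [Fintype k] [Group G] [Fintype G] [AddCommGroup H]
    [Module k H] [MulAction G P] (hcard : Fintype.card G < Fintype.card k)
    (hG : (Fintype.card G : k) ≠ 0) (h2 : (2 : k) ≠ 0) (M : Mach k G H P) (L : Submodule k H)
    (hL : M.AxL L) (hK : M.AxK) :
    ∃ (S : Finset P) (γ : P → H) (ϖ : H), (∀ g : G, ∀ p ∈ S, g • p ∈ S) ∧ (∀ p ∈ S, M.Good p) ∧
      (∀ p ∈ S, M.ord p (γ p) = 1 ∧ ∀ g : G, M.ρ g (γ p) = γ p ∧ γ (g • p) = γ p) ∧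
      ϖ ∈ M.UL ∧ (∀ g, M.ρ g ϖ = ϖ) ∧ (∀ q, M.ord q ϖ = if q ∈ S then 1 else 0) ∧
      ∀ x ∈ L, nrm M.ρ x = 0 → (∀ q, q ∉ S → M.ord q x = 0) →
        (∀ q ∈ S, M.tame q x (γ q) = 0) → x = 0 := by
  have e : KillAux.Sel M L ∅ ∅ 0 = L ⊓ M.Unr ∅ ⊓ LinearMap.ker (nrm M.ρ) := by
    ext x
    rw [KillAux.mem_Sel]
    simp only [Mach.Unr, Submodule.mem_inf, Submodule.mem_iInf, LinearMap.mem_ker]
    constructor
    · rintro ⟨a, b, c, -⟩
      exact ⟨⟨a, fun q _ => c q (Finset.notMem_empty q)⟩, b⟩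
    · rintro ⟨⟨a, c⟩, b⟩
      exact ⟨a, b, fun q _ => c q (Set.notMem_empty q), fun q hq => absurd hq (Finset.notMem_empty q)⟩
  obtain ⟨S, γ, ϖ, h, hb⟩ := KillAux.iter M hcard hG h2 hL hK _ ∅ 0 0
    ⟨fun _ p hp => absurd hp (Finset.notMem_empty p), fun p hp => absurd hp (Finset.notMem_empty p),
      fun p hp => absurd hp (Finset.notMem_empty p), M.UL.zero_mem, fun g => map_zero _,
      fun p hp => absurd hp (Finset.notMem_empty p), fun q _ => map_zero _⟩
    (e ▸ hL.2.2.2.1.imp fun t ht => inf_le_left.trans ht) (e ▸ hL.2.2.2.2) rfl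
  refine ⟨S, γ, ϖ, h.stab, h.good, h.gam, h.ul, h.inv, fun q => ?_, fun x a b c d => ?_⟩
  · split_ifs with hq
    · exact h.o1 q hq
    · exact h.o0 q hq
  · exact (Submodule.eq_bot_iff _).1 hb x ⟨a, b, c, d⟩

end Pool.Agent.MP_14ad9d_nt.Full
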