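import Mathlib

set_option autoImplicit false

namespace Pool.Agent.MP_14ad9d_nt.Full

/-- `u` is integral over the localisation of the integers at `l` -/
def LInt (l : ℕ) {A : Type} [CommRing A] (u : A) : Prop :=
  ∃ d : ℕ, d.Coprime l ∧ IsIntegral ℤ ((d : A) * u)

open NumberField AlgebraicGeometry CategoryTheory in
/-- the conclusion of the question for the number field `K`, with a separated scheme -/
def ConcS (K : Type) [Field K] [NumberField K] : Prop :=
  ∃ (X : Scheme.{0}) (f : X ⟶ Spec (CommRingCat.of ℤ)),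
    LocallyOfFiniteType f ∧ QuasiCompact f ∧ IsSeparated f ∧
    Infinite (Spec (CommRingCat.of ℤ) ⟶ X) ∧
    Function.Bijective (fun g : Spec (CommRingCat.of ℤ) ⟶ X =>
      Spec.map (CommRingCat.ofHom (algebraMap ℤ (𝓞 K))) ≫ g)

end Pool.Agent.MP_14ad9d_nt.Full
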