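import Pool.Agent.MP_14ad9d_nt.Full.ADefs

set_option autoImplicit false

open MeasureTheory
open scoped NNReal

namespace Pool.Agent.MP_14ad9d_nt.Full

namespace LatAux

/-- the integer points of a cube -/
noncomputable def box (n N : ℕ) : Finset (Fin n → ℤ) :=
  Fintype.piFinset fun _ => Finset.Icc (-(N : ℤ)) N

theorem mem_box {n N : ℕ} {z : Fin n → ℤ} (h : ∀ i, |(z i : ℝ)| ≤ N) : z ∈ box n N :=
  Fintype.mem_piFinset.2 fun i => Finset.mem_Icc.2 (abs_le.1 (by exact_mod_cast h i))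

theorem card_box (n N : ℕ) : ((box n N).card : ℝ) = (2 * N + 1) ^ n := by
  rw [box, Fintype.card_piFinset, Finset.prod_const, Finset.card_univ, Fintype.card_fin,
    Int.card_Icc, show ((N : ℤ) + 1 - -(N : ℤ)).toNat = 2 * N + 1 by omega]
  push_cast
  rfl

theorem full {n N : ℕ} {F : (Fin n → ℝ) → ℂ} (hF : Continuous F) {c : ℝ}
    (hl : ∀ x y, ‖x - y‖ ≤ 1 → ‖F x - F y‖ ≤ c) (h0 : ∀ x, F x ≠ 0 → ∀ i, |x i| + 1 ≤ N) :
    ‖∑ z ∈ box n N, F (fun i => z i) - ∫ x, F x‖ ≤ (box n N).card * c := by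
  let Q : (Fin n → ℤ) → Set (Fin n → ℝ) := fun z =>
    Set.pi Set.univ fun i => Set.Ico (z i : ℝ) (z i + 1)
  have hQ : ∀ z x, x ∈ Q z ↔ ∀ i, ⌊x i⌋ = z i := fun z x => by
    simp only [Q, Set.mem_pi, Set.mem_univ, true_imp_iff, Set.mem_Ico, Int.floor_eq_iff]
  have hm : ∀ z, MeasurableSet (Q z) := fun z => MeasurableSet.univ_pi fun _ => measurableSet_Ico
  have hv : ∀ z, volume (Q z) = 1 := fun z => by
    simp only [Q]
    rw [Real.volume_pi_Ico]
    simp
  have hv' : ∀ z, volume.real (Q z) = 1 := fun z => by rw [Measure.real, hv]; rfl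
  have hc : HasCompactSupport F := by
    refine HasCompactSupport.intro (isCompact_closedBall 0 (N : ℝ)) fun x hx => ?_
    by_contra h
    refine hx (mem_closedBall_zero_iff.2 ((pi_norm_le_iff_of_nonneg (by positivity)).2 fun i => ?_))
    linarith [h0 x h i, Real.norm_eq_abs (x i)]
  have hi : Integrable F := hF.integrable_of_hasCompactSupport hc
  have e1 : ∫ x, F x = ∑ z ∈ box n N, ∫ x in Q z, F x := by
    rw [← integral_biUnion_finset _ (fun z _ => hm z) (fun z _ z' _ hne => Set.disjoint_left.2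
      fun x a b => hne (funext fun i => ((hQ z x).1 a i).symm.trans ((hQ z' x).1 b i)))
      fun z _ => hi.integrableOn]
    refine (setIntegral_eq_integral_of_forall_compl_eq_zero fun x hx => ?_).symm
    by_contra h
    refine hx (Set.mem_iUnion₂.2 ⟨fun i => ⌊x i⌋, mem_box fun i => ?_, (hQ _ _).2 fun _ => rfl⟩)
    have := h0 x h i
    rw [abs_le]
    constructor <;> linarith [Int.floor_le (x i), Int.lt_floor_add_one (x i), le_abs_self (x i),
      neg_abs_le (x i)]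
  rw [e1, ← Finset.sum_sub_distrib]
  refine (norm_sum_le _ _).trans ((Finset.sum_le_card_nsmul _ _ c fun z _ => ?_).trans
    (by rw [nsmul_eq_mul]))
  have e2 : F (fun i => z i) - ∫ x in Q z, F x = ∫ x in Q z, (F (fun i => z i) - F x) := by
    have : IntegrableOn (fun _ => F fun i => z i) (Q z) := integrableOn_const (by simp [hv])
    rw [integral_sub this hi.integrableOn, setIntegral_const, hv', one_smul]
  rw [e2]
  refine (norm_setIntegral_le_of_norm_le_const (C := c) (by simp [hv]) fun x hx => hl _ _ ?_).trans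
    (by rw [hv', mul_one])
  refine (pi_norm_le_iff_of_nonneg zero_le_one).2 fun i => ?_
  have := hx i (Set.mem_univ i)
  rw [Pi.sub_apply, Real.norm_eq_abs, abs_le]
  constructor <;> linarith [this.1, this.2]

end LatAux

open LatAux in
open Classical in
/-- lattice sums of a Lipschitz function over a coset of a sublattice -/
theorem lat (n : ℕ) (ρ : ℝ) (Λ : AddSubgroup (Fin n → ℤ)) [Λ.FiniteIndex] :
    ∃ C : ℝ, ∀ (β : Fin n → ℤ) (w : (Fin n → ℝ) → ℂ) (L : ℝ≥0), LipschitzWith L w →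
      (∀ x, ρ < ‖x‖ → w x = 0) → ∀ T : ℝ, 1 ≤ T →
      ‖(∑ᶠ z : Fin n → ℤ, if z - β ∈ Λ then w (fun i => (z i : ℝ) / T) else 0) -
        (T : ℂ) ^ n / (Λ.index : ℂ) * ∫ x, w x‖ ≤ C * L * T ^ n / T := by
  let _ : Fintype ((Fin n → ℤ) ⧸ Λ) := Fintype.ofFinite _
  obtain ⟨A, hA0, hA⟩ : ∃ A : ℝ, 0 ≤ A ∧ ∀ (q q' : (Fin n → ℤ) ⧸ Λ) (i : Fin n),
      |((q.out - q'.out) i : ℝ)| ≤ A := by
    obtain ⟨A, hA⟩ := (Set.finite_range fun p : ((Fin n → ℤ) ⧸ Λ) × ((Fin n → ℤ) ⧸ Λ) × Fin n =>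
      |((p.1.out - p.2.1.out) p.2.2 : ℝ)|).bddAbove
    exact ⟨max A 0, le_max_right _ _, fun q q' i => (hA ⟨(q, q', i), rfl⟩).trans (le_max_left _ _)⟩
  refine ⟨(2 * |ρ| + 2 * A + 5) ^ n * (A + 1), fun β w L hw h0 T hT => ?_⟩
  have hT0 : 0 < T := by linarith
  set N := ⌈|ρ| * T + A + 1⌉₊ with hN
  have N1 : |ρ| * T + A + 1 ≤ N := Nat.le_ceil _
  have N2 : (N : ℝ) ≤ |ρ| * T + A + 2 := by
    linarith [Nat.ceil_lt_add_one (show 0 ≤ |ρ| * T + A + 1 by positivity)]
  have hcard : ((box n N).card : ℝ) ≤ (2 * |ρ| + 2 * A + 5) ^ n * T ^ n := by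
    rw [card_box, ← mul_pow]
    exact pow_le_pow_left₀ (by positivity) (by nlinarith) n
  let F : (Fin n → ℝ) → ℂ := fun x => w (T⁻¹ • x)
  have hF0 : ∀ x, F x ≠ 0 → ∀ i, |x i| ≤ |ρ| * T := fun x hx i => by
    have h1 : ‖T⁻¹ • x‖ ≤ |ρ| := (not_lt.1 fun h => hx (h0 _ h)).trans (le_abs_self ρ)
    rw [norm_smul, norm_inv, Real.norm_of_nonneg hT0.le, inv_mul_le_iff₀ hT0, mul_comm] at h1
    exact (norm_le_pi_norm x i).trans h1
  have hl : ∀ (c : ℝ) x y, ‖x - y‖ ≤ c → ‖F x - F y‖ ≤ L * c / T := fun c x y h => by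
    have := hw.dist_le_mul (T⁻¹ • x) (T⁻¹ • y)
    rw [dist_eq_norm, dist_eq_norm, ← smul_sub, norm_smul, norm_inv,
      Real.norm_of_nonneg hT0.le] at this
    refine this.trans ?_
    rw [mul_div_assoc, div_eq_inv_mul]
    gcongr
  let f : (Fin n → ℤ) → ℂ := fun z => F fun i => z i
  have hf : ∀ z : Fin n → ℤ, w (fun i => (z i : ℝ) / T) = f z := fun z => by
    simp only [f, F]
    congr 1
    funext i
    simp [div_eq_inv_mul]
  simp only [hf]
  have hs : ∀ (d : Fin n → ℤ), (∀ i, |(d i : ℝ)| ≤ A) → ∀ P : (Fin n → ℤ) → Prop,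
      ∑ᶠ z, (if P z then f (z + d) else 0) = ∑ z ∈ box n N, if P z then f (z + d) else 0 := by
    intro d hd P
    refine finsum_eq_sum_of_support_subset _ fun z hz => mem_box fun i => ?_
    have h1 : f (z + d) ≠ 0 := fun h => hz (by simp [h])
    have h2 := hF0 _ h1 i
    simp only [Pi.add_apply, Int.cast_add] at h2
    have h3 := abs_le.1 (hd i)
    rw [abs_le] at h2 ⊢
    constructor <;> linarith [h2.1, h2.2]
  let S : (Fin n → ℤ) → ℂ := fun γ => ∑ᶠ z, if z - γ ∈ Λ then f z else 0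
  have hS : ∀ γ, S γ = ∑ z ∈ box n N, if z - γ ∈ Λ then f z else 0 := fun γ => by
    simpa using hs 0 (by simpa using fun _ => hA0) fun z => z - γ ∈ Λ
  have hq : ∀ (z : Fin n → ℤ) (q : (Fin n → ℤ) ⧸ Λ), z - q.out ∈ Λ ↔ q = QuotientAddGroup.mk z :=
    fun z q => by rw [sub_eq_neg_add, ← QuotientAddGroup.eq, QuotientAddGroup.out_eq']
  have h1 : ∑ q : (Fin n → ℤ) ⧸ Λ, S q.out = ∑ z ∈ box n N, f z := by
    simp only [hS, hq]
    rw [Finset.sum_comm]
    simp
  have h2 : S β = S (QuotientAddGroup.mk β : (Fin n → ℤ) ⧸ Λ).out := by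
    refine finsum_congr fun z => if_congr ?_ rfl rfl
    rw [hq, QuotientAddGroup.eq, sub_eq_neg_add]
  have h3 : ∀ q q' : (Fin n → ℤ) ⧸ Λ, ‖S q'.out - S q.out‖ ≤ (box n N).card * (L * A / T) := by
    intro q q'
    have e : S q.out = ∑ z ∈ box n N, if z - q'.out ∈ Λ then f (z + (q.out - q'.out)) else 0 := by
      rw [← hs _ (hA q q')]
      refine (finsum_comp_equiv (Equiv.addRight (q.out - q'.out))).symm.trans
        (finsum_congr fun z => if_congr ?_ rfl rfl)
      rw [Equiv.coe_addRight, show z + (q.out - q'.out) - q.out = z - q'.out by abel]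
    rw [e, hS, ← Finset.sum_sub_distrib]
    refine (norm_sum_le _ _).trans ((Finset.sum_le_card_nsmul _ _ _ fun z _ => ?_).trans
      (by rw [nsmul_eq_mul]))
    split_ifs
    · refine hl _ _ _ ((pi_norm_le_iff_of_nonneg hA0).2 fun i => ?_)
      have := hA q q' i
      simp only [Pi.sub_apply, Pi.add_apply, Int.cast_add, Real.norm_eq_abs] at this ⊢
      rwa [sub_add_cancel_left, abs_neg]
    · simp only [sub_self, norm_zero]
      positivity
  have h4 := full (N := N) (F := F) (hw.continuous.comp (continuous_const_smul _)) (hl 1)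
    fun x hx i => by linarith [hF0 x hx i]
  have h5 : ∫ x, F x = (T : ℂ) ^ n * ∫ x, w x := by
    rw [Measure.integral_comp_inv_smul, Module.finrank_fin_fun, abs_of_pos (by positivity)]
    simp
  have hI : (Fintype.card ((Fin n → ℤ) ⧸ Λ) : ℂ) = Λ.index := by
    rw [AddSubgroup.index, Nat.card_eq_fintype_card]
  have hI1 : (1 : ℝ) ≤ Λ.index := by
    exact_mod_cast Nat.one_le_iff_ne_zero.2 AddSubgroup.FiniteIndex.index_ne_zero
  have hI0 : (Λ.index : ℂ) ≠ 0 := by exact_mod_cast AddSubgroup.FiniteIndex.index_ne_zero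
  have h6 : S β - (T : ℂ) ^ n / (Λ.index : ℂ) * ∫ x, w x =
      (∑ q : (Fin n → ℤ) ⧸ Λ, (S β - S q.out) + (∑ z ∈ box n N, f z - ∫ x, F x)) / Λ.index := by
    rw [Finset.sum_sub_distrib, h1, h5, Finset.sum_const, Finset.card_univ, nsmul_eq_mul, hI]
    field_simp
    ring
  have h7 : ‖∑ q : (Fin n → ℤ) ⧸ Λ, (S β - S q.out)‖ ≤
      Λ.index * ((box n N).card * (L * A / T)) := by
    refine (norm_sum_le _ _).trans ((Finset.sum_le_card_nsmul _ _ _ fun q _ => by
      rw [h2]; exact h3 q _).trans_eq ?_)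
    rw [nsmul_eq_mul, Finset.card_univ, AddSubgroup.index, Nat.card_eq_fintype_card]
  change ‖S β - _‖ ≤ _
  rw [h6, norm_div, Complex.norm_natCast, div_le_iff₀ (by linarith)]
  refine (norm_add_le _ _).trans ((add_le_add h7 h4).trans ?_)
  have h8 : ((box n N).card : ℝ) * (L * 1 / T) ≤ Λ.index * ((box n N).card * (L * 1 / T)) :=
    le_mul_of_one_le_left (by positivity) hI1
  have h9 : ((box n N).card : ℝ) * (L * (A + 1) / T) ≤
      (2 * |ρ| + 2 * A + 5) ^ n * T ^ n * (L * (A + 1) / T) :=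
    mul_le_mul_of_nonneg_right hcard (by positivity)
  calc _ ≤ (Λ.index : ℝ) * ((box n N).card * (L * (A + 1) / T)) := by
        rw [show (Λ.index : ℝ) * ((box n N).card * (L * (A + 1) / T)) =
          Λ.index * ((box n N).card * (L * A / T)) + Λ.index * ((box n N).card * (L * 1 / T)) by
            ring]
        linarith
    _ ≤ (Λ.index : ℝ) * ((2 * |ρ| + 2 * A + 5) ^ n * T ^ n * (L * (A + 1) / T)) :=
        mul_le_mul_of_nonneg_left h9 (by linarith)
    _ = _ := by ring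

end Pool.Agent.MP_14ad9d_nt.Full
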