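import Pool.Agent.MP_14ad9d_nt.Full.Machine1

/- Raising a Selmer structure at a pair of primes. -/

set_option autoImplicit false

namespace Pool.Agent.MP_14ad9d_nt.Full.MachineAux

open Classical

variable {k G H P : Type} [Field k] [Group G] [Fintype G] [AddCommGroup H] [Module k H]
  [MulAction G P] {M : Mach k G H P}

variable (M) in
/-- a Selmer structure -/
structure Bas (S : Finset P) (γ : P → H) (ϖ : H) : Prop where
  stab : ∀ g : G, ∀ p ∈ S, g • p ∈ S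
  good : ∀ p ∈ S, M.Good p
  gam : ∀ p ∈ S, M.ord p (γ p) = 1 ∧ ∀ g : G, M.ρ g (γ p) = γ p ∧ γ (g • p) = γ p
  mem : ϖ ∈ M.UL
  inv : ∀ g, M.ρ g ϖ = ϖ
  ord : ∀ q, M.ord q ϖ = if q ∈ S then 1 else 0

omit [Fintype G] in
theorem notMem_act {S : Finset P} (h : ∀ g : G, ∀ p ∈ S, g • p ∈ S) {p : P} (hp : p ∉ S) (g : G) :
    g • p ∉ S := fun e => hp (by simpa using h g⁻¹ _ e)

theorem Bas.ext {S : Finset P} {γ : P → H} {ϖ : H} (h : Bas M S γ ϖ) {p : P} {π w : H}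
    (hp : p ∉ S) (hg : M.Good p) (hπ : π ∈ M.Prim) (hi : Ind M p π) (hw : M.ord p w = 1)
    (hw' : ∀ g, M.ρ g w = w) : ∃ S' γ' ϖ', Bas M S' γ' ϖ' ∧
      (∀ q, q ∈ S' ↔ q ∈ S ∨ ∃ g : G, g • p = q) ∧ (∀ q ∈ S, γ' q = γ q) ∧
      ∀ g : G, γ' (g • p) = w := by
  have hn := notMem_act h.stab hp
  have hm : ∀ q, q ∈ S ∪ Finset.univ.image (fun g : G => g • p) ↔ q ∈ S ∨ ∃ g : G, g • p = q := by
    simp
  refine ⟨S ∪ Finset.univ.image (fun g : G => g • p), fun q => if q ∈ S then γ q else w,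
    ϖ + nrm M.ρ π, ⟨?_, ?_, ?_, ?_, ?_, ?_⟩, hm, fun q hq => if_pos hq, fun g => if_neg (hn g)⟩
  · intro g q hq
    rw [hm] at hq ⊢
    rcases hq with hq | ⟨a, rfl⟩
    exacts [Or.inl (h.stab g q hq), Or.inr ⟨g * a, mul_smul _ _ _⟩]
  · intro q hq
    rcases (hm q).1 hq with hq | ⟨a, rfl⟩
    exacts [h.good q hq, good_act hg a]
  · intro q hq
    rcases (hm q).1 hq with hq | ⟨a, rfl⟩
    · simp only [if_pos hq, if_pos (h.stab _ q hq)]
      exact h.gam q hq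
    · simp only [← mul_smul, if_neg (hn _)]
      exact ⟨by rw [← hw' a, M.ord_act, hw], fun g => ⟨hw' g, trivial⟩⟩
  · refine add_mem h.mem (M.Prim_le ?_)
    rw [nrm_apply]
    exact sum_mem fun g _ => M.Prim_stab g π hπ
  · intro g
    rw [map_add, h.inv, act_nrm]
  · intro q
    rw [map_add, h.ord]
    by_cases hq : ∃ g : G, g • p = q
    · obtain ⟨a, rfl⟩ := hq
      rw [if_neg (hn a), if_pos ((hm _).2 (Or.inr ⟨a, rfl⟩)), ord_nrm hi hg.1, zero_add]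
    · rw [ord_nrm_ne hi fun g e => hq ⟨g, e⟩, add_zero]
      simp only [hm, hq, or_false]

omit [Fintype G] in
theorem Ok.ord_zero {T : Finset P} {p : P} {π : H} (h : Ok M T p π)
    (hT : ∀ g : G, ∀ p ∈ T, g • p ∈ T) (g : G) {q : P} (hq : q ∈ T) : M.ord q (M.ρ g π) = 0 :=
  (h.ind.act g).ne fun e => notMem_act hT h.notMem g (e ▸ hq)

omit [Fintype G] in
theorem Ok.chi_zero {T : Finset P} {p : P} {π : H} (h : Ok M T p π)
    (hT : ∀ g : G, ∀ p ∈ T, g • p ∈ T) (g : G) {q : P} (hq : q ∈ T) : M.chi q (M.ρ g π) = 0 := by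
  rw [chi_act' M g (h.ind.ne fun e => h.notMem (e ▸ hT _ q hq)), h.chi _ (hT _ q hq)]

omit [Fintype G] in
theorem Ok.tame_zero {T : Finset P} {p : P} {π : H} (h : Ok M T p π)
    (hT : ∀ g : G, ∀ p ∈ T, g • p ∈ T) (g : G) {q : P} (hq : q ∈ T) (y : H) :
    M.tame q (M.ρ g π) y = 0 := by
  rw [tame_chi, h.ord_zero hT g hq, h.chi_zero hT g hq, mul_zero, zero_mul, sub_zero]

theorem Ok.sig_inv {T : Finset P} {p : P} {π : H} (h : Ok M T p π) (g : G) :
    sig M (p, π) g⁻¹ = sig M (p, π) g := by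
  by_cases hg : g = 1
  · rw [hg, inv_one]
  have h1 : ∀ g : G, g ≠ 1 → M.ord p (M.ρ g π) = 0 := fun g hg =>
    (h.ind.act g).ne fun e => hg (h.good.1 g e.symm)
  have h2 : M.ord p (nrm M.ρ π) = 1 := by simpa using ord_nrm h.ind h.good.1 1
  have h3 := chi_act M g (h1 g⁻¹ (inv_ne_one.2 hg))
  rw [act_act, mul_inv_cancel, act_one] at h3
  simp only [sig]
  rw [tame_chi, tame_chi, h1 g hg, h1 g⁻¹ (inv_ne_one.2 hg), h2, ← h3,
    recip_ind (h.ind.act g) h.ind h.prim]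

theorem Ok.tame_gam {T : Finset P} {p : P} {π u : H} (h : Ok M T p π) (hu : M.ord p u = 0)
    (g : G) : M.tame p (M.ρ g π) (nrm M.ρ π + u) =
      sig M (p, π) g - if g = 1 then M.chi p u else 0 := by
  rw [map_add, tame_chi M p _ u, hu, h.ind.act g, zero_mul, zero_sub, sub_eq_add_neg]
  congr 2
  by_cases hg : g = 1
  · simp [hg]
  · rw [if_neg hg, if_neg fun e => hg (h.good.1 g e.symm), zero_mul]

variable (M) in
/-- the outcome of raising at a pair of primes -/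
structure Pair (S S' : Finset P) (γ γ' : P → H) (p p' : P) (π π' : H) : Prop where
  ok : Ok M S p π
  ok' : Ok M S p' π'
  ne : ∀ g : G, g • p ≠ p'
  mem : ∀ q, q ∈ S' ↔ q ∈ S ∨ (∃ g : G, g • p = q) ∨ ∃ g : G, g • p' = q
  eq : ∀ q ∈ S, γ' q = γ q
  tame : ∀ q ∈ S', ∀ g, M.tame q (M.ρ g (π - π')) (γ' q) = 0
  inj : ∀ y : G → k, (∀ h : G, ∑ g, y g * M.chi (h • p) (M.ρ g π') = 0) → y = 0

theorem Bas.pair [Fintype k] (hcard : Fintype.card G < Fintype.card k) (hR : M.AxR)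
    {S : Finset P} {γ : P → H} {ϖ : H} (h : Bas M S γ ϖ) :
    ∃ S' γ' ϖ' p p' π π', Bas M S' γ' ϖ' ∧ Pair M S S' γ γ' p p' π π' := by
  choose μ hμ using exists_mu (G := G) hcard
  obtain ⟨p, π, p', π', h1, h2, h3, h4, h5⟩ :=
    exists_pair hR h.stab fun σ g => σ g - if g = 1 then μ σ else 0
  have h3' : ∀ g : G, g • p' ≠ p := fun g e => h3 g⁻¹ (inv_smul_eq_iff.2 e.symm)
  obtain ⟨u, u1, u2, u3⟩ := h1.good.2 (μ (sig M (p, π)))
  obtain ⟨u', u1', u2', u3'⟩ := h2.good.2 (μ (sig M (p, π)))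
  have w1 : M.ord p (nrm M.ρ π + u) = 1 := by
    simpa [u2] using ord_nrm h1.ind h1.good.1 1
  have w1' : M.ord p' (nrm M.ρ π' + u') = 1 := by
    simpa [u2'] using ord_nrm h2.ind h2.good.1 1
  have w2 : ∀ g, M.ρ g (nrm M.ρ π + u) = nrm M.ρ π + u := fun g => by rw [map_add, act_nrm, u1]
  have w2' : ∀ g, M.ρ g (nrm M.ρ π' + u') = nrm M.ρ π' + u' := fun g => by
    rw [map_add, act_nrm, u1']
  obtain ⟨S₁, γ₁, ϖ₁, b1, m1, e1, f1⟩ := h.ext h1.notMem h1.good h1.prim h1.ind w1 w2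
  obtain ⟨S₂, γ₂, ϖ₂, b2, m2, e2, f2⟩ := b1.ext (p := p')
    (fun e => ((m1 _).1 e).elim h2.notMem fun ⟨g, hg⟩ => h3 g hg) h2.good h2.prim h2.ind w1' w2'
  have c1 : ∀ g : G, M.chi p (M.ρ g π') =
      sig M (p, π) g - if g = 1 then μ (sig M (p, π)) else 0 := fun g => by
    rw [chi_act' M g (h2.ind.ne (h3 _)), h5]
  refine ⟨S₂, γ₂, ϖ₂, p, p', π, π', b2, h1, h2, h3, fun q => by rw [m2, m1, or_assoc],
    fun q hq => by rw [e2 q ((m1 q).2 (Or.inl hq)), e1 q hq], ?_,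
    fun y hy => hμ (sig M (p, π)) y fun a => ?_⟩
  · intro q hq g
    rcases (m2 q).1 hq with hq | ⟨a, rfl⟩
    · rw [e2 q hq]
      rcases (m1 q).1 hq with hq | ⟨a, rfl⟩
      · rw [map_sub, map_sub, LinearMap.sub_apply, h1.tame_zero h.stab g hq,
          h2.tame_zero h.stab g hq, sub_zero]
      · rw [f1, ← w2 a, ← mul_inv_cancel_left a g, ← act_act, M.tame_act, map_sub, map_sub,
          LinearMap.sub_apply, h1.tame_gam u2, u3, tame_chi, w1, (h2.ind.act _).ne (h3' _).symm,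
          c1]
        ring
    · rw [f2, ← w2' a, ← mul_inv_cancel_left a g, ← act_act, M.tame_act, map_sub, map_sub,
        LinearMap.sub_apply, h2.tame_gam u2', u3', tame_chi, w1', (h1.ind.act _).ne (h3 _).symm,
        recip_ind (h1.ind.act _) h2.ind h2.prim, ← inv_inv (a⁻¹ * g), h5, h1.sig_inv, inv_inv,
        ← h4]
      simp only [inv_eq_one]
      ring
  · refine (Finset.sum_congr rfl fun g _ => ?_).trans (hy a)
    rw [← c1, ← chi_act M a ((h2.ind.act _).ne (h3' _).symm), act_act, mul_inv_cancel_left]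

end Pool.Agent.MP_14ad9d_nt.Full.MachineAux
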