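import Pool.Agent.MP_14ad9d_nt.Full.Kill
import Pool.Agent.MP_14ad9d_nt.Full.Machine2

set_option autoImplicit false

namespace Pool.Agent.MP_14ad9d_nt.Full

namespace MachineAux

open Classical

variable {k G H P : Type} [Field k] [Group G] [Fintype G] [AddCommGroup H] [Module k H]
  [MulAction G P] {M : Mach k G H P}

omit [Fintype G] in
theorem chi_prime {S : Finset P} (hS : ∀ g : G, ∀ p ∈ S, g • p ∈ S) {a p₀ : P} {x : H}
    {A : P → k} {ε : k} (ha : a ∉ S) (hx : Ind M a x) (hA : ∀ g : G, ∀ p ∈ S, A (g • p) = A p)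
    (hc : ∀ p ∈ S, M.chi p x = A p + if p = p₀ then ε else 0) (g : G) {q : P} (hq : q ∈ S) :
    M.chi q (M.ρ g x) = A q + if q = g • p₀ then ε else 0 := by
  rw [chi_act' M g (hx.ne fun e => ha (e ▸ hS _ q hq)), hc _ (hS _ q hq), hA _ q hq]
  simp only [inv_smul_eq_iff]

omit [Fintype G] in
theorem chi_delta {S : Finset P} (hS : ∀ g : G, ∀ p ∈ S, g • p ∈ S) {a p₀ p p' : P}
    {x π π' : H} {A : P → k} {ε : k} (ha : a ∉ S) (hx : Ind M a x)
    (hA : ∀ g : G, ∀ p ∈ S, A (g • p) = A p)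
    (hc : ∀ p ∈ S, M.chi p x = A p + if p = p₀ then ε else 0) (hp : p ∈ S) (hp' : p' ∈ S)
    (h1 : Ind M p π) (h2 : π ∈ M.Prim) (h1' : Ind M p' π') (h2' : π' ∈ M.Prim) (g h : G) :
    M.chi (g • a) (M.ρ h (π - π')) = A p - A p' +
      ((if h • p = g • p₀ then ε else 0) - if h • p' = g • p₀ then ε else 0) := by
  rw [map_sub, chi_sub, ← recip_ind (hx.act g) (h1.act h) (M.Prim_stab h π h2),
    ← recip_ind (hx.act g) (h1'.act h) (M.Prim_stab h π' h2'),
    chi_prime hS ha hx hA hc g (hS h p hp), chi_prime hS ha hx hA hc g (hS h p' hp'),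
    hA h p hp, hA h p' hp']
  ring

theorem sum_two {S : Finset P} {γ : P → H} {a b : P} {x z : H}
    (hγ : ∀ p ∈ S, M.ord p (γ p) = 1) (ha : ∀ g : G, g • a = a → g = 1)
    (hb : ∀ g : G, g • b = b → g = 1) (hab : ∀ g g' : G, g • a ≠ g' • b)
    (haS : ∀ g : G, g • a ∉ S) (hbS : ∀ g : G, g • b ∉ S)
    (hx : ∀ q ∈ S, M.tame q x (γ q) = 0)
    (hx' : ∀ q, q ∉ S → (∀ g : G, g • a ≠ q) → (∀ g : G, g • b ≠ q) → M.ord q x = 0)
    (hz : ∀ q ∈ S, M.tame q z (γ q) = 0) (hz' : ∀ q, q ∉ S → M.ord q z = 0) (hP : z ∈ M.Prim) :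
    ∑ g : G, M.ord (g • a) x * M.chi (g • a) z +
      ∑ g : G, M.ord (g • b) x * M.chi (g • b) z = 0 := by
  have h := M.recip x z hP
  rw [finsum_eq_sum_of_support_subset
      (s := Finset.univ.image (fun g : G => g • a) ∪ Finset.univ.image (fun g : G => g • b)),
    Finset.sum_union, Finset.sum_image fun _ _ _ _ e => (smul_inj ha).1 e,
    Finset.sum_image fun _ _ _ _ e => (smul_inj hb).1 e] at h
  · simp only [tame_chi, hz' _ (haS _), hz' _ (hbS _), zero_mul, zero_sub,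
      Finset.sum_neg_distrib] at h
    linear_combination -h
  · rw [Finset.disjoint_left]
    simp only [Finset.mem_image, Finset.mem_univ, true_and, not_exists]
    rintro _ ⟨g, rfl⟩ g' e
    exact hab g g' e.symm
  · intro q hq
    by_contra hn
    simp only [Finset.coe_union, Finset.coe_image, Finset.coe_univ, Set.image_univ, Set.mem_union,
      Set.mem_range, not_or, not_exists] at hn
    apply hq
    by_cases hS : q ∈ S
    · show M.tame q x z = 0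
      rw [tame_eq M (hγ q hS), hx q hS, hz q hS, mul_zero, mul_zero, sub_zero]
    · exact M.tame_unr q x z (hx' q hS hn.1 hn.2) (hz' q hS)

theorem ord_orbit (hG : (Fintype.card G : k) ≠ 0) {S : Finset P}
    (hS : ∀ g : G, ∀ p ∈ S, g • p ∈ S) {a p₀ : P} {x y α : H} {A : P → k} {ε : k} (hε : ε ≠ 0)
    (ha : a ∉ S) (hy : Ind M a y) (hA : ∀ g : G, ∀ p ∈ S, A (g • p) = A p)
    (hc : ∀ p ∈ S, M.chi p y = A p + if p = p₀ then ε else 0) (hp : p₀ ∈ S)
    (hα : ∀ g, M.ρ g α = α) (hP : y - α ∈ M.Prim) (hx : nrm M.ρ x = 0)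
    (hx' : ∀ q, q ∉ S → M.ord q x = 0) (hχ : ∀ g : G, M.chi (g • a) x = 0) (g : G) :
    M.ord (g • p₀) x = 0 := by
  have key : ∀ g : G, ∑ q ∈ S, M.ord q x * A q + M.ord (g • p₀) x * ε = 0 := by
    intro g
    have h1 : M.Phi x (M.ρ g y) = 0 := by
      have e : M.ρ g y = M.ρ g (y - α) + α := by rw [map_sub, hα, sub_add_cancel]
      rw [e, Phi_add_right, Phi_inv M hG hx hα, add_zero]
      exact M.recip x _ (M.Prim_stab g _ hP)
    rw [Phi_eq, D_ind (hy.act g), hχ, zero_sub, neg_eq_zero,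
      finsum_eq_sum_of_support_subset (s := S) (fun q => M.ord q x * M.chi q (M.ρ g y))
        fun q hq => by_contra fun hn => left_ne_zero_of_mul hq (hx' q hn),
      Finset.sum_congr rfl fun q hq => by rw [chi_prime hS ha hy hA hc g hq]] at h1
    simpa only [mul_add, Finset.sum_add_distrib, mul_ite, mul_zero, Finset.sum_ite_eq',
      if_pos (hS g _ hp)] using h1
  have h2 : ∀ g' : G, M.ord (g' • p₀) x = M.ord (g • p₀) x := fun g' =>
    mul_right_cancel₀ hε (by linear_combination key g' - key g)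
  have h3 := sum_ord hx p₀
  simp only [h2, Finset.sum_const, Finset.card_univ, nsmul_eq_mul] at h3
  exact (mul_eq_zero.1 h3).resolve_left hG

theorem comb_mem {π : H} (hπ : π ∈ M.Prim) (t : G → k) : ∑ g, t g • M.ρ g π ∈ M.Prim :=
  sum_mem fun g _ => M.Prim.smul_mem _ (M.Prim_stab g π hπ)

theorem nrm_comb {t : G → k} (ht : ∑ g, t g = 0) (π : H) :
    nrm M.ρ (∑ g, t g • M.ρ g π) = 0 := by
  simp only [map_sum, map_smul, nrm_act, ← Finset.sum_smul, ht, zero_smul]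

theorem Ok.tame_comb {T : Finset P} {p : P} {π : H} (h : Ok M T p π)
    (hT : ∀ g : G, ∀ p ∈ T, g • p ∈ T) (t : G → k) {q : P} (hq : q ∈ T) (y : H) :
    M.tame q (∑ g, t g • M.ρ g π) y = 0 := by
  simp only [map_sum, map_smul, LinearMap.sum_apply, LinearMap.smul_apply, h.tame_zero hT _ hq,
    smul_zero, Finset.sum_const_zero]

end MachineAux

open MachineAux in
open Classical in
/-- the Selmer machine -/
theorem machine {k G H P : Type} [Field k] [Fintype k] [Group G] [Fintype G] [AddCommGroup H]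
    [Module k H] [MulAction G P] (hcard : Fintype.card G < Fintype.card k)
    (hG : (Fintype.card G : k) ≠ 0) (h2 : (2 : k) ≠ 0) (hG1 : 1 < Fintype.card G)
    (M : Mach k G H P) (L : Submodule k H) (hL : M.AxL L) (hK : M.AxK) (hR : M.AxR) :
    ∃ (S : Finset P) (γ : P → H) (ϖ : H) (p₁ p₃ : P), p₁ ∈ S ∧ p₃ ∈ S ∧
      (∀ g : G, ∀ p ∈ S, g • p ∈ S) ∧ (∀ p ∈ S, M.Good p) ∧
      (∀ p ∈ S, M.ord p (γ p) = 1 ∧ ∀ g : G, M.ρ g (γ p) = γ p ∧ γ (g • p) = γ p) ∧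
      ϖ ∈ M.UL ∧ (∀ g, M.ρ g ϖ = ϖ) ∧ (∀ q, M.ord q ϖ = if q ∈ S then 1 else 0) ∧
      ∀ (c α πa πb : H) (a b : P) (A B : P → k) (εa εb : k), εa ≠ 0 → εb ≠ 0 →
        (∀ g, M.ρ g α = α) → πa - α ∈ M.Prim → πb - α ∈ M.Prim →
        (∀ g : G, g • a = a → g = 1) → (∀ g : G, g • b = b → g = 1) → a ∉ S → b ∉ S →
        (∀ q, M.ord q πa = if q = a then 1 else 0) → (∀ q, M.ord q πb = if q = b then 1 else 0) →
        (∀ g : G, ∀ p ∈ S, A (g • p) = A p) → (∀ g : G, ∀ p ∈ S, B (g • p) = B p) →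
        (∀ p ∈ S, M.chi p πa = A p + if p = p₁ then εa else 0) →
        (∀ p ∈ S, M.chi p πb = B p + if p = p₃ then εb else 0) →
        (∀ p ∈ S, M.ord p c = 1 ∧ M.tame p c (γ p) = 0) →
        (∀ g : G, M.ord (g • a) c ≠ 0) → (∀ g : G, M.ord (g • b) c ≠ 0) →
        (∀ q, q ∉ S → q ∉ MulAction.orbit G a → q ∉ MulAction.orbit G b → M.ord q c = 0) →
        b ∉ MulAction.orbit G a ∧ ∀ x ∈ L, nrm M.ρ x = 0 →
          (∀ q, M.ord q c = 0 → M.ord q x = 0) → (∀ q, M.tame q x c = 0) → x = 0 := by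
  obtain ⟨S₀, γ₀, ϖ₀, k1, k2, k3, k4, k5, k6, k7⟩ := kill hcard hG h2 M L hL hK
  have b0 : Bas M S₀ γ₀ ϖ₀ := ⟨k1, k2, k3, k4, k5, k6⟩
  obtain ⟨S₁, γ₁, ϖ₁, p₁, p₂, π₁, π₂, b1, Q⟩ := b0.pair hcard hR
  obtain ⟨S, γ, ϖ, p₃, p₄, π₃, π₄, b2, R⟩ := b1.pair hcard hR
  have s01 : ∀ q ∈ S₀, q ∈ S₁ := fun q hq => (Q.mem q).2 (Or.inl hq)
  have s1 : ∀ q ∈ S₁, q ∈ S := fun q hq => (R.mem q).2 (Or.inl hq)
  have m1 : ∀ g : G, g • p₁ ∈ S₁ := fun g => (Q.mem _).2 (Or.inr (Or.inl ⟨g, rfl⟩))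
  have m2 : ∀ g : G, g • p₂ ∈ S₁ := fun g => (Q.mem _).2 (Or.inr (Or.inr ⟨g, rfl⟩))
  have m3 : ∀ g : G, g • p₃ ∈ S := fun g => (R.mem _).2 (Or.inr (Or.inl ⟨g, rfl⟩))
  have m4 : ∀ g : G, g • p₄ ∈ S := fun g => (R.mem _).2 (Or.inr (Or.inr ⟨g, rfl⟩))
  have n3 := notMem_act b1.stab R.ok.notMem
  have n4 := notMem_act b1.stab R.ok'.notMem
  have i1 : p₁ ∈ S := by simpa using s1 _ (m1 1)
  have i2 : p₂ ∈ S := by simpa using s1 _ (m2 1)
  have i3 : p₃ ∈ S := by simpa using m3 1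
  have i4 : p₄ ∈ S := by simpa using m4 1
  have d12 : ∀ g g' : G, g • p₂ ≠ g' • p₁ := fun g g' e =>
    Q.ne (g⁻¹ * g') (by rw [mul_smul, ← e, inv_smul_smul])
  have d34 : ∀ g g' : G, g • p₄ ≠ g' • p₃ := fun g g' e =>
    R.ne (g⁻¹ * g') (by rw [mul_smul, ← e, inv_smul_smul])
  have d13 : ∀ g g' : G, g • p₁ ≠ g' • p₃ := fun g g' e => n3 g' (e ▸ m1 g)
  have d23 : ∀ g g' : G, g • p₂ ≠ g' • p₃ := fun g g' e => n3 g' (e ▸ m2 g)
  have d41 : ∀ g g' : G, g • p₄ ≠ g' • p₁ := fun g g' e => n4 g (e ▸ m1 g')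
  have d42 : ∀ g g' : G, g • p₄ ≠ g' • p₂ := fun g g' e => n4 g (e ▸ m2 g')
  have cr : ∀ {p p' : P} {π π' : H}, Ind M p π → (∀ g : G, g • p ∈ S₁) → Ok M S₁ p' π' →
      ∀ g h : G, M.chi (h • p') (M.ρ g π) = 0 := fun {p p' π π'} h1 h2 h3 g h => by
    rw [recip_ind (h1.act g) (h3.ind.act h) (M.Prim_stab h _ h3.prim),
      h3.chi_zero b1.stab h (h2 g)]
  have t12 : ∀ q ∈ S, ∀ g, M.tame q (M.ρ g (π₁ - π₂)) (γ q) = 0 := by
    intro q hq g
    have aux : ∀ {p' : P} {π' : H}, Ok M S₁ p' π' → ∀ h : G,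
        M.tame (h • p') (M.ρ g (π₁ - π₂)) (γ (h • p')) = 0 := fun {p' π'} h3 h => by
      have h4 := notMem_act b1.stab h3.notMem h
      rw [tame_chi, map_sub, map_sub, chi_sub, cr Q.ok.ind m1 h3, cr Q.ok'.ind m2 h3,
        (Q.ok.ind.act g).ne (ne_of_mem_of_not_mem (m1 g) h4).symm,
        (Q.ok'.ind.act g).ne (ne_of_mem_of_not_mem (m2 g) h4).symm]
      ring
    rcases (R.mem q).1 hq with hq | ⟨h, rfl⟩ | ⟨h, rfl⟩
    · rw [R.eq q hq, Q.tame q hq]
    · exact aux R.ok h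
    · exact aux R.ok' h
  refine ⟨S, γ, ϖ, p₁, p₃, i1, i3, b2.stab, b2.good, b2.gam, b2.mem, b2.inv, b2.ord, ?_⟩
  intro c α πa πb a b A B εa εb hεa hεb hα hPa hPb fa fb ha hb oa ob hA hB ca cb hc hca hcb hc0
  have a12 : ∀ g h : G, M.chi (g • a) (M.ρ h (π₁ - π₂)) =
      A p₁ - A p₂ + if h = g then εa else 0 := fun g h => by
    rw [chi_delta b2.stab ha oa hA ca i1 i2 Q.ok.ind Q.ok.prim Q.ok'.ind Q.ok'.prim,
      if_neg (d12 h g), sub_zero]
    simp only [smul_inj Q.ok.good.1]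
  have b12 : ∀ g h : G, M.chi (g • b) (M.ρ h (π₁ - π₂)) = B p₁ - B p₂ := fun g h => by
    rw [chi_delta b2.stab hb ob hB cb i1 i2 Q.ok.ind Q.ok.prim Q.ok'.ind Q.ok'.prim,
      if_neg (d13 h g), if_neg (d23 h g), sub_zero, add_zero]
  have a34 : ∀ g h : G, M.chi (g • a) (M.ρ h (π₃ - π₄)) = A p₃ - A p₄ := fun g h => by
    rw [chi_delta b2.stab ha oa hA ca i3 i4 R.ok.ind R.ok.prim R.ok'.ind R.ok'.prim,
      if_neg (d13 g h).symm, if_neg (d41 h g), sub_zero, add_zero]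
  have b34 : ∀ g h : G, M.chi (g • b) (M.ρ h (π₃ - π₄)) =
      B p₃ - B p₄ + if h = g then εb else 0 := fun g h => by
    rw [chi_delta b2.stab hb ob hB cb i3 i4 R.ok.ind R.ok.prim R.ok'.ind R.ok'.prim,
      if_neg (d34 h g), sub_zero]
    simp only [smul_inj R.ok.good.1]
  have hab : ∀ g g' : G, g • a ≠ g' • b := by
    intro g g' e
    obtain ⟨g₀, hg₀⟩ := Fintype.exists_ne_of_one_lt_card hG1 g
    have e1 := a12 g g
    have e2 := a12 g g₀
    rw [e, b12] at e1 e2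
    rw [if_pos rfl] at e1
    rw [if_neg hg₀] at e2
    exact hεa (by linear_combination e2 - e1)
  refine ⟨fun ⟨g, e⟩ => hab g 1 (by rw [one_smul]; exact e), fun x hxL hx hxo hxt => ?_⟩
  have haS := notMem_act b2.stab ha
  have hbS := notMem_act b2.stab hb
  have xγ : ∀ q ∈ S, M.tame q x (γ q) = 0 := fun q hq => by
    rw [tame_eq M (hc q hq).1, hxt, tame_anti M q (γ q) c, (hc q hq).2]
    ring
  have xo : ∀ q, q ∉ S → (∀ g : G, g • a ≠ q) → (∀ g : G, g • b ≠ q) → M.ord q x = 0 :=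
    fun q h1 h2 h3 => hxo q (hc0 q h1 (fun ⟨g, e⟩ => h2 g e) fun ⟨g, e⟩ => h3 g e)
  have two : ∀ {p p' : P} {π π' : H}, Ind M p π → Ind M p' π' → π ∈ M.Prim → π' ∈ M.Prim →
      p ∈ S → p' ∈ S → (∀ q ∈ S, ∀ g, M.tame q (M.ρ g (π - π')) (γ q) = 0) → ∀ h : G,
      ∑ g : G, M.ord (g • a) x * M.chi (g • a) (M.ρ h (π - π')) +
        ∑ g : G, M.ord (g • b) x * M.chi (g • b) (M.ρ h (π - π')) = 0 :=
    fun {p p' π π'} h1 h2 h3 h4 h5 h6 h7 h =>
      sum_two (fun q hq => (b2.gam q hq).1) fa fb hab haS hbS xγ xo (fun q hq => h7 q hq h)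
        (fun q hq => by
          rw [map_sub, map_sub, (h1.act h).ne (ne_of_mem_of_not_mem (b2.stab h p h5) hq).symm,
            (h2.act h).ne (ne_of_mem_of_not_mem (b2.stab h p' h6) hq).symm, sub_zero])
        (M.Prim_stab h _ (sub_mem h3 h4))
  have xa : ∀ h : G, M.ord (h • a) x = 0 := fun h => by
    have := two Q.ok.ind Q.ok'.ind Q.ok.prim Q.ok'.prim i1 i2 t12 h
    simp only [a12, b12, mul_add, Finset.sum_add_distrib, ← Finset.sum_mul, sum_ord hx, mul_ite,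
      mul_zero, Finset.sum_ite_eq, Finset.mem_univ, if_true, zero_mul, zero_add, add_zero] at this
    exact (mul_eq_zero.1 this).resolve_right hεa
  have xb : ∀ h : G, M.ord (h • b) x = 0 := fun h => by
    have := two R.ok.ind R.ok'.ind R.ok.prim R.ok'.prim i3 i4 R.tame h
    simp only [a34, b34, mul_add, Finset.sum_add_distrib, ← Finset.sum_mul, sum_ord hx, mul_ite,
      mul_zero, Finset.sum_ite_eq, Finset.mem_univ, if_true, zero_mul, zero_add] at this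
    exact (mul_eq_zero.1 this).resolve_right hεb
  have xo' : ∀ q, q ∉ S → M.ord q x = 0 := fun q hq => by
    by_contra h0
    exact h0 (xo q hq (fun g e => h0 (e ▸ xa g)) fun g e => h0 (e ▸ xb g))
  have xχ : ∀ q, M.ord q x = 0 → M.ord q c ≠ 0 → M.chi q x = 0 := fun q h1 h2 => by
    have := hxt q
    rw [tame_chi, h1, zero_mul, sub_zero] at this
    exact (mul_eq_zero.1 this).resolve_left h2
  have x1 := ord_orbit hG b2.stab hεa ha oa hA ca i1 hα hPa hx xo' fun g => xχ _ (xa g) (hca g)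
  have x3 := ord_orbit hG b2.stab hεb hb ob hB cb i3 hα hPb hx xo' fun g => xχ _ (xb g) (hcb g)
  have hz : x - (∑ g : G, M.ord (g • p₂) x • M.ρ g π₂ + ∑ g : G, M.ord (g • p₄) x • M.ρ g π₄) =
      0 := by
    refine k7 _ (sub_mem hxL (hL.1 (add_mem (comb_mem Q.ok'.prim _) (comb_mem R.ok'.prim _))))
      ?_ (fun q hq => ?_) fun q hq => ?_
    · rw [map_sub, map_add, hx, nrm_comb (sum_ord hx _), nrm_comb (sum_ord hx _), add_zero,
        sub_zero]
    · rw [map_sub, map_add]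
      by_cases h2 : ∃ g : G, g • p₂ = q
      · obtain ⟨g, rfl⟩ := h2
        rw [ord_comb Q.ok'.ind Q.ok'.good.1, ord_comb_ne R.ok'.ind fun g' => d42 g' g, add_zero,
          sub_self]
      rw [ord_comb_ne Q.ok'.ind fun g e => h2 ⟨g, e⟩, zero_add]
      by_cases h4 : ∃ g : G, g • p₄ = q
      · obtain ⟨g, rfl⟩ := h4
        rw [ord_comb R.ok'.ind R.ok'.good.1, sub_self]
      rw [ord_comb_ne R.ok'.ind fun g e => h4 ⟨g, e⟩, sub_zero]
      by_cases hS : q ∈ S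
      · rcases (R.mem q).1 hS with h | ⟨g, rfl⟩ | h
        · rcases (Q.mem q).1 h with h | ⟨g, rfl⟩ | h
          exacts [absurd h hq, x1 g, absurd h h2]
        exacts [x3 g, absurd h h4]
      · exact xo' q hS
    · rw [map_sub, map_add, LinearMap.sub_apply, LinearMap.add_apply,
        Q.ok'.tame_comb b0.stab _ hq, R.ok'.tame_comb b1.stab _ (s01 q hq), add_zero, sub_zero,
        ← Q.eq q hq, ← R.eq q (s01 q hq), xγ q (s1 q (s01 q hq))]
  rw [sub_eq_zero] at hz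
  have z2 := Q.inj (fun g => M.ord (g • p₂) x) fun h => by
    have := xχ _ (x1 h) (by rw [(hc _ (s1 _ (m1 h))).1]; exact one_ne_zero)
    rw [hz, chi_add, chi_comb, chi_comb] at this
    simpa only [R.ok'.chi_zero b1.stab _ (m1 h), mul_zero, Finset.sum_const_zero, add_zero,
      ← hz] using this
  have z4 := R.inj (fun g => M.ord (g • p₄) x) fun h => by
    have := xχ _ (x3 h) (by rw [(hc _ (m3 h)).1]; exact one_ne_zero)
    rw [hz, chi_add, chi_comb, chi_comb] at this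
    simpa only [cr Q.ok'.ind m2 R.ok, mul_zero, Finset.sum_const_zero, zero_add, ← hz] using this
  rw [hz]
  simp only [congrFun z2, congrFun z4, Pi.zero_apply, zero_smul, Finset.sum_const_zero, add_zero]

end Pool.Agent.MP_14ad9d_nt.Full
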