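import Mathlib

set_option autoImplicit false

namespace Pool.Agent.MP_14ad9d_nt.Full

section Orth

variable {k G H : Type} [Field k] [Group G] [AddCommGroup H] [Module k H]

/-- a subspace stable under the group -/
def Stab (ρ : Representation k G H) (A : Submodule k H) : Prop := ∀ g, ∀ x ∈ A, ρ g x ∈ A

/-- `A` is finite-dimensional modulo `B` -/
def FinQ (A B : Submodule k H) : Prop := ∃ s : Finset H, A ≤ B ⊔ Submodule.span k (s : Set H)

/-- `b` is an invariant symmetric form on `A` whose radical on `A` is `B` -/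
def IsForm (ρ : Representation k G H) (A B : Submodule k H) (b : H →ₗ[k] H →ₗ[k] k) : Prop :=
  (∀ x ∈ A, ∀ y ∈ A, b x y = b y x) ∧ (∀ g, ∀ x ∈ A, ∀ y ∈ A, b (ρ g x) (ρ g y) = b x y) ∧
    ∀ x ∈ A, (∀ y ∈ A, b x y = 0) ↔ x ∈ B

/-- the subquotient of `A` by `B` is an orthogonal representation -/
def OrthQ (ρ : Representation k G H) (A B : Submodule k H) : Prop := ∃ b, IsForm ρ A B b

/-- the norm element of the group -/
def nrm [Fintype G] (ρ : Representation k G H) : H →ₗ[k] H := ∑ g, ρ g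

end Orth

/-- abstract data of tame symbols at a set of primes permuted by a finite group -/
structure Mach (k G H P : Type) [Field k] [Group G] [AddCommGroup H] [Module k H]
    [MulAction G P] where
  ρ : Representation k G H
  ord : P → H →ₗ[k] k
  tame : P → H →ₗ[k] H →ₗ[k] k
  unif : P → H
  Prim : Submodule k H
  UL : Submodule k H
  ord_unif : ∀ p, ord p (unif p) = 1
  ord_act : ∀ g p x, ord (g • p) (ρ g x) = ord p x
  tame_act : ∀ g p x y, tame (g • p) (ρ g x) (ρ g y) = tame p x y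
  ord_fin : ∀ x, {p | ord p x ≠ 0}.Finite
  tame_self : ∀ p x, tame p x x = 0
  tame_unr : ∀ p x y, ord p x = 0 → ord p y = 0 → tame p x y = 0
  Prim_stab : Stab ρ Prim
  UL_stab : Stab ρ UL
  Prim_le : Prim ≤ UL
  recip : ∀ x, ∀ y ∈ Prim, ∑ᶠ p, tame p x y = 0

namespace Mach

variable {k G H P : Type} [Field k] [Group G] [AddCommGroup H] [Module k H] [MulAction G P]
  (M : Mach k G H P)

/-- the residue symbol -/
def chi (p : P) (x : H) : k := M.tame p x (M.unif p)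

/-- the sum of the tame symbols -/
noncomputable def Phi (x y : H) : k := ∑ᶠ p, M.tame p x y

/-- a prime with free orbit and invariant units of every residue symbol -/
def Good (p : P) : Prop :=
  (∀ g : G, g • p = p → g = 1) ∧
    ∀ μ : k, ∃ u, (∀ g, M.ρ g u = u) ∧ M.ord p u = 0 ∧ M.chi p u = μ

/-- classes unramified outside `S` -/
def Unr (S : Set P) : Submodule k H := ⨅ p ∈ Sᶜ, LinearMap.ker (M.ord p)

open Classical in
/-- existence of primes with prescribed symbols on a new subspace -/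
def AxK [Fintype G] : Prop :=
  ∀ X : Submodule k H, Stab M.ρ X → FinQ X ⊥ → X ≤ LinearMap.ker (nrm M.ρ) →
    ∀ (f : H →ₗ[k] k) (T : Finset P), ∃ p, p ∉ T ∧ M.Good p ∧
      (∀ x ∈ X, M.ord p x = 0 ∧ M.chi p x = f x) ∧
      ∃ ϖ ∈ M.UL, (∀ g, M.ρ g ϖ = ϖ) ∧
        ∀ q, M.ord q ϖ = if q ∈ MulAction.orbit G p then 1 else 0

open Classical in
/-- existence of primary prime elements with prescribed symbols at finitely many primes -/
def AxR : Prop :=
  ∀ (T : Finset P) (b : P → k), ∃ p, p ∉ T ∧ M.Good p ∧ ∃ π ∈ M.Prim,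
    (∀ q, M.ord q π = if q = p then 1 else 0) ∧ ∀ q ∈ T, M.chi q π = b q

/-- an isotropic wild condition whose new Selmer group is orthogonal -/
def AxL [Fintype G] (L : Submodule k H) : Prop :=
  M.Prim ≤ L ∧ Stab M.ρ L ∧ (∀ x ∈ L, ∀ y ∈ L, M.Phi x y = 0) ∧ FinQ (L ⊓ M.Unr ∅) ⊥ ∧
    OrthQ M.ρ (L ⊓ M.Unr ∅ ⊓ LinearMap.ker (nrm M.ρ)) ⊥

/-- the data needed for the duality argument -/
structure Dual [Fintype G] where
  ι : H →ₗ[k] H
  ιP : P → P
  ι_ι : ∀ x, ι (ι x) = x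
  ιP_ιP : ∀ p, ιP (ιP p) = p
  ι_ρ : ∀ g x, ι (M.ρ g x) = M.ρ g (ι x)
  ord_ι : ∀ p x, M.ord (ιP p) (ι x) = M.ord p x
  tame_ι : ∀ p x y, M.tame (ιP p) (ι x) (ι y) = -M.tame p x y
  P0 : Submodule k H
  L0 : Submodule k H
  P0_le : P0 ≤ L0
  P0_ι : ∀ x ∈ P0, ι x ∈ P0
  L0_ι : ∀ x ∈ L0, ι x ∈ L0
  Prim_iff : ∀ x, x ∈ M.Prim ↔ ∀ g, M.ρ g x ∈ P0
  wa : ∀ (S : Finset P) (o c : P → k) (z : G → H), ∃ x, (∀ g, M.ρ g x - z g ∈ P0) ∧
    ∀ p ∈ S, M.ord p x = o p ∧ M.chi p x = c p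
  L1_iso : ∀ x y, (∀ g, M.ρ g x ∈ L0) → (∀ g, M.ρ g y ∈ L0) → M.Phi x y = 0
  d : ℕ
  dim0 : ∃ s : Finset H, s.card ≤ 2 * d ∧ P0 ⊔ Submodule.span k (s : Set H) = ⊤
  S : Finset P
  S_act : ∀ g : G, ∀ p ∈ S, g • p ∈ S
  S_ι : ∀ p ∈ S, ιP p ∈ S
  U_fin : FinQ (M.Unr S) ⊥
  U_dim : S.card + Fintype.card G * d ≤ Module.finrank k (M.Unr S)
  U_orth : OrthQ M.ρ (M.Unr S ⊓ LinearMap.ker (ι - LinearMap.id)) ⊥
  detect : ∀ x, (∀ p, M.ord p x = 0) → (∀ p ∈ S, M.chi p x = 0) → x = 0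

end Mach

end Pool.Agent.MP_14ad9d_nt.Full
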