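import Pool.Agent.MP_14ad9d_nt.Full.ODefs

set_option autoImplicit false

namespace Pool.Agent.MP_14ad9d_nt.Full

variable {k G H : Type} [Field k] [Group G] [Fintype G] [AddCommGroup H] [Module k H]
  (ρ : Representation k G H)

namespace OrthAAux

omit [Fintype G] in
theorem act_mul (g h : G) (x : H) : ρ g (ρ h x) = ρ (g * h) x := by rw [map_mul]; rfl

omit [Fintype G] in
theorem act_inv (g : G) (x : H) : ρ g (ρ g⁻¹ x) = x := by
  rw [act_mul, mul_inv_cancel, map_one]; rfl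

omit [Fintype G] in
theorem act_inv' (g : G) (x : H) : ρ g⁻¹ (ρ g x) = x := by
  rw [act_mul, inv_mul_cancel, map_one]; rfl

/-- an equivariant projection onto a stable subspace -/
theorem proj (hG : (Fintype.card G : k) ≠ 0) {B : Submodule k H} (hB : Stab ρ B) :
    ∃ π : H →ₗ[k] H, (∀ x, π x ∈ B) ∧ (∀ x ∈ B, π x = x) ∧ ∀ g x, π (ρ g x) = ρ g (π x) := by
  obtain ⟨p, hp⟩ := LinearMap.exists_extend (LinearMap.id : B →ₗ[k] B)
  have hp' : ∀ x ∈ B, (p x : H) = x := fun x hx =>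
    congrArg Subtype.val (LinearMap.congr_fun hp ⟨x, hx⟩)
  refine ⟨(Fintype.card G : k)⁻¹ • ∑ g, ρ g⁻¹ ∘ₗ B.subtype ∘ₗ p ∘ₗ ρ g, fun x => ?_,
    fun x hx => ?_, fun g x => ?_⟩ <;>
    simp only [LinearMap.smul_apply, LinearMap.sum_apply, LinearMap.comp_apply,
      Submodule.subtype_apply]
  · exact B.smul_mem _ (B.sum_mem fun g _ => hB _ _ (p _).2)
  · rw [Finset.sum_congr rfl fun g _ => by rw [hp' _ (hB g x hx), act_inv'], Finset.sum_const,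
      Finset.card_univ, ← Nat.cast_smul_eq_nsmul k, smul_smul, inv_mul_cancel₀ hG, one_smul]
  · rw [map_smul, map_sum]
    refine congrArg _ (Fintype.sum_equiv (Equiv.mulRight g) _ _ fun h => ?_)
    rw [Equiv.coe_mulRight, act_mul, act_mul, mul_inv_rev, mul_inv_cancel_left]

theorem fin {A C : Submodule k H} (hf : FinQ A C) {M : Type} [AddCommGroup M] [Module k M]
    (σ : H →ₗ[k] M) (hσ : ∀ c ∈ C, σ c = 0) : FiniteDimensional k (A.map σ) := by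
  obtain ⟨s, hs⟩ := hf
  refine Submodule.finiteDimensional_of_le (S₂ := (Submodule.span k (s : Set H)).map σ) ?_
  rintro _ ⟨x, hx, rfl⟩
  obtain ⟨c, hc, y, hy, rfl⟩ := Submodule.mem_sup.1 (hs hx)
  exact ⟨y, hy, by rw [map_add, hσ c hc, zero_add]⟩

/-- representation of functionals by a form with radical `C` -/
theorem riesz {A C : Submodule k H} (hCA : C ≤ A) (hf : FinQ A C) {b : H →ₗ[k] H →ₗ[k] k}
    (hs : ∀ x ∈ A, ∀ y ∈ A, b x y = b y x) (hr : ∀ x ∈ A, (∀ y ∈ A, b x y = 0) ↔ x ∈ C) :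
    ∃ R : (H →ₗ[k] k) →ₗ[k] H, ∀ φ, R φ ∈ A ∧
      ((∀ c ∈ C, φ c = 0) → ∀ y ∈ A, b (R φ) y = φ y) := by
  classical
  obtain ⟨p, hp⟩ := LinearMap.exists_extend (LinearMap.id : C →ₗ[k] C)
  have hp' : ∀ x ∈ C, (p x : H) = x := fun x hx =>
    congrArg Subtype.val (LinearMap.congr_fun hp ⟨x, hx⟩)
  set σ : H →ₗ[k] H := LinearMap.id - C.subtype ∘ₗ p with hσ
  have σa : ∀ x, σ x = x - p x := fun x => rfl
  have σ0 : ∀ c ∈ C, σ c = 0 := fun c hc => by rw [σa, hp' c hc, sub_self]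
  have := fin hf σ σ0
  have hA : A.map σ ≤ A := by
    rintro _ ⟨x, hx, rfl⟩
    exact A.sub_mem hx (hCA (p x).2)
  have ext : ∀ x ∈ A, ∀ y ∈ A, b x y = b x (σ y) := fun x hx y _ => by
    rw [σa, map_sub, hs x hx _ (hCA (p y).2), (hr _ (hCA (p y).2)).2 (p y).2 x hx, sub_zero]
  let B : LinearMap.BilinForm k (A.map σ) := b.compl₁₂ (A.map σ).subtype (A.map σ).subtype
  have hl : B.SeparatingLeft := by
    rintro ⟨_, x, hx, rfl⟩ h
    have hx' := hA ⟨x, hx, rfl⟩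
    have h1 := (hr _ hx').1 fun y hy => (ext _ hx' y hy).trans (h ⟨σ y, y, hy, rfl⟩)
    have h2 := σ0 _ h1
    rw [σa x, map_sub, σ0 _ (p x).2, sub_zero] at h2
    exact Subtype.ext h2
  have hB : B.Nondegenerate := ⟨hl, fun x h => hl x fun y => (hs _ (hA x.2) _ (hA y.2)).trans (h y)⟩
  refine ⟨(A.map σ).subtype ∘ₗ (B.toDual hB).symm.toLinearMap ∘ₗ (A.map σ).subtype.dualMap,
    fun φ => ⟨hA (Subtype.property _), fun hφ y hy => ?_⟩⟩
  refine (ext _ (hA (Subtype.property _)) y hy).trans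
    ((LinearMap.BilinForm.apply_toDual_symm_apply (hB := hB)
      ((A.map σ).subtype.dualMap φ) ⟨σ y, y, hy, rfl⟩).trans ?_)
  change φ (σ y) = _
  rw [σa, map_sub, hφ _ (p y).2, sub_zero]

theorem sect (A C : Submodule k H) (ψ : H →ₗ[k] H) :
    ∃ s : H →ₗ[k] H, ∀ u, s u ∈ A ∧ (u ∈ A.map ψ ⊔ C → u - ψ (s u) ∈ C) := by
  set f : A →ₗ[k] H ⧸ C := C.mkQ ∘ₗ ψ ∘ₗ A.subtype
  obtain ⟨g0, h0⟩ := f.rangeRestrict.exists_rightInverse_of_surjective f.range_rangeRestrict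
  obtain ⟨g, hg⟩ := LinearMap.exists_extend g0
  refine ⟨A.subtype ∘ₗ g ∘ₗ C.mkQ, fun u => ⟨Subtype.property _, fun hu => ?_⟩⟩
  obtain ⟨_, ⟨x, hx, rfl⟩, c, hc, rfl⟩ := Submodule.mem_sup.1 hu
  have e : C.mkQ (ψ x + c) = f ⟨x, hx⟩ := by
    rw [map_add, (Submodule.Quotient.mk_eq_zero C).2 hc |> (show C.mkQ c = 0 from ·), add_zero]
    rfl
  have e1 := LinearMap.congr_fun hg ⟨f ⟨x, hx⟩, _, rfl⟩
  have e2 := congrArg Subtype.val (LinearMap.congr_fun h0 ⟨f ⟨x, hx⟩, _, rfl⟩)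
  refine (Submodule.Quotient.eq C).1 ?_
  change C.mkQ (ψ x + c) = f (g (C.mkQ (ψ x + c)))
  rw [e]
  exact e2.symm.trans (congrArg f e1.symm)

/-- the averaged square of a functional -/
def sqf (f : H →ₗ[k] k) : H →ₗ[k] H →ₗ[k] k :=
  ∑ g, (LinearMap.mul k k).compl₁₂ (f ∘ₗ ρ g) (f ∘ₗ ρ g)

theorem sqf_apply (f : H →ₗ[k] k) (x y : H) : sqf ρ f x y = ∑ g, f (ρ g x) * f (ρ g y) := by
  simp [sqf, LinearMap.sum_apply]

theorem sqf_comm (f : H →ₗ[k] k) (x y : H) : sqf ρ f x y = sqf ρ f y x := by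
  simp only [sqf_apply, mul_comm]

theorem sqf_act (f : H →ₗ[k] k) (g : G) (x y : H) : sqf ρ f (ρ g x) (ρ g y) = sqf ρ f x y := by
  simp only [sqf_apply, act_mul]
  exact Fintype.sum_equiv (Equiv.mulRight g) _ _ fun h => rfl

theorem avg (hG : (Fintype.card G : k) ≠ 0) (h2 : (2 : k) ≠ 0) {A : Submodule k H}
    (hA : Stab ρ A) (hf : FinQ A ⊥) {b : H →ₗ[k] H →ₗ[k] k} (hb : IsForm ρ A ⊥ b)
    (h : ∀ f, ∀ x ∈ A, ∀ y ∈ A, sqf ρ f x y = 0) : A = ⊥ := by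
  have : FiniteDimensional k A := by
    have := fin hf LinearMap.id fun c hc => hc
    rwa [Submodule.map_id] at this
  obtain ⟨p, hp⟩ := LinearMap.exists_extend (LinearMap.id : A →ₗ[k] A)
  let e := Module.finBasis k A
  have he : ∀ u ∈ A, ∀ v, b u v = ∑ i, e.coord i (p u) * b (e i) v := by
    intro u hu v
    have h1 : p u = ⟨u, hu⟩ := LinearMap.congr_fun hp ⟨u, hu⟩
    have h3 := congrArg (fun z : A => b z v) (e.sum_repr ⟨u, hu⟩)
    simp only [Submodule.coe_sum, Submodule.coe_smul, map_sum, map_smul, LinearMap.sum_apply,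
      LinearMap.smul_apply, smul_eq_mul] at h3
    rw [h1]
    exact h3.symm
  refine (Submodule.eq_bot_iff _).2 fun x hx => (hb.2.2 x hx).1 fun y hy => ?_
  have pol : ∀ f f' : H →ₗ[k] k,
      ∑ g, (f (ρ g x) * f' (ρ g y) + f (ρ g y) * f' (ρ g x)) = 0 := by
    intro f f'
    have h3 := h (f + f') x hx y hy
    have h4 := h f x hx y hy
    have h5 := h f' x hx y hy
    rw [sqf_apply] at h3 h4 h5
    rw [← sub_zero (0 : k), ← sub_zero (0 - 0 : k)]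
    nth_rewrite 1 [← h3]
    nth_rewrite 1 [← h4]
    rw [← h5, ← Finset.sum_sub_distrib, ← Finset.sum_sub_distrib]
    refine Finset.sum_congr rfl fun g _ => ?_
    simp only [LinearMap.add_apply]
    ring
  have h6 := Finset.sum_eq_zero (s := Finset.univ) fun i _ => pol (e.coord i ∘ₗ p) (b (e i))
  rw [Finset.sum_comm, Finset.sum_congr rfl (g := fun _ => 2 * b x y) fun g _ => by
    simp only [LinearMap.comp_apply]
    rw [Finset.sum_add_distrib, ← he _ (hA g x hx), ← he _ (hA g y hy), hb.2.1 g x hx y hy,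
      hb.2.1 g y hy x hx, hb.1 y hy x hx, two_mul], Finset.sum_const, Finset.card_univ,
    nsmul_eq_mul] at h6
  simpa [hG, h2] using h6

end OrthAAux

open OrthAAux

theorem orth_ext (hG : (Fintype.card G : k) ≠ 0) {A B C : Submodule k H} (hBA : B ≤ A)
    (hCB : C ≤ B) (hA : Stab ρ A) (hB : Stab ρ B) (hC : Stab ρ C) (hf : FinQ A C)
    (h1 : OrthQ ρ A B) (h2 : OrthQ ρ B C) : OrthQ ρ A C := by
  obtain ⟨b, s1, i1, r1⟩ := h1
  obtain ⟨q, s2, i2, r2⟩ := h2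
  obtain ⟨π, p1, p2, p3⟩ := proj ρ hG hB
  have e : ∀ x y, (b + q.compl₁₂ π π) x y = b x y + q (π x) (π y) := fun _ _ => rfl
  refine ⟨b + q.compl₁₂ π π, fun x hx y hy => ?_, fun g x hx y hy => ?_, fun x hx => ?_⟩ <;>
    simp only [e]
  · rw [s1 x hx y hy, s2 _ (p1 x) _ (p1 y)]
  · rw [i1 g x hx y hy, p3, p3, i2 g _ (p1 x) _ (p1 y)]
  · refine ⟨fun h => ?_, fun h y hy => ?_⟩
    · have a1 : π x ∈ C := (r2 _ (p1 x)).1 fun y hy => by
        have := h y (hBA hy)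
        rwa [s1 x hx y (hBA hy), (r1 y (hBA hy)).2 hy x hx, zero_add, p2 y hy] at this
      have a2 : x ∈ B := (r1 x hx).1 fun y hy => by
        have := h y hy
        rwa [(r2 _ (p1 x)).2 a1 _ (p1 y), add_zero] at this
      rwa [p2 x a2] at a1
    · rw [(r1 x hx).2 (hCB h) y hy, p2 x (hCB h), (r2 x (hCB h)).2 h _ (p1 y), add_zero]

/-- the kernel of a self-adjoint equivariant operator is orthogonal -/
theorem orth_ker (hG : (Fintype.card G : k) ≠ 0) {A C : Submodule k H} (hCA : C ≤ A)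
    (hA : Stab ρ A) (hC : Stab ρ C) (hf : FinQ A C) {b : H →ₗ[k] H →ₗ[k] k}
    (hb : IsForm ρ A C b) (ψ : H →ₗ[k] H) (hψ : ∀ g, ∀ x ∈ A, ψ (ρ g x) - ρ g (ψ x) ∈ C)
    (hψA : ∀ x ∈ A, ψ x ∈ A) (hψC : ∀ x ∈ C, ψ x ∈ C)
    (hadj : ∀ x ∈ A, ∀ y ∈ A, b (ψ x) y = b x (ψ y)) : OrthQ ρ (A ⊓ C.comap ψ) C := by
  induction hn : Module.finrank k (A.map C.mkQ) using Nat.strong_induction_on
    generalizing A b with
  | _ n ih =>
  obtain ⟨s1, i1, r1⟩ := hb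
  have hIA : A.map ψ ⊔ C ≤ A := sup_le (by rintro _ ⟨x, hx, rfl⟩; exact hψA x hx) hCA
  have hCI : C ≤ A.map ψ ⊔ C := le_sup_right
  have hψI : ∀ x ∈ A, ψ x ∈ A.map ψ ⊔ C := fun x hx => Submodule.mem_sup_left ⟨x, hx, rfl⟩
  have hI : Stab ρ (A.map ψ ⊔ C) := by
    intro g u hu
    obtain ⟨_, ⟨x, hx, rfl⟩, c, hc, rfl⟩ := Submodule.mem_sup.1 hu
    rw [map_add, ← sub_sub_cancel (ψ (ρ g x)) (ρ g (ψ x))]
    exact add_mem (sub_mem (hψI _ (hA g x hx)) (hCI (hψ g x hx))) (hCI (hC g c hc))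
  have hK : Stab ρ (A ⊓ C.comap ψ) := fun g x hx => ⟨hA g x hx.1, by
    have := add_mem (hψ g x hx.1) (hC g _ hx.2)
    rwa [sub_add_cancel] at this⟩
  have rc : ∀ x ∈ A, ∀ c ∈ C, b x c = 0 := fun x hx c hc => by
    rw [s1 x hx c (hCA hc), (r1 c (hCA hc)).2 hc x hx]
  have cg : ∀ x ∈ A, ∀ y z, y - z ∈ C → b x y = b x z := fun x hx y z h => by
    rw [← sub_eq_zero, ← map_sub, rc x hx _ h]
  have perp : ∀ x ∈ A ⊓ C.comap ψ, ∀ u ∈ A.map ψ ⊔ C, b x u = 0 := by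
    intro x hx u hu
    obtain ⟨_, ⟨y, hy, rfl⟩, c, hc, rfl⟩ := Submodule.mem_sup.1 hu
    rw [map_add, rc x hx.1 c hc, ← hadj x hx.1 y hy, (r1 _ (hψA x hx.1)).2 hx.2 y hy, add_zero]
  rcases hIA.eq_or_lt with hE | hE
  · exact ⟨0, fun _ _ _ _ => rfl, fun _ _ _ _ _ => rfl, fun x hx =>
      ⟨fun _ => (r1 x hx.1).1 fun y hy => perp x hx y (hE.symm ▸ hy), fun _ _ _ => rfl⟩⟩
  obtain ⟨s, hs⟩ := sect A C ψ
  have sw : ∀ u ∈ A.map ψ ⊔ C, ∀ y ∈ A, b (s u) (ψ y) = b y u := fun u hu y hy => by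
    rw [← hadj _ (hs u).1 y hy, s1 _ (hψA _ (hs u).1) y hy, cg y hy u _ ((hs u).2 hu)]
  have sy : ∀ u ∈ A.map ψ ⊔ C, ∀ v ∈ A.map ψ ⊔ C, b (s u) v = b (s v) u := fun u hu v hv => by
    rw [cg _ (hs u).1 v _ ((hs v).2 hv), sw u hu _ (hs v).1]
  have hlt : Module.finrank k ((A.map ψ ⊔ C).map C.mkQ) < n := by
    have := fin hf C.mkQ fun c hc => (Submodule.Quotient.mk_eq_zero C).2 hc
    refine hn ▸ Submodule.finrank_lt_finrank_of_lt (lt_of_le_of_ne (Submodule.map_mono hIA)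
      fun e => hE.ne ?_)
    have := congrArg (Submodule.comap C.mkQ) e
    rwa [Submodule.comap_map_mkQ, Submodule.comap_map_mkQ, sup_eq_right.2 hCI,
      sup_eq_right.2 hCA] at this
  have hf' : ∀ B ≤ A, FinQ B C := fun B hB => hf.imp fun t ht => hB.trans ht
  have key := ih _ hlt (b := b ∘ₗ s) hCI hI (hf' _ hIA)
    ⟨sy, fun g u hu v hv => ?_, fun u hu => ⟨fun h => ?_, fun h v hv => ?_⟩⟩
    (fun g x hx => hψ g x (hIA hx)) (fun x hx => hψI x (hIA hx)) (fun u hu v hv => ?_) rfl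
  · refine orth_ext ρ hG (inf_le_inf_right _ hIA) (fun c hc => ⟨hCI hc, hψC c hc⟩) hK
      (fun g x hx => ⟨hI g x hx.1, (hK g x ⟨hIA hx.1, hx.2⟩).2⟩) hC (hf' _ inf_le_left)
      ⟨b, fun x hx y hy => s1 x hx.1 y hy.1, fun g x hx y hy => i1 g x hx.1 y hy.1,
        fun x hx => ⟨fun h => ⟨?_, hx.2⟩, fun h y hy => ?_⟩⟩ key
    · by_contra hx'
      obtain ⟨φ, f1, f2⟩ := Submodule.exists_dual_map_eq_bot_of_notMem hx' inferInstance
      have f3 : ∀ u ∈ A.map ψ ⊔ C, φ u = 0 := fun u hu =>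
        (Submodule.eq_bot_iff _).1 f2 _ ⟨u, hu, rfl⟩
      obtain ⟨R, hR⟩ := riesz hCA hf s1 r1
      have f4 := (hR φ).2 fun c hc => f3 c (hCI hc)
      have f5 : ψ (R φ) ∈ C := (r1 _ (hψA _ (hR φ).1)).1 fun y hy => by
        rw [hadj _ (hR φ).1 y hy, f4 _ (hψA y hy), f3 _ (hψI y hy)]
      exact f1 (by rw [← f4 x hx.1, s1 _ (hR φ).1 x hx.1, h _ ⟨(hR φ).1, f5⟩])
    · rw [s1 x hx.1 y hy.1, perp y hy x h.1]
  · change b (s (ρ g u)) (ρ g v) = b (s u) v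
    have a : ρ g v - ψ (ρ g (s v)) ∈ C := by
      have := sub_mem (hC g _ ((hs v).2 hv)) (hψ g _ (hs v).1)
      rwa [map_sub, sub_sub, add_sub_cancel] at this
    rw [cg _ (hs _).1 _ _ a, sw _ (hI g u hu) _ (hA g _ (hs v).1), i1 g _ (hs v).1 u (hIA hu),
      sy v hv u hu]
  · exact (r1 u (hIA hu)).1 fun y hy => by
      rw [s1 u (hIA hu) y hy, ← sw u hu y hy]; exact h _ (hψI y hy)
  · exact (sy u hu v hv).trans (rc _ (hs v).1 u h)
  · change b (s (ψ u)) v = b (s u) (ψ v)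
    rw [sy _ (hψI u (hIA hu)) v hv, sw v hv u (hIA hu), sw u hu v (hIA hv),
      s1 u (hIA hu) v (hIA hv)]

theorem orth_sub (hG : (Fintype.card G : k) ≠ 0) {A B C : Submodule k H} (hBA : B ≤ A)
    (hCB : C ≤ B) (hA : Stab ρ A) (hB : Stab ρ B) (hC : Stab ρ C) (hf : FinQ A C)
    (h1 : OrthQ ρ A C) (h2 : OrthQ ρ A B) : OrthQ ρ B C := by
  obtain ⟨b, s1, i1, r1⟩ := h1
  obtain ⟨q, s2, i2, r2⟩ := h2
  have hCA := hCB.trans hBA
  obtain ⟨R, hR⟩ := riesz hCA hf s1 r1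
  have e : ∀ x ∈ A, ∀ y ∈ A, b (R (q x)) y = q x y := fun x hx => (hR (q x)).2 fun c hc => by
    rw [s2 x hx c (hCA hc), (r2 c (hCA hc)).2 (hCB hc) x hx]
  have m : ∀ x ∈ A, R (q x) ∈ C ↔ x ∈ B := fun x hx => by
    rw [← r1 _ (hR _).1, ← r2 x hx]
    exact forall₂_congr fun y hy => by rw [e x hx y hy]
  have := orth_ker ρ hG hCA hA hC hf ⟨s1, i1, r1⟩ (R ∘ₗ q) (fun g x hx => ?_)
    (fun x _ => (hR _).1) (fun x hx => (m x (hCA hx)).2 (hCB hx)) fun x hx y hy => ?_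
  · rwa [show A ⊓ C.comap (R ∘ₗ q) = B from Submodule.ext fun x =>
      ⟨fun h => (m x h.1).1 h.2, fun h => ⟨hBA h, (m x (hBA h)).2 h⟩⟩] at this
  · refine (r1 _ (sub_mem (hR _).1 (hA g _ (hR _).1))).1 fun y hy => ?_
    have hy' := hA g⁻¹ y hy
    change b (R (q (ρ g x)) - ρ g (R (q x))) y = 0
    rw [map_sub, LinearMap.sub_apply, e _ (hA g x hx) y hy, ← act_inv ρ g y, i2 g x hx _ hy',
      i1 g _ (hR _).1 _ hy', e x hx _ hy', sub_self]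
  · change b (R (q x)) y = b x (R (q y))
    rw [e x hx y hy, s1 x hx _ (hR _).1, e y hy x hx, s2 x hx y hy]

theorem orth_quot (hG : (Fintype.card G : k) ≠ 0) {A B C : Submodule k H} (hBA : B ≤ A)
    (hCB : C ≤ B) (hA : Stab ρ A) (hB : Stab ρ B) (hC : Stab ρ C) (hf : FinQ A C)
    (h1 : OrthQ ρ A C) (h2 : OrthQ ρ B C) : OrthQ ρ A B := by
  obtain ⟨q, s2, i2, r2⟩ := h2
  obtain ⟨π, p1, p2, p3⟩ := proj ρ hG hB
  obtain ⟨b, s3, i3, r3⟩ := orth_sub ρ hG (B := A ⊓ C.comap π) inf_le_left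
    (fun c hc => ⟨hBA (hCB hc), show π c ∈ C by rwa [p2 c (hCB hc)]⟩) hA
    (fun g x hx => ⟨hA g x hx.1, show π _ ∈ C by rw [p3]; exact hC g _ hx.2⟩) hC hf h1
    ⟨q.compl₁₂ π π, fun x _ y _ => s2 _ (p1 x) _ (p1 y), fun g x _ y _ => by
      simp only [LinearMap.compl₁₂_apply, p3]
      exact i2 g _ (p1 x) _ (p1 y), fun x hx =>
        ⟨fun h => ⟨hx, (r2 _ (p1 x)).1 fun y hy => by rw [← p2 y hy]; exact h y (hBA hy)⟩,
          fun h y _ => (r2 _ (p1 x)).2 h.2 _ (p1 y)⟩⟩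
  have w : ∀ x ∈ A, x - π x ∈ A ⊓ C.comap π := fun x hx =>
    ⟨sub_mem hx (hBA (p1 x)), show π _ ∈ C by
      rw [map_sub, p2 _ (p1 x), sub_self]; exact zero_mem _⟩
  have e : ∀ x y, b.compl₁₂ (LinearMap.id - π) (LinearMap.id - π) x y = b (x - π x) (y - π y) :=
    fun _ _ => rfl
  refine ⟨b.compl₁₂ (LinearMap.id - π) (LinearMap.id - π), fun x hx y hy => ?_,
    fun g x hx y hy => ?_, fun x hx => ?_⟩ <;> simp only [e]
  · exact s3 _ (w x hx) _ (w y hy)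
  · rw [p3, p3, ← map_sub (ρ g), ← map_sub (ρ g), i3 g _ (w x hx) _ (w y hy)]
  · refine ⟨fun h => ?_, fun h y _ => by rw [p2 x h, sub_self, map_zero, LinearMap.zero_apply]⟩
    have a := (r3 _ (w x hx)).1 fun y hy => by
      have hy' : π y ∈ A ⊓ C.comap π :=
        ⟨hBA (p1 y), show π _ ∈ C by rw [p2 _ (p1 y)]; exact hy.2⟩
      have := h y hy.1
      rwa [map_sub (b _), s3 _ (w x hx) _ hy', (r3 _ hy').2 hy.2 _ (w x hx), sub_zero] at this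
    simpa using add_mem (hCB a) (p1 x)

theorem orth_new (hG : (Fintype.card G : k) ≠ 0) {A : Submodule k H} (hA : Stab ρ A)
    (hf : FinQ A ⊥) (h : OrthQ ρ A ⊥) : OrthQ ρ (A ⊓ LinearMap.ker (nrm ρ)) ⊥ := by
  obtain ⟨b, hb⟩ := h
  have e : ∀ x, nrm ρ x = ∑ g, ρ g x := fun x => by simp [nrm, LinearMap.sum_apply]
  refine orth_ker ρ hG bot_le hA (fun g x hx => by simp_all) hf hb (nrm ρ) (fun g x _ => ?_)
    (fun x hx => e x ▸ A.sum_mem fun g _ => hA g x hx) (fun x hx => by simp_all)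
    fun x hx y hy => ?_
  · rw [Submodule.mem_bot, sub_eq_zero, e, e, map_sum]
    simp only [act_mul]
    exact (Fintype.sum_equiv (Equiv.mulRight g) _ (fun h => ρ h x) fun h => rfl).trans
      (Fintype.sum_equiv (Equiv.mulLeft g) _ (fun h => ρ h x) fun h => rfl).symm
  · rw [e, e, map_sum, map_sum, LinearMap.sum_apply]
    refine Fintype.sum_equiv (Equiv.inv G) _ _ fun g => ?_
    rw [Equiv.inv_apply, ← hb.2.1 g x hx _ (hA g⁻¹ y hy), act_inv]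

/-- the choice of a functional for the killing step -/
theorem kill_choice (hG : (Fintype.card G : k) ≠ 0) (h2 : (2 : k) ≠ 0) {A : Submodule k H}
    (hA : Stab ρ A) (hf : FinQ A ⊥) (h : OrthQ ρ A ⊥) (hne : A ≠ ⊥) :
    ∃ f : H →ₗ[k] k, (∃ x ∈ A, f x ≠ 0) ∧
      (∀ x ∈ A, (∀ y ∈ A, ∑ g, f (ρ g x) * f (ρ g y) = 0) → ∀ g, f (ρ g x) = 0) ∧
      OrthQ ρ (A ⊓ ⨅ g, LinearMap.ker (f ∘ₗ ρ g)) ⊥ := by
  obtain ⟨b, hb⟩ := h
  have a := mt (avg ρ hG h2 hA hf hb) hne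
  push Not at a
  obtain ⟨f, x0, hx0, y0, hy0, h0⟩ := a
  let R : Submodule k H := A ⊓ ⨅ y : A, LinearMap.ker ((sqf ρ f).flip y)
  have mR : ∀ x, x ∈ R ↔ x ∈ A ∧ ∀ y ∈ A, sqf ρ f x y = 0 := fun x => by simp [R]
  obtain ⟨π, p1, p2, p3⟩ := proj ρ hG (B := R) fun g x hx => (mR _).2
    ⟨hA g x ((mR x).1 hx).1, fun y hy => by
      rw [← act_inv ρ g y, sqf_act, ((mR x).1 hx).2 _ (hA g⁻¹ y hy)]⟩
  set f' := f ∘ₗ (LinearMap.id - π) with hf'
  have e0 : ∀ g x, f' (ρ g x) = f (ρ g (x - π x)) := fun g x => by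
    rw [map_sub (ρ g), ← p3]; rfl
  have e : ∀ x ∈ A, ∀ y ∈ A, sqf ρ f' x y = sqf ρ f x y := fun x hx y hy => by
    have e1 : sqf ρ f' x y = sqf ρ f (x - π x) (y - π y) := by simp only [sqf_apply, e0]
    rw [e1, map_sub (sqf ρ f _), sqf_comm ρ f _ (π y),
      ((mR _).1 (p1 y)).2 _ (sub_mem hx ((mR _).1 (p1 x)).1), sub_zero, map_sub,
      LinearMap.sub_apply, ((mR _).1 (p1 x)).2 y hy, sub_zero]
  have c2 : ∀ x ∈ A, (∀ y ∈ A, sqf ρ f' x y = 0) → ∀ g, f' (ρ g x) = 0 := fun x hx h g => by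
    rw [e0, p2 x ((mR x).2 ⟨hx, fun y hy => by rw [← e x hx y hy, h y hy]⟩), sub_self, map_zero,
      map_zero]
  have mW : ∀ x, x ∈ A ⊓ ⨅ g, LinearMap.ker (f' ∘ₗ ρ g) ↔ x ∈ A ∧ ∀ g, f' (ρ g x) = 0 :=
    fun x => by simp
  refine ⟨f', ?_, fun x hx h => c2 x hx fun y hy => (sqf_apply ρ f' x y).trans (h y hy), ?_⟩
  · by_contra hn
    push Not at hn
    refine h0 ?_
    rw [← e x0 hx0 y0 hy0, sqf_apply]
    exact Finset.sum_eq_zero fun g _ => by rw [hn _ (hA g x0 hx0), zero_mul]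
  · refine orth_sub ρ hG inf_le_left bot_le hA (fun g x hx => (mW _).2
      ⟨hA g x hx.1, fun h => by rw [act_mul]; exact ((mW x).1 hx).2 _⟩)
      (fun g x hx => by simp_all) hf ⟨b, hb⟩ ⟨sqf ρ f', fun x _ y _ => sqf_comm ρ f' x y,
        fun g x _ y _ => sqf_act ρ f' g x y, fun x hx =>
          ⟨fun h => (mW x).2 ⟨hx, c2 x hx h⟩, fun h y _ => ?_⟩⟩
    rw [sqf_apply]
    exact Finset.sum_eq_zero fun g _ => by rw [((mW x).1 h).2 g, zero_mul]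

end Pool.Agent.MP_14ad9d_nt.Full
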