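import Pool.Agent.MP_14ad9d_nt.Full.PDefs
import Pool.Agent.MP_14ad9d_nt.Full.J1b

set_option autoImplicit false
set_option linter.unusedSectionVars false

open Polynomial

namespace Pool.Agent.MP_14ad9d_nt.Full

namespace PAAux

variable {E : Type} [NormedField E] [IsUltrametricDist E]

theorem add_le {x y : E} {r : ℝ} (hx : ‖x‖ ≤ r) (hy : ‖y‖ ≤ r) : ‖x + y‖ ≤ r :=
  (IsUltrametricDist.norm_add_le_max x y).trans (max_le hx hy)

theorem add_lt {x y : E} {r : ℝ} (hx : ‖x‖ < r) (hy : ‖y‖ < r) : ‖x + y‖ < r :=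
  (IsUltrametricDist.norm_add_le_max x y).trans_lt (max_lt hx hy)

theorem sub_le {x y : E} {r : ℝ} (hx : ‖x‖ ≤ r) (hy : ‖y‖ ≤ r) : ‖x - y‖ ≤ r := by
  rw [sub_eq_add_neg]
  exact add_le hx (by rwa [norm_neg])

theorem sub_lt {x y : E} {r : ℝ} (hx : ‖x‖ < r) (hy : ‖y‖ < r) : ‖x - y‖ < r := by
  rw [sub_eq_add_neg]
  exact add_lt hx (by rwa [norm_neg])

theorem add_eq_one {x y : E} (hx : ‖x‖ = 1) (hy : ‖y‖ < 1) : ‖x + y‖ = 1 := by
  rw [IsUltrametricDist.norm_add_eq_max_of_norm_ne_norm (by rw [hx]; exact hy.ne'), hx,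
    max_eq_left hy.le]

theorem mul_lt {x y : E} (hx : ‖x‖ < 1) (hy : ‖y‖ ≤ 1) : ‖x * y‖ < 1 := by
  rw [norm_mul]
  exact mul_lt_one_of_nonneg_of_lt_one_left (norm_nonneg _) hx hy

theorem mul_le {x y : E} (hx : ‖x‖ ≤ 1) (hy : ‖y‖ ≤ 1) : ‖x * y‖ ≤ 1 := by
  rw [norm_mul]
  exact mul_le_one₀ hx (norm_nonneg _) hy

/-- the leading coefficients of a product with a monic polynomial control the other factor -/
theorem key {u q : E[X]} {r : ℝ} (hu : u.Monic) (h1 : Bd 1 u) (hr : 0 ≤ r)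
    (h : ∀ i, ‖(u * q).coeff (u.natDegree + i)‖ ≤ r) : Bd r q := by
  have main : ∀ n i, q.natDegree < i + n → ‖q.coeff i‖ ≤ r := by
    intro n
    induction n with
    | zero =>
      intro i hi
      rw [coeff_eq_zero_of_natDegree_lt (by omega), norm_zero]
      exact hr
    | succ n ih =>
      intro i hi
      have e : q.coeff i = (u * q).coeff (u.natDegree + i) -
          ((u - X ^ u.natDegree) * q).coeff (u.natDegree + i) := by
        rw [sub_mul, coeff_sub, add_comm u.natDegree i, coeff_X_pow_mul]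
        ring
      rw [e]
      refine sub_le (h i) ?_
      rw [coeff_mul]
      refine IsUltrametricDist.norm_sum_le_of_forall_le_of_nonneg hr fun x hx => ?_
      have hx' := Finset.HasAntidiagonal.mem_antidiagonal.1 hx
      rw [coeff_sub, coeff_X_pow]
      rcases lt_trichotomy x.1 u.natDegree with hlt | heq | hgt
      · rw [if_neg hlt.ne, sub_zero, norm_mul]
        calc ‖u.coeff x.1‖ * ‖q.coeff x.2‖ ≤ 1 * r :=
              mul_le_mul (h1 _) (ih _ (by omega)) (norm_nonneg _) zero_le_one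
          _ = r := one_mul r
      · rw [if_pos heq, heq, hu.coeff_natDegree, sub_self, zero_mul, norm_zero]
        exact hr
      · rw [if_neg hgt.ne', coeff_eq_zero_of_natDegree_lt hgt, sub_zero, zero_mul, norm_zero]
        exact hr
  exact fun i => main (q.natDegree + 1) i (by omega)

/-- the ring of integers -/
def O (E : Type) [NormedField E] [IsUltrametricDist E] : Subring E where
  carrier := {x | ‖x‖ ≤ 1}
  mul_mem' := fun hx hy => mul_le hx hy
  one_mem' := norm_one.le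
  add_mem' := fun hx hy => add_le hx hy
  zero_mem' := by simp
  neg_mem' := fun hx => by simpa using hx

theorem frob {l : ℕ} (hl : l.Prime) {x y : E} (hx : ‖x‖ ≤ 1) (hy : ‖y‖ ≤ 1) :
    ∃ z : E, ‖z‖ ≤ 1 ∧ (x + y) ^ l = x ^ l + y ^ l + l * z := by
  obtain ⟨t, ht⟩ := exists_add_pow_prime_eq hl (⟨x, hx⟩ : O E) ⟨y, hy⟩
  refine ⟨x * y * t, mul_le (mul_le hx hy) t.2, ?_⟩
  have := congrArg (Subtype.val : O E → E) ht
  push_cast at this
  rw [this]
  ring

end PAAux

open PAAux

section Gauss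

variable {E : Type} [NormedField E] [IsUltrametricDist E] {r r' : ℝ} {p q u : E[X]}

theorem Bd.nonneg (h : Bd r p) : 0 ≤ r := by
  exact (norm_nonneg _).trans (h 0)

theorem Bd.mono (h : Bd r p) (hr : r ≤ r') : Bd r' p := by
  exact fun i => (h i).trans hr

theorem bd_zero (hr : 0 ≤ r) : Bd r (0 : E[X]) := by
  intro i
  rw [coeff_zero, norm_zero]
  exact hr

theorem bd_C (a : E) : Bd ‖a‖ (C a) := by
  intro i
  rw [coeff_C]
  split_ifs
  · exact le_rfl
  · rw [norm_zero]
    exact norm_nonneg _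

theorem bd_X : Bd 1 (X : E[X]) := by
  intro i
  rw [coeff_X]
  split_ifs <;> simp

theorem Bd.add (h : Bd r p) (h' : Bd r q) : Bd r (p + q) := by
  intro i
  rw [coeff_add]
  exact add_le (h i) (h' i)

theorem Bd.neg (h : Bd r p) : Bd r (-p) := by
  intro i
  rw [coeff_neg, norm_neg]
  exact h i

theorem Bd.sub (h : Bd r p) (h' : Bd r q) : Bd r (p - q) := by
  rw [sub_eq_add_neg]
  exact h.add h'.neg

theorem Bd.mul (h : Bd r p) (h' : Bd r' q) : Bd (r * r') (p * q) := by
  intro i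
  rw [coeff_mul]
  refine IsUltrametricDist.norm_sum_le_of_forall_le_of_nonneg (mul_nonneg h.nonneg h'.nonneg)
    fun x _ => ?_
  rw [norm_mul]
  exact mul_le_mul (h _) (h' _) (norm_nonneg _) h.nonneg

theorem Bd.pow (h : Bd r p) (n : ℕ) : Bd (r ^ n) (p ^ n) := by
  induction n with
  | zero =>
    rw [pow_zero, pow_zero, ← C_1, ← norm_one (α := E)]
    exact bd_C 1
  | succ n ih =>
    rw [pow_succ, pow_succ]
    exact ih.mul h

theorem Bd.eval (h : Bd r p) {a : E} (ha : ‖a‖ ≤ 1) : ‖p.eval a‖ ≤ r := by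
  rw [eval_eq_sum_range]
  refine IsUltrametricDist.norm_sum_le_of_forall_le_of_nonneg h.nonneg fun i _ => ?_
  rw [norm_mul, norm_pow]
  calc ‖p.coeff i‖ * ‖a‖ ^ i ≤ r * 1 :=
        mul_le_mul (h i) (pow_le_one₀ (norm_nonneg _) ha) (by positivity) h.nonneg
    _ = r := mul_one r

theorem Bd.divByMonic (h : Bd r p) (hu : u.Monic) (h1 : Bd 1 u) : Bd r (p /ₘ u) := by
  refine key hu h1 h.nonneg fun i => ?_
  have e : u * (p /ₘ u) = p - p %ₘ u := by
    rw [eq_sub_iff_add_eq, add_comm]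
    exact modByMonic_add_div p u
  have e2 : (p %ₘ u).coeff (u.natDegree + i) = 0 := by
    refine coeff_eq_zero_of_degree_lt ((degree_modByMonic_lt p hu).trans_le
      (degree_le_natDegree.trans ?_))
    exact_mod_cast Nat.le_add_right _ _
  rw [e, coeff_sub, e2, sub_zero]
  exact h _

theorem Bd.modByMonic (h : Bd r p) (hu : u.Monic) (h1 : Bd 1 u) : Bd r (p %ₘ u) := by
  have e : p %ₘ u = p - u * (p /ₘ u) := by
    rw [eq_sub_iff_add_eq]
    exact modByMonic_add_div p u
  have := h1.mul (h.divByMonic hu h1)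
  rw [one_mul] at this
  rw [e]
  exact h.sub this

theorem Bd.of_mul (hu : u.Monic) (h1 : Bd 1 u) (h : Bd r (u * p)) : Bd r p := by
  exact key hu h1 h.nonneg fun i => h _

theorem Bd.eq_zero (h : ∀ r : ℝ, 0 < r → Bd r p) : p = 0 := by
  ext i
  rw [coeff_zero, ← norm_le_zero_iff]
  exact le_of_forall_pos_le_add fun ε hε => by rw [zero_add]; exact h ε hε i

theorem root_le_one (hu : u.Monic) (h1 : Bd 1 u) {a : E} (ha : u.IsRoot a) : ‖a‖ ≤ 1 := by
  by_contra hc
  push Not at hc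
  have e := ha.eq_zero
  rw [eval_eq_sum_range, Finset.sum_range_succ, hu.coeff_natDegree, one_mul] at e
  rcases Nat.eq_zero_or_pos u.natDegree with h0 | h0
  · rw [h0] at e
    simp at e
  have e2 : a ^ u.natDegree = -∑ i ∈ Finset.range u.natDegree, u.coeff i * a ^ i := by
    linear_combination e
  have h3 : ‖a ^ u.natDegree‖ ≤ ‖a‖ ^ (u.natDegree - 1) := by
    rw [e2, norm_neg]
    refine IsUltrametricDist.norm_sum_le_of_forall_le_of_nonneg (by positivity) fun i hi => ?_
    have hi' := Finset.mem_range.1 hi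
    rw [norm_mul, norm_pow]
    calc ‖u.coeff i‖ * ‖a‖ ^ i ≤ 1 * ‖a‖ ^ (u.natDegree - 1) :=
          mul_le_mul (h1 i) (pow_le_pow_right₀ hc.le (by omega)) (by positivity) zero_le_one
      _ = _ := one_mul _
  rw [norm_pow] at h3
  exact absurd h3 (not_le.2 (pow_lt_pow_right₀ hc (by omega)))

theorem bd_prod (R : Multiset E) (h : ∀ a ∈ R, ‖a‖ ≤ 1) :
    Bd 1 (R.map fun a => X - C a).prod := by
  induction R using Multiset.induction_on with
  | empty =>
    rw [Multiset.map_zero, Multiset.prod_zero, ← C_1, ← norm_one (α := E)]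
    exact bd_C 1
  | cons a R ih =>
    rw [Multiset.map_cons, Multiset.prod_cons]
    have := (bd_X.sub ((bd_C a).mono (h a (Multiset.mem_cons_self _ _)))).mul
      (ih fun b hb => h b (Multiset.mem_cons_of_mem hb))
    rwa [one_mul] at this

namespace PAAux

theorem bd_one : Bd 1 (1 : E[X]) := by
  rw [← C_1, ← norm_one (α := E)]
  exact bd_C 1

theorem bd_mul (h : Bd r p) (h' : Bd 1 q) : Bd r (p * q) := by
  have := h.mul h'
  rwa [mul_one] at this

theorem bd_pow (h : Bd 1 p) (n : ℕ) : Bd 1 (p ^ n) := by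
  have := h.pow n
  rwa [one_pow] at this

theorem lip (h : Bd 1 p) {a a' : E} (ha : ‖a‖ ≤ 1) (ha' : ‖a'‖ ≤ 1) :
    ‖p.eval a - p.eval a'‖ ≤ ‖a - a'‖ := by
  have e := modByMonic_add_div p (X - C a')
  rw [modByMonic_X_sub_C_eq_C_eval] at e
  have e2 := congrArg (Polynomial.eval a) e
  simp only [eval_add, eval_C, eval_mul, eval_sub, eval_X] at e2
  have h2 := (h.divByMonic (monic_X_sub_C a') (bd_X.sub ((bd_C a').mono ha'))).eval ha
  rw [← e2, add_sub_cancel_left, norm_mul]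
  exact mul_le_of_le_one_right (norm_nonneg _) h2

theorem inv_aux (hp : Bd 1 p) (R : Multiset E) (h : ∀ a ∈ R, ‖a‖ ≤ 1 ∧ ‖p.eval a‖ = 1) :
    ∃ q, Bd 1 q ∧ (R.map fun a => X - C a).prod ∣ p * q - 1 := by
  induction R using Multiset.induction_on with
  | empty => exact ⟨0, bd_zero zero_le_one, by simp⟩
  | cons a R ih =>
    obtain ⟨q, hq, t, ht⟩ := ih fun b hb => h b (Multiset.mem_cons_of_mem hb)
    obtain ⟨ha, hpa⟩ := h a (Multiset.mem_cons_self _ _)
    have hU := bd_prod R fun b hb => (h b (Multiset.mem_cons_of_mem hb)).1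
    have hm : (R.map fun a => X - C a).prod.Monic := monic_multisetProd_X_sub_C R
    rw [Multiset.map_cons, Multiset.prod_cons]
    generalize (R.map fun a => X - C a).prod = U at ht hU hm
    have htb : Bd 1 t := Bd.of_mul hm hU (by rw [← ht]; exact (bd_mul hp hq).sub bd_one)
    have h0 : p.eval a ≠ 0 := by
      rw [← norm_ne_zero_iff, hpa]
      exact one_ne_zero
    have hc : ‖-t.eval a / p.eval a‖ ≤ 1 := by
      rw [norm_div, norm_neg, hpa, div_one]
      exact htb.eval ha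
    refine ⟨q + C (-t.eval a / p.eval a) * U, hq.add (bd_mul ((bd_C _).mono hc) hU), ?_⟩
    have e : p * (q + C (-t.eval a / p.eval a) * U) - 1 =
        (t + C (-t.eval a / p.eval a) * p) * U := by
      linear_combination ht
    rw [e]
    refine mul_dvd_mul_right (dvd_iff_isRoot.2 ?_) U
    simp only [IsRoot.def, eval_add, eval_mul, eval_C]
    field_simp
    ring

end PAAux

/-- a polynomial whose values at the roots are units is invertible modulo `u` -/
theorem exists_inv_mod [IsAlgClosed E] (hu : u.Monic) (h1 : Bd 1 u) (hp : Bd 1 p)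
    (h : ∀ a, u.IsRoot a → ‖p.eval a‖ = 1) : ∃ q, Bd 1 q ∧ u ∣ p * q - 1 := by
  obtain ⟨q, hq, hd⟩ := inv_aux hp u.roots fun a ha =>
    ⟨root_le_one hu h1 (isRoot_of_mem_roots ha), h a (isRoot_of_mem_roots ha)⟩
  rw [← (IsAlgClosed.splits u).eq_prod_roots_of_monic hu] at hd
  exact ⟨q, hq, hd⟩

end Gauss

variable {l : ℕ} [Fact l.Prime] [Fact (2 < l)] {E : Type} [NormedField E] [IsUltrametricDist E]
  [IsAlgClosed E] [CharZero E] {s : Eˣ} (B : Base l s)

include B in
theorem Base.norm_two : ‖(2 : E)‖ = 1 := by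
  have h2 : ‖(2 : E)‖ ≤ 1 := by exact_mod_cast IsUltrametricDist.norm_natCast_le_one E 2
  refine le_antisymm h2 (not_lt.1 fun hc => ?_)
  have h3 := JBaseAux.l_odd (l := l)
  have e : (1 : E) = l - 2 * ((l / 2 : ℕ) : E) := by
    have : l = 2 * (l / 2) + 1 := by omega
    conv_rhs => enter [1]; rw [this]
    push_cast
    ring
  have h4 := sub_lt B.hl (mul_lt hc (IsUltrametricDist.norm_natCast_le_one E (l / 2)))
  rw [← e, norm_one] at h4
  exact lt_irrefl _ h4

namespace PAAux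

theorem eval_FF (a : E) : (FF l s).eval a = a ^ l + (s : E) ^ 2 := by
  simp [FF]

theorem sq_le {x : E} (hx : ‖x‖ ≤ 1) : ‖x ^ 2‖ ≤ 1 := by
  rw [sq]
  exact mul_le hx hx

theorem pl_le {a b : E} (h : B.Pl a b) : ‖b‖ ≤ 1 := by
  have := add_le h.2.2.le B.hy.le
  rwa [sub_add_cancel] at this

theorem norm_two_y : ‖2 * B.y₁‖ = 1 := by
  rw [norm_mul, B.norm_two, B.hy, one_mul]

end PAAux

theorem Base.bd_u₀ : Bd 1 B.u₀ := by
  rw [(IsAlgClosed.splits B.u₀).eq_prod_roots_of_monic B.monic]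
  refine bd_prod _ fun a ha => ?_
  have h := (isRoot_of_mem_roots ha).dvd B.dvd
  simp only [IsRoot.def, eval_sub, eval_pow, eval_C, eval_FF] at h
  have e : a ^ l = B.y₁ ^ 2 - (s : E) ^ 2 := by linear_combination -h
  have h2 : ‖a ^ l‖ ≤ 1 := by
    rw [e]
    exact sub_le (sq_le B.hy.le) (sq_le B.hs)
  rw [norm_pow] at h2
  exact (pow_le_one_iff_of_nonneg (norm_nonneg _) (Fact.out : l.Prime).ne_zero).1 h2

include B in
theorem Base.bd_FF : Bd 1 (FF l s) := by
  exact (bd_pow bd_X l).add ((bd_C _).mono (sq_le B.hs))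

theorem Base.cl_base {r : ℝ} (hr : 0 ≤ r) : B.Cl r B.u₀ (C B.y₁) := by
  have h2 : 2 < l := Fact.out
  refine ⟨⟨B.monic, degree_C_le.trans_lt ?_, B.dvd⟩, B.deg, ?_, ?_⟩
  · exact natDegree_pos_iff_degree_pos.1 (by rw [B.deg]; omega)
  · rw [sub_self]
    exact bd_zero hr
  · rw [sub_self]
    exact bd_zero hr

theorem Base.pl_close {a b a' b' : E} (h : B.Pl a b) (h' : B.Pl a' b') : ‖a - a'‖ < 1 := by
  have hl : l.Prime := Fact.out
  have hodd : Odd l := Nat.odd_iff.2 JBaseAux.l_odd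
  obtain ⟨z, hz, e⟩ := frob hl h.2.1 (y := -a') (by rw [norm_neg]; exact h'.2.1)
  rw [hodd.neg_pow] at e
  have e2 : (a - a') ^ l = ((b - B.y₁) - (b' - B.y₁)) * (b + b') + l * z := by
    rw [sub_eq_add_neg a, e]
    linear_combination h'.1 - h.1
  have h3 : ‖(a - a') ^ l‖ < 1 := by
    rw [e2]
    exact add_lt (mul_lt (sub_lt h.2.2 h'.2.2) (add_le (pl_le B h) (pl_le B h')))
      (mul_lt B.hl hz)
  rw [norm_pow] at h3
  exact (pow_lt_one_iff_of_nonneg (norm_nonneg _) hl.ne_zero).1 h3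

namespace PAAux

theorem bd_u {r : ℝ} (hr : r < 1) {u : E[X]} (h : Bd r (u - B.u₀)) : Bd 1 u := by
  have := (h.mono hr.le).add B.bd_u₀
  rwa [sub_add_cancel] at this

theorem exists_h : ∃ h, Bd 1 h ∧ C B.y₁ ^ 2 - FF l s = B.u₀ * h := by
  obtain ⟨h, e⟩ := B.dvd
  refine ⟨h, Bd.of_mul B.monic B.bd_u₀ ?_, e⟩
  rw [← e]
  exact (bd_pow ((bd_C _).mono B.hy.le) 2).sub B.bd_FF

theorem prod_fst (R : Multiset (E × E)) :
    (R.map fun p => X - C p.1).prod = ((R.map Prod.fst).map fun a => X - C a).prod := by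
  rw [Multiset.map_map]
  rfl

theorem monic_prod (R : Multiset (E × E)) : (R.map fun p : E × E => X - C p.1).prod.Monic := by
  rw [prod_fst]
  exact monic_multisetProd_X_sub_C _

theorem root_prod {R : Multiset (E × E)} {a : E} :
    (R.map fun p : E × E => X - C p.1).prod.IsRoot a ↔ ∃ p ∈ R, p.1 = a := by
  rw [← mem_roots (monic_prod R).ne_zero, prod_fst, roots_multiset_prod_X_sub_C,
    Multiset.mem_map]

theorem interp (R : Multiset (E × E)) (h : ∀ p ∈ R, B.Pl p.1 p.2) :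
    ∃ W : E[X], Bd 1 W ∧ IsMum l s (R.map fun p => X - C p.1).prod W ∧
      (∀ p ∈ R, W.eval p.1 = p.2) := by
  induction R using Multiset.induction_on with
  | empty => exact ⟨0, bd_zero zero_le_one, J1bAux.isMum_one, by simp⟩
  | cons p R ih =>
    obtain ⟨a, b⟩ := p
    have hp : B.Pl a b := h _ (Multiset.mem_cons_self _ _)
    have hR : ∀ p ∈ R, B.Pl p.1 p.2 := fun q hq => h q (Multiset.mem_cons_of_mem hq)
    rw [Multiset.map_cons, Multiset.prod_cons]
    rcases R.empty_or_exists_mem with rfl | ⟨p₁, hp₁⟩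
    · refine ⟨C b, (bd_C b).mono (pl_le B hp), ?_, by simp⟩
      rw [Multiset.map_zero, Multiset.prod_zero, mul_one]
      exact ⟨monic_X_sub_C a, by rw [degree_X_sub_C]; exact degree_C_lt, pt_dvd hp.1⟩
    obtain ⟨W, hW, ⟨hm, hdeg, H, hH⟩, hev⟩ := ih hR
    have hU : Bd 1 (R.map fun p => X - C p.1).prod := by
      rw [prod_fst]
      refine bd_prod _ fun x hx => ?_
      obtain ⟨q, hq, rfl⟩ := Multiset.mem_map.1 hx
      exact (hR q hq).2.1
    have hroot : ∀ q ∈ R, (R.map fun p : E × E => X - C p.1).prod.eval q.1 = 0 := fun q hq =>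
      root_prod.2 ⟨q, hq, rfl⟩
    generalize (R.map fun p => X - C p.1).prod = U at hm hdeg hH hU hroot
    have hHb : Bd 1 H := Bd.of_mul hm hU (by rw [← hH]; exact (bd_pow hW 2).sub B.bd_FF)
    have h1 : ‖W.eval a - B.y₁‖ < 1 := by
      have e : W.eval a - B.y₁ = (W.eval a - W.eval p₁.1) + (p₁.2 - B.y₁) := by
        rw [hev p₁ hp₁]
        ring
      rw [e]
      exact add_lt ((lip hW hp.2.1 (hR p₁ hp₁).2.1).trans_lt (B.pl_close hp (hR p₁ hp₁)))
        (hR p₁ hp₁).2.2
    have h2 : ‖b + W.eval a‖ = 1 := by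
      have e : b + W.eval a = 2 * B.y₁ + ((b - B.y₁) + (W.eval a - B.y₁)) := by ring
      rw [e]
      exact add_eq_one (norm_two_y B) (add_lt hp.2.2 h1)
    have h0 : b + W.eval a ≠ 0 := by
      rw [← norm_ne_zero_iff, h2]
      exact one_ne_zero
    obtain ⟨c, hc1, hc2⟩ : ∃ c : E, ‖c‖ ≤ 1 ∧ H.eval a = -c * (b + W.eval a) := by
      refine ⟨-H.eval a / (b + W.eval a), ?_, by field_simp⟩
      rw [norm_div, norm_neg, h2, div_one]
      exact hHb.eval hp.2.1
    have h3 := congrArg (Polynomial.eval a) hH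
    simp only [eval_sub, eval_pow, eval_mul, eval_FF] at h3
    have h4 : W.eval a + c * U.eval a = b := by
      refine mul_right_cancel₀ h0 ?_
      rw [hc2] at h3
      linear_combination h3 - hp.1
    refine ⟨W + C c * U, hW.add (bd_mul ((bd_C c).mono hc1) hU),
      ⟨(monic_X_sub_C a).mul hm, ?_, ?_⟩, ?_⟩
    · have h5 : U.degree < ((X - C a) * U).degree := by
        rw [degree_mul, degree_X_sub_C, degree_eq_natDegree hm.ne_zero]
        exact_mod_cast (by omega : U.natDegree < 1 + U.natDegree)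
      refine lt_of_le_of_lt ((degree_add_le _ _).trans (max_le hdeg.le ?_)) h5
      rw [← smul_eq_C_mul]
      exact degree_smul_le _ _
    · have e : (W + C c * U) ^ 2 - FF l s = (H + C c * (2 * W + C c * U)) * U := by
        linear_combination hH
      rw [e]
      refine mul_dvd_mul_right (dvd_iff_isRoot.2 ?_) U
      simp only [IsRoot.def, eval_add, eval_mul, eval_C, eval_ofNat]
      linear_combination hc2 + c * h4
    · intro q hq
      rcases Multiset.mem_cons.1 hq with rfl | hq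
      · simpa using h4
      · simp [hroot q hq, hev q hq]

theorem split (R : Multiset (E × E)) {W : E[X]}
    (hd : (R.map fun p => X - C p.1).prod ∣ W ^ 2 - FF l s) (hev : ∀ p ∈ R, W.eval p.1 = p.2) :
    (R.map fun p => pt l s p.1 p.2).prod = mum l s (R.map fun p => X - C p.1).prod W := by
  rw [prod_fst] at hd ⊢
  rw [mum_split _ hd, Multiset.map_map]
  congr 1
  refine Multiset.map_congr rfl fun p hp => ?_
  simp only [Function.comp_apply, hev p hp]

end PAAux

theorem Base.pl_or {r : ℝ} (hr : r < 1) {u : E[X]} (hu : u.Monic) (h : Bd r (u - B.u₀)) {a b : E}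
    (ha : u.IsRoot a) (hb : b ^ 2 = a ^ l + (s : E) ^ 2) : B.Pl a b ∨ B.Pl a (-b) := by
  have ha1 : ‖a‖ ≤ 1 := root_le_one hu (bd_u B hr h) ha
  obtain ⟨t, ht, e⟩ := exists_h B
  have h1 : ‖B.u₀.eval a‖ < 1 := by
    have := (h.eval ha1).trans_lt hr
    rwa [eval_sub, ha.eq_zero, zero_sub, norm_neg] at this
  have h2 := mul_lt h1 (ht.eval ha1)
  have e2 := congrArg (Polynomial.eval a) e
  simp only [eval_sub, eval_pow, eval_mul, eval_FF, eval_C] at e2
  have e3 : B.u₀.eval a * t.eval a = (b - B.y₁) * (-b - B.y₁) := by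
    linear_combination -e2 + hb
  rw [e3, norm_mul] at h2
  by_cases h3 : ‖b - B.y₁‖ < 1
  · exact Or.inl ⟨hb, ha1, h3⟩
  · refine Or.inr ⟨by rw [neg_sq]; exact hb, ha1, ?_⟩
    by_contra h4
    exact absurd h2 (not_lt.2 (one_le_mul_of_one_le_of_one_le (not_lt.1 h3) (not_lt.1 h4)))

/-- interpolation in the residue disc -/
theorem Base.exists_W (R : Multiset (E × E)) (h : ∀ p ∈ R, B.Pl p.1 p.2) :
    ∃ W : E[X], Bd 1 W ∧ IsMum l s (R.map fun p => X - C p.1).prod W ∧
      (∀ p ∈ R, W.eval p.1 = p.2) ∧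
      (R.map fun p => pt l s p.1 p.2).prod = mum l s (R.map fun p => X - C p.1).prod W := by
  obtain ⟨W, h1, h2, h3⟩ := interp B R h
  exact ⟨W, h1, h2, h3, split R h2.2.2 h3⟩

/-- the second coordinate is as close as the first -/
theorem Base.cl_of {r : ℝ} (hr : r < 1) {u v : E[X]} (hm : IsMum l s u v)
    (hd : u.natDegree = l / 2) (hu : Bd r (u - B.u₀))
    (hv : ∀ a, u.IsRoot a → B.Pl a (v.eval a)) : B.Cl r u v := by
  have hl2 : 2 < l := Fact.out
  have hu1 := bd_u B hr hu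
  have eu : ((u.roots.map fun a => (a, v.eval a)).map fun p => X - C p.1).prod = u := by
    rw [Multiset.map_map]
    exact ((IsAlgClosed.splits u).eq_prod_roots_of_monic hm.1).symm
  have hv1 : Bd 1 v := by
    obtain ⟨W, h1, h2, -, h4⟩ := B.exists_W (u.roots.map fun a => (a, v.eval a)) fun p hp => by
      obtain ⟨a, ha, rfl⟩ := Multiset.mem_map.1 hp
      exact hv a (isRoot_of_mem_roots ha)
    rw [split _ (W := v) (by rw [eu]; exact hm.2.2) fun p hp => by
      obtain ⟨a, ha, rfl⟩ := Multiset.mem_map.1 hp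
      rfl] at h4
    rw [eu] at h2 h4
    have h5 := JBaseAux.gen_mem₂ (l := l) (s := s) u v
    rw [h4, mem_mum h2.2.2] at h5
    have h6 : -v + W * 1 = 0 := by
      refine eq_zero_of_dvd_of_degree_lt h5 ((degree_add_le _ _).trans_lt (max_lt ?_ ?_))
      · rw [degree_neg]
        exact hm.2.1
      · rw [mul_one]
        exact h2.2.1
    have h7 : v = W := by linear_combination -h6
    rw [h7]
    exact h1
  have hy : Bd 1 (C B.y₁) := (bd_C _).mono B.hy.le
  obtain ⟨q, hq, w, hw⟩ := exists_inv_mod hm.1 hu1 (hv1.add hy) fun a ha => by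
    have e : (v + C B.y₁).eval a = 2 * B.y₁ + (v.eval a - B.y₁) := by
      rw [eval_add, eval_C]
      ring
    rw [e]
    exact add_eq_one (norm_two_y B) (hv a ha).2.2
  obtain ⟨t, ht, e⟩ := exists_h B
  obtain ⟨t', ht'⟩ := hm.2.2
  refine ⟨hm, hd, hu, ?_⟩
  have e2 : v - C B.y₁ = ((u - B.u₀) * t * q) %ₘ u := by
    refine (div_modByMonic_unique (q := (v - C B.y₁) * w - (t' - t) * q) _ hm.1
      ⟨?_, ?_⟩).2.symm
    · linear_combination (-(v - C B.y₁)) * hw + q * ht' - q * e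
    · refine (degree_sub_le _ _).trans_lt (max_lt hm.2.1 (degree_C_le.trans_lt ?_))
      exact natDegree_pos_iff_degree_pos.1 (by omega)
  rw [e2]
  exact (bd_mul (bd_mul hu ht) hq).modByMonic hm.1 hu1

theorem Base.Cl.pl {B : Base l s} {r : ℝ} (hr : r < 1) {u v : E[X]} (h : B.Cl r u v) {a : E}
    (ha : u.IsRoot a) : B.Pl a (v.eval a) := by
  have ha1 : ‖a‖ ≤ 1 := root_le_one h.1.1 (bd_u B hr h.2.2.1) ha
  refine ⟨?_, ha1, ?_⟩
  · have := ha.dvd h.1.2.2
    simp only [IsRoot.def, eval_sub, eval_pow, eval_FF] at this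
    exact sub_eq_zero.1 this
  · have := (h.2.2.2.eval ha1).trans_lt hr
    rwa [eval_sub, eval_C] at this

/-- a residual divisor without points in the residue disc lies in the opposite disc -/
theorem Base.resid {r : ℝ} (hr : r < 1) {u : E[X]} (hu : u.Monic) (hd : u.natDegree = l / 2)
    (h : Bd r (u - B.u₀)) {J : Ideal (CR l s)}
    (hN : J * J.map (starRingEnd (CR l s)) = Ideal.span {⟨u, 0⟩})
    (hno : ∀ a b, B.Pl a b → ¬J ≤ pt l s a b) :
    ∃ v, B.Cl r u v ∧ cl l (mum l s u v) * cl l J = 1 := by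
  have hne : J * J.map (starRingEnd (CR l s)) ≠ ⊥ := by
    rw [hN, Ne, Ideal.span_singleton_eq_bot]
    exact fun e => hu.ne_zero (congrArg QuadraticAlgebra.re e)
  have hJ : J ≠ ⊥ := left_ne_zero_of_mul hne
  have hJ' : J.map (starRingEnd (CR l s)) ≠ ⊥ := right_ne_zero_of_mul hne
  obtain ⟨R, hR, eJ⟩ := ideal_eq_prod_pt hJ
  have e1 := prod_pt_mul_star R hR
  rw [← eJ, hN] at e1
  have dv : ∀ p q : E[X], Ideal.span {(⟨p, 0⟩ : CR l s)} ≤ Ideal.span {⟨q, 0⟩} → q ∣ p := by
    intro p q hpq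
    obtain ⟨z, hz⟩ := Ideal.span_singleton_le_span_singleton.1 hpq
    refine ⟨z.re, ?_⟩
    simpa using congrArg QuadraticAlgebra.re hz
  have eu : (R.map fun p => X - C p.1).prod = u :=
    eq_of_monic_of_associated (monic_prod R) hu
      (associated_of_dvd_dvd (dv _ _ e1.le) (dv _ _ e1.ge))
  have hpl : ∀ p ∈ R, B.Pl p.1 (-p.2) := fun p hp => by
    refine (B.pl_or hr hu h (by rw [← eu]; exact root_prod.2 ⟨p, hp, rfl⟩) (hR p hp)).resolve_left
      fun hc => hno _ _ hc ?_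
    rw [eJ]
    exact Ideal.le_of_dvd (Multiset.dvd_prod (Multiset.mem_map_of_mem _ hp))
  obtain ⟨W, -, h2, h3, h4⟩ := B.exists_W (R.map fun p => (p.1, -p.2)) fun p hp => by
    obtain ⟨q, hq, rfl⟩ := Multiset.mem_map.1 hp
    exact hpl q hq
  have eu' : ((R.map fun p => (p.1, -p.2)).map fun p : E × E => X - C p.1).prod = u := by
    rw [Multiset.map_map]
    exact eu
  rw [eu'] at h2 h4
  refine ⟨W, B.cl_of hr h2 hd h fun a ha => ?_, ?_⟩
  · rw [← eu] at ha
    obtain ⟨p, hp, rfl⟩ := root_prod.1 ha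
    rw [h3 (p.1, -p.2) (Multiset.mem_map_of_mem _ hp)]
    exact hpl p hp
  · have e2 : J.map (starRingEnd (CR l s)) = mum l s u W := by
      rw [← h4, eJ]
      change Ideal.mapHom (starRingEnd (CR l s)) _ = _
      rw [map_multiset_prod, Multiset.map_map, Multiset.map_map]
      congr 1
      refine Multiset.map_congr rfl fun p _ => ?_
      simp only [Function.comp_apply, Ideal.mapHom_apply, pt, map_star_mum, C_neg]
    rw [← e2, mul_comm, ← cl_mul hJ hJ', hN, cl_span]

end Pool.Agent.MP_14ad9d_nt.Full
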