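import Pool.Agent.MP_14ad9d_nt.Full.PB2

set_option autoImplicit false

open Polynomial

namespace Pool.Agent.MP_14ad9d_nt.Full

variable {l : ℕ} [Fact l.Prime] [Fact (2 < l)] {E : Type} [NormedField E] [IsUltrametricDist E]
  [IsAlgClosed E] [CharZero E] {s : Eˣ} (B : Base l s)

theorem PBAux.bd_one {r : ℝ} (hr : r < 1) {u v : E[X]} (h : B.Cl r u v) : Bd 1 u := by
  have := B.bd_u₀.add (h.2.2.1.mono hr.le)
  rwa [add_sub_cancel] at this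

omit [Fact l.Prime] [Fact (2 < l)] [IsAlgClosed E] [CharZero E] in
theorem PBAux.bd_one' {r : ℝ} (hr : r < 1) {u v : E[X]} (h : B.Cl r u v) : Bd 1 v := by
  have h1 : Bd 1 (C B.y₁) := B.hy ▸ bd_C B.y₁
  have := h1.add (h.2.2.2.mono hr.le)
  rwa [add_sub_cancel] at this

/-- the group law to first order -/
theorem Base.exists_sum {r : ℝ} (hr : r < 1) {u₁ v₁ u₂ v₂ u₄ v₄ : E[X]} (h₁ : B.Cl r u₁ v₁)
    (h₂ : B.Cl r u₂ v₂) (h₄ : B.Cl r u₄ v₄) :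
    ∃ u₃ v₃, B.Cl r u₃ v₃ ∧ Bd (r ^ 2) (u₃ - (u₁ + u₂ - u₄)) ∧
      cl l (mum l s u₃ v₃) * cl l (mum l s u₄ v₄) =
        cl l (mum l s u₁ v₁) * cl l (mum l s u₂ v₂) := by
  have h0 : 0 ≤ r := h₁.2.2.1.nonneg
  have hr2 : r ^ 2 ≤ r := by nlinarith
  have hr1 : r ^ 2 < 1 := by nlinarith
  have m₁ := h₁.1.1
  have m₂ := h₂.1.1
  have m₄ := h₄.1.1
  have b₁ := PBAux.bd_one B hr h₁
  have b₂ := PBAux.bd_one B hr h₂
  have b₄ := PBAux.bd_one B hr h₄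
  have c₄ := PBAux.bd_one' B hr h₄
  obtain ⟨W, hW, dW, pW, eW⟩ := PBAux.two_W B m₁ m₂ h₁.1.2.2 h₂.1.2.2
    (fun a ha => h₁.pl hr ha) (fun a ha => h₂.pl hr ha)
  have mU : (u₁ * u₂).Monic := m₁.mul m₂
  have bU : Bd 1 (u₁ * u₂) := by simpa using b₁.mul b₂
  have dU : (u₁ * u₂).natDegree = 2 * (l / 2) := by
    rw [m₁.natDegree_mul m₂, h₁.2.1, h₂.2.1]
    ring
  have hl2 : 2 < l := Fact.out
  have hunit : ∀ a, u₄.IsRoot a → ‖(W + v₄).eval a‖ = 1 := by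
    intro a ha
    have pa := h₄.pl hr ha
    obtain ⟨a', ha'⟩ : ∃ a', (u₁ * u₂).IsRoot a' := IsAlgClosed.exists_root _ (by
      rw [degree_eq_natDegree mU.ne_zero, dU]
      norm_cast
      omega)
    have pa' := pW a' ha'
    have hc := B.pl_close pa pa'
    obtain ⟨Q, hQ⟩ : X - C a' ∣ W - C (W.eval a') := X_sub_C_dvd_sub_C_eval
    have bX : Bd 1 (X - C a') := bd_X.sub ((bd_C a').mono pa'.2.1)
    have bQ : Bd 1 Q := Bd.of_mul (monic_X_sub_C a') bX (by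
      rw [← hQ]
      exact hW.sub ((bd_C _).mono (hW.eval pa'.2.1)))
    have e1 : W.eval a - W.eval a' = (a - a') * Q.eval a := by
      have := congrArg (eval a) hQ
      simpa using this
    have n1 : ‖W.eval a - W.eval a'‖ < 1 := by
      rw [e1, norm_mul]
      exact mul_lt_one_of_nonneg_of_lt_one_left (norm_nonneg _) hc (bQ.eval pa.2.1)
    have n2 : ‖(W.eval a - W.eval a') + (W.eval a' - B.y₁) + (v₄.eval a - B.y₁)‖ < 1 :=
      lt_of_le_of_lt (IsUltrametricDist.norm_add_le_max _ _) (max_lt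
        (lt_of_le_of_lt (IsUltrametricDist.norm_add_le_max _ _) (max_lt n1 pa'.2.2)) pa.2.2)
    have n3 : ‖2 * B.y₁‖ = 1 := by rw [norm_mul, B.norm_two, B.hy, one_mul]
    have e2 : (W + v₄).eval a = 2 * B.y₁ +
        ((W.eval a - W.eval a') + (W.eval a' - B.y₁) + (v₄.eval a - B.y₁)) := by
      rw [eval_add]
      ring
    rw [e2, IsUltrametricDist.norm_add_eq_max_of_norm_ne_norm (by rw [n3]; exact n2.ne'), n3]
    exact max_eq_left n2.le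
  obtain ⟨q, bq, hq⟩ := exists_inv_mod m₄ b₄ (hW.add c₄) hunit
  have d₁ : Bd r (u₁ - u₄) := by
    have := h₁.2.2.1.sub h₄.2.2.1
    rwa [sub_sub_sub_cancel_right] at this
  have d₂ : Bd r (u₂ - u₄) := by
    have := h₂.2.2.1.sub h₄.2.2.1
    rwa [sub_sub_sub_cancel_right] at this
  have bD : Bd (r ^ 2) ((u₁ - u₄) * (u₂ - u₄)) := by
    rw [sq]
    exact d₁.mul d₂
  obtain ⟨b, db, bb, hb⟩ := PBAux.solve (v := v₄) h0 hr mU bU hW m₄ b₄ bq hq bD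
    ⟨u₁ + u₂ - u₄, by ring⟩
  obtain ⟨ρ, hρ⟩ : ∃ ρ, ρ = (b * W) %ₘ (u₁ * u₂) := ⟨_, rfl⟩
  rw [← hρ] at hb
  have bρ : Bd (r ^ 2) ρ := by
    have := (bb.mul hW).modByMonic mU bU
    rwa [mul_one, ← hρ] at this
  have dρ : ρ.degree < (u₁ * u₂).degree := hρ ▸ degree_modByMonic_lt _ mU
  have mA : (u₁ * u₂ - ρ).Monic := mU.sub_of_left dρ
  have dA : (u₁ * u₂ - ρ).natDegree = 2 * (l / 2) := by
    rw [← dU]
    exact natDegree_eq_of_degree_eq (degree_sub_eq_left_of_degree_lt dρ)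
  have hA₁ : u₁ * u₂ ∣ u₁ * u₂ - ρ + W * b := by
    have e1 := modByMonic_add_div (b * W) (u₁ * u₂)
    rw [← hρ] at e1
    exact ⟨1 + (b * W) /ₘ (u₁ * u₂), by linear_combination (-1 : E[X]) * e1⟩
  obtain ⟨J, w, hJ, hN, hJJ⟩ := PBAux.residual mU m₄ dW h₄.1.2.2 hq hA₁ hb
  obtain ⟨mN, dN⟩ := PBAux.norm_monic (l := l) (s := s) mA dA (b := b) (by
    rwa [degree_eq_natDegree m₄.ne_zero, h₄.2.1] at db)
  rw [hN] at mN dN
  have mw : w.Monic := (mU.mul m₄).of_mul_monic_left mN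
  have dw : w.natDegree = l / 2 := by
    rw [(mU.mul m₄).natDegree_mul mw, mU.natDegree_mul m₄, dU, h₄.2.1] at dN
    omega
  have k₁ : Bd (r ^ 2) (u₄ * w - u₁ * u₂) := by
    refine Bd.of_mul mU bU ?_
    have e : u₁ * u₂ * (u₄ * w - u₁ * u₂) =
        ρ * ρ - u₁ * u₂ * ρ - u₁ * u₂ * ρ - FF l s * (b * b) := by
      linear_combination (-1 : E[X]) * hN
    have t : r ^ 2 * r ^ 2 ≤ r ^ 2 := by nlinarith [sq_nonneg r]
    have t₁ : Bd (r ^ 2) (ρ * ρ) := (bρ.mul bρ).mono t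
    have t₂ : Bd (r ^ 2) (u₁ * u₂ * ρ) := by simpa using bU.mul bρ
    have t₃ : Bd (r ^ 2) (FF l s * (b * b)) := by
      simpa using B.bd_FF.mul ((bb.mul bb).mono t)
    rw [e]
    exact ((t₁.sub t₂).sub t₂).sub t₃
  have k₂ : Bd (r ^ 2) (w - (u₁ + u₂ - u₄)) := by
    refine Bd.of_mul m₄ b₄ ?_
    have e : u₄ * (w - (u₁ + u₂ - u₄)) = (u₄ * w - u₁ * u₂) + (u₁ - u₄) * (u₂ - u₄) := by ring
    rw [e]
    exact k₁.add bD
  have k₃ : Bd r (w - B.u₀) := by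
    have e : w - B.u₀ = (w - (u₁ + u₂ - u₄)) + (u₁ - u₄) + (u₂ - B.u₀) := by ring
    rw [e]
    exact ((k₂.mono hr2).add d₁).add h₂.2.2.1
  have hno : ∀ a c, B.Pl a c → ¬J ≤ pt l s a c := by
    intro a c pa hle
    obtain ⟨W', hW', dW', -, eW'⟩ := PBAux.two_W B (V₂ := C c) mU (monic_X_sub_C a) dW
      (pt_dvd pa.1) pW (fun a' ha' => by
        have : a' = a := sub_eq_zero.1 (by simpa using ha')
        rw [this, eval_C]
        exact pa)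
    have hm : (⟨u₁ * u₂ - ρ, b⟩ : CR l s) ∈ mum l s (u₁ * u₂ * (X - C a)) W' := by
      rw [← eW']
      refine (Ideal.span_singleton_le_iff_mem _).1 ?_
      rw [hJ]
      exact Ideal.mul_mono Ideal.mul_le_left hle
    have hd := (mem_mum dW' _).1 hm
    have mU' : (u₁ * u₂ * (X - C a)).Monic := mU.mul (monic_X_sub_C a)
    have bU' : Bd 1 (u₁ * u₂ * (X - C a)) := by
      simpa using bU.mul (bd_X.sub ((bd_C a).mono pa.2.1))
    have e : u₁ * u₂ - ρ = (-(W' * b)) %ₘ (u₁ * u₂ * (X - C a)) := by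
      refine PBAux.mod_eq_of_dvd mU' (degree_lt_degree ?_) (by rwa [sub_neg_eq_add])
      rw [dA, mU.natDegree_mul (monic_X_sub_C a), dU, natDegree_X_sub_C]
      omega
    have bA : Bd (r ^ 2) (u₁ * u₂ - ρ) := by
      rw [e]
      have := ((hW'.mul bb).neg).modByMonic mU' bU'
      rwa [one_mul] at this
    have := bA (u₁ * u₂ - ρ).natDegree
    rw [mA.coeff_natDegree, norm_one] at this
    exact absurd hr1 (not_lt.2 this)
  obtain ⟨v₃, c₃, e₃⟩ := B.resid hr mw dw k₃ hJJ hno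
  refine ⟨w, v₃, c₃, k₂, ?_⟩
  have hJ0 : J ≠ ⊥ := by
    rintro rfl
    rw [Ideal.mul_bot, Ideal.span_singleton_eq_bot] at hJ
    exact mA.ne_zero (congrArg QuadraticAlgebra.re hJ)
  have f₁ : cl l (mum l s (u₁ * u₂) W) * cl l (mum l s u₄ (-v₄)) * cl l J = 1 := by
    rw [← cl_mul (mum_ne_bot _ _) (mum_ne_bot _ _),
      ← cl_mul (mul_ne_zero (mum_ne_bot _ _) (mum_ne_bot _ _)) hJ0, ← hJ, cl_span]
  have f₂ : cl l (mum l s u₄ v₄) * cl l (mum l s u₄ (-v₄)) = 1 := by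
    rw [← cl_mul (mum_ne_bot _ _) (mum_ne_bot _ _), mum_mul_neg h₄.1.2.2, cl_span]
  rw [← cl_mul (I := mum l s u₁ v₁) (mum_ne_bot _ _) (mum_ne_bot _ _), eW]
  calc cl l (mum l s w v₃) * cl l (mum l s u₄ v₄)
      = cl l (mum l s w v₃) * cl l (mum l s u₄ v₄) *
        (cl l (mum l s (u₁ * u₂) W) * cl l (mum l s u₄ (-v₄)) * cl l J) := by rw [f₁, mul_one]
    _ = cl l (mum l s (u₁ * u₂) W) * (cl l (mum l s w v₃) * cl l J) *
        (cl l (mum l s u₄ v₄) * cl l (mum l s u₄ (-v₄))) := by ac_rfl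
    _ = cl l (mum l s (u₁ * u₂) W) := by rw [e₃, f₂, mul_one, mul_one]

theorem Base.exists_sub {r : ℝ} (h0 : 0 ≤ r) (hr : r < 1) :
    ∃ H : Subgroup (Jac l s), ∀ x, x ∈ H ↔ B.Nb r x := by
  have hb := B.cl_base h0
  refine ⟨⟨⟨⟨{x | B.Nb r x}, ?_⟩, ?_⟩, ?_⟩, fun _ => Iff.rfl⟩
  · rintro x y ⟨u₁, v₁, c₁, e₁⟩ ⟨u₂, v₂, c₂, e₂⟩
    obtain ⟨u₃, v₃, c₃, -, e₃⟩ := B.exists_sum hr c₁ c₂ hb
    refine ⟨u₃, v₃, c₃, mul_right_cancel (b := cl l (mum l s B.u₀ (C B.y₁))) ?_⟩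
    rw [e₃, e₁, e₂]
    ac_rfl
  · exact ⟨_, _, hb, (one_mul _).symm⟩
  · rintro x ⟨u₁, v₁, c₁, e₁⟩
    obtain ⟨u₃, v₃, c₃, -, e₃⟩ := B.exists_sum hr hb hb c₁
    refine ⟨u₃, v₃, c₃, mul_right_cancel (b := cl l (mum l s u₁ v₁)) ?_⟩
    rw [e₃, e₁, mul_mul_mul_comm, inv_mul_cancel, one_mul]

theorem PBAux.pow_coord {ρ : ℝ} (hρ : ρ < 1) {b : Jac l s} {u v : E[X]} (c : B.Cl ρ u v)
    (e : cl l (mum l s u v) = b * cl l (mum l s B.u₀ (C B.y₁))) (n : ℕ) :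
    ∃ u' v', B.Cl ρ u' v' ∧ cl l (mum l s u' v') = b ^ n * cl l (mum l s B.u₀ (C B.y₁)) ∧
      Bd (ρ ^ 2) (u' - (B.u₀ + C (n : E) * (u - B.u₀))) := by
  have h0 : 0 ≤ ρ := c.2.2.1.nonneg
  have hb := B.cl_base h0
  induction n with
  | zero =>
    refine ⟨_, _, hb, by rw [pow_zero, one_mul], ?_⟩
    simpa using bd_zero (E := E) (sq_nonneg ρ)
  | succ n ih =>
    obtain ⟨u₁, v₁, c₁, e₁, b₁⟩ := ih
    obtain ⟨u₃, v₃, c₃, b₃, e₃⟩ := B.exists_sum hρ c₁ c hb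
    refine ⟨u₃, v₃, c₃, mul_right_cancel (b := cl l (mum l s B.u₀ (C B.y₁))) ?_, ?_⟩
    · rw [e₃, e₁, e, pow_succ]
      ac_rfl
    · have h : u₃ - (B.u₀ + C ((n + 1 : ℕ) : E) * (u - B.u₀)) =
          (u₃ - (u₁ + u - B.u₀)) + (u₁ - (B.u₀ + C (n : E) * (u - B.u₀))) := by
        rw [Nat.cast_succ, C_add, C_1]
        ring
      rw [h]
      exact b₃.add b₁

theorem PBAux.nb_pow {ρ θ : ℝ} (hθ : θ < 1) (hρ : ρ ≤ θ) (hl : ‖(l : E)‖ ≤ θ) {b : Jac l s}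
    (h : B.Nb ρ b) : B.Nb (ρ * θ) (b ^ l) := by
  obtain ⟨u, v, c, e⟩ := h
  have h0 : 0 ≤ ρ := c.2.2.1.nonneg
  have h1 : ρ < 1 := lt_of_le_of_lt hρ hθ
  obtain ⟨u', v', c', e', b'⟩ := PBAux.pow_coord B h1 c e l
  refine ⟨u', v', B.cl_of (by nlinarith) c'.1 c'.2.1 ?_ fun a ha => c'.pl h1 ha, e'⟩
  have h : u' - B.u₀ = (u' - (B.u₀ + C (l : E) * (u - B.u₀))) + C (l : E) * (u - B.u₀) := by ring
  rw [h]
  refine (b'.mono (by nlinarith)).add (((bd_C _).mul c.2.2.1).mono ?_)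
  rw [mul_comm]
  exact mul_le_mul_of_nonneg_left hl h0

/-- no element near the origin is infinitely divisible near the origin -/
theorem Base.div_trivial {r : ℝ} (hr : r < 1) (A : Set (Jac l s)) (hA : ∀ a ∈ A, B.Nb r a)
    (hdiv : ∀ a ∈ A, ∃ b ∈ A, b ^ l = a) : ∀ a ∈ A, a = 1 := by
  intro a ha
  obtain ⟨u, v, c, e⟩ := hA a ha
  have h0 : 0 ≤ r := c.2.2.1.nonneg
  obtain ⟨θ, hθ⟩ : ∃ θ, θ = max ‖(l : E)‖ r := ⟨_, rfl⟩
  have t1 : θ < 1 := hθ ▸ max_lt B.hl hr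
  have t2 : r ≤ θ := hθ ▸ le_max_right _ _
  have t3 : ‖(l : E)‖ ≤ θ := hθ ▸ le_max_left _ _
  have t0 : 0 ≤ θ := h0.trans t2
  have key : ∀ n : ℕ, ∀ x ∈ A, B.Nb (θ ^ (n + 1)) x := by
    intro n
    induction n with
    | zero =>
      intro x hx
      obtain ⟨u', v', c', e'⟩ := hA x hx
      refine ⟨u', v', ⟨c'.1, c'.2.1, c'.2.2.1.mono ?_, c'.2.2.2.mono ?_⟩, e'⟩ <;> simpa using t2
    | succ n ih =>
      intro x hx
      obtain ⟨y, hy, rfl⟩ := hdiv x hx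
      rw [pow_succ]
      refine PBAux.nb_pow B t1 ?_ t3 (ih y hy)
      rw [pow_succ]
      exact mul_le_of_le_one_left t0 (pow_le_one₀ t0 t1.le)
  have small : ∀ ε : ℝ, 0 < ε → Bd ε (u - B.u₀) ∧ Bd ε (v - C B.y₁) := by
    intro ε hε
    obtain ⟨n, hn⟩ := exists_pow_lt_of_lt_one hε t1
    obtain ⟨u', v', c', e'⟩ := key n a ha
    obtain ⟨rfl, rfl⟩ := red_unique c.1 c'.1 c.2.1.le c'.2.1.le (e.trans e'.symm)
    have hle : θ ^ (n + 1) ≤ ε := by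
      rw [pow_succ]
      exact (mul_le_of_le_one_right (pow_nonneg t0 n) t1.le).trans hn.le
    exact ⟨c'.2.2.1.mono hle, c'.2.2.2.mono hle⟩
  have eu : u = B.u₀ := sub_eq_zero.1 (Bd.eq_zero fun ε hε => (small ε hε).1)
  have ev : v = C B.y₁ := sub_eq_zero.1 (Bd.eq_zero fun ε hε => (small ε hε).2)
  rw [eu, ev] at e
  exact mul_right_cancel (b := cl l (mum l s B.u₀ (C B.y₁))) (by rw [← e, one_mul])

end Pool.Agent.MP_14ad9d_nt.Full
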