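import Pool.Agent.MP_14ad9d_nt.Full.PA

set_option autoImplicit false

open Polynomial

namespace Pool.Agent.MP_14ad9d_nt.Full.PBAux

section Gauss

variable {E : Type} [NormedField E] [IsUltrametricDist E]

omit [IsUltrametricDist E] in
theorem exists_max (p : E[X]) : ∃ i, Bd ‖p.coeff i‖ p := by
  obtain ⟨i, _, hi⟩ := Finset.exists_max_image (Finset.range (p.natDegree + 1))
    (fun i => ‖p.coeff i‖) ⟨0, by simp⟩
  refine ⟨i, fun j => ?_⟩
  by_cases hj : j < p.natDegree + 1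
  · exact hi j (Finset.mem_range.2 hj)
  · rw [coeff_eq_zero_of_natDegree_lt (by omega), norm_zero]
    exact norm_nonneg _

omit [IsUltrametricDist E] in
theorem bd_of_step {p : E[X]} {ρ t : ℝ} (hρ : 0 ≤ ρ) (ht : t < 1)
    (h : ∀ β, Bd β p → Bd (max ρ (β * t)) p) : Bd ρ p := by
  obtain ⟨i, hi⟩ := exists_max p
  have h1 := h _ hi i
  by_cases hle : ‖p.coeff i‖ ≤ ρ
  · exact fun j => (hi j).trans hle
  · exfalso
    have hlt : ρ < ‖p.coeff i‖ := not_le.1 hle
    rcases le_max_iff.1 h1 with h2 | h2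
    · exact hle h2
    · have h3 : 0 < ‖p.coeff i‖ := lt_of_le_of_lt hρ hlt
      nlinarith

theorem mod_eq_of_dvd {u p q : E[X]} (hu : u.Monic) (hp : p.degree < u.degree)
    (h : u ∣ p - q) : p = q %ₘ u := by
  have h1 : p %ₘ u = q %ₘ u := modByMonic_eq_of_dvd_sub hu h
  rw [← h1, (modByMonic_eq_self_iff hu).2 hp]

/-- the linear system that determines the function -/
theorem solve {r : ℝ} (h0 : 0 ≤ r) (hr : r < 1) {U W u v q D : E[X]} (hU : U.Monic) (hU1 : Bd 1 U)
    (hW : Bd 1 W) (hu : u.Monic) (hu1 : Bd 1 u) (hq : Bd 1 q) (hinv : u ∣ (W + v) * q - 1)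
    (hD : Bd (r ^ 2) D) (hUD : u ∣ U - D) :
    ∃ b : E[X], b.degree < u.degree ∧ Bd (r ^ 2) b ∧ u ∣ U - (b * W) %ₘ U - v * b := by
  have hr2 : r ^ 2 < 1 := by nlinarith
  let L0 : E[X] →ₗ[E] E[X] := modByMonicHom u ∘ₗ
    (modByMonicHom U ∘ₗ LinearMap.mulRight E W + LinearMap.mulLeft E v)
  have hL0 : ∀ b, L0 b = ((b * W) %ₘ U + v * b) %ₘ u := fun b => rfl
  have hdeg : u.degree = (u.natDegree : WithBot ℕ) := degree_eq_natDegree hu.ne_zero
  have key : ∀ (b : E[X]) (ρ : ℝ), b.degree < u.degree → Bd ρ (L0 b) → Bd ρ b := by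
    intro b ρ hb hρ
    refine bd_of_step hρ.nonneg hr2 fun β hβ => ?_
    have hQ : Bd β ((b * W) /ₘ U) := by
      have := (hβ.mul hW).divByMonic hU hU1
      rwa [mul_one] at this
    have e : b = (q * (L0 b + ((b * W) /ₘ U) * D)) %ₘ u := by
      refine mod_eq_of_dvd hu hb ?_
      obtain ⟨c1, hc1⟩ := hinv
      obtain ⟨c2, hc2⟩ := hUD
      have e1 := modByMonic_add_div (b * W) U
      have e2 := modByMonic_add_div ((b * W) %ₘ U + v * b) u
      rw [hL0]
      refine ⟨-b * c1 + q * (((b * W) %ₘ U + v * b) /ₘ u) + q * ((b * W) /ₘ U) * c2, ?_⟩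
      linear_combination (-b) * hc1 + (-q) * e2 + (-q) * e1 + q * ((b * W) /ₘ U) * hc2
    rw [e]
    refine Bd.modByMonic ?_ hu hu1
    have h1 : Bd (max ρ (β * r ^ 2)) (L0 b + ((b * W) /ₘ U) * D) :=
      (hρ.mono (le_max_left _ _)).add ((hQ.mul hD).mono (le_max_right _ _))
    have h2 := hq.mul h1
    rwa [one_mul] at h2
  have hmap : ∀ b ∈ degreeLT E u.natDegree, L0 b ∈ degreeLT E u.natDegree := by
    intro b _
    rw [mem_degreeLT, ← hdeg, hL0]
    exact degree_modByMonic_lt _ hu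
  let L : degreeLT E u.natDegree →ₗ[E] degreeLT E u.natDegree := L0.restrict hmap
  haveI : Module.Finite E (degreeLT E u.natDegree) :=
    Module.Finite.equiv (degreeLTEquiv E u.natDegree).symm
  have hinj : Function.Injective L := by
    refine (injective_iff_map_eq_zero _).2 fun b hb => ?_
    have h1 : L0 b.1 = 0 := congrArg Subtype.val hb
    have h2 : (b.1).degree < u.degree := by
      rw [hdeg]
      exact mem_degreeLT.1 b.2
    refine Subtype.ext (Bd.eq_zero fun ρ hρ => key _ _ h2 ?_)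
    rw [h1]
    exact bd_zero hρ.le
  have hsurj : Function.Surjective L := LinearMap.injective_iff_surjective.1 hinj
  obtain ⟨b, hb⟩ := hsurj ⟨D %ₘ u, by
    rw [mem_degreeLT, ← hdeg]
    exact degree_modByMonic_lt _ hu⟩
  have h1 : L0 b.1 = D %ₘ u := congrArg Subtype.val hb
  have h2 : (b.1).degree < u.degree := by
    rw [hdeg]
    exact mem_degreeLT.1 b.2
  refine ⟨b.1, h2, key _ _ h2 ?_, ?_⟩
  · rw [h1]
    exact hD.modByMonic hu hu1
  · obtain ⟨c2, hc2⟩ := hUD
    have e2 := modByMonic_add_div ((b.1 * W) %ₘ U + v * b.1) u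
    have e3 := modByMonic_add_div D u
    rw [← hL0, h1] at e2
    refine ⟨c2 + D /ₘ u - ((b.1 * W) %ₘ U + v * b.1) /ₘ u, ?_⟩
    linear_combination hc2 + e2 - e3

end Gauss

variable {l : ℕ} [Fact l.Prime] [Fact (2 < l)] {E : Type} [NormedField E] [IsUltrametricDist E]
  [IsAlgClosed E] [CharZero E] {s : Eˣ} (B : Base l s)

omit [IsUltrametricDist E] [CharZero E] in
theorem prod_roots {u : E[X]} (hu : u.Monic) : (u.roots.map fun a => X - C a).prod = u :=
  (prod_multiset_X_sub_C_of_monic_of_roots_card_eq hu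
    (IsAlgClosed.card_roots_eq_natDegree))

/-- the product of two divisors supported in the residue disc -/
theorem two_W {U₁ V₁ U₂ V₂ : E[X]} (m₁ : U₁.Monic) (m₂ : U₂.Monic) (d₁ : U₁ ∣ V₁ ^ 2 - FF l s)
    (d₂ : U₂ ∣ V₂ ^ 2 - FF l s) (p₁ : ∀ a, U₁.IsRoot a → B.Pl a (V₁.eval a))
    (p₂ : ∀ a, U₂.IsRoot a → B.Pl a (V₂.eval a)) :
    ∃ W : E[X], Bd 1 W ∧ U₁ * U₂ ∣ W ^ 2 - FF l s ∧
      (∀ a, (U₁ * U₂).IsRoot a → B.Pl a (W.eval a)) ∧
      mum l s U₁ V₁ * mum l s U₂ V₂ = mum l s (U₁ * U₂) W := by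
  let R : Multiset (E × E) := U₁.roots.map (fun a => (a, V₁.eval a)) +
    U₂.roots.map (fun a => (a, V₂.eval a))
  have hR : ∀ p ∈ R, B.Pl p.1 p.2 := by
    intro p hp
    rcases Multiset.mem_add.1 hp with h | h
    · obtain ⟨a, ha, rfl⟩ := Multiset.mem_map.1 h
      exact p₁ a ((mem_roots m₁.ne_zero).1 ha)
    · obtain ⟨a, ha, rfl⟩ := Multiset.mem_map.1 h
      exact p₂ a ((mem_roots m₂.ne_zero).1 ha)
  obtain ⟨W, hW, hm, hev, hpr⟩ := B.exists_W R hR
  have e1 : (R.map fun p => X - C p.1).prod = U₁ * U₂ := by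
    simp only [R, Multiset.map_add, Multiset.prod_add, Multiset.map_map, Function.comp_def]
    rw [prod_roots m₁, prod_roots m₂]
  have s₁ : mum l s U₁ V₁ = (U₁.roots.map fun a => pt l s a (V₁.eval a)).prod := by
    have := mum_split (l := l) (s := s) U₁.roots (v := V₁) (by rw [prod_roots m₁]; exact d₁)
    rwa [prod_roots m₁] at this
  have s₂ : mum l s U₂ V₂ = (U₂.roots.map fun a => pt l s a (V₂.eval a)).prod := by
    have := mum_split (l := l) (s := s) U₂.roots (v := V₂) (by rw [prod_roots m₂]; exact d₂)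
    rwa [prod_roots m₂] at this
  have e2 : (R.map fun p => pt l s p.1 p.2).prod = mum l s U₁ V₁ * mum l s U₂ V₂ := by
    simp only [R, Multiset.map_add, Multiset.prod_add, Multiset.map_map, Function.comp_def]
    rw [s₁, s₂]
  rw [e1] at hm hpr
  refine ⟨W, hW, hm.2.2, fun a ha => ?_, by rw [← e2, hpr]⟩
  rcases root_mul.1 ha with h | h
  · have hmem : (a, V₁.eval a) ∈ R :=
      Multiset.mem_add.2 (Or.inl (Multiset.mem_map.2 ⟨a, (mem_roots m₁.ne_zero).2 h, rfl⟩))
    have := hev _ hmem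
    simp only at this
    rw [this]
    exact p₁ a h
  · have hmem : (a, V₂.eval a) ∈ R :=
      Multiset.mem_add.2 (Or.inr (Multiset.mem_map.2 ⟨a, (mem_roots m₂.ne_zero).2 h, rfl⟩))
    have := hev _ hmem
    simp only at this
    rw [this]
    exact p₂ a h

end Pool.Agent.MP_14ad9d_nt.Full.PBAux
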