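import Pool.Agent.MP_14ad9d_nt.Full.PB1

set_option autoImplicit false

open Polynomial

namespace Pool.Agent.MP_14ad9d_nt.Full.PBAux

section Alg

variable {l : ℕ} [Fact l.Prime] [Fact (2 < l)] {k : Type} [Field k] [CharZero k] {s : kˣ}

omit [Fact l.Prime] [Fact (2 < l)] [CharZero k] in
theorem mk_mul (p q : k[X]) : (⟨p, 0⟩ : CR l s) * ⟨q, 0⟩ = ⟨p * q, 0⟩ := by
  ext1 <;> simp

omit [Fact l.Prime] [Fact (2 < l)] [CharZero k] in
theorem sup_top {U W u v q : k[X]} (h : u ∣ (W + v) * q - 1) :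
    mum l s U W ⊔ mum l s u (-v) = ⊤ := by
  obtain ⟨c, hc⟩ := h
  have h1 : (⟨-W, 1⟩ : CR l s) ∈ mum l s U W ⊔ mum l s u (-v) :=
    Ideal.mem_sup_left (Ideal.subset_span (by simp))
  have h2 : (⟨- -v, 1⟩ : CR l s) ∈ mum l s U W ⊔ mum l s u (-v) :=
    Ideal.mem_sup_right (Ideal.subset_span (by simp))
  have h3 : (⟨u, 0⟩ : CR l s) ∈ mum l s U W ⊔ mum l s u (-v) :=
    Ideal.mem_sup_right (Ideal.subset_span (by simp))
  rw [Ideal.eq_top_iff_one]
  have e : (1 : CR l s) = ⟨q, 0⟩ * (⟨- -v, 1⟩ - ⟨-W, 1⟩) - ⟨c, 0⟩ * ⟨u, 0⟩ := by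
    ext1
    · simp [QuadraticAlgebra.re_one]
      linear_combination (-1 : k[X]) * hc
    · simp [QuadraticAlgebra.im_one]
  rw [e]
  exact Ideal.sub_mem _ (Ideal.mul_mem_left _ _ (Ideal.sub_mem _ h2 h1))
    (Ideal.mul_mem_left _ _ h3)

theorem mul_star (z : CR l s) :
    z * starRingEnd (CR l s) z = ⟨z.re ^ 2 - FF l s * z.im ^ 2, 0⟩ := by
  ext1
  · simp [starRingEnd_apply]
    ring
  · simp [starRingEnd_apply]
    ring

/-- the residual divisor of a function -/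
theorem residual {U W u v q A b : k[X]} (hU : U.Monic) (hu : u.Monic) (dU : U ∣ W ^ 2 - FF l s)
    (du : u ∣ v ^ 2 - FF l s) (hinv : u ∣ (W + v) * q - 1) (h₁ : U ∣ A + W * b)
    (h₂ : u ∣ A - v * b) :
    ∃ (J : Ideal (CR l s)) (w : k[X]),
      Ideal.span {(⟨A, b⟩ : CR l s)} = mum l s U W * mum l s u (-v) * J ∧
      A ^ 2 - FF l s * b ^ 2 = U * u * w ∧
      J * J.map (starRingEnd (CR l s)) = Ideal.span {⟨w, 0⟩} := by
  have du' : u ∣ (-v) ^ 2 - FF l s := by rwa [neg_sq]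
  have m₁ : (⟨A, b⟩ : CR l s) ∈ mum l s U W := (mem_mum dU _).2 h₁
  have m₂ : (⟨A, b⟩ : CR l s) ∈ mum l s u (-v) := (mem_mum du' _).2 (by
    simpa [sub_eq_add_neg] using h₂)
  have m₃ : (⟨A, b⟩ : CR l s) ∈ mum l s U W * mum l s u (-v) := by
    rw [Ideal.mul_eq_inf_of_coprime (sup_top hinv)]
    exact ⟨m₁, m₂⟩
  obtain ⟨J, hJ⟩ : mum l s U W * mum l s u (-v) ∣ Ideal.span {(⟨A, b⟩ : CR l s)} :=
    Ideal.dvd_iff_le.2 ((Ideal.span_singleton_le_iff_mem _).2 m₃)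
  have e1 : Ideal.span {(⟨A ^ 2 - FF l s * b ^ 2, 0⟩ : CR l s)} =
      Ideal.span {(⟨U * u, 0⟩ : CR l s)} * (J * J.map (starRingEnd (CR l s))) := by
    have e2 : Ideal.span {(⟨A ^ 2 - FF l s * b ^ 2, 0⟩ : CR l s)} =
        Ideal.span {(⟨A, b⟩ : CR l s)} *
          (Ideal.span {(⟨A, b⟩ : CR l s)}).map (starRingEnd (CR l s)) := by
      rw [Ideal.map_span, Set.image_singleton, Ideal.span_singleton_mul_span_singleton, mul_star]
    rw [e2, hJ, Ideal.map_mul, Ideal.map_mul, map_star_mum, map_star_mum, ← mk_mul,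
      ← Ideal.span_singleton_mul_span_singleton, ← mum_mul_neg dU, ← mum_mul_neg du']
    ring
  have m₄ : (⟨A ^ 2 - FF l s * b ^ 2, 0⟩ : CR l s) ∈ Ideal.span {(⟨U * u, 0⟩ : CR l s)} :=
    (Ideal.span_singleton_le_iff_mem _).1 (e1 ▸ Ideal.mul_le_left)
  obtain ⟨z, hz⟩ := Ideal.mem_span_singleton'.1 m₄
  have e3 : A ^ 2 - FF l s * b ^ 2 = U * u * z.re := by
    have := congrArg QuadraticAlgebra.re hz
    simp at this
    rw [← this]
    ring
  refine ⟨J, z.re, hJ, e3, ?_⟩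
  rw [e3, ← mk_mul, ← Ideal.span_singleton_mul_span_singleton] at e1
  have hne : Ideal.span {(⟨U * u, 0⟩ : CR l s)} ≠ ⊥ := by
    rw [Ne, Ideal.span_singleton_eq_bot]
    intro h
    exact (hU.mul hu).ne_zero (congrArg QuadraticAlgebra.re h)
  exact (mul_left_cancel₀ hne e1).symm

omit [CharZero k] in
theorem norm_monic {A b : k[X]} (hA : A.Monic) (dA : A.natDegree = 2 * (l / 2))
    (db : b.degree < (l / 2 : ℕ)) :
    (A ^ 2 - FF l s * b ^ 2).Monic ∧ (A ^ 2 - FF l s * b ^ 2).natDegree = 4 * (l / 2) := by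
  have hl2 : 2 < l := Fact.out
  have hodd : l % 2 = 1 := (Fact.out : l.Prime).eq_two_or_odd.resolve_left (by omega)
  have hA2 : (A ^ 2).natDegree = 4 * (l / 2) := by
    rw [hA.natDegree_pow, dA]
    ring
  have hlt : (FF l s * b ^ 2).natDegree < (A ^ 2).natDegree := by
    rw [hA2]
    by_cases hb : b = 0
    · simp [hb]
      omega
    · have h1 : b.natDegree < l / 2 := (natDegree_lt_iff_degree_lt hb).2 db
      have h2 : (FF l s * b ^ 2).natDegree ≤ l + 2 * b.natDegree := by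
        refine natDegree_mul_le.trans ?_
        rw [FF_natDegree]
        exact Nat.add_le_add_left natDegree_pow_le _
      omega
  refine ⟨(hA.pow 2).sub_of_left (degree_lt_degree hlt), ?_⟩
  rw [natDegree_sub_eq_left_of_natDegree_lt hlt, hA2]

end Alg

end Pool.Agent.MP_14ad9d_nt.Full.PBAux
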