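import Pool.Agent.MP_14ad9d_nt.Full.PC1

set_option autoImplicit false

open Polynomial Filter Topology

namespace Pool.Agent.MP_14ad9d_nt.Full

variable {l : ℕ} [Fact l.Prime] [Fact (2 < l)] {E : Type} [NormedField E] [IsUltrametricDist E]
  [IsAlgClosed E] [CharZero E] {s : Eˣ} (B : Base l s)

open PCAux

/-- continuity at infinity -/
theorem Base.loc_inf {r : ℝ} (h0 : 0 < r) (hr : r < 1) : ∃ R : ℝ, ∀ a b : E,
    b ^ 2 = a ^ l + (s : E) ^ 2 → R < ‖a‖ → B.Nb r (cl l (pt l s a b)) := by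
  refine ⟨(r ^ 2)⁻¹, fun a b hab hR => ?_⟩
  have hr2 : r ^ 2 < 1 := by nlinarith
  have ha : 1 < ‖a‖ := ((one_lt_inv₀ (by positivity)).2 hr2).trans hR
  have ha0 : 0 < ‖a‖ := by linarith
  obtain ⟨h, hm, hd, hb, hh⟩ := exists_h B
  have hl := l_eq (l := l)
  have hal : 1 < ‖a‖ ^ l := one_lt_pow₀ ha (by omega)
  have hb2 : ‖b‖ ^ 2 = ‖a‖ ^ l := by
    rw [← norm_pow, hab, ← sub_neg_eq_add, nsub_eq, norm_pow]
    rw [norm_neg, norm_pow, norm_pow]
    exact (pow_le_one₀ (norm_nonneg _) B.hs).trans_lt hal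
  have hb1 : 1 < ‖b‖ := by
    by_contra hc
    have := pow_le_one₀ (n := 2) (norm_nonneg b) (not_lt.1 hc)
    linarith
  have hby : ‖b - B.y₁‖ = ‖b‖ := nsub_eq (by rw [B.hy]; exact hb1)
  have hby0 : b - B.y₁ ≠ 0 := by
    rw [← norm_pos_iff, hby]
    linarith
  have hA : ‖B.u₀.eval a‖ = ‖a‖ ^ (l / 2) := by rw [norm_eval_big B.monic B.bd_u₀ ha, B.deg]
  have hA0 : B.u₀.eval a ≠ 0 := by
    rw [← norm_pos_iff, hA]
    positivity
  obtain ⟨β, hβ⟩ : ∃ β : E, β * (b - B.y₁) = -B.u₀.eval a := ⟨_, div_mul_cancel₀ _ hby0⟩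
  have hn : ‖β‖ ^ 2 * ‖a‖ = 1 := by
    have e := congrArg norm hβ
    rw [norm_mul, norm_neg, hby, hA] at e
    have e2 : ‖a‖ ^ l = (‖a‖ ^ (l / 2)) ^ 2 * ‖a‖ := by
      rw [← pow_mul, ← pow_succ, mul_comm, ← hl]
    have e3 : 0 < ‖a‖ ^ l := by positivity
    apply mul_right_cancel₀ e3.ne'
    rw [one_mul]
    nth_rewrite 2 [e2]
    rw [← e, ← hb2]
    ring
  have hβ0 : β ≠ 0 := by
    rintro rfl
    simp at hn
  have hβr : ‖β‖ ≤ r := by
    refine (pow_le_pow_iff_left₀ (norm_nonneg _) h0.le two_ne_zero).1 ?_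
    rw [inv_lt_iff_one_lt_mul₀' (by positivity)] at hR
    nlinarith
  have hβ1 : ‖β‖ ≤ 1 := hβr.trans hr.le
  have hβ2 : ‖β ^ 2‖ ≤ ‖β‖ := by
    rw [norm_pow]
    nlinarith [norm_nonneg β]
  have hc : ‖2 * β * B.y₁‖ = ‖β‖ := by rw [norm_mul, norm_mul, B.norm_two, B.hy, one_mul, mul_one]
  have hfp : fn B 1 β ∈ pt l s a b := fn_mem_pt B hab (by rw [eval_one]; linear_combination hβ)
  have hN := fn_norm B hh 1 β
  have hroot := norm_root hab hfp
  rw [hN, eval_mul] at hroot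
  replace hroot := (mul_eq_zero.1 hroot).resolve_left hA0
  obtain ⟨t, ht⟩ := dvd_iff_isRoot.2 hroot
  have hc0 : -β ^ 2 ≠ 0 := neg_ne_zero.2 (pow_ne_zero _ hβ0)
  obtain ⟨u, rfl⟩ : ∃ u, t = C (-β ^ 2) * u :=
    ⟨C (-β ^ 2)⁻¹ * t, by rw [← mul_assoc, ← C_mul, mul_inv_cancel₀ hc0, C_1, one_mul]⟩
  have hi : C (β ^ 2)⁻¹ * C (β ^ 2) = (1 : E[X]) := by
    rw [← C_mul, inv_mul_cancel₀ (pow_ne_zero _ hβ0), C_1]
  have e1 : (X - C a) * u = h - C (β ^ 2)⁻¹ * (B.u₀ - C (2 * β * B.y₁)) := by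
    rw [C_neg] at ht
    linear_combination C (β ^ 2)⁻¹ * ht + (h - (X - C a) * u) * hi
  have hlt : (C (β ^ 2)⁻¹ * (B.u₀ - C (2 * β * B.y₁))).natDegree < h.natDegree := by
    refine (natDegree_C_mul_le _ _).trans_lt ?_
    rw [natDegree_sub_C, B.deg, hd]
    omega
  have hm1 : ((X - C a) * u).Monic := by
    rw [e1]
    exact hm.sub_of_left (degree_lt_degree hlt)
  have hu : u.Monic := (monic_X_sub_C a).of_mul_monic_left hm1
  have hdu : u.natDegree = l / 2 := by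
    have := congrArg natDegree e1
    rw [natDegree_sub_eq_left_of_natDegree_lt hlt, (monic_X_sub_C a).natDegree_mul hu,
      natDegree_X_sub_C, hd] at this
    omega
  have hia : ‖(β ^ 2)⁻¹‖ = ‖a‖ := by
    rw [norm_inv, norm_pow]
    exact (eq_inv_of_mul_eq_one_right hn).symm
  have hu1 : Bd 1 u := by
    rw [← div_self ha0.ne']
    refine bd_div_big ha.le ?_
    rw [e1]
    refine (hb.mono ha.le).sub ?_
    have := (bd_C (β ^ 2)⁻¹).mul (B.bd_u₀.sub (bd_Cle (hc.trans_le hβ1)))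
    rwa [mul_one, hia] at this
  have hD : Bd ‖β‖ (B.u₀ - C (β ^ 2 * a) * u) := by
    have e2 : B.u₀ - C (β ^ 2 * a) * u =
        C (2 * β * B.y₁) + C (β ^ 2) * h - C (β ^ 2) * (X * u) := by
      rw [C_neg] at ht
      rw [C_mul (a := β ^ 2)]
      linear_combination ht
    rw [e2]
    refine ((bd_Cle hc.le).add ?_).sub ?_
    · simpa using (bd_Cle hβ2).mul hb
    · simpa using (bd_Cle hβ2).mul (bd_X.mul hu1)
  have h1c : ‖1 - β ^ 2 * a‖ ≤ ‖β‖ := by
    have := hD (l / 2)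
    rw [coeff_sub, coeff_C_mul] at this
    nth_rewrite 1 [← B.deg] at this
    rwa [← hdu, B.monic.coeff_natDegree, hu.coeff_natDegree, mul_one] at this
  refine core B hr (nrm_pt hab) (X_sub_C_ne_zero a)
    (mem_mul_of (pt_isMaximal hab) (mum_not_le hab hA0) (fn_mem B 1 β) hfp) hc0
    (by rw [hN, ht]; ring) hu hdu ?_ fun x _ _ => ?_
  · have e3 : u - B.u₀ = C (1 - β ^ 2 * a) * u - (B.u₀ - C (β ^ 2 * a) * u) := by
      rw [C_sub, C_1]
      ring
    rw [e3]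
    refine Bd.mono (Bd.sub ?_ hD) hβr
    simpa using (bd_Cle h1c).mul hu1
  · simpa using hβr.trans_lt hr

theorem PCAux.gen_core {r η : ℝ} (hr : r < 1) {a b a' b' β ν : E}
    (h : b ^ 2 = a ^ l + (s : E) ^ 2) (h' : b' ^ 2 = a' ^ l + (s : E) ^ 2) (hne : a' ≠ a)
    (hA' : B.u₀.eval a' ≠ 0) (h1 : η * max 1 ‖a‖ ≤ r) (h2 : η * max 1 ‖a‖ < ‖B.u₀.eval a‖)
    (ht : ‖a' - a‖ ≤ η) (hβ : ‖β‖ ≤ η) (hν : ‖ν‖ ≤ η)
    (e1 : (a' - a - ν) * B.u₀.eval a' + β * (b' - B.y₁) = 0)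
    (e2 : -ν * B.u₀.eval a + β * (-b - B.y₁) = 0) :
    B.Nb r (cl l (pt l s a' b') / cl l (pt l s a b)) := by
  have hη0 : 0 ≤ η := (norm_nonneg _).trans ht
  have hK : 1 ≤ max 1 ‖a‖ := le_max_left _ _
  have hηK : η ≤ η * max 1 ‖a‖ := le_mul_of_one_le_right hη0 hK
  have hη1 : η < 1 := (hηK.trans h1).trans_lt hr
  have hA : B.u₀.eval a ≠ 0 := by
    rw [← norm_pos_iff]
    exact (hη0.trans hηK).trans_lt h2
  have hn : (-b) ^ 2 = a ^ l + (s : E) ^ 2 := by rw [neg_sq, h]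
  obtain ⟨g, hm, hd, hb, hh⟩ := exists_h B
  have hf1 : fn B (X - C (a + ν)) β ∈ pt l s a' b' :=
    fn_mem_pt B h' (by rw [eval_sub, eval_X, eval_C]; linear_combination e1)
  have hf2 : fn B (X - C (a + ν)) β ∈ pt l s a (-b) :=
    fn_mem_pt B hn (by rw [eval_sub, eval_X, eval_C]; linear_combination e2)
  have hN := fn_norm B hh (X - C (a + ν)) β
  have r1 := norm_root h' hf1
  have r2 := norm_root hn hf2
  rw [hN, eval_mul] at r1 r2
  replace r1 := (mul_eq_zero.1 r1).resolve_left hA'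
  replace r2 := (mul_eq_zero.1 r2).resolve_left hA
  obtain ⟨u, hu⟩ := (isCoprime_X_sub_C_of_isUnit_sub (sub_ne_zero.2 hne).isUnit).mul_dvd
    (dvd_iff_isRoot.2 r1) (dvd_iff_isRoot.2 r2)
  have hm0 : ((X - C (a + ν)) ^ 2 * B.u₀).Monic := ((monic_X_sub_C _).pow 2).mul B.monic
  have hd0 : ((X - C (a + ν)) ^ 2 * B.u₀).natDegree = l / 2 + 2 := by
    rw [((monic_X_sub_C _).pow 2).natDegree_mul B.monic, (monic_X_sub_C _).natDegree_pow,
      natDegree_X_sub_C, B.deg]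
    omega
  have hlt : (C (2 * β * B.y₁) * (X - C (a + ν)) + C (β ^ 2) * g).natDegree <
      ((X - C (a + ν)) ^ 2 * B.u₀).natDegree := by
    refine (natDegree_add_le _ _).trans_lt (max_lt ?_ ?_)
    · refine (natDegree_C_mul_le _ _).trans_lt ?_
      rw [natDegree_X_sub_C, hd0]
      omega
    · refine (natDegree_C_mul_le _ _).trans_lt ?_
      rw [hd, hd0]
      omega
  have hmq : ((X - C a') * (X - C a)).Monic := (monic_X_sub_C _).mul (monic_X_sub_C _)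
  rw [sub_sub] at hu
  have hmu : u.Monic := hmq.of_mul_monic_left (by
    rw [← hu]
    exact hm0.sub_of_left (degree_lt_degree hlt))
  have hdu : u.natDegree = l / 2 := by
    have := congrArg natDegree hu
    rw [natDegree_sub_eq_left_of_natDegree_lt hlt, hd0, hmq.natDegree_mul hmu,
      (monic_X_sub_C _).natDegree_mul (monic_X_sub_C _), natDegree_X_sub_C,
      natDegree_X_sub_C] at this
    omega
  have hc : ‖2 * β * B.y₁‖ ≤ η := by
    rwa [norm_mul, norm_mul, B.norm_two, B.hy, one_mul, mul_one]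
  have hsq : ∀ x : E, ‖x‖ ≤ η → ‖x ^ 2‖ ≤ η * max 1 ‖a‖ := fun x hx => by
    rw [norm_pow]
    nlinarith [norm_nonneg x]
  have hbd : Bd (η * max 1 ‖a‖) (u - B.u₀) := by
    refine bd_div (a := a) (bd_div (a := a') ?_)
    have e3 : (X - C a') * ((X - C a) * (u - B.u₀)) =
        ((C (a' - a) - C ν - C ν) * (X - C a) + C (ν ^ 2)) * B.u₀ -
        (C (2 * β * B.y₁) * (X - C a - C ν) + C (β ^ 2) * g) := by
      rw [C_add] at hu
      rw [C_sub, C_pow (a := ν)]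
      linear_combination -hu
    rw [e3]
    refine Bd.sub ?_ (Bd.add ?_ ?_)
    · simpa using (((((bd_Cle ht).sub (bd_Cle hν)).sub (bd_Cle hν)).mul (bd_lin a)).add
        (bd_Cle (hsq ν hν))).mul B.bd_u₀
    · exact (bd_Cle hc).mul ((bd_lin a).sub (bd_Cle (hν.trans (hη1.le.trans hK))))
    · simpa using (bd_Cle (hsq β hβ)).mul hb
  have hmem : fn B (X - C (a + ν)) β ∈
      mum l s B.u₀ (C B.y₁) * (pt l s a' b' * pt l s a (-b)) := by
    rw [← mul_assoc]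
    refine mem_mul_of (pt_isMaximal hn) (fun hle => ?_)
      (mem_mul_of (pt_isMaximal h') (mum_not_le h' hA') (fn_mem B _ β) hf1) hf2
    rcases (pt_isMaximal hn).isPrime.mul_le.1 hle with hle | hle
    · exact mum_not_le hn hA hle
    · exact mum_not_le hn (by simpa using sub_ne_zero.2 hne.symm) hle
  have key := core B hr (nrm_mul (nrm_pt h') (nrm_pt hn)) hmq.ne_zero hmem one_ne_zero
    (by rw [hN, sub_sub, hu, C_1, one_mul]) hmu hdu (hbd.mono h1) (by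
      intro x hx hux
      by_contra hcon
      rw [not_lt, eval_sub, eval_X, eval_C] at hcon
      have h3 : ‖a - x‖ ≤ η := by
        rw [show a - x = -ν - (x - (a + ν)) by ring]
        exact (nsub _ _).trans (max_le (by rwa [norm_neg]) (hcon.trans hβ))
      have h4 : ‖a‖ ≤ 1 := by
        rw [show a = a - x - -x by ring]
        exact (nsub _ _).trans (max_le (h3.trans hη1.le) (by rwa [norm_neg]))
      have h5 := (norm_eval_sub B.bd_u₀ h4 hx).trans (h3.trans hηK)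
      have h6 := hbd.eval hx
      rw [eval_sub, hux.eq_zero, zero_sub] at h6
      refine h2.not_ge ?_
      rw [show B.u₀.eval a = B.u₀.eval a - B.u₀.eval x - -B.u₀.eval x by ring]
      exact (nsub _ _).trans (max_le h5 h6))
  rwa [cl_mul (I := pt l s a' b') (J := pt l s a (-b)) (mum_ne_bot _ _) (mum_ne_bot _ _),
    cl_pt_neg h, ← div_eq_mul_inv] at key

/-- continuity at a general point -/
theorem Base.loc_gen {r : ℝ} (h0 : 0 < r) (hr : r < 1) {a b : E}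
    (h : b ^ 2 = a ^ l + (s : E) ^ 2) (hb : b ≠ 0) (ha : ¬B.u₀.IsRoot a) :
    ∃ δ : ℝ, 0 < δ ∧ ∀ a' b' : E, b' ^ 2 = a' ^ l + (s : E) ^ 2 → ‖a' - a‖ < δ → ‖b' - b‖ < δ →
      B.Nb r (cl l (pt l s a' b') / cl l (pt l s a b)) := by
  have hA : B.u₀.eval a ≠ 0 := ha
  have hA0 : 0 < ‖B.u₀.eval a‖ := norm_pos_iff.2 hA
  have hK : 0 < max 1 ‖a‖ := lt_max_of_lt_left one_pos
  obtain ⟨η, hη, h1, h2⟩ : ∃ η : ℝ, 0 < η ∧ η * max 1 ‖a‖ ≤ r ∧
      η * max 1 ‖a‖ < ‖B.u₀.eval a‖ := by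
    refine ⟨min r (‖B.u₀.eval a‖ / 2) / max 1 ‖a‖, by positivity, ?_, ?_⟩ <;>
      rw [div_mul_cancel₀ _ hK.ne']
    · exact min_le_left _ _
    · exact (min_le_right _ _).trans_lt (half_lt_self hA0)
  let D : E × E → E := fun z =>
    B.u₀.eval a * (z.2 - B.y₁) + B.u₀.eval z.1 * (b + B.y₁)
  have cu : Continuous fun z : E × E => B.u₀.eval z.1 := B.u₀.continuous.comp continuous_fst
  have cD : Continuous D := by fun_prop
  have hD : D (a, b) ≠ 0 := by
    rw [show D (a, b) = 2 * b * B.u₀.eval a by simp only [D]; ring]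
    exact mul_ne_zero (mul_ne_zero two_ne_zero hb) hA
  have small : ∀ c : E, ∀ᶠ z : E × E in 𝓝 (a, b),
      ‖(z.1 - a) * B.u₀.eval z.1 * c / D z‖ < η := fun c => by
    have hc : ContinuousAt (fun z : E × E => ‖(z.1 - a) * B.u₀.eval z.1 * c / D z‖) (a, b) :=
      (ContinuousAt.div (by fun_prop) cD.continuousAt hD).norm
    exact hc.eventually_lt_const (by simpa using hη)
  have ev : ∀ᶠ z : E × E in 𝓝 (a, b), D z ≠ 0 ∧ B.u₀.eval z.1 ≠ 0 ∧ z.2 + b ≠ 0 ∧
      ‖(z.1 - a) * B.u₀.eval z.1 * (-B.u₀.eval a) / D z‖ < η ∧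
      ‖(z.1 - a) * B.u₀.eval z.1 * (b + B.y₁) / D z‖ < η := by
    refine (cD.continuousAt.eventually_ne hD).and ((cu.continuousAt.eventually_ne hA).and
      (Eventually.and ?_ ((small _).and (small _))))
    refine ContinuousAt.eventually_ne (by fun_prop) ?_
    rw [← two_mul]
    exact mul_ne_zero two_ne_zero hb
  obtain ⟨ε, hε, hev⟩ := Metric.eventually_nhds_iff.1 ev
  refine ⟨min ε η, lt_min hε hη, fun a' b' h' ha' hb' => ?_⟩
  obtain ⟨g1, g2, g3, g4, g5⟩ := hev (y := (a', b')) (by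
    rw [Prod.dist_eq, dist_eq_norm, dist_eq_norm]
    exact max_lt (ha'.trans_le (min_le_left _ _)) (hb'.trans_le (min_le_left _ _)))
  by_cases hne : a' = a
  · subst hne
    have : b' = b := by
      have e : (b' - b) * (b' + b) = 0 := by linear_combination h' - h
      exact sub_eq_zero.1 ((mul_eq_zero.1 e).resolve_right g3)
    rw [this, div_self']
    exact ⟨_, _, B.cl_base h0.le, (one_mul _).symm⟩
  · refine gen_core B hr h h' hne g2 h1 h2 (ha'.le.trans (min_le_right _ _)) g4.le g5.le ?_ ?_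
    · simp only [D] at g1 ⊢
      field_simp
      ring
    · simp only [D] at g1 ⊢
      field_simp
      ring

end Pool.Agent.MP_14ad9d_nt.Full
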