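import Pool.Agent.MP_14ad9d_nt.Full.PA

set_option autoImplicit false

open Polynomial

namespace Pool.Agent.MP_14ad9d_nt.Full.PCAux

section Gauss

variable {E : Type} [NormedField E] [IsUltrametricDist E] {r : ℝ} {u : E[X]}

theorem bd_Cle {a : E} (h : ‖a‖ ≤ r) : Bd r (C a) := (bd_C a).mono h

theorem bd_lin (a : E) : Bd (max 1 ‖a‖) (X - C a) :=
  (bd_X.mono (le_max_left _ _)).sub ((bd_C a).mono (le_max_right _ _))

theorem bd_lin1 {a : E} (h : ‖a‖ ≤ 1) : Bd 1 (X - C a) := bd_X.sub (bd_Cle h)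

theorem nsub (x y : E) : ‖x - y‖ ≤ max ‖x‖ ‖y‖ := by
  rw [sub_eq_add_neg, ← norm_neg y]
  exact IsUltrametricDist.norm_add_le_max x (-y)

theorem nsub_eq {x y : E} (h : ‖y‖ < ‖x‖) : ‖x - y‖ = ‖x‖ := by
  rw [sub_eq_add_neg, IsUltrametricDist.norm_add_eq_max_of_norm_ne_norm
    (by rw [norm_neg]; exact h.ne'), norm_neg, max_eq_left h.le]

theorem bd_div_big {a : E} (ha : 1 ≤ ‖a‖) (h : Bd r ((X - C a) * u)) : Bd (r / ‖a‖) u := by
  have hr := h.nonneg
  have ha0 : 0 < ‖a‖ := by linarith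
  intro i
  rw [le_div_iff₀ ha0, mul_comm, ← norm_mul]
  induction i with
  | zero =>
    have := h 0
    simpa using this
  | succ i ih =>
    have h1 := h (i + 1)
    rw [sub_mul, coeff_sub, coeff_X_mul, coeff_C_mul] at h1
    have h2 : ‖u.coeff i‖ ≤ r := by
      rw [norm_mul] at ih
      nlinarith [norm_nonneg (u.coeff i)]
    have e : a * u.coeff (i + 1) = u.coeff i - (u.coeff i - a * u.coeff (i + 1)) := by ring
    rw [e]
    exact (nsub _ _).trans (max_le h2 h1)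

theorem bd_div {a : E} (h : Bd r ((X - C a) * u)) : Bd r u := by
  rcases le_total ‖a‖ 1 with ha | ha
  · exact Bd.of_mul (monic_X_sub_C a) (bd_lin1 ha) h
  · exact (bd_div_big ha h).mono (div_le_self h.nonneg ha)

theorem norm_eval_big [IsAlgClosed E] (hu : u.Monic) (h1 : Bd 1 u) {a : E} (ha : 1 < ‖a‖) :
    ‖u.eval a‖ = ‖a‖ ^ u.natDegree := by
  have hs := IsAlgClosed.splits u
  have key : ∀ R : Multiset E, (∀ x ∈ R, ‖x‖ ≤ 1) →
      ‖(R.map fun x => X - C x).prod.eval a‖ = ‖a‖ ^ Multiset.card R := by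
    intro R
    induction R using Multiset.induction_on with
    | empty => simp
    | cons x R ih =>
      intro h
      rw [Multiset.map_cons, Multiset.prod_cons, eval_mul, norm_mul,
        ih fun y hy => h y (Multiset.mem_cons_of_mem hy), Multiset.card_cons, pow_succ',
        eval_sub, eval_X, eval_C,
        nsub_eq ((h x (Multiset.mem_cons_self _ _)).trans_lt ha)]
  have e := hs.eq_prod_roots_of_monic hu
  rw [hs.natDegree_eq_card_roots, ← key u.roots fun x hx =>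
    root_le_one hu h1 ((mem_roots hu.ne_zero).1 hx), ← e]

theorem norm_eval_sub (h1 : Bd 1 u) {a b : E} (ha : ‖a‖ ≤ 1) (hb : ‖b‖ ≤ 1) :
    ‖u.eval a - u.eval b‖ ≤ ‖a - b‖ := by
  obtain ⟨t, ht⟩ := X_sub_C_dvd_sub_C_eval (p := u) (a := b)
  have h2 : Bd 1 t := by
    refine Bd.of_mul (monic_X_sub_C b) (bd_lin1 hb) ?_
    rw [← ht]
    exact h1.sub (bd_Cle (h1.eval hb))
  have e := congrArg (eval a) ht
  rw [eval_sub, eval_C, eval_mul, eval_sub, eval_X, eval_C] at e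
  rw [e, norm_mul]
  exact mul_le_of_le_one_right (norm_nonneg _) (h2.eval ha)

end Gauss

section Ideals

variable {l : ℕ} [Fact l.Prime] [Fact (2 < l)] {k : Type} [Field k] [CharZero k] {s : kˣ}

theorem span_mul (p q : k[X]) : Ideal.span {(⟨p, 0⟩ : CR l s)} * Ideal.span {⟨q, 0⟩} =
    Ideal.span {⟨p * q, 0⟩} := by
  rw [Ideal.span_singleton_mul_span_singleton]
  congr 2
  ext1 <;> simp

theorem nrm_mul {I J : Ideal (CR l s)} {p q : k[X]}
    (hI : I * I.map (starRingEnd (CR l s)) = Ideal.span {⟨p, 0⟩})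
    (hJ : J * J.map (starRingEnd (CR l s)) = Ideal.span {⟨q, 0⟩}) :
    I * J * (I * J).map (starRingEnd (CR l s)) = Ideal.span {⟨p * q, 0⟩} := by
  rw [Ideal.map_mul, mul_mul_mul_comm, hI, hJ, span_mul]

theorem nrm_mum {u v : k[X]} (h : u ∣ v ^ 2 - FF l s) :
    mum l s u v * (mum l s u v).map (starRingEnd (CR l s)) = Ideal.span {⟨u, 0⟩} := by
  rw [map_star_mum, mum_mul_neg h]

theorem nrm_pt {a b : k} (h : b ^ 2 = a ^ l + (s : k) ^ 2) :
    pt l s a b * (pt l s a b).map (starRingEnd (CR l s)) = Ideal.span {⟨X - C a, 0⟩} :=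
  nrm_mum (pt_dvd h)

theorem nrm_span (f : CR l s) :
    Ideal.span {f} * (Ideal.span {f}).map (starRingEnd (CR l s)) =
      Ideal.span {⟨QuadraticAlgebra.norm f, 0⟩} := by
  rw [Ideal.map_span, Set.image_singleton, Ideal.span_singleton_mul_span_singleton,
    ← QuadraticAlgebra.algebraMap_eq, QuadraticAlgebra.algebraMap_norm_eq_mul_star]
  rfl

theorem span_ne {p : k[X]} (hp : p ≠ 0) : Ideal.span {(⟨p, 0⟩ : CR l s)} ≠ ⊥ := by
  rw [Ne, Ideal.span_singleton_eq_bot]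
  exact fun h => hp (congrArg QuadraticAlgebra.re h)

theorem span_C {c : k} (hc : c ≠ 0) (p : k[X]) :
    Ideal.span {(⟨C c * p, 0⟩ : CR l s)} = Ideal.span {⟨p, 0⟩} := by
  rw [← span_mul, Ideal.span_singleton_eq_top.2, Ideal.top_mul]
  rw [← QuadraticAlgebra.algebraMap_eq]
  exact (isUnit_C.2 (Ne.isUnit hc)).map _

theorem mem_mul_of {M P : Ideal (CR l s)} (hP : P.IsMaximal) (h : ¬M ≤ P) {f : CR l s}
    (hM : f ∈ M) (hf : f ∈ P) : f ∈ M * P := by
  have e : M ⊔ P = ⊤ := hP.out.2 _ (lt_of_le_of_ne le_sup_right fun e => h (e ▸ le_sup_left))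
  rw [Ideal.mul_eq_inf_of_coprime e]
  exact ⟨hM, hf⟩

theorem mum_not_le {u v : k[X]} {a b : k} (h : b ^ 2 = a ^ l + (s : k) ^ 2)
    (ha : u.eval a ≠ 0) : ¬mum l s u v ≤ pt l s a b := by
  intro hle
  have : (⟨u, 0⟩ : CR l s) ∈ pt l s a b := hle (Ideal.subset_span (Set.mem_insert _ _))
  rw [mem_pt h] at this
  exact ha (by simpa [evp] using this)

theorem norm_root {a b : k} (h : b ^ 2 = a ^ l + (s : k) ^ 2) {f : CR l s}
    (hf : f ∈ pt l s a b) : (QuadraticAlgebra.norm f).eval a = 0 := by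
  have : (⟨QuadraticAlgebra.norm f, 0⟩ : CR l s) ∈ pt l s a b := by
    rw [← QuadraticAlgebra.algebraMap_eq, QuadraticAlgebra.algebraMap_norm_eq_mul_star]
    exact Ideal.mul_mem_right _ _ hf
  rw [mem_pt h] at this
  simpa [evp] using this

end Ideals

variable {l : ℕ} [Fact l.Prime] [Fact (2 < l)] {E : Type} [NormedField E] [IsUltrametricDist E]
  [IsAlgClosed E] [CharZero E] {s : Eˣ} (B : Base l s)

theorem l_eq : l = 2 * (l / 2) + 1 := by
  have h2 : 2 < l := Fact.out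
  have := (Fact.out : l.Prime).eq_two_or_odd
  omega

theorem exists_h : ∃ h : E[X], h.Monic ∧ h.natDegree = l / 2 + 1 ∧ Bd 1 h ∧
    FF l s = C B.y₁ ^ 2 + B.u₀ * h := by
  obtain ⟨t, ht⟩ := B.dvd
  have e : FF l s - C B.y₁ ^ 2 = B.u₀ * (-t) := by linear_combination -ht
  have hl := l_eq (l := l)
  have hlt : (C B.y₁ ^ 2 : E[X]).natDegree < (FF l s).natDegree := by
    rw [← C_pow, natDegree_C, FF_natDegree]
    omega
  have hm : (B.u₀ * (-t)).Monic := by
    rw [← e]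
    exact (FF_monic l s).sub_of_left (degree_lt_degree hlt)
  have hm' : (-t).Monic := B.monic.of_mul_monic_left hm
  refine ⟨-t, hm', ?_, ?_, by linear_combination e⟩
  · have := congrArg natDegree e
    rw [natDegree_sub_eq_left_of_natDegree_lt hlt, FF_natDegree, B.monic.natDegree_mul hm',
      B.deg] at this
    omega
  · refine Bd.of_mul B.monic B.bd_u₀ ?_
    rw [← e, ← C_pow]
    exact B.bd_FF.sub (bd_Cle (by rw [norm_pow, B.hy, one_pow]))

/-- the auxiliary function -/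
noncomputable def fn (p : E[X]) (β : E) : CR l s := ⟨p * B.u₀ - C (β * B.y₁), C β⟩

theorem fn_mem (p : E[X]) (β : E) : fn B p β ∈ mum l s B.u₀ (C B.y₁) := by
  rw [mem_mum B.dvd]
  exact ⟨p, by simp only [fn, C_mul]; ring⟩

theorem fn_mem_pt {p : E[X]} {β a b : E} (h : b ^ 2 = a ^ l + (s : E) ^ 2)
    (e : p.eval a * B.u₀.eval a + β * (b - B.y₁) = 0) : fn B p β ∈ pt l s a b := by
  rw [mem_pt h]
  simp only [evp, fn, eval_sub, eval_mul, eval_C]
  linear_combination e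

theorem fn_norm {h : E[X]} (hh : FF l s = C B.y₁ ^ 2 + B.u₀ * h) (p : E[X]) (β : E) :
    QuadraticAlgebra.norm (fn B p β) =
      B.u₀ * (p ^ 2 * B.u₀ - C (2 * β * B.y₁) * p - C (β ^ 2) * h) := by
  rw [norm_eq]
  simp only [fn, C_mul, C_pow, map_ofNat]
  linear_combination (-(C β) ^ 2) * hh

theorem fn_bound {p : E[X]} {β a b : E} (h : B.Pl a b)
    (hf : fn B p β ∈ mum l s B.u₀ (C B.y₁) * pt l s a b) : ‖p.eval a‖ ≤ ‖β‖ := by
  have e := (IsAlgClosed.splits B.u₀).eq_prod_roots_of_monic B.monic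
  obtain ⟨W, hW, hm, -, hp⟩ := B.exists_W ((a, b) ::ₘ B.u₀.roots.map fun x => (x, B.y₁)) (by
    intro q hq
    rcases Multiset.mem_cons.1 hq with rfl | hq
    · exact h
    · obtain ⟨x, hx, rfl⟩ := Multiset.mem_map.1 hq
      simpa using (B.cl_base le_rfl).pl one_pos ((mem_roots B.monic.ne_zero).1 hx))
  simp only [Multiset.map_cons, Multiset.prod_cons, Multiset.map_map, Function.comp_def] at hm hp
  rw [← e] at hm hp
  have e2 := mum_split (l := l) (s := s) B.u₀.roots (v := C B.y₁) (by rw [← e]; exact B.dvd)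
  simp only [eval_C] at e2
  rw [← e] at e2
  rw [← e2] at hp
  rw [mul_comm, hp, mem_mum hm.2.2] at hf
  obtain ⟨t, ht⟩ := hf
  simp only [fn] at ht
  have e3 : B.u₀ * ((X - C a) * t - p) = C β * (W - C B.y₁) := by
    rw [C_mul] at ht
    linear_combination -ht
  have h4 : Bd ‖β‖ ((X - C a) * t - p) := by
    refine Bd.of_mul B.monic B.bd_u₀ ?_
    rw [e3]
    simpa using (bd_C β).mul (hW.sub (bd_Cle B.hy.le))
  simpa using h4.eval h.2.1

theorem core {r : ℝ} (hr : r < 1) {p q u : E[X]} {β c : E} {I : Ideal (CR l s)}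
    (hI : I * I.map (starRingEnd (CR l s)) = Ideal.span {⟨q, 0⟩}) (hq : q ≠ 0)
    (hf : fn B p β ∈ mum l s B.u₀ (C B.y₁) * I) (hc : c ≠ 0)
    (hN : QuadraticAlgebra.norm (fn B p β) = B.u₀ * (C c * (q * u))) (hu : u.Monic)
    (hd : u.natDegree = l / 2) (h : Bd r (u - B.u₀))
    (hno : ∀ a, ‖a‖ ≤ 1 → u.IsRoot a → ‖β‖ < ‖p.eval a‖) : B.Nb r (cl l I) := by
  obtain ⟨J, hJ⟩ := Ideal.dvd_iff_le.2 ((Ideal.span_singleton_le_iff_mem _).2 hf)
  have h0 := nrm_mul (nrm_mum B.dvd) hI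
  have h1 := nrm_span (fn B p β)
  have hne : Ideal.span {(⟨B.u₀ * q, 0⟩ : CR l s)} ≠ ⊥ := span_ne (mul_ne_zero B.monic.ne_zero hq)
  rw [hJ, Ideal.map_mul, mul_mul_mul_comm, h0, hN, show B.u₀ * (C c * (q * u)) =
    C c * (B.u₀ * q * u) by ring, span_C hc, ← span_mul (B.u₀ * q) u] at h1
  have h2 := mul_left_cancel₀ hne h1
  have hJ0 : J ≠ ⊥ := by
    rintro rfl
    exact span_ne hu.ne_zero (by rw [← h2, Ideal.bot_mul])
  have hI0 : I ≠ ⊥ := by
    rintro rfl
    exact span_ne hq (by rw [← hI, Ideal.bot_mul])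
  obtain ⟨v, hv, e⟩ := B.resid hr hu hd h h2 (by
    intro a b hab hle
    have h3 : (⟨u, 0⟩ : CR l s) ∈ pt l s a b := by
      have h6 : J * J.map (starRingEnd (CR l s)) ≤ J := Ideal.mul_le_inf.trans inf_le_left
      rw [h2] at h6
      exact hle (h6 (Ideal.mem_span_singleton_self _))
    rw [mem_pt hab.1] at h3
    refine (hno a hab.2.1 (by simpa [evp] using h3)).not_ge (fn_bound B hab ?_)
    have h4 : fn B p β ∈ mum l s B.u₀ (C B.y₁) * I * J := by
      rw [← hJ]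
      exact Ideal.mem_span_singleton_self _
    have h7 : mum l s B.u₀ (C B.y₁) * I ≤ mum l s B.u₀ (C B.y₁) :=
      Ideal.mul_le_inf.trans inf_le_left
    exact Ideal.mul_mono h7 hle h4)
  refine ⟨u, v, hv, ?_⟩
  have h5 := cl_span (l := l) (fn B p β)
  rw [hJ, cl_mul (mul_ne_zero (mum_ne_bot _ _) hI0) hJ0, cl_mul (mum_ne_bot _ _) hI0] at h5
  rw [eq_inv_of_mul_eq_one_left e, ← eq_inv_of_mul_eq_one_left h5, mul_comm]

end Pool.Agent.MP_14ad9d_nt.Full.PCAux
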