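import Pool.Agent.MP_14ad9d_nt.Full.PB
import Pool.Agent.MP_14ad9d_nt.Full.PC

set_option autoImplicit false

open Polynomial Filter Topology

namespace Pool.Agent.MP_14ad9d_nt.Full

namespace PDAux

/-- a monic polynomial over an algebraically closed field as a product indexed by `Fin` -/
theorem exists_prod {E : Type} [Field E] [IsAlgClosed E] {p : E[X]} (hp : p.Monic) :
    ∃ c : Fin p.natDegree → E, p = ∏ i, (X - C (c i)) := by
  suffices ∀ (n : ℕ) (p : E[X]), p.Monic → p.natDegree = n →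
      ∃ c : Fin n → E, p = ∏ i, (X - C (c i)) from this _ p hp rfl
  intro n
  induction n with
  | zero => exact fun p hp h => ⟨Fin.elim0, by simpa using hp.natDegree_eq_zero.1 h⟩
  | succ n ih =>
    intro p hp h
    obtain ⟨b, hb⟩ := IsAlgClosed.exists_root p (degree_ne_of_natDegree_ne (n := 0) (by omega))
    obtain ⟨q, rfl⟩ := dvd_iff_isRoot.2 hb
    have hq := (monic_X_sub_C b).of_mul_monic_left hp
    rw [(monic_X_sub_C b).natDegree_mul hq, natDegree_X_sub_C] at h
    obtain ⟨c, hc⟩ := ih q hq (by omega)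
    exact ⟨Fin.cons b c, by simp [Fin.prod_univ_succ, ← hc]⟩

theorem exists_pos_le {ι : Type} [Finite ι] {δ : ι → ℝ} (h : ∀ i, 0 < δ i) :
    ∃ η : ℝ, 0 < η ∧ ∀ i, η ≤ δ i := by
  have : Nonempty {x : ℝ // 0 < x} := ⟨⟨1, one_pos⟩⟩
  obtain ⟨η, hη⟩ := Finite.exists_ge fun i => (⟨δ i, h i⟩ : {x : ℝ // 0 < x})
  exact ⟨η.1, η.2, hη⟩

variable {E : Type} [NormedField E]

theorem exists_bd (p : E[X]) : ∃ M : ℝ, 1 ≤ M ∧ Bd M p := by
  refine ⟨1 + ∑ i ∈ p.support, ‖p.coeff i‖, le_add_of_nonneg_right (by positivity), fun i => ?_⟩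
  by_cases hi : i ∈ p.support
  · linarith [Finset.single_le_sum (f := fun i => ‖p.coeff i‖) (fun _ _ => norm_nonneg _) hi]
  · rw [notMem_support_iff.1 hi, norm_zero]
    positivity

theorem root_near [IsAlgClosed E] {f : E[X]} (hf : f.Monic) {a : E} (ha : f.eval a = 0) {η : ℝ}
    (hη : 0 < η) : ∃ δ : ℝ, 0 < δ ∧ ∀ p : E[X], p.Monic → p.natDegree = f.natDegree →
      Bd δ (p - f) → ∃ b, p.IsRoot b ∧ ‖b - a‖ < η := by
  have hn : f.natDegree ≠ 0 := fun h => by simp [hf.natDegree_eq_zero.1 h] at ha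
  have hM : 0 < max ‖a‖ 1 := lt_max_of_lt_right one_pos
  have hε : 0 < (η / max ‖a‖ 1) ^ f.natDegree / (f.natDegree + 1) := by positivity
  refine ⟨_, half_pos hε, fun p hp hd hb => ?_⟩
  obtain ⟨b, h₁, h₂⟩ := exists_roots_norm_sub_lt_of_norm_coeff_sub_lt hε ha hf hp hd
    (fun i => by simpa using (hb i).trans_lt (half_lt_self hε)) (IsAlgClosed.splits p)
  rw [mul_div_cancel₀ _ (by positivity), Real.pow_rpow_inv_natCast (by positivity) hn,
    div_mul_cancel₀ _ hM.ne', norm_sub_rev] at h₂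
  exact ⟨b, isRoot_of_mem_roots h₁, h₂⟩

variable [IsUltrametricDist E]

theorem bd_of_mul {r : ℝ} {b : E} {q : E[X]} (h : Bd r ((X - C b) * q)) : Bd r q := by
  rcases le_total ‖b‖ 1 with hb | hb
  · exact Bd.of_mul (monic_X_sub_C b) (bd_X.sub ((bd_C b).mono hb)) h
  · have key : ∀ x : E, ‖b * x‖ ≤ r → ‖x‖ ≤ r := fun x hx =>
      (le_mul_of_one_le_left (norm_nonneg x) hb).trans (norm_mul b x ▸ hx)
    intro i
    induction i with
    | zero => exact key _ (by simpa using h 0)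
    | succ i ih =>
      refine key _ ?_
      have h₁ := h (i + 1)
      rw [coeff_X_sub_C_mul] at h₁
      have := IsUltrametricDist.norm_add_le_max (q.coeff i)
        (-(q.coeff i - b * q.coeff (i + 1)))
      rw [norm_neg, show q.coeff i + -(q.coeff i - b * q.coeff (i + 1)) = b * q.coeff (i + 1) by
        ring] at this
      exact this.trans (max_le ih h₁)

theorem div_close (a : E) (f : E[X]) {η : ℝ} (hη : 0 < η) : ∃ δ : ℝ, 0 < δ ∧ ∀ (b : E) (p : E[X]),
    ‖b - a‖ ≤ δ → Bd δ ((X - C b) * p - (X - C a) * f) → Bd η (p - f) := by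
  obtain ⟨M, hM, hf⟩ := exists_bd f
  refine ⟨η / M, by positivity, fun b p hb h => bd_of_mul (b := b) ?_⟩
  have h₁ := (h.mono (div_le_self hη.le hM)).add (((bd_C (b - a)).mul hf).mono
    ((le_div_iff₀ (by positivity)).1 hb))
  convert h₁ using 1
  rw [C_sub]
  ring

variable {l : ℕ} [Fact l.Prime] [Fact (2 < l)] {k : Type} [Field k] [CharZero k] {s : kˣ}

theorem cl_mum_prod {n : ℕ} (c : Fin n → k) {v : k[X]} (h : ∏ i, (X - C (c i)) ∣ v ^ 2 - FF l s) :
    cl l (mum l s (∏ i, (X - C (c i))) v) = ∏ i, cl l (pt l s (c i) (v.eval (c i))) := by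
  have := mum_split (l := l) (s := s) (Finset.univ.val.map c) (v := v)
    (by simpa only [Multiset.map_map, Function.comp_def, Finset.prod_map_val] using h)
  simp only [Multiset.map_map, Function.comp_def, Finset.prod_map_val] at this
  rw [this]
  exact cl_prod _ _ fun i _ => mum_ne_bot _ _

theorem line_rel {n : ℕ} {a : k} {c : Fin n → k} {v : k[X]}
    (h : FF l s - v ^ 2 = (X - C a) * ∏ i, (X - C (c i))) :
    cl l (pt l s a (v.eval a)) = (∏ i, cl l (pt l s (c i) (v.eval (c i))))⁻¹ := by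
  have e : ∏ i, (X - C (Fin.cons (α := fun _ => k) a c i)) = -(v ^ 2 - FF l s) := by
    simp [Fin.prod_univ_succ, h]
  have := cl_mum_prod (l := l) (s := s) (Fin.cons a c) (v := v) (by rw [e, neg_dvd])
  rw [e, mum_assoc (Associated.refl _).neg_left, mum_full, cl_span, Fin.prod_univ_succ] at this
  exact eq_inv_of_mul_eq_one_left (by simpa using this.symm)

omit [CharZero k] in
theorem line_monic {v : k[X]} (hv : v.natDegree ≤ 1) :
    (FF l s - v ^ 2).Monic ∧ (FF l s - v ^ 2).natDegree = l := by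
  have h : (v ^ 2).natDegree < (FF l s).natDegree := by
    have : 2 < l := Fact.out
    rw [FF_natDegree, natDegree_pow]
    omega
  exact ⟨(FF_monic l s).sub_of_left (degree_lt_degree h),
    (natDegree_sub_eq_left_of_natDegree_lt h).trans (FF_natDegree l s)⟩

omit [Fact l.Prime] [Fact (2 < l)] [CharZero k] in
theorem eval_FF (a : k) : (FF l s).eval a = a ^ l + (s : k) ^ 2 := by simp [FF]

omit [Fact (2 < l)] in
/-- a line through a point whose other intersection points avoid the roots of `u` -/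
theorem exists_slope {a b : k} (h : b ^ 2 = a ^ l + (s : k) ^ 2) {u : k[X]} (hu : u ≠ 0) :
    ∃ m : k, l * a ^ (l - 1) - 2 * b * m ≠ 0 ∧
      ∀ c, c ≠ a → u.IsRoot c → (b + m * (c - a)) ^ 2 ≠ c ^ l + (s : k) ^ 2 := by
  have hl : l ≠ 0 := (Fact.out : l.Prime).ne_zero
  have f₁ : {m : k | ∃ c ∈ {c | u.IsRoot c} \ {a},
      (b + m * (c - a)) ^ 2 = c ^ l + (s : k) ^ 2}.Finite := by
    refine (((finite_setOfPred_isRoot hu).subset Set.sdiff_subset).biUnion
      (t := fun c => {m : k | (b + m * (c - a)) ^ 2 = c ^ l + (s : k) ^ 2}) fun c hc => ?_).subset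
      fun m ⟨c, hc, hm⟩ => Set.mem_biUnion hc hm
    refine ((finite_setOfPred_isRoot (monic_X_pow_sub_C (c ^ l + (s : k) ^ 2)
      two_ne_zero).ne_zero).preimage (f := fun m => b + m * (c - a)) fun x _ y _ e => ?_).subset
      fun m hm => by simpa [sub_eq_zero] using hm
    exact mul_right_cancel₀ (sub_ne_zero.2 hc.2) (add_left_cancel e)
  obtain ⟨m, hm⟩ := (f₁.insert (l * a ^ (l - 1) / (2 * b))).exists_notMem
  simp only [Set.mem_insert_iff, not_or] at hm
  refine ⟨m, fun e => ?_, fun c h₁ h₂ e => hm.2 ⟨c, ⟨h₂, h₁⟩, e⟩⟩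
  by_cases hb : b = 0
  · have ha : a = 0 := by
      rw [hb, mul_zero, zero_mul, sub_zero, mul_eq_zero] at e
      exact pow_eq_zero_iff'.1 (e.resolve_left (Nat.cast_ne_zero.2 hl)) |>.1
    rw [ha, hb, zero_pow hl, zero_add, zero_pow two_ne_zero] at h
    exact pow_ne_zero 2 s.ne_zero h.symm
  · exact hm.1 (by field_simp; linear_combination -e)

end PDAux

open PDAux

/-- continuity of roots with multiplicities -/
theorem roots_match {E : Type} [NormedField E] [IsUltrametricDist E] [IsAlgClosed E] (n : ℕ)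
    (a : Fin n → E) {ε : ℝ} (hε : 0 < ε) : ∃ δ : ℝ, 0 < δ ∧ ∀ p : E[X], p.Monic → p.natDegree = n →
      Bd δ (p - ∏ i, (X - C (a i))) →
        ∃ a' : Fin n → E, p = ∏ i, (X - C (a' i)) ∧ ∀ i, ‖a' i - a i‖ < ε := by
  induction n with
  | zero =>
    exact ⟨1, one_pos, fun p hp h _ => ⟨a, by simpa using hp.natDegree_eq_zero.1 h,
      fun i => i.elim0⟩⟩
  | succ n ih =>
    obtain ⟨δ₁, h₁, ih⟩ := ih fun i => a i.succ
    obtain ⟨δ₂, h₂, hd⟩ := div_close (a 0) (∏ i : Fin n, (X - C (a i.succ))) h₁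
    obtain ⟨δ₃, h₃, hr⟩ := root_near (monic_prod_X_sub_C a Finset.univ) (a := a 0)
      (by simp [Fin.prod_univ_succ]) (lt_min h₂ hε)
    refine ⟨_, lt_min h₂ h₃, fun p hp hn hb => ?_⟩
    obtain ⟨b, hb₁, hb₂⟩ := hr p hp (by simp [hn]) (hb.mono (min_le_right _ _))
    obtain ⟨q, rfl⟩ := dvd_iff_isRoot.2 hb₁
    have hq := (monic_X_sub_C b).of_mul_monic_left hp
    rw [(monic_X_sub_C b).natDegree_mul hq, natDegree_X_sub_C] at hn
    rw [Fin.prod_univ_succ] at hb
    obtain ⟨c, hc, hc'⟩ := ih q hq (by omega)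
      (hd b q (hb₂.le.trans (min_le_left _ _)) (hb.mono (min_le_left _ _)))
    refine ⟨Fin.cons b c, by simp [Fin.prod_univ_succ, ← hc], Fin.cases ?_ hc'⟩
    exact hb₂.trans_le (min_le_right _ _)

/-- continuity at every point -/
theorem Base.loc_const {l : ℕ} [Fact l.Prime] [Fact (2 < l)] {E : Type} [NormedField E]
    [IsUltrametricDist E] [IsAlgClosed E] [CharZero E] {s : Eˣ} (B : Base l s) {r : ℝ}
    (h0 : 0 < r) (hr : r < 1) {a b : E} (h : b ^ 2 = a ^ l + (s : E) ^ 2) :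
    ∃ δ : ℝ, 0 < δ ∧ ∀ a' b' : E, b' ^ 2 = a' ^ l + (s : E) ^ 2 → ‖a' - a‖ < δ → ‖b' - b‖ < δ →
      B.Nb r (cl l (pt l s a' b') / cl l (pt l s a b)) := by
  obtain ⟨H, hH⟩ := B.exists_sub h0.le hr
  obtain ⟨m, hm₁, hm₂⟩ := exists_slope h (mul_ne_zero (FF_monic l s).ne_zero B.monic.ne_zero)
  have fac : ∀ a b : E, b ^ 2 = a ^ l + (s : E) ^ 2 → ∃ q : E[X], q.Monic ∧ q.natDegree = l - 1 ∧
      FF l s - (C b + C m * (X - C a)) ^ 2 = (X - C a) * q := fun a b h => by
    obtain ⟨h₁, h₂⟩ := line_monic (l := l) (s := s) (v := C b + C m * (X - C a))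
      (by compute_degree)
    obtain ⟨q, hq⟩ := dvd_iff_isRoot.2
      (show (FF l s - (C b + C m * (X - C a)) ^ 2).IsRoot a by simp [eval_FF, h])
    rw [hq] at h₁ h₂
    have h₃ := (monic_X_sub_C a).of_mul_monic_left h₁
    rw [(monic_X_sub_C a).natDegree_mul h₃, natDegree_X_sub_C] at h₂
    exact ⟨q, h₃, by omega, hq⟩
  have cur : ∀ {n : ℕ} {a : E} {c : Fin n → E} {v : E[X]},
      FF l s - v ^ 2 = (X - C a) * ∏ i, (X - C (c i)) →
      ∀ i, v.eval (c i) ^ 2 = c i ^ l + (s : E) ^ 2 := fun {n a c v} e i => by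
    have := congrArg (eval (c i)) e
    rw [eval_mul, eval_prod, Finset.prod_eq_zero (Finset.mem_univ i) (by simp), mul_zero, eval_sub,
      eval_FF, eval_pow, sub_eq_zero] at this
    exact this.symm
  obtain ⟨q, hq₁, hq₂, hq₃⟩ := fac a b h
  obtain ⟨c, hc⟩ := exists_prod hq₁
  set p : E[X] := C b + C m * (X - C a) with hp
  have hq₄ := hq₃
  rw [hc] at hq₄
  have hne : ∀ i, c i ≠ a := fun i e => by
    have h₁ := congrArg (fun f => (derivative f).eval a) hq₃
    have h₂ : q.eval a = 0 := by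
      rw [hc, eval_prod, Finset.prod_eq_zero (Finset.mem_univ i) (by simp [e])]
    refine hm₁ ?_
    simp only [hp, FF, derivative_sub, derivative_add, derivative_X_pow, derivative_C,
      derivative_sq, derivative_mul, derivative_X] at h₁
    simpa [h₂] using h₁
  have gen : ∀ i, ¬ (FF l s * B.u₀).IsRoot (c i) := fun i e =>
    hm₂ (c i) (hne i) e (by simpa [hp] using cur hq₄ i)
  choose δ hδ hN using fun i => B.loc_gen h0 hr (cur hq₄ i)
    (fun e => gen i (by
      have := cur hq₄ i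
      rw [e] at this
      simp [eval_FF, ← this])) fun e => gen i (by simp [e.eq_zero])
  obtain ⟨δ₁, h₁, hle⟩ := exists_pos_le hδ
  obtain ⟨δ₂, h₂, hR⟩ := roots_match _ c (show 0 < δ₁ / (‖m‖ + 1) by positivity)
  obtain ⟨δ₃, h₃, hD⟩ := div_close a q h₂
  obtain ⟨M, hM, hb⟩ := exists_bd (p + p)
  have ce : Tendsto (fun z : E × E => ‖z.2 - b - m * (z.1 - a)‖) (𝓝 (a, b)) (𝓝 0) :=
    Continuous.tendsto' (by fun_prop) _ _ (by simp)
  obtain ⟨δ₄, h₄, hE⟩ := Metric.eventually_nhds_iff.1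
    (ce.eventually_lt_const (lt_min (lt_min one_pos h₁) (show 0 < δ₃ / M by positivity)))
  refine ⟨_, lt_min h₄ h₃, fun a' b' h' ha hb' => ?_⟩
  have he := hE (y := (a', b')) (by
    rw [Prod.dist_eq, dist_eq_norm, dist_eq_norm]
    exact max_lt (ha.trans_le (min_le_left _ _)) (hb'.trans_le (min_le_left _ _)))
  simp only [lt_min_iff] at he
  set e : E := b' - b - m * (a' - a) with he'
  obtain ⟨q', hq₁', hq₂', hq₃'⟩ := fac a' b' h'
  have hp' : C b' + C m * (X - C a') = p + C e := by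
    simp only [hp, he', C_sub, C_mul]
    ring
  have hclose : Bd δ₃ ((X - C a') * q' - (X - C a) * q) := by
    have := (((bd_C e).mul (hb.add ((bd_C e).mono (he.1.1.le.trans hM)))).mono
      ((le_div_iff₀ (by positivity)).1 he.2.le)).neg
    convert this using 1
    rw [← hq₃', ← hq₃, hp']
    ring
  obtain ⟨c', hc', hcc⟩ := hR q' hq₁' (hq₂'.trans hq₂.symm)
    (hc ▸ hD a' q' (ha.le.trans (min_le_right _ _)) hclose)
  rw [hc'] at hq₃'
  have r₁ := line_rel hq₄
  have r₂ := line_rel hq₃'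
  rw [show p.eval a = b by simp [hp]] at r₁
  rw [show eval a' (C b' + C m * (X - C a')) = b' by simp] at r₂
  rw [← hH, r₁, r₂, inv_div_inv, ← inv_mem_iff, inv_div, ← Finset.prod_div_distrib]
  refine H.prod_mem fun i _ => (hH _).2 (hN i _ _ (cur hq₃' i) ?_ ?_)
  · exact ((hcc i).trans_le (div_le_self h₁.le (by simp))).trans_le (hle i)
  · have e₁ : (C b' + C m * (X - C a')).eval (c' i) - p.eval (c i) = m * (c' i - c i) + e := by
      simp only [hp', hp, eval_add, eval_mul, eval_sub, eval_C, eval_X]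
      ring
    have e₂ := (lt_div_iff₀ (by positivity)).1 (hcc i)
    rw [e₁]
    refine ((IsUltrametricDist.norm_add_le_max _ _).trans_lt (max_lt ?_ he.1.2)).trans_le (hle i)
    rw [norm_mul]
    nlinarith [norm_nonneg (c' i - c i)]

end Pool.Agent.MP_14ad9d_nt.Full
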