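import Pool.Agent.MP_14ad9d_nt.Full.JDefs

set_option autoImplicit false

open Polynomial

namespace Pool.Agent.MP_14ad9d_nt.Full

/-- all coefficients are bounded by `r` -/
def Bd {E : Type} [NormedField E] (r : ℝ) (p : E[X]) : Prop := ∀ i, ‖p.coeff i‖ ≤ r

/-- the base divisor -/
structure Base (l : ℕ) {E : Type} [NormedField E] (s : Eˣ) where
  u₀ : E[X]
  y₁ : E
  monic : u₀.Monic
  deg : u₀.natDegree = l / 2
  dvd : u₀ ∣ C y₁ ^ 2 - FF l s
  hy : ‖y₁‖ = 1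
  hs : ‖(s : E)‖ ≤ 1
  hl : ‖(l : E)‖ < 1

variable {l : ℕ} {E : Type} [NormedField E] {s : Eˣ}

/-- a point in the residue disc of the base divisor -/
def Base.Pl (B : Base l s) (a b : E) : Prop :=
  b ^ 2 = a ^ l + (s : E) ^ 2 ∧ ‖a‖ ≤ 1 ∧ ‖b - B.y₁‖ < 1

/-- Mumford coordinates close to those of the base divisor -/
def Base.Cl (B : Base l s) (r : ℝ) (u v : E[X]) : Prop :=
  IsMum l s u v ∧ u.natDegree = l / 2 ∧ Bd r (u - B.u₀) ∧ Bd r (v - C B.y₁)

/-- a neighbourhood of the origin of the Jacobian -/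
def Base.Nb [Fact l.Prime] [Fact (2 < l)] [CharZero E] (B : Base l s) (r : ℝ) (x : Jac l s) :
    Prop :=
  ∃ u v, B.Cl r u v ∧ cl l (mum l s u v) = x * cl l (mum l s B.u₀ (C B.y₁))

end Pool.Agent.MP_14ad9d_nt.Full
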