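import Pool.Agent.MP_14ad9d_nt.Full.PD

set_option autoImplicit false

open Polynomial Filter Topology

namespace Pool.Agent.MP_14ad9d_nt.Full

namespace PEAux

/-- if the values of a nonzero polynomial tend to zero, a subsequence tends to a limit -/
theorem subseq_of_eval {E : Type} [NormedField E] [IsAlgClosed E] {p : E[X]} (hp : p ≠ 0)
    {x : ℕ → E} (h : Tendsto (fun i => p.eval (x i)) atTop (𝓝 0)) :
    ∃ (a₀ : E) (φ : ℕ → ℕ), StrictMono φ ∧ Tendsto (fun i => x (φ i)) atTop (𝓝 a₀) := by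
  obtain ⟨c, hc⟩ := PDAux.exists_prod (monic_mul_leadingCoeff_inv hp)
  by_contra hn
  have h₁ : ∀ k, ∃ η : ℝ, 0 < η ∧ ∀ᶠ i in atTop, η ≤ ‖x i - c k‖ := fun k => by
    by_contra hk
    refine hn ⟨c k, MapClusterPt.tendsto_subseq
      (Metric.nhds_basis_ball.mapClusterPt_iff_frequently.2 fun η hη => ?_)⟩
    simpa [dist_eq_norm] using not_eventually.1 fun e => hk ⟨η, hη, e⟩
  choose η h₂ h₃ using h₁
  have h₄ : Tendsto (fun i => ‖p.eval (x i) * p.leadingCoeff⁻¹‖) atTop (𝓝 0) := by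
    simpa using (h.mul_const p.leadingCoeff⁻¹).norm
  obtain ⟨i, h₅, h₆⟩ := ((eventually_all.2 h₃).and
    (h₄.eventually_lt_const (Finset.prod_pos (s := Finset.univ) fun k _ => h₂ k))).exists
  have := congrArg (fun f => ‖f.eval (x i)‖) hc
  simp only [eval_mul, eval_C, eval_prod, eval_sub, eval_X, norm_prod] at this
  exact absurd (this ▸ h₆) (not_lt.2
    (Finset.prod_le_prod (fun k _ => (h₂ k).le) fun k _ => h₅ k))

open Pointwise in
theorem finite_pow {G : Type} [Monoid G] {S : Set G} (h : S.Finite) (n : ℕ) : (S ^ n).Finite := by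
  induction n with
  | zero => exact pow_zero S ▸ Set.finite_one
  | succ n ih => exact pow_succ S n ▸ ih.mul h

end PEAux

open PEAux

/-- bounded sequences of numbers of bounded degree have convergent subsequences -/
theorem seq_cpt {l : ℕ} [Fact l.Prime] {K : Type} [Field K] [NumberField K] (j : K →+* ℂ_[l])
    (n : ℕ) (R : ℝ) (a : ℕ → ℂ_[l]) (hR : ∀ i, ‖a i‖ ≤ R)
    (ha : ∀ i, ∃ p : K[X], p ≠ 0 ∧ p.natDegree ≤ n ∧ (p.map j).IsRoot (a i)) :
    ∃ (a₀ : ℂ_[l]) (φ : ℕ → ℕ), StrictMono φ ∧ Tendsto (fun i => a (φ i)) atTop (𝓝 a₀) := by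
  let β := Module.finBasis ℚ K
  let V : Submodule ℚ_[l] ℂ_[l] := Submodule.span ℚ_[l] (Set.range fun i => j (β i))
  have : FiniteDimensional ℚ_[l] V := FiniteDimensional.span_of_finite _ (Set.finite_range _)
  have : ProperSpace V := FiniteDimensional.proper ℚ_[l] V
  have hV : ∀ x : K, j x ∈ V := fun x => by
    rw [← β.sum_repr x, map_sum]
    refine V.sum_mem fun i _ => ?_
    have : j (β.repr x i • β i) = ((β.repr x i : ℚ) : ℚ_[l]) • j (β i) := by
      rw [Rat.smul_def, map_mul, map_ratCast, Algebra.smul_def, map_ratCast]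
    rw [this]
    exact V.smul_mem _ (Submodule.subset_span ⟨i, rfl⟩)
  obtain ⟨c, hc⟩ := NormedField.exists_one_lt_norm ℚ_[l]
  have h₁ : ∀ i, ∃ w : Fin (n + 1) → V, ‖w‖ < 1 ∧ 1 / ‖c‖ ≤ ‖w‖ ∧
      ∑ k : Fin (n + 1), (w k : ℂ_[l]) * a i ^ (k : ℕ) = 0 := fun i => by
    obtain ⟨p, h₁, h₂, h₃⟩ := ha i
    obtain ⟨d, -, h₄, h₅, -⟩ := rescale_to_shell hc one_pos
      (x := fun k : Fin (n + 1) => (⟨j (p.coeff k), hV _⟩ : V)) fun e => h₁ (by
        have := congrArg Subtype.val (congrFun e ⟨p.natDegree, by omega⟩)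
        simpa using this)
    refine ⟨_, h₄, h₅, ?_⟩
    rw [IsRoot, eval_eq_sum_range' (n := n + 1) (by rw [natDegree_map]; omega),
      Finset.sum_range] at h₃
    simp only [coeff_map] at h₃
    simp only [Pi.smul_apply, Submodule.coe_smul, smul_mul_assoc, ← Finset.smul_sum, h₃, smul_zero]
  choose w h₂ h₃ h₄ using h₁
  obtain ⟨w₀, -, φ, hφ, hw⟩ := (isCompact_closedBall (0 : Fin (n + 1) → V) 1).tendsto_subseq
    (x := w) fun i => by simpa using (h₂ i).le
  have h₅ : w₀ ≠ 0 := fun e => by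
    have := ge_of_tendsto' hw.norm fun i => h₃ (φ i)
    rw [e, norm_zero] at this
    exact absurd this (not_le.2 (by positivity))
  obtain ⟨a₀, ψ, hψ, h⟩ := subseq_of_eval
    (p := ∑ k : Fin (n + 1), C (w₀ k : ℂ_[l]) * X ^ (k : ℕ)) (x := fun i => a (φ i))
    (fun e => h₅ (funext fun k => Subtype.ext (by
      simpa [Fin.val_inj] using congrArg (coeff · k) e))) (by
    have e : ∀ i, (∑ k : Fin (n + 1), C (w₀ k : ℂ_[l]) * X ^ (k : ℕ)).eval (a (φ i)) =
        ∑ k : Fin (n + 1), ((w₀ k : ℂ_[l]) - w (φ i) k) * a (φ i) ^ (k : ℕ) := fun i => by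
      simp [eval_finsetSum, sub_mul, h₄]
    simp only [e]
    rw [← Finset.sum_const_zero (s := (Finset.univ : Finset (Fin (n + 1))))]
    refine tendsto_finsetSum _ fun k _ => ?_
    have t₁ : Tendsto (fun i => (w₀ k : ℂ_[l]) - w (φ i) k) atTop (𝓝 0) := by
      simpa using (tendsto_subtype_rng.1 (tendsto_pi_nhds.1 hw k)).const_sub (w₀ k : ℂ_[l])
    refine t₁.zero_mul_isBoundedUnder_le (isBoundedUnder_of ⟨R ^ (k : ℕ), fun i => ?_⟩)
    simpa using pow_le_pow_left₀ (norm_nonneg _) (hR _) _)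
  exact ⟨a₀, φ ∘ ψ, hφ.comp hψ, h⟩

open Pointwise in
/-- the points near the origin form a subgroup of finite index -/
theorem fin_index {l : ℕ} [Fact l.Prime] [Fact (2 < l)] {K : Type} [Field K] [NumberField K]
    (j : K →+* ℂ_[l]) {s : Kˣ} {s' : ℂ_[l]ˣ} (h : j s = s') (B : Base l s') {r : ℝ} (h0 : 0 < r)
    (hr : r < 1) (H : Subgroup (Jac l s')) (hH : ∀ x, x ∈ H ↔ B.Nb r x) :
    (H.comap (jcf l j h)).FiniteIndex := by
  let T : Set (Jac l s' ⧸ H) := {t | ∃ a b : ℂ_[l], b ^ 2 = a ^ l + (s' : ℂ_[l]) ^ 2 ∧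
    (∃ p : K[X], p ≠ 0 ∧ p.natDegree ≤ l / 2 ∧ (p.map j).IsRoot a) ∧
      QuotientGroup.mk' H (cl l (pt l s' a b)) = t}
  have hT : T.Finite := by
    by_contra hT
    have hT' : (T \ {1}).Infinite := Set.Infinite.sdiff hT (Set.finite_singleton 1)
    choose a b h₁ h₂ h₃ using fun i => (hT'.natEmbedding _ i).2.1
    obtain ⟨R, hR⟩ := B.loc_inf h0 hr
    obtain ⟨a₀, φ, hφ, ha⟩ := seq_cpt j (l / 2) R a (fun i => not_lt.1 fun e =>
      (hT'.natEmbedding _ i).2.2 ((h₃ i).symm.trans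
        ((QuotientGroup.eq_one_iff _).2 ((hH _).2 (hR _ _ (h₁ i) e))))) h₂
    have t₁ : Tendsto (fun i => b (φ i) ^ 2) atTop (𝓝 (a₀ ^ l + (s' : ℂ_[l]) ^ 2)) := by
      simpa only [h₁] using (ha.pow l).add_const ((s' : ℂ_[l]) ^ 2)
    obtain ⟨b₀, ψ, hψ, hb⟩ := subseq_of_eval
      (monic_X_pow_sub_C (a₀ ^ l + (s' : ℂ_[l]) ^ 2) two_ne_zero).ne_zero
      (x := fun i => b (φ i)) (by simpa using tendsto_sub_nhds_zero_iff.2 t₁)
    obtain ⟨δ, hδ, hN⟩ := B.loc_const h0 hr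
      (tendsto_nhds_unique (hb.pow 2) (t₁.comp hψ.tendsto_atTop))
    obtain ⟨N, hN'⟩ := eventually_atTop.1
      (((tendsto_iff_norm_sub_tendsto_zero.1 (ha.comp hψ.tendsto_atTop)).eventually_lt_const
        hδ).and ((tendsto_iff_norm_sub_tendsto_zero.1 hb).eventually_lt_const hδ))
    have key : ∀ i, N ≤ i → (hT'.natEmbedding _ (φ (ψ i))).1 =
        QuotientGroup.mk' H (cl l (pt l s' a₀ b₀)) := fun i hi =>
      (h₃ _).symm.trans (QuotientGroup.eq_iff_div_mem.2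
        ((hH _).2 (hN _ _ (h₁ _) (hN' i hi).1 (hN' i hi).2)))
    have := (hT'.natEmbedding _).injective
      (Subtype.ext ((key N le_rfl).trans (key (N + 1) (Nat.le_succ N)).symm))
    exact absurd this (hφ (hψ (Nat.lt_succ_self N))).ne
  have : Finite ((QuotientGroup.mk' H).comp (jcf l j h)).range := by
    refine (finite_pow (hT.insert 1) (l / 2)).subset ?_
    rintro _ ⟨x, rfl⟩
    obtain ⟨u, v, hm, hd, rfl⟩ := exists_red x
    obtain ⟨hm₁, -, hm₂⟩ := hm.map j h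
    obtain ⟨c, hc⟩ := PDAux.exists_prod hm₁
    refine Set.pow_subset_pow_right (Set.mem_insert _ _)
      ((natDegree_map j).le.trans hd) (Set.mem_pow.2 ⟨fun i => ⟨QuotientGroup.mk' H
        (cl l (pt l s' (c i) ((v.map j).eval (c i)))), Set.mem_insert_of_mem _ ?_⟩, ?_⟩)
    · have hu : (u.map j).IsRoot (c i) := by
        rw [hc, IsRoot, eval_prod]
        exact Finset.prod_eq_zero (Finset.mem_univ i) (by simp)
      refine ⟨_, _, ?_, ⟨u, hm.1.ne_zero, hd, hu⟩, rfl⟩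
      simpa [PDAux.eval_FF, sub_eq_zero] using (hu.dvd hm₂).eq_zero
    · rw [List.prod_ofFn, MonoidHom.comp_apply, jcf_mum, ← map_prod,
        ← PDAux.cl_mum_prod c (hc ▸ hm₂), ← hc]
  have := Subgroup.finiteIndex_ker ((QuotientGroup.mk' H).comp (jcf l j h))
  rwa [← MonoidHom.comap_ker, QuotientGroup.ker_mk'] at this

end Pool.Agent.MP_14ad9d_nt.Full
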