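import Pool.Agent.MP_14ad9d_nt.Full.Piece2
import Pool.Agent.MP_14ad9d_nt.Full.Lat

set_option autoImplicit false

open NumberField Metric
open scoped NNReal nonZeroDivisors

namespace Pool.Agent.MP_14ad9d_nt.Full.PieceAux

variable {E : Type} [Field E] [NumberField E]

theorem c_out (h : Hecke E) (a : 𝓞 E) :
    h.c (Quotient.out (Ideal.Quotient.mk (Ideal.span {(h.m : 𝓞 E)}) a)) = h.c a := by
  refine h.c_congr _ _ ?_
  rw [← Ideal.mem_span_singleton, ← Ideal.Quotient.eq]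
  exact Ideal.Quotient.mk_out _

theorem sum_perm (h : Hecke E) [Fintype (𝓞 E ⧸ Ideal.span {(h.m : 𝓞 E)})] {η : 𝓞 E} {κ : ℂ}
    (hη : IsCoprime η (h.m : 𝓞 E)) (hκ : ∀ a, a ≠ 0 → h.c (η * a) = κ * h.c a) :
    ∑ r : 𝓞 E ⧸ Ideal.span {(h.m : 𝓞 E)}, h.c (Quotient.out r) =
      κ * ∑ r : 𝓞 E ⧸ Ideal.span {(h.m : 𝓞 E)}, h.c (Quotient.out r) := by
  have hu : IsUnit (Ideal.Quotient.mk (Ideal.span {(h.m : 𝓞 E)}) η) := by
    obtain ⟨a, b, hab⟩ := hη
    refine IsUnit.of_mul_eq_one (Ideal.Quotient.mk _ a) ?_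
    rw [← map_mul, ← (Ideal.Quotient.mk (Ideal.span {(h.m : 𝓞 E)})).map_one, Ideal.Quotient.eq,
      Ideal.mem_span_singleton]
    exact ⟨-b, by linear_combination hab⟩
  obtain ⟨u, hu⟩ := hu
  rw [Finset.mul_sum]
  refine (Fintype.sum_equiv (Units.mulLeft u) _ _ fun r => ?_).symm
  obtain ⟨a, ha, rfl⟩ : ∃ a : 𝓞 E, a ≠ 0 ∧ Ideal.Quotient.mk _ a = r := by
    obtain ⟨a, rfl⟩ := Ideal.Quotient.mk_surjective r
    by_cases ha : a = 0
    · refine ⟨h.m, by exact_mod_cast h.hm, ?_⟩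
      rw [ha, map_zero, Ideal.Quotient.eq_zero_iff_mem]
      exact Ideal.mem_span_singleton_self _
    · exact ⟨a, ha, rfl⟩
  simp only [Units.mulLeft_apply]
  rw [hu, ← map_mul, c_out, c_out, hκ a ha]

/-- the coefficient of the main term vanishes -/
theorem main_vanish (h : Hecke E) (hn : h.Nontriv) [Fintype (𝓞 E ⧸ Ideal.span {(h.m : 𝓞 E)})]
    {c : ClassGroup (𝓞 E) → (Ideal (𝓞 E))⁰} (hc : ∀ C, ClassGroup.mk0 (c C) = C)
    (hcm : ∀ C, IsCoprime (c C : Ideal (𝓞 E)) (Ideal.span {(h.m : 𝓞 E)})) :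
    (∑ C : ClassGroup (𝓞 E), (h.X (c C))⁻¹) *
      ∑ r : 𝓞 E ⧸ Ideal.span {(h.m : 𝓞 E)}, h.c (Quotient.out r) = 0 := by
  rw [mul_eq_zero, or_iff_not_imp_right]
  intro hS
  rcases hn with ⟨η, κ, hη, hκ1, hκ⟩ | ⟨hΨ, I, hI0, hIm, hI1⟩
  · have := sum_perm h hη fun a _ => hκ a
    exact absurd (mul_right_cancel₀ hS ((one_mul _).trans this)).symm hκ1
  have hX : ∀ a : 𝓞 E, a ≠ 0 → h.X (Ideal.span {a}) = h.c a := fun a ha => by
    rw [h.eq a ha, hΨ _ (emb_mem_RZ (RingOfIntegers.coe_ne_zero_iff.2 ha)).1, mul_one]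
  have h1 : ∀ J : (Ideal (𝓞 E))⁰, IsCoprime (J : Ideal (𝓞 E)) (Ideal.span {(h.m : 𝓞 E)}) →
      ClassGroup.mk0 J = 1 → h.X J = 1 := by
    intro J hJm hJ
    obtain ⟨η, hη⟩ := (ClassGroup.mk0_eq_one_iff J.2).1 hJ
    change (J : Ideal (𝓞 E)) = Ideal.span {η} at hη
    have hη0 : η ≠ 0 := by
      rintro rfl
      exact mem_nonZeroDivisors_iff_ne_zero.1 J.2 (by simpa using hη)
    rw [hη] at hJm ⊢
    have := sum_perm h (κ := h.X (Ideal.span {η}))
      ((Ideal.isCoprime_span_singleton_iff _ _).1 hJm) fun a ha => by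
        rw [← hX _ (mul_ne_zero hη0 ha), ← hX a ha, ← map_mul,
          Ideal.span_singleton_mul_span_singleton]
    exact (mul_right_cancel₀ hS ((one_mul _).trans this)).symm
  set I' : (Ideal (𝓞 E))⁰ := ⟨I, mem_nonZeroDivisors_iff_ne_zero.2 hI0⟩ with hI'
  have h2 : ∀ C, h.X (c (C * ClassGroup.mk0 I')) = h.X (c C) * h.X I := by
    intro C
    set C' := (C * ClassGroup.mk0 I')⁻¹ with hC'
    have e1 := h1 (c (C * ClassGroup.mk0 I') * c C') ((hcm _).mul_left (hcm _))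
      (by rw [map_mul, hc, hc, hC', mul_inv_cancel])
    have e2 := h1 (c C * I' * c C') (((hcm _).mul_left hIm).mul_left (hcm _))
      (by rw [map_mul, map_mul, hc, hc, hC', mul_inv_cancel])
    simp only [Submonoid.coe_mul, map_mul] at e1 e2
    exact mul_right_cancel₀ (right_ne_zero_of_mul_eq_one e1) (e1.trans e2.symm)
  have h3 : ∑ C : ClassGroup (𝓞 E), (h.X (c C))⁻¹ =
      (∑ C : ClassGroup (𝓞 E), (h.X (c C))⁻¹) * (h.X I)⁻¹ := by
    rw [Finset.sum_mul]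
    refine (Fintype.sum_equiv (Equiv.mulRight (ClassGroup.mk0 I')) _ _ fun C => ?_).symm
    rw [Equiv.coe_mulRight, h2, mul_inv]
  by_contra hne
  have := mul_left_cancel₀ hne ((mul_one _).trans h3)
  exact hI1 (inv_eq_one.1 this.symm)

/-- integral coordinates -/
theorem exists_coords : ∃ (e : (Fin (Module.finrank ℚ E) → ℤ) ≃+ 𝓞 E)
    (Z : (Fin (Module.finrank ℚ E) → ℝ) →ₗ[ℝ] ((E →+* ℂ) → ℂ)), Function.Injective Z ∧
      ∀ (z : Fin (Module.finrank ℚ E) → ℤ) (T : ℝ),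
        Z (fun i => (z i : ℝ) / T) = T⁻¹ • emb ((e z : 𝓞 E) : E) := by
  classical
  let e0 : Module.Free.ChooseBasisIndex ℤ (𝓞 E) ≃ Fin (Module.finrank ℚ E) :=
    Fintype.equivFinOfCardEq (Module.finrank_eq_card_basis (integralBasis E)).symm
  let b := (RingOfIntegers.basis E).reindex e0
  have hli : LinearIndependent ℝ fun i => emb ((b i : 𝓞 E) : E) := by
    have h1 := (canonicalEmbedding.latticeBasis E).linearIndependent.comp e0.symm
      e0.symm.injective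
    have h2 := h1.restrict_scalars' ℝ
    convert h2 using 1
    funext i φ
    simp [b, emb, integralBasis_apply]
  refine ⟨b.equivFun.symm.toAddEquiv, Fintype.linearCombination ℝ fun i => emb ((b i : 𝓞 E) : E),
    hli.fintypeLinearCombination_injective, fun z T => ?_⟩
  funext φ
  simp only [Fintype.linearCombination_apply, Finset.sum_apply, Pi.smul_apply, emb,
    LinearEquiv.coe_toAddEquiv, LinearEquiv.coe_addEquiv_apply, Module.Basis.equivFun_symm_apply,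
    Complex.real_smul, RingOfIntegers.coe_eq_algebraMap, map_sum, zsmul_eq_mul,
    Finset.mul_sum, map_mul, map_intCast]
  refine Finset.sum_congr rfl fun i _ => ?_
  push_cast
  ring

open Classical in
/-- sums over a coset of an ideal -/
theorem lat_ideal {K : Set ((E →+* ℂ) → ℂ)} (hK : IsCompact K) :
    ∃ μ : (((E →+* ℂ) → ℂ) → ℂ) → ℂ, ∀ J : Ideal (𝓞 E), J ≠ ⊥ → ∃ C : ℝ,
      ∀ (β : 𝓞 E) (W : ((E →+* ℂ) → ℂ) → ℂ) (L : ℝ≥0), LipschitzWith L W →
        (∀ x, x ∉ K → W x = 0) → ∀ T : ℝ, 1 ≤ T →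
        ‖(∑ᶠ a : 𝓞 E, if a - β ∈ J then W (T⁻¹ • emb (a : E)) else 0) -
          (T : ℂ) ^ Module.finrank ℚ E / (Ideal.absNorm J : ℂ) * μ W‖ ≤
            C * L * T ^ Module.finrank ℚ E / T := by
  obtain ⟨e, Z, hZ, hZe⟩ := exists_coords (E := E)
  refine ⟨fun W => ∫ x, W (Z x), fun J hJ => ?_⟩
  obtain ⟨R, hR⟩ : ∃ R : ℝ, ∀ x, Z x ∈ K → ‖x‖ ≤ R := by
    have := (LinearMap.isClosedEmbedding_of_injective
      (LinearMap.ker_eq_bot.2 hZ)).isCompact_preimage hK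
    obtain ⟨R, hR⟩ := this.isBounded.exists_norm_le
    exact ⟨R, fun x hx => hR x hx⟩
  set Λ : AddSubgroup (Fin (Module.finrank ℚ E) → ℤ) :=
    J.toAddSubgroup.comap e.toAddMonoidHom with hΛ
  have hind : Λ.index = Ideal.absNorm J :=
    AddSubgroup.index_comap_of_surjective _ e.surjective
  have : Λ.FiniteIndex := ⟨by rw [hind]; exact fun h => hJ (Ideal.absNorm_eq_zero_iff.1 h)⟩
  obtain ⟨C, hC⟩ := lat (Module.finrank ℚ E) R Λ
  have hZl := (LinearMap.toContinuousLinearMap Z).lipschitz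
  refine ⟨C * ‖LinearMap.toContinuousLinearMap Z‖₊, fun β W L hW hW0 T hT => ?_⟩
  have h1 := hC (e.symm β) (fun x => W (Z x)) _ (hW.comp hZl)
    (fun x hx => hW0 _ fun hx' => absurd (hR x hx') (not_le.2 hx)) T hT
  rw [hind] at h1
  have h2 : (∑ᶠ a : 𝓞 E, if a - β ∈ J then W (T⁻¹ • emb (a : E)) else 0) =
      ∑ᶠ z : Fin (Module.finrank ℚ E) → ℤ,
        if z - e.symm β ∈ Λ then W (Z fun i => (z i : ℝ) / T) else 0 := by
    rw [← finsum_comp_equiv e.toEquiv]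
    refine finsum_congr fun z => ?_
    rw [hZe]
    refine if_congr ?_ rfl rfl
    simp [hΛ]
  rw [h2]
  refine h1.trans (le_of_eq ?_)
  push_cast
  ring

end Pool.Agent.MP_14ad9d_nt.Full.PieceAux
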