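import Pool.Agent.MP_14ad9d_nt.Full.HDefs
import Pool.Agent.MP_14ad9d_nt.Full.Lat
import Pool.Agent.MP_14ad9d_nt.Full.Piece3

set_option autoImplicit false

open NumberField
open scoped NNReal nonZeroDivisors

namespace Pool.Agent.MP_14ad9d_nt.Full

namespace PieceAux

variable {E : Type} [Field E] [NumberField E]

open Classical in
/-- splitting a sum over an ideal prime to the modulus into residue classes -/
theorem residue_split (h : Hecke E) [Fintype (𝓞 E ⧸ Ideal.span {(h.m : 𝓞 E)})]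
    {c : Ideal (𝓞 E)} (hcm : IsCoprime c (Ideal.span {(h.m : 𝓞 E)})) :
    ∃ β : (𝓞 E ⧸ Ideal.span {(h.m : 𝓞 E)}) → 𝓞 E, ∀ f : 𝓞 E → ℂ, (Function.support f).Finite →
      (∑ᶠ a : 𝓞 E, if a ∈ c then h.c a * f a else 0) =
        ∑ r : 𝓞 E ⧸ Ideal.span {(h.m : 𝓞 E)}, h.c (Quotient.out r) *
          ∑ᶠ a : 𝓞 E, if a - β r ∈ c * Ideal.span {(h.m : 𝓞 E)} then f a else 0 := by
  have hex : ∀ r : 𝓞 E ⧸ Ideal.span {(h.m : 𝓞 E)}, ∃ β ∈ c, Ideal.Quotient.mk _ β = r := by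
    intro r
    obtain ⟨a, rfl⟩ := Ideal.Quotient.mk_surjective r
    obtain ⟨x, hx, y, hy, hxy⟩ := Ideal.isCoprime_iff_exists.1 hcm
    refine ⟨a * x, Ideal.mul_mem_left _ _ hx, Ideal.Quotient.eq.2 ?_⟩
    have : a * x - a = -a * y := by linear_combination a * hxy
    rw [this]
    exact Ideal.mul_mem_left _ _ hy
  choose β hβc hβ using hex
  refine ⟨β, fun f hf => ?_⟩
  have hiff : ∀ a r, a - β r ∈ c * Ideal.span {(h.m : 𝓞 E)} ↔
      a ∈ c ∧ Ideal.Quotient.mk _ a = r := by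
    intro a r
    rw [Ideal.mul_eq_inf_of_isCoprime hcm, Ideal.mem_inf,
      ← Ideal.Quotient.eq (I := Ideal.span {(h.m : 𝓞 E)}), hβ]
    refine and_congr_left fun _ => ⟨fun h' => ?_, fun h' => c.sub_mem h' (hβc r)⟩
    simpa using c.add_mem h' (hβc r)
  simp only [mul_finsum]
  rw [← finsum_sum_comm]
  · refine finsum_congr fun a => ?_
    simp only [hiff]
    by_cases ha : a ∈ c
    · simp only [ha, true_and, if_true, mul_ite, mul_zero, Finset.sum_ite_eq, Finset.mem_univ,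
        c_out]
    · simp [ha]
  · intro r _
    refine hf.subset fun a ha => ?_
    intro h'
    exact ha (by simp [h'])

end PieceAux

open PieceAux

/-- power saving for smoothed sums of a nontrivial Hecke character -/
theorem piece {E : Type} [Field E] [NumberField E] (h : Hecke E) (hn : h.Nontriv) :
    ∃ C : ℝ, ∀ (Φ : ℝ → ℂ) (L : ℝ≥0), LipschitzWith L Φ → (∀ u, 1 < |u| → Φ u = 0) →
      ∀ k : ℝ, 0 ≤ k →
        ‖∑ᶠ I : Ideal (𝓞 E), h.X I * Φ (Real.log (Ideal.absNorm I) - k)‖ ≤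
          C * L * Real.exp (k * (1 - 1 / (Module.finrank ℚ E : ℝ))) := by
  classical
  have hm0 : Ideal.span {(h.m : 𝓞 E)} ≠ ⊥ := by simpa using h.hm
  have := Ideal.finiteQuotientOfFreeOfNeBot _ hm0
  have := Fintype.ofFinite (𝓞 E ⧸ Ideal.span {(h.m : 𝓞 E)})
  obtain ⟨K, ρ, Cw, hK, hKN, h0, hp, hW⟩ := exists_W h
  obtain ⟨c, hc, hcm⟩ := exists_reps (E := E) h.m h.hm
  have hc0 : ∀ C, (c C : Ideal (𝓞 E)) ≠ ⊥ := fun C => mem_nonZeroDivisors_iff_ne_zero.1 (c C).2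
  obtain ⟨μ, hμ⟩ := lat_ideal hK
  choose Cl hCl using fun C => hμ (c C * Ideal.span {(h.m : 𝓞 E)}) (mul_ne_zero (hc0 C) hm0)
  choose β hβ using fun C => residue_split h (hcm C)
  have hn0 : (0 : ℝ) < Module.finrank ℚ E := by exact_mod_cast Module.finrank_pos
  refine ⟨∑ C : ClassGroup (𝓞 E), ‖(h.X (c C))⁻¹‖ *
    ∑ r : 𝓞 E ⧸ Ideal.span {(h.m : 𝓞 E)}, ‖h.c (Quotient.out r)‖ * (Cl C * Cw *
      Real.exp (Real.log (Ideal.absNorm (c C : Ideal (𝓞 E))) *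
        (1 - 1 / (Module.finrank ℚ E : ℝ)))), fun Φ L hΦ hΦ0 k hk => ?_⟩
  set W : ((E →+* ℂ) → ℂ) → ℂ := fun z => h.Ψ z * Φ (lnN z) * (ρ z : ℂ) with hWdef
  have hW0 : ∀ x, x ∉ K → W x = 0 := fun x hx => by simp [hWdef, h0 x hx]
  set T : ClassGroup (𝓞 E) → ℝ := fun C =>
    Real.exp ((k + Real.log (Ideal.absNorm (c C : Ideal (𝓞 E)))) / Module.finrank ℚ E) with hT
  have hlog : ∀ C, 0 ≤ Real.log (Ideal.absNorm (c C : Ideal (𝓞 E))) := fun C =>
    Real.log_natCast_nonneg _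
  have hT1 : ∀ C, 1 ≤ T C := fun C =>
    Real.one_le_exp (div_nonneg (add_nonneg hk (hlog C)) hn0.le)
  have hT0 : ∀ C, 0 < T C := fun C => Real.exp_pos _
  have hTn : ∀ C, Module.finrank ℚ E * Real.log (T C) =
      k + Real.log (Ideal.absNorm (c C : Ideal (𝓞 E))) := fun C => by
    simp only [hT, Real.log_exp]
    field_simp
  have hTp : ∀ C, T C ^ Module.finrank ℚ E =
      Real.exp (k + Real.log (Ideal.absNorm (c C : Ideal (𝓞 E)))) := fun C => by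
    rw [← hTn, Real.exp_nat_mul, Real.exp_log (hT0 C)]
  set M : ℂ := (Real.exp k : ℂ) / (Ideal.absNorm (Ideal.span {(h.m : 𝓞 E)}) : ℂ) * μ W with hM
  have hmain : ∀ C, (T C : ℂ) ^ Module.finrank ℚ E /
      (Ideal.absNorm ((c C : Ideal (𝓞 E)) * Ideal.span {(h.m : 𝓞 E)}) : ℂ) * μ W = M := by
    intro C
    have h1 : ((Ideal.absNorm (c C : Ideal (𝓞 E)) : ℝ) : ℂ) ≠ 0 := by
      exact_mod_cast (absNorm_pos (hc0 C)).ne'
    rw [← Complex.ofReal_pow, hTp, Real.exp_add, Real.exp_log (absNorm_pos (hc0 C)), map_mul, hM]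
    push_cast at h1 ⊢
    congr 1
    rw [mul_comm (Complex.exp k), mul_div_mul_left _ _ h1]
  set S : ClassGroup (𝓞 E) → (𝓞 E ⧸ Ideal.span {(h.m : 𝓞 E)}) → ℂ := fun C r =>
    ∑ᶠ a : 𝓞 E, if a - β C r ∈ (c C : Ideal (𝓞 E)) * Ideal.span {(h.m : 𝓞 E)} then
      W ((T C)⁻¹ • emb (a : E)) else 0 with hS
  have hsum : ∑ᶠ I : Ideal (𝓞 E), h.X I * Φ (Real.log (Ideal.absNorm I) - k) =
      ∑ C : ClassGroup (𝓞 E), (h.X (c C))⁻¹ *
        ∑ r : 𝓞 E ⧸ Ideal.span {(h.m : 𝓞 E)}, h.c (Quotient.out r) * (S C r - M) := by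
    have hv := main_vanish h hn hc hcm
    have e1 : ∑ C : ClassGroup (𝓞 E), (h.X (c C))⁻¹ *
        ∑ r : 𝓞 E ⧸ Ideal.span {(h.m : 𝓞 E)}, h.c (Quotient.out r) * (S C r - M) =
        ∑ C : ClassGroup (𝓞 E), (h.X (c C))⁻¹ *
          ∑ r : 𝓞 E ⧸ Ideal.span {(h.m : 𝓞 E)}, h.c (Quotient.out r) * S C r -
        ((∑ C : ClassGroup (𝓞 E), (h.X (c C))⁻¹) *
          ∑ r : 𝓞 E ⧸ Ideal.span {(h.m : 𝓞 E)}, h.c (Quotient.out r)) * M := by
      simp only [mul_sub, Finset.sum_sub_distrib, ← Finset.sum_mul, mul_assoc]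
    rw [e1, hv, zero_mul, sub_zero, class_split h hc hΦ0 k]
    refine Finset.sum_congr rfl fun C _ => ?_
    have h1 := per_class h hK hKN h0 hp hΦ0 (c C) (hc0 C) (hT0 C) (hTn C)
    have h2 := hβ C (fun a => W ((T C)⁻¹ • emb (a : E)))
      ((finite_scaled hK (hT0 C)).subset fun a ha => by
        by_contra hn'
        exact ha (hW0 _ hn'))
    rw [eq_inv_mul_iff_mul_eq₀ (h.unit _ (hc0 C) (hcm C)), h1, h2]
  rw [hsum, mul_assoc, Finset.sum_mul]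
  refine (norm_sum_le _ _).trans (Finset.sum_le_sum fun C _ => ?_)
  rw [norm_mul, mul_assoc]
  refine mul_le_mul_of_nonneg_left ?_ (norm_nonneg _)
  rw [Finset.sum_mul]
  refine (norm_sum_le _ _).trans (Finset.sum_le_sum fun r _ => ?_)
  rw [norm_mul, mul_assoc]
  refine mul_le_mul_of_nonneg_left ?_ (norm_nonneg _)
  have h1 := hCl C (β C r) W _ (hW Φ L hΦ hΦ0) hW0 (T C) (hT1 C)
  rw [hmain] at h1
  refine h1.trans (le_of_eq ?_)
  have h2 : T C ^ Module.finrank ℚ E / T C =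
      Real.exp (Real.log (Ideal.absNorm (c C : Ideal (𝓞 E))) *
        (1 - 1 / (Module.finrank ℚ E : ℝ))) *
        Real.exp (k * (1 - 1 / (Module.finrank ℚ E : ℝ))) := by
    rw [hTp, ← Real.exp_add]
    simp only [hT]
    rw [← Real.exp_sub]
    congr 1
    ring
  rw [mul_div_assoc, h2]
  push_cast
  ring

end Pool.Agent.MP_14ad9d_nt.Full
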