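import Pool.Agent.MP_14ad9d_nt.Full.Torus

set_option autoImplicit false

open NumberField Metric
open scoped NNReal

namespace Pool.Agent.MP_14ad9d_nt.Full.PieceAux

/-- product of a function that is Lipschitz on a set with a cutoff supported in the set -/
theorem lip_cut {V : Type} [PseudoMetricSpace V] {K : Set V} {f : V → ℂ} {ρ : V → ℝ}
    {A B D : ℝ≥0} (hf : LipschitzOnWith A f K) (hB : ∀ x ∈ K, ‖f x‖ ≤ B)
    (hρ : LipschitzWith D ρ) (h1 : ∀ x, |ρ x| ≤ 1) (h0 : ∀ x, x ∉ K → ρ x = 0) :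
    LipschitzWith (A + B * D) (fun x => f x * (ρ x : ℂ)) := by
  have key : ∀ x y, x ∈ K → y ∉ K →
      dist (f x * (ρ x : ℂ)) (f y * (ρ y : ℂ)) ≤ ((A + B * D : ℝ≥0) : ℝ) * dist x y := by
    intro x y hx hy
    have h2 := hρ.dist_le_mul x y
    rw [h0 y hy] at h2 ⊢
    simp only [Complex.ofReal_zero, mul_zero, dist_zero_right, norm_mul, Complex.norm_real,
      NNReal.coe_add, NNReal.coe_mul] at h2 ⊢
    have h3 := hB x hx
    have h4 : ‖f x‖ * ‖ρ x‖ ≤ B * (D * dist x y) :=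
      mul_le_mul h3 h2 (norm_nonneg _) B.2
    have h5 : 0 ≤ (A : ℝ) * dist x y := mul_nonneg A.2 dist_nonneg
    nlinarith
  refine LipschitzWith.of_dist_le_mul fun x y => ?_
  by_cases hx : x ∈ K
  · by_cases hy : y ∈ K
    · have h2 := hρ.dist_le_mul x y
      have h3 := hf.dist_le_mul x hx y hy
      rw [dist_eq_norm] at h2 h3 ⊢
      have e : f x * (ρ x : ℂ) - f y * (ρ y : ℂ) =
          (f x - f y) * (ρ y : ℂ) + f x * ((ρ x - ρ y : ℝ) : ℂ) := by
        push_cast; ring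
      rw [e]
      refine (norm_add_le _ _).trans ?_
      rw [norm_mul, norm_mul, Complex.norm_real, Complex.norm_real]
      have h4 : ‖f x‖ * ‖ρ x - ρ y‖ ≤ B * (D * dist x y) :=
        mul_le_mul (hB x hx) h2 (norm_nonneg _) B.2
      have h5 : ‖f x - f y‖ * ‖ρ y‖ ≤ (A * dist x y) * 1 :=
        mul_le_mul h3 (h1 y) (norm_nonneg _) (mul_nonneg A.2 dist_nonneg)
      simp only [NNReal.coe_add, NNReal.coe_mul]
      nlinarith
    · exact key x y hx hy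
  · by_cases hy : y ∈ K
    · rw [dist_comm, dist_comm x y]
      exact key y x hy hx
    · rw [h0 x hx, h0 y hy]
      simp only [Complex.ofReal_zero, mul_zero, dist_self]
      exact mul_nonneg (A + B * D).2 dist_nonneg

variable {E : Type} [Field E] [NumberField E]

theorem isOpen_NZ : IsOpen (NZ E) := by
  have : NZ E = ⋂ φ : E →+* ℂ, {z : (E →+* ℂ) → ℂ | z φ ≠ 0} := by
    ext z; simp [NZ]
  rw [this]
  exact isOpen_iInter_of_finite fun φ => isOpen_ne_fun (continuous_apply φ) continuous_const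

omit [NumberField E] in
theorem emb_mul (x y : E) : emb (x * y) = emb x * emb y := by
  funext φ; simp [emb]

/-- only finitely many units move a point of one compact set into another -/
theorem finite_units {K K2 : Set ((E →+* ℂ) → ℂ)} (hK : IsCompact K) (hK2 : IsCompact K2)
    (h2 : K2 ⊆ NZ E) :
    {u : (𝓞 E)ˣ | ∃ z ∈ K2, emb ((u : 𝓞 E) : E) * z ∈ K}.Finite := by
  have hc : ContinuousOn (fun p : ((E →+* ℂ) → ℂ) × ((E →+* ℂ) → ℂ) => fun φ => p.1 φ / p.2 φ)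
      (K ×ˢ K2) := by
    refine continuousOn_pi.2 fun φ => ?_
    refine ContinuousOn.div ?_ ?_ fun p hp => h2 hp.2 φ
    · exact ((continuous_apply φ).comp continuous_fst).continuousOn
    · exact ((continuous_apply φ).comp continuous_snd).continuousOn
  have hC := (hK.prod hK2).image_of_continuousOn hc
  have hf := finite_emb_mem hC
  refine Set.Finite.subset (hf.preimage (Units.val_injective.injOn)) ?_
  rintro u ⟨z, hz, hu⟩
  refine ⟨(emb ((u : 𝓞 E) : E) * z, z), ⟨hu, hz⟩, ?_⟩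
  funext φ
  have := h2 hz φ
  simp only [Pi.mul_apply]
  field_simp

theorem lip_sum {V ι : Type} [PseudoMetricSpace V] (s : Finset ι) (f : ι → V → ℝ)
    (hf : ∀ i, ∃ D, LipschitzWith D (f i)) : ∃ D, LipschitzWith D fun x => ∑ i ∈ s, f i x := by
  classical
  induction s using Finset.induction_on with
  | empty => exact ⟨0, by simp⟩
  | insert a s ha ih =>
    obtain ⟨D, hD⟩ := ih
    obtain ⟨D', hD'⟩ := hf a
    refine ⟨D' + D, ?_⟩
    simp only [Finset.sum_insert ha]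
    exact hD'.add hD

theorem inv_max_le (s t : ℝ) : |(max s 1)⁻¹ - (max t 1)⁻¹| ≤ |s - t| := by
  have hs : 1 ≤ max s 1 := le_max_right _ _
  have ht : 1 ≤ max t 1 := le_max_right _ _
  have h1 : |max s 1 - max t 1| ≤ |s - t| := abs_max_sub_max_le_abs s t 1
  have e : (max s 1)⁻¹ - (max t 1)⁻¹ = (max t 1 - max s 1) / (max s 1 * max t 1) := by
    field_simp
  rw [e, abs_div, abs_sub_comm, abs_of_pos (by positivity : 0 < max s 1 * max t 1),
    div_le_iff₀ (by positivity)]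
  have h2 : 1 ≤ max s 1 * max t 1 := one_le_mul_of_one_le_of_one_le hs ht
  nlinarith [abs_nonneg (s - t)]

/-- a Lipschitz partition of unity for the action of the units on a shell -/
theorem part_unity : ∃ (K : Set ((E →+* ℂ) → ℂ)) (ρ : ((E →+* ℂ) → ℂ) → ℝ) (D : ℝ≥0),
    IsCompact K ∧ K ⊆ NZ E ∧ LipschitzWith D ρ ∧ (∀ x, |ρ x| ≤ 1) ∧ (∀ x, x ∉ K → ρ x = 0) ∧
      ∀ y ∈ RZ E, |lnN y| ≤ 1 → ∑ᶠ u : (𝓞 E)ˣ, ρ (emb ((u : 𝓞 E) : E) * y) = 1 := by
  classical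
  obtain ⟨K0, hK0, hK0R, hcov⟩ := cocompact (⊤ : Subgroup (𝓞 E)ˣ) 1
  obtain ⟨δ, hδ, hδK⟩ := hK0.exists_cthickening_subset_open isOpen_NZ fun z hz => (hK0R hz).1
  set K := cthickening δ K0 with hKdef
  have hK : IsCompact K := hK0.cthickening
  set g : ((E →+* ℂ) → ℂ) → ℝ := fun z => (thickenedIndicator hδ K0 z : ℝ) with hg
  have hg0 : ∀ z, 0 ≤ g z := fun z => NNReal.coe_nonneg _
  have hg1 : ∀ z, g z ≤ 1 := fun z => by
    have := thickenedIndicator_le_one hδ K0 z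
    exact_mod_cast this
  have hgK0 : ∀ z ∈ K0, g z = 1 := fun z hz => by
    have := thickenedIndicator_one hδ K0 hz
    simp only [hg, this, NNReal.coe_one]
  have hgK : ∀ z, z ∉ K → g z = 0 := fun z hz => by
    have := thickenedIndicator_zero hδ K0 (x := z)
      fun h => hz (thickening_subset_cthickening δ K0 h)
    simp only [hg, this, NNReal.coe_zero]
  obtain ⟨Dg, hDg⟩ : ∃ D, LipschitzWith D g :=
    ⟨_, (NNReal.isometry_coe.lipschitz).comp (lipschitzWith_thickenedIndicator hδ K0)⟩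
  have hF := finite_units hK hK hδK
  set GF : ((E →+* ℂ) → ℂ) → ℝ := fun z => ∑ u ∈ hF.toFinset, g (emb ((u : 𝓞 E) : E) * z)
    with hGF
  obtain ⟨DG, hDG⟩ : ∃ D, LipschitzWith D GF := by
    refine lip_sum _ (fun (u : (𝓞 E)ˣ) z => g (emb ((u : 𝓞 E) : E) * z)) fun u => ?_
    exact ⟨_, hDg.comp
      (ContinuousLinearMap.mul ℝ ((E →+* ℂ) → ℂ) (emb ((u : 𝓞 E) : E))).lipschitz⟩
  have hGFeq : ∀ z ∈ K, GF z = ∑ᶠ u : (𝓞 E)ˣ, g (emb ((u : 𝓞 E) : E) * z) := by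
    intro z hz
    refine (finsum_eq_sum_of_support_subset _ fun u hu => ?_).symm
    simp only [Set.Finite.coe_toFinset]
    refine ⟨z, hz, ?_⟩
    by_contra hn
    exact hu (hgK _ hn)
  have hi0 : ∀ z, 0 ≤ (max (GF z) 1)⁻¹ := fun z => by positivity
  have hi1 : ∀ z, (max (GF z) 1)⁻¹ ≤ 1 := fun z => inv_le_one_of_one_le₀ (le_max_right _ _)
  refine ⟨K, fun z => g z * (max (GF z) 1)⁻¹, Dg + DG, hK, hδK, ?_, ?_, ?_, ?_⟩
  · refine LipschitzWith.of_dist_le_mul fun x y => ?_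
    have h2 := hDg.dist_le_mul x y
    have h3 := hDG.dist_le_mul x y
    rw [Real.dist_eq] at h2 h3 ⊢
    have h4 := (inv_max_le (GF x) (GF y)).trans h3
    have e : g x * (max (GF x) 1)⁻¹ - g y * (max (GF y) 1)⁻¹ =
        (g x - g y) * (max (GF y) 1)⁻¹ + g x * ((max (GF x) 1)⁻¹ - (max (GF y) 1)⁻¹) := by ring
    rw [e]
    refine (abs_add_le _ _).trans ?_
    rw [abs_mul, abs_mul, abs_of_nonneg (hi0 y), abs_of_nonneg (hg0 x)]
    have h5 : |g x - g y| * (max (GF y) 1)⁻¹ ≤ (Dg * dist x y) * 1 :=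
      mul_le_mul h2 (hi1 y) (hi0 y) (mul_nonneg Dg.2 dist_nonneg)
    have h6 : g x * |(max (GF x) 1)⁻¹ - (max (GF y) 1)⁻¹| ≤ 1 * (DG * dist x y) :=
      mul_le_mul (hg1 x) h4 (abs_nonneg _) zero_le_one
    simp only [NNReal.coe_add]
    nlinarith
  · intro x
    rw [abs_of_nonneg (mul_nonneg (hg0 x) (hi0 x))]
    exact mul_le_one₀ (hg1 x) (hi0 x) (hi1 x)
  · intro x hx
    simp [hgK x hx]
  · intro y hy hl
    have hFy := finite_units hK (isCompact_singleton (x := y))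
      (Set.singleton_subset_iff.2 hy.1)
    have hsupp : (Function.support fun u : (𝓞 E)ˣ => g (emb ((u : 𝓞 E) : E) * y)) ⊆
        hFy.toFinset := by
      intro u hu
      simp only [Set.Finite.coe_toFinset]
      refine ⟨y, rfl, ?_⟩
      by_contra hn
      exact hu (hgK _ hn)
    set G := ∑ᶠ u : (𝓞 E)ˣ, g (emb ((u : 𝓞 E) : E) * y) with hG
    have hG1 : 1 ≤ G := by
      obtain ⟨u0, -, hu0⟩ := hcov y hy hl
      rw [hG, finsum_eq_sum_of_support_subset _ hsupp, ← hgK0 _ hu0]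
      refine Finset.single_le_sum (f := fun u : (𝓞 E)ˣ => g (emb ((u : 𝓞 E) : E) * y))
        (fun u _ => hg0 _) (hsupp ?_)
      simp [hgK0 _ hu0]
    have hterm : ∀ u : (𝓞 E)ˣ, g (emb ((u : 𝓞 E) : E) * y) *
        (max (GF (emb ((u : 𝓞 E) : E) * y)) 1)⁻¹ = g (emb ((u : 𝓞 E) : E) * y) * G⁻¹ := by
      intro u
      by_cases hu : emb ((u : 𝓞 E) : E) * y ∈ K
      · rw [hGFeq _ hu]
        have : ∑ᶠ v : (𝓞 E)ˣ, g (emb ((v : 𝓞 E) : E) * (emb ((u : 𝓞 E) : E) * y)) = G := by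
          rw [hG, ← finsum_comp_equiv (Equiv.mulRight u)
            (f := fun v : (𝓞 E)ˣ => g (emb ((v : 𝓞 E) : E) * y))]
          refine finsum_congr fun v => ?_
          simp only [Equiv.coe_mulRight, Units.val_mul, ← mul_assoc, ← emb_mul]
          rfl
        rw [this, max_eq_left hG1]
      · simp [hgK _ hu]
    simp only [hterm]
    rw [← finsum_mul, ← hG]
    exact mul_inv_cancel₀ (by linarith)

theorem lnN_lip : LocallyLipschitzOn (NZ E) (lnN (E := E)) := by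
  intro z hz
  have : ContDiffAt ℝ 1 (lnN (E := E)) z := by
    unfold lnN
    refine ContDiffAt.sum fun φ _ => ?_
    have h1 : ContDiffAt ℝ 1 (fun z : (E →+* ℂ) → ℂ => z φ) z := contDiffAt_apply ℝ ℂ φ z
    exact (h1.norm ℝ (hz φ)).log (norm_ne_zero_iff.2 (hz φ))
  obtain ⟨K, t, ht, hK⟩ := this.exists_lipschitzOnWith
  exact ⟨K, t, mem_nhdsWithin_of_mem_nhds ht, hK⟩

/-- the weight function -/
theorem exists_W (h : Hecke E) :
    ∃ (K : Set ((E →+* ℂ) → ℂ)) (ρ : ((E →+* ℂ) → ℂ) → ℝ) (Cw : ℝ≥0),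
    IsCompact K ∧ K ⊆ NZ E ∧ (∀ x, x ∉ K → ρ x = 0) ∧
      (∀ y ∈ RZ E, |lnN y| ≤ 1 → ∑ᶠ u : (𝓞 E)ˣ, ρ (emb ((u : 𝓞 E) : E) * y) = 1) ∧
      ∀ (Φ : ℝ → ℂ) (L : ℝ≥0), LipschitzWith L Φ → (∀ u, 1 < |u| → Φ u = 0) →
        LipschitzWith (Cw * L) fun z => h.Ψ z * Φ (lnN z) * (ρ z : ℂ) := by
  obtain ⟨K, ρ, D, hK, hKN, hρ, h1, h0, hp⟩ := part_unity (E := E)
  obtain ⟨A1, hA1⟩ := (h.Ψ_lip.mono hKN).exists_lipschitzOnWith_of_compact hK
  obtain ⟨A2, hA2⟩ := (lnN_lip.mono hKN).exists_lipschitzOnWith_of_compact hK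
  obtain ⟨B0, hB0⟩ := hK.exists_bound_of_continuousOn hA1.continuousOn
  set B : ℝ≥0 := ⟨max B0 0, le_max_right _ _⟩ with hBdef
  have hB : ∀ x ∈ K, ‖h.Ψ x‖ ≤ B := fun x hx => (hB0 x hx).trans (le_max_left _ _)
  refine ⟨K, ρ, (3 * A1 + B * A2) + 3 * B * D, hK, hKN, h0, hp, fun Φ L hΦ hΦ0 => ?_⟩
  have hΦb : ∀ u, ‖Φ u‖ ≤ 3 * L := by
    intro u
    by_cases hu : 1 < |u|
    · rw [hΦ0 u hu, norm_zero]; positivity
    · have h2 := hΦ.dist_le_mul u 2
      rw [hΦ0 2 (by norm_num), dist_zero_right, Real.dist_eq] at h2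
      have h3 : |u - 2| ≤ 3 := by
        rw [not_lt, abs_le] at hu
        rw [abs_le]; constructor <;> linarith
      have := mul_le_mul_of_nonneg_left h3 L.2
      simp only [NNReal.val_eq_coe] at this
      linarith
  have hf : LipschitzOnWith ((3 * A1 + B * A2) * L) (fun z => h.Ψ z * Φ (lnN z)) K := by
    refine LipschitzOnWith.of_dist_le_mul fun x hx y hy => ?_
    have h2 := hA1.dist_le_mul x hx y hy
    have h3 := hA2.dist_le_mul x hx y hy
    have h4 := (hΦ.dist_le_mul (lnN x) (lnN y)).trans (mul_le_mul_of_nonneg_left h3 L.2)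
    rw [dist_eq_norm] at h2 h4 ⊢
    have e : h.Ψ x * Φ (lnN x) - h.Ψ y * Φ (lnN y) =
        (h.Ψ x - h.Ψ y) * Φ (lnN y) + h.Ψ x * (Φ (lnN x) - Φ (lnN y)) := by ring
    rw [e]
    refine (norm_add_le _ _).trans ?_
    rw [norm_mul, norm_mul]
    have h5 : ‖h.Ψ x - h.Ψ y‖ * ‖Φ (lnN y)‖ ≤ (A1 * dist x y) * (3 * L) :=
      mul_le_mul h2 (hΦb _) (norm_nonneg _) (mul_nonneg A1.2 dist_nonneg)
    have h6 : ‖h.Ψ x‖ * ‖Φ (lnN x) - Φ (lnN y)‖ ≤ B * (L * (A2 * dist x y)) :=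
      mul_le_mul (hB x hx) h4 (norm_nonneg _) B.2
    simp only [NNReal.coe_add, NNReal.coe_mul, NNReal.coe_ofNat]
    nlinarith
  have hfb : ∀ x ∈ K, ‖h.Ψ x * Φ (lnN x)‖ ≤ ((B * (3 * L) : ℝ≥0) : ℝ) := by
    intro x hx
    rw [norm_mul]
    simp only [NNReal.coe_mul, NNReal.coe_ofNat]
    exact mul_le_mul (hB x hx) (hΦb _) (norm_nonneg _) B.2
  have := lip_cut hf hfb hρ h1 h0
  have e : (3 * A1 + B * A2 + 3 * B * D) * L = (3 * A1 + B * A2) * L + B * (3 * L) * D := by ring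
  rw [e]
  exact this

end Pool.Agent.MP_14ad9d_nt.Full.PieceAux
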