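import Pool.Agent.MP_14ad9d_nt.Full.Piece1
import Pool.Agent.MP_14ad9d_nt.Full.WA

set_option autoImplicit false

open NumberField Metric
open scoped NNReal nonZeroDivisors Pointwise

namespace Pool.Agent.MP_14ad9d_nt.Full.PieceAux

variable {E : Type} [Field E] [NumberField E]

theorem lnN_smul {t : ℝ} (ht : 0 < t) {z : (E →+* ℂ) → ℂ} (hz : z ∈ NZ E) :
    lnN (t • z) = Module.finrank ℚ E * Real.log t + lnN z := by
  unfold lnN
  have : ∀ φ : E →+* ℂ, Real.log ‖(t • z) φ‖ = Real.log t + Real.log ‖z φ‖ := by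
    intro φ
    rw [Pi.smul_apply, norm_smul, Real.norm_eq_abs, abs_of_pos ht,
      Real.log_mul ht.ne' (norm_ne_zero_iff.2 (hz φ))]
  simp only [this, Finset.sum_add_distrib, Finset.sum_const, Finset.card_univ, nsmul_eq_mul,
    Embeddings.card E ℂ]

omit [NumberField E] in
theorem smul_mem_RZ {t : ℝ} (ht : 0 < t) {z : (E →+* ℂ) → ℂ} (hz : z ∈ RZ E) : t • z ∈ RZ E := by
  refine ⟨fun φ => ?_, fun φ => ?_⟩
  · exact smul_ne_zero ht.ne' (hz.1 φ)
  · simp only [Pi.smul_apply, hz.2 φ, Complex.real_smul, map_mul, Complex.conj_ofReal]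

theorem lnN_emb_int {a : 𝓞 E} (ha : a ≠ 0) :
    lnN (emb (a : E)) = Real.log (Ideal.absNorm (Ideal.span {a})) := by
  rw [lnN_emb (RingOfIntegers.coe_ne_zero_iff.2 ha), Ideal.absNorm_span_singleton,
    ← Algebra.coe_norm_int, Nat.cast_natAbs]
  simp

theorem absNorm_pos {I : Ideal (𝓞 E)} (hI : I ≠ ⊥) : (0 : ℝ) < Ideal.absNorm I := by
  have : Ideal.absNorm I ≠ 0 := fun h => hI (Ideal.absNorm_eq_zero_iff.1 h)
  positivity

theorem lnN_scale {a : 𝓞 E} (ha : a ≠ 0) {I c : Ideal (𝓞 E)} (hI : Ideal.span {a} = I * c)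
    {T k : ℝ} (hT : 0 < T)
    (hTn : Module.finrank ℚ E * Real.log T = k + Real.log (Ideal.absNorm c)) :
    lnN (T⁻¹ • emb (a : E)) = Real.log (Ideal.absNorm I) - k := by
  have h0 : I * c ≠ ⊥ := by
    rw [← hI]; simpa using ha
  have hI0 : I ≠ ⊥ := fun h => h0 (by simp [h])
  have hc0 : c ≠ ⊥ := fun h => h0 (by simp [h])
  rw [lnN_smul (inv_pos.2 hT) (emb_mem_RZ (RingOfIntegers.coe_ne_zero_iff.2 ha)).1,
    lnN_emb_int ha, hI, map_mul, Nat.cast_mul,
    Real.log_mul (absNorm_pos hI0).ne' (absNorm_pos hc0).ne', Real.log_inv]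
  linarith

theorem finite_scaled {K : Set ((E →+* ℂ) → ℂ)} (hK : IsCompact K) {T : ℝ} (hT : 0 < T) :
    {a : 𝓞 E | T⁻¹ • emb (a : E) ∈ K}.Finite := by
  refine (finite_emb_mem (hK.smul T)).subset fun a ha => ?_
  exact ⟨_, ha, by simp [smul_smul, hT.ne']⟩

theorem norm_le_of_ne {Φ : ℝ → ℂ} (hΦ0 : ∀ u, 1 < |u| → Φ u = 0) {k : ℝ} {I : Ideal (𝓞 E)}
    (h : Φ (Real.log (Ideal.absNorm I) - k) ≠ 0) :
    Ideal.absNorm I ≤ ⌈Real.exp (k + 1)⌉₊ := by
  have h1 : |Real.log (Ideal.absNorm I) - k| ≤ 1 := not_lt.1 fun h' => h (hΦ0 _ h')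
  have h2 : Real.log (Ideal.absNorm I) ≤ k + 1 := by linarith [(abs_le.1 h1).2]
  have h3 : (Ideal.absNorm I : ℝ) ≤ Real.exp (k + 1) := Real.le_exp_of_log_le h2
  exact_mod_cast h3.trans (Nat.le_ceil _)

open Classical in
/-- from ideals in one class to generators -/
theorem per_class (h : Hecke E) {K : Set ((E →+* ℂ) → ℂ)} {ρ : ((E →+* ℂ) → ℂ) → ℝ}
    (hK : IsCompact K) (hKN : K ⊆ NZ E) (h0 : ∀ x, x ∉ K → ρ x = 0)
    (hp : ∀ y ∈ RZ E, |lnN y| ≤ 1 → ∑ᶠ u : (𝓞 E)ˣ, ρ (emb ((u : 𝓞 E) : E) * y) = 1)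
    {Φ : ℝ → ℂ} (hΦ0 : ∀ u, 1 < |u| → Φ u = 0) {k : ℝ} (c : Ideal (𝓞 E)) (hc : c ≠ ⊥) {T : ℝ}
    (hT : 0 < T) (hTn : Module.finrank ℚ E * Real.log T = k + Real.log (Ideal.absNorm c)) :
    h.X c * ∑ᶠ I : Ideal (𝓞 E), (if (I * c).IsPrincipal then
        h.X I * Φ (Real.log (Ideal.absNorm I) - k) else 0) =
      ∑ᶠ a : 𝓞 E, if a ∈ c then h.c a * (h.Ψ (T⁻¹ • emb (a : E)) * Φ (lnN (T⁻¹ • emb (a : E))) *
        (ρ (T⁻¹ • emb (a : E)) : ℂ)) else 0 := by
  have hA := finite_scaled hK hT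
  have hJ := Ideal.finite_setOfPred_absNorm_le (S := 𝓞 E) ⌈Real.exp (k + 1)⌉₊
  set t : Ideal (𝓞 E) → 𝓞 E → ℂ := fun I a => if Ideal.span {a} = I * c then
    h.X c * (h.X I * Φ (Real.log (Ideal.absNorm I) - k)) * (ρ (T⁻¹ • emb (a : E)) : ℂ) else 0
    with ht
  have ha : ∀ I : Ideal (𝓞 E), ∑ a ∈ hA.toFinset, t I a = h.X c * (if (I * c).IsPrincipal then
        h.X I * Φ (Real.log (Ideal.absNorm I) - k) else 0) := by
    intro I
    by_cases hP : (I * c).IsPrincipal
    · rw [if_pos hP]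
      by_cases hz : h.X I * Φ (Real.log (Ideal.absNorm I) - k) = 0
      · simp [ht, hz]
      obtain ⟨a0, ha0⟩ := hP
      change I * c = Ideal.span {a0} at ha0
      have hI0 : I ≠ ⊥ := fun h' => hz (by rw [h', h.X_bot, zero_mul])
      have ha00 : a0 ≠ 0 := by
        rintro rfl
        simp only [Set.singleton_zero, Ideal.span_zero, Ideal.mul_eq_bot] at ha0
        tauto
      have hl : |lnN (T⁻¹ • emb (a0 : E))| ≤ 1 := by
        rw [lnN_scale ha00 ha0.symm hT hTn]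
        exact not_lt.1 fun h' => hz (by rw [hΦ0 _ h', mul_zero])
      have h1 := hp _ (smul_mem_RZ (inv_pos.2 hT)
        (emb_mem_RZ (RingOfIntegers.coe_ne_zero_iff.2 ha00))) hl
      have h2 : ∑ a ∈ hA.toFinset,
          (if Ideal.span {a} = I * c then ρ (T⁻¹ • emb (a : E)) else 0) = 1 := by
        rw [← finsum_eq_sum_of_support_subset]
        · have hinj : Function.Injective fun u : (𝓞 E)ˣ => (u : 𝓞 E) * a0 := fun u v huv =>
            Units.val_injective (mul_right_cancel₀ ha00 huv)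
          rw [← h1]
          have h3 := finsum_mem_range (f := fun a : 𝓞 E => ρ (T⁻¹ • emb (a : E))) hinj
          rw [finsum_mem_def] at h3
          have h4 : ∀ a : 𝓞 E, (if Ideal.span {a} = I * c then ρ (T⁻¹ • emb (a : E)) else 0) =
              (Set.range fun u : (𝓞 E)ˣ => (u : 𝓞 E) * a0).indicator
                (fun a : 𝓞 E => ρ (T⁻¹ • emb (a : E))) a := by
            intro a
            rw [Set.indicator_apply]
            refine if_congr ?_ rfl rfl
            rw [ha0, Ideal.span_singleton_eq_span_singleton]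
            constructor
            · intro hh
              obtain ⟨u, hu⟩ := hh.symm
              exact ⟨u, by rw [← hu, mul_comm]⟩
            · rintro ⟨u, rfl⟩
              exact (Associated.symm ⟨u, mul_comm _ _⟩)
          simp only [h4]
          rw [h3]
          refine finsum_congr fun u => ?_
          congr 1
          rw [mul_smul_comm, ← emb_mul]
          rfl
        · intro a ha
          simp only [Set.Finite.coe_toFinset]
          by_contra hn
          exact ha (by simp [h0 _ hn])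
      have h5 : ∀ a : 𝓞 E, t I a = h.X c * (h.X I * Φ (Real.log (Ideal.absNorm I) - k)) *
          ((if Ideal.span {a} = I * c then ρ (T⁻¹ • emb (a : E)) else 0 : ℝ) : ℂ) := by
        intro a
        simp only [ht]
        split_ifs <;> simp
      simp only [h5]
      rw [← Finset.mul_sum, ← Complex.ofReal_sum, h2]
      simp
    · rw [if_neg hP, mul_zero]
      refine Finset.sum_eq_zero fun a _ => if_neg fun h' => hP ⟨a, h'.symm⟩
  have hb : ∀ a ∈ hA.toFinset, ∑ I ∈ hJ.toFinset, t I a =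
      if a ∈ c then h.c a * (h.Ψ (T⁻¹ • emb (a : E)) * Φ (lnN (T⁻¹ • emb (a : E))) *
        (ρ (T⁻¹ • emb (a : E)) : ℂ)) else 0 := by
    intro a haA
    have haK : T⁻¹ • emb (a : E) ∈ K := by simpa using haA
    have ha0 : a ≠ 0 := by
      rintro rfl
      obtain ⟨φ⟩ : Nonempty (E →+* ℂ) := inferInstance
      exact hKN haK φ (by simp [emb])
    by_cases hac : a ∈ c
    · rw [if_pos hac]
      obtain ⟨I0, hI0⟩ : c ∣ Ideal.span {a} :=
        Ideal.dvd_iff_le.2 ((Ideal.span_singleton_le_iff_mem _).2 hac)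
      rw [mul_comm] at hI0
      have hval : t I0 a = h.c a * (h.Ψ (T⁻¹ • emb (a : E)) * Φ (lnN (T⁻¹ • emb (a : E))) *
          (ρ (T⁻¹ • emb (a : E)) : ℂ)) := by
        simp only [ht, if_pos hI0]
        rw [lnN_scale ha0 hI0 hT hTn, h.Ψ_smul _ (inv_pos.2 hT) _
          (emb_mem_RZ (RingOfIntegers.coe_ne_zero_iff.2 ha0)).1]
        have := h.eq a ha0
        rw [hI0, map_mul] at this
        linear_combination (Φ (Real.log (Ideal.absNorm I0) - k) *
          (ρ (T⁻¹ • emb (a : E)) : ℂ)) * this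
      rw [← hval]
      refine Finset.sum_eq_single I0 (fun I _ hne => if_neg fun h' => hne ?_) fun hn => ?_
      · exact mul_right_cancel₀ hc (h'.symm.trans hI0)
      · have : Φ (Real.log (Ideal.absNorm I0) - k) = 0 := by
          by_contra h'
          exact hn (by simpa using norm_le_of_ne hΦ0 h')
        simp [ht, this]
    · rw [if_neg hac]
      refine Finset.sum_eq_zero fun I _ => if_neg fun h' => hac ?_
      have : a ∈ I * c := h' ▸ Ideal.mem_span_singleton_self a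
      exact Ideal.mul_le_right this
  rw [finsum_eq_sum_of_support_subset (s := hJ.toFinset), finsum_eq_sum_of_support_subset
    (s := hA.toFinset), Finset.mul_sum, ← Finset.sum_congr rfl hb, Finset.sum_comm]
  · exact Finset.sum_congr rfl fun I _ => (ha I).symm
  · intro a ha
    simp only [Set.Finite.coe_toFinset]
    by_contra hn
    exact ha (by simp [h0 _ hn])
  · intro I hI
    simp only [Set.Finite.coe_toFinset]
    refine norm_le_of_ne hΦ0 (k := k) fun h' => hI (by simp [h'])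

/-- representatives of the ideal classes prime to the modulus -/
theorem exists_reps (m : ℕ) (hm : m ≠ 0) : ∃ c : ClassGroup (𝓞 E) → (Ideal (𝓞 E))⁰,
    (∀ C, ClassGroup.mk0 (c C) = C) ∧
      ∀ C, IsCoprime (c C : Ideal (𝓞 E)) (Ideal.span {(m : 𝓞 E)}) := by
  have : ∀ C : ClassGroup (𝓞 E), ∃ c : (Ideal (𝓞 E))⁰, ClassGroup.mk0 c = C ∧
      IsCoprime (c : Ideal (𝓞 E)) (Ideal.span {(m : 𝓞 E)}) := by
    intro C
    obtain ⟨B, rfl⟩ := ClassGroup.mk0_surjective C
    have hB : (B : Ideal (𝓞 E)) ≠ ⊥ := mem_nonZeroDivisors_iff_ne_zero.1 B.2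
    obtain ⟨B', γ, γ', h1, h2, -, h4, h5, -, -, h8⟩ := exists_coprime_rep (B : Ideal (𝓞 E)) hB ⊤
      (by rw [← Ideal.one_eq_top]; exact isCoprime_one_right) (Ideal.span {(m : 𝓞 E)})
      (by simpa using hm)
    refine ⟨⟨B', mem_nonZeroDivisors_iff_ne_zero.2 h1⟩, ?_, h2⟩
    exact ClassGroup.mk0_eq_mk0_iff.2 ⟨γ, γ', h4, h5, by simpa [mul_comm] using h8⟩
  choose c h1 h2 using this
  exact ⟨c, h1, h2⟩

theorem principal_iff {c : ClassGroup (𝓞 E) → (Ideal (𝓞 E))⁰}
    (hc : ∀ C, ClassGroup.mk0 (c C) = C) (I : (Ideal (𝓞 E))⁰) (C : ClassGroup (𝓞 E)) :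
    ((I : Ideal (𝓞 E)) * c C).IsPrincipal ↔ C = (ClassGroup.mk0 I)⁻¹ := by
  refine (ClassGroup.mk0_eq_one_iff (I * c C).2).symm.trans ?_
  change ClassGroup.mk0 (I * c C) = 1 ↔ _
  rw [map_mul, hc, eq_inv_iff_mul_eq_one, mul_comm]

open Classical in
theorem class_split (h : Hecke E) {c : ClassGroup (𝓞 E) → (Ideal (𝓞 E))⁰}
    (hc : ∀ C, ClassGroup.mk0 (c C) = C) {Φ : ℝ → ℂ} (hΦ0 : ∀ u, 1 < |u| → Φ u = 0) (k : ℝ) :
    ∑ᶠ I : Ideal (𝓞 E), h.X I * Φ (Real.log (Ideal.absNorm I) - k) =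
      ∑ C : ClassGroup (𝓞 E), ∑ᶠ I : Ideal (𝓞 E), (if (I * c C).IsPrincipal then
        h.X I * Φ (Real.log (Ideal.absNorm I) - k) else 0) := by
  rw [← finsum_sum_comm]
  · refine finsum_congr fun I => ?_
    by_cases hI : I = ⊥
    · simp [hI, h.X_bot]
    · have := principal_iff hc ⟨I, mem_nonZeroDivisors_iff_ne_zero.2 hI⟩
      simp only at this
      simp only [this, Finset.sum_ite_eq', Finset.mem_univ, if_true]
  · intro C _
    refine (Ideal.finite_setOfPred_absNorm_le (S := 𝓞 E) ⌈Real.exp (k + 1)⌉₊).subset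
      fun I hI => ?_
    exact norm_le_of_ne hΦ0 (k := k) fun h' => hI (by simp [h'])

end Pool.Agent.MP_14ad9d_nt.Full.PieceAux
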