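import Pool.Agent.MP_14ad9d_nt.Full.R02
import Pool.Agent.MP_14ad9d_nt.Full.Gauss
import Pool.Agent.MP_14ad9d_nt.Full.DL

set_option autoImplicit false

open NumberField IsDedekindDomain

namespace Pool.Agent.MP_14ad9d_nt.Full.R0Aux

variable {l : ℕ} [Fact l.Prime] {K : Type} [Field K] [NumberField K] {ζ : K}

theorem nat_ord (v : Pr K) {a : ℕ} (ha : a ≠ 0) :
    ord v (a : K) = 0 ↔ (a : 𝓞 K) ∉ v.asIdeal := by
  simpa using ord_eq_zero_iff v (a := (a : 𝓞 K)) (by exact_mod_cast ha)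

omit [NumberField K] in
theorem prime_eq {v : Pr K} {p q : ℕ} (hp : p.Prime) (hq : q.Prime) (h1 : (p : 𝓞 K) ∈ v.asIdeal)
    (h2 : (q : 𝓞 K) ∈ v.asIdeal) : p = q := by
  by_contra h
  obtain ⟨a, b, e⟩ := Nat.Coprime.cast (R := 𝓞 K) ((Nat.coprime_primes hp hq).2 h)
  exact v.isPrime.ne_top ((Ideal.eq_top_iff_one _).2
    (e ▸ add_mem (v.asIdeal.mul_mem_left a h1) (v.asIdeal.mul_mem_left b h2)))

/-- an auxiliary prime of degree one with prescribed ratio of characters -/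
theorem exists_aux [IsGalois ℚ K] (hl : 2 < l) (hd : ¬l ∣ Module.finrank ℚ K)
    (hζ : IsPrimitiveRoot ζ l) {v₁ v₂ : Pr K}
    (hne : ∀ p : ℕ, p.Prime → (p : 𝓞 K) ∈ v₁.asIdeal → (p : 𝓞 K) ∉ v₂.asIdeal) {ω₁ : ZMod l}
    (hω : ω₁ ≠ 0) (ω₂ : ZMod l) :
    ∃ r : Pr K, Tm l r ∧ Deg1 r ∧ ((Ideal.absNorm r.asIdeal : ℕ) : 𝓞 K) ∉ v₁.asIdeal ∧
      ((Ideal.absNorm r.asIdeal : ℕ) : 𝓞 K) ∉ v₂.asIdeal ∧
      chi l ζ r ((Ideal.absNorm v₁.asIdeal : ℕ) : K) ≠ 0 ∧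
      chi l ζ r ((Ideal.absNorm v₁.asIdeal : ℕ) : K) * ω₂ =
        chi l ζ r ((Ideal.absNorm v₂.asIdeal : ℕ) : K) * ω₁ := by
  have hp : l.Prime := Fact.out
  have : NeZero l := ⟨hp.ne_zero⟩
  obtain ⟨p₁, f₁, hp₁, hf₁, n₁, m₁, e₁⟩ := abs_ef hd v₁
  obtain ⟨p₂, f₂, hp₂, hf₂, n₂, m₂, e₂⟩ := abs_ef hd v₂
  have z₁ : (p₁ : K) ≠ 0 := by exact_mod_cast hp₁.ne_zero
  have z₂ : (p₂ : K) ≠ 0 := by exact_mod_cast hp₂.ne_zero
  have hf₁' : (f₁ : ZMod l) ≠ 0 := mt (ZMod.natCast_eq_zero_iff _ _).1 hf₁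
  have hf₂' : (f₂ : ZMod l) ≠ 0 := mt (ZMod.natCast_eq_zero_iff _ _).1 hf₂
  have e₁' : (ord v₁ (p₁ : K) : ZMod l) ≠ 0 := mt (ZMod.intCast_zmod_eq_zero_iff_dvd _ _).1 e₁
  have e₂' : (ord v₂ (p₂ : K) : ZMod l) ≠ 0 := mt (ZMod.intCast_zmod_eq_zero_iff_dvd _ _).1 e₂
  obtain ⟨a, ha⟩ : ∃ a : ℕ, (a : ZMod l) = f₁ * ω₂ := ⟨_, ZMod.natCast_zmod_val _⟩
  obtain ⟨b, hb⟩ : ∃ b : ℕ, (b : ZMod l) = -(f₂ * ω₁) := ⟨_, ZMod.natCast_zmod_val _⟩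
  have hb' : (b : ZMod l) ≠ 0 := hb ▸ neg_ne_zero.2 (mul_ne_zero hf₂' hω)
  have hy : (p₁ : K) ^ a * (p₂ : K) ^ b ≠ 0 := mul_ne_zero (pow_ne_zero _ z₁) (pow_ne_zero _ z₂)
  have oy : ∀ v : Pr K, ord v ((p₁ : K) ^ a * (p₂ : K) ^ b) =
      a * ord v (p₁ : K) + b * ord v (p₂ : K) := fun v => by
    rw [ord_mul v (pow_ne_zero _ z₁) (pow_ne_zero _ z₂), ord_pow, ord_pow]
  obtain ⟨r, h1, h2, h3, h4, h5, h6⟩ := (wc2 hl hζ z₁ hy fun i d e => by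
    have hd0 : d ≠ 0 := by
      rintro rfl
      rw [zero_pow hp.ne_zero, mul_zero] at e
      exact z₁ e
    have o : ∀ v : Pr K, (ord v (p₁ : K) : ZMod l) =
        i * (a * ord v (p₁ : K) + b * ord v (p₂ : K)) := fun v => by
      have := congrArg (fun x => (ord v x : ZMod l)) e
      simp only [ord_mul v (pow_ne_zero _ hy) (pow_ne_zero _ hd0), ord_pow, oy] at this
      push_cast at this
      rwa [ZMod.natCast_self, zero_mul, add_zero] at this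
    have o₂ := o v₂
    rw [(nat_ord v₂ hp₁.ne_zero).2 (hne p₁ hp₁ m₁), Int.cast_zero, mul_zero, zero_add] at o₂
    have hi : (i : ZMod l) = 0 :=
      (mul_eq_zero.1 o₂.symm).resolve_right (mul_ne_zero hb' e₂')
    exact e₁' (by rw [o v₁, hi, zero_mul])).nonempty
  have h7 : ord r (p₂ : K) = 0 := by
    rw [oy, h3, mul_zero, zero_add] at h4
    refine (mul_eq_zero.1 h4).resolve_left fun e => hb' ?_
    rw [Nat.cast_eq_zero.1 e, Nat.cast_zero]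
  rw [chi_mul hζ h2 (pow_ne_zero _ z₁) (pow_ne_zero _ z₂) (by rw [ord_pow, h3, mul_zero])
    (by rw [ord_pow, h7, mul_zero]), chi_pow hζ h2 z₁ h3, chi_pow hζ h2 z₂ h7, ha, hb] at h6
  refine ⟨r, h2, h1, fun e => ?_, fun e => ?_, ?_, ?_⟩
  · exact (nat_ord r hp₁.ne_zero).1 h3 (prime_eq h1 hp₁ e m₁ ▸ r.asIdeal.absNorm_mem)
  · exact (nat_ord r hp₂.ne_zero).1 h7 (prime_eq h1 hp₂ e m₂ ▸ r.asIdeal.absNorm_mem)
  · rw [n₁, Nat.cast_pow, chi_pow hζ h2 z₁ h3]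
    exact mul_ne_zero hf₁' h5
  · rw [n₁, n₂, Nat.cast_pow, Nat.cast_pow, chi_pow hζ h2 z₁ h3, chi_pow hζ h2 z₂ h7]
    linear_combination h6

/-- a Galois extension containing a root in which the local powers have degree one -/
theorem exists_ext (hl : 2 < l) (hζ : IsPrimitiveRoot ζ l) {ε : K} (hε : ε ≠ 0) :
    ∃ (E : Type) (_ : Field E) (_ : NumberField E) (_ : Algebra K E) (_ : IsGalois K E) (θ : E),
      θ ^ l = algebraMap K E ε ∧ ∀ v : Pr K, Tm l v → (l : ℤ) ∣ ord v ε → ∀ ϖ : K, ord v ϖ = 1 →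
        tame l ζ v ε ϖ = 0 → ∃ q : Pr E, q.asIdeal.LiesOver v.asIdeal ∧
          q.asIdeal.inertiaDeg (𝓞 K) = 1 := by
  by_cases h : ∀ d : K, ε ≠ d ^ l
  · obtain ⟨L, _, _, _, _, θ, σ, hd, hθ, hσ, -⟩ := exists_kummer hζ h
    refine ⟨L, inferInstance, inferInstance, inferInstance, inferInstance, θ, hθ,
      fun v hv h0 ϖ hϖ h1 => ?_⟩
    obtain ⟨q, hq⟩ := exists_over (E' := L) v
    exact ⟨q, hq, (split_of_chi hl hζ hd hε hθ hσ hv h0 hϖ h1 hq).2⟩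
  · push Not at h
    obtain ⟨d, hd⟩ := h
    refine ⟨K, inferInstance, inferInstance, inferInstance, inferInstance, d, hd.symm,
      fun v _ _ _ _ _ => ?_⟩
    obtain ⟨q, hq⟩ := exists_over (E' := K) v
    have := ef_dvd hq
    rw [Module.finrank_self] at this
    exact ⟨q, hq, Nat.dvd_one.1 ((Dvd.intro_left _ rfl).trans this)⟩

/-- the character from the first inequality is proportional to the residue symbol -/
theorem key [IsGalois ℚ K] (hl : 2 < l) (hd : ¬l ∣ Module.finrank ℚ K)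
    (hζ : IsPrimitiveRoot ζ l) {β : K} (hβ0 : β ≠ 0) (m : Finset (Pr K))
    (hram : ∀ v : Pr K, Tm l v → v ∉ m → (l : ℤ) ∣ ord v β) (ϖ : Pr K → K) (hϖ0 : ∀ v, ϖ v ≠ 0)
    (hϖ : ∀ v, ord v (ϖ v) = 1) (χ : Pr K → ZMod l)
    (hχ0 : ∀ v, Tm l v → v ∉ m → tame l ζ v β (ϖ v) = 0 → χ v = 0)
    (hχ : ∀ α : K, α ≠ 0 → (∀ v ∈ m, v.valuation K (α - 1) < 1) →
      ∑ᶠ v : Pr K, (ord v α : ZMod l) * χ v = 0)
    {v₁ v₂ : Pr K} (t₁ : Tm l v₁) (t₂ : Tm l v₂) (m₁ : v₁ ∉ m) (m₂ : v₂ ∉ m)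
    (hne : ∀ p : ℕ, p.Prime → (p : 𝓞 K) ∈ v₁.asIdeal → (p : 𝓞 K) ∉ v₂.asIdeal)
    (hω : tame l ζ v₁ β (ϖ v₁) ≠ 0) :
    χ v₁ * tame l ζ v₂ β (ϖ v₂) = χ v₂ * tame l ζ v₁ β (ϖ v₁) := by
  have hp : l.Prime := Fact.out
  have : NeZero l := ⟨hp.ne_zero⟩
  obtain ⟨r, hr, r1, n₁, n₂, c₁, c₂⟩ := exists_aux hl hd hζ hne hω (tame l ζ v₂ β (ϖ v₂))
  obtain ⟨μ, hμ0, hμ⟩ := gauss hl hζ hr r1
  set p := Ideal.absNorm r.asIdeal with hpd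
  have hμK : ∀ v : Pr K, Tm l v → (p : 𝓞 K) ∉ v.asIdeal → ord v μ = 0 ∧
      chi l ζ v μ = -chi l ζ r ((Ideal.absNorm v.asIdeal : ℕ) : K) := hμ K
  obtain ⟨a, ha⟩ : ∃ a : ℕ, (a : ZMod l) = chi l ζ r ((Ideal.absNorm v₁.asIdeal : ℕ) : K) :=
    ⟨_, ZMod.natCast_zmod_val _⟩
  obtain ⟨b, hb⟩ : ∃ b : ℕ, (b : ZMod l) = tame l ζ v₁ β (ϖ v₁) := ⟨_, ZMod.natCast_zmod_val _⟩
  have hε : β ^ a * μ ^ b ≠ 0 := mul_ne_zero (pow_ne_zero _ hβ0) (pow_ne_zero _ hμ0)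
  have hεv : ∀ v : Pr K, Tm l v → v ∉ m → (p : 𝓞 K) ∉ v.asIdeal → (l : ℤ) ∣ ord v (β ^ a * μ ^ b) ∧
      tame l ζ v (β ^ a * μ ^ b) (ϖ v) = a * tame l ζ v β (ϖ v) + b * chi l ζ v μ := by
    intro v hv hm hpv
    constructor
    · rw [ord_mul v (pow_ne_zero _ hβ0) (pow_ne_zero _ hμ0), ord_pow, ord_pow, (hμK v hv hpv).1,
        mul_zero, add_zero]
      exact (hram v hv hm).mul_left _
    · rw [tame_mul_left hl hζ hv (pow_ne_zero _ hβ0) (pow_ne_zero _ hμ0) (hϖ0 v),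
        tame_pow_left hl hζ hv hβ0 (hϖ0 v), tame_pow_left hl hζ hv hμ0 (hϖ0 v),
        tame_unit hl hζ hv hμ0 (hμK v hv hpv).1, hϖ, Int.cast_one, one_mul]
  obtain ⟨E, _, _, _, _, θ, hθ, hq⟩ := exists_ext hl hζ hε
  obtain ⟨q₁, o₁, f₁⟩ := hq v₁ t₁ (hεv v₁ t₁ m₁ n₁).1 _ (hϖ v₁) (by
    rw [(hεv v₁ t₁ m₁ n₁).2, (hμK v₁ t₁ n₁).2, ha, hb]; ring)
  obtain ⟨q₂, o₂, f₂⟩ := hq v₂ t₂ (hεv v₂ t₂ m₂ n₂).1 _ (hϖ v₂) (by
    rw [(hεv v₂ t₂ m₂ n₂).2, (hμK v₂ t₂ n₂).2, ha, hb]; linear_combination c₂)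
  choose u hu using fun w : Pr E => exists_under (E := K) w
  set 𝔐 : Ideal (𝓞 E) := Ideal.span {(p : 𝓞 E)} * (Ideal.span {(l : 𝓞 E)} *
    (∏ v ∈ m, v.asIdeal).map (algebraMap (𝓞 K) (𝓞 E))) with h𝔐
  have M0 : 𝔐 ≠ ⊥ := by
    refine mul_ne_zero (by simpa using r1.ne_zero) (mul_ne_zero (by simpa using hp.ne_zero) ?_)
    exact Ideal.map_ne_bot_of_ne_bot (Finset.prod_ne_zero_iff.2 fun v _ => v.ne_bot)
  have M1 : ∀ (q : Pr E) (v : Pr K), q.asIdeal.LiesOver v.asIdeal →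
      (¬𝔐 ≤ q.asIdeal ↔ Tm l v ∧ v ∉ m ∧ (p : 𝓞 K) ∉ v.asIdeal) := fun q v h => by
    rw [h𝔐, q.isPrime.mul_le, q.isPrime.mul_le, Ideal.span_singleton_le_iff_mem,
      Ideal.span_singleton_le_iff_mem, nat_over h, nat_over h, Ideal.map_le_iff_le_comap,
      ← Ideal.under_def, ← h.over, v.isPrime.prod_le, Tm]
    have : (∃ i ∈ m, i.asIdeal ≤ v.asIdeal) ↔ v ∈ m := by
      refine ⟨fun ⟨i, hi, e⟩ => ?_, fun e => ⟨v, e, le_rfl⟩⟩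
      rwa [← HeightOneSpectrum.ext (i.isMaximal.eq_of_le v.isPrime.ne_top e)]
    rw [this, not_or, not_or]
    exact ⟨fun h => ⟨h.2.1, h.2.2, h.1⟩, fun h => ⟨h.2.2, h.1, h.2.1⟩⟩
  let ψ : Pr E → ZMod l × ZMod l := fun q => ((q.asIdeal.inertiaDeg (𝓞 K) : ZMod l) * χ (u q),
    chi l ζ r ((Ideal.absNorm q.asIdeal : ℕ) : K))
  have hψ : ∀ a : 𝓞 E, a ≠ 0 → a - 1 ∈ 𝔐 → ∑ᶠ v, ord v (a : E) • ψ v = 0 := by
    intro a a0 a1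
    have a0' : (a : E) ≠ 0 := by simpa using a0
    have fin : Function.HasFiniteSupport fun v : Pr E => ord v (a : E) • ψ v :=
      (ord_finite (a : E)).subset fun w hw e => hw (by simp only [e, zero_smul])
    refine Prod.ext (((AddMonoidHom.fst _ _).map_finsum fin).trans ?_)
      (((AddMonoidHom.snd _ _).map_finsum fin).trans ?_)
    · refine (push_down u hu χ a0').trans (hχ _ (by simpa using a0') fun v hv =>
        norm_near_one fun w hw => ?_)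
      have h1 : 𝔐 ≤ w.asIdeal := by
        by_contra h
        exact ((M1 w v hw).1 h).2.1 hv
      simpa using (w.valuation_lt_one_iff_mem (K := E) _).2 (h1 a1)
    · exact sum_chi_norm hl hζ hr r.asIdeal.absNorm_mem a0
        (Ideal.mem_span_singleton.1 (Ideal.mul_le_left (h𝔐 ▸ a1)))
  have g₁ := (M1 q₁ v₁ o₁).2 ⟨t₁, m₁, n₁⟩
  have g₂ := (M1 q₂ v₂ o₂).2 ⟨t₂, m₂, n₂⟩
  obtain ⟨q, ⟨-, e⟩, g⟩ := (dl l hl 𝔐 M0 ψ hψ ((ψ q₂).2 • ψ q₁ - (ψ q₁).2 • ψ q₂)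
    (sub_mem (Submodule.smul_mem _ _ (Submodule.subset_span ⟨q₁, g₁, rfl⟩))
      (Submodule.smul_mem _ _ (Submodule.subset_span ⟨q₂, g₂, rfl⟩)))).exists_notMem_finite
      (Ideal.finite_factors M0)
  obtain ⟨t, mv, nv⟩ := (M1 q (u q) (hu q)).1 fun e => g (Ideal.dvd_iff_le.2 e)
  have e₁ := congrArg Prod.fst e
  have e₂ := congrArg Prod.snd e
  simp only [ψ, Prod.fst_sub, Prod.snd_sub, Prod.smul_fst, Prod.smul_snd, smul_eq_mul, f₁, f₂,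
    absNorm_over o₁, absNorm_over o₂, pow_one, Nat.cast_one, one_mul, under_unique (hu q₁) o₁,
    under_unique (hu q₂) o₂] at e₁ e₂
  have h1 := (hμ E q ((tm_over (hu q)).2 t) (mt (nat_over (hu q) p).1 nv)).2
  rw [chi_over hζ t (hu q) hμ0 (hμK _ t nv).1, e₂] at h1
  have h2 := tame_of_root hl hζ hε hθ t (hεv _ t mv nv).1 (hϖ0 _) (hϖ _) (hu q)
  rw [(hεv _ t mv nv).2, ha] at h2
  have h3 : (q.asIdeal.inertiaDeg (𝓞 K) : ZMod l) * χ (u q) = 0 := by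
    rcases eq_or_ne (tame l ζ (u q) β (ϖ (u q))) 0 with h | h
    · rw [hχ0 _ t mv h, mul_zero]
    · rw [mul_left_cancel₀ (mul_ne_zero c₁ h)
        (show _ * (q.asIdeal.inertiaDeg (𝓞 K) : ZMod l) = _ * 0 by
          linear_combination h2 - b * h1), zero_mul]
  refine mul_left_cancel₀ c₁ ?_
  linear_combination χ v₁ * c₂ - tame l ζ v₁ β (ϖ v₁) * (e₁ - h3)

end Pool.Agent.MP_14ad9d_nt.Full.R0Aux
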