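import Pool.Agent.MP_14ad9d_nt.Full.FI
import Pool.Agent.MP_14ad9d_nt.Full.WC
import Pool.Agent.MP_14ad9d_nt.Full.Gauss
import Pool.Agent.MP_14ad9d_nt.Full.DL
import Pool.Agent.MP_14ad9d_nt.Full.R03

set_option autoImplicit false

open NumberField IsDedekindDomain

namespace Pool.Agent.MP_14ad9d_nt.Full

namespace R0Aux

theorem main {l : ℕ} [Fact l.Prime] (hl : 2 < l) {K : Type} [Field K] [NumberField K]
    [IsGalois ℚ K] (hd : ¬l ∣ Module.finrank ℚ K) {ζ : K} (hζ : IsPrimitiveRoot ζ l) {β : K}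
    (hβ0 : β ≠ 0)
    (hβ : ∀ v : Pr K, ¬Tm l v → v.valuation K (β - 1) ≤ v.valuation K (1 - ζ) ^ (l + 1))
    (m : Finset (Pr K)) (hm : m.Nonempty) (htm : ∀ v ∈ m, Tm l v)
    (hram : ∀ v : Pr K, Tm l v → v ∉ m → (l : ℤ) ∣ ord v β) {α : K} (hα0 : α ≠ 0)
    (hα : ∀ v ∈ m, v.valuation K (α - 1) < 1) : Phi l ζ α β = 0 := by
  classical
  have hp : l.Prime := Fact.out
  by_cases h : ∀ d : K, β ≠ d ^ l
  swap
  · push Not at h
    obtain ⟨d, rfl⟩ := h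
    exact Phi_ell_right hl hζ hα0 fun e => hβ0 (by rw [e, zero_pow hp.ne_zero])
  obtain ⟨L, _, _, _, _, θ, σ, hL, hθ, hσ, hgen, -⟩ := exists_kummer hζ h
  have hβ1 : β ≠ 1 := fun e => h 1 (by rw [e, one_pow])
  have : IsTotallyComplex K := nrRealPlaces_eq_zero_iff.1
    (InfinitePlace.IsPrimitiveRoot.nrRealPlaces_eq_zero_of_two_lt hl hζ)
  obtain ⟨χ, ⟨v₀, m₀, c₀⟩, hs, hχ⟩ := fi hL σ hgen m hm htm fun v hv w hw => by
    by_cases t : Tm l v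
    · exact unr_tame hl hζ hL hβ0 hθ hσ t (hram v t hv) hw
    · exact e_one_of_ne hL hw (wild_split hζ hβ1 hθ hσ t (hβ v t) hw)
  have hw : ∀ v, ¬Tm l v → χ v = 0 := fun v t => by
    obtain ⟨w, hw⟩ := exists_over (E' := L) v
    exact hs v (fun e => t (htm v e)) w hw (wild_split hζ hβ1 hθ hσ t (hβ v t) hw)
  obtain ⟨ϖ, hϖ0, hϖ⟩ : ∃ ϖ : Pr K → K, (∀ v, ϖ v ≠ 0) ∧ ∀ v, ord v (ϖ v) = 1 := by
    choose ϖ h0 h1 using fun v : Pr K => exists_ord_eq_one v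
    exact ⟨fun v => ϖ v, fun v => by simpa using h0 v, h1⟩
  have hχ0 : ∀ v, Tm l v → v ∉ m → tame l ζ v β (ϖ v) = 0 → χ v = 0 := fun v t hv e => by
    obtain ⟨w, hw⟩ := exists_over (E' := L) v
    exact hs v hv w hw (split_of_chi hl hζ hL hβ0 hθ hσ t (hram v t hv) (hϖ v) e hw).1
  have t₀ : Tm l v₀ := by
    by_contra t
    exact c₀ (hw v₀ t)
  have prop : ∀ v, Tm l v → v ∉ m →
      χ v₀ * tame l ζ v β (ϖ v) = χ v * tame l ζ v₀ β (ϖ v₀) := fun v t hv => by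
    obtain ⟨p₀, -, hp₀, -, -, n₀, -⟩ := abs_ef hd v₀
    obtain ⟨p, -, hp₁, -, -, n₁, -⟩ := abs_ef hd v
    obtain ⟨u, ⟨-, tu, ou, cu⟩, hu⟩ := (wc1 hl hζ h).exists_notMem_finite
      (m.finite_toSet.union ((ord_finite (p₀ : K)).union (ord_finite (p : K))))
    simp only [Set.mem_union, Set.mem_ofPred_eq, not_or, not_not, Finset.mem_coe] at hu
    have ω : tame l ζ u β (ϖ u) ≠ 0 := by
      rwa [tame_unit hl hζ tu hβ0 ou, hϖ, Int.cast_one, one_mul]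
    have k₀ := key hl hd hζ hβ0 m hram ϖ hϖ0 hϖ χ hχ0 hχ tu t₀ hu.1 m₀ (fun q hq h1 h2 =>
      (nat_ord u hp₀.ne_zero).1 hu.2.1 (prime_eq hq hp₀ h2 n₀ ▸ h1)) ω
    have k₁ := key hl hd hζ hβ0 m hram ϖ hϖ0 hϖ χ hχ0 hχ tu t hu.1 hv (fun q hq h1 h2 =>
      (nat_ord u hp₁.ne_zero).1 hu.2.2 (prime_eq hq hp₁ h2 n₁ ▸ h1)) ω
    refine mul_left_cancel₀ ω ?_
    linear_combination tame l ζ v₀ β (ϖ v₀) * k₁ - tame l ζ v β (ϖ v) * k₀
  rw [Phi_swap hl hζ hβ0 hα0, neg_eq_zero]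
  refine (mul_eq_zero.1 ?_).resolve_left c₀
  have h1 := congrArg (tame l ζ v₀ β (ϖ v₀) * ·) (hχ α hα0 hα)
  simp only [mul_zero, mul_finsum] at h1
  rw [Phi, mul_finsum, ← h1,
    finsum_subtype_eq_finsum_cond (f := fun v => χ v₀ * tame l ζ v β α) (Tm l)]
  refine finsum_congr fun v => ?_
  rw [finsum_eq_if]
  split_ifs with t
  · by_cases hv : v ∈ m
    · rw [tame_swap hl hζ t hα0 hβ0, tame_unit hl hζ t hα0 (ord_near_one (hα v hv)).2,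
        chi_near_one hζ t (hα v hv), (ord_near_one (hα v hv)).2]
      simp
    · rw [tame_eq_mul hl hζ t hβ0 hα0 (hϖ0 v) (hϖ v) (hram v t hv)]
      linear_combination (ord v α : ZMod l) * prop v t hv
  · rw [hw v t, mul_zero, mul_zero]

end R0Aux

open R0Aux in
/-- reciprocity for elements congruent to one modulo the conductor -/
theorem r0 {l : ℕ} [Fact l.Prime] (hl : 2 < l) {K : Type} [Field K] [NumberField K] [IsGalois ℚ K]
    (hd : ¬l ∣ Module.finrank ℚ K) {ζ : K} (hζ : IsPrimitiveRoot ζ l) {β : K} (hβ0 : β ≠ 0)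
    (hβ : Near l ζ (l + 1) β) (m : Finset (Pr K)) (hm : m.Nonempty) (htm : ∀ v ∈ m, Tm l v)
    (hram : ∀ v : Pr K, Tm l v → v ∉ m → (l : ℤ) ∣ ord v β) {α : K} (hα0 : α ≠ 0)
    (hα : ∀ v ∈ m, v.valuation K (α - 1) < 1) : Phi l ζ α β = 0 := by
  obtain ⟨γ, hγ0, hγ⟩ := hβ
  have := main hl hd hζ (div_ne_zero hβ0 (pow_ne_zero l hγ0)) hγ m hm htm (fun v t hv => by
    rw [ord_div v hβ0 (pow_ne_zero l hγ0), ord_pow]
    exact dvd_sub (hram v t hv) (Dvd.intro _ rfl)) hα0 hα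
  rwa [Phi_div_right hl hζ hα0 hβ0 (pow_ne_zero l hγ0), Phi_ell_right hl hζ hα0 hγ0,
    sub_zero] at this

end Pool.Agent.MP_14ad9d_nt.Full
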