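import Pool.Agent.MP_14ad9d_nt.Full.Sym2

set_option autoImplicit false

open NumberField IsDedekindDomain

namespace Pool.Agent.MP_14ad9d_nt.Full.R0Aux

variable {l : ℕ} [Fact l.Prime] {E : Type} [Field E] [NumberField E] {ζ : E}

theorem val_lt_one_iff (v : Pr E) {x : E} (hx : x ≠ 0) : v.valuation E x < 1 ↔ 0 < ord v x := by
  rw [val_eq_exp v hx, ← WithZero.exp_zero, WithZero.exp_lt_exp]
  omega

theorem val_le_iff (v : Pr E) {x y : E} (hx : x ≠ 0) (hy : y ≠ 0) :
    v.valuation E x ≤ v.valuation E y ↔ ord v y ≤ ord v x := by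
  rw [val_eq_exp v hx, val_eq_exp v hy, WithZero.exp_le_exp]
  omega

theorem ord_div (v : Pr E) {x y : E} (hx : x ≠ 0) (hy : y ≠ 0) :
    ord v (x / y) = ord v x - ord v y := by
  rw [div_eq_mul_inv, ord_mul v hx (inv_ne_zero hy), ord_inv, sub_eq_add_neg]

theorem ord_of_sub {v : Pr E} {x y : E} (h : v.valuation E (x - y) < v.valuation E y) :
    x ≠ 0 ∧ ord v x = ord v y := by
  have e : v.valuation E x = v.valuation E y := Valuation.map_eq_of_sub_lt _ h
  refine ⟨?_, by rw [ord, ord, e]⟩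
  rintro rfl
  rw [zero_sub, Valuation.map_neg] at h
  exact lt_irrefl _ h

theorem ord_near_one {v : Pr E} {x : E} (h : v.valuation E (x - 1) < 1) : x ≠ 0 ∧ ord v x = 0 := by
  have := ord_of_sub (v := v) (x := x) (y := 1) (by rwa [map_one])
  rwa [ord_one] at this

theorem chi_pow (hζ : IsPrimitiveRoot ζ l) {v : Pr E} (hv : Tm l v) {x : E} (hx : x ≠ 0)
    (h0 : ord v x = 0) (n : ℕ) : chi l ζ v (x ^ n) = n * chi l ζ v x := by
  rw [← zpow_natCast, chi_zpow hζ hv hx h0, Int.cast_natCast]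

theorem chi_one (hζ : IsPrimitiveRoot ζ l) {v : Pr E} (hv : Tm l v) : chi l ζ v 1 = 0 := by
  simpa using chi_pow hζ hv one_ne_zero (ord_one v) 0

theorem chi_near_one (hζ : IsPrimitiveRoot ζ l) {v : Pr E} (hv : Tm l v) {x : E}
    (h : v.valuation E (x - 1) < 1) : chi l ζ v x = 0 := by
  rw [chi_congr hζ hv one_ne_zero (ord_one v) (by rwa [Valuation.map_sub_swap]), chi_one hζ hv]

theorem chi_neg_one (hl : 2 < l) (hζ : IsPrimitiveRoot ζ l) {v : Pr E} (hv : Tm l v) :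
    chi l ζ v (-1) = 0 := by
  have ho : Odd l := (Fact.out : l.Prime).odd_of_ne_two (by omega)
  have := chi_pow hζ hv (x := -1) (by simp) (by rw [ord_neg, ord_one]) l
  rwa [ho.neg_one_pow, ZMod.natCast_self, zero_mul] at this

theorem tame_pow_left (hl : 2 < l) (hζ : IsPrimitiveRoot ζ l) {v : Pr E} (hv : Tm l v) {x y : E}
    (hx : x ≠ 0) (hy : y ≠ 0) (n : ℕ) : tame l ζ v (x ^ n) y = n * tame l ζ v x y := by
  rw [← zpow_natCast, tame_zpow_left hl hζ hv hx hy, Int.cast_natCast]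

/-- the symbol of an unramified element only sees the valuation -/
theorem tame_eq_mul (hl : 2 < l) (hζ : IsPrimitiveRoot ζ l) {v : Pr E} (hv : Tm l v) {x y ϖ : E}
    (hx : x ≠ 0) (hy : y ≠ 0) (hϖ0 : ϖ ≠ 0) (hϖ : ord v ϖ = 1) (h0 : (l : ℤ) ∣ ord v x) :
    tame l ζ v x y = (ord v y : ZMod l) * tame l ζ v x ϖ := by
  have h1 : ϖ ^ ord v y ≠ 0 := zpow_ne_zero _ hϖ0
  have e : y = y / ϖ ^ ord v y * ϖ ^ ord v y := (div_mul_cancel₀ y h1).symm
  have h2 := tame_mul_right hl hζ hv hx (div_ne_zero hy h1) h1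
  rw [← e, tame_zpow_right hl hζ hv hx hϖ0, tame_unr hl hζ hv hx (div_ne_zero hy h1) h0 (by
    rw [ord_div v hy h1, ord_zpow, hϖ, mul_one, sub_self]
    exact dvd_zero _), zero_add] at h2
  exact h2

theorem Phi_pow_left (hl : 2 < l) (hζ : IsPrimitiveRoot ζ l) {x y : E} (hx : x ≠ 0) (hy : y ≠ 0)
    (n : ℕ) : Phi l ζ (x ^ n) y = n * Phi l ζ x y := by
  rw [← zpow_natCast, Phi_zpow_left hl hζ hx hy, Int.cast_natCast]

theorem Phi_ell_left (hl : 2 < l) (hζ : IsPrimitiveRoot ζ l) {x y : E} (hx : x ≠ 0) (hy : y ≠ 0) :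
    Phi l ζ (x ^ l) y = 0 := by
  rw [Phi_pow_left hl hζ hx hy, ZMod.natCast_self, zero_mul]

theorem Phi_ell_right (hl : 2 < l) (hζ : IsPrimitiveRoot ζ l) {x y : E} (hx : x ≠ 0) (hy : y ≠ 0) :
    Phi l ζ x (y ^ l) = 0 := by
  rw [Phi_swap hl hζ (pow_ne_zero l hy) hx, Phi_ell_left hl hζ hy hx, neg_zero]

theorem Phi_div_left (hl : 2 < l) (hζ : IsPrimitiveRoot ζ l) {x x' y : E} (hx : x ≠ 0)
    (hx' : x' ≠ 0) (hy : y ≠ 0) : Phi l ζ (x / x') y = Phi l ζ x y - Phi l ζ x' y := by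
  have := Phi_mul_left hl hζ (div_ne_zero hx hx') hx' hy
  rw [div_mul_cancel₀ x hx'] at this
  rw [this, add_sub_cancel_right]

theorem Phi_div_right (hl : 2 < l) (hζ : IsPrimitiveRoot ζ l) {x y y' : E} (hx : x ≠ 0)
    (hy : y ≠ 0) (hy' : y' ≠ 0) : Phi l ζ x (y / y') = Phi l ζ x y - Phi l ζ x y' := by
  have := Phi_mul_right hl hζ hx (div_ne_zero hy hy') hy'
  rw [div_mul_cancel₀ y hy'] at this
  rw [this, add_sub_cancel_right]

theorem Phi_self (hl : 2 < l) (hζ : IsPrimitiveRoot ζ l) (x : E) : Phi l ζ x x = 0 :=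
  finsum_eq_zero_of_forall_eq_zero fun v => tame_self hl hζ v.2 x

theorem Phi_neg_left (hl : 2 < l) (hζ : IsPrimitiveRoot ζ l) {x y : E} (hx : x ≠ 0) (hy : y ≠ 0) :
    Phi l ζ (-x) y = Phi l ζ x y :=
  finsum_congr fun v => tame_neg_left hl hζ v.2 hx hy

theorem Phi_steinberg (hl : 2 < l) (hζ : IsPrimitiveRoot ζ l) {x : E} (hx : x ≠ 0) (hx1 : x ≠ 1) :
    Phi l ζ x (1 - x) = 0 :=
  finsum_eq_zero_of_forall_eq_zero fun v => tame_steinberg hl hζ v.2 hx hx1

/-- weak approximation with a precision for each prime -/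
theorem wa' (T : Finset (Pr E)) (a : Pr E → E) (n : Pr E → ℤ) :
    ∃ x : E, x ≠ 0 ∧ ∀ v ∈ T, v.valuation E (x - a v) ≤ WithZero.exp (n v) := by
  obtain ⟨n0, h0⟩ := (T.finite_toSet.image n).bddBelow
  obtain ⟨x, hx, h1, -⟩ := wa T a n0
  exact ⟨x, hx, fun v hv => (h1 v hv).trans (WithZero.exp_le_exp.2 (h0 ⟨v, hv, rfl⟩))⟩

/-- prescribed valuations at finitely many primes -/
theorem exists_ord (T : Finset (Pr E)) (n : Pr E → ℤ) :
    ∃ z : E, z ≠ 0 ∧ ∀ v ∈ T, ord v z = n v := by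
  choose ϖ h0 h1 using fun v : Pr E => exists_ord_eq_one v
  obtain ⟨z, hz, h⟩ := wa' T (fun v => (ϖ v : E) ^ n v) fun v => -n v - 1
  refine ⟨z, hz, fun v hv => ?_⟩
  have h2 : ((ϖ v : E)) ^ n v ≠ 0 := zpow_ne_zero _ (by simpa using h0 v)
  have h3 : ord v ((ϖ v : E) ^ n v) = n v := by rw [ord_zpow, h1, mul_one]
  refine (ord_of_sub ((h v hv).trans_lt ?_)).2.trans h3
  rw [val_eq_exp v h2, h3, WithZero.exp_lt_exp]
  omega

section Ext

variable {E' : Type} [Field E'] [NumberField E'] [Algebra E E']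

theorem ef_pos [IsGalois E E'] {v : Pr E} {w : Pr E'} (h : w.asIdeal.LiesOver v.asIdeal) :
    0 < w.asIdeal.ramificationIdx (𝓞 E) ∧ 0 < w.asIdeal.inertiaDeg (𝓞 E) := by
  have := Nat.pos_of_dvd_of_pos (ef_dvd h) Module.finrank_pos
  exact ⟨Nat.pos_of_mul_pos_right this, Nat.pos_of_mul_pos_left this⟩

omit [NumberField E] [NumberField E'] in
theorem mem_over {v : Pr E} {w : Pr E'} (h : w.asIdeal.LiesOver v.asIdeal) (a : 𝓞 E) :
    algebraMap (𝓞 E) (𝓞 E') a ∈ w.asIdeal ↔ a ∈ v.asIdeal :=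
  (Ideal.mem_of_liesOver w.asIdeal v.asIdeal a).symm

omit [NumberField E] [NumberField E'] in
theorem nat_over {v : Pr E} {w : Pr E'} (h : w.asIdeal.LiesOver v.asIdeal) (n : ℕ) :
    (n : 𝓞 E') ∈ w.asIdeal ↔ (n : 𝓞 E) ∈ v.asIdeal := by
  rw [← mem_over h, map_natCast]

omit [NumberField E] [NumberField E'] in
theorem under_unique {v v' : Pr E} {w : Pr E'} (h : w.asIdeal.LiesOver v.asIdeal)
    (h' : w.asIdeal.LiesOver v'.asIdeal) : v = v' :=
  HeightOneSpectrum.ext (h.over.trans h'.over.symm)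

omit [NumberField E] [NumberField E'] in
theorem act_over {v : Pr E} {w : Pr E'} (h : w.asIdeal.LiesOver v.asIdeal) (σ : E' ≃ₐ[E] E') :
    (act (σ : E' ≃+* E') w).asIdeal.LiesOver v.asIdeal := by
  refine ⟨Ideal.ext fun a => ?_⟩
  rw [Ideal.under_def, Ideal.mem_comap, mem_act, ← mem_over h]
  congr! 1
  apply RingOfIntegers.coe_injective
  exact (σ.symm.commutes a).symm

theorem val_lt_over [IsGalois E E'] {v : Pr E} {w : Pr E'} (h : w.asIdeal.LiesOver v.asIdeal)
    (x : E) : w.valuation E' (algebraMap E E' x) < 1 ↔ v.valuation E x < 1 := by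
  rcases eq_or_ne x 0 with rfl | hx
  · simp
  · rw [val_lt_one_iff w ((map_ne_zero _).2 hx), val_lt_one_iff v hx, ord_over h,
      mul_pos_iff_of_pos_left (by exact_mod_cast (ef_pos h).1)]

/-- a prime moved by an automorphism is unramified -/
theorem e_one_of_ne [IsGalois E E'] (hd : Module.finrank E E' = l) {v : Pr E} {w : Pr E'}
    (h : w.asIdeal.LiesOver v.asIdeal) {σ : E' ≃ₐ[E] E'} (hne : act (σ : E' ≃+* E') w ≠ w) :
    w.asIdeal.ramificationIdx (𝓞 E) = 1 := by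
  classical
  have hp : l.Prime := Fact.out
  refine ((Nat.dvd_prime hp).1 ((Dvd.intro _ rfl).trans (hd ▸ ef_dvd h))).resolve_right fun he => ?_
  obtain ⟨ϖ, h0, h1⟩ := exists_ord_eq_one v
  have h0' : (ϖ : E) ≠ 0 := by simpa using h0
  have h2 := ord_norm v (x := algebraMap E E' ϖ) ((map_ne_zero _).2 h0')
  rw [Algebra.norm_algebraMap, ord_pow, h1, hd, mul_one] at h2
  set g : Pr E' → ℤ := fun w' => if w'.asIdeal.LiesOver v.asIdeal then
    (w'.asIdeal.inertiaDeg (𝓞 E) : ℤ) * ord w' (algebraMap E E' ϖ) else 0 with hg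
  have hpos : ∀ w' : Pr E', w'.asIdeal.LiesOver v.asIdeal →
      (w'.asIdeal.ramificationIdx (𝓞 E) : ℤ) ≤ g w' := fun w' hw => by
    simp only [hg, if_pos hw, ord_over hw, h1, mul_one]
    exact le_mul_of_one_le_left (by positivity) (by exact_mod_cast (ef_pos hw).2)
  have hnn : ∀ w', 0 ≤ g w' := fun w' => by
    by_cases hw : w'.asIdeal.LiesOver v.asIdeal
    · exact le_trans (by positivity) (hpos w' hw)
    · simp only [hg, if_neg hw, le_refl]
  have hfin : (Function.support g).Finite := (ord_finite (algebraMap E E' ϖ)).subset fun w' hw e =>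
    hw (by simp only [hg, e, mul_zero, ite_self])
  rw [finsum_eq_sum_of_support_subset (s := hfin.toFinset ∪ {act (σ : E' ≃+* E') w, w}) g
    (fun w' hw => by simp [hw])] at h2
  have h3 := Finset.sum_le_sum_of_subset_of_nonneg
    (Finset.subset_union_right (s₁ := hfin.toFinset) (s₂ := {act (σ : E' ≃+* E') w, w}))
    fun w' _ _ => hnn w'
  rw [Finset.sum_pair hne, ← h2] at h3
  have h4 := hpos w h
  have h5 := hpos _ (act_over h σ)
  have h6 := (ef_pos (act_over h σ)).1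
  omega

/-- a primary element splits at the wild primes -/
theorem wild_split [IsGalois E E'] (hζ : IsPrimitiveRoot ζ l) {β : E} (hβ : β ≠ 1) {θ : E'}
    (hθ : θ ^ l = algebraMap E E' β) {σ : E' ≃ₐ[E] E'} (hσ : σ θ = algebraMap E E' ζ * θ)
    {v : Pr E} (hv : ¬Tm l v) (h1 : v.valuation E (β - 1) ≤ v.valuation E (1 - ζ) ^ (l + 1))
    {w : Pr E'} (h : w.asIdeal.LiesOver v.asIdeal) : act (σ : E' ≃+* E') w ≠ w := by
  intro hw
  have hp : l.Prime := Fact.out
  have hζ' : IsPrimitiveRoot (algebraMap E E' ζ) l := hζ.map_of_injective (algebraMap E E').injective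
  have hz : 1 - ζ ≠ 0 := sub_ne_zero.2 (hζ.ne_one hp.one_lt).symm
  have hb : β - 1 ≠ 0 := sub_ne_zero.2 hβ
  have hinv : ∀ x : E', w.valuation E' (σ x) = w.valuation E' x := fun x => by
    have := val_act (σ : E' ≃+* E') w x
    rwa [hw] at this
  have hi : ∀ i : ℕ, w.valuation E' (1 - algebraMap E E' ζ ^ i * θ) = w.valuation E' (1 - θ) := by
    intro i
    induction i with
    | zero => rw [pow_zero, one_mul]
    | succ i ih =>
      rw [← ih, ← hinv (1 - algebraMap E E' ζ ^ i * θ), map_sub σ, map_one σ, map_mul σ, map_pow σ,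
        σ.commutes, hσ, pow_succ, mul_assoc]
  have hprod := congrArg (Polynomial.eval 1) (X_pow_sub_C_eq_prod hζ' hp.pos hθ)
  simp only [Polynomial.eval_sub, Polynomial.eval_pow, Polynomial.eval_X, Polynomial.eval_C,
    one_pow, Polynomial.eval_prod] at hprod
  have h2 : w.valuation E' (1 - algebraMap E E' β) = w.valuation E' (1 - θ) ^ l := by
    rw [hprod, map_prod, Finset.prod_congr rfl fun i _ => hi i, Finset.prod_const,
      Finset.card_range]
  have hz' : 1 - algebraMap E E' ζ ≠ 0 := sub_ne_zero.2 (hζ'.ne_one hp.one_lt).symm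
  have hs : w.valuation E' (1 - algebraMap E E' ζ) < 1 :=
    val_one_sub_lt hζ' (mt (tm_over h).1 hv)
  have h3 : w.valuation E' (1 - algebraMap E E' β) ≤
      w.valuation E' (1 - algebraMap E E' ζ) ^ (l + 1) := by
    rw [← map_pow, val_le_iff v hb (pow_ne_zero _ hz)] at h1
    rw [Valuation.map_sub_swap, ← map_pow, ← map_one (algebraMap E E'), ← map_sub, ← map_sub,
      ← map_pow, val_le_iff w ((map_ne_zero _).2 hb) ((map_ne_zero _).2 (pow_ne_zero _ hz)),
      ord_over h, ord_over h]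
    exact mul_le_mul_of_nonneg_left h1 (by positivity)
  have hs0 : w.valuation E' (1 - algebraMap E E' ζ) ≠ 0 := (Valuation.ne_zero_iff _).2 hz'
  have h4 : w.valuation E' (1 - θ) < w.valuation E' (1 - algebraMap E E' ζ) := by
    refine lt_of_pow_lt_pow_left₀ l zero_le ((h2 ▸ h3).trans_lt ?_)
    rw [pow_succ]
    exact mul_lt_of_lt_one_right (pow_pos (zero_lt_iff.2 hs0) l) hs
  have h5 : w.valuation E' θ = 1 := by
    have := Valuation.map_one_sub_of_lt (w.valuation E') (h4.trans hs)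
    rwa [sub_sub_cancel] at this
  have h6 := Valuation.map_sub (w.valuation E') (1 - algebraMap E E' ζ ^ 1 * θ) (1 - θ)
  rw [hi, max_self, show 1 - algebraMap E E' ζ ^ 1 * θ - (1 - θ) = (1 - algebraMap E E' ζ) * θ by
    ring, map_mul, h5, mul_one] at h6
  exact absurd h4 (not_lt.2 h6)

end Ext

end Pool.Agent.MP_14ad9d_nt.Full.R0Aux
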