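import Pool.Agent.MP_14ad9d_nt.Full.R01
import Pool.Agent.MP_14ad9d_nt.Full.WC

set_option autoImplicit false

open NumberField IsDedekindDomain

namespace Pool.Agent.MP_14ad9d_nt.Full.R0Aux

variable {l : ℕ} [Fact l.Prime] {E : Type} [Field E] [NumberField E] {ζ : E}

section Ext

variable {E' : Type} [Field E'] [NumberField E'] [Algebra E E']

/-- an element that becomes an `l`-th power is a local power or the prime is inert -/
theorem tame_of_root (hl : 2 < l) (hζ : IsPrimitiveRoot ζ l) {x : E} (hx : x ≠ 0) {θ : E'}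
    (hθ : θ ^ l = algebraMap E E' x) {v : Pr E} (hv : Tm l v) (h0 : (l : ℤ) ∣ ord v x) {ϖ : E}
    (hϖ0 : ϖ ≠ 0) (hϖ : ord v ϖ = 1) {w : Pr E'} (h : w.asIdeal.LiesOver v.asIdeal) :
    (w.asIdeal.inertiaDeg (𝓞 E) : ZMod l) * tame l ζ v x ϖ = 0 := by
  have hp : l.Prime := Fact.out
  have hζ' : IsPrimitiveRoot (algebraMap E E' ζ) l := hζ.map_of_injective (algebraMap E E').injective
  obtain ⟨k, hk⟩ := h0
  have h1 : ϖ ^ k ≠ 0 := zpow_ne_zero _ hϖ0
  have h2 : x / (ϖ ^ k) ^ l ≠ 0 := div_ne_zero hx (pow_ne_zero _ h1)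
  have h3 : ord v (x / (ϖ ^ k) ^ l) = 0 := by
    rw [ord_div v hx (pow_ne_zero _ h1), ord_pow, ord_zpow, hϖ, hk, mul_one, sub_self]
  have h4 := tame_mul_left hl hζ hv h2 (pow_ne_zero l h1) hϖ0
  rw [div_mul_cancel₀ x (pow_ne_zero _ h1), tame_pow_left hl hζ hv h1 hϖ0, ZMod.natCast_self,
    zero_mul, add_zero, tame_unit hl hζ hv h2 h3, hϖ, Int.cast_one, one_mul] at h4
  have h5 : (θ / algebraMap E E' (ϖ ^ k)) ^ l = algebraMap E E' (x / (ϖ ^ k) ^ l) := by
    rw [div_pow, hθ, map_div₀, map_pow]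
  have h6 : θ / algebraMap E E' (ϖ ^ k) ≠ 0 := fun e => by
    rw [e, zero_pow hp.ne_zero] at h5
    exact (map_ne_zero _).2 h2 h5.symm
  have h7 : ord w (θ / algebraMap E E' (ϖ ^ k)) = 0 := by
    have := ord_over h (x / (ϖ ^ k) ^ l)
    rw [← h5, ord_pow, h3, mul_zero] at this
    exact (mul_eq_zero.1 this).resolve_left (by exact_mod_cast hp.ne_zero)
  rw [h4, ← chi_over hζ hv h h2 h3, ← h5, chi_pow hζ' ((tm_over h).2 hv) h6 h7, ZMod.natCast_self,
    zero_mul]

/-- tame primes at which the radicand has valuation divisible by `l` are unramified -/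
theorem unr_tame [IsGalois E E'] (hl : 2 < l) (hζ : IsPrimitiveRoot ζ l)
    (hd : Module.finrank E E' = l) {x : E} (hx : x ≠ 0) {θ : E'}
    (hθ : θ ^ l = algebraMap E E' x) {σ : E' ≃ₐ[E] E'} (hσ : σ θ = algebraMap E E' ζ * θ)
    {v : Pr E} (hv : Tm l v) (h0 : (l : ℤ) ∣ ord v x) {w : Pr E'}
    (h : w.asIdeal.LiesOver v.asIdeal) : w.asIdeal.ramificationIdx (𝓞 E) = 1 := by
  have hp : l.Prime := Fact.out
  obtain ⟨ϖ, h1, h2⟩ := exists_ord_eq_one v
  have h1' : (ϖ : E) ≠ 0 := by simpa using h1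
  have h3 := hd ▸ ef_dvd h
  refine ((Nat.dvd_prime hp).1 ((Dvd.intro _ rfl).trans h3)).resolve_right fun he => ?_
  have hf : w.asIdeal.inertiaDeg (𝓞 E) = 1 := by
    rw [he] at h3
    exact Nat.dvd_one.1 ((Nat.mul_dvd_mul_iff_left hp.pos).1 (by rwa [mul_one]))
  have h4 := tame_of_root hl hζ hx hθ hv h0 h1' h2 h
  rw [hf, Nat.cast_one, one_mul] at h4
  have h5 := e_one_of_ne hd h (split_of_chi hl hζ hd hx hθ hσ hv h0 h2 h4 h).1
  omega

/-- sums over the primes upstairs in terms of the norm -/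
theorem push_down [IsGalois E E'] (u : Pr E' → Pr E)
    (hu : ∀ w : Pr E', w.asIdeal.LiesOver (u w).asIdeal) (χ : Pr E → ZMod l) {a : E'} (ha : a ≠ 0) :
    ∑ᶠ w, ord w a • ((w.asIdeal.inertiaDeg (𝓞 E) : ZMod l) * χ (u w)) =
      ∑ᶠ v, (ord v (Algebra.norm E a) : ZMod l) * χ v := by
  classical
  set S := (ord_finite a).toFinset with hS
  have hS' : ∀ w, w ∉ S → ord w a = 0 := fun w hw => by simpa [hS] using hw
  have h1 : ∀ v, ord v (Algebra.norm E a) =
      ∑ w ∈ S with u w = v, (w.asIdeal.inertiaDeg (𝓞 E) : ℤ) * ord w a := fun v => by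
    rw [ord_norm v ha, finsum_eq_sum_of_support_subset (s := S) _ fun w hw => by
      by_contra h
      exact hw (by simp only [hS' w h, mul_zero, ite_self]), Finset.sum_filter]
    refine Finset.sum_congr rfl fun w _ => if_congr ⟨fun h => under_unique (hu w) h, ?_⟩ rfl rfl
    rintro rfl
    exact hu w
  rw [finsum_eq_sum_of_support_subset (s := S) _ fun w hw => by
      by_contra h
      exact hw (by simp only [hS' w h, zero_smul]),
    finsum_eq_sum_of_support_subset (s := S.image u) _ fun v hv => by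
      by_contra h
      refine hv ?_
      beta_reduce
      rw [h1, Finset.filter_eq_empty_iff.2 fun w hw e => h (by
        rw [← e]; exact Finset.mem_coe.2 (Finset.mem_image_of_mem u hw))]
      simp,
    ← Finset.sum_fiberwise_of_maps_to (fun w hw => Finset.mem_image_of_mem u hw)]
  refine Finset.sum_congr rfl fun v _ => ?_
  rw [h1, Int.cast_sum, Finset.sum_mul]
  refine Finset.sum_congr rfl fun w hw => ?_
  rw [(Finset.mem_filter.1 hw).2, zsmul_eq_mul]
  push_cast
  ring

/-- the norm of an element congruent to one -/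
theorem norm_near_one [IsGalois E E'] {v : Pr E} {a : E'}
    (h : ∀ w : Pr E', w.asIdeal.LiesOver v.asIdeal → w.valuation E' (a - 1) < 1) :
    v.valuation E (Algebra.norm E a - 1) < 1 := by
  obtain ⟨w, hw⟩ := exists_over (E' := E') v
  rw [← val_lt_over hw, map_sub, map_one, Algebra.norm_eq_prod_automorphisms]
  refine Finset.prod_induction _ (fun x => w.valuation E' (x - 1) < 1) (fun x y hx hy => ?_)
    (by simp) fun σ _ => ?_
  · have h1 : w.valuation E' y = 1 := by
      have := Valuation.map_one_add_of_lt _ hy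
      rwa [add_sub_cancel] at this
    rw [show x * y - 1 = (x - 1) * y + (y - 1) by ring]
    refine Valuation.map_add_lt _ ?_ hy
    rwa [map_mul, h1, mul_one]
  · have h1 := val_act (σ.symm : E' ≃+* E') w (σ a - 1)
    rw [← h1]
    convert h _ (act_over hw σ.symm) using 2
    simp

end Ext

theorem chi_prod (hζ : IsPrimitiveRoot ζ l) {r : Pr E} (hr : Tm l r) {ι : Type} (S : Finset ι)
    (n k : ι → ℕ) (h : ((∏ i ∈ S, n i ^ k i : ℕ) : 𝓞 E) ∉ r.asIdeal) :
    chi l ζ r ((∏ i ∈ S, n i ^ k i : ℕ) : E) = ∑ i ∈ S, (k i : ZMod l) * chi l ζ r (n i : E) := by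
  classical
  have key : ∀ a : ℕ, (a : 𝓞 E) ∉ r.asIdeal → (a : E) ≠ 0 ∧ ord r (a : E) = 0 := fun a ha => by
    have h0 : (a : 𝓞 E) ≠ 0 := fun e => ha (e ▸ zero_mem _)
    exact ⟨by exact_mod_cast h0, by simpa using (ord_eq_zero_iff r h0).2 ha⟩
  induction S using Finset.induction_on with
  | empty => simpa using chi_one hζ hr
  | insert i S hi ih =>
    rw [Finset.prod_insert hi, Nat.cast_mul] at h
    have h1 := key _ fun e => h (r.asIdeal.mul_mem_right _ e)
    have h2' : ((∏ i ∈ S, n i ^ k i : ℕ) : 𝓞 E) ∉ r.asIdeal := fun e => h (r.asIdeal.mul_mem_left _ e)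
    have h2 := key _ h2'
    rw [Finset.prod_insert hi, Finset.sum_insert hi, Nat.cast_mul,
      chi_mul hζ hr h1.1 h2.1 h1.2 h2.2, ih h2']
    congr 1
    rcases Nat.eq_zero_or_pos (k i) with e | e
    · simp [e, chi_one hζ hr]
    · have h3 := key (n i) fun e' => by
        refine h (r.asIdeal.mul_mem_right _ ?_)
        rw [Nat.cast_pow]
        exact r.asIdeal.pow_mem_of_mem e' _ e
      rw [Nat.cast_pow, chi_pow hζ hr h3.1 h3.2]

/-- the character of conductor `p` composed with the absolute norm is a ray class character -/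
theorem sum_chi_norm (hl : 2 < l) (hζ : IsPrimitiveRoot ζ l) {r : Pr E} (hr : Tm l r) {p : ℕ}
    (hp : (p : 𝓞 E) ∈ r.asIdeal) {L : Type} [Field L] [NumberField L] {a : 𝓞 L} (ha : a ≠ 0)
    (h1 : (p : 𝓞 L) ∣ a - 1) :
    ∑ᶠ q : Pr L, ord q (a : L) • chi l ζ r ((Ideal.absNorm q.asIdeal : ℕ) : E) = 0 := by
  classical
  set S := (ord_finite (a : L)).toFinset with hS
  have hS' : ∀ w, w ∉ S → ord w (a : L) = 0 := fun w hw => by simpa [hS] using hw
  have hc : ∀ q : Pr L, ord q (a : L) = ((Associates.mk q.asIdeal).count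
      (Associates.mk (Ideal.span {a})).factors : ℕ) := fun q => by
    rw [ord, show q.valuation L (a : L) = _ from q.valuation_of_algebraMap a,
      q.intValuation_if_neg ha, WithZero.log_exp, neg_neg]
  have h2 := Ideal.finprod_heightOneSpectrum_factorization (I := Ideal.span {a}) (by simpa using ha)
  rw [finprod_eq_prod_of_mulSupport_subset (s := S) _ fun w hw => by
    by_contra h
    refine hw ?_
    have := hS' w h
    rw [hc, Nat.cast_eq_zero] at this
    simp only [HeightOneSpectrum.maxPowDividing, this, pow_zero]] at h2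
  have h3 := congrArg Ideal.absNorm h2
  rw [map_prod, Ideal.absNorm_span_singleton] at h3
  simp only [HeightOneSpectrum.maxPowDividing, map_pow] at h3
  obtain ⟨b, hb⟩ := h1
  obtain ⟨c, hc'⟩ := Algebra.norm_one_add_smul (p : ℤ) b
  rw [show 1 + (p : ℤ) • b = a by rw [zsmul_eq_mul, Int.cast_natCast, ← hb]; ring] at hc'
  have h4 : ((Algebra.norm ℤ a : ℤ) : 𝓞 E) - 1 ∈ r.asIdeal := by
    rw [hc']
    convert r.asIdeal.mul_mem_left ((Algebra.trace ℤ (𝓞 L) b + c * p : ℤ) : 𝓞 E) hp using 1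
    push_cast
    ring
  have h5 : r.valuation E (((Algebra.norm ℤ a : ℤ) : E) - 1) < 1 := by
    simpa using (r.valuation_lt_one_iff_mem (K := E) _).2 h4
  have h6 := chi_near_one hζ hr h5
  obtain ⟨h7, h8⟩ := ord_near_one h5
  have h9 : ((Algebra.norm ℤ a : ℤ) : 𝓞 E) ∉ r.asIdeal := fun e =>
    r.isPrime.ne_top ((Ideal.eq_top_iff_one _).2 (by simpa using sub_mem e h4))
  have h10 : (((Algebra.norm ℤ a).natAbs : ℕ) : 𝓞 E) ∉ r.asIdeal ∧
      chi l ζ r (((Algebra.norm ℤ a).natAbs : ℕ) : E) = 0 := by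
    rcases Int.natAbs_eq (Algebra.norm ℤ a) with e | e
    · rw [← Int.cast_natCast, ← Int.cast_natCast (R := E), ← e]
      exact ⟨h9, h6⟩
    · rw [← neg_eq_iff_eq_neg] at e
      rw [← Int.cast_natCast, ← Int.cast_natCast (R := E), ← e, Int.cast_neg, Int.cast_neg,
        neg_mem_iff, neg_eq_neg_one_mul, chi_mul hζ hr (by simp) h7 (by rw [ord_neg, ord_one]) h8,
        chi_neg_one hl hζ hr, h6, add_zero]
      exact ⟨h9, rfl⟩
  rw [← h3] at h10
  rw [finsum_eq_sum_of_support_subset (s := S) _ fun w hw => by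
    by_contra h
    exact hw (by simp only [hS' w h, zero_smul]), ← h10.2, chi_prod hζ hr S _ _ h10.1]
  refine Finset.sum_congr rfl fun q _ => ?_
  rw [hc, zsmul_eq_mul, Int.cast_natCast]

end Pool.Agent.MP_14ad9d_nt.Full.R0Aux
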