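import Pool.Agent.MP_14ad9d_nt.Full.HDefs
import Pool.Agent.MP_14ad9d_nt.Full.ODefs

set_option autoImplicit false

open NumberField IsDedekindDomain

namespace Pool.Agent.MP_14ad9d_nt.Full

section Symbols

variable {E : Type} [Field E] [NumberField E]

/-- a prime that does not divide `l` -/
def Tm (l : ℕ) (v : Pr E) : Prop := (l : 𝓞 E) ∉ v.asIdeal

open Classical in
/-- the power residue symbol, written additively -/
noncomputable def chi (l : ℕ) (ζ : E) (v : Pr E) (x : E) : ZMod l :=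
  if h : ∃ i : ZMod l, v.valuation E (x ^ ((Ideal.absNorm v.asIdeal - 1) / l) - ζ ^ i.val) < 1
  then h.choose else 0

/-- the tame symbol -/
noncomputable def tame (l : ℕ) (ζ : E) (v : Pr E) (x y : E) : ZMod l :=
  chi l ζ v (x ^ ord v y / y ^ ord v x)

/-- the sum of all tame symbols -/
noncomputable def Phi (l : ℕ) (ζ : E) (x y : E) : ZMod l :=
  ∑ᶠ v : {v : Pr E // Tm l v}, tame l ζ v.1 x y

/-- close to an `l`-th power at one prime -/
def NearAt (l : ℕ) (ζ : E) (k : ℕ) (v : Pr E) (x : E) : Prop :=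
  ∃ γ : E, γ ≠ 0 ∧ v.valuation E (x / γ ^ l - 1) ≤ v.valuation E (1 - ζ) ^ k

/-- close to an `l`-th power at all primes above `l` -/
def Near (l : ℕ) (ζ : E) (k : ℕ) (x : E) : Prop :=
  ∃ γ : E, γ ≠ 0 ∧ ∀ v : Pr E, ¬Tm l v →
    v.valuation E (x / γ ^ l - 1) ≤ v.valuation E (1 - ζ) ^ k

/-- transport of primes along a field isomorphism -/
noncomputable def act {E' : Type} [Field E'] (σ : E ≃+* E') (v : Pr E) : Pr E' :=
  HeightOneSpectrum.equivOfRingEquiv (RingOfIntegers.mapRingEquiv σ) v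

omit [NumberField E] in
theorem mem_act {E' : Type} [Field E'] (σ : E ≃+* E') (v : Pr E) (a : 𝓞 E') :
    a ∈ (act σ v).asIdeal ↔ (RingOfIntegers.mapRingEquiv σ).symm a ∈ v.asIdeal := Iff.rfl

omit [NumberField E] in
theorem tm_act {E' : Type} [Field E'] (σ : E ≃+* E') (l : ℕ) (v : Pr E) :
    Tm l (act σ v) ↔ Tm l v := by
  simp [Tm, mem_act]

end Symbols

/-- nonzero elements modulo `l`-th powers -/
abbrev Hm (l : ℕ) (K : Type) [Field K] : Type := ModN (Additive Kˣ) l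

open Classical in
/-- the class of an element modulo `l`-th powers -/
noncomputable def cls (l : ℕ) {K : Type} [Field K] (x : K) : Hm l K :=
  if h : x ≠ 0 then ModN.mkQ l (Additive.ofMul (Units.mk0 x h)) else 0

/-- the tame primes -/
abbrev TP (l : ℕ) (K : Type) [Field K] : Type := {v : Pr K // Tm l v}

noncomputable instance actTP (l : ℕ) (F K : Type) [Field F] [Field K] [Algebra F K] :
    MulAction (K ≃ₐ[F] K) (TP l K) where
  smul g v := ⟨act (g : K ≃+* K) v.1, (tm_act _ l v.1).2 v.2⟩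
  one_smul v := by
    apply Subtype.ext
    ext a
    exact Iff.rfl
  mul_smul g h v := by
    apply Subtype.ext
    ext a
    exact Iff.rfl

theorem smul_val (l : ℕ) (F K : Type) [Field F] [Field K] [Algebra F K] (g : K ≃ₐ[F] K)
    (v : TP l K) : (g • v).1 = act (g : K ≃+* K) v.1 := rfl

instance finFK (F K : Type) [Field F] [NumberField F] [Field K] [NumberField K] [Algebra F K] :
    FiniteDimensional F K := Module.Finite.of_restrictScalars_finite ℚ F K

/-- the arithmetic setting -/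
structure Setup (l : ℕ) (F K : Type) [Field F] [NumberField F] [Field K] [NumberField K]
    [Algebra F K] where
  ζ : F
  hζ : IsPrimitiveRoot ζ l
  ι : K ≃+* K
  ι_ι : ∀ x, ι (ι x) = x
  ι_ζ : ι (algebraMap F K ζ) = (algebraMap F K ζ)⁻¹
  ι_comm : ∀ (g : K ≃ₐ[F] K) (x : K), ι (g x) = g (ι x)
  card_lt : Fintype.card (K ≃ₐ[F] K) < l
  one_lt : 1 < Fintype.card (K ≃ₐ[F] K)
  deg : Module.finrank ℚ K = Fintype.card (K ≃ₐ[F] K) * (l - 1)
  v₀ : Pr K
  wild : ¬Tm l v₀
  trans : ∀ v : Pr K, ¬Tm l v → ∃ g : K ≃ₐ[F] K, act (g : K ≃+* K) v₀ = v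
  free : ∀ g : K ≃ₐ[F] K, act (g : K ≃+* K) v₀ = v₀ → g = 1
  res : Ideal.absNorm v₀.asIdeal = l
  ord_lam : ord v₀ (1 - algebraMap F K ζ) = 1
  ι_v₀ : act ι v₀ = v₀

/-- the root of unity in the top field -/
def Setup.z {l : ℕ} {F K : Type} [Field F] [NumberField F] [Field K] [NumberField K]
    [Algebra F K] (S : Setup l F K) : K := algebraMap F K S.ζ

/-- the abstract data are those of the number field -/
def Spec {l : ℕ} [Fact l.Prime] {F K : Type} [Field F] [NumberField F] [Field K] [NumberField K]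
    [Algebra F K] (S : Setup l F K) (M : Mach (ZMod l) (K ≃ₐ[F] K) (Hm l K) (TP l K)) : Prop :=
  (∀ g (x : K), M.ρ g (cls l x) = cls l (g x)) ∧
  (∀ p (x : K), M.ord p (cls l x) = (ord p.1 x : ZMod l)) ∧
  (∀ p (x y : K), x ≠ 0 → y ≠ 0 → M.tame p (cls l x) (cls l y) = tame l S.z p.1 x y) ∧
  (∀ x : K, x ≠ 0 → (cls l x ∈ M.Prim ↔ Near l S.z (l + 1) x)) ∧
  (∀ x : K, x ≠ 0 → (cls l x ∈ M.UL ↔ ∀ v : Pr K, ¬Tm l v → (l : ℤ) ∣ ord v x))

end Pool.Agent.MP_14ad9d_nt.Full
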