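import Pool.Agent.MP_14ad9d_nt.Sch
import Pool.Agent.MP_14ad9d_nt.Full.LDefs

set_option autoImplicit false

open NumberField

namespace Pool.Agent.MP_14ad9d_nt.Full.SchWAux

open AlgebraicGeometry CategoryTheory TopologicalSpace MvPolynomial
open Pool.Agent.MP_14ad9d_nt.Sch

attribute [local instance] MvPolynomial.gradedAlgebra

variable (p : ℕ) (m : ℕ) (𝓕 : Set (MvPolynomial (Fin m) ℤ))

/-- clearing denominators prime to `p` -/
theorem exists_vecL (hp : p.Prime) (η : Fin m → ℚ) (h : ∀ l, LInt p (η l)) :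
    ∃ n c : Option (Fin m) → ℤ, ∑ o, n o * c o = 1 ∧ IsCoprime (n none) (p : ℤ) ∧
      ∀ l, (n (some l) : ℚ) = n none * η l := by
  classical
  choose d hd hi using h
  have hi' : ∀ l, ∃ z : ℤ, (z : ℚ) = (d l : ℚ) * η l := fun l => by
    simpa using (IsIntegrallyClosed.isIntegral_iff (R := ℤ) (K := ℚ)).mp (hi l)
  choose z hz using hi'
  let D : ℤ := ∏ l, (d l : ℤ)
  have hD : IsCoprime D (p : ℤ) := by
    apply IsCoprime.prod_left
    intro l _
    exact Nat.isCoprime_iff_coprime.mpr (hd l)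
  let v : Option (Fin m) → ℤ := fun o =>
    o.elim D (fun l => (∏ k ∈ Finset.univ.erase l, (d k : ℤ)) * z l)
  have hv : ∀ l, (v (some l) : ℚ) = v none * η l := by
    intro l
    simp only [v, Option.elim, D]
    rw [← Finset.mul_prod_erase _ _ (Finset.mem_univ l)]
    push_cast
    rw [hz]
    ring
  obtain ⟨n, hn, hg⟩ := Finset.extract_gcd (s := Finset.univ) v ⟨none, Finset.mem_univ _⟩
  obtain ⟨c, hc⟩ := Finset.gcd_eq_sum_mul Finset.univ n
  have h0 : D = Finset.univ.gcd v * n none := hn none (Finset.mem_univ _)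
  have hg0 : (Finset.univ.gcd v : ℤ) ≠ 0 := by
    intro h
    rw [h, zero_mul] at h0
    rw [h0, isCoprime_zero_left, Int.isUnit_iff_natAbs_eq, Int.natAbs_natCast] at hD
    exact hp.one_lt.ne' hD
  refine ⟨n, c, by rw [← hc, hg], ?_, ?_⟩
  · rw [h0] at hD
    exact hD.of_mul_left_right
  · intro l
    have h1 := hv l
    rw [hn (some l) (Finset.mem_univ _), hn none (Finset.mem_univ _)] at h1
    push_cast at h1
    have : ((Finset.univ.gcd v : ℤ) : ℚ) ≠ 0 := by exact_mod_cast hg0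
    apply mul_left_cancel₀ this
    rw [h1]
    ring

/-- the open set: remove the hyperplane at infinity in the fibre over `p` -/
noncomputable def UL : (PP m).Opens :=
  Proj.basicOpen (gr m) (X none) ⊔ (pp m) ⁻¹ᵁ (PrimeSpectrum.basicOpen (p : ℤ))

theorem mem_UL {R : Type} [CommRing R] (g : Spec (CommRingCat.of R) ⟶ PP m)
    (x : Spec (CommRingCat.of R)) :
    g x ∈ UL p m ↔ g x ∈ Proj.basicOpen (gr m) (X none) ∨ (p : R) ∉ x.asIdeal := by
  have h : g ≫ pp m = Spec.map (CommRingCat.ofHom (Int.castRingHom R)) :=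
    specZIsTerminal.hom_ext _ _
  rw [UL, Opens.mem_sup]
  refine or_congr Iff.rfl ?_
  change pp m (g x) ∈ PrimeSpectrum.basicOpen (p : ℤ) ↔ _
  rw [← Scheme.Hom.comp_apply, h]
  change Int.castRingHom R (p : ℤ) ∉ x.asIdeal ↔ _
  simp

/-- the integral point attached to a rational point with denominators prime to `p` -/
theorem exists_sectionL (hp : p.Prime) (η : Fin m → ℚ) (h1 : ∀ f ∈ 𝓕, aeval η f = 0) (h2 : ∀ l, LInt p (η l)) :
    ∃ s : Spec (CommRingCat.of ℤ) ⟶ PP m, (∀ x, s x ∈ ZZ m 𝓕 ∧ s x ∈ UL p m) ∧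
      ∀ (S : Type) [Field S] [CharZero S], ∃ φ : RB m →+* S,
        (∀ l, φ (yy m l) = (η l : S)) ∧
        Spec.map (CommRingCat.ofHom (algebraMap ℤ S)) ≫ s =
          Spec.map (CommRingCat.ofHom φ) ≫ jj m := by
  obtain ⟨n, c, hc, hodd, hn⟩ := exists_vecL p m hp η h2
  obtain ⟨s, hs1, hs2⟩ := exists_point m n c hc
  have h0 : n none ≠ 0 := by
    rintro h
    rw [h, isCoprime_zero_left, Int.isUnit_iff_natAbs_eq, Int.natAbs_natCast] at hodd
    exact hp.one_lt.ne' hodd
  have key : ∀ (S : Type) [Field S] [CharZero S], ∃ φ : RB m →+* S,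
        (∀ l, φ (yy m l) = (η l : S)) ∧
        Spec.map (CommRingCat.ofHom (algebraMap ℤ S)) ≫ s =
          Spec.map (CommRingCat.ofHom φ) ≫ jj m := by
    intro S _ _
    have hS : (n none : S) ≠ 0 := by exact_mod_cast h0
    obtain ⟨φ, hφ, h⟩ := hs2 S hS.isUnit
    refine ⟨φ, fun l => ?_, h⟩
    apply mul_left_cancel₀ hS
    rw [hφ]
    have := congrArg (fun q : ℚ => (q : S)) (hn l)
    simpa using this
  refine ⟨s, fun x => ⟨?_, ?_⟩, key⟩
  · obtain ⟨φ, hφ, h⟩ := key ℚ
    have hd := dom (algebraMap ℤ ℚ) (algebraMap ℤ ℚ).injective_int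
    have hcl : IsClosed (s ⁻¹' (ZZ m 𝓕 : Set (PP m))) := (ZZ m 𝓕).isClosed.preimage s.continuous
    have hsub : Set.range (Spec.map (CommRingCat.ofHom (algebraMap ℤ ℚ))) ⊆
        s ⁻¹' (ZZ m 𝓕 : Set (PP m)) := by
      rintro _ ⟨y, rfl⟩
      rw [Set.mem_preimage, ← Scheme.Hom.comp_apply, h, Scheme.Hom.comp_apply, SetLike.mem_coe,
        mem_ZZ]
      intro f hf
      change φ (ev (yy m) f) ∈ y.asIdeal
      rw [hom_ev, funext hφ]
      have := h1 f hf
      rw [aeval_eq_ev] at this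
      simp only [Rat.cast_eq_id, id_eq]
      rw [this]
      exact zero_mem _
    have := closure_minimal hsub hcl
    rw [hd.denseRange.closure_range] at this
    exact this (Set.mem_univ x)
  · rw [mem_UL]
    by_cases hx : n none ∈ x.asIdeal
    · right
      intro h2
      obtain ⟨k, k', hk⟩ := hodd
      apply x.2.ne_top
      rw [Ideal.eq_top_iff_one, ← hk]
      exact add_mem (Ideal.mul_mem_left _ _ hx) (Ideal.mul_mem_left _ _ h2)
    · exact Or.inl (hs1 x hx)

/-- the generic point of an integral point has coordinates that are integral at `p` -/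
theorem exists_coordsL (hp : p.Prime) (K : Type) [Field K] [NumberField K]
    (g : Spec (CommRingCat.of (𝓞 K)) ⟶ PP m) (hg : ∀ x, g x ∈ UL p m) :
    ∃ φ : RB m →+* K, (∀ l, LInt p (φ (yy m l))) ∧
      Spec.map (CommRingCat.ofHom (algebraMap (𝓞 K) K)) ≫ g =
        Spec.map (CommRingCat.ofHom φ) ≫ jj m := by
  let M : Submonoid (𝓞 K) :=
    { carrier := {a | ∃ d : ℕ, d.Coprime p ∧ a = d}
      mul_mem' := by
        rintro _ _ ⟨d, hd, rfl⟩ ⟨e, he, rfl⟩
        exact ⟨d * e, Nat.Coprime.mul_left hd he, by push_cast; rfl⟩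
      one_mem' := ⟨1, Nat.coprime_one_left p, by simp⟩ }
  let R := Localization M
  have hM : ∀ y : M, IsUnit (algebraMap (𝓞 K) K y) := by
    rintro ⟨_, d, hd, rfl⟩
    have hd0 : d ≠ 0 := by
      rintro rfl
      rw [Nat.coprime_zero_left] at hd
      exact hp.one_lt.ne' hd
    have : (d : K) ≠ 0 := by exact_mod_cast hd0
    simpa using this
  let β : R →+* K := IsLocalization.lift hM
  have hβ : β.comp (algebraMap (𝓞 K) R) = algebraMap (𝓞 K) K := IsLocalization.lift_comp hM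
  have H : Set.range (Spec.map (CommRingCat.ofHom (algebraMap (𝓞 K) R)) ≫ g) ⊆
      Set.range (jj m) := by
    rintro _ ⟨y, rfl⟩
    rw [Scheme.Hom.comp_apply]
    have hy : (Spec.map (CommRingCat.ofHom (algebraMap (𝓞 K) R))) y ∈
        Set.range (PrimeSpectrum.comap (algebraMap (𝓞 K) R)) := ⟨y, rfl⟩
    rw [PrimeSpectrum.localization_comap_range R M] at hy
    set q : PrimeSpectrum (𝓞 K) := (Spec.map (CommRingCat.ofHom (algebraMap (𝓞 K) R))) y with hq
    have hle : q.asIdeal.comap (algebraMap ℤ (𝓞 K)) ≤ Ideal.span {(p : ℤ)} := by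
      intro a ha
      rw [Ideal.mem_span_singleton]
      by_contra hodd
      have hodd' : a.natAbs.Coprime p := by
        rw [Nat.coprime_comm, hp.coprime_iff_not_dvd, ← Int.natCast_dvd]
        exact hodd
      have ha' : ((a.natAbs : ℕ) : 𝓞 K) ∈ q.asIdeal := by
        have h1 : ((a : ℤ) : 𝓞 K) ∈ q.asIdeal := by simpa using ha
        rcases Int.natAbs_eq a with h | h
        · rw [h] at h1
          simpa using h1
        · rw [h] at h1
          simpa using h1
      exact Set.disjoint_left.mp hy ⟨a.natAbs, hodd', rfl⟩ ha'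
    have hp' : (Ideal.span {(p : ℤ)}).IsPrime :=
      (Ideal.span_singleton_prime (by exact_mod_cast hp.ne_zero)).mpr (Nat.prime_iff_prime_int.mp hp)
    obtain ⟨Q, hQ1, hQ2, hQ3⟩ := Ideal.exists_ideal_over_prime_of_isIntegral _ _ hle
    have h2 : (p : 𝓞 K) ∈ Q := by
      have : (p : ℤ) ∈ Q.comap (algebraMap ℤ (𝓞 K)) := by
        rw [hQ3]; exact Ideal.mem_span_singleton_self _
      simpa using this
    let Q' : Spec (CommRingCat.of (𝓞 K)) := (⟨Q, hQ2⟩ : PrimeSpectrum (𝓞 K))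
    have h3 : g Q' ∈ Proj.basicOpen (gr m) (X none) := by
      rcases (mem_UL p m g Q').mp (hg Q') with h | h
      · exact h
      · exact absurd h2 h
    have h4 : (q : Spec (CommRingCat.of (𝓞 K))) ⤳ Q' :=
      (PrimeSpectrum.le_iff_specializes _ _).mp hQ1
    have h5 := (h4.map g.continuous).mem_open (Proj.basicOpen (gr m) (X none)).isOpen h3
    rw [← Proj.opensRange_awayι (gr m) (X none) (hX m none) Nat.one_pos] at h5
    exact h5
  let u := IsOpenImmersion.lift _ _ H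
  have hu : u ≫ jj m = _ := IsOpenImmersion.lift_fac _ _ H
  obtain ⟨φ, hφ⟩ := Spec.map_surjective u
  refine ⟨β.comp φ.hom, fun l => ?_, ?_⟩
  · obtain ⟨⟨a, ⟨_, d, hd, rfl⟩⟩, h⟩ := IsLocalization.surj M (φ.hom (yy m l))
    refine ⟨d, hd, ?_⟩
    have h1 := congrArg β h
    simp only [map_mul, map_natCast] at h1
    rw [RingHom.comp_apply, mul_comm, h1, ← RingHom.comp_apply, hβ]
    exact a.2
  · rw [← hβ, CommRingCat.ofHom_comp, Spec.map_comp, Category.assoc, ← hu, ← hφ,
      CommRingCat.ofHom_comp, Spec.map_comp, Category.assoc]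
    rfl

/-- from points that are integral at `p` to a scheme of finite type -/
theorem schL' (hp : p.Prime) (K : Type) [Field K] [NumberField K]
    (hA : {η : Fin m → ℚ | (∀ f ∈ 𝓕, MvPolynomial.aeval η f = 0) ∧ ∀ l, LInt p (η l)}.Infinite)
    (hB : ∀ η : Fin m → K, (∀ f ∈ 𝓕, MvPolynomial.aeval η f = 0) → (∀ l, LInt p (η l)) →
      ∀ l, η l ∈ Set.range (algebraMap ℚ K)) : ConcS K := by
  obtain ⟨Y, κ, hmono, hft, hqc, hκ, hlift⟩ := exists_sub (PP m) (pp m) (ZZ m 𝓕) (UL p m)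
  have hsec : ∀ η : Fin m → ℚ, (∀ f ∈ 𝓕, MvPolynomial.aeval η f = 0) → (∀ l, LInt p (η l)) →
      ∃ t : Spec (CommRingCat.of ℤ) ⟶ Y, ∀ (S : Type) [Field S] [CharZero S],
        ∃ φ : RB m →+* S, (∀ l, φ (yy m l) = (η l : S)) ∧
        Spec.map (CommRingCat.ofHom (algebraMap ℤ S)) ≫ t ≫ κ =
          Spec.map (CommRingCat.ofHom φ) ≫ jj m := by
    intro η h1 h2
    obtain ⟨s, hs1, hs2⟩ := exists_sectionL p m 𝓕 hp η h1 h2
    obtain ⟨t, ht⟩ := hlift _ s hs1
    exact ⟨t, by rw [ht]; exact hs2⟩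
  have hsep : IsSeparated (pp m) := by
    unfold pp
    infer_instance
  refine ⟨Y, κ ≫ pp m, hft, hqc, inferInstance, ?_, ?_, ?_⟩
  · choose t ht using hsec
    have := hA.to_subtype
    refine Infinite.of_injective (fun η : {η : Fin m → ℚ |
      (∀ f ∈ 𝓕, MvPolynomial.aeval η f = 0) ∧ ∀ l, LInt p (η l)} => t η.1 η.2.1 η.2.2) ?_
    intro η η' h
    obtain ⟨φ, hφ, h1⟩ := ht η.1 η.2.1 η.2.2 ℚ
    obtain ⟨φ', hφ', h2⟩ := ht η'.1 η'.2.1 η'.2.2 ℚ
    simp only at h
    rw [h, h2, cancel_mono] at h1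
    have h3 : φ' = φ := congrArg CommRingCat.Hom.hom (Spec.map_injective h1)
    ext l
    have h4 := hφ l
    rw [← h3, hφ'] at h4
    simpa using h4.symm
  · intro g g' h
    have := dom (algebraMap ℤ (𝓞 K)) (algebraMap ℤ (𝓞 K)).injective_int
    rw [← cancel_mono κ]
    apply ext_of_isDominant (Spec.map (CommRingCat.ofHom (algebraMap ℤ (𝓞 K))))
    simp only at h
    rw [reassoc_of% h]
  · intro g
    obtain ⟨φ, hφ1, hφ2⟩ := exists_coordsL p m hp K (g ≫ κ) fun x => by
      rw [Scheme.Hom.comp_apply]; exact (hκ _).2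
    have hz : ∀ f ∈ 𝓕, MvPolynomial.aeval (fun l => φ (yy m l)) f = 0 := by
      intro f hf
      let x : Spec (CommRingCat.of K) := (⊥ : PrimeSpectrum K)
      have h1 : jj m (Spec.map (CommRingCat.ofHom φ) x) ∈ ZZ m 𝓕 := by
        rw [← Scheme.Hom.comp_apply, ← hφ2, Scheme.Hom.comp_apply, Scheme.Hom.comp_apply]
        exact (hκ _).1
      have h2 : φ (ev (yy m) f) ∈ (⊥ : Ideal K) := (mem_ZZ m 𝓕 _).mp h1 f hf
      rw [aeval_eq_ev, ← hom_ev]
      exact h2
    choose η hη using hB _ hz hφ1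
    have hη1 : ∀ f ∈ 𝓕, MvPolynomial.aeval η f = 0 := by
      intro f hf
      apply (algebraMap ℚ K).injective
      have h1 := hz f hf
      rw [← funext hη] at h1
      rw [map_zero, ← h1, aeval_eq_ev, aeval_eq_ev]
      have : (algebraMap ℚ K).comp (ev η) = ev fun l => algebraMap ℚ K (η l) := by
        apply ev_ext
        intro l
        simp
      exact congr($this f)
    have hη2 : ∀ l, LInt p (η l) := by
      intro l
      obtain ⟨d, hd, hi⟩ := hφ1 l
      refine ⟨d, hd, ?_⟩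
      rw [← isIntegral_algebraMap_iff (algebraMap ℚ K).injective, map_mul, map_natCast, hη]
      exact hi
    obtain ⟨t, ht⟩ := hsec η hη1 hη2
    obtain ⟨φ', hφ', h⟩ := ht K
    have hφφ : φ' = φ := hom_ext m fun l => by rw [hφ', ← hη]; simp
    refine ⟨t, ?_⟩
    have := dom (algebraMap (𝓞 K) K) (RingOfIntegers.coe_injective)
    rw [← cancel_mono κ]
    apply ext_of_isDominant (Spec.map (CommRingCat.ofHom (algebraMap (𝓞 K) K)))
    simp only [Category.assoc]
    rw [hφ2, ← hφφ, ← h, ← Category.assoc, ← Spec.map_comp, ← CommRingCat.ofHom_comp,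
      RingHom.ext_int ((algebraMap (𝓞 K) K).comp (algebraMap ℤ (𝓞 K))) (algebraMap ℤ K)]

end Pool.Agent.MP_14ad9d_nt.Full.SchWAux
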