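import Pool.Agent.MP_14ad9d_nt.Sch2
import Pool.Agent.MP_14ad9d_nt.Full.LDefs
import Pool.Agent.MP_14ad9d_nt.Full.SchW1

set_option autoImplicit false
set_option maxHeartbeats 400000

open NumberField

namespace Pool.Agent.MP_14ad9d_nt.Full

/-- from points that are integral at `l` to a scheme of finite type -/
theorem schL (l : ℕ) (hl : l.Prime) (K : Type) [Field K] [NumberField K] (m : ℕ)
    (𝓕 : Set (MvPolynomial (Fin m) ℤ))
    (hA : {η : Fin m → ℚ | (∀ f ∈ 𝓕, MvPolynomial.aeval η f = 0) ∧ ∀ i, LInt l (η i)}.Infinite)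
    (hB : ∀ η : Fin m → K, (∀ f ∈ 𝓕, MvPolynomial.aeval η f = 0) → (∀ i, LInt l (η i)) →
      ∀ i, η i ∈ Set.range (algebraMap ℚ K)) : ConcS K :=
  SchWAux.schL' l m 𝓕 hl K hA hB

namespace SchWAux

open MvPolynomial

theorem schT (l : ℕ) (hl : l.Prime) (K : Type) [Field K] [NumberField K] (τ : Type) [Fintype τ]
    (𝓕 : Set (MvPolynomial τ ℤ))
    (hA : {η : τ → ℚ | (∀ f ∈ 𝓕, aeval η f = 0) ∧ ∀ i, LInt l (η i)}.Infinite)
    (hB : ∀ η : τ → K, (∀ f ∈ 𝓕, aeval η f = 0) → (∀ i, LInt l (η i)) →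
      ∀ i, η i ∈ Set.range (algebraMap ℚ K)) : ConcS K := by
  let e := Fintype.equivFin τ
  refine schL l hl K (Fintype.card τ) (rename e '' 𝓕) ?_ ?_
  · refine Set.Infinite.of_image (fun η => η ∘ e) (hA.mono ?_)
    rintro η ⟨h1, h2⟩
    refine ⟨η ∘ e.symm, ⟨?_, fun i => h2 _⟩, ?_⟩
    · rintro _ ⟨f, hf, rfl⟩
      rw [aeval_rename]
      have : (η ∘ e.symm) ∘ e = η := by ext i; simp
      rw [this]
      exact h1 f hf
    · ext i; simp
  · intro η h1 h2 i
    have := hB (η ∘ e) (fun f hf => by rw [← aeval_rename]; exact h1 _ ⟨f, hf, rfl⟩)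
      (fun j => h2 _) (e.symm i)
    simpa using this

theorem lint_add {l : ℕ} {A : Type} [CommRing A] {u v : A} (hu : LInt l u) (hv : LInt l v) :
    LInt l (u + v) := by
  obtain ⟨d, hd, hi⟩ := hu
  obtain ⟨e, he, hj⟩ := hv
  refine ⟨d * e, Nat.Coprime.mul_left hd he, ?_⟩
  have : ((d * e : ℕ) : A) * (u + v) = (e : A) * ((d : A) * u) + (d : A) * ((e : A) * v) := by
    push_cast; ring
  rw [this]
  have hn : ∀ k : ℕ, IsIntegral ℤ (k : A) := fun k => by
    simpa using isIntegral_algebraMap (R := ℤ) (A := A) (x := (k : ℤ))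
  exact ((hn e).mul hi).add ((hn d).mul hj)

theorem lint_zero {l : ℕ} {A : Type} [CommRing A] : LInt l (0 : A) :=
  ⟨1, Nat.coprime_one_left l, by simpa using isIntegral_zero⟩

theorem lint_sum {l : ℕ} {A ι : Type} [CommRing A] (s : Finset ι) (u : ι → A)
    (hu : ∀ i ∈ s, LInt l (u i)) : LInt l (∑ i ∈ s, u i) :=
  Finset.sum_induction u (LInt l) (fun _ _ => lint_add) lint_zero hu

theorem lint_mul {l : ℕ} {A : Type} [CommRing A] {u w : A} (hu : LInt l u)
    (hw : IsIntegral ℤ w) : LInt l (u * w) := by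
  obtain ⟨d, hd, hi⟩ := hu
  exact ⟨d, hd, by rw [← mul_assoc]; exact hi.mul hw⟩

theorem lint_map {l : ℕ} {A B : Type} [CommRing A] [CommRing B] (f : A →+* B) {u : A}
    (hu : LInt l u) : LInt l (f u) := by
  obtain ⟨d, hd, hi⟩ := hu
  refine ⟨d, hd, ?_⟩
  have := map_isIntegral_int f hi
  rwa [map_mul, map_natCast] at this

/-- coordinates of a polynomial in a basis, with denominators cleared -/
theorem exists_decomp {F τ : Type} [Field F] [NumberField F] {n : ℕ}
    (b : Module.Basis (Fin n) ℚ F) (Q : MvPolynomial τ F) :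
    ∃ d : ℤ, d ≠ 0 ∧ ∃ P : Fin n → MvPolynomial τ ℤ,
      C (d : F) * Q = ∑ j, C (b j) * map (Int.castRingHom F) (P j) := by
  classical
  let S : MvPolynomial τ F → Prop := fun Q => ∃ d : ℤ, d ≠ 0 ∧ ∃ P : Fin n → MvPolynomial τ ℤ,
      C (d : F) * Q = ∑ j, C (b j) * map (Int.castRingHom F) (P j)
  have hadd : ∀ Q R, S Q → S R → S (Q + R) := by
    rintro Q R ⟨d, hd, P, hP⟩ ⟨d', hd', P', hP'⟩
    refine ⟨d * d', mul_ne_zero hd hd', fun j => C d' * P j + C d * P' j, ?_⟩
    have : C (((d * d' : ℤ)) : F) * (Q + R) =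
        C (d' : F) * (C (d : F) * Q) + C (d : F) * (C (d' : F) * R) := by
      rw [Int.cast_mul, map_mul]; ring
    rw [this, hP, hP', Finset.mul_sum, Finset.mul_sum, ← Finset.sum_add_distrib]
    refine Finset.sum_congr rfl fun j _ => ?_
    rw [map_add, map_mul, map_mul, map_C, map_C, eq_intCast (Int.castRingHom F),
      eq_intCast (Int.castRingHom F)]
    ring
  have hzero : S 0 := ⟨1, one_ne_zero, fun _ => 0, by simp⟩
  change S Q
  induction Q using MvPolynomial.induction_on with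
  | C a =>
    rw [← b.sum_repr a, map_sum]
    refine Finset.sum_induction _ S hadd hzero fun j _ => ?_
    refine ⟨(b.repr a j).den, by exact_mod_cast (b.repr a j).den_nz,
      Pi.single j (C (b.repr a j).num), ?_⟩
    rw [Finset.sum_eq_single j]
    · rw [Pi.single_eq_same, map_C, ← map_mul, ← map_mul]
      congr 1
      rw [Algebra.smul_def, eq_intCast, eq_ratCast, ← mul_assoc, mul_comm (b j)]
      congr 1
      rw [← Rat.cast_intCast (α := F), ← Rat.cast_intCast (α := F), ← Rat.cast_mul,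
        Int.cast_natCast, Rat.den_mul_eq_num]
    · intro k _ hk
      rw [Pi.single_eq_of_ne hk, map_zero, mul_zero]
    · intro h
      exact absurd (Finset.mem_univ j) h
  | add Q R hQ hR => exact hadd Q R hQ hR
  | mul_X Q i hQ =>
    obtain ⟨d, hd, P, hP⟩ := hQ
    refine ⟨d, hd, fun j => P j * X i, ?_⟩
    rw [← mul_assoc, hP, Finset.sum_mul]
    refine Finset.sum_congr rfl fun j _ => ?_
    rw [map_mul, map_X, mul_assoc]

/-- substitution of the basis expansion -/
noncomputable def subst {F σ : Type} [Field F] {n : ℕ} (b : Fin n → F) (q : MvPolynomial σ F) :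
    MvPolynomial (σ × Fin n) F :=
  aeval (fun i => ∑ j, X (i, j) * C (b j)) q

theorem eval_decomp {F σ L : Type} [Field F] [Field L] [Algebra F L] {n : ℕ} (b : Fin n → F)
    (q : MvPolynomial σ F) (d : ℤ) (P : Fin n → MvPolynomial (σ × Fin n) ℤ)
    (h : C (d : F) * subst b q = ∑ j, C (b j) * map (Int.castRingHom F) (P j))
    (v : σ × Fin n → L) :
    (d : L) * aeval (fun i => ∑ j, v (i, j) * algebraMap F L (b j)) q =
      ∑ j, aeval v (P j) * algebraMap F L (b j) := by
  have h1 := congrArg (aeval v : MvPolynomial (σ × Fin n) F →ₐ[F] L) h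
  rw [map_mul, aeval_C, map_intCast, subst, ← AlgHom.comp_apply, comp_aeval, map_sum] at h1
  simp only [map_sum, map_mul, aeval_X, aeval_C] at h1
  rw [h1]
  refine Finset.sum_congr rfl fun j _ => ?_
  rw [mul_comm]
  congr 1
  rw [aeval_def, aeval_def, eval₂_map]
  congr 1
  exact RingHom.ext_int _ _

theorem map_aeval_int {A B τ : Type} [CommRing A] [CommRing B] (f : A →+* B) (v : τ → A)
    (P : MvPolynomial τ ℤ) : f (aeval v P) = aeval (fun i => f (v i)) P := by
  rw [Sch.aeval_eq_ev, Sch.aeval_eq_ev]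
  have : f.comp (Sch.ev v) = Sch.ev fun i => f (v i) := by
    apply Sch.ev_ext
    intro l
    simp
  exact congr($this P)

end SchWAux

theorem SchWAux.exists_basis (l : ℕ) (F : Type) [Field F] [NumberField F] :
    ∃ (n : ℕ) (b : Module.Basis (Fin n) ℚ F), (∀ j, IsIntegral ℤ (b j)) ∧
      ∀ x : F, LInt l x → ∀ j, LInt l (b.repr x j) := by
  classical
  let ι := Module.Free.ChooseBasisIndex ℤ (𝓞 F)
  let e : ι ≃ Fin (Fintype.card ι) := Fintype.equivFin ι
  refine ⟨Fintype.card ι, (integralBasis F).reindex e, ?_, ?_⟩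
  · intro j
    rw [Module.Basis.reindex_apply, integralBasis_apply]
    exact RingOfIntegers.isIntegral_coe _
  · rintro x ⟨d, hd, hi⟩ j
    refine ⟨d, hd, ?_⟩
    rw [Module.Basis.repr_reindex_apply]
    have h1 : (d : ℚ) * (integralBasis F).repr x (e.symm j) =
        (integralBasis F).repr ((d : F) * x) (e.symm j) := by
      rw [← nsmul_eq_mul, ← nsmul_eq_mul, map_nsmul]
      rfl
    let y : 𝓞 F := ⟨(d : F) * x, hi⟩
    have h2 : (d : F) * x = algebraMap (𝓞 F) F y := rfl
    rw [h1, h2, integralBasis_repr_apply]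
    exact isIntegral_algebraMap

open MvPolynomial SchWAux in
/-- restriction of scalars -/
theorem schW (l : ℕ) (hl : l.Prime) (K₀ F K : Type) [Field K₀] [NumberField K₀] [Field F]
    [NumberField F] [Field K] [NumberField K] [Algebra F K] (f : K₀ →+* K)
    (hli : ∀ (n : ℕ) (b : Fin n → F), LinearIndependent ℚ b → ∀ c : Fin n → K₀,
      ∑ i, f (c i) * algebraMap F K (b i) = 0 → ∀ i, c i = 0)
    (σ : Type) [Fintype σ] (𝓖 : Set (MvPolynomial σ F))
    (hA : {η : σ → F | (∀ q ∈ 𝓖, MvPolynomial.aeval η q = 0) ∧ ∀ i, LInt l (η i)}.Infinite)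
    (hB : ∀ η : σ → K, (∀ q ∈ 𝓖, MvPolynomial.aeval η q = 0) → (∀ i, LInt l (η i)) →
      ∀ i, η i ∈ Set.range (algebraMap F K)) : ConcS K₀ := by
  classical
  obtain ⟨n, b, hbint, hrepr⟩ := exists_basis l F
  have hsum : ∀ x : F, ∑ j, ((b.repr x j : ℚ) : F) * b j = x := by
    intro x
    conv_rhs => rw [← b.sum_repr x]
    refine Finset.sum_congr rfl fun j _ => ?_
    rw [Algebra.smul_def, eq_ratCast]
  let 𝓕 : Set (MvPolynomial (σ × Fin n) ℤ) := {p | ∃ q ∈ 𝓖, ∃ d : ℤ, d ≠ 0 ∧
    ∃ P : Fin n → MvPolynomial (σ × Fin n) ℤ,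
      C (d : F) * subst b q = ∑ j, C (b j) * map (Int.castRingHom F) (P j) ∧ ∃ j, p = P j}
  refine schT l hl K₀ (σ × Fin n) 𝓕 ?_ ?_
  · refine Set.Infinite.of_image (fun c : σ × Fin n → ℚ => fun i => ∑ j, (c (i, j) : F) * b j)
      (hA.mono ?_)
    rintro η ⟨h1, h2⟩
    refine ⟨fun k => b.repr (η k.1) k.2, ⟨?_, fun k => hrepr _ (h2 _) _⟩, ?_⟩
    · rintro _ ⟨q, hq, d, hd, P, hP, j, rfl⟩
      have h3 := eval_decomp (L := F) b q d P hP fun k => ((b.repr (η k.1) k.2 : ℚ) : F)
      simp only [Algebra.algebraMap_self, RingHom.id_apply, hsum] at h3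
      rw [h1 q hq, mul_zero] at h3
      have h4 : ∑ j, (aeval (fun k : σ × Fin n => b.repr (η k.1) k.2) (P j)) • b j = 0 := by
        rw [h3]
        refine Finset.sum_congr rfl fun j _ => ?_
        rw [Algebra.smul_def, map_aeval_int (algebraMap ℚ F)]
        simp only [eq_ratCast]
      exact Fintype.linearIndependent_iff.mp b.linearIndependent _ h4 j
    · ext i
      exact hsum (η i)
  · intro c h1 h2 k
    let η : σ → K := fun i => ∑ j, f (c (i, j)) * algebraMap F K (b j)
    have hη1 : ∀ q ∈ 𝓖, aeval η q = 0 := by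
      intro q hq
      obtain ⟨d, hd, P, hP⟩ := exists_decomp b (subst b q)
      have h3 := eval_decomp (L := K) b q d P hP fun k => f (c k)
      have h4 : ∀ j, aeval (fun k => f (c k)) (P j) = 0 := by
        intro j
        rw [← map_aeval_int, h1 (P j) ⟨q, hq, d, hd, P, hP, j, rfl⟩, map_zero]
      simp only [h4, zero_mul, Finset.sum_const_zero] at h3
      have hd' : (d : K) ≠ 0 := by exact_mod_cast hd
      exact (mul_eq_zero.mp h3).resolve_left hd'
    have hη2 : ∀ i, LInt l (η i) := fun i =>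
      lint_sum _ _ fun j _ => lint_mul (lint_map f (h2 _)) (map_isIntegral_int _ (hbint j))
    obtain ⟨x, hx⟩ := hB η hη1 hη2 k.1
    have h5 := hli n b b.linearIndependent
      (fun j => c (k.1, j) - ((b.repr x j : ℚ) : K₀)) (by
        simp only [map_sub, sub_mul, Finset.sum_sub_distrib, map_ratCast]
        rw [sub_eq_zero]
        change η k.1 = _
        rw [← hx]
        conv_lhs => rw [← hsum x]
        simp only [map_sum, map_mul, map_ratCast]) k.2
    exact ⟨b.repr x k.2, by rw [eq_ratCast]; exact (sub_eq_zero.mp h5).symm⟩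

end Pool.Agent.MP_14ad9d_nt.Full
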