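import Pool.Agent.MP_14ad9d_nt.Full.Machine

/- The abstract half of the construction of the curve. -/

set_option autoImplicit false

namespace Pool.Agent.MP_14ad9d_nt.Full.SelMainAux

open Classical MachineAux

variable {k G H P : Type} [Field k] [Group G] [Fintype G] [AddCommGroup H] [Module k H]
  [MulAction G P] (M : Mach k G H P)

omit [Fintype G] in
theorem chi_smul (p : P) (t : k) (x : H) : M.chi p (t • x) = t * M.chi p x := by
  simp only [Mach.chi, map_smul, LinearMap.smul_apply, smul_eq_mul]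

theorem nrm_prim {x : H} (hx : x ∈ M.Prim) : nrm M.ρ x ∈ M.Prim := by
  rw [nrm_apply]
  exact Submodule.sum_mem _ fun g _ => M.Prim_stab g x hx

theorem nrm_inv {x : H} (hx : ∀ g, M.ρ g x = x) : nrm M.ρ x = (Fintype.card G : k) • x := by
  simp only [nrm_apply, hx, Finset.sum_const, Finset.card_univ, Nat.cast_smul_eq_nsmul]

theorem ord_nrm_zero {S : Finset P} (hS : ∀ g : G, ∀ p ∈ S, g • p ∈ S) {x : H}
    (hx : ∀ p ∈ S, M.ord p x = 0) {p : P} (hp : p ∈ S) : M.ord p (nrm M.ρ x) = 0 := by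
  rw [nrm_apply, map_sum]
  exact Finset.sum_eq_zero fun g _ => by rw [ord_act', hx _ (hS _ p hp)]

theorem chi_nrm {S : Finset P} (hS : ∀ g : G, ∀ p ∈ S, g • p ∈ S) {x : H}
    (hx : ∀ p ∈ S, M.ord p x = 0) {p : P} (hp : p ∈ S) :
    M.chi p (nrm M.ρ x) = ∑ g : G, M.chi (g⁻¹ • p) x := by
  have := chi_comb M p (fun _ => 1) x
  simp only [one_smul, one_mul, ← nrm_apply] at this
  rw [this]
  exact Finset.sum_congr rfl fun g _ => chi_act' M g (hx _ (hS _ p hp))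

theorem side {S : Finset P} (hS : ∀ g : G, ∀ p ∈ S, g • p ∈ S) {π θ ξ α : H} {τ : P → k}
    {p₁ : P} (hτ : ∀ g : G, ∀ p ∈ S, τ (g • p) = τ p) (hα : ∀ g, M.ρ g α = α)
    (hθ : θ - α ∈ M.Prim) (hξ : ξ ∈ M.Prim) (cθ : ∀ p ∈ S, M.chi p θ = τ p)
    (cξ : ∀ p ∈ S, M.ord p ξ = 0 ∧ M.chi p ξ = if p = p₁ then 1 else 0)
    (oπ : ∀ p ∈ S, M.ord p π = 0)
    (h1 : π + nrm M.ρ ξ - (θ + (Fintype.card G : k) • ξ) ∈ M.Prim)
    (h2 : ∀ p ∈ S, M.chi p (π + nrm M.ρ ξ) = M.chi p (θ + (Fintype.card G : k) • ξ)) :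
    π - α ∈ M.Prim ∧ nrm M.ρ π - (Fintype.card G : k) • α ∈ M.Prim ∧
      (∃ A : P → k, (∀ g : G, ∀ p ∈ S, A (g • p) = A p) ∧
        ∀ p ∈ S, M.chi p π = A p + if p = p₁ then (Fintype.card G : k) else 0) ∧
      ∀ p ∈ S, M.chi p (nrm M.ρ π) = Fintype.card G * τ p := by
  have a1 : π - α ∈ M.Prim := by
    have := add_mem (add_mem (sub_mem h1 (nrm_prim M hξ)) hθ)
      (M.Prim.smul_mem (Fintype.card G : k) hξ)
    convert this using 1
    abel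
  have a2 : ∀ g : G, ∀ p ∈ S, M.chi (g • p) (nrm M.ρ ξ) = M.chi p (nrm M.ρ ξ) := fun g p hp => by
    rw [← chi_act M g (ord_nrm_zero M hS (fun q hq => (cξ q hq).1) hp), act_nrm]
  have a3 : ∀ p ∈ S, M.chi p π =
      τ p - M.chi p (nrm M.ρ ξ) + Fintype.card G * M.chi p ξ := fun p hp => by
    have := h2 p hp
    rw [chi_add, chi_add, chi_smul, cθ p hp] at this
    linear_combination this
  refine ⟨a1, ?_, ⟨fun p => τ p - M.chi p (nrm M.ρ ξ), fun g p hp => ?_, fun p hp => ?_⟩,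
    fun p hp => ?_⟩
  · rw [← nrm_inv M hα, ← map_sub]
    exact nrm_prim M a1
  · simp only [hτ g p hp, a2 g p hp]
  · rw [a3 p hp, (cξ p hp).2, mul_ite, mul_one, mul_zero]
  · rw [chi_nrm M hS oπ hp, Finset.sum_congr rfl fun g _ => a3 _ (hS _ p hp)]
    simp only [hτ _ p hp, a2 _ p hp, Finset.sum_add_distrib, ← Finset.mul_sum]
    rw [← chi_nrm M hS (fun q hq => (cξ q hq).1) hp]
    simp only [Finset.sum_const, Finset.card_univ, nsmul_eq_mul]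
    ring

theorem core [Fintype k] (hcard : Fintype.card G < Fintype.card k)
    (hG : (Fintype.card G : k) ≠ 0) (h2 : (2 : k) ≠ 0) (hG1 : 1 < Fintype.card G)
    (L : Submodule k H) (hL : M.AxL L) (hK : M.AxK) (hR : M.AxR) {w : H}
    (hw : ∀ g, M.ρ g w = w) (hwU : w ∈ M.UL) {e : k} (he : 2 * e = -1) :
    ∃ (S : Finset P) (ϖ α : H) (τ : P → k) (p₁ p₃ : P), (∀ g, M.ρ g ϖ = ϖ) ∧ α ∈ M.UL ∧
      ∀ (θ ξ₁ ξ₂ πa πb c : H) (a b : P), θ - α ∈ M.Prim → ξ₁ ∈ M.Prim → ξ₂ ∈ M.Prim →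
        (∀ p ∈ S, M.chi p θ = τ p) →
        (∀ p ∈ S, M.ord p ξ₁ = 0 ∧ M.chi p ξ₁ = if p = p₁ then 1 else 0) →
        (∀ p ∈ S, M.ord p ξ₂ = 0 ∧ M.chi p ξ₂ = if p = p₃ then 1 else 0) →
        (πa + nrm M.ρ ξ₁ - (θ + (Fintype.card G : k) • ξ₁) ∈ M.Prim ∧
          ∀ p ∈ S, M.chi p (πa + nrm M.ρ ξ₁) = M.chi p (θ + (Fintype.card G : k) • ξ₁)) →
        (πb + nrm M.ρ ξ₂ - (θ + (Fintype.card G : k) • ξ₂) ∈ M.Prim ∧
          ∀ p ∈ S, M.chi p (πb + nrm M.ρ ξ₂) = M.chi p (θ + (Fintype.card G : k) • ξ₂)) →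
        M.Good a → M.Good b → a ∉ S → b ∉ S → Ind M a πa → Ind M b πb →
        c = e • (nrm M.ρ πa + nrm M.ρ πb) + ϖ →
        (∀ x ∈ L, nrm M.ρ x = 0 → (∀ q, M.ord q c = 0 → M.ord q x = 0) →
          (∀ q, M.tame q x c = 0) → x = 0) ∧ c - w ∈ M.Prim ∧
        ∀ m j : k, m • (nrm M.ρ πa - nrm M.ρ πb) + j • c = 0 → m = 0 ∧ j = 0 := by
  obtain ⟨S, γ, ϖ, p₁, p₃, i1, -, hS, -, hγ, hU, hϖ, oϖ, HM⟩ :=
    machine hcard hG h2 hG1 M L hL hK hR
  have e0 : e ≠ 0 := by rintro rfl; simp at he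
  refine ⟨S, ϖ, (Fintype.card G : k)⁻¹ • (ϖ - w),
    fun p => (Fintype.card G : k)⁻¹ * M.tame p ϖ (γ p), p₁, p₃, hϖ,
    M.UL.smul_mem _ (sub_mem hU hwU), ?_⟩
  intro θ ξ₁ ξ₂ πa πb c a b hθ x1 x2 cθ c1 c2 ha hb ga gb aS bS ia ib hc
  have hα : ∀ g, M.ρ g ((Fintype.card G : k)⁻¹ • (ϖ - w)) = (Fintype.card G : k)⁻¹ • (ϖ - w) :=
    fun g => by rw [map_smul, map_sub, hϖ, hw]
  have hτ : ∀ g : G, ∀ p ∈ S, (Fintype.card G : k)⁻¹ * M.tame (g • p) ϖ (γ (g • p)) =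
      (Fintype.card G : k)⁻¹ * M.tame p ϖ (γ p) := fun g p hp => by
    rw [← M.tame_act g p, hϖ, ((hγ p hp).2 g).1, ((hγ p hp).2 g).2]
  have out : ∀ {a : P}, a ∉ S → ∀ g : G, g • a ∉ S := fun ha g h =>
    ha (by simpa using hS g⁻¹ _ h)
  have oS : ∀ {a : P} {π}, a ∉ S → Ind M a π → ∀ p ∈ S, M.ord p π = 0 := fun ha h p hp => by
    rw [h p, if_neg]
    rintro rfl
    exact ha hp
  obtain ⟨a1, a2, ⟨A, a3, a4⟩, a5⟩ := side M hS hτ hα hθ x1 cθ c1 (oS aS ia) ha.1 ha.2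
  obtain ⟨b1, b2, ⟨B, b3, b4⟩, b5⟩ := side M hS hτ hα hθ x2 cθ c2 (oS bS ib) hb.1 hb.2
  have oc : ∀ q, M.ord q c = e * (M.ord q (nrm M.ρ πa) + M.ord q (nrm M.ρ πb)) +
      if q ∈ S then 1 else 0 := fun q => by
    rw [hc, map_add, map_smul, map_add, oϖ, smul_eq_mul]
  have oa := fun p hp => ord_nrm_zero M hS (oS aS ia) (p := p) hp
  have ob := fun p hp => ord_nrm_zero M hS (oS bS ib) (p := p) hp
  have ocS : ∀ p ∈ S, M.ord p c = 1 := fun p hp => by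
    rw [oc, oa p hp, ob p hp, if_pos hp]; ring
  have two : ∀ {b : P} {π}, M.Good b → Ind M b π → ∀ q, 1 + M.ord q (nrm M.ρ π) ≠ 0 := by
    intro b π gb ib q
    by_cases h : ∃ g : G, g • b = q
    · obtain ⟨g, rfl⟩ := h
      rw [ord_nrm ib gb.1, one_add_one_eq_two]
      exact h2
    · rw [ord_nrm_ne ib fun g e => h ⟨g, e⟩, add_zero]
      exact one_ne_zero
  obtain ⟨hab, HM⟩ := HM c _ πa πb a b A B _ _ hG hG hα a1 b1 ga.1 gb.1 aS bS ia ib a3 b3 a4 b4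
    (fun p hp => ⟨ocS p hp, by
      rw [hc, map_add, map_smul, map_add]
      simp only [LinearMap.add_apply, LinearMap.smul_apply, smul_eq_mul]
      rw [tame_chi M p (nrm M.ρ πa), tame_chi M p (nrm M.ρ πb), oa p hp, ob p hp, (hγ p hp).1,
        a5 p hp, b5 p hp, mul_inv_cancel_left₀ hG]
      linear_combination M.tame p ϖ (γ p) * he⟩)
    (fun g => by
      rw [oc, if_neg (out aS g), add_zero, ord_nrm ia ga.1]
      exact mul_ne_zero e0 (two gb ib _))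
    (fun g => by
      rw [oc, if_neg (out bS g), add_zero, ord_nrm ib gb.1, add_comm]
      exact mul_ne_zero e0 (two ga ia _))
    (fun q hq qa qb => by
      rw [oc, if_neg hq, ord_nrm_ne ia fun g e => qa ⟨g, e⟩,
        ord_nrm_ne ib fun g e => qb ⟨g, e⟩]
      ring)
  refine ⟨HM, ?_, fun m j h => ?_⟩
  · have := M.Prim.smul_mem e (add_mem a2 b2)
    rw [smul_inv_smul₀ hG] at this
    convert this using 1
    rw [hc]
    have e1 : (2 * e) • (ϖ - w) = -(ϖ - w) := by rw [he, neg_one_smul]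
    linear_combination (norm := module) e1
  · have h1 := congrArg (M.ord p₁) h
    have h3 := congrArg (M.ord a) h
    have o1 : M.ord a (nrm M.ρ πa) = 1 := by simpa using ord_nrm ia ga.1 1
    have o2 : M.ord a (nrm M.ρ πb) = 0 := ord_nrm_ne ib fun g e =>
      hab ⟨g⁻¹, by simp [← e]⟩
    simp only [map_add, map_smul, map_sub, smul_eq_mul, map_zero, oa p₁ i1, ob p₁ i1, ocS p₁ i1,
      o1, o2, sub_zero, mul_zero, zero_add, mul_one] at h1 h3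
    rw [h1, zero_mul, add_zero] at h3
    exact ⟨h3, h1⟩

end Pool.Agent.MP_14ad9d_nt.Full.SelMainAux
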