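import Pool.Agent.MP_14ad9d_nt.Full.Inst
import Pool.Agent.MP_14ad9d_nt.Full.AddK1
import Pool.Agent.MP_14ad9d_nt.Full.SelMain1

/- The arithmetic half of the construction of the curve. -/

set_option autoImplicit false

open NumberField IsDedekindDomain

namespace Pool.Agent.MP_14ad9d_nt.Full.SelMainAux

section General

variable {l : ℕ} [Fact l.Prime] {E : Type} [Field E] [NumberField E]

theorem cls_div {x y : E} (hx : x ≠ 0) (hy : y ≠ 0) : cls l (x / y) = cls l x - cls l y := by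
  have := cls_mul (l := l) (div_ne_zero hx hy) hy
  rw [div_mul_cancel₀ x hy] at this
  rw [this, add_sub_cancel_right]

theorem cls_zpow' {x : E} (hx : x ≠ 0) (n : ℤ) : cls l (x ^ n) = (n : ZMod l) • cls l x := by
  rw [cls_zpow hx, Int.cast_smul_eq_zsmul]

theorem cls_pow {x : E} (hx : x ≠ 0) (n : ℕ) : cls l (x ^ n) = (n : ZMod l) • cls l x := by
  rw [← zpow_natCast, cls_zpow' hx, Int.cast_natCast]

theorem cls_ell {x : E} (hx : x ≠ 0) : cls l (x ^ l) = 0 := by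
  rw [cls_pow hx, ZMod.natCast_self, zero_smul]

theorem cls_one : cls l (1 : E) = 0 := by
  simpa using cls_ell (l := l) (one_ne_zero (α := E))

omit [NumberField E] in
theorem not_mem_of_coprime {a b : 𝓞 E} (h : IsCoprime a b) (v : Pr E) (hb : b ∈ v.asIdeal) :
    a ∉ v.asIdeal := fun ha => by
  obtain ⟨x, y, e⟩ := h
  exact v.isPrime.ne_top ((Ideal.eq_top_iff_one _).2
    (e ▸ add_mem (v.asIdeal.mul_mem_left x ha) (v.asIdeal.mul_mem_left y hb)))

theorem coprime_of {a b : 𝓞 E} (b0 : b ≠ 0) (h : ∀ v : Pr E, b ∈ v.asIdeal → a ∉ v.asIdeal) :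
    IsCoprime a b := by
  rw [← Ideal.isCoprime_span_singleton_iff, Ideal.isCoprime_iff_sup_eq]
  by_contra hc
  obtain ⟨q, hq, hle⟩ := Ideal.exists_le_maximal _ hc
  have hb : b ∈ q := hle (Ideal.mem_sup_right (Ideal.mem_span_singleton_self b))
  exact h ⟨q, hq.isPrime, fun e => b0 (by simpa [e] using hb)⟩ hb
    (hle (Ideal.mem_sup_left (Ideal.mem_span_singleton_self a)))

theorem ord_of_coprime {a b : 𝓞 E} (h : IsCoprime a b) (v : Pr E) (hb : b ∈ v.asIdeal) :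
    (a : E) ≠ 0 ∧ ord v (a : E) = 0 := by
  have h1 := not_mem_of_coprime h v hb
  have h0 : a ≠ 0 := fun e => h1 (e ▸ zero_mem _)
  exact ⟨by simpa using h0, (ord_eq_zero_iff v h0).2 h1⟩

theorem val_le_of_dvd (v : Pr E) {a b : 𝓞 E} (h : a ∣ b) :
    v.valuation E (b : E) ≤ v.valuation E (a : E) := by
  obtain ⟨c, rfl⟩ := h
  rw [show ((a * c : 𝓞 E) : E) = (a : E) * (c : E) from map_mul _ _ _, map_mul]
  exact mul_le_of_le_one_right' (v.valuation_le_one c)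

theorem val_lt_of_mem (v : Pr E) {a : 𝓞 E} (h : a ∈ v.asIdeal) : v.valuation E (a : E) < 1 :=
  (v.valuation_lt_one_iff_mem a).2 h

/-- a representative which is a unit at the wild primes -/
theorem exists_unit_rep {x : E} (hx : x ≠ 0) (h : ∀ v : Pr E, ¬Tm l v → (l : ℤ) ∣ ord v x) :
    ∃ y : E, y ≠ 0 ∧ cls l y = cls l x ∧ ∀ v : Pr E, ¬Tm l v → ord v y = 0 := by
  obtain ⟨z, hz, H⟩ := R0Aux.exists_ord (finite_wild (l := l) (E := E)).toFinset
    fun v => -(ord v x / l)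
  refine ⟨x * z ^ l, mul_ne_zero hx (pow_ne_zero _ hz), ?_, fun v hv => ?_⟩
  · rw [cls_mul hx (pow_ne_zero _ hz), cls_ell hz, add_zero]
  · rw [ord_mul v hx (pow_ne_zero _ hz), ord_pow, H v ((Set.Finite.mem_toFinset _).2 hv), mul_neg,
      Int.mul_ediv_cancel' (h v hv), add_neg_cancel]

/-- an integer with prescribed units at all primes dividing `N` -/
theorem exists_approx {N : 𝓞 E} (hN : N ≠ 0) (a : Pr E → E) (h0 : ∀ v, a v ≠ 0)
    (h1 : ∀ v, ord v (a v) = 0) : ∃ θ : 𝓞 E, IsCoprime θ N ∧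
      ∀ v : Pr E, N ∈ v.asIdeal → v.valuation E (θ - a v) ≤ v.valuation E (N : E) := by
  have N0 : (N : E) ≠ 0 := by simpa using hN
  set T := (ord_finite (N : E)).toFinset
  have hT : ∀ v, v ∈ T ↔ N ∈ v.asIdeal := fun v => by
    rw [Set.Finite.mem_toFinset, Set.mem_setOf_eq, Ne, ord_eq_zero_iff v hN, not_not]
  obtain ⟨n, hn⟩ := (T.finite_toSet.image fun v => -ord v (N : E)).bddBelow
  obtain ⟨x, x0, hx, hx'⟩ := wa T a n
  have key : ∀ v : Pr E, N ∈ v.asIdeal → v.valuation E (x - a v) ≤ v.valuation E (N : E) := by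
    intro v hv
    rw [val_eq_exp v N0]
    exact (hx v ((hT v).2 hv)).trans (WithZero.exp_le_exp.2 (hn ⟨v, (hT v).2 hv, rfl⟩))
  have k2 : ∀ v : Pr E, N ∈ v.asIdeal → ord v x = 0 := fun v hv => by
    rw [← h1 v]
    refine (R0Aux.ord_of_sub ?_).2
    rw [Sym2Aux.val_of_ord v (h0 v) (h1 v)]
    exact (key v hv).trans_lt (val_lt_of_mem v hv)
  obtain ⟨θ, rfl⟩ := exists_int (x := x) fun v => by
    by_cases hv : v ∈ T
    · exact (k2 v ((hT v).1 hv)).ge
    · have := hx' v hv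
      rw [val_eq_exp v x0, ← WithZero.exp_zero, WithZero.exp_le_exp] at this
      omega
  exact ⟨θ, coprime_of hN fun v hv =>
    (ord_eq_zero_iff v (by simpa using x0)).1 (k2 v hv), key⟩

end General

variable {l : ℕ} [Fact l.Prime] {F K : Type} [Field F] [NumberField F] [Field K] [NumberField K]
  [Algebra F K] {S : Setup l F K} {M : Mach (ZMod l) (K ≃ₐ[F] K) (Hm l K) (TP l K)}

theorem prim_of (hl : 2 < l) (h : Spec S M) {x y : K} (hx : x ≠ 0) (hy : y ≠ 0)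
    (H : ∀ v : Pr K, ¬Tm l v → ord v y = 0 ∧
      v.valuation K (x - y) ≤ v.valuation K ((l : K) ^ 2)) : cls l x - cls l y ∈ M.Prim := by
  rw [← cls_div hx hy, h.2.2.2.1 _ (div_ne_zero hx hy)]
  refine ⟨1, one_ne_zero, fun v hv => ?_⟩
  rw [one_pow, div_one, div_sub_one hy, map_div₀, Sym2Aux.val_of_ord v hy (H v hv).1, div_one]
  refine (H v hv).2.trans ?_
  rw [map_pow, val_ell S.hz, ← pow_mul]
  exact pow_le_pow_right_of_le_one' (val_one_sub_lt S.hz hv).le (by omega)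

theorem chi_of (hl : 2 < l) (h : Spec S M) (p : TP l K) {x y : K} (hy : y ≠ 0)
    (h0 : ord p.1 y = 0) (H : p.1.valuation K (x - y) < 1) :
    M.chi p (cls l x) = M.chi p (cls l y) := by
  obtain ⟨x0, e⟩ := R0Aux.ord_of_sub (v := p.1) (x := x) (y := y)
    (by rwa [Sym2Aux.val_of_ord p.1 hy h0])
  rw [h.chi_eq hl p x0 (e.trans h0), h.chi_eq hl p hy h0]
  exact chi_congr S.hz p.2 hy h0 (by rwa [Valuation.map_sub_swap])

omit [NumberField K] in
theorem mem_of_wild {N : ℕ} (hN : l ^ 2 ∣ N) {v : Pr K} (hv : ¬Tm l v) :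
    (N : 𝓞 K) ∈ v.asIdeal := by
  obtain ⟨c, rfl⟩ := hN
  rw [Tm, not_not] at hv
  push_cast
  exact v.asIdeal.mul_mem_right _ (v.asIdeal.pow_mem_of_mem hv 2 (by norm_num))

theorem val_N {N : ℕ} (hN : l ^ 2 ∣ N) (v : Pr K) :
    v.valuation K ((N : 𝓞 K) : K) ≤ v.valuation K ((l : K) ^ 2) := by
  have := val_le_of_dvd v (a := (l : 𝓞 K) ^ 2) (b := N) (by exact_mod_cast Nat.cast_dvd_cast hN)
  simpa using this

/-- an integer with prescribed wild class and prescribed residue symbols -/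
theorem exists_theta (hl : 2 < l) (h : Spec S M) {N : ℕ} (N0 : N ≠ 0) (hN : l ^ 2 ∣ N) {x : K}
    (hx : x ≠ 0) (ox : ∀ v : Pr K, ¬Tm l v → ord v x = 0) (τ : TP l K → ZMod l) :
    ∃ θ : 𝓞 K, IsCoprime θ (N : 𝓞 K) ∧ cls l (θ : K) - cls l x ∈ M.Prim ∧
      ∀ p : TP l K, (N : 𝓞 K) ∈ p.1.asIdeal →
        M.ord p (cls l (θ : K)) = 0 ∧ M.chi p (cls l (θ : K)) = τ p := by
  have ex : ∀ v : Pr K, ∃ a : K, a ≠ 0 ∧ ord v a = 0 ∧ (¬Tm l v → a = x) ∧
      ∀ hv : Tm l v, chi l S.z v a = τ ⟨v, hv⟩ := by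
    intro v
    by_cases hv : Tm l v
    · obtain ⟨a, ha, e⟩ := chi_surj S.hz hv (τ ⟨v, hv⟩)
      have a0 : a ≠ 0 := fun e => ha (e ▸ zero_mem _)
      exact ⟨a, by simpa using a0, (ord_eq_zero_iff v a0).2 ha, fun h => absurd hv h, fun _ => e⟩
    · exact ⟨x, hx, ox v hv, fun _ => rfl, fun h => absurd h hv⟩
  choose a a0 a1 a2 a3 using ex
  obtain ⟨θ, c, H⟩ := exists_approx (N := (N : 𝓞 K)) (by simpa using N0) a a0 a1
  have θ0 := (ord_of_coprime c S.v₀ (mem_of_wild hN S.wild)).1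
  refine ⟨θ, c, prim_of hl h θ0 hx fun v hv => ⟨ox v hv, ?_⟩, fun p hp => ⟨?_, ?_⟩⟩
  · rw [← a2 v hv]
    exact (H v (mem_of_wild hN hv)).trans (val_N hN v)
  · rw [h.2.1, (ord_of_coprime c p.1 hp).2, Int.cast_zero]
  · rw [chi_of hl h p (a0 p.1) (a1 p.1) ((H p.1 hp).trans_lt (val_lt_of_mem p.1 hp)),
      h.chi_eq hl p (a0 p.1) (a1 p.1), a3 p.1 p.2]

theorem cls_norm [IsGalois F K] (h : Spec S M) {x : 𝓞 K} (hx : (x : K) ≠ 0) :
    algebraMap F K (RingOfIntegers.norm F x : F) ≠ 0 ∧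
      cls l (algebraMap F K (RingOfIntegers.norm F x : F)) = nrm M.ρ (cls l (x : K)) := by
  have e : algebraMap F K (RingOfIntegers.norm F x : F) = ∏ g : K ≃ₐ[F] K, g x :=
    Algebra.norm_eq_prod_automorphisms F (x : K)
  rw [e, h.nrm_eq hx]
  exact ⟨Finset.prod_ne_zero_iff.2 fun g _ => by simpa using hx, rfl⟩

/-- the consequences of the congruence given by the additive theorem -/
theorem of_congr [IsGalois F K] (hl : 2 < l) (h : Spec S M) {N : ℕ} (hN : l ^ 2 ∣ N)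
    {θ ξ ρ π : 𝓞 K} (cθ : IsCoprime θ (N : 𝓞 K)) (cξ : IsCoprime ξ (N : 𝓞 K))
    (cρ : IsCoprime ρ (N : 𝓞 K))
    (hd : (N : 𝓞 K) ∣ π * algebraMap (𝓞 F) (𝓞 K) (RingOfIntegers.norm F ξ) -
      θ * ξ ^ Module.finrank F K * ρ ^ l) :
    (π : K) ≠ 0 ∧ IsCoprime (RingOfIntegers.norm F π) (l : 𝓞 F) ∧
      cls l (π : K) + nrm M.ρ (cls l (ξ : K)) -
        (cls l (θ : K) + (Fintype.card (K ≃ₐ[F] K) : ZMod l) • cls l (ξ : K)) ∈ M.Prim ∧
      ∀ p : TP l K, (N : 𝓞 K) ∈ p.1.asIdeal →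
        M.chi p (cls l (π : K) + nrm M.ρ (cls l (ξ : K))) =
          M.chi p (cls l (θ : K) + (Fintype.card (K ≃ₐ[F] K) : ZMod l) • cls l (ξ : K)) := by
  have m0 := mem_of_wild hN S.wild
  set X := π * algebraMap (𝓞 F) (𝓞 K) (RingOfIntegers.norm F ξ) with hX
  set Y := θ * ξ ^ Module.finrank F K * ρ ^ l with hY
  have cY : IsCoprime Y (N : 𝓞 K) := (cθ.mul_left cξ.pow_left).mul_left cρ.pow_left
  have cX : IsCoprime X (N : 𝓞 K) := by
    obtain ⟨c, hc⟩ := hd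
    rw [sub_eq_iff_eq_add'] at hc
    rw [hc]
    exact cY.add_mul_left_left c
  have cπ : IsCoprime π (N : 𝓞 K) := cX.of_mul_left_left
  have π0 := (ord_of_coprime cπ _ m0).1
  have ξ0 := (ord_of_coprime cξ _ m0).1
  have θ0 := (ord_of_coprime cθ _ m0).1
  have ρ0 := (ord_of_coprime cρ _ m0).1
  have X0 := (ord_of_coprime cX _ m0).1
  have Y0 := (ord_of_coprime cY _ m0).1
  have eX : cls l (X : K) = cls l (π : K) + nrm M.ρ (cls l (ξ : K)) := by
    rw [← (cls_norm h ξ0).2, ← cls_mul π0 (cls_norm h ξ0).1]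
    rfl
  have eY : cls l (Y : K) =
      cls l (θ : K) + (Fintype.card (K ≃ₐ[F] K) : ZMod l) • cls l (ξ : K) := by
    have : (Y : K) = (θ : K) * (ξ : K) ^ Module.finrank F K * (ρ : K) ^ l := by simp [hY]
    rw [this, cls_mul (mul_ne_zero θ0 (pow_ne_zero _ ξ0)) (pow_ne_zero _ ρ0), cls_ell ρ0, add_zero,
      cls_mul θ0 (pow_ne_zero _ ξ0), cls_pow ξ0, ← IsGalois.card_aut_eq_finrank,
      Nat.card_eq_fintype_card]
  have hv : ∀ v : Pr K, v.valuation K ((X : K) - Y) ≤ v.valuation K ((N : 𝓞 K) : K) := fun v => by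
    simpa using val_le_of_dvd v hd
  rw [← eX, ← eY]
  refine ⟨π0, coprime_of (by exact_mod_cast (Fact.out : l.Prime).ne_zero) fun v hv hm => ?_,
    prim_of hl h X0 Y0 fun v hw =>
      ⟨(ord_of_coprime cY v (mem_of_wild hN hw)).2, (hv v).trans (val_N hN v)⟩,
    fun p hp => chi_of hl h p Y0 (ord_of_coprime cY _ hp).2
      ((hv _).trans_lt (val_lt_of_mem _ hp))⟩
  obtain ⟨w, hw⟩ := exists_over (E' := K) v
  refine not_mem_of_coprime (AddKAux.norm_coprime (F := F) cπ) w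
    (mem_of_wild hN fun t => (tm_over hw).1 t hv) ?_
  exact (Ideal.mem_of_liesOver w.asIdeal v.asIdeal _).1 hm

end Pool.Agent.MP_14ad9d_nt.Full.SelMainAux
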