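import Pool.Agent.MP_14ad9d_nt.Full.Set2

set_option autoImplicit false
set_option linter.unusedSectionVars false

open NumberField IsDedekindDomain Polynomial
open scoped IntermediateField

namespace Pool.Agent.MP_14ad9d_nt.Full.SetAux

variable {l : ℕ} [Fact l.Prime] {L K : Type} [Field L] [NumberField L] [Field K] [NumberField K]
  [Algebra L K] [IsGalois ℚ L] [IsGalois ℚ K] [IsCyclotomicExtension {l} L K]

theorem exists_res {F : Type} [Field F] [NumberField F] [Algebra F K] (g : K ≃ₐ[F] K) :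
    ∃ σ : L ≃ₐ[ℚ] L, ∀ y, g (algebraMap L K y) = algebraMap L K (σ y) :=
  ⟨(g.restrictScalars ℚ).restrictNormal L, fun y =>
    (AlgEquiv.restrictNormal_commutes (g.restrictScalars ℚ) L y).symm⟩

theorem setup_of {F : Type} [Field F] [NumberField F] [Algebra F K]
    [IsCyclotomicExtension {l} ℚ F] [IsGalois F K] (hl : 2 < l) {w : Pr L} (hw : ¬Tm l w)
    (hfree : ∀ σ : L ≃ₐ[ℚ] L, act (σ : L ≃+* L) w = w → σ = 1)
    (h1 : 1 < Module.finrank ℚ L) (h2 : Module.finrank ℚ L < l) : Nonempty (Setup l F K) := by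
  have hlp : l.Prime := Fact.out
  have : NeZero l := ⟨hlp.ne_zero⟩
  have : FiniteDimensional L K := Module.Finite.of_restrictScalars_finite ℚ L K
  set ζ := IsCyclotomicExtension.zeta l ℚ F with hζd
  have hζ : IsPrimitiveRoot ζ l := IsCyclotomicExtension.zeta_spec l ℚ F
  set z := algebraMap F K ζ with hzd
  have hz : IsPrimitiveRoot z l := hζ.map_of_injective (algebraMap F K).injective
  obtain ⟨v₀, hv₀⟩ := exists_over (E' := K) w
  have hwild : ¬Tm l v₀ := by rw [tm_over hv₀]; exact hw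
  obtain ⟨c1, c2, c3, c4⟩ := counts hl hz hw hfree hwild
  obtain ⟨ι, hι⟩ := exists_iota hz c4
  have hF : Module.finrank ℚ F = l - 1 := by
    rw [IsCyclotomicExtension.finrank (n := l) F (cyclotomic.irreducible_rat hlp.pos),
      Nat.totient_prime hlp]
  have hK : Module.finrank ℚ K = Module.finrank ℚ L * (l - 1) := by
    rw [← Module.finrank_mul_finrank ℚ L K, c4]
  have hcard : Fintype.card (K ≃ₐ[F] K) = Module.finrank ℚ L := by
    rw [← Nat.card_eq_fintype_card, IsGalois.card_aut_eq_finrank]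
    have := Module.finrank_mul_finrank ℚ F K
    rw [hF, hK, mul_comm] at this
    exact Nat.eq_of_mul_eq_mul_right (by omega) this
  have hgz : ∀ g : K ≃ₐ[F] K, g z = z := fun g => g.commutes ζ
  have free : ∀ g : K ≃ₐ[F] K, act (g : K ≃+* K) v₀ = v₀ → g = 1 := by
    intro g hg
    obtain ⟨σ, hσ⟩ := exists_res (L := L) g
    have a1 := act_over (g : K ≃+* K) (σ : L ≃+* L) hσ hv₀
    rw [hg] at a1
    have a2 : σ = 1 := hfree σ (under_unique a1 hv₀)
    subst a2
    ext x
    exact hom_ext (L := L) hz (g : K →+* K) (RingHom.id K) hσ (hgz g) x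
  have trans : ∀ v : Pr K, ¬Tm l v → ∃ g : K ≃ₐ[F] K, act (g : K ≃+* K) v₀ = v := by
    have : Finite {u : Pr K | ¬Tm l u} := finite_wild.to_subtype
    have hb : Function.Bijective (fun g : K ≃ₐ[F] K =>
        (⟨act (g : K ≃+* K) v₀, by rw [Set.mem_setOf_eq, tm_act]; exact hwild⟩ :
          {u : Pr K | ¬Tm l u})) := by
      rw [Nat.bijective_iff_injective_and_card]
      refine ⟨fun g h e => act_inj free (congrArg Subtype.val e), ?_⟩
      rw [Nat.card_coe_set_eq, c1, Nat.card_eq_fintype_card, hcard]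
    intro v hv
    obtain ⟨g, hg⟩ := hb.2 ⟨v, hv⟩
    exact ⟨g, congrArg Subtype.val hg⟩
  have hιL : ∀ y, ι (algebraMap L K y) = algebraMap L K y := ι.commutes
  refine ⟨⟨ζ, hζ, (ι : K ≃+* K), ?_, hι, ?_, ?_, ?_, ?_, v₀, hwild, trans, free, c3, c2, ?_⟩⟩
  · intro x
    refine hom_ext (L := L) hz ((ι : K →+* K).comp (ι : K →+* K)) (RingHom.id K) (fun y => ?_) ?_ x
    · change ι (ι _) = _
      rw [hιL, hιL]; rfl
    · change ι (ι z) = z
      rw [hι, map_inv₀, hι, inv_inv]
  · intro g x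
    obtain ⟨σ, hσ⟩ := exists_res (L := L) g
    refine hom_ext (L := L) hz ((ι : K →+* K).comp (g : K →+* K))
      ((g : K →+* K).comp (ι : K →+* K)) (fun y => ?_) ?_ x
    · change ι (g _) = g (ι _)
      rw [hιL, hσ, hιL]
    · change ι (g z) = g (ι z)
      rw [hgz, hι, map_inv₀, hgz]
  · rw [hcard]; exact h2
  · rw [hcard]; exact h1
  · rw [hcard, hK]
  · have a1 := act_over (ι : K ≃+* K) (RingEquiv.refl L) hιL hv₀
    rw [act_refl] at a1
    obtain ⟨g, hg⟩ := trans (act (ι : K ≃+* K) v₀) (by rw [tm_act]; exact hwild)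
    obtain ⟨σ, hσ⟩ := exists_res (L := L) g
    have a2 := act_over (g : K ≃+* K) (σ : L ≃+* L) hσ hv₀
    rw [hg] at a2
    have a3 : σ = 1 := hfree σ (under_unique a2 a1)
    subst a3
    have a4 : g = 1 := by
      ext x
      exact hom_ext (L := L) hz (g : K →+* K) (RingHom.id K) hσ (hgz g) x
    rw [← hg, a4, act_one]

theorem disjoint {z : K} (hz : IsPrimitiveRoot z l) (hd : Module.finrank L K = l - 1) :
    (ℚ⟮z⟯).LinearDisjoint L := by
  have hlp : l.Prime := Fact.out
  have : NeZero l := ⟨hlp.ne_zero⟩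
  have : IsCyclotomicExtension {l} ℚ ℚ⟮z⟯ := hz.intermediateField_adjoin_isCyclotomicExtension ℚ
  have hζ : IsPrimitiveRoot (IntermediateField.AdjoinSimple.gen ℚ z) l :=
    IsPrimitiveRoot.coe_submonoidClass_iff.1 hz
  have hF : Module.finrank ℚ ℚ⟮z⟯ = l - 1 := by
    rw [IsCyclotomicExtension.finrank (n := l) ℚ⟮z⟯ (cyclotomic.irreducible_rat hlp.pos),
      Nat.totient_prime hlp]
  have e : (hζ.powerBasis ℚ).dim = (hz.powerBasis L).dim := by
    rw [← PowerBasis.finrank, ← PowerBasis.finrank, hF, hd]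
  apply IntermediateField.LinearDisjoint.of_basis_left (hζ.powerBasis ℚ).basis
  have := (hz.powerBasis L).basis.linearIndependent.comp (Fin.cast e) (Fin.cast_injective e)
  have e2 : (ℚ⟮z⟯).val ∘ (hζ.powerBasis ℚ).basis = (hz.powerBasis L).basis ∘ Fin.cast e := by
    funext i
    simp
  exact e2 ▸ this

end Pool.Agent.MP_14ad9d_nt.Full.SetAux
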