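import Pool.Agent.MP_14ad9d_nt.Full.Sym2
import Pool.Agent.MP_14ad9d_nt.Full.Set3
import Pool.Agent.MP_14ad9d_nt.Full.DL

set_option autoImplicit false

open NumberField IsDedekindDomain
open scoped IntermediateField

namespace Pool.Agent.MP_14ad9d_nt.Full

theorem SetAux.exists_prime (L : Type) [Field L] [NumberField L] (N : ℕ) :
    ∃ w : Pr L, Deg1 w ∧ N < Ideal.absNorm w.asIdeal ∧
      ∀ σ : L ≃ₐ[ℚ] L, act (σ : L ≃+* L) w = w → σ = 1 := by
  have : Fact (Nat.Prime 3) := ⟨Nat.prime_three⟩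
  have h := dl 3 (E := L) (by norm_num) ⊤ top_ne_bot (V := ZMod 3) (fun _ => 0)
    (fun a _ _ => by simp) 0 (Submodule.zero_mem _)
  obtain ⟨T, hT⟩ := free_of_deg1 (E := ℚ) (E' := L)
  have hfin : {w : Pr L | Ideal.absNorm w.asIdeal ≤ N}.Finite :=
    (Ideal.finite_setOf_absNorm_le (S := 𝓞 L) N).preimage
      (HeightOneSpectrum.asIdeal_injective (R := 𝓞 L)).injOn
  obtain ⟨w, hw, hw'⟩ := h.exists_notMem_finite (T.finite_toSet.union hfin)
  simp only [Set.mem_union, Finset.mem_coe, Set.mem_setOf_eq, not_or, not_le] at hw'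
  exact ⟨w, hw.1, hw'.2, hT w hw'.1 hw.1⟩

open SetAux in
/-- every number field fits into the arithmetic setting -/
theorem exists_setup (K₀ : Type) [Field K₀] [NumberField K₀] :
    ∃ (l : ℕ) (_ : Fact l.Prime) (_ : 2 < l) (F K : Type) (_ : Field F) (_ : NumberField F)
      (_ : Field K) (_ : NumberField K) (_ : Algebra F K) (_ : IsCyclotomicExtension {l} ℚ F)
      (_ : IsGalois F K) (_ : IsGalois ℚ K) (_ : Setup l F K) (f : K₀ →+* K),
      ∀ (n : ℕ) (b : Fin n → F), LinearIndependent ℚ b → ∀ c : Fin n → K₀,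
        ∑ i, f (c i) * algebraMap F K (b i) = 0 → ∀ i, c i = 0 := by
  obtain ⟨L, _, _, _, f₀, hn⟩ := exists_galois K₀
  obtain ⟨w, hw1, hw2, hfree⟩ := exists_prime L (Module.finrank ℚ L)
  have hmem := Ideal.absNorm_mem w.asIdeal
  unfold Deg1 at hw1
  generalize Ideal.absNorm w.asIdeal = l at hw1 hw2 hmem
  have hF : Fact l.Prime := ⟨hw1⟩
  have : NeZero l := ⟨hw1.ne_zero⟩
  have hl : 2 < l := by omega
  have hw : ¬Tm l w := fun h => h hmem
  obtain ⟨K, _, _, _, _⟩ : ∃ (K : Type) (_ : Field K) (_ : NumberField K) (_ : Algebra L K),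
      IsCyclotomicExtension {l} L K :=
    ⟨CyclotomicField l L, inferInstance, inferInstance, inferInstance, inferInstance⟩
  have hG : IsGalois ℚ K := galois_cyc l L K
  set z := IsCyclotomicExtension.zeta l L K with hzd
  have hz : IsPrimitiveRoot z l := IsCyclotomicExtension.zeta_spec l L K
  have hc : IsCyclotomicExtension {l} ℚ ℚ⟮z⟯ := hz.intermediateField_adjoin_isCyclotomicExtension ℚ
  have hG' : IsGalois ℚ⟮z⟯ K := inferInstance
  obtain ⟨S⟩ := setup_of (F := ℚ⟮z⟯) (K := K) hl hw hfree hn hw2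
  obtain ⟨v₀, hv₀⟩ := exists_over (E' := K) w
  have hd := (counts hl hz hw hfree (v := v₀) (by rw [tm_over hv₀]; exact hw)).2.2.2
  refine ⟨l, hF, hl, ℚ⟮z⟯, K, inferInstance, inferInstance, inferInstance, inferInstance,
    inferInstance, hc, hG', hG, S, (algebraMap L K).comp f₀, fun n b hb c hc i => ?_⟩
  have h1 := (disjoint hz hd).linearIndependent_left hb
  have h2 := Fintype.linearIndependent_iff.1 h1 (fun i => f₀ (c i)) (by
    rw [← hc]
    exact Finset.sum_congr rfl fun j _ => Algebra.smul_def _ _) i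
  exact (map_eq_zero f₀).1 h2

end Pool.Agent.MP_14ad9d_nt.Full
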