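import Pool.Agent.MP_14ad9d_nt.Full.Sym2

set_option autoImplicit false
set_option linter.unusedSectionVars false

open NumberField IsDedekindDomain Polynomial

namespace Pool.Agent.MP_14ad9d_nt.Full.SetAux

theorem exists_galois (K₀ : Type) [Field K₀] [NumberField K₀] :
    ∃ (L : Type) (_ : Field L) (_ : NumberField L) (_ : IsGalois ℚ L) (_ : K₀ →+* L),
      1 < Module.finrank ℚ L := by
  let pb := Field.powerBasisOfFiniteOfSeparable ℚ K₀
  let p : ℚ[X] := minpoly ℚ pb.gen * (X ^ 2 + 1)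
  have h1 : minpoly ℚ pb.gen ≠ 0 := minpoly.ne_zero pb.isIntegral_gen
  have h2 : (X ^ 2 + 1 : ℚ[X]) ≠ 0 := by
    have : (X ^ 2 + 1 : ℚ[X]).Monic := by monicity!
    exact this.ne_zero
  have hp : p ≠ 0 := mul_ne_zero h1 h2
  let L := p.SplittingField
  have hN : NumberField L := ⟨⟩
  have hsp : IsSplittingField ℚ L p := IsSplittingField.splittingField p
  have hn : Normal ℚ L := Normal.of_isSplittingField p
  have hG : IsGalois ℚ L := ⟨⟩
  have hs : (p.map (algebraMap ℚ L)).Splits := SplittingField.splits p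
  have hs1 : ((minpoly ℚ pb.gen).map (algebraMap ℚ L)).Splits :=
    hs.of_dvd (Polynomial.map_ne_zero hp) (Polynomial.map_dvd _ (Dvd.intro _ rfl))
  have hs2 : ((X ^ 2 + 1 : ℚ[X]).map (algebraMap ℚ L)).Splits :=
    hs.of_dvd (Polynomial.map_ne_zero hp) (Polynomial.map_dvd _ (Dvd.intro_left _ rfl))
  obtain ⟨y, hy⟩ := hs1.exists_eval_eq_zero (by
    rw [degree_map]; exact (minpoly.degree_pos pb.isIntegral_gen).ne')
  obtain ⟨i, hi⟩ := hs2.exists_eval_eq_zero (by
    rw [degree_map]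
    have : (X ^ 2 + 1 : ℚ[X]).degree = 2 := by compute_degree!
    rw [this]; decide)
  refine ⟨L, inferInstance, hN, hG, (pb.lift y (by rwa [eval_map_algebraMap] at hy)).toRingHom, ?_⟩
  by_contra hc
  have h3 : Module.finrank ℚ L = 1 := by
    have : 0 < Module.finrank ℚ L := Module.finrank_pos
    omega
  obtain ⟨q, hq⟩ := (Algebra.finrank_eq_one_iff_bijective_algebraMap.1 h3).2 i
  rw [← hq, eval_map_algebraMap, aeval_algebraMap_apply, map_eq_zero] at hi
  simp at hi
  nlinarith [sq_nonneg q]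

theorem galois_cyc (l : ℕ) [NeZero l] (L K : Type) [Field L] [NumberField L] [Field K]
    [NumberField K] [Algebra L K] [IsGalois ℚ L] [IsCyclotomicExtension {l} L K] :
    IsGalois ℚ K := by
  obtain ⟨p, hs, hp⟩ := IsGalois.is_separable_splitting_field ℚ L
  have h1 : IsSplittingField L K ((cyclotomic l ℚ).map (algebraMap ℚ L)) := by
    rw [map_cyclotomic]; exact IsCyclotomicExtension.splitting_field_cyclotomic l L K
  have h2 : IsSplittingField ℚ K (p * cyclotomic l ℚ) :=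
    IsSplittingField.mul (K := L) K p (cyclotomic l ℚ) hs.ne_zero (cyclotomic_ne_zero l ℚ)
  have hn : Normal ℚ K := Normal.of_isSplittingField (p * cyclotomic l ℚ)
  exact ⟨⟩

section Act

variable {L K : Type} [Field L] [NumberField L] [Field K] [NumberField K] [Algebra L K]

theorem act_over (g : K ≃+* K) (σ : L ≃+* L)
    (h : ∀ y, g (algebraMap L K y) = algebraMap L K (σ y)) {v : Pr K} {w : Pr L}
    (hv : v.asIdeal.LiesOver w.asIdeal) : (act g v).asIdeal.LiesOver (act σ w).asIdeal := by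
  constructor
  ext a
  rw [mem_act, Ideal.mem_under, mem_act, Ideal.mem_of_liesOver v.asIdeal w.asIdeal]
  have : algebraMap (𝓞 L) (𝓞 K) ((RingOfIntegers.mapRingEquiv σ).symm a) =
      (RingOfIntegers.mapRingEquiv g).symm (algebraMap (𝓞 L) (𝓞 K) a) := by
    rw [RingEquiv.eq_symm_apply]
    apply RingOfIntegers.coe_injective
    change g (algebraMap L K (σ.symm a)) = algebraMap L K a
    rw [h, RingEquiv.apply_symm_apply]
  rw [this]

theorem under_unique {v : Pr K} {w w' : Pr L} (h : v.asIdeal.LiesOver w.asIdeal)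
    (h' : v.asIdeal.LiesOver w'.asIdeal) : w = w' :=
  HeightOneSpectrum.ext (h.over.trans h'.over.symm)

theorem act_mul (g h : K ≃ₐ[L] K) (v : Pr K) :
    act ((g * h : K ≃ₐ[L] K) : K ≃+* K) v = act (g : K ≃+* K) (act (h : K ≃+* K) v) := by
  ext a; exact Iff.rfl

theorem act_one (v : Pr K) : act ((1 : K ≃ₐ[L] K) : K ≃+* K) v = v := by
  ext a; exact Iff.rfl

theorem act_refl (v : Pr K) : act (RingEquiv.refl K) v = v := by
  ext a; exact Iff.rfl

theorem act_inj {v : Pr K} (hv : ∀ g : K ≃ₐ[L] K, act (g : K ≃+* K) v = v → g = 1) :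
    Function.Injective fun g : K ≃ₐ[L] K => act (g : K ≃+* K) v := by
  intro g h e
  have : act ((h⁻¹ * g : K ≃ₐ[L] K) : K ≃+* K) v = v := by
    dsimp only at e
    rw [act_mul, e, ← act_mul, inv_mul_cancel, act_one]
  exact (inv_mul_eq_one.1 (hv _ this)).symm

end Act

theorem abs_efg {l : ℕ} [Fact l.Prime] {K : Type} [Field K] [NumberField K] [IsGalois ℚ K]
    (v : Pr K) (hv : ¬Tm l v) :
    ∃ e f : ℕ, {u : Pr K | ¬Tm l u}.ncard * (e * f) = Module.finrank ℚ K ∧
      ord v (l : K) = e ∧ Ideal.absNorm v.asIdeal = l ^ f := by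
  have hl : l.Prime := Fact.out
  have hp0 : (l : ℤ) ≠ 0 := by exact_mod_cast hl.ne_zero
  have hpz : Prime (l : ℤ) := Nat.prime_iff_prime_int.1 hl
  have key : ∀ u : Pr K, ¬Tm l u ↔ u.asIdeal.LiesOver (Ideal.span {(l : ℤ)}) := fun u => by
    rw [Ideal.liesOver_span_iff u.isPrime.ne_top hpz, Tm, not_not, map_natCast]
  have := v.isPrime
  have hL := (key v).1 hv
  let u : HeightOneSpectrum ℤ := ⟨Ideal.span {(l : ℤ)}, Ideal.isPrime_of_liesOver v.asIdeal _,
    by simpa using hl.ne_zero⟩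
  have := u.isPrime
  have hL' : v.asIdeal.LiesOver u.asIdeal := hL
  refine ⟨v.asIdeal.ramificationIdx ℤ, v.asIdeal.inertiaDeg ℤ, ?_, ?_,
    (Ideal.pow_inertiaDeg l _).symm⟩
  · rw [← IsGaloisGroup.card_eq_finrank Gal(K/ℚ) ℚ K,
      ← Ideal.ncard_primesOver_mul_ramificationIdxIn_mul_inertiaDegIn u.asIdeal (𝓞 K) Gal(K/ℚ),
      Ideal.ramificationIdxIn_eq_ramificationIdx u.asIdeal v.asIdeal Gal(K/ℚ),
      Ideal.inertiaDegIn_eq_inertiaDeg u.asIdeal v.asIdeal Gal(K/ℚ)]
    congr 1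
    rw [← Set.ncard_image_of_injective _ (HeightOneSpectrum.asIdeal_injective (R := 𝓞 K))]
    congr 1
    ext P
    constructor
    · rintro ⟨w, hw, rfl⟩
      exact ⟨w.isPrime, (key w).1 hw⟩
    · rintro ⟨h1, h2⟩
      exact ⟨⟨P, h1, Ideal.ne_bot_of_liesOver_of_ne_bot u.ne_bot P⟩, (key _).2 h2, rfl⟩
  · have e := HeightOneSpectrum.intValuation_liesOver u v (l : ℤ)
    rw [u.intValuation_singleton hp0 rfl, Ideal.ramificationIdx'_eq_ramificationIdx _ _ u.ne_bot,
      map_natCast, ← v.valuation_of_algebraMap (K := K)] at e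
    rw [ord, ← map_natCast (algebraMap (𝓞 K) K) l]
    erw [← e]
    simp

end Pool.Agent.MP_14ad9d_nt.Full.SetAux
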