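import Pool.Agent.MP_14ad9d_nt.Full.Set1

set_option autoImplicit false
set_option linter.unusedSectionVars false

open NumberField IsDedekindDomain Polynomial

namespace Pool.Agent.MP_14ad9d_nt.Full.SetAux

variable {l : ℕ} [Fact l.Prime] {L K : Type} [Field L] [NumberField L] [Field K] [NumberField K]
  [Algebra L K] [IsGalois ℚ L] [IsGalois ℚ K] [IsCyclotomicExtension {l} L K] {z : K}

theorem hom_ext (hz : IsPrimitiveRoot z l) (φ ψ : K →+* K)
    (h1 : ∀ y, φ (algebraMap L K y) = ψ (algebraMap L K y)) (h2 : φ z = ψ z) (x : K) :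
    φ x = ψ x := by
  have : NeZero l := ⟨(Fact.out : l.Prime).ne_zero⟩
  have hx : x ∈ Algebra.adjoin L ({z} : Set K) := by
    rw [IsCyclotomicExtension.adjoin_primitive_root_eq_top hz]; trivial
  induction hx using Algebra.adjoin_induction with
  | mem y hy => rw [Set.mem_singleton_iff.1 hy]; exact h2
  | algebraMap y => exact h1 y
  | add a b _ _ ha hb => rw [map_add, map_add, ha, hb]
  | mul a b _ _ ha hb => rw [map_mul, map_mul, ha, hb]

theorem finrank_le (hz : IsPrimitiveRoot z l) : Module.finrank L K ≤ l - 1 := by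
  have : NeZero l := ⟨(Fact.out : l.Prime).ne_zero⟩
  have : FiniteDimensional L K := Module.Finite.of_restrictScalars_finite ℚ L K
  have : IsGalois L K := IsGalois.tower_top_of_isGalois ℚ L K
  rw [← IsGalois.card_aut_eq_finrank, ← ZMod.card_units l, ← Nat.card_eq_fintype_card]
  exact Nat.card_le_card_of_injective _ (hz.autToPow_injective L)

theorem exists_iota (hz : IsPrimitiveRoot z l) (hd : Module.finrank L K = l - 1) :
    ∃ ι : K ≃ₐ[L] K, ι z = z⁻¹ := by
  have hl : l.Prime := Fact.out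
  have : NeZero l := ⟨hl.ne_zero⟩
  have : FiniteDimensional L K := Module.Finite.of_restrictScalars_finite ℚ L K
  have : IsGalois L K := IsGalois.tower_top_of_isGalois ℚ L K
  have hb : Function.Bijective (hz.autToPow L) := by
    rw [Nat.bijective_iff_injective_and_card]
    refine ⟨hz.autToPow_injective L, ?_⟩
    rw [IsGalois.card_aut_eq_finrank, hd, Nat.card_eq_fintype_card, ZMod.card_units l]
  obtain ⟨ι, hι⟩ := hb.2 (-1)
  refine ⟨ι, ?_⟩
  rw [← hz.autToPow_spec L ι, hι]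
  apply eq_inv_of_mul_eq_one_left
  rw [← pow_succ, hz.pow_eq_one_iff_dvd, ← ZMod.natCast_eq_zero_iff]
  simp

theorem arith {g e f n d l : ℕ} {t : ℤ} (hl : 2 < l) (hn : 0 < n) (h1 : g * (e * f) = n * d)
    (hd0 : 0 < d) (h2 : n ≤ g) (h3 : (e : ℤ) = ((l - 1 : ℕ) : ℤ) * t) (h4 : d ≤ l - 1) :
    g = n ∧ t = 1 ∧ f = 1 ∧ d = l - 1 := by
  have h5 : 0 < g * (e * f) := by rw [h1]; positivity
  have he : 0 < e := Nat.pos_of_mul_pos_right (Nat.pos_of_mul_pos_left h5)
  have hf : 0 < f := Nat.pos_of_mul_pos_left (Nat.pos_of_mul_pos_left h5)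
  obtain ⟨m, hm⟩ : ∃ m, l - 1 = m := ⟨_, rfl⟩
  rw [hm] at h3 h4 ⊢
  have hm0 : 0 < m := by omega
  have ht : 0 < t := by
    have : (0 : ℤ) < m * t := by rw [← h3]; exact_mod_cast he
    exact (mul_pos_iff_of_pos_left (by exact_mod_cast hm0)).1 this
  obtain ⟨s, rfl⟩ := Int.eq_ofNat_of_zero_le ht.le
  have h6 : e = m * s := by exact_mod_cast h3
  have hs : 0 < s := by exact_mod_cast ht
  subst h6
  have a1 : n * m ≤ g * (m * s * f) :=
    Nat.mul_le_mul h2 (by rw [mul_assoc]; exact Nat.le_mul_of_pos_right _ (by positivity))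
  have a2 : d = m := by
    apply le_antisymm h4
    rw [h1] at a1
    exact Nat.le_of_mul_le_mul_left a1 hn
  subst a2
  have a3 : g * (s * f) = n := by
    apply Nat.eq_of_mul_eq_mul_left hd0
    rw [mul_comm d n, ← h1]; ring
  have a4 : g = n := by
    apply le_antisymm _ h2
    rw [← a3]; exact Nat.le_mul_of_pos_right _ (by positivity)
  subst a4
  have a5 : s * f = 1 := Nat.eq_of_mul_eq_mul_left hn (by rw [a3, mul_one])
  refine ⟨rfl, ?_, Nat.eq_one_of_mul_eq_one_left a5, rfl⟩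
  exact_mod_cast Nat.eq_one_of_mul_eq_one_right a5

theorem counts (hl : 2 < l) (hz : IsPrimitiveRoot z l) {w : Pr L} (hw : ¬Tm l w)
    (hfree : ∀ σ : L ≃ₐ[ℚ] L, act (σ : L ≃+* L) w = w → σ = 1) {v : Pr K} (hv : ¬Tm l v) :
    {u : Pr K | ¬Tm l u}.ncard = Module.finrank ℚ L ∧ ord v (1 - z) = 1 ∧
      Ideal.absNorm v.asIdeal = l ∧ Module.finrank L K = l - 1 := by
  have : FiniteDimensional L K := Module.Finite.of_restrictScalars_finite ℚ L K
  obtain ⟨e, f, h1, h2, h3⟩ := abs_efg v hv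
  rw [← Module.finrank_mul_finrank ℚ L K] at h1
  choose ov hov using fun u : Pr L => exists_over (E' := K) u
  have hg : Module.finrank ℚ L ≤ {u : Pr K | ¬Tm l u}.ncard := by
    rw [← IsGalois.card_aut_eq_finrank, ← Nat.card_coe_set_eq]
    have : Finite {u : Pr K | ¬Tm l u} := finite_wild.to_subtype
    refine Nat.card_le_card_of_injective (fun σ : L ≃ₐ[ℚ] L =>
      (⟨ov (act (σ : L ≃+* L) w), by
        rw [Set.mem_setOf_eq, tm_over (hov _), tm_act]; exact hw⟩ : {u : Pr K | ¬Tm l u})) ?_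
    intro σ τ h
    apply act_inj hfree
    have h' : ov (act (σ : L ≃+* L) w) = ov (act (τ : L ≃+* L) w) := congrArg Subtype.val h
    exact under_unique (hov _) (h' ▸ hov _)
  have h4 : (e : ℤ) = ((l - 1 : ℕ) : ℤ) * ord v (1 - z) := by
    rw [← h2, ord, ord, val_ell hz v, WithZero.log_pow, nsmul_eq_mul, mul_neg]
  obtain ⟨a1, a2, a3, a4⟩ := arith hl Module.finrank_pos h1 Module.finrank_pos hg h4
    (finrank_le hz)
  exact ⟨a1, a2, by rw [h3, a3, pow_one], a4⟩

end Pool.Agent.MP_14ad9d_nt.Full.SetAux
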