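import Pool.Agent.MP_14ad9d_nt.Full.ADefs

set_option autoImplicit false

open MeasureTheory

namespace Pool.Agent.MP_14ad9d_nt.Full.SieveAux

open UnitAddTorus

instance probT (m : ℕ) : IsProbabilityMeasure (muT m) := by
  unfold muT; infer_instance

instance invT (m : ℕ) : (muT m).IsAddRightInvariant := by
  unfold muT; infer_instance

theorem mF_add_right {m : ℕ} (n : Fin m → ℤ) (x y : UnitAddTorus (Fin m)) :
    mFourier n (x + y) = mFourier n x * mFourier n y := by
  simp only [mFourier, ContinuousMap.coe_mk, Pi.add_apply, ← Finset.prod_mul_distrib]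
  refine Finset.prod_congr rfl fun i _ => ?_
  simp only [fourier_apply, smul_add, AddCircle.toCircle_add, Circle.coe_mul]

theorem integral_mF {m : ℕ} (n : Fin m → ℤ) :
    ∫ θ, mFourier n θ ∂(muT m) = if n = 0 then 1 else 0 := by
  split_ifs with h
  · subst h
    simp [mFourier_zero]
  · unfold muT
    simp only [mFourier, ContinuousMap.coe_mk]
    rw [integral_fintype_prod_eq_prod (f := fun i (x : UnitAddCircle) => (fourier (n i) x : ℂ))]
    obtain ⟨i, hi⟩ := Function.ne_iff.mp h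
    apply Finset.prod_eq_zero (Finset.mem_univ i)
    exact integral_eq_zero_of_add_right_eq_neg (μ := AddCircle.haarAddCircle)
      (fourier_add_half_inv_index hi one_pos)

theorem hat_eq {m : ℕ} (f : (Fin m → ℤ) →₀ ℝ) (θ : UnitAddTorus (Fin m)) :
    hat f θ = ∑ n ∈ f.support, (f n : ℂ) * mFourier n θ := rfl

theorem continuous_hat {m : ℕ} (f : (Fin m → ℤ) →₀ ℝ) : Continuous (hat f) := by
  have : hat f = fun θ => ∑ n ∈ f.support, (f n : ℂ) * mFourier n θ := rfl
  rw [this]
  exact continuous_finsetSum _ fun n _ => continuous_const.mul (mFourier n).continuous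

theorem integrable_cont {m : ℕ} {E : Type} [NormedAddCommGroup E] {g : UnitAddTorus (Fin m) → E}
    (hg : Continuous g) : Integrable g (muT m) :=
  hg.integrable_of_hasCompactSupport (HasCompactSupport.of_compactSpace g)

theorem integrable_sq {m : ℕ} (f : (Fin m → ℤ) →₀ ℝ) :
    Integrable (fun θ => ‖hat f θ‖ ^ 2) (muT m) :=
  integrable_cont ((continuous_hat f).norm.pow 2)

theorem sq_hat {m : ℕ} (f : (Fin m → ℤ) →₀ ℝ) (θ : UnitAddTorus (Fin m)) :
    ((‖hat f θ‖ ^ 2 : ℝ) : ℂ) =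
      ∑ n ∈ f.support, ∑ k ∈ f.support, (f n : ℂ) * (f k : ℂ) * mFourier (n - k) θ := by
  rw [Complex.ofReal_pow, ← Complex.mul_conj', hat_eq, map_sum, Finset.sum_mul_sum]
  refine Finset.sum_congr rfl fun n _ => Finset.sum_congr rfl fun k _ => ?_
  rw [map_mul, Complex.conj_ofReal, ← mFourier_neg, sub_eq_add_neg, mFourier_add]
  ring

theorem mass_univ' {m : ℕ} (f : (Fin m → ℤ) →₀ ℝ) :
    mass f Set.univ = f.sum fun _ a => a ^ 2 := by
  classical
  unfold mass
  rw [Measure.restrict_univ]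
  apply Complex.ofReal_injective
  rw [← integral_complex_ofReal]
  simp_rw [sq_hat]
  rw [integral_finsetSum _ fun n _ => integrable_cont (by fun_prop)]
  rw [Finsupp.sum, Complex.ofReal_sum]
  refine Finset.sum_congr rfl fun n hn => ?_
  rw [integral_finsetSum _ fun k _ => integrable_cont (by fun_prop)]
  simp_rw [integral_const_mul, integral_mF, sub_eq_zero]
  rw [Finset.sum_eq_single n]
  · simp [sq]
  · intro k _ hk
    rw [if_neg (Ne.symm hk), mul_zero]
  · intro h
    exact absurd hn h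

theorem mass_mono' {m : ℕ} (f : (Fin m → ℤ) →₀ ℝ) {S T : Set (UnitAddTorus (Fin m))} (h : S ⊆ T) :
    mass f S ≤ mass f T :=
  setIntegral_mono_set (integrable_sq f).integrableOn
    (Filter.Eventually.of_forall fun _ => by positivity) h.eventuallyLE

theorem measurableSet_arcs' (m : ℕ) (N R : ℝ) : MeasurableSet (arcs m N R) := by
  have : arcs m N R = ⋃ q : ℕ, {θ : UnitAddTorus (Fin m) | 1 ≤ q ∧ (q : ℝ) ≤ R ∧ ‖q • θ‖ ≤ R / N} := by
    ext θ
    simp [arcs]
  rw [this]
  refine MeasurableSet.iUnion fun q => ?_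
  by_cases hq : 1 ≤ q ∧ (q : ℝ) ≤ R
  · have : {θ : UnitAddTorus (Fin m) | 1 ≤ q ∧ (q : ℝ) ≤ R ∧ ‖q • θ‖ ≤ R / N} =
        {θ : UnitAddTorus (Fin m) | ‖q • θ‖ ≤ R / N} := by
      ext θ
      simp [hq.1, hq.2]
    rw [this]
    exact (isClosed_le (continuous_nsmul q).norm continuous_const).measurableSet
  · have : {θ : UnitAddTorus (Fin m) | 1 ≤ q ∧ (q : ℝ) ≤ R ∧ ‖q • θ‖ ≤ R / N} = ∅ := by
      ext θ
      simp only [Set.mem_ofPred_eq, Set.mem_empty_iff_false, iff_false]
      exact fun h => hq ⟨h.1, h.2.1⟩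
    rw [this]
    exact MeasurableSet.empty

theorem exists_rep (x : UnitAddCircle) : ∃ t : ℝ, (t : UnitAddCircle) = x ∧ |t| = ‖x‖ := by
  induction x using QuotientAddGroup.induction_on with
  | H y =>
    refine ⟨y - round y, ?_, (UnitAddCircle.norm_eq).symm⟩
    rw [AddCircle.coe_sub, sub_eq_self, AddCircle.coe_eq_zero_iff]
    exact ⟨round y, by simp⟩

theorem mF_near_one {m : ℕ} (n : Fin m → ℤ) (θ : UnitAddTorus (Fin m)) :
    ‖mFourier n θ - 1‖ ≤ 2 * Real.pi * (m * (‖n‖ * ‖θ‖)) := by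
  choose t ht ht' using fun i => exists_rep (θ i)
  have h1 : mFourier n θ = Complex.exp (Complex.I * ((2 * Real.pi * ∑ i, n i * t i : ℝ) : ℂ)) := by
    simp only [mFourier, ContinuousMap.coe_mk]
    simp_rw [← ht, fourier_coe_apply, ← Complex.exp_sum]
    congr 1
    push_cast
    rw [Finset.mul_sum, Finset.mul_sum]
    refine Finset.sum_congr rfl fun i _ => ?_
    ring
  rw [h1]
  refine Real.norm_exp_I_mul_ofReal_sub_one_le.trans ?_
  rw [Real.norm_eq_abs, abs_mul, abs_of_pos (by positivity : 0 < 2 * Real.pi)]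
  refine mul_le_mul_of_nonneg_left ?_ (by positivity)
  refine (Finset.abs_sum_le_sum_abs _ _).trans ?_
  have : ∀ i ∈ (Finset.univ : Finset (Fin m)), |(n i : ℝ) * t i| ≤ ‖n‖ * ‖θ‖ := by
    intro i _
    rw [abs_mul, ht']
    refine mul_le_mul ?_ (norm_le_pi_norm θ i) (norm_nonneg _) (norm_nonneg _)
    have := norm_le_pi_norm n i
    rwa [Int.norm_eq_abs] at this
  refine (Finset.sum_le_card_nsmul _ _ _ this).trans ?_
  simp

theorem measure_ball (m : ℕ) {r : ℝ} (h0 : 0 ≤ r) (h1 : r ≤ 1 / 2) :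
    (muT m).real (Metric.closedBall (0 : UnitAddTorus (Fin m)) r) = (2 * r) ^ m := by
  have h : ∀ x : UnitAddCircle, (AddCircle.haarAddCircle : Measure UnitAddCircle)
      (Metric.closedBall x r) = ENNReal.ofReal (2 * r) := by
    intro x
    have h2 := AddCircle.volume_closedBall (T := 1) (x := x) r
    rw [AddCircle.volume_eq_smul_haarAddCircle, min_eq_right (by linarith)] at h2
    simpa using h2
  unfold muT
  rw [Measure.real, closedBall_pi _ h0, Measure.pi_pi]
  simp only [h, Finset.prod_const, Finset.card_univ, Fintype.card_fin, ENNReal.toReal_pow]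
  rw [ENNReal.toReal_ofReal (by linarith)]

theorem mass_lower' (m : ℕ) (C₀ : ℝ) (hC : 0 < C₀) : ∃ c : ℝ, 0 < c ∧ ∀ N R : ℝ, 1 ≤ N → 1 ≤ R →
    ∀ f : (Fin m → ℤ) →₀ ℝ, (∀ n, 0 ≤ f n) → (∀ n ∈ f.support, ‖n‖ ≤ C₀ * N) →
      c * (f.sum fun _ a => a) ^ 2 ≤ N ^ m * mass f (arcs m N R) := by
  set c' : ℝ := 1 / (16 * (m * C₀ + 1)) with hc'
  have hm : (0 : ℝ) ≤ m * C₀ := by positivity
  have hc0 : 0 < c' := by positivity
  have hc1 : c' * (m * C₀ + 1) = 1 / 16 := by
    rw [hc']; field_simp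
  have hc2 : c' ≤ 1 / 16 := by nlinarith
  refine ⟨(2 * c') ^ m / 4, by positivity, fun N R hN hR f hf hs => ?_⟩
  have hN0 : 0 < N := by linarith
  have hr0 : 0 ≤ c' / N := by positivity
  have hr1 : c' / N ≤ 1 / 2 := by
    rw [div_le_iff₀ hN0]; linarith
  set B := Metric.closedBall (0 : UnitAddTorus (Fin m)) (c' / N) with hB
  have hsub : B ⊆ arcs m N R := by
    intro θ hθ
    refine ⟨1, le_rfl, by simpa using hR, ?_⟩
    rw [one_smul]
    rw [hB, mem_closedBall_zero_iff] at hθ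
    refine hθ.trans ?_
    gcongr
    linarith
  set S : ℝ := f.sum fun _ a => a with hS
  have hS0 : 0 ≤ S := Finset.sum_nonneg fun n _ => hf n
  have hlow : ∀ θ ∈ B, (S / 2) ^ 2 ≤ ‖hat f θ‖ ^ 2 := by
    intro θ hθ
    rw [hB, mem_closedBall_zero_iff] at hθ
    have h1 : S / 2 ≤ (hat f θ).re := by
      rw [hat_eq, Complex.re_sum, hS, Finsupp.sum, Finset.sum_div]
      refine Finset.sum_le_sum fun n hn => ?_
      rw [Complex.re_ofReal_mul]
      have h2 := mF_near_one n θ
      have h3 : ‖n‖ * ‖θ‖ ≤ C₀ * c' := by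
        calc ‖n‖ * ‖θ‖ ≤ (C₀ * N) * (c' / N) :=
              mul_le_mul (hs n hn) hθ (norm_nonneg _) (by positivity)
          _ = C₀ * c' := by field_simp
      have h4 : (m : ℝ) * (‖n‖ * ‖θ‖) ≤ 1 / 16 := by
        calc (m : ℝ) * (‖n‖ * ‖θ‖) ≤ m * (C₀ * c') := by gcongr
          _ ≤ 1 / 16 := by nlinarith
      have h5 : 2 * Real.pi * (m * (‖n‖ * ‖θ‖)) ≤ 1 / 2 := by
        have := Real.pi_le_four
        have h6 : (0 : ℝ) ≤ m * (‖n‖ * ‖θ‖) := by positivity
        nlinarith
      have h7 := Complex.abs_re_le_norm (mFourier n θ - 1)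
      rw [Complex.sub_re, Complex.one_re] at h7
      have h8 := neg_abs_le ((mFourier n θ).re - 1)
      have h9 : 1 / 2 ≤ (mFourier n θ).re := by linarith
      have := hf n
      nlinarith
    have h2 := Complex.re_le_norm (hat f θ)
    gcongr
    linarith
  have h1 : (S / 2) ^ 2 * (2 * (c' / N)) ^ m ≤ mass f B := by
    rw [← measure_ball m hr0 hr1]
    exact setIntegral_ge_of_const_le_real Metric.isClosed_closedBall.measurableSet
      (measure_ne_top _ _) hlow (integrable_sq f).integrableOn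
  have h2 := mass_mono' f hsub
  calc (2 * c') ^ m / 4 * S ^ 2 = N ^ m * ((S / 2) ^ 2 * (2 * (c' / N)) ^ m) := by
        rw [← mul_div_assoc 2 c' N, div_pow (2 * c')]
        field_simp
        norm_num
    _ ≤ N ^ m * mass f (arcs m N R) := by
        gcongr
        exact h1.trans h2

end Pool.Agent.MP_14ad9d_nt.Full.SieveAux
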