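import Pool.Agent.MP_14ad9d_nt.Full.Sieve1

set_option autoImplicit false

open MeasureTheory

namespace Pool.Agent.MP_14ad9d_nt.Full.SieveAux

open UnitAddTorus

/-- the torsion point with coordinates `a i / p` -/
noncomputable def pt {m : ℕ} (p : ℕ) [NeZero p] (a : Fin m → ZMod p) : UnitAddTorus (Fin m) :=
  fun i => ZMod.toAddCircle (a i)

/-- the finite character pairing -/
noncomputable def chi {m : ℕ} (p : ℕ) [NeZero p] (c a : Fin m → ZMod p) : ℂ :=
  ∏ i, ZMod.stdAddChar (a i * c i)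

theorem pt_injective {m : ℕ} (p : ℕ) [NeZero p] : Function.Injective (pt (m := m) p) := by
  intro a b h
  funext i
  exact ZMod.toAddCircle_injective p (congrFun h i)

theorem pt_zero {m : ℕ} (p : ℕ) [NeZero p] : pt (m := m) p 0 = 0 := by
  funext i
  simp [pt]

theorem smul_pt {m : ℕ} (p : ℕ) [NeZero p] (a : Fin m → ZMod p) : p • pt p a = 0 := by
  funext i
  simp only [pt, Pi.smul_apply, Pi.zero_apply]
  rw [← map_nsmul, nsmul_eq_mul, ZMod.natCast_self, zero_mul, map_zero]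

theorem mF_pt {m : ℕ} (p : ℕ) [NeZero p] (n : Fin m → ℤ) (a : Fin m → ZMod p) :
    mFourier n (pt p a) = chi p (fun i => (n i : ZMod p)) a := by
  simp only [mFourier, ContinuousMap.coe_mk, chi, pt]
  refine Finset.prod_congr rfl fun i _ => ?_
  rw [fourier_apply, ← map_zsmul, zsmul_eq_mul, mul_comm]
  rfl

theorem chi_orth {m : ℕ} (p : ℕ) [NeZero p] (c d : Fin m → ZMod p) :
    ∑ a, chi p c a * (starRingEnd ℂ) (chi p d a) = if c = d then (p : ℂ) ^ m else 0 := by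
  classical
  have h1 : ∀ a : Fin m → ZMod p, chi p c a * (starRingEnd ℂ) (chi p d a) =
      ∏ i, ZMod.stdAddChar (a i * (c i - d i)) := by
    intro a
    rw [chi, chi, map_prod, ← Finset.prod_mul_distrib]
    refine Finset.prod_congr rfl fun i _ => ?_
    rw [mul_sub, sub_eq_add_neg, AddChar.map_add_eq_mul, AddChar.map_neg_eq_inv]
    congr 1
    rw [ZMod.stdAddChar_apply, ← Circle.coe_inv_eq_conj, Circle.coe_inv]
  simp_rw [h1]
  rw [← Fintype.piFinset_univ,
    ← Finset.prod_univ_sum (fun _ => Finset.univ) (fun i x => ZMod.stdAddChar (x * (c i - d i)))]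
  simp_rw [AddChar.sum_mulShift _ (ZMod.isPrimitive_stdAddChar p), ZMod.card]
  split_ifs with h
  · subst h
    simp
  · obtain ⟨i, hi⟩ := Function.ne_iff.mp h
    apply Finset.prod_eq_zero (Finset.mem_univ i)
    rw [if_neg (sub_ne_zero.mpr hi), Nat.cast_zero]

theorem planch {m : ℕ} (p : ℕ) [NeZero p] (G : (Fin m → ZMod p) → ℂ) :
    ∑ a, ‖∑ c, G c * chi p c a‖ ^ 2 = (p : ℝ) ^ m * ∑ c, ‖G c‖ ^ 2 := by
  classical
  apply Complex.ofReal_injective
  push_cast
  simp_rw [← Complex.mul_conj', map_sum, Finset.sum_mul_sum]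
  rw [Finset.sum_comm, Finset.mul_sum]
  refine Finset.sum_congr rfl fun c _ => ?_
  rw [Finset.sum_comm]
  have : ∀ d, ∑ a, G c * chi p c a * (starRingEnd ℂ) (G d * chi p d a) =
      G c * (starRingEnd ℂ) (G d) * if c = d then (p : ℂ) ^ m else 0 := by
    intro d
    rw [← chi_orth, Finset.mul_sum]
    refine Finset.sum_congr rfl fun a _ => ?_
    rw [map_mul]
    ring
  simp_rw [this]
  rw [Finset.sum_eq_single c]
  · rw [if_pos rfl]; ring
  · intro d _ hd
    rw [if_neg (Ne.symm hd), mul_zero]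
  · intro h
    exact absurd (Finset.mem_univ c) h

/-- the one-prime inequality -/
theorem one_prime {m : ℕ} (p : ℕ) [NeZero p] (Ω : Set (Fin m → ZMod p)) (hΩ : Ω.ncard < p ^ m)
    (f : (Fin m → ℤ) →₀ ℝ) (hf : ∀ n ∈ f.support, (fun i => (n i : ZMod p)) ∉ Ω)
    (θ : UnitAddTorus (Fin m)) :
    ((Ω.ncard : ℝ) / ((p : ℝ) ^ m - Ω.ncard)) * ‖hat f θ‖ ^ 2 ≤
      ∑ a ∈ (Finset.univ : Finset (Fin m → ZMod p)).erase 0, ‖hat f (θ + pt p a)‖ ^ 2 := by
  classical
  set G : (Fin m → ZMod p) → ℂ := fun c =>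
    ∑ n ∈ f.support with (fun i => (n i : ZMod p)) = c, (f n : ℂ) * mFourier n θ with hG
  have h1 : ∀ a, hat f (θ + pt p a) = ∑ c, G c * chi p c a := by
    intro a
    rw [hat_eq, ← Finset.sum_fiberwise (s := f.support) (g := fun n i => (n i : ZMod p))]
    refine Finset.sum_congr rfl fun c _ => ?_
    rw [hG, Finset.sum_mul]
    refine Finset.sum_congr rfl fun n hn => ?_
    rw [mF_add_right, mF_pt, (Finset.mem_filter.mp hn).2, mul_assoc]
  have h2 : ∑ a, ‖hat f (θ + pt p a)‖ ^ 2 = (p : ℝ) ^ m * ∑ c, ‖G c‖ ^ 2 := by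
    simp_rw [h1]
    exact planch p G
  set A : Finset (Fin m → ZMod p) := Finset.univ.filter fun c => c ∉ Ω with hA
  have hAc : (A.card : ℝ) = (p : ℝ) ^ m - Ω.ncard := by
    have h3 := Finset.card_filter_add_card_filter_not (s := (Finset.univ : Finset (Fin m → ZMod p)))
      (fun c => c ∈ Ω)
    rw [Finset.card_univ, Fintype.card_fun, ZMod.card, Fintype.card_fin] at h3
    have h4 : (Finset.univ.filter fun c => c ∈ Ω).card = Ω.ncard := by
      rw [← Set.ncard_coe_finset]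
      congr 1
      ext c
      simp
    rw [h4] at h3
    have h5 : ((Ω.ncard + A.card : ℕ) : ℝ) = ((p ^ m : ℕ) : ℝ) := by rw [← h3]
    push_cast at h5
    linarith
  have h3 : hat f θ = ∑ c ∈ A, G c := by
    rw [hat_eq, ← Finset.sum_fiberwise_of_maps_to (s := f.support) (t := A)
      (g := fun n i => (n i : ZMod p))]
    intro n hn
    exact Finset.mem_filter.mpr ⟨Finset.mem_univ _, hf n hn⟩
  have h4 : ‖hat f θ‖ ^ 2 ≤ ((p : ℝ) ^ m - Ω.ncard) * ∑ c, ‖G c‖ ^ 2 := by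
    rw [h3, ← hAc]
    calc ‖∑ c ∈ A, G c‖ ^ 2 ≤ (∑ c ∈ A, ‖G c‖) ^ 2 := by
          gcongr
          exact norm_sum_le _ _
      _ ≤ A.card * ∑ c ∈ A, ‖G c‖ ^ 2 := sq_sum_le_card_mul_sum_sq
      _ ≤ A.card * ∑ c, ‖G c‖ ^ 2 := by
          gcongr
          exact Finset.subset_univ _
  have h5 := Finset.add_sum_erase (Finset.univ : Finset (Fin m → ZMod p))
    (fun a => ‖hat f (θ + pt p a)‖ ^ 2) (Finset.mem_univ 0)
  simp only [pt_zero, add_zero] at h5
  have h6 : (0 : ℝ) < (p : ℝ) ^ m - Ω.ncard := by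
    have : ((Ω.ncard : ℕ) : ℝ) < ((p ^ m : ℕ) : ℝ) := by exact_mod_cast hΩ
    push_cast at this
    linarith
  have h7 : (0 : ℝ) ≤ (p : ℝ) ^ m := by positivity
  rw [div_mul_eq_mul_div, div_le_iff₀ h6]
  have h8 := mul_le_mul_of_nonneg_left h4 h7
  have h9 : ∑ a ∈ (Finset.univ : Finset (Fin m → ZMod p)).erase 0, ‖hat f (θ + pt p a)‖ ^ 2 =
      (p : ℝ) ^ m * (∑ c, ‖G c‖ ^ 2) - ‖hat f θ‖ ^ 2 := by linarith
  rw [h9]
  nlinarith

theorem eq_zero_of_coprime {G : Type} [AddCommGroup G] {x : G} {a b : ℕ} (hab : a.Coprime b)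
    (ha : a • x = 0) (hb : b • x = 0) : x = 0 := by
  have h1 := addOrderOf_dvd_of_nsmul_eq_zero ha
  have h2 := addOrderOf_dvd_of_nsmul_eq_zero hb
  have h3 := Nat.dvd_gcd h1 h2
  rw [hab, Nat.dvd_one] at h3
  exact AddMonoid.addOrderOf_eq_one_iff.mp h3

/-- the inequality for a squarefree modulus -/
theorem many_primes {m : ℕ} (Ω : ∀ p : ℕ, Set (Fin m → ZMod p)) (f : (Fin m → ℤ) →₀ ℝ)
    (s : Finset ℕ) (hP : ∀ p ∈ s, p.Prime) (hΩ : ∀ p ∈ s, (Ω p).ncard < p ^ m)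
    (hf : ∀ n ∈ f.support, ∀ p ∈ s, (fun i => (n i : ZMod p)) ∉ Ω p) :
    ∃ F : Finset (UnitAddTorus (Fin m)), (∀ ψ ∈ F, addOrderOf ψ = ∏ p ∈ s, p) ∧
      ∀ θ, (∏ p ∈ s, (((Ω p).ncard : ℝ) / ((p : ℝ) ^ m - (Ω p).ncard))) * ‖hat f θ‖ ^ 2 ≤
        ∑ ψ ∈ F, ‖hat f (θ + ψ)‖ ^ 2 := by
  classical
  induction s using Finset.induction_on with
  | empty => exact ⟨{0}, by simp, fun θ => by simp⟩
  | insert p s hps ih =>
    obtain ⟨F, hF1, hF2⟩ := ih (fun q hq => hP q (Finset.mem_insert_of_mem hq))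
      (fun q hq => hΩ q (Finset.mem_insert_of_mem hq))
      (fun n hn q hq => hf n hn q (Finset.mem_insert_of_mem hq))
    have hp : p.Prime := hP p (Finset.mem_insert_self _ _)
    have : Fact p.Prime := ⟨hp⟩
    have : NeZero p := ⟨hp.ne_zero⟩
    have hcop : (∏ q ∈ s, q).Coprime p := by
      refine Nat.Coprime.prod_left fun q hq => ?_
      refine (Nat.coprime_primes (hP q (Finset.mem_insert_of_mem hq)) hp).mpr ?_
      rintro rfl
      exact hps hq
    set E : Finset (Fin m → ZMod p) := Finset.univ.erase 0 with hE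
    have hinj : Set.InjOn (fun x : UnitAddTorus (Fin m) × (Fin m → ZMod p) => x.1 + pt p x.2)
        ((F ×ˢ E : Finset _) : Set _) := by
      rintro ⟨ψ, a⟩ h1 ⟨ψ', a'⟩ h2 h
      simp only [Finset.coe_product, Set.mem_prod, Finset.mem_coe] at h1 h2
      simp only at h
      have h3 : ψ - ψ' = pt p a' - pt p a := by
        rw [sub_eq_sub_iff_add_eq_add, h, add_comm]
      have h4 : ψ - ψ' = 0 := by
        refine eq_zero_of_coprime hcop ?_ ?_
        · rw [smul_sub]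
          nth_rewrite 1 [← hF1 ψ h1.1]
          rw [← hF1 ψ' h2.1, addOrderOf_nsmul_eq_zero, addOrderOf_nsmul_eq_zero, sub_zero]
        · rw [h3, smul_sub, smul_pt, smul_pt, sub_zero]
      have h5 : ψ = ψ' := sub_eq_zero.mp h4
      subst h5
      rw [pt_injective p (add_left_cancel h)]
    refine ⟨(F ×ˢ E).image fun x => x.1 + pt p x.2, ?_, fun θ => ?_⟩
    · intro ψ hψ
      obtain ⟨⟨φ, a⟩, hx, rfl⟩ := Finset.mem_image.mp hψ
      obtain ⟨h1, h2⟩ := Finset.mem_product.mp hx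
      have h3 : addOrderOf (pt p a) = p := by
        refine addOrderOf_eq_prime (smul_pt p a) fun h => ?_
        rw [← pt_zero p] at h
        exact (Finset.mem_erase.mp h2).1 (pt_injective p h)
      rw [Finset.prod_insert hps, (AddCommute.all _ _).addOrderOf_add_eq_mul_addOrderOf_of_coprime,
        hF1 φ h1, h3, mul_comm]
      rw [hF1 φ h1, h3]
      exact hcop
    · rw [Finset.sum_image hinj, Finset.sum_product, Finset.prod_insert hps, mul_assoc]
      have h0 : (0 : ℝ) ≤ ((Ω p).ncard : ℝ) / ((p : ℝ) ^ m - (Ω p).ncard) := by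
        have : (((Ω p).ncard : ℕ) : ℝ) < ((p ^ m : ℕ) : ℝ) := by
          exact_mod_cast hΩ p (Finset.mem_insert_self _ _)
        push_cast at this
        exact div_nonneg (by positivity) (by linarith)
      refine (mul_le_mul_of_nonneg_left (hF2 θ) h0).trans ?_
      rw [Finset.mul_sum]
      refine Finset.sum_le_sum fun ψ _ => ?_
      simp_rw [← add_assoc]
      exact one_prime p (Ω p) (hΩ p (Finset.mem_insert_self _ _)) f
        (fun n hn => hf n hn p (Finset.mem_insert_self _ _)) (θ + ψ)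

theorem eq_zero_of_small {m : ℕ} {x : UnitAddTorus (Fin m)} {k : ℕ} (hk : 0 < k) (h : k • x = 0)
    (hs : k * ‖x‖ < 1) : x = 0 := by
  funext i
  by_contra hne
  have h1 : k • x i = 0 := congrFun h i
  have h2 : IsOfFinAddOrder (x i) := isOfFinAddOrder_iff_nsmul_eq_zero.mpr ⟨k, hk, h1⟩
  have h3 := AddCircle.le_add_order_smul_norm_of_isOfFinAddOrder h2 hne
  rw [nsmul_eq_mul] at h3
  have h4 : (addOrderOf (x i) : ℝ) ≤ k := by
    exact_mod_cast addOrderOf_le_of_nsmul_eq_zero hk h1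
  have h5 : (addOrderOf (x i) : ℝ) * ‖x i‖ ≤ k * ‖x‖ :=
    mul_le_mul h4 (norm_le_pi_norm x i) (norm_nonneg _) (by positivity)
  linarith

/-- translates of the major arcs by distinct torsion points are disjoint -/
theorem sep {m : ℕ} {N R D : ℝ} (hR : 1 ≤ R) (hD : 1 ≤ D) (hsep : 2 * R ^ 2 * D ^ 2 < N)
    {ψ ψ' θ : UnitAddTorus (Fin m)} {d d' : ℕ} (hd0 : 0 < d) (hd0' : 0 < d')
    (hd : d • ψ = 0) (hd' : d' • ψ' = 0) (h1 : (d : ℝ) ≤ D) (h1' : (d' : ℝ) ≤ D)
    (hc : ∀ q : ℕ, 1 ≤ q → (q : ℝ) ≤ R → q.Coprime d)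
    (hc' : ∀ q : ℕ, 1 ≤ q → (q : ℝ) ≤ R → q.Coprime d')
    (h : θ - ψ ∈ arcs m N R) (h' : θ - ψ' ∈ arcs m N R) : ψ = ψ' := by
  obtain ⟨q, hq1, hq2, hq3⟩ := h
  obtain ⟨q', hq1', hq2', hq3'⟩ := h'
  have hN : 0 < N := lt_trans (by positivity) hsep
  have hdd : (d * d') • (ψ' - ψ) = 0 := by
    rw [smul_sub, mul_smul, hd', smul_zero, mul_comm, mul_smul, hd, smul_zero, sub_zero]
  have e1 : (q * q') • (ψ' - ψ) = q' • (q • (θ - ψ)) - q • (q' • (θ - ψ')) := by
    rw [← mul_smul, ← mul_smul, mul_comm q' q, ← smul_sub]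
    congr 1
    abel
  have e2 : ‖(q * q') • (ψ' - ψ)‖ ≤ 2 * R ^ 2 / N := by
    rw [e1]
    refine (norm_sub_le _ _).trans ?_
    have a1 : ‖q' • (q • (θ - ψ))‖ ≤ R * (R / N) :=
      (norm_nsmul_le).trans (mul_le_mul hq2' hq3 (norm_nonneg _) (by linarith))
    have a2 : ‖q • (q' • (θ - ψ'))‖ ≤ R * (R / N) :=
      (norm_nsmul_le).trans (mul_le_mul hq2 hq3' (norm_nonneg _) (by linarith))
    calc _ ≤ R * (R / N) + R * (R / N) := add_le_add a1 a2
      _ = 2 * R ^ 2 / N := by ring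
  have e3 : (q * q') • (ψ' - ψ) = 0 := by
    refine eq_zero_of_small (k := d * d') (Nat.mul_pos hd0 hd0') ?_ ?_
    · rw [smul_comm, hdd, smul_zero]
    · have a1 : ((d * d' : ℕ) : ℝ) ≤ D ^ 2 := by
        push_cast
        rw [sq]
        exact mul_le_mul h1 h1' (by positivity) (by linarith)
      calc ((d * d' : ℕ) : ℝ) * ‖(q * q') • (ψ' - ψ)‖ ≤ D ^ 2 * (2 * R ^ 2 / N) :=
            mul_le_mul a1 e2 (norm_nonneg _) (by positivity)
        _ = 2 * R ^ 2 * D ^ 2 / N := by ring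
        _ < 1 := (div_lt_one hN).mpr hsep
  have hcop : (q * q').Coprime (d * d') :=
    Nat.Coprime.mul_left (Nat.Coprime.mul_right (hc q hq1 hq2) (hc' q hq1 hq2))
      (Nat.Coprime.mul_right (hc q' hq1' hq2') (hc' q' hq1' hq2'))
  exact (sub_eq_zero.mp (eq_zero_of_coprime hcop e3 hdd)).symm

theorem integral_shift {m : ℕ} (g : UnitAddTorus (Fin m) → ℝ) {A : Set (UnitAddTorus (Fin m))}
    (hA : MeasurableSet A) (ψ : UnitAddTorus (Fin m)) :
    ∫ θ in A, g (θ + ψ) ∂(muT m) = ∫ θ in {θ | θ - ψ ∈ A}, g θ ∂(muT m) := by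
  have hB : MeasurableSet {θ | θ - ψ ∈ A} := (measurable_sub_const ψ) hA
  rw [← integral_indicator hA, ← integral_indicator hB,
    ← integral_add_right_eq_self (μ := muT m) (({θ | θ - ψ ∈ A} : Set _).indicator g) ψ]
  congr 1
  funext θ
  by_cases h : θ ∈ A
  · rw [Set.indicator_of_mem h, Set.indicator_of_mem (by simpa using h)]
  · rw [Set.indicator_of_notMem h, Set.indicator_of_notMem (by simpa using h)]

end Pool.Agent.MP_14ad9d_nt.Full.SieveAux
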