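import Pool.Agent.MP_14ad9d_nt.Full.SDefs
import Pool.Agent.MP_14ad9d_nt.Full.WA

set_option autoImplicit false

open NumberField IsDedekindDomain

namespace Pool.Agent.MP_14ad9d_nt.Full.Sym1Aux

section Gen

variable {K Γ : Type} [Field K] [LinearOrderedCommGroupWithZero Γ] (V : Valuation K Γ)

theorem val_root {n : ℕ} (hn : n ≠ 0) {z : K} (hz : z ^ n = 1) : V z = 1 := by
  have h : V z ^ n = 1 := by rw [← map_pow, hz, map_one]
  exact (pow_eq_one_iff_left hn).1 h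

theorem val_pow_sub_pow_le {x y : K} (hx : V x ≤ 1) (hy : V y ≤ 1) (n : ℕ) :
    V (x ^ n - y ^ n) ≤ V (x - y) := by
  rw [← Commute.geom_sum₂_mul (Commute.all x y) n, map_mul]
  refine mul_le_of_le_one_left' (V.map_sum_le fun i _ => ?_)
  rw [map_mul, map_pow, map_pow]
  exact mul_le_one' (pow_le_one' hx _) (pow_le_one' hy _)

theorem val_mul_sub_lt {x y x' y' : K} (hx : V x ≤ 1) (hy : V y' ≤ 1) (h1 : V (x - x') < 1)
    (h2 : V (y - y') < 1) : V (x * y - x' * y') < 1 := by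
  have e : x * y - x' * y' = x * (y - y') + (x - x') * y' := by ring
  rw [e]
  refine V.map_add_lt ?_ ?_
  · rw [map_mul]
    exact (mul_le_of_le_one_left' hx).trans_lt h2
  · rw [map_mul]
    exact (mul_le_of_le_one_right' hy).trans_lt h1

theorem val_trans {x y z : K} (h1 : V (x - y) < 1) (h2 : V (y - z) < 1) : V (x - z) < 1 := by
  have e : x - z = (x - y) + (y - z) := by ring
  rw [e]
  exact V.map_add_lt h1 h2

theorem val_symm {x y : K} (h1 : V (x - y) < 1) : V (y - x) < 1 := by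
  rwa [V.map_sub_swap]

theorem val_eq_one_of {x y : K} (hx : V x = 1) (h : V (x - y) < 1) : V y = 1 := by
  rw [← hx]
  apply V.map_eq_of_sub_lt
  rw [hx]
  exact val_symm V h

theorem val_one_sub_pow_le {z : K} (hz : V z ≤ 1) (n : ℕ) : V (1 - z ^ n) ≤ V (1 - z) := by
  have := val_pow_sub_pow_le V (x := 1) (y := z) (by simp) hz n
  rwa [one_pow] at this

theorem val_one_sub_pow {l : ℕ} (hl : l.Prime) {ζ : K} (hζ : IsPrimitiveRoot ζ l) {i : ℕ}
    (h0 : 0 < i) (h1 : i < l) : V (1 - ζ ^ i) = V (1 - ζ) := by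
  have hz : V ζ = 1 := val_root V hl.ne_zero hζ.pow_eq_one
  refine le_antisymm (val_one_sub_pow_le V hz.le i) ?_
  have hi : IsPrimitiveRoot (ζ ^ i) l :=
    hζ.pow_of_coprime i ((Nat.coprime_of_lt_prime h0.ne' h1 hl).symm)
  have : NeZero l := ⟨hl.ne_zero⟩
  obtain ⟨j, -, hj⟩ := hi.eq_pow_of_pow_eq_one hζ.pow_eq_one
  have := val_one_sub_pow_le V (z := ζ ^ i) (by rw [map_pow, hz, one_pow]) j
  rwa [hj] at this

theorem val_ell_gen {l : ℕ} (hl : l.Prime) {ζ : K} (hζ : IsPrimitiveRoot ζ l) :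
    V (l : K) = V (1 - ζ) ^ (l - 1) := by
  obtain ⟨n, rfl⟩ : ∃ n, l = n + 1 := ⟨l - 1, (Nat.succ_pred_eq_of_pos hl.pos).symm⟩
  have h := hζ.prod_one_sub_pow_eq_order
  rw [Nat.cast_succ, ← h, map_prod, Nat.add_sub_cancel,
    Finset.prod_congr rfl fun i hi => val_one_sub_pow V hl hζ (Nat.succ_pos i)
      (Nat.succ_lt_succ (Finset.mem_range.1 hi)), Finset.prod_const, Finset.card_range]

theorem exists_root {l : ℕ} (hl : l.Prime) {ζ : K} (hζ : IsPrimitiveRoot ζ l) {y : K}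
    (h : V (y ^ l - 1) < 1) : ∃ i : ZMod l, V (y - ζ ^ i.val) < 1 := by
  have : NeZero l := ⟨hl.ne_zero⟩
  have e := hζ.pow_sub_pow_eq_prod_sub_mul y 1 hl.pos
  rw [one_pow] at e
  rw [e, map_prod] at h
  by_contra hc
  push Not at hc
  refine absurd h (not_lt.2 (Finset.one_le_prod' fun μ hμ => ?_))
  obtain ⟨i, hi, rfl⟩ := hζ.eq_pow_of_pow_eq_one ((Polynomial.mem_nthRootsFinset hl.pos 1).1 hμ)
  have := hc (i : ZMod l)
  rwa [ZMod.val_cast_of_lt hi, ← mul_one (ζ ^ i)] at this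

theorem root_inj {l : ℕ} (hl : l.Prime) {ζ : K} (hζ : IsPrimitiveRoot ζ l) (h1 : V (1 - ζ) = 1)
    {i j : ZMod l} (h : V (ζ ^ i.val - ζ ^ j.val) < 1) : i = j := by
  have : NeZero l := ⟨hl.ne_zero⟩
  have hz : V ζ = 1 := val_root V hl.ne_zero hζ.pow_eq_one
  have key : ∀ a b : ℕ, a < b → b < l → V (ζ ^ a - ζ ^ b) = 1 := by
    intro a b hab hb
    have e : ζ ^ a - ζ ^ b = ζ ^ a * (1 - ζ ^ (b - a)) := by
      rw [mul_sub, mul_one, ← pow_add, Nat.add_sub_cancel' hab.le]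
    rw [e, map_mul, map_pow, hz, one_pow, one_mul,
      val_one_sub_pow V hl hζ (Nat.sub_pos_of_lt hab) (by omega), h1]
  apply ZMod.val_injective
  rcases lt_trichotomy i.val j.val with hij | hij | hij
  · exact absurd h (by rw [key _ _ hij (ZMod.val_lt j)]; exact lt_irrefl _)
  · exact hij
  · exact absurd (val_symm V h) (by rw [key _ _ hij (ZMod.val_lt i)]; exact lt_irrefl _)

theorem near_step {l : ℕ} {x γ δ : K} {ε : Γ} (hδ : δ ≠ 0)
    (h1 : V (x / δ ^ l - 1) ≤ ε) (h2 : V (γ - δ) ≤ V δ * ε) (h3 : V (γ - δ) < V δ) :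
    V (x / γ ^ l - 1) ≤ ε := by
  have d0 : V δ ≠ 0 := (Valuation.ne_zero_iff _).2 hδ
  have dpos : 0 < V δ := zero_lt_iff.2 d0
  have e1 : γ / δ - 1 = (γ - δ) / δ := by field_simp
  have a1 : V (γ / δ - 1) ≤ ε := by
    rw [e1, map_div₀, div_le_iff₀ dpos, mul_comm]
    exact h2
  have a2 : V (γ / δ - 1) < 1 := by
    rw [e1, map_div₀, div_lt_iff₀ dpos, one_mul]
    exact h3
  have a3 : V (γ / δ) = 1 := val_eq_one_of V (map_one V) (val_symm V a2)
  have g0 : γ ≠ 0 := by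
    rintro rfl
    simp at a3
  have a4 : V ((γ / δ) ^ l - 1) ≤ ε := by
    have := val_pow_sub_pow_le V (x := γ / δ) (y := 1) a3.le (by simp) l
    rw [one_pow] at this
    exact this.trans a1
  have e2 : x / γ ^ l - 1 = ((x / δ ^ l - 1) - ((γ / δ) ^ l - 1)) / (γ / δ) ^ l := by
    rw [div_pow]
    field_simp
    ring
  rw [e2, map_div₀, map_pow, a3, one_pow, div_one]
  exact V.map_sub_le h1 a4

end Gen

variable {E : Type} [Field E] [NumberField E]

theorem val_eq_one_iff (v : Pr E) {x : E} (hx : x ≠ 0) : v.valuation E x = 1 ↔ ord v x = 0 := by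
  rw [val_eq_exp v hx, WithZero.exp_eq_one, neg_eq_zero]

theorem val_lt_one_iff (v : Pr E) {x : E} (hx : x ≠ 0) : v.valuation E x < 1 ↔ 0 < ord v x := by
  rw [val_eq_exp v hx, ← WithZero.exp_zero, WithZero.exp_lt_exp]
  omega

theorem val_int_lt (v : Pr E) (a : 𝓞 E) : v.valuation E (a : E) < 1 ↔ a ∈ v.asIdeal :=
  v.valuation_lt_one_iff_mem a

theorem val_int_eq (v : Pr E) (a : 𝓞 E) : v.valuation E (a : E) = 1 ↔ a ∉ v.asIdeal :=
  v.valuation_eq_one_iff_notMem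

theorem exists_approx (v : Pr E) {x : E} (hx : v.valuation E x ≤ 1) :
    ∃ a : 𝓞 E, v.valuation E (x - (a : E)) < 1 := by
  obtain ⟨a, ha⟩ := v.exists_valuation_sub_lt_of_integer hx 1
  exact ⟨a, val_symm _ ha⟩

theorem card_res (v : Pr E) : Nat.card (𝓞 E ⧸ v.asIdeal) = Ideal.absNorm v.asIdeal := by
  rw [Ideal.absNorm_apply, Submodule.cardQuot_apply]

theorem finite_res (v : Pr E) : Finite (𝓞 E ⧸ v.asIdeal) :=
  Ideal.finiteQuotientOfFreeOfNeBot _ v.ne_bot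

/-- a primitive root modulo a prime -/
theorem exists_gen (v : Pr E) : ∃ g : 𝓞 E, g ∉ v.asIdeal ∧
    (∀ n : ℕ, g ^ n - 1 ∈ v.asIdeal ↔ Ideal.absNorm v.asIdeal - 1 ∣ n) ∧
    ∀ a : 𝓞 E, a ∉ v.asIdeal → ∃ k : ℕ, a - g ^ k ∈ v.asIdeal := by
  classical
  have := v.isMaximal
  let := Ideal.Quotient.field v.asIdeal
  have := finite_res v
  obtain ⟨u, hu⟩ := IsCyclic.exists_monoid_generator (α := (𝓞 E ⧸ v.asIdeal)ˣ)
  obtain ⟨g, hg⟩ := Ideal.Quotient.mk_surjective (u : 𝓞 E ⧸ v.asIdeal)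
  have ho : orderOf u = Ideal.absNorm v.asIdeal - 1 := by
    rw [orderOf_eq_card_of_forall_mem_powers hu, Nat.card_units, card_res]
  refine ⟨g, fun h => u.ne_zero (hg ▸ Ideal.Quotient.eq_zero_iff_mem.2 h), fun n => ?_,
    fun a ha => ?_⟩
  · rw [← Ideal.Quotient.eq, map_pow, map_one, hg, ← ho, orderOf_dvd_iff_pow_eq_one,
      ← Units.val_pow_eq_pow_val, Units.val_eq_one]
  · have a0 : Ideal.Quotient.mk v.asIdeal a ≠ 0 := fun h =>
      ha (Ideal.Quotient.eq_zero_iff_mem.1 h)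
    obtain ⟨k, hk⟩ := hu (Units.mk0 _ a0)
    refine ⟨k, Ideal.Quotient.eq.1 ?_⟩
    rw [map_pow, hg, ← Units.val_pow_eq_pow_val]
    exact (congrArg Units.val hk).symm

theorem one_lt_norm (v : Pr E) : 1 < Ideal.absNorm v.asIdeal := by
  have := v.isMaximal
  let := Ideal.Quotient.field v.asIdeal
  have := finite_res v
  rw [← card_res]
  exact Finite.one_lt_card

/-- the same in terms of valuations -/
theorem exists_gen' (v : Pr E) : ∃ g : 𝓞 E, v.valuation E (g : E) = 1 ∧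
    (∀ n : ℕ, v.valuation E ((g : E) ^ n - 1) < 1 ↔ Ideal.absNorm v.asIdeal - 1 ∣ n) ∧
    ∀ x : E, v.valuation E x = 1 → ∃ k : ℕ, v.valuation E (x - (g : E) ^ k) < 1 := by
  obtain ⟨g, h1, h2, h3⟩ := exists_gen v
  refine ⟨g, (val_int_eq v g).2 h1, fun n => ?_, fun x hx => ?_⟩
  · rw [← h2, ← val_int_lt]
    simp
  · obtain ⟨a, ha⟩ := exists_approx v hx.le
    obtain ⟨k, hk⟩ := h3 a ((val_int_eq v a).1 (val_eq_one_of _ hx ha))
    refine ⟨k, val_trans _ ha ?_⟩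
    have := (val_int_lt v _).2 hk
    simpa using this

theorem fermat (v : Pr E) {x : E} (hx : v.valuation E x = 1) :
    v.valuation E (x ^ (Ideal.absNorm v.asIdeal - 1) - 1) < 1 := by
  obtain ⟨g, h1, h2, h3⟩ := exists_gen' v
  obtain ⟨k, hk⟩ := h3 x hx
  refine val_trans _ ((val_pow_sub_pow_le _ hx.le (by rw [map_pow, h1, one_pow]) _).trans_lt hk) ?_
  rw [← pow_mul, h2]
  exact Dvd.intro_left k rfl

theorem exists_nat (v : Pr E) (h : Deg1 v) (a : 𝓞 E) : ∃ n : ℕ, a - n ∈ v.asIdeal := by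
  have := v.isMaximal
  let := Ideal.Quotient.field v.asIdeal
  have : Fact (Ideal.absNorm v.asIdeal).Prime := ⟨h⟩
  obtain ⟨n, hn⟩ := mem_multiples_of_prime_card (card_res v) (g := (1 : 𝓞 E ⧸ v.asIdeal))
    (g' := Ideal.Quotient.mk v.asIdeal a) one_ne_zero
  refine ⟨n, Ideal.Quotient.eq.1 ?_⟩
  rw [← hn, map_natCast]
  simp

end Pool.Agent.MP_14ad9d_nt.Full.Sym1Aux
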