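import Pool.Agent.MP_14ad9d_nt.Full.SDefs
import Pool.Agent.MP_14ad9d_nt.Full.WA
import Pool.Agent.MP_14ad9d_nt.Full.Sym11

set_option autoImplicit false

open NumberField IsDedekindDomain

namespace Pool.Agent.MP_14ad9d_nt.Full

variable {l : ℕ} [Fact l.Prime] {E : Type} [Field E] [NumberField E] {ζ : E}

open Sym1Aux

theorem Sym1Aux.val_tame (hζ : IsPrimitiveRoot ζ l) {v : Pr E} (hv : Tm l v) :
    v.valuation E (1 - ζ) = 1 := by
  have hl : l.Prime := Fact.out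
  have h1 : v.valuation E (l : E) = 1 := by
    have := (val_int_eq v (l : 𝓞 E)).2 hv
    simpa using this
  rw [val_ell_gen _ hl hζ] at h1
  exact (pow_eq_one_iff_left (by have := hl.one_lt; omega)).1 h1

theorem Sym1Aux.u_ne (v : Pr E) {x y : E} (hx : x ≠ 0) (hy : y ≠ 0) :
    x ^ ord v y / y ^ ord v x ≠ 0 :=
  div_ne_zero (zpow_ne_zero _ hx) (zpow_ne_zero _ hy)

theorem Sym1Aux.u_ord (v : Pr E) {x y : E} (hx : x ≠ 0) (hy : y ≠ 0) :
    ord v (x ^ ord v y / y ^ ord v x) = 0 := by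
  rw [div_eq_mul_inv, ord_mul v (zpow_ne_zero _ hx) (inv_ne_zero (zpow_ne_zero _ hy)), ord_inv,
    ord_zpow, ord_zpow]
  ring

theorem finite_wild : {v : Pr E | ¬Tm l v}.Finite := by
  refine (ord_finite (l : E)).subset fun v hv h => hv ?_
  have h0 : (l : 𝓞 E) ≠ 0 := Nat.cast_ne_zero.2 (Fact.out : l.Prime).ne_zero
  exact (ord_eq_zero_iff v h0).1 (by simpa using h)

theorem norm_mod (hζ : IsPrimitiveRoot ζ l) {v : Pr E} (hv : Tm l v) :
    l ∣ Ideal.absNorm v.asIdeal - 1 := by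
  have hl : l.Prime := Fact.out
  obtain ⟨g, h1, h2, h3⟩ := exists_gen' v
  have hz : v.valuation E ζ = 1 := val_root _ hl.ne_zero hζ.pow_eq_one
  obtain ⟨k, hk⟩ := h3 ζ hz
  have a1 : Ideal.absNorm v.asIdeal - 1 ∣ k * l := by
    rw [← h2, pow_mul, ← hζ.pow_eq_one]
    exact (val_pow_sub_pow_le _ (by rw [map_pow, h1, one_pow]) hz.le l).trans_lt (val_symm _ hk)
  by_contra hc
  have a2 : Ideal.absNorm v.asIdeal - 1 ∣ k :=
    ((hl.coprime_iff_not_dvd.2 hc).symm).dvd_of_dvd_mul_right a1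
  have a3 := val_symm _ (val_trans _ hk ((h2 k).2 a2))
  rw [val_tame hζ hv] at a3
  exact lt_irrefl _ a3

theorem val_one_sub_lt (hζ : IsPrimitiveRoot ζ l) {v : Pr E} (hv : ¬Tm l v) :
    v.valuation E (1 - ζ) < 1 := by
  have hl : l.Prime := Fact.out
  have h1 : v.valuation E (l : E) < 1 := by
    have := (val_int_lt v (l : 𝓞 E)).2 (not_not.1 hv)
    simpa using this
  rw [val_ell_gen _ hl hζ] at h1
  by_contra h
  exact absurd h1 (not_lt.2 (one_le_pow_of_one_le' (not_lt.1 h) _))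

theorem val_ell (hζ : IsPrimitiveRoot ζ l) (v : Pr E) :
    v.valuation E (l : E) = v.valuation E (1 - ζ) ^ (l - 1) := by
  exact val_ell_gen _ Fact.out hζ

theorem chi_spec (hζ : IsPrimitiveRoot ζ l) {v : Pr E} (hv : Tm l v) {x : E} (hx : x ≠ 0)
    (h0 : ord v x = 0) (i : ZMod l) : chi l ζ v x = i ↔
      v.valuation E (x ^ ((Ideal.absNorm v.asIdeal - 1) / l) - ζ ^ i.val) < 1 := by
  have hl : l.Prime := Fact.out
  have hex : ∃ i : ZMod l,
      v.valuation E (x ^ ((Ideal.absNorm v.asIdeal - 1) / l) - ζ ^ i.val) < 1 := by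
    refine exists_root _ hl hζ ?_
    rw [← pow_mul, Nat.div_mul_cancel (norm_mod hζ hv)]
    exact fermat v ((val_eq_one_iff v hx).2 h0)
  rw [chi, dif_pos hex]
  refine ⟨fun h => h ▸ hex.choose_spec, fun h => ?_⟩
  exact root_inj _ hl hζ (val_tame hζ hv) (val_trans _ (val_symm _ hex.choose_spec) h)

theorem chi_mul (hζ : IsPrimitiveRoot ζ l) {v : Pr E} (hv : Tm l v) {x y : E} (hx : x ≠ 0)
    (hy : y ≠ 0) (h0 : ord v x = 0) (h1 : ord v y = 0) :
    chi l ζ v (x * y) = chi l ζ v x + chi l ζ v y := by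
  have hl : l.Prime := Fact.out
  have : NeZero l := ⟨hl.ne_zero⟩
  have hz : v.valuation E ζ = 1 := val_root _ hl.ne_zero hζ.pow_eq_one
  rw [chi_spec hζ hv (mul_ne_zero hx hy) (by rw [ord_mul v hx hy, h0, h1, add_zero]),
    ZMod.val_add, ← pow_eq_pow_mod _ hζ.pow_eq_one, pow_add, mul_pow]
  refine val_mul_sub_lt _ ?_ ?_ ((chi_spec hζ hv hx h0 _).1 rfl) ((chi_spec hζ hv hy h1 _).1 rfl)
  · rw [map_pow, (val_eq_one_iff v hx).2 h0, one_pow]
  · rw [map_pow, hz, one_pow]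

theorem chi_zpow (hζ : IsPrimitiveRoot ζ l) {v : Pr E} (hv : Tm l v) {x : E} (hx : x ≠ 0)
    (h0 : ord v x = 0) (n : ℤ) : chi l ζ v (x ^ n) = n * chi l ζ v x := by
  have c1 : chi l ζ v 1 = 0 := by
    have := chi_mul hζ hv one_ne_zero one_ne_zero (ord_one v) (ord_one v)
    rw [mul_one] at this
    simpa using this
  have ho : ∀ m : ℤ, ord v (x ^ m) = 0 := fun m => by rw [ord_zpow, h0, mul_zero]
  induction n using Int.induction_on with
  | zero => simpa using c1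
  | succ n ih =>
    rw [zpow_add_one₀ hx, chi_mul hζ hv (zpow_ne_zero _ hx) hx (ho _) h0, ih]
    push_cast
    ring
  | pred n ih =>
    have e := chi_mul hζ hv (zpow_ne_zero (-(n : ℤ) - 1) hx) hx (ho _) h0
    rw [← zpow_add_one₀ hx, sub_add_cancel, ih] at e
    push_cast at e ⊢
    linear_combination -e

theorem chi_congr (hζ : IsPrimitiveRoot ζ l) {v : Pr E} (hv : Tm l v) {x y : E} (hx : x ≠ 0)
    (h0 : ord v x = 0) (h : v.valuation E (x - y) < 1) : chi l ζ v y = chi l ζ v x := by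
  have a1 := (val_eq_one_iff v hx).2 h0
  have a2 := val_eq_one_of _ a1 h
  have hy : y ≠ 0 := by
    rintro rfl
    simp at a2
  rw [chi_spec hζ hv hy ((val_eq_one_iff v hy).1 a2)]
  exact val_trans _ ((val_pow_sub_pow_le _ a2.le a1.le _).trans_lt (val_symm _ h))
    ((chi_spec hζ hv hx h0 _).1 rfl)

theorem chi_eq_zero_iff (hζ : IsPrimitiveRoot ζ l) {v : Pr E} (hv : Tm l v) {x : E} (hx : x ≠ 0)
    (h0 : ord v x = 0) : chi l ζ v x = 0 ↔ ∃ y : 𝓞 E, v.valuation E (x - (y : E) ^ l) < 1 := by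
  have hl : l.Prime := Fact.out
  have a1 := (val_eq_one_iff v hx).2 h0
  rw [chi_spec hζ hv hx h0, ZMod.val_zero, pow_zero]
  obtain ⟨m, hm⟩ := norm_mod hζ hv
  have m0 : 0 < m := by
    have := one_lt_norm v
    rcases Nat.eq_zero_or_pos m with rfl | h
    · omega
    · exact h
  rw [hm, Nat.mul_div_cancel_left _ hl.pos]
  constructor
  · intro h
    obtain ⟨g, h1, h2, h3⟩ := exists_gen' v
    obtain ⟨k, hk⟩ := h3 x a1
    have a2 : Ideal.absNorm v.asIdeal - 1 ∣ k * m := by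
      rw [← h2, pow_mul]
      exact val_trans _ ((val_pow_sub_pow_le _ (by rw [map_pow, h1, one_pow]) a1.le m).trans_lt
        (val_symm _ hk)) h
    rw [hm] at a2
    obtain ⟨j, rfl⟩ := Nat.dvd_of_mul_dvd_mul_right m0 a2
    refine ⟨g ^ j, ?_⟩
    rw [mul_comm, pow_mul] at hk
    simpa using hk
  · rintro ⟨y, hy⟩
    have a2 := val_eq_one_of _ a1 hy
    refine val_trans _ ((val_pow_sub_pow_le _ a1.le a2.le m).trans_lt hy) ?_
    rw [← pow_mul, ← hm]
    rw [map_pow] at a2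
    exact fermat v ((pow_eq_one_iff_left hl.ne_zero).1 a2)

theorem chi_surj (hζ : IsPrimitiveRoot ζ l) {v : Pr E} (hv : Tm l v) (μ : ZMod l) :
    ∃ a : 𝓞 E, a ∉ v.asIdeal ∧ chi l ζ v (a : E) = μ := by
  have hl : l.Prime := Fact.out
  have : NeZero l := ⟨hl.ne_zero⟩
  obtain ⟨g, h1, h2, -⟩ := exists_gen' v
  have g0 : (g : E) ≠ 0 := by
    intro h
    simp [h] at h1
  have o0 := (val_eq_one_iff v g0).1 h1
  have c0 : chi l ζ v (g : E) ≠ 0 := by
    rw [Ne, chi_spec hζ hv g0 o0, ZMod.val_zero, pow_zero, h2]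
    intro h
    have q := one_lt_norm v
    have a1 : (Ideal.absNorm v.asIdeal - 1) / l < Ideal.absNorm v.asIdeal - 1 :=
      Nat.div_lt_self (by omega) hl.one_lt
    have a2 : 0 < (Ideal.absNorm v.asIdeal - 1) / l :=
      Nat.div_pos (Nat.le_of_dvd (by omega) (norm_mod hζ hv)) hl.pos
    exact absurd (Nat.le_of_dvd a2 h) (not_le.2 a1)
  refine ⟨g ^ (μ / chi l ζ v (g : E)).val, fun h => (val_int_eq v g).1 h1
    (v.isPrime.mem_of_pow_mem _ h), ?_⟩
  have e := chi_zpow hζ hv g0 o0 ((μ / chi l ζ v (g : E)).val : ℕ)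
  rw [zpow_natCast, Int.cast_natCast, ZMod.natCast_zmod_val, div_mul_cancel₀ _ c0] at e
  simpa using e

theorem chi_surj_int (hζ : IsPrimitiveRoot ζ l) {v : Pr E} (hv : Tm l v) (h1 : Deg1 v)
    (μ : ZMod l) : ∃ n : ℕ, (n : 𝓞 E) ∉ v.asIdeal ∧ chi l ζ v (n : E) = μ := by
  obtain ⟨a, ha, hμ⟩ := chi_surj hζ hv μ
  obtain ⟨n, hn⟩ := exists_nat v h1 a
  have a0 : a ≠ 0 := by
    rintro rfl
    exact ha (zero_mem _)
  refine ⟨n, fun h => ha (by simpa using add_mem hn h), ?_⟩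
  rw [← hμ]
  refine chi_congr hζ hv (by simpa using a0) ((ord_eq_zero_iff v a0).2 ha) ?_
  have := (val_int_lt v _).2 hn
  simpa using this

theorem Sym1Aux.chi_one (hζ : IsPrimitiveRoot ζ l) {v : Pr E} (hv : Tm l v) :
    chi l ζ v 1 = 0 := by
  simpa using chi_zpow hζ hv one_ne_zero (ord_one v) 0

theorem Sym1Aux.chi_neg_one (hl : 2 < l) (hζ : IsPrimitiveRoot ζ l) {v : Pr E} (hv : Tm l v) :
    chi l ζ v (-1) = 0 := by
  have n1 : (-1 : E) ≠ 0 := neg_ne_zero.2 one_ne_zero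
  have o1 : ord v (-1 : E) = 0 := by rw [ord_neg, ord_one]
  have e := chi_mul hζ hv n1 n1 o1 o1
  rw [neg_one_mul, neg_neg, chi_one hζ hv, ← two_mul] at e
  refine (mul_eq_zero.1 e.symm).resolve_left fun h => ?_
  have h2 : ((2 : ℕ) : ZMod l) = 0 := by exact_mod_cast h
  exact absurd (Nat.le_of_dvd two_pos ((ZMod.natCast_eq_zero_iff 2 l).1 h2)) (not_le.2 hl)

theorem tame_mul_left (hl : 2 < l) (hζ : IsPrimitiveRoot ζ l) {v : Pr E} (hv : Tm l v)
    {x x' y : E} (hx : x ≠ 0) (hx' : x' ≠ 0) (hy : y ≠ 0) :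
    tame l ζ v (x * x') y = tame l ζ v x y + tame l ζ v x' y := by
  rw [tame, tame, tame, ← chi_mul hζ hv (u_ne v hx hy) (u_ne v hx' hy) (u_ord v hx hy)
    (u_ord v hx' hy), ord_mul v hx hx', mul_zpow, zpow_add₀ hy, div_mul_div_comm]

theorem tame_swap (hl : 2 < l) (hζ : IsPrimitiveRoot ζ l) {v : Pr E} (hv : Tm l v) {x y : E}
    (hx : x ≠ 0) (hy : y ≠ 0) : tame l ζ v y x = -tame l ζ v x y := by
  have e := chi_zpow hζ hv (u_ne v hx hy) (u_ord v hx hy) (-1)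
  rw [zpow_neg_one, inv_div] at e
  rw [tame, tame, e]
  simp

theorem tame_mul_right (hl : 2 < l) (hζ : IsPrimitiveRoot ζ l) {v : Pr E} (hv : Tm l v)
    {x y y' : E} (hx : x ≠ 0) (hy : y ≠ 0) (hy' : y' ≠ 0) :
    tame l ζ v x (y * y') = tame l ζ v x y + tame l ζ v x y' := by
  rw [tame_swap hl hζ hv (mul_ne_zero hy hy') hx, tame_mul_left hl hζ hv hy hy' hx,
    tame_swap hl hζ hv hx hy, tame_swap hl hζ hv hx hy']
  ring

theorem tame_zpow_left (hl : 2 < l) (hζ : IsPrimitiveRoot ζ l) {v : Pr E} (hv : Tm l v)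
    {x y : E} (hx : x ≠ 0) (hy : y ≠ 0) (n : ℤ) : tame l ζ v (x ^ n) y = n * tame l ζ v x y := by
  rw [tame, tame, ← chi_zpow hζ hv (u_ne v hx hy) (u_ord v hx hy), ord_zpow, div_zpow,
    ← zpow_mul, ← zpow_mul, ← zpow_mul, mul_comm n, mul_comm n]

theorem tame_zpow_right (hl : 2 < l) (hζ : IsPrimitiveRoot ζ l) {v : Pr E} (hv : Tm l v)
    {x y : E} (hx : x ≠ 0) (hy : y ≠ 0) (n : ℤ) : tame l ζ v x (y ^ n) = n * tame l ζ v x y := by
  rw [tame_swap hl hζ hv (zpow_ne_zero n hy) hx, tame_zpow_left hl hζ hv hy hx,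
    tame_swap hl hζ hv hx hy]
  ring

theorem tame_self (hl : 2 < l) (hζ : IsPrimitiveRoot ζ l) {v : Pr E} (hv : Tm l v) (x : E) :
    tame l ζ v x x = 0 := by
  have e : x ^ ord v x / x ^ ord v x = 1 := by
    rcases eq_or_ne x 0 with rfl | hx
    · simp [ord]
    · exact div_self (zpow_ne_zero _ hx)
  rw [tame, e, chi_one hζ hv]

theorem tame_neg_left (hl : 2 < l) (hζ : IsPrimitiveRoot ζ l) {v : Pr E} (hv : Tm l v) {x y : E}
    (hx : x ≠ 0) (hy : y ≠ 0) : tame l ζ v (-x) y = tame l ζ v x y := by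
  have n1 : (-1 : E) ≠ 0 := neg_ne_zero.2 one_ne_zero
  have o1 : ord v (-1 : E) = 0 := by rw [ord_neg, ord_one]
  rw [← neg_one_mul, tame_mul_left hl hζ hv n1 hx hy, tame, o1, zpow_zero, div_one,
    chi_zpow hζ hv n1 o1, chi_neg_one hl hζ hv, mul_zero, zero_add]

theorem tame_unit (hl : 2 < l) (hζ : IsPrimitiveRoot ζ l) {v : Pr E} (hv : Tm l v) {x y : E}
    (hx : x ≠ 0) (h0 : ord v x = 0) : tame l ζ v x y = (ord v y : ZMod l) * chi l ζ v x := by
  rw [tame, h0, zpow_zero, div_one, chi_zpow hζ hv hx h0]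

theorem tame_unr (hl : 2 < l) (hζ : IsPrimitiveRoot ζ l) {v : Pr E} (hv : Tm l v) {x y : E}
    (hx : x ≠ 0) (hy : y ≠ 0) (h0 : (l : ℤ) ∣ ord v x) (h1 : (l : ℤ) ∣ ord v y) :
    tame l ζ v x y = 0 := by
  obtain ⟨a, ha⟩ := h0
  obtain ⟨b, hb⟩ := h1
  have n0 : x ^ b / y ^ a ≠ 0 := div_ne_zero (zpow_ne_zero _ hx) (zpow_ne_zero _ hy)
  have o0 : ord v (x ^ b / y ^ a) = 0 := by
    rw [div_eq_mul_inv, ord_mul v (zpow_ne_zero _ hx) (inv_ne_zero (zpow_ne_zero _ hy)), ord_inv,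
      ord_zpow, ord_zpow, ha, hb]
    ring
  rw [tame, ha, hb, mul_comm _ a, mul_comm _ b, zpow_mul, zpow_mul, ← div_zpow,
    chi_zpow hζ hv n0 o0]
  simp

theorem tame_steinberg (hl : 2 < l) (hζ : IsPrimitiveRoot ζ l) {v : Pr E} (hv : Tm l v) {x : E}
    (hx : x ≠ 0) (hx1 : x ≠ 1) : tame l ζ v x (1 - x) = 0 := by
  have key : ∀ z : E, z ≠ 0 → v.valuation E z < 1 → tame l ζ v z (1 - z) = 0 := by
    intro z hz h
    have a1 : v.valuation E (1 - z) = 1 := Valuation.map_one_sub_of_lt _ h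
    have a2 : 1 - z ≠ 0 := by
      intro e
      simp [e] at a1
    rw [tame_swap hl hζ hv a2 hz, tame_unit hl hζ hv a2 ((val_eq_one_iff v a2).1 a1),
      chi_congr hζ hv one_ne_zero (ord_one v) (y := 1 - z) (by simpa using h), chi_one hζ hv,
      mul_zero, neg_zero]
  have x1 : 1 - x ≠ 0 := sub_ne_zero.2 hx1.symm
  rcases lt_trichotomy (ord v x) 0 with h | h | h
  · have i0 : x⁻¹ ≠ 0 := inv_ne_zero hx
    have i1 : 1 - x⁻¹ ≠ 0 := sub_ne_zero.2 fun e => hx1 (inv_eq_one.1 e.symm)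
    have e : 1 - x = -x * (1 - x⁻¹) := by
      field_simp
      ring
    have k := key x⁻¹ i0 ((val_lt_one_iff v i0).2 (by rw [ord_inv]; omega))
    have k2 := tame_zpow_left hl hζ hv hx i1 (-1)
    rw [zpow_neg_one, k] at k2
    rw [e, tame_mul_right hl hζ hv hx (neg_ne_zero.2 hx) i1,
      tame_swap hl hζ hv (neg_ne_zero.2 hx) hx, tame_neg_left hl hζ hv hx hx, tame_self hl hζ hv]
    push_cast at k2
    linear_combination k2
  · rw [tame_unit hl hζ hv hx h]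
    have a1 : v.valuation E (1 - x) ≤ 1 :=
      Valuation.map_sub_le _ (map_one _).le ((val_eq_one_iff v hx).2 h).le
    rcases a1.eq_or_lt with a | a
    · rw [(val_eq_one_iff v x1).1 a]
      simp
    · rw [chi_congr hζ hv one_ne_zero (ord_one v) a, chi_one hζ hv, mul_zero]
  · exact key x hx ((val_lt_one_iff v hx).2 h)

theorem tame_finite (hl : 2 < l) (hζ : IsPrimitiveRoot ζ l) (x y : E) :
    {v : {v : Pr E // Tm l v} | tame l ζ v.1 x y ≠ 0}.Finite := by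
  refine (((ord_finite x).union (ord_finite y)).preimage
    (f := fun v : {v : Pr E // Tm l v} => v.1) Subtype.val_injective.injOn).subset fun v hv => ?_
  by_contra h
  simp only [Set.mem_preimage, Set.mem_union, Set.mem_ofPred_eq, not_or, not_not] at h
  refine hv ?_
  rw [tame, h.1, h.2, zpow_zero, zpow_zero, div_one, chi_one hζ v.2]

theorem Phi_mul_left (hl : 2 < l) (hζ : IsPrimitiveRoot ζ l) {x x' y : E} (hx : x ≠ 0)
    (hx' : x' ≠ 0) (hy : y ≠ 0) : Phi l ζ (x * x') y = Phi l ζ x y + Phi l ζ x' y := by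
  rw [Phi, Phi, Phi, ← finsum_add_distrib (tame_finite hl hζ x y) (tame_finite hl hζ x' y)]
  exact finsum_congr fun v => tame_mul_left hl hζ v.2 hx hx' hy

theorem Phi_mul_right (hl : 2 < l) (hζ : IsPrimitiveRoot ζ l) {x y y' : E} (hx : x ≠ 0)
    (hy : y ≠ 0) (hy' : y' ≠ 0) : Phi l ζ x (y * y') = Phi l ζ x y + Phi l ζ x y' := by
  rw [Phi, Phi, Phi, ← finsum_add_distrib (tame_finite hl hζ x y) (tame_finite hl hζ x y')]
  exact finsum_congr fun v => tame_mul_right hl hζ v.2 hx hy hy'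

theorem Phi_swap (hl : 2 < l) (hζ : IsPrimitiveRoot ζ l) {x y : E} (hx : x ≠ 0) (hy : y ≠ 0) :
    Phi l ζ y x = -Phi l ζ x y := by
  rw [Phi, Phi, ← finsum_neg_distrib]
  exact finsum_congr fun v => tame_swap hl hζ v.2 hx hy

theorem Phi_zpow_left (hl : 2 < l) (hζ : IsPrimitiveRoot ζ l) {x y : E} (hx : x ≠ 0) (hy : y ≠ 0)
    (n : ℤ) : Phi l ζ (x ^ n) y = n * Phi l ζ x y := by
  rw [Phi, Phi, mul_finsum' _ _ (tame_finite hl hζ x y)]
  exact finsum_congr fun v => tame_zpow_left hl hζ v.2 hx hy n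

theorem cls_mul {x y : E} (hx : x ≠ 0) (hy : y ≠ 0) : cls l (x * y) = cls l x + cls l y := by
  rw [cls, cls, cls, dif_pos hx, dif_pos hy, dif_pos (mul_ne_zero hx hy), ← map_add,
    ← ofMul_mul, Units.mk0_mul]

theorem cls_zpow {x : E} (hx : x ≠ 0) (n : ℤ) : cls l (x ^ n) = n • cls l x := by
  rw [cls, cls, dif_pos hx, dif_pos (zpow_ne_zero n hx), ← map_zsmul, ← ofMul_zpow]
  congr 2
  ext
  simp

theorem cls_eq_zero_iff {x : E} (hx : x ≠ 0) : cls l x = 0 ↔ ∃ d : E, x = d ^ l := by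
  have hl : l.Prime := Fact.out
  rw [cls, dif_pos hx]
  refine (Submodule.Quotient.mk_eq_zero _).trans ⟨?_, ?_⟩
  · rintro ⟨d, hd⟩
    refine ⟨(Additive.toMul d : Eˣ), ?_⟩
    have := congrArg (fun t => ((Additive.toMul t : Eˣ) : E)) hd
    simpa using this.symm
  · rintro ⟨d, rfl⟩
    have d0 : d ≠ 0 := by
      rintro rfl
      exact hx (zero_pow hl.ne_zero)
    refine ⟨Additive.ofMul (Units.mk0 d d0), ?_⟩
    apply Additive.toMul.injective
    ext
    simp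

theorem cls_surj (h : Hm l E) : ∃ x : E, x ≠ 0 ∧ cls l x = h := by
  obtain ⟨u, rfl⟩ := Submodule.Quotient.mk_surjective _ h
  refine ⟨(Additive.toMul u : Eˣ), Units.ne_zero _, ?_⟩
  rw [cls, dif_pos (Units.ne_zero _), Units.mk0_val]
  rfl

/-- simultaneous closeness from closeness at each wild prime -/
theorem near_iff (hζ : IsPrimitiveRoot ζ l) (k : ℕ) {x : E} (hx : x ≠ 0) :
    Near l ζ k x ↔ ∀ v : Pr E, ¬Tm l v → NearAt l ζ k v x := by
  refine ⟨fun ⟨γ, h0, h⟩ v hv => ⟨γ, h0, h v hv⟩, fun h => ?_⟩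
  choose! δ d0 hδ using h
  have z1 : 1 - ζ ≠ 0 := sub_ne_zero.2 (hζ.ne_one (Fact.out : l.Prime).one_lt).symm
  obtain ⟨n, hn⟩ := ((finite_wild (l := l) (E := E)).image
    fun v => -ord v (δ v) - k * ord v (1 - ζ) - 1).bddBelow
  obtain ⟨γ, g0, hγ, -⟩ := wa (finite_wild (l := l) (E := E)).toFinset δ n
  refine ⟨γ, g0, fun v hv => ?_⟩
  have a1 := hγ v ((Set.Finite.mem_toFinset _).2 hv)
  have a2 : n ≤ -ord v (δ v) - k * ord v (1 - ζ) - 1 := hn ⟨v, hv, rfl⟩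
  have a3 : 0 ≤ (k : ℤ) * ord v (1 - ζ) :=
    mul_nonneg (Nat.cast_nonneg k) ((val_lt_one_iff v z1).1 (val_one_sub_lt hζ hv)).le
  refine near_step _ (d0 v hv) (hδ v hv) (a1.trans ?_) (a1.trans_lt ?_)
  · rw [← map_pow, val_eq_exp v (d0 v hv), val_eq_exp v (pow_ne_zero k z1), ← WithZero.exp_add,
      WithZero.exp_le_exp, ord_pow]
    omega
  · rw [val_eq_exp v (d0 v hv), WithZero.exp_lt_exp]
    omega

end Pool.Agent.MP_14ad9d_nt.Full
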