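import Pool.Agent.MP_14ad9d_nt.Full.Sym1

set_option autoImplicit false
set_option linter.unusedSectionVars false

open NumberField IsDedekindDomain

namespace Pool.Agent.MP_14ad9d_nt.Full

variable {l : ℕ} [Fact l.Prime] {E : Type} [Field E] [NumberField E] {ζ : E}

namespace Sym2Aux

omit [NumberField E] in
theorem act_asIdeal {E' : Type} [Field E'] (σ : E ≃+* E') (v : Pr E) :
    (act σ v).asIdeal = v.asIdeal.map (RingOfIntegers.mapRingEquiv σ) :=
  Ideal.comap_symm _

theorem intval_act {E' : Type} [Field E'] [NumberField E'] (σ : E ≃+* E') (v : Pr E) (a : 𝓞 E) :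
    (act σ v).intValuation (RingOfIntegers.mapRingEquiv σ a) = v.intValuation a := by
  rcases eq_or_ne a 0 with rfl | ha
  · simp
  have key : ∀ n : ℕ, (act σ v).intValuation (RingOfIntegers.mapRingEquiv σ a) ≤
      WithZero.exp (-(n : ℤ)) ↔ v.intValuation a ≤ WithZero.exp (-(n : ℤ)) := fun n => by
    rw [HeightOneSpectrum.intValuation_le_pow_iff_mem,
      HeightOneSpectrum.intValuation_le_pow_iff_mem, act_asIdeal, ← Ideal.map_pow]
    exact Ideal.apply_mem_of_equiv_iff
  have ha' : RingOfIntegers.mapRingEquiv σ a ≠ 0 := by simpa using ha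
  apply le_antisymm
  · rw [v.intValuation_eq_exp_neg_multiplicity ha, key, v.intValuation_eq_exp_neg_multiplicity ha]
  · rw [(act σ v).intValuation_eq_exp_neg_multiplicity ha', ← key,
      (act σ v).intValuation_eq_exp_neg_multiplicity ha']

open Classical in
theorem choose_congr {α : Type} {P Q : α → Prop} (e : P = Q) (c : α) :
    (if h : ∃ i, P i then h.choose else c) = (if h : ∃ i, Q i then h.choose else c) := by
  rw [e]

theorem val_pow_sub_lt (v : Pr E) {a b : E} (ha : v.valuation E a ≤ 1) (hb : v.valuation E b ≤ 1)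
    (h : v.valuation E (a - b) < 1) (n : ℕ) : v.valuation E (a ^ n - b ^ n) < 1 := by
  induction n with
  | zero => simp
  | succ n ih =>
    rw [show a ^ (n + 1) - b ^ (n + 1) = (a ^ n - b ^ n) * a + (a - b) * b ^ n by ring]
    refine Valuation.map_add_lt _ ?_ ?_
    · rw [map_mul]
      exact lt_of_le_of_lt (mul_le_of_le_one_right' ha) ih
    · rw [map_mul, map_pow]
      exact lt_of_le_of_lt (mul_le_of_le_one_right' (pow_le_one' hb n)) h

theorem val_root (hζ : IsPrimitiveRoot ζ l) (v : Pr E) : v.valuation E ζ = 1 := by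
  have h : v.valuation E ζ ^ l = 1 := by rw [← map_pow, hζ.pow_eq_one, map_one]
  exact (pow_eq_one_iff_left (Fact.out : l.Prime).ne_zero).1 h

theorem val_of_ord (v : Pr E) {x : E} (hx : x ≠ 0) (h0 : ord v x = 0) : v.valuation E x = 1 := by
  rw [val_eq_exp v hx, h0, neg_zero, WithZero.exp_zero]

theorem unit_ne (v : Pr E) {x y : E} (hx : x ≠ 0) (hy : y ≠ 0) :
    x ^ ord v y / y ^ ord v x ≠ 0 := div_ne_zero (zpow_ne_zero _ hx) (zpow_ne_zero _ hy)

theorem unit_ord (v : Pr E) {x y : E} (hx : x ≠ 0) (hy : y ≠ 0) :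
    ord v (x ^ ord v y / y ^ ord v x) = 0 := by
  rw [div_eq_mul_inv, ord_mul v (zpow_ne_zero _ hx) (inv_ne_zero (zpow_ne_zero _ hy)), ord_inv,
    ord_zpow, ord_zpow]
  ring

theorem ord_int (v : Pr E) {a : 𝓞 E} (ha : a ≠ 0) :
    ord v (a : E) = multiplicity v.asIdeal (Ideal.span {a}) := by
  rw [ord, show v.valuation E (a : E) = _ from v.valuation_of_algebraMap a,
    v.intValuation_eq_exp_neg_multiplicity ha, WithZero.log_exp, neg_neg]

end Sym2Aux

open Sym2Aux

section Act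

variable {E' : Type} [Field E'] [NumberField E'] (σ : E ≃+* E')

theorem val_act (v : Pr E) (x : E) : (act σ v).valuation E' (σ x) = v.valuation E x := by
  obtain ⟨a, b, -, rfl⟩ := IsFractionRing.div_surjective (A := 𝓞 E) x
  have e : ∀ c : 𝓞 E, (act σ v).valuation E' (σ (algebraMap (𝓞 E) E c)) =
      v.valuation E (algebraMap (𝓞 E) E c) := fun c =>
    ((act σ v).valuation_of_algebraMap (K := E') (RingOfIntegers.mapRingEquiv σ c)).trans
      ((intval_act σ v c).trans (v.valuation_of_algebraMap (K := E) c).symm)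
  rw [map_div₀, map_div₀, map_div₀, e, e]

theorem ord_act (v : Pr E) (x : E) : ord (act σ v) (σ x) = ord v x := by
  rw [ord, ord, val_act]

theorem absNorm_act (v : Pr E) :
    Ideal.absNorm (act σ v).asIdeal = Ideal.absNorm v.asIdeal := by
  rw [Ideal.absNorm_apply, Ideal.absNorm_apply, Submodule.cardQuot_apply, Submodule.cardQuot_apply]
  exact Nat.card_congr (Ideal.quotientEquiv _ _ (RingOfIntegers.mapRingEquiv σ)
    (act_asIdeal σ v)).symm.toEquiv

theorem tame_act (v : Pr E) (x y : E) : tame l (σ ζ) (act σ v) (σ x) (σ y) = tame l ζ v x y := by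
  rw [tame, tame, ord_act, ord_act, ← map_zpow₀, ← map_zpow₀, ← map_div₀, chi, chi]
  refine choose_congr (funext fun i => ?_) _
  rw [absNorm_act, ← map_pow, ← map_pow, ← map_sub, val_act]

end Act

theorem tame_inv_root (hζ : IsPrimitiveRoot ζ l) {v : Pr E} (hv : Tm l v) {x y : E} (hx : x ≠ 0)
    (hy : y ≠ 0) : tame l ζ⁻¹ v x y = -tame l ζ v x y := by
  rw [tame, tame, chi_spec hζ.inv hv (unit_ne v hx hy) (unit_ord v hx hy)]
  have h := (chi_spec hζ hv (unit_ne v hx hy) (unit_ord v hx hy) _).1 rfl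
  generalize chi l ζ v (x ^ ord v y / y ^ ord v x) = j at h ⊢
  have e : ζ ^ (-j).val * ζ ^ j.val = 1 := by
    rw [← pow_add, hζ.pow_eq_one_iff_dvd, ← ZMod.natCast_eq_zero_iff]
    simp
  rwa [inv_pow, inv_eq_of_mul_eq_one_right e]

section Ext

variable {E' : Type} [Field E'] [NumberField E'] [Algebra E E']

theorem exists_over (v : Pr E) : ∃ w : Pr E', w.asIdeal.LiesOver v.asIdeal := by
  have := v.isMaximal
  obtain ⟨Q, h₁, h₂⟩ := Ideal.exists_maximal_ideal_liesOver_of_isIntegral (S := 𝓞 E') v.asIdeal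
  exact ⟨⟨Q, h₁.isPrime, Ideal.ne_bot_of_liesOver_of_ne_bot v.ne_bot Q⟩, h₂⟩

theorem exists_under (w : Pr E') : ∃ v : Pr E, w.asIdeal.LiesOver v.asIdeal :=
  ⟨w.under (𝓞 E), ⟨rfl⟩⟩

theorem tm_over {v : Pr E} {w : Pr E'} (h : w.asIdeal.LiesOver v.asIdeal) : Tm l w ↔ Tm l v := by
  rw [Tm, Tm, Ideal.mem_of_liesOver w.asIdeal v.asIdeal, map_natCast]

theorem Sym2Aux.val_over {v : Pr E} {w : Pr E'} (h : w.asIdeal.LiesOver v.asIdeal) (x : E) :
    w.valuation E' (algebraMap E E' x) = v.valuation E x ^ w.asIdeal.ramificationIdx (𝓞 E) := by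
  have := w.isPrime
  rw [← HeightOneSpectrum.valuation_liesOver E' v w x,
    Ideal.ramificationIdx'_eq_ramificationIdx _ _ v.ne_bot]

theorem ord_over {v : Pr E} {w : Pr E'} (h : w.asIdeal.LiesOver v.asIdeal) (x : E) :
    ord w (algebraMap E E' x) = (w.asIdeal.ramificationIdx (𝓞 E) : ℤ) * ord v x := by
  rw [ord, ord, val_over h, WithZero.log_pow, nsmul_eq_mul, mul_neg]

theorem absNorm_over {v : Pr E} {w : Pr E'} (h : w.asIdeal.LiesOver v.asIdeal) :
    Ideal.absNorm w.asIdeal = Ideal.absNorm v.asIdeal ^ w.asIdeal.inertiaDeg (𝓞 E) := by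
  have := w.isPrime
  exact (Ideal.absNorm_pow_inertiaDeg _ _).symm

theorem chi_over (hζ : IsPrimitiveRoot ζ l) {v : Pr E} (hv : Tm l v) {w : Pr E'}
    (h : w.asIdeal.LiesOver v.asIdeal) {x : E} (hx : x ≠ 0) (h0 : ord v x = 0) :
    chi l (algebraMap E E' ζ) w (algebraMap E E' x) =
      (w.asIdeal.inertiaDeg (𝓞 E) : ZMod l) * chi l ζ v x := by
  have := w.isPrime
  have hζ' : IsPrimitiveRoot (algebraMap E E' ζ) l :=
    hζ.map_of_injective (algebraMap E E').injective
  rw [chi_spec hζ' ((tm_over h).2 hv) (by simpa using hx) (by rw [ord_over h, h0, mul_zero]),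
    ← map_pow, ← map_pow, ← map_sub, val_over h, absNorm_over h]
  refine pow_lt_one' ?_ (Ideal.ramificationIdx_pos _ _).ne'
  have h1 := (chi_spec hζ hv hx h0 _).1 rfl
  have hd := norm_mod hζ hv
  have hq : 1 ≤ Ideal.absNorm v.asIdeal :=
    Nat.one_le_iff_ne_zero.2 (Ideal.absNorm_eq_zero_iff.not.2 v.ne_bot)
  generalize chi l ζ v x = j at h1 ⊢
  generalize w.asIdeal.inertiaDeg (𝓞 E) = f
  generalize Ideal.absNorm v.asIdeal = q at h1 hd hq ⊢
  obtain ⟨k, hk⟩ := hd
  obtain rfl : q = l * k + 1 := by omega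
  have hl := (Fact.out : l.Prime).pos
  have e₁ : ((l * k + 1) ^ f - 1) / l = k * ∑ i ∈ Finset.range f, (l * k + 1) ^ i := by
    rw [← geom_sum_mul_add, Nat.add_sub_cancel, mul_comm, mul_assoc, Nat.mul_div_cancel_left _ hl]
  have e₂ : ζ ^ ((f : ZMod l) * j).val = (ζ ^ j.val) ^ ∑ i ∈ Finset.range f, (l * k + 1) ^ i := by
    rw [← pow_mul, pow_eq_pow_mod _ hζ.pow_eq_one, pow_eq_pow_mod (j.val * _) hζ.pow_eq_one]
    congr 1
    rw [← ZMod.natCast_eq_natCast_iff']
    simp [mul_comm]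
  rw [Nat.add_sub_cancel, Nat.mul_div_cancel_left _ hl] at h1
  rw [e₁, e₂, pow_mul]
  exact val_pow_sub_lt v (by rw [map_pow, val_of_ord v hx h0, one_pow])
    (by rw [map_pow, val_root hζ, one_pow]) h1 _

theorem tame_over (hl : 2 < l) (hζ : IsPrimitiveRoot ζ l) {v : Pr E} (hv : Tm l v) {w : Pr E'}
    (h : w.asIdeal.LiesOver v.asIdeal) {x y : E} (hx : x ≠ 0) (hy : y ≠ 0) :
    tame l (algebraMap E E' ζ) w (algebraMap E E' x) (algebraMap E E' y) =
      (w.asIdeal.ramificationIdx (𝓞 E) * w.asIdeal.inertiaDeg (𝓞 E) : ZMod l) *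
        tame l ζ v x y := by
  rw [tame, tame, ord_over h, ord_over h, mul_comm _ (ord v x), mul_comm _ (ord v y), zpow_mul,
    zpow_mul, ← div_zpow, ← map_zpow₀, ← map_zpow₀, ← map_div₀, ← map_zpow₀,
    chi_over hζ hv h (zpow_ne_zero _ (unit_ne v hx hy))
      (by rw [ord_zpow, unit_ord v hx hy, mul_zero]),
    chi_zpow hζ hv (unit_ne v hx hy) (unit_ord v hx hy)]
  push_cast
  ring

/-- in a Galois extension ramification index and residue degree divide the degree -/
theorem ef_dvd [IsGalois E E'] {v : Pr E} {w : Pr E'} (h : w.asIdeal.LiesOver v.asIdeal) :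
    w.asIdeal.ramificationIdx (𝓞 E) * w.asIdeal.inertiaDeg (𝓞 E) ∣
      Module.finrank E E' := by
  have := w.isPrime
  have := v.isPrime
  rw [← IsGaloisGroup.card_eq_finrank Gal(E'/E) E E',
    ← Ideal.ncard_primesOver_mul_ramificationIdxIn_mul_inertiaDegIn v.asIdeal (𝓞 E') Gal(E'/E),
    Ideal.ramificationIdxIn_eq_ramificationIdx v.asIdeal w.asIdeal Gal(E'/E),
    Ideal.inertiaDegIn_eq_inertiaDeg v.asIdeal w.asIdeal Gal(E'/E)]
  exact Dvd.intro_left _ rfl

theorem Sym2Aux.finite_over (v : Pr E) : {w : Pr E' | w.asIdeal.LiesOver v.asIdeal}.Finite := by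
  refine (Ideal.finite_factors (I := v.asIdeal.map (algebraMap (𝓞 E) (𝓞 E')))
    (Ideal.map_ne_bot_of_ne_bot v.ne_bot)).subset fun w hw => ?_
  exact Ideal.dvd_iff_le.2 (Ideal.map_le_iff_le_comap.2 (le_of_eq hw.over))

theorem Sym2Aux.mult_relNorm (v : Pr E) (S : Finset (Pr E'))
    (hS : ∀ w, w ∈ S ↔ w.asIdeal.LiesOver v.asIdeal) (I : Ideal (𝓞 E')) (hI : I ≠ 0) :
    multiplicity v.asIdeal (Ideal.relNorm (𝓞 E) I) =
      ∑ w ∈ S, w.asIdeal.inertiaDeg (𝓞 E) * multiplicity w.asIdeal I := by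
  induction I using UniqueFactorizationMonoid.induction_on_prime with
  | h₁ => exact absurd rfl hI
  | h₂ I hu =>
    rw [multiplicity_of_isUnit_right v.prime.not_isUnit (hu.map _), eq_comm]
    exact Finset.sum_eq_zero fun w _ => by
      rw [multiplicity_of_isUnit_right w.prime.not_isUnit hu, mul_zero]
  | h₃ I P hI' hP ih =>
    classical
    let w₀ : Pr E' := ⟨P, Ideal.isPrime_of_prime hP, hP.ne_zero⟩
    obtain ⟨v₀, hv₀⟩ := exists_under (E := E) w₀
    have := w₀.isMaximal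
    have := v₀.isMaximal
    have e : Ideal.relNorm (𝓞 E) P = v₀.asIdeal ^ w₀.asIdeal.inertiaDeg (𝓞 E) :=
      Ideal.relNorm_eq_pow_of_isMaximal w₀.asIdeal v₀.asIdeal
    have e' : ∀ w : Pr E', multiplicity w.asIdeal (P * I) =
        (if w = w₀ then 1 else 0) + multiplicity w.asIdeal I := fun w => by
      rw [multiplicity_mul w.prime (FiniteMultiplicity.of_prime_left w.prime hI)]
      congr 1
      split_ifs with hw
      · rw [hw]
        exact multiplicity_self
      · exact multiplicity_eq_zero.2 fun hd => hw (HeightOneSpectrum.ext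
          (associated_iff_eq.1 (w.prime.associated_of_dvd hP hd)))
    rw [map_mul, multiplicity_mul v.prime (FiniteMultiplicity.of_prime_left v.prime
      (by rw [← map_mul]; exact Ideal.relNorm_eq_bot_iff.not.2 hI)), ih hI', e]
    simp only [e', mul_add, Finset.sum_add_distrib, mul_ite, mul_one, mul_zero,
      Finset.sum_ite_eq']
    congr 1
    split_ifs with hw
    · obtain rfl : v = v₀ := HeightOneSpectrum.ext (((hS _).1 hw).over.trans hv₀.over.symm)
      exact multiplicity_pow_self_of_prime v.prime _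
    · refine multiplicity_eq_zero.2 fun hd => hw ((hS _).2 ?_)
      rwa [associated_iff_eq.1 (v.prime.associated_of_dvd v₀.prime (v.prime.dvd_of_dvd_pow hd))]

open Classical in
/-- valuation of a norm -/
theorem ord_norm [IsGalois E E'] (v : Pr E) {x : E'} (hx : x ≠ 0) :
    ord v (Algebra.norm E x) = ∑ᶠ w : Pr E', if w.asIdeal.LiesOver v.asIdeal then
      (w.asIdeal.inertiaDeg (𝓞 E) : ℤ) * ord w x else 0 := by
  let S := (finite_over (E' := E') v).toFinset
  have hS : ∀ w, w ∈ S ↔ w.asIdeal.LiesOver v.asIdeal := fun w => Set.Finite.mem_toFinset _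
  rw [finsum_eq_sum_of_support_subset (s := S) _ fun w hw => by
    by_contra h
    exact hw (if_neg fun h' => h ((hS w).2 h')),
    Finset.sum_congr rfl fun w hw => if_pos ((hS w).1 hw)]
  have key : ∀ a : 𝓞 E', a ≠ 0 → ord v (Algebra.norm E (a : E')) =
      ∑ w ∈ S, (w.asIdeal.inertiaDeg (𝓞 E) : ℤ) * ord w (a : E') := fun a ha => by
    have e : ((Algebra.intNorm (𝓞 E) (𝓞 E') a : 𝓞 E) : E) = Algebra.norm E (a : E') :=
      Algebra.algebraMap_intNorm (L := E') a
    have h0 : Algebra.intNorm (𝓞 E) (𝓞 E') a ≠ 0 := fun h => by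
      rw [h, eq_comm] at e
      exact ha (by simpa using e)
    rw [← e, ord_int v h0, ← Ideal.relNorm_singleton, mult_relNorm v S hS _ (by simpa using ha)]
    push_cast
    exact Finset.sum_congr rfl fun w _ => by rw [ord_int w ha]
  obtain ⟨a, b, hb, rfl⟩ := IsFractionRing.div_surjective (A := 𝓞 E') x
  have hb' : b ≠ 0 := nonZeroDivisors.ne_zero hb
  have ha' : a ≠ 0 := by
    rintro rfl
    simp at hx
  have ha₁ : (a : E') ≠ 0 := by simpa using ha'
  have hb₁ : (b : E') ≠ 0 := by simpa using hb'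
  change ord v (Algebra.norm E ((a : E') / (b : E'))) = ∑ w ∈ S, _ * ord w ((a : E') / (b : E'))
  rw [div_eq_mul_inv, map_mul, Algebra.norm_inv, ord_mul v (by simpa using ha₁) (by simpa using hb₁),
    ord_inv, key a ha', key b hb', ← Finset.sum_neg_distrib, ← Finset.sum_add_distrib]
  exact Finset.sum_congr rfl fun w _ => by
    rw [ord_mul w ha₁ (inv_ne_zero hb₁), ord_inv]
    ring

theorem Sym2Aux.congr_nat {w : Pr E} (h : Deg1 w) (a : 𝓞 E) : ∃ n : ℕ, a - n ∈ w.asIdeal := by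
  have : Finite (𝓞 E ⧸ w.asIdeal) := Ideal.finiteQuotientOfFreeOfNeBot _ w.ne_bot
  let _ := Fintype.ofFinite (𝓞 E ⧸ w.asIdeal)
  let e := ZMod.ringEquivOfPrime (𝓞 E ⧸ w.asIdeal) h (by
    rw [Ideal.absNorm_apply, Submodule.cardQuot_apply, Nat.card_eq_fintype_card])
  have : NeZero (Ideal.absNorm w.asIdeal) := ⟨h.ne_zero⟩
  obtain ⟨n, hn⟩ := ZMod.natCast_zmod_surjective (e.symm (Ideal.Quotient.mk _ a))
  refine ⟨n, Ideal.Quotient.eq.1 ?_⟩
  rw [map_natCast, ← map_natCast e, hn, e.apply_symm_apply]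

/-- a prime of degree one above an unramified rational prime has trivial decomposition group -/
theorem free_of_deg1 : ∃ T : Finset (Pr E'), ∀ w : Pr E', w ∉ T → Deg1 w →
    ∀ g : E' ≃ₐ[E] E', act (g : E' ≃+* E') w = w → g = 1 := by
  have key : ∀ g : E' ≃ₐ[E] E',
      {w : Pr E' | g ≠ 1 ∧ Deg1 w ∧ act (g : E' ≃+* E') w = w}.Finite := fun g => by
    by_cases hg : g = 1
    · simp [hg]
    obtain ⟨a, ha⟩ : ∃ a : 𝓞 E', RingOfIntegers.mapRingEquiv (g : E' ≃+* E') a - a ≠ 0 := by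
      by_contra hc
      push Not at hc
      have hc' : ∀ a : 𝓞 E', g (algebraMap _ E' a) = algebraMap _ E' a := fun a =>
        congrArg (algebraMap _ E') (sub_eq_zero.1 (hc a))
      refine hg (AlgEquiv.ext fun x => ?_)
      obtain ⟨a, b, -, rfl⟩ := IsFractionRing.div_surjective (A := 𝓞 E') x
      rw [map_div₀, hc', hc', AlgEquiv.one_apply]
    refine (Ideal.finite_factors (I := Ideal.span {_}) (Ideal.span_singleton_eq_bot.not.2 ha)).subset
      fun w hw => Ideal.dvd_span_singleton.2 ?_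
    obtain ⟨n, hn⟩ := congr_nat hw.2.1 a
    have h₁ : RingOfIntegers.mapRingEquiv (g : E' ≃+* E') (a - n) ∈
        (act (g : E' ≃+* E') w).asIdeal := by
      rwa [mem_act, RingEquiv.symm_apply_apply]
    rw [hw.2.2, map_sub, map_natCast] at h₁
    simpa using w.asIdeal.sub_mem h₁ hn
  refine ⟨(Set.finite_iUnion key).toFinset, fun w hw h₁ g h₂ => ?_⟩
  by_contra hg
  exact hw ((Set.Finite.mem_toFinset _).2 (Set.mem_iUnion.2 ⟨g, hg, h₁, h₂⟩))

end Ext

/-- the residue degree and ramification index over the rationals are prime to `l` -/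
theorem abs_ef [IsGalois ℚ E] (hd : ¬l ∣ Module.finrank ℚ E) (v : Pr E) :
    ∃ p f : ℕ, p.Prime ∧ ¬l ∣ f ∧ Ideal.absNorm v.asIdeal = p ^ f ∧ (p : 𝓞 E) ∈ v.asIdeal ∧
      ¬(l : ℤ) ∣ ord v (p : E) := by
  have := v.isPrime
  have : NeZero v.asIdeal := ⟨v.ne_bot⟩
  have hp := Nat.absNorm_under_prime v.asIdeal
  have hm := Int.absNorm_under_mem v.asIdeal
  have hL := Int.liesOver_span_absNorm v.asIdeal
  generalize Ideal.absNorm (v.asIdeal.under ℤ) = p at hp hm hL
  have hp0 : (p : ℤ) ≠ 0 := by exact_mod_cast hp.ne_zero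
  let u : HeightOneSpectrum ℤ := ⟨Ideal.span {(p : ℤ)}, Ideal.isPrime_of_liesOver v.asIdeal _,
    by simpa using hp.ne_zero⟩
  have := u.isPrime
  have hL' : v.asIdeal.LiesOver u.asIdeal := hL
  have hdvd : v.asIdeal.ramificationIdx ℤ * v.asIdeal.inertiaDeg ℤ ∣ Module.finrank ℚ E := by
    rw [← IsGaloisGroup.card_eq_finrank Gal(E/ℚ) ℚ E,
      ← Ideal.ncard_primesOver_mul_ramificationIdxIn_mul_inertiaDegIn u.asIdeal (𝓞 E) Gal(E/ℚ),
      Ideal.ramificationIdxIn_eq_ramificationIdx u.asIdeal v.asIdeal Gal(E/ℚ),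
      Ideal.inertiaDegIn_eq_inertiaDeg u.asIdeal v.asIdeal Gal(E/ℚ)]
    exact Dvd.intro_left _ rfl
  refine ⟨p, v.asIdeal.inertiaDeg ℤ, hp, fun h => hd ((h.mul_left _).trans hdvd),
    (Ideal.pow_inertiaDeg p _).symm, hm, fun h => hd ((Dvd.dvd.mul_right ?_ _).trans hdvd)⟩
  have e := HeightOneSpectrum.intValuation_liesOver u v (p : ℤ)
  rw [u.intValuation_singleton hp0 rfl, Ideal.ramificationIdx'_eq_ramificationIdx _ _ u.ne_bot,
    map_natCast, ← v.valuation_of_algebraMap (K := E)] at e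
  have e' : ord v (p : E) = v.asIdeal.ramificationIdx ℤ := by
    rw [ord, ← map_natCast (algebraMap (𝓞 E) E) p]
    erw [← e]
    simp
  rw [e'] at h
  exact_mod_cast h

end Pool.Agent.MP_14ad9d_nt.Full
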