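import Pool.Agent.MP_14ad9d_nt.Full.Top1
import Pool.Agent.MP_14ad9d_nt.Full.SelMain
import Pool.Agent.MP_14ad9d_nt.Full.Set
import Pool.Agent.MP_14ad9d_nt.Full.J5

set_option autoImplicit false

open NumberField Polynomial

namespace Pool.Agent.MP_14ad9d_nt.Full

theorem lint_int {l : ℕ} {A : Type} [CommRing A] {x : A} (h : IsIntegral ℤ x) : LInt l x :=
  ⟨1, Nat.coprime_one_left l, by simpa using h⟩

theorem lint_half {l : ℕ} (hp : l.Prime) (hl : 2 < l) {A : Type} [Field A] [CharZero A] {x : A}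
    (h : IsIntegral ℤ x) : LInt l (x / 2) :=
  ⟨2, (Nat.coprime_primes Nat.prime_two hp).2 hl.ne, by
    rw [Nat.cast_ofNat, mul_div_cancel₀ _ two_ne_zero]
    exact h⟩

theorem dvd_cyc {l : ℕ} (hl : 0 < l) {k : Type} [Field k] {ζ : k} (hζ : IsPrimitiveRoot ζ l)
    (x : k) : ∏ i ∈ Finset.range (l / 2), (X - C (ζ ^ i * x)) ∣ X ^ l - C (x ^ l) := by
  rw [X_pow_sub_C_eq_prod hζ hl rfl]
  exact Finset.prod_dvd_prod_of_subset _ _ _ (Finset.range_mono (Nat.div_le_self _ _))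

theorem top (K₀ : Type) [Field K₀] [NumberField K₀] : ConcS K₀ := by
  obtain ⟨l, hp, hl, F, K, _, _, _, _, _, _, _, _, S, f, hli⟩ := exists_setup K₀
  have : Fact (2 < l) := ⟨hl⟩
  obtain ⟨a, b, A, B, c, hA, hB, hc, ca, cb, hd, hab, sel, near, ind⟩ := selMain hl S
  obtain ⟨j, hj⟩ := exists_emb S
  obtain ⟨r0, r1⟩ := norm_ell l
  let jF : F →+* ℂ_[l] := j.comp (algebraMap F K)
  have na : ‖jF a‖ = 1 := norm_coprime jF ca
  have nb : ‖jF b‖ = 1 := norm_coprime jF cb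
  have a0 : (a : F) ≠ 0 := fun h => by simp [h] at na
  have b0 : (b : F) ≠ 0 := fun h => by simp [h] at nb
  have ab : (b : F) - a ≠ 0 := fun h => hab (RingOfIntegers.ext (sub_eq_zero.1 h)).symm
  obtain ⟨n, hn⟩ : ∃ n, l = 2 * n + 1 := hp.out.odd_of_ne_two hl.ne'
  have hn' : (l - 1) / 2 = n := by omega
  rw [hn'] at hc
  set κ : F := ((a : F) * b) ^ n with hκ
  have κ0 : κ ≠ 0 := pow_ne_zero _ (mul_ne_zero a0 b0)
  let sF : Fˣ := Units.mk0 (κ * (b - a) / 2) (div_ne_zero (mul_ne_zero κ0 ab) two_ne_zero)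
  let s : Kˣ := Units.map (algebraMap F K).toMonoidHom sF
  let s' : ℂ_[l]ˣ := Units.map j.toMonoidHom s
  have hsF : algebraMap F K sF = s := rfl
  have hs' : j s = s' := rfl
  have hs : ∀ g : K ≃ₐ[F] K, (g : K →+* K) s = s := fun g => g.commutes _
  have hsc : (s : K) = c / 2 := by
    rw [← hsF, hc, hA, hB]
    simp [sF, hκ, map_ofNat]
  have h2s : 2 * (s : K) = c := by rw [hsc]; ring
  set y₁ : F := κ * (a + b) / 2 with hy₁
  set x₁ : F := (a : F) * b with hx₁
  have curve : y₁ ^ 2 = x₁ ^ l + (sF : F) ^ 2 := by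
    change _ = _ + (κ * (b - a) / 2) ^ 2
    rw [hn, pow_succ x₁, mul_comm 2 n, pow_mul, ← hκ, hy₁, hx₁]
    ring
  set u₀ : F[X] := ∏ i ∈ Finset.range (l / 2), (X - C (S.ζ ^ i * x₁)) with hu₀
  have hm : u₀.Monic := monic_prod_of_monic _ _ fun i _ => monic_X_sub_C _
  have hdeg : u₀.natDegree = l / 2 := by
    rw [hu₀, natDegree_prod_of_monic _ _ fun i _ => monic_X_sub_C _]
    simp only [natDegree_X_sub_C, Finset.sum_const, Finset.card_range, smul_eq_mul, mul_one]
  have hdvd : u₀ ∣ C y₁ ^ 2 - FF l sF := by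
    rw [← C_pow, curve, FF, C_add, ← dvd_neg]
    convert dvd_cyc hp.out.pos S.hζ x₁ using 1
    ring
  have iκ : IsIntegral ℤ κ := (a.2.mul b.2).pow n
  have ls : LInt l (sF : F) := lint_half hp.out hl (iκ.mul (b.2.sub a.2))
  have ly : LInt l y₁ := lint_half hp.out hl (iκ.mul (a.2.add b.2))
  have n2 : ‖(2 : ℂ_[l])‖ = 1 := by
    have := norm_coprime jF (a := 2) (by
      have h := Nat.isCoprime_iff_coprime.2 ((Nat.coprime_primes Nat.prime_two hp.out).2 hl.ne)
      simpa using h.map (Int.castRingHom (𝓞 F)))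
    simpa [map_ofNat] using this
  have ny : ‖jF y₁‖ = 1 := by
    obtain ⟨t, ht⟩ := hd
    have e : (a : F) + b = 2 * a + l * t := by
      have := congrArg (fun z : 𝓞 F => (z : F)) ht
      simp only [map_sub, map_mul, map_natCast] at this
      linear_combination this
    have nt : ‖jF t‖ ≤ 1 := ((lint_int t.2).map jF).norm_le
    have h1 : ‖jF (2 * a)‖ = 1 := by rw [map_mul, map_ofNat, norm_mul, n2, na, mul_one]
    have h2 : ‖jF (l * t)‖ < 1 := by
      rw [map_mul, map_natCast, norm_mul]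
      exact lt_of_le_of_lt (mul_le_of_le_one_right r0.le nt) r1
    have h3 : ‖jF (a + b)‖ = 1 := by
      rw [e, map_add, IsUltrametricDist.norm_add_eq_max_of_norm_ne_norm (by rw [h1]; exact h2.ne'),
        h1, max_eq_left h2.le]
    rw [hy₁, map_div₀, map_mul, map_ofNat, norm_div, norm_mul, h3, n2, hκ, map_pow, hx₁, map_mul,
      norm_pow, norm_mul, na, nb]
    simp
  let Bs : Base l s' :=
    { u₀ := (u₀.map (algebraMap F K)).map j
      y₁ := j (algebraMap F K y₁)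
      monic := (hm.map _).map _
      deg := by rw [natDegree_map, natDegree_map, hdeg]
      dvd := by
        have := Polynomial.map_dvd j (Polynomial.map_dvd (algebraMap F K) hdvd)
        simpa only [Polynomial.map_sub, Polynomial.map_pow, map_C, FF_map _ hsF, FF_map _ hs']
          using this
      hy := ny
      hs := (ls.map jF).norm_le
      hl := r1 }
  have wild : ∀ v : Pr K, ¬Tm l v → ord v (1 - S.z) = 1 := fun v hv => by
    obtain ⟨g, rfl⟩ := S.trans v hv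
    have := ord_act (g : K ≃+* K) S.v₀ (1 - S.z)
    rw [map_sub, map_one] at this
    erw [S.map_z g] at this
    rw [this]
    exact S.ord_lam
  have hG : ¬l ∣ Fintype.card (K ≃ₐ[F] K) := fun h =>
    S.card_ne ((ZMod.natCast_eq_zero_iff _ _).2 h)
  have hdiv := divis S.hz hs S.map_z hG fun x d h hN =>
    sel d h.ne_zero hN (fun v hv hc => h.ord_dvd hv (h2s ▸ hc)) (fun v hv => h2s ▸ h.tame_eq hv)
      fun v hv => h.nearAt (wild v hv) (by
        obtain ⟨γ, h0, h1⟩ := near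
        exact ⟨γ, h0, hsc ▸ h1 v hv⟩)
  have curveK : algebraMap F K y₁ ^ 2 = algebraMap F K x₁ ^ l + (s : K) ^ 2 := by
    rw [← hsF, ← map_pow, ← map_pow, ← map_pow, ← map_add, curve]
  have x0 : algebraMap F K x₁ ≠ 0 := (_root_.map_ne_zero _).2 (mul_ne_zero a0 b0)
  have hdel := del_pt S.hz curveK x0
  have e : (algebraMap F K y₁ - s) / (algebraMap F K y₁ + s) = A / B := by
    rw [← hsF, ← map_sub, ← map_add, ← map_div₀, hA, hB, ← map_div₀]
    congr 1
    change (y₁ - κ * (b - a) / 2) / (y₁ + κ * (b - a) / 2) = _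
    have e1 : y₁ - κ * (b - a) / 2 = κ * a := by rw [hy₁]; ring
    have e2 : y₁ + κ * (b - a) / 2 = κ * b := by rw [hy₁]; ring
    rw [e1, e2, mul_div_mul_left _ _ κ0]
  rw [e] at hdel
  have hP := nontors S.hz hdel (h2s ▸ ind)
  obtain ⟨h1, h2⟩ := core hsF hs j hj hs' Bs u₀ y₁ rfl rfl hdiv _ hP fun g => by
    rw [jcf_cl, map_cf_pt]
    congr 2 <;> exact g.commutes _
  obtain ⟨R, hR⟩ := exists_lint l F
  have lift : ∀ p : F[X], p ∈ Polynomial.lifts R.subtype → ∀ i, LInt l (p.coeff i) := by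
    intro p hp i
    obtain ⟨q, rfl⟩ := (Polynomial.mem_lifts _).1 hp
    rw [coeff_map]
    exact (hR _).1 (q.coeff i).2
  have lC : ∀ x : F, LInt l x → C x ∈ Polynomial.lifts R.subtype := fun x hx =>
    Polynomial.C'_mem_lifts ⟨⟨x, (hR x).2 hx⟩, rfl⟩
  refine schM l hp.out K₀ F K f hli u₀ (C y₁) (FF l sF) hm ?_ (lift _ ?_) (lift _ (lC _ ly))
    (lift _ ?_) h1 h2
  · refine lt_of_le_of_lt degree_C_le ?_
    rw [degree_eq_natDegree hm.ne_zero, hdeg]
    exact_mod_cast (by omega : 0 < l / 2)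
  · rw [Polynomial.mem_lifts]
    have iz : IsIntegral ℤ S.ζ := S.hζ.isIntegral hp.out.pos
    refine ⟨∏ i ∈ Finset.range (l / 2), (X - C ⟨S.ζ ^ i * x₁, (hR _).2 (lint_int
      ((iz.pow i).mul (a.2.mul b.2)))⟩), ?_⟩
    simp [Polynomial.map_prod, hu₀]
  · rw [FF, C_pow]
    exact add_mem (Polynomial.X_pow_mem_lifts _ _) (pow_mem (lC _ ls) 2)

end Pool.Agent.MP_14ad9d_nt.Full
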