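import Pool.Agent.MP_14ad9d_nt.Full.SchM
import Pool.Agent.MP_14ad9d_nt.Full.J4
import Pool.Agent.MP_14ad9d_nt.Full.PE

set_option autoImplicit false

open NumberField Polynomial

namespace Pool.Agent.MP_14ad9d_nt.Full

variable {l : ℕ} [Fact l.Prime] [Fact (2 < l)] {F K : Type} [Field F] [NumberField F] [Field K]
  [NumberField K] [Algebra F K]

theorem FF_map {k k' : Type} [Field k] [Field k'] {s : kˣ} {s' : k'ˣ} (f : k →+* k')
    (h : f s = s') : (FF l s).map f = FF l s' := by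
  simp [FF, h]

theorem map_fix (g : K ≃ₐ[F] K) (p : F[X]) :
    (p.map (algebraMap F K)).map (g : K →+* K) = p.map (algebraMap F K) := by
  rw [Polynomial.map_map]
  congr 1
  ext x
  simp

theorem lift_fix [IsGalois F K] {p : K[X]} (h : ∀ g : K ≃ₐ[F] K, p.map (g : K →+* K) = p) :
    ∃ q : F[X], q.map (algebraMap F K) = p := by
  rw [← Polynomial.mem_lifts, Polynomial.lifts_iff_coeff_lifts]
  intro n
  refine (IsGalois.mem_range_algebraMap_iff_fixed _).2 fun g => ?_
  have := congrArg (fun q => coeff q n) (h g)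
  simpa using this

theorem bd_of_lint (j : K →+* ℂ_[l]) {p : K[X]} (h : ∀ i, LInt l (p.coeff i / l)) :
    Bd ‖(l : ℂ_[l])‖ (p.map j) := by
  intro i
  have h1 := ((h i).map j).norm_le
  have h0 := (norm_ell l).1
  rw [map_div₀, map_natCast, norm_div, div_le_one h0] at h1
  rwa [coeff_map]

/-- the two properties of the set of Mumford coordinates near the base divisor -/
theorem core [IsGalois F K] {sF : Fˣ} {s : Kˣ} (hsF : algebraMap F K sF = s)
    (hs : ∀ g : K ≃ₐ[F] K, (g : K →+* K) s = s) (j : K →+* ℂ_[l])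
    (hj : ∀ x : K, (∀ g : K ≃ₐ[F] K, g x = x) → ‖j x‖ ≤ 1 → LInt l x)
    {s' : ℂ_[l]ˣ} (hs' : j s = s') (B : Base l s') (u₀ : F[X]) (y₁ : F)
    (hu : (u₀.map (algebraMap F K)).map j = B.u₀) (hy : j (algebraMap F K y₁) = B.y₁)
    (hdiv : ∀ x : Jac l s, ∏ g : K ≃ₐ[F] K, jcf l (g : K →+* K) (hs g) x = 1 →
      ∃ y : Jac l s, ∏ g : K ≃ₐ[F] K, jcf l (g : K →+* K) (hs g) y = 1 ∧ y ^ l = x)
    (P : Jac l s) (hP : ¬IsOfFinOrder P) (hPg : ∀ g : K ≃ₐ[F] K, jcf l (g : K →+* K) (hs g) P = P) :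
    {p : F[X] × F[X] | p.1.Monic ∧ p.1.natDegree = u₀.natDegree ∧
      p.2.degree < p.1.degree ∧ p.1 ∣ p.2 ^ 2 - FF l sF ∧
      (∀ i, LInt l ((p.1 - u₀).coeff i / l)) ∧
      ∀ i, LInt l ((p.2 - C y₁).coeff i / l)}.Infinite ∧
    ∀ u v : K[X], u.Monic → u.natDegree = u₀.natDegree → v.degree < u.degree →
      u ∣ v ^ 2 - (FF l sF).map (algebraMap F K) →
      (∀ i, LInt l ((u - u₀.map (algebraMap F K)).coeff i / l)) →
      (∀ i, LInt l ((v - (C y₁).map (algebraMap F K)).coeff i / l)) →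
      (∃ u' : F[X], u'.map (algebraMap F K) = u) ∧ ∃ v' : F[X], v'.map (algebraMap F K) = v := by
  obtain ⟨r0, r1⟩ := norm_ell l
  obtain ⟨H, hH⟩ := B.exists_sub r0.le r1
  have hfin := fin_index j hs' B r0 r1 H hH
  set H' := H.comap (jcf l j hs') with hH'
  have hdeg : u₀.natDegree = l / 2 := by
    rw [← B.deg, ← hu, natDegree_map, natDegree_map]
  set D : Jac l s := cl l (mum l s (u₀.map (algebraMap F K)) ((C y₁).map (algebraMap F K)))
    with hD
  have hDj : jcf l j hs' D = cl l (mum l s' B.u₀ (C B.y₁)) := by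
    rw [hD, jcf_mum, hu, map_C, map_C, hy]
  have hDg : ∀ g : K ≃ₐ[F] K, jcf l (g : K →+* K) (hs g) D = D := fun g => by
    rw [hD, jcf_mum, map_fix, map_fix]
  have hy' : ((C y₁).map (algebraMap F K)).map j = C B.y₁ := by rw [map_C, map_C, hy]
  have hl0 : (l : K) ≠ 0 := Nat.cast_ne_zero.2 (Fact.out : l.Prime).ne_zero
  constructor
  · have key : ∀ n : ℕ, ∃ p : F[X] × F[X], (p.1.Monic ∧ p.1.natDegree = u₀.natDegree ∧
        p.2.degree < p.1.degree ∧ p.1 ∣ p.2 ^ 2 - FF l sF ∧
        (∀ i, LInt l ((p.1 - u₀).coeff i / l)) ∧ ∀ i, LInt l ((p.2 - C y₁).coeff i / l)) ∧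
        cl l (mum l s (p.1.map (algebraMap F K)) (p.2.map (algebraMap F K))) =
          (P ^ H'.index) ^ n * D := by
      intro n
      obtain ⟨u, v, hm, hd, e⟩ := exists_red ((P ^ H'.index) ^ n * D)
      have hmem : jcf l j hs' ((P ^ H'.index) ^ n) ∈ H :=
        H'.pow_mem (Subgroup.pow_index_mem H' P) n
      obtain ⟨u', v', hc, e'⟩ := (hH _).1 hmem
      rw [← hDj, ← map_mul, ← e, jcf_mum] at e'
      obtain ⟨rfl, rfl⟩ := red_unique hc.1 (hm.map j hs') hc.2.1.le (by rwa [natDegree_map]) e'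
      have hfix : ∀ g : K ≃ₐ[F] K, u.map (g : K →+* K) = u ∧ v.map (g : K →+* K) = v :=
        fun g => fixed_red _ (hs g) hm hd (by rw [e, map_mul, map_pow, map_pow, hPg, hDg])
      obtain ⟨uF, rfl⟩ := lift_fix fun g => (hfix g).1
      obtain ⟨vF, rfl⟩ := lift_fix fun g => (hfix g).2
      have hmF := IsMum.of_map _ hsF hm
      have li : ∀ q : F[X], Bd ‖(l : ℂ_[l])‖ ((q.map (algebraMap F K)).map j) →
          ∀ i, LInt l (q.coeff i / l) := by
        intro q hq i
        refine LInt.of_map (algebraMap F K) (algebraMap F K).injective (hj _ (fun g => ?_) ?_)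
        · exact g.commutes _
        · have := hq i
          rw [coeff_map, coeff_map] at this
          rw [map_div₀, map_div₀, map_natCast, map_natCast, norm_div, div_le_one r0]
          exact this
      refine ⟨(uF, vF), ⟨hmF.1, ?_, hmF.2.1, hmF.2.2, li _ ?_, li _ ?_⟩, e⟩
      · have := hc.2.1
        rw [natDegree_map, natDegree_map] at this
        rw [this, hdeg]
      · rw [Polynomial.map_sub, Polynomial.map_sub, hu]
        exact hc.2.2.1
      · rw [Polynomial.map_sub, Polynomial.map_sub, hy']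
        exact hc.2.2.2
    choose p hp e using key
    refine Set.infinite_of_injective_forall_mem (f := p) (fun m n h => ?_) hp
    have h1 := e m
    rw [h, e n, mul_left_inj] at h1
    have h2 : ¬IsOfFinOrder (P ^ H'.index) := fun h =>
      hP (h.of_pow Subgroup.FiniteIndex.index_ne_zero)
    exact (injective_pow_iff_not_isOfFinOrder.2 h2 h1).symm
  · intro u v h1 h2 h3 h4 h5 h6
    rw [FF_map _ hsF] at h4
    have hm : IsMum l s u v := ⟨h1, h3, h4⟩
    set x := cl l (mum l s u v) with hx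
    let M : Subgroup (Jac l s) := (∏ g : K ≃ₐ[F] K, jcf l (g : K →+* K) (hs g)).ker
    have hM : ∀ y, y ∈ M ↔ ∏ g : K ≃ₐ[F] K, jcf l (g : K →+* K) (hs g) y = 1 := fun y => by
      rw [MonoidHom.mem_ker, MonoidHom.finsetProd_apply]
    have hdiv' := divis_inf l M H' fun y hy => by
      obtain ⟨z, hz, e⟩ := hdiv y ((hM y).1 hy)
      exact ⟨z, (hM z).2 hz, e⟩
    have triv := B.div_trivial r1 (jcf l j hs' '' (M ⊓ H' : Subgroup _))
      (by rintro _ ⟨y, hy, rfl⟩; exact (hH _).1 hy.2)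
      (by
        rintro _ ⟨y, hy, rfl⟩
        obtain ⟨z, hz, rfl⟩ := hdiv' y hy
        exact ⟨_, ⟨z, hz, rfl⟩, (map_pow _ _ _).symm⟩)
    have near : ∀ g : K ≃ₐ[F] K, jcf l (g : K →+* K) (hs g) x / D ∈ H' := by
      intro g
      have lg : ∀ q : K[X], (∀ i, LInt l (q.coeff i / l)) →
          ∀ i, LInt l ((q.map (g : K →+* K)).coeff i / l) := fun q hq i => by
        have := (hq i).map (g : K →+* K)
        rwa [map_div₀, map_natCast, ← coeff_map] at this
      have b1 := bd_of_lint j (lg _ h5)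
      have b2 := bd_of_lint j (lg _ h6)
      rw [Polynomial.map_sub, map_fix, Polynomial.map_sub, hu] at b1
      rw [Polynomial.map_sub, map_fix, Polynomial.map_sub, hy'] at b2
      refine (hH _).2 ⟨_, _, ⟨(hm.map _ (hs g)).map j hs', ?_, b1, b2⟩, ?_⟩
      · rw [natDegree_map, natDegree_map, h2, hdeg]
      · rw [← hDj, ← map_mul, div_mul_cancel, hx, jcf_mum, jcf_mum]
    have fix : ∀ g : K ≃ₐ[F] K, jcf l (g : K →+* K) (hs g) x = x := by
      intro g
      have m1 : jcf l (g : K →+* K) (hs g) x / x ∈ H' := by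
        have := H'.div_mem (near g) (near 1)
        rwa [div_div_div_cancel_right, jcf_id _ (hs 1) (fun _ => rfl)] at this
      have m2 : jcf l (g : K →+* K) (hs g) x / x ∈ M := by
        rw [hM]
        simp only [_root_.map_div, Finset.prod_div_distrib, div_eq_one]
        refine Fintype.prod_equiv (Equiv.mulRight g) _ _ fun h => ?_
        exact jcf_jcf _ _ _ _ _ (hs (h * g)) (fun _ => rfl) x
      have := triv _ ⟨_, ⟨m2, m1⟩, rfl⟩
      rw [← map_one (jcf l j hs')] at this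
      exact div_eq_one.1 (jcf_inj j hs' this)
    have hfix := fun g : K ≃ₐ[F] K => fixed_red _ (hs g) hm (by rw [h2, hdeg]) (fix g)
    exact ⟨lift_fix fun g => (hfix g).1, lift_fix fun g => (hfix g).2⟩

end Pool.Agent.MP_14ad9d_nt.Full
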