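import Pool.Agent.MP_14ad9d_nt.Full.Torus3

set_option autoImplicit false

open NumberField

namespace Pool.Agent.MP_14ad9d_nt.Full

variable {F : Type} [Field F] [NumberField F]

theorem emb_mem_RZ {x : F} (hx : x ≠ 0) : emb x ∈ RZ F :=
  TorusAux.emb_mem_RZ hx

theorem lnN_emb {x : F} (hx : x ≠ 0) : lnN (emb x) = Real.log |((Algebra.norm ℚ x : ℚ) : ℝ)| :=
  TorusAux.lnN_emb hx

theorem Chr.val_mul (ψ : Chr F) {y z : (F →+* ℂ) → ℂ} (hy : y ∈ NZ F) (hz : z ∈ NZ F) :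
    ψ.val (y * z) = ψ.val y * ψ.val z :=
  TorusAux.val_mul ψ hy hz

theorem Chr.norm_val (ψ : Chr F) {y : (F →+* ℂ) → ℂ} (hy : y ∈ NZ F) : ‖ψ.val y‖ = 1 :=
  TorusAux.norm_val ψ hy

theorem Chr.val_smul (ψ : Chr F) {y : (F →+* ℂ) → ℂ} (hy : y ∈ NZ F) {t : ℝ} (ht : 0 < t) :
    ψ.val (t • y) = ψ.val y :=
  TorusAux.val_smul ψ hy ht

theorem Chr.lip (ψ : Chr F) : LocallyLipschitzOn (NZ F) ψ.val :=
  TorusAux.lip ψ

/-- integers in a compact set -/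
theorem finite_emb_mem {C : Set ((F →+* ℂ) → ℂ)} (hC : IsCompact C) :
    {a : 𝓞 F | emb (a : F) ∈ C}.Finite :=
  TorusAux.finite_emb_mem hC

/-- a subgroup of finite index in the units acts cocompactly on a shell -/
theorem cocompact (U : Subgroup (𝓞 F)ˣ) [U.FiniteIndex] (R : ℝ) :
    ∃ C : Set ((F →+* ℂ) → ℂ), IsCompact C ∧ C ⊆ RZ F ∧
      ∀ y ∈ RZ F, |lnN y| ≤ R → ∃ u ∈ U, emb ((u : 𝓞 F) : F) * y ∈ C :=
  TorusAux.cocompact U R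

/-- approximation of invariant functions by characters -/
theorem torus (U : Subgroup (𝓞 F)ˣ) [U.FiniteIndex] (H : ((F →+* ℂ) → ℂ) → ℂ) (R : ℝ)
    (hc : ContinuousOn H (RZ F))
    (hU : ∀ u ∈ U, ∀ y ∈ RZ F, H (emb ((u : 𝓞 F) : F) * y) = H y)
    (hR : ∀ y ∈ RZ F, R < |lnN y| → H y = 0) (ε : ℝ) (hε : 0 < ε) :
    ∃ (n : ℕ) (κ : Fin n → ℝ → ℂ) (ψ : Fin n → Chr F),
      (∀ j, Continuous (κ j) ∧ ∀ u, R + 1 < |u| → κ j u = 0) ∧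
      (∀ j, ∀ u ∈ U, (ψ j).val (emb ((u : 𝓞 F) : F)) = 1) ∧
      ∀ y ∈ RZ F, ‖H y - ∑ j, κ j (lnN y) * (ψ j).val y‖ ≤ ε :=
  TorusAux.torus U H R hc hU hR ε hε

end Pool.Agent.MP_14ad9d_nt.Full
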