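import Pool.Agent.MP_14ad9d_nt.Full.HDefs

set_option autoImplicit false

open NumberField

namespace Pool.Agent.MP_14ad9d_nt.Full.TorusAux

variable {F : Type} [Field F] [NumberField F]

omit [NumberField F] in
theorem emb_mem_RZ {x : F} (hx : x ≠ 0) : emb x ∈ RZ F :=
  ⟨fun φ => (map_ne_zero φ).2 hx, fun φ => ComplexEmbedding.conjugate_coe_eq φ x⟩

theorem lnN_emb {x : F} (hx : x ≠ 0) : lnN (emb x) = Real.log |((Algebra.norm ℚ x : ℚ) : ℝ)| := by
  classical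
  have h := congr_arg (‖·‖) (Algebra.norm_eq_prod_embeddings ℚ ℂ x)
  rw [norm_prod, ← Fintype.prod_equiv (RingHom.equivRatAlgHom F ℂ) (fun f => ‖f x‖)
      (fun φ => ‖φ x‖) fun _ => by simp [RingHom.equivRatAlgHom_apply], eq_ratCast,
      ← Complex.ofReal_ratCast, Complex.norm_real, Real.norm_eq_abs] at h
  rw [h, Real.log_prod]
  · rfl
  · intro φ _
    exact norm_ne_zero_iff.2 ((map_ne_zero φ).2 hx)

theorem val_mul (ψ : Chr F) {y z : (F →+* ℂ) → ℂ} (hy : y ∈ NZ F) (hz : z ∈ NZ F) :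
    ψ.val (y * z) = ψ.val y * ψ.val z := by
  unfold Chr.val
  rw [← Finset.prod_mul_distrib]
  refine Finset.prod_congr rfl fun φ _ => ?_
  have h1 : ‖y φ‖ ≠ 0 := norm_ne_zero_iff.2 (hy φ)
  have h2 : ‖z φ‖ ≠ 0 := norm_ne_zero_iff.2 (hz φ)
  rw [Pi.mul_apply, norm_mul, Real.log_mul h1 h2, Complex.ofReal_mul, mul_div_mul_comm, mul_zpow,
    mul_add, Complex.ofReal_add, mul_add, Complex.exp_add]
  ring

theorem norm_unit {a : ℂ} (ha : a ≠ 0) : ‖a / (‖a‖ : ℂ)‖ = 1 := by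
  rw [norm_div, Complex.norm_real, norm_norm, div_self (norm_ne_zero_iff.2 ha)]

theorem norm_val (ψ : Chr F) {y : (F →+* ℂ) → ℂ} (hy : y ∈ NZ F) : ‖ψ.val y‖ = 1 := by
  unfold Chr.val
  rw [norm_prod]
  refine Finset.prod_eq_one fun φ _ => ?_
  rw [norm_mul, norm_zpow, norm_unit (hy φ), one_zpow, one_mul, mul_comm,
    Complex.norm_exp_ofReal_mul_I]

theorem val_eq (ψ : Chr F) (y : (F →+* ℂ) → ℂ) :
    ψ.val y = (∏ φ, (y φ / (‖y φ‖ : ℂ)) ^ ψ.n φ) *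
      Complex.exp (Complex.I * ((∑ φ, ψ.t φ * Real.log ‖y φ‖ : ℝ) : ℂ)) := by
  unfold Chr.val
  rw [Finset.prod_mul_distrib, ← Complex.exp_sum, Complex.ofReal_sum, Finset.mul_sum]

theorem val_smul (ψ : Chr F) {y : (F →+* ℂ) → ℂ} (hy : y ∈ NZ F) {t : ℝ} (ht : 0 < t) :
    ψ.val (t • y) = ψ.val y := by
  rw [val_eq, val_eq]
  have ht' : (t : ℂ) ≠ 0 := by exact_mod_cast ht.ne'
  congr 1
  · refine Finset.prod_congr rfl fun φ _ => ?_
    congr 1
    rw [Pi.smul_apply, norm_smul, Real.norm_eq_abs, abs_of_pos ht, Complex.real_smul,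
      Complex.ofReal_mul, mul_div_mul_left _ _ ht']
  · congr 3
    have : ∀ φ, ψ.t φ * Real.log ‖(t • y) φ‖ = ψ.t φ * Real.log t + ψ.t φ * Real.log ‖y φ‖ := by
      intro φ
      rw [Pi.smul_apply, norm_smul, Real.norm_eq_abs, abs_of_pos ht,
        Real.log_mul ht.ne' (norm_ne_zero_iff.2 (hy φ)), mul_add]
    simp_rw [this, Finset.sum_add_distrib, ← Finset.sum_mul, ψ.ht, zero_mul, zero_add]

theorem contDiffAt_zpow' {E : Type} [NormedAddCommGroup E] [NormedSpace ℝ E] {f : E → ℂ} {x : E}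
    (hf : ContDiffAt ℝ 1 f x) (h0 : f x ≠ 0) (n : ℤ) : ContDiffAt ℝ 1 (fun y => f y ^ n) x := by
  rcases Int.eq_nat_or_neg n with ⟨k, rfl | rfl⟩
  · simp only [zpow_natCast]
    exact hf.pow k
  · simp only [zpow_neg, zpow_natCast]
    exact (hf.pow k).inv (pow_ne_zero k h0)

theorem contDiffAt_val (ψ : Chr F) {y : (F →+* ℂ) → ℂ} (hy : y ∈ NZ F) :
    ContDiffAt ℝ 1 ψ.val y := by
  unfold Chr.val
  refine contDiffAt_prod fun φ _ => ?_
  have h1 : ContDiffAt ℝ 1 (fun z : (F →+* ℂ) → ℂ => z φ) y := contDiffAt_apply ℝ ℂ φ y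
  have h2 : ContDiffAt ℝ 1 (fun z : (F →+* ℂ) → ℂ => ‖z φ‖) y := h1.norm ℝ (hy φ)
  have h3 : ContDiffAt ℝ 1 (fun z : (F →+* ℂ) → ℂ => (‖z φ‖ : ℂ)) y :=
    Complex.ofRealCLM.contDiff.contDiffAt.comp y h2
  have hn : (‖y φ‖ : ℂ) ≠ 0 := by exact_mod_cast norm_ne_zero_iff.2 (hy φ)
  have h4 : ContDiffAt ℝ 1 (fun z : (F →+* ℂ) → ℂ => z φ / (‖z φ‖ : ℂ)) y := by
    simp only [div_eq_mul_inv]
    exact h1.mul (h3.inv hn)
  refine (contDiffAt_zpow' h4 (div_ne_zero (hy φ) hn) _).mul ?_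
  refine ContDiffAt.cexp (contDiffAt_const.mul ?_)
  exact Complex.ofRealCLM.contDiff.contDiffAt.comp y
    (contDiffAt_const.mul (h2.log (norm_ne_zero_iff.2 (hy φ))))

theorem lip (ψ : Chr F) : LocallyLipschitzOn (NZ F) ψ.val := by
  intro y hy
  obtain ⟨K, t, ht, h⟩ := (contDiffAt_val ψ hy).exists_lipschitzOnWith
  exact ⟨K, t, mem_nhdsWithin_of_mem_nhds ht, h⟩

theorem finite_emb_mem {C : Set ((F →+* ℂ) → ℂ)} (hC : IsCompact C) :
    {a : 𝓞 F | emb (a : F) ∈ C}.Finite := by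
  obtain ⟨B, hB⟩ := hC.isBounded.exists_norm_le
  have h := Embeddings.finite_of_norm_le F ℂ B
  refine (h.preimage (f := fun a : 𝓞 F => (a : F)) (RingOfIntegers.coe_injective.injOn)).subset ?_
  intro a ha
  exact ⟨a.isIntegral_coe, fun φ => (norm_le_pi_norm (emb (a : F)) φ).trans (hB _ ha)⟩

/-- the trivial character -/
def czero : Chr F := ⟨0, 0, by simp⟩

/-- the product of two characters -/
def cadd (ψ χ : Chr F) : Chr F :=
  ⟨ψ.n + χ.n, ψ.t + χ.t, by simp [Finset.sum_add_distrib, ψ.ht, χ.ht]⟩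

/-- the conjugate character -/
def cneg (ψ : Chr F) : Chr F := ⟨-ψ.n, -ψ.t, by simp [ψ.ht]⟩

theorem val_czero (y : (F →+* ℂ) → ℂ) : (czero : Chr F).val y = 1 := by
  simp [Chr.val, czero]

theorem val_cadd (ψ χ : Chr F) {y : (F →+* ℂ) → ℂ} (hy : y ∈ NZ F) :
    (cadd ψ χ).val y = ψ.val y * χ.val y := by
  unfold Chr.val
  rw [← Finset.prod_mul_distrib]
  refine Finset.prod_congr rfl fun φ _ => ?_
  have hn : (‖y φ‖ : ℂ) ≠ 0 := by exact_mod_cast norm_ne_zero_iff.2 (hy φ)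
  simp only [cadd, Pi.add_apply]
  rw [zpow_add₀ (div_ne_zero (hy φ) hn), add_mul, Complex.ofReal_add, mul_add, Complex.exp_add]
  ring

theorem val_cneg (ψ : Chr F) {y : (F →+* ℂ) → ℂ} (hy : y ∈ NZ F) :
    (cneg ψ).val y = (starRingEnd ℂ) (ψ.val y) := by
  have h1 : (cneg ψ).val y * ψ.val y = 1 := by
    rw [← val_cadd _ _ hy]
    simp [Chr.val, cadd, cneg]
  have h2 : (starRingEnd ℂ) (ψ.val y) * ψ.val y = 1 := by
    rw [Complex.conj_mul', norm_val ψ hy]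
    simp
  have h0 : ψ.val y ≠ 0 := by
    intro h
    rw [h, mul_zero] at h2
    exact zero_ne_one h2
  exact mul_right_cancel₀ h0 (h1.trans h2.symm)

theorem continuousOn_lnN : ContinuousOn (lnN (E := F)) (NZ F) := by
  unfold lnN
  refine continuousOn_finsetSum _ fun φ _ => ?_
  exact ((continuous_apply φ).norm.continuousOn).log fun y hy => norm_ne_zero_iff.2 (hy φ)

theorem continuousOn_val (ψ : Chr F) : ContinuousOn ψ.val (NZ F) :=
  fun _ hy => (contDiffAt_val ψ hy).continuousAt.continuousWithinAt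

theorem lnN_mul {y z : (F →+* ℂ) → ℂ} (hy : y ∈ NZ F) (hz : z ∈ NZ F) :
    lnN (y * z) = lnN y + lnN z := by
  unfold lnN
  rw [← Finset.sum_add_distrib]
  refine Finset.sum_congr rfl fun φ _ => ?_
  rw [Pi.mul_apply, norm_mul,
    Real.log_mul (norm_ne_zero_iff.2 (hy φ)) (norm_ne_zero_iff.2 (hz φ))]

omit [NumberField F] in
theorem mul_mem_RZ {y z : (F →+* ℂ) → ℂ} (hy : y ∈ RZ F) (hz : z ∈ RZ F) : y * z ∈ RZ F :=
  ⟨fun φ => mul_ne_zero (hy.1 φ) (hz.1 φ), fun φ => by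
    rw [Pi.mul_apply, Pi.mul_apply, hy.2, hz.2, map_mul]⟩

omit [NumberField F] in
theorem inv_mem_RZ {y : (F →+* ℂ) → ℂ} (hy : y ∈ RZ F) : y⁻¹ ∈ RZ F :=
  ⟨fun φ => inv_ne_zero (hy.1 φ), fun φ => by
    rw [Pi.inv_apply, Pi.inv_apply, hy.2, map_inv₀]⟩

/-- the vector of a unit -/
def ue (u : (𝓞 F)ˣ) : (F →+* ℂ) → ℂ := emb ((u : 𝓞 F) : F)

omit [NumberField F] in
theorem ue_mem (u : (𝓞 F)ˣ) : ue u ∈ RZ F := emb_mem_RZ (Units.coe_ne_zero u)

omit [NumberField F] in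
theorem ue_mul (u v : (𝓞 F)ˣ) : ue (u * v) = ue u * ue v := by
  funext φ
  simp [ue, emb]

omit [NumberField F] in
theorem ue_one : ue (1 : (𝓞 F)ˣ) = 1 := by
  funext φ
  simp [ue, emb]

theorem lnN_ue (u : (𝓞 F)ˣ) : lnN (ue u) = 0 := by
  unfold ue
  rw [lnN_emb (Units.coe_ne_zero u)]
  have := NumberField.Units.norm F u
  rw [← Rat.cast_abs, this]
  simp

theorem val_one (ψ : Chr F) : ψ.val 1 = 1 := by
  simp [Chr.val]

/-- a character restricted to the units -/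
noncomputable def uhom (ψ : Chr F) : (𝓞 F)ˣ →* ℂ where
  toFun u := ψ.val (ue u)
  map_one' := by rw [ue_one, val_one]
  map_mul' u v := by rw [ue_mul, val_mul ψ (ue_mem u).1 (ue_mem v).1]

/-- the logarithms of the absolute values of a unit -/
noncomputable def ulog (φ : F →+* ℂ) : (𝓞 F)ˣ →* Multiplicative ℝ where
  toFun u := Multiplicative.ofAdd (Real.log ‖ue u φ‖)
  map_one' := by simp [ue_one]
  map_mul' u v := by
    rw [ue_mul, Pi.mul_apply, norm_mul, Real.log_mul (norm_ne_zero_iff.2 ((ue_mem u).1 φ))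
      (norm_ne_zero_iff.2 ((ue_mem v).1 φ)), ofAdd_add]

omit [NumberField F] in
theorem log_ue_prod {ι : Type} [Fintype ι] (e : ι → (𝓞 F)ˣ) (m : ι → ℤ) (φ : F →+* ℂ) :
    Real.log ‖ue (∏ i, e i ^ m i) φ‖ = ∑ i, (m i : ℝ) * Real.log ‖ue (e i) φ‖ := by
  have h := map_prod (ulog φ) (fun i => e i ^ m i) Finset.univ
  simp only [map_zpow] at h
  have h2 := congrArg Multiplicative.toAdd h
  rw [toAdd_prod] at h2
  refine h2.trans (Finset.sum_congr rfl fun i _ => ?_)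
  rw [toAdd_zpow, zsmul_eq_mul]
  rfl

end Pool.Agent.MP_14ad9d_nt.Full.TorusAux
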