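import Pool.Agent.MP_14ad9d_nt.Full.Torus1

set_option autoImplicit false

open NumberField NumberField.Units NumberField.InfinitePlace

namespace Pool.Agent.MP_14ad9d_nt.Full.TorusAux

variable {F : Type} [Field F] [NumberField F]

/-- the projection to the logarithmic space -/
noncomputable def proj (F : Type) [Field F] [NumberField F] :
    ((F →+* ℂ) → ℝ) →ₗ[ℝ] dirichletUnitTheorem.logSpace F where
  toFun x := fun w => (mult w.1 : ℝ) * x (embedding w.1)
  map_add' x y := by
    funext w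
    simp [mul_add]
  map_smul' c x := by
    funext w
    simp only [Pi.smul_apply, smul_eq_mul, RingHom.id_apply]
    ring

theorem proj_inj {x : (F →+* ℂ) → ℝ} (hx : ∀ φ, x (ComplexEmbedding.conjugate φ) = x φ)
    (hs : ∑ φ, x φ = 0) (h : proj F x = 0) : x = 0 := by
  classical
  have h1 : ∀ φ, x φ = x (embedding (mk φ)) := by
    intro φ
    rcases embedding_mk_eq φ with h | h <;> rw [h]
    exact (hx φ).symm
  have h2 : ∀ φ, mk φ ≠ dirichletUnitTheorem.w₀ → x φ = 0 := by
    intro φ hφ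
    have := congrFun h ⟨mk φ, hφ⟩
    simp only [proj, LinearMap.coe_mk, AddHom.coe_mk, Pi.zero_apply, mul_eq_zero] at this
    rcases this with h0 | h0
    · exact absurd h0 (by exact_mod_cast (mult_pos (w := mk φ)).ne')
    · rw [h1, h0]
  set c := x (embedding (dirichletUnitTheorem.w₀ (K := F))) with hc
  have h3 : ∀ φ, x φ = if mk φ = dirichletUnitTheorem.w₀ then c else 0 := by
    intro φ
    split_ifs with hφ
    · rw [h1, hφ]
    · exact h2 φ hφ
  have h4 : c = 0 := by
    rw [Finset.sum_congr rfl fun φ _ => h3 φ, ← Finset.sum_filter, Finset.sum_const,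
      card_filter_mk_eq, nsmul_eq_mul, mul_eq_zero] at hs
    rcases hs with h0 | h0
    · exact absurd h0 (by exact_mod_cast (mult_pos (w := dirichletUnitTheorem.w₀ (K := F))).ne')
    · exact h0
  funext φ
  rw [h3, h4, ite_self, Pi.zero_apply]

theorem exists_dual (F : Type) [Field F] [NumberField F] :
    ∃ T : Fin (rank F) → (F →+* ℂ) → ℝ, (∀ i, ∑ φ, T i φ = 0) ∧
      (∀ i j, ∑ φ, T i φ * Real.log ‖ue (fundSystem F j) φ‖ = if i = j then 1 else 0) ∧
      ∀ x : (F →+* ℂ) → ℝ, (∀ φ, x (ComplexEmbedding.conjugate φ) = x φ) → ∑ φ, x φ = 0 →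
        (∀ i, ∑ φ, T i φ * x φ = 0) → x = 0 := by
  classical
  let b := (basisUnitLattice F).ofZLatticeBasis ℝ (unitLattice F)
  let l : Fin (rank F) → ((F →+* ℂ) → ℝ) →ₗ[ℝ] ℝ := fun i => (b.coord i).comp (proj F)
  let T' : Fin (rank F) → (F →+* ℂ) → ℝ := fun i φ => l i fun ψ => if φ = ψ then 1 else 0
  let d : ℝ := Fintype.card (F →+* ℂ)
  have hd : d ≠ 0 := by
    have : 0 < Fintype.card (F →+* ℂ) := Fintype.card_pos
    simp only [d]
    exact_mod_cast this.ne'
  let T : Fin (rank F) → (F →+* ℂ) → ℝ := fun i φ => T' i φ - (∑ ψ, T' i ψ) / d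
  have key : ∀ i (x : (F →+* ℂ) → ℝ), ∑ φ, x φ = 0 → ∑ φ, T i φ * x φ = l i x := by
    intro i x hx
    simp only [T, sub_mul, Finset.sum_sub_distrib, ← Finset.mul_sum, hx, mul_zero, sub_zero]
    rw [LinearMap.pi_apply_eq_sum_univ (l i) x]
    refine Finset.sum_congr rfl fun φ _ => ?_
    rw [smul_eq_mul, mul_comm]
  refine ⟨T, fun i => ?_, fun i j => ?_, fun x hx hs h => ?_⟩
  · simp only [T, Finset.sum_sub_distrib, Finset.sum_const, Finset.card_univ, nsmul_eq_mul]
    rw [mul_div_cancel₀ _ hd, sub_self]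
  · rw [key i _ (lnN_ue (fundSystem F j))]
    have : proj F (fun φ => Real.log ‖ue (fundSystem F j) φ‖) = b j := by
      rw [Module.Basis.ofZLatticeBasis_apply, ← logEmbedding_fundSystem]
      funext w
      rw [dirichletUnitTheorem.logEmbedding_component]
      simp only [proj, LinearMap.coe_mk, AddHom.coe_mk, ue, emb, norm_embedding_eq]
    simp only [l, LinearMap.comp_apply, this, Module.Basis.coord_apply, Module.Basis.repr_self,
      Finsupp.single_apply, eq_comm]
  · refine proj_inj hx hs ?_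
    refine b.forall_coord_eq_zero_iff.1 fun i => ?_
    have := h i
    rwa [key i x hs] at this

omit [NumberField F] in
theorem log_conj {y : (F →+* ℂ) → ℂ} (hy : y ∈ RZ F) (φ : F →+* ℂ) :
    Real.log ‖y (ComplexEmbedding.conjugate φ)‖ = Real.log ‖y φ‖ := by
  rw [hy.2, Complex.norm_conj]

theorem isCompact_box (B : ℝ) : IsCompact {y : (F →+* ℂ) → ℂ | (∀ φ, Real.exp (-B) ≤ ‖y φ‖ ∧
    ‖y φ‖ ≤ Real.exp B) ∧ ∀ φ, y (ComplexEmbedding.conjugate φ) = (starRingEnd ℂ) (y φ)} := by
  refine Metric.isCompact_of_isClosed_isBounded ?_ ?_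
  · simp only [Set.ofPred_and, Set.ofPred_forall]
    refine IsClosed.inter (isClosed_iInter fun φ => IsClosed.inter ?_ ?_)
      (isClosed_iInter fun φ => ?_)
    · exact isClosed_le continuous_const (continuous_apply φ).norm
    · exact isClosed_le (continuous_apply φ).norm continuous_const
    · exact isClosed_eq (continuous_apply _) (Complex.continuous_conj.comp (continuous_apply φ))
  · refine (Metric.isBounded_closedBall (x := 0) (r := Real.exp B)).subset fun y hy => ?_
    rw [mem_closedBall_zero_iff, pi_norm_le_iff_of_nonneg (Real.exp_pos B).le]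
    exact fun φ => (hy.1 φ).2

theorem cocompact (U : Subgroup (𝓞 F)ˣ) [U.FiniteIndex] (R : ℝ) :
    ∃ C : Set ((F →+* ℂ) → ℂ), IsCompact C ∧ C ⊆ RZ F ∧
      ∀ y ∈ RZ F, |lnN y| ≤ R → ∃ u ∈ U, ue u * y ∈ C := by
  classical
  obtain ⟨T, hT0, hT1, hT2⟩ := exists_dual F
  let N : ℕ := U.index
  have hN : (0 : ℝ) < N := by exact_mod_cast Nat.pos_of_ne_zero Subgroup.FiniteIndex.index_ne_zero
  let d : ℝ := Fintype.card (F →+* ℂ)
  have hd : 1 ≤ d := by
    have : 0 < Fintype.card (F →+* ℂ) := Fintype.card_pos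
    simp only [d]
    exact_mod_cast this
  let L : Fin (rank F) → (F →+* ℂ) → ℝ := fun i φ => Real.log ‖ue (fundSystem F i) φ‖
  let B : ℝ := R + N * ∑ i, ∑ φ, |L i φ|
  refine ⟨_, isCompact_box B, fun y hy => ⟨fun φ h => ?_, hy.2⟩, fun y hy hR => ?_⟩
  · have := (hy.1 φ).1
    rw [h, norm_zero] at this
    exact absurd this (not_le.2 (Real.exp_pos _))
  let τ : Fin (rank F) → ℝ := fun i => ∑ φ, T i φ * Real.log ‖y φ‖
  let m : Fin (rank F) → ℤ := fun i => N * (-⌊τ i / N⌋)
  let u : (𝓞 F)ˣ := ∏ i, fundSystem F i ^ m i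
  have hu : u ∈ U := by
    refine Subgroup.prod_mem _ fun i _ => ?_
    simp only [m]
    rw [zpow_mul, zpow_natCast]
    exact Subgroup.zpow_mem _ (Subgroup.pow_index_mem U _) _
  have hz := mul_mem_RZ (ue_mem u) hy
  refine ⟨u, hu, fun φ => ?_, hz.2⟩
  let s : Fin (rank F) → ℝ := fun i => τ i + m i
  have hs : ∀ i, |s i| ≤ N := by
    intro i
    have h1 := Int.floor_le (τ i / N)
    have h2 := Int.lt_floor_add_one (τ i / N)
    rw [le_div_iff₀ hN] at h1
    rw [div_lt_iff₀ hN] at h2
    simp only [s, m]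
    push_cast
    rw [abs_le]
    constructor <;> nlinarith
  have hx : (fun φ => Real.log ‖y φ‖ - lnN y / d - ∑ i, τ i * L i φ) = 0 := by
    refine hT2 _ (fun φ => ?_) ?_ fun j => ?_
    · simp only [L, log_conj hy, log_conj (ue_mem _)]
    · rw [Finset.sum_sub_distrib, Finset.sum_sub_distrib, Finset.sum_comm]
      have : ∀ i, ∑ φ, τ i * L i φ = 0 := by
        intro i
        rw [← Finset.mul_sum]
        exact mul_eq_zero_of_right _ (lnN_ue _)
      simp only [this, Finset.sum_const_zero, sub_zero, Finset.sum_const, Finset.card_univ,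
        nsmul_eq_mul]
      rw [mul_div_cancel₀ _ (by linarith : d ≠ 0)]
      exact sub_self _
    · simp only [mul_sub, Finset.sum_sub_distrib, Finset.mul_sum]
      rw [← Finset.sum_mul, hT0, zero_mul, sub_zero, Finset.sum_comm]
      have : ∀ i, ∑ φ, T j φ * (τ i * L i φ) = if j = i then τ i else 0 := by
        intro i
        have h := hT1 j i
        have h' : ∑ φ, T j φ * (τ i * L i φ) = τ i * ∑ φ, T j φ * L i φ := by
          rw [Finset.mul_sum]
          exact Finset.sum_congr rfl fun φ _ => by ring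
        rw [h', h]
        split_ifs <;> simp
      simp only [this, Finset.sum_ite_eq, Finset.mem_univ, if_true]
      exact sub_self _
  have hφ : Real.log ‖(ue u * y) φ‖ = lnN y / d + ∑ i, s i * L i φ := by
    have h1 := congrFun hx φ
    simp only [Pi.zero_apply] at h1
    rw [Pi.mul_apply, norm_mul, Real.log_mul (norm_ne_zero_iff.2 ((ue_mem u).1 φ))
      (norm_ne_zero_iff.2 (hy.1 φ)), log_ue_prod]
    simp only [s, add_mul, Finset.sum_add_distrib]
    linarith
  have hb : |Real.log ‖(ue u * y) φ‖| ≤ B := by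
    rw [hφ]
    refine (abs_add_le _ _).trans (add_le_add ?_ ?_)
    · rw [abs_div, abs_of_pos (by linarith : 0 < d)]
      exact (div_le_self (abs_nonneg _) hd).trans hR
    · refine (Finset.abs_sum_le_sum_abs _ _).trans ?_
      rw [Finset.mul_sum]
      refine Finset.sum_le_sum fun i _ => ?_
      rw [abs_mul]
      exact mul_le_mul (hs i) (Finset.single_le_sum (f := fun φ => |L i φ|)
        (fun _ _ => abs_nonneg _) (Finset.mem_univ φ)) (abs_nonneg _) hN.le
  have hpos : 0 < ‖(ue u * y) φ‖ := norm_pos_iff.2 (hz.1 φ)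
  rw [abs_le] at hb
  exact ⟨(Real.le_log_iff_exp_le hpos).1 hb.1, (Real.log_le_iff_le_exp hpos).1 hb.2⟩

/-- the group of `N`-th powers of units -/
def pw (F : Type) [Field F] (N : ℕ) : Subgroup (𝓞 F)ˣ := (powMonoidHom (α := (𝓞 F)ˣ) N).range

theorem pw_finiteIndex {N : ℕ} (hN : N ≠ 0) : (pw F N).FiniteIndex := by
  have : Group.FG (𝓞 F)ˣ := Group.fg_iff_monoid_fg.2 inferInstance
  exact Subgroup.finiteIndex_range_powMonoidHom_of_fg _ hN

theorem triv_of_gen {N : ℕ} (hN : torsionOrder F ∣ N) (ψ : Chr F)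
    (h : ∀ i, ψ.val (ue (fundSystem F i ^ N)) = 1) : ∀ u ∈ pw F N, ψ.val (ue u) = 1 := by
  rintro _ ⟨x, rfl⟩
  obtain ⟨⟨ζ, e⟩, hx, -⟩ := exist_unique_eq_mul_prod F x
  have hζ : (ζ : (𝓞 F)ˣ) ^ N = 1 := by
    obtain ⟨k, rfl⟩ := hN
    have : ζ ^ (torsionOrder F) = 1 := by
      rw [torsionOrder]
      exact pow_card_eq_one'
    rw [pow_mul, ← Subgroup.coe_pow, this, Subgroup.coe_one, one_pow]
  have h1 : x ^ N = ∏ i, (fundSystem F i ^ N) ^ e i := by
    rw [hx, mul_pow, hζ, one_mul, ← Finset.prod_pow]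
    refine Finset.prod_congr rfl fun i _ => ?_
    rw [← zpow_natCast, ← zpow_natCast, ← zpow_mul, ← zpow_mul, mul_comm]
  change uhom ψ (x ^ N) = 1
  rw [h1, map_prod]
  refine Finset.prod_eq_one fun i _ => ?_
  have : (uhom ψ).toHomUnits (fundSystem F i ^ N) = 1 := Units.ext (h i)
  have h2 := congrArg Units.val (map_zpow (uhom ψ).toHomUnits (fundSystem F i ^ N) (e i))
  rw [this, one_zpow] at h2
  exact h2

theorem separation {N : ℕ} (hN0 : N ≠ 0) (hN : torsionOrder F ∣ N) {z : (F →+* ℂ) → ℂ}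
    (hz : z ∈ RZ F) (h0 : lnN z = 0)
    (h : ∀ ψ : Chr F, (∀ u ∈ pw F N, ψ.val (ue u) = 1) → ψ.val z = 1) :
    ∃ u ∈ pw F N, z = ue u := by
  classical
  obtain ⟨T, hT0, hT1, hT2⟩ := exists_dual F
  have hN' : (N : ℝ) ≠ 0 := by exact_mod_cast hN0
  have hlog : ∀ j φ, Real.log ‖ue (fundSystem F j ^ N) φ‖ =
      N * Real.log ‖ue (fundSystem F j) φ‖ := by
    intro j φ
    have h := congrArg Multiplicative.toAdd (map_pow (ulog φ) (fundSystem F j) N)
    rw [toAdd_pow, nsmul_eq_mul] at h
    exact h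
  -- characters with prescribed angular part and prescribed shifts
  let mk : ((F →+* ℂ) → ℤ) → (Fin (rank F) → ℝ) → Chr F := fun n a =>
    ⟨n, fun φ => ∑ i, a i / N * T i φ, by
      rw [Finset.sum_comm]
      simp only [← Finset.mul_sum, hT0, mul_zero, Finset.sum_const_zero]⟩
  have hmk : ∀ n a (y : (F →+* ℂ) → ℂ), (mk n a).val y = (∏ φ, (y φ / (‖y φ‖ : ℂ)) ^ n φ) *
      Complex.exp (Complex.I * ((∑ i, a i / N * ∑ φ, T i φ * Real.log ‖y φ‖ : ℝ) : ℂ)) := by
    intro n a y
    rw [val_eq]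
    congr 4
    simp only [mk, Finset.sum_mul, Finset.mul_sum]
    rw [Finset.sum_comm]
    exact Finset.sum_congr rfl fun i _ => Finset.sum_congr rfl fun φ _ => by ring
  have hgen : ∀ n a j, (mk n a).val (ue (fundSystem F j ^ N)) =
      (∏ φ, (ue (fundSystem F j ^ N) φ / (‖ue (fundSystem F j ^ N) φ‖ : ℂ)) ^ n φ) *
        Complex.exp (Complex.I * (a j : ℂ)) := by
    intro n a j
    rw [hmk]
    congr 4
    have : ∀ i, a i / N * ∑ φ, T i φ * Real.log ‖ue (fundSystem F j ^ N) φ‖ =
        if i = j then a i else 0 := by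
      intro i
      have h' : ∑ φ, T i φ * Real.log ‖ue (fundSystem F j ^ N) φ‖ =
          N * ∑ φ, T i φ * Real.log ‖ue (fundSystem F j) φ‖ := by
        rw [Finset.mul_sum]
        exact Finset.sum_congr rfl fun φ _ => by rw [hlog]; ring
      rw [h', hT1]
      split_ifs
      · field_simp
      · simp
    simp only [this, Finset.sum_ite_eq', Finset.mem_univ, if_true]
  let τ : Fin (rank F) → ℝ := fun i => ∑ φ, T i φ * Real.log ‖z φ‖
  have hint : ∀ i, ∃ k : ℤ, τ i = N * k := by
    intro i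
    have h1 := h (mk 0 fun j => if j = i then 2 * Real.pi else 0) (triv_of_gen hN _ fun j => by
      rw [hgen]
      simp only [Pi.zero_apply, zpow_zero, Finset.prod_const_one, one_mul]
      split_ifs
      · rw [Complex.exp_eq_one_iff]
        exact ⟨1, by push_cast; ring⟩
      · simp)
    rw [hmk] at h1
    simp only [Pi.zero_apply, zpow_zero, Finset.prod_const_one, one_mul, ite_div, zero_div,
      ite_mul, zero_mul, Finset.sum_ite_eq', Finset.mem_univ, if_true] at h1
    obtain ⟨k, hk⟩ := Complex.exp_eq_one_iff.1 h1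
    refine ⟨k, ?_⟩
    have h2 : Complex.I * ((2 * Real.pi / N * τ i : ℝ) : ℂ) =
        Complex.I * ((k * (2 * Real.pi) : ℝ) : ℂ) := by
      rw [hk]
      push_cast
      ring
    have h3 := Complex.ofReal_injective (mul_left_cancel₀ Complex.I_ne_zero h2)
    have hpi := Real.pi_pos
    field_simp at h3
    linarith
  choose k hk using hint
  let u : (𝓞 F)ˣ := ∏ i, (fundSystem F i ^ N) ^ k i
  have hu : u ∈ pw F N :=
    Subgroup.prod_mem _ fun i _ => Subgroup.zpow_mem (pw F N)
      (show fundSystem F i ^ N ∈ pw F N from ⟨fundSystem F i, rfl⟩) _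
  refine ⟨u, hu, ?_⟩
  let w := z * ue u⁻¹
  have hw : w ∈ RZ F := mul_mem_RZ hz (ue_mem _)
  have hzw : z = w * ue u := by
    simp only [w]
    rw [mul_assoc, ← ue_mul, inv_mul_cancel, ue_one, mul_one]
  have hlw : (fun φ => Real.log ‖w φ‖) = 0 := by
    refine hT2 _ (log_conj hw) ?_ fun j => ?_
    · have := lnN_mul hw.1 (ue_mem u).1
      rw [← hzw, h0, lnN_ue, add_zero] at this
      exact this.symm
    · have h1 : ∀ φ, Real.log ‖z φ‖ = Real.log ‖w φ‖ +
          ∑ i, (k i : ℝ) * (N * Real.log ‖ue (fundSystem F i) φ‖) := by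
        intro φ
        conv_lhs => rw [hzw]
        rw [Pi.mul_apply, norm_mul, Real.log_mul (norm_ne_zero_iff.2 (hw.1 φ))
          (norm_ne_zero_iff.2 ((ue_mem u).1 φ)), log_ue_prod]
        simp only [hlog]
      have h2 := hk j
      simp only [τ, h1, mul_add, Finset.sum_add_distrib, Finset.mul_sum] at h2
      rw [Finset.sum_comm (s := Finset.univ (α := F →+* ℂ))] at h2
      have : ∀ i, ∑ φ, T j φ * ((k i : ℝ) * (N * Real.log ‖ue (fundSystem F i) φ‖)) =
          if j = i then (N : ℝ) * k i else 0 := by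
        intro i
        have h' : ∑ φ, T j φ * ((k i : ℝ) * (N * Real.log ‖ue (fundSystem F i) φ‖)) =
            (N * k i) * ∑ φ, T j φ * Real.log ‖ue (fundSystem F i) φ‖ := by
          rw [Finset.mul_sum]
          exact Finset.sum_congr rfl fun φ _ => by ring
        rw [h', hT1]
        split_ifs <;> simp
      simp only [this, Finset.sum_ite_eq, Finset.mem_univ, if_true] at h2
      linarith
  have hw1 : w = 1 := by
    funext φ
    let g : Fin (rank F) → ℂ := fun j =>
      ue (fundSystem F j ^ N) φ / (‖ue (fundSystem F j ^ N) φ‖ : ℂ)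
    let ψ := mk (fun χ => if χ = φ then 1 else 0) fun j => -Complex.arg (g j)
    have hψ : ∀ v ∈ pw F N, ψ.val (ue v) = 1 := triv_of_gen hN _ fun j => by
      rw [hgen]
      simp only [pow_ite, zpow_one, zpow_zero, Finset.prod_ite_eq', Finset.mem_univ, if_true]
      have hg : ‖g j‖ = 1 := norm_unit ((ue_mem _).1 φ)
      have h1 := Complex.norm_mul_exp_arg_mul_I (g j)
      rw [hg, Complex.ofReal_one, one_mul] at h1
      change g j * _ = 1
      conv_lhs => enter [1]; rw [← h1]
      rw [← Complex.exp_add, Complex.exp_eq_one_iff]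
      exact ⟨0, by push_cast; ring⟩
    have h1 : ψ.val w = 1 := by
      have h2 := h ψ hψ
      rw [hzw, val_mul ψ hw.1 (ue_mem u).1, hψ u hu, mul_one] at h2
      exact h2
    have h3 : ∀ χ, Real.log ‖w χ‖ = 0 := fun χ => congrFun hlw χ
    have h4 : ‖w φ‖ = 1 := by
      have := Real.exp_log (norm_pos_iff.2 (hw.1 φ))
      rw [h3, Real.exp_zero] at this
      exact this.symm
    rw [hmk] at h1
    simp only [pow_ite, zpow_one, zpow_zero, Finset.prod_ite_eq', Finset.mem_univ, if_true, h3,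
      mul_zero, Finset.sum_const_zero, Complex.ofReal_zero, Complex.exp_zero, mul_one, h4,
      Complex.ofReal_one, div_one] at h1
    exact h1
  rw [hzw, hw1, one_mul]

end Pool.Agent.MP_14ad9d_nt.Full.TorusAux
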