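import Pool.Agent.MP_14ad9d_nt.Full.Torus2

set_option autoImplicit false

open NumberField NumberField.Units

namespace Pool.Agent.MP_14ad9d_nt.Full.TorusAux

/-- a relative form of the Stone-Weierstrass theorem -/
theorem rel_sw {X : Type} [TopologicalSpace X] [CompactSpace X] (A : StarSubalgebra ℂ C(X, ℂ))
    (h : C(X, ℂ)) (hs : ∀ x y, (∀ f ∈ A, f x = f y) → h x = h y) {ε : ℝ} (hε : 0 < ε) :
    ∃ f ∈ A, ∀ x, ‖h x - f x‖ ≤ ε := by
  let Θ : X → (A → ℂ) := fun x f => (f : C(X, ℂ)) x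
  have hΘ : Continuous Θ := continuous_pi fun f => (f : C(X, ℂ)).continuous
  have : CompactSpace (Set.range Θ) := isCompact_iff_compactSpace.1 (isCompact_range hΘ)
  let q : C(X, Set.range Θ) := ⟨Set.rangeFactorization Θ, hΘ.subtype_mk _⟩
  have hq : Function.Surjective q := Set.rangeFactorization_surjective
  have hquot : Topology.IsQuotientMap q := q.continuous.isClosedMap.isQuotientMap q.continuous hq
  let g0 : Set.range Θ → ℂ := fun k => h (Function.surjInv hq k)
  have hg0 : ∀ x, g0 (q x) = h x := by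
    intro x
    refine hs _ _ fun f hf => ?_
    have h1 := congrArg Subtype.val (Function.surjInv_eq hq (q x))
    exact congrFun h1 ⟨f, hf⟩
  have hg : Continuous g0 := by
    rw [hquot.continuous_iff]
    have : g0 ∘ q = h := funext hg0
    rw [this]
    exact h.continuous
  let A' : StarSubalgebra ℂ C(Set.range Θ, ℂ) := A.comap (ContinuousMap.compStarAlgHom' ℂ ℂ q)
  have hsep : A'.SeparatesPoints := by
    intro k l hkl
    have : ∃ f : A, k.1 f ≠ l.1 f := by
      by_contra hc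
      push Not at hc
      exact hkl (Subtype.ext (funext hc))
    obtain ⟨f, hf⟩ := this
    refine ⟨_, ⟨⟨fun k => k.1 f, (continuous_apply f).comp continuous_subtype_val⟩, ?_, rfl⟩, hf⟩
    have : (ContinuousMap.compStarAlgHom' ℂ ℂ q)
        ⟨fun k => k.1 f, (continuous_apply f).comp continuous_subtype_val⟩ = (f : C(X, ℂ)) := by
      ext x
      rfl
    change (ContinuousMap.compStarAlgHom' ℂ ℂ q) _ ∈ A
    rw [this]
    exact f.2
  have htop := ContinuousMap.starSubalgebra_topologicalClosure_eq_top_of_separatesPoints A' hsep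
  have hmem : (⟨g0, hg⟩ : C(Set.range Θ, ℂ)) ∈ closure (A' : Set C(Set.range Θ, ℂ)) := by
    rw [← StarSubalgebra.topologicalClosure_coe, htop]
    trivial
  obtain ⟨g, hgA, hd⟩ := Metric.mem_closure_iff.1 hmem ε hε
  refine ⟨g.comp q, hgA, fun x => ?_⟩
  have h1 := ContinuousMap.dist_apply_le_dist (f := (⟨g0, hg⟩ : C(Set.range Θ, ℂ))) (g := g) (q x)
  rw [← dist_eq_norm, ← hg0]
  exact h1.trans hd.le

variable {F : Type} [Field F] [NumberField F]

/-- finite sums of characters trivial on `E` with coefficients depending on the norm -/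
def IsSum (E : Subgroup (𝓞 F)ˣ) (C : Set ((F →+* ℂ) → ℂ)) (f : C → ℂ) : Prop :=
  ∃ (ι : Type) (_ : Fintype ι) (κ : ι → ℝ → ℂ) (ψ : ι → Chr F), (∀ j, Continuous (κ j)) ∧
    (∀ j, ∀ u ∈ E, (ψ j).val (ue u) = 1) ∧ ∀ y : C, f y = ∑ j, κ j (lnN y.1) * (ψ j).val y.1

theorem isSum_single (E : Subgroup (𝓞 F)ˣ) (C : Set ((F →+* ℂ) → ℂ)) {f : C → ℂ} (κ : ℝ → ℂ)
    (ψ : Chr F) (hκ : Continuous κ) (hψ : ∀ u ∈ E, ψ.val (ue u) = 1)
    (h : ∀ y : C, f y = κ (lnN y.1) * ψ.val y.1) : IsSum E C f :=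
  ⟨Unit, inferInstance, fun _ => κ, fun _ => ψ, fun _ => hκ, fun _ => hψ, fun y => by simp [h]⟩

/-- the algebra of such sums -/
def sumAlg (E : Subgroup (𝓞 F)ˣ) (C : Set ((F →+* ℂ) → ℂ)) (hC : C ⊆ RZ F) :
    StarSubalgebra ℂ C(C, ℂ) where
  carrier := {f | IsSum E C f}
  mul_mem' := by
    rintro f g ⟨ι, _, κ, ψ, h1, h2, h3⟩ ⟨ι', _, κ', ψ', h1', h2', h3'⟩
    refine ⟨ι × ι', inferInstance, fun j t => κ j.1 t * κ' j.2 t, fun j => cadd (ψ j.1) (ψ' j.2),
      fun j => (h1 _).mul (h1' _), fun j u hu => ?_, fun y => ?_⟩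
    · rw [val_cadd _ _ (ue_mem u).1, h2 _ u hu, h2' _ u hu, one_mul]
    · rw [ContinuousMap.mul_apply, h3, h3', Finset.sum_mul_sum, Fintype.sum_prod_type]
      refine Finset.sum_congr rfl fun i _ => Finset.sum_congr rfl fun j _ => ?_
      rw [val_cadd _ _ (hC y.2).1]
      ring
  add_mem' := by
    rintro f g ⟨ι, _, κ, ψ, h1, h2, h3⟩ ⟨ι', _, κ', ψ', h1', h2', h3'⟩
    refine ⟨ι ⊕ ι', inferInstance, Sum.elim κ κ', Sum.elim ψ ψ', ?_, ?_, fun y => ?_⟩
    · rintro (j | j)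
      · exact h1 j
      · exact h1' j
    · rintro (j | j)
      · exact h2 j
      · exact h2' j
    · rw [ContinuousMap.add_apply, h3, h3', Fintype.sum_sum_type]
      rfl
  algebraMap_mem' c := isSum_single E C (fun _ => c) czero continuous_const
    (fun u _ => val_czero _) fun y => by simp [val_czero]
  star_mem' := by
    rintro f ⟨ι, _, κ, ψ, h1, h2, h3⟩
    refine ⟨ι, inferInstance, fun j t => (starRingEnd ℂ) (κ j t), fun j => cneg (ψ j),
      fun j => Complex.continuous_conj.comp (h1 j), fun j u hu => ?_, fun y => ?_⟩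
    · rw [val_cneg _ (ue_mem u).1, h2 _ u hu, map_one]
    · rw [ContinuousMap.star_apply, h3, Complex.star_def, map_sum]
      refine Finset.sum_congr rfl fun j _ => ?_
      rw [map_mul, val_cneg _ (hC y.2).1]

theorem approx_pw {N : ℕ} (hN0 : N ≠ 0) (hN : torsionOrder F ∣ N) (H : ((F →+* ℂ) → ℂ) → ℂ)
    (R : ℝ) (hc : ContinuousOn H (RZ F))
    (hU : ∀ u ∈ pw F N, ∀ y ∈ RZ F, H (ue u * y) = H y) {ε : ℝ} (hε : 0 < ε) :
    ∃ (ι : Type) (_ : Fintype ι) (κ : ι → ℝ → ℂ) (ψ : ι → Chr F), (∀ j, Continuous (κ j)) ∧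
      (∀ j, ∀ u ∈ pw F N, (ψ j).val (ue u) = 1) ∧
      ∀ y ∈ RZ F, |lnN y| ≤ R → ‖H y - ∑ j, κ j (lnN y) * (ψ j).val y‖ ≤ ε := by
  have := pw_finiteIndex (F := F) hN0
  obtain ⟨C, hC, hCR, hcov⟩ := cocompact (pw F N) R
  have : CompactSpace C := isCompact_iff_compactSpace.1 hC
  let h : C(C, ℂ) := ⟨fun y => H y.1, (hc.mono hCR).domRestrict⟩
  have hNZ : C ⊆ NZ F := fun y hy => (hCR hy).1
  obtain ⟨f, ⟨ι, _, κ, ψ, h1, h2, h3⟩, hf⟩ := rel_sw (sumAlg (pw F N) C hCR) h (by
    intro x y hxy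
    have hx := hCR x.2
    have hy := hCR y.2
    have hz := mul_mem_RZ hy (inv_mem_RZ hx)
    have hzx : y.1 * x.1⁻¹ * x.1 = y.1 := by
      funext φ
      simp only [Pi.mul_apply, Pi.inv_apply]
      rw [mul_assoc, inv_mul_cancel₀ (hx.1 φ), mul_one]
    have hl : lnN x.1 = lnN y.1 := by
      have := hxy ⟨fun y => (lnN y.1 : ℂ), Complex.continuous_ofReal.comp
        (continuousOn_lnN.mono hNZ).domRestrict⟩ (isSum_single _ C (fun t => (t : ℂ)) czero
          Complex.continuous_ofReal (fun u _ => val_czero _) fun y => by simp [val_czero])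
      exact Complex.ofReal_injective this
    obtain ⟨u, hu, hzu⟩ := separation hN0 hN hz (by
      have := lnN_mul hz.1 hx.1
      rw [hzx, ← hl] at this
      linarith) (by
      intro ψ hψ
      have h1 := hxy ⟨fun y => ψ.val y.1, ((continuousOn_val ψ).mono hNZ).domRestrict⟩
        (isSum_single _ C (fun _ => 1) ψ continuous_const hψ fun y => by simp)
      have h2 := val_mul ψ hz.1 hx.1
      rw [hzx] at h2
      have h3 : ψ.val x.1 ≠ 0 := by
        rw [← norm_ne_zero_iff, norm_val ψ hx.1]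
        exact one_ne_zero
      have h4 : ψ.val x.1 = ψ.val y.1 := h1
      rw [← h4] at h2
      exact (mul_eq_right₀ h3).1 h2.symm)
    change H x.1 = H y.1
    rw [← hzx, hzu, hU u hu _ hx]) hε
  refine ⟨ι, inferInstance, κ, ψ, h1, h2, fun y hy hR => ?_⟩
  obtain ⟨u, hu, huC⟩ := hcov y hy hR
  have h4 := hf ⟨_, huC⟩
  rw [h3] at h4
  change ‖H (ue u * y) - _‖ ≤ ε at h4
  rw [hU u hu y hy] at h4
  simpa only [lnN_mul (ue_mem u).1 hy.1, lnN_ue, zero_add, val_mul _ (ue_mem u).1 hy.1,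
    h2 _ u hu, one_mul] using h4

theorem average (U E : Subgroup (𝓞 F)ˣ) [E.FiniteIndex] :
    ∃ (Q : Type) (_ : Fintype Q) (_ : Nonempty Q) (r : Q → (𝓞 F)ˣ), (∀ q, r q ∈ U) ∧
      ∀ ψ : Chr F, (∀ u ∈ E, ψ.val (ue u) = 1) →
        (∀ u ∈ U, ψ.val (ue u) = 1) ∨ ∑ q, ψ.val (ue (r q)) = 0 := by
  classical
  let Q := U ⧸ E.subgroupOf U
  have : Finite Q := Subgroup.finite_quotient_of_finiteIndex
  let _ : Fintype Q := Fintype.ofFinite Q
  refine ⟨Q, inferInstance, inferInstance, fun q => (q.out : U), fun q => q.out.2,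
    fun ψ hψ => ?_⟩
  let χ : Q →* ℂ := QuotientGroup.lift (E.subgroupOf U) ((uhom ψ).comp U.subtype)
    fun x hx => hψ _ (Subgroup.mem_subgroupOf.1 hx)
  have hχ : ∀ u : U, χ (u : Q) = ψ.val (ue u) := fun u => rfl
  by_cases h1 : χ = 1
  · left
    intro u hu
    rw [← hχ ⟨u, hu⟩, h1]
    rfl
  · right
    rw [← sum_hom_units_eq_zero χ h1]
    refine Finset.sum_congr rfl fun q _ => ?_
    rw [← hχ, QuotientGroup.out_eq']

theorem torus (U : Subgroup (𝓞 F)ˣ) [U.FiniteIndex] (H : ((F →+* ℂ) → ℂ) → ℂ) (R : ℝ)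
    (hc : ContinuousOn H (RZ F)) (hU : ∀ u ∈ U, ∀ y ∈ RZ F, H (ue u * y) = H y)
    (hR : ∀ y ∈ RZ F, R < |lnN y| → H y = 0) (ε : ℝ) (hε : 0 < ε) :
    ∃ (n : ℕ) (κ : Fin n → ℝ → ℂ) (ψ : Fin n → Chr F),
      (∀ j, Continuous (κ j) ∧ ∀ u, R + 1 < |u| → κ j u = 0) ∧
      (∀ j, ∀ u ∈ U, (ψ j).val (ue u) = 1) ∧
      ∀ y ∈ RZ F, ‖H y - ∑ j, κ j (lnN y) * (ψ j).val y‖ ≤ ε := by
  classical
  have hN0 : torsionOrder F * U.index ≠ 0 :=
    mul_ne_zero (torsionOrder_ne_zero F) Subgroup.FiniteIndex.index_ne_zero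
  have hEU : ∀ u ∈ pw F (torsionOrder F * U.index), u ∈ U := by
    rintro _ ⟨x, rfl⟩
    rw [powMonoidHom_apply, pow_mul]
    exact Subgroup.pow_index_mem U _
  obtain ⟨ι, _, κ, ψ, h1, h2, h3⟩ := approx_pw hN0 (dvd_mul_right _ _) H (R + 1) hc
    (fun u hu => hU u (hEU u hu)) hε
  have := pw_finiteIndex (F := F) hN0
  obtain ⟨Q, _, _, r, hr, hav⟩ := average U (pw F (torsionOrder F * U.index))
  let c : ℝ → ℝ := fun t => max 0 (min 1 (R + 1 - |t|))
  have hcc : Continuous c := by fun_prop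
  let G : ι → Prop := fun j => ∀ u ∈ U, (ψ j).val (ue u) = 1
  let κ' : ι → ℝ → ℂ := fun j t => if G j then (c t : ℂ) * κ j t else 0
  let ψ' : ι → Chr F := fun j => if G j then ψ j else czero
  let e := (Fintype.equivFin ι).symm
  have hshell : ∀ y ∈ RZ F, |lnN y| ≤ R + 1 →
      ‖H y - ∑ j, (if G j then κ j (lnN y) * (ψ j).val y else 0)‖ ≤ ε := by
    intro y hy hl
    have hQ : (0 : ℝ) < Fintype.card Q := by exact_mod_cast Fintype.card_pos
    have hq : ∀ q, ‖H y - ∑ j, κ j (lnN y) * ((ψ j).val (ue (r q)) * (ψ j).val y)‖ ≤ ε := by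
      intro q
      have h4 := h3 _ (mul_mem_RZ (ue_mem (r q)) hy)
        (by rwa [lnN_mul (ue_mem _).1 hy.1, lnN_ue, zero_add])
      simpa only [hU _ (hr q) y hy, lnN_mul (ue_mem _).1 hy.1, lnN_ue, zero_add,
        val_mul _ (ue_mem _).1 hy.1] using h4
    have hsum : ∑ q, (H y - ∑ j, κ j (lnN y) * ((ψ j).val (ue (r q)) * (ψ j).val y)) =
        (Fintype.card Q : ℂ) * (H y - ∑ j, (if G j then κ j (lnN y) * (ψ j).val y else 0)) := by
      rw [Finset.sum_sub_distrib, Finset.sum_const, Finset.card_univ, nsmul_eq_mul, mul_sub,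
        Finset.sum_comm, Finset.mul_sum]
      congr 1
      refine Finset.sum_congr rfl fun j _ => ?_
      split_ifs with hG
      · simp only [hG _ (hr _), one_mul, Finset.sum_const, Finset.card_univ, nsmul_eq_mul]
      · rw [← Finset.mul_sum, ← Finset.sum_mul, (hav _ (h2 j)).resolve_left hG]
        simp
    have h5 := norm_sum_le_of_le Finset.univ fun q _ => hq q
    rw [hsum, norm_mul, Complex.norm_natCast, Finset.sum_const, Finset.card_univ,
      nsmul_eq_mul] at h5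
    exact le_of_mul_le_mul_left h5 hQ
  refine ⟨Fintype.card ι, fun j => κ' (e j), fun j => ψ' (e j), fun j => ⟨?_, fun t ht => ?_⟩,
    fun j u hu => ?_, fun y hy => ?_⟩
  · simp only [κ']
    split_ifs
    · exact (Complex.continuous_ofReal.comp hcc).mul (h1 _)
    · exact continuous_const
  · have : c t = 0 := max_eq_left (min_le_of_right_le (by linarith))
    simp [κ', this]
  · simp only [ψ']
    split_ifs with hG
    · exact hG u hu
    · exact val_czero _
  · rw [e.sum_comp fun j => κ' j (lnN y) * (ψ' j).val y]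
    have h6 : ∑ j, κ' j (lnN y) * (ψ' j).val y =
        (c (lnN y) : ℂ) * ∑ j, (if G j then κ j (lnN y) * (ψ j).val y else 0) := by
      rw [Finset.mul_sum]
      refine Finset.sum_congr rfl fun j _ => ?_
      simp only [κ', ψ']
      split_ifs
      · ring
      · simp
    rw [h6]
    by_cases h7 : |lnN y| ≤ R
    · have : c (lnN y) = 1 := by
        simp only [c]
        rw [min_eq_left (by linarith), max_eq_right zero_le_one]
      rw [this, Complex.ofReal_one, one_mul]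
      exact hshell y hy (by linarith)
    · have h0 := hR y hy (not_le.1 h7)
      by_cases h8 : |lnN y| ≤ R + 1
      · have h9 := hshell y hy h8
        rw [h0, zero_sub, norm_neg] at h9 ⊢
        rw [norm_mul, Complex.norm_real, Real.norm_eq_abs, abs_of_nonneg (le_max_left _ _)]
        exact (mul_le_of_le_one_left (norm_nonneg _) (max_le zero_le_one (min_le_left _ _))).trans h9
      · have : c (lnN y) = 0 := max_eq_left (min_le_of_right_le (by linarith [not_le.1 h8]))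
        rw [h0, this]
        simpa using hε.le

end Pool.Agent.MP_14ad9d_nt.Full.TorusAux
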