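import Pool.Agent.MP_14ad9d_nt.Full.ADefs
import Pool.Agent.MP_14ad9d_nt.Weyl

set_option autoImplicit false

open Polynomial

namespace Pool.Agent.MP_14ad9d_nt.Full

namespace Weyl1Aux

open Finset

/-- distance to the nearest integer -/
noncomputable def nr (x : ℝ) : ℝ := ‖(x : UnitAddCircle)‖

lemma nr_eq (x : ℝ) : nr x = |x - round x| := UnitAddCircle.norm_eq

lemma nr_nonneg (x : ℝ) : 0 ≤ nr x := norm_nonneg _

lemma nr_le_one (x : ℝ) : nr x ≤ 1 := by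
  rw [nr_eq]; linarith [abs_sub_round x]

lemma nr_add_le (x y : ℝ) : nr (x + y) ≤ nr x + nr y := by
  unfold nr; rw [AddCircle.coe_add]; exact norm_add_le _ _

lemma nr_neg (x : ℝ) : nr (-x) = nr x := by
  unfold nr; rw [AddCircle.coe_neg, norm_neg]

lemma nr_mul_le (n : ℕ) (x : ℝ) : nr (n * x) ≤ n * nr x := by
  unfold nr; rw [← nsmul_eq_mul, AddCircle.coe_nsmul]; exact norm_nsmul_le

lemma ee_eq (x : ℝ) : ee x = Weyl.e x := by
  unfold ee Weyl.e; congr 1; ring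

lemma norm_ee (x : ℝ) : ‖ee x‖ = 1 := by rw [ee_eq, Weyl.norm_e]

lemma ee_add (x y : ℝ) : ee (x + y) = ee x * ee y := by
  unfold ee; rw [← Complex.exp_add]; congr 1; push_cast; ring

lemma ee_mul (x : ℝ) (k : ℕ) : ee (x * k) = ee x ^ k := by
  unfold ee; rw [← Complex.exp_nat_mul]; congr 1; push_cast; ring

lemma ee_sub (x y : ℝ) : ee x * (starRingEnd ℂ) (ee y) = ee (x - y) := by
  unfold ee
  rw [← Complex.exp_conj, ← Complex.exp_add]
  congr 1
  simp only [map_mul, Complex.conj_ofReal, Complex.conj_I, map_ofNat]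
  push_cast
  ring

lemma diff {R : Type} [CommRing R] {P : R[X]} {d : ℕ} (hd : P.natDegree ≤ d + 1) (r : R) :
    (taylor r P - P).natDegree ≤ d ∧
      (taylor r P - P).coeff d = (d + 1) * r * P.coeff (d + 1) := by
  constructor
  · refine natDegree_le_iff_coeff_eq_zero.2 fun n hn => ?_
    have h1 : (hasseDeriv n P).natDegree ≤ 0 := (natDegree_hasseDeriv_le P n).trans (by omega)
    rw [coeff_sub, taylor_coeff, eq_C_of_natDegree_le_zero h1, eval_C, hasseDeriv_coeff]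
    simp
  · have h1 : (hasseDeriv d P).natDegree ≤ 1 := (natDegree_hasseDeriv_le P d).trans (by omega)
    rw [coeff_sub, taylor_coeff, eq_X_add_C_of_natDegree_le_one h1]
    simp only [eval_add, eval_mul, eval_C, eval_X, hasseDeriv_coeff, zero_add, Nat.choose_self,
      add_comm 1 d, Nat.choose_succ_self_right]
    push_cast
    ring

open Classical in
/-- many small multiples force a good rational approximation -/
lemma vino {γ δ ε : ℝ} {T : ℕ} (hδ : 0 < δ) (hε : 0 < ε) (h1 : ε ≤ δ / 32) (h2 : 4 ≤ δ * T)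
    (h : δ * T ≤ (((range T).filter fun h : ℕ => nr ((h + 1) * γ) < ε).card : ℝ)) :
    ∃ q : ℕ, 1 ≤ q ∧ (q : ℝ) ≤ 8 / δ ∧ nr (q * γ) ≤ 16 * ε / (δ * T) := by
  have hT : (1 : ℝ) ≤ T := by
    rcases Nat.eq_zero_or_pos T with rfl | hT
    · norm_num at h2
    · exact_mod_cast hT
  have hX : 1 ≤ δ * T / (16 * ε) := by
    rw [le_div_iff₀ (by positivity)]; nlinarith
  obtain ⟨c, hc, hcn⟩ := Real.exists_rat_abs_sub_le_and_den_le γ
    (n := ⌊δ * T / (16 * ε)⌋₊) (Nat.floor_pos.mpr hX)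
  have hq : (0 : ℝ) < c.den := by exact_mod_cast c.pos
  have hcn' : (c.den : ℝ) ≤ ⌊δ * T / (16 * ε)⌋₊ := by exact_mod_cast hcn
  have a1 := Nat.floor_le (a := δ * T / (16 * ε)) (by positivity)
  have a2 := Nat.lt_floor_add_one (δ * T / (16 * ε))
  generalize (⌊δ * T / (16 * ε)⌋₊ : ℝ) = n at *
  have a3 := Weyl.count (η := ε) (hc.trans (by rw [sq]; gcongr; linarith)) hε.le T
  simp only [nr_eq] at h
  have e2 : (2 * T / c.den + 1 : ℝ) * (4 * c.den * ε + 1)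
      = 8 * (T * ε) + 2 * T / c.den + 4 * (c.den * ε) + 1 := by field_simp; ring
  have a4 : (c.den : ℝ) * ε ≤ δ * T / 16 := by
    have := hcn'.trans a1
    rw [le_div_iff₀ (by positivity)] at this
    linarith
  have a5 : T * ε ≤ δ * T / 32 := by nlinarith
  have a6 : δ * T / 4 ≤ 2 * T / c.den := by linarith
  refine ⟨c.den, c.pos, ?_, ?_⟩
  · rw [div_le_div_iff₀ (by norm_num) hq] at a6
    rw [le_div_iff₀ hδ]
    nlinarith
  · rw [nr_eq]
    refine (round_le _ c.num).trans ?_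
    have e3 : (c.den : ℝ) * γ - c.num = c.den * (γ - c) := by
      rw [Rat.cast_def]; field_simp
    rw [e3, abs_mul, abs_of_pos hq]
    calc _ ≤ c.den * (1 / ((n + 1) * c.den)) := by gcongr
      _ = 1 / (n + 1) := by field_simp
      _ ≤ 1 / (δ * T / (16 * ε)) := by gcongr
      _ = _ := by field_simp

/-- the statement in degree `d` with exponent `C` -/
def W (d C : ℕ) : Prop := ∀ η : ℝ, 0 < η → η ≤ 1 / 2 → ∀ L : ℕ, 1 ≤ L →
    ∀ P : ℝ[X], P.natDegree ≤ d → η * L ≤ ‖∑ k ∈ Finset.range L, ee (P.eval (k : ℝ))‖ →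
      ∃ q : ℕ, 1 ≤ q ∧ (q : ℝ) ≤ η⁻¹ ^ C ∧ nr (q * P.coeff d) ≤ η⁻¹ ^ C / (L : ℝ) ^ d

lemma base : W 1 1 := by
  intro η h0 h1 L hL P hP h
  have hL' : (0 : ℝ) < L := by exact_mod_cast hL
  refine ⟨1, le_rfl, by simpa using (one_le_inv₀ h0).2 (by linarith), ?_⟩
  simp only [Nat.cast_one, one_mul, pow_one]
  rcases (nr_nonneg (P.coeff 1)).eq_or_lt with e | e
  · rw [← e]; positivity
  · have e1 : ∀ k : ℕ, ee (P.eval (k : ℝ)) = ee (P.coeff 0) * Weyl.e (P.coeff 1) ^ k := fun k => by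
      conv_lhs => rw [eq_X_add_C_of_natDegree_le_one hP]
      simp only [eval_add, eval_mul, eval_C, eval_X]
      rw [ee_add, ee_mul, mul_comm, ee_eq (P.coeff 1)]
    simp only [e1] at h
    rw [← mul_sum, norm_mul, norm_ee, one_mul] at h
    have h2 := h.trans (Weyl.geom e (nr_eq _).le L)
    rw [le_div_iff₀ (by positivity)] at h2
    rw [le_div_iff₀ hL', ← one_div, le_div_iff₀ h0]
    nlinarith [mul_pos (mul_pos h0 hL') e]

open Classical in
/-- the differencing step -/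
lemma vdc {η : ℝ} {L : ℕ} (h2 : 2 ≤ η ^ 2 * L) (h0 : 0 < η) (P : ℝ[X])
    (h : η * L ≤ ‖∑ k ∈ range L, ee (P.eval (k : ℝ))‖) :
    η ^ 2 / 8 * L ≤ (((range L).filter fun h : ℕ => η ^ 2 / 8 * L ≤
      ‖∑ k ∈ range (L - (h + 1)), ee ((taylor ((h : ℝ) + 1) P - P).eval (k : ℝ))‖).card : ℝ) := by
  have hL : (0 : ℝ) < L := by
    rcases Nat.eq_zero_or_pos L with rfl | hT
    · norm_num at h2
    · exact_mod_cast hT
  have a1 : (η * L) ^ 2 ≤ ‖∑ k ∈ range L, ee (P.eval (k : ℝ))‖ ^ 2 := by gcongr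
  rw [Complex.sq_norm, Weyl.normSq_sum] at a1
  simp only [Complex.normSq_eq_norm_sq, norm_ee, one_pow, sum_const, card_range, nsmul_eq_mul,
    mul_one, ee_sub] at a1
  have a2 : ∀ h ∈ range L, ‖∑ s ∈ range (L - (h + 1)),
      ee (P.eval ((s + h + 1 : ℕ) : ℝ) - P.eval (s : ℝ))‖ ≤ η ^ 2 / 8 * L +
      if η ^ 2 / 8 * L ≤ ‖∑ k ∈ range (L - (h + 1)),
        ee ((taylor ((h : ℝ) + 1) P - P).eval (k : ℝ))‖ then (L : ℝ) else 0 := by
    intro h _
    have e : ∀ s : ℕ, P.eval ((s + h + 1 : ℕ) : ℝ) - P.eval (s : ℝ)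
        = (taylor ((h : ℝ) + 1) P - P).eval (s : ℝ) := fun s => by
      rw [eval_sub, taylor_eval]; push_cast; rw [add_assoc]
    simp only [e]
    split_ifs with h3
    · refine (norm_sum_le _ _).trans ?_
      simp only [norm_ee, sum_const, card_range, nsmul_eq_mul, mul_one]
      have : ((L - (h + 1) : ℕ) : ℝ) ≤ L := by exact_mod_cast Nat.sub_le _ _
      have : 0 < η ^ 2 / 8 * L := by positivity
      linarith
    · rw [add_zero]; exact (not_le.1 h3).le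
  have a3 := (Complex.re_le_norm _).trans ((norm_sum_le _ _).trans (sum_le_sum a2))
  rw [sum_add_distrib, ← sum_filter, sum_const, sum_const, card_range, nsmul_eq_mul,
    nsmul_eq_mul] at a3
  refine le_of_mul_le_mul_right ?_ hL
  nlinarith

lemma step {d C : ℕ} (hd : 1 ≤ d) (ih : W d C) : W (d + 1) (5 * ((2 * C + d + 3) * (d + 1))) := by
  classical
  intro η h0 h1 L hL P hP h
  have hL' : (1 : ℝ) ≤ L := by exact_mod_cast hL
  have E2 : 2 ≤ η⁻¹ := by rw [le_inv_comm₀ (by norm_num) h0]; linarith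
  obtain ⟨F, hF⟩ : ∃ F : ℝ, F = 8 * η⁻¹ ^ 2 := ⟨_, rfl⟩
  have F1 : 32 ≤ F := by nlinarith
  have F0 : 1 ≤ F := by linarith
  have F2 : F ≤ η⁻¹ ^ 5 := by
    have : (2 : ℝ) ^ 3 ≤ η⁻¹ ^ 3 := by gcongr
    rw [hF, show η⁻¹ ^ 5 = η⁻¹ ^ 3 * η⁻¹ ^ 2 by ring]
    gcongr
    linarith
  have F3 : η ^ 2 / 8 = F⁻¹ := by rw [hF]; field_simp
  set K := 2 * C + d + 3 with hK
  have F4 : F ^ (K * (d + 1)) ≤ η⁻¹ ^ (5 * (K * (d + 1))) := by
    rw [pow_mul _ 5]; gcongr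
  have F5 : F ^ K ≤ η⁻¹ ^ (5 * (K * (d + 1))) :=
    (pow_le_pow_right₀ F0 (Nat.le_mul_of_pos_right _ (by omega))).trans F4
  rcases le_total (L : ℝ) (F ^ K) with hs | hs
  · refine ⟨1, le_rfl, by simpa using (one_le_pow₀ F0).trans F5, (nr_le_one _).trans ?_⟩
    rw [le_div_iff₀ (by positivity), one_mul]
    refine le_trans ?_ F4
    rw [pow_mul]; gcongr
  have G1 : ∀ j, j + 2 ≤ K → 64 * F ^ j ≤ L := fun j hj => by
    refine le_trans ?_ ((pow_le_pow_right₀ F0 hj).trans hs)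
    rw [pow_add, mul_comm]
    gcongr
    nlinarith
  have a1 := vdc (L := L) (by
    have := G1 1 (by omega)
    have e : η ^ 2 = 8 / F := by rw [div_eq_mul_inv 8, ← F3]; ring
    rw [e, div_mul_eq_mul_div, le_div_iff₀ (by positivity)]
    nlinarith) h0 P h
  rw [F3] at a1
  set β := P.coeff (d + 1)
  set ε : ℝ := 2 * F ^ (C + d) / (L : ℝ) ^ d with hε
  have ε0 : 0 < ε := by positivity
  set Q := ⌊F ^ C⌋₊ with hQ
  have Q1 : (Q : ℝ) ≤ F ^ C := Nat.floor_le (by positivity)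
  have Q2 : 1 ≤ Q := Nat.le_floor (by simpa using one_le_pow₀ F0)
  have a2 : ((range L).filter fun h : ℕ => F⁻¹ * L ≤
      ‖∑ k ∈ range (L - (h + 1)), ee ((taylor ((h : ℝ) + 1) P - P).eval (k : ℝ))‖) ⊆
      (Icc 1 Q).biUnion fun q => (range L).filter fun h : ℕ =>
        nr ((h + 1) * (q * (d + 1) * β)) < ε := by
    intro h hh
    obtain ⟨b1, b2⟩ := mem_filter.1 hh
    have b3 : F⁻¹ * L ≤ ((L - (h + 1) : ℕ) : ℝ) := b2.trans ((norm_sum_le _ _).trans (by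
      simp [norm_ee]))
    have b4 : (0 : ℝ) < ((L - (h + 1) : ℕ) : ℝ) := lt_of_lt_of_le (by positivity) b3
    have b5 : ((L - (h + 1) : ℕ) : ℝ) ≤ L := by exact_mod_cast Nat.sub_le _ _
    obtain ⟨q, q1, q2, q3⟩ := ih F⁻¹ (by positivity)
      (by rw [inv_le_comm₀ (by positivity) (by norm_num)]; linarith) (L - (h + 1))
      (by exact_mod_cast b4) _ (diff hP ((h : ℝ) + 1)).1 (le_trans (by gcongr) b2)
    rw [inv_inv] at q2 q3
    refine mem_biUnion.2 ⟨q, mem_Icc.2 ⟨q1, Nat.le_floor q2⟩, mem_filter.2 ⟨b1, ?_⟩⟩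
    rw [(diff hP ((h : ℝ) + 1)).2] at q3
    rw [show ((h : ℝ) + 1) * (q * (d + 1) * β) = q * ((d + 1) * (h + 1) * β) by ring]
    refine q3.trans_lt ?_
    calc F ^ C / ((L - (h + 1) : ℕ) : ℝ) ^ d ≤ F ^ C / (F⁻¹ * L) ^ d := by gcongr
      _ = F ^ (C + d) / (L : ℝ) ^ d := by rw [mul_pow, inv_pow, pow_add]; field_simp
      _ < ε := by
        rw [hε, mul_div_assoc]
        have : 0 < F ^ (C + d) / (L : ℝ) ^ d := by positivity
        linarith
  have a3 := a1.trans (Nat.cast_le.2 ((card_le_card a2).trans card_biUnion_le))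
  obtain ⟨q, hq, a4⟩ := exists_le_of_sum_le (s := Icc (1 : ℕ) Q) (nonempty_Icc.2 Q2)
    (f := fun _ : ℕ => (F ^ (C + 1))⁻¹ * (L : ℝ))
    (g := fun q : ℕ => (((range L).filter fun h : ℕ =>
      nr ((h + 1) * (q * (d + 1) * β)) < ε).card : ℝ)) (by
      rw [Nat.cast_sum] at a3
      refine le_trans ?_ a3
      rw [sum_const, Nat.card_Icc, add_tsub_cancel_right, nsmul_eq_mul, ← mul_assoc]
      gcongr
      calc (Q : ℝ) * (F ^ (C + 1))⁻¹ ≤ F ^ C * (F ^ (C + 1))⁻¹ := by gcongr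
        _ = F⁻¹ := by rw [pow_succ]; field_simp)
  obtain ⟨q1, q2⟩ := mem_Icc.1 hq
  have q3 : (q : ℝ) ≤ F ^ C := le_trans (by exact_mod_cast q2) Q1
  obtain ⟨q', r1, r2, r3⟩ := vino (by positivity) ε0 (by
      have b1 := G1 (C + d + (C + 1)) (by omega)
      have b2 : (L : ℝ) ≤ (L : ℝ) ^ d := le_self_pow₀ hL' (by omega)
      rw [hε, div_le_div_iff₀ (by positivity) (by norm_num), inv_mul_eq_div,
        le_div_iff₀ (by positivity)]
      rw [pow_add] at b1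
      linarith) (by
      have b1 := G1 (C + 1) (by omega)
      rw [inv_mul_eq_div, le_div_iff₀ (by positivity)]
      have : 0 < F ^ (C + 1) := by positivity
      linarith) a4
  refine ⟨q' * q * (d + 1), by nlinarith [Nat.mul_pos r1 q1], le_trans ?_ F5, ?_⟩
  · have b1 : ((d + 1 : ℕ) : ℝ) ≤ F ^ d := by
      have : d + 1 ≤ 2 ^ d := Nat.lt_two_pow_self
      calc ((d + 1 : ℕ) : ℝ) ≤ (2 : ℝ) ^ d := by exact_mod_cast this
        _ ≤ F ^ d := by gcongr; linarith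
    rw [div_inv_eq_mul] at r2
    rw [Nat.cast_mul, Nat.cast_mul]
    calc (q' : ℝ) * q * ((d + 1 : ℕ) : ℝ) ≤ (F ^ 2 * F ^ (C + 1)) * F ^ C * F ^ d := by
          gcongr
          exact r2.trans (by gcongr; nlinarith)
      _ = F ^ K := by rw [hK]; ring
  · push_cast
    rw [show (q' : ℝ) * q * (d + 1) * β = q' * (q * (d + 1) * β) by ring]
    refine r3.trans (le_trans ?_ (div_le_div_of_nonneg_right F5 (by positivity)))
    calc 16 * ε / ((F ^ (C + 1))⁻¹ * L) = 32 * F ^ (2 * C + d + 1) / (L : ℝ) ^ (d + 1) := by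
          rw [hε]; field_simp; ring
      _ ≤ F ^ 2 * F ^ (2 * C + d + 1) / (L : ℝ) ^ (d + 1) := by gcongr; nlinarith
      _ = _ := by rw [hK]; ring

end Weyl1Aux

/-- inverse theorem for one-dimensional Weyl sums, with no loss of a power of the length -/
theorem weyl1 (d : ℕ) (hd : 1 ≤ d) : ∃ C : ℕ, ∀ η : ℝ, 0 < η → η ≤ 1 / 2 → ∀ L : ℕ, 1 ≤ L →
    ∀ P : ℝ[X], P.natDegree ≤ d → η * L ≤ ‖∑ k ∈ Finset.range L, ee (P.eval (k : ℝ))‖ →
      ∃ q : ℕ, 1 ≤ q ∧ (q : ℝ) ≤ η⁻¹ ^ C ∧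
        ‖(((q : ℝ) * P.coeff d : ℝ) : UnitAddCircle)‖ ≤ η⁻¹ ^ C / (L : ℝ) ^ d := by
  induction d, hd using Nat.le_induction with
  | base => exact ⟨1, Weyl1Aux.base⟩
  | succ d hd ih =>
    obtain ⟨C, hC⟩ := ih
    exact ⟨_, Weyl1Aux.step hd hC⟩

end Pool.Agent.MP_14ad9d_nt.Full
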